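import Pool.Agent.H530.HvE

/-! Windows of length `A log y`: the decorrelation theorem and exact patterns. -/

set_option autoImplicit false

namespace Pool.Agent.H530.Hv

open Finset Filter Pool.Agent.W123.RP Pool.Agent.W123.RU Pool.Agent.TH464.PO Pool.Agent.H530.Ha
open Pool.Agent.H373R2.T7 hiding RQ

/-- no prime factor up to `y` -/
def Rgh (y m : ℕ) : Prop := ∀ p ∈ pz y, ¬ p ∣ m

open Classical in
/-- the sifted tuples `n + Z + t`, `t ∈ S` -/
noncomputable def GS (y Z X : ℕ) (S : Finset ℕ) : Finset ℕ :=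
  (Icc 1 X).filter (fun n => ∀ t ∈ S, Rgh y (n + Z + t))

open Classical in
/-- the sifted numbers of the window -/
noncomputable def Cfg (y Z T n : ℕ) : Finset ℕ := (Icc 1 T).filter (fun t => Rgh y (n + Z + t))

lemma sf_iff (Z y n t : ℕ) : Sf (Q1 Z) y (n + t) ↔ Rgh y (n + Z + t) := by
  unfold Sf Q1 Rgh
  have : n + t + Z = n + Z + t := by ring
  rw [this]

lemma RQ_GS (Z X y : ℕ) (S : Finset ℕ) : RQ (QH (Q1 Z) S) X y = GS y Z X S := by
  ext n
  classical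
  rw [mem_RQ, sf_QH]
  unfold GS
  rw [mem_filter]
  simp only [sf_iff]

lemma Vq_Q1 (Z y : ℕ) : Vq (Q1 Z) y = Vz y := by
  unfold Vq Vz
  apply Finset.prod_congr rfl
  intro p hp
  rw [nu_Q1 Z p (mem_pz.1 hp).2, Nat.cast_one]

lemma NS_max (Z T T0 : ℕ) (S : Finset ℕ) (y n : ℕ) :
    NS Z T S y n = (NS Z (max T T0) S y n).filter (fun u => u ≤ T) := by
  classical
  ext u
  unfold NS
  simp only [mem_filter, Finset.mem_sdiff, mem_Icc]
  constructor
  · rintro ⟨⟨⟨a1, a2⟩, a3⟩, a4⟩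
    exact ⟨⟨⟨⟨a1, a2.trans (le_max_left _ _)⟩, a3⟩, a4⟩, a2⟩
  · rintro ⟨⟨⟨⟨a1, _⟩, a3⟩, a4⟩, a5⟩
    exact ⟨⟨⟨a1, a5⟩, a3⟩, a4⟩

lemma Cfg_eq (Z X T y n : ℕ) (S : Finset ℕ) (hS : S ⊆ Icc 1 T) (hn : n ∈ GS y Z X S) :
    Cfg y Z T n = NS Z T S y n ∪ S := by
  classical
  unfold GS at hn
  rw [mem_filter] at hn
  ext u
  unfold Cfg NS
  simp only [mem_filter, mem_union, Finset.mem_sdiff, sf_iff]
  constructor
  · rintro ⟨a1, a2⟩
    by_cases h : u ∈ S
    · exact Or.inr h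
    · exact Or.inl ⟨⟨a1, h⟩, a2⟩
  · rintro (⟨⟨a1, _⟩, a3⟩ | h)
    · exact ⟨a1, a3⟩
    · exact ⟨hS h, hn.2 u h⟩

/-- the parameters of the windows -/
lemma params (A : ℝ) (hA : 0 < A) (T0 : ℕ) : ∃ x0 : ℝ, 0 ≤ x0 ∧ (∃ y1 : ℕ, ∀ y Z T : ℕ, y1 ≤ y →
    (T : ℝ) ≤ A * Real.log y → (T : ℝ) * Vq (Q1 Z) y ≤ x0) := by
  obtain ⟨c, C, hc, hC, hV⟩ := Vz_bounds
  refine ⟨A * C, by positivity, 2, ?_⟩
  intro y Z T hy hT
  rw [Vq_Q1]
  have h1 := (hV y hy).2
  have hl : 0 < Real.log y := Real.log_pos (by exact_mod_cast (by omega : 1 < y))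
  calc (T : ℝ) * Vz y ≤ (A * Real.log y) * (C / Real.log y) := by
        apply mul_le_mul hT h1 (Pool.Agent.H373R2.T7.Vz_pos y).le (by positivity)
    _ = A * C := by field_simp

/-- a bound for the windows which does not depend on the level of uniformity -/
lemma params' (A : ℝ) (hA : 0 < A) : ∃ x0 : ℝ, 0 ≤ x0 ∧ ∀ T0 : ℕ, ∃ y1 : ℕ, ∀ y Z T : ℕ, y1 ≤ y →
    (T : ℝ) ≤ A * Real.log y → ((max T T0 : ℕ) : ℝ) * Vq (Q1 Z) y ≤ x0 := by
  obtain ⟨c, C, hc, hC, hV⟩ := Vz_bounds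
  refine ⟨A * C + 1, by positivity, fun T0 => ?_⟩
  obtain ⟨y1, hy1⟩ := Filter.eventually_atTop.1 ((Real.tendsto_log_atTop.comp
    (tendsto_natCast_atTop_atTop (R := ℝ))).eventually_ge_atTop (T0 * C))
  refine ⟨max y1 2, ?_⟩
  intro y Z T hy hT
  rw [Vq_Q1]
  have hy2 : 2 ≤ y := (le_max_right _ _).trans hy
  have h1 := (hV y hy2).2
  have hl : 0 < Real.log y := Real.log_pos (by exact_mod_cast (by omega : 1 < y))
  have h2 := hy1 y ((le_max_left _ _).trans hy)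
  simp only [Function.comp_def] at h2
  have hV0 := (Pool.Agent.H373R2.T7.Vz_pos y).le
  rcases le_total T T0 with h | h
  · rw [max_eq_right h]
    have h3 : (T0 : ℝ) * Vz y ≤ T0 * (C / Real.log y) := mul_le_mul_of_nonneg_left h1 (Nat.cast_nonneg _)
    have h4 : T0 * (C / Real.log y) ≤ 1 := by
      rw [← mul_div_assoc, div_le_one hl]
      exact h2
    have : 0 ≤ A * C := by positivity
    linarith
  · rw [max_eq_left h]
    have h3 : (T : ℝ) * Vz y ≤ (A * Real.log y) * (C / Real.log y) := by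
      apply mul_le_mul hT h1 hV0 (by positivity)
    have h4 : (A * Real.log y) * (C / Real.log y) = A * C := by field_simp
    linarith

/-- **The decorrelation theorem.** -/
theorem decor (s : ℕ) (A ε : ℝ) (hA : 0 < A) (hε : 0 < ε) : ∃ K : ℕ, 1 ≤ K ∧ ∀ B : ℕ,
    ∃ X0 y0 : ℕ, ∀ X y Z T : ℕ, ∀ S : Finset ℕ, X0 ≤ X → y0 ≤ y → y ^ K ≤ X → (T : ℝ) ≤ A * Real.log y →
      S ⊆ Icc 1 T → S.card ≤ s → (Z : ℝ) ≤ X * Real.log X ^ B → ∀ f : Finset ℕ → ℝ, (∀ P, |f P| ≤ 1) →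
      ∀ u ∈ S, |∑ n ∈ GS y Z X S, f (Cfg y Z T n) * la (n + Z + u)| ≤ ε * (GS y Z X S).card := by
  classical
  obtain ⟨x0, hx0, hpar⟩ := params' A hA
  obtain ⟨K, hK, T0, H0⟩ := decor0 s x0 ε hx0 hε
  obtain ⟨y1, hy1⟩ := hpar T0
  refine ⟨K, hK, fun B => ?_⟩
  obtain ⟨X0, y0, H1⟩ := H0 (B + 1)
  obtain ⟨X2, hX2⟩ := Filter.eventually_atTop.1 ((Real.tendsto_log_atTop.comp
    (tendsto_natCast_atTop_atTop (R := ℝ))).eventually_ge_atTop (A + 2))
  refine ⟨X0 + X2 + 1, y0 + y1 + 1, ?_⟩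
  intro X y Z T S hX hy hyX hT hS hSs hZ f hf u hu
  have hl := hX2 X (by omega)
  simp only [Function.comp_def] at hl
  have hXr : (1 : ℝ) ≤ X := by exact_mod_cast (by omega : 1 ≤ X)
  have hyX1 : y ≤ X := (Nat.le_self_pow (by omega) y).trans hyX
  have hSr : S ⊆ range (max T T0 + 1) := by
    intro t ht
    have := mem_Icc.1 (hS ht)
    rw [mem_range]
    omega
  have huT := mem_Icc.1 (hS hu)
  have h1 := H1 X y Z (max T T0) S (by omega) (by omega) hyX (le_max_right _ _) hSr hSs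
    (hy1 y Z T (by omega) hT) (fun P => f (P.filter (fun v => v ≤ T) ∪ S)) (fun P => hf _) u hu (by
      have h2 : (u : ℝ) ≤ A * Real.log X := by
        have : (u : ℝ) ≤ T := by exact_mod_cast huT.2
        refine this.trans (hT.trans ?_)
        apply mul_le_mul_of_nonneg_left _ hA.le
        apply Real.log_le_log
        · exact_mod_cast (by omega : 0 < y)
        · exact_mod_cast hyX1
      have h3 : Real.log X ≤ X := (Real.log_le_self (by linarith))
      have h4 : (1 : ℝ) ≤ Real.log X ^ B := one_le_pow₀ (by linarith)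
      have h5 : A * Real.log X ≤ X * Real.log X ^ B * A := by
        calc A * Real.log X ≤ A * X := mul_le_mul_of_nonneg_left h3 hA.le
          _ = X * 1 * A := by ring
          _ ≤ _ := by gcongr
      have h6 : 0 ≤ X * Real.log X ^ B := by positivity
      push_cast
      calc (Z : ℝ) + u ≤ X * Real.log X ^ B + X * Real.log X ^ B * A := by linarith
        _ = X * Real.log X ^ B * (1 + A) := by ring
        _ ≤ X * Real.log X ^ B * Real.log X := by
          apply mul_le_mul_of_nonneg_left _ h6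
          linarith
        _ = _ := by rw [pow_succ]; ring)
  rw [RQ_GS] at h1
  refine le_trans (le_of_eq ?_) h1
  congr 1
  apply Finset.sum_congr rfl
  intro n hn
  rw [Cfg_eq Z X T y n S hS hn, ← NS_max]
  congr 2
  ring

/-- **Exact patterns have positive relative density.** -/
theorem exact_pat (s : ℕ) (A : ℝ) (hA : 0 < A) : ∃ c : ℝ, 0 < c ∧ ∃ K : ℕ, 1 ≤ K ∧
    ∃ X0 y0 : ℕ, ∀ X y Z T : ℕ, ∀ S : Finset ℕ, X0 ≤ X → y0 ≤ y → y ^ K ≤ X → (T : ℝ) ≤ A * Real.log y →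
      S ⊆ Icc 1 T → S.card ≤ s →
      c * (GS y Z X S).card ≤ ((GS y Z X S).filter (fun n => Cfg y Z T n = S)).card := by
  classical
  obtain ⟨x0, hx0, hpar⟩ := params' A hA
  obtain ⟨R, η, hη, hlaw⟩ := law_tv x0 (Real.exp (-x0) / 2) hx0 (by positivity)
  obtain ⟨K, hK, T0, H0⟩ := core s R x0 η hx0 hη
  obtain ⟨y1, hy1⟩ := hpar T0
  obtain ⟨X0, y0, H1⟩ := H0 0
  refine ⟨Real.exp (-x0) / 2, by positivity, K, hK, X0, y0 + y1, ?_⟩
  intro X y Z T S hX hy hyX hT hS hSs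
  have hSr : S ⊆ range (max T T0 + 1) := by
    intro t ht
    have := mem_Icc.1 (hS ht)
    rw [mem_range]
    omega
  have hx := hy1 y Z T (by omega) hT
  obtain ⟨h1, _⟩ := H1 X y Z (max T T0) S (by omega) (by omega) hyX (le_max_right _ _) hSr hSs hx
  rw [RQ_GS] at h1
  have h2 := hlaw (GS y Z X S) (fun n => (NS Z (max T T0) S y n).card) _
    (mul_nonneg (Nat.cast_nonneg _) (Vq_nonneg _ _)) hx h1 {0}
  rw [Finset.sum_singleton, pow_zero, mul_one, Nat.factorial_zero, Nat.cast_one, div_one] at h2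
  have h3 := (abs_le.1 h2).1
  have h4 : Real.exp (-x0) ≤ Real.exp (-(((max T T0 : ℕ) : ℝ) * Vq (Q1 Z) y)) :=
    Real.exp_le_exp.2 (by linarith)
  have h5 : (((GS y Z X S).filter (fun n => (NS Z (max T T0) S y n).card ∈ ({0} : Finset ℕ))).card : ℝ) ≤
      ((GS y Z X S).filter (fun n => Cfg y Z T n = S)).card := by
    have : ((GS y Z X S).filter (fun n => (NS Z (max T T0) S y n).card ∈ ({0} : Finset ℕ))) ⊆
        (GS y Z X S).filter (fun n => Cfg y Z T n = S) := by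
      intro n hn
      rw [mem_filter, mem_singleton, Finset.card_eq_zero] at hn
      rw [mem_filter]
      refine ⟨hn.1, ?_⟩
      rw [Cfg_eq Z X T y n S hS hn.1, NS_max Z T T0, hn.2]
      simp
    exact_mod_cast card_le_card this
  have h6 : (0 : ℝ) ≤ (GS y Z X S).card := Nat.cast_nonneg _
  have h7 := mul_le_mul_of_nonneg_left h4 h6
  nlinarith

end Pool.Agent.H530.Hv
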