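import Pool.Agent.H530.HwB
import Pool.Agent.H530.HvF

/-! The Liouville function at ANY linear form is uncorrelated with the configuration of sifted integers near a
sifted tuple. -/

set_option autoImplicit false

namespace Pool.Agent.H530.Ha

open Finset Pool.Agent.H373R2.T7 Filter

open Classical in
/-- all forms, also those outside of the sieve, with the count -/
theorem all_F (k : ℕ) (hk : 1 ≤ k) : ∃ c : ℝ, 0 < c ∧ ∀ ε : ℝ, 0 < ε → ∃ K : ℕ, 1 ≤ K ∧ ∀ B' : ℕ,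
    ∃ X0 y0 : ℕ, ∀ Q : ℕ → ℕ → Prop, Sv k Q → ∀ X y : ℕ, X0 ≤ X → y0 ≤ y → y ^ K ≤ X →
      c * (X / Real.log X ^ k) ≤ (RQ Q X y).card ∧
      |((RQ Q X y).card : ℝ) - X * ∏ p ∈ pz y, (1 - (nuB Q p : ℝ) / p)| ≤ ε * (RQ Q X y).card ∧
      ∀ (a : ℕ) (b : ℤ), 1 ≤ a → (a : ℝ) ≤ Real.log X ^ B' → |(b : ℝ)| ≤ X * Real.log X ^ B' →
        |∑ n ∈ RQ Q X y, lz (a * n + b)| ≤ ε * (RQ Q X y).card := by
  obtain ⟨c, hc, H0⟩ := all_Q k hk
  refine ⟨c, hc, fun ε hε => ?_⟩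
  obtain ⟨K0, hK0, H0⟩ := H0 ε hε
  obtain ⟨K1, hK1, H1⟩ := one_F k (ε / 2) (by positivity)
  refine ⟨K0 + K1, by omega, fun B' => ?_⟩
  obtain ⟨X0, y0, H0⟩ := H0 B'
  obtain ⟨X1, y1, H1⟩ := H1 B'
  obtain ⟨X2, hX2⟩ := ev_L' (max 1 (2 / (c * ε)))
  refine ⟨X0 + X1 + X2 + 1, y0 + y1 + 1, ?_⟩
  intro Q hQ X y hX hy hyX
  obtain ⟨g1, g2, _⟩ := H0 Q hQ X y (by omega) (by omega) ((Nat.pow_le_pow_right (by omega) (by omega)).trans hyX)
  refine ⟨g1, g2, ?_⟩
  have g3 := H1 Q hQ X y (by omega) (by omega) ((Nat.pow_le_pow_right (by omega) (by omega)).trans hyX)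
  have hXr : (1 : ℝ) ≤ X := by exact_mod_cast (by omega : 1 ≤ X)
  have hl := hX2 X (by omega)
  obtain ⟨L, hL⟩ : ∃ L : ℝ, L = Real.log X := ⟨_, rfl⟩
  rw [← hL] at g1 hl g3 ⊢
  have hL1 : 1 ≤ L := (le_max_left _ _).trans hl
  have hLc : 2 / (c * ε) ≤ L := (le_max_right _ _).trans hl
  have g4 : (X : ℝ) / L ^ (k + 1) ≤ ε / 2 * (RQ Q X y).card := by
    rw [div_le_iff₀ (by positivity)] at hLc
    have e1 : (X : ℝ) / L ^ (k + 1) ≤ ε / 2 * (c * (X / L ^ k)) := by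
      have e2 : ε / 2 * (c * (X / L ^ k)) = (L * (c * ε) / 2) * (X / L ^ (k + 1)) := by
        field_simp
        ring
      rw [e2]
      have e3 : 0 ≤ (X : ℝ) / L ^ (k + 1) := by positivity
      nlinarith
    refine e1.trans ?_
    apply mul_le_mul_of_nonneg_left g1 (by positivity)
  intro a b ha haX hbX
  -- reduce to a primitive form
  obtain ⟨g, hg⟩ : ∃ g : ℕ, g = Int.gcd (a : ℤ) b := ⟨_, rfl⟩
  have hg1 : (g : ℤ) ∣ a := by rw [hg]; exact Int.gcd_dvd_left _ _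
  have hg2 : (g : ℤ) ∣ b := by rw [hg]; exact Int.gcd_dvd_right _ _
  have hga : g ∣ a := Int.natCast_dvd_natCast.1 hg1
  have hgpos : 1 ≤ g := Nat.pos_of_dvd_of_pos hga ha
  obtain ⟨a', ha'⟩ := hga
  obtain ⟨b', hb'⟩ := hg2
  have ha'1 : 1 ≤ a' := by
    rcases Nat.eq_zero_or_pos a' with h | h
    · rw [h, mul_zero] at ha'
      omega
    · exact h
  have hgr : (1 : ℝ) ≤ g := by exact_mod_cast hgpos
  have hprim : ∀ p : ℕ, p.Prime → p ∣ a' → ¬ (p : ℤ) ∣ b' := by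
    intro p hp h1 h2
    have h3 : ((g * p : ℕ) : ℤ) ∣ a := by
      rw [Int.natCast_dvd_natCast, ha']
      exact Nat.mul_dvd_mul_left _ h1
    have h4 : ((g * p : ℕ) : ℤ) ∣ b := by
      rw [hb', Nat.cast_mul]
      exact mul_dvd_mul_left _ h2
    have h5 := Int.dvd_coe_gcd h3 h4
    rw [← hg, Int.natCast_dvd_natCast] at h5
    have h6 := Nat.le_of_dvd hgpos h5
    have h7 := hp.two_le
    nlinarith
  have haa : (a' : ℝ) ≤ a := by
    have : a' ≤ a := by
      rw [ha']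
      exact Nat.le_mul_of_pos_left _ hgpos
    exact_mod_cast this
  have hbb : |(b' : ℝ)| ≤ |(b : ℝ)| := by
    have e1 : (b : ℝ) = g * b' := by exact_mod_cast hb'
    rw [e1, abs_mul, abs_of_pos (show (0 : ℝ) < g by linarith)]
    have := abs_nonneg (b' : ℝ)
    nlinarith
  have g5 := g3 a' b' ha'1 hprim (haa.trans haX) (hbb.trans hbX)
  have e4 : ∀ n ∈ RQ Q X y, lz (a * n + b) = lz g * lz (a' * n + b') := by
    intro n _
    rw [← lz_mul, hb', ha']
    congr 1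
    push_cast
    ring
  rw [sum_congr rfl e4, ← mul_sum, abs_mul]
  calc |lz g| * |∑ n ∈ RQ Q X y, lz (a' * n + b')| ≤ 1 * (ε / 2 * (RQ Q X y).card + X / L ^ (k + 1)) :=
        mul_le_mul (lz_abs _) g5 (abs_nonneg _) zero_le_one
    _ ≤ _ := by linarith

end Pool.Agent.H530.Ha

namespace Pool.Agent.H530.Hv

open Finset Filter Pool.Agent.W123.RP Pool.Agent.W123.RU Pool.Agent.TH464.PO Pool.Agent.H530.Ha
open Pool.Agent.H373R2.T7 hiding RQ

/-- long windows, for a general function -/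
theorem decorH (s : ℕ) (x0 ε : ℝ) (hx0 : 0 ≤ x0) (hε : 0 < ε) : ∃ (L : ℕ) (e : ℝ), 0 < e ∧ ∃ K : ℕ, 1 ≤ K ∧
    ∃ T0 X0 y0 : ℕ, ∀ X y Z T : ℕ, ∀ S : Finset ℕ, X0 ≤ X → y0 ≤ y → y ^ K ≤ X → T0 ≤ T → S ⊆ range (T + 1) →
      S.card ≤ s → T * Vq (Q1 Z) y ≤ x0 → ∀ g : Finset ℕ → ℝ, (∀ P, |g P| ≤ 1) →
      ∀ h : ℕ → ℝ, (∀ n, |h n| ≤ 1) → (∀ U ⊆ Icc 1 T \ S, U.card ≤ L →
        |∑ n ∈ RQ (QH (Q1 Z) (U ∪ S)) X y, h n| ≤ e * (RQ (QH (Q1 Z) (U ∪ S)) X y).card) →
        |∑ n ∈ RQ (QH (Q1 Z) S) X y, g (NS Z T S y n) * h n| ≤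
          ε * (RQ (QH (Q1 Z) S) X y).card := by
  obtain ⟨r1, hr1⟩ : ∃ r1 : ℕ, 4 * (x0 + 1) / ε ≤ r1 := exists_nat_ge _
  obtain ⟨J, hJ⟩ := exists_small x0 (Real.exp x0) (ε / 4) (by positivity)
  obtain ⟨L, hL⟩ : ∃ L, L = r1 + (J + 1) := ⟨_, rfl⟩
  obtain ⟨Cst, hCst⟩ : ∃ Cst : ℝ, Cst = ∑ r ∈ range (r1 + 1), ∑ i ∈ range (J + 2), ((r + i).choose r : ℝ) := ⟨_, rfl⟩
  have hCst0 : 0 ≤ Cst := by
    rw [hCst]
    exact Finset.sum_nonneg fun _ _ => Finset.sum_nonneg fun _ _ => Nat.cast_nonneg _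
  obtain ⟨Bd, hBd⟩ : ∃ Bd : ℝ, Bd = (1 + x0) ^ L + 1 := ⟨_, rfl⟩
  have hBd1 : 1 ≤ Bd := by
    rw [hBd]
    have : (1 : ℝ) ≤ (1 + x0) ^ L := one_le_pow₀ (by linarith)
    linarith
  obtain ⟨e, he⟩ : ∃ e : ℝ, e = min 1 (ε / (4 * ((Cst + 1) * Bd))) := ⟨_, rfl⟩
  have he0 : 0 < e := by rw [he]; exact lt_min (by norm_num) (by positivity)
  have he1 : e ≤ 1 := by rw [he]; exact min_le_left _ _
  have heε : e * (Bd * Cst) ≤ ε / 4 := by
    have h1 : e ≤ ε / (4 * ((Cst + 1) * Bd)) := by rw [he]; exact min_le_right _ _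
    rw [le_div_iff₀ (by positivity)] at h1
    have h2 : e * (Bd * Cst) ≤ e * ((Cst + 1) * Bd) := by
      apply mul_le_mul_of_nonneg_left _ he0.le
      nlinarith
    linarith
  have heε' : e * Cst ≤ ε / 4 := by
    refine le_trans ?_ heε
    apply mul_le_mul_of_nonneg_left _ he0.le
    nlinarith
  obtain ⟨K, hK, T0, H0⟩ := core s L x0 e hx0 he0
  refine ⟨L, e, he0, K, hK, T0, ?_⟩
  obtain ⟨X0, y0, H1⟩ := H0 0
  refine ⟨X0, y0, ?_⟩
  intro X y Z T S hX hy hyX hT hST hSs hTx g hg h hh1 H4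
  obtain ⟨H2, _⟩ := H1 X y Z T S hX hy hyX hT hST hSs hTx
  obtain ⟨x, hx⟩ : ∃ x : ℝ, x = T * Vq (Q1 Z) y := ⟨_, rfl⟩
  have hxn : 0 ≤ x := by rw [hx]; exact mul_nonneg (Nat.cast_nonneg _) (Vq_nonneg _ _)
  rw [← hx] at hTx H2
  obtain ⟨G, hG⟩ : ∃ G, G = RQ (QH (Q1 Z) S) X y := ⟨_, rfl⟩
  obtain ⟨a, ha⟩ : ∃ a : ℝ, a = (G.card : ℝ) := ⟨_, rfl⟩
  have ha0 : 0 ≤ a := by rw [ha]; exact Nat.cast_nonneg _
  rw [← hG, ← ha] at H2 ⊢
  obtain ⟨N, hN⟩ : ∃ N : ℕ → Finset ℕ, N = fun n => NS Z T S y n := ⟨_, rfl⟩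
  obtain ⟨M, hM⟩ : ∃ M : ℕ → ℝ, M = fun j => ∑ n ∈ G, ((N n).card.choose j : ℝ) := ⟨_, rfl⟩
  have hMb : ∀ j ≤ L, M j ≤ (x ^ j / j.factorial + e) * a := by
    intro j hj
    have h1 := (abs_le.1 (H2 j hj)).2
    rw [hM, hN]
    dsimp only
    linarith
  have hMB : ∀ j ≤ L, M j ≤ Bd * a := by
    intro j hj
    refine (hMb j hj).trans (mul_le_mul_of_nonneg_right ?_ ha0)
    rw [hBd]
    have hjf : (1 : ℝ) ≤ j.factorial := by exact_mod_cast Nat.factorial_pos j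
    have : x ^ j / (j.factorial : ℝ) ≤ (1 + x0) ^ L := by
      calc x ^ j / (j.factorial : ℝ) ≤ x ^ j := div_le_self (by positivity) hjf
        _ ≤ (1 + x0) ^ j := pow_le_pow_left₀ hxn (by linarith) j
        _ ≤ (1 + x0) ^ L := pow_le_pow_right₀ (by linarith) hj
    linarith
  -- the main terms
  obtain ⟨A, hA⟩ : ∃ A : ℕ → ℝ, A = fun n => ∑ r ∈ range (r1 + 1), ∑ i ∈ range (J + 1), (-1) ^ i *
      ∑ U ∈ powersetCard (r + i) (N n), ∑ P ∈ powersetCard r U, g P := ⟨_, rfl⟩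
  obtain ⟨E, hE⟩ : ∃ E : ℕ → ℝ, E = fun n => (if r1 < (N n).card then (1 : ℝ) else 0) +
      ∑ r ∈ range (r1 + 1), ((r + (J + 1)).choose r : ℝ) * ((N n).card.choose (r + (J + 1)) : ℝ) := ⟨_, rfl⟩
  have hAE : ∀ n, |g (N n) - A n| ≤ E n := by
    intro n
    rw [hA, hE]
    exact pattern (N n) g hg r1 J
  have hswap : ∀ j (f : Finset ℕ → ℝ), ∑ n ∈ G, h n * ∑ U ∈ powersetCard j (N n), f U =
      ∑ U ∈ powersetCard j (Icc 1 T \ S), f U * ∑ n ∈ RQ (QH (Q1 Z) (U ∪ S)) X y, h n := by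
    intro j f
    rw [hG, hN]
    exact swap Z T S X y j h f
  have hMeq : ∀ j, M j = ∑ U ∈ powersetCard j (Icc 1 T \ S), ((RQ (QH (Q1 Z) (U ∪ S)) X y).card : ℝ) := by
    intro j
    rw [hM, hN, hG]
    exact swap_one Z T S X y j
  have hmain : |∑ n ∈ G, h n * A n| ≤ e * (Bd * Cst) * a := by
    have e1 : ∑ n ∈ G, h n * A n = ∑ r ∈ range (r1 + 1), ∑ i ∈ range (J + 1), (-1) ^ i *
        ∑ n ∈ G, h n * ∑ U ∈ powersetCard (r + i) (N n), ∑ P ∈ powersetCard r U, g P := by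
      rw [hA]
      dsimp only
      simp_rw [Finset.mul_sum]
      rw [Finset.sum_comm]
      apply Finset.sum_congr rfl
      intro r _
      rw [Finset.sum_comm]
      apply Finset.sum_congr rfl
      intro i _
      apply Finset.sum_congr rfl
      intro n _
      apply Finset.sum_congr rfl
      intro U _
      apply Finset.sum_congr rfl
      intro P _
      ring
    rw [e1]
    have h1 : ∀ r ∈ range (r1 + 1), ∀ i ∈ range (J + 1), |(-1 : ℝ) ^ i *
        ∑ n ∈ G, h n * ∑ U ∈ powersetCard (r + i) (N n), ∑ P ∈ powersetCard r U, g P| ≤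
        ((r + i).choose r : ℝ) * (e * (Bd * a)) := by
      intro r hr i hi
      rw [mem_range] at hr hi
      have e2 : |(-1 : ℝ) ^ i| = 1 := by
        rw [abs_pow, abs_neg, abs_one, one_pow]
      rw [abs_mul, e2, one_mul, hswap]
      refine (Finset.abs_sum_le_sum_abs _ _).trans ?_
      have h2 : ∀ U ∈ powersetCard (r + i) (Icc 1 T \ S),
          |(∑ P ∈ powersetCard r U, g P) * ∑ n ∈ RQ (QH (Q1 Z) (U ∪ S)) X y, h n| ≤
          ((r + i).choose r : ℝ) * (e * (RQ (QH (Q1 Z) (U ∪ S)) X y).card) := by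
        intro U hU
        rw [mem_powersetCard] at hU
        rw [abs_mul]
        apply mul_le_mul _ _ (abs_nonneg _) (Nat.cast_nonneg _)
        · refine (Finset.abs_sum_le_sum_abs _ _).trans ?_
          refine (Finset.sum_le_card_nsmul _ _ 1 (fun P _ => hg P)).trans ?_
          rw [card_powersetCard, hU.2, nsmul_eq_mul, mul_one]
        · exact H4 U hU.1 (by omega)
      refine (Finset.sum_le_sum h2).trans ?_
      rw [← Finset.mul_sum, ← Finset.mul_sum, ← hMeq]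
      apply mul_le_mul_of_nonneg_left _ (Nat.cast_nonneg _)
      exact mul_le_mul_of_nonneg_left (hMB _ (by omega)) he0.le
    refine (Finset.abs_sum_le_sum_abs _ _).trans ?_
    have h3 : ∀ r ∈ range (r1 + 1), |∑ i ∈ range (J + 1), (-1 : ℝ) ^ i *
        ∑ n ∈ G, h n * ∑ U ∈ powersetCard (r + i) (N n), ∑ P ∈ powersetCard r U, g P| ≤
        (∑ i ∈ range (J + 2), ((r + i).choose r : ℝ)) * (e * (Bd * a)) := by
      intro r hr
      refine (Finset.abs_sum_le_sum_abs _ _).trans ?_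
      refine (Finset.sum_le_sum (h1 r hr)).trans ?_
      rw [← Finset.sum_mul]
      apply mul_le_mul_of_nonneg_right _ (by positivity)
      apply Finset.sum_le_sum_of_subset_of_nonneg
      · intro i hi
        rw [mem_range] at hi ⊢
        omega
      · intros
        exact Nat.cast_nonneg _
    refine (Finset.sum_le_sum h3).trans (le_of_eq ?_)
    rw [← Finset.sum_mul, ← hCst]
    ring
  -- the error terms
  have herr : ∑ n ∈ G, E n ≤ (ε / 4 + ε / 4 + e * Cst) * a := by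
    rw [hE]
    dsimp only
    rw [Finset.sum_add_distrib]
    have h1 : ∑ n ∈ G, (if r1 < (N n).card then (1 : ℝ) else 0) ≤ ε / 4 * a := by
      have hr1' : (0 : ℝ) < (r1 : ℝ) + 1 := by positivity
      have h2 : ∀ n ∈ G, (if r1 < (N n).card then (1 : ℝ) else 0) ≤ ((N n).card.choose 1 : ℝ) / (r1 + 1) := by
        intro n _
        rw [Nat.choose_one_right]
        split_ifs with hc
        · rw [le_div_iff₀ hr1', one_mul]
          exact_mod_cast hc
        · positivity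
      refine (Finset.sum_le_sum h2).trans ?_
      rw [← Finset.sum_div]
      have h3 : ∑ n ∈ G, ((N n).card.choose 1 : ℝ) ≤ (x0 + 1) * a := by
        have h4 := hMb 1 (by omega)
        rw [hM] at h4
        refine h4.trans (mul_le_mul_of_nonneg_right ?_ ha0)
        rw [pow_one, Nat.factorial_one, Nat.cast_one, div_one]
        linarith
      rw [div_le_iff₀ hr1']
      refine h3.trans ?_
      rw [div_le_iff₀ hε] at hr1
      have h5 : x0 + 1 ≤ ε / 4 * (r1 + 1) := by linarith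
      calc (x0 + 1) * a ≤ (ε / 4 * (r1 + 1)) * a := mul_le_mul_of_nonneg_right h5 ha0
        _ = _ := by ring
    have h6 : ∑ n ∈ G, ∑ r ∈ range (r1 + 1), ((r + (J + 1)).choose r : ℝ) * ((N n).card.choose (r + (J + 1)) : ℝ) ≤
        (ε / 4 + e * Cst) * a := by
      rw [Finset.sum_comm]
      have h7 : ∀ r ∈ range (r1 + 1), ∑ n ∈ G, ((r + (J + 1)).choose r : ℝ) * ((N n).card.choose (r + (J + 1)) : ℝ) ≤
          (x0 ^ r / r.factorial * (x0 ^ (J + 1) / (J + 1).factorial) + e * ((r + (J + 1)).choose r : ℝ)) * a := by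
        intro r hr
        rw [mem_range] at hr
        rw [← Finset.mul_sum]
        have h8 := hMb (r + (J + 1)) (by omega)
        rw [hM] at h8
        dsimp only at h8
        have h9 : ((r + (J + 1)).choose r : ℝ) * (x ^ (r + (J + 1)) / (r + (J + 1)).factorial) =
            x ^ r / r.factorial * (x ^ (J + 1) / (J + 1).factorial) := by
          have hf := Nat.add_choose_mul_factorial_mul_factorial r (J + 1)
          rw [← Nat.choose_symm_add] at hf
          have hf' : ((r + (J + 1)).choose r : ℝ) * r.factorial * (J + 1).factorial = (r + (J + 1)).factorial := by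
            exact_mod_cast hf
          rw [← hf', pow_add]
          have a1 : (r.factorial : ℝ) ≠ 0 := by exact_mod_cast Nat.factorial_ne_zero r
          have a2 : ((J + 1).factorial : ℝ) ≠ 0 := by exact_mod_cast Nat.factorial_ne_zero (J + 1)
          have a3 : ((r + (J + 1)).choose r : ℝ) ≠ 0 := by
            exact_mod_cast (Nat.choose_pos (by omega)).ne'
          field_simp
        have h10 : x ^ r / r.factorial * (x ^ (J + 1) / (J + 1).factorial) ≤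
            x0 ^ r / r.factorial * (x0 ^ (J + 1) / (J + 1).factorial) := by gcongr
        calc ((r + (J + 1)).choose r : ℝ) * ∑ n ∈ G, ((N n).card.choose (r + (J + 1)) : ℝ) ≤
            ((r + (J + 1)).choose r : ℝ) * ((x ^ (r + (J + 1)) / (r + (J + 1)).factorial + e) * a) :=
              mul_le_mul_of_nonneg_left h8 (Nat.cast_nonneg _)
          _ = (((r + (J + 1)).choose r : ℝ) * (x ^ (r + (J + 1)) / (r + (J + 1)).factorial) +
              e * ((r + (J + 1)).choose r : ℝ)) * a := by ring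
          _ ≤ _ := by
            apply mul_le_mul_of_nonneg_right _ ha0
            rw [h9]
            linarith
      refine (Finset.sum_le_sum h7).trans ?_
      rw [← Finset.sum_mul, Finset.sum_add_distrib, ← Finset.sum_mul, ← Finset.mul_sum]
      apply mul_le_mul_of_nonneg_right _ ha0
      apply add_le_add
      · have h11 : ∑ r ∈ range (r1 + 1), x0 ^ r / (r.factorial : ℝ) ≤ Real.exp x0 := Real.sum_le_exp_of_nonneg hx0 _
        calc (∑ r ∈ range (r1 + 1), x0 ^ r / (r.factorial : ℝ)) * (x0 ^ (J + 1) / (J + 1).factorial) ≤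
            Real.exp x0 * (x0 ^ (J + 1) / (J + 1).factorial) :=
              mul_le_mul_of_nonneg_right h11 (by positivity)
          _ ≤ ε / 4 := hJ (J + 1) (by omega)
      · apply mul_le_mul_of_nonneg_left _ he0.le
        rw [hCst]
        apply Finset.sum_le_sum
        intro r _
        exact Finset.single_le_sum (f := fun i => ((r + i).choose r : ℝ)) (fun i _ => Nat.cast_nonneg _)
          (mem_range.2 (by omega : J + 1 < J + 2))
    linarith
  have hfin : |∑ n ∈ G, g (N n) * h n - ∑ n ∈ G, h n * A n| ≤ ∑ n ∈ G, E n := by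
    rw [← Finset.sum_sub_distrib]
    refine (Finset.abs_sum_le_sum_abs _ _).trans (Finset.sum_le_sum ?_)
    intro n _
    have e3 : g (N n) * h n - h n * A n = (g (N n) - A n) * h n := by ring
    rw [e3, abs_mul]
    calc |g (N n) - A n| * |h n| ≤ E n * 1 := by
          apply mul_le_mul (hAE n) (hh1 n) (abs_nonneg _)
          exact (abs_nonneg _).trans (hAE n)
      _ = E n := mul_one _
  have e4 : ∑ n ∈ G, g (NS Z T S y n) * h n = ∑ n ∈ G, g (N n) * h n := by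
    rw [hN]
  rw [e4]
  have h12 : |∑ n ∈ G, g (N n) * h n| ≤ |∑ n ∈ G, g (N n) * h n - ∑ n ∈ G, h n * A n| + |∑ n ∈ G, h n * A n| := by
    have := abs_add_le (∑ n ∈ G, g (N n) * h n - ∑ n ∈ G, h n * A n) (∑ n ∈ G, h n * A n)
    rwa [sub_add_cancel] at this
  have h13 : e * (Bd * Cst) * a ≤ ε / 4 * a := mul_le_mul_of_nonneg_right heε ha0
  have h14 : e * Cst * a ≤ ε / 4 * a := mul_le_mul_of_nonneg_right heε' ha0
  nlinarith


/-- **The decorrelation theorem for all linear forms.** -/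
theorem decorF (s : ℕ) (A ε : ℝ) (hA : 0 < A) (hε : 0 < ε) : ∃ K : ℕ, 1 ≤ K ∧ ∀ B : ℕ,
    ∃ X0 y0 : ℕ, ∀ X y Z T : ℕ, ∀ S : Finset ℕ, X0 ≤ X → y0 ≤ y → y ^ K ≤ X → (T : ℝ) ≤ A * Real.log y →
      S ⊆ Icc 1 T → S.card ≤ s → ∀ f : Finset ℕ → ℝ, (∀ P, |f P| ≤ 1) →
      ∀ (a : ℕ) (b : ℤ), 1 ≤ a → (a : ℝ) ≤ Real.log X ^ B → |(b : ℝ)| ≤ X * Real.log X ^ B →
        |∑ n ∈ GS y Z X S, f (Cfg y Z T n) * lz (a * n + b)| ≤ ε * (GS y Z X S).card := by
  classical
  obtain ⟨x0, hx0, hpar⟩ := params' A hA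
  obtain ⟨L, e, he, K, hK, T0, X0, y0, H0⟩ := decorH s x0 ε hx0 hε
  obtain ⟨c, hc, H1⟩ := all_F (s + L + 1) (by omega)
  obtain ⟨K1, hK1, H1⟩ := H1 e he
  obtain ⟨y2, hy2⟩ := hpar T0
  refine ⟨K + K1, by omega, fun B => ?_⟩
  obtain ⟨X1, y1, H1⟩ := H1 B
  refine ⟨X0 + X1 + 1, y0 + y1 + y2 + s + L + 1, ?_⟩
  intro X y Z T S hX hy hyX hT hS hSs f hf a b ha haX hbX
  have hSr : S ⊆ range (max T T0 + 1) := by
    intro t ht
    have := mem_Icc.1 (hS ht)
    rw [mem_range]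
    omega
  have h1 := H0 X y Z (max T T0) S (by omega) (by omega) ((Nat.pow_le_pow_right (by omega) (by omega)).trans hyX)
    (le_max_right _ _) hSr hSs (hy2 y Z T (by omega) hT)
    (fun P => f (P.filter (fun v => v ≤ T) ∪ S)) (fun P => hf _) (fun n => lz (a * n + b)) (fun n => lz_abs _) (by
      intro U _ hUL
      have hc0 : (U ∪ S).card ≤ s + L := (card_union_le _ _).trans (by omega)
      by_cases hadm : ∀ p : ℕ, p.Prime → nuB (QH (Q1 Z) (U ∪ S)) p < p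
      · obtain ⟨_, _, h2⟩ := H1 (QH (Q1 Z) (U ∪ S)) (sv_QS Z (s + L + 1) (U ∪ S) (by omega) hadm) X y (by omega)
          (by omega) ((Nat.pow_le_pow_right (by omega) (by omega)).trans hyX)
        exact h2 a b ha haX hbX
      · obtain ⟨h2, _⟩ := nonadm Z (s + L + 1) (U ∪ S) (by omega) X y (by omega) hadm
        rw [h2]
        simp)
  rw [RQ_GS] at h1
  refine le_trans (le_of_eq ?_) h1
  congr 1
  apply Finset.sum_congr rfl
  intro n hn
  rw [Cfg_eq Z X T y n S hS hn, ← NS_max]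

end Pool.Agent.H530.Hv
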