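import Mathlib
import Pool.Agent.H985.CG.Base
import Pool.Agent.H985.US.Base

/-!
# Consecutive almost primes with prescribed parities over `F_q[X]`, `q` even (helper530)

Residue classes in which every `f + g`, `deg g ≤ d`, `g ∉ H`, has a fixed prime divisor, and the
application of the theorems for linear forms (helper985 and others) in such classes.
-/

set_option autoImplicit false

namespace Pool.Agent.H530.Consec

open Polynomial Finset
open scoped Classical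
open Pool.Agent.H985.Chow (mob)
open Pool.Agent.H985.Par (Sft Lfs)
open Pool.Agent.H985.CG (Tf mem_Tf)
open Pool.Agent.H694.Typ (Mn Irn mem_Mn mem_Irn card_Mn PU mem_PU)
open UniqueFactorizationMonoid (factors)

variable {K : Type} [Field K]

/-- Every `f + g` with `deg g ≤ d` and `g ∉ H` has an irreducible factor of degree at most `R`. -/
def Gap (H : Finset K[X]) (d R : ℕ) (f : K[X]) : Prop :=
  ∀ g : K[X], g.natDegree ≤ d → g ∉ H → ∃ P : K[X], Irreducible P ∧ P.natDegree ≤ R ∧ P ∣ f + g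

/-- squarefree, at most `r` irreducible factors, all of degree at least `n / (r + 1)` -/
def Alm (r n : ℕ) (F : K[X]) : Prop :=
  Squarefree F ∧ Multiset.card (factors F) ≤ r ∧
    ∀ P : K[X], Irreducible P → P ∣ F → n ≤ (r + 1) * P.natDegree

/-- no `f + h`, `h ∈ H`, has an irreducible factor of degree at most `m` -/
def SftAll (H : Finset K[X]) (m : ℕ) (f : K[X]) : Prop := ∀ h ∈ H, Sft m (f + h)

/-- `f + h₀` is irreducible and no `f + h`, `h ∈ H`, `h ≠ h₀`, has an irreducible factor of degree at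
most `m` -/
def PrmAll (H : Finset K[X]) (h₀ : K[X]) (m : ℕ) (f : K[X]) : Prop :=
  Irreducible (f + h₀) ∧ ∀ h ∈ H, h ≠ h₀ → Sft m (f + h)

/-- the pattern of the parities -/
def Pat (H : Finset K[X]) (σ : K[X] → ℤ) (f : K[X]) : Prop := ∀ h ∈ H, mob (f + h) = σ h

theorem Alm.mono {r n n' : ℕ} {F : K[X]} (h : Alm r n' F) (hn : n ≤ 2 * n') :
    Alm (2 * r + 1) n F := by
  obtain ⟨h1, h2, h3⟩ := h
  refine ⟨h1, by omega, fun P hP hPF => ?_⟩
  have := h3 P hP hPF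
  nlinarith

theorem four_mul_le {e : ℕ} (he : 4 ≤ e) : 4 * e ≤ 2 ^ e := by
  induction e, he using Nat.le_induction with
  | base => norm_num
  | succ m hm ih =>
    have h3 : 2 ^ (m + 1) = 2 ^ m * 2 := pow_succ _ _
    omega

theorem Gap.mono {H : Finset K[X]} {d R R' : ℕ} {f : K[X]} (h : Gap H d R f) (hR : R ≤ R') :
    Gap H d R' f := by
  intro g hg hgH
  obtain ⟨P, h1, h2, h3⟩ := h g hg hgH
  exact ⟨P, h1, h2.trans hR, h3⟩

/-- enumeration of a finite set -/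
theorem enum (S : Finset K[X]) (k : ℕ) (hk : S.card = k) :
    ∃ h : Fin k → K[X], Function.Injective h ∧ ∀ x, x ∈ S ↔ ∃ i, h i = x := by
  refine ⟨fun i => ((S.equivFinOfCardEq hk).symm i : K[X]), fun i j hij => ?_, fun x => ?_⟩
  · exact (S.equivFinOfCardEq hk).symm.injective (Subtype.ext hij)
  · constructor
    · intro hx
      exact ⟨S.equivFinOfCardEq hk ⟨x, hx⟩, by simp⟩
    · rintro ⟨i, rfl⟩
      exact ((S.equivFinOfCardEq hk).symm i).2

variable [Fintype K]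

/-- many irreducible polynomials -/
theorem many_irn (d : ℕ) : Fintype.card K ^ (d + 1) ≤ (Irn (k := K) (2 * d + 8)).card := by
  have h1 := Pool.Agent.H694.Typ.irn_ge (k := K) (d := 2 * d + 8) (by omega)
  have hq : 2 ≤ Fintype.card K := Fintype.one_lt_card
  obtain ⟨e, he⟩ : ∃ e, e = d + 4 := ⟨_, rfl⟩
  have he2 : 2 * d + 8 = e + e := by omega
  have he3 : (e + e) / 2 = e := by omega
  rw [he2, he3] at h1
  have h4 : 4 * e ≤ 2 ^ e := four_mul_le (by omega)
  have h5 : 2 ^ e ≤ Fintype.card K ^ e := Nat.pow_le_pow_left hq e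
  have hpow : Fintype.card K ^ (e + e) = Fintype.card K ^ e * Fintype.card K ^ e := pow_add _ _ _
  have h7 : 16 ≤ Fintype.card K ^ e := by omega
  have h2 : 4 * Fintype.card K ^ e ≤ Fintype.card K ^ (e + e) := by
    rw [hpow]
    exact Nat.mul_le_mul_right _ (by omega)
  have h6 : Fintype.card K ^ (e + e) ≤ 4 * e * (Irn (k := K) (e + e)).card := by
    have h8 : 4 * e * (Irn (k := K) (e + e)).card = 2 * ((e + e) * (Irn (k := K) (e + e)).card) := by
      ring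
    omega
  have h9 : Fintype.card K ^ e * Fintype.card K ^ e ≤
      Fintype.card K ^ e * (Irn (k := K) (e + e)).card := by
    rw [← hpow]
    exact h6.trans (Nat.mul_le_mul_right _ (by omega))
  rw [he2]
  exact (Nat.pow_le_pow_right (by omega) (by omega : d + 1 ≤ e)).trans
    (Nat.le_of_mul_le_mul_left h9 (by omega))

/-- the polynomials of degree at most `d` -/
theorem finite_le (d : ℕ) : ∃ B : Finset K[X], B.card ≤ Fintype.card K ^ (d + 1) ∧
    ∀ g : K[X], g.natDegree ≤ d → g ∈ B := by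
  refine ⟨(Mn K (d + 1)).image (fun F => F - X ^ (d + 1)),
    Finset.card_image_le.trans (card_Mn _).le, fun g hg => ?_⟩
  rw [Finset.mem_image]
  refine ⟨X ^ (d + 1) + g, ?_, by ring⟩
  have hlt : g.degree < (X ^ (d + 1) : K[X]).degree := by
    rw [degree_X_pow]
    exact lt_of_le_of_lt degree_le_natDegree (by exact_mod_cast (by omega : g.natDegree < d + 1))
  rw [mem_Mn]
  exact ⟨(monic_X_pow _).add_of_left hlt, by
    rw [natDegree_add_eq_left_of_degree_lt hlt, natDegree_X_pow]⟩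

/-- **A residue class in which `H` is realised as consecutive.** -/
theorem exists_class (H : Finset K[X]) (d : ℕ) (hd : ∀ h ∈ H, h.natDegree ≤ d)
    (hadm : ∀ P : K[X], P.Monic → Irreducible P → ∃ x : K[X], ∀ h ∈ H, ¬ P ∣ x + h) :
    ∃ Q ρ : K[X], Q.Monic ∧ ρ.natDegree ≤ Q.natDegree ∧
      Q.natDegree ≤ (2 * d + 8) * Fintype.card K ^ (d + 1) ∧
      (∀ P : K[X], P.Monic → Irreducible P → ∃ x : K[X], ∀ h ∈ H, ¬ P ∣ Q * x + (ρ + h)) ∧
      ∀ g : K[X], g.natDegree ≤ d → g ∉ H →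
        ∃ P : K[X], Irreducible P ∧ P.natDegree ≤ 2 * d + 8 ∧ P ∣ Q ∧ P ∣ ρ + g := by
  obtain ⟨B, hBc, hB⟩ := finite_le (K := K) d
  obtain ⟨S, hS⟩ : ∃ S : Finset K[X], S = B.filter (fun g => g.natDegree ≤ d ∧ g ∉ H) := ⟨_, rfl⟩
  have hSm : ∀ g, g ∈ S ↔ g.natDegree ≤ d ∧ g ∉ H := by
    intro g
    rw [hS, Finset.mem_filter]
    exact ⟨fun h => h.2, fun h => ⟨hB g h.1, h⟩⟩
  have hSc : S.card ≤ Fintype.card K ^ (d + 1) := by
    rw [hS]
    exact (Finset.card_filter_le _ _).trans hBc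
  obtain ⟨N, hN⟩ : ∃ N : ℕ, N = 2 * d + 8 := ⟨_, rfl⟩
  have hcard : Fintype.card S ≤ Fintype.card (Irn (k := K) N) := by
    rw [Fintype.card_coe, Fintype.card_coe, hN]
    exact hSc.trans (many_irn d)
  obtain ⟨φ⟩ := Function.Embedding.nonempty_of_card_le hcard
  have hφ : ∀ g : S, ((φ g : K[X]).Monic ∧ (φ g : K[X]).natDegree = N ∧ Irreducible (φ g : K[X])) :=
    fun g => mem_Irn.1 (φ g).2
  obtain ⟨Q, hQdef⟩ : ∃ Q : K[X], Q = ∏ g : S, (φ g : K[X]) := ⟨_, rfl⟩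
  have hQ : Q.Monic := by
    rw [hQdef]
    exact monic_prod_of_monic _ _ fun g _ => (hφ g).1
  have hdvd : ∀ g : S, (φ g : K[X]) ∣ Q := fun g => by
    rw [hQdef]
    exact Finset.dvd_prod_of_mem _ (Finset.mem_univ g)
  obtain ⟨r, hr⟩ := Ideal.exists_forall_sub_mem_ideal
    (I := fun g : S => Ideal.span {(φ g : K[X])})
    (fun g g' hne => by
      rw [Function.onFun, Ideal.isCoprime_span_singleton_iff]
      refine ((hφ g).2.2.coprime_iff_not_dvd).2 fun h => hne ?_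
      have h1 := (hφ g).2.2.associated_of_dvd (hφ g').2.2 h
      exact φ.injective (Subtype.ext (eq_of_monic_of_associated (hφ g).1 (hφ g').1 h1)))
    (fun g => - (g : K[X]))
  have hr' : ∀ g : S, (φ g : K[X]) ∣ r %ₘ Q + g := by
    intro g
    have h1 := hr g
    rw [Ideal.mem_span_singleton, sub_neg_eq_add] at h1
    have h2 := modByMonic_add_div r Q
    have h3 : r %ₘ Q + (g : K[X]) = (r + g) - Q * (r /ₘ Q) := by linear_combination h2
    rw [h3]
    exact dvd_sub h1 ((hdvd g).mul_right _)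
  have hQd : Q.natDegree ≤ (2 * d + 8) * Fintype.card K ^ (d + 1) := by
    rw [hQdef, natDegree_prod_of_monic _ _ fun g _ => (hφ g).1,
      Finset.sum_congr rfl fun g _ => (hφ g).2.1, Finset.sum_const, smul_eq_mul, Finset.card_univ,
      Fintype.card_coe, mul_comm, hN]
    exact Nat.mul_le_mul_left _ hSc
  refine ⟨Q, r %ₘ Q, hQ, natDegree_modByMonic_le r hQ, hQd, fun P hP hPi => ?_,
    fun g hg hgH => ?_⟩
  · by_cases hPQ : P ∣ Q
    · rw [hQdef, hPi.prime.dvd_finsetProd_iff] at hPQ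
      obtain ⟨g, -, hg⟩ := hPQ
      have has := hPi.associated_of_dvd (hφ g).2.2 hg
      have hdeg : N ≤ P.natDegree := by
        rw [← (hφ g).2.1]
        exact natDegree_le_of_dvd has.dvd' hPi.ne_zero
      refine ⟨0, fun h hh hdiv => ?_⟩
      rw [mul_zero, zero_add] at hdiv
      have h1 : P ∣ h - g := by
        have h2 := dvd_sub hdiv (has.dvd.trans (hr' g))
        rwa [add_sub_add_left_eq_sub] at h2
      have hgS := (hSm g).1 g.2
      have hne : h - (g : K[X]) ≠ 0 := by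
        intro h0
        rw [sub_eq_zero] at h0
        exact hgS.2 (h0 ▸ hh)
      have h3 := natDegree_le_of_dvd h1 hne
      have h4 := natDegree_sub_le h (g : K[X])
      have h5 := hd h hh
      have h6 := hgS.1
      omega
    · obtain ⟨y, hy⟩ := hadm P hP hPi
      obtain ⟨u, v, huv⟩ := ((hPi.coprime_iff_not_dvd).2 hPQ).symm
      refine ⟨u * (y - r %ₘ Q), fun h hh hdiv => hy h hh ?_⟩
      have h1 : y + h = (Q * (u * (y - r %ₘ Q)) + (r %ₘ Q + h)) + P * (v * (y - r %ₘ Q)) := by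
        linear_combination -(y - r %ₘ Q) * huv
      rw [h1]
      exact dvd_add hdiv (dvd_mul_right _ _)
  · obtain ⟨g', hg'⟩ : ∃ g' : S, (g' : K[X]) = g := ⟨⟨g, (hSm g).2 ⟨hg, hgH⟩⟩, rfl⟩
    refine ⟨φ g', (hφ g').2.2, by rw [← hN]; exact (hφ g').2.1.le, hdvd g', ?_⟩
    rw [← hg']
    exact hr' g'

omit [Fintype K] in
/-- the elements of a class -/
theorem shift_monic {Q ρ t : K[X]} {n' : ℕ} (hQ : Q.Monic) (hρ : ρ.natDegree ≤ Q.natDegree)
    (hn : 1 ≤ n') (ht : t.Monic) (htd : t.natDegree = n') :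
    (Q * t + ρ).Monic ∧ (Q * t + ρ).natDegree = n' + Q.natDegree := by
  have hm : (Q * t).Monic := hQ.mul ht
  have hmd : (Q * t).natDegree = n' + Q.natDegree := by
    rw [hQ.natDegree_mul ht, htd, add_comm]
  have hlt : ρ.degree < (Q * t).degree := by
    refine lt_of_le_of_lt degree_le_natDegree ?_
    rw [degree_eq_natDegree hm.ne_zero, hmd]
    exact_mod_cast (by omega : ρ.natDegree < n' + Q.natDegree)
  exact ⟨hm.add_of_left hlt, by rw [natDegree_add_eq_left_of_degree_lt hlt, hmd]⟩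

omit [Fintype K] in
theorem gap_of {H : Finset K[X]} {d R : ℕ} {Q ρ : K[X]} (t : K[X])
    (h : ∀ g : K[X], g.natDegree ≤ d → g ∉ H →
        ∃ P : K[X], Irreducible P ∧ P.natDegree ≤ R ∧ P ∣ Q ∧ P ∣ ρ + g) :
    Gap H d R (Q * t + ρ) := by
  intro g hg hgH
  obtain ⟨P, h1, h2, h3, h4⟩ := h g hg hgH
  refine ⟨P, h1, h2, ?_⟩
  rw [add_assoc]
  exact dvd_add (h3.mul_right _) h4

omit [Fintype K] in
theorem mob_sqf {F : K[X]} (h : mob F = 1 ∨ mob F = -1) : Squarefree F := by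
  by_contra hF
  unfold Pool.Agent.H985.Chow.mob at h
  rw [if_neg hF] at h
  rcases h with h | h <;> norm_num at h

omit [Fintype K] in
theorem deg_add {ρ h : K[X]} {D d n : ℕ} (h1 : ρ.natDegree ≤ D) (h2 : h.natDegree ≤ d)
    (hn : D + d < n) : (ρ + h).natDegree < n := by
  have := natDegree_add_le ρ h
  omega

/-- comparison of the sizes -/
theorem size_le {c : ℝ} (hc : 0 < c) {n n' D k : ℕ} (hn : n = n' + D) (hn' : 1 ≤ n') :
    c / (Fintype.card K : ℝ) ^ D * (Fintype.card K : ℝ) ^ n / (n : ℝ) ^ k ≤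
      c * (Fintype.card K : ℝ) ^ n' / (n' : ℝ) ^ k := by
  have hq : (0 : ℝ) < Fintype.card K := by exact_mod_cast Fintype.card_pos
  have h5 : c / (Fintype.card K : ℝ) ^ D * (Fintype.card K : ℝ) ^ n =
      c * (Fintype.card K : ℝ) ^ n' := by
    rw [hn, pow_add]
    field_simp
  rw [h5]
  have hpos : (0 : ℝ) < n' := by exact_mod_cast hn'
  refine div_le_div_of_nonneg_left (by positivity) (by positivity) ?_
  exact pow_le_pow_left₀ (by positivity) (by exact_mod_cast (by omega : n' ≤ n)) k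

/-- **All the patterns of parities, consecutive, uniformly in the pattern.** -/
theorem part_a (K : Type) [Field K] [Fintype K] [CharP K 2] (k : ℕ) :
    ∃ (r A : ℕ) (c : ℝ), 0 < c ∧ ∀ d n : ℕ, A * ((d + 1) * Fintype.card K ^ d) ≤ n →
      ∀ H : Finset K[X], H.card = k → (∀ h ∈ H, h.natDegree ≤ d) →
      (∀ P : K[X], P.Monic → Irreducible P → ∃ x : K[X], ∀ h ∈ H, ¬ P ∣ x + h) →
      ∀ σ : K[X] → ℤ, (∀ h ∈ H, σ h = 1 ∨ σ h = -1) →
        c * (Fintype.card K : ℝ) ^ (n - A * ((d + 1) * Fintype.card K ^ d)) / (n : ℝ) ^ k ≤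
          (((Mn K n).filter (fun f => (∀ h ∈ H, Alm r n (f + h) ∧ mob (f + h) = σ h) ∧
            Gap H d (A * (d + 1)) f)).card : ℝ) := by
  obtain ⟨r, A₀, c, hc, hA₀, hfew⟩ := Pool.Agent.H985.US.us_few Pool.Agent.H985.US.s_uss
    Pool.Agent.H985.US.s_usv K k
  obtain ⟨q, hq⟩ : ∃ q, q = Fintype.card K := ⟨_, rfl⟩
  have hq2 : 2 ≤ q := by rw [hq]; exact Fintype.one_lt_card
  obtain ⟨A, hA⟩ : ∃ A, A = (A₀ + 1) * (8 * q + 1) := ⟨_, rfl⟩
  refine ⟨2 * r + 1, A, c, hc, fun d n hn H hH hd hadm σ hσ => ?_⟩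
  obtain ⟨Q, ρ, hQ, hρ, hQd, hadm', hgap⟩ := exists_class H d hd hadm
  obtain ⟨h, hinj, hmem⟩ := enum H k hH
  rw [← hq] at hQd hn ⊢
  obtain ⟨W, hW⟩ : ∃ W, W = (d + 1) * q ^ d := ⟨_, rfl⟩
  rw [← hW] at hn ⊢
  have hW1 : d + 1 ≤ W := by
    rw [hW]
    exact Nat.le_mul_of_pos_right _ (by positivity)
  have hD : Q.natDegree ≤ 8 * q * W := by
    refine hQd.trans ?_
    calc (2 * d + 8) * q ^ (d + 1) ≤ (8 * (d + 1)) * q ^ (d + 1) :=
          Nat.mul_le_mul_right _ (by omega)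
      _ = 8 * q * W := by rw [hW]; ring
  have hD1 : Q.natDegree + 1 ≤ (8 * q + 1) * W := by
    rw [add_mul, one_mul]
    omega
  have hn1 : (A₀ + 1) * (Q.natDegree + 1) ≤ n := by
    calc (A₀ + 1) * (Q.natDegree + 1) ≤ (A₀ + 1) * ((8 * q + 1) * W) := Nat.mul_le_mul_left _ hD1
      _ = A * W := by rw [hA]; ring
      _ ≤ n := hn
  have hn2 : 2 * ((8 * q + 1) * W) ≤ n := by
    calc 2 * ((8 * q + 1) * W) ≤ (A₀ + 1) * ((8 * q + 1) * W) :=
          Nat.mul_le_mul_right _ (by omega)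
      _ = A * W := by rw [hA]; ring
      _ ≤ n := hn
  rw [add_mul, one_mul] at hn1 hn2
  obtain ⟨n', hn'⟩ : ∃ n', n = n' + Q.natDegree := ⟨n - Q.natDegree, by omega⟩
  have hAn : A₀ * (Q.natDegree + 1) ≤ n' := by omega
  have hi : ∀ i, h i ∈ H := fun i => (hmem _).2 ⟨i, rfl⟩
  have h1 := hfew Q.natDegree n' (fun _ => Q) (fun i => ρ + h i) hAn
    (fun i => ⟨hQ.ne_zero, le_rfl, deg_add hρ (hd _ (hi i)) (by omega)⟩)
    (fun i j hij he => hij (hinj (add_left_cancel (mul_left_cancel₀ hQ.ne_zero he)).symm))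
    (fun P hP hPi => by
      obtain ⟨x, hx⟩ := hadm' P hP hPi
      exact ⟨x, fun i => hx _ (hi i)⟩) (fun i => σ (h i)) (fun i => hσ _ (hi i))
  have hq1 : (1 : ℝ) ≤ (q : ℝ) := by exact_mod_cast (by omega : 1 ≤ q)
  have hA8 : 8 * q * W ≤ A * W := by
    rw [hA]
    exact Nat.mul_le_mul_right _ (by nlinarith)
  have hn'1 : 1 ≤ n' := by
    have : 1 ≤ A₀ * (Q.natDegree + 1) := Nat.mul_pos hA₀ (by omega)
    omega
  have hDn : Q.natDegree ≤ n' := by
    have : Q.natDegree + 1 ≤ A₀ * (Q.natDegree + 1) := Nat.le_mul_of_pos_left _ hA₀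
    omega
  have hsize : c * (q : ℝ) ^ (n - A * W) / (n : ℝ) ^ k ≤ c * (q : ℝ) ^ n' / (n' : ℝ) ^ k := by
    have hpos : (0 : ℝ) < n' := by exact_mod_cast hn'1
    have h2 : (q : ℝ) ^ (n - A * W) ≤ (q : ℝ) ^ n' := pow_le_pow_right₀ hq1 (by omega)
    have h3 : (n' : ℝ) ^ k ≤ (n : ℝ) ^ k :=
      pow_le_pow_left₀ (by positivity) (by exact_mod_cast (by omega : n' ≤ n)) k
    exact div_le_div₀ (by positivity) (mul_le_mul_of_nonneg_left h2 hc.le) (by positivity) h3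
  rw [← hq] at h1
  refine hsize.trans (h1.trans ?_)
  norm_cast
  refine Finset.card_le_card_of_injOn (fun t => Q * t + ρ) (fun t ht => ?_) (fun t _ t' _ he => ?_)
  · rw [Finset.mem_coe, Finset.mem_filter, mem_Mn] at ht
    obtain ⟨⟨ht1, ht2⟩, ht3⟩ := ht
    rw [Finset.mem_coe, Finset.mem_filter, mem_Mn]
    refine ⟨?_, fun h' hh' => ?_, (gap_of t hgap).mono ?_⟩
    · rw [hn']
      exact shift_monic hQ hρ (by omega) ht1 ht2
    · obtain ⟨i, rfl⟩ := (hmem h').1 hh'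
      obtain ⟨h2, h3⟩ := ht3 i
      have h5 : Alm r n' (Q * t + (ρ + h i)) := h2
      rw [add_assoc]
      exact ⟨h5.mono (by omega), h3⟩
    · have h6 : 8 ≤ A := by
        rw [hA]
        nlinarith
      calc 2 * d + 8 ≤ 8 * (d + 1) := by omega
        _ ≤ A * (d + 1) := Nat.mul_le_mul_right _ h6
  · exact mul_left_cancel₀ hQ.ne_zero (add_right_cancel he)

/-- **One prime and one prescribed parity, consecutive.** -/
theorem part_b [CharP K 2] (H : Finset K[X]) (d : ℕ) (hd : ∀ h ∈ H, h.natDegree ≤ d)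
    (hadm : ∀ P : K[X], P.Monic → Irreducible P → ∃ x : K[X], ∀ h ∈ H, ¬ P ∣ x + h) :
    ∃ (r R : ℕ) (c : ℝ), 0 < c ∧ ∃ N : ℕ, ∀ n : ℕ, N ≤ n →
      ∀ h₀ ∈ H, ∀ h₁ ∈ H, h₁ ≠ h₀ → ∀ σ : ℤ, σ = 1 ∨ σ = -1 →
        c * (Fintype.card K : ℝ) ^ n / (n : ℝ) ^ H.card ≤
          (((Mn K n).filter (fun f => Irreducible (f + h₀) ∧ (∀ h ∈ H, h ≠ h₀ → Alm r n (f + h)) ∧
            mob (f + h₁) = σ ∧ Gap H d R f)).card : ℝ) := by
  obtain ⟨Q, ρ, hQ, hρ, -, hadm', hgap⟩ := exists_class H d hd hadm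
  obtain ⟨r, c, hc, n₀, hfew⟩ := Pool.Agent.H985.CG.dick_few Pool.Agent.H985.CG.s_cheng
    Pool.Agent.H985.CG.s_cntg Pool.Agent.H985.CG.vpg K (k := H.card - 1) Q (fun _ => Q)
    hQ.ne_zero (fun _ => hQ.ne_zero)
  have hq : (0 : ℝ) < Fintype.card K := by exact_mod_cast Fintype.card_pos
  refine ⟨2 * r + 1, 2 * d + 8, c / (Fintype.card K : ℝ) ^ Q.natDegree, by positivity,
    n₀ + 2 * Q.natDegree + d + 2, fun n hn h₀ hh₀ h₁ hh₁ hne σ hσ => ?_⟩
  obtain ⟨n', hn'⟩ : ∃ n', n = n' + Q.natDegree := ⟨n - Q.natDegree, by omega⟩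
  obtain ⟨h, hinj, hmem⟩ := enum (H.erase h₀) (H.card - 1) (Finset.card_erase_of_mem hh₀)
  have hi : ∀ i, h i ∈ H ∧ h i ≠ h₀ := fun i => by
    have := (hmem _).2 ⟨i, rfl⟩
    rw [Finset.mem_erase] at this
    exact ⟨this.2, this.1⟩
  obtain ⟨j, hj⟩ := (hmem h₁).1 (Finset.mem_erase.2 ⟨hne, hh₁⟩)
  have hcard : H.card - 1 + 1 = H.card := by
    have : 0 < H.card := Finset.card_pos.2 ⟨h₀, hh₀⟩
    omega
  have h1 := hfew n' (by omega) (ρ + h₀) (fun i => ρ + h i)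
    (deg_add hρ (hd _ hh₀) (by omega))
    (fun i => deg_add hρ (hd _ (hi i).1) (by omega))
    (fun i he => (hi i).2 (add_left_cancel (mul_left_cancel₀ hQ.ne_zero he)))
    (fun P hP hPi => by
      obtain ⟨x, hx⟩ := hadm' P hP hPi
      exact ⟨x, hx _ hh₀, fun i => hx _ (hi i).1⟩) j σ hσ
  rw [hcard] at h1
  refine (size_le hc hn' (by omega)).trans (h1.trans ?_)
  norm_cast
  refine Finset.card_le_card_of_injOn (fun t => Q * t + ρ) (fun t ht => ?_) (fun t _ t' _ he => ?_)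
  · rw [Finset.mem_coe, Finset.mem_filter, mem_Mn] at ht
    obtain ⟨⟨ht1, ht2⟩, ht3, ht4, ht5⟩ := ht
    rw [Finset.mem_coe, Finset.mem_filter, mem_Mn]
    refine ⟨?_, ?_, fun h' hh' hne' => ?_, ?_, gap_of t hgap⟩
    · rw [hn']
      exact shift_monic hQ hρ (by omega) ht1 ht2
    · rw [add_assoc]
      exact ht3
    · obtain ⟨i, rfl⟩ := (hmem h').1 (Finset.mem_erase.2 ⟨hne', hh'⟩)
      have h5 : Alm r n' (Q * t + (ρ + h i)) := ht4 i
      rw [add_assoc]
      exact h5.mono (by omega)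
    · rw [add_assoc, ← hj]
      exact ht5
  · exact mul_left_cancel₀ hQ.ne_zero (add_right_cancel he)

/-- a bound in all the classes modulo `Q` -/
theorem classes_bound {Q : K[X]} (hQ : Q.Monic) {G T : K[X] → Prop}
    (hG : ∀ f f' : K[X], Q ∣ f - f' → G f' → G f) (w : K[X] → ℝ) {ε : ℝ} {n n' : ℕ}
    (hn : n = n' + Q.natDegree) (hn' : 1 ≤ n')
    (H : ∀ ρ : K[X], ρ.natDegree ≤ Q.natDegree →
      |∑ t ∈ (Mn K n').filter (fun t => T (Q * t + ρ)), w (Q * t + ρ)| ≤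
        ε * ((Mn K n').filter (fun t => T (Q * t + ρ))).card) :
    |∑ f ∈ (Mn K n).filter (fun f => G f ∧ T f), w f| ≤
      ε * ((Mn K n).filter (fun f => G f ∧ T f)).card := by
  obtain ⟨S, hS⟩ : ∃ S, S = (Mn K n).filter (fun f => G f ∧ T f) := ⟨_, rfl⟩
  rw [← hS]
  have hmaps : ∀ f ∈ S, f %ₘ Q ∈ S.image (fun f => f %ₘ Q) := fun f hf =>
    Finset.mem_image_of_mem _ hf
  have hcard : (S.card : ℝ) = ∑ ρ ∈ S.image (fun f => f %ₘ Q),
      ((S.filter (fun f => f %ₘ Q = ρ)).card : ℝ) := by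
    rw [Finset.card_eq_sum_card_fiberwise hmaps]
    push_cast
    rfl
  rw [hcard, ← Finset.sum_fiberwise_of_maps_to hmaps, Finset.mul_sum]
  refine (Finset.abs_sum_le_sum_abs _ _).trans (Finset.sum_le_sum fun ρ hρ => ?_)
  rw [Finset.mem_image] at hρ
  obtain ⟨f₀, hf₀, rfl⟩ := hρ
  rw [hS, Finset.mem_filter] at hf₀
  have hfib : S.filter (fun f => f %ₘ Q = f₀ %ₘ Q) =
      ((Mn K n').filter (fun t => T (Q * t + f₀ %ₘ Q))).image (fun t => Q * t + f₀ %ₘ Q) := by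
    ext f
    rw [Finset.mem_filter, hS, Finset.mem_filter, mem_Mn, Finset.mem_image]
    constructor
    · rintro ⟨⟨⟨h1, h2⟩, h3, h4⟩, h5⟩
      have h6 := modByMonic_add_div f Q
      have h7 : Q * (f /ₘ Q) + f₀ %ₘ Q = f := by
        rw [← h5]
        linear_combination h6
      have hlt : (f₀ %ₘ Q).degree < f.degree := by
        refine (degree_modByMonic_lt f₀ hQ).trans_le ?_
        rw [degree_eq_natDegree h1.ne_zero, degree_eq_natDegree hQ.ne_zero, h2]
        exact_mod_cast (by omega : Q.natDegree ≤ n)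
      have h8 : (Q * (f /ₘ Q)).Monic := by
        have h : Q * (f /ₘ Q) = f - f₀ %ₘ Q := by linear_combination h7
        rw [h]
        exact h1.sub_of_left hlt
      have h9 : (f /ₘ Q).Monic := hQ.of_mul_monic_left h8
      have h10 : (f /ₘ Q).natDegree = n' := by
        rw [natDegree_divByMonic f hQ]
        omega
      refine ⟨f /ₘ Q, ?_, h7⟩
      rw [Finset.mem_filter, mem_Mn]
      exact ⟨⟨h9, h10⟩, by rw [h7]; exact h4⟩
    · rintro ⟨t, ht, rfl⟩
      rw [Finset.mem_filter, mem_Mn] at ht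
      obtain ⟨⟨ht1, ht2⟩, ht3⟩ := ht
      have h11 : Q ∣ (Q * t + f₀ %ₘ Q) - f₀ := by
        have h := modByMonic_add_div f₀ Q
        exact ⟨t - f₀ /ₘ Q, by linear_combination h⟩
      refine ⟨⟨?_, hG _ _ h11 hf₀.2.1, ht3⟩, Polynomial.modByMonic_eq_of_dvd_sub hQ h11⟩
      rw [hn]
      exact shift_monic hQ (natDegree_modByMonic_le f₀ hQ) hn' ht1 ht2
  have hinj : Function.Injective (fun t : K[X] => Q * t + f₀ %ₘ Q) := fun t t' he =>
    mul_left_cancel₀ hQ.ne_zero (add_right_cancel he)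
  rw [hfib, Finset.sum_image (fun t _ t' _ he => hinj he), Finset.card_image_of_injective _ hinj]
  exact H _ (natDegree_modByMonic_le f₀ hQ)

/-- the product of all the monic irreducible polynomials of degree at most `R` -/
theorem exists_mod (H : Finset K[X]) (d R : ℕ) : ∃ Q : K[X], Q.Monic ∧
    ∀ f f' : K[X], Q ∣ f - f' → Gap H d R f' → Gap H d R f := by
  refine ⟨∏ P ∈ PU K R, P, monic_prod_of_monic _ _ fun P hP => (mem_PU.1 hP).1, ?_⟩
  intro f f' hff hgap g hg hgH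
  obtain ⟨P, hP, hPR, hPd⟩ := hgap g hg hgH
  refine ⟨P, hP, hPR, ?_⟩
  have hP0 : P ≠ 0 := hP.ne_zero
  have hu : IsUnit (C (P.leadingCoeff)⁻¹ : K[X]) :=
    isUnit_C.2 (IsUnit.mk0 _ (inv_ne_zero (mt leadingCoeff_eq_zero.1 hP0)))
  have h1 : (P * C (P.leadingCoeff)⁻¹).Monic := monic_mul_leadingCoeff_inv hP0
  have h2 : Irreducible (P * C (P.leadingCoeff)⁻¹) := (irreducible_mul_isUnit hu).2 hP
  have h3 : (P * C (P.leadingCoeff)⁻¹).natDegree = P.natDegree :=
    natDegree_mul_C (inv_ne_zero (mt leadingCoeff_eq_zero.1 hP0))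
  have h4 : P * C (P.leadingCoeff)⁻¹ ∣ ∏ P ∈ PU K R, P :=
    Finset.dvd_prod_of_mem (fun P : K[X] => P) (mem_PU.2 ⟨h1, h2, by rw [h3]; exact hPR⟩)
  have h5 : P ∣ f - f' := (dvd_mul_right P _).trans (h4.trans hff)
  have h6 : f + g = (f - f') + (f' + g) := by ring
  rw [h6]
  exact dvd_add h5 hPd

/-- **Equidistribution of the patterns of parities among the consecutive realisations.** -/
theorem part_c [CharP K 2] (H : Finset K[X]) (d : ℕ) (hd : ∀ h ∈ H, h.natDegree ≤ d) (R : ℕ)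
    (ε : ℝ) (hε : 0 < ε) :
    ∃ κ : ℝ, 0 < κ ∧ ∃ M N : ℕ, ∀ n m : ℕ, N ≤ n → M ≤ m → (m : ℝ) ≤ κ * n →
      ∀ σ : K[X] → ℤ, (∀ h ∈ H, σ h = 1 ∨ σ h = -1) →
        |((((Mn K n).filter (fun f => Gap H d R f ∧ SftAll H m f)).filter (Pat H σ)).card : ℝ) -
          ((Mn K n).filter (fun f => Gap H d R f ∧ SftAll H m f)).card / 2 ^ H.card| ≤
          ε * ((Mn K n).filter (fun f => Gap H d R f ∧ SftAll H m f)).card := by
  obtain ⟨Q, hQ, hper⟩ := exists_mod H d R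
  obtain ⟨h, hinj, hmem⟩ := enum H H.card rfl
  obtain ⟨κ, hκ, M, N, hp⟩ := Pool.Agent.H985.Par.lin_patt K (k := H.card) (fun _ => Q)
    (fun _ => hQ.ne_zero) ε hε
  refine ⟨κ / 2, by positivity, M, N + 2 * Q.natDegree + d + 2, fun n m hn hm hmκ σ hσ => ?_⟩
  obtain ⟨n', hn'⟩ : ∃ n', n = n' + Q.natDegree := ⟨n - Q.natDegree, by omega⟩
  have hi : ∀ i, h i ∈ H := fun i => (hmem _).2 ⟨i, rfl⟩
  have hmκ' : (m : ℝ) ≤ κ * n' := by
    have h1 : (n : ℝ) ≤ 2 * n' := by exact_mod_cast (by omega : n ≤ 2 * n')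
    nlinarith
  have hsum : ∀ S : Finset K[X], ∑ f ∈ S, ((if Pat H σ f then (1 : ℝ) else 0) -
      1 / 2 ^ H.card) = ((S.filter (Pat H σ)).card : ℝ) - S.card / 2 ^ H.card := by
    intro S
    rw [Finset.sum_sub_distrib, Finset.sum_boole, Finset.sum_const, nsmul_eq_mul]
    ring
  rw [← hsum]
  refine classes_bound hQ (G := Gap H d R) (T := SftAll H m) hper _ hn' (by omega)
    (fun ρ hρ => ?_)
  have h1 := hp n' (by omega) m hm hmκ' (fun i => ρ + h i)
    (fun i => deg_add hρ (hd _ (hi i)) (by omega))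
    (fun i j hij he => hij (hinj (add_left_cancel (mul_left_cancel₀ hQ.ne_zero he)).symm))
    (fun i => σ (h i)) (fun i => hσ _ (hi i))
  have hL : (Mn K n').filter (fun t => SftAll H m (Q * t + ρ)) =
      Lfs K (fun _ => Q) (fun i => ρ + h i) n' m := by
    ext t
    unfold Pool.Agent.H985.Par.Lfs
    rw [Finset.mem_filter, Finset.mem_filter]
    refine and_congr_right fun _ => ⟨fun ht i => ?_, fun ht h' hh' => ?_⟩
    · rw [← add_assoc]
      exact ht _ (hi i)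
    · obtain ⟨i, rfl⟩ := (hmem h').1 hh'
      rw [add_assoc]
      exact ht i
  have hF : (Lfs K (fun _ => Q) (fun i => ρ + h i) n' m).filter (fun t => Pat H σ (Q * t + ρ)) =
      (Lfs K (fun _ => Q) (fun i => ρ + h i) n' m).filter
        (fun t => ∀ i, mob (Q * t + (ρ + h i)) = σ (h i)) := by
    ext t
    rw [Finset.mem_filter, Finset.mem_filter]
    refine and_congr_right fun _ => ⟨fun ht i => ?_, fun ht h' hh' => ?_⟩
    · rw [← add_assoc]
      exact ht _ (hi i)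
    · obtain ⟨i, rfl⟩ := (hmem h').1 hh'
      rw [add_assoc]
      exact ht i
  rw [hL, Finset.sum_sub_distrib, Finset.sum_boole, Finset.sum_const, nsmul_eq_mul, hF,
    mul_one_div]
  exact h1

/-- **The mean value of the Moebius function next to a prime, among the consecutive realisations.** -/
theorem part_d [CharP K 2] (H : Finset K[X]) (d : ℕ) (hd : ∀ h ∈ H, h.natDegree ≤ d) (R : ℕ)
    (ε : ℝ) (hε : 0 < ε) :
    ∃ κ : ℝ, 0 < κ ∧ ∃ M N : ℕ, ∀ n m : ℕ, N ≤ n → M ≤ m → (m : ℝ) ≤ κ * n →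
      ∀ h₀ ∈ H, ∀ h₁ ∈ H, h₁ ≠ h₀ →
        |∑ f ∈ (Mn K n).filter (fun f => Gap H d R f ∧ PrmAll H h₀ m f), (mob (f + h₁) : ℝ)| ≤
          ε * ((Mn K n).filter (fun f => Gap H d R f ∧ PrmAll H h₀ m f)).card := by
  obtain ⟨Q, hQ, hper⟩ := exists_mod H d R
  obtain ⟨κ, hκ, M, N, hp⟩ := Pool.Agent.H985.CG.dick_sum Pool.Agent.H985.CG.s_cheng
    Pool.Agent.H985.CG.s_cntg K (k := H.card - 1) Q (fun _ => Q) hQ.ne_zero
    (fun _ => hQ.ne_zero) ε hε
  refine ⟨κ / 2, by positivity, M, N + 2 * Q.natDegree + d + 2,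
    fun n m hn hm hmκ h₀ hh₀ h₁ hh₁ hne => ?_⟩
  obtain ⟨n', hn'⟩ : ∃ n', n = n' + Q.natDegree := ⟨n - Q.natDegree, by omega⟩
  obtain ⟨h, hinj, hmem⟩ := enum (H.erase h₀) (H.card - 1) (Finset.card_erase_of_mem hh₀)
  have hi : ∀ i, h i ∈ H ∧ h i ≠ h₀ := fun i => by
    have := (hmem _).2 ⟨i, rfl⟩
    rw [Finset.mem_erase] at this
    exact ⟨this.2, this.1⟩
  obtain ⟨j, hj⟩ := (hmem h₁).1 (Finset.mem_erase.2 ⟨hne, hh₁⟩)
  have hmκ' : (m : ℝ) ≤ κ * n' := by
    have h1 : (n : ℝ) ≤ 2 * n' := by exact_mod_cast (by omega : n ≤ 2 * n')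
    nlinarith
  refine classes_bound hQ (G := Gap H d R) (T := PrmAll H h₀ m) hper
    (fun f => (mob (f + h₁) : ℝ)) hn' (by omega) (fun ρ hρ => ?_)
  have h1 := hp n' (by omega) m (ρ + h₀) (fun i => ρ + h i) hm hmκ'
    (deg_add hρ (hd _ hh₀) (by omega))
    (fun i => deg_add hρ (hd _ (hi i).1) (by omega))
    (fun i he => (hi i).2 (add_left_cancel (mul_left_cancel₀ hQ.ne_zero he))) j
  have hL : (Mn K n').filter (fun t => PrmAll H h₀ m (Q * t + ρ)) =
      Tf K Q (ρ + h₀) (fun _ => Q) (fun i => ρ + h i) n' m := by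
    ext t
    rw [Finset.mem_filter, mem_Mn, mem_Tf]
    refine and_congr_right fun _ => ?_
    unfold PrmAll
    rw [add_assoc]
    refine and_congr_right fun _ => ⟨fun ht i => ?_, fun ht h' hh' hne' => ?_⟩
    · rw [← add_assoc]
      have := ht _ (hi i).1 (hi i).2
      exact this
    · obtain ⟨i, rfl⟩ := (hmem h').1 (Finset.mem_erase.2 ⟨hne', hh'⟩)
      have := ht i
      rw [← add_assoc] at this
      exact this
  rw [hL]
  refine le_trans (le_of_eq ?_) h1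
  refine congrArg _ (Finset.sum_congr rfl fun t _ => ?_)
  rw [add_assoc, ← hj]

end Pool.Agent.H530.Consec
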