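import Mathlib
import Pool.Graph.R_pool_sql_team_seeded_63374d34.N403.QG.BVL
import Pool.Graph.R_seed8.H373R2.T7.Fund

/-! Sums of the Liouville function over the values of a linear form in residue classes. -/

set_option autoImplicit false

namespace Pool.Agent.H530.Ha

open Finset

/-- the Liouville function -/
noncomputable def la (n : ℕ) : ℝ := Pool.Agent.N728.QG.lam (n : ℤ)

lemma la_eq {n : ℕ} (hn : n ≠ 0) : la n = (-1) ^ (ArithmeticFunction.cardFactors n) := by
  unfold la Pool.Agent.N728.QG.lam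
  rw [if_neg (by exact_mod_cast hn), Int.natAbs_natCast]

lemma la_zero : la 0 = 0 := by
  unfold la Pool.Agent.N728.QG.lam
  simp

lemma la_abs (n : ℕ) : |la n| ≤ 1 := by
  by_cases hn : n = 0
  · subst hn
    rw [la_zero]
    simp
  · rw [la_eq hn, abs_pow, abs_neg, abs_one, one_pow]

lemma la_mul (m n : ℕ) : la (m * n) = la m * la n := by
  by_cases hm : m = 0
  · rw [hm, zero_mul, la_zero, zero_mul]
  by_cases hn : n = 0
  · rw [hn, mul_zero, la_zero, mul_zero]
  rw [la_eq hm, la_eq hn, la_eq (mul_ne_zero hm hn), ArithmeticFunction.cardFactors_mul hm hn, pow_add]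

lemma la_sq {n : ℕ} (hn : n ≠ 0) : la n = 1 ∨ la n = -1 := by
  rw [la_eq hn]
  exact neg_one_pow_eq_or ℝ _

/-- sums over residue classes -/
noncomputable def SL (h m r : ℕ) : ℝ := ∑ n ∈ (Icc 1 h).filter (fun n => n ≡ r [MOD m]), la n

/-- the largest sum over a coprime class -/
noncomputable def EE (h m : ℕ) : ℝ :=
  (range (m + 1)).sup' ⟨0, mem_range.2 (Nat.succ_pos _)⟩
    (fun r => if Nat.Coprime r m then |SL h m r| else 0)

lemma EE_nonneg (h m : ℕ) : 0 ≤ EE h m := by
  refine le_trans ?_ (Finset.le_sup' (s := range (m + 1))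
    (fun r => if Nat.Coprime r m then |SL h m r| else 0) (mem_range.2 (Nat.succ_pos m)))
  split_ifs
  · exact abs_nonneg _
  · exact le_rfl

lemma EE_ge {h m r : ℕ} (hm : 1 ≤ m) (hr : Nat.Coprime r m) : |SL h m r| ≤ EE h m := by
  have h1 : r % m < m + 1 := (Nat.mod_lt _ hm).trans (Nat.lt_succ_self _)
  have h2 := Finset.le_sup' (s := range (m + 1)) (fun r => if Nat.Coprime r m then |SL h m r| else 0)
    (mem_range.2 h1)
  have h3 : Nat.Coprime (r % m) m := by
    have := (Nat.mod_modEq r m).gcd_eq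
    rw [Nat.Coprime, this]
    exact hr
  simp only [if_pos h3] at h2
  refine le_trans (le_of_eq ?_) h2
  unfold SL
  congr 2
  apply filter_congr
  intro n _
  constructor
  · intro h
    exact h.trans (Nat.mod_modEq r m).symm
  · intro h
    exact h.trans (Nat.mod_modEq r m)

lemma EE_eq (h m : ℕ) : ∃ r : ℕ, EE h m = if Nat.Coprime r m then |SL h m r| else 0 := by
  obtain ⟨r, -, hr⟩ := Finset.exists_mem_eq_sup' (s := range (m + 1))
    ⟨0, mem_range.2 (Nat.succ_pos _)⟩ (fun r => if Nat.Coprime r m then |SL h m r| else 0)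
  exact ⟨r, hr⟩

/-- the number of elements of a class -/
lemma card_class (h m r : ℕ) (hm : 1 ≤ m) :
    (((Icc 1 h).filter (fun n => n ≡ r [MOD m])).card : ℝ) ≤ h / m + 1 := by
  have h1 := Pool.Agent.H373R2.T7.count_class h m r hm
  have h2 := (abs_le.1 h1).2
  linarith

lemma EE_le (h m : ℕ) (hm : 1 ≤ m) : EE h m ≤ h / m + 1 := by
  obtain ⟨r, hr⟩ := EE_eq h m
  rw [hr]
  split_ifs
  · refine le_trans ?_ (card_class h m r hm)
    unfold SL
    refine (abs_sum_le_sum_abs _ _).trans ?_
    calc ∑ n ∈ (Icc 1 h).filter (fun n => n ≡ r [MOD m]), |la n| ≤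
        ∑ n ∈ (Icc 1 h).filter (fun n => n ≡ r [MOD m]), (1 : ℝ) := sum_le_sum fun n _ => la_abs n
      _ = _ := by rw [sum_const, nsmul_eq_mul, mul_one]
  · positivity

/-- Bombieri and Vinogradov -/
theorem bv (A : ℕ) : ∃ K X0 : ℕ, ∀ x : ℕ, X0 ≤ x → ∀ D : ℕ, (D : ℝ) ^ 2 * Real.log x ^ K ≤ x →
    ∑ m ∈ Icc 1 D, EE x m ≤ x / Real.log x ^ A := by
  obtain ⟨K, X0, H⟩ := Pool.Agent.N403.QG.t_BVL A
  refine ⟨K, X0, fun x hx D hD => ?_⟩
  choose r hr using fun m => EE_eq x m
  have h1 := H x hx D hD (fun m => if Nat.Coprime (r m) m then r m else 1) (fun _ => x)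
    (fun m _ => by
      split_ifs with h
      · exact h
      · exact Nat.coprime_one_left _) (fun _ => le_rfl)
  refine le_trans (sum_le_sum fun m hm => ?_) h1
  rw [hr m]
  by_cases h : Nat.Coprime (r m) m
  · rw [if_pos h, if_pos h]
    unfold SL la
    exact le_rfl
  · rw [if_neg h]
    exact abs_nonneg _

/-- the values of a linear form in a residue class, divisible by `g` -/
theorem lin_sum (a b X q c g : ℕ) (ha : 1 ≤ a) (hq : 1 ≤ q) (hg : 1 ≤ g) (hga : Nat.Coprime g (a * q))
    (hc : Nat.Coprime (a * c + b) (a * q)) :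
    |∑ n ∈ (Icc 1 X).filter (fun n => n ≡ c [MOD q] ∧ g ∣ a * n + b), la (a * n + b)| ≤
      EE ((a * X + b) / g) (a * q) + b := by
  classical
  have haq : 1 ≤ a * q := Nat.mul_pos ha hq
  -- the class
  obtain ⟨r, hr⟩ : ∃ r : ℕ, g * r ≡ a * c + b [MOD a * q] := by
    have : NeZero (a * q) := ⟨by omega⟩
    refine ⟨((g : ZMod (a * q))⁻¹ * ((a * c + b : ℕ) : ZMod (a * q))).val, ?_⟩
    rw [← ZMod.natCast_eq_natCast_iff]
    push_cast
    rw [ZMod.natCast_zmod_val, ← mul_assoc, ZMod.coe_mul_inv_eq_one g hga, one_mul]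
  have hrc : Nat.Coprime r (a * q) := by
    have h1 : Nat.Coprime (g * r) (a * q) := by
      rw [Nat.Coprime, hr.gcd_eq]
      exact hc
    exact Nat.Coprime.coprime_mul_left h1
  have hcl : ∀ u : ℕ, u ≡ r [MOD a * q] ↔ g * u ≡ a * c + b [MOD a * q] := by
    intro u
    constructor
    · intro h
      exact (h.mul_left g).trans hr
    · intro h
      exact Nat.ModEq.cancel_left_of_coprime hga.symm (h.trans hr.symm)
  set h := (a * X + b) / g with hh
  set U := (Icc 1 h).filter (fun u => u ≡ r [MOD a * q]) with hU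
  set U1 := U.filter (fun u => a + b ≤ g * u) with hU1
  have e1 : ∑ n ∈ (Icc 1 X).filter (fun n => n ≡ c [MOD q] ∧ g ∣ a * n + b), la (a * n + b) =
      la g * ∑ u ∈ U1, la u := by
    rw [mul_sum]
    apply Finset.sum_bij' (fun n _ => (a * n + b) / g) (fun u _ => (g * u - b) / a)
    · intro n hn
      rw [mem_filter, mem_Icc] at hn
      obtain ⟨⟨h1, h2⟩, h3, h4⟩ := hn
      have h5 : g * ((a * n + b) / g) = a * n + b := Nat.mul_div_cancel' h4
      rw [hU1, mem_filter, hU, mem_filter, mem_Icc, hcl, h5]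
      refine ⟨⟨⟨?_, ?_⟩, ?_⟩, ?_⟩
      · rw [Nat.one_le_iff_ne_zero]
        intro h0
        rw [h0, mul_zero] at h5
        have : 1 ≤ a * n := Nat.mul_pos ha h1
        omega
      · apply Nat.div_le_div_right
        have : a * n ≤ a * X := Nat.mul_le_mul_left _ h2
        omega
      · exact (Nat.ModEq.mul_left' a h3).add_right b
      · have : a * 1 ≤ a * n := Nat.mul_le_mul_left _ h1
        omega
    · intro u hu
      rw [hU1, mem_filter, hU, mem_filter, mem_Icc, hcl] at hu
      obtain ⟨⟨⟨h1, h2⟩, h3⟩, h4⟩ := hu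
      have h5 : g * u ≡ b [MOD a] := by
        have h6 := h3.of_mul_right q
        refine h6.trans ?_
        have : a * c + b ≡ 0 + b [MOD a] := Nat.ModEq.add_right b (by
          rw [Nat.modEq_zero_iff_dvd]
          exact dvd_mul_right _ _)
        simpa using this
      have h6 : a ∣ g * u - b := (Nat.modEq_iff_dvd' (by omega)).1 h5.symm
      obtain ⟨n, hn⟩ := h6
      have h7 : g * u = a * n + b := by omega
      have h8 : (g * u - b) / a = n := by
        rw [hn]
        exact Nat.mul_div_cancel_left _ ha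
      rw [h8, mem_filter, mem_Icc]
      rw [h7] at h3 h4
      refine ⟨⟨?_, ?_⟩, ?_, ?_⟩
      · rw [Nat.one_le_iff_ne_zero]
        rintro rfl
        omega
      · have h9 : g * u ≤ a * X + b := by
          calc g * u ≤ g * ((a * X + b) / g) := Nat.mul_le_mul_left _ h2
            _ ≤ a * X + b := Nat.mul_div_le _ _
        have h10 : a * n ≤ a * X := by omega
        exact Nat.le_of_mul_le_mul_left h10 ha
      · have h9 : a * n ≡ a * c [MOD a * q] := Nat.ModEq.add_right_cancel' b h3
        exact Nat.ModEq.mul_left_cancel' (by omega) h9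
      · rw [← h7]
        exact dvd_mul_right _ _
    · intro n hn
      rw [mem_filter, mem_Icc] at hn
      obtain ⟨⟨h1, h2⟩, h3, h4⟩ := hn
      have h5 : g * ((a * n + b) / g) = a * n + b := Nat.mul_div_cancel' h4
      rw [h5, Nat.add_sub_cancel, Nat.mul_div_cancel_left _ ha]
    · intro u hu
      rw [hU1, mem_filter, hU, mem_filter, mem_Icc, hcl] at hu
      obtain ⟨⟨⟨h1, h2⟩, h3⟩, h4⟩ := hu
      have h5 : g * u ≡ b [MOD a] := by
        have h6 := h3.of_mul_right q
        refine h6.trans ?_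
        have : a * c + b ≡ 0 + b [MOD a] := Nat.ModEq.add_right b (by
          rw [Nat.modEq_zero_iff_dvd]
          exact dvd_mul_right _ _)
        simpa using this
      have h6 : a ∣ g * u - b := (Nat.modEq_iff_dvd' (by omega)).1 h5.symm
      rw [Nat.mul_div_cancel' h6, Nat.sub_add_cancel (by omega), Nat.mul_div_cancel_left _ hg]
    · intro n hn
      rw [mem_filter] at hn
      obtain ⟨-, -, h4⟩ := hn
      rw [← la_mul, Nat.mul_div_cancel' h4]
  have e2 : ∑ u ∈ U1, la u = SL h (a * q) r - ∑ u ∈ U.filter (fun u => ¬ a + b ≤ g * u), la u := by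
    have := sum_filter_add_sum_filter_not U (fun u => a + b ≤ g * u) la
    unfold SL
    rw [← hU, ← this]
    ring
  have e3 : |∑ u ∈ U.filter (fun u => ¬ a + b ≤ g * u), la u| ≤ b := by
    refine (abs_sum_le_sum_abs _ _).trans ?_
    calc ∑ u ∈ U.filter (fun u => ¬ a + b ≤ g * u), |la u| ≤
        ∑ u ∈ U.filter (fun u => ¬ a + b ≤ g * u), (1 : ℝ) := sum_le_sum fun n _ => la_abs n
      _ = ((U.filter (fun u => ¬ a + b ≤ g * u)).card : ℝ) := by rw [sum_const, nsmul_eq_mul, mul_one]
      _ ≤ ((Icc 1 b).card : ℝ) := by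
          apply Nat.cast_le.2
          apply card_le_card
          intro u hu
          rw [mem_filter, hU, mem_filter, mem_Icc, hcl] at hu
          obtain ⟨⟨⟨h1, h2⟩, h3⟩, h4⟩ := hu
          rw [mem_Icc]
          refine ⟨h1, ?_⟩
          -- g u ≡ b mod a and g u < a + b, so g u ≤ b
          have h5 : g * u ≡ b [MOD a] := by
            have h6 := h3.of_mul_right q
            refine h6.trans ?_
            have : a * c + b ≡ 0 + b [MOD a] := Nat.ModEq.add_right b (by
              rw [Nat.modEq_zero_iff_dvd]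
              exact dvd_mul_right _ _)
            simpa using this
          have h6 : g * u ≤ b := by
            by_contra h7
            have h8 : a ∣ g * u - b := (Nat.modEq_iff_dvd' (by omega)).1 h5.symm
            have h9 := Nat.le_of_dvd (by omega) h8
            omega
          calc u = 1 * u := (one_mul u).symm
            _ ≤ g * u := Nat.mul_le_mul_right _ hg
            _ ≤ b := h6
      _ = b := by rw [Nat.card_Icc]; simp
  rw [e1, abs_mul]
  calc |la g| * |∑ u ∈ U1, la u| ≤ 1 * |∑ u ∈ U1, la u| :=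
        mul_le_mul_of_nonneg_right (la_abs g) (abs_nonneg _)
    _ = |SL h (a * q) r - ∑ u ∈ U.filter (fun u => ¬ a + b ≤ g * u), la u| := by rw [one_mul, e2]
    _ ≤ |SL h (a * q) r| + |∑ u ∈ U.filter (fun u => ¬ a + b ≤ g * u), la u| := abs_sub _ _
    _ ≤ _ := add_le_add (EE_ge haq hrc) e3

end Pool.Agent.H530.Ha
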