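import Pool.Agent.H530.HaA

/-! The Liouville function at the values of a linear form, under conditions modulo several primes. -/

set_option autoImplicit false

namespace Pool.Agent.H530.Ha

open Finset

/-- the bound for one class -/
noncomputable def BB (a b X g q : ℕ) : ℝ := EE ((a * X + b) / g) (a * q) + b

lemma BB_nonneg (a b X g q : ℕ) : 0 ≤ BB a b X g q := add_nonneg (EE_nonneg _ _) (Nat.cast_nonneg _)

open Classical in
/-- a condition modulo `p` with few classes outside of the zero of the form -/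
structure Cnd (a b κ : ℕ) (Q : ℕ → ℕ → Prop) (p : ℕ) : Prop where
  pr : p.Prime
  na : ¬ p ∣ a
  per : ∀ n, Q p n ↔ Q p (n % p)
  few : ((range p).filter (fun r => Q p r ∧ ¬ p ∣ a * r + b)).card ≤ κ
  hit : ∀ n, p ∣ a * n + b → Q p n

open Classical in
theorem ind (a b X κ : ℕ) (ha : 1 ≤ a) (Q : ℕ → ℕ → Prop) (S : Finset ℕ) :
    (∀ p ∈ S, Cnd a b κ Q p) → ∀ g q c : ℕ, 1 ≤ g → 1 ≤ q → (∀ p ∈ S, ¬ p ∣ g ∧ ¬ p ∣ q) →
    Nat.Coprime g (a * q) → Nat.Coprime (a * c + b) (a * q) →
    |∑ n ∈ (Icc 1 X).filter (fun n => n ≡ c [MOD q] ∧ g ∣ a * n + b ∧ ∀ p ∈ S, Q p n), la (a * n + b)| ≤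
      ∑ U ∈ S.powerset, (κ : ℝ) ^ (S \ U).card * BB a b X (g * ∏ p ∈ U, p) (q * ∏ p ∈ S \ U, p) := by
  induction S using Finset.induction_on with
  | empty =>
    intro _ g q c hg hq _ h1 h2
    have h3 := lin_sum a b X q c g ha hq hg h1 h2
    simpa [BB] using h3
  | insert p S hp ih =>
    intro hS g q c hg hq hgq h1 h2
    have hP := hS p (mem_insert_self p S)
    have hS' : ∀ p' ∈ S, Cnd a b κ Q p' := fun p' hp' => hS p' (mem_insert_of_mem hp')
    have hpg := hgq p (mem_insert_self p S)
    have hne : ∀ p' ∈ S, ¬ p' ∣ p := by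
      intro p' hp' hd
      have := (Nat.prime_dvd_prime_iff_eq (hS' p' hp').pr hP.pr).1 hd
      rw [this] at hp'
      exact hp hp'
    have hpp := hP.pr.pos
    rw [Finset.sum_powerset_insert hp]
    -- split
    set F := (Icc 1 X).filter (fun n => n ≡ c [MOD q] ∧ g ∣ a * n + b ∧ ∀ p' ∈ insert p S, Q p' n) with hF
    have hsplit := sum_filter_add_sum_filter_not F (fun n => p ∣ a * n + b) (fun n => la (a * n + b))
    rw [← hsplit]
    -- the first part
    have f1 : F.filter (fun n => p ∣ a * n + b) =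
        (Icc 1 X).filter (fun n => n ≡ c [MOD q] ∧ g * p ∣ a * n + b ∧ ∀ p' ∈ S, Q p' n) := by
      ext n
      rw [mem_filter, hF, mem_filter, mem_filter]
      constructor
      · rintro ⟨⟨h3, h4, h5, h6⟩, h7⟩
        refine ⟨h3, h4, ?_, fun p' hp' => h6 p' (mem_insert_of_mem hp')⟩
        exact Nat.Coprime.mul_dvd_of_dvd_of_dvd
          ((Nat.Prime.coprime_iff_not_dvd hP.pr).2 hpg.1).symm h5 h7
      · rintro ⟨h3, h4, h5, h6⟩
        have h7 : p ∣ a * n + b := (dvd_mul_left p g).trans h5
        refine ⟨⟨h3, h4, (dvd_mul_right g p).trans h5, fun p' hp' => ?_⟩, h7⟩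
        rcases mem_insert.1 hp' with h | h
        · rw [h]
          exact hP.hit n h7
        · exact h6 p' h
    have hpaq : ¬ p ∣ a * q := by
      rw [hP.pr.dvd_mul]
      rintro (h | h)
      · exact hP.na h
      · exact hpg.2 h
    have g1 : |∑ n ∈ F.filter (fun n => p ∣ a * n + b), la (a * n + b)| ≤
        ∑ U ∈ S.powerset, (κ : ℝ) ^ (S \ U).card * BB a b X (g * p * ∏ p ∈ U, p) (q * ∏ p ∈ S \ U, p) := by
      rw [f1]
      apply ih hS' (g * p) q c (Nat.mul_pos hg hpp) hq
      · intro p' hp'
        have h3 := hgq p' (mem_insert_of_mem hp')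
        refine ⟨?_, h3.2⟩
        rw [(hS' p' hp').pr.dvd_mul]
        rintro (h | h)
        · exact h3.1 h
        · exact hne p' hp' h
      · exact Nat.Coprime.mul_left h1 ((Nat.Prime.coprime_iff_not_dvd hP.pr).2 hpaq)
      · exact h2
    -- the second part
    set R := (range p).filter (fun r => Q p r ∧ ¬ p ∣ a * r + b) with hR
    have f2 : ∑ n ∈ F.filter (fun n => ¬ p ∣ a * n + b), la (a * n + b) =
        ∑ r ∈ R, ∑ n ∈ (F.filter (fun n => ¬ p ∣ a * n + b)).filter (fun n => n % p = r), la (a * n + b) := by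
      refine (sum_fiberwise_of_maps_to (fun n hn => ?_) _).symm
      rw [mem_filter, hF, mem_filter] at hn
      obtain ⟨⟨h3, h4, h5, h6⟩, h7⟩ := hn
      rw [hR, mem_filter, mem_range]
      refine ⟨Nat.mod_lt _ hpp, (hP.per n).1 (h6 p (mem_insert_self p S)), ?_⟩
      intro h8
      apply h7
      have h9 : a * (n % p) + b ≡ a * n + b [MOD p] :=
        Nat.ModEq.add_right b (Nat.ModEq.mul_left a (Nat.mod_modEq n p))
      exact (Nat.ModEq.dvd_iff h9 (dvd_refl p)).1 h8
    have g2 : |∑ n ∈ F.filter (fun n => ¬ p ∣ a * n + b), la (a * n + b)| ≤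
        κ * ∑ U ∈ S.powerset, (κ : ℝ) ^ (S \ U).card * BB a b X (g * ∏ p ∈ U, p) (q * p * ∏ p ∈ S \ U, p) := by
      rw [f2]
      refine (abs_sum_le_sum_abs _ _).trans ?_
      have h3 : ∀ r ∈ R, |∑ n ∈ (F.filter (fun n => ¬ p ∣ a * n + b)).filter (fun n => n % p = r),
          la (a * n + b)| ≤
          ∑ U ∈ S.powerset, (κ : ℝ) ^ (S \ U).card * BB a b X (g * ∏ p ∈ U, p) (q * p * ∏ p ∈ S \ U, p) := by
        intro r hr
        rw [hR, mem_filter, mem_range] at hr
        have hcop : Nat.Coprime q p := ((Nat.Prime.coprime_iff_not_dvd hP.pr).2 hpg.2).symm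
        obtain ⟨c', hc1, hc2⟩ := Nat.chineseRemainder hcop c r
        have f3 : (F.filter (fun n => ¬ p ∣ a * n + b)).filter (fun n => n % p = r) =
            (Icc 1 X).filter (fun n => n ≡ c' [MOD q * p] ∧ g ∣ a * n + b ∧ ∀ p' ∈ S, Q p' n) := by
          ext n
          rw [mem_filter, mem_filter, hF, mem_filter, mem_filter]
          constructor
          · rintro ⟨⟨⟨h4, h5, h6, h7⟩, h8⟩, h9⟩
            refine ⟨h4, ?_, h6, fun p' hp' => h7 p' (mem_insert_of_mem hp')⟩
            rw [← Nat.modEq_and_modEq_iff_modEq_mul hcop]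
            refine ⟨h5.trans hc1.symm, ?_⟩
            have h10 : n ≡ r [MOD p] := by
              rw [← h9]
              exact (Nat.mod_modEq n p).symm
            exact h10.trans hc2.symm
          · rintro ⟨h4, h5, h6, h7⟩
            rw [← Nat.modEq_and_modEq_iff_modEq_mul hcop] at h5
            have h8 : n ≡ r [MOD p] := h5.2.trans hc2
            have h9 : n % p = r := by
              have := h8
              unfold Nat.ModEq at this
              rw [this]
              exact Nat.mod_eq_of_lt hr.1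
            refine ⟨⟨⟨h4, h5.1.trans hc1, h6, fun p' hp' => ?_⟩, ?_⟩, h9⟩
            · rcases mem_insert.1 hp' with h | h
              · rw [h, hP.per, h9]
                exact hr.2.1
              · exact h7 p' h
            · intro h10
              apply hr.2.2
              have h11 : a * n + b ≡ a * r + b [MOD p] := Nat.ModEq.add_right b (Nat.ModEq.mul_left a h8)
              exact (Nat.ModEq.dvd_iff h11 (dvd_refl p)).1 h10
        rw [f3]
        apply ih hS' g (q * p) c' hg (Nat.mul_pos hq hpp)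
        · intro p' hp'
          have h3 := hgq p' (mem_insert_of_mem hp')
          refine ⟨h3.1, ?_⟩
          rw [(hS' p' hp').pr.dvd_mul]
          rintro (h | h)
          · exact h3.2 h
          · exact hne p' hp' h
        · rw [← mul_assoc]
          exact Nat.Coprime.mul_right h1 ((Nat.Prime.coprime_iff_not_dvd hP.pr).2 hpg.1).symm
        · rw [← mul_assoc]
          apply Nat.Coprime.mul_right
          · -- a c' + b ≡ a c + b mod a q
            have h4 : a * c' + b ≡ a * c + b [MOD a * q] := Nat.ModEq.add_right b (Nat.ModEq.mul_left' a hc1)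
            rw [Nat.Coprime, h4.gcd_eq]
            exact h2
          · have h4 : a * c' + b ≡ a * r + b [MOD p] := Nat.ModEq.add_right b (Nat.ModEq.mul_left a hc2)
            rw [Nat.Coprime, h4.gcd_eq]
            exact ((Nat.Prime.coprime_iff_not_dvd hP.pr).2 hr.2.2).symm
      calc ∑ r ∈ R, |∑ n ∈ (F.filter (fun n => ¬ p ∣ a * n + b)).filter (fun n => n % p = r), la (a * n + b)| ≤
          ∑ r ∈ R, ∑ U ∈ S.powerset, (κ : ℝ) ^ (S \ U).card * BB a b X (g * ∏ p ∈ U, p) (q * p * ∏ p ∈ S \ U, p) :=
            sum_le_sum h3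
        _ = (R.card : ℝ) * ∑ U ∈ S.powerset, (κ : ℝ) ^ (S \ U).card *
              BB a b X (g * ∏ p ∈ U, p) (q * p * ∏ p ∈ S \ U, p) := by rw [sum_const, nsmul_eq_mul]
        _ ≤ _ := by
            apply mul_le_mul_of_nonneg_right (by exact_mod_cast hP.few)
            exact sum_nonneg fun U _ => mul_nonneg (pow_nonneg (Nat.cast_nonneg _) _) (BB_nonneg _ _ _ _ _)
    refine (abs_add_le _ _).trans ?_
    rw [add_comm (∑ t ∈ S.powerset, _)]
    apply add_le_add
    · refine g1.trans (le_of_eq ?_)
      apply sum_congr rfl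
      intro U hU
      have hpU : p ∉ U := fun h => hp (mem_powerset.1 hU h)
      rw [prod_insert hpU, mul_assoc]
      have e1 : insert p S \ insert p U = S \ U := by
        ext x
        simp only [mem_sdiff, mem_insert, not_or]
        constructor
        · rintro ⟨h | h, h3, h4⟩
          · exact absurd h h3
          · exact ⟨h, h4⟩
        · rintro ⟨h, h3⟩
          refine ⟨Or.inr h, ?_, h3⟩
          rintro rfl
          exact hp h
      rw [e1]
    · refine g2.trans (le_of_eq ?_)
      rw [mul_sum]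
      apply sum_congr rfl
      intro U hU
      have hpU : p ∉ U := fun h => hp (mem_powerset.1 hU h)
      have e1 : insert p S \ U = insert p (S \ U) := by
        ext x
        simp only [mem_sdiff, mem_insert]
        constructor
        · rintro ⟨h | h, h3⟩
          · exact Or.inl h
          · exact Or.inr ⟨h, h3⟩
        · rintro (h | ⟨h, h3⟩)
          · rw [h]
            exact ⟨Or.inl rfl, hpU⟩
          · exact ⟨Or.inr h, h3⟩
      have e2 : p ∉ S \ U := fun h => hp (mem_sdiff.1 h).1
      rw [e1, card_insert_of_notMem e2, prod_insert e2, pow_succ]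
      rw [mul_assoc q p]
      ring

end Pool.Agent.H530.Ha
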