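import Pool.Agent.H530.HaB
import Pool.Graph.R_seed8.H373R2.T7.FundB

/-! The error terms. -/

set_option autoImplicit false

namespace Pool.Agent.H530.Ha

open Finset Pool.Agent.H373R2.T7

/-- the sets of primes with small product -/
def Sm (P : Finset ℕ) (D : ℕ) : Finset (Finset ℕ) := P.powerset.filter (fun T : Finset ℕ => ∏ p ∈ T, p ≤ D)

lemma Sm_pos {P : Finset ℕ} {D : ℕ} (hP : ∀ p ∈ P, p.Prime) {T : Finset ℕ} (hT : T ∈ Sm P D) :
    1 ≤ ∏ p ∈ T, p := by
  rw [Sm, mem_filter, mem_powerset] at hT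
  exact Nat.pos_of_ne_zero (prod_ne_zero_iff.2 fun p hp => (hP p (hT.1 hp)).ne_zero)

lemma Sm_card {P : Finset ℕ} {D : ℕ} (hP : ∀ p ∈ P, p.Prime) : (Sm P D).card ≤ D := by
  calc _ ≤ (Icc 1 D).card := by
        apply card_le_card_of_injOn (fun T : Finset ℕ => ∏ p ∈ T, p)
        · intro T hT
          have h1 := Sm_pos hP hT
          rw [mem_coe, Sm, mem_filter, mem_powerset] at hT
          exact mem_coe.2 (mem_Icc.2 ⟨h1, hT.2⟩)
        · intro T hT T' hT' h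
          rw [mem_coe, Sm, mem_filter, mem_powerset] at hT hT'
          exact prod_inj T T' (fun p hp => hP p (hT.1 hp)) (fun p hp => hP p (hT'.1 hp)) h
    _ = D := by rw [Nat.card_Icc]; omega

/-- sums over the divisors -/
lemma Sm_sum {P : Finset ℕ} {D : ℕ} (hP : ∀ p ∈ P, p.Prime) (f : ℕ → ℝ) (hf : ∀ d, 0 ≤ f d) :
    ∑ T ∈ Sm P D, f (∏ p ∈ T, p) ≤ ∑ d ∈ Icc 1 D, f d := by
  have h := sum_inj_le P ∅ hP (by simp) (disjoint_empty_left _) D f hf
  simpa [Sm] using h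

lemma Sm_sum' {P : Finset ℕ} {D m : ℕ} (hm : 1 ≤ m) (hP : ∀ p ∈ P, p.Prime) (f : ℕ → ℝ) (hf : ∀ d, 0 ≤ f d) :
    ∑ T ∈ Sm P D, f (m * ∏ p ∈ T, p) ≤ ∑ d ∈ Icc 1 (m * D), f d := by
  classical
  have h1 := Sm_sum (D := D) hP (fun d => f (m * d)) (fun d => hf _)
  refine h1.trans ?_
  have hinj : Set.InjOn (fun d : ℕ => m * d) (Icc 1 D : Set ℕ) := by
    intro d _ d' _ h
    exact Nat.eq_of_mul_eq_mul_left hm h
  rw [← sum_image (f := f) (g := fun d : ℕ => m * d) (by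
    intro d hd d' hd' h
    exact Nat.eq_of_mul_eq_mul_left hm h)]
  apply sum_le_sum_of_subset_of_nonneg
  · intro d hd
    rw [mem_image] at hd
    obtain ⟨e, he, rfl⟩ := hd
    rw [mem_Icc] at he ⊢
    exact ⟨Nat.mul_pos hm he.1, Nat.mul_le_mul_left _ he.2⟩
  · intro _ _ _
    exact hf _

/-- the Euler product -/
noncomputable def WW (y κ : ℕ) : ℝ := ((Vz y)⁻¹) ^ κ

lemma fac_pos {p : ℕ} (hp : p.Prime) : 0 < 1 - 1 / (p : ℝ) := by
  have h2 : (2 : ℝ) ≤ p := by exact_mod_cast hp.two_le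
  have : 1 / (p : ℝ) ≤ 1 / 2 := one_div_le_one_div_of_le (by norm_num) h2
  linarith

lemma Vz_pos (y : ℕ) : 0 < Vz y := by
  unfold Vz
  exact prod_pos fun p hp => fac_pos (mem_pz.1 hp).2

lemma euler {P : Finset ℕ} {y : ℕ} (hP : P ⊆ pz y) (κ D : ℕ) :
    ∑ T ∈ Sm P D, (κ : ℝ) ^ T.card / ((∏ p ∈ T, p : ℕ) : ℝ) ≤ WW y κ := by
  have h1 : ∑ T ∈ Sm P D, (κ : ℝ) ^ T.card / ((∏ p ∈ T, p : ℕ) : ℝ) ≤
      ∑ T ∈ P.powerset, ∏ p ∈ T, ((κ : ℝ) / p) := by
    calc ∑ T ∈ Sm P D, (κ : ℝ) ^ T.card / ((∏ p ∈ T, p : ℕ) : ℝ) ≤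
        ∑ T ∈ P.powerset, (κ : ℝ) ^ T.card / ((∏ p ∈ T, p : ℕ) : ℝ) := by
          apply sum_le_sum_of_subset_of_nonneg (filter_subset _ _)
          intro T _ _
          positivity
      _ = _ := by
          apply sum_congr rfl
          intro T _
          rw [prod_div_distrib, prod_const]
          push_cast
          rfl
  refine h1.trans ?_
  rw [← prod_one_add]
  have hfac : ∀ p ∈ pz y, (1 : ℝ) ≤ ((1 - 1 / (p : ℝ))⁻¹) ^ κ := by
    intro p hp
    apply one_le_pow₀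
    rw [one_le_inv₀ (fac_pos (mem_pz.1 hp).2)]
    have : (0 : ℝ) ≤ 1 / (p : ℝ) := by positivity
    linarith
  calc ∏ p ∈ P, (1 + (κ : ℝ) / p) ≤ ∏ p ∈ P, ((1 - 1 / (p : ℝ))⁻¹) ^ κ := by
        apply prod_le_prod (fun p _ => by positivity)
        intro p hp
        have hpp := (mem_pz.1 (hP hp)).2
        have hp0 : (0 : ℝ) < p := by exact_mod_cast hpp.pos
        have h2 : 1 + (κ : ℝ) / p ≤ (1 + 1 / (p : ℝ)) ^ κ := by
          have h3 : (0 : ℝ) ≤ 1 / (p : ℝ) := by positivity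
          have := one_add_mul_le_pow (a := 1 / (p : ℝ)) (by linarith) κ
          calc 1 + (κ : ℝ) / p = 1 + κ * (1 / (p : ℝ)) := by ring
            _ ≤ _ := this
        refine h2.trans (pow_le_pow_left₀ (by positivity) ?_ κ)
        rw [le_inv_comm₀ (by positivity) (fac_pos hpp), inv_eq_one_div, le_div_iff₀ (by positivity)]
        have : (1 - 1 / (p : ℝ)) * (1 + 1 / (p : ℝ)) = 1 - (1 / (p : ℝ)) ^ 2 := by ring
        rw [this]
        have : (0 : ℝ) ≤ (1 / (p : ℝ)) ^ 2 := by positivity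
        linarith
    _ ≤ ∏ p ∈ pz y, ((1 - 1 / (p : ℝ))⁻¹) ^ κ :=
        Finset.prod_le_prod_of_subset_of_one_le hP (fun p hp => by
          have := fac_pos (mem_pz.1 (hP hp)).2
          positivity) fun p hp _ => hfac p hp
    _ = WW y κ := by
        unfold WW Vz
        rw [prod_pow, prod_inv_distrib]

/-- the sum over one variable -/
lemma sumV {P : Finset ℕ} {y D h m κ : ℕ} (hP : P ⊆ pz y) (hm : 1 ≤ m) (hDh : D ≤ h) :
    ∑ V ∈ Sm P D, (κ : ℝ) ^ V.card * EE h (m * ∏ p ∈ V, p) ≤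
      √(2 * h * WW y (κ ^ 2)) * √(∑ d ∈ Icc 1 (m * D), EE h d) := by
  have hPp : ∀ p ∈ P, p.Prime := fun p hp => (mem_pz.1 (hP hp)).2
  calc ∑ V ∈ Sm P D, (κ : ℝ) ^ V.card * EE h (m * ∏ p ∈ V, p) =
      ∑ V ∈ Sm P D, √((κ : ℝ) ^ (2 * V.card) * EE h (m * ∏ p ∈ V, p)) * √(EE h (m * ∏ p ∈ V, p)) := by
        apply sum_congr rfl
        intro V _
        have h0 := EE_nonneg h (m * ∏ p ∈ V, p)
        rw [mul_comm 2, pow_mul, Real.sqrt_mul (by positivity), Real.sqrt_sq (by positivity), mul_assoc,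
          Real.mul_self_sqrt h0]
    _ ≤ √(∑ V ∈ Sm P D, (κ : ℝ) ^ (2 * V.card) * EE h (m * ∏ p ∈ V, p)) *
        √(∑ V ∈ Sm P D, EE h (m * ∏ p ∈ V, p)) :=
        Real.sum_sqrt_mul_sqrt_le _ (fun V => mul_nonneg (by positivity) (EE_nonneg _ _))
          (fun V => EE_nonneg _ _)
    _ ≤ _ := by
        apply mul_le_mul _ _ (Real.sqrt_nonneg _) (Real.sqrt_nonneg _)
        · apply Real.sqrt_le_sqrt
          calc ∑ V ∈ Sm P D, (κ : ℝ) ^ (2 * V.card) * EE h (m * ∏ p ∈ V, p) ≤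
              ∑ V ∈ Sm P D, 2 * h * (((κ ^ 2 : ℕ) : ℝ) ^ V.card / ((∏ p ∈ V, p : ℕ) : ℝ)) := by
                apply sum_le_sum
                intro V hV
                have hpos := Sm_pos hPp hV
                rw [Sm, mem_filter, mem_powerset] at hV
                have hpr : (1 : ℝ) ≤ ((∏ p ∈ V, p : ℕ) : ℝ) := by exact_mod_cast hpos
                have hle : EE h (m * ∏ p ∈ V, p) ≤ 2 * h / ((∏ p ∈ V, p : ℕ) : ℝ) := by
                  refine (EE_le _ _ (Nat.mul_pos hm hpos)).trans ?_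
                  have h1 : (h : ℝ) / ((m * ∏ p ∈ V, p : ℕ) : ℝ) ≤ h / ((∏ p ∈ V, p : ℕ) : ℝ) := by
                    apply div_le_div_of_nonneg_left (Nat.cast_nonneg _) (by linarith)
                    exact_mod_cast Nat.le_mul_of_pos_left _ hm
                  have h2 : (1 : ℝ) ≤ h / ((∏ p ∈ V, p : ℕ) : ℝ) := by
                    rw [le_div_iff₀ (by linarith), one_mul]
                    exact_mod_cast hV.2.trans hDh
                  calc _ ≤ (h : ℝ) / ((∏ p ∈ V, p : ℕ) : ℝ) + h / ((∏ p ∈ V, p : ℕ) : ℝ) := add_le_add h1 h2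
                    _ = _ := by ring
                calc (κ : ℝ) ^ (2 * V.card) * EE h (m * ∏ p ∈ V, p) ≤
                    (κ : ℝ) ^ (2 * V.card) * (2 * h / ((∏ p ∈ V, p : ℕ) : ℝ)) :=
                      mul_le_mul_of_nonneg_left hle (by positivity)
                  _ = _ := by
                      rw [pow_mul]
                      push_cast
                      ring
            _ = 2 * h * ∑ V ∈ Sm P D, (((κ ^ 2 : ℕ) : ℝ) ^ V.card / ((∏ p ∈ V, p : ℕ) : ℝ)) := by rw [mul_sum]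
            _ ≤ _ := mul_le_mul_of_nonneg_left (euler hP (κ ^ 2) D) (by positivity)
        · apply Real.sqrt_le_sqrt
          exact Sm_sum' hm hPp (fun d => EE h d) (fun d => EE_nonneg _ _)

end Pool.Agent.H530.Ha
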