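import Pool.Agent.H530.HaC

/-! The total error. -/

set_option autoImplicit false

namespace Pool.Agent.H530.Ha

open Finset Pool.Agent.H373R2.T7 Filter

/-- the total error -/
noncomputable def TE (a b X κ q D : ℕ) (P : Finset ℕ) : ℝ :=
  ∑ T ∈ Sm P D, ((D : ℝ) + ∑ U ∈ T.powerset, (κ : ℝ) ^ (T \ U).card *
    BB a b X (1 * ∏ p ∈ U, p) (q * ∏ p ∈ T \ U, p))

lemma pairs (P : Finset ℕ) (D : ℕ) (hP : ∀ p ∈ P, p.Prime) (F : Finset ℕ → Finset ℕ → ℝ)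
    (hF : ∀ U V, 0 ≤ F U V) :
    ∑ T ∈ Sm P D, ∑ U ∈ T.powerset, F U (T \ U) ≤ ∑ U ∈ Sm P D, ∑ V ∈ Sm P D, F U V := by
  classical
  rw [Finset.sum_sigma', ← Finset.sum_product']
  rw [← sum_image (f := fun z : Finset ℕ × Finset ℕ => F z.1 z.2)
    (g := fun x : (_ : Finset ℕ) × Finset ℕ => (x.2, x.1 \ x.2))]
  · apply sum_le_sum_of_subset_of_nonneg
    · intro z hz
      rw [mem_image] at hz
      obtain ⟨⟨T, U⟩, hx, rfl⟩ := hz
      rw [mem_sigma, Sm, mem_filter, mem_powerset] at hx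
      obtain ⟨⟨h1, h2⟩, h3⟩ := hx
      have h3' := mem_powerset.1 h3
      have hsub : ∀ V ⊆ T, ∏ p ∈ V, p ≤ D := by
        intro V hV
        refine le_trans ?_ h2
        exact Finset.prod_le_prod_of_subset_of_one_le' hV fun p hp _ => (hP p (h1 hp)).one_le
      rw [mem_product, Sm, mem_filter, mem_filter, mem_powerset, mem_powerset]
      exact ⟨⟨h3'.trans h1, hsub _ h3'⟩, ⟨sdiff_subset.trans h1, hsub _ sdiff_subset⟩⟩
    · intro _ _ _
      exact hF _ _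
  · intro x hx x' hx' h
    obtain ⟨T, U⟩ := x
    obtain ⟨T', U'⟩ := x'
    have h1 := (mem_sigma.1 hx).2
    have h1' := (mem_sigma.1 hx').2
    have h3 : U ⊆ T := mem_powerset.1 h1
    have h3' : U' ⊆ T' := mem_powerset.1 h1'
    simp only [Prod.mk.injEq] at h
    obtain ⟨rfl, h5⟩ := h
    have : T = T' := by
      rw [← sdiff_union_of_subset h3, h5, sdiff_union_of_subset h3']
    rw [this]

lemma card_pow_le {P : Finset ℕ} {κ D : ℕ} (hκ : ∀ p ∈ P, κ ≤ p) {V : Finset ℕ} (hV : V ∈ Sm P D) :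
    (κ : ℝ) ^ V.card ≤ D := by
  rw [Sm, mem_filter, mem_powerset] at hV
  have h1 : κ ^ V.card ≤ ∏ p ∈ V, p := by
    rw [← prod_const]
    exact prod_le_prod' fun p hp => hκ p (hV.1 hp)
  exact_mod_cast h1.trans hV.2

lemma TE_le1 {a b X κ q D y : ℕ} {P : Finset ℕ} (hP : P ⊆ pz y) (hκ : ∀ p ∈ P, κ ≤ p) (hq : 1 ≤ a * q)
    (hD : ∀ U ∈ Sm P D, D ≤ (a * X + b) / ∏ p ∈ U, p) :
    TE a b X κ q D P ≤ (D : ℝ) ^ 2 + (D : ℝ) ^ 3 * b +
      ∑ U ∈ Sm P D, √(2 * ((a * X + b) / ∏ p ∈ U, p : ℕ) * WW y (κ ^ 2)) *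
        √(∑ d ∈ Icc 1 (a * q * D), EE ((a * X + b) / ∏ p ∈ U, p) d) := by
  have hPp : ∀ p ∈ P, p.Prime := fun p hp => (mem_pz.1 (hP hp)).2
  have hcard : ((Sm P D).card : ℝ) ≤ D := by exact_mod_cast Sm_card hPp
  unfold TE
  rw [sum_add_distrib, sum_const, nsmul_eq_mul]
  have h1 := pairs P D hPp (fun U V => (κ : ℝ) ^ V.card * BB a b X (1 * ∏ p ∈ U, p) (q * ∏ p ∈ V, p))
    (fun U V => mul_nonneg (by positivity) (BB_nonneg _ _ _ _ _))
  have h2 : ∑ U ∈ Sm P D, ∑ V ∈ Sm P D, (κ : ℝ) ^ V.card * BB a b X (1 * ∏ p ∈ U, p) (q * ∏ p ∈ V, p) ≤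
      (D : ℝ) ^ 3 * b + ∑ U ∈ Sm P D, √(2 * ((a * X + b) / ∏ p ∈ U, p : ℕ) * WW y (κ ^ 2)) *
        √(∑ d ∈ Icc 1 (a * q * D), EE ((a * X + b) / ∏ p ∈ U, p) d) := by
    calc ∑ U ∈ Sm P D, ∑ V ∈ Sm P D, (κ : ℝ) ^ V.card * BB a b X (1 * ∏ p ∈ U, p) (q * ∏ p ∈ V, p) =
        ∑ U ∈ Sm P D, (∑ V ∈ Sm P D, (κ : ℝ) ^ V.card * b +
          ∑ V ∈ Sm P D, (κ : ℝ) ^ V.card * EE ((a * X + b) / ∏ p ∈ U, p) (a * q * ∏ p ∈ V, p)) := by
          apply sum_congr rfl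
          intro U _
          rw [← sum_add_distrib]
          apply sum_congr rfl
          intro V _
          unfold BB
          rw [one_mul, mul_assoc a q]
          ring
      _ ≤ ∑ U ∈ Sm P D, ((D : ℝ) ^ 2 * b + √(2 * ((a * X + b) / ∏ p ∈ U, p : ℕ) * WW y (κ ^ 2)) *
        √(∑ d ∈ Icc 1 (a * q * D), EE ((a * X + b) / ∏ p ∈ U, p) d)) := by
          apply sum_le_sum
          intro U hU
          apply add_le_add
          · calc ∑ V ∈ Sm P D, (κ : ℝ) ^ V.card * b ≤ ∑ V ∈ Sm P D, (D : ℝ) * b :=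
                  sum_le_sum fun V hV => mul_le_mul_of_nonneg_right (card_pow_le hκ hV) (Nat.cast_nonneg _)
              _ = (Sm P D).card * ((D : ℝ) * b) := by rw [sum_const, nsmul_eq_mul]
              _ ≤ D * ((D : ℝ) * b) := mul_le_mul_of_nonneg_right hcard (by positivity)
              _ = _ := by ring
          · exact sumV hP hq (hD U hU)
      _ = (Sm P D).card * ((D : ℝ) ^ 2 * b) + ∑ U ∈ Sm P D, √(2 * ((a * X + b) / ∏ p ∈ U, p : ℕ) * WW y (κ ^ 2)) *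
        √(∑ d ∈ Icc 1 (a * q * D), EE ((a * X + b) / ∏ p ∈ U, p) d) := by
          rw [sum_add_distrib, sum_const, nsmul_eq_mul]
      _ ≤ _ := by
          apply add_le_add _ le_rfl
          calc (Sm P D).card * ((D : ℝ) ^ 2 * b) ≤ D * ((D : ℝ) ^ 2 * b) :=
                mul_le_mul_of_nonneg_right hcard (by positivity)
            _ = _ := by ring
  have h3 : ((Sm P D).card : ℝ) * D ≤ (D : ℝ) ^ 2 := by
    rw [sq]
    exact mul_le_mul_of_nonneg_right hcard (Nat.cast_nonneg _)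
  have h4 := h1.trans h2
  linarith

/-- the Euler product in terms of the logarithm -/
lemma WW_le : ∃ (C : ℕ) (y0 : ℕ), ∀ y : ℕ, y0 ≤ y → ∀ κ : ℕ, WW y κ ≤ Real.log y ^ (C * κ) := by
  obtain ⟨C, N0, h⟩ := Vz_low
  obtain ⟨N1, h1⟩ := ev_L' 1
  refine ⟨C, max N0 N1, fun y hy κ => ?_⟩
  have h2 := h y ((le_max_left _ _).trans hy)
  have h3 := h1 y ((le_max_right _ _).trans hy)
  unfold WW
  rw [pow_mul]
  apply pow_le_pow_left₀ (inv_nonneg.2 (Vz_pos y).le)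
  have h4 : 0 < Real.log y ^ C := by positivity
  rw [inv_le_comm₀ (Vz_pos y) h4, inv_eq_one_div]
  exact h2

end Pool.Agent.H530.Ha
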