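import Pool.Agent.H530.HaD

/-! The total error is small. -/

set_option autoImplicit false

namespace Pool.Agent.H530.Ha

open Finset Pool.Agent.H373R2.T7 Filter

theorem TE_bound (a b κ q : ℕ) (ha : 1 ≤ a) (hq : 1 ≤ q) (B : ℕ) : ∃ X0 y0 : ℕ, ∀ X : ℕ, X0 ≤ X →
    ∀ y D : ℕ, y0 ≤ y → y ≤ X → 1 ≤ D → D ^ 8 ≤ X → ∀ P : Finset ℕ, P ⊆ pz y → (∀ p ∈ P, κ ≤ p) →
    TE a b X κ q D P ≤ X / Real.log X ^ B := by
  obtain ⟨C, y0, hW⟩ := WW_le
  obtain ⟨E, hE⟩ : ∃ E : ℕ, E = C + B + 1 := ⟨_, rfl⟩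
  obtain ⟨A, hA⟩ : ∃ A : ℕ, A = C * κ ^ 2 + 2 * E := ⟨_, rfl⟩
  obtain ⟨K, X1, hbv⟩ := bv A
  obtain ⟨h1, hh1⟩ := ev_log' K (((a * q : ℕ) : ℝ) ^ 2)
  obtain ⟨X2, hX2⟩ := ev_log' B (2 * (1 + b))
  obtain ⟨c, hc⟩ : ∃ c : ℝ, c = √(2 * 4 ^ A) := ⟨_, rfl⟩
  have hc0 : 0 ≤ c := by rw [hc]; exact Real.sqrt_nonneg _
  obtain ⟨X3, hX3⟩ := ev_L' (max 4 (2 * (a + b) * c))
  obtain ⟨y1, hy1⟩ := ev_L' 0
  refine ⟨max (max ((max X1 h1) ^ 2 + 1) X2) (max X3 16), y0, ?_⟩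
  intro X hX y D hy hyX hD1 hD P hP hκ
  have a1 : (max X1 h1) ^ 2 + 1 ≤ X := (le_max_left _ _).trans ((le_max_left _ _).trans hX)
  have a2 : X2 ≤ X := (le_max_right _ _).trans ((le_max_left _ _).trans hX)
  have a3 : X3 ≤ X := (le_max_left _ _).trans ((le_max_right _ _).trans hX)
  have a4 : 16 ≤ X := (le_max_right _ _).trans ((le_max_right _ _).trans hX)
  obtain ⟨L, hL⟩ : ∃ L : ℝ, L = Real.log X := ⟨_, rfl⟩
  have hLX := hX3 X a3
  rw [← hL] at hLX
  have hL4 : 4 ≤ L := (le_max_left _ _).trans hLX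
  have hLc : 2 * (a + b) * c ≤ L := (le_max_right _ _).trans hLX
  have hL0 : 0 < L := by linarith
  have hX0 : (0 : ℝ) < X := by exact_mod_cast (by omega : 0 < X)
  obtain ⟨s, hs⟩ : ∃ s : ℕ, s = Nat.sqrt X := ⟨_, rfl⟩
  have hs2 : s * s ≤ X := by rw [hs]; exact Nat.sqrt_le X
  have hs3 : X < (s + 1) * (s + 1) := by rw [hs]; exact Nat.lt_succ_sqrt X
  have hs4 : 4 ≤ s := by
    rw [hs, Nat.le_sqrt]
    omega
  have hD4 : D ^ 4 ≤ s := by
    rw [hs, Nat.le_sqrt, ← pow_add]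
    exact hD
  have hDs : D ≤ s := (Nat.le_self_pow (by norm_num) D).trans hD4
  have hXs : X ≤ s ^ 4 := by nlinarith [Nat.mul_le_mul hs4 hs4, sq_nonneg (s - 1)]
  have hsM : max X1 h1 ≤ s := by
    rw [hs, Nat.le_sqrt']
    omega
  have hlogs : L / 4 ≤ Real.log s := by
    have h2 : Real.log X ≤ Real.log ((s : ℝ) ^ 4) := Real.log_le_log hX0 (by exact_mod_cast hXs)
    rw [Real.log_pow] at h2
    push_cast at h2
    rw [hL]
    linarith
  have hPp : ∀ p ∈ P, p.Prime := fun p hp => (mem_pz.1 (hP hp)).2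
  have haX : X ≤ a * X + b := by
    have : 1 * X ≤ a * X := Nat.mul_le_mul_right _ ha
    omega
  -- the sizes of the quotients
  have hhU : ∀ U ∈ Sm P D, s ≤ (a * X + b) / ∏ p ∈ U, p := by
    intro U hU
    have h2 := Sm_pos hPp hU
    rw [Sm, mem_filter] at hU
    rw [Nat.le_div_iff_mul_le h2]
    calc s * ∏ p ∈ U, p ≤ s * s := Nat.mul_le_mul_left _ (hU.2.trans hDs)
      _ ≤ X := hs2
      _ ≤ _ := haX
  have h1' := TE_le1 (q := q) (a := a) (b := b) (X := X) hP hκ (Nat.mul_pos ha hq)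
    (fun U hU => hDs.trans (hhU U hU))
  have hWy : ∀ κ : ℕ, WW y κ ≤ L ^ (C * κ) := by
    intro κ
    refine (hW y hy κ).trans ?_
    have hy0 : (0 : ℝ) < y ∨ y = 0 := by
      rcases Nat.eq_zero_or_pos y with h | h
      · exact Or.inr h
      · left; exact_mod_cast h
    apply pow_le_pow_left₀ (Real.log_natCast_nonneg _)
    rcases hy0 with h | h
    · rw [hL]
      exact Real.log_le_log h (by exact_mod_cast hyX)
    · rw [h, Nat.cast_zero, Real.log_zero]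
      exact hL0.le
  -- one term
  have hterm : ∀ U ∈ Sm P D, √(2 * ((a * X + b) / ∏ p ∈ U, p : ℕ) * WW y (κ ^ 2)) *
        √(∑ d ∈ Icc 1 (a * q * D), EE ((a * X + b) / ∏ p ∈ U, p) d) ≤
        ((a * X + b : ℕ) : ℝ) * (c / L ^ E) * (((1 : ℕ) : ℝ) ^ U.card / ((∏ p ∈ U, p : ℕ) : ℝ)) := by
    intro U hU
    have hsh := hhU U hU
    obtain ⟨h, hh⟩ : ∃ h : ℕ, h = (a * X + b) / ∏ p ∈ U, p := ⟨_, rfl⟩
    rw [← hh] at hsh ⊢
    have hpos := Sm_pos hPp hU
    have hh0 : (0 : ℝ) < h := by exact_mod_cast (by omega : 0 < h)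
    have b1 : X1 ≤ h := (le_max_left _ _).trans (hsM.trans hsh)
    have b2 : h1 ≤ h := (le_max_right _ _).trans (hsM.trans hsh)
    have hlogh : L / 4 ≤ Real.log h := hlogs.trans (Real.log_le_log
      (by exact_mod_cast (by omega : 0 < s)) (by exact_mod_cast hsh))
    have hlogh0 : 0 < Real.log h := by linarith
    have hcond : (((a * q * D : ℕ) : ℝ)) ^ 2 * Real.log h ^ K ≤ h := by
      have c1 := hh1 h b2
      have c2 : (D : ℝ) ^ 2 ≤ √(h : ℝ) := by
        apply Real.le_sqrt_of_sq_le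
        have : (D : ℝ) ^ 4 ≤ h := by exact_mod_cast hD4.trans hsh
        calc ((D : ℝ) ^ 2) ^ 2 = (D : ℝ) ^ 4 := by ring
          _ ≤ _ := this
      have c3 : √(h : ℝ) * √(h : ℝ) = h := Real.mul_self_sqrt hh0.le
      calc (((a * q * D : ℕ) : ℝ)) ^ 2 * Real.log h ^ K =
          (((a * q : ℕ) : ℝ) ^ 2 * Real.log h ^ K) * (D : ℝ) ^ 2 := by push_cast; ring
        _ ≤ √(h : ℝ) * √(h : ℝ) := mul_le_mul c1 c2 (by positivity) (Real.sqrt_nonneg _)
        _ = h := c3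
    have d1 := hbv h b1 (a * q * D) hcond
    have hlog : (L / 4) ^ A ≤ Real.log h ^ A := pow_le_pow_left₀ (by positivity) hlogh A
    have hLA : 0 < (L / 4) ^ A := by positivity
    have d2 : ∑ d ∈ Icc 1 (a * q * D), EE h d ≤ h * (4 ^ A / L ^ A) := by
      refine d1.trans ?_
      calc (h : ℝ) / Real.log h ^ A ≤ h / (L / 4) ^ A := div_le_div_of_nonneg_left hh0.le hLA hlog
        _ = h * (4 ^ A / L ^ A) := by
            rw [div_pow]
            field_simp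
    have d3 : √(2 * (h : ℝ) * WW y (κ ^ 2)) * √(∑ d ∈ Icc 1 (a * q * D), EE h d) ≤ h * (c / L ^ E) := by
      rw [← Real.sqrt_mul (by
        have : 0 ≤ WW y (κ ^ 2) := by
          unfold WW
          have := (Vz_pos y).le
          positivity
        positivity)]
      apply Real.sqrt_le_iff.2
      constructor
      · positivity
      · have hWn : 0 ≤ WW y (κ ^ 2) := by
          unfold WW
          have := (Vz_pos y).le
          positivity
        have hSn : 0 ≤ ∑ d ∈ Icc 1 (a * q * D), EE h d := sum_nonneg fun d _ => EE_nonneg _ _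
        calc 2 * (h : ℝ) * WW y (κ ^ 2) * ∑ d ∈ Icc 1 (a * q * D), EE h d ≤
            2 * h * L ^ (C * κ ^ 2) * (h * (4 ^ A / L ^ A)) := by
              apply mul_le_mul _ d2 hSn (by positivity)
              exact mul_le_mul_of_nonneg_left (hWy (κ ^ 2)) (by positivity)
          _ = (h * (c / L ^ E)) ^ 2 := by
              have e1 : c ^ 2 = 2 * 4 ^ A := by
                rw [hc]
                exact Real.sq_sqrt (by positivity)
              have e2 : L ^ A = L ^ (C * κ ^ 2) * (L ^ E) ^ 2 := by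
                rw [hA, pow_add, ← pow_mul, mul_comm E 2]
              rw [mul_pow, div_pow, e1, e2]
              field_simp
    refine d3.trans ?_
    have d4 : (h : ℝ) ≤ ((a * X + b : ℕ) : ℝ) / ((∏ p ∈ U, p : ℕ) : ℝ) := by
      rw [hh]
      exact Nat.cast_div_le
    calc (h : ℝ) * (c / L ^ E) ≤ ((a * X + b : ℕ) : ℝ) / ((∏ p ∈ U, p : ℕ) : ℝ) * (c / L ^ E) :=
          mul_le_mul_of_nonneg_right d4 (by positivity)
      _ = _ := by
          rw [Nat.cast_one, one_pow]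
          ring
  have hsum : ∑ U ∈ Sm P D, √(2 * ((a * X + b) / ∏ p ∈ U, p : ℕ) * WW y (κ ^ 2)) *
        √(∑ d ∈ Icc 1 (a * q * D), EE ((a * X + b) / ∏ p ∈ U, p) d) ≤
        ((a * X + b : ℕ) : ℝ) * (c / L ^ E) * L ^ C := by
    refine (sum_le_sum hterm).trans ?_
    rw [← mul_sum]
    apply mul_le_mul_of_nonneg_left _ (by positivity)
    refine (euler hP 1 D).trans ?_
    have := hWy 1
    rwa [mul_one] at this
  have hfin1 : ((a * X + b : ℕ) : ℝ) * (c / L ^ E) * L ^ C ≤ (1 / 2) * (X / L ^ B) := by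
    have e1 : ((a * X + b : ℕ) : ℝ) ≤ (a + b) * X := by
      push_cast
      have : (1 : ℝ) ≤ X := by exact_mod_cast (by omega : 1 ≤ X)
      have hb : (0 : ℝ) ≤ b := Nat.cast_nonneg _
      nlinarith
    have e2 : L ^ E = L ^ C * L ^ B * L := by
      rw [hE, pow_add, pow_add, pow_one]
    calc ((a * X + b : ℕ) : ℝ) * (c / L ^ E) * L ^ C ≤ ((a + b) * X) * (c / L ^ E) * L ^ C := by
          apply mul_le_mul_of_nonneg_right _ (by positivity)
          exact mul_le_mul_of_nonneg_right e1 (by positivity)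
      _ = (1 / 2) * (X / L ^ B) * ((2 * (a + b) * c) / L) := by
          rw [e2]
          field_simp
      _ ≤ (1 / 2) * (X / L ^ B) * 1 := by
          apply mul_le_mul_of_nonneg_left _ (by positivity)
          rw [div_le_one hL0]
          exact hLc
      _ = _ := mul_one _
  have hfin2 : (D : ℝ) ^ 2 + (D : ℝ) ^ 3 * b ≤ (1 / 2) * (X / L ^ B) := by
    have hDr : (1 : ℝ) ≤ D := by exact_mod_cast hD1
    have e1 : (D : ℝ) ^ 4 ≤ √(X : ℝ) := by
      apply Real.le_sqrt_of_sq_le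
      have : (D : ℝ) ^ 8 ≤ X := by exact_mod_cast hD
      calc ((D : ℝ) ^ 4) ^ 2 = (D : ℝ) ^ 8 := by ring
        _ ≤ _ := this
    have e2 : (D : ℝ) ^ 2 ≤ (D : ℝ) ^ 4 := pow_le_pow_right₀ hDr (by norm_num)
    have e3 : (D : ℝ) ^ 3 ≤ (D : ℝ) ^ 4 := pow_le_pow_right₀ hDr (by norm_num)
    have e4 := hX2 X a2
    rw [← hL] at e4
    have e5 : √(X : ℝ) * √(X : ℝ) = X := Real.mul_self_sqrt hX0.le
    have e6 : 0 < L ^ B := by positivity
    have hb : (0 : ℝ) ≤ b := Nat.cast_nonneg _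
    rw [← mul_div_assoc, le_div_iff₀ e6]
    have e7 : (D : ℝ) ^ 2 + (D : ℝ) ^ 3 * b ≤ (1 + b) * √(X : ℝ) := by nlinarith
    calc ((D : ℝ) ^ 2 + (D : ℝ) ^ 3 * b) * L ^ B ≤ (1 + b) * √(X : ℝ) * L ^ B :=
          mul_le_mul_of_nonneg_right e7 e6.le
      _ = (1 / 2) * ((2 * (1 + b) * L ^ B) * √(X : ℝ)) := by ring
      _ ≤ (1 / 2) * (√(X : ℝ) * √(X : ℝ)) := by
          apply mul_le_mul_of_nonneg_left _ (by norm_num)
          exact mul_le_mul_of_nonneg_right e4 (Real.sqrt_nonneg _)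
      _ = _ := by rw [e5]
  rw [← hL]
  calc TE a b X κ q D P ≤ _ := h1'
    _ ≤ (1 / 2) * (X / L ^ B) + (1 / 2) * (X / L ^ B) := add_le_add hfin2 (hsum.trans hfin1)
    _ = X / L ^ B := by ring

end Pool.Agent.H530.Ha
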