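import Pool.Agent.H530.HaE
import Pool.Graph.R_seed8.Helper256.KM.Mertens

/-! Systems of linear forms. -/

set_option autoImplicit false

namespace Pool.Agent.H530.Ha

open Finset Pool.Agent.H373R2.T7 Filter

/-- `p` divides one of the values -/
def QQ {k : ℕ} (a b : Fin k → ℕ) (p n : ℕ) : Prop := ∃ j, p ∣ a j * n + b j

lemma QQ_mod {k : ℕ} (a b : Fin k → ℕ) {p m n : ℕ} (h : m ≡ n [MOD p]) : QQ a b p m ↔ QQ a b p n := by
  unfold QQ
  refine exists_congr fun j => ?_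
  exact Nat.ModEq.dvd_iff (Nat.ModEq.add_right _ (Nat.ModEq.mul_left _ h)) (dvd_refl p)

lemma QQ_per {k : ℕ} (a b : Fin k → ℕ) (p n : ℕ) : QQ a b p n ↔ QQ a b p (n % p) :=
  QQ_mod a b (Nat.mod_modEq n p).symm

/-- admissible systems -/
def Adm {k : ℕ} (a b : Fin k → ℕ) : Prop := ∀ p : ℕ, p.Prime → ∃ n : ℕ, ¬ QQ a b p n

lemma one_root {a b p : ℕ} (hp : p.Prime) (h : ¬ (p ∣ a ∧ p ∣ b)) :
    ((range p).filter (fun r => p ∣ a * r + b)).card ≤ 1 := by
  rw [card_le_one]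
  intro r hr s hs
  rw [mem_filter, mem_range] at hr hs
  by_cases ha : p ∣ a
  · exfalso
    apply h
    refine ⟨ha, ?_⟩
    have h1 : p ∣ a * r := ha.mul_right r
    exact (Nat.dvd_add_right h1).1 hr.2
  · have h1 : a * r + b ≡ a * s + b [MOD p] :=
      ((Nat.modEq_zero_iff_dvd.2 hr.2).trans (Nat.modEq_zero_iff_dvd.2 hs.2).symm)
    have h2 : a * r ≡ a * s [MOD p] := Nat.ModEq.add_right_cancel' b h1
    have h3 : r ≡ s [MOD p] := by
      apply Nat.ModEq.cancel_left_of_coprime _ h2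
      exact (Nat.Prime.coprime_iff_not_dvd hp).2 ha
    have h4 := Nat.ModEq.eq_of_lt_of_lt h3 hr.1 hs.1
    exact h4

lemma nuB_le_k {k : ℕ} {a b : Fin k → ℕ} (h : Adm a b) {p : ℕ} (hp : p.Prime) : nuB (QQ a b) p ≤ k := by
  classical
  unfold nuB
  have h1 : ∀ j, ¬ (p ∣ a j ∧ p ∣ b j) := by
    rintro j ⟨h2, h3⟩
    obtain ⟨n, hn⟩ := h p hp
    exact hn ⟨j, dvd_add (h2.mul_right n) h3⟩
  calc _ ≤ (univ.biUnion fun j : Fin k => (range p).filter (fun r => p ∣ a j * r + b j)).card := by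
        apply card_le_card
        intro r hr
        rw [mem_filter] at hr
        obtain ⟨j, hj⟩ := hr.2
        rw [mem_biUnion]
        exact ⟨j, mem_univ _, mem_filter.2 ⟨hr.1, hj⟩⟩
    _ ≤ ∑ j : Fin k, ((range p).filter (fun r => p ∣ a j * r + b j)).card := card_biUnion_le
    _ ≤ ∑ j : Fin k, 1 := sum_le_sum fun j _ => one_root hp (h1 j)
    _ = k := by simp

lemma nuB_lt {k : ℕ} {a b : Fin k → ℕ} (h : Adm a b) {p : ℕ} (hp : p.Prime) : nuB (QQ a b) p + 1 ≤ p := by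
  classical
  obtain ⟨n, hn⟩ := h p hp
  unfold nuB
  have h1 : ((range p).filter (fun r => QQ a b p r)).card < (range p).card := by
    apply card_lt_card
    rw [ssubset_iff_subset_ne]
    refine ⟨filter_subset _ _, fun h2 => ?_⟩
    have h3 : n % p ∈ (range p).filter (fun r => QQ a b p r) := by
      rw [h2]
      exact mem_range.2 (Nat.mod_lt _ hp.pos)
    exact hn ((QQ_per a b p n).2 (mem_filter.1 h3).2)
  rw [card_range] at h1
  exact h1

lemma perB {k : ℕ} {a b : Fin k → ℕ} (h : Adm a b) : PerB (QQ a b) k :=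
  ⟨fun p n => QQ_per a b p n, fun _ hp => nuB_le_k h hp⟩

lemma sum_sq1 (N : ℕ) : ∑ n ∈ Icc 1 (N + 1), 1 / (n : ℝ) ^ 2 ≤ 2 - 1 / ((N : ℝ) + 1) := by
  induction N with
  | zero => norm_num
  | succ N ih =>
    rw [sum_Icc_succ_top (by omega)]
    have h1 : (0 : ℝ) < (N : ℝ) + 1 := by positivity
    have h3 : 1 / (((N + 1 + 1 : ℕ) : ℝ)) ^ 2 ≤ 1 / ((N : ℝ) + 1) - 1 / (((N + 1 : ℕ) : ℝ) + 1) := by
      push_cast
      rw [div_sub_div _ _ (by positivity) (by positivity), div_le_div_iff₀ (by positivity) (by positivity)]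
      nlinarith
    linarith

lemma sum_sq (N : ℕ) : ∑ n ∈ Icc 1 N, 1 / (n : ℝ) ^ 2 ≤ 2 := by
  rcases Nat.eq_zero_or_pos N with h | h
  · rw [h]
    simp
  · obtain ⟨M, rfl⟩ := Nat.exists_eq_add_of_le' h
    have h1 := sum_sq1 M
    have h2 : (0 : ℝ) ≤ 1 / ((M : ℝ) + 1) := by positivity
    linarith

lemma sub_ge {x : ℝ} (h0 : 0 ≤ x) (h1 : x ≤ 1 / 2) : Real.exp (-x - 2 * x ^ 2) ≤ 1 - x := by
  have h2 : 0 < 1 - x := by linarith
  rw [← Real.le_log_iff_exp_le h2]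
  refine le_trans ?_ (Real.one_sub_inv_le_log_of_pos h2)
  have h3 : (1 - x)⁻¹ ≤ 1 + x + 2 * x ^ 2 := by
    rw [inv_le_comm₀ h2 (by positivity), inv_eq_one_div, div_le_iff₀ (by positivity)]
    nlinarith [mul_nonneg (sq_nonneg x) (by linarith : (0 : ℝ) ≤ 1 - 2 * x)]
  linarith

/-- the order of magnitude of the product -/
theorem prod_low (k : ℕ) : ∃ c : ℝ, 0 < c ∧ ∀ a b : Fin k → ℕ, Adm a b → ∀ y : ℕ, 3 ≤ y →
    c / Real.log y ^ k ≤ ∏ p ∈ pz y, (1 - (nuB (QQ a b) p : ℝ) / p) := by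
  obtain ⟨C, hC⟩ := Pool.Agent.Helper256.KM.mertens_inv
  obtain ⟨K, hK⟩ : ∃ K : ℕ, K = 2 * k + 2 := ⟨_, rfl⟩
  have hKr0 : (0 : ℝ) < K := by exact_mod_cast (by omega : 0 < K)
  refine ⟨(1 / (K : ℝ)) ^ K * Real.exp (-(k * C + 4 * (k : ℝ) ^ 2)), by positivity, ?_⟩
  intro a b hab y hy
  have hyr : (3 : ℝ) ≤ y := by exact_mod_cast hy
  have hKr : (2 : ℝ) ≤ K := by rw [hK]; push_cast; have : (0 : ℝ) ≤ k := Nat.cast_nonneg _; linarith
  have hlog : 1 ≤ Real.log y := by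
    have h1 : Real.log 3 ≤ Real.log y := Real.log_le_log (by norm_num) hyr
    have h2 : (1 : ℝ) ≤ Real.log 3 := by
      rw [Real.le_log_iff_exp_le (by norm_num)]
      have := Real.exp_one_lt_d9
      linarith
    linarith
  -- the factors
  have hfac : ∀ p ∈ pz y, (if p < K then 1 / (K : ℝ) else 1) * Real.exp (-((k : ℝ) * (1 / p)) - 2 * (k : ℝ) ^ 2 * (1 / (p : ℝ) ^ 2)) ≤
      1 - (nuB (QQ a b) p : ℝ) / p := by
    intro p hp
    have hpp := (mem_pz.1 hp).2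
    have hp0 : (0 : ℝ) < p := by exact_mod_cast hpp.pos
    by_cases h : p < K
    · rw [if_pos h]
      have h1 : ((nuB (QQ a b) p : ℕ) : ℝ) + 1 ≤ p := by exact_mod_cast nuB_lt hab hpp
      have h2 : 1 / (p : ℝ) ≤ 1 - (nuB (QQ a b) p : ℝ) / p := by
        rw [div_le_iff₀ hp0, sub_mul, div_mul_cancel₀ _ hp0.ne']
        linarith
      have h3 : 1 / (K : ℝ) ≤ 1 / p := one_div_le_one_div_of_le hp0 (by exact_mod_cast h.le)
      have h4 : Real.exp (-((k : ℝ) * (1 / p)) - 2 * (k : ℝ) ^ 2 * (1 / (p : ℝ) ^ 2)) ≤ 1 := by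
        apply Real.exp_le_one_iff.2
        have : 0 ≤ (k : ℝ) * (1 / p) := by positivity
        have : 0 ≤ 2 * (k : ℝ) ^ 2 * (1 / (p : ℝ) ^ 2) := by positivity
        linarith
      calc _ ≤ 1 / (K : ℝ) * 1 := mul_le_mul_of_nonneg_left h4 (by positivity)
        _ ≤ _ := by linarith
    · rw [if_neg h, one_mul]
      have hpK : (K : ℝ) ≤ p := by exact_mod_cast (not_lt.1 h)
      have h1 : (nuB (QQ a b) p : ℝ) / p ≤ k / p :=
        div_le_div_of_nonneg_right (by exact_mod_cast nuB_le_k hab hpp) hp0.le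
      have h2 : (k : ℝ) / p ≤ 1 / 2 := by
        rw [div_le_div_iff₀ hp0 (by norm_num)]
        rw [hK] at hpK
        push_cast at hpK
        linarith
      have h3 := sub_ge (x := (k : ℝ) / p) (by positivity) h2
      calc _ = Real.exp (-((k : ℝ) / p) - 2 * ((k : ℝ) / p) ^ 2) := by
            congr 1
            rw [div_pow]
            ring
        _ ≤ 1 - (k : ℝ) / p := h3
        _ ≤ _ := by linarith
  have h1 : ∏ p ∈ pz y, ((if p < K then 1 / (K : ℝ) else 1) * Real.exp (-((k : ℝ) * (1 / p)) - 2 * (k : ℝ) ^ 2 * (1 / (p : ℝ) ^ 2))) ≤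
      ∏ p ∈ pz y, (1 - (nuB (QQ a b) p : ℝ) / p) := by
    apply prod_le_prod _ hfac
    intro p _
    split_ifs <;> positivity
  refine le_trans ?_ h1
  rw [prod_mul_distrib, ← Real.exp_sum]
  -- small primes
  have h2 : (1 / (K : ℝ)) ^ K ≤ ∏ p ∈ pz y, (if p < K then 1 / (K : ℝ) else 1) := by
    rw [prod_ite, prod_const, prod_const_one, mul_one]
    apply pow_le_pow_of_le_one (by positivity)
    · rw [div_le_one (by linarith)]
      linarith
    · calc _ ≤ (range K).card := by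
            apply card_le_card
            intro p hp
            exact mem_range.2 (mem_filter.1 hp).2
        _ = K := card_range K
  -- large primes
  have h3 : Real.exp (-(k * C + 4 * (k : ℝ) ^ 2)) / Real.log y ^ k ≤
      Real.exp (∑ p ∈ pz y, (-((k : ℝ) * (1 / p)) - 2 * (k : ℝ) ^ 2 * (1 / (p : ℝ) ^ 2))) := by
    rw [div_le_iff₀ (by positivity)]
    have e1 : Real.log y ^ k = Real.exp (k * Real.log (Real.log y)) := by
      rw [mul_comm, Real.exp_mul, Real.exp_log (by linarith), Real.rpow_natCast]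
    rw [e1, ← Real.exp_add]
    apply Real.exp_le_exp.2
    rw [sum_sub_distrib, sum_neg_distrib, ← mul_sum, ← mul_sum]
    have e2 := (abs_le.1 (hC y hy)).2
    have e3 : ∑ p ∈ pz y, (1 : ℝ) / p = ∑ p ∈ (Finset.Icc 1 y).filter Nat.Prime, (1 : ℝ) / p := rfl
    have e4 : ∑ p ∈ pz y, (1 : ℝ) / (p : ℝ) ^ 2 ≤ 2 := by
      refine le_trans ?_ (sum_sq y)
      apply sum_le_sum_of_subset_of_nonneg (filter_subset _ _)
      intro _ _ _
      positivity
    rw [← e3] at e2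
    have hk0 : (0 : ℝ) ≤ k := Nat.cast_nonneg _
    nlinarith [mul_nonneg hk0 (by linarith : (0 : ℝ) ≤ C - (∑ p ∈ pz y, (1 : ℝ) / p - Real.log (Real.log y))),
      mul_nonneg (sq_nonneg (k : ℝ)) (by linarith : (0 : ℝ) ≤ 2 - ∑ p ∈ pz y, (1 : ℝ) / (p : ℝ) ^ 2)]
  calc _ = (1 / (K : ℝ)) ^ K * (Real.exp (-(k * C + 4 * (k : ℝ) ^ 2)) / Real.log y ^ k) := by ring
    _ ≤ _ := mul_le_mul h2 h3 (by positivity) (prod_nonneg fun p _ => by split_ifs <;> positivity)

end Pool.Agent.H530.Ha
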