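import Pool.Agent.H530.HaF

/-! The Liouville function at one member of an almost prime tuple. -/

set_option autoImplicit false

namespace Pool.Agent.H530.Ha

open Finset Pool.Agent.H373R2.T7 Filter

open Classical in
/-- the `n ≤ X` for which no value has a prime factor `≤ y` -/
noncomputable def RR {k : ℕ} (a b : Fin k → ℕ) (X y : ℕ) : Finset ℕ :=
  (Icc 1 X).filter (fun n => ∀ p ∈ pz y, ¬ QQ a b p n)

lemma two_bounds {R Λ M T η : ℝ} (hη0 : 0 ≤ η) (hη : η ≤ 1 / 2) (hT : 0 ≤ T) (hR : 0 ≤ R)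
    (h1 : |(R + Λ) / 2 - M| ≤ η * M + T) (h2 : |(R - Λ) / 2 - M| ≤ η * M + T) :
    |Λ| ≤ 2 * η * R + 4 * T := by
  have a1 := abs_le.1 h1
  have a2 := abs_le.1 h2
  have hM : M ≤ R + 2 * T := by nlinarith
  have hΛ : |Λ| ≤ 2 * (η * M + T) := by
    rw [abs_le]
    constructor <;> linarith
  have : η * M ≤ η * (R + 2 * T) := mul_le_mul_of_nonneg_left hM hη0
  nlinarith

open Classical in
/-- one class modulo the product of the small primes -/
theorem cls {k : ℕ} {a b : Fin k → ℕ} (ha : ∀ j, 1 ≤ a j) (hab : Adm a b) (i : Fin k) {C0 z0 bb y X D q c : ℕ}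
    (hC0 : 1 ≤ C0) (hFL : ∀ (b J z0 : ℕ) (P : Finset ℕ) (g : ℕ → ℝ),
      C0 ≤ b → C0 ≤ z0 → (∀ p ∈ P, p.Prime ∧ z0 < p ∧ p ≤ 2 ^ 2 ^ J) →
      (∀ p ∈ P, 0 ≤ g p ∧ g p ≤ k / ((p : ℝ) - 1)) →
      ∀ (Ω : Finset ℕ) (w : ℕ → ℝ) (hit : ℕ → ℕ → Prop) (A : ℝ) (err : Finset ℕ → ℝ),
        (∀ m ∈ Ω, 0 ≤ w m) → 0 ≤ A →
        (∀ T ⊆ P, ∏ p ∈ T, p ≤ (2 ^ 2 ^ J) ^ (C0 * b) →
          |∑ m ∈ Ω.filter (fun m => ∀ p ∈ T, hit p m), w m - A * ∏ p ∈ T, g p| ≤ err T) →
        |∑ m ∈ Ω.filter (fun m => ∀ p ∈ P, ¬ hit p m), w m - A * ∏ p ∈ P, (1 - g p)| ≤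
          (1 / 2 : ℝ) ^ b * (A * ∏ p ∈ P, (1 - g p)) +
            ((J : ℝ) + 2) *
              ∑ T ∈ P.powerset.filter (fun T : Finset ℕ => ∏ p ∈ T, p ≤ (2 ^ 2 ^ J) ^ (C0 * b)), err T)
    (hb : C0 ≤ bb) (hz : C0 ≤ z0) (haz : ∀ j, a j ≤ z0) (hq : q = ∏ p ∈ pz z0, p)
    (hD : D = (2 ^ 2 ^ JJ y) ^ (C0 * bb)) (hc : ∀ p ∈ pz z0, ¬ QQ a b p c) :
    |∑ n ∈ ((Icc 1 X).filter (fun n => n ≡ c [MOD q])).filter (fun n => ∀ p ∈ (pz y).filter (fun p => z0 < p), ¬ QQ a b p n),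
      la (a i * n + b i)| ≤ 2 * (1 / 2 : ℝ) ^ bb *
        ((((Icc 1 X).filter (fun n => n ≡ c [MOD q])).filter
          (fun n => ∀ p ∈ (pz y).filter (fun p => z0 < p), ¬ QQ a b p n)).card : ℝ) +
        4 * (((JJ y : ℕ) : ℝ) + 2) * TE (a i) (b i) X k q D ((pz y).filter (fun p => z0 < p)) := by
  set P := (pz y).filter (fun p => z0 < p) with hP
  set J := JJ y with hJ
  have hPp : ∀ p ∈ P, p.Prime ∧ z0 < p ∧ p ≤ 2 ^ 2 ^ J := by
    intro p hp
    rw [hP, mem_filter] at hp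
    exact ⟨(mem_pz.1 hp.1).2, hp.2, ((mem_pz.1 hp.1).1.trans (JJ_lt y).le)⟩
  have hq1 : 1 ≤ q := by
    rw [hq]
    exact Nat.pos_of_ne_zero (prod_ne_zero_iff.2 fun p hp => (mem_pz.1 hp).2.ne_zero)
  have hq0 : (0 : ℝ) < q := by exact_mod_cast hq1
  have hndq : ∀ p ∈ P, ¬ p ∣ q := by
    intro p hp hd
    rw [hq] at hd
    obtain ⟨p', hp', hd'⟩ := (Prime.dvd_finsetProd_iff (hPp p hp).1.prime _).1 hd
    have h1 := (Nat.prime_dvd_prime_iff_eq (hPp p hp).1 (mem_pz.1 hp').2).1 hd'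
    have h2 := (mem_pz.1 hp').1
    have h3 := (hPp p hp).2.1
    omega
  -- coprimality of the class
  have hcop : Nat.Coprime (a i * c + b i) (a i * q) := by
    have h1 : ∀ p : ℕ, p.Prime → p ≤ z0 → ¬ p ∣ a i * c + b i := by
      intro p hp hpz hd
      exact hc p (mem_pz.2 ⟨hpz, hp⟩) ⟨i, hd⟩
    apply Nat.Coprime.mul_right
    · apply Nat.coprime_of_dvd
      intro p hp h2 h3
      exact h1 p hp ((Nat.le_of_dvd (ha i) h3).trans (haz i)) h2
    · apply Nat.coprime_of_dvd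
      intro p hp h2 h3
      rw [hq] at h3
      obtain ⟨p', hp', hd'⟩ := (Prime.dvd_finsetProd_iff hp.prime _).1 h3
      have h4 := (Nat.prime_dvd_prime_iff_eq hp (mem_pz.1 hp').2).1 hd'
      rw [h4] at h2
      exact h1 p' (mem_pz.1 hp').2 (mem_pz.1 hp').1 h2
  have hcnd : ∀ p ∈ P, Cnd (a i) (b i) k (QQ a b) p := by
    intro p hp
    have h1 := hPp p hp
    refine ⟨h1.1, ?_, fun n => QQ_per a b p n, ?_, fun n h => ⟨i, h⟩⟩
    · intro h
      have := Nat.le_of_dvd (ha i) h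
      have := haz i
      omega
    · refine le_trans ?_ (nuB_le_k hab h1.1)
      unfold nuB
      apply card_le_card
      intro r hr
      rw [mem_filter] at hr ⊢
      exact ⟨hr.1, hr.2.1⟩
  set Ω := (Icc 1 X).filter (fun n => n ≡ c [MOD q]) with hΩ
  set F := Ω.filter (fun n => ∀ p ∈ P, ¬ QQ a b p n) with hF
  set Λ := ∑ n ∈ F, la (a i * n + b i) with hΛ
  set M : ℝ := (X : ℝ) / (2 * q) * ∏ p ∈ P, (1 - (nuB (QQ a b) p : ℝ) / p) with hM
  set TT := ((J : ℝ) + 2) * TE (a i) (b i) X k q D P with hTT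
  have hTE0 : 0 ≤ TE (a i) (b i) X k q D P := by
    unfold TE
    apply sum_nonneg
    intro T _
    apply add_nonneg (Nat.cast_nonneg _)
    exact sum_nonneg fun U _ => mul_nonneg (by positivity) (BB_nonneg _ _ _ _ _)
  have hTT0 : 0 ≤ TT := by positivity
  -- both signs
  have key : ∀ σ : ℝ, |σ| = 1 → |((F.card : ℝ) + σ * Λ) / 2 - M| ≤ (1 / 2 : ℝ) ^ bb * M + TT := by
    intro σ hσ
    have h := hFL bb J z0 P (fun p => (nuB (QQ a b) p : ℝ) / p) hb hz hPp (fun p hp => by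
        have hp0 : (0 : ℝ) < p := by exact_mod_cast (hPp p hp).1.pos
        have hp1 : (1 : ℝ) < p := by exact_mod_cast (hPp p hp).1.one_lt
        refine ⟨by positivity, ?_⟩
        apply div_le_div₀ (Nat.cast_nonneg _) (by exact_mod_cast nuB_le_k hab (hPp p hp).1) (by linarith) (by linarith))
      Ω (fun n => (1 + σ * la (a i * n + b i)) / 2) (fun p n => QQ a b p n) ((X : ℝ) / (2 * q))
      (fun T => (D : ℝ) + ∑ U ∈ T.powerset, (k : ℝ) ^ (T \ U).card *
        BB (a i) (b i) X (1 * ∏ p ∈ U, p) (q * ∏ p ∈ T \ U, p))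
      (fun n _ => by
        have h1 : |σ * la (a i * n + b i)| ≤ 1 := by
          rw [abs_mul, hσ, one_mul]
          exact la_abs _
        have := (abs_le.1 h1).1
        linarith) (by positivity) (by
        intro T hT hTD
        rw [← hD] at hTD
        have hTp : ∀ p ∈ T, p.Prime := fun p hp => (hPp p (hT hp)).1
        have h1 := ind (a i) (b i) X k (ha i) (QQ a b) T (fun p hp => hcnd p (hT hp)) 1 q c le_rfl hq1
          (fun p hp => ⟨(hTp p hp).one_lt.ne' ∘ Nat.dvd_one.1, hndq p (hT hp)⟩) (Nat.coprime_one_left _) hcop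
        have e1 : Ω.filter (fun n => ∀ p ∈ T, QQ a b p n) =
            (Icc 1 X).filter (fun n => n ≡ c [MOD q] ∧ 1 ∣ a i * n + b i ∧ ∀ p ∈ T, QQ a b p n) := by
          rw [hΩ, filter_filter]
          apply filter_congr
          intro n _
          simp
        have h2 := count_sys (fun p a' => QQ a b p a') X T hTp q hq1 (fun p hp => hndq p (hT hp)) c
        have e2 : (Icc 1 X).filter (fun n => n ≡ c [MOD q] ∧ ∀ p ∈ T, QQ a b p (n % p)) =
            Ω.filter (fun n => ∀ p ∈ T, QQ a b p n) := by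
          rw [hΩ, filter_filter]
          apply filter_congr
          intro n _
          constructor
          · rintro ⟨h3, h4⟩
            exact ⟨h3, fun p hp => (QQ_per a b p n).2 (h4 p hp)⟩
          · rintro ⟨h3, h4⟩
            exact ⟨h3, fun p hp => (QQ_per a b p n).1 (h4 p hp)⟩
        rw [e2] at h2
        rw [← e1] at h1
        have h3 : ∏ p ∈ T, (((range p).filter (fun a' => QQ a b p a')).card : ℝ) ≤ D := by
          have h5 : ∏ p ∈ T, (((range p).filter (fun a' => QQ a b p a')).card : ℝ) ≤ ∏ p ∈ T, (p : ℝ) := by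
            apply prod_le_prod (fun _ _ => Nat.cast_nonneg _)
            intro p hp
            exact_mod_cast nuB_le (QQ a b) p
          refine h5.trans ?_
          have h6 : ((∏ p ∈ T, p : ℕ) : ℝ) ≤ D := by exact_mod_cast hTD
          push_cast at h6
          exact h6
        set N1 : ℝ := ((Ω.filter (fun n => ∀ p ∈ T, QQ a b p n)).card : ℝ) with hN1
        set S1 := ∑ n ∈ Ω.filter (fun n => ∀ p ∈ T, QQ a b p n), la (a i * n + b i) with hS1
        have e3 : ∑ n ∈ Ω.filter (fun n => ∀ p ∈ T, QQ a b p n), (1 + σ * la (a i * n + b i)) / 2 =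
            (N1 + σ * S1) / 2 := by
          rw [← sum_div, sum_add_distrib, ← mul_sum, sum_const, nsmul_eq_mul, mul_one]
        have e4 : (X : ℝ) / (2 * q) * ∏ p ∈ T, ((nuB (QQ a b) p : ℝ) / p) =
            ((X : ℝ) / q * ∏ p ∈ T, ((((range p).filter (fun a' => QQ a b p a')).card : ℝ) / p)) / 2 := by
          unfold nuB
          field_simp
        rw [e3, e4]
        have e5 : (N1 + σ * S1) / 2 - ((X : ℝ) / q * ∏ p ∈ T, ((((range p).filter (fun a' => QQ a b p a')).card : ℝ) / p)) / 2 =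
            (N1 - (X : ℝ) / q * ∏ p ∈ T, ((((range p).filter (fun a' => QQ a b p a')).card : ℝ) / p)) / 2 + (σ * S1) / 2 := by ring
        rw [e5]
        refine (abs_add_le _ _).trans ?_
        rw [abs_div, abs_div, abs_mul, hσ, one_mul, abs_of_pos (by norm_num : (0 : ℝ) < 2)]
        have h6 := h2.trans h3
        have hDn : (0 : ℝ) ≤ D := Nat.cast_nonneg _
        have hn : 0 ≤ ∑ U ∈ T.powerset, (k : ℝ) ^ (T \ U).card *
            BB (a i) (b i) X (1 * ∏ p ∈ U, p) (q * ∏ p ∈ T \ U, p) :=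
          sum_nonneg fun U _ => mul_nonneg (by positivity) (BB_nonneg _ _ _ _ _)
        apply add_le_add
        · linarith
        · linarith)
    have e6 : ∑ n ∈ Ω.filter (fun n => ∀ p ∈ P, ¬ QQ a b p n), (1 + σ * la (a i * n + b i)) / 2 =
        ((F.card : ℝ) + σ * Λ) / 2 := by
      rw [← sum_div, sum_add_distrib, ← mul_sum, sum_const, nsmul_eq_mul, mul_one]
    rw [e6, ← hD] at h
    exact h
  have k1 := key 1 (by norm_num)
  have k2 := key (-1) (by norm_num)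
  rw [one_mul] at k1
  have e7 : (F.card : ℝ) + -1 * Λ = F.card - Λ := by ring
  rw [e7] at k2
  have hb1 : 1 ≤ bb := hC0.trans hb
  have hη : (1 / 2 : ℝ) ^ bb ≤ 1 / 2 := by
    calc (1 / 2 : ℝ) ^ bb ≤ (1 / 2 : ℝ) ^ 1 := pow_le_pow_of_le_one (by norm_num) (by norm_num) hb1
      _ = _ := pow_one _
  have := two_bounds (by positivity) hη hTT0 (Nat.cast_nonneg _) k1 k2
  refine this.trans (le_of_eq ?_)
  rw [hTT]
  ring

end Pool.Agent.H530.Ha
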