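import Pool.Agent.H530.HaG

/-! The Liouville function at one member of an almost prime tuple: summing over the classes. -/

set_option autoImplicit false

namespace Pool.Agent.H530.Ha

open Finset Pool.Agent.H373R2.T7 Filter

lemma JJ_log {y : ℕ} (hy : 2 ≤ y) : ((JJ y : ℕ) : ℝ) ≤ 3 * Real.log y := by
  have h1 : JJ y ≤ 2 ^ JJ y := (Nat.lt_two_pow_self).le
  have h2 := JJ_pow y hy
  have h3 : (JJ y : ℝ) ≤ 2 * (Nat.log 2 y : ℝ) := by exact_mod_cast h1.trans h2
  have h4 : (Nat.log 2 y : ℝ) ≤ Real.log y / Real.log 2 := by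
    rw [le_div_iff₀ (Real.log_pos (by norm_num)), ← Real.log_pow]
    apply Real.log_le_log (by positivity)
    exact_mod_cast Nat.pow_log_le_self 2 (by omega)
  have hl : 0 ≤ Real.log y := Real.log_natCast_nonneg y
  have h5 : Real.log y / Real.log 2 ≤ (3 / 2) * Real.log y := by
    rw [div_le_iff₀ (Real.log_pos (by norm_num))]
    have := Real.log_two_gt_d9
    nlinarith
  linarith

open Classical in
theorem one_i (k : ℕ) (hk : 1 ≤ k) (ε : ℝ) (hε : 0 < ε) : ∃ K : ℕ, 1 ≤ K ∧ ∀ a b : Fin k → ℕ, (∀ j, 1 ≤ a j) →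
    Adm a b → ∀ i : Fin k, ∃ X0 y0 : ℕ, ∀ X y : ℕ, X0 ≤ X → y0 ≤ y → y ^ K ≤ X →
      |∑ n ∈ RR a b X y, la (a i * n + b i)| ≤ ε * (RR a b X y).card + X / Real.log X ^ (k + 1) := by
  obtain ⟨C0, hC0, hFL⟩ := Pool.Agent.H20R2.fLem k
  obtain ⟨b1, hb1⟩ := exists_pow_lt_of_lt_one (show (0 : ℝ) < ε / 2 by positivity) (show (1 / 2 : ℝ) < 1 by norm_num)
  obtain ⟨bb, hbb⟩ : ∃ bb : ℕ, bb = max C0 b1 := ⟨_, rfl⟩
  have hbC : C0 ≤ bb := by rw [hbb]; exact le_max_left _ _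
  have hbε : 2 * (1 / 2 : ℝ) ^ bb ≤ ε := by
    have : (1 / 2 : ℝ) ^ bb ≤ (1 / 2) ^ b1 :=
      pow_le_pow_of_le_one (by norm_num) (by norm_num) (by rw [hbb]; exact le_max_right _ _)
    linarith
  have hbb1 : 1 ≤ C0 * bb := Nat.mul_pos hC0 (hC0.trans hbC)
  refine ⟨16 * (C0 * bb), by omega, ?_⟩
  intro a b ha hab i
  obtain ⟨z0, hz0⟩ : ∃ z0 : ℕ, z0 = C0 + k + ∑ j, a j := ⟨_, rfl⟩
  have haz : ∀ j, a j ≤ z0 := by
    intro j
    rw [hz0]
    have := single_le_sum (f := a) (fun _ _ => Nat.zero_le _) (mem_univ j)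
    omega
  obtain ⟨q, hq⟩ : ∃ q : ℕ, q = ∏ p ∈ pz z0, p := ⟨_, rfl⟩
  have hq1 : 1 ≤ q := by
    rw [hq]
    exact Nat.pos_of_ne_zero (prod_ne_zero_iff.2 fun p hp => (mem_pz.1 hp).2.ne_zero)
  obtain ⟨X0, y0, hTE⟩ := TE_bound (a i) (b i) k q (ha i) hq1 (k + 3)
  obtain ⟨X1, hX1⟩ := ev_L' (max 1 (20 * q))
  refine ⟨max X0 X1, max y0 (z0 + 2), ?_⟩
  intro X y hX hy hyX
  have hX0 : X0 ≤ X := (le_max_left _ _).trans hX
  have hX1' : X1 ≤ X := (le_max_right _ _).trans hX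
  have hy0 : y0 ≤ y := (le_max_left _ _).trans hy
  have hyz : z0 + 2 ≤ y := (le_max_right _ _).trans hy
  obtain ⟨D, hD⟩ : ∃ D : ℕ, D = (2 ^ 2 ^ JJ y) ^ (C0 * bb) := ⟨_, rfl⟩
  have hD1 : 1 ≤ D := by rw [hD]; exact Nat.one_le_pow _ _ (by positivity)
  have hD8 : D ^ 8 ≤ X := by
    refine le_trans ?_ hyX
    rw [hD]
    calc ((2 ^ 2 ^ JJ y) ^ (C0 * bb)) ^ 8 ≤ ((y ^ 2) ^ (C0 * bb)) ^ 8 :=
          Nat.pow_le_pow_left (Nat.pow_le_pow_left (JJ_le y (by omega)) _) _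
      _ = y ^ (16 * (C0 * bb)) := by rw [← pow_mul, ← pow_mul]; congr 1; ring
  have hyX1 : y ≤ X := (Nat.le_self_pow (by omega) y).trans hyX
  have hL := hX1 X hX1'
  obtain ⟨L, hLe⟩ : ∃ L : ℝ, L = Real.log X := ⟨_, rfl⟩
  rw [← hLe] at hL
  have hL1 : 1 ≤ L := (le_max_left _ _).trans hL
  have hLq : 20 * (q : ℝ) ≤ L := (le_max_right _ _).trans hL
  have hXp : (0 : ℝ) < X := by
    have : 1 ≤ X := by omega
    exact_mod_cast this
  set P := (pz y).filter (fun p => z0 < p) with hP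
  have hte := hTE X hX0 y D hy0 hyX1 hD1 hD8 P (filter_subset _ _) (fun p hp => by
    rw [hP, mem_filter] at hp
    omega)
  rw [← hLe] at hte
  set te := TE (a i) (b i) X k q D P with hte'
  -- decomposition into classes
  set G := (range q).filter (fun c => ∀ p ∈ pz z0, ¬ QQ a b p c) with hG
  have hdq : ∀ p ∈ pz z0, p ∣ q := by
    intro p hp
    rw [hq]
    exact dvd_prod_of_mem _ hp
  have hfib : ∀ f : ℕ → ℝ, ∑ n ∈ RR a b X y, f n = ∑ c ∈ G,
      ∑ n ∈ ((Icc 1 X).filter (fun n => n ≡ c [MOD q])).filter (fun n => ∀ p ∈ P, ¬ QQ a b p n), f n := by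
    intro f
    rw [← sum_fiberwise_of_maps_to (s := RR a b X y) (t := G) (g := fun n => n % q)]
    · apply sum_congr rfl
      intro c hc
      rw [hG, mem_filter, mem_range] at hc
      apply sum_congr _ fun _ _ => rfl
      ext n
      rw [mem_filter, mem_filter, mem_filter, RR, mem_filter]
      constructor
      · rintro ⟨⟨h1, h2⟩, h3⟩
        refine ⟨⟨h1, ?_⟩, fun p hp => h2 p ((mem_filter.1 hp).1)⟩
        rw [← h3]
        exact (Nat.mod_modEq n q).symm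
      · rintro ⟨⟨h1, h2⟩, h3⟩
        refine ⟨⟨h1, ?_⟩, ?_⟩
        · intro p hp
          by_cases hpz : z0 < p
          · exact h3 p (mem_filter.2 ⟨hp, hpz⟩)
          · have hp0 : p ∈ pz z0 := mem_pz.2 ⟨by omega, (mem_pz.1 hp).2⟩
            intro h
            apply hc.2 p hp0
            exact (QQ_mod a b (h2.of_dvd (hdq p hp0))).1 h
        · have := h2
          unfold Nat.ModEq at this
          rw [Nat.mod_eq_of_lt hc.1] at this
          exact this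
    · intro n hn
      rw [RR, mem_filter] at hn
      rw [hG, mem_filter, mem_range]
      refine ⟨Nat.mod_lt _ hq1, fun p hp h => ?_⟩
      have hpy : p ∈ pz y := mem_pz.2 ⟨by have := (mem_pz.1 hp).1; omega, (mem_pz.1 hp).2⟩
      apply hn.2 p hpy
      exact (QQ_mod a b ((Nat.mod_modEq n q).symm.of_dvd (hdq p hp))).2 h
  rw [hfib]
  have hcard : ((RR a b X y).card : ℝ) = ∑ c ∈ G,
      ((((Icc 1 X).filter (fun n => n ≡ c [MOD q])).filter (fun n => ∀ p ∈ P, ¬ QQ a b p n)).card : ℝ) := by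
    have := hfib (fun _ => 1)
    simpa using this
  rw [hcard]
  have hGq : (G.card : ℝ) ≤ q := by
    have : G.card ≤ q := by
      rw [hG]
      refine (card_filter_le _ _).trans ?_
      rw [card_range]
    exact_mod_cast this
  have hJ0 : (0 : ℝ) ≤ ((JJ y : ℕ) : ℝ) := Nat.cast_nonneg _
  have hte0 : 0 ≤ (X : ℝ) / L ^ (k + 3) := by positivity
  have hJL : ((JJ y : ℕ) : ℝ) + 2 ≤ 5 * L := by
    have h1 := JJ_log (y := y) (by omega)
    have h2 : Real.log y ≤ L := by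
      rw [hLe]
      apply Real.log_le_log
      · exact_mod_cast (by omega : 0 < y)
      · exact_mod_cast hyX1
    linarith
  calc |∑ c ∈ G, ∑ n ∈ ((Icc 1 X).filter (fun n => n ≡ c [MOD q])).filter (fun n => ∀ p ∈ P, ¬ QQ a b p n),
        la (a i * n + b i)|
      ≤ ∑ c ∈ G, |∑ n ∈ ((Icc 1 X).filter (fun n => n ≡ c [MOD q])).filter (fun n => ∀ p ∈ P, ¬ QQ a b p n),
        la (a i * n + b i)| := abs_sum_le_sum_abs _ _
    _ ≤ ∑ c ∈ G, (2 * (1 / 2 : ℝ) ^ bb *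
          ((((Icc 1 X).filter (fun n => n ≡ c [MOD q])).filter (fun n => ∀ p ∈ P, ¬ QQ a b p n)).card : ℝ) +
          4 * (((JJ y : ℕ) : ℝ) + 2) * te) := by
        apply sum_le_sum
        intro c hc
        rw [hG, mem_filter] at hc
        exact cls ha hab i hC0 hFL hbC (by omega) haz hq hD hc.2
    _ = 2 * (1 / 2 : ℝ) ^ bb * (∑ c ∈ G,
          ((((Icc 1 X).filter (fun n => n ≡ c [MOD q])).filter (fun n => ∀ p ∈ P, ¬ QQ a b p n)).card : ℝ)) +
          G.card * (4 * (((JJ y : ℕ) : ℝ) + 2) * te) := by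
        rw [sum_add_distrib, ← mul_sum, sum_const, nsmul_eq_mul]
    _ ≤ ε * (∑ c ∈ G,
          ((((Icc 1 X).filter (fun n => n ≡ c [MOD q])).filter (fun n => ∀ p ∈ P, ¬ QQ a b p n)).card : ℝ)) +
          q * (4 * (5 * L) * (X / L ^ (k + 3))) := by
        apply add_le_add
        · exact mul_le_mul_of_nonneg_right hbε (sum_nonneg fun _ _ => Nat.cast_nonneg _)
        · have h1 : 4 * (((JJ y : ℕ) : ℝ) + 2) * te ≤ 4 * (5 * L) * (X / L ^ (k + 3)) := by
            calc 4 * (((JJ y : ℕ) : ℝ) + 2) * te ≤ 4 * (((JJ y : ℕ) : ℝ) + 2) * (X / L ^ (k + 3)) :=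
                  mul_le_mul_of_nonneg_left hte (by positivity)
              _ ≤ _ := mul_le_mul_of_nonneg_right (by linarith) hte0
          calc (G.card : ℝ) * (4 * (((JJ y : ℕ) : ℝ) + 2) * te) ≤ G.card * (4 * (5 * L) * (X / L ^ (k + 3))) :=
                mul_le_mul_of_nonneg_left h1 (Nat.cast_nonneg _)
            _ ≤ _ := mul_le_mul_of_nonneg_right hGq (by positivity)
    _ ≤ _ := by
        apply add_le_add le_rfl
        rw [← hLe]
        have e1 : (X : ℝ) / L ^ (k + 1) = L ^ 2 * (X / L ^ (k + 3)) := by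
          field_simp
          ring
        rw [e1]
        have e2 : (q : ℝ) * (4 * (5 * L) * (X / L ^ (k + 3))) = (20 * q * L) * (X / L ^ (k + 3)) := by ring
        rw [e2]
        apply mul_le_mul_of_nonneg_right _ hte0
        nlinarith

end Pool.Agent.H530.Ha
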