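import Pool.Agent.H530.HaH

/-! Almost prime values of systems of linear forms: the number of prime factors of each member is odd
for half of them. -/

set_option autoImplicit false

namespace Pool.Agent.H530.Ha

open Finset Pool.Agent.H373R2.T7 Filter

open Classical in
/-- all members at once, with the lower bound -/
theorem all_i (k : ℕ) (hk : 1 ≤ k) : ∃ c : ℝ, 0 < c ∧ ∀ ε : ℝ, 0 < ε → ∃ K : ℕ, 1 ≤ K ∧
    ∀ a b : Fin k → ℕ, (∀ j, 1 ≤ a j) → Adm a b →
    ∃ X0 y0 : ℕ, ∀ X y : ℕ, X0 ≤ X → y0 ≤ y → y ^ K ≤ X →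
      c * (X / Real.log X ^ k) ≤ (RR a b X y).card ∧
      ∀ i, |∑ n ∈ RR a b X y, la (a i * n + b i)| ≤ ε * (RR a b X y).card := by
  obtain ⟨K2, x2, hK2, H2⟩ := sys_fund k hk (1 / 2) (by norm_num)
  obtain ⟨c1, hc1, H3⟩ := prod_low k
  refine ⟨c1 / 4, by positivity, fun ε hε => ?_⟩
  obtain ⟨K1, hK1, H0⟩ := one_i k hk (ε / 2) (by positivity)
  refine ⟨K1 + K2, by omega, fun a b ha hab => ?_⟩
  choose X1 y1 H1 using fun i => H0 a b ha hab i
  obtain ⟨X4, hX4⟩ := ev_log' k (4 / c1)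
  obtain ⟨X5, hX5⟩ := ev_L' (max 1 (8 / (c1 * ε)))
  refine ⟨(∑ i, X1 i) + X4 + X5 + 3, (∑ i, y1 i) + x2 + 3, ?_⟩
  intro X y hX hy hyX
  have hs : ∀ (f : Fin k → ℕ) i, f i ≤ ∑ j, f j := fun f i => single_le_sum (f := f) (fun _ _ => Nat.zero_le _) (mem_univ i)
  have hXp : (0 : ℝ) < X := by exact_mod_cast (by omega : 0 < X)
  have hyX1 : y ≤ X := (Nat.le_self_pow (by omega) y).trans hyX
  obtain ⟨L, hL⟩ : ∃ L : ℝ, L = Real.log X := ⟨_, rfl⟩
  have h5 := hX5 X (by omega)
  have h4 := hX4 X (by omega)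
  rw [← hL] at h4 h5
  have hL1 : 1 ≤ L := (le_max_left _ _).trans h5
  have hLc : 8 / (c1 * ε) ≤ L := (le_max_right _ _).trans h5
  have hL0 : 0 < L := by linarith
  -- lower bound
  have h2 := H2 X y (by omega) ((Nat.pow_le_pow_right (by omega) (by omega)).trans hyX) (QQ a b) (perB hab) X
  have h3 := H3 a b hab y (by omega)
  set Pi0 := ∏ p ∈ pz y, (1 - (nuB (QQ a b) p : ℝ) / p) with hPi
  have hly : Real.log y ≤ L := by
    rw [hL]
    apply Real.log_le_log
    · exact_mod_cast (by omega : 0 < y)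
    · exact_mod_cast hyX1
  have hly0 : 0 < Real.log y := Real.log_pos (by exact_mod_cast (by omega : 1 < y))
  have hPi1 : c1 / L ^ k ≤ Pi0 := by
    refine le_trans ?_ h3
    apply div_le_div_of_nonneg_left hc1.le (by positivity)
    exact pow_le_pow_left₀ hly0.le hly k
  have hcard : c1 / 4 * (X / L ^ k) ≤ (RR a b X y).card := by
    have e1 := (abs_le.1 h2).1
    have e2 : (X : ℝ) * (c1 / L ^ k) ≤ X * Pi0 := mul_le_mul_of_nonneg_left hPi1 hXp.le
    have e3 : √(X : ℝ) * (4 / c1 * L ^ k) ≤ √X * √X := mul_le_mul_of_nonneg_left h4 (Real.sqrt_nonneg _)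
    rw [Real.mul_self_sqrt hXp.le] at e3
    have e4 : √(X : ℝ) ≤ c1 / 4 * (X / L ^ k) := by
      have h6 : (0 : ℝ) < 4 / c1 * L ^ k := by positivity
      have : √(X : ℝ) ≤ X / (4 / c1 * L ^ k) := by rwa [le_div_iff₀ h6]
      refine this.trans (le_of_eq ?_)
      field_simp
    have e5 : (X : ℝ) * (c1 / L ^ k) = 4 * (c1 / 4 * (X / L ^ k)) := by ring
    have e6 : ((RR a b X y).card : ℝ) = (((Icc 1 X).filter (fun n : ℕ => ∀ p ∈ pz y, ¬ QQ a b p n)).card : ℕ) := by
      rw [RR]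
    rw [e6]
    have h7 : 0 ≤ c1 / 4 * ((X : ℝ) / L ^ k) := by positivity
    linarith
  rw [← hL]
  refine ⟨hcard, fun i => ?_⟩
  have h1 := H1 i X y (by have := hs X1 i; omega) (by have := hs y1 i; omega)
    ((Nat.pow_le_pow_right (by omega) (by omega)).trans hyX)
  refine h1.trans ?_
  have e1 : (X : ℝ) / L ^ (k + 1) ≤ ε / 2 * (RR a b X y).card := by
    have h8 : ε / 2 * (c1 / 4 * (X / L ^ k)) ≤ ε / 2 * (RR a b X y).card := mul_le_mul_of_nonneg_left hcard (by positivity)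
    refine le_trans ?_ h8
    have h9 : 8 ≤ L * (c1 * ε) := by rwa [div_le_iff₀ (by positivity)] at hLc
    have h10 : (X : ℝ) / L ^ (k + 1) = (X / L ^ k) / L := by
      rw [pow_succ]
      field_simp
    rw [h10, div_le_iff₀ hL0]
    have h11 : 0 ≤ (X : ℝ) / L ^ k := by positivity
    nlinarith
  rw [← hL]
  linarith

/-- the `n ≤ X` such that every prime factor `p` of every value satisfies `p ^ R > X` -/
noncomputable def GG {k : ℕ} (a b : Fin k → ℕ) (R X : ℕ) : Finset ℕ := by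
  classical
  exact (Icc 1 X).filter (fun n => ∀ j, ∀ p : ℕ, p.Prime → p ∣ a j * n + b j → X < p ^ R)

lemma GG_eq {k : ℕ} (a b : Fin k → ℕ) {R X : ℕ} (hR : 1 ≤ R) :
    ∃ y, (y ^ R ≤ X ∧ X < (y + 1) ^ R) ∧ GG a b R X = RR a b X y := by
  classical
  obtain ⟨y, hy⟩ : ∃ y, y = Nat.findGreatest (fun y => y ^ R ≤ X) X := ⟨_, rfl⟩
  have h0 : y ^ R ≤ X := by
    have := Nat.findGreatest_spec (P := fun y => y ^ R ≤ X) (m := 0) (Nat.zero_le X) (by
      rw [zero_pow (by omega)]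
      exact Nat.zero_le _)
    rw [hy]
    exact this
  have h1 : X < (y + 1) ^ R := by
    by_contra h
    push Not at h
    have h3 : y + 1 ≤ X := (Nat.le_self_pow (by omega) (y + 1)).trans h
    have := Nat.le_findGreatest (P := fun y => y ^ R ≤ X) h3 h
    omega
  refine ⟨y, ⟨h0, h1⟩, ?_⟩
  unfold GG RR
  apply filter_congr
  intro n _
  constructor
  · rintro h p hp ⟨j, hd⟩
    have h2 := h j p (mem_pz.1 hp).2 hd
    have h3 : p ^ R ≤ y ^ R := Nat.pow_le_pow_left (mem_pz.1 hp).1 R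
    omega
  · intro h j p hp hd
    by_contra h2
    push Not at h2
    apply h p (mem_pz.2 ⟨?_, hp⟩) ⟨j, hd⟩
    by_contra h3
    push Not at h3
    have : (y + 1) ^ R ≤ p ^ R := Nat.pow_le_pow_left h3 R
    omega

/-- few prime factors -/
lemma Om_le {X R m : ℕ} (hm : m ≠ 0) (h : ∀ p : ℕ, p.Prime → p ∣ m → X < p ^ R) :
    X ^ ArithmeticFunction.cardFactors m ≤ m ^ R := by
  have h1 : m.primeFactorsList.prod = m := Nat.prod_primeFactorsList hm
  have h2 : ∀ l : List ℕ, (∀ p ∈ l, X < p ^ R) → X ^ l.length ≤ l.prod ^ R := by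
    intro l
    induction l with
    | nil => simp
    | cons p l ih =>
      intro h3
      rw [List.length_cons, List.prod_cons, pow_succ, mul_pow, mul_comm]
      apply Nat.mul_le_mul
      · exact (h3 p (List.mem_cons_self ..)).le
      · exact ih fun q hq => h3 q (List.mem_cons_of_mem _ hq)
  have h3 := h2 m.primeFactorsList (fun p hp => h p (Nat.prime_of_mem_primeFactorsList hp)
    (Nat.dvd_of_mem_primeFactorsList hp))
  rw [h1] at h3
  rw [ArithmeticFunction.cardFactors_apply]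
  exact h3

lemma Om_le' {X R m A : ℕ} (hm : m ≠ 0) (hX : A ^ R < X) (hmA : m ≤ A * X) (h : ∀ p : ℕ, p.Prime → p ∣ m → X < p ^ R) :
    ArithmeticFunction.cardFactors m ≤ R := by
  by_contra hc
  push Not at hc
  have h1 := Om_le hm h
  have h2 : X ^ (R + 1) ≤ X ^ ArithmeticFunction.cardFactors m := Nat.pow_le_pow_right (by omega) hc
  have h3 : m ^ R ≤ (A * X) ^ R := Nat.pow_le_pow_left hmA R
  rw [mul_pow] at h3
  have h4 : A ^ R * X ^ R < X * X ^ R := Nat.mul_lt_mul_of_pos_right hX (Nat.pow_pos (by omega))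
  rw [pow_succ, mul_comm] at h2
  omega

/-- the averaging argument -/
lemma avg {k : ℕ} (hk : 1 ≤ k) (G : Finset ℕ) (u : Fin k → ℕ → Prop) [∀ i n, Decidable (u i n)]
    (ε : ℝ) (hε : ε * (2 * k * (k + 2)) ≤ 1)
    (h : ∀ i, (1 / 2 - ε) * (G.card : ℝ) ≤ ((G.filter (fun n => u i n)).card : ℝ)) :
    (G.card : ℝ) ≤ (k + 2) * ((G.filter (fun n => k ≤ 2 * (univ.filter (fun i => u i n)).card)).card : ℝ) := by
  have hk0 : (1 : ℝ) ≤ k := by exact_mod_cast hk
  have h1 : ∑ i : Fin k, ((G.filter (fun n => u i n)).card : ℝ) = ∑ n ∈ G, ((univ.filter (fun i => u i n)).card : ℝ) := by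
    have := sum_card_bipartiteAbove_eq_sum_card_bipartiteBelow (s := (univ : Finset (Fin k))) (t := G)
      (fun i n => u i n)
    unfold bipartiteAbove bipartiteBelow at this
    exact_mod_cast this
  have h2 : (k : ℝ) * ((1 / 2 - ε) * G.card) ≤ ∑ i : Fin k, ((G.filter (fun n => u i n)).card : ℝ) := by
    calc (k : ℝ) * ((1 / 2 - ε) * G.card) = ∑ _i : Fin k, (1 / 2 - ε) * (G.card : ℝ) := by
          rw [sum_const, card_univ, Fintype.card_fin, nsmul_eq_mul]
      _ ≤ _ := sum_le_sum fun i _ => h i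
  have h3 : ∀ n ∈ G, 2 * ((univ.filter (fun i => u i n)).card : ℝ) ≤
      (k - 1) + (k + 1) * (if k ≤ 2 * (univ.filter (fun i => u i n)).card then 1 else 0) := by
    intro n _
    have h4 : (univ.filter (fun i => u i n)).card ≤ k := by
      refine (card_filter_le _ _).trans ?_
      rw [card_univ, Fintype.card_fin]
    split_ifs with h5
    · have : ((univ.filter (fun i => u i n)).card : ℝ) ≤ k := by exact_mod_cast h4
      linarith
    · have h6 : 2 * (univ.filter (fun i => u i n)).card + 1 ≤ k := by omega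
      have : 2 * ((univ.filter (fun i => u i n)).card : ℝ) + 1 ≤ k := by exact_mod_cast h6
      linarith
  have h4 := sum_le_sum h3
  rw [← mul_sum, sum_add_distrib, ← mul_sum, sum_const, nsmul_eq_mul, sum_boole] at h4
  set g : ℝ := (G.card : ℝ) with hg
  set N : ℝ := ((G.filter (fun n => k ≤ 2 * (univ.filter (fun i => u i n)).card)).card : ℝ) with hN
  have hg0 : 0 ≤ g := Nat.cast_nonneg _
  have h5 : 2 * (k * ((1 / 2 - ε) * g)) ≤ g * (k - 1) + (k + 1) * N := by
    rw [← h1] at h4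
    linarith
  have h6 : g * (1 - 2 * k * ε) ≤ (k + 1) * N := by nlinarith
  have h7 : (k + 2) * (g * (1 - 2 * k * ε)) ≤ (k + 2) * ((k + 1) * N) := mul_le_mul_of_nonneg_left h6 (by linarith)
  have h8 : (k + 1) * g ≤ (k + 2) * (g * (1 - 2 * k * ε)) := by
    have : g * (ε * (2 * k * (k + 2))) ≤ g * 1 := mul_le_mul_of_nonneg_left hε hg0
    nlinarith
  have h9 : (k + 1) * g ≤ (k + 1) * ((k + 2) * N) := by linarith
  exact le_of_mul_le_mul_left h9 (by linarith)

end Pool.Agent.H530.Ha
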