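import Mathlib

/-! Balanced sign vectors meet every half space with positive proportion. -/

set_option autoImplicit false

namespace Pool.Agent.H530.Ha

open Finset

lemma fin_min {ι : Type*} [Finite ι] (f : ι → ℝ) (hf : ∀ i, 0 < f i) : ∃ δ : ℝ, 0 < δ ∧ ∀ i, δ ≤ f i := by
  rcases isEmpty_or_nonempty ι with h | h
  · exact ⟨1, one_pos, fun i => h.elim i⟩
  · obtain ⟨i0, h0⟩ := Finite.exists_min f
    exact ⟨f i0, hf i0, h0⟩

/-- the sign vector of a pattern -/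
def sg {k : ℕ} (T : Fin k → Bool) (j : Fin k) : ℝ := if T j then 1 else -1

lemma sg_abs {k : ℕ} (T : Fin k → Bool) (j : Fin k) : |sg T j| = 1 := by
  unfold sg
  split_ifs <;> simp

open Classical in
lemma one_w {k : ℕ} (w : Fin k → ℝ) : ∃ ε δ : ℝ, 0 < ε ∧ 0 < δ ∧ ∀ (G : Finset ℕ) (t : ℕ → Fin k → Bool),
    (∀ j, |∑ n ∈ G, sg (t n) j| ≤ ε * (G.card : ℝ)) →
    δ * (G.card : ℝ) ≤ ((G.filter (fun n => 0 ≤ ∑ j, w j * sg (t n) j)).card : ℝ) := by
  obtain ⟨m, hm, hmT⟩ := fin_min (fun T : Fin k → Bool => if 0 ≤ ∑ j, w j * sg T j then 1 else -∑ j, w j * sg T j)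
    (fun T => by
      split_ifs with h
      · exact one_pos
      · linarith)
  obtain ⟨W, hW⟩ : ∃ W : ℝ, W = ∑ j, |w j| := ⟨_, rfl⟩
  have hW0 : 0 ≤ W := by rw [hW]; exact sum_nonneg fun _ _ => abs_nonneg _
  refine ⟨m / (2 * (W + 1)), m / (2 * (W + m)), by positivity, by positivity, ?_⟩
  intro G t ht
  set g : ℝ := (G.card : ℝ) with hg
  have hg0 : 0 ≤ g := Nat.cast_nonneg _
  set N : ℝ := ((G.filter (fun n => 0 ≤ ∑ j, w j * sg (t n) j)).card : ℝ) with hN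
  have h1 : -(m / (2 * (W + 1)) * g * W) ≤ ∑ n ∈ G, ∑ j, w j * sg (t n) j := by
    rw [sum_comm]
    have h2 : |∑ j, ∑ n ∈ G, w j * sg (t n) j| ≤ m / (2 * (W + 1)) * g * W := by
      refine (abs_sum_le_sum_abs _ _).trans ?_
      rw [hW, mul_sum]
      apply sum_le_sum
      intro j _
      rw [← mul_sum, abs_mul, mul_comm]
      apply mul_le_mul_of_nonneg_right _ (abs_nonneg _)
      have := ht j
      rwa [hW] at this
    exact (abs_le.1 h2).1
  have h3 : ∑ n ∈ G, ∑ j, w j * sg (t n) j ≤ ∑ n ∈ G, (-m + (W + m) * (if 0 ≤ ∑ j, w j * sg (t n) j then 1 else 0)) := by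
    apply sum_le_sum
    intro n _
    have h4 := hmT (t n)
    split_ifs with h5
    · have h6 : ∑ j, w j * sg (t n) j ≤ W := by
        rw [hW]
        apply sum_le_sum
        intro j _
        refine (le_abs_self _).trans ?_
        rw [abs_mul, sg_abs, mul_one]
      linarith
    · rw [if_neg h5] at h4
      linarith
  rw [sum_add_distrib, ← mul_sum, sum_const, nsmul_eq_mul, sum_boole, ← hN, ← hg] at h3
  have h7 : m / (2 * (W + 1)) * g * W ≤ m / 2 * g := by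
    have : m / (2 * (W + 1)) * g * W = (m / 2 * g) * (W / (W + 1)) := by field_simp
    rw [this]
    have h8 : W / (W + 1) ≤ 1 := by
      rw [div_le_one (by linarith)]
      linarith
    calc (m / 2 * g) * (W / (W + 1)) ≤ (m / 2 * g) * 1 := mul_le_mul_of_nonneg_left h8 (by positivity)
      _ = _ := mul_one _
  have h9 : m / 2 * g ≤ (W + m) * N := by linarith
  have h10 : 0 < W + m := by linarith
  rw [div_mul_eq_mul_div, div_le_iff₀ (by positivity)]
  linarith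

open Classical in
theorem half_space (k : ℕ) : ∃ ε δ : ℝ, 0 < ε ∧ 0 < δ ∧ ∀ (G : Finset ℕ) (t : ℕ → Fin k → Bool),
    (∀ j, |∑ n ∈ G, sg (t n) j| ≤ ε * (G.card : ℝ)) → ∀ w : Fin k → ℝ,
    δ * (G.card : ℝ) ≤ ((G.filter (fun n => 0 ≤ ∑ j, w j * sg (t n) j)).card : ℝ) := by
  have key : ∀ S : Finset (Fin k → Bool), ∃ ε δ : ℝ, 0 < ε ∧ 0 < δ ∧
      ((∃ w : Fin k → ℝ, S = univ.filter (fun T => 0 ≤ ∑ j, w j * sg T j)) →
        ∀ (G : Finset ℕ) (t : ℕ → Fin k → Bool), (∀ j, |∑ n ∈ G, sg (t n) j| ≤ ε * (G.card : ℝ)) →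
        δ * (G.card : ℝ) ≤ ((G.filter (fun n => t n ∈ S)).card : ℝ)) := by
    intro S
    by_cases h : ∃ w : Fin k → ℝ, S = univ.filter (fun T => 0 ≤ ∑ j, w j * sg T j)
    · obtain ⟨w, hw⟩ := h
      obtain ⟨ε, δ, hε, hδ, H⟩ := one_w w
      refine ⟨ε, δ, hε, hδ, fun _ G t ht => ?_⟩
      have h1 := H G t ht
      have h2 : G.filter (fun n => t n ∈ S) = G.filter (fun n => 0 ≤ ∑ j, w j * sg (t n) j) := by
        apply filter_congr
        intro n _
        rw [hw]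
        simp
      rw [h2]
      exact h1
    · exact ⟨1, 1, one_pos, one_pos, fun h' => absurd h' h⟩
  choose ε δ hε hδ H using key
  obtain ⟨ε0, hε0, he⟩ := fin_min ε hε
  obtain ⟨δ0, hδ0, hd⟩ := fin_min δ hδ
  refine ⟨ε0, δ0, hε0, hδ0, ?_⟩
  intro G t ht w
  have h1 := H (univ.filter (fun T => 0 ≤ ∑ j, w j * sg T j)) ⟨w, rfl⟩ G t (fun j => (ht j).trans
    (mul_le_mul_of_nonneg_right (he _) (Nat.cast_nonneg _)))
  have h2 : G.filter (fun n => t n ∈ univ.filter (fun T => 0 ≤ ∑ j, w j * sg T j)) =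
      G.filter (fun n => 0 ≤ ∑ j, w j * sg (t n) j) := by
    apply filter_congr
    intro n _
    simp
  rw [h2] at h1
  exact (mul_le_mul_of_nonneg_right (hd _) (Nat.cast_nonneg _)).trans h1

end Pool.Agent.H530.Ha
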