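import Pool.Agent.H530.HaI
import Pool.Agent.H530.HaJ

/-! The result on admissible systems of linear forms. -/

set_option autoImplicit false

namespace Pool.Agent.H530.Ha

open Finset Pool.Agent.H373R2.T7 Filter

lemma odd_sum {G : Finset ℕ} {v : ℕ → ℕ} (hv : ∀ n ∈ G, v n ≠ 0) :
    ∑ n ∈ G, la (v n) = (G.card : ℝ) - 2 * ((G.filter (fun n => Odd (ArithmeticFunction.cardFactors (v n)))).card : ℝ) := by
  have h1 : ∀ n ∈ G, la (v n) = 1 - 2 * (if Odd (ArithmeticFunction.cardFactors (v n)) then 1 else 0) := by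
    intro n hn
    rw [la_eq (hv n hn)]
    split_ifs with h
    · rw [h.neg_one_pow]; ring
    · rw [Nat.not_odd_iff_even] at h
      rw [h.neg_one_pow]; ring
  rw [sum_congr rfl h1, sum_sub_distrib, ← mul_sum, sum_boole, sum_const, nsmul_eq_mul, mul_one]

lemma even_sum {G : Finset ℕ} {v : ℕ → ℕ} (hv : ∀ n ∈ G, v n ≠ 0) :
    ∑ n ∈ G, la (v n) = 2 * ((G.filter (fun n => Even (ArithmeticFunction.cardFactors (v n)))).card : ℝ) - (G.card : ℝ) := by
  have h1 : ∀ n ∈ G, la (v n) = 2 * (if Even (ArithmeticFunction.cardFactors (v n)) then 1 else 0) - 1 := by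
    intro n hn
    rw [la_eq (hv n hn)]
    split_ifs with h
    · rw [h.neg_one_pow]; ring
    · rw [Nat.not_even_iff_odd] at h
      rw [h.neg_one_pow]; ring
  rw [sum_congr rfl h1, sum_sub_distrib, ← mul_sum, sum_boole, sum_const, nsmul_eq_mul, mul_one]

open Classical in
/-- the theorem on systems -/
theorem systems (k : ℕ) (hk : 1 ≤ k) : ∃ c δ : ℝ, 0 < c ∧ 0 < δ ∧ ∀ ε : ℝ, 0 < ε → ∃ R : ℕ, 1 ≤ R ∧
    ∀ a b : Fin k → ℕ, (∀ j, 1 ≤ a j) → Adm a b → ∃ X0 : ℕ, ∀ X : ℕ, X0 ≤ X →
      c * (X / Real.log X ^ k) ≤ ((GG a b R X).card : ℝ) ∧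
      (∀ n ∈ GG a b R X, ∀ j, ArithmeticFunction.cardFactors (a j * n + b j) ≤ R) ∧
      (∀ j, |((GG a b R X).filter (fun n => Odd (ArithmeticFunction.cardFactors (a j * n + b j)))).card -
        (1 / 2 : ℝ) * (GG a b R X).card| ≤ ε * (GG a b R X).card) ∧
      ((GG a b R X).card : ℝ) ≤ (k + 2) * (((GG a b R X).filter (fun n =>
        k ≤ 2 * (univ.filter (fun j => Odd (ArithmeticFunction.cardFactors (a j * n + b j)))).card)).card : ℝ) ∧
      ∀ w : Fin k → ℝ, δ * (GG a b R X).card ≤ (((GG a b R X).filter (fun n =>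
        0 ≤ ∑ j, w j * (-1) ^ ArithmeticFunction.cardFactors (a j * n + b j))).card : ℝ) := by
  obtain ⟨ε1, δ, hε1, hδ, HS⟩ := half_space k
  obtain ⟨c, hc, HA⟩ := all_i k hk
  refine ⟨c, δ, hc, hδ, ?_⟩
  intro ε hε
  have hk0 : (0 : ℝ) < k := by exact_mod_cast hk
  obtain ⟨e, he⟩ : ∃ e : ℝ, e = min ε (min ε1 (1 / (2 * k * (k + 2)))) := ⟨_, rfl⟩
  have he0 : 0 < e := by
    rw [he]
    refine lt_min hε (lt_min hε1 (by positivity))
  have heε : e ≤ ε := by rw [he]; exact min_le_left _ _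
  have heε1 : e ≤ ε1 := by rw [he]; exact (min_le_right _ _).trans (min_le_left _ _)
  have hek : e * (2 * k * (k + 2)) ≤ 1 := by
    have : e ≤ 1 / (2 * k * (k + 2)) := by rw [he]; exact (min_le_right _ _).trans (min_le_right _ _)
    rwa [le_div_iff₀ (by positivity)] at this
  obtain ⟨K, hK, HB⟩ := HA e he0
  refine ⟨K, hK, fun a b ha hab => ?_⟩
  obtain ⟨X0, y0, H⟩ := HB a b ha hab
  refine ⟨X0 + (y0 + 1) ^ K + (∑ j, (a j + b j)) ^ K + 1, ?_⟩
  intro X hX
  obtain ⟨y, ⟨hy1, hy2⟩, hy⟩ := GG_eq a b (R := K) (X := X) hK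
  have hyy : y0 ≤ y := by
    by_contra h
    push Not at h
    have : (y + 1) ^ K ≤ (y0 + 1) ^ K := Nat.pow_le_pow_left (by omega) K
    omega
  obtain ⟨H1, H2⟩ := H X y (by omega) hyy hy1
  have hX1 : 1 ≤ X := by omega
  have hG : ∀ n ∈ GG a b K X, n ∈ Icc 1 X ∧ ∀ j, ∀ p : ℕ, p.Prime → p ∣ a j * n + b j → X < p ^ K := by
    intro n hn
    unfold GG at hn
    rw [mem_filter] at hn
    exact hn
  have hne : ∀ j, ∀ n ∈ GG a b K X, a j * n + b j ≠ 0 := by
    intro j n hn
    have h1 := (mem_Icc.1 (hG n hn).1).1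
    have h2 := ha j
    have : 1 * 1 ≤ a j * n := Nat.mul_le_mul h2 h1
    omega
  rw [← hy] at H1 H2
  set G := GG a b K X with hGdef
  have hG0 : (0 : ℝ) ≤ G.card := Nat.cast_nonneg _
  refine ⟨H1, ?_, ?_, ?_, ?_⟩
  · intro n hn j
    refine Om_le' (A := ∑ j, (a j + b j)) (X := X) (hne j n hn) (by omega) ?_ (fun p hp hd => (hG n hn).2 j p hp hd)
    have h1 := mem_Icc.1 (hG n hn).1
    have h2 : a j + b j ≤ ∑ j, (a j + b j) := single_le_sum (f := fun j => a j + b j) (fun _ _ => Nat.zero_le _) (mem_univ j)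
    calc a j * n + b j ≤ a j * X + b j * X := by
          apply Nat.add_le_add
          · exact Nat.mul_le_mul_left _ h1.2
          · exact Nat.le_mul_of_pos_right _ hX1
      _ = (a j + b j) * X := by ring
      _ ≤ _ := Nat.mul_le_mul_right _ h2
  · intro j
    have h1 := H2 j
    rw [odd_sum (hne j)] at h1
    have h3 := abs_le.1 h1
    have h4 : e * (G.card : ℝ) ≤ ε * G.card := mul_le_mul_of_nonneg_right heε hG0
    have h5 : 0 ≤ e * (G.card : ℝ) := by positivity
    rw [abs_le]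
    constructor <;> linarith
  · apply avg hk G (fun j n => Odd (ArithmeticFunction.cardFactors (a j * n + b j))) e hek
    intro j
    have h1 := H2 j
    rw [odd_sum (hne j)] at h1
    have h3 := abs_le.1 h1
    have h5 : 0 ≤ e * (G.card : ℝ) := by positivity
    linarith
  · intro w
    have h1 := HS G (fun n j => decide (Even (ArithmeticFunction.cardFactors (a j * n + b j)))) (fun j => by
      have h2 : ∑ n ∈ G, sg (fun j => decide (Even (ArithmeticFunction.cardFactors (a j * n + b j)))) j =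
          ∑ n ∈ G, la (a j * n + b j) := by
        apply sum_congr rfl
        intro n hn
        rw [la_eq (hne j n hn)]
        unfold sg
        simp only [decide_eq_true_eq]
        split_ifs with h
        · rw [h.neg_one_pow]
        · rw [Nat.not_even_iff_odd] at h
          rw [h.neg_one_pow]
      rw [h2]
      exact (H2 j).trans (mul_le_mul_of_nonneg_right heε1 hG0)) w
    refine h1.trans (le_of_eq ?_)
    congr 2
    apply filter_congr
    intro n hn
    have h3 : ∑ j, w j * sg (fun j => decide (Even (ArithmeticFunction.cardFactors (a j * n + b j)))) j =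
        ∑ j, w j * (-1) ^ ArithmeticFunction.cardFactors (a j * n + b j) := by
      apply sum_congr rfl
      intro j _
      congr 1
      unfold sg
      simp only [decide_eq_true_eq]
      split_ifs with h
      · rw [h.neg_one_pow]
      · rw [Nat.not_even_iff_odd] at h
        rw [h.neg_one_pow]
    rw [h3]

end Pool.Agent.H530.Ha
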