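import Pool.Agent.H530.HaK

/-! Exact patterns in windows. -/

set_option autoImplicit false

namespace Pool.Agent.H530.Ha

open Finset Filter

/-- `S` is admissible -/
def AdmS (S : Finset ℕ) : Prop := ∀ q : ℕ, q.Prime → ∃ a : ℕ, ∀ s ∈ S, ¬ q ∣ a + s

/-- distinct primes beyond a bound, one for each index below `y` -/
lemma exists_primes (y : ℕ) : ∃ p : ℕ → ℕ, (∀ i, (p i).Prime ∧ y < p i) ∧ Function.Injective p := by
  have h0 : ∀ i, y < Nat.nth Nat.Prime (y + 1 + i) := by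
    intro i
    have h1 : y + 1 + i + 2 ≤ Nat.nth Nat.Prime (y + 1 + i) := Nat.add_two_le_nth_prime _
    omega
  refine ⟨fun i => Nat.nth Nat.Prime (y + 1 + i), fun i => ⟨Nat.prime_nth_prime _, h0 i⟩, ?_⟩
  · intro i j h
    have := Nat.nth_injective Nat.infinite_setOf_prime h
    omega

open Classical in
/-- the choice of the progression -/
lemma prog {y : ℕ} {S : Finset ℕ} (hS : S ⊆ range y) (hadm : AdmS S) :
    ∃ Q n0 : ℕ, 1 ≤ Q ∧ (∀ p : ℕ, p.Prime → ∃ n : ℕ, ∀ s ∈ S, ¬ p ∣ Q * n + (n0 + s)) ∧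
      ∀ i < y, i ∉ S → ∃ p : ℕ, p.Prime ∧ p ≤ Q ∧ ∀ n, p ∣ Q * n + n0 + i := by
  obtain ⟨p, hp, hinj⟩ := exists_primes y
  obtain ⟨I, hI⟩ : ∃ I : Finset ℕ, I = (range y) \ S := ⟨_, rfl⟩
  have hcop : (I : Set ℕ).Pairwise (Function.onFun Nat.Coprime p) := by
    intro i _ j _ hij
    exact (Nat.coprime_primes (hp i).1 (hp j).1).2 fun h => hij (hinj h)
  -- `n0 ≡ -i` modulo `p i`
  obtain ⟨n0, hn0⟩ : ∃ n0 : ℕ, ∀ i ∈ I, n0 ≡ p i * y - i [MOD p i] := by
    have := (Nat.chineseRemainderOfFinset (fun i => p i * y - i) p I (fun i _ => (hp i).1.ne_zero) hcop).2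
    exact ⟨_, this⟩
  obtain ⟨Q, hQ⟩ : ∃ Q : ℕ, Q = ∏ i ∈ I, p i := ⟨_, rfl⟩
  have hQ1 : 1 ≤ Q := by
    rw [hQ]
    exact Nat.pos_of_ne_zero (prod_ne_zero_iff.2 fun i _ => (hp i).1.ne_zero)
  have hdiv : ∀ i ∈ I, ∀ n, p i ∣ Q * n + n0 + i := by
    intro i hi n
    have h1 : p i ∣ Q * n := (by rw [hQ]; exact (dvd_prod_of_mem _ hi).mul_right n)
    have h2 : p i ∣ n0 + i := by
      have h3 : n0 + i ≡ p i * y - i + i [MOD p i] := (hn0 i hi).add_right i
      have hiy : i ≤ p i * y := by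
        rw [hI, Finset.mem_sdiff, mem_range] at hi
        exact hi.1.le.trans (Nat.le_mul_of_pos_left _ (hp i).1.pos)
      rw [Nat.sub_add_cancel hiy] at h3
      exact (Nat.modEq_zero_iff_dvd.1 (h3.trans (Nat.modEq_zero_iff_dvd.2 (dvd_mul_right _ _))))
    rw [add_assoc]
    exact dvd_add h1 h2
  refine ⟨Q, n0, hQ1, ?_, ?_⟩
  · intro q hq
    by_cases h : q ∣ Q
    · -- `q = p i`
      rw [hQ] at h
      obtain ⟨i, hi, hd⟩ := (Prime.dvd_finsetProd_iff hq.prime _).1 h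
      have hqi : q = p i := (Nat.prime_dvd_prime_iff_eq hq (hp i).1).1 hd
      refine ⟨0, fun s hs hds => ?_⟩
      have h1 := hdiv i hi 0
      rw [hqi] at hds
      rw [mul_zero, zero_add] at hds h1
      have hiy : i < y := by
        rw [hI, Finset.mem_sdiff, mem_range] at hi
        exact hi.1
      have hsy : s < y := mem_range.1 (hS hs)
      have hne : s ≠ i := by
        intro h2
        rw [hI, Finset.mem_sdiff] at hi
        exact hi.2 (h2 ▸ hs)
      have hpy := (hp i).2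
      rcases Nat.lt_or_gt_of_ne hne with h3 | h3
      · have h4 : p i ∣ (n0 + i) - (n0 + s) := Nat.dvd_sub h1 hds
        have h5 := Nat.le_of_dvd (by omega) h4
        omega
      · have h4 : p i ∣ (n0 + s) - (n0 + i) := Nat.dvd_sub hds h1
        have h5 := Nat.le_of_dvd (by omega) h4
        omega
    · obtain ⟨a, ha⟩ := hadm q hq
      have hcq : Nat.Coprime Q q := ((Nat.Prime.coprime_iff_not_dvd hq).2 h).symm
      -- `n` with `Q n + n0 ≡ a`
      have : NeZero q := ⟨hq.ne_zero⟩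
      obtain ⟨u, hu⟩ : ∃ u : ZMod q, (Q : ZMod q) * u = 1 :=
        ⟨((ZMod.unitOfCoprime Q hcq)⁻¹ : (ZMod q)ˣ), by
          have := Units.mul_inv (ZMod.unitOfCoprime Q hcq)
          rwa [ZMod.coe_unitOfCoprime] at this⟩
      refine ⟨(u * ((a : ZMod q) - n0)).val, fun s hs hds => ha s hs ?_⟩
      rw [← ZMod.natCast_eq_zero_iff] at hds ⊢
      push_cast at hds ⊢
      rw [ZMod.natCast_zmod_val, ← mul_assoc, hu, one_mul] at hds
      linear_combination hds
  · intro i hi hiS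
    have hiI : i ∈ I := by
      rw [hI, Finset.mem_sdiff, mem_range]
      exact ⟨hi, hiS⟩
    refine ⟨p i, (hp i).1, ?_, fun n => hdiv i hiI n⟩
    apply Nat.le_of_dvd hQ1
    rw [hQ]
    exact dvd_prod_of_mem _ hiI

open Classical in
/-- the windows -/
noncomputable def Wn (y : ℕ) (S : Finset ℕ) (w : ℕ → ℝ) (R N : ℕ) : Finset ℕ :=
  (Icc 1 N).filter (fun n => (∀ i < y, (∀ p : ℕ, p.Prime → p ∣ n + i → N < p ^ R) ↔ i ∈ S) ∧
    (∀ s ∈ S, ArithmeticFunction.cardFactors (n + s) ≤ R) ∧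
    0 ≤ ∑ s ∈ S, w s * (-1) ^ ArithmeticFunction.cardFactors (n + s))

theorem windows (y : ℕ) (S : Finset ℕ) (hS : S ⊆ range y) (hadm : AdmS S) (hne : S.Nonempty) :
    ∃ (R N0 : ℕ) (c : ℝ), 0 < c ∧ ∀ N : ℕ, N0 ≤ N → ∀ w : ℕ → ℝ,
      c * (N / Real.log N ^ S.card) ≤ ((Wn y S w R N).card : ℝ) := by
  classical
  obtain ⟨Q, n0, hQ, hA, hsm⟩ := prog hS hadm
  obtain ⟨k, hk⟩ : ∃ k : ℕ, k = S.card := ⟨_, rfl⟩
  have hk1 : 1 ≤ k := by rw [hk]; exact card_pos.2 hne
  obtain ⟨f⟩ : Nonempty (Fin k ≃ S) := ⟨(S.equivFinOfCardEq hk.symm).symm⟩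
  obtain ⟨c, δ, hc, hδ, H⟩ := systems k hk1
  obtain ⟨R, hR, H'⟩ := H (1 / 2) (by norm_num)
  obtain ⟨X0, HX⟩ := H' (fun _ => Q) (fun j => n0 + (f j : ℕ)) (fun _ => hQ) (fun p hp => by
    obtain ⟨n, hn⟩ := hA p hp
    exact ⟨n, fun ⟨j, hj⟩ => hn _ (f j).2 hj⟩)
  -- parameters
  obtain ⟨N1, hN1⟩ : ∃ N1 : ℕ, N1 = max (2 * Q * (X0 + 3) + 2 * n0) (max ((4 * Q + 2 * n0 + 1) ^ 2) (Q ^ (2 * R) + 1)) := ⟨_, rfl⟩
  refine ⟨2 * R, N1, δ * (c / (4 * Q)), by positivity, ?_⟩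
  intro N hN w
  have g1 : 2 * Q * (X0 + 3) + 2 * n0 ≤ N := le_trans (by rw [hN1]; exact le_max_left _ _) hN
  have g2 : (4 * Q + 2 * n0 + 1) ^ 2 ≤ N :=
    le_trans (by rw [hN1]; exact (le_max_left _ _).trans (le_max_right _ _)) hN
  have g3 : Q ^ (2 * R) + 1 ≤ N := le_trans (by rw [hN1]; exact (le_max_right _ _).trans (le_max_right _ _)) hN
  obtain ⟨X, hX⟩ : ∃ X : ℕ, X = (N - n0) / Q := ⟨_, rfl⟩
  have hXN : Q * X + n0 ≤ N := by
    have := Nat.mul_div_le (N - n0) Q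
    rw [← hX] at this
    have : n0 ≤ N := by omega
    omega
  have hXN' : N < Q * (X + 1) + n0 := by
    have := Nat.lt_mul_div_succ (N - n0) (show 0 < Q by omega)
    rw [← hX] at this
    omega
  have hX0 : X0 + 2 ≤ X := by
    by_contra h
    push Not at h
    have h1 : Q * (X + 1) ≤ Q * (X0 + 2) := Nat.mul_le_mul_left _ (by omega)
    nlinarith
  have hN4 : (N : ℝ) ≤ 4 * Q * X := by
    have h1 : N ≤ 2 * (Q * (X + 1)) := by nlinarith
    have h2 : Q * (X + 1) ≤ 2 * (Q * X) := by nlinarith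
    have h3 : N ≤ 4 * Q * X := by nlinarith
    exact_mod_cast h3
  have hXX : N ≤ X ^ 2 := by
    -- `N ≤ 4 Q X`, and `X ≥ 4 Q`
    have h3 : N ≤ 4 * Q * X := by exact_mod_cast hN4
    have h4 : 4 * Q ≤ X := by
      by_contra h
      push Not at h
      have h5 : N ≤ 4 * Q * (4 * Q) := h3.trans (Nat.mul_le_mul_left _ h.le)
      nlinarith
    calc N ≤ 4 * Q * X := h3
      _ ≤ X * X := Nat.mul_le_mul_right _ h4
      _ = X ^ 2 := (sq X).symm
  obtain ⟨h1, h2, -, -, h5⟩ := HX X (by omega)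
  set G := GG (fun _ => Q) (fun j => n0 + (f j : ℕ)) R X with hG
  have h6 := h5 (fun j => w (f j))
  set G' := G.filter (fun n => 0 ≤ ∑ j, w (f j) * (-1) ^ ArithmeticFunction.cardFactors (Q * n + (n0 + (f j : ℕ)))) with hG'
  -- the injection
  have hinj : Set.InjOn (fun n => Q * n + n0) (G' : Set ℕ) := by
    intro m _ n _ h
    have h7 : Q * m + n0 = Q * n + n0 := h
    exact Nat.eq_of_mul_eq_mul_left (show 0 < Q by omega) (by omega)
  have hsub : G'.image (fun n => Q * n + n0) ⊆ Wn y S w (2 * R) N := by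
    intro m hm
    obtain ⟨n, hn, rfl⟩ := mem_image.1 hm
    rw [hG', mem_filter] at hn
    obtain ⟨hn1, hn2⟩ := hn
    have hn3 : n ∈ Icc 1 X ∧ ∀ j, ∀ p : ℕ, p.Prime → p ∣ Q * n + (n0 + (f j : ℕ)) → X < p ^ R := by
      rw [hG] at hn1
      unfold GG at hn1
      rw [mem_filter] at hn1
      exact hn1
    have hnI := mem_Icc.1 hn3.1
    rw [Wn, mem_filter, mem_Icc]
    refine ⟨⟨?_, ?_⟩, ?_, ?_, ?_⟩
    · show 1 ≤ Q * n + n0
      have : 1 ≤ Q * n := Nat.mul_pos hQ hnI.1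
      omega
    · show Q * n + n0 ≤ N
      have : Q * n ≤ Q * X := Nat.mul_le_mul_left _ hnI.2
      omega
    · intro i hi
      constructor
      · intro h7
        by_contra hiS
        obtain ⟨p, hp, hpQ, hd⟩ := hsm i hi hiS
        have h8 := h7 p hp (hd n)
        have h9 : p ^ (2 * R) ≤ Q ^ (2 * R) := Nat.pow_le_pow_left hpQ _
        omega
      · intro hiS p hp hd
        have h8 := hn3.2 (f.symm ⟨i, hiS⟩) p hp (by
          rw [Equiv.apply_symm_apply]
          simpa [add_assoc] using hd)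
        calc N ≤ X ^ 2 := hXX
          _ < (p ^ R) ^ 2 := Nat.pow_lt_pow_left h8 (by norm_num)
          _ = p ^ (2 * R) := by rw [← pow_mul, mul_comm]
    · intro s hs
      have h8 := h2 n hn1 (f.symm ⟨s, hs⟩)
      rw [Equiv.apply_symm_apply] at h8
      have h9 : Q * n + n0 + s = Q * n + (n0 + s) := by ring
      rw [h9]
      exact h8.trans (by omega)
    · have h8 : ∑ s ∈ S, w s * (-1) ^ ArithmeticFunction.cardFactors (Q * n + n0 + s) =
          ∑ j, w (f j) * (-1) ^ ArithmeticFunction.cardFactors (Q * n + (n0 + (f j : ℕ))) := by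
        rw [← sum_coe_sort S (fun s => w s * (-1 : ℝ) ^ ArithmeticFunction.cardFactors (Q * n + n0 + s))]
        rw [← Equiv.sum_comp f]
        simp only [add_assoc]
      rw [h8]
      exact hn2
  have hcard : (G'.card : ℝ) ≤ ((Wn y S w (2 * R) N).card : ℝ) := by
    have := card_le_card hsub
    rw [card_image_of_injOn hinj] at this
    exact_mod_cast this
  refine le_trans ?_ hcard
  refine le_trans ?_ h6
  rw [mul_assoc]
  apply mul_le_mul_of_nonneg_left _ hδ.le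
  refine le_trans ?_ h1
  rw [← hk]
  have hX2 : (2 : ℝ) ≤ X := by exact_mod_cast (by omega : 2 ≤ X)
  have hlX : 0 < Real.log X := Real.log_pos (by linarith)
  have hlN : Real.log X ≤ Real.log N := by
    apply Real.log_le_log (by linarith)
    have : X ≤ N := by nlinarith
    exact_mod_cast this
  have hlN0 : 0 < Real.log N := hlX.trans_le hlN
  have hQ0 : (0 : ℝ) < Q := by exact_mod_cast (by omega : 0 < Q)
  have e1 : c / (4 * Q) * (N / Real.log N ^ k) ≤ c / (4 * Q) * (4 * Q * X / Real.log N ^ k) := by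
    apply mul_le_mul_of_nonneg_left _ (by positivity)
    exact div_le_div_of_nonneg_right hN4 (by positivity)
  refine e1.trans ?_
  have e2 : c / (4 * Q) * (4 * Q * X / Real.log N ^ k) = c * (X / Real.log N ^ k) := by
    field_simp
  rw [e2]
  apply mul_le_mul_of_nonneg_left _ hc.le
  apply div_le_div_of_nonneg_left (by positivity) (by positivity)
  exact pow_le_pow_left₀ hlX.le hlN k

end Pool.Agent.H530.Ha
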