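import Pool.Agent.H530.HaK
import Pool.Graph.R_seed8.Y843.HS.Top

/-! Progressions in dense sets of almost prime values of systems of linear forms. -/

set_option autoImplicit false

namespace Pool.Agent.H530.Ha

open Finset Pool.Agent.H373R2.T7 Filter

open Classical in
/-- balanced parity, with all large `R` -/
theorem systems' (k : ℕ) (hk : 1 ≤ k) : ∃ c : ℝ, 0 < c ∧ ∀ ε : ℝ, 0 < ε → ∃ K : ℕ, 1 ≤ K ∧ ∀ R : ℕ, K ≤ R →
    ∀ a b : Fin k → ℕ, (∀ j, 1 ≤ a j) → Adm a b → ∃ X0 : ℕ, ∀ X : ℕ, X0 ≤ X →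
      c * (X / Real.log X ^ k) ≤ ((GG a b R X).card : ℝ) ∧
      (∀ n ∈ GG a b R X, ∀ j, ArithmeticFunction.cardFactors (a j * n + b j) ≤ R) ∧
      ∀ j, |(((GG a b R X).filter (fun n => Odd (ArithmeticFunction.cardFactors (a j * n + b j)))).card : ℝ) -
        (1 / 2 : ℝ) * (GG a b R X).card| ≤ ε * (GG a b R X).card := by
  obtain ⟨c, hc, HA⟩ := all_i k hk
  refine ⟨c, hc, fun ε hε => ?_⟩
  obtain ⟨K, hK, HB⟩ := HA ε hε
  refine ⟨K, hK, fun R hR a b ha hab => ?_⟩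
  obtain ⟨X0, y0, H⟩ := HB a b ha hab
  have hR1 : 1 ≤ R := hK.trans hR
  refine ⟨X0 + (y0 + 2) ^ R + (∑ j, (a j + b j)) ^ R + 1, ?_⟩
  intro X hX
  obtain ⟨y, ⟨hy1, hy2⟩, hy⟩ := GG_eq a b (R := R) (X := X) hR1
  have hyy : y0 + 1 ≤ y := by
    by_contra h
    push Not at h
    have : (y + 1) ^ R ≤ (y0 + 2) ^ R := Nat.pow_le_pow_left (by omega) R
    omega
  obtain ⟨H1, H2⟩ := H X y (by omega) (by omega) ((Nat.pow_le_pow_right (by omega) hR).trans hy1)
  have hX1 : 1 ≤ X := by omega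
  have hG : ∀ n ∈ GG a b R X, n ∈ Icc 1 X ∧ ∀ j, ∀ p : ℕ, p.Prime → p ∣ a j * n + b j → X < p ^ R := by
    intro n hn
    unfold GG at hn
    rw [mem_filter] at hn
    exact hn
  have hne : ∀ j, ∀ n ∈ GG a b R X, a j * n + b j ≠ 0 := by
    intro j n hn
    have h1 := (mem_Icc.1 (hG n hn).1).1
    have h2 := ha j
    have : 1 * 1 ≤ a j * n := Nat.mul_le_mul h2 h1
    omega
  rw [← hy] at H1 H2
  set G := GG a b R X with hGdef
  have hG0 : (0 : ℝ) ≤ G.card := Nat.cast_nonneg _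
  refine ⟨H1, ?_, ?_⟩
  · intro n hn j
    refine Om_le' (A := ∑ j, (a j + b j)) (X := X) (hne j n hn) (by omega) ?_ (fun p hp hd => (hG n hn).2 j p hp hd)
    have h1 := mem_Icc.1 (hG n hn).1
    have h2 : a j + b j ≤ ∑ j, (a j + b j) := single_le_sum (f := fun j => a j + b j) (fun _ _ => Nat.zero_le _) (mem_univ j)
    calc a j * n + b j ≤ a j * X + b j * X := by
          apply Nat.add_le_add
          · exact Nat.mul_le_mul_left _ h1.2
          · exact Nat.le_mul_of_pos_right _ hX1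
      _ = (a j + b j) * X := by ring
      _ ≤ _ := Nat.mul_le_mul_right _ h2
  · intro j
    have h1 := H2 j
    rw [odd_sum (hne j)] at h1
    have h3 := abs_le.1 h1
    have h5 : 0 ≤ ε * (G.card : ℝ) := by positivity
    rw [abs_le]
    constructor <;> linarith

open Classical in
/-- the exact order of the number of elements -/
lemma low2 (k : ℕ) (hk : 1 ≤ k) : ∃ K x0 : ℕ, 1 ≤ K ∧ ∀ a b : Fin k → ℕ, Adm a b → ∀ X y : ℕ, x0 ≤ y → y ^ K ≤ X →
    (1 / 4 : ℝ) * (X * ∏ p ∈ pz y, (1 - (nuB (QQ a b) p : ℝ) / p)) ≤ ((RR a b X y).card : ℝ) := by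
  obtain ⟨K2, x2, hK2, H2⟩ := sys_fund k hk (1 / 2) (by norm_num)
  obtain ⟨c1, hc1, H3⟩ := prod_low k
  obtain ⟨X4, hX4⟩ := ev_log' k (4 / c1)
  refine ⟨K2, x2 + X4 + 3, hK2, ?_⟩
  intro a b hab X y hy hyX
  have hyX1 : y ≤ X := (Nat.le_self_pow (by omega) y).trans hyX
  have hXp : (0 : ℝ) < X := by exact_mod_cast (by omega : 0 < X)
  have h4 := hX4 X (by omega)
  have h2 := H2 X y (by omega) hyX (QQ a b) (perB hab) X
  have h3 := H3 a b hab y (by omega)
  set Pi0 := ∏ p ∈ pz y, (1 - (nuB (QQ a b) p : ℝ) / p) with hPi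
  have hly : Real.log y ≤ Real.log X := by
    apply Real.log_le_log
    · exact_mod_cast (by omega : 0 < y)
    · exact_mod_cast hyX1
  have hly0 : 0 < Real.log y := Real.log_pos (by exact_mod_cast (by omega : 1 < y))
  have hL0 : 0 < Real.log X := hly0.trans_le hly
  have hPi1 : c1 / Real.log X ^ k ≤ Pi0 := by
    refine le_trans ?_ h3
    apply div_le_div_of_nonneg_left hc1.le (by positivity)
    exact pow_le_pow_left₀ hly0.le hly k
  have e1 := (abs_le.1 h2).1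
  have e2 : (X : ℝ) * (c1 / Real.log X ^ k) ≤ X * Pi0 := mul_le_mul_of_nonneg_left hPi1 hXp.le
  have e3 : √(X : ℝ) * (4 / c1 * Real.log X ^ k) ≤ √X * √X := mul_le_mul_of_nonneg_left h4 (Real.sqrt_nonneg _)
  rw [Real.mul_self_sqrt hXp.le] at e3
  have e4 : √(X : ℝ) ≤ (1 / 4) * (X * (c1 / Real.log X ^ k)) := by
    have h6 : (0 : ℝ) < 4 / c1 * Real.log X ^ k := by positivity
    have : √(X : ℝ) ≤ X / (4 / c1 * Real.log X ^ k) := by rwa [le_div_iff₀ h6]
    refine this.trans (le_of_eq ?_)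
    field_simp
  have e6 : ((RR a b X y).card : ℝ) = (((Icc 1 X).filter (fun n : ℕ => ∀ p ∈ pz y, ¬ QQ a b p n)).card : ℕ) := by
    rw [RR]
  rw [e6]
  linarith

/-- Szemerédi's theorem relative to the almost prime values of a system -/
theorem szem (k : ℕ) (hk : 1 ≤ k) : ∃ K : ℕ, 1 ≤ K ∧ ∀ R : ℕ, K ≤ R → ∀ (m : ℕ) (ρ : ℝ), 0 < ρ → ∃ B X0 : ℕ,
    ∀ a b : Fin k → ℕ, Adm a b → ∀ X : ℕ, X0 ≤ X → ∀ U : Finset ℕ, U ⊆ GG a b R X →
      ρ * ((GG a b R X).card : ℝ) ≤ (U.card : ℝ) →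
      ∃ n d : ℕ, 1 ≤ d ∧ (d : ℝ) ≤ Real.log X ^ B ∧ ∀ j < m, n + j * d ∈ U := by
  classical
  obtain ⟨K, x0, hK, HL⟩ := low2 k hk
  refine ⟨K, hK, fun R hR m ρ hρ => ?_⟩
  have hR1 : 1 ≤ R := hK.trans hR
  obtain ⟨B, X1, HF⟩ := Pool.Agent.Y843.HS.fin m k (1 / (R : ℝ)) (ρ / 4) (by positivity) (by positivity)
  refine ⟨B, X1 + (x0 + 2) ^ R + 1, ?_⟩
  intro a b hab X hX U hU hcard
  obtain ⟨y, ⟨hy1, hy2⟩, hy⟩ := GG_eq a b (R := R) (X := X) hR1
  have hyy : x0 + 1 ≤ y := by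
    by_contra h
    push Not at h
    have : (y + 1) ^ R ≤ (x0 + 2) ^ R := Nat.pow_le_pow_left (by omega) R
    omega
  have h1 := HL a b hab X y (by omega) ((Nat.pow_le_pow_right (by omega) hR).trans hy1)
  rw [← hy] at h1
  have hR0 : (0 : ℝ) < R := by exact_mod_cast hR1
  have hfl : ⌊(X : ℝ) ^ (1 / (R : ℝ))⌋₊ = y := by
    rw [Nat.floor_eq_iff (by positivity)]
    constructor
    · have h2 : ((y : ℝ) ^ R) ^ (1 / (R : ℝ)) ≤ (X : ℝ) ^ (1 / (R : ℝ)) := by
        apply Real.rpow_le_rpow (by positivity) (by exact_mod_cast hy1) (by positivity)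
      rw [one_div] at h2 ⊢
      rwa [Real.pow_rpow_inv_natCast (by positivity) (by omega)] at h2
    · have h2 : (X : ℝ) ^ (1 / (R : ℝ)) < (((y : ℝ) + 1) ^ R) ^ (1 / (R : ℝ)) := by
        apply Real.rpow_lt_rpow (by positivity) (by exact_mod_cast hy2) (by positivity)
      rw [one_div] at h2 ⊢
      rwa [Real.pow_rpow_inv_natCast (by positivity) (by omega)] at h2
  obtain ⟨n, d, hd1, hd2, hd3⟩ := HF X 0 (by omega) (fun p => (range p).filter (fun c => QQ a b p c))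
    (fun p hp _ => ⟨nuB_le_k hab hp, by have := nuB_lt hab hp; unfold nuB at this; omega, fun c hc => mem_range.1 (mem_filter.1 hc).1⟩)
    U (by
      intro n hn
      have := hU hn
      unfold GG at this
      rw [mem_filter, mem_Icc] at this
      rw [mem_Ioc]
      omega)
    (by
      intro n hn p hp hpx hc
      have h2 : n ∈ RR a b X y := by rw [← hy]; exact hU hn
      rw [RR, mem_filter] at h2
      have hpy : p ≤ y := by
        rw [← hfl]
        exact Nat.le_floor hpx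
      apply h2.2 p (mem_pz.2 ⟨hpy, hp⟩)
      exact (QQ_per a b p n).2 (mem_filter.1 hc).2)
    (by
      rw [hfl]
      have h3 : Pool.Agent.Y843.HS.VV (fun p => (range p).filter (fun c => QQ a b p c)) 0 y =
          ∏ p ∈ pz y, (1 - (nuB (QQ a b) p : ℝ) / p) := by
        unfold Pool.Agent.Y843.HS.VV
        have h4 : Pool.Agent.Y843.HS.Pr 0 y = pz y := by
          ext p
          unfold Pool.Agent.Y843.HS.Pr pz
          rw [mem_filter, mem_filter, mem_Ioc, mem_Icc]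
          constructor
          · rintro ⟨⟨h5, h6⟩, h7⟩
            exact ⟨⟨by omega, h6⟩, h7⟩
          · rintro ⟨⟨h5, h6⟩, h7⟩
            exact ⟨⟨by omega, h6⟩, h7⟩
        rw [h4]
        rfl
      rw [h3]
      refine le_trans ?_ hcard
      calc ρ / 4 * X * ∏ p ∈ pz y, (1 - (nuB (QQ a b) p : ℝ) / p)
          = ρ * ((1 / 4 : ℝ) * (X * ∏ p ∈ pz y, (1 - (nuB (QQ a b) p : ℝ) / p))) := by ring
        _ ≤ _ := mul_le_mul_of_nonneg_left h1 hρ.le)
  exact ⟨n, d, hd1, hd2, hd3⟩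

end Pool.Agent.H530.Ha
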