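import Pool.Agent.H530.HaM

/-! Most `k`-tuples of members of a balanced system: the averaging. -/

set_option autoImplicit false

namespace Pool.Agent.H530.Ha

open Finset Filter

open Classical in
lemma avg_k {K k : ℕ} (G : Finset ℕ) (hG : 0 < G.card) (u : Fin K → ℕ → Prop)
    (t : ℝ) (ht0 : 0 ≤ t) (ht1 : t ≤ 1 / 2)
    (h : ∀ i, |((G.filter (fun n => u i n)).card : ℝ) - (1 / 2 : ℝ) * G.card| ≤ t * G.card) :
    (((1 / 2 - t) ^ (k + 1) - t) / (1 / 2 + t)) * (K : ℝ) ^ (k + 1) ≤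
      ((univ.filter (fun f : Fin (k + 1) → Fin K =>
        t * (G.card : ℝ) ≤ ((G.filter (fun n => ∀ i, u (f i) n)).card : ℝ))).card : ℝ) := by
  set g : ℝ := (G.card : ℝ) with hg
  have hg0 : 0 < g := by
    rw [hg]
    exact Nat.cast_pos.2 hG
  set N : (Fin (k + 1) → Fin K) → ℝ := fun f => ((G.filter (fun n => ∀ i, u (f i) n)).card : ℝ) with hN
  set O : ℕ → ℝ := fun n => ((univ.filter (fun j : Fin K => u j n)).card : ℝ) with hO
  -- the sum over the maps
  have h1 : ∑ f, N f = ∑ n ∈ G, O n ^ (k + 1) := by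
    have h2 := sum_card_bipartiteAbove_eq_sum_card_bipartiteBelow (s := (univ : Finset (Fin (k + 1) → Fin K))) (t := G)
      (fun f n => ∀ i, u (f i) n)
    unfold bipartiteAbove bipartiteBelow at h2
    have h3 : ∀ n, (univ.filter (fun f : Fin (k + 1) → Fin K => ∀ i, u (f i) n)).card =
        (univ.filter (fun j : Fin K => u j n)).card ^ (k + 1) := by
      intro n
      rw [← Fintype.card_piFinset_const]
      congr 1
      ext f
      simp [Fintype.mem_piFinset]
    simp only [h3] at h2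
    simp only [hN, hO]
    exact_mod_cast h2
  have h4 : ∑ n ∈ G, O n = ∑ i : Fin K, ((G.filter (fun n => u i n)).card : ℝ) := by
    have h2 := sum_card_bipartiteAbove_eq_sum_card_bipartiteBelow (s := (univ : Finset (Fin K))) (t := G)
      (fun i n => u i n)
    unfold bipartiteAbove bipartiteBelow at h2
    simp only [hO]
    exact_mod_cast h2.symm
  have h5 : (K : ℝ) * ((1 / 2 - t) * g) ≤ ∑ n ∈ G, O n := by
    rw [h4]
    calc (K : ℝ) * ((1 / 2 - t) * g) = ∑ _i : Fin K, (1 / 2 - t) * g := by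
          rw [sum_const, card_univ, Fintype.card_fin, nsmul_eq_mul]
      _ ≤ _ := sum_le_sum fun i _ => by
          have := (abs_le.1 (h i)).1
          linarith
  have h6 : ((K : ℝ) * (1 / 2 - t)) ^ (k + 1) * g ≤ ∑ f, N f := by
    rw [h1]
    have h7 := pow_sum_div_card_le_sum_pow (s := G) (f := O) (fun n _ => Nat.cast_nonneg _) k
    refine le_trans ?_ h7
    rw [le_div_iff₀ (by positivity)]
    calc ((K : ℝ) * (1 / 2 - t)) ^ (k + 1) * g * (G.card : ℝ) ^ k = ((K : ℝ) * ((1 / 2 - t) * g)) ^ (k + 1) := by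
          rw [← hg, show (K : ℝ) * ((1 / 2 - t) * g) = ((K : ℝ) * (1 / 2 - t)) * g by ring, mul_pow _ g, pow_succ g]
          ring
      _ ≤ (∑ n ∈ G, O n) ^ (k + 1) := by
          apply pow_le_pow_left₀ _ h5
          have : 0 ≤ 1 / 2 - t := by linarith
          positivity
  -- the upper bound
  set S := univ.filter (fun f : Fin (k + 1) → Fin K => t * g ≤ N f) with hS
  have h8 : ∑ f, N f ≤ S.card * ((1 / 2 + t) * g) + (K : ℝ) ^ (k + 1) * (t * g) := by
    have h9 : ∀ f, N f ≤ (if t * g ≤ N f then (1 / 2 + t) * g else 0) + t * g := by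
      intro f
      have h10 : N f ≤ (1 / 2 + t) * g := by
        have h11 : N f ≤ ((G.filter (fun n => u (f 0) n)).card : ℝ) := by
          simp only [hN]
          apply Nat.cast_le.2
          apply card_le_card
          intro n hn
          rw [mem_filter] at hn ⊢
          exact ⟨hn.1, hn.2 0⟩
        have := (abs_le.1 (h (f 0))).2
        linarith
      have h12 : 0 ≤ t * g := by positivity
      split_ifs with h13
      · linarith
      · push Not at h13
        linarith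
    calc ∑ f, N f ≤ ∑ f : Fin (k + 1) → Fin K, ((if t * g ≤ N f then (1 / 2 + t) * g else 0) + t * g) :=
          sum_le_sum fun f _ => h9 f
      _ = _ := by
          rw [sum_add_distrib, ← sum_filter, sum_const, sum_const, card_univ, Fintype.card_fun, Fintype.card_fin,
            Fintype.card_fin, nsmul_eq_mul, nsmul_eq_mul]
          push_cast
          rfl
  have h14 : ((K : ℝ) * (1 / 2 - t)) ^ (k + 1) * g ≤ (S.card * (1 / 2 + t) + (K : ℝ) ^ (k + 1) * t) * g := by
    refine h6.trans (h8.trans (le_of_eq (by ring)))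
  have h15 := le_of_mul_le_mul_right h14 hg0
  rw [div_mul_eq_mul_div, div_le_iff₀ (by linarith)]
  rw [mul_pow] at h15
  linarith

/-- the limit of the constant -/
lemma lim_c (k : ℕ) (ε : ℝ) (hε : 0 < ε) : ∃ t : ℝ, 0 < t ∧ t ≤ 1 / 4 ∧
    (1 / 2 : ℝ) ^ k - ε ≤ ((1 / 2 - t) ^ (k + 1) - t) / (1 / 2 + t) := by
  have hc : ContinuousAt (fun t : ℝ => ((1 / 2 - t) ^ (k + 1) - t) / (1 / 2 + t)) 0 := by
    apply ContinuousAt.div
    · fun_prop
    · fun_prop
    · norm_num
  have h0 : (fun t : ℝ => ((1 / 2 - t) ^ (k + 1) - t) / (1 / 2 + t)) 0 = (1 / 2 : ℝ) ^ k := by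
    simp only [sub_zero, add_zero]
    rw [pow_succ]
    field_simp
  have h1 : ∀ᶠ t in nhds (0 : ℝ), (1 / 2 : ℝ) ^ k - ε < ((1 / 2 - t) ^ (k + 1) - t) / (1 / 2 + t) := by
    apply hc.eventually (lt_mem_nhds _)
    rw [h0]
    linarith
  obtain ⟨r, hr, hr2⟩ := Metric.eventually_nhds_iff.1 h1
  refine ⟨min (r / 2) (1 / 4), by positivity, min_le_right _ _, ?_⟩
  apply (hr2 _).le
  rw [Real.dist_eq, sub_zero, abs_of_pos (by positivity)]
  exact (min_le_left _ _).trans_lt (by linarith)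

open Classical in
/-- the proportion of the `k`-tuples of members, with progressions -/
theorem tuples (k K : ℕ) (hK : 1 ≤ K) (ε : ℝ) (hε : 0 < ε) : ∃ (R : ℕ) (c : ℝ), 1 ≤ R ∧ 0 < c ∧
    ∀ m : ℕ, ∃ B : ℕ, ∀ a b : Fin K → ℕ, (∀ j, 1 ≤ a j) → Adm a b → ∃ X0 : ℕ, ∀ X : ℕ, X0 ≤ X →
      (∀ n ∈ GG a b R X, ∀ j, ArithmeticFunction.cardFactors (a j * n + b j) ≤ R) ∧
      ((1 / 2 : ℝ) ^ k - ε) * (K : ℝ) ^ (k + 1) ≤
      ((univ.filter (fun f : Fin (k + 1) → Fin K =>
        c * (X / Real.log X ^ K) ≤ (((GG a b R X).filter (fun n => ∀ i,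
          Odd (ArithmeticFunction.cardFactors (a (f i) * n + b (f i))))).card : ℝ) ∧
        ∃ n d : ℕ, 1 ≤ d ∧ (d : ℝ) ≤ Real.log X ^ B ∧ ∀ j < m, n + j * d ∈ (GG a b R X).filter (fun n => ∀ i,
          Odd (ArithmeticFunction.cardFactors (a (f i) * n + b (f i)))))).card : ℝ) := by
  obtain ⟨t, ht0, ht1, ht⟩ := lim_c k ε hε
  obtain ⟨c, hc, HA⟩ := systems' K hK
  obtain ⟨K1, hK1, HB⟩ := HA t ht0
  obtain ⟨K2, hK2, HC⟩ := szem K hK
  refine ⟨K1 + K2, t * c, by omega, by positivity, fun m => ?_⟩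
  obtain ⟨B, X2, HD⟩ := HC (K1 + K2) (by omega) m t ht0
  refine ⟨B, fun a b ha hab => ?_⟩
  obtain ⟨X0, H⟩ := HB (K1 + K2) (by omega) a b ha hab
  refine ⟨X0 + X2 + 3, fun X hX => ?_⟩
  obtain ⟨h1, h2, h3⟩ := H X (by omega)
  refine ⟨h2, ?_⟩
  set G := GG a b (K1 + K2) X with hG
  have hX3 : (3 : ℝ) ≤ X := by exact_mod_cast (by omega : 3 ≤ X)
  have hlog : 0 < Real.log X := Real.log_pos (by linarith)
  have hGc : 0 < G.card := by
    have : (0 : ℝ) < G.card := lt_of_lt_of_le (by positivity) h1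
    exact_mod_cast this
  have h4 := avg_k (k := k) G hGc (fun j n => Odd (ArithmeticFunction.cardFactors (a j * n + b j))) t ht0.le (by linarith)
    (fun j => by convert h3 j)
  refine (mul_le_mul_of_nonneg_right ht (by positivity)).trans (h4.trans ?_)
  apply Nat.cast_le.2
  apply card_le_card
  intro f hf
  rw [mem_filter] at hf ⊢
  have hf2 : t * (G.card : ℝ) ≤ ((G.filter (fun n => ∀ i,
      Odd (ArithmeticFunction.cardFactors (a (f i) * n + b (f i))))).card : ℝ) := by
    convert hf.2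
  refine ⟨mem_univ _, ?_, ?_⟩
  · refine le_trans ?_ hf2
    calc t * c * (X / Real.log X ^ K) = t * (c * (X / Real.log X ^ K)) := by ring
      _ ≤ _ := mul_le_mul_of_nonneg_left h1 ht0.le
  · exact HD a b hab X (by omega) _ (filter_subset _ _) hf2

end Pool.Agent.H530.Ha
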