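import Pool.Agent.H530.HaN

/-! Differences of almost primes with an odd number of prime factors. -/

set_option autoImplicit false

namespace Pool.Agent.H530.Ha

open Finset Filter

/-- an odd number of prime factors, all of them larger than `m ^ (1 / R)` -/
def OA (R m : ℕ) : Prop := Odd (ArithmeticFunction.cardFactors m) ∧ ∀ p : ℕ, p.Prime → p ∣ m → m < p ^ R

/-- for every `l` there are arbitrarily large narrow progressions of `l` integers `n` such that `n` and
`n + h` are odd almost primes -/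
def PP (R h : ℕ) : Prop := ∀ l : ℕ, ∃ B : ℕ, ∀ N : ℕ, ∃ n d : ℕ, N ≤ n ∧ 1 ≤ d ∧ (d : ℝ) ≤ Real.log n ^ B ∧
  ∀ j < l, OA R (n + j * d) ∧ OA R (n + j * d + h)

lemma OA_of {R X m : ℕ} (ho : Odd (ArithmeticFunction.cardFactors m)) (h : ∀ p : ℕ, p.Prime → p ∣ m → X < p ^ R)
    (hm : m ≤ X ^ 2) : OA (2 * R) m := by
  refine ⟨ho, fun p hp hd => ?_⟩
  calc m ≤ X ^ 2 := hm
    _ < (p ^ R) ^ 2 := Nat.pow_lt_pow_left (h p hp hd) (by norm_num)
    _ = p ^ (2 * R) := by rw [← pow_mul, mul_comm]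

/-- the values are large -/
lemma large_of {R X m : ℕ} (ho : Odd (ArithmeticFunction.cardFactors m)) (h : ∀ p : ℕ, p.Prime → p ∣ m → X < p ^ R) :
    X < m ^ R := by
  have h1 : m ≠ 1 := by
    rintro rfl
    simp at ho
  have h0 : m ≠ 0 := by
    rintro rfl
    simp at ho
  obtain ⟨p, hp, hd⟩ := Nat.exists_prime_and_dvd h1
  exact (h p hp hd).trans_le (Nat.pow_le_pow_left (Nat.le_of_dvd (by omega) hd) R)

open Classical in
/-- one of the pairs of an admissible triple of shifts -/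
theorem diff3 : ∃ R : ℕ, 1 ≤ R ∧ ∀ s : Fin 3 → ℕ, StrictMono s → (∀ p : ℕ, p.Prime → ∃ n : ℕ, ∀ j, ¬ p ∣ n + s j) →
    ∃ i j : Fin 3, i < j ∧ PP R (s j - s i) := by
  obtain ⟨R, c, hR, hc, H⟩ := tuples 1 3 (by norm_num) (1 / 100) (by norm_num)
  refine ⟨2 * R, by omega, fun s hs hadm => ?_⟩
  by_contra hcon
  push Not at hcon
  have hA : Adm (fun _ => 1) s := by
    intro p hp
    obtain ⟨n, hn⟩ := hadm p hp
    refine ⟨n, fun ⟨j, hj⟩ => hn j ?_⟩
    simpa using hj
  -- the length which fails for all pairs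
  have h1 : ∀ i j : Fin 3, ∃ l : ℕ, i < j → ∀ B : ℕ, ∃ N : ℕ, ∀ n d : ℕ, N ≤ n → 1 ≤ d → (d : ℝ) ≤ Real.log n ^ B →
      ¬ ∀ t < l, OA (2 * R) (n + t * d) ∧ OA (2 * R) (n + t * d + (s j - s i)) := by
    intro i j
    by_cases hij : i < j
    · have := hcon i j hij
      unfold PP at this
      push Not at this
      obtain ⟨l, hl⟩ := this
      refine ⟨l, fun _ B => ?_⟩
      obtain ⟨N, hN⟩ := hl B
      refine ⟨N, fun n d h2 h3 h4 h5 => ?_⟩
      obtain ⟨t, ht, h6⟩ := hN n d h2 h3 h4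
      exact h6 (h5 t ht).1 (h5 t ht).2
    · exact ⟨0, fun h => absurd h hij⟩
  choose l hl using h1
  obtain ⟨L, hL⟩ : ∃ L : ℕ, ∀ i j, l i j ≤ L :=
    ⟨∑ i, ∑ j, l i j, fun i j => (single_le_sum (f := fun j => l i j) (fun _ _ => Nat.zero_le _) (mem_univ j)).trans
      (single_le_sum (f := fun i => ∑ j, l i j) (fun _ _ => Nat.zero_le _) (mem_univ i))⟩
  obtain ⟨B, HB⟩ := H L
  have h2 : ∀ i j : Fin 3, ∃ N : ℕ, i < j → ∀ n d : ℕ, N ≤ n → 1 ≤ d → (d : ℝ) ≤ Real.log n ^ (B + 1) →
      ¬ ∀ t < l i j, OA (2 * R) (n + t * d) ∧ OA (2 * R) (n + t * d + (s j - s i)) := by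
    intro i j
    by_cases hij : i < j
    · obtain ⟨N, hN⟩ := hl i j hij (B + 1)
      exact ⟨N, fun _ => hN⟩
    · exact ⟨0, fun h => absurd h hij⟩
  choose N hN using h2
  obtain ⟨N', hN'⟩ : ∃ N' : ℕ, ∀ i j, N i j ≤ N' :=
    ⟨∑ i, ∑ j, N i j, fun i j => (single_le_sum (f := fun j => N i j) (fun _ _ => Nat.zero_le _) (mem_univ j)).trans
      (single_le_sum (f := fun i => ∑ j, N i j) (fun _ _ => Nat.zero_le _) (mem_univ i))⟩
  obtain ⟨X0, HX⟩ := HB (fun _ => 1) s (fun _ => le_rfl) hA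
  -- a large `X`
  obtain ⟨x1, hx1⟩ := Pool.Agent.H373R2.T7.ev_L' ((R : ℝ) ^ B)
  obtain ⟨M, hM⟩ : ∃ M : ℕ, M = N' + x1 + s 0 + s 1 + s 2 + 3 := ⟨_, rfl⟩
  obtain ⟨X, hX⟩ : ∃ X : ℕ, X = X0 + (2 * M) ^ R := ⟨_, rfl⟩
  obtain ⟨-, H3⟩ := HX X (by omega)
  -- a map which is not constant
  have h4 : ∃ f : Fin 2 → Fin 3, f 0 ≠ f 1 ∧ ∃ n d : ℕ, 1 ≤ d ∧ (d : ℝ) ≤ Real.log X ^ B ∧ ∀ j < L, n + j * d ∈
      (GG (fun _ => 1) s R X).filter (fun n => ∀ i, Odd (ArithmeticFunction.cardFactors (1 * n + s (f i)))) := by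
    by_contra h5
    push Not at h5
    have h6 : ((1 / 2 : ℝ) ^ 1 - 1 / 100) * ((3 : ℕ) : ℝ) ^ (1 + 1) ≤ 3 := by
      refine H3.trans ?_
      have h7 : (univ.filter (fun f : Fin (1 + 1) → Fin 3 =>
        c * (X / Real.log X ^ 3) ≤ (((GG (fun _ => 1) s R X).filter (fun n => ∀ i,
          Odd (ArithmeticFunction.cardFactors (1 * n + s (f i))))).card : ℝ) ∧
        ∃ n d : ℕ, 1 ≤ d ∧ (d : ℝ) ≤ Real.log X ^ B ∧ ∀ j < L, n + j * d ∈ (GG (fun _ => 1) s R X).filter (fun n => ∀ i,
          Odd (ArithmeticFunction.cardFactors (1 * n + s (f i)))))).card ≤ 3 := by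
        calc _ ≤ (univ.image (fun i : Fin 3 => (fun _ : Fin (1 + 1) => i))).card := by
              apply card_le_card
              intro f hf
              rw [mem_filter] at hf
              obtain ⟨-, -, n, d, hd1, hd2, hd3⟩ := hf
              rw [mem_image]
              refine ⟨f 0, mem_univ _, ?_⟩
              by_contra h8
              have h9 : f 0 ≠ f 1 := by
                intro h10
                apply h8
                funext i
                fin_cases i
                · rfl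
                · exact h10
              obtain ⟨j, hj, h11⟩ := h5 f h9 n d hd1 hd2
              exact h11 (hd3 j hj)
          _ ≤ 3 := by
              refine card_image_le.trans ?_
              simp
      exact_mod_cast h7
    norm_num at h6
  obtain ⟨f, hf, n, d, hd1, hd2, hd3⟩ := h4
  -- the values
  have hval : ∀ t < L, ∀ i, Odd (ArithmeticFunction.cardFactors (n + t * d + s (f i))) ∧
      (∀ p : ℕ, p.Prime → p ∣ n + t * d + s (f i) → X < p ^ R) ∧ n + t * d + s (f i) ≤ X ^ 2 := by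
    intro t ht i
    have h5 := hd3 t ht
    rw [mem_filter] at h5
    obtain ⟨h6, h7⟩ := h5
    unfold GG at h6
    rw [mem_filter, mem_Icc] at h6
    refine ⟨by simpa using h7 i, fun p hp hd => h6.2 (f i) p hp (by simpa using hd), ?_⟩
    have h8 : s (f i) ≤ M := by
      have : ∀ j : Fin 3, s j ≤ M := by
        intro j
        fin_cases j
        · show s 0 ≤ M
          omega
        · show s 1 ≤ M
          omega
        · show s 2 ≤ M
          omega
      exact this _
    have h9 : 2 * M ≤ X := by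
      have : 2 * M ≤ (2 * M) ^ R := Nat.le_self_pow (by omega) _
      omega
    have h10 := h6.1.2
    nlinarith
  have hLpos : 1 ≤ L := by
    by_contra h5
    have hL0 : L = 0 := by omega
    have h6 : l 0 1 = 0 := by have := hL 0 1; omega
    have h7 := hN 0 1 (by decide) (N' + x1 + 3) 1 (by have := hN' 0 1; omega) le_rfl (by
      have h8 := hx1 (N' + x1 + 3) (by omega)
      have h9 : 1 ≤ Real.log ((N' + x1 + 3 : ℕ) : ℝ) := by
        refine le_trans ?_ h8
        have : (1 : ℝ) ≤ R := by exact_mod_cast hR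
        exact one_le_pow₀ this
      push_cast
      push_cast at h9
      exact one_le_pow₀ h9)
    apply h7
    intro t ht
    omega
  -- the pair
  have hpair : ∀ i j : Fin 3, i < j → (∀ t < L, OA (2 * R) (n + t * d + s i) ∧ OA (2 * R) (n + t * d + s j)) →
      X < (n + s i) ^ R → False := by
    intro i j hij h5 h6
    have hsij : s i < s j := hs hij
    have h7 : 2 * M < n + s i := by
      by_contra h8
      push Not at h8
      have := Nat.pow_le_pow_left h8 R
      omega
    have h8 : (d : ℝ) ≤ Real.log ((n + s i : ℕ) : ℝ) ^ (B + 1) := by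
      refine hd2.trans ?_
      have h9 : Real.log X ≤ R * Real.log ((n + s i : ℕ) : ℝ) := by
        rw [← Real.log_pow]
        apply Real.log_le_log
        · have : 1 ≤ (2 * M) ^ R := Nat.one_le_pow _ _ (by omega)
          exact_mod_cast (by omega : 0 < X)
        · exact_mod_cast h6.le
      have h10 : 0 ≤ Real.log X := Real.log_natCast_nonneg X
      have h11 := hx1 (n + s i) (by omega)
      have h12 : 0 ≤ Real.log ((n + s i : ℕ) : ℝ) := Real.log_natCast_nonneg _
      calc Real.log X ^ B ≤ (R * Real.log ((n + s i : ℕ) : ℝ)) ^ B := pow_le_pow_left₀ h10 h9 B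
        _ = R ^ B * Real.log ((n + s i : ℕ) : ℝ) ^ B := mul_pow _ _ _
        _ ≤ Real.log ((n + s i : ℕ) : ℝ) * Real.log ((n + s i : ℕ) : ℝ) ^ B :=
            mul_le_mul_of_nonneg_right h11 (by positivity)
        _ = _ := by rw [pow_succ]; ring
    apply hN i j hij (n + s i) d (by have := hN' i j; omega) hd1 h8
    intro t ht
    have h9 := h5 t (ht.trans_le (hL i j))
    have e1 : n + s i + t * d = n + t * d + s i := by ring
    have e2 : n + s i + t * d + (s j - s i) = n + t * d + s j := by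
      rw [e1]
      omega
    rw [e2, e1]
    exact h9
  have hOA : ∀ t < L, ∀ i, OA (2 * R) (n + t * d + s (f i)) := by
    intro t ht i
    obtain ⟨h5, h6, h7⟩ := hval t ht i
    exact OA_of h5 h6 h7
  have hlg : ∀ i, X < (n + s (f i)) ^ R := by
    intro i
    obtain ⟨h5, h6, -⟩ := hval 0 (by omega) i
    have := large_of h5 h6
    simpa using this
  rcases lt_or_gt_of_ne hf with h5 | h5
  · exact hpair (f 0) (f 1) h5 (fun t ht => ⟨hOA t ht 0, hOA t ht 1⟩) (hlg 0)
  · exact hpair (f 1) (f 0) h5 (fun t ht => ⟨hOA t ht 1, hOA t ht 0⟩) (hlg 1)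

end Pool.Agent.H530.Ha
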