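import Pool.Agent.H530.HaO

/-! Patterns of almost primes with an odd number of prime factors: bounded dilates. -/

set_option autoImplicit false

namespace Pool.Agent.H530.Ha

open Finset Filter

/-- a fixed pattern for all lengths -/
lemma pigeon {ι : Type*} [Fintype ι] [Nonempty ι] (T : ι → Finset ℕ) (hT : ∀ i, (T i).Nonempty) (R : ℕ) (hR : 1 ≤ R)
    (h : ∀ l : ℕ, ∃ B X0 : ℕ, ∀ X : ℕ, X0 ≤ X → ∃ (i : ι) (n d : ℕ), 1 ≤ d ∧ (d : ℝ) ≤ Real.log X ^ B ∧
      ∀ j < l, ∀ t ∈ T i, Odd (ArithmeticFunction.cardFactors (n + j * d + t)) ∧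
        (∀ p : ℕ, p.Prime → p ∣ n + j * d + t → X < p ^ R) ∧ n + j * d + t ≤ X ^ 2) :
    ∃ i, ∀ l : ℕ, ∃ B : ℕ, ∀ N : ℕ, ∃ n d : ℕ, N ≤ n ∧ 1 ≤ d ∧ (d : ℝ) ≤ Real.log n ^ B ∧
      ∀ j < l, ∀ t ∈ T i, OA (2 * R) (n + j * d + t) := by
  by_contra hcon
  push Not at hcon
  choose l hl using hcon
  obtain ⟨L, hL⟩ : ∃ L : ℕ, L = 1 + ∑ i, l i := ⟨_, rfl⟩
  have hL' : ∀ i, l i ≤ L := by
    intro i
    have := single_le_sum (f := l) (fun _ _ => Nat.zero_le _) (mem_univ i)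
    omega
  obtain ⟨B, X0, HB⟩ := h L
  choose N hN using fun i => hl i (B + 1)
  obtain ⟨N', hN'⟩ : ∃ N' : ℕ, N' = ∑ i, N i := ⟨_, rfl⟩
  have hNi : ∀ i, N i ≤ N' := by
    intro i
    rw [hN']
    exact single_le_sum (f := N) (fun _ _ => Nat.zero_le _) (mem_univ i)
  obtain ⟨S, hS⟩ : ∃ S : ℕ, S = ∑ i, ∑ t ∈ T i, t := ⟨_, rfl⟩
  have hSt : ∀ i, ∀ t ∈ T i, t ≤ S := by
    intro i t ht
    have h1 : t ≤ ∑ t ∈ T i, t := single_le_sum (f := fun t => t) (fun _ _ => Nat.zero_le _) ht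
    have h2 : ∑ t ∈ T i, t ≤ ∑ i, ∑ t ∈ T i, t :=
      single_le_sum (f := fun i => ∑ t ∈ T i, t) (fun _ _ => Nat.zero_le _) (mem_univ i)
    omega
  obtain ⟨x1, hx1⟩ := Pool.Agent.H373R2.T7.ev_L' ((2 * (R : ℝ)) ^ B)
  obtain ⟨M, hM⟩ : ∃ M : ℕ, M = N' + x1 + 2 * S + 3 := ⟨_, rfl⟩
  obtain ⟨i, n, d, hd1, hd2, hd3⟩ := HB (X0 + M ^ R) (by omega)
  obtain ⟨X, hX⟩ : ∃ X : ℕ, X = X0 + M ^ R := ⟨_, rfl⟩
  rw [← hX] at hd2 hd3
  obtain ⟨t0, ht0⟩ := hT i
  obtain ⟨h1, h2, -⟩ := hd3 0 (by omega) t0 ht0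
  have h3 := large_of h1 h2
  rw [zero_mul, add_zero] at h3
  have hMR : 1 ≤ M ^ R := Nat.one_le_pow _ _ (by omega)
  have h4 : M < n + t0 := by
    by_contra h8
    push Not at h8
    have := Nat.pow_le_pow_left h8 R
    omega
  have h5 := hSt i t0 ht0
  have h6 : n + t0 ≤ n ^ 2 := by nlinarith
  have h8 : (d : ℝ) ≤ Real.log (n : ℝ) ^ (B + 1) := by
    refine hd2.trans ?_
    have h9 : Real.log X ≤ 2 * R * Real.log (n : ℝ) := by
      have h10 : Real.log X ≤ Real.log ((n : ℝ) ^ (2 * R)) := by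
        apply Real.log_le_log
        · exact_mod_cast (by omega : 0 < X)
        · have h11 : X ≤ n ^ (2 * R) := by
            rw [pow_mul]
            exact h3.le.trans (Nat.pow_le_pow_left h6 R)
          exact_mod_cast h11
      rw [Real.log_pow] at h10
      push_cast at h10
      exact h10
    have h10 : 0 ≤ Real.log X := Real.log_natCast_nonneg X
    have h11 := hx1 n (by omega)
    have h12 : 0 ≤ Real.log (n : ℝ) := Real.log_natCast_nonneg _
    calc Real.log X ^ B ≤ (2 * R * Real.log (n : ℝ)) ^ B := pow_le_pow_left₀ h10 h9 B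
      _ = (2 * (R : ℝ)) ^ B * Real.log (n : ℝ) ^ B := mul_pow _ _ _
      _ ≤ Real.log (n : ℝ) * Real.log (n : ℝ) ^ B :=
          mul_le_mul_of_nonneg_right h11 (by positivity)
      _ = _ := by rw [pow_succ]; ring
  obtain ⟨j, hj, t, ht, hO⟩ := hN i n d (by have := hNi i; omega) hd1 h8
  obtain ⟨g1, g2, g3⟩ := hd3 j (hj.trans_le (hL' i)) t ht
  exact hO (OA_of g1 g2 g3)

/-- the classical theorem of Szemerédi, for density one half -/
lemma szem_half (L : ℕ) : ∃ K : ℕ, 1 ≤ K ∧ ∀ S : Finset ℕ, S ⊆ Ioc 0 K → K ≤ 2 * S.card →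
    ∃ a d : ℕ, 1 ≤ d ∧ ∀ j < L, a + j * d ∈ S := by
  obtain ⟨B, X0, H⟩ := Pool.Agent.Y843.HS.fin L 0 1 (1 / 2) (by norm_num) (by norm_num)
  refine ⟨X0 + 1, by omega, fun S hS hc => ?_⟩
  obtain ⟨a, d, hd, -, h⟩ := H (X0 + 1) 0 (by omega) (fun _ => ∅) (fun p hp _ => ⟨by simp, by simpa using hp.pos, by simp⟩)
    S (by simpa using hS) (fun _ _ _ _ _ => by simp) (by
      have h1 : Pool.Agent.Y843.HS.VV (fun _ => ∅) 0 ⌊((X0 + 1 : ℕ) : ℝ) ^ (1 : ℝ)⌋₊ = 1 := by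
        unfold Pool.Agent.Y843.HS.VV
        simp
      rw [h1]
      have h2 : ((X0 + 1 : ℕ) : ℝ) ≤ 2 * S.card := by exact_mod_cast hc
      linarith)
  exact ⟨a, d, hd, h⟩

open Classical in
/-- the main step: for one modulus `M` -/
theorem dil_step (L : ℕ) : ∃ K P R : ℕ, 1 ≤ K ∧ 1 ≤ P ∧ 1 ≤ R ∧ ∀ M : ℕ, 1 ≤ M → ∀ l : ℕ, ∃ B X0 : ℕ, ∀ X : ℕ, X0 ≤ X →
    ∃ (i : Fin K × Fin K) (n d : ℕ), 1 ≤ d ∧ (d : ℝ) ≤ Real.log X ^ B ∧
      ∀ j < l, ∀ f < L, Odd (ArithmeticFunction.cardFactors (n + j * d + M * P * (i.1 + (i.2 + 1) * f))) ∧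
        (∀ p : ℕ, p.Prime → p ∣ n + j * d + M * P * (i.1 + (i.2 + 1) * f) → X < p ^ R) ∧
        n + j * d + M * P * (i.1 + (i.2 + 1) * f) ≤ X ^ 2 := by
  obtain ⟨K, hK, HS⟩ := szem_half (L + 1)
  obtain ⟨P, hP⟩ : ∃ P : ℕ, P = ∏ p ∈ Pool.Agent.H373R2.T7.pz K, p := ⟨_, rfl⟩
  have hP1 : 1 ≤ P := by
    rw [hP]
    exact Nat.pos_of_ne_zero (prod_ne_zero_iff.2 fun p hp => (Pool.Agent.H373R2.T7.mem_pz.1 hp).2.ne_zero)
  obtain ⟨c, hc, HA⟩ := systems' K hK
  obtain ⟨ε, hε⟩ : ∃ ε : ℝ, ε = 1 / (2 * K * (K + 2)) := ⟨_, rfl⟩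
  have hK0 : (0 : ℝ) < K := by exact_mod_cast hK
  have hε0 : 0 < ε := by rw [hε]; positivity
  obtain ⟨K1, hK1, HB⟩ := HA ε hε0
  obtain ⟨K2, hK2, HC⟩ := szem K hK
  obtain ⟨ρ, hρ⟩ : ∃ ρ : ℝ, ρ = 1 / ((K + 2) * K * K) := ⟨_, rfl⟩
  have hρ0 : 0 < ρ := by rw [hρ]; positivity
  refine ⟨K, P, K1 + K2, hK, hP1, by omega, fun M hM l => ?_⟩
  obtain ⟨B, X2, HD⟩ := HC (K1 + K2) (by omega) l ρ hρ0
  set b : Fin K → ℕ := fun j => M * P * j with hb
  have hadm : Adm (fun _ : Fin K => 1) b := by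
    intro p hp
    by_cases hpK : p ≤ K
    · refine ⟨1, fun ⟨j, hj⟩ => ?_⟩
      have h1 : p ∣ M * P * (j : ℕ) := by
        apply Dvd.dvd.mul_right
        apply Dvd.dvd.mul_left
        rw [hP]
        exact dvd_prod_of_mem _ (Pool.Agent.H373R2.T7.mem_pz.2 ⟨hpK, hp⟩)
      have h2 : p ∣ 1 := by
        have := (Nat.dvd_add_left h1).1 hj
        simpa using this
      exact hp.one_lt.ne' (Nat.dvd_one.1 h2)
    · push Not at hpK
      have : NeZero p := ⟨hp.ne_zero⟩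
      have hcard : ((univ : Finset (Fin K)).image (fun j => (-(b j : ℕ) : ZMod p))).card <
          (Finset.univ : Finset (ZMod p)).card := by
        refine lt_of_le_of_lt Finset.card_image_le ?_
        rw [Finset.card_univ, Finset.card_univ, ZMod.card, Fintype.card_fin]
        exact hpK
      obtain ⟨c', -, hc'⟩ := Finset.exists_mem_notMem_of_card_lt_card hcard
      refine ⟨c'.val, fun ⟨i, hd⟩ => hc' ?_⟩
      rw [Finset.mem_image]
      refine ⟨i, mem_univ _, ?_⟩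
      have := (ZMod.natCast_eq_zero_iff (1 * c'.val + b i) p).2 hd
      push_cast at this
      rw [ZMod.natCast_zmod_val, one_mul] at this
      linear_combination -this
  obtain ⟨X0, H⟩ := HB (K1 + K2) (by omega) (fun _ => 1) b (fun _ => le_rfl) hadm
  obtain ⟨S0, hS0⟩ : ∃ S0 : ℕ, S0 = M * P * K := ⟨_, rfl⟩
  refine ⟨B, X0 + X2 + S0 + 3, fun X hX => ?_⟩
  obtain ⟨h1, -, h3⟩ := H X (by omega)
  set R := K1 + K2 with hR
  set G := GG (fun _ : Fin K => 1) b R X with hG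
  have hX3 : (3 : ℝ) ≤ X := by exact_mod_cast (by omega : 3 ≤ X)
  have hlog : 0 < Real.log X := Real.log_pos (by linarith)
  have hGc : (0 : ℝ) < G.card := lt_of_lt_of_le (by positivity) h1
  have h4 := avg hK G (fun (j : Fin K) n => Odd (ArithmeticFunction.cardFactors (1 * n + b j))) ε (by
    rw [hε]
    field_simp
    exact le_rfl) (fun i => by
      have := (abs_le.1 (h3 i)).1
      linarith)
  -- the pairs
  set G1 := G.filter (fun n => K ≤ 2 * (univ.filter (fun j : Fin K => Odd (ArithmeticFunction.cardFactors (1 * n + b j)))).card) with hG1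
  set V : Fin K × Fin K → Finset ℕ := fun i => G.filter (fun n => ∀ f < L,
    ((i.1 : ℕ) + (i.2 + 1) * f < K ∧ Odd (ArithmeticFunction.cardFactors (1 * n + M * P * (i.1 + (i.2 + 1) * f))))) with hV
  have h5 : G1 ⊆ univ.biUnion V := by
    intro n hn
    rw [hG1, mem_filter] at hn
    obtain ⟨hn1, hn2⟩ := hn
    obtain ⟨a, d, hd, hS⟩ := HS ((univ.filter (fun j : Fin K => Odd (ArithmeticFunction.cardFactors (1 * n + b j)))).image
      (fun j : Fin K => (j : ℕ) + 1)) (by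
        intro x hx
        obtain ⟨j, -, rfl⟩ := mem_image.1 hx
        rw [mem_Ioc]
        have := j.2
        omega) (by
        rw [card_image_of_injective _ (fun i j hij => by
          have h6 : (i : ℕ) + 1 = j + 1 := hij
          exact Fin.ext (by omega))]
        exact hn2)
    have h6 : ∀ j < L + 1, 1 ≤ a + j * d ∧ a + j * d ≤ K ∧ Odd (ArithmeticFunction.cardFactors (1 * n + M * P * (a + j * d - 1))) := by
      intro j hj
      obtain ⟨i, hi, hi2⟩ := mem_image.1 (hS j hj)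
      rw [mem_filter] at hi
      have h7 := i.2
      refine ⟨by omega, by omega, ?_⟩
      have h8 : a + j * d - 1 = (i : ℕ) := by omega
      rw [h8]
      exact hi.2
    have h7 := h6 0 (by omega)
    rw [zero_mul, add_zero] at h7
    -- `d ≤ K`
    by_cases hL : L = 0
    · rw [mem_biUnion]
      refine ⟨(⟨0, by omega⟩, ⟨0, by omega⟩), mem_univ _, ?_⟩
      rw [hV, mem_filter]
      exact ⟨hn1, fun f hf => by omega⟩
    · have h8 := h6 1 (by omega)
      rw [one_mul] at h8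
      rw [mem_biUnion]
      refine ⟨(⟨a - 1, by omega⟩, ⟨d - 1, by omega⟩), mem_univ _, ?_⟩
      rw [hV, mem_filter]
      refine ⟨hn1, fun f hf => ?_⟩
      have h9 := h6 f (by omega)
      have e1 : (a - 1) + (d - 1 + 1) * f = a + f * d - 1 := by
        have : d - 1 + 1 = d := by omega
        rw [this, mul_comm d f]
        omega
      simp only
      rw [e1]
      exact ⟨by omega, h9.2.2⟩
  have h6 : ∃ i, ρ * (G.card : ℝ) ≤ ((V i).card : ℝ) := by
    by_contra hcon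
    push Not at hcon
    have h7 : (G1.card : ℝ) ≤ ∑ i, ((V i).card : ℝ) := by
      have := (card_le_card h5).trans card_biUnion_le
      exact_mod_cast this
    have h8 : ∑ i, ((V i).card : ℝ) < ∑ _i : Fin K × Fin K, ρ * (G.card : ℝ) := by
      apply sum_lt_sum_of_nonempty
      · exact ⟨(⟨0, by omega⟩, ⟨0, by omega⟩), mem_univ _⟩
      · intro i _
        exact hcon i
    rw [sum_const, card_univ, Fintype.card_prod, Fintype.card_fin, nsmul_eq_mul] at h8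
    push_cast at h8
    have h9 : (K : ℝ) * K * (ρ * G.card) = G.card / (K + 2) := by
      rw [hρ]
      field_simp
    rw [h9] at h8
    have h10 : (G.card : ℝ) / (K + 2) ≤ G1.card := by
      rw [div_le_iff₀ (by positivity)]
      linarith
    linarith
  obtain ⟨i, hi⟩ := h6
  obtain ⟨n, d, hd1, hd2, hd3⟩ := HD (fun _ => 1) b hadm X (by omega) (V i) (filter_subset _ _) hi
  refine ⟨i, n, d, hd1, hd2, fun j hj f hf => ?_⟩
  have h7 := hd3 j hj
  rw [hV, mem_filter] at h7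
  obtain ⟨h8, h9⟩ := h7
  obtain ⟨h10, h11⟩ := h9 f hf
  have h12 := h8
  rw [hG] at h12
  unfold GG at h12
  rw [mem_filter, mem_Icc] at h12
  rw [one_mul] at h11
  refine ⟨h11, ?_, ?_⟩
  · intro p hp hd
    apply h12.2 ⟨(i.1 : ℕ) + (i.2 + 1) * f, h10⟩ p hp
    rw [one_mul]
    exact hd
  · have h13 : M * P * ((i.1 : ℕ) + (i.2 + 1) * f) ≤ S0 := by
      rw [hS0]
      exact Nat.mul_le_mul_left _ h10.le
    have h14 := h12.1.2
    nlinarith

end Pool.Agent.H530.Ha
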