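import Pool.Agent.H530.HaP

/-! Fixed families of tuples of members. -/

set_option autoImplicit false

namespace Pool.Agent.H530.Ha

open Finset Filter

/-- a fixed pattern for all lengths, linear forms -/
lemma pigeon2 {ι : Type*} [Fintype ι] (T : ι → Finset (ℕ × ℕ)) (hT : ∀ i, (T i).Nonempty)
    (hT1 : ∀ i, ∀ t ∈ T i, 1 ≤ t.1) (R : ℕ)
    (h : ∀ l : ℕ, ∃ B X0 : ℕ, ∀ X : ℕ, X0 ≤ X → ∃ (i : ι) (n d : ℕ), 1 ≤ d ∧ (d : ℝ) ≤ Real.log X ^ B ∧
      ∀ j < l, ∀ t ∈ T i, Odd (ArithmeticFunction.cardFactors (t.1 * (n + j * d) + t.2)) ∧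
        (∀ p : ℕ, p.Prime → p ∣ t.1 * (n + j * d) + t.2 → X < p ^ R) ∧ t.1 * (n + j * d) + t.2 ≤ X ^ 2) :
    ∃ i, ∀ l : ℕ, ∃ B : ℕ, ∀ N : ℕ, ∃ n d : ℕ, N ≤ n ∧ 1 ≤ d ∧ (d : ℝ) ≤ Real.log n ^ B ∧
      ∀ j < l, ∀ t ∈ T i, OA (2 * R) (t.1 * (n + j * d) + t.2) := by
  by_contra hcon
  push Not at hcon
  choose l hl using hcon
  obtain ⟨L, hL⟩ : ∃ L : ℕ, L = 1 + ∑ i, l i := ⟨_, rfl⟩
  have hL' : ∀ i, l i ≤ L := by
    intro i
    have := single_le_sum (f := l) (fun _ _ => Nat.zero_le _) (mem_univ i)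
    omega
  obtain ⟨B, X0, HB⟩ := h L
  choose N hN using fun i => hl i (B + 1)
  obtain ⟨N', hN'⟩ : ∃ N' : ℕ, N' = ∑ i, N i := ⟨_, rfl⟩
  have hNi : ∀ i, N i ≤ N' := by
    intro i
    rw [hN']
    exact single_le_sum (f := N) (fun _ _ => Nat.zero_le _) (mem_univ i)
  obtain ⟨S, hS⟩ : ∃ S : ℕ, S = ∑ i, ∑ t ∈ T i, (t.1 + t.2) := ⟨_, rfl⟩
  have hSt : ∀ i, ∀ t ∈ T i, t.1 + t.2 ≤ S := by
    intro i t ht
    have h1 : t.1 + t.2 ≤ ∑ t ∈ T i, (t.1 + t.2) :=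
      single_le_sum (f := fun t : ℕ × ℕ => t.1 + t.2) (fun _ _ => Nat.zero_le _) ht
    have h2 : ∑ t ∈ T i, (t.1 + t.2) ≤ ∑ i, ∑ t ∈ T i, (t.1 + t.2) :=
      single_le_sum (f := fun i => ∑ t ∈ T i, (t.1 + t.2)) (fun _ _ => Nat.zero_le _) (mem_univ i)
    omega
  obtain ⟨x1, hx1⟩ := Pool.Agent.H373R2.T7.ev_L' ((2 * (R : ℝ)) ^ B)
  obtain ⟨M, hM⟩ : ∃ M : ℕ, M = S * (N' + x1 + S + 3) + S := ⟨_, rfl⟩
  obtain ⟨i, n, d, hd1, hd2, hd3⟩ := HB (X0 + (M + 1) ^ R) (by omega)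
  obtain ⟨X, hX⟩ : ∃ X : ℕ, X = X0 + (M + 1) ^ R := ⟨_, rfl⟩
  rw [← hX] at hd2 hd3
  obtain ⟨t0, ht0⟩ := hT i
  obtain ⟨h1, h2, -⟩ := hd3 0 (by omega) t0 ht0
  have h3 := large_of h1 h2
  rw [zero_mul, add_zero] at h3
  have hMR : 1 ≤ (M + 1) ^ R := Nat.one_le_pow _ _ (by omega)
  have h4 : M < t0.1 * n + t0.2 := by
    by_contra h8
    push Not at h8
    have h9 : (t0.1 * n + t0.2) ^ R ≤ (M + 1) ^ R := Nat.pow_le_pow_left (by omega) R
    omega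
  have h5 := hSt i t0 ht0
  have ht1 := hT1 i t0 ht0
  have hn : N' + x1 + S + 3 ≤ n := by
    by_contra h8
    push Not at h8
    have h9 : t0.1 * n ≤ S * (N' + x1 + S + 3) := Nat.mul_le_mul (by omega) h8.le
    omega
  have h6 : t0.1 * n + t0.2 ≤ n ^ 2 := by
    have h7 : t0.1 * n + t0.2 ≤ (t0.1 + t0.2) * n := by nlinarith
    have h8 : (t0.1 + t0.2) * n ≤ n * n := Nat.mul_le_mul_right _ (by omega)
    rw [sq]
    omega
  have h8 : (d : ℝ) ≤ Real.log (n : ℝ) ^ (B + 1) := by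
    refine hd2.trans ?_
    have h9 : Real.log X ≤ 2 * R * Real.log (n : ℝ) := by
      have h10 : Real.log X ≤ Real.log ((n : ℝ) ^ (2 * R)) := by
        apply Real.log_le_log
        · exact_mod_cast (by omega : 0 < X)
        · have h11 : X ≤ n ^ (2 * R) := by
            rw [pow_mul]
            exact h3.le.trans (Nat.pow_le_pow_left h6 R)
          exact_mod_cast h11
      rw [Real.log_pow] at h10
      push_cast at h10
      exact h10
    have h10 : 0 ≤ Real.log X := Real.log_natCast_nonneg X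
    have h11 := hx1 n (by omega)
    have h12 : 0 ≤ Real.log (n : ℝ) := Real.log_natCast_nonneg _
    calc Real.log X ^ B ≤ (2 * R * Real.log (n : ℝ)) ^ B := pow_le_pow_left₀ h10 h9 B
      _ = (2 * (R : ℝ)) ^ B * Real.log (n : ℝ) ^ B := mul_pow _ _ _
      _ ≤ Real.log (n : ℝ) * Real.log (n : ℝ) ^ B :=
          mul_le_mul_of_nonneg_right h11 (by positivity)
      _ = _ := by rw [pow_succ]; ring
  obtain ⟨j, hj, t, ht, hO⟩ := hN i n d (by have := hNi i; omega) hd1 h8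
  obtain ⟨g1, g2, g3⟩ := hd3 j (hj.trans_le (hL' i)) t ht
  exact hO (OA_of g1 g2 g3)

/-- for every `l` there are arbitrarily large narrow progressions of `l` integers `n` such that all the
`a i * n + b i` are odd almost primes -/
def PT (R : ℕ) {k : ℕ} (a b : Fin k → ℕ) : Prop := ∀ l : ℕ, ∃ B : ℕ, ∀ N : ℕ, ∃ n d : ℕ, N ≤ n ∧ 1 ≤ d ∧
  (d : ℝ) ≤ Real.log n ^ B ∧ ∀ j < l, ∀ i, OA R (a i * (n + j * d) + b i)

open Classical in
/-- the proportion of the `k`-tuples of members which are patterns of odd almost primes -/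
theorem fixed (k K : ℕ) (hK : 1 ≤ K) (ε : ℝ) (hε : 0 < ε) : ∃ R : ℕ, ∀ a b : Fin K → ℕ, (∀ j, 1 ≤ a j) → Adm a b →
    ((1 / 2 : ℝ) ^ k - ε) * (K : ℝ) ^ (k + 1) ≤
      ((univ.filter (fun f : Fin (k + 1) → Fin K => PT R (a ∘ f) (b ∘ f))).card : ℝ) := by
  obtain ⟨R, c, hR, hc, H⟩ := tuples k K hK ε hε
  refine ⟨2 * R, fun a b ha hab => ?_⟩
  by_contra hcon
  push Not at hcon
  -- the bad maps
  obtain ⟨⟨f, hf⟩, hPf⟩ := pigeon2 (ι := {f : Fin (k + 1) → Fin K // ¬ PT (2 * R) (a ∘ f) (b ∘ f)})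
    (fun f => univ.image (fun i => (a (f.1 i), b (f.1 i)))) (fun f => ⟨_, mem_image_of_mem _ (mem_univ 0)⟩)
    (fun f t ht => by
      obtain ⟨i, -, rfl⟩ := mem_image.1 ht
      exact ha _) R (by
    intro l
    obtain ⟨B, HB⟩ := H l
    obtain ⟨X0, HX⟩ := HB a b ha hab
    refine ⟨B, X0 + ∑ j, (a j + b j) + 1, fun X hX => ?_⟩
    obtain ⟨-, h1⟩ := HX X (by omega)
    -- a map outside the good ones
    have h2 : ∃ f : Fin (k + 1) → Fin K, ¬ PT (2 * R) (a ∘ f) (b ∘ f) ∧ ∃ n d : ℕ, 1 ≤ d ∧ (d : ℝ) ≤ Real.log X ^ B ∧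
        ∀ j < l, n + j * d ∈ (GG a b R X).filter (fun n => ∀ i,
          Odd (ArithmeticFunction.cardFactors (a (f i) * n + b (f i)))) := by
      by_contra h3
      push Not at h3
      have h4 : ((univ.filter (fun f : Fin (k + 1) → Fin K =>
        c * (X / Real.log X ^ K) ≤ (((GG a b R X).filter (fun n => ∀ i,
          Odd (ArithmeticFunction.cardFactors (a (f i) * n + b (f i))))).card : ℝ) ∧
        ∃ n d : ℕ, 1 ≤ d ∧ (d : ℝ) ≤ Real.log X ^ B ∧ ∀ j < l, n + j * d ∈ (GG a b R X).filter (fun n => ∀ i,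
          Odd (ArithmeticFunction.cardFactors (a (f i) * n + b (f i)))))).card : ℝ) ≤
          ((univ.filter (fun f : Fin (k + 1) → Fin K => PT (2 * R) (a ∘ f) (b ∘ f))).card : ℝ) := by
        apply Nat.cast_le.2
        apply card_le_card
        intro f hf
        rw [mem_filter] at hf ⊢
        refine ⟨mem_univ _, ?_⟩
        by_contra h5
        obtain ⟨-, -, n, d, hd1, hd2, hd3⟩ := hf
        obtain ⟨j, hj, h6⟩ := h3 f h5 n d hd1 hd2
        exact h6 (hd3 j hj)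
      linarith
    obtain ⟨f, hf, n, d, hd1, hd2, hd3⟩ := h2
    refine ⟨⟨f, hf⟩, n, d, hd1, hd2, ?_⟩
    intro j hj t ht
    obtain ⟨i, -, rfl⟩ := mem_image.1 ht
    have h3 := hd3 j hj
    rw [mem_filter] at h3
    obtain ⟨h4, h5⟩ := h3
    unfold GG at h4
    rw [mem_filter, mem_Icc] at h4
    refine ⟨h5 i, h4.2 (f i), ?_⟩
    have h6 : a (f i) + b (f i) ≤ ∑ j, (a j + b j) :=
      single_le_sum (f := fun j => a j + b j) (fun _ _ => Nat.zero_le _) (mem_univ (f i))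
    have h7 := h4.1
    show a (f i) * (n + j * d) + b (f i) ≤ X ^ 2
    calc a (f i) * (n + j * d) + b (f i) ≤ a (f i) * X + b (f i) * X := by
          apply Nat.add_le_add
          · exact Nat.mul_le_mul_left _ h7.2
          · exact Nat.le_mul_of_pos_right _ (by omega)
      _ = (a (f i) + b (f i)) * X := by ring
      _ ≤ X * X := Nat.mul_le_mul_right _ (by omega)
      _ = X ^ 2 := (sq X).symm)
  apply hf
  intro l
  obtain ⟨B, hB⟩ := hPf l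
  refine ⟨B, fun N => ?_⟩
  obtain ⟨n, d, h1, h2, h3, h4⟩ := hB N
  exact ⟨n, d, h1, h2, h3, fun j hj i => h4 j hj (a (f i), b (f i)) (mem_image_of_mem _ (mem_univ i))⟩

end Pool.Agent.H530.Ha
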