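import Pool.Agent.H530.HaQ
import Pool.Graph.R_seed8.H602R3.DHJ.Main

/-! Density theorems for the members of a system: some line of forms is simultaneously odd almost prime. -/

set_option autoImplicit false

namespace Pool.Agent.H530.Ha

open Finset Filter

open Classical in
/-- every family of sets which meets all dense sets of indices -/
theorem master (K : ℕ) (hK : 1 ≤ K) : ∃ R : ℕ, ∀ Li : Finset (Finset (Fin K)), (∀ ℓ ∈ Li, ℓ.Nonempty) →
    (∀ S : Finset (Fin K), K ≤ 2 * S.card → ∃ ℓ ∈ Li, ℓ ⊆ S) → ∀ a b : Fin K → ℕ, (∀ j, 1 ≤ a j) → Adm a b →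
    ∃ ℓ ∈ Li, ∀ l : ℕ, ∃ B : ℕ, ∀ N : ℕ, ∃ n d : ℕ, N ≤ n ∧ 1 ≤ d ∧ (d : ℝ) ≤ Real.log n ^ B ∧
      ∀ j < l, ∀ t ∈ ℓ, OA R (a t * (n + j * d) + b t) := by
  obtain ⟨c, hc, HA⟩ := systems' K hK
  obtain ⟨ε, hε⟩ : ∃ ε : ℝ, ε = 1 / (2 * K * (K + 2)) := ⟨_, rfl⟩
  have hK0 : (0 : ℝ) < K := by exact_mod_cast hK
  have hε0 : 0 < ε := by rw [hε]; positivity
  obtain ⟨K1, hK1, HB⟩ := HA ε hε0
  obtain ⟨K2, hK2, HC⟩ := szem K hK
  refine ⟨2 * (K1 + K2), fun Li hne hLi a b ha hab => ?_⟩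
  obtain ⟨R, hR⟩ : ∃ R : ℕ, R = K1 + K2 := ⟨_, rfl⟩
  rw [← hR]
  have hLne : Li.Nonempty := by
    obtain ⟨ℓ, hℓ, -⟩ := hLi univ (by rw [card_univ, Fintype.card_fin]; omega)
    exact ⟨ℓ, hℓ⟩
  have hLc : (0 : ℝ) < Li.card := by exact_mod_cast card_pos.2 hLne
  obtain ⟨ρ, hρ⟩ : ∃ ρ : ℝ, ρ = 1 / ((K + 2) * Li.card) := ⟨_, rfl⟩
  have hρ0 : 0 < ρ := by rw [hρ]; positivity
  obtain ⟨⟨ℓ, hℓ⟩, hP⟩ := pigeon2 (ι := {ℓ // ℓ ∈ Li}) (fun ℓ => ℓ.1.image (fun t => (a t, b t)))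
    (fun ℓ => (hne ℓ.1 ℓ.2).image _) (fun ℓ t ht => by
      obtain ⟨i, -, rfl⟩ := mem_image.1 ht
      exact ha _) R (by
    intro l
    obtain ⟨B, X2, HD⟩ := HC R (by omega) l ρ hρ0
    obtain ⟨X0, H⟩ := HB R (by omega) a b ha hab
    refine ⟨B, X0 + X2 + ∑ j, (a j + b j) + 3, fun X hX => ?_⟩
    obtain ⟨h1, -, h3⟩ := H X (by omega)
    set G := GG a b R X with hG
    have hX3 : (3 : ℝ) ≤ X := by exact_mod_cast (by omega : 3 ≤ X)
    have hlog : 0 < Real.log X := Real.log_pos (by linarith)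
    have hGc : (0 : ℝ) < G.card := lt_of_lt_of_le (by positivity) h1
    have h4 := avg hK G (fun (j : Fin K) n => Odd (ArithmeticFunction.cardFactors (a j * n + b j))) ε (by
      rw [hε]
      field_simp
      exact le_rfl) (fun i => by
        have := (abs_le.1 (h3 i)).1
        linarith)
    set G1 := G.filter (fun n => K ≤ 2 * (univ.filter (fun j : Fin K => Odd (ArithmeticFunction.cardFactors (a j * n + b j)))).card) with hG1
    set V : Finset (Fin K) → Finset ℕ := fun ℓ => G.filter (fun n => ∀ t ∈ ℓ,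
      Odd (ArithmeticFunction.cardFactors (a t * n + b t))) with hV
    have h5 : G1 ⊆ Li.biUnion V := by
      intro n hn
      rw [hG1, mem_filter] at hn
      obtain ⟨ℓ, hℓ, hS⟩ := hLi _ hn.2
      rw [mem_biUnion]
      refine ⟨ℓ, hℓ, ?_⟩
      rw [hV, mem_filter]
      exact ⟨hn.1, fun t ht => (mem_filter.1 (hS ht)).2⟩
    have h6 : ∃ ℓ ∈ Li, ρ * (G.card : ℝ) ≤ ((V ℓ).card : ℝ) := by
      by_contra hcon
      push Not at hcon
      have h7 : (G1.card : ℝ) ≤ ∑ ℓ ∈ Li, ((V ℓ).card : ℝ) := by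
        have := (card_le_card h5).trans card_biUnion_le
        exact_mod_cast this
      have h8 : ∑ ℓ ∈ Li, ((V ℓ).card : ℝ) < ∑ _ℓ ∈ Li, ρ * (G.card : ℝ) := sum_lt_sum_of_nonempty hLne hcon
      rw [sum_const, nsmul_eq_mul] at h8
      have h9 : (Li.card : ℝ) * (ρ * G.card) = G.card / (K + 2) := by
        rw [hρ]
        field_simp
      rw [h9] at h8
      have h10 : (G.card : ℝ) / (K + 2) ≤ G1.card := by
        rw [div_le_iff₀ (by positivity)]
        linarith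
      linarith
    obtain ⟨ℓ, hℓ, hi⟩ := h6
    obtain ⟨n, d, hd1, hd2, hd3⟩ := HD a b hab X (by omega) (V ℓ) (filter_subset _ _) hi
    refine ⟨⟨ℓ, hℓ⟩, n, d, hd1, hd2, fun j hj t ht => ?_⟩
    obtain ⟨i, hi', rfl⟩ := mem_image.1 ht
    have h7 := hd3 j hj
    rw [hV, mem_filter] at h7
    obtain ⟨h8, h9⟩ := h7
    rw [hG] at h8
    unfold GG at h8
    rw [mem_filter, mem_Icc] at h8
    refine ⟨h9 i hi', h8.2 i, ?_⟩
    have h6 : a i + b i ≤ ∑ j, (a j + b j) :=
      single_le_sum (f := fun j => a j + b j) (fun _ _ => Nat.zero_le _) (mem_univ i)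
    have h7 := h8.1
    show a i * (n + j * d) + b i ≤ X ^ 2
    calc a i * (n + j * d) + b i ≤ a i * X + b i * X := by
          apply Nat.add_le_add
          · exact Nat.mul_le_mul_left _ h7.2
          · exact Nat.le_mul_of_pos_right _ (by omega)
      _ = (a i + b i) * X := by ring
      _ ≤ X * X := Nat.mul_le_mul_right _ (by omega)
      _ = X ^ 2 := (sq X).symm)
  refine ⟨ℓ, hℓ, fun l => ?_⟩
  obtain ⟨B, hB⟩ := hP l
  refine ⟨B, fun N => ?_⟩
  obtain ⟨n, d, h1, h2, h3, h4⟩ := hB N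
  exact ⟨n, d, h1, h2, h3, fun j hj t ht => h4 j hj _ (mem_image_of_mem _ ht)⟩

/-- a combinatorial line of words: `V i` is the letter at the place `i`, or `none` at the active places -/
def word {N L : ℕ} (V : Fin N → Option (Fin L)) (c : Fin L) : Fin N → Fin L := fun i => (V i).getD c

open Classical in
/-- the density Hales-Jewett theorem for the members of a system indexed by the words -/
theorem lines (L : ℕ) (hL : 1 ≤ L) : ∃ N R : ℕ, ∀ a b : (Fin N → Fin L) → ℕ, (∀ w, 1 ≤ a w) →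
    (∀ p : ℕ, p.Prime → ∃ n : ℕ, ∀ w, ¬ p ∣ a w * n + b w) →
    ∃ V : Fin N → Option (Fin L), (∃ i, V i = none) ∧
      ∀ l : ℕ, ∃ B : ℕ, ∀ N' : ℕ, ∃ n d : ℕ, N' ≤ n ∧ 1 ≤ d ∧ (d : ℝ) ≤ Real.log n ^ B ∧
      ∀ j < l, ∀ c : Fin L, OA R (a (word V c) * (n + j * d) + b (word V c)) := by
  obtain ⟨k, rfl⟩ : ∃ k, L = k + 1 := ⟨L - 1, by omega⟩
  obtain ⟨N, hN⟩ := Pool.Agent.H602R3.DHJ.dhj k (1 / 2) (by norm_num)
  obtain ⟨K, hK⟩ : ∃ K : ℕ, K = Fintype.card (Fin N → Fin (k + 1)) := ⟨_, rfl⟩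
  have hK1 : 1 ≤ K := by rw [hK]; exact Fintype.card_pos
  obtain ⟨R, H⟩ := master K hK1
  refine ⟨N, R, fun a b ha hab => ?_⟩
  obtain ⟨e⟩ : Nonempty (Fin K ≃ (Fin N → Fin (k + 1))) := ⟨(Fintype.equivFinOfCardEq hK.symm).symm⟩
  set Li : Finset (Finset (Fin K)) := (univ.filter (fun V : Fin N → Option (Fin (k + 1)) => ∃ i, V i = none)).image
    (fun V => univ.image (fun c => e.symm (word V c))) with hLi
  obtain ⟨ℓ, hℓ, hP⟩ := H Li (by
      intro ℓ hℓ
      rw [hLi, mem_image] at hℓ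
      obtain ⟨V, -, rfl⟩ := hℓ
      exact ⟨_, mem_image_of_mem _ (mem_univ 0)⟩) (by
      intro S hS
      have h1 : ¬ Pool.Agent.H602R3.DHJ.LFr {w : Fin N → Fin (k + 1) | e.symm w ∈ S} := by
        intro h2
        have h3 := hN _ h2
        have h4 : Pool.Agent.H602R3.DHJ.dn {w : Fin N → Fin (k + 1) | e.symm w ∈ S} = (S.card : ℝ) / K := by
          unfold Pool.Agent.H602R3.DHJ.dn Pool.Agent.H602R3.DHJ.av
          rw [← hK]
          congr 1
          have h5 : ∑ x : Fin N → Fin (k + 1), Set.indicator {w : Fin N → Fin (k + 1) | e.symm w ∈ S} (fun _ => (1 : ℝ)) x =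
              ∑ x : Fin N → Fin (k + 1), (if e.symm x ∈ S then (1 : ℝ) else 0) := by
            apply sum_congr rfl
            intro x _
            rw [Set.indicator_apply]
            rfl
          rw [h5, sum_boole]
          congr 1
          rw [← card_map e.symm.toEmbedding]
          congr 1
          ext t
          simp only [mem_map_equiv, mem_filter, mem_univ, true_and, Equiv.symm_symm, Equiv.symm_apply_apply]
        rw [h4] at h3
        have hK0 : (0 : ℝ) < K := by exact_mod_cast hK1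
        rw [div_lt_iff₀ hK0] at h3
        have h6 : (K : ℝ) ≤ 2 * S.card := by exact_mod_cast hS
        linarith
      unfold Pool.Agent.H602R3.DHJ.LFr at h1
      push Not at h1
      obtain ⟨V, hV, hVA⟩ := h1
      refine ⟨univ.image (fun c => e.symm (word (fun i => (V i).elim some (fun _ => none)) c)), ?_, ?_⟩
      · rw [hLi, mem_image]
        refine ⟨_, ?_, rfl⟩
        rw [mem_filter]
        refine ⟨mem_univ _, ?_⟩
        obtain ⟨i, hi⟩ := hV ()
        refine ⟨i, ?_⟩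
        show Sum.elim some (fun _ => none) (V i) = none
        rw [hi]
        rfl
      · intro t ht
        obtain ⟨c, -, rfl⟩ := mem_image.1 ht
        have h2 := hVA c
        have h3 : Pool.Agent.H602R3.DHJ.ap V (fun _ => c) = word (fun i => (V i).elim some (fun _ => none)) c := by
          funext i
          unfold Pool.Agent.H602R3.DHJ.ap word
          show Sum.elim id (fun _ => c) (V i) = (Sum.elim some (fun _ => none) (V i)).getD c
          generalize V i = v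
          rcases v with x | x
          · rfl
          · rfl
        rw [h3] at h2
        exact h2)
    (fun t => a (e t)) (fun t => b (e t)) (fun t => ha _) (fun p hp => by
      obtain ⟨n, hn⟩ := hab p hp
      exact ⟨n, fun ⟨j, hj⟩ => hn _ hj⟩)
  rw [hLi, mem_image] at hℓ
  obtain ⟨V, hV, rfl⟩ := hℓ
  rw [mem_filter] at hV
  refine ⟨V, hV.2, fun l => ?_⟩
  obtain ⟨B, hB⟩ := hP l
  refine ⟨B, fun N' => ?_⟩
  obtain ⟨n, d, h1, h2, h3, h4⟩ := hB N'
  refine ⟨n, d, h1, h2, h3, fun j hj c => ?_⟩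
  have := h4 j hj _ (mem_image_of_mem _ (mem_univ c))
  rwa [Equiv.apply_symm_apply] at this

end Pool.Agent.H530.Ha
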