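import Pool.Agent.H530.HaS

/-! Iterates of affine maps. -/

set_option autoImplicit false

namespace Pool.Agent.H530.Ha

open Finset Filter

/-- `1 + d + ... + d ^ (m - 1)` -/
def gs (d m : ℕ) : ℕ := ∑ i ∈ range m, d ^ i

lemma gs_zero (d : ℕ) : gs d 0 = 0 := rfl

lemma gs_succ (d m : ℕ) : gs d (m + 1) = gs d m + d ^ m := sum_range_succ _ _

lemma gs_succ' (d m : ℕ) : gs d (m + 1) = 1 + d * gs d m := by
  unfold gs
  rw [sum_range_succ', mul_sum, pow_zero, add_comm]
  congr 1
  apply sum_congr rfl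
  intro i _
  ring

lemma gs_add (d m n : ℕ) : gs d (m + n) = gs d n + d ^ n * gs d m := by
  induction m with
  | zero => simp [gs]
  | succ m ih =>
    rw [show m + 1 + n = (m + n) + 1 by ring, gs_succ, ih, gs_succ]
    ring

lemma iter_eq (a d m x : ℕ) : (fun x => d * x + a)^[m] x = d ^ m * x + a * gs d m := by
  induction m with
  | zero => simp [gs]
  | succ m ih =>
    rw [Function.iterate_succ_apply', ih, gs_succ', pow_succ]
    ring

/-- the system of the iterates is admissible at `p` -/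
lemma admT {a d : ℕ} (hcop : Nat.Coprime a d) (J : Finset ℕ) (p : ℕ) (hp : p.Prime)
    (h : p ∣ a * d ∨ ¬ d ≡ 1 [MOD p] ∨ (J.image (fun e => e % p)).card < p) :
    ∃ n : ℕ, ∀ e ∈ J, ¬ p ∣ d ^ e * n + a * gs d e := by
  have hF : Fact p.Prime := ⟨hp⟩
  by_cases hd : p ∣ d
  · have ha : ¬ p ∣ a := by
      intro h1
      have := Nat.dvd_gcd h1 hd
      rw [hcop] at this
      exact hp.one_lt.ne' (Nat.dvd_one.1 this)
    refine ⟨1, fun e _ hde => ?_⟩
    rcases e with _ | e
    · rw [pow_zero, gs_zero, mul_zero, add_zero, mul_one] at hde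
      exact hp.one_lt.ne' (Nat.dvd_one.1 hde)
    · rw [gs_succ', mul_one, mul_add, mul_one] at hde
      apply ha
      have h1 : p ∣ d ^ (e + 1) := dvd_pow hd (by omega)
      have h2 : p ∣ a * (d * gs d e) := (hd.mul_right _).mul_left _
      have h3 : p ∣ d ^ (e + 1) + a * (d * gs d e) := dvd_add h1 h2
      have h4 : d ^ (e + 1) + (a + a * (d * gs d e)) = (d ^ (e + 1) + a * (d * gs d e)) + a := by ring
      rw [h4] at hde
      exact (Nat.dvd_add_right h3).1 hde
  · have hd0 : (d : ZMod p) ≠ 0 := by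
      intro h1
      exact hd ((ZMod.natCast_eq_zero_iff d p).1 h1)
    by_cases ha : p ∣ a
    · refine ⟨1, fun e _ hde => ?_⟩
      have h1 : p ∣ d ^ e * 1 := (Nat.dvd_add_left (ha.mul_right _)).1 hde
      rw [mul_one] at h1
      exact hd (hp.dvd_of_dvd_pow h1)
    · have ha0 : (a : ZMod p) ≠ 0 := by
        intro h1
        exact ha ((ZMod.natCast_eq_zero_iff a p).1 h1)
      by_cases h1 : d ≡ 1 [MOD p]
      · -- a translation
        have h2 : (J.image (fun e => e % p)).card < p := by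
          rcases h with h | h | h
          · rcases (Nat.Prime.dvd_mul hp).1 h with h | h
            · exact absurd h ha
            · exact absurd h hd
          · exact absurd h1 h
          · exact h
        have hd1 : (d : ZMod p) = 1 := by
          have := (ZMod.natCast_eq_natCast_iff d 1 p).2 h1
          simpa using this
        have hg : ∀ e : ℕ, (gs d e : ZMod p) = e := by
          intro e
          induction e with
          | zero => simp [gs]
          | succ e ih =>
            rw [gs_succ]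
            push_cast
            rw [ih, hd1, one_pow]
        have hcard : (J.image (fun e : ℕ => (-(a : ZMod p) * (e : ZMod p)))).card < (Finset.univ : Finset (ZMod p)).card := by
          have h3 : J.image (fun e : ℕ => (-(a : ZMod p) * (e : ZMod p))) =
              (J.image (fun e => e % p)).image (fun e : ℕ => (-(a : ZMod p) * (e : ZMod p))) := by
            rw [image_image]
            apply image_congr
            intro e _
            simp only [Function.comp]
            rw [ZMod.natCast_mod]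
          rw [h3]
          refine lt_of_le_of_lt Finset.card_image_le ?_
          rw [Finset.card_univ, ZMod.card]
          exact h2
        obtain ⟨c, -, hc⟩ := Finset.exists_mem_notMem_of_card_lt_card hcard
        refine ⟨c.val, fun e he hde => hc ?_⟩
        rw [Finset.mem_image]
        refine ⟨e, he, ?_⟩
        have := (ZMod.natCast_eq_zero_iff _ p).2 hde
        push_cast at this
        rw [ZMod.natCast_zmod_val, hg, hd1, one_pow, one_mul] at this
        linear_combination -this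
      · -- a fixed point
        have hd1 : (1 : ZMod p) - d ≠ 0 := by
          intro h2
          apply h1
          apply (ZMod.natCast_eq_natCast_iff d 1 p).1
          push_cast
          linear_combination -h2
        obtain ⟨n0, hn0⟩ : ∃ n0 : ZMod p, n0 * (1 - d) = a := ⟨a / (1 - d), div_mul_cancel₀ _ hd1⟩
        refine ⟨n0.val, fun e _ hde => ?_⟩
        have h2 := (ZMod.natCast_eq_zero_iff _ p).2 hde
        push_cast at h2
        rw [ZMod.natCast_zmod_val] at h2
        have h3 : ∀ e : ℕ, (d : ZMod p) ^ e * n0 + a * (gs d e : ZMod p) = n0 := by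
          intro e
          induction e with
          | zero => simp [gs]
          | succ e ih =>
            rw [gs_succ']
            push_cast
            have : (d : ZMod p) ^ (e + 1) * n0 + a * (1 + d * (gs d e : ZMod p)) =
                d * ((d : ZMod p) ^ e * n0 + a * (gs d e : ZMod p)) + a := by ring
            rw [this, ih]
            linear_combination -hn0
        rw [h3] at h2
        apply ha0
        rw [← hn0, h2, zero_mul]

/-- pairs of a start and an iterate -/
def PA (R a d m : ℕ) : Prop := ∀ l : ℕ, ∃ B : ℕ, ∀ N : ℕ, ∃ n D : ℕ, N ≤ n ∧ 1 ≤ D ∧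
  (D : ℝ) ≤ Real.log n ^ B ∧ ∀ j < l, OA R (n + j * D) ∧ OA R ((fun x => d * x + a)^[m] (n + j * D))

lemma PA_of {R a d m1 m2 : ℕ} (hd : 1 ≤ d)
    (h : ∀ l : ℕ, ∃ B : ℕ, ∀ N : ℕ, ∃ n D : ℕ, N ≤ n ∧ 1 ≤ D ∧ (D : ℝ) ≤ Real.log n ^ B ∧ ∀ j < l,
      OA R (d ^ m1 * (n + j * D) + a * gs d m1) ∧ OA R (d ^ (m1 + m2) * (n + j * D) + a * gs d (m1 + m2))) :
    PA R a d m2 := by
  intro l
  obtain ⟨B, hB⟩ := h l
  obtain ⟨x1, hx1⟩ := Pool.Agent.H373R2.T7.ev_L' ((d : ℝ) ^ m1)
  refine ⟨B + 1, fun N => ?_⟩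
  obtain ⟨n, D, h1, h2, h3, h4⟩ := hB (N + x1 + 1)
  have hdm : 1 ≤ d ^ m1 := Nat.one_le_pow _ _ hd
  have hn' : n ≤ d ^ m1 * n + a * gs d m1 := (Nat.le_mul_of_pos_left n hdm).trans (Nat.le_add_right _ _)
  refine ⟨d ^ m1 * n + a * gs d m1, d ^ m1 * D, by omega, Nat.mul_pos hdm h2, ?_, ?_⟩
  · have h5 := hx1 n (by omega)
    have h6 : Real.log n ≤ Real.log ((d ^ m1 * n + a * gs d m1 : ℕ) : ℝ) := by
      apply Real.log_le_log
      · exact_mod_cast (by omega : 0 < n)
      · exact_mod_cast hn'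
    have h7 : 0 ≤ Real.log (n : ℝ) := Real.log_natCast_nonneg n
    push_cast
    calc (d : ℝ) ^ m1 * D ≤ Real.log n * Real.log n ^ B := mul_le_mul h5 h3 (Nat.cast_nonneg _) h7
      _ = Real.log n ^ (B + 1) := by rw [pow_succ]; ring
      _ ≤ _ := by
          apply pow_le_pow_left₀ h7
          exact_mod_cast h6
  · intro j hj
    have h5 := h4 j hj
    have e1 : d ^ m1 * n + a * gs d m1 + j * (d ^ m1 * D) = d ^ m1 * (n + j * D) + a * gs d m1 := by ring
    rw [e1, iter_eq]
    refine ⟨h5.1, ?_⟩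
    have e2 : d ^ m2 * (d ^ m1 * (n + j * D) + a * gs d m1) + a * gs d m2 =
        d ^ (m1 + m2) * (n + j * D) + a * gs d (m1 + m2) := by
      rw [gs_add, pow_add]
      ring
    rw [e2]
    exact h5.2

open Classical in
/-- one of `m1`, `m2`, `m1 + m2` -/
theorem tripleT : ∃ R : ℕ, ∀ a d : ℕ, 1 ≤ d → Nat.Coprime a d → 2 ∣ a * d → ∀ m1 m2 : ℕ, 1 ≤ m1 → 1 ≤ m2 →
    (¬ (d % 3 = 1 ∧ ¬ 3 ∣ a) ∨ 3 ∣ m1 ∨ 3 ∣ m2 ∨ 3 ∣ m1 + m2) → PA R a d m1 ∨ PA R a d m2 ∨ PA R a d (m1 + m2) := by
  obtain ⟨R, H⟩ := fixed 1 3 (by norm_num) (1 / 100) (by norm_num)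
  refine ⟨R, fun a d hd hcop h2 m1 m2 hm1 hm2 h3 => ?_⟩
  set s : Fin 3 → ℕ := ![0, m1, m1 + m2] with hs
  have hadm : Adm (fun j => d ^ s j) (fun j => a * gs d (s j)) := by
    intro p hp
    obtain ⟨n, hn⟩ := admT hcop {0, m1, m1 + m2} p hp (by
      rcases Nat.lt_or_ge 3 p with h | h
      · right; right
        calc _ ≤ (({0, m1, m1 + m2} : Finset ℕ)).card := card_image_le
          _ ≤ 3 := card_le_three
          _ < p := h
      · have hp2 := hp.two_le
        interval_cases p
        · exact Or.inl h2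
        · rcases h3 with h4 | h4
          · by_cases h5 : d % 3 = 1
            · left
              have : 3 ∣ a := by
                by_contra h6
                exact h4 ⟨h5, h6⟩
              exact this.mul_right d
            · right; left
              intro h6
              exact h5 h6
          · right; right
            -- two classes
            have h5 : (({0, m1, m1 + m2} : Finset ℕ).image (fun e => e % 3)).card ≤ 2 := by
              rw [image_insert, image_insert, image_singleton]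
              have h6 : m1 % 3 = 0 ∨ (m1 + m2) % 3 = m1 % 3 ∨ (m1 + m2) % 3 = 0 := by omega
              rcases h6 with h6 | h6 | h6
              · rw [h6, Nat.zero_mod, insert_eq_of_mem (mem_insert_self _ _)]
                exact card_le_two
              · rw [h6, Nat.zero_mod]
                simp only [mem_singleton, insert_eq_of_mem]
                exact card_le_two
              · rw [h6, Nat.zero_mod, Finset.insert_comm]
                simp only [mem_singleton, insert_eq_of_mem]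
                exact card_le_two
            omega)
    refine ⟨n, fun ⟨j, hj⟩ => ?_⟩
    apply hn (s j) _ hj
    fin_cases j <;> simp [hs]
  have h4 := H (fun j => d ^ s j) (fun j => a * gs d (s j)) (fun j => Nat.one_le_pow _ _ hd) hadm
  have h5 : ∃ f : Fin (1 + 1) → Fin 3, f 0 ≠ f 1 ∧ PT R ((fun j => d ^ s j) ∘ f) ((fun j => a * gs d (s j)) ∘ f) := by
    by_contra h6
    push Not at h6
    have h7 : (univ.filter (fun f : Fin (1 + 1) → Fin 3 =>
        PT R ((fun j => d ^ s j) ∘ f) ((fun j => a * gs d (s j)) ∘ f))).card ≤ 3 := by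
      calc _ ≤ (univ.image (fun i : Fin 3 => (fun _ : Fin (1 + 1) => i))).card := by
            apply card_le_card
            intro f hf
            rw [mem_filter] at hf
            rw [mem_image]
            refine ⟨f 0, mem_univ _, ?_⟩
            by_contra h8
            have h9 : f 0 ≠ f 1 := by
              intro h10
              apply h8
              funext i
              fin_cases i
              · rfl
              · exact h10
            exact h6 f h9 hf.2
        _ ≤ 3 := by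
            refine card_image_le.trans ?_
            simp
    have h8 : ((1 / 2 : ℝ) ^ 1 - 1 / 100) * ((3 : ℕ) : ℝ) ^ (1 + 1) ≤ 3 := h4.trans (by exact_mod_cast h7)
    norm_num at h8
  obtain ⟨f, hf, hP⟩ := h5
  -- both forms
  have h6 : ∀ i j : Fin 3, i ≠ j → (∀ l : ℕ, ∃ B : ℕ, ∀ N : ℕ, ∃ n D : ℕ, N ≤ n ∧ 1 ≤ D ∧ (D : ℝ) ≤ Real.log n ^ B ∧
      ∀ t < l, OA R (d ^ s i * (n + t * D) + a * gs d (s i)) ∧ OA R (d ^ s j * (n + t * D) + a * gs d (s j))) →
      PA R a d m1 ∨ PA R a d m2 ∨ PA R a d (m1 + m2) := by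
    have swap : ∀ i j : Fin 3, (∀ l : ℕ, ∃ B : ℕ, ∀ N : ℕ, ∃ n D : ℕ, N ≤ n ∧ 1 ≤ D ∧ (D : ℝ) ≤ Real.log n ^ B ∧
      ∀ t < l, OA R (d ^ s i * (n + t * D) + a * gs d (s i)) ∧ OA R (d ^ s j * (n + t * D) + a * gs d (s j))) →
      (∀ l : ℕ, ∃ B : ℕ, ∀ N : ℕ, ∃ n D : ℕ, N ≤ n ∧ 1 ≤ D ∧ (D : ℝ) ≤ Real.log n ^ B ∧
      ∀ t < l, OA R (d ^ s j * (n + t * D) + a * gs d (s j)) ∧ OA R (d ^ s i * (n + t * D) + a * gs d (s i))) := by
      intro i j h l
      obtain ⟨B, hB⟩ := h l
      refine ⟨B, fun N => ?_⟩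
      obtain ⟨n, D, g1, g2, g3, g4⟩ := hB N
      exact ⟨n, D, g1, g2, g3, fun t ht => ⟨(g4 t ht).2, (g4 t ht).1⟩⟩
    have c01 : (∀ l : ℕ, ∃ B : ℕ, ∀ N : ℕ, ∃ n D : ℕ, N ≤ n ∧ 1 ≤ D ∧ (D : ℝ) ≤ Real.log n ^ B ∧
      ∀ t < l, OA R (d ^ s 0 * (n + t * D) + a * gs d (s 0)) ∧ OA R (d ^ s 1 * (n + t * D) + a * gs d (s 1))) →
      PA R a d m1 := by
      intro h
      exact PA_of (m1 := 0) hd (by simpa [hs] using h)
    have c02 : (∀ l : ℕ, ∃ B : ℕ, ∀ N : ℕ, ∃ n D : ℕ, N ≤ n ∧ 1 ≤ D ∧ (D : ℝ) ≤ Real.log n ^ B ∧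
      ∀ t < l, OA R (d ^ s 0 * (n + t * D) + a * gs d (s 0)) ∧ OA R (d ^ s 2 * (n + t * D) + a * gs d (s 2))) →
      PA R a d (m1 + m2) := by
      intro h
      exact PA_of (m1 := 0) hd (by simpa [hs] using h)
    have c12 : (∀ l : ℕ, ∃ B : ℕ, ∀ N : ℕ, ∃ n D : ℕ, N ≤ n ∧ 1 ≤ D ∧ (D : ℝ) ≤ Real.log n ^ B ∧
      ∀ t < l, OA R (d ^ s 1 * (n + t * D) + a * gs d (s 1)) ∧ OA R (d ^ s 2 * (n + t * D) + a * gs d (s 2))) →
      PA R a d m2 := by
      intro h
      exact PA_of (m1 := m1) hd (by simpa [hs] using h)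
    intro i j hij h
    have e0 : (0 : Fin 3) = ⟨0, by norm_num⟩ := rfl
    have e1 : (1 : Fin 3) = ⟨1, by norm_num⟩ := rfl
    have e2 : (2 : Fin 3) = ⟨2, by norm_num⟩ := rfl
    rw [e0, e1] at c01
    rw [e0, e2] at c02
    rw [e1, e2] at c12
    fin_cases i <;> fin_cases j
    · exact absurd rfl hij
    · exact Or.inl (c01 h)
    · exact Or.inr (Or.inr (c02 h))
    · exact Or.inl (c01 (swap _ _ h))
    · exact absurd rfl hij
    · exact Or.inr (Or.inl (c12 h))
    · exact Or.inr (Or.inr (c02 (swap _ _ h)))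
    · exact Or.inr (Or.inl (c12 (swap _ _ h)))
    · exact absurd rfl hij
  apply h6 (f 0) (f 1) hf
  intro l
  obtain ⟨B, hB⟩ := hP l
  refine ⟨B, fun N => ?_⟩
  obtain ⟨n, D, g1, g2, g3, g4⟩ := hB N
  exact ⟨n, D, g1, g2, g3, fun t ht => ⟨g4 t ht 0, g4 t ht 1⟩⟩

end Pool.Agent.H530.Ha
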