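import Pool.Agent.H530.HaT

/-! Dilates of patterns and chains, along finite sums. -/

set_option autoImplicit false

namespace Pool.Agent.H530.Ha

open Finset Filter

/-- the value of a sum over the letters of a word on a line -/
lemma word_sum {N L : ℕ} (V : Fin N → Option (Fin L)) (x : Fin N → ℕ) (c : Fin L) :
    ∑ i, ((word V c i : Fin L) : ℕ) * x i =
      (∑ i, (match V i with | some y => (y : ℕ) * x i | none => 0)) + (c : ℕ) * ∑ i ∈ univ.filter (fun i => V i = none), x i := by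
  rw [mul_sum, sum_filter, ← sum_add_distrib]
  apply sum_congr rfl
  intro i _
  unfold word
  rcases h : V i with _ | y
  · simp
  · simp

open Classical in
/-- dilates of `{0, ..., L - 1}` along finite sums -/
theorem ipdil (L : ℕ) (hL : 1 ≤ L) : ∃ N P R : ℕ, 1 ≤ P ∧ ∀ x : Fin N → ℕ, ∃ I : Finset (Fin N), I.Nonempty ∧
    ∀ l : ℕ, ∃ B : ℕ, ∀ N' : ℕ, ∃ n D : ℕ, N' ≤ n ∧ 1 ≤ D ∧ (D : ℝ) ≤ Real.log n ^ B ∧
      ∀ j < l, ∀ f < L, OA R (n + j * D + (P * ∑ i ∈ I, x i) * f) := by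
  obtain ⟨N, R, H⟩ := lines L hL
  obtain ⟨K, hK⟩ : ∃ K : ℕ, K = Fintype.card (Fin N → Fin L) := ⟨_, rfl⟩
  obtain ⟨P, hP⟩ : ∃ P : ℕ, P = ∏ p ∈ Pool.Agent.H373R2.T7.pz K, p := ⟨_, rfl⟩
  have hP1 : 1 ≤ P := by
    rw [hP]
    exact Nat.pos_of_ne_zero (prod_ne_zero_iff.2 fun p hp => (Pool.Agent.H373R2.T7.mem_pz.1 hp).2.ne_zero)
  refine ⟨N, P, R, hP1, fun x => ?_⟩
  obtain ⟨V, hV, hPV⟩ := H (fun _ => 1) (fun w => P * ∑ i, (w i : ℕ) * x i) (fun _ => le_rfl) (fun p hp => by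
    by_cases hpK : p ≤ K
    · refine ⟨1, fun w hj => ?_⟩
      have h1 : p ∣ P * ∑ i, (w i : ℕ) * x i := by
        apply Dvd.dvd.mul_right
        rw [hP]
        exact dvd_prod_of_mem _ (Pool.Agent.H373R2.T7.mem_pz.2 ⟨hpK, hp⟩)
      have h2 : p ∣ 1 := by
        have := (Nat.dvd_add_left h1).1 hj
        simpa using this
      exact hp.one_lt.ne' (Nat.dvd_one.1 h2)
    · push Not at hpK
      have : NeZero p := ⟨hp.ne_zero⟩
      have hcard : ((univ : Finset (Fin N → Fin L)).image (fun w => (-((P * ∑ i, (w i : ℕ) * x i : ℕ) : ZMod p)))).card <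
          (Finset.univ : Finset (ZMod p)).card := by
        refine lt_of_le_of_lt Finset.card_image_le ?_
        rw [Finset.card_univ, Finset.card_univ, ZMod.card, ← hK]
        exact hpK
      obtain ⟨c', -, hc'⟩ := Finset.exists_mem_notMem_of_card_lt_card hcard
      refine ⟨c'.val, fun w hd => hc' ?_⟩
      rw [Finset.mem_image]
      refine ⟨w, mem_univ _, ?_⟩
      have h3 := (ZMod.natCast_eq_zero_iff (1 * c'.val + P * ∑ i, (w i : ℕ) * x i) p).2 hd
      rw [Nat.cast_add, one_mul, ZMod.natCast_zmod_val] at h3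
      linear_combination -h3)
  refine ⟨univ.filter (fun i => V i = none), ?_, ?_⟩
  · obtain ⟨i, hi⟩ := hV
    exact ⟨i, mem_filter.2 ⟨mem_univ _, hi⟩⟩
  · intro l
    obtain ⟨B, hB⟩ := hPV l
    refine ⟨B, fun N' => ?_⟩
    obtain ⟨n, D, h1, h2, h3, h4⟩ := hB (N' + 1)
    set s0 := ∑ i, (match V i with | some y => (y : ℕ) * x i | none => 0) with hs0
    refine ⟨n + P * s0, D, by omega, h2, h3.trans ?_, ?_⟩
    · apply pow_le_pow_left₀ (Real.log_natCast_nonneg n)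
      apply Real.log_le_log
      · exact_mod_cast (by omega : 0 < n)
      · exact_mod_cast Nat.le_add_right _ _
    · intro j hj f hf
      have h5 := h4 j hj ⟨f, hf⟩
      rw [word_sum, ← hs0] at h5
      have e : n + P * s0 + j * D + (P * ∑ i ∈ univ.filter (fun i => V i = none), x i) * f =
          1 * (n + j * D) + P * (s0 + f * ∑ i ∈ univ.filter (fun i => V i = none), x i) := by ring
      rw [e]
      exact h5

open Classical in
/-- chains of iterates along finite sums: systems `d ^ e * n + a * gs d e` which are admissible for all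
exponents -/
theorem ipchain (L : ℕ) (hL : 1 ≤ L) : ∃ N R : ℕ, ∀ a d : ℕ, 1 ≤ d →
    (∀ p : ℕ, p.Prime → ∃ n : ℕ, ∀ e : ℕ, ¬ p ∣ d ^ e * n + a * gs d e) → ∀ x : Fin N → ℕ,
    ∃ I : Finset (Fin N), I.Nonempty ∧
    ∀ l : ℕ, ∃ B : ℕ, ∀ N' : ℕ, ∃ n D : ℕ, N' ≤ n ∧ 1 ≤ D ∧ (D : ℝ) ≤ Real.log n ^ B ∧
      ∀ j < l, ∀ f < L, OA R ((fun x => d * x + a)^[(∑ i ∈ I, x i) * f] (n + j * D)) := by
  obtain ⟨N, R, H⟩ := lines L hL
  refine ⟨N, R, fun a d hd hadm x => ?_⟩
  obtain ⟨V, hV, hPV⟩ := H (fun w => d ^ (∑ i, (w i : ℕ) * x i)) (fun w => a * gs d (∑ i, (w i : ℕ) * x i))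
    (fun _ => Nat.one_le_pow _ _ hd) (fun p hp => by
    obtain ⟨n, hn⟩ := hadm p hp
    exact ⟨n, fun w => hn _⟩)
  refine ⟨univ.filter (fun i => V i = none), ?_, ?_⟩
  · obtain ⟨i, hi⟩ := hV
    exact ⟨i, mem_filter.2 ⟨mem_univ _, hi⟩⟩
  · intro l
    obtain ⟨B, hB⟩ := hPV l
    set s0 := ∑ i, (match V i with | some y => (y : ℕ) * x i | none => 0) with hs0
    set M := ∑ i ∈ univ.filter (fun i => V i = none), x i with hM
    obtain ⟨x1, hx1⟩ := Pool.Agent.H373R2.T7.ev_L' ((d : ℝ) ^ s0)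
    refine ⟨B + 1, fun N' => ?_⟩
    obtain ⟨n, D, h1, h2, h3, h4⟩ := hB (N' + x1 + 1)
    have hdm : 1 ≤ d ^ s0 := Nat.one_le_pow _ _ hd
    have hn' : n ≤ d ^ s0 * n + a * gs d s0 := (Nat.le_mul_of_pos_left n hdm).trans (Nat.le_add_right _ _)
    refine ⟨d ^ s0 * n + a * gs d s0, d ^ s0 * D, by omega, Nat.mul_pos hdm h2, ?_, ?_⟩
    · have h5 := hx1 n (by omega)
      have h6 : Real.log n ≤ Real.log ((d ^ s0 * n + a * gs d s0 : ℕ) : ℝ) := by
        apply Real.log_le_log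
        · exact_mod_cast (by omega : 0 < n)
        · exact_mod_cast hn'
      have h7 : 0 ≤ Real.log (n : ℝ) := Real.log_natCast_nonneg n
      push_cast
      calc (d : ℝ) ^ s0 * D ≤ Real.log n * Real.log n ^ B := mul_le_mul h5 h3 (Nat.cast_nonneg _) h7
        _ = Real.log n ^ (B + 1) := by rw [pow_succ]; ring
        _ ≤ _ := by
            apply pow_le_pow_left₀ h7
            exact_mod_cast h6
    · intro j hj f hf
      have h5 := h4 j hj ⟨f, hf⟩
      rw [word_sum, ← hs0] at h5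
      have e1 : d ^ s0 * n + a * gs d s0 + j * (d ^ s0 * D) = d ^ s0 * (n + j * D) + a * gs d s0 := by ring
      rw [e1, iter_eq]
      have e2 : d ^ (M * f) * (d ^ s0 * (n + j * D) + a * gs d s0) + a * gs d (M * f) =
          d ^ (s0 + f * M) * (n + j * D) + a * gs d (s0 + f * M) := by
        rw [gs_add, pow_add, mul_comm f M]
        ring
      rw [e2]
      exact h5

lemma iter2 (m y : ℕ) : (fun x => 2 * x - 1)^[m] (y + 1) = 2 ^ m * y + 1 := by
  induction m with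
  | zero => simp
  | succ m ih =>
    rw [Function.iterate_succ_apply', ih, pow_succ]
    have : 2 * (2 ^ m * y + 1) - 1 = 2 * (2 ^ m * y) + 1 := by omega
    simp only [this]
    ring

open Classical in
/-- chains of the iterates of `x ↦ 2 x - 1` along finite sums -/
theorem ipchain2 (L : ℕ) (hL : 1 ≤ L) : ∃ N R : ℕ, ∀ x : Fin N → ℕ, ∃ I : Finset (Fin N), I.Nonempty ∧
    ∀ l : ℕ, ∃ B : ℕ, ∀ N' : ℕ, ∃ n D : ℕ, N' ≤ n ∧ 1 ≤ D ∧ (D : ℝ) ≤ Real.log n ^ B ∧
      ∀ j < l, ∀ f < L, OA R ((fun x => 2 * x - 1)^[(∑ i ∈ I, x i) * f] (n + j * D)) := by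
  obtain ⟨N, R, H⟩ := lines L hL
  refine ⟨N, R, fun x => ?_⟩
  obtain ⟨V, hV, hPV⟩ := H (fun w => 2 ^ (∑ i, (w i : ℕ) * x i)) (fun _ => 1)
    (fun _ => Nat.one_le_pow _ _ (by norm_num)) (fun p hp => by
    refine ⟨0, fun w hd => ?_⟩
    rw [mul_zero, zero_add] at hd
    exact hp.one_lt.ne' (Nat.dvd_one.1 hd))
  refine ⟨univ.filter (fun i => V i = none), ?_, ?_⟩
  · obtain ⟨i, hi⟩ := hV
    exact ⟨i, mem_filter.2 ⟨mem_univ _, hi⟩⟩
  · intro l
    obtain ⟨B, hB⟩ := hPV l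
    set s0 := ∑ i, (match V i with | some y => (y : ℕ) * x i | none => 0) with hs0
    set M := ∑ i ∈ univ.filter (fun i => V i = none), x i with hM
    obtain ⟨x1, hx1⟩ := Pool.Agent.H373R2.T7.ev_L' ((2 : ℝ) ^ s0)
    refine ⟨B + 1, fun N' => ?_⟩
    obtain ⟨n, D, h1, h2, h3, h4⟩ := hB (N' + x1 + 1)
    have hdm : 1 ≤ 2 ^ s0 := Nat.one_le_pow _ _ (by norm_num)
    have hn' : n ≤ 2 ^ s0 * n + 1 := (Nat.le_mul_of_pos_left n hdm).trans (Nat.le_add_right _ _)
    refine ⟨2 ^ s0 * n + 1, 2 ^ s0 * D, by omega, Nat.mul_pos hdm h2, ?_, ?_⟩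
    · have h5 := hx1 n (by omega)
      have h6 : Real.log n ≤ Real.log ((2 ^ s0 * n + 1 : ℕ) : ℝ) := by
        apply Real.log_le_log
        · exact_mod_cast (by omega : 0 < n)
        · exact_mod_cast hn'
      have h7 : 0 ≤ Real.log (n : ℝ) := Real.log_natCast_nonneg n
      push_cast
      calc (2 : ℝ) ^ s0 * D ≤ Real.log n * Real.log n ^ B := mul_le_mul h5 h3 (Nat.cast_nonneg _) h7
        _ = Real.log n ^ (B + 1) := by rw [pow_succ]; ring
        _ ≤ _ := by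
            apply pow_le_pow_left₀ h7
            exact_mod_cast h6
    · intro j hj f hf
      have h5 := h4 j hj ⟨f, hf⟩
      rw [word_sum, ← hs0] at h5
      have e1 : 2 ^ s0 * n + 1 + j * (2 ^ s0 * D) = 2 ^ s0 * (n + j * D) + 1 := by ring
      rw [e1, iter2]
      have e2 : 2 ^ (M * f) * (2 ^ s0 * (n + j * D)) + 1 = 2 ^ (s0 + f * M) * (n + j * D) + 1 := by
        rw [pow_add, mul_comm f M]
        ring
      rw [e2]
      exact h5

/-- the first kind is admissible -/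
lemma adm_first (p : ℕ) (hp : p.Prime) : ∃ n : ℕ, ∀ e : ℕ, ¬ p ∣ 2 ^ e * n + 1 * gs 2 e := by
  refine ⟨p - 1, fun e hd => ?_⟩
  have h1 : 2 ^ e * (p - 1) + 1 * gs 2 e + 1 = 2 ^ e * p := by
    have h2 : gs 2 e + 1 = 2 ^ e := by
      induction e with
      | zero => simp [gs]
      | succ e ih =>
        rw [gs_succ, pow_succ]
        have : gs 2 e + 1 = 2 ^ e := by
          clear ih hd
          induction e with
          | zero => simp [gs]
          | succ e ih => rw [gs_succ, pow_succ]; omega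
        omega
    have h3 : 1 ≤ p := hp.one_lt.le
    rw [one_mul, add_assoc, h2, ← Nat.mul_succ]
    congr 1
    omega
  have h2 : p ∣ 2 ^ e * (p - 1) + 1 * gs 2 e + 1 := by
    rw [h1]
    exact dvd_mul_left _ _
  exact hp.one_lt.ne' (Nat.dvd_one.1 ((Nat.dvd_add_right hd).1 h2))

end Pool.Agent.H530.Ha
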