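import Pool.Agent.H530.HaE

/-! Sums of the Liouville function over the values of an integral linear form in residue classes. -/

set_option autoImplicit false

namespace Pool.Agent.H530.Ha

open Finset

/-- the Liouville function on the integers -/
noncomputable def lz (n : ℤ) : ℝ := la n.natAbs

lemma lz_zero : lz 0 = 0 := by simp [lz, la_zero]

lemma lz_neg (n : ℤ) : lz (-n) = lz n := by simp [lz]

lemma lz_mul (m n : ℤ) : lz (m * n) = lz m * lz n := by
  unfold lz
  rw [Int.natAbs_mul, la_mul]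

lemma lz_nat (n : ℕ) : lz (n : ℤ) = la n := by simp [lz]

lemma lz_abs (n : ℤ) : |lz n| ≤ 1 := la_abs _

/-- the length belonging to an integer endpoint -/
def hh (h : ℤ) : ℕ := if 0 ≤ h then h.toNat else (-h - 1).toNat

lemma hh_div (h : ℤ) {g : ℕ} (hg : 1 ≤ g) : hh (h / (g : ℤ)) = hh h / g := by
  have hg0 : (0 : ℤ) < g := by exact_mod_cast hg
  unfold hh
  by_cases h0 : 0 ≤ h
  · rw [if_pos h0, if_pos (Int.ediv_nonneg h0 hg0.le)]
    zify
    rw [Int.toNat_of_nonneg (Int.ediv_nonneg h0 hg0.le), Int.toNat_of_nonneg h0]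
  · have h1 : h / (g : ℤ) < 0 := Int.ediv_neg_of_neg_of_pos (by omega) hg0
    rw [if_neg h0, if_neg (by omega)]
    zify
    rw [Int.toNat_of_nonneg (by omega), Int.toNat_of_nonneg (by omega)]
    -- - (h / g) - 1 = (-h-1)/g
    have h2 := Int.emod_add_mul_ediv h g
    have h3 := Int.emod_nonneg h hg0.ne'
    have h4 := Int.emod_lt_of_pos h hg0
    symm
    rw [Int.ediv_eq_iff_of_pos hg0]
    constructor
    · nlinarith
    · nlinarith

/-- one sum -/
noncomputable def fS (m : ℕ) (r : ℤ) (u : ℤ) : ℝ := if u ≡ r [ZMOD m] then lz u else 0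

lemma fS_pos {m : ℕ} {r : ℤ} (hm : 1 ≤ m) (hr : IsCoprime r (m : ℤ)) {h : ℤ} (h0 : 0 ≤ h) :
    |∑ u ∈ Ioc 0 h, fS m r u| ≤ EE h.toNat m := by
  have hm0 : (0 : ℤ) < m := by exact_mod_cast hm
  obtain ⟨s, hs⟩ : ∃ s : ℕ, (s : ℤ) = r % m := ⟨(r % m).toNat, Int.toNat_of_nonneg (Int.emod_nonneg _ hm0.ne')⟩
  have hsr : (s : ℤ) ≡ r [ZMOD m] := by
    rw [hs]
    exact Int.mod_modEq r m
  have hcop : Nat.Coprime s m := by
    rw [← Nat.isCoprime_iff_coprime]
    obtain ⟨x, y, hxy⟩ := hr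
    obtain ⟨t, ht⟩ := hsr.symm.dvd
    refine ⟨x, y - x * t, ?_⟩
    have : (s : ℤ) = r + m * t := by linarith
    rw [this]
    linear_combination hxy
  have h1 := EE_ge (h := h.toNat) hm hcop
  refine le_trans (le_of_eq ?_) h1
  congr 1
  unfold SL
  rw [sum_filter]
  symm
  apply Finset.sum_bij' (fun (n : ℕ) _ => (n : ℤ)) (fun (u : ℤ) _ => u.toNat)
  · intro n hn
    rw [mem_Icc] at hn
    rw [mem_Ioc]
    omega
  · intro u hu
    rw [mem_Ioc] at hu
    rw [mem_Icc]
    omega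
  · intro n _
    simp
  · intro u hu
    rw [mem_Ioc] at hu
    exact Int.toNat_of_nonneg (by omega)
  · intro n _
    unfold fS
    rw [lz_nat]
    congr 1
    rw [← Int.natCast_modEq_iff]
    exact propext ⟨fun h => h.trans hsr, fun h => h.trans hsr.symm⟩

lemma fS_neg {m : ℕ} {r : ℤ} (hm : 1 ≤ m) (hr : IsCoprime r (m : ℤ)) {h : ℤ} (h0 : h < 0) :
    |∑ u ∈ Ioc h 0, fS m r u| ≤ EE (-h - 1).toNat m := by
  have h1 := fS_pos (r := -r) hm hr.neg_left (h := -h - 1) (by omega)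
  refine le_trans (le_of_eq ?_) h1
  congr 1
  have e : Ioc h 0 = insert 0 (Ioc h (-1)) := by
    ext u
    rw [mem_insert, mem_Ioc, mem_Ioc]
    omega
  rw [e, sum_insert (by rw [mem_Ioc]; omega)]
  have e0 : fS m r 0 = 0 := by
    unfold fS
    rw [lz_zero]
    simp
  rw [e0, zero_add]
  apply Finset.sum_bij' (fun (u : ℤ) _ => -u) (fun (u : ℤ) _ => -u)
  · intro u hu
    rw [mem_Ioc] at hu ⊢
    omega
  · intro u hu
    rw [mem_Ioc] at hu ⊢
    omega
  · intro u _
    exact neg_neg u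
  · intro u _
    exact neg_neg u
  · intro u _
    unfold fS
    rw [lz_neg]
    congr 1
    apply propext
    constructor
    · intro h
      exact h.neg
    · intro h
      have := h.neg
      rwa [neg_neg, neg_neg] at this

lemma Ioc_split (f : ℤ → ℝ) {x y z : ℤ} (h1 : x ≤ y) (h2 : y ≤ z) :
    ∑ u ∈ Ioc x z, f u = ∑ u ∈ Ioc x y, f u + ∑ u ∈ Ioc y z, f u := by
  rw [← sum_union]
  · congr 1
    ext u
    rw [mem_union, mem_Ioc, mem_Ioc, mem_Ioc]
    omega
  · rw [disjoint_left]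
    intro u hu hu'
    rw [mem_Ioc] at hu hu'
    omega

lemma fS_le {m : ℕ} {r : ℤ} (hm : 1 ≤ m) (hr : IsCoprime r (m : ℤ)) {x y : ℤ} (hxy : x ≤ y) :
    |∑ u ∈ Ioc x y, fS m r u| ≤ EE (hh y) m + EE (hh x) m := by
  by_cases hx : 0 ≤ x
  · have hy : 0 ≤ y := hx.trans hxy
    have h1 := fS_pos hm hr hx
    have h2 := fS_pos hm hr hy
    have h3 := Ioc_split (fS m r) hx hxy
    unfold hh
    rw [if_pos hx, if_pos hy]
    have : ∑ u ∈ Ioc x y, fS m r u = ∑ u ∈ Ioc 0 y, fS m r u - ∑ u ∈ Ioc 0 x, fS m r u := by linarith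
    rw [this]
    exact (abs_sub _ _).trans (add_le_add h2 h1)
  · push Not at hx
    have h1 := fS_neg hm hr hx
    by_cases hy : 0 ≤ y
    · have h2 := fS_pos hm hr hy
      have h3 := Ioc_split (fS m r) hx.le hy
      unfold hh
      rw [if_pos hy, if_neg (not_le.2 hx), h3, add_comm (EE _ _)]
      exact (abs_add_le _ _).trans (add_le_add h1 h2)
    · push Not at hy
      have h2 := fS_neg hm hr hy
      have h3 := Ioc_split (fS m r) hxy hy.le
      unfold hh
      rw [if_neg (not_le.2 hy), if_neg (not_le.2 hx)]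
      have : ∑ u ∈ Ioc x y, fS m r u = ∑ u ∈ Ioc x 0, fS m r u - ∑ u ∈ Ioc y 0, fS m r u := by linarith
      rw [this, add_comm (EE _ _)]
      exact (abs_sub _ _).trans (add_le_add h1 h2)

/-- the values of a linear form in a residue class, divisible by `g` -/
theorem lin (a X q g : ℕ) (b c : ℤ) (ha : 1 ≤ a) (hq : 1 ≤ q) (hg : 1 ≤ g)
    (hga : IsCoprime (g : ℤ) ((a * q : ℕ) : ℤ)) (hc : IsCoprime (a * c + b) ((a * q : ℕ) : ℤ)) :
    |∑ n ∈ (Icc 1 X).filter (fun n : ℕ => (n : ℤ) ≡ c [ZMOD q] ∧ (g : ℤ) ∣ a * n + b), lz (a * n + b)| ≤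
      EE (hh (a * X + b) / g) (a * q) + EE (hh b / g) (a * q) := by
  classical
  have haq : 1 ≤ a * q := Nat.mul_pos ha hq
  have ha0 : (0 : ℤ) < a := by exact_mod_cast ha
  have hg0 : (0 : ℤ) < g := by exact_mod_cast hg
  have hq0 : (0 : ℤ) < q := by exact_mod_cast hq
  -- the class
  obtain ⟨r, hr⟩ : ∃ r : ℤ, g * r ≡ a * c + b [ZMOD ((a * q : ℕ) : ℤ)] := by
    obtain ⟨x, y, hxy⟩ := hga
    refine ⟨x * (a * c + b), ?_⟩
    rw [Int.modEq_iff_dvd]
    refine ⟨y * (a * c + b), ?_⟩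
    linear_combination (-(a * c + b)) * hxy
  have hrc : IsCoprime r ((a * q : ℕ) : ℤ) := by
    have h1 : IsCoprime (g * r) ((a * q : ℕ) : ℤ) := by
      obtain ⟨x, y, hxy⟩ := hc
      obtain ⟨t, ht⟩ := hr.symm.dvd
      refine ⟨x, y - x * t, ?_⟩
      have : (g : ℤ) * r = (a * c + b) + ((a * q : ℕ) : ℤ) * t := by linarith
      rw [this]
      linear_combination hxy
    exact IsCoprime.of_mul_left_right h1
  have hcl : ∀ u : ℤ, u ≡ r [ZMOD ((a * q : ℕ) : ℤ)] ↔ g * u ≡ a * c + b [ZMOD ((a * q : ℕ) : ℤ)] := by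
    intro u
    constructor
    · intro h
      exact (h.mul_left g).trans hr
    · intro h
      have h1 := h.trans hr.symm
      rw [Int.modEq_iff_dvd] at h1 ⊢
      rw [← mul_sub] at h1
      exact hga.symm.dvd_of_dvd_mul_left h1
  have e1 : ∑ n ∈ (Icc 1 X).filter (fun n : ℕ => (n : ℤ) ≡ c [ZMOD q] ∧ (g : ℤ) ∣ a * n + b), lz (a * n + b) =
      lz g * ∑ u ∈ Ioc (b / (g : ℤ)) ((a * X + b) / (g : ℤ)), fS (a * q) r u := by
    have e2 : ∑ u ∈ Ioc (b / (g : ℤ)) ((a * X + b) / (g : ℤ)), fS (a * q) r u =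
        ∑ u ∈ (Ioc (b / (g : ℤ)) ((a * X + b) / (g : ℤ))).filter (fun u => u ≡ r [ZMOD ((a * q : ℕ) : ℤ)]), lz u := by
      rw [sum_filter]
      rfl
    rw [e2, mul_sum]
    apply Finset.sum_bij' (fun (n : ℕ) _ => (a * n + b) / (g : ℤ)) (fun (u : ℤ) _ => ((g * u - b) / a).toNat)
    · intro n hn
      rw [mem_filter, mem_Icc] at hn
      obtain ⟨⟨h1, h2⟩, h3, h4⟩ := hn
      have h5 : (g : ℤ) * ((a * n + b) / g) = a * n + b := Int.mul_ediv_cancel' h4
      rw [mem_filter, mem_Ioc, hcl, h5]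
      have h1' : (1 : ℤ) ≤ n := by exact_mod_cast h1
      have h2' : (n : ℤ) ≤ X := by exact_mod_cast h2
      refine ⟨⟨?_, ?_⟩, ?_⟩
      · rw [Int.ediv_lt_iff_lt_mul hg0, mul_comm, h5]
        nlinarith
      · apply Int.ediv_le_ediv hg0
        nlinarith
      · have : (a : ℤ) * n ≡ a * c [ZMOD a * q] := h3.mul_left'
        push_cast
        exact this.add_right b
    · intro u hu
      rw [mem_filter, mem_Ioc, hcl] at hu
      obtain ⟨⟨h1, h2⟩, h3⟩ := hu
      rw [Int.ediv_lt_iff_lt_mul hg0] at h1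
      rw [Int.le_ediv_iff_mul_le hg0] at h2
      have h5 : (a : ℤ) ∣ g * u - b := by
        have h6 := h3.symm.dvd
        have h7 : (a : ℤ) ∣ g * u - (a * c + b) := (Dvd.intro (q : ℤ) (by push_cast; ring)).trans h6
        have : (g : ℤ) * u - b = (g * u - (a * c + b)) + a * c := by ring
        rw [this]
        exact dvd_add h7 (dvd_mul_right _ _)
      obtain ⟨n, hn⟩ := h5
      have h8 : (g * u - b) / (a : ℤ) = n := by
        rw [hn]
        exact Int.mul_ediv_cancel_left _ ha0.ne'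
      have hn0 : 0 < n := by
        have : 0 < (a : ℤ) * n := by linarith
        exact (mul_pos_iff_of_pos_left ha0).1 this
      have hnX : n ≤ X := by
        have : (a : ℤ) * n ≤ a * X := by linarith
        exact le_of_mul_le_mul_left this ha0
      have hnt : ((n.toNat : ℕ) : ℤ) = n := Int.toNat_of_nonneg hn0.le
      have hval : (g : ℤ) * u = a * n + b := by linarith
      rw [h8, mem_filter, mem_Icc, hnt]
      refine ⟨⟨by omega, by omega⟩, ?_, ?_⟩
      · rw [hval] at h3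
        have h9 : (a : ℤ) * n ≡ a * c [ZMOD a * q] := by
          push_cast at h3
          exact Int.ModEq.add_right_cancel' b h3
        exact Int.ModEq.mul_left_cancel' ha0.ne' h9
      · rw [← hval]
        exact dvd_mul_right _ _
    · intro n hn
      rw [mem_filter] at hn
      obtain ⟨-, -, h4⟩ := hn
      have h5 : (g : ℤ) * ((a * n + b) / g) = a * n + b := Int.mul_ediv_cancel' h4
      show (((g : ℤ) * ((a * n + b) / g) - b) / a).toNat = n
      rw [h5, add_sub_cancel_right, Int.mul_ediv_cancel_left _ ha0.ne', Int.toNat_natCast]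
    · intro u hu
      rw [mem_filter, mem_Ioc, hcl] at hu
      obtain ⟨⟨h1, h2⟩, h3⟩ := hu
      rw [Int.ediv_lt_iff_lt_mul hg0] at h1
      have h5 : (a : ℤ) ∣ g * u - b := by
        have h6 := h3.symm.dvd
        have h7 : (a : ℤ) ∣ g * u - (a * c + b) := (Dvd.intro (q : ℤ) (by push_cast; ring)).trans h6
        have : (g : ℤ) * u - b = (g * u - (a * c + b)) + a * c := by ring
        rw [this]
        exact dvd_add h7 (dvd_mul_right _ _)
      have h6 : 0 ≤ (g * u - b) / (a : ℤ) := Int.ediv_nonneg (by linarith) ha0.le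
      show ((a : ℤ) * ((((g : ℤ) * u - b) / a).toNat : ℤ) + b) / g = u
      rw [Int.toNat_of_nonneg h6, Int.mul_ediv_cancel' h5, sub_add_cancel, Int.mul_ediv_cancel_left _ hg0.ne']
    · intro n hn
      rw [mem_filter] at hn
      obtain ⟨-, -, h4⟩ := hn
      rw [← lz_mul, Int.mul_ediv_cancel' h4]
  rw [e1, abs_mul, ← hh_div _ hg, ← hh_div _ hg]
  have hle : b / (g : ℤ) ≤ (a * X + b) / (g : ℤ) := by
    apply Int.ediv_le_ediv hg0
    have : (0 : ℤ) ≤ a * X := by positivity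
    linarith
  calc |lz g| * |∑ u ∈ Ioc (b / (g : ℤ)) ((a * X + b) / (g : ℤ)), fS (a * q) r u| ≤
      1 * |∑ u ∈ Ioc (b / (g : ℤ)) ((a * X + b) / (g : ℤ)), fS (a * q) r u| :=
        mul_le_mul_of_nonneg_right (lz_abs g) (abs_nonneg _)
    _ ≤ _ := by
        rw [one_mul]
        exact fS_le haq hrc hle

end Pool.Agent.H530.Ha
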