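import Pool.Agent.H530.HuA

/-! The Liouville function at the values of an integral linear form, under conditions modulo several primes. -/

set_option autoImplicit false

namespace Pool.Agent.H530.Ha

open Finset

/-- the bound for one class -/
noncomputable def B2 (h1 h0 m g : ℕ) : ℝ := EE (h1 / g) m + EE (h0 / g) m

lemma B2_nonneg (h1 h0 m g : ℕ) : 0 ≤ B2 h1 h0 m g := add_nonneg (EE_nonneg _ _) (EE_nonneg _ _)

open Classical in
/-- a condition modulo `p` with few classes outside of the zero of the form -/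
structure Cz (a : ℕ) (b : ℤ) (κ : ℕ) (Q : ℕ → ℕ → Prop) (p : ℕ) : Prop where
  pr : p.Prime
  nb : p ∣ a → ¬ (p : ℤ) ∣ b
  per : ∀ n, Q p n ↔ Q p (n % p)
  few : ((range p).filter (fun r => Q p r ∧ ¬ (p : ℤ) ∣ a * r + b)).card ≤ κ
  hit : ∀ n : ℕ, (p : ℤ) ∣ a * n + b → Q p n

lemma form_dvd (a : ℕ) (b : ℤ) {p : ℤ} {m n : ℤ} (h : m ≡ n [ZMOD p]) : p ∣ a * m + b ↔ p ∣ a * n + b := by
  have h1 : (a : ℤ) * m + b ≡ a * n + b [ZMOD p] := (h.mul_left _).add_right _
  rw [← Int.modEq_zero_iff_dvd, ← Int.modEq_zero_iff_dvd]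
  exact ⟨fun h2 => h1.symm.trans h2, fun h2 => h1.trans h2⟩

open Classical in
theorem ind2 (a X κ : ℕ) (b : ℤ) (ha : 1 ≤ a) (Q : ℕ → ℕ → Prop) (S : Finset ℕ) :
    (∀ p ∈ S, Cz a b κ Q p) → ∀ g q : ℕ, ∀ c : ℤ, 1 ≤ g → 1 ≤ q → (∀ p ∈ S, ¬ p ∣ g ∧ ¬ p ∣ q) →
    IsCoprime (g : ℤ) ((a * q : ℕ) : ℤ) → IsCoprime (a * c + b) ((a * q : ℕ) : ℤ) →
    |∑ n ∈ (Icc 1 X).filter (fun n : ℕ => (n : ℤ) ≡ c [ZMOD q] ∧ (g : ℤ) ∣ a * n + b ∧ ∀ p ∈ S, Q p n), lz (a * n + b)| ≤
      ∑ U ∈ S.powerset, (κ : ℝ) ^ (S \ U).card *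
        B2 (hh (a * X + b)) (hh b) (a * (q * ∏ p ∈ S \ U, p)) (g * ∏ p ∈ U, p) := by
  induction S using Finset.induction_on with
  | empty =>
    intro _ g q c hg hq _ h1 h2
    have h3 := lin a X q g b c ha hq hg h1 h2
    simpa [B2] using h3
  | insert p S hp ih =>
    intro hS g q c hg hq hgq h1 h2
    have hP := hS p (mem_insert_self p S)
    have hS' : ∀ p' ∈ S, Cz a b κ Q p' := fun p' hp' => hS p' (mem_insert_of_mem hp')
    have hpg := hgq p (mem_insert_self p S)
    have hne : ∀ p' ∈ S, ¬ p' ∣ p := by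
      intro p' hp' hd
      have := (Nat.prime_dvd_prime_iff_eq (hS' p' hp').pr hP.pr).1 hd
      rw [this] at hp'
      exact hp hp'
    have hpp := hP.pr.pos
    have hpi : Prime (p : ℤ) := Nat.prime_iff_prime_int.1 hP.pr
    rw [Finset.sum_powerset_insert hp]
    -- split
    set F := (Icc 1 X).filter (fun n : ℕ => (n : ℤ) ≡ c [ZMOD q] ∧ (g : ℤ) ∣ a * n + b ∧ ∀ p' ∈ insert p S, Q p' n) with hF
    have hsplit := sum_filter_add_sum_filter_not F (fun n : ℕ => (p : ℤ) ∣ a * n + b) (fun n : ℕ => lz (a * n + b))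
    rw [← hsplit]
    have hgp : IsCoprime (g : ℤ) (p : ℤ) := by
      rw [Nat.isCoprime_iff_coprime]
      exact ((Nat.Prime.coprime_iff_not_dvd hP.pr).2 hpg.1).symm
    have hqp : IsCoprime (q : ℤ) (p : ℤ) := by
      rw [Nat.isCoprime_iff_coprime]
      exact ((Nat.Prime.coprime_iff_not_dvd hP.pr).2 hpg.2).symm
    -- the first part
    have g1 : |∑ n ∈ F.filter (fun n : ℕ => (p : ℤ) ∣ a * n + b), lz (a * n + b)| ≤
        ∑ U ∈ S.powerset, (κ : ℝ) ^ (S \ U).card *
          B2 (hh (a * X + b)) (hh b) (a * (q * ∏ p ∈ S \ U, p)) (g * p * ∏ p ∈ U, p) := by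
      by_cases hpa : p ∣ a
      · have hF0 : F.filter (fun n : ℕ => (p : ℤ) ∣ a * n + b) = ∅ := by
          rw [filter_eq_empty_iff]
          intro n _ hd
          apply hP.nb hpa
          have h3 : (p : ℤ) ∣ a * n := (Int.natCast_dvd_natCast.2 hpa).mul_right _
          exact (dvd_add_right h3).1 hd
        rw [hF0, sum_empty, abs_zero]
        exact sum_nonneg fun U _ => mul_nonneg (pow_nonneg (Nat.cast_nonneg _) _) (B2_nonneg _ _ _ _)
      have f1 : F.filter (fun n : ℕ => (p : ℤ) ∣ a * n + b) =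
          (Icc 1 X).filter (fun n : ℕ => (n : ℤ) ≡ c [ZMOD q] ∧ ((g * p : ℕ) : ℤ) ∣ a * n + b ∧ ∀ p' ∈ S, Q p' n) := by
        ext n
        rw [mem_filter, hF, mem_filter, mem_filter]
        constructor
        · rintro ⟨⟨h3, h4, h5, h6⟩, h7⟩
          refine ⟨h3, h4, ?_, fun p' hp' => h6 p' (mem_insert_of_mem hp')⟩
          push_cast
          exact hgp.mul_dvd h5 h7
        · rintro ⟨h3, h4, h5, h6⟩
          push_cast at h5
          have h7 : (p : ℤ) ∣ a * n + b := (dvd_mul_left _ _).trans h5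
          refine ⟨⟨h3, h4, (dvd_mul_right _ _).trans h5, fun p' hp' => ?_⟩, h7⟩
          rcases mem_insert.1 hp' with h | h
          · rw [h]
            exact hP.hit n h7
          · exact h6 p' h
      have hpaq : ¬ p ∣ a * q := by
        rw [hP.pr.dvd_mul]
        rintro (h | h)
        · exact hpa h
        · exact hpg.2 h
      rw [f1]
      apply ih hS' (g * p) q c (Nat.mul_pos hg hpp) hq
      · intro p' hp'
        have h3 := hgq p' (mem_insert_of_mem hp')
        refine ⟨?_, h3.2⟩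
        rw [(hS' p' hp').pr.dvd_mul]
        rintro (h | h)
        · exact h3.1 h
        · exact hne p' hp' h
      · have h3 : IsCoprime (p : ℤ) ((a * q : ℕ) : ℤ) := by
          rw [Nat.isCoprime_iff_coprime]
          exact (Nat.Prime.coprime_iff_not_dvd hP.pr).2 hpaq
        rw [Nat.cast_mul g p]
        exact h1.mul_left h3
      · exact h2
    -- the second part
    set R := (range p).filter (fun r => Q p r ∧ ¬ (p : ℤ) ∣ a * r + b) with hR
    have f2 : ∑ n ∈ F.filter (fun n : ℕ => ¬ (p : ℤ) ∣ a * n + b), lz (a * n + b) =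
        ∑ r ∈ R, ∑ n ∈ (F.filter (fun n : ℕ => ¬ (p : ℤ) ∣ a * n + b)).filter (fun n => n % p = r), lz (a * n + b) := by
      refine (sum_fiberwise_of_maps_to (fun n hn => ?_) _).symm
      rw [mem_filter, hF, mem_filter] at hn
      obtain ⟨⟨h3, h4, h5, h6⟩, h7⟩ := hn
      rw [hR, mem_filter, mem_range]
      refine ⟨Nat.mod_lt _ hpp, (hP.per n).1 (h6 p (mem_insert_self p S)), ?_⟩
      intro h8
      apply h7
      refine (form_dvd a b ?_).1 h8
      push_cast
      exact Int.mod_modEq _ _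
    have g2 : |∑ n ∈ F.filter (fun n : ℕ => ¬ (p : ℤ) ∣ a * n + b), lz (a * n + b)| ≤
        κ * ∑ U ∈ S.powerset, (κ : ℝ) ^ (S \ U).card *
          B2 (hh (a * X + b)) (hh b) (a * (q * p * ∏ p ∈ S \ U, p)) (g * ∏ p ∈ U, p) := by
      rw [f2]
      refine (abs_sum_le_sum_abs _ _).trans ?_
      have h3 : ∀ r ∈ R, |∑ n ∈ (F.filter (fun n : ℕ => ¬ (p : ℤ) ∣ a * n + b)).filter (fun n => n % p = r),
          lz (a * n + b)| ≤
          ∑ U ∈ S.powerset, (κ : ℝ) ^ (S \ U).card *
            B2 (hh (a * X + b)) (hh b) (a * (q * p * ∏ p ∈ S \ U, p)) (g * ∏ p ∈ U, p) := by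
        intro r hr
        rw [hR, mem_filter, mem_range] at hr
        -- the class modulo q p
        obtain ⟨c', hc1, hc2⟩ : ∃ c' : ℤ, c' ≡ c [ZMOD q] ∧ c' ≡ r [ZMOD p] := by
          obtain ⟨x, y, hxy⟩ := hqp
          refine ⟨c + x * q * (r - c), ?_, ?_⟩
          · exact (Int.modEq_iff_dvd.2 ⟨-(x * (r - c)), by ring⟩)
          · refine (Int.modEq_iff_dvd.2 ⟨y * (r - c), ?_⟩)
            linear_combination (-(r - c : ℤ)) * hxy
        have f3 : (F.filter (fun n : ℕ => ¬ (p : ℤ) ∣ a * n + b)).filter (fun n => n % p = r) =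
            (Icc 1 X).filter (fun n : ℕ => (n : ℤ) ≡ c' [ZMOD ((q * p : ℕ) : ℤ)] ∧ (g : ℤ) ∣ a * n + b ∧ ∀ p' ∈ S, Q p' n) := by
          ext n
          rw [mem_filter, mem_filter, hF, mem_filter, mem_filter]
          constructor
          · rintro ⟨⟨⟨h4, h5, h6, h7⟩, h8⟩, h9⟩
            refine ⟨h4, ?_, h6, fun p' hp' => h7 p' (mem_insert_of_mem hp')⟩
            have h10 : (n : ℤ) ≡ r [ZMOD p] := by
              rw [← h9]
              push_cast
              exact (Int.mod_modEq _ _).symm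
            have a1 : (q : ℤ) ∣ c' - n := (h5.trans hc1.symm).dvd
            have a2 : (p : ℤ) ∣ c' - n := (h10.trans hc2.symm).dvd
            rw [Int.modEq_iff_dvd, Nat.cast_mul]
            exact hqp.mul_dvd a1 a2
          · rintro ⟨h4, h5, h6, h7⟩
            rw [Int.modEq_iff_dvd, Nat.cast_mul] at h5
            have a1 : (n : ℤ) ≡ c' [ZMOD q] := Int.modEq_iff_dvd.2 ((dvd_mul_right _ _).trans h5)
            have a2 : (n : ℤ) ≡ c' [ZMOD p] := Int.modEq_iff_dvd.2 ((dvd_mul_left _ _).trans h5)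
            have h8 : (n : ℤ) ≡ (r : ℕ) [ZMOD p] := a2.trans hc2
            have h9 : n % p = r := by
              have h10 := (Int.natCast_modEq_iff.1 h8)
              unfold Nat.ModEq at h10
              rw [h10]
              exact Nat.mod_eq_of_lt hr.1
            refine ⟨⟨⟨h4, a1.trans hc1, h6, fun p' hp' => ?_⟩, ?_⟩, h9⟩
            · rcases mem_insert.1 hp' with h | h
              · rw [h, hP.per, h9]
                exact hr.2.1
              · exact h7 p' h
            · intro h10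
              exact hr.2.2 ((form_dvd a b h8).1 h10)
        rw [f3]
        apply ih hS' g (q * p) c' hg (Nat.mul_pos hq hpp)
        · intro p' hp'
          have h3 := hgq p' (mem_insert_of_mem hp')
          refine ⟨h3.1, ?_⟩
          rw [(hS' p' hp').pr.dvd_mul]
          rintro (h | h)
          · exact h3.2 h
          · exact hne p' hp' h
        · rw [← mul_assoc, Nat.cast_mul (a * q) p]
          exact h1.mul_right hgp
        · rw [← mul_assoc, Nat.cast_mul (a * q) p]
          apply IsCoprime.mul_right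
          · -- a c' + b ≡ a c + b mod a q
            obtain ⟨t, ht⟩ := hc1.symm.dvd
            obtain ⟨x, y, hxy⟩ := h2
            refine ⟨x, y - x * t, ?_⟩
            have : c' = c + q * t := by linarith
            rw [this]
            push_cast at hxy ⊢
            linear_combination hxy
          · have h4 : ¬ (p : ℤ) ∣ a * c' + b := fun h5 => hr.2.2 ((form_dvd a b hc2).1 h5)
            exact ((Prime.coprime_iff_not_dvd hpi).2 h4).symm
      calc ∑ r ∈ R, |∑ n ∈ (F.filter (fun n : ℕ => ¬ (p : ℤ) ∣ a * n + b)).filter (fun n => n % p = r), lz (a * n + b)| ≤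
          ∑ r ∈ R, ∑ U ∈ S.powerset, (κ : ℝ) ^ (S \ U).card *
            B2 (hh (a * X + b)) (hh b) (a * (q * p * ∏ p ∈ S \ U, p)) (g * ∏ p ∈ U, p) :=
            sum_le_sum h3
        _ = (R.card : ℝ) * ∑ U ∈ S.powerset, (κ : ℝ) ^ (S \ U).card *
              B2 (hh (a * X + b)) (hh b) (a * (q * p * ∏ p ∈ S \ U, p)) (g * ∏ p ∈ U, p) := by
            rw [sum_const, nsmul_eq_mul]
        _ ≤ _ := by
            apply mul_le_mul_of_nonneg_right (by exact_mod_cast hP.few)
            exact sum_nonneg fun U _ => mul_nonneg (pow_nonneg (Nat.cast_nonneg _) _) (B2_nonneg _ _ _ _)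
    refine (abs_add_le _ _).trans ?_
    rw [add_comm (∑ t ∈ S.powerset, _)]
    apply add_le_add
    · refine g1.trans (le_of_eq ?_)
      apply sum_congr rfl
      intro U hU
      have hpU : p ∉ U := fun h => hp (mem_powerset.1 hU h)
      rw [prod_insert hpU, mul_assoc]
      have e1 : insert p S \ insert p U = S \ U := by
        ext x
        simp only [mem_sdiff, mem_insert, not_or]
        constructor
        · rintro ⟨h | h, h3, h4⟩
          · exact absurd h h3
          · exact ⟨h, h4⟩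
        · rintro ⟨h, h3⟩
          refine ⟨Or.inr h, ?_, h3⟩
          rintro rfl
          exact hp h
      rw [e1]
    · refine g2.trans (le_of_eq ?_)
      rw [mul_sum]
      apply sum_congr rfl
      intro U hU
      have hpU : p ∉ U := fun h => hp (mem_powerset.1 hU h)
      have e1 : insert p S \ U = insert p (S \ U) := by
        ext x
        simp only [mem_sdiff, mem_insert]
        constructor
        · rintro ⟨h | h, h3⟩
          · exact Or.inl h
          · exact Or.inr ⟨h, h3⟩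
        · rintro (h | ⟨h, h3⟩)
          · rw [h]
            exact ⟨Or.inl rfl, hpU⟩
          · exact ⟨Or.inr h, h3⟩
      have e2 : p ∉ S \ U := fun h => hp (mem_sdiff.1 h).1
      rw [e1, card_insert_of_notMem e2, prod_insert e2, pow_succ]
      rw [mul_assoc q p]
      ring

end Pool.Agent.H530.Ha
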