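import Pool.Agent.H530.HuC
import Pool.Agent.H530.HaG

/-! Sieve conditions of bounded dimension. -/

set_option autoImplicit false

namespace Pool.Agent.H530.Ha

open Finset Pool.Agent.H373R2.T7 Filter

/-- a sieve condition of dimension at most `k` -/
structure Sv (k : ℕ) (Q : ℕ → ℕ → Prop) : Prop where
  per : ∀ p n, Q p n ↔ Q p (n % p)
  le : ∀ p : ℕ, p.Prime → nuB Q p ≤ k
  lt : ∀ p : ℕ, p.Prime → nuB Q p + 1 ≤ p

lemma Sv.mod {k : ℕ} {Q : ℕ → ℕ → Prop} (h : Sv k Q) {p m n : ℕ} (hmn : m ≡ n [MOD p]) : Q p m ↔ Q p n := by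
  rw [h.per p m, h.per p n]
  have : m % p = n % p := hmn
  rw [this]

lemma Sv.perB {k : ℕ} {Q : ℕ → ℕ → Prop} (h : Sv k Q) : PerB Q k := ⟨h.per, h.le⟩

/-- the order of magnitude of the product -/
theorem prod_low2 (k : ℕ) : ∃ c : ℝ, 0 < c ∧ ∀ Q : ℕ → ℕ → Prop, Sv k Q → ∀ y : ℕ, 3 ≤ y →
    c / Real.log y ^ k ≤ ∏ p ∈ pz y, (1 - (nuB Q p : ℝ) / p) := by
  obtain ⟨C, hC⟩ := Pool.Agent.Helper256.KM.mertens_inv
  obtain ⟨K, hK⟩ : ∃ K : ℕ, K = 2 * k + 2 := ⟨_, rfl⟩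
  have hKr0 : (0 : ℝ) < K := by exact_mod_cast (by omega : 0 < K)
  refine ⟨(1 / (K : ℝ)) ^ K * Real.exp (-(k * C + 4 * (k : ℝ) ^ 2)), by positivity, ?_⟩
  intro Q hQ y hy
  have hyr : (3 : ℝ) ≤ y := by exact_mod_cast hy
  have hKr : (2 : ℝ) ≤ K := by rw [hK]; push_cast; have : (0 : ℝ) ≤ k := Nat.cast_nonneg _; linarith
  have hlog : 1 ≤ Real.log y := by
    have h1 : Real.log 3 ≤ Real.log y := Real.log_le_log (by norm_num) hyr
    have h2 : (1 : ℝ) ≤ Real.log 3 := by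
      rw [Real.le_log_iff_exp_le (by norm_num)]
      have := Real.exp_one_lt_d9
      linarith
    linarith
  -- the factors
  have hfac : ∀ p ∈ pz y, (if p < K then 1 / (K : ℝ) else 1) * Real.exp (-((k : ℝ) * (1 / p)) - 2 * (k : ℝ) ^ 2 * (1 / (p : ℝ) ^ 2)) ≤
      1 - (nuB Q p : ℝ) / p := by
    intro p hp
    have hpp := (mem_pz.1 hp).2
    have hp0 : (0 : ℝ) < p := by exact_mod_cast hpp.pos
    by_cases h : p < K
    · rw [if_pos h]
      have h1 : ((nuB Q p : ℕ) : ℝ) + 1 ≤ p := by exact_mod_cast hQ.lt p hpp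
      have h2 : 1 / (p : ℝ) ≤ 1 - (nuB Q p : ℝ) / p := by
        rw [div_le_iff₀ hp0, sub_mul, div_mul_cancel₀ _ hp0.ne']
        linarith
      have h3 : 1 / (K : ℝ) ≤ 1 / p := one_div_le_one_div_of_le hp0 (by exact_mod_cast h.le)
      have h4 : Real.exp (-((k : ℝ) * (1 / p)) - 2 * (k : ℝ) ^ 2 * (1 / (p : ℝ) ^ 2)) ≤ 1 := by
        apply Real.exp_le_one_iff.2
        have : 0 ≤ (k : ℝ) * (1 / p) := by positivity
        have : 0 ≤ 2 * (k : ℝ) ^ 2 * (1 / (p : ℝ) ^ 2) := by positivity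
        linarith
      calc _ ≤ 1 / (K : ℝ) * 1 := mul_le_mul_of_nonneg_left h4 (by positivity)
        _ ≤ _ := by linarith
    · rw [if_neg h, one_mul]
      have hpK : (K : ℝ) ≤ p := by exact_mod_cast (not_lt.1 h)
      have h1 : (nuB Q p : ℝ) / p ≤ k / p :=
        div_le_div_of_nonneg_right (by exact_mod_cast hQ.le p hpp) hp0.le
      have h2 : (k : ℝ) / p ≤ 1 / 2 := by
        rw [div_le_div_iff₀ hp0 (by norm_num)]
        rw [hK] at hpK
        push_cast at hpK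
        linarith
      have h3 := sub_ge (x := (k : ℝ) / p) (by positivity) h2
      calc _ = Real.exp (-((k : ℝ) / p) - 2 * ((k : ℝ) / p) ^ 2) := by
            congr 1
            rw [div_pow]
            ring
        _ ≤ 1 - (k : ℝ) / p := h3
        _ ≤ _ := by linarith
  have h1 : ∏ p ∈ pz y, ((if p < K then 1 / (K : ℝ) else 1) * Real.exp (-((k : ℝ) * (1 / p)) - 2 * (k : ℝ) ^ 2 * (1 / (p : ℝ) ^ 2))) ≤
      ∏ p ∈ pz y, (1 - (nuB Q p : ℝ) / p) := by
    apply prod_le_prod _ hfac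
    intro p _
    split_ifs <;> positivity
  refine le_trans ?_ h1
  rw [prod_mul_distrib, ← Real.exp_sum]
  -- small primes
  have h2 : (1 / (K : ℝ)) ^ K ≤ ∏ p ∈ pz y, (if p < K then 1 / (K : ℝ) else 1) := by
    rw [prod_ite, prod_const, prod_const_one, mul_one]
    apply pow_le_pow_of_le_one (by positivity)
    · rw [div_le_one (by linarith)]
      linarith
    · calc _ ≤ (range K).card := by
            apply card_le_card
            intro p hp
            exact mem_range.2 (mem_filter.1 hp).2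
        _ = K := card_range K
  -- large primes
  have h3 : Real.exp (-(k * C + 4 * (k : ℝ) ^ 2)) / Real.log y ^ k ≤
      Real.exp (∑ p ∈ pz y, (-((k : ℝ) * (1 / p)) - 2 * (k : ℝ) ^ 2 * (1 / (p : ℝ) ^ 2))) := by
    rw [div_le_iff₀ (by positivity)]
    have e1 : Real.log y ^ k = Real.exp (k * Real.log (Real.log y)) := by
      rw [mul_comm, Real.exp_mul, Real.exp_log (by linarith), Real.rpow_natCast]
    rw [e1, ← Real.exp_add]
    apply Real.exp_le_exp.2
    rw [sum_sub_distrib, sum_neg_distrib, ← mul_sum, ← mul_sum]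
    have e2 := (abs_le.1 (hC y hy)).2
    have e3 : ∑ p ∈ pz y, (1 : ℝ) / p = ∑ p ∈ (Finset.Icc 1 y).filter Nat.Prime, (1 : ℝ) / p := rfl
    have e4 : ∑ p ∈ pz y, (1 : ℝ) / (p : ℝ) ^ 2 ≤ 2 := by
      refine le_trans ?_ (sum_sq y)
      apply sum_le_sum_of_subset_of_nonneg (filter_subset _ _)
      intro _ _ _
      positivity
    rw [← e3] at e2
    have hk0 : (0 : ℝ) ≤ k := Nat.cast_nonneg _
    nlinarith [mul_nonneg hk0 (by linarith : (0 : ℝ) ≤ C - (∑ p ∈ pz y, (1 : ℝ) / p - Real.log (Real.log y))),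
      mul_nonneg (sq_nonneg (k : ℝ)) (by linarith : (0 : ℝ) ≤ 2 - ∑ p ∈ pz y, (1 : ℝ) / (p : ℝ) ^ 2)]
  calc _ = (1 / (K : ℝ)) ^ K * (Real.exp (-(k * C + 4 * (k : ℝ) ^ 2)) / Real.log y ^ k) := by ring
    _ ≤ _ := mul_le_mul h2 h3 (by positivity) (prod_nonneg fun p _ => by split_ifs <;> positivity)

open Classical in
/-- the `n ≤ X` which satisfy none of the conditions for the primes `≤ y` -/
noncomputable def RQ (Q : ℕ → ℕ → Prop) (X y : ℕ) : Finset ℕ :=
  (Icc 1 X).filter (fun n => ∀ p ∈ pz y, ¬ Q p n)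

/-- the form is one of those of the sieve -/
def Hit (a : ℕ) (b : ℤ) (Q : ℕ → ℕ → Prop) : Prop := ∀ p : ℕ, p.Prime → ∀ n : ℕ, (p : ℤ) ∣ a * n + b → Q p n

lemma Hit.cop {a k : ℕ} {b : ℤ} {Q : ℕ → ℕ → Prop} (h : Hit a b Q) (hQ : Sv k Q) {p : ℕ} (hp : p.Prime)
    (hpa : p ∣ a) : ¬ (p : ℤ) ∣ b := by
  intro hpb
  have h1 := hQ.lt p hp
  have h2 : nuB Q p = p := by
    classical
    unfold nuB
    have : (range p).filter (fun r => Q p r) = range p := by
      apply filter_true_of_mem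
      intro n _
      apply h p hp n
      exact dvd_add ((Int.natCast_dvd_natCast.2 hpa).mul_right _) hpb
    rw [this, card_range]
  omega

open Classical in
/-- one class modulo the product of the small primes -/
theorem cls2 {k : ℕ} {Q : ℕ → ℕ → Prop} (hQ : Sv k Q) {a : ℕ} {b : ℤ} (ha : 1 ≤ a) (hab : Hit a b Q) {C0 z0 bb y X D q c : ℕ}
    (hC0 : 1 ≤ C0) (hFL : ∀ (b J z0 : ℕ) (P : Finset ℕ) (g : ℕ → ℝ),
      C0 ≤ b → C0 ≤ z0 → (∀ p ∈ P, p.Prime ∧ z0 < p ∧ p ≤ 2 ^ 2 ^ J) →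
      (∀ p ∈ P, 0 ≤ g p ∧ g p ≤ k / ((p : ℝ) - 1)) →
      ∀ (Ω : Finset ℕ) (w : ℕ → ℝ) (hit : ℕ → ℕ → Prop) (A : ℝ) (err : Finset ℕ → ℝ),
        (∀ m ∈ Ω, 0 ≤ w m) → 0 ≤ A →
        (∀ T ⊆ P, ∏ p ∈ T, p ≤ (2 ^ 2 ^ J) ^ (C0 * b) →
          |∑ m ∈ Ω.filter (fun m => ∀ p ∈ T, hit p m), w m - A * ∏ p ∈ T, g p| ≤ err T) →
        |∑ m ∈ Ω.filter (fun m => ∀ p ∈ P, ¬ hit p m), w m - A * ∏ p ∈ P, (1 - g p)| ≤
          (1 / 2 : ℝ) ^ b * (A * ∏ p ∈ P, (1 - g p)) +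
            ((J : ℝ) + 2) *
              ∑ T ∈ P.powerset.filter (fun T : Finset ℕ => ∏ p ∈ T, p ≤ (2 ^ 2 ^ J) ^ (C0 * b)), err T)
    (hb : C0 ≤ bb) (hz : C0 ≤ z0) (hq : q = ∏ p ∈ pz z0, p)
    (hD : D = (2 ^ 2 ^ JJ y) ^ (C0 * bb)) (hc : ∀ p ∈ pz z0, ¬ Q p c) :
    |∑ n ∈ ((Icc 1 X).filter (fun n => n ≡ c [MOD q])).filter (fun n => ∀ p ∈ (pz y).filter (fun p => z0 < p), ¬ Q p n),
      lz (a * n + b)| ≤ 2 * (1 / 2 : ℝ) ^ bb *
        ((((Icc 1 X).filter (fun n => n ≡ c [MOD q])).filter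
          (fun n => ∀ p ∈ (pz y).filter (fun p => z0 < p), ¬ Q p n)).card : ℝ) +
        4 * (((JJ y : ℕ) : ℝ) + 2) * TE2 a (hh (a * X + b)) (hh b) k q D ((pz y).filter (fun p => z0 < p)) := by
  set P := (pz y).filter (fun p => z0 < p) with hP
  set J := JJ y with hJ
  have hPp : ∀ p ∈ P, p.Prime ∧ z0 < p ∧ p ≤ 2 ^ 2 ^ J := by
    intro p hp
    rw [hP, mem_filter] at hp
    exact ⟨(mem_pz.1 hp.1).2, hp.2, ((mem_pz.1 hp.1).1.trans (JJ_lt y).le)⟩
  have hq1 : 1 ≤ q := by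
    rw [hq]
    exact Nat.pos_of_ne_zero (prod_ne_zero_iff.2 fun p hp => (mem_pz.1 hp).2.ne_zero)
  have hq0 : (0 : ℝ) < q := by exact_mod_cast hq1
  have hndq : ∀ p ∈ P, ¬ p ∣ q := by
    intro p hp hd
    rw [hq] at hd
    obtain ⟨p', hp', hd'⟩ := (Prime.dvd_finsetProd_iff (hPp p hp).1.prime _).1 hd
    have h1 := (Nat.prime_dvd_prime_iff_eq (hPp p hp).1 (mem_pz.1 hp').2).1 hd'
    have h2 := (mem_pz.1 hp').1
    have h3 := (hPp p hp).2.1
    omega
  -- coprimality of the class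
  have hcop : IsCoprime ((a : ℤ) * (c : ℤ) + b) ((a * q : ℕ) : ℤ) := by
    rw [Int.isCoprime_iff_gcd_eq_one]
    by_contra hne
    obtain ⟨p, hp, hpd⟩ := Nat.exists_prime_and_dvd hne
    have h1 : (p : ℤ) ∣ (a : ℤ) * (c : ℤ) + b :=
      (Int.natCast_dvd_natCast.2 hpd).trans (Int.gcd_dvd_left _ _)
    have h2 : (p : ℤ) ∣ ((a * q : ℕ) : ℤ) :=
      (Int.natCast_dvd_natCast.2 hpd).trans (Int.gcd_dvd_right _ _)
    have h3 : p ∣ a * q := Int.natCast_dvd_natCast.1 h2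
    rcases hp.dvd_mul.1 h3 with h4 | h4
    · apply hab.cop hQ hp h4
      have h5 : (p : ℤ) ∣ (a : ℤ) * (c : ℤ) := (Int.natCast_dvd_natCast.2 h4).mul_right _
      exact (dvd_add_right h5).1 h1
    · rw [hq] at h4
      obtain ⟨p', hp', hd'⟩ := (Prime.dvd_finsetProd_iff hp.prime _).1 h4
      have h5 := (Nat.prime_dvd_prime_iff_eq hp (mem_pz.1 hp').2).1 hd'
      rw [← h5] at hp'
      exact hc p hp' (hab p hp c h1)
  have hcnd : ∀ p ∈ P, Cz a b k Q p := by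
    intro p hp
    have h1 := hPp p hp
    refine ⟨h1.1, fun h => hab.cop hQ h1.1 h, fun n => hQ.per p n, ?_, fun n h => hab p h1.1 n h⟩
    refine le_trans ?_ (hQ.le p h1.1)
    unfold nuB
    apply card_le_card
    intro r hr
    rw [mem_filter] at hr ⊢
    exact ⟨hr.1, hr.2.1⟩
  set Ω := (Icc 1 X).filter (fun n => n ≡ c [MOD q]) with hΩ
  set F := Ω.filter (fun n => ∀ p ∈ P, ¬ Q p n) with hF
  set Λ := ∑ n ∈ F, lz (a * n + b) with hΛ
  set M : ℝ := (X : ℝ) / (2 * q) * ∏ p ∈ P, (1 - (nuB Q p : ℝ) / p) with hM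
  set TT := ((J : ℝ) + 2) * TE2 a (hh (a * X + b)) (hh b) k q D P with hTT
  have hTE0 := TE2_nonneg a (hh (a * X + b)) (hh b) k q D P
  have hTT0 : 0 ≤ TT := by positivity
  -- both signs
  have key : ∀ σ : ℝ, |σ| = 1 → |((F.card : ℝ) + σ * Λ) / 2 - M| ≤ (1 / 2 : ℝ) ^ bb * M + TT := by
    intro σ hσ
    have h := hFL bb J z0 P (fun p => (nuB Q p : ℝ) / p) hb hz hPp (fun p hp => by
        have hp0 : (0 : ℝ) < p := by exact_mod_cast (hPp p hp).1.pos
        have hp1 : (1 : ℝ) < p := by exact_mod_cast (hPp p hp).1.one_lt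
        refine ⟨by positivity, ?_⟩
        apply div_le_div₀ (Nat.cast_nonneg _) (by exact_mod_cast hQ.le p (hPp p hp).1) (by linarith) (by linarith))
      Ω (fun n => (1 + σ * lz (a * n + b)) / 2) (fun p n => Q p n) ((X : ℝ) / (2 * q))
      (fun T => (D : ℝ) + ∑ U ∈ T.powerset, (k : ℝ) ^ (T \ U).card *
        B2 (hh (a * X + b)) (hh b) (a * (q * ∏ p ∈ T \ U, p)) (1 * ∏ p ∈ U, p))
      (fun n _ => by
        have h1 : |σ * lz (a * n + b)| ≤ 1 := by
          rw [abs_mul, hσ, one_mul]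
          exact lz_abs _
        have := (abs_le.1 h1).1
        linarith) (by positivity) (by
        intro T hT hTD
        rw [← hD] at hTD
        have hTp : ∀ p ∈ T, p.Prime := fun p hp => (hPp p (hT hp)).1
        have h1 := ind2 a X k b ha Q T (fun p hp => hcnd p (hT hp)) 1 q c le_rfl hq1
          (fun p hp => ⟨(hTp p hp).one_lt.ne' ∘ Nat.dvd_one.1, hndq p (hT hp)⟩) (by
            rw [Nat.cast_one]
            exact isCoprime_one_left) hcop
        have e1 : Ω.filter (fun n => ∀ p ∈ T, Q p n) =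
            (Icc 1 X).filter (fun n : ℕ => (n : ℤ) ≡ (c : ℤ) [ZMOD q] ∧ ((1 : ℕ) : ℤ) ∣ a * n + b ∧ ∀ p ∈ T, Q p n) := by
          rw [hΩ, filter_filter]
          apply filter_congr
          intro n _
          rw [Int.natCast_modEq_iff]
          simp
        have h2 := count_sys (fun p a' => Q p a') X T hTp q hq1 (fun p hp => hndq p (hT hp)) c
        have e2 : (Icc 1 X).filter (fun n => n ≡ c [MOD q] ∧ ∀ p ∈ T, Q p (n % p)) =
            Ω.filter (fun n => ∀ p ∈ T, Q p n) := by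
          rw [hΩ, filter_filter]
          apply filter_congr
          intro n _
          constructor
          · rintro ⟨h3, h4⟩
            exact ⟨h3, fun p hp => (hQ.per p n).2 (h4 p hp)⟩
          · rintro ⟨h3, h4⟩
            exact ⟨h3, fun p hp => (hQ.per p n).1 (h4 p hp)⟩
        rw [e2] at h2
        rw [← e1] at h1
        have h3 : ∏ p ∈ T, (((range p).filter (fun a' => Q p a')).card : ℝ) ≤ D := by
          have h5 : ∏ p ∈ T, (((range p).filter (fun a' => Q p a')).card : ℝ) ≤ ∏ p ∈ T, (p : ℝ) := by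
            apply prod_le_prod (fun _ _ => Nat.cast_nonneg _)
            intro p hp
            exact_mod_cast nuB_le Q p
          refine h5.trans ?_
          have h6 : ((∏ p ∈ T, p : ℕ) : ℝ) ≤ D := by exact_mod_cast hTD
          push_cast at h6
          exact h6
        set N1 : ℝ := ((Ω.filter (fun n => ∀ p ∈ T, Q p n)).card : ℝ) with hN1
        set S1 := ∑ n ∈ Ω.filter (fun n => ∀ p ∈ T, Q p n), lz (a * n + b) with hS1
        have e3 : ∑ n ∈ Ω.filter (fun n => ∀ p ∈ T, Q p n), (1 + σ * lz (a * n + b)) / 2 =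
            (N1 + σ * S1) / 2 := by
          rw [← sum_div, sum_add_distrib, ← mul_sum, sum_const, nsmul_eq_mul, mul_one]
        have e4 : (X : ℝ) / (2 * q) * ∏ p ∈ T, ((nuB Q p : ℝ) / p) =
            ((X : ℝ) / q * ∏ p ∈ T, ((((range p).filter (fun a' => Q p a')).card : ℝ) / p)) / 2 := by
          unfold nuB
          field_simp
        rw [e3, e4]
        have e5 : (N1 + σ * S1) / 2 - ((X : ℝ) / q * ∏ p ∈ T, ((((range p).filter (fun a' => Q p a')).card : ℝ) / p)) / 2 =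
            (N1 - (X : ℝ) / q * ∏ p ∈ T, ((((range p).filter (fun a' => Q p a')).card : ℝ) / p)) / 2 + (σ * S1) / 2 := by ring
        rw [e5]
        refine (abs_add_le _ _).trans ?_
        rw [abs_div, abs_div, abs_mul, hσ, one_mul, abs_of_pos (by norm_num : (0 : ℝ) < 2)]
        have h6 := h2.trans h3
        have hDn : (0 : ℝ) ≤ D := Nat.cast_nonneg _
        have hn : 0 ≤ ∑ U ∈ T.powerset, (k : ℝ) ^ (T \ U).card *
            B2 (hh (a * X + b)) (hh b) (a * (q * ∏ p ∈ T \ U, p)) (1 * ∏ p ∈ U, p) :=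
          sum_nonneg fun U _ => mul_nonneg (by positivity) (B2_nonneg _ _ _ _)
        apply add_le_add
        · linarith
        · linarith)
    have e6 : ∑ n ∈ Ω.filter (fun n => ∀ p ∈ P, ¬ Q p n), (1 + σ * lz (a * n + b)) / 2 =
        ((F.card : ℝ) + σ * Λ) / 2 := by
      rw [← sum_div, sum_add_distrib, ← mul_sum, sum_const, nsmul_eq_mul, mul_one]
    rw [e6, ← hD] at h
    exact h
  have k1 := key 1 (by norm_num)
  have k2 := key (-1) (by norm_num)
  rw [one_mul] at k1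
  have e7 : (F.card : ℝ) + -1 * Λ = F.card - Λ := by ring
  rw [e7] at k2
  have hb1 : 1 ≤ bb := hC0.trans hb
  have hη : (1 / 2 : ℝ) ^ bb ≤ 1 / 2 := by
    calc (1 / 2 : ℝ) ^ bb ≤ (1 / 2 : ℝ) ^ 1 := pow_le_pow_of_le_one (by norm_num) (by norm_num) hb1
      _ = _ := pow_one _
  have := two_bounds (by positivity) hη hTT0 (Nat.cast_nonneg _) k1 k2
  refine this.trans (le_of_eq ?_)
  rw [hTT]
  ring


end Pool.Agent.H530.Ha
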