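import Pool.Agent.H530.HuD
import Pool.Agent.H530.HaH

/-! The Liouville function at a linear form on a sifted set: summing over the classes. -/

set_option autoImplicit false

namespace Pool.Agent.H530.Ha

open Finset Pool.Agent.H373R2.T7 Filter

open Classical in
theorem one_Q (k : ℕ) (hk : 1 ≤ k) (ε : ℝ) (hε : 0 < ε) : ∃ K : ℕ, 1 ≤ K ∧ ∀ B' : ℕ, ∃ X0 y0 : ℕ,
    ∀ Q : ℕ → ℕ → Prop, Sv k Q → ∀ X y : ℕ, X0 ≤ X → y0 ≤ y → y ^ K ≤ X →
      ∀ (a : ℕ) (b : ℤ), 1 ≤ a → Hit a b Q → (a : ℝ) ≤ Real.log X ^ B' → |(b : ℝ)| ≤ X * Real.log X ^ B' →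
      |∑ n ∈ RQ Q X y, lz (a * n + b)| ≤ ε * (RQ Q X y).card + X / Real.log X ^ (k + 1) := by
  obtain ⟨C0, hC0, hFL⟩ := Pool.Agent.H20R2.fLem k
  obtain ⟨b1, hb1⟩ := exists_pow_lt_of_lt_one (show (0 : ℝ) < ε / 2 by positivity) (show (1 / 2 : ℝ) < 1 by norm_num)
  obtain ⟨bb, hbb⟩ : ∃ bb : ℕ, bb = max C0 b1 := ⟨_, rfl⟩
  have hbC : C0 ≤ bb := by rw [hbb]; exact le_max_left _ _
  have hbε : 2 * (1 / 2 : ℝ) ^ bb ≤ ε := by
    have : (1 / 2 : ℝ) ^ bb ≤ (1 / 2) ^ b1 :=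
      pow_le_pow_of_le_one (by norm_num) (by norm_num) (by rw [hbb]; exact le_max_right _ _)
    linarith
  have hbb1 : 1 ≤ C0 * bb := Nat.mul_pos hC0 (hC0.trans hbC)
  refine ⟨16 * (C0 * bb), by omega, ?_⟩
  intro B'
  obtain ⟨z0, hz0⟩ : ∃ z0 : ℕ, z0 = C0 + k := ⟨_, rfl⟩
  obtain ⟨q, hq⟩ : ∃ q : ℕ, q = ∏ p ∈ pz z0, p := ⟨_, rfl⟩
  have hq1 : 1 ≤ q := by
    rw [hq]
    exact Nat.pos_of_ne_zero (prod_ne_zero_iff.2 fun p hp => (mem_pz.1 hp).2.ne_zero)
  obtain ⟨X0, y0, hTE⟩ := TH_bound k (k + 3) (B' + 1) q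
  obtain ⟨X1, hX1⟩ := ev_L' (max 2 (60 * q))
  obtain ⟨X2, hX2⟩ := ev_log' (k + 3) 1
  refine ⟨max (max X0 X2) X1, max y0 (z0 + 2), ?_⟩
  intro Q hQ X y hX hy hyX a b ha hab haX hbX
  have hX0 : X0 ≤ X := ((le_max_left _ _).trans (le_max_left _ _)).trans hX
  have hX2' : X2 ≤ X := ((le_max_right _ _).trans (le_max_left _ _)).trans hX
  have hX1' : X1 ≤ X := (le_max_right _ _).trans hX
  have hy0 : y0 ≤ y := (le_max_left _ _).trans hy
  have hyz : z0 + 2 ≤ y := (le_max_right _ _).trans hy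
  obtain ⟨D, hD⟩ : ∃ D : ℕ, D = (2 ^ 2 ^ JJ y) ^ (C0 * bb) := ⟨_, rfl⟩
  have hD1 : 1 ≤ D := by rw [hD]; exact Nat.one_le_pow _ _ (by positivity)
  have hD8 : D ^ 8 ≤ X := by
    refine le_trans ?_ hyX
    rw [hD]
    calc ((2 ^ 2 ^ JJ y) ^ (C0 * bb)) ^ 8 ≤ ((y ^ 2) ^ (C0 * bb)) ^ 8 :=
          Nat.pow_le_pow_left (Nat.pow_le_pow_left (JJ_le y (by omega)) _) _
      _ = y ^ (16 * (C0 * bb)) := by rw [← pow_mul, ← pow_mul]; congr 1; ring
  have hyX1 : y ≤ X := (Nat.le_self_pow (by omega) y).trans hyX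
  have hL := hX1 X hX1'
  obtain ⟨L, hLe⟩ : ∃ L : ℝ, L = Real.log X := ⟨_, rfl⟩
  have hL22 := hX2 X hX2'
  rw [← hLe] at hL haX hbX hL22
  have hL2 : 2 ≤ L := (le_max_left _ _).trans hL
  have hL1 : 1 ≤ L := by linarith
  have hLq : 60 * (q : ℝ) ≤ L := (le_max_right _ _).trans hL
  have hXp : (0 : ℝ) < X := by
    have : 1 ≤ X := by omega
    exact_mod_cast this
  set P := (pz y).filter (fun p => z0 < p) with hP
  have hm1 : 1 ≤ a * q := Nat.mul_pos ha hq1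
  have hLB0 : (1 : ℝ) ≤ L ^ B' := one_le_pow₀ hL1
  have hLB : L ^ B' ≤ L ^ (B' + 1) := pow_le_pow_right₀ hL1 (by omega)
  have hmq : ((a * q : ℕ) : ℝ) ≤ q * L ^ (B' + 1) := by
    push_cast
    rw [mul_comm]
    exact mul_le_mul_of_nonneg_left (haX.trans hLB) (Nat.cast_nonneg _)
  have hX2L : X * L ^ B' * 2 ≤ X * L ^ (B' + 1) := by
    rw [pow_succ, ← mul_assoc]
    exact mul_le_mul_of_nonneg_left hL2 (by positivity)
  have hle1 : ∀ h : ℤ, ((hh h : ℕ) : ℝ) ≤ |(h : ℝ)| := by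
    intro h
    unfold hh
    split_ifs with h0
    · have : ((h.toNat : ℕ) : ℝ) = (h : ℝ) := by
        have := Int.toNat_of_nonneg h0
        exact_mod_cast this
      rw [this]
      exact le_abs_self _
    · have : (((-h - 1).toNat : ℕ) : ℝ) = -(h : ℝ) - 1 := by
        have := Int.toNat_of_nonneg (show 0 ≤ -h - 1 by omega)
        exact_mod_cast this
      rw [this]
      have := neg_le_abs (h : ℝ)
      linarith
  have hlen0 : ((hh b : ℕ) : ℝ) ≤ X * L ^ (B' + 1) := by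
    have h1 := hle1 b
    have h2 : 0 ≤ X * L ^ B' := by positivity
    linarith
  have hlen1 : ((hh (a * X + b) : ℕ) : ℝ) ≤ X * L ^ (B' + 1) := by
    have h1 := hle1 (a * X + b)
    push_cast at h1
    have h2 : |(a : ℝ) * X + b| ≤ |(a : ℝ) * X| + |(b : ℝ)| := abs_add_le _ _
    have h3 : |(a : ℝ) * X| ≤ X * L ^ B' := by
      rw [abs_of_nonneg (by positivity), mul_comm]
      exact mul_le_mul_of_nonneg_left haX hXp.le
    linarith
  have hte1 := hTE X hX0 (hh (a * X + b)) (a * q) (by rw [← hLe]; exact hlen1) hm1 (by rw [← hLe]; exact hmq) y D hy0 hyX1 hD1 hD8 P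
    (filter_subset _ _) (fun p hp => by
      rw [hP, mem_filter] at hp
      omega)
  have hte2 := hTE X hX0 (hh b) (a * q) (by rw [← hLe]; exact hlen0) hm1 (by rw [← hLe]; exact hmq) y D hy0 hyX1 hD1 hD8 P
    (filter_subset _ _) (fun p hp => by
      rw [hP, mem_filter] at hp
      omega)
  have hte3 := TE2_le (a := a) (h1 := hh (a * X + b)) (h0 := hh b) (κ := k) (q := q) (D := D) (y := y) (P := P) (filter_subset _ _)
  have hDD : (D : ℝ) ^ 2 ≤ X / L ^ (k + 3) := by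
    rw [le_div_iff₀ (by positivity)]
    rw [one_mul] at hL22
    have e1 : (D : ℝ) ^ 2 ≤ √(X : ℝ) := by
      apply Real.le_sqrt_of_sq_le
      have h1 : (D : ℝ) ^ 8 ≤ X := by exact_mod_cast hD8
      have h2 : (1 : ℝ) ≤ D := by exact_mod_cast hD1
      calc ((D : ℝ) ^ 2) ^ 2 = (D : ℝ) ^ 4 := by ring
        _ ≤ (D : ℝ) ^ 8 := pow_le_pow_right₀ h2 (by norm_num)
        _ ≤ _ := h1
    calc (D : ℝ) ^ 2 * L ^ (k + 3) ≤ √(X : ℝ) * √(X : ℝ) :=
          mul_le_mul e1 hL22 (by positivity) (Real.sqrt_nonneg _)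
      _ = X := Real.mul_self_sqrt hXp.le
  rw [← hLe] at hte1 hte2
  have hte : TE2 a (hh (a * X + b)) (hh b) k q D P ≤ 3 * (X / L ^ (k + 3)) := by linarith
  set te := TE2 a (hh (a * X + b)) (hh b) k q D P with hte'
  -- decomposition into classes
  set G := (range q).filter (fun c => ∀ p ∈ pz z0, ¬ Q p c) with hG
  have hdq : ∀ p ∈ pz z0, p ∣ q := by
    intro p hp
    rw [hq]
    exact dvd_prod_of_mem _ hp
  have hfib : ∀ f : ℕ → ℝ, ∑ n ∈ RQ Q X y, f n = ∑ c ∈ G,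
      ∑ n ∈ ((Icc 1 X).filter (fun n => n ≡ c [MOD q])).filter (fun n => ∀ p ∈ P, ¬ Q p n), f n := by
    intro f
    rw [← sum_fiberwise_of_maps_to (s := RQ Q X y) (t := G) (g := fun n => n % q)]
    · apply sum_congr rfl
      intro c hc
      rw [hG, mem_filter, mem_range] at hc
      apply sum_congr _ fun _ _ => rfl
      ext n
      rw [mem_filter, mem_filter, mem_filter, RQ, mem_filter]
      constructor
      · rintro ⟨⟨h1, h2⟩, h3⟩
        refine ⟨⟨h1, ?_⟩, fun p hp => h2 p ((mem_filter.1 hp).1)⟩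
        rw [← h3]
        exact (Nat.mod_modEq n q).symm
      · rintro ⟨⟨h1, h2⟩, h3⟩
        refine ⟨⟨h1, ?_⟩, ?_⟩
        · intro p hp
          by_cases hpz : z0 < p
          · exact h3 p (mem_filter.2 ⟨hp, hpz⟩)
          · have hp0 : p ∈ pz z0 := mem_pz.2 ⟨by omega, (mem_pz.1 hp).2⟩
            intro h
            apply hc.2 p hp0
            exact (hQ.mod (h2.of_dvd (hdq p hp0))).1 h
        · have := h2
          unfold Nat.ModEq at this
          rw [Nat.mod_eq_of_lt hc.1] at this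
          exact this
    · intro n hn
      rw [RQ, mem_filter] at hn
      rw [hG, mem_filter, mem_range]
      refine ⟨Nat.mod_lt _ hq1, fun p hp h => ?_⟩
      have hpy : p ∈ pz y := mem_pz.2 ⟨by have := (mem_pz.1 hp).1; omega, (mem_pz.1 hp).2⟩
      apply hn.2 p hpy
      exact (hQ.mod ((Nat.mod_modEq n q).symm.of_dvd (hdq p hp))).2 h
  rw [hfib]
  have hcard : ((RQ Q X y).card : ℝ) = ∑ c ∈ G,
      ((((Icc 1 X).filter (fun n => n ≡ c [MOD q])).filter (fun n => ∀ p ∈ P, ¬ Q p n)).card : ℝ) := by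
    have := hfib (fun _ => 1)
    simpa using this
  rw [hcard]
  have hGq : (G.card : ℝ) ≤ q := by
    have : G.card ≤ q := by
      rw [hG]
      refine (card_filter_le _ _).trans ?_
      rw [card_range]
    exact_mod_cast this
  have hJ0 : (0 : ℝ) ≤ ((JJ y : ℕ) : ℝ) := Nat.cast_nonneg _
  have hte0 : 0 ≤ (X : ℝ) / L ^ (k + 3) := by positivity
  have hJL : ((JJ y : ℕ) : ℝ) + 2 ≤ 5 * L := by
    have h1 := JJ_log (y := y) (by omega)
    have h2 : Real.log y ≤ L := by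
      rw [hLe]
      apply Real.log_le_log
      · exact_mod_cast (by omega : 0 < y)
      · exact_mod_cast hyX1
    linarith
  calc |∑ c ∈ G, ∑ n ∈ ((Icc 1 X).filter (fun n => n ≡ c [MOD q])).filter (fun n => ∀ p ∈ P, ¬ Q p n),
        lz (a * n + b)|
      ≤ ∑ c ∈ G, |∑ n ∈ ((Icc 1 X).filter (fun n => n ≡ c [MOD q])).filter (fun n => ∀ p ∈ P, ¬ Q p n),
        lz (a * n + b)| := abs_sum_le_sum_abs _ _
    _ ≤ ∑ c ∈ G, (2 * (1 / 2 : ℝ) ^ bb *
          ((((Icc 1 X).filter (fun n => n ≡ c [MOD q])).filter (fun n => ∀ p ∈ P, ¬ Q p n)).card : ℝ) +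
          4 * (((JJ y : ℕ) : ℝ) + 2) * te) := by
        apply sum_le_sum
        intro c hc
        rw [hG, mem_filter] at hc
        exact cls2 hQ ha hab hC0 hFL hbC (by omega) hq hD hc.2
    _ = 2 * (1 / 2 : ℝ) ^ bb * (∑ c ∈ G,
          ((((Icc 1 X).filter (fun n => n ≡ c [MOD q])).filter (fun n => ∀ p ∈ P, ¬ Q p n)).card : ℝ)) +
          G.card * (4 * (((JJ y : ℕ) : ℝ) + 2) * te) := by
        rw [sum_add_distrib, ← mul_sum, sum_const, nsmul_eq_mul]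
    _ ≤ ε * (∑ c ∈ G,
          ((((Icc 1 X).filter (fun n => n ≡ c [MOD q])).filter (fun n => ∀ p ∈ P, ¬ Q p n)).card : ℝ)) +
          q * (4 * (5 * L) * (3 * (X / L ^ (k + 3)))) := by
        apply add_le_add
        · exact mul_le_mul_of_nonneg_right hbε (sum_nonneg fun _ _ => Nat.cast_nonneg _)
        · have h1 : 4 * (((JJ y : ℕ) : ℝ) + 2) * te ≤ 4 * (5 * L) * (3 * (X / L ^ (k + 3))) := by
            calc 4 * (((JJ y : ℕ) : ℝ) + 2) * te ≤ 4 * (((JJ y : ℕ) : ℝ) + 2) * (3 * (X / L ^ (k + 3))) :=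
                  mul_le_mul_of_nonneg_left hte (by positivity)
              _ ≤ _ := mul_le_mul_of_nonneg_right (by linarith) (by positivity)
          calc (G.card : ℝ) * (4 * (((JJ y : ℕ) : ℝ) + 2) * te) ≤ G.card * (4 * (5 * L) * (3 * (X / L ^ (k + 3)))) :=
                mul_le_mul_of_nonneg_left h1 (Nat.cast_nonneg _)
            _ ≤ _ := mul_le_mul_of_nonneg_right hGq (by positivity)
    _ ≤ _ := by
        apply add_le_add le_rfl
        rw [← hLe]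
        have e1 : (X : ℝ) / L ^ (k + 1) = L ^ 2 * (X / L ^ (k + 3)) := by
          field_simp
          ring
        rw [e1]
        have e2 : (q : ℝ) * (4 * (5 * L) * (3 * (X / L ^ (k + 3)))) = (60 * q * L) * (X / L ^ (k + 3)) := by ring
        rw [e2]
        apply mul_le_mul_of_nonneg_right _ hte0
        nlinarith


end Pool.Agent.H530.Ha
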