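import Pool.Agent.H530.HuE
import Pool.Agent.H530.HaK

/-! Sifted sets and the Liouville function at all the linear forms of the sieve. -/

set_option autoImplicit false

namespace Pool.Agent.H530.Ha

open Finset Pool.Agent.H373R2.T7 Filter

open Classical in
/-- all forms at once, with the count -/
theorem all_Q (k : ℕ) (hk : 1 ≤ k) : ∃ c : ℝ, 0 < c ∧ ∀ ε : ℝ, 0 < ε → ∃ K : ℕ, 1 ≤ K ∧ ∀ B' : ℕ,
    ∃ X0 y0 : ℕ, ∀ Q : ℕ → ℕ → Prop, Sv k Q → ∀ X y : ℕ, X0 ≤ X → y0 ≤ y → y ^ K ≤ X →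
      c * (X / Real.log X ^ k) ≤ (RQ Q X y).card ∧
      |((RQ Q X y).card : ℝ) - X * ∏ p ∈ pz y, (1 - (nuB Q p : ℝ) / p)| ≤ ε * (RQ Q X y).card ∧
      ∀ (a : ℕ) (b : ℤ), 1 ≤ a → Hit a b Q → (a : ℝ) ≤ Real.log X ^ B' → |(b : ℝ)| ≤ X * Real.log X ^ B' →
        |∑ n ∈ RQ Q X y, lz (a * n + b)| ≤ ε * (RQ Q X y).card := by
  obtain ⟨c1, hc1, H3⟩ := prod_low2 k
  refine ⟨c1 / 4, by positivity, fun ε hε => ?_⟩
  obtain ⟨e, he⟩ : ∃ e : ℝ, e = min (1 / 4) (ε / 4) := ⟨_, rfl⟩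
  have he0 : 0 < e := by rw [he]; exact lt_min (by norm_num) (by positivity)
  have he4 : e ≤ 1 / 4 := by rw [he]; exact min_le_left _ _
  have heε : e ≤ ε / 4 := by rw [he]; exact min_le_right _ _
  obtain ⟨K2, x2, hK2, H2⟩ := sys_fund k hk e he0
  obtain ⟨K1, hK1, H0⟩ := one_Q k hk (ε / 2) (by positivity)
  refine ⟨K1 + K2, by omega, fun B' => ?_⟩
  obtain ⟨X1, y1, H1⟩ := H0 B'
  obtain ⟨X4, hX4⟩ := ev_log' k (1 / (c1 * e))
  obtain ⟨X5, hX5⟩ := ev_L' (max 1 (8 / (c1 * ε)))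
  refine ⟨X1 + X4 + X5 + 3, y1 + x2 + 3, ?_⟩
  intro Q hQ X y hX hy hyX
  have hXp : (0 : ℝ) < X := by exact_mod_cast (by omega : 0 < X)
  have hyX1 : y ≤ X := (Nat.le_self_pow (by omega) y).trans hyX
  obtain ⟨L, hL⟩ : ∃ L : ℝ, L = Real.log X := ⟨_, rfl⟩
  have h5 := hX5 X (by omega)
  have h4 := hX4 X (by omega)
  rw [← hL] at h4 h5
  have hL1 : 1 ≤ L := (le_max_left _ _).trans h5
  have hLc : 8 / (c1 * ε) ≤ L := (le_max_right _ _).trans h5
  have hL0 : 0 < L := by linarith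
  have h2 := H2 X y (by omega) ((Nat.pow_le_pow_right (by omega) (by omega)).trans hyX) Q hQ.perB X
  have h3 := H3 Q hQ y (by omega)
  set Pi0 := ∏ p ∈ pz y, (1 - (nuB Q p : ℝ) / p) with hPi
  have hly : Real.log y ≤ L := by
    rw [hL]
    apply Real.log_le_log
    · exact_mod_cast (by omega : 0 < y)
    · exact_mod_cast hyX1
  have hly0 : 0 < Real.log y := Real.log_pos (by exact_mod_cast (by omega : 1 < y))
  have hPi1 : c1 / L ^ k ≤ Pi0 := by
    refine le_trans ?_ h3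
    apply div_le_div_of_nonneg_left hc1.le (by positivity)
    exact pow_le_pow_left₀ hly0.le hly k
  have e6 : ((RQ Q X y).card : ℝ) = (((Icc 1 X).filter (fun n : ℕ => ∀ p ∈ pz y, ¬ Q p n)).card : ℕ) := by
    rw [RQ]
  rw [← e6] at h2
  obtain ⟨M, hM⟩ : ∃ M : ℝ, M = X * Pi0 := ⟨_, rfl⟩
  rw [← hM] at h2 ⊢
  have hM1 : c1 * (X / L ^ k) ≤ M := by
    rw [hM]
    calc c1 * (X / L ^ k) = X * (c1 / L ^ k) := by ring
      _ ≤ _ := mul_le_mul_of_nonneg_left hPi1 hXp.le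
  have hM0 : 0 < M := lt_of_lt_of_le (by positivity) hM1
  have hsq : √(X : ℝ) ≤ e * M := by
    have e3 : √(X : ℝ) * (1 / (c1 * e) * L ^ k) ≤ √X * √X := mul_le_mul_of_nonneg_left h4 (Real.sqrt_nonneg _)
    rw [Real.mul_self_sqrt hXp.le] at e3
    have h6 : (0 : ℝ) < 1 / (c1 * e) * L ^ k := by positivity
    have : √(X : ℝ) ≤ X / (1 / (c1 * e) * L ^ k) := by rwa [le_div_iff₀ h6]
    refine this.trans (le_trans (le_of_eq ?_) (mul_le_mul_of_nonneg_left hM1 he0.le))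
    field_simp
  set G : ℝ := ((RQ Q X y).card : ℝ) with hG
  have h7 := abs_le.1 h2
  have hMG : M ≤ 2 * G := by nlinarith
  have hcard : c1 / 4 * (X / L ^ k) ≤ G := by nlinarith
  have hG0 : 0 ≤ G := by linarith
  rw [← hL]
  refine ⟨hcard, ?_, fun a b ha hab haX hbX => ?_⟩
  · have h8 : 2 * e * M ≤ ε * G := by nlinarith
    rw [abs_le]
    constructor <;> linarith
  have h1 := H1 Q hQ X y (by omega) (by omega)
    ((Nat.pow_le_pow_right (by omega) (by omega)).trans hyX) a b ha hab (by rw [← hL]; exact haX) (by rw [← hL]; exact hbX)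
  refine h1.trans ?_
  have e1 : (X : ℝ) / L ^ (k + 1) ≤ ε / 2 * G := by
    have h8 : ε / 2 * (c1 / 4 * (X / L ^ k)) ≤ ε / 2 * G := mul_le_mul_of_nonneg_left hcard (by positivity)
    refine le_trans ?_ h8
    have h9 : 8 ≤ L * (c1 * ε) := by rwa [div_le_iff₀ (by positivity)] at hLc
    have h10 : (X : ℝ) / L ^ (k + 1) = (X / L ^ k) / L := by
      rw [pow_succ]
      field_simp
    rw [h10, div_le_iff₀ hL0]
    have h11 : 0 ≤ (X : ℝ) / L ^ k := by positivity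
    nlinarith
  rw [← hL]
  linarith

open Classical in
/-- the `n ≤ X` which satisfy none of the conditions for the primes `p` with `p ^ R ≤ X` -/
noncomputable def GQ (Q : ℕ → ℕ → Prop) (R X : ℕ) : Finset ℕ :=
  (Icc 1 X).filter (fun n => ∀ p : ℕ, p.Prime → p ^ R ≤ X → ¬ Q p n)

/-- the primes `p` with `p ^ R ≤ X` -/
def PR (R X : ℕ) : Finset ℕ := (Icc 1 X).filter (fun p => p.Prime ∧ p ^ R ≤ X)

lemma root_ex {R : ℕ} (hR : 1 ≤ R) (X : ℕ) : ∃ y, y ^ R ≤ X ∧ X < (y + 1) ^ R := by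
  obtain ⟨y, hy⟩ : ∃ y, y = Nat.findGreatest (fun y => y ^ R ≤ X) X := ⟨_, rfl⟩
  have h0 : y ^ R ≤ X := by
    have := Nat.findGreatest_spec (P := fun y => y ^ R ≤ X) (m := 0) (Nat.zero_le X) (by
      rw [zero_pow (by omega)]
      exact Nat.zero_le _)
    rw [hy]
    exact this
  refine ⟨y, h0, ?_⟩
  by_contra h
  push Not at h
  have h3 : y + 1 ≤ X := (Nat.le_self_pow (by omega) (y + 1)).trans h
  have := Nat.le_findGreatest (P := fun y => y ^ R ≤ X) h3 h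
  omega

lemma GQ_eq (Q : ℕ → ℕ → Prop) {R X y : ℕ} (hR : 1 ≤ R) (h1 : y ^ R ≤ X) (h2 : X < (y + 1) ^ R) :
    GQ Q R X = RQ Q X y ∧ PR R X = pz y := by
  classical
  have key : ∀ p : ℕ, p ^ R ≤ X ↔ p ≤ y := by
    intro p
    constructor
    · intro h
      by_contra h3
      push Not at h3
      have : (y + 1) ^ R ≤ p ^ R := Nat.pow_le_pow_left h3 R
      omega
    · intro h
      exact (Nat.pow_le_pow_left h R).trans h1
  constructor
  · unfold GQ RQ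
    apply filter_congr
    intro n _
    constructor
    · intro h p hp
      exact h p (mem_pz.1 hp).2 ((key p).2 (mem_pz.1 hp).1)
    · intro h p hp hpX
      exact h p (mem_pz.2 ⟨(key p).1 hpX, hp⟩)
  · ext p
    rw [PR, mem_filter, mem_Icc, mem_pz, key]
    constructor
    · rintro ⟨-, h3, h4⟩
      exact ⟨h4, h3⟩
    · rintro ⟨h3, h4⟩
      exact ⟨⟨h4.one_le, (Nat.le_self_pow (by omega) p).trans ((key p).2 h3)⟩, h4, h3⟩

open Classical in
/-- the engine -/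
theorem eng (k : ℕ) (hk : 1 ≤ k) : ∃ c : ℝ, 0 < c ∧ ∀ ε : ℝ, 0 < ε → ∃ R : ℕ, 1 ≤ R ∧ ∀ B : ℕ,
    ∃ X0 : ℕ, ∀ Q : ℕ → ℕ → Prop, Sv k Q → ∀ X : ℕ, X0 ≤ X →
      c * (X / Real.log X ^ k) ≤ (GQ Q R X).card ∧
      |((GQ Q R X).card : ℝ) - X * ∏ p ∈ PR R X, (1 - (nuB Q p : ℝ) / p)| ≤ ε * (GQ Q R X).card ∧
      ∀ (a : ℕ) (b : ℤ), 1 ≤ a → Hit a b Q → (a : ℝ) ≤ Real.log X ^ B → |(b : ℝ)| ≤ X * Real.log X ^ B →
        |∑ n ∈ GQ Q R X, lz (a * n + b)| ≤ ε * (GQ Q R X).card := by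
  obtain ⟨c, hc, H⟩ := all_Q k hk
  refine ⟨c, hc, fun ε hε => ?_⟩
  obtain ⟨R, hR, H1⟩ := H ε hε
  refine ⟨R, hR, fun B => ?_⟩
  obtain ⟨X0, y0, H2⟩ := H1 B
  refine ⟨X0 + (y0 + 1) ^ R, fun Q hQ X hX => ?_⟩
  obtain ⟨y, hy1, hy2⟩ := root_ex hR X
  have hyy : y0 ≤ y := by
    by_contra h
    push Not at h
    have : (y + 1) ^ R ≤ (y0 + 1) ^ R := Nat.pow_le_pow_left (by omega) R
    omega
  obtain ⟨e1, e2⟩ := GQ_eq Q hR hy1 hy2
  rw [e1, e2]
  exact H2 Q hQ X y (by omega) hyy hy1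

/-- `p` divides one of the values -/
def QZ {k : ℕ} (A B : Fin k → ℤ) (p n : ℕ) : Prop := ∃ j, (p : ℤ) ∣ A j * n + B j

/-- no prime divides the product of the values at all integers -/
def AdZ {k : ℕ} (A B : Fin k → ℤ) : Prop := ∀ p : ℕ, p.Prime → ∃ n : ℤ, ∀ j, ¬ (p : ℤ) ∣ A j * n + B j

lemma QZ_mod {k : ℕ} (A B : Fin k → ℤ) {p m n : ℕ} (h : m ≡ n [MOD p]) : QZ A B p m ↔ QZ A B p n := by
  unfold QZ
  refine exists_congr fun j => ?_
  have h1 : (m : ℤ) ≡ n [ZMOD p] := Int.natCast_modEq_iff.2 h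
  have h2 : A j * (m : ℤ) + B j ≡ A j * n + B j [ZMOD p] := (h1.mul_left _).add_right _
  rw [← Int.modEq_zero_iff_dvd, ← Int.modEq_zero_iff_dvd]
  exact ⟨fun h3 => h2.symm.trans h3, fun h3 => h2.trans h3⟩

lemma one_rootZ {A B : ℤ} {p : ℕ} (hp : p.Prime) (h : ¬ ((p : ℤ) ∣ A ∧ (p : ℤ) ∣ B)) :
    ((range p).filter (fun r : ℕ => (p : ℤ) ∣ A * r + B)).card ≤ 1 := by
  rw [card_le_one]
  intro r hr s hs
  rw [mem_filter, mem_range] at hr hs
  have hpi : Prime (p : ℤ) := Nat.prime_iff_prime_int.1 hp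
  have h1 : (p : ℤ) ∣ A * (r - s) := by
    have := dvd_sub hr.2 hs.2
    have e : A * (r : ℤ) + B - (A * s + B) = A * (r - s) := by ring
    rwa [e] at this
  rcases hpi.dvd_or_dvd h1 with h2 | h2
  · exfalso
    exact h ⟨h2, (dvd_add_right (h2.mul_right _)).1 hr.2⟩
  · have h3 : s ≡ r [MOD p] := by
      rw [← Int.natCast_modEq_iff]
      exact Int.modEq_iff_dvd.2 h2
    exact (Nat.ModEq.eq_of_lt_of_lt h3 hs.1 hr.1).symm

lemma sv_QZ {k : ℕ} {A B : Fin k → ℤ} (h : AdZ A B) : Sv k (QZ A B) := by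
  classical
  refine ⟨fun p n => QZ_mod A B (Nat.mod_modEq n p).symm, fun p hp => ?_, fun p hp => ?_⟩
  · have h1 : ∀ j, ¬ ((p : ℤ) ∣ A j ∧ (p : ℤ) ∣ B j) := by
      rintro j ⟨h2, h3⟩
      obtain ⟨n, hn⟩ := h p hp
      exact hn j (dvd_add (h2.mul_right n) h3)
    unfold nuB
    calc _ ≤ (univ.biUnion fun j : Fin k => (range p).filter (fun r : ℕ => (p : ℤ) ∣ A j * r + B j)).card := by
          apply card_le_card
          intro r hr
          rw [mem_filter] at hr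
          obtain ⟨j, hj⟩ := hr.2
          rw [mem_biUnion]
          exact ⟨j, mem_univ _, mem_filter.2 ⟨hr.1, hj⟩⟩
      _ ≤ ∑ j : Fin k, ((range p).filter (fun r : ℕ => (p : ℤ) ∣ A j * r + B j)).card := card_biUnion_le
      _ ≤ ∑ j : Fin k, 1 := sum_le_sum fun j _ => one_rootZ hp (h1 j)
      _ = k := by simp
  · obtain ⟨n, hn⟩ := h p hp
    have hp0 : (0 : ℤ) < p := by exact_mod_cast hp.pos
    have hs : (((n % p).toNat : ℕ) : ℤ) = n % p := Int.toNat_of_nonneg (Int.emod_nonneg _ hp0.ne')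
    have hnq : ¬ QZ A B p (n % p).toNat := by
      rintro ⟨j, hj⟩
      apply hn j
      rw [hs] at hj
      have h2 : A j * n + B j ≡ A j * (n % p) + B j [ZMOD p] := ((Int.mod_modEq n p).symm.mul_left _).add_right _
      rw [← Int.modEq_zero_iff_dvd] at hj ⊢
      exact h2.trans hj
    have hlt : (n % p).toNat < p := by
      have := Int.emod_lt_of_pos n hp0
      omega
    unfold nuB
    have h1 : ((range p).filter (fun r => QZ A B p r)).card < (range p).card := by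
      apply card_lt_card
      rw [ssubset_iff_subset_ne]
      refine ⟨filter_subset _ _, fun h2 => ?_⟩
      have h3 : (n % p).toNat ∈ (range p).filter (fun r => QZ A B p r) := by
        rw [h2]
        exact mem_range.2 hlt
      exact hnq (mem_filter.1 h3).2
    rw [card_range] at h1
    exact h1

/-- every form of the system is one of those of the sieve, up to the sign -/
lemma hit_QZ {k : ℕ} {A B : Fin k → ℤ} (j : Fin k) (hA : A j ≠ 0) : ∃ (a : ℕ) (b : ℤ), 1 ≤ a ∧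
    (a : ℝ) = |(A j : ℝ)| ∧ |(b : ℝ)| = |(B j : ℝ)| ∧ Hit a b (QZ A B) ∧
    ∀ n : ℕ, (A j * n + B j).natAbs = ((a : ℤ) * n + b).natAbs := by
  rcases lt_or_gt_of_ne hA with h | h
  · refine ⟨(A j).natAbs, - B j, by omega, ?_, ?_, ?_, ?_⟩
    · rw [Nat.cast_natAbs]; push_cast; rfl
    · push_cast; rw [abs_neg]
    · intro p _ n hd
      refine ⟨j, ?_⟩
      have e : (((A j).natAbs : ℕ) : ℤ) * n + -B j = -(A j * n + B j) := by
        rw [Int.ofNat_natAbs_of_nonpos h.le]; ring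
      rw [e] at hd
      exact (dvd_neg.1 hd)
    · intro n
      have e : (((A j).natAbs : ℕ) : ℤ) * n + -B j = -(A j * n + B j) := by
        rw [Int.ofNat_natAbs_of_nonpos h.le]; ring
      rw [e, Int.natAbs_neg]
  · refine ⟨(A j).natAbs, B j, by omega, ?_, rfl, ?_, ?_⟩
    · rw [Nat.cast_natAbs]; push_cast; rfl
    · intro p _ n hd
      refine ⟨j, ?_⟩
      rwa [Int.natAbs_of_nonneg h.le] at hd
    · intro n
      rw [Int.natAbs_of_nonneg h.le]

end Pool.Agent.H530.Ha
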