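import Pool.Agent.H530.HuF

/-! Systems of integral linear forms, uniformly. -/

set_option autoImplicit false

namespace Pool.Agent.H530.Ha

open Finset Pool.Agent.H373R2.T7 Filter

open Classical in
/-- consequences of the balance of the parities -/
theorem bal (k : ℕ) (hk : 1 ≤ k) : ∃ δ : ℝ, 0 < δ ∧ ∀ ε : ℝ, 0 < ε → ∃ e : ℝ, 0 < e ∧ e ≤ ε ∧
    ∀ (G : Finset ℕ) (v : Fin k → ℕ → ℕ), (∀ j, ∀ n ∈ G, v j n ≠ 0) →
      (∀ j, |∑ n ∈ G, la (v j n)| ≤ e * (G.card : ℝ)) →
      (∀ j, |((G.filter (fun n => Odd (ArithmeticFunction.cardFactors (v j n)))).card : ℝ) -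
        (1 / 2 : ℝ) * G.card| ≤ ε * G.card) ∧
      (∀ i j, |((G.filter (fun n => Odd (ArithmeticFunction.cardFactors (v i n)) ∧
          Odd (ArithmeticFunction.cardFactors (v j n)))).card : ℝ) -
        ((G.filter (fun n => Even (ArithmeticFunction.cardFactors (v i n)) ∧
          Even (ArithmeticFunction.cardFactors (v j n)))).card : ℝ)| ≤ ε * G.card) ∧
      (G.card : ℝ) ≤ (k + 2) * ((G.filter (fun n =>
        k ≤ 2 * (univ.filter (fun j => Odd (ArithmeticFunction.cardFactors (v j n)))).card)).card : ℝ) ∧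
      ∀ w : Fin k → ℝ, δ * G.card ≤ ((G.filter (fun n =>
        0 ≤ ∑ j, w j * (-1) ^ ArithmeticFunction.cardFactors (v j n))).card : ℝ) := by
  obtain ⟨ε1, δ, hε1, hδ, HS⟩ := half_space k
  refine ⟨δ, hδ, fun ε hε => ?_⟩
  have hk0 : (0 : ℝ) < k := by exact_mod_cast hk
  obtain ⟨e, he⟩ : ∃ e : ℝ, e = min ε (min ε1 (1 / (2 * k * (k + 2)))) := ⟨_, rfl⟩
  have he0 : 0 < e := by
    rw [he]
    refine lt_min hε (lt_min hε1 (by positivity))
  have heε : e ≤ ε := by rw [he]; exact min_le_left _ _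
  have heε1 : e ≤ ε1 := by rw [he]; exact (min_le_right _ _).trans (min_le_left _ _)
  have hek : e * (2 * k * (k + 2)) ≤ 1 := by
    have : e ≤ 1 / (2 * k * (k + 2)) := by rw [he]; exact (min_le_right _ _).trans (min_le_right _ _)
    rwa [le_div_iff₀ (by positivity)] at this
  refine ⟨e, he0, heε, fun G v hne H2 => ?_⟩
  have hG0 : (0 : ℝ) ≤ G.card := Nat.cast_nonneg _
  refine ⟨?_, ?_, ?_, ?_⟩
  · intro j
    have h1 := H2 j
    rw [odd_sum (hne j)] at h1
    have h3 := abs_le.1 h1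
    have h4 : e * (G.card : ℝ) ≤ ε * G.card := mul_le_mul_of_nonneg_right heε hG0
    have h5 : 0 ≤ e * (G.card : ℝ) := by positivity
    rw [abs_le]
    constructor <;> linarith
  · intro i j
    have h1 := H2 i
    have h2 := H2 j
    have h3 : ∑ n ∈ G, (la (v i n) + la (v j n)) =
        2 * ((G.filter (fun n => Even (ArithmeticFunction.cardFactors (v i n)) ∧
          Even (ArithmeticFunction.cardFactors (v j n)))).card : ℝ) -
        2 * ((G.filter (fun n => Odd (ArithmeticFunction.cardFactors (v i n)) ∧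
          Odd (ArithmeticFunction.cardFactors (v j n)))).card : ℝ) := by
      have h4 : ∀ n ∈ G, la (v i n) + la (v j n) =
          2 * (if Even (ArithmeticFunction.cardFactors (v i n)) ∧
            Even (ArithmeticFunction.cardFactors (v j n)) then 1 else 0) -
          2 * (if Odd (ArithmeticFunction.cardFactors (v i n)) ∧
            Odd (ArithmeticFunction.cardFactors (v j n)) then 1 else 0) := by
        intro n hn
        rw [la_eq (hne i n hn), la_eq (hne j n hn)]
        rcases Nat.even_or_odd (ArithmeticFunction.cardFactors (v i n)) with hi | hi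
        · rcases Nat.even_or_odd (ArithmeticFunction.cardFactors (v j n)) with hj | hj
          · have hi' := Nat.not_odd_iff_even.2 hi
            rw [if_pos ⟨hi, hj⟩, if_neg (fun h => hi' h.1), hi.neg_one_pow, hj.neg_one_pow]
            norm_num
          · have hi' := Nat.not_odd_iff_even.2 hi
            have hj' := Nat.not_even_iff_odd.2 hj
            rw [if_neg (fun h => hj' h.2), if_neg (fun h => hi' h.1), hi.neg_one_pow, hj.neg_one_pow]
            norm_num
        · rcases Nat.even_or_odd (ArithmeticFunction.cardFactors (v j n)) with hj | hj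
          · have hi' := Nat.not_even_iff_odd.2 hi
            have hj' := Nat.not_odd_iff_even.2 hj
            rw [if_neg (fun h => hi' h.1), if_neg (fun h => hj' h.2), hi.neg_one_pow, hj.neg_one_pow]
            norm_num
          · have hi' := Nat.not_even_iff_odd.2 hi
            rw [if_neg (fun h => hi' h.1), if_pos ⟨hi, hj⟩, hi.neg_one_pow, hj.neg_one_pow]
            norm_num
      rw [sum_congr rfl h4, sum_sub_distrib, ← mul_sum, ← mul_sum, sum_boole, sum_boole]
    rw [sum_add_distrib] at h3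
    have h5 := abs_le.1 h1
    have h6 := abs_le.1 h2
    have h4 : e * (G.card : ℝ) ≤ ε * G.card := mul_le_mul_of_nonneg_right heε hG0
    rw [abs_le]
    constructor <;> linarith
  · apply avg hk G (fun j n => Odd (ArithmeticFunction.cardFactors (v j n))) e hek
    intro j
    have h1 := H2 j
    rw [odd_sum (hne j)] at h1
    have h3 := abs_le.1 h1
    have h5 : 0 ≤ e * (G.card : ℝ) := by positivity
    linarith
  · intro w
    have h1 := HS G (fun n j => decide (Even (ArithmeticFunction.cardFactors (v j n)))) (fun j => by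
      have h2 : ∑ n ∈ G, sg (fun j => decide (Even (ArithmeticFunction.cardFactors (v j n)))) j =
          ∑ n ∈ G, la (v j n) := by
        apply sum_congr rfl
        intro n hn
        rw [la_eq (hne j n hn)]
        unfold sg
        simp only [decide_eq_true_eq]
        split_ifs with h
        · rw [h.neg_one_pow]
        · rw [Nat.not_even_iff_odd] at h
          rw [h.neg_one_pow]
      rw [h2]
      exact (H2 j).trans (mul_le_mul_of_nonneg_right heε1 hG0)) w
    refine h1.trans (le_of_eq ?_)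
    congr 2
    apply filter_congr
    intro n hn
    have h3 : ∑ j, w j * sg (fun j => decide (Even (ArithmeticFunction.cardFactors (v j n)))) j =
        ∑ j, w j * (-1) ^ ArithmeticFunction.cardFactors (v j n) := by
      apply sum_congr rfl
      intro j _
      congr 1
      unfold sg
      simp only [decide_eq_true_eq]
      split_ifs with h
      · rw [h.neg_one_pow]
      · rw [Nat.not_even_iff_odd] at h
        rw [h.neg_one_pow]
    rw [h3]

/-- few prime factors -/
lemma Om_le2 {X R m : ℕ} {T : ℝ} (hX1 : 1 ≤ X) (hm : m ≠ 0) (hT : 0 ≤ T) (hX : T ^ R < X) (hmA : (m : ℝ) ≤ X * T)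
    (h : ∀ p : ℕ, p.Prime → p ∣ m → X < p ^ R) : ArithmeticFunction.cardFactors m ≤ R := by
  by_contra hc
  push Not at hc
  have h1 := Om_le hm h
  have h2 : X ^ (R + 1) ≤ X ^ ArithmeticFunction.cardFactors m := Nat.pow_le_pow_right (by omega) hc
  have h3 : (X : ℝ) ^ (R + 1) ≤ (m : ℝ) ^ R := by exact_mod_cast h2.trans h1
  have h4 : (m : ℝ) ^ R ≤ (X * T) ^ R := pow_le_pow_left₀ (Nat.cast_nonneg _) hmA R
  have hX0 : (0 : ℝ) < X := by exact_mod_cast hX1
  have h5 : (X : ℝ) ^ R * T ^ R < X ^ R * X := mul_lt_mul_of_pos_left hX (by positivity)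
  rw [mul_pow] at h4
  rw [pow_succ] at h3
  linarith

open Classical in
/-- the theorem on systems of integral linear forms, uniform in the coefficients -/
theorem sysZ (k : ℕ) (hk : 1 ≤ k) : ∃ c δ : ℝ, 0 < c ∧ 0 < δ ∧ ∀ ε : ℝ, 0 < ε → ∃ R : ℕ, 1 ≤ R ∧ ∀ B : ℕ,
    ∃ X0 : ℕ, ∀ X : ℕ, X0 ≤ X → ∀ A b : Fin k → ℤ,
      (∀ j, A j ≠ 0 ∧ |(A j : ℝ)| ≤ Real.log X ^ B ∧ |(b j : ℝ)| ≤ X * Real.log X ^ B) → AdZ A b →
      c * (X / Real.log X ^ k) ≤ ((GQ (QZ A b) R X).card : ℝ) ∧
      |((GQ (QZ A b) R X).card : ℝ) - X * ∏ p ∈ PR R X, (1 - (nuB (QZ A b) p : ℝ) / p)| ≤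
        ε * (GQ (QZ A b) R X).card ∧
      (∀ n ∈ GQ (QZ A b) R X, ∀ j, ArithmeticFunction.cardFactors (A j * n + b j).natAbs ≤ R) ∧
      (∀ j, |(((GQ (QZ A b) R X).filter (fun n : ℕ => Odd (ArithmeticFunction.cardFactors (A j * n + b j).natAbs))).card : ℝ) -
        (1 / 2 : ℝ) * (GQ (QZ A b) R X).card| ≤ ε * (GQ (QZ A b) R X).card) ∧
      (∀ i j, |(((GQ (QZ A b) R X).filter (fun n : ℕ => Odd (ArithmeticFunction.cardFactors (A i * n + b i).natAbs) ∧
          Odd (ArithmeticFunction.cardFactors (A j * n + b j).natAbs))).card : ℝ) -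
        (((GQ (QZ A b) R X).filter (fun n : ℕ => Even (ArithmeticFunction.cardFactors (A i * n + b i).natAbs) ∧
          Even (ArithmeticFunction.cardFactors (A j * n + b j).natAbs))).card : ℝ)| ≤ ε * (GQ (QZ A b) R X).card) ∧
      ((GQ (QZ A b) R X).card : ℝ) ≤ (k + 2) * (((GQ (QZ A b) R X).filter (fun n : ℕ =>
        k ≤ 2 * (univ.filter (fun j => Odd (ArithmeticFunction.cardFactors (A j * n + b j).natAbs))).card)).card : ℝ) ∧
      ∀ w : Fin k → ℝ, δ * (GQ (QZ A b) R X).card ≤ (((GQ (QZ A b) R X).filter (fun n : ℕ =>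
        0 ≤ ∑ j, w j * (-1) ^ ArithmeticFunction.cardFactors (A j * n + b j).natAbs)).card : ℝ) := by
  obtain ⟨c, hc, H⟩ := eng k hk
  obtain ⟨δ, hδ, HB⟩ := bal k hk
  refine ⟨c, δ, hc, hδ, fun ε hε => ?_⟩
  obtain ⟨e, he0, heε, HB⟩ := HB ε hε
  obtain ⟨R, hR, H1⟩ := H e he0
  refine ⟨R, hR, fun B => ?_⟩
  obtain ⟨X0, H2⟩ := H1 B
  obtain ⟨X1, hX1⟩ := ev_log' (B * R) (2 ^ R + 1)
  obtain ⟨T2, hT2⟩ : ∃ T2 : ℕ, T2 = 2 ^ R := ⟨_, rfl⟩
  refine ⟨X0 + X1 + T2 + 3, fun X hX A b hAb hAd => ?_⟩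
  obtain ⟨H3, H4, H5⟩ := H2 (QZ A b) (sv_QZ hAd) X (by omega)
  have hXp : (0 : ℝ) < X := by exact_mod_cast (by omega : 0 < X)
  have hG : ∀ n ∈ GQ (QZ A b) R X, n ∈ Icc 1 X ∧ ∀ p : ℕ, p.Prime → p ^ R ≤ X → ¬ QZ A b p n := by
    intro n hn
    unfold GQ at hn
    rw [mem_filter] at hn
    exact hn
  have hne : ∀ j, ∀ n ∈ GQ (QZ A b) R X, (A j * n + b j).natAbs ≠ 0 := by
    intro j n hn h0
    apply (hG n hn).2 2 Nat.prime_two (by rw [← hT2]; omega)
    refine ⟨j, ?_⟩
    rw [Int.natAbs_eq_zero] at h0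
    rw [h0]
    exact dvd_zero _
  set G := GQ (QZ A b) R X with hGdef
  have hG0 : (0 : ℝ) ≤ G.card := Nat.cast_nonneg _
  have hsum : ∀ j, |∑ n ∈ G, la (A j * n + b j).natAbs| ≤ e * (G.card : ℝ) := by
    intro j
    obtain ⟨h1, h2, h3⟩ := hAb j
    obtain ⟨a', b', h4, h5, h6, h7, h8⟩ := hit_QZ (A := A) (B := b) j h1
    have h9 := H5 a' b' h4 h7 (by rw [h5]; exact h2) (by rw [h6]; exact h3)
    refine le_trans (le_of_eq ?_) h9
    congr 1
    apply sum_congr rfl
    intro n _
    unfold lz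
    rw [h8 n]
  obtain ⟨B1, B2, B3, B4⟩ := HB G (fun j n => (A j * n + b j).natAbs) hne hsum
  refine ⟨H3, H4.trans (mul_le_mul_of_nonneg_right heε hG0), ?_, B1, B2, B3, B4⟩
  intro n hn j
  have hlog0 : 0 ≤ Real.log X := Real.log_natCast_nonneg X
  have h10 := hX1 X (by omega)
  apply Om_le2 (X := X) (T := 2 * Real.log X ^ B) (by omega) (hne j n hn) (by positivity)
  · rw [mul_pow, ← pow_mul]
    have hlog1 : 0 < Real.log X := Real.log_pos (by exact_mod_cast (by omega : 1 < X))
    have h11 : 0 < Real.log X ^ (B * R) := by positivity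
    have h12 : √(X : ℝ) ≤ X := by
      rw [Real.sqrt_le_left hXp.le]
      have : (1 : ℝ) ≤ X := by exact_mod_cast (by omega : 1 ≤ X)
      nlinarith
    nlinarith
  · have h1 := mem_Icc.1 (hG n hn).1
    have h2 : (((A j * n + b j).natAbs : ℕ) : ℝ) = |(A j : ℝ) * n + b j| := by
      rw [Nat.cast_natAbs]
      push_cast
      rfl
    rw [h2]
    have h3 : |(A j : ℝ) * n + b j| ≤ |(A j : ℝ) * n| + |(b j : ℝ)| := abs_add_le _ _
    have h4 : |(A j : ℝ) * n| ≤ Real.log X ^ B * X := by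
      rw [abs_mul, abs_of_nonneg (Nat.cast_nonneg n : (0 : ℝ) ≤ n)]
      exact mul_le_mul (hAb j).2.1 (by exact_mod_cast h1.2) (Nat.cast_nonneg _) (by positivity)
    have h5 := (hAb j).2.2
    linarith
  · intro p hp hd
    by_contra h3
    push Not at h3
    apply (hG n hn).2 p hp h3
    refine ⟨j, ?_⟩
    exact (Int.natCast_dvd_natCast.2 hd).trans (Int.natAbs_dvd.2 (dvd_refl _))

end Pool.Agent.H530.Ha
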