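import Pool.Graph.R_seed8.TH464.PO.Sing

/-! Rooted averages of singular series: adding one point. -/

set_option autoImplicit false

namespace Pool.Agent.H530.Hv

open Finset Filter Pool.Agent.H373R2.T7 Pool.Agent.W123.RP Pool.Agent.W123.RU Pool.Agent.TH464.PO

/-- divisibility of `m + Z` -/
def Q1 (Z p m : ℕ) : Prop := p ∣ m + Z

lemma perB_Q1 (Z : ℕ) : PerB (Q1 Z) 1 := by
  constructor
  · intro p n
    unfold Q1
    rw [Nat.dvd_iff_mod_eq_zero, Nat.dvd_iff_mod_eq_zero, Nat.mod_add_mod]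
  · intro p hp
    classical
    unfold nuB
    rw [Finset.card_le_one]
    intro a ha b hb
    rw [mem_filter, mem_range] at ha hb
    unfold Q1 at ha hb
    have h1 : a + Z ≡ b + Z [MOD p] := ((Nat.modEq_zero_iff_dvd).2 ha.2).trans ((Nat.modEq_zero_iff_dvd).2 hb.2).symm
    have h2 : a ≡ b [MOD p] := Nat.ModEq.add_right_cancel' Z h1
    have h3 := h2
    unfold Nat.ModEq at h3
    rwa [Nat.mod_eq_of_lt ha.1, Nat.mod_eq_of_lt hb.1] at h3

lemma nu_Q1 (Z p : ℕ) (hp : p.Prime) : nuB (Q1 Z) p = 1 := by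
  apply le_antisymm ((perB_Q1 Z).few p hp)
  classical
  unfold nuB
  rw [Nat.succ_le_iff, Finset.card_pos]
  refine ⟨(p - Z % p) % p, ?_⟩
  rw [mem_filter, mem_range]
  refine ⟨Nat.mod_lt _ hp.pos, ?_⟩
  unfold Q1
  rw [Nat.dvd_iff_mod_eq_zero, Nat.add_mod, Nat.mod_mod, ← Nat.add_mod]
  have h1 := Nat.mod_lt Z hp.pos
  have h2 : p - Z % p + Z = p + p * (Z / p) := by
    have := Nat.mod_add_div Z p
    omega
  rw [h2, Nat.add_mul_mod_self_left, Nat.mod_self]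

open Classical in
lemma nu_ins (Z : ℕ) (S : Finset ℕ) (u p : ℕ) (hp : p.Prime) :
    nuB (QH (Q1 Z) (insert u S)) p = nuB (QH (Q1 Z) S) p + (if ∃ s ∈ S, s ≡ u [MOD p] then 0 else 1) := by
  have hB := nuB_shift (Q1 Z) 1 (perB_Q1 Z) u p
  rw [nu_Q1 Z p hp, Finset.card_eq_one] at hB
  obtain ⟨b, hb⟩ := hB
  have hbm : b ∈ (range p).filter (fun r => Q1 Z p (r + u)) := by rw [hb]; exact mem_singleton_self b
  rw [mem_filter] at hbm
  have hbd : p ∣ b + u + Z := hbm.2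
  have h1 : (range p).filter (fun r => QH (Q1 Z) (insert u S) p r) =
      (range p).filter (fun r => QH (Q1 Z) S p r) ∪ {b} := by
    rw [← hb]
    ext r
    rw [mem_union, mem_filter, mem_filter, mem_filter]
    unfold QH
    constructor
    · rintro ⟨h1, h, hh, hq⟩
      rw [mem_insert] at hh
      rcases hh with rfl | hh
      · exact Or.inr ⟨h1, hq⟩
      · exact Or.inl ⟨h1, h, hh, hq⟩
    · rintro (⟨h1, h, hh, hq⟩ | ⟨h1, h2⟩)
      · exact ⟨h1, h, mem_insert_of_mem hh, hq⟩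
      · exact ⟨h1, u, mem_insert_self u S, h2⟩
  have h2 : b ∈ (range p).filter (fun r => QH (Q1 Z) S p r) ↔ ∃ s ∈ S, s ≡ u [MOD p] := by
    rw [mem_filter]
    unfold QH Q1
    constructor
    · rintro ⟨_, s, hs, hd⟩
      refine ⟨s, hs, ?_⟩
      have e1 : b + s + Z ≡ b + u + Z [MOD p] :=
        ((Nat.modEq_zero_iff_dvd).2 hd).trans ((Nat.modEq_zero_iff_dvd).2 hbd).symm
      exact Nat.ModEq.add_left_cancel' b (Nat.ModEq.add_right_cancel' Z e1)
    · rintro ⟨s, hs, hsu⟩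
      refine ⟨hbm.1, s, hs, ?_⟩
      have e1 : b + s + Z ≡ b + u + Z [MOD p] := (hsu.add_left b).add_right Z
      exact (Nat.modEq_zero_iff_dvd).1 (e1.trans ((Nat.modEq_zero_iff_dvd).2 hbd))
  have e0 : nuB (QH (Q1 Z) (insert u S)) p = ((range p).filter (fun r => QH (Q1 Z) (insert u S) p r)).card := by
    unfold nuB
    congr
  have e1 : nuB (QH (Q1 Z) S) p = ((range p).filter (fun r => QH (Q1 Z) S p r)).card := by
    unfold nuB
    congr
  rw [e0, e1, h1]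
  by_cases h : ∃ s ∈ S, s ≡ u [MOD p]
  · rw [if_pos h]
    have := h2.2 h
    rw [Finset.union_eq_left.2 (by simpa using this)]
    omega
  · rw [if_neg h]
    have : b ∉ (range p).filter (fun r => QH (Q1 Z) S p r) := fun hc => h (h2.1 hc)
    rw [Finset.card_union_of_disjoint (by
      rw [Finset.disjoint_singleton_right]
      exact this), card_singleton]

lemma nuS_le (Z : ℕ) (S : Finset ℕ) (p : ℕ) (hp : p.Prime) : nuB (QH (Q1 Z) S) p ≤ S.card := by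
  have := nuB_QH_le (Q1 Z) 1 (perB_Q1 Z) S p
  rwa [nu_Q1 Z p hp, mul_one] at this

open Classical in
/-- upper bound for one factor -/
lemma fac_up (Z : ℕ) (S : Finset ℕ) (u p : ℕ) (hp : p.Prime) :
    1 - (nuB (QH (Q1 Z) (insert u S)) p : ℝ) / p ≤
      (1 - (nuB (QH (Q1 Z) S) p : ℝ) / p) * (1 - (nuB (Q1 Z) p : ℝ) / p) *
        (if ∃ s ∈ S, s ≡ u [MOD p] then 1 + (2 : ℝ) / p else 1) := by
  have hp0 : (2 : ℝ) ≤ p := by exact_mod_cast hp.two_le
  have h1 : (nuB (QH (Q1 Z) S) p : ℝ) ≤ p := by exact_mod_cast nuB_le _ p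
  rw [nu_Q1 Z p hp, nu_ins Z S u p hp]
  obtain ⟨x, hx⟩ : ∃ x : ℝ, x = (p : ℝ)⁻¹ := ⟨_, rfl⟩
  have hx0 : 0 < x := by rw [hx]; positivity
  have hx1 : x ≤ 1 / 2 := by rw [hx, inv_eq_one_div]; apply one_div_le_one_div_of_le (by norm_num) hp0
  obtain ⟨n, hn⟩ : ∃ n : ℝ, n = (nuB (QH (Q1 Z) S) p : ℝ) := ⟨_, rfl⟩
  have hn0 : 0 ≤ n := by rw [hn]; positivity
  have hnx : n * x ≤ 1 := by
    rw [hn, hx, ← div_eq_mul_inv]
    rw [div_le_one (by linarith)]
    exact h1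
  split_ifs
  · simp only [add_zero, Nat.cast_one, div_eq_mul_inv, one_mul]
    rw [← hn, ← hx]
    have : (1 : ℝ) ≤ (1 - x) * (1 + 2 * x) := by nlinarith
    calc (1 - n * x) = (1 - n * x) * 1 := (mul_one _).symm
      _ ≤ (1 - n * x) * ((1 - x) * (1 + 2 * x)) := mul_le_mul_of_nonneg_left this (by linarith)
      _ = _ := by ring
  · simp only [Nat.cast_add, Nat.cast_one, div_eq_mul_inv, one_mul, mul_one]
    rw [← hn, ← hx]
    nlinarith [mul_nonneg hn0 (sq_nonneg x)]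

open Classical in
/-- lower bound for one factor -/
lemma fac_lo (Z : ℕ) (S : Finset ℕ) (u p k : ℕ) (hp : p.Prime) (hk : S.card ≤ k) (hpk : 2 * k + 2 ≤ p) :
    (1 - (nuB (QH (Q1 Z) S) p : ℝ) / p) * (1 - (nuB (Q1 Z) p : ℝ) / p) *
      (1 - ((4 * k : ℕ) : ℝ) / (p : ℝ) ^ 2) ≤ 1 - (nuB (QH (Q1 Z) (insert u S)) p : ℝ) / p := by
  have hp0 : (2 : ℝ) ≤ p := by exact_mod_cast hp.two_le
  have hpk' : (2 : ℝ) * k + 2 ≤ p := by exact_mod_cast hpk
  have h1 : (nuB (QH (Q1 Z) S) p : ℝ) ≤ k := by exact_mod_cast (nuS_le Z S p hp).trans hk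
  rw [nu_Q1 Z p hp, nu_ins Z S u p hp]
  obtain ⟨x, hx⟩ : ∃ x : ℝ, x = (p : ℝ)⁻¹ := ⟨_, rfl⟩
  have hx0 : 0 < x := by rw [hx]; positivity
  have hx1 : x ≤ 1 / 2 := by rw [hx, inv_eq_one_div]; apply one_div_le_one_div_of_le (by norm_num) hp0
  obtain ⟨n, hn⟩ : ∃ n : ℝ, n = (nuB (QH (Q1 Z) S) p : ℝ) := ⟨_, rfl⟩
  have hn0 : 0 ≤ n := by rw [hn]; positivity
  rw [← hn] at h1
  have hk0 : (0 : ℝ) ≤ k := Nat.cast_nonneg k
  have hkx : (k + 1) * x ≤ 1 / 2 := by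
    rw [hx, ← div_eq_mul_inv, div_le_iff₀ (by linarith)]
    linarith
  have hnx : (n + 1) * x ≤ 1 / 2 := by nlinarith
  have hnx1 : n * x ≤ 1 / 2 := by nlinarith
  split_ifs
  · simp only [add_zero, Nat.cast_one, div_eq_mul_inv, one_mul, ← inv_pow]
    rw [← hn, ← hx]
    have e1 : (1 - x) * (1 - ((4 * k : ℕ) : ℝ) * x ^ 2) ≤ 1 := by
      have : 0 ≤ ((4 * k : ℕ) : ℝ) * x ^ 2 := by positivity
      nlinarith
    calc (1 - n * x) * (1 - x) * (1 - ((4 * k : ℕ) : ℝ) * x ^ 2) =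
        (1 - n * x) * ((1 - x) * (1 - ((4 * k : ℕ) : ℝ) * x ^ 2)) := by ring
      _ ≤ (1 - n * x) * 1 := mul_le_mul_of_nonneg_left e1 (by linarith)
      _ = _ := mul_one _
  · simp only [Nat.cast_add, Nat.cast_one, div_eq_mul_inv, one_mul, ← inv_pow]
    rw [← hn, ← hx]
    push_cast
    have e2 : (1 - n * x) * (1 - x) = (1 - (n + 1) * x) + n * x ^ 2 := by ring
    rw [e2]
    have e3 : 0 ≤ (4 * (k : ℝ) * x ^ 2) * (n * x ^ 2) := by positivity
    have e4 : n * x ^ 2 ≤ k * x ^ 2 := by gcongr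
    have e5 : (4 * (k : ℝ) * x ^ 2) * (1 / 2) ≤ (4 * (k : ℝ) * x ^ 2) * (1 - (n + 1) * x) :=
      mul_le_mul_of_nonneg_left (by linarith) (by positivity)
    nlinarith [mul_nonneg hk0 (sq_nonneg x)]

/-- nonnegative factors, monotone in the set -/
lemma Vq_ins_le (Z : ℕ) (S : Finset ℕ) (u y : ℕ) : Vq (QH (Q1 Z) (insert u S)) y ≤ Vq (QH (Q1 Z) S) y := by
  unfold Vq
  apply Finset.prod_le_prod
  · intro p hp
    exact one_sub_nonneg _ p (mem_pz.1 hp).2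
  · intro p hp
    classical
    have hpp := (mem_pz.1 hp).2
    rw [nu_ins Z S u p hpp]
    have : (0 : ℝ) < p := by exact_mod_cast hpp.pos
    apply sub_le_sub_left
    apply div_le_div_of_nonneg_right _ this.le
    push_cast
    split_ifs <;> simp

open Classical in
/-- the small primes -/
lemma small_root (Z : ℕ) (S : Finset ℕ) (w T : ℕ) :
    |∑ u ∈ Icc 1 T, Vq (QH (Q1 Z) (insert u S)) w - Vq (QH (Q1 Z) S) w * (T * Vq (Q1 Z) w)| ≤
      Mw w * Vq (QH (Q1 Z) S) w := by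
  obtain ⟨M, hM⟩ : ∃ M, M = Mw w := ⟨_, rfl⟩
  have hMpos : 0 < M := by rw [hM]; exact Mw_pos w
  have hMr : (0 : ℝ) < M := by exact_mod_cast hMpos
  have hQS := perB_QH (Q1 Z) 1 (perB_Q1 Z) S
  have hex := exact (QH (Q1 Z) S) _ hQS w
  rw [← hM] at hex ⊢
  have h1 : ∀ u ∈ Icc 1 T, (M : ℝ) * Vq (QH (Q1 Z) (insert u S)) w =
      ∑ m ∈ (range M).filter (fun m => Sf (QH (Q1 Z) S) w m), if Sf (Q1 Z) w (m + u) then (1 : ℝ) else 0 := by
    intro u _
    have h2 := exact (QH (Q1 Z) (insert u S)) _ (perB_QH (Q1 Z) 1 (perB_Q1 Z) (insert u S)) w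
    rw [← hM] at h2
    rw [← h2, Finset.sum_ite, Finset.sum_const_zero, add_zero, Finset.sum_const, nsmul_eq_mul, mul_one,
      Finset.filter_filter]
    congr 2
    apply Finset.filter_congr
    intro m _
    rw [sf_QH, sf_QH]
    constructor
    · intro h
      exact ⟨fun x hx => h x (mem_insert_of_mem hx), h u (mem_insert_self u S)⟩
    · rintro ⟨a1, a2⟩ x hx
      rw [mem_insert] at hx
      rcases hx with rfl | hx
      · exact a2
      · exact a1 x hx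
  have h3 : (M : ℝ) * ∑ u ∈ Icc 1 T, Vq (QH (Q1 Z) (insert u S)) w =
      ∑ m ∈ (range M).filter (fun m => Sf (QH (Q1 Z) S) w m),
        ((((Icc 1 T).filter (fun h => Sf (Q1 Z) w (m + h))).card : ℕ) : ℝ) := by
    rw [Finset.mul_sum, Finset.sum_congr rfl h1, Finset.sum_comm]
    apply Finset.sum_congr rfl
    intro m _
    rw [Finset.sum_ite, Finset.sum_const_zero, add_zero, Finset.sum_const, nsmul_eq_mul, mul_one]
  have h4 : |(M : ℝ) * ∑ u ∈ Icc 1 T, Vq (QH (Q1 Z) (insert u S)) w -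
      (M * Vq (QH (Q1 Z) S) w) * (T * Vq (Q1 Z) w)| ≤ (M * Vq (QH (Q1 Z) S) w) * M := by
    rw [h3, ← hex]
    have e : (((range M).filter (fun m => Sf (QH (Q1 Z) S) w m)).card : ℝ) * (T * Vq (Q1 Z) w) =
        ∑ _m ∈ (range M).filter (fun m => Sf (QH (Q1 Z) S) w m), (T * Vq (Q1 Z) w) := by
      rw [Finset.sum_const, nsmul_eq_mul]
    rw [e, ← Finset.sum_sub_distrib]
    refine (Finset.abs_sum_le_sum_abs _ _).trans ?_
    have h5 := Finset.sum_le_card_nsmul ((range M).filter (fun m => Sf (QH (Q1 Z) S) w m))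
      (fun m => |((((Icc 1 T).filter (fun h => Sf (Q1 Z) w (m + h))).card : ℕ) : ℝ) - T * Vq (Q1 Z) w|) (M : ℝ) (by
        intro m _
        have := window (Q1 Z) 1 (perB_Q1 Z) w m T
        rw [← hM] at this
        exact this)
    rw [nsmul_eq_mul] at h5
    exact h5
  have e7 : (M : ℝ) * ∑ u ∈ Icc 1 T, Vq (QH (Q1 Z) (insert u S)) w -
      (M * Vq (QH (Q1 Z) S) w) * (T * Vq (Q1 Z) w) = M * (∑ u ∈ Icc 1 T, Vq (QH (Q1 Z) (insert u S)) w -
        Vq (QH (Q1 Z) S) w * (T * Vq (Q1 Z) w)) := by ring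
  rw [e7, abs_mul, abs_of_pos hMr] at h4
  have e8 : (M * Vq (QH (Q1 Z) S) w) * M = M * (M * Vq (QH (Q1 Z) S) w) := by ring
  rw [e8] at h4
  exact le_of_mul_le_mul_left h4 hMr

end Pool.Agent.H530.Hv
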