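import Pool.Agent.H530.HvA
import Pool.Graph.R_seed8.TH464.PO.Sing2

/-! Rooted averages of singular series: adding one point, the asymptotic formula. -/

set_option autoImplicit false

namespace Pool.Agent.H530.Hv

open Finset Filter Pool.Agent.H373R2.T7 Pool.Agent.W123.RP Pool.Agent.W123.RU Pool.Agent.TH464.PO

lemma perB_QS (Z k : ℕ) (S : Finset ℕ) (hS : S.card ≤ k) : PerB (QH (Q1 Z) S) k := by
  have h := perB_QH (Q1 Z) 1 (perB_Q1 Z) S
  exact ⟨h.per, fun p hp => (h.few p hp).trans (by omega)⟩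

/-- the collision relation -/
def Co (T : ℕ) (S : Finset ℕ) (p u : ℕ) : Prop := p ≤ T ∧ ∃ s ∈ S, s ≡ u [MOD p]

lemma coll_Co (T w k : ℕ) (S : Finset ℕ) (hS : S.card ≤ k) : Coll (Co T S) w k := by
  classical
  constructor
  · intro p n
    unfold Co
    apply and_congr_right
    intro _
    apply exists_congr
    intro s
    apply and_congr_right
    intro _
    unfold Nat.ModEq
    rw [Nat.mod_mod]
  · intro p hp _
    refine le_trans ?_ hS
    refine le_trans (card_le_card (t := S.image (fun s => s % p)) ?_) card_image_le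
    intro r hr
    rw [mem_filter, mem_range] at hr
    obtain ⟨hr1, _, s, hs, hsr⟩ := hr
    rw [mem_image]
    refine ⟨s, hs, ?_⟩
    unfold Nat.ModEq at hsr
    rw [hsr, Nat.mod_eq_of_lt hr1]

open Classical in
/-- the product over the collision primes -/
noncomputable def FS (T : ℕ) (S : Finset ℕ) (w y u : ℕ) : ℝ :=
  ∏ p ∈ (pz y).filter (fun p : ℕ => w < p ∧ Co T S p u), (1 + ((2 : ℕ) : ℝ) / p)

lemma FS_ge (T : ℕ) (S : Finset ℕ) (w y u : ℕ) : 1 ≤ FS T S w y u := by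
  classical
  unfold FS
  apply Finset.one_le_prod
  intro p _
  have : 0 ≤ ((2 : ℕ) : ℝ) / p := by positivity
  linarith

lemma vt_up (Z T : ℕ) (S : Finset ℕ) (w y u : ℕ) (hS : S ⊆ range (T + 1)) (hu : u ∈ Icc 1 T \ S) :
    Vt (QH (Q1 Z) (insert u S)) w y ≤ Vt (QH (Q1 Z) S) w y * Vt (Q1 Z) w y * FS T S w y u := by
  classical
  have h1 : Vt (QH (Q1 Z) (insert u S)) w y ≤ ∏ p ∈ (pz y).filter (fun p => w < p),
      ((1 - (nuB (QH (Q1 Z) S) p : ℝ) / p) * (1 - (nuB (Q1 Z) p : ℝ) / p) *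
        (if Co T S p u then 1 + ((2 : ℕ) : ℝ) / p else 1)) := by
    unfold Vt
    apply Finset.prod_le_prod
    · intro p hp
      rw [mem_filter] at hp
      exact one_sub_nonneg _ p (mem_pz.1 hp.1).2
    · intro p hp
      rw [mem_filter] at hp
      have h2 := fac_up Z S u p (mem_pz.1 hp.1).2
      refine h2.trans (le_of_eq ?_)
      have : (∃ s ∈ S, s ≡ u [MOD p]) ↔ Co T S p u := by
        unfold Co
        constructor
        · rintro ⟨s, hs, hsu⟩
          refine ⟨?_, s, hs, hsu⟩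
          by_contra hcon
          rw [not_le] at hcon
          have h3 := mem_range.1 (hS hs)
          rw [Finset.mem_sdiff, mem_Icc] at hu
          unfold Nat.ModEq at hsu
          rw [Nat.mod_eq_of_lt (by omega), Nat.mod_eq_of_lt (by omega)] at hsu
          rw [hsu] at hs
          exact hu.2 hs
        · rintro ⟨_, h⟩
          exact h
      simp only [this, Nat.cast_ofNat]
  refine h1.trans (le_of_eq ?_)
  rw [Finset.prod_mul_distrib, Finset.prod_mul_distrib]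
  unfold Vt FS
  congr 1
  rw [← Finset.filter_filter, Finset.prod_filter (s := (pz y).filter (fun p => w < p))]

lemma vt_lo (Z : ℕ) (S : Finset ℕ) (w y u k : ℕ) (hS : S.card ≤ k) (hw : 2 * k + 2 ≤ w) :
    Vt (QH (Q1 Z) S) w y * Vt (Q1 Z) w y * (1 - ((4 * k : ℕ) : ℝ) / w) ≤ Vt (QH (Q1 Z) (insert u S)) w y := by
  classical
  have h1 : ∏ p ∈ (pz y).filter (fun p => w < p),
      ((1 - (nuB (QH (Q1 Z) S) p : ℝ) / p) * (1 - (nuB (Q1 Z) p : ℝ) / p) *
        (1 - ((4 * k : ℕ) : ℝ) / (p : ℝ) ^ 2)) ≤ Vt (QH (Q1 Z) (insert u S)) w y := by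
    unfold Vt
    apply Finset.prod_le_prod
    · intro p hp
      rw [mem_filter] at hp
      have hpp := (mem_pz.1 hp.1).2
      apply mul_nonneg (mul_nonneg (one_sub_nonneg _ p hpp) (one_sub_nonneg _ p hpp))
      have hp0 : (0 : ℝ) < p := by exact_mod_cast hpp.pos
      rw [sub_nonneg, div_le_one (by positivity)]
      have : 4 * k ≤ p ^ 2 := by nlinarith [hp.2]
      exact_mod_cast this
    · intro p hp
      rw [mem_filter] at hp
      exact fac_lo Z S u p k (mem_pz.1 hp.1).2 hS (by omega)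
  refine le_trans ?_ h1
  rw [Finset.prod_mul_distrib, Finset.prod_mul_distrib]
  apply mul_le_mul_of_nonneg_left
  · refine le_trans ?_ (prod_one_sub_ge _ _ (fun p _ => by positivity) ?_)
    · have h2 := sum_inv_sq w y (by omega)
      have h3 : ∑ p ∈ (pz y).filter (fun p => w < p), ((4 * k : ℕ) : ℝ) / (p : ℝ) ^ 2 ≤
          ((4 * k : ℕ) : ℝ) * (1 / w) := by
        calc ∑ p ∈ (pz y).filter (fun p => w < p), ((4 * k : ℕ) : ℝ) / (p : ℝ) ^ 2 ≤
            ∑ p ∈ (Icc 1 y).filter (fun n => w < n), ((4 * k : ℕ) : ℝ) / (p : ℝ) ^ 2 := by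
              apply Finset.sum_le_sum_of_subset_of_nonneg
              · intro p hp
                rw [mem_filter, mem_pz] at hp
                rw [mem_filter, mem_Icc]
                exact ⟨⟨hp.1.2.one_lt.le, hp.1.1⟩, hp.2⟩
              · intros; positivity
          _ = ((4 * k : ℕ) : ℝ) * ∑ p ∈ (Icc 1 y).filter (fun n => w < n), 1 / (p : ℝ) ^ 2 := by
              rw [Finset.mul_sum]
              apply Finset.sum_congr rfl
              intros
              ring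
          _ ≤ _ := mul_le_mul_of_nonneg_left h2 (Nat.cast_nonneg _)
      have e : ((4 * k : ℕ) : ℝ) / w = ((4 * k : ℕ) : ℝ) * (1 / w) := by ring
      rw [e]
      linarith
    · intro p hp
      rw [mem_filter] at hp
      have hpp := (mem_pz.1 hp.1).2
      have hp0 : (0 : ℝ) < p := by exact_mod_cast hpp.pos
      rw [div_le_one (by positivity)]
      have : 4 * k ≤ p ^ 2 := by nlinarith [hp.2]
      exact_mod_cast this
  · exact mul_nonneg (Vt_nonneg _ _ _) (Vt_nonneg _ _ _)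

/-- **Adding one point to a root.** -/
theorem star (k : ℕ) (ε : ℝ) (hε : 0 < ε) (hε1 : ε ≤ 1) : ∃ w T0 : ℕ, ∀ T : ℕ, T0 ≤ T → ∀ Z : ℕ,
    ∀ S : Finset ℕ, S ⊆ range (T + 1) → S.card ≤ k → ∀ y : ℕ, w ≤ y →
      |∑ u ∈ Icc 1 T \ S, Vq (QH (Q1 Z) (insert u S)) y - Vq (QH (Q1 Z) S) y * (T * Vq (Q1 Z) y)| ≤
        ε * (Vq (QH (Q1 Z) S) y * (T * Vq (Q1 Z) y)) := by
  classical
  obtain ⟨e, he⟩ : ∃ e : ℝ, e = ε / 4 := ⟨_, rfl⟩
  have he0 : 0 < e := by rw [he]; positivity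
  have he1 : e ≤ 1 / 4 := by rw [he]; linarith
  obtain ⟨c1, B, w1, hc1, hw12, hW⟩ := W_low (k + 1)
  obtain ⟨A, hA⟩ : ∃ A : ℕ, A = 12 * (2 * k + 1) + 4 * k := ⟨_, rfl⟩
  obtain ⟨w, hw0, hw2, hAw, hAw'⟩ := exists_w A B 2 c1 e hc1 he0 (max w1 (2 * k + 2))
  have hww1 : w1 ≤ w := (le_max_left _ _).trans hw0
  have hwk : 2 * k + 2 ≤ w := (le_max_right _ _).trans hw0
  have hwr : (0 : ℝ) < w := by exact_mod_cast (by omega : 0 < w)
  obtain ⟨η1, hη1⟩ : ∃ η1 : ℝ, η1 = ((2 * k + 1 : ℕ) : ℝ) / w := ⟨_, rfl⟩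
  have hη10 : 0 < η1 := by rw [hη1]; positivity
  obtain ⟨v, hv⟩ : ∃ v : ℝ, v = c1 / Real.log w ^ B := ⟨_, rfl⟩
  have hlogw : 0 < Real.log w := Real.log_pos (by exact_mod_cast (by omega : 1 < w))
  have hv0 : 0 < v := by rw [hv]; positivity
  rw [← hv] at hAw
  have h12 : 12 * η1 ≤ e * v ^ 2 := by
    refine le_trans ?_ hAw
    rw [hη1, ← mul_div_assoc]
    apply div_le_div_of_nonneg_right _ hwr.le
    rw [hA]
    push_cast
    linarith [(Nat.cast_nonneg k : (0 : ℝ) ≤ k)]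
  have h4k : ((4 * k : ℕ) : ℝ) / w ≤ e := by
    refine le_trans ?_ hAw'
    apply div_le_div_of_nonneg_right _ hwr.le
    exact_mod_cast (by omega : 4 * k ≤ A)
  have hη11 : η1 ≤ 1 := by
    have : η1 ≤ e := by
      refine le_trans ?_ hAw'
      rw [hη1]
      apply div_le_div_of_nonneg_right _ hwr.le
      exact_mod_cast (by omega : 2 * k + 1 ≤ A)
    linarith
  obtain ⟨T1, hT1, havg⟩ := avg_sharp 2 k w (by omega) η1 hη10 (by
    rw [hη1]
    apply div_le_div_of_nonneg_right _ hwr.le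
    exact_mod_cast (by omega : 2 * k ≤ 2 * k + 1))
  obtain ⟨M, hM⟩ : ∃ M, M = Mw w := ⟨_, rfl⟩
  obtain ⟨T2, hT2⟩ : ∃ T2 : ℕ, ((M : ℝ) + k) / (e * v) ≤ T2 := exists_nat_ge _
  refine ⟨w, max T1 T2, ?_⟩
  intro T hT Z S hS hSk y hwy
  have hTT1 : T1 ≤ T := (le_max_left _ _).trans hT
  have hTT2 : (T2 : ℝ) ≤ T := by exact_mod_cast (le_max_right _ _).trans hT
  have hTr0 : (0 : ℝ) ≤ T := Nat.cast_nonneg T
  by_cases hadm : ∀ p : ℕ, p.Prime → nuB (QH (Q1 Z) S) p < p
  swap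
  · push Not at hadm
    obtain ⟨p, hp, hpn⟩ := hadm
    have hpk : p ≤ k := hpn.trans ((nuS_le Z S p hp).trans hSk)
    have h0 : Vq (QH (Q1 Z) S) y = 0 := by
      unfold Vq
      apply Finset.prod_eq_zero (mem_pz.2 ⟨by omega, hp⟩ : p ∈ pz y)
      have e1 : nuB (QH (Q1 Z) S) p = p := le_antisymm (nuB_le _ p) hpn
      rw [e1, div_self (by exact_mod_cast hp.ne_zero), sub_self]
    have h1 : ∀ u ∈ Icc 1 T \ S, Vq (QH (Q1 Z) (insert u S)) y = 0 := by
      intro u _
      have h2 := Vq_ins_le Z S u y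
      rw [h0] at h2
      exact le_antisymm h2 (Vq_nonneg _ _)
    rw [Finset.sum_eq_zero h1, h0]
    simp
  obtain ⟨a, ha⟩ : ∃ a, a = Vq (QH (Q1 Z) S) w := ⟨_, rfl⟩
  obtain ⟨α, hα⟩ : ∃ α, α = Vt (QH (Q1 Z) S) w y := ⟨_, rfl⟩
  obtain ⟨v0, hv0d⟩ : ∃ v0, v0 = Vq (Q1 Z) w := ⟨_, rfl⟩
  obtain ⟨β, hβ⟩ : ∃ β, β = Vt (Q1 Z) w y := ⟨_, rfl⟩
  have hα0 : 0 ≤ α := by rw [hα]; exact Vt_nonneg _ _ _
  have hβ0 : 0 ≤ β := by rw [hβ]; exact Vt_nonneg _ _ _
  have hav : v ≤ a := by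
    rw [ha, hv]
    exact hW w hww1 _ (perB_QS Z (k + 1) S (by omega)) hadm
  have hvv : v ≤ v0 := by
    rw [hv0d, hv]
    refine hW w hww1 _ ⟨(perB_Q1 Z).per, fun p hp => ((perB_Q1 Z).few p hp).trans (by omega)⟩ ?_
    intro p hp
    rw [nu_Q1 Z p hp]
    exact hp.one_lt
  have ha0 : 0 < a := by linarith
  have hv00 : 0 < v0 := by linarith
  have hMk : (M : ℝ) + k ≤ e * (T * v0) := by
    rw [div_le_iff₀ (by positivity)] at hT2
    calc (M : ℝ) + k ≤ T2 * (e * v) := hT2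
      _ ≤ T * (e * v0) := by
        apply mul_le_mul hTT2 _ (by positivity) hTr0
        exact mul_le_mul_of_nonneg_left hvv he0.le
      _ = _ := by ring
  have hk0 : (0 : ℝ) ≤ k := Nat.cast_nonneg k
  have hM0 : (0 : ℝ) ≤ M := Nat.cast_nonneg M
  have hsm := small_root Z S w T
  rw [← hM, ← ha, ← hv0d] at hsm
  rw [Vq_split _ w y hwy, Vq_split (Q1 Z) w y hwy, ← ha, ← hα, ← hv0d, ← hβ]
  obtain ⟨Sg, hSg⟩ : ∃ Sg, Sg = ∑ u ∈ Icc 1 T, Vq (QH (Q1 Z) (insert u S)) w := ⟨_, rfl⟩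
  rw [← hSg] at hsm
  obtain ⟨hsm1, hsm2⟩ := abs_le.1 hsm
  have hterm : ∀ u ∈ Icc 1 T \ S, Vq (QH (Q1 Z) (insert u S)) y =
      Vq (QH (Q1 Z) (insert u S)) w * Vt (QH (Q1 Z) (insert u S)) w y := fun u _ => Vq_split _ w y hwy
  rw [Finset.sum_congr rfl hterm]
  have hab : 0 ≤ α * β := mul_nonneg hα0 hβ0
  have hTv : 0 ≤ (T : ℝ) * v0 := by positivity
  rw [abs_le]
  constructor
  · -- lower bound
    have h1 : ∀ u ∈ Icc 1 T \ S, (α * β * (1 - e)) * Vq (QH (Q1 Z) (insert u S)) w ≤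
        Vq (QH (Q1 Z) (insert u S)) w * Vt (QH (Q1 Z) (insert u S)) w y := by
      intro u _
      have h2 := vt_lo Z S w y u k hSk hwk
      rw [← hα, ← hβ] at h2
      have h3 : α * β * (1 - e) ≤ Vt (QH (Q1 Z) (insert u S)) w y := by
        refine le_trans ?_ h2
        apply mul_le_mul_of_nonneg_left _ hab
        linarith
      rw [mul_comm (Vq (QH (Q1 Z) (insert u S)) w)]
      exact mul_le_mul_of_nonneg_right h3 (Vq_nonneg _ w)
    have h2 := Finset.sum_le_sum h1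
    rw [← Finset.mul_sum] at h2
    have h3 : Sg - k * a ≤ ∑ u ∈ Icc 1 T \ S, Vq (QH (Q1 Z) (insert u S)) w := by
      have h4 := Finset.sum_sdiff_eq_sub (f := fun u => Vq (QH (Q1 Z) (insert u S)) w) (inter_subset_left : Icc 1 T ∩ S ⊆ Icc 1 T)
      rw [Finset.sdiff_inter_self_left] at h4
      rw [h4, ← hSg]
      have h5 : ∑ u ∈ Icc 1 T ∩ S, Vq (QH (Q1 Z) (insert u S)) w ≤ k * a := by
        have h6 : ∀ u ∈ Icc 1 T ∩ S, Vq (QH (Q1 Z) (insert u S)) w = a := by
          intro u hu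
          rw [mem_inter] at hu
          rw [insert_eq_of_mem hu.2, ha]
        rw [Finset.sum_congr rfl h6, Finset.sum_const, nsmul_eq_mul]
        apply mul_le_mul_of_nonneg_right _ ha0.le
        exact_mod_cast (card_le_card inter_subset_right).trans hSk
      linarith
    have h4 : (α * β * (1 - e)) * (Sg - k * a) ≤
        (α * β * (1 - e)) * ∑ u ∈ Icc 1 T \ S, Vq (QH (Q1 Z) (insert u S)) w :=
      mul_le_mul_of_nonneg_left h3 (mul_nonneg hab (by linarith))
    have h5 : a * (T * v0) - (M + k) * a ≤ Sg - k * a := by linarith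
    have h6 : a * (T * v0) * (1 - e) ≤ Sg - k * a := by
      refine le_trans ?_ h5
      have := mul_le_mul_of_nonneg_right hMk ha0.le
      nlinarith
    have h7 : (α * β * (1 - e)) * (a * (T * v0) * (1 - e)) ≤ (α * β * (1 - e)) * (Sg - k * a) :=
      mul_le_mul_of_nonneg_left h6 (mul_nonneg hab (by linarith))
    have h8 : 0 ≤ α * β * (a * (T * v0)) := mul_nonneg hab (mul_nonneg ha0.le hTv)
    have h9 : (α * β * (1 - e)) * (a * (T * v0) * (1 - e)) = (1 - e) ^ 2 * (α * β * (a * (T * v0))) := by ring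
    have h10 : (1 - 2 * e) * (α * β * (a * (T * v0))) ≤ (1 - e) ^ 2 * (α * β * (a * (T * v0))) := by
      apply mul_le_mul_of_nonneg_right _ h8
      nlinarith
    have h11 : 2 * e ≤ ε := by rw [he]; linarith
    have h12 := mul_le_mul_of_nonneg_right h11 h8
    have e1 : a * α * (T * (v0 * β)) = α * β * (a * (T * v0)) := by ring
    rw [e1]
    linarith
  · -- upper bound
    have h1 : ∀ u ∈ Icc 1 T \ S, Vq (QH (Q1 Z) (insert u S)) w * Vt (QH (Q1 Z) (insert u S)) w y ≤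
        (α * β) * (Vq (QH (Q1 Z) (insert u S)) w + (FS T S w y u - 1)) := by
      intro u hu
      have h2 := vt_up Z T S w y u hS hu
      rw [← hα, ← hβ] at h2
      have hF := FS_ge T S w y u
      have hb0 := Vq_nonneg (QH (Q1 Z) (insert u S)) w
      have hb1 := Vq_le_one (QH (Q1 Z) (insert u S)) w
      calc Vq (QH (Q1 Z) (insert u S)) w * Vt (QH (Q1 Z) (insert u S)) w y ≤
          Vq (QH (Q1 Z) (insert u S)) w * (α * β * FS T S w y u) := mul_le_mul_of_nonneg_left h2 hb0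
        _ = (α * β) * (Vq (QH (Q1 Z) (insert u S)) w + Vq (QH (Q1 Z) (insert u S)) w * (FS T S w y u - 1)) := by ring
        _ ≤ _ := by
          apply mul_le_mul_of_nonneg_left _ hab
          have := mul_le_mul_of_nonneg_right hb1 (by linarith : 0 ≤ FS T S w y u - 1)
          linarith
    have h2 := Finset.sum_le_sum h1
    rw [← Finset.mul_sum] at h2
    have h3 : ∑ u ∈ Icc 1 T \ S, (Vq (QH (Q1 Z) (insert u S)) w + (FS T S w y u - 1)) ≤
        ∑ u ∈ Icc 1 T, (Vq (QH (Q1 Z) (insert u S)) w + (FS T S w y u - 1)) := by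
      apply Finset.sum_le_sum_of_subset_of_nonneg sdiff_subset
      intro u _ _
      have hF := FS_ge T S w y u
      have hb0 := Vq_nonneg (QH (Q1 Z) (insert u S)) w
      linarith
    have h4 := havg T hTT1 (Co T S) (coll_Co T w k S hSk) y 0 le_rfl (by
      rw [mul_zero]
      exact hη10.le) (by
      intro h _
      have : ((pz y).filter (fun p : ℕ => T < p ∧ Co T S p h)) = ∅ := by
        rw [Finset.filter_eq_empty_iff]
        rintro p _ ⟨h1, h2, _⟩
        omega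
      rw [this]
      simp)
    have h5 : ∑ u ∈ Icc 1 T, (FS T S w y u - 1) ≤ 12 * η1 * T := by
      rw [Finset.sum_sub_distrib, Finset.sum_const, Nat.card_Icc, Nat.add_sub_cancel, nsmul_eq_mul,
        mul_one]
      have h6 := exp_bound η1 hη10.le hη11
      have h7 := mul_le_mul_of_nonneg_right h6 hTr0
      unfold FS
      linarith
    have h3' : ∑ u ∈ Icc 1 T, (Vq (QH (Q1 Z) (insert u S)) w + (FS T S w y u - 1)) =
        Sg + ∑ u ∈ Icc 1 T, (FS T S w y u - 1) := by rw [Finset.sum_add_distrib, hSg]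
    rw [h3'] at h3
    have h6 : 12 * η1 * T ≤ e * (a * (T * v0)) := by
      calc 12 * η1 * T ≤ e * v ^ 2 * T := mul_le_mul_of_nonneg_right h12 hTr0
        _ ≤ e * (a * v0) * T := by
          apply mul_le_mul_of_nonneg_right _ hTr0
          apply mul_le_mul_of_nonneg_left _ he0.le
          rw [sq]
          exact mul_le_mul hav hvv hv0.le ha0.le
        _ = _ := by ring
    have h7 : (M : ℝ) * a ≤ e * (a * (T * v0)) := by
      have := mul_le_mul_of_nonneg_right hMk ha0.le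
      nlinarith
    have h8 : ∑ u ∈ Icc 1 T \ S, (Vq (QH (Q1 Z) (insert u S)) w + (FS T S w y u - 1)) ≤
        (1 + 2 * e) * (a * (T * v0)) := by linarith
    have h9 := mul_le_mul_of_nonneg_left h8 hab
    have h10 : 0 ≤ α * β * (a * (T * v0)) := mul_nonneg hab (mul_nonneg ha0.le hTv)
    have h11 : 2 * e ≤ ε := by rw [he]; linarith
    have h12 := mul_le_mul_of_nonneg_right h11 h10
    have e1 : a * α * (T * (v0 * β)) = α * β * (a * (T * v0)) := by ring
    rw [e1]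
    have e2 : α * β * ((1 + 2 * e) * (a * (T * v0))) = α * β * (a * (T * v0)) + 2 * e * (α * β * (a * (T * v0))) := by
      ring
    linarith

end Pool.Agent.H530.Hv
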