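import Pool.Agent.H530.HvB
import Pool.Graph.R_seed8.TH464.PO.Comb

/-! Combinatorics of configurations and the rooted average of the singular series. -/

set_option autoImplicit false

namespace Pool.Agent.H530.Hv

open Finset Filter Pool.Agent.H373R2.T7 Pool.Agent.W123.RP Pool.Agent.W123.RU Pool.Agent.TH464.PO

/-- double counting of a set with a marked element -/
lemma dbl (J : Finset ℕ) (j : ℕ) (f : Finset ℕ → ℝ) :
    ∑ U ∈ powersetCard j J, ∑ u ∈ J \ U, f (insert u U) = (j + 1) * ∑ W ∈ powersetCard (j + 1) J, f W := by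
  have h1 : (j + 1) * ∑ W ∈ powersetCard (j + 1) J, f W = ∑ W ∈ powersetCard (j + 1) J, ∑ _u ∈ W, f W := by
    rw [Finset.mul_sum]
    apply Finset.sum_congr rfl
    intro W hW
    rw [mem_powersetCard] at hW
    rw [Finset.sum_const, nsmul_eq_mul, hW.2]
    push_cast
    ring
  rw [h1, Finset.sum_sigma', Finset.sum_sigma']
  apply Finset.sum_nbij' (fun x => ⟨insert x.2 x.1, x.2⟩) (fun x => ⟨x.1.erase x.2, x.2⟩)
  · rintro ⟨U, u⟩ h
    rw [mem_sigma, mem_powersetCard, Finset.mem_sdiff] at h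
    rw [mem_sigma, mem_powersetCard]
    refine ⟨⟨insert_subset h.2.1 h.1.1, ?_⟩, mem_insert_self u U⟩
    rw [card_insert_of_notMem h.2.2, h.1.2]
  · rintro ⟨W, u⟩ h
    rw [mem_sigma, mem_powersetCard] at h
    rw [mem_sigma, mem_powersetCard, Finset.mem_sdiff]
    refine ⟨⟨(erase_subset _ _).trans h.1.1, ?_⟩, h.1.1 h.2, ?_⟩
    · dsimp only
      rw [card_erase_of_mem h.2, h.1.2]
      omega
    · exact notMem_erase u W
  · rintro ⟨U, u⟩ h
    rw [mem_sigma, mem_powersetCard, Finset.mem_sdiff] at h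
    dsimp only
    rw [erase_insert h.2.2]
  · rintro ⟨W, u⟩ h
    rw [mem_sigma] at h
    dsimp only
    rw [insert_erase h.2]
  · rintro ⟨U, u⟩ _
    rfl

/-- **The rooted average of the singular series.** -/
theorem rsing (s J : ℕ) (ε : ℝ) (hε : 0 < ε) (hε1 : ε ≤ 1) : ∃ w T0 : ℕ, ∀ T : ℕ, T0 ≤ T → ∀ Z : ℕ,
    ∀ S : Finset ℕ, S ⊆ range (T + 1) → S.card ≤ s → ∀ y : ℕ, w ≤ y → ∀ j ≤ J,
      (1 - ε) * (Vq (QH (Q1 Z) S) y * ((T * Vq (Q1 Z) y) ^ j / j.factorial)) ≤
        ∑ U ∈ powersetCard j (Icc 1 T \ S), Vq (QH (Q1 Z) (U ∪ S)) y ∧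
      ∑ U ∈ powersetCard j (Icc 1 T \ S), Vq (QH (Q1 Z) (U ∪ S)) y ≤
        (1 + ε) * (Vq (QH (Q1 Z) S) y * ((T * Vq (Q1 Z) y) ^ j / j.factorial)) := by
  obtain ⟨e, he⟩ : ∃ e : ℝ, e = ε / 2 ^ J := ⟨_, rfl⟩
  have h2J : (1 : ℝ) ≤ 2 ^ J := one_le_pow₀ (by norm_num)
  have he0 : 0 < e := by rw [he]; positivity
  have heε : e ≤ ε := by
    rw [he]
    exact div_le_self hε.le h2J
  have he1 : e ≤ 1 := heε.trans hε1
  have h2e : 2 ^ J * e = ε := by
    rw [he]
    field_simp
  obtain ⟨w, T0, hstar⟩ := star (s + J) e he0 he1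
  refine ⟨w, T0, ?_⟩
  intro T hT Z S hS hSs y hy
  obtain ⟨I, hI⟩ : ∃ I, I = Icc 1 T \ S := ⟨_, rfl⟩
  rw [← hI]
  obtain ⟨x, hx⟩ : ∃ x : ℝ, x = T * Vq (Q1 Z) y := ⟨_, rfl⟩
  have hx0 : 0 ≤ x := by rw [hx]; exact mul_nonneg (Nat.cast_nonneg _) (Vq_nonneg _ _)
  rw [← hx]
  obtain ⟨R, hR⟩ : ∃ R : ℕ → ℝ, R = fun j => ∑ U ∈ powersetCard j I, Vq (QH (Q1 Z) (U ∪ S)) y := ⟨_, rfl⟩
  have hstep : ∀ j < J, |(j + 1) * R (j + 1) - x * R j| ≤ e * (x * R j) := by
    intro j hj
    rw [hR]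
    dsimp only
    rw [← dbl I j (fun U => Vq (QH (Q1 Z) (U ∪ S)) y), Finset.mul_sum, ← Finset.sum_sub_distrib, Finset.mul_sum]
    refine (Finset.abs_sum_le_sum_abs _ _).trans (Finset.sum_le_sum ?_)
    intro U hU
    rw [mem_powersetCard] at hU
    have h1 := hstar T hT Z (U ∪ S) (by
      apply union_subset _ hS
      refine hU.1.trans ?_
      rw [hI]
      intro u hu
      rw [Finset.mem_sdiff, mem_Icc] at hu
      rw [mem_range]
      omega) ((card_union_le _ _).trans (by omega)) y hy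
    rw [← hx] at h1
    have e1 : Icc 1 T \ (U ∪ S) = I \ U := by
      rw [hI, sdiff_sdiff_left, union_comm]
      rfl
    rw [e1] at h1
    have e2 : ∑ u ∈ I \ U, Vq (QH (Q1 Z) (insert u (U ∪ S))) y = ∑ u ∈ I \ U, Vq (QH (Q1 Z) (insert u U ∪ S)) y := by
      apply Finset.sum_congr rfl
      intro u _
      rw [insert_union]
    rw [e2, mul_comm _ x] at h1
    exact h1
  have hR0 : ∀ j, 0 ≤ R j := by
    intro j
    rw [hR]
    exact Finset.sum_nonneg fun U _ => Vq_nonneg _ _
  have hRz : R 0 = Vq (QH (Q1 Z) S) y := by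
    rw [hR]
    simp
  have key : ∀ j ≤ J, (1 - e) ^ j * (R 0 * (x ^ j / j.factorial)) ≤ R j ∧
      R j ≤ (1 + e) ^ j * (R 0 * (x ^ j / j.factorial)) := by
    intro j
    induction j with
    | zero => intro _; simp
    | succ j ih =>
      intro hj
      obtain ⟨i1, i2⟩ := ih (by omega)
      obtain ⟨a1, a2⟩ := abs_le.1 (hstep j (by omega))
      have hj0 : (0 : ℝ) < (j : ℝ) + 1 := by positivity
      have hfac : ((j + 1).factorial : ℝ) = (j + 1) * j.factorial := by
        rw [Nat.factorial_succ]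
        push_cast
        ring
      have hjf : (0 : ℝ) < j.factorial := by exact_mod_cast Nat.factorial_pos j
      constructor
      · have h1 : (1 - e) * (x * R j) ≤ (j + 1) * R (j + 1) := by linarith
        have h2 : (1 - e) * (x * ((1 - e) ^ j * (R 0 * (x ^ j / j.factorial)))) ≤ (1 - e) * (x * R j) := by
          apply mul_le_mul_of_nonneg_left _ (by linarith)
          exact mul_le_mul_of_nonneg_left i1 hx0
        have h3 : (j + 1) * ((1 - e) ^ (j + 1) * (R 0 * (x ^ (j + 1) / (j + 1).factorial))) =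
            (1 - e) * (x * ((1 - e) ^ j * (R 0 * (x ^ j / j.factorial)))) := by
          rw [hfac]
          field_simp
          ring
        exact le_of_mul_le_mul_left (by linarith) hj0
      · have h1 : (j + 1) * R (j + 1) ≤ (1 + e) * (x * R j) := by linarith
        have h2 : (1 + e) * (x * R j) ≤ (1 + e) * (x * ((1 + e) ^ j * (R 0 * (x ^ j / j.factorial)))) := by
          apply mul_le_mul_of_nonneg_left _ (by linarith)
          exact mul_le_mul_of_nonneg_left i2 hx0
        have h3 : (j + 1) * ((1 + e) ^ (j + 1) * (R 0 * (x ^ (j + 1) / (j + 1).factorial))) =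
            (1 + e) * (x * ((1 + e) ^ j * (R 0 * (x ^ j / j.factorial)))) := by
          rw [hfac]
          field_simp
          ring
        exact le_of_mul_le_mul_left (by linarith) hj0
  intro j hj
  obtain ⟨k1, k2⟩ := key j hj
  have e3 : R j = ∑ U ∈ powersetCard j I, Vq (QH (Q1 Z) (U ∪ S)) y := by rw [hR]
  rw [← e3, ← hRz]
  have hX0 : 0 ≤ R 0 * (x ^ j / j.factorial) := mul_nonneg (hR0 0) (by positivity)
  have h2j : (2 : ℝ) ^ j ≤ 2 ^ J := pow_le_pow_right₀ (by norm_num) hj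
  constructor
  · refine le_trans ?_ k1
    apply mul_le_mul_of_nonneg_right _ hX0
    have h1 := one_add_mul_le_pow (a := -e) (by linarith) j
    have h2 : (j : ℝ) * e ≤ 2 ^ J * e := by
      apply mul_le_mul_of_nonneg_right _ he0.le
      have : (j : ℝ) < 2 ^ j := by exact_mod_cast Nat.lt_two_pow_self
      linarith
    have h3 : (1 : ℝ) + j * -e = 1 - j * e := by ring
    have h4 : (1 : ℝ) + -e = 1 - e := by ring
    rw [h3, h4] at h1
    linarith
  · refine le_trans k2 ?_
    apply mul_le_mul_of_nonneg_right _ hX0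
    have h1 := one_add_pow_le j e he0.le he1
    have h2 : ((2 : ℝ) ^ j - 1) * e ≤ 2 ^ J * e := by
      apply mul_le_mul_of_nonneg_right _ he0.le
      linarith
    linarith

/-- supersets -/
lemma sup_sets (N : Finset ℕ) (r i : ℕ) (g : Finset ℕ → ℝ) :
    ∑ U ∈ powersetCard (r + i) N, ∑ P ∈ powersetCard r U, g P =
      ∑ P ∈ powersetCard r N, g P * ((N.card - r).choose i : ℝ) := by
  classical
  have h1 : ∀ P ∈ powersetCard r N, g P * ((N.card - r).choose i : ℝ) =
      ∑ V ∈ powersetCard i (N \ P), g P := by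
    intro P hP
    rw [mem_powersetCard] at hP
    rw [Finset.sum_const, card_powersetCard, card_sdiff_of_subset hP.1, hP.2, nsmul_eq_mul, mul_comm]
  rw [Finset.sum_congr rfl h1, Finset.sum_sigma', Finset.sum_sigma']
  apply Finset.sum_nbij' (fun x => ⟨x.2, x.1 \ x.2⟩) (fun x => ⟨x.1 ∪ x.2, x.1⟩)
  · rintro ⟨U, P⟩ h
    rw [mem_sigma, mem_powersetCard, mem_powersetCard] at h
    rw [mem_sigma, mem_powersetCard, mem_powersetCard]
    dsimp only at h ⊢
    refine ⟨⟨h.2.1.trans h.1.1, h.2.2⟩, sdiff_subset_sdiff h.1.1 (Subset.refl _), ?_⟩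
    rw [card_sdiff_of_subset h.2.1, h.1.2, h.2.2]
    omega
  · rintro ⟨P, V⟩ h
    rw [mem_sigma, mem_powersetCard, mem_powersetCard] at h
    rw [mem_sigma, mem_powersetCard, mem_powersetCard]
    dsimp only at h ⊢
    refine ⟨⟨union_subset h.1.1 (h.2.1.trans sdiff_subset), ?_⟩, subset_union_left, h.1.2⟩
    rw [card_union_of_disjoint, h.1.2, h.2.2]
    rw [Finset.disjoint_left]
    intro a ha ha'
    exact (Finset.mem_sdiff.1 (h.2.1 ha')).2 ha
  · rintro ⟨U, P⟩ h
    rw [mem_sigma, mem_powersetCard, mem_powersetCard] at h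
    dsimp only at h ⊢
    rw [union_sdiff_of_subset h.2.1]
  · rintro ⟨P, V⟩ h
    rw [mem_sigma, mem_powersetCard, mem_powersetCard] at h
    dsimp only at h ⊢
    have : (P ∪ V) \ P = V := by
      rw [union_sdiff_left, _root_.sdiff_eq_self_iff_disjoint, Finset.disjoint_left]
      intro a ha ha'
      exact (Finset.mem_sdiff.1 (h.2.1 ha')).2 ha
    rw [this]
  · rintro ⟨U, P⟩ _
    rfl

/-- inclusion and exclusion for functions of a finite set -/
lemma pattern (N : Finset ℕ) (g : Finset ℕ → ℝ) (hg : ∀ P, |g P| ≤ 1) (r1 J : ℕ) :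
    |g N - ∑ r ∈ range (r1 + 1), ∑ i ∈ range (J + 1), (-1) ^ i *
      ∑ U ∈ powersetCard (r + i) N, ∑ P ∈ powersetCard r U, g P| ≤
    (if r1 < N.card then 1 else 0) + ∑ r ∈ range (r1 + 1), ((r + (J + 1)).choose r : ℝ) *
      (N.card.choose (r + (J + 1)) : ℝ) := by
  have h1 : ∀ r ∈ range (r1 + 1), |(∑ P ∈ powersetCard r N, g P * (if N.card - r = 0 then (1 : ℝ) else 0)) -
      ∑ i ∈ range (J + 1), (-1) ^ i * ∑ U ∈ powersetCard (r + i) N, ∑ P ∈ powersetCard r U, g P| ≤
      ((r + (J + 1)).choose r : ℝ) * (N.card.choose (r + (J + 1)) : ℝ) := by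
    intro r _
    have e1 : ∑ i ∈ range (J + 1), (-1 : ℝ) ^ i * ∑ U ∈ powersetCard (r + i) N, ∑ P ∈ powersetCard r U, g P =
        ∑ P ∈ powersetCard r N, g P * ∑ i ∈ range (J + 1), (-1) ^ i * ((N.card - r).choose i : ℝ) := by
      rw [Finset.sum_congr rfl (fun i _ => by rw [sup_sets N r i g])]
      simp_rw [Finset.mul_sum]
      rw [Finset.sum_comm]
      apply Finset.sum_congr rfl
      intro P _
      apply Finset.sum_congr rfl
      intro i _
      ring
    rw [e1, ← Finset.sum_sub_distrib]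
    refine (Finset.abs_sum_le_sum_abs _ _).trans ?_
    have h2 : ∀ P ∈ powersetCard r N, |g P * (if N.card - r = 0 then (1 : ℝ) else 0) -
        g P * ∑ i ∈ range (J + 1), (-1) ^ i * ((N.card - r).choose i : ℝ)| ≤ ((N.card - r).choose (J + 1) : ℝ) := by
      intro P _
      rw [← mul_sub, abs_mul]
      have h3 := bonf (N.card - r) J
      calc |g P| * |(if N.card - r = 0 then (1 : ℝ) else 0) -
            ∑ i ∈ range (J + 1), (-1) ^ i * ((N.card - r).choose i : ℝ)| ≤ 1 * ((N.card - r).choose (J + 1) : ℝ) :=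
            mul_le_mul (hg P) h3 (abs_nonneg _) zero_le_one
        _ = _ := one_mul _
    refine (Finset.sum_le_sum h2).trans ?_
    rw [Finset.sum_const, card_powersetCard, nsmul_eq_mul]
    have h3 := Nat.choose_mul (n := N.card) (k := r + (J + 1)) (s := r) (by omega)
    have e2 : r + (J + 1) - r = J + 1 := by omega
    rw [e2] at h3
    have h4 : ((N.card.choose (r + (J + 1)) : ℝ)) * ((r + (J + 1)).choose r : ℝ) =
        (N.card.choose r : ℝ) * ((N.card - r).choose (J + 1) : ℝ) := by exact_mod_cast h3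
    rw [← h4, mul_comm]
  have h5 : |g N - ∑ r ∈ range (r1 + 1), ∑ P ∈ powersetCard r N, g P * (if N.card - r = 0 then (1 : ℝ) else 0)| ≤
      (if r1 < N.card then 1 else 0) := by
    have h6 : ∀ r : ℕ, r ≠ N.card → ∑ P ∈ powersetCard r N, g P * (if N.card - r = 0 then (1 : ℝ) else 0) = 0 := by
      intro r hr
      rcases lt_or_gt_of_ne hr with h | h
      · have : N.card - r ≠ 0 := by omega
        simp [this]
      · rw [powersetCard_eq_empty.2 h]
        simp
    split_ifs with h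
    · rw [Finset.sum_eq_zero (fun r hr => h6 r (by
        rw [mem_range] at hr
        omega)), sub_zero]
      exact hg N
    · rw [Finset.sum_eq_single N.card (fun r _ hr => h6 r hr) (by
        intro hc
        rw [mem_range] at hc
        omega)]
      rw [powersetCard_self]
      simp
  have h7 := abs_sub_le (g N) (∑ r ∈ range (r1 + 1), ∑ P ∈ powersetCard r N, g P * (if N.card - r = 0 then (1 : ℝ) else 0))
    (∑ r ∈ range (r1 + 1), ∑ i ∈ range (J + 1), (-1) ^ i * ∑ U ∈ powersetCard (r + i) N, ∑ P ∈ powersetCard r U, g P)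
  refine h7.trans (add_le_add h5 ?_)
  rw [← Finset.sum_sub_distrib]
  exact (Finset.abs_sum_le_sum_abs _ _).trans (Finset.sum_le_sum h1)

end Pool.Agent.H530.Hv
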