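import Pool.Agent.H530.HvC
import Pool.Agent.H530.HuG

/-! Rooted binomial moments of the number of sifted integers near a sifted tuple, and the Liouville function
along sifted tuples. -/

set_option autoImplicit false

namespace Pool.Agent.H530.Hv

open Finset Filter Pool.Agent.W123.RP Pool.Agent.W123.RU Pool.Agent.TH464.PO Pool.Agent.H530.Ha
open Pool.Agent.H373R2.T7 hiding RQ

open Classical in
/-- the other sifted integers of the window -/
noncomputable def NS (Z T : ℕ) (S : Finset ℕ) (y n : ℕ) : Finset ℕ :=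
  (Icc 1 T \ S).filter (fun u => Sf (Q1 Z) y (n + u))

lemma mem_RQ (Q : ℕ → ℕ → Prop) (X y n : ℕ) : n ∈ RQ Q X y ↔ n ∈ Icc 1 X ∧ Sf Q y n := by
  classical
  unfold RQ Sf
  rw [mem_filter]

lemma RQ_sub (Z T : ℕ) (S U : Finset ℕ) (X y n : ℕ) (hU : U ⊆ Icc 1 T \ S) :
    n ∈ RQ (QH (Q1 Z) (U ∪ S)) X y ↔ n ∈ RQ (QH (Q1 Z) S) X y ∧ U ⊆ NS Z T S y n := by
  classical
  rw [mem_RQ, mem_RQ, sf_QH, sf_QH]
  constructor
  · rintro ⟨h1, h2⟩
    refine ⟨⟨h1, fun h hh => h2 h (mem_union_right U hh)⟩, ?_⟩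
    intro u hu
    unfold NS
    rw [mem_filter]
    exact ⟨hU hu, h2 u (mem_union_left S hu)⟩
  · rintro ⟨⟨h1, h2⟩, h3⟩
    refine ⟨h1, ?_⟩
    intro h hh
    rw [mem_union] at hh
    rcases hh with hh | hh
    · have := h3 hh
      unfold NS at this
      rw [mem_filter] at this
      exact this.2
    · exact h2 h hh

/-- exchange of the sums -/
lemma swap (Z T : ℕ) (S : Finset ℕ) (X y j : ℕ) (h : ℕ → ℝ) (f : Finset ℕ → ℝ) :
    ∑ n ∈ RQ (QH (Q1 Z) S) X y, h n * ∑ U ∈ powersetCard j (NS Z T S y n), f U =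
      ∑ U ∈ powersetCard j (Icc 1 T \ S), f U * ∑ n ∈ RQ (QH (Q1 Z) (U ∪ S)) X y, h n := by
  classical
  have h1 : ∀ n, powersetCard j (NS Z T S y n) = (powersetCard j (Icc 1 T \ S)).filter (fun U => U ⊆ NS Z T S y n) := by
    intro n
    ext U
    rw [mem_filter, mem_powersetCard, mem_powersetCard]
    constructor
    · rintro ⟨a1, a2⟩
      exact ⟨⟨a1.trans (filter_subset _ _), a2⟩, a1⟩
    · rintro ⟨⟨_, a2⟩, a3⟩
      exact ⟨a3, a2⟩
  have h2 : ∀ n ∈ RQ (QH (Q1 Z) S) X y, h n * ∑ U ∈ powersetCard j (NS Z T S y n), f U =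
      ∑ U ∈ powersetCard j (Icc 1 T \ S), if U ⊆ NS Z T S y n then f U * h n else 0 := by
    intro n _
    rw [h1 n, Finset.mul_sum, Finset.sum_filter]
    apply Finset.sum_congr rfl
    intro U _
    split_ifs
    · ring
    · rfl
  rw [Finset.sum_congr rfl h2, Finset.sum_comm]
  apply Finset.sum_congr rfl
  intro U hU
  rw [mem_powersetCard] at hU
  rw [← Finset.sum_filter, ← Finset.mul_sum]
  congr 1
  apply Finset.sum_congr _ (fun _ _ => rfl)
  ext n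
  rw [mem_filter, RQ_sub Z T S U X y n hU.1]

lemma swap_one (Z T : ℕ) (S : Finset ℕ) (X y j : ℕ) :
    ∑ n ∈ RQ (QH (Q1 Z) S) X y, ((NS Z T S y n).card.choose j : ℝ) =
      ∑ U ∈ powersetCard j (Icc 1 T \ S), ((RQ (QH (Q1 Z) (U ∪ S)) X y).card : ℝ) := by
  have h := swap Z T S X y j (fun _ => 1) (fun _ => 1)
  simp only [Finset.sum_const, card_powersetCard, nsmul_eq_mul, mul_one, one_mul] at h
  exact h

lemma sv_QS (Z k : ℕ) (H : Finset ℕ) (hH : H.card ≤ k)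
    (hadm : ∀ p : ℕ, p.Prime → nuB (QH (Q1 Z) H) p < p) : Sv k (QH (Q1 Z) H) :=
  ⟨(perB_QH (Q1 Z) 1 (perB_Q1 Z) H).per, fun p hp => (nuS_le Z H p hp).trans hH, fun p hp => hadm p hp⟩

/-- systems which are not admissible -/
lemma nonadm (Z k : ℕ) (H : Finset ℕ) (hH : H.card ≤ k) (X y : ℕ) (hy : k ≤ y)
    (hadm : ¬ ∀ p : ℕ, p.Prime → nuB (QH (Q1 Z) H) p < p) :
    RQ (QH (Q1 Z) H) X y = ∅ ∧ Vq (QH (Q1 Z) H) y = 0 := by
  classical
  push Not at hadm
  obtain ⟨p, hp, hpn⟩ := hadm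
  have hpk : p ≤ k := hpn.trans ((nuS_le Z H p hp).trans hH)
  have hpy : p ∈ pz y := mem_pz.2 ⟨by omega, hp⟩
  have e1 : nuB (QH (Q1 Z) H) p = p := le_antisymm (nuB_le _ p) hpn
  constructor
  · rw [Finset.eq_empty_iff_forall_notMem]
    intro n hn
    rw [mem_RQ] at hn
    have h1 : (range p).filter (fun r => QH (Q1 Z) H p r) = range p := by
      apply Finset.eq_of_subset_of_card_le (filter_subset _ _)
      rw [card_range]
      refine le_trans hpn (le_of_eq ?_)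
      unfold nuB
      congr
    have h2 : n % p ∈ (range p).filter (fun r => QH (Q1 Z) H p r) := by
      rw [h1, mem_range]
      exact Nat.mod_lt _ hp.pos
    rw [mem_filter] at h2
    exact hn.2 p hpy (((perB_QH (Q1 Z) 1 (perB_Q1 Z) H).per p n).2 h2.2)
  · unfold Vq
    apply Finset.prod_eq_zero hpy
    rw [e1, div_self (by exact_mod_cast hp.ne_zero), sub_self]

/-- **Rooted moments and the Liouville function.** -/
theorem core (s L : ℕ) (x0 ε : ℝ) (hx0 : 0 ≤ x0) (hε : 0 < ε) : ∃ K : ℕ, 1 ≤ K ∧ ∃ T0 : ℕ, ∀ B : ℕ,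
    ∃ X0 y0 : ℕ, ∀ X y Z T : ℕ, ∀ S : Finset ℕ, X0 ≤ X → y0 ≤ y → y ^ K ≤ X → T0 ≤ T → S ⊆ range (T + 1) →
      S.card ≤ s → T * Vq (Q1 Z) y ≤ x0 →
      (∀ j ≤ L, |∑ n ∈ RQ (QH (Q1 Z) S) X y, ((NS Z T S y n).card.choose j : ℝ) -
        (RQ (QH (Q1 Z) S) X y).card * ((T * Vq (Q1 Z) y) ^ j / j.factorial)| ≤ ε * (RQ (QH (Q1 Z) S) X y).card) ∧
      ∀ u ∈ S, ((Z + u : ℕ) : ℝ) ≤ X * Real.log X ^ B → ∀ U ⊆ Icc 1 T \ S, U.card ≤ L →
        |∑ n ∈ RQ (QH (Q1 Z) (U ∪ S)) X y, la (n + (Z + u))| ≤ ε * (RQ (QH (Q1 Z) (U ∪ S)) X y).card := by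
  obtain ⟨X1, hX1⟩ : ∃ X1 : ℝ, X1 = (1 + x0) ^ L := ⟨_, rfl⟩
  have hX11 : 1 ≤ X1 := by rw [hX1]; exact one_le_pow₀ (by linarith)
  obtain ⟨e, he⟩ : ∃ e : ℝ, e = min (1 / 4) (ε / (6 * X1)) := ⟨_, rfl⟩
  have he0 : 0 < e := by rw [he]; exact lt_min (by norm_num) (by positivity)
  have he4 : e ≤ 1 / 4 := by rw [he]; exact min_le_left _ _
  have heε : 6 * e * X1 ≤ ε := by
    have : e ≤ ε / (6 * X1) := by rw [he]; exact min_le_right _ _
    rw [le_div_iff₀ (by positivity)] at this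
    linarith
  have heε' : e ≤ ε := by nlinarith
  obtain ⟨w, T0, hrs⟩ := rsing s L e he0 (by linarith)
  obtain ⟨c, hc, H0⟩ := all_Q (s + L + 1) (by omega)
  obtain ⟨K, hK, H1⟩ := H0 e he0
  refine ⟨K, hK, T0, fun B => ?_⟩
  obtain ⟨X0, y0, H2⟩ := H1 B
  refine ⟨X0 + 3, y0 + w + s + L + 1, ?_⟩
  intro X y Z T S hX hy hyX hT hST hSs hTx
  have hXr : (0 : ℝ) ≤ X := Nat.cast_nonneg X
  have hcard : ∀ H : Finset ℕ, H.card ≤ s + L →
      (1 - e) * (RQ (QH (Q1 Z) H) X y).card ≤ X * Vq (QH (Q1 Z) H) y ∧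
      X * Vq (QH (Q1 Z) H) y ≤ (1 + e) * (RQ (QH (Q1 Z) H) X y).card := by
    intro H hH
    by_cases hadm : ∀ p : ℕ, p.Prime → nuB (QH (Q1 Z) H) p < p
    · obtain ⟨_, h1, _⟩ := H2 (QH (Q1 Z) H) (sv_QS Z (s + L + 1) H (by omega) hadm) X y (by omega) (by omega) hyX
      have e1 : ∏ p ∈ pz y, (1 - (nuB (QH (Q1 Z) H) p : ℝ) / p) = Vq (QH (Q1 Z) H) y := rfl
      rw [e1] at h1
      obtain ⟨h2, h3⟩ := abs_le.1 h1
      constructor <;> linarith
    · obtain ⟨h1, h2⟩ := nonadm Z (s + L + 1) H (by omega) X y (by omega) hadm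
      rw [h1, h2]
      simp
  obtain ⟨x, hx⟩ : ∃ x : ℝ, x = T * Vq (Q1 Z) y := ⟨_, rfl⟩
  have hxn : 0 ≤ x := by rw [hx]; exact mul_nonneg (Nat.cast_nonneg _) (Vq_nonneg _ _)
  rw [← hx] at hTx ⊢
  obtain ⟨a, ha⟩ : ∃ a : ℝ, a = ((RQ (QH (Q1 Z) S) X y).card : ℝ) := ⟨_, rfl⟩
  have ha0 : 0 ≤ a := by rw [ha]; exact Nat.cast_nonneg _
  rw [← ha]
  obtain ⟨hS1, hS2⟩ := hcard S (by omega)
  rw [← ha] at hS1 hS2
  constructor
  · intro j hj
    obtain ⟨t, ht⟩ : ∃ t : ℝ, t = x ^ j / (j.factorial : ℝ) := ⟨_, rfl⟩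
    have ht0 : 0 ≤ t := by rw [ht]; positivity
    have ht1 : t ≤ X1 := by
      rw [ht, hX1]
      have hjf : (1 : ℝ) ≤ j.factorial := by exact_mod_cast Nat.factorial_pos j
      calc x ^ j / (j.factorial : ℝ) ≤ x ^ j := div_le_self (by positivity) hjf
        _ ≤ (1 + x0) ^ j := pow_le_pow_left₀ hxn (by linarith) j
        _ ≤ (1 + x0) ^ L := pow_le_pow_right₀ (by linarith) hj
    rw [swap_one, ← ht]
    obtain ⟨r1, r2⟩ := hrs T hT Z S hST hSs y (by omega) j hj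
    rw [← hx, ← ht] at r1 r2
    obtain ⟨M, hM⟩ : ∃ M : ℝ, M = ∑ U ∈ powersetCard j (Icc 1 T \ S), ((RQ (QH (Q1 Z) (U ∪ S)) X y).card : ℝ) :=
      ⟨_, rfl⟩
    obtain ⟨R, hR⟩ : ∃ R : ℝ, R = ∑ U ∈ powersetCard j (Icc 1 T \ S), Vq (QH (Q1 Z) (U ∪ S)) y := ⟨_, rfl⟩
    rw [← hR] at r1 r2
    rw [← hM]
    have hcU : ∀ U ∈ powersetCard j (Icc 1 T \ S), (U ∪ S).card ≤ s + L := by
      intro U hU
      rw [mem_powersetCard] at hU
      exact (card_union_le _ _).trans (by omega)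
    have m1 : (1 - e) * M ≤ X * R := by
      rw [hM, hR, Finset.mul_sum, Finset.mul_sum]
      exact Finset.sum_le_sum fun U hU => (hcard _ (hcU U hU)).1
    have m2 : X * R ≤ (1 + e) * M := by
      rw [hM, hR, Finset.mul_sum, Finset.mul_sum]
      exact Finset.sum_le_sum fun U hU => (hcard _ (hcU U hU)).2
    obtain ⟨D, hD⟩ : ∃ D : ℝ, D = Vq (QH (Q1 Z) S) y := ⟨_, rfl⟩
    rw [← hD] at r1 r2 hS1 hS2
    have n1 : (1 - e) * ((1 - e) * a * t) ≤ X * R := by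
      calc (1 - e) * ((1 - e) * a * t) ≤ (1 - e) * (X * D * t) := by
            apply mul_le_mul_of_nonneg_left _ (by linarith)
            exact mul_le_mul_of_nonneg_right hS1 ht0
        _ = X * ((1 - e) * (D * t)) := by ring
        _ ≤ X * R := mul_le_mul_of_nonneg_left r1 hXr
    have n2 : X * R ≤ (1 + e) * ((1 + e) * a * t) := by
      calc X * R ≤ X * ((1 + e) * (D * t)) := mul_le_mul_of_nonneg_left r2 hXr
        _ = (1 + e) * (X * D * t) := by ring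
        _ ≤ _ := by
          apply mul_le_mul_of_nonneg_left _ (by linarith)
          exact mul_le_mul_of_nonneg_right hS2 ht0
    have hat : 0 ≤ a * t := mul_nonneg ha0 ht0
    have q1 : M ≤ (1 + 6 * e) * (a * t) := by
      have h1 : (1 - e) * M ≤ (1 - e) * ((1 + 6 * e) * (a * t)) := by
        have h2 : (1 + e) * ((1 + e) * a * t) ≤ (1 - e) * ((1 + 6 * e) * (a * t)) := by
          have h3 : (1 + e) * (1 + e) ≤ (1 - e) * (1 + 6 * e) := by nlinarith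
          have h4 := mul_le_mul_of_nonneg_right h3 hat
          linarith
        linarith
      exact le_of_mul_le_mul_left h1 (by linarith)
    have q2 : (1 - 6 * e) * (a * t) ≤ M := by
      have h1 : (1 + e) * ((1 - 6 * e) * (a * t)) ≤ (1 + e) * M := by
        have h2 : (1 + e) * ((1 - 6 * e) * (a * t)) ≤ (1 - e) * ((1 - e) * a * t) := by
          have h3 : (1 + e) * (1 - 6 * e) ≤ (1 - e) * (1 - e) := by nlinarith
          have h4 := mul_le_mul_of_nonneg_right h3 hat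
          linarith
        linarith
      exact le_of_mul_le_mul_left h1 (by linarith)
    have h6 : 6 * e * (a * t) ≤ ε * a := by
      calc 6 * e * (a * t) ≤ 6 * e * (a * X1) := by gcongr
        _ = (6 * e * X1) * a := by ring
        _ ≤ ε * a := mul_le_mul_of_nonneg_right heε ha0
    rw [abs_le]
    constructor <;> linarith
  · intro u hu hZu U hU hUL
    have hc0 : (U ∪ S).card ≤ s + L := (card_union_le _ _).trans (by omega)
    by_cases hadm : ∀ p : ℕ, p.Prime → nuB (QH (Q1 Z) (U ∪ S)) p < p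
    · obtain ⟨_, _, h1⟩ := H2 (QH (Q1 Z) (U ∪ S)) (sv_QS Z (s + L + 1) (U ∪ S) (by omega) hadm) X y (by omega)
        (by omega) hyX
      have hlog : (1 : ℝ) ≤ Real.log X := by
        have h3 : (3 : ℝ) ≤ X := by exact_mod_cast (by omega : 3 ≤ X)
        rw [Real.le_log_iff_exp_le (by linarith)]
        linarith [Real.exp_one_lt_d9]
      have h2 := h1 1 ((Z + u : ℕ) : ℤ) le_rfl (by
        intro p _ n hn
        refine ⟨u, mem_union_right U hu, ?_⟩
        unfold Q1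
        have e2 : ((1 : ℕ) : ℤ) * (n : ℤ) + ((Z + u : ℕ) : ℤ) = ((n + u + Z : ℕ) : ℤ) := by push_cast; ring
        rw [e2] at hn
        exact_mod_cast hn) (by
        rw [Nat.cast_one]
        exact one_le_pow₀ hlog) (by
        rw [Int.cast_natCast, abs_of_nonneg (Nat.cast_nonneg _)]
        exact hZu)
      have e3 : ∑ n ∈ RQ (QH (Q1 Z) (U ∪ S)) X y, lz (((1 : ℕ) : ℤ) * (n : ℤ) + ((Z + u : ℕ) : ℤ)) =
          ∑ n ∈ RQ (QH (Q1 Z) (U ∪ S)) X y, la (n + (Z + u)) := by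
        apply Finset.sum_congr rfl
        intro n _
        rw [← lz_nat]
        congr 1
        push_cast
        ring
      rw [e3] at h2
      exact h2.trans (mul_le_mul_of_nonneg_right heε' (Nat.cast_nonneg _))
    · obtain ⟨h1, _⟩ := nonadm Z (s + L + 1) (U ∪ S) (by omega) X y (by omega) hadm
      rw [h1]
      simp

end Pool.Agent.H530.Hv
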