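import Pool.Agent.H530.HvD
import Pool.Graph.R_seed8.W123.RP.Mert

/-! The Liouville function along sifted tuples is uncorrelated with the configuration of sifted integers nearby. -/

set_option autoImplicit false

namespace Pool.Agent.H530.Hv

open Finset Filter Pool.Agent.W123.RP Pool.Agent.W123.RU Pool.Agent.TH464.PO Pool.Agent.H530.Ha
open Pool.Agent.H373R2.T7 hiding RQ

/-- long windows -/
theorem decor0 (s : ℕ) (x0 ε : ℝ) (hx0 : 0 ≤ x0) (hε : 0 < ε) : ∃ K : ℕ, 1 ≤ K ∧ ∃ T0 : ℕ, ∀ B : ℕ,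
    ∃ X0 y0 : ℕ, ∀ X y Z T : ℕ, ∀ S : Finset ℕ, X0 ≤ X → y0 ≤ y → y ^ K ≤ X → T0 ≤ T → S ⊆ range (T + 1) →
      S.card ≤ s → T * Vq (Q1 Z) y ≤ x0 → ∀ g : Finset ℕ → ℝ, (∀ P, |g P| ≤ 1) →
      ∀ u ∈ S, ((Z + u : ℕ) : ℝ) ≤ X * Real.log X ^ B →
        |∑ n ∈ RQ (QH (Q1 Z) S) X y, g (NS Z T S y n) * la (n + (Z + u))| ≤
          ε * (RQ (QH (Q1 Z) S) X y).card := by
  obtain ⟨r1, hr1⟩ : ∃ r1 : ℕ, 4 * (x0 + 1) / ε ≤ r1 := exists_nat_ge _
  obtain ⟨J, hJ⟩ := exists_small x0 (Real.exp x0) (ε / 4) (by positivity)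
  obtain ⟨L, hL⟩ : ∃ L, L = r1 + (J + 1) := ⟨_, rfl⟩
  obtain ⟨Cst, hCst⟩ : ∃ Cst : ℝ, Cst = ∑ r ∈ range (r1 + 1), ∑ i ∈ range (J + 2), ((r + i).choose r : ℝ) := ⟨_, rfl⟩
  have hCst0 : 0 ≤ Cst := by
    rw [hCst]
    exact Finset.sum_nonneg fun _ _ => Finset.sum_nonneg fun _ _ => Nat.cast_nonneg _
  obtain ⟨Bd, hBd⟩ : ∃ Bd : ℝ, Bd = (1 + x0) ^ L + 1 := ⟨_, rfl⟩
  have hBd1 : 1 ≤ Bd := by
    rw [hBd]
    have : (1 : ℝ) ≤ (1 + x0) ^ L := one_le_pow₀ (by linarith)
    linarith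
  obtain ⟨e, he⟩ : ∃ e : ℝ, e = min 1 (ε / (4 * ((Cst + 1) * Bd))) := ⟨_, rfl⟩
  have he0 : 0 < e := by rw [he]; exact lt_min (by norm_num) (by positivity)
  have he1 : e ≤ 1 := by rw [he]; exact min_le_left _ _
  have heε : e * (Bd * Cst) ≤ ε / 4 := by
    have h1 : e ≤ ε / (4 * ((Cst + 1) * Bd)) := by rw [he]; exact min_le_right _ _
    rw [le_div_iff₀ (by positivity)] at h1
    have h2 : e * (Bd * Cst) ≤ e * ((Cst + 1) * Bd) := by
      apply mul_le_mul_of_nonneg_left _ he0.le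
      nlinarith
    linarith
  have heε' : e * Cst ≤ ε / 4 := by
    refine le_trans ?_ heε
    apply mul_le_mul_of_nonneg_left _ he0.le
    nlinarith
  obtain ⟨K, hK, T0, H0⟩ := core s L x0 e hx0 he0
  refine ⟨K, hK, T0, fun B => ?_⟩
  obtain ⟨X0, y0, H1⟩ := H0 B
  refine ⟨X0, y0, ?_⟩
  intro X y Z T S hX hy hyX hT hST hSs hTx g hg u hu hZu
  obtain ⟨H2, H3⟩ := H1 X y Z T S hX hy hyX hT hST hSs hTx
  have H4 := H3 u hu hZu
  obtain ⟨x, hx⟩ : ∃ x : ℝ, x = T * Vq (Q1 Z) y := ⟨_, rfl⟩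
  have hxn : 0 ≤ x := by rw [hx]; exact mul_nonneg (Nat.cast_nonneg _) (Vq_nonneg _ _)
  rw [← hx] at hTx H2
  obtain ⟨G, hG⟩ : ∃ G, G = RQ (QH (Q1 Z) S) X y := ⟨_, rfl⟩
  obtain ⟨a, ha⟩ : ∃ a : ℝ, a = (G.card : ℝ) := ⟨_, rfl⟩
  have ha0 : 0 ≤ a := by rw [ha]; exact Nat.cast_nonneg _
  rw [← hG, ← ha] at H2 ⊢
  obtain ⟨h, hh⟩ : ∃ h : ℕ → ℝ, h = fun n => la (n + (Z + u)) := ⟨_, rfl⟩
  have hh1 : ∀ n, |h n| ≤ 1 := fun n => by rw [hh]; exact la_abs _
  obtain ⟨N, hN⟩ : ∃ N : ℕ → Finset ℕ, N = fun n => NS Z T S y n := ⟨_, rfl⟩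
  obtain ⟨M, hM⟩ : ∃ M : ℕ → ℝ, M = fun j => ∑ n ∈ G, ((N n).card.choose j : ℝ) := ⟨_, rfl⟩
  have hMb : ∀ j ≤ L, M j ≤ (x ^ j / j.factorial + e) * a := by
    intro j hj
    have h1 := (abs_le.1 (H2 j hj)).2
    rw [hM, hN]
    dsimp only
    linarith
  have hMB : ∀ j ≤ L, M j ≤ Bd * a := by
    intro j hj
    refine (hMb j hj).trans (mul_le_mul_of_nonneg_right ?_ ha0)
    rw [hBd]
    have hjf : (1 : ℝ) ≤ j.factorial := by exact_mod_cast Nat.factorial_pos j
    have : x ^ j / (j.factorial : ℝ) ≤ (1 + x0) ^ L := by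
      calc x ^ j / (j.factorial : ℝ) ≤ x ^ j := div_le_self (by positivity) hjf
        _ ≤ (1 + x0) ^ j := pow_le_pow_left₀ hxn (by linarith) j
        _ ≤ (1 + x0) ^ L := pow_le_pow_right₀ (by linarith) hj
    linarith
  -- the main terms
  obtain ⟨A, hA⟩ : ∃ A : ℕ → ℝ, A = fun n => ∑ r ∈ range (r1 + 1), ∑ i ∈ range (J + 1), (-1) ^ i *
      ∑ U ∈ powersetCard (r + i) (N n), ∑ P ∈ powersetCard r U, g P := ⟨_, rfl⟩
  obtain ⟨E, hE⟩ : ∃ E : ℕ → ℝ, E = fun n => (if r1 < (N n).card then (1 : ℝ) else 0) +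
      ∑ r ∈ range (r1 + 1), ((r + (J + 1)).choose r : ℝ) * ((N n).card.choose (r + (J + 1)) : ℝ) := ⟨_, rfl⟩
  have hAE : ∀ n, |g (N n) - A n| ≤ E n := by
    intro n
    rw [hA, hE]
    exact pattern (N n) g hg r1 J
  have hswap : ∀ j (f : Finset ℕ → ℝ), ∑ n ∈ G, h n * ∑ U ∈ powersetCard j (N n), f U =
      ∑ U ∈ powersetCard j (Icc 1 T \ S), f U * ∑ n ∈ RQ (QH (Q1 Z) (U ∪ S)) X y, h n := by
    intro j f
    rw [hG, hN]
    exact swap Z T S X y j h f
  have hMeq : ∀ j, M j = ∑ U ∈ powersetCard j (Icc 1 T \ S), ((RQ (QH (Q1 Z) (U ∪ S)) X y).card : ℝ) := by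
    intro j
    rw [hM, hN, hG]
    exact swap_one Z T S X y j
  have hmain : |∑ n ∈ G, h n * A n| ≤ e * (Bd * Cst) * a := by
    have e1 : ∑ n ∈ G, h n * A n = ∑ r ∈ range (r1 + 1), ∑ i ∈ range (J + 1), (-1) ^ i *
        ∑ n ∈ G, h n * ∑ U ∈ powersetCard (r + i) (N n), ∑ P ∈ powersetCard r U, g P := by
      rw [hA]
      dsimp only
      simp_rw [Finset.mul_sum]
      rw [Finset.sum_comm]
      apply Finset.sum_congr rfl
      intro r _
      rw [Finset.sum_comm]
      apply Finset.sum_congr rfl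
      intro i _
      apply Finset.sum_congr rfl
      intro n _
      apply Finset.sum_congr rfl
      intro U _
      apply Finset.sum_congr rfl
      intro P _
      ring
    rw [e1]
    have h1 : ∀ r ∈ range (r1 + 1), ∀ i ∈ range (J + 1), |(-1 : ℝ) ^ i *
        ∑ n ∈ G, h n * ∑ U ∈ powersetCard (r + i) (N n), ∑ P ∈ powersetCard r U, g P| ≤
        ((r + i).choose r : ℝ) * (e * (Bd * a)) := by
      intro r hr i hi
      rw [mem_range] at hr hi
      have e2 : |(-1 : ℝ) ^ i| = 1 := by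
        rw [abs_pow, abs_neg, abs_one, one_pow]
      rw [abs_mul, e2, one_mul, hswap]
      refine (Finset.abs_sum_le_sum_abs _ _).trans ?_
      have h2 : ∀ U ∈ powersetCard (r + i) (Icc 1 T \ S),
          |(∑ P ∈ powersetCard r U, g P) * ∑ n ∈ RQ (QH (Q1 Z) (U ∪ S)) X y, h n| ≤
          ((r + i).choose r : ℝ) * (e * (RQ (QH (Q1 Z) (U ∪ S)) X y).card) := by
        intro U hU
        rw [mem_powersetCard] at hU
        rw [abs_mul]
        apply mul_le_mul _ _ (abs_nonneg _) (Nat.cast_nonneg _)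
        · refine (Finset.abs_sum_le_sum_abs _ _).trans ?_
          refine (Finset.sum_le_card_nsmul _ _ 1 (fun P _ => hg P)).trans ?_
          rw [card_powersetCard, hU.2, nsmul_eq_mul, mul_one]
        · have := H4 U hU.1 (by omega)
          rw [hh]
          exact this
      refine (Finset.sum_le_sum h2).trans ?_
      rw [← Finset.mul_sum, ← Finset.mul_sum, ← hMeq]
      apply mul_le_mul_of_nonneg_left _ (Nat.cast_nonneg _)
      exact mul_le_mul_of_nonneg_left (hMB _ (by omega)) he0.le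
    refine (Finset.abs_sum_le_sum_abs _ _).trans ?_
    have h3 : ∀ r ∈ range (r1 + 1), |∑ i ∈ range (J + 1), (-1 : ℝ) ^ i *
        ∑ n ∈ G, h n * ∑ U ∈ powersetCard (r + i) (N n), ∑ P ∈ powersetCard r U, g P| ≤
        (∑ i ∈ range (J + 2), ((r + i).choose r : ℝ)) * (e * (Bd * a)) := by
      intro r hr
      refine (Finset.abs_sum_le_sum_abs _ _).trans ?_
      refine (Finset.sum_le_sum (h1 r hr)).trans ?_
      rw [← Finset.sum_mul]
      apply mul_le_mul_of_nonneg_right _ (by positivity)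
      apply Finset.sum_le_sum_of_subset_of_nonneg
      · intro i hi
        rw [mem_range] at hi ⊢
        omega
      · intros
        exact Nat.cast_nonneg _
    refine (Finset.sum_le_sum h3).trans (le_of_eq ?_)
    rw [← Finset.sum_mul, ← hCst]
    ring
  -- the error terms
  have herr : ∑ n ∈ G, E n ≤ (ε / 4 + ε / 4 + e * Cst) * a := by
    rw [hE]
    dsimp only
    rw [Finset.sum_add_distrib]
    have h1 : ∑ n ∈ G, (if r1 < (N n).card then (1 : ℝ) else 0) ≤ ε / 4 * a := by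
      have hr1' : (0 : ℝ) < (r1 : ℝ) + 1 := by positivity
      have h2 : ∀ n ∈ G, (if r1 < (N n).card then (1 : ℝ) else 0) ≤ ((N n).card.choose 1 : ℝ) / (r1 + 1) := by
        intro n _
        rw [Nat.choose_one_right]
        split_ifs with hc
        · rw [le_div_iff₀ hr1', one_mul]
          exact_mod_cast hc
        · positivity
      refine (Finset.sum_le_sum h2).trans ?_
      rw [← Finset.sum_div]
      have h3 : ∑ n ∈ G, ((N n).card.choose 1 : ℝ) ≤ (x0 + 1) * a := by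
        have h4 := hMb 1 (by omega)
        rw [hM] at h4
        refine h4.trans (mul_le_mul_of_nonneg_right ?_ ha0)
        rw [pow_one, Nat.factorial_one, Nat.cast_one, div_one]
        linarith
      rw [div_le_iff₀ hr1']
      refine h3.trans ?_
      rw [div_le_iff₀ hε] at hr1
      have h5 : x0 + 1 ≤ ε / 4 * (r1 + 1) := by linarith
      calc (x0 + 1) * a ≤ (ε / 4 * (r1 + 1)) * a := mul_le_mul_of_nonneg_right h5 ha0
        _ = _ := by ring
    have h6 : ∑ n ∈ G, ∑ r ∈ range (r1 + 1), ((r + (J + 1)).choose r : ℝ) * ((N n).card.choose (r + (J + 1)) : ℝ) ≤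
        (ε / 4 + e * Cst) * a := by
      rw [Finset.sum_comm]
      have h7 : ∀ r ∈ range (r1 + 1), ∑ n ∈ G, ((r + (J + 1)).choose r : ℝ) * ((N n).card.choose (r + (J + 1)) : ℝ) ≤
          (x0 ^ r / r.factorial * (x0 ^ (J + 1) / (J + 1).factorial) + e * ((r + (J + 1)).choose r : ℝ)) * a := by
        intro r hr
        rw [mem_range] at hr
        rw [← Finset.mul_sum]
        have h8 := hMb (r + (J + 1)) (by omega)
        rw [hM] at h8
        dsimp only at h8
        have h9 : ((r + (J + 1)).choose r : ℝ) * (x ^ (r + (J + 1)) / (r + (J + 1)).factorial) =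
            x ^ r / r.factorial * (x ^ (J + 1) / (J + 1).factorial) := by
          have hf := Nat.add_choose_mul_factorial_mul_factorial r (J + 1)
          rw [← Nat.choose_symm_add] at hf
          have hf' : ((r + (J + 1)).choose r : ℝ) * r.factorial * (J + 1).factorial = (r + (J + 1)).factorial := by
            exact_mod_cast hf
          rw [← hf', pow_add]
          have a1 : (r.factorial : ℝ) ≠ 0 := by exact_mod_cast Nat.factorial_ne_zero r
          have a2 : ((J + 1).factorial : ℝ) ≠ 0 := by exact_mod_cast Nat.factorial_ne_zero (J + 1)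
          have a3 : ((r + (J + 1)).choose r : ℝ) ≠ 0 := by
            exact_mod_cast (Nat.choose_pos (by omega)).ne'
          field_simp
        have h10 : x ^ r / r.factorial * (x ^ (J + 1) / (J + 1).factorial) ≤
            x0 ^ r / r.factorial * (x0 ^ (J + 1) / (J + 1).factorial) := by gcongr
        calc ((r + (J + 1)).choose r : ℝ) * ∑ n ∈ G, ((N n).card.choose (r + (J + 1)) : ℝ) ≤
            ((r + (J + 1)).choose r : ℝ) * ((x ^ (r + (J + 1)) / (r + (J + 1)).factorial + e) * a) :=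
              mul_le_mul_of_nonneg_left h8 (Nat.cast_nonneg _)
          _ = (((r + (J + 1)).choose r : ℝ) * (x ^ (r + (J + 1)) / (r + (J + 1)).factorial) +
              e * ((r + (J + 1)).choose r : ℝ)) * a := by ring
          _ ≤ _ := by
            apply mul_le_mul_of_nonneg_right _ ha0
            rw [h9]
            linarith
      refine (Finset.sum_le_sum h7).trans ?_
      rw [← Finset.sum_mul, Finset.sum_add_distrib, ← Finset.sum_mul, ← Finset.mul_sum]
      apply mul_le_mul_of_nonneg_right _ ha0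
      apply add_le_add
      · have h11 : ∑ r ∈ range (r1 + 1), x0 ^ r / (r.factorial : ℝ) ≤ Real.exp x0 := Real.sum_le_exp_of_nonneg hx0 _
        calc (∑ r ∈ range (r1 + 1), x0 ^ r / (r.factorial : ℝ)) * (x0 ^ (J + 1) / (J + 1).factorial) ≤
            Real.exp x0 * (x0 ^ (J + 1) / (J + 1).factorial) :=
              mul_le_mul_of_nonneg_right h11 (by positivity)
          _ ≤ ε / 4 := hJ (J + 1) (by omega)
      · apply mul_le_mul_of_nonneg_left _ he0.le
        rw [hCst]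
        apply Finset.sum_le_sum
        intro r _
        exact Finset.single_le_sum (f := fun i => ((r + i).choose r : ℝ)) (fun i _ => Nat.cast_nonneg _)
          (mem_range.2 (by omega : J + 1 < J + 2))
    linarith
  have hfin : |∑ n ∈ G, g (N n) * h n - ∑ n ∈ G, h n * A n| ≤ ∑ n ∈ G, E n := by
    rw [← Finset.sum_sub_distrib]
    refine (Finset.abs_sum_le_sum_abs _ _).trans (Finset.sum_le_sum ?_)
    intro n _
    have e3 : g (N n) * h n - h n * A n = (g (N n) - A n) * h n := by ring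
    rw [e3, abs_mul]
    calc |g (N n) - A n| * |h n| ≤ E n * 1 := by
          apply mul_le_mul (hAE n) (hh1 n) (abs_nonneg _)
          exact (abs_nonneg _).trans (hAE n)
      _ = E n := mul_one _
  have e4 : ∑ n ∈ G, g (NS Z T S y n) * la (n + (Z + u)) = ∑ n ∈ G, g (N n) * h n := by
    rw [hN, hh]
  rw [e4]
  have h12 : |∑ n ∈ G, g (N n) * h n| ≤ |∑ n ∈ G, g (N n) * h n - ∑ n ∈ G, h n * A n| + |∑ n ∈ G, h n * A n| := by
    have := abs_add_le (∑ n ∈ G, g (N n) * h n - ∑ n ∈ G, h n * A n) (∑ n ∈ G, h n * A n)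
    rwa [sub_add_cancel] at this
  have h13 : e * (Bd * Cst) * a ≤ ε / 4 * a := mul_le_mul_of_nonneg_right heε ha0
  have h14 : e * Cst * a ≤ ε / 4 * a := mul_le_mul_of_nonneg_right heε' ha0
  nlinarith

end Pool.Agent.H530.Hv
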