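import Pool.Agent.H530.HvF

/-! Gaps between consecutive sifted numbers with an odd number of prime factors. -/

set_option autoImplicit false

namespace Pool.Agent.H530.Hv

open Finset Filter Pool.Agent.W123.RP Pool.Agent.W123.RU Pool.Agent.TH464.PO Pool.Agent.H530.Ha
open Pool.Agent.H373R2.T7 hiding RQ

/-- sifted, with an odd number of prime factors -/
def Mem (y m : ℕ) : Prop := Rgh y m ∧ Odd (ArithmeticFunction.cardFactors m)

open Classical in
/-- the consecutive members `m`, `m + g` -/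
noncomputable def GC (y Z X g : ℕ) : Finset ℕ :=
  (Ioc Z (Z + X)).filter (fun m => Mem y m ∧ Mem y (m + g) ∧ ∀ j, 0 < j → j < g → ¬ Mem y (m + j))

lemma nu_empty (Z p : ℕ) (hp : p.Prime) : nuB (QH (Q1 Z) ∅) p = 0 := by
  have := nuS_le Z ∅ p hp
  rw [card_empty] at this
  omega

/-- three points -/
lemma adm_three (Z a b : ℕ) (ha2 : Even a) (hb2 : Even b) (h3 : 3 ∣ a ∨ 3 ∣ b ∨ 3 ∣ a + b) (p : ℕ) (hp : p.Prime) :
    nuB (QH (Q1 Z) {1 + a + b, 1 + a, 1}) p < p := by
  have hc : ({1 + a + b, 1 + a, 1} : Finset ℕ).card ≤ 3 := Finset.card_le_three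
  rcases Nat.lt_or_ge 3 p with h | h
  · exact lt_of_le_of_lt ((nuS_le Z _ p hp).trans hc) h
  · have hp2 := hp.two_le
    have e0 : ({1 + a + b, 1 + a, 1} : Finset ℕ) = insert (1 + a + b) (insert (1 + a) (insert 1 ∅)) := rfl
    rw [e0, nu_ins Z _ _ p hp, nu_ins Z _ _ p hp, nu_ins Z _ _ p hp, nu_empty Z p hp]
    obtain ⟨a', ha'⟩ := ha2
    obtain ⟨b', hb'⟩ := hb2
    interval_cases p
    · have c1 : ∃ s ∈ insert 1 (∅ : Finset ℕ), s ≡ 1 + a [MOD 2] := ⟨1, by simp, by unfold Nat.ModEq; omega⟩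
      have c2 : ∃ s ∈ insert (1 + a) (insert 1 (∅ : Finset ℕ)), s ≡ 1 + a + b [MOD 2] :=
        ⟨1, by simp, by unfold Nat.ModEq; omega⟩
      rw [if_pos c1, if_pos c2]
      split_ifs <;> norm_num
    · by_cases c1 : ∃ s ∈ insert 1 (∅ : Finset ℕ), s ≡ 1 + a [MOD 3]
      · rw [if_pos c1]
        split_ifs <;> norm_num
      · have c2 : ∃ s ∈ insert (1 + a) (insert 1 (∅ : Finset ℕ)), s ≡ 1 + a + b [MOD 3] := by
          have h1 : ¬ 3 ∣ a := by
            intro hd
            apply c1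
            exact ⟨1, by simp, by unfold Nat.ModEq; omega⟩
          rcases h3 with h3 | h3 | h3
          · exact absurd h3 h1
          · exact ⟨1 + a, by simp, by unfold Nat.ModEq; omega⟩
          · exact ⟨1, by simp, by unfold Nat.ModEq; omega⟩
        rw [if_neg c1, if_pos c2]
        split_ifs <;> norm_num

/-- **One of `a`, `b`, `a + b` is a gap.** -/
theorem gap3 (A : ℝ) (hA : 0 < A) : ∃ c : ℝ, 0 < c ∧ ∃ K : ℕ, 1 ≤ K ∧ ∀ B : ℕ, ∃ X0 y0 : ℕ, ∀ X y Z : ℕ,
    X0 ≤ X → y0 ≤ y → y ^ K ≤ X → (Z : ℝ) ≤ X * Real.log X ^ B →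
    ∀ a b : ℕ, 1 ≤ a → 1 ≤ b → ((a + b : ℕ) : ℝ) ≤ A * Real.log y → Even a → Even b →
      (3 ∣ a ∨ 3 ∣ b ∨ 3 ∣ a + b) →
      c * (X / Real.log y ^ 3) ≤ (GC y Z X a).card ∨ c * (X / Real.log y ^ 3) ≤ (GC y Z X b).card ∨
        c * (X / Real.log y ^ 3) ≤ (GC y Z X (a + b)).card := by
  classical
  obtain ⟨c0, hc0, K0, hK0, X00, y00, H0⟩ := exact_pat 3 (A + 1) (by linarith)
  obtain ⟨δ, hδ, Hb⟩ := bal 3 (by norm_num)
  obtain ⟨e, he, _, Hb⟩ := Hb 1 (by norm_num)
  obtain ⟨K1, hK1, H1⟩ := decor 3 (A + 1) (e * c0) (by linarith) (by positivity)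
  obtain ⟨c2, hc2, H2⟩ := all_Q 3 (by norm_num)
  obtain ⟨K2, hK2, H2⟩ := H2 1 (by norm_num)
  obtain ⟨c1, hc1, H3⟩ := prod_low2 3
  obtain ⟨c, hc⟩ : ∃ c : ℝ, c = c0 * c1 / 40 := ⟨_, rfl⟩
  have hcpos : 0 < c := by rw [hc]; positivity
  refine ⟨c, hcpos, K0 + K1 + K2, by omega, fun B => ?_⟩
  obtain ⟨X1, y1, H1⟩ := H1 B
  obtain ⟨X2, y2, H2⟩ := H2 0
  obtain ⟨X4, hX4⟩ := ev_log' 4 ((A + 1) / c)
  refine ⟨X00 + X1 + X2 + X4 + 3, y00 + y1 + y2 + 3, ?_⟩
  intro X y Z hX hy hyX hZ a b ha hb hab ha2 hb2 h3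
  have hyX0 : y ^ K0 ≤ X := (Nat.pow_le_pow_right (by omega) (by omega)).trans hyX
  have hyX1 : y ^ K1 ≤ X := (Nat.pow_le_pow_right (by omega) (by omega)).trans hyX
  have hyX2 : y ^ K2 ≤ X := (Nat.pow_le_pow_right (by omega) (by omega)).trans hyX
  have hyXX : y ≤ X := (Nat.le_self_pow (by omega) y).trans hyX1
  have hXr : (3 : ℝ) ≤ X := by exact_mod_cast (by omega : 3 ≤ X)
  have hyr : (3 : ℝ) ≤ y := by exact_mod_cast (by omega : 3 ≤ y)
  have hly : (1 : ℝ) ≤ Real.log y := by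
    rw [Real.le_log_iff_exp_le (by linarith)]
    linarith [Real.exp_one_lt_d9]
  have hlyX : Real.log y ≤ Real.log X := Real.log_le_log (by linarith) (by exact_mod_cast hyXX)
  obtain ⟨T, hT⟩ : ∃ T, T = 1 + a + b := ⟨_, rfl⟩
  have hTA : (T : ℝ) ≤ (A + 1) * Real.log y := by
    rw [hT]
    push_cast at hab ⊢
    linarith
  obtain ⟨S, hS⟩ : ∃ S : Finset ℕ, S = {1 + a + b, 1 + a, 1} := ⟨_, rfl⟩
  have hSc : S.card ≤ 3 := by rw [hS]; exact Finset.card_le_three
  have hST : S ⊆ Icc 1 T := by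
    rw [hS]
    intro t ht
    simp only [mem_insert, mem_singleton] at ht
    rw [mem_Icc]
    omega
  have hu1 : 1 ∈ S := by rw [hS]; simp
  have hu2 : 1 + a ∈ S := by rw [hS]; simp
  have hu3 : 1 + a + b ∈ S := by rw [hS]; simp
  have hadm : ∀ p : ℕ, p.Prime → nuB (QH (Q1 Z) S) p < p := by
    rw [hS]
    exact adm_three Z a b ha2 hb2 h3
  have hsv := sv_QS Z 3 S hSc hadm
  -- the number of triples
  obtain ⟨_, g2, _⟩ := H2 (QH (Q1 Z) S) hsv X y (by omega) (by omega) hyX2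
  have g3 := H3 (QH (Q1 Z) S) hsv y (by omega)
  rw [RQ_GS] at g2
  obtain ⟨N, hN⟩ : ∃ N : ℝ, N = ((GS y Z X S).card : ℝ) := ⟨_, rfl⟩
  rw [← hN] at g2
  have g4 : c1 * (X / Real.log y ^ 3) ≤ 2 * N := by
    have h1 := (abs_le.1 g2).1
    have h2 := mul_le_mul_of_nonneg_left g3 (by linarith : (0 : ℝ) ≤ X)
    have e1 : (X : ℝ) * (c1 / Real.log y ^ 3) = c1 * (X / Real.log y ^ 3) := by ring
    rw [e1] at h2
    linarith
  -- exact patterns
  have g5 := H0 X y Z T S (by omega) (by omega) hyX0 hTA hST hSc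
  rw [← hN] at g5
  obtain ⟨F, hF⟩ : ∃ F, F = (GS y Z X S).filter (fun n => Cfg y Z T n = S) := ⟨_, rfl⟩
  rw [← hF] at g5
  have g6 : ∀ u ∈ S, |∑ n ∈ F, la (n + Z + u)| ≤ e * F.card := by
    intro u hu
    have h1 := H1 X y Z T S (by omega) (by omega) hyX1 hTA hST hSc hZ (fun P => if P = S then 1 else 0) (by
      intro P
      split_ifs <;> simp) u hu
    have e2 : ∑ n ∈ GS y Z X S, (if Cfg y Z T n = S then (1 : ℝ) else 0) * la (n + Z + u) = ∑ n ∈ F, la (n + Z + u) := by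
      rw [hF, Finset.sum_filter]
      apply Finset.sum_congr rfl
      intro n _
      split_ifs
      · rw [one_mul]
      · rw [zero_mul]
    rw [e2, ← hN] at h1
    refine h1.trans ?_
    calc e * c0 * N = e * (c0 * N) := by ring
      _ ≤ e * F.card := mul_le_mul_of_nonneg_left g5 he.le
  obtain ⟨us, hus⟩ : ∃ us : Fin 3 → ℕ, us = ![1, 1 + a, 1 + a + b] := ⟨_, rfl⟩
  have husS : ∀ j, us j ∈ S := by
    intro j
    rw [hus]
    fin_cases j
    · exact hu1
    · exact hu2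
    · exact hu3
  obtain ⟨_, _, g7, _⟩ := Hb F (fun j n => n + Z + us j) (by
    intro j n _
    have := mem_Icc.1 (hST (husS j))
    omega) (fun j => g6 (us j) (husS j))
  obtain ⟨F1, hF1⟩ : ∃ F1, F1 = F.filter (fun n => 3 ≤ 2 * (univ.filter (fun j : Fin 3 =>
    Odd (ArithmeticFunction.cardFactors (n + Z + us j)))).card) := ⟨_, rfl⟩
  rw [← hF1] at g7
  have hFprop : ∀ n ∈ F, n ∈ Icc 1 X ∧ (∀ t ∈ Icc 1 T, Rgh y (n + Z + t) ↔ t ∈ S) := by
    intro n hn
    rw [hF, mem_filter] at hn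
    refine ⟨?_, ?_⟩
    · have := hn.1
      unfold GS at this
      rw [mem_filter] at this
      exact this.1
    · intro t ht
      rw [← hn.2]
      unfold Cfg
      rw [mem_filter]
      exact ⟨fun h => ⟨ht, h⟩, fun h => h.2⟩
  -- the three events
  obtain ⟨O, hO⟩ : ∃ O : ℕ → ℕ → Prop, O = fun n u => Odd (ArithmeticFunction.cardFactors (n + Z + u)) := ⟨_, rfl⟩
  obtain ⟨E1, hE1⟩ : ∃ E1, E1 = F.filter (fun n => n + T ≤ X ∧ O n 1 ∧ O n (1 + a)) := ⟨_, rfl⟩
  obtain ⟨E2, hE2⟩ : ∃ E2, E2 = F.filter (fun n => n + T ≤ X ∧ O n (1 + a) ∧ O n (1 + a + b)) := ⟨_, rfl⟩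
  obtain ⟨E3, hE3⟩ : ∃ E3, E3 = F.filter (fun n => n + T ≤ X ∧ O n 1 ∧ ¬ O n (1 + a) ∧ O n (1 + a + b)) := ⟨_, rfl⟩
  have hcov : F1 ⊆ (E1 ∪ E2 ∪ E3) ∪ Ioc (X - T) X := by
    intro n hn
    rw [hF1, mem_filter] at hn
    obtain ⟨hn1, hn2⟩ := hn
    have hnX := mem_Icc.1 (hFprop n hn1).1
    rw [mem_union]
    by_cases hXT : n + T ≤ X
    swap
    · right
      rw [mem_Ioc]
      omega
    left
    have hcnt : (univ.filter (fun j : Fin 3 => Odd (ArithmeticFunction.cardFactors (n + Z + us j)))).card =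
        (if O n 1 then 1 else 0) + (if O n (1 + a) then 1 else 0) + (if O n (1 + a + b) then 1 else 0) := by
      have b0 : us 0 = 1 := by rw [hus]; rfl
      have b1 : us 1 = 1 + a := by rw [hus]; rfl
      have b2 : us 2 = 1 + a + b := by rw [hus]; rfl
      have hO' : ∀ u, O n u ↔ Odd (ArithmeticFunction.cardFactors (n + Z + u)) := fun u => by rw [hO]
      rw [Finset.card_filter, Fin.sum_univ_three, b0, b1, b2]
      simp only [hO']
    rw [hcnt] at hn2
    rw [hE1, hE2, hE3, mem_union, mem_union, mem_filter, mem_filter, mem_filter]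
    by_cases p1 : O n 1 <;> by_cases p2 : O n (1 + a) <;> by_cases p3 : O n (1 + a + b) <;>
      simp only [p1, p2, p3, if_true, if_false] at hn2 ⊢ <;> first | (exfalso; omega) | (simp [hn1, hXT])
  have hmem : ∀ n ∈ F, ∀ u ∈ S, O n u → Mem y (n + Z + u) := by
    intro n hn u hu hO'
    rw [hO] at hO'
    exact ⟨((hFprop n hn).2 u (hST hu)).2 hu, hO'⟩
  have hnot : ∀ n ∈ F, ∀ t ∈ Icc 1 T, t ∉ S → ¬ Mem y (n + Z + t) := by
    intro n hn t ht htS hm
    exact htS (((hFprop n hn).2 t ht).1 hm.1)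
  have q1 : E1.card ≤ (GC y Z X a).card := by
    apply card_le_card_of_injOn (fun n => n + Z + 1)
    · intro n hn
      rw [hE1, Finset.mem_coe, mem_filter] at hn
      obtain ⟨hn, hnT, o1, o2⟩ := hn
      have hnX := mem_Icc.1 (hFprop n hn).1
      unfold GC
      rw [Finset.mem_coe, mem_filter, mem_Ioc]
      beta_reduce
      refine ⟨by omega, hmem n hn 1 hu1 o1, ?_, ?_⟩
      · have := hmem n hn (1 + a) hu2 o2
        have e3 : n + Z + 1 + a = n + Z + (1 + a) := by ring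
        rw [e3]
        exact this
      · intro j hj1 hj2
        have e3 : n + Z + 1 + j = n + Z + (1 + j) := by ring
        rw [e3]
        apply hnot n hn (1 + j) (by rw [mem_Icc]; omega)
        rw [hS]
        simp only [mem_insert, mem_singleton]
        omega
    · intro n _ m _ h
      simpa using h
  have q2 : E2.card ≤ (GC y Z X b).card := by
    apply card_le_card_of_injOn (fun n => n + Z + (1 + a))
    · intro n hn
      rw [hE2, Finset.mem_coe, mem_filter] at hn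
      obtain ⟨hn, hnT, o1, o2⟩ := hn
      have hnX := mem_Icc.1 (hFprop n hn).1
      unfold GC
      rw [Finset.mem_coe, mem_filter, mem_Ioc]
      beta_reduce
      refine ⟨by omega, hmem n hn (1 + a) hu2 o1, ?_, ?_⟩
      · have := hmem n hn (1 + a + b) hu3 o2
        have e3 : n + Z + (1 + a) + b = n + Z + (1 + a + b) := by ring
        rw [e3]
        exact this
      · intro j hj1 hj2
        have e3 : n + Z + (1 + a) + j = n + Z + (1 + a + j) := by ring
        rw [e3]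
        apply hnot n hn (1 + a + j) (by rw [mem_Icc]; omega)
        rw [hS]
        simp only [mem_insert, mem_singleton]
        omega
    · intro n _ m _ h
      simpa using h
  have q3 : E3.card ≤ (GC y Z X (a + b)).card := by
    apply card_le_card_of_injOn (fun n => n + Z + 1)
    · intro n hn
      rw [hE3, Finset.mem_coe, mem_filter] at hn
      obtain ⟨hn, hnT, o1, o2, o3⟩ := hn
      have hnX := mem_Icc.1 (hFprop n hn).1
      unfold GC
      rw [Finset.mem_coe, mem_filter, mem_Ioc]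
      beta_reduce
      refine ⟨by omega, hmem n hn 1 hu1 o1, ?_, ?_⟩
      · have := hmem n hn (1 + a + b) hu3 o3
        have e3 : n + Z + 1 + (a + b) = n + Z + (1 + a + b) := by ring
        rw [e3]
        exact this
      · intro j hj1 hj2
        have e3 : n + Z + 1 + j = n + Z + (1 + j) := by ring
        rw [e3]
        by_cases hja : j = a
        · intro hm
          apply o2
          rw [hO]
          rw [hja] at hm
          exact hm.2
        · apply hnot n hn (1 + j) (by rw [mem_Icc]; omega)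
          rw [hS]
          simp only [mem_insert, mem_singleton]
          omega
    · intro n _ m _ h
      simpa using h
  -- the count
  have hTX : (T : ℝ) ≤ c * (X / Real.log y ^ 3) := by
    have h1 := hX4 X (by omega)
    have h2 : √(X : ℝ) ≤ X := by
      rw [Real.sqrt_le_left (by linarith)]
      nlinarith
    have h3 : (A + 1) * Real.log X ^ 4 ≤ c * X := by
      have h4 : (A + 1) / c * Real.log X ^ 4 ≤ X := h1.trans h2
      rw [div_mul_eq_mul_div, div_le_iff₀ hcpos] at h4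
      linarith
    rw [← mul_div_assoc, le_div_iff₀ (by positivity)]
    calc (T : ℝ) * Real.log y ^ 3 ≤ ((A + 1) * Real.log y) * Real.log y ^ 3 := by gcongr
      _ = (A + 1) * Real.log y ^ 4 := by ring
      _ ≤ (A + 1) * Real.log X ^ 4 := by gcongr
      _ ≤ _ := h3
  by_contra hcon
  push Not at hcon
  obtain ⟨t1, t2, t3⟩ := hcon
  have hcard := (card_le_card hcov).trans (card_union_le _ _)
  have hcard2 := (card_union_le (E1 ∪ E2) E3).trans (Nat.add_le_add_right (card_union_le E1 E2) _)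
  have hIoc : (Ioc (X - T) X).card ≤ T := by
    rw [Nat.card_Ioc]
    omega
  have hF1card : (F1.card : ℝ) ≤ (GC y Z X a).card + (GC y Z X b).card + (GC y Z X (a + b)).card + T := by
    exact_mod_cast (by omega : F1.card ≤ (GC y Z X a).card + (GC y Z X b).card + (GC y Z X (a + b)).card + T)
  obtain ⟨Q, hQ⟩ : ∃ Q : ℝ, Q = X / Real.log y ^ 3 := ⟨_, rfl⟩
  rw [← hQ] at t1 t2 t3 hTX g4
  have hQ0 : 0 < Q := by rw [hQ]; positivity
  have hN1 : c1 * Q / 2 ≤ N := by linarith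
  have hN2 : c0 * (c1 * Q / 2) ≤ F.card := (mul_le_mul_of_nonneg_left hN1 hc0.le).trans g5
  have hN3 : (F.card : ℝ) ≤ 5 * F1.card := by
    refine g7.trans (le_of_eq ?_)
    norm_num
  have hcQ : c0 * (c1 * Q / 2) = 20 * (c * Q) := by
    rw [hc]
    ring
  have : 0 < c * Q := by positivity
  linarith

end Pool.Agent.H530.Hv
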