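import Pool.Agent.H530.HuF

/-! The Liouville function at ANY linear form on a sifted set: conditions modulo several primes. -/

set_option autoImplicit false

namespace Pool.Agent.H530.Ha

open Finset Pool.Agent.H373R2.T7

open Classical in
/-- a condition modulo `p` with few classes outside of the zero of the form -/
structure Cf (a : ℕ) (b : ℤ) (κ : ℕ) (Q : ℕ → ℕ → Prop) (p : ℕ) : Prop where
  pr : p.Prime
  nb : p ∣ a → ¬ (p : ℤ) ∣ b
  per : ∀ n, Q p n ↔ Q p (n % p)
  few : ((range p).filter (fun r => Q p r ∧ ¬ (p : ℤ) ∣ a * r + b)).card ≤ κ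

open Classical in
theorem ind3 (a X κ : ℕ) (b : ℤ) (ha : 1 ≤ a) (Q : ℕ → ℕ → Prop) (S : Finset ℕ) :
    (∀ p ∈ S, Cf a b κ Q p) → ∀ g q : ℕ, ∀ c : ℤ, 1 ≤ g → 1 ≤ q → (∀ p ∈ S, ¬ p ∣ g ∧ ¬ p ∣ q) →
    IsCoprime (g : ℤ) ((a * q : ℕ) : ℤ) → IsCoprime (a * c + b) ((a * q : ℕ) : ℤ) →
    |∑ n ∈ (Icc 1 X).filter (fun n : ℕ => (n : ℤ) ≡ c [ZMOD q] ∧ (g : ℤ) ∣ a * n + b ∧ ∀ p ∈ S, Q p n), lz (a * n + b)| ≤
      ∑ U ∈ S.powerset, (κ : ℝ) ^ (S \ U).card *
        B2 (hh (a * X + b)) (hh b) (a * (q * ∏ p ∈ S \ U, p)) (g * ∏ p ∈ U, p) := by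
  induction S using Finset.induction_on with
  | empty =>
    intro _ g q c hg hq _ h1 h2
    have h3 := lin a X q g b c ha hq hg h1 h2
    simpa [B2] using h3
  | insert p S hp ih =>
    intro hS g q c hg hq hgq h1 h2
    have hP := hS p (mem_insert_self p S)
    have hS' : ∀ p' ∈ S, Cf a b κ Q p' := fun p' hp' => hS p' (mem_insert_of_mem hp')
    have hpg := hgq p (mem_insert_self p S)
    have hne : ∀ p' ∈ S, ¬ p' ∣ p := by
      intro p' hp' hd
      have := (Nat.prime_dvd_prime_iff_eq (hS' p' hp').pr hP.pr).1 hd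
      rw [this] at hp'
      exact hp hp'
    have hpp := hP.pr.pos
    have hpi : Prime (p : ℤ) := Nat.prime_iff_prime_int.1 hP.pr
    rw [Finset.sum_powerset_insert hp]
    -- split
    set F := (Icc 1 X).filter (fun n : ℕ => (n : ℤ) ≡ c [ZMOD q] ∧ (g : ℤ) ∣ a * n + b ∧ ∀ p' ∈ insert p S, Q p' n) with hF
    have hsplit := sum_filter_add_sum_filter_not F (fun n : ℕ => (p : ℤ) ∣ a * n + b) (fun n : ℕ => lz (a * n + b))
    rw [← hsplit]
    have hgp : IsCoprime (g : ℤ) (p : ℤ) := by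
      rw [Nat.isCoprime_iff_coprime]
      exact ((Nat.Prime.coprime_iff_not_dvd hP.pr).2 hpg.1).symm
    have hqp : IsCoprime (q : ℤ) (p : ℤ) := by
      rw [Nat.isCoprime_iff_coprime]
      exact ((Nat.Prime.coprime_iff_not_dvd hP.pr).2 hpg.2).symm
    -- the first part
    have g1 : |∑ n ∈ F.filter (fun n : ℕ => (p : ℤ) ∣ a * n + b), lz (a * n + b)| ≤
        ∑ U ∈ S.powerset, (κ : ℝ) ^ (S \ U).card *
          B2 (hh (a * X + b)) (hh b) (a * (q * ∏ p ∈ S \ U, p)) (g * p * ∏ p ∈ U, p) := by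
      by_cases hpa : p ∣ a
      · have hF0 : F.filter (fun n : ℕ => (p : ℤ) ∣ a * n + b) = ∅ := by
          rw [filter_eq_empty_iff]
          intro n _ hd
          apply hP.nb hpa
          have h3 : (p : ℤ) ∣ a * n := (Int.natCast_dvd_natCast.2 hpa).mul_right _
          exact (dvd_add_right h3).1 hd
        rw [hF0, sum_empty, abs_zero]
        exact sum_nonneg fun U _ => mul_nonneg (pow_nonneg (Nat.cast_nonneg _) _) (B2_nonneg _ _ _ _)
      by_cases hhit : ∀ n : ℕ, (p : ℤ) ∣ a * n + b → Q p n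
      swap
      · push Not at hhit
        obtain ⟨n0, hn0, hQ0⟩ := hhit
        have hF0 : F.filter (fun n : ℕ => (p : ℤ) ∣ a * n + b) = ∅ := by
          rw [filter_eq_empty_iff]
          intro n hn hd
          rw [hF, mem_filter] at hn
          have hqn := hn.2.2.2 p (mem_insert_self p S)
          apply hQ0
          have h3 : (p : ℤ) ∣ a * ((n : ℤ) - n0) := by
            have h4 := dvd_sub hd hn0
            have e5 : (a : ℤ) * n + b - (a * n0 + b) = a * ((n : ℤ) - n0) := by ring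
            rwa [e5] at h4
          have h5 : (p : ℤ) ∣ (n : ℤ) - n0 := by
            rcases hpi.dvd_or_dvd h3 with h6 | h6
            · exact absurd (Int.natCast_dvd_natCast.1 h6) hpa
            · exact h6
          have h6 : n0 ≡ n [MOD p] := by
            rw [← Int.natCast_modEq_iff, Int.modEq_iff_dvd]
            exact h5
          rw [hP.per]
          unfold Nat.ModEq at h6
          rw [h6, ← hP.per]
          exact hqn
        rw [hF0, sum_empty, abs_zero]
        exact sum_nonneg fun U _ => mul_nonneg (pow_nonneg (Nat.cast_nonneg _) _) (B2_nonneg _ _ _ _)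
      have f1 : F.filter (fun n : ℕ => (p : ℤ) ∣ a * n + b) =
          (Icc 1 X).filter (fun n : ℕ => (n : ℤ) ≡ c [ZMOD q] ∧ ((g * p : ℕ) : ℤ) ∣ a * n + b ∧ ∀ p' ∈ S, Q p' n) := by
        ext n
        rw [mem_filter, hF, mem_filter, mem_filter]
        constructor
        · rintro ⟨⟨h3, h4, h5, h6⟩, h7⟩
          refine ⟨h3, h4, ?_, fun p' hp' => h6 p' (mem_insert_of_mem hp')⟩
          push_cast
          exact hgp.mul_dvd h5 h7
        · rintro ⟨h3, h4, h5, h6⟩
          push_cast at h5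
          have h7 : (p : ℤ) ∣ a * n + b := (dvd_mul_left _ _).trans h5
          refine ⟨⟨h3, h4, (dvd_mul_right _ _).trans h5, fun p' hp' => ?_⟩, h7⟩
          rcases mem_insert.1 hp' with h | h
          · rw [h]
            exact hhit n h7
          · exact h6 p' h
      have hpaq : ¬ p ∣ a * q := by
        rw [hP.pr.dvd_mul]
        rintro (h | h)
        · exact hpa h
        · exact hpg.2 h
      rw [f1]
      apply ih hS' (g * p) q c (Nat.mul_pos hg hpp) hq
      · intro p' hp'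
        have h3 := hgq p' (mem_insert_of_mem hp')
        refine ⟨?_, h3.2⟩
        rw [(hS' p' hp').pr.dvd_mul]
        rintro (h | h)
        · exact h3.1 h
        · exact hne p' hp' h
      · have h3 : IsCoprime (p : ℤ) ((a * q : ℕ) : ℤ) := by
          rw [Nat.isCoprime_iff_coprime]
          exact (Nat.Prime.coprime_iff_not_dvd hP.pr).2 hpaq
        rw [Nat.cast_mul g p]
        exact h1.mul_left h3
      · exact h2
    -- the second part
    set R := (range p).filter (fun r => Q p r ∧ ¬ (p : ℤ) ∣ a * r + b) with hR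
    have f2 : ∑ n ∈ F.filter (fun n : ℕ => ¬ (p : ℤ) ∣ a * n + b), lz (a * n + b) =
        ∑ r ∈ R, ∑ n ∈ (F.filter (fun n : ℕ => ¬ (p : ℤ) ∣ a * n + b)).filter (fun n => n % p = r), lz (a * n + b) := by
      refine (sum_fiberwise_of_maps_to (fun n hn => ?_) _).symm
      rw [mem_filter, hF, mem_filter] at hn
      obtain ⟨⟨h3, h4, h5, h6⟩, h7⟩ := hn
      rw [hR, mem_filter, mem_range]
      refine ⟨Nat.mod_lt _ hpp, (hP.per n).1 (h6 p (mem_insert_self p S)), ?_⟩
      intro h8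
      apply h7
      refine (form_dvd a b ?_).1 h8
      push_cast
      exact Int.mod_modEq _ _
    have g2 : |∑ n ∈ F.filter (fun n : ℕ => ¬ (p : ℤ) ∣ a * n + b), lz (a * n + b)| ≤
        κ * ∑ U ∈ S.powerset, (κ : ℝ) ^ (S \ U).card *
          B2 (hh (a * X + b)) (hh b) (a * (q * p * ∏ p ∈ S \ U, p)) (g * ∏ p ∈ U, p) := by
      rw [f2]
      refine (abs_sum_le_sum_abs _ _).trans ?_
      have h3 : ∀ r ∈ R, |∑ n ∈ (F.filter (fun n : ℕ => ¬ (p : ℤ) ∣ a * n + b)).filter (fun n => n % p = r),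
          lz (a * n + b)| ≤
          ∑ U ∈ S.powerset, (κ : ℝ) ^ (S \ U).card *
            B2 (hh (a * X + b)) (hh b) (a * (q * p * ∏ p ∈ S \ U, p)) (g * ∏ p ∈ U, p) := by
        intro r hr
        rw [hR, mem_filter, mem_range] at hr
        -- the class modulo q p
        obtain ⟨c', hc1, hc2⟩ : ∃ c' : ℤ, c' ≡ c [ZMOD q] ∧ c' ≡ r [ZMOD p] := by
          obtain ⟨x, y, hxy⟩ := hqp
          refine ⟨c + x * q * (r - c), ?_, ?_⟩
          · exact (Int.modEq_iff_dvd.2 ⟨-(x * (r - c)), by ring⟩)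
          · refine (Int.modEq_iff_dvd.2 ⟨y * (r - c), ?_⟩)
            linear_combination (-(r - c : ℤ)) * hxy
        have f3 : (F.filter (fun n : ℕ => ¬ (p : ℤ) ∣ a * n + b)).filter (fun n => n % p = r) =
            (Icc 1 X).filter (fun n : ℕ => (n : ℤ) ≡ c' [ZMOD ((q * p : ℕ) : ℤ)] ∧ (g : ℤ) ∣ a * n + b ∧ ∀ p' ∈ S, Q p' n) := by
          ext n
          rw [mem_filter, mem_filter, hF, mem_filter, mem_filter]
          constructor
          · rintro ⟨⟨⟨h4, h5, h6, h7⟩, h8⟩, h9⟩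
            refine ⟨h4, ?_, h6, fun p' hp' => h7 p' (mem_insert_of_mem hp')⟩
            have h10 : (n : ℤ) ≡ r [ZMOD p] := by
              rw [← h9]
              push_cast
              exact (Int.mod_modEq _ _).symm
            have a1 : (q : ℤ) ∣ c' - n := (h5.trans hc1.symm).dvd
            have a2 : (p : ℤ) ∣ c' - n := (h10.trans hc2.symm).dvd
            rw [Int.modEq_iff_dvd, Nat.cast_mul]
            exact hqp.mul_dvd a1 a2
          · rintro ⟨h4, h5, h6, h7⟩
            rw [Int.modEq_iff_dvd, Nat.cast_mul] at h5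
            have a1 : (n : ℤ) ≡ c' [ZMOD q] := Int.modEq_iff_dvd.2 ((dvd_mul_right _ _).trans h5)
            have a2 : (n : ℤ) ≡ c' [ZMOD p] := Int.modEq_iff_dvd.2 ((dvd_mul_left _ _).trans h5)
            have h8 : (n : ℤ) ≡ (r : ℕ) [ZMOD p] := a2.trans hc2
            have h9 : n % p = r := by
              have h10 := (Int.natCast_modEq_iff.1 h8)
              unfold Nat.ModEq at h10
              rw [h10]
              exact Nat.mod_eq_of_lt hr.1
            refine ⟨⟨⟨h4, a1.trans hc1, h6, fun p' hp' => ?_⟩, ?_⟩, h9⟩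
            · rcases mem_insert.1 hp' with h | h
              · rw [h, hP.per, h9]
                exact hr.2.1
              · exact h7 p' h
            · intro h10
              exact hr.2.2 ((form_dvd a b h8).1 h10)
        rw [f3]
        apply ih hS' g (q * p) c' hg (Nat.mul_pos hq hpp)
        · intro p' hp'
          have h3 := hgq p' (mem_insert_of_mem hp')
          refine ⟨h3.1, ?_⟩
          rw [(hS' p' hp').pr.dvd_mul]
          rintro (h | h)
          · exact h3.2 h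
          · exact hne p' hp' h
        · rw [← mul_assoc, Nat.cast_mul (a * q) p]
          exact h1.mul_right hgp
        · rw [← mul_assoc, Nat.cast_mul (a * q) p]
          apply IsCoprime.mul_right
          · -- a c' + b ≡ a c + b mod a q
            obtain ⟨t, ht⟩ := hc1.symm.dvd
            obtain ⟨x, y, hxy⟩ := h2
            refine ⟨x, y - x * t, ?_⟩
            have : c' = c + q * t := by linarith
            rw [this]
            push_cast at hxy ⊢
            linear_combination hxy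
          · have h4 : ¬ (p : ℤ) ∣ a * c' + b := fun h5 => hr.2.2 ((form_dvd a b hc2).1 h5)
            exact ((Prime.coprime_iff_not_dvd hpi).2 h4).symm
      calc ∑ r ∈ R, |∑ n ∈ (F.filter (fun n : ℕ => ¬ (p : ℤ) ∣ a * n + b)).filter (fun n => n % p = r), lz (a * n + b)| ≤
          ∑ r ∈ R, ∑ U ∈ S.powerset, (κ : ℝ) ^ (S \ U).card *
            B2 (hh (a * X + b)) (hh b) (a * (q * p * ∏ p ∈ S \ U, p)) (g * ∏ p ∈ U, p) :=
            sum_le_sum h3
        _ = (R.card : ℝ) * ∑ U ∈ S.powerset, (κ : ℝ) ^ (S \ U).card *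
              B2 (hh (a * X + b)) (hh b) (a * (q * p * ∏ p ∈ S \ U, p)) (g * ∏ p ∈ U, p) := by
            rw [sum_const, nsmul_eq_mul]
        _ ≤ _ := by
            apply mul_le_mul_of_nonneg_right (by exact_mod_cast hP.few)
            exact sum_nonneg fun U _ => mul_nonneg (pow_nonneg (Nat.cast_nonneg _) _) (B2_nonneg _ _ _ _)
    refine (abs_add_le _ _).trans ?_
    rw [add_comm (∑ t ∈ S.powerset, _)]
    apply add_le_add
    · refine g1.trans (le_of_eq ?_)
      apply sum_congr rfl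
      intro U hU
      have hpU : p ∉ U := fun h => hp (mem_powerset.1 hU h)
      rw [prod_insert hpU, mul_assoc]
      have e1 : insert p S \ insert p U = S \ U := by
        ext x
        simp only [mem_sdiff, mem_insert, not_or]
        constructor
        · rintro ⟨h | h, h3, h4⟩
          · exact absurd h h3
          · exact ⟨h, h4⟩
        · rintro ⟨h, h3⟩
          refine ⟨Or.inr h, ?_, h3⟩
          rintro rfl
          exact hp h
      rw [e1]
    · refine g2.trans (le_of_eq ?_)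
      rw [mul_sum]
      apply sum_congr rfl
      intro U hU
      have hpU : p ∉ U := fun h => hp (mem_powerset.1 hU h)
      have e1 : insert p S \ U = insert p (S \ U) := by
        ext x
        simp only [mem_sdiff, mem_insert]
        constructor
        · rintro ⟨h | h, h3⟩
          · exact Or.inl h
          · exact Or.inr ⟨h, h3⟩
        · rintro (h | ⟨h, h3⟩)
          · rw [h]
            exact ⟨Or.inl rfl, hpU⟩
          · exact ⟨Or.inr h, h3⟩
      have e2 : p ∉ S \ U := fun h => hp (mem_sdiff.1 h).1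
      rw [e1, card_insert_of_notMem e2, prod_insert e2, pow_succ]
      rw [mul_assoc q p]
      ring



open Classical in
theorem cls3 {k : ℕ} {Q : ℕ → ℕ → Prop} {a : ℕ} {b : ℤ} (ha : 1 ≤ a) (hnb : ∀ p : ℕ, p.Prime → p ∣ a → ¬ (p : ℤ) ∣ b)
    {C0 z0 bb y X D q c : ℕ} (hper : ∀ p n, Q p n ↔ Q p (n % p)) (hle : ∀ p ∈ (pz y).filter (fun p => z0 < p), nuB Q p ≤ k)
    (hndq : ∀ p ∈ (pz y).filter (fun p => z0 < p), ¬ p ∣ q) (hcop : IsCoprime ((a : ℤ) * (c : ℤ) + b) ((a * q : ℕ) : ℤ))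
    (hC0 : 1 ≤ C0) (hFL : ∀ (b J z0 : ℕ) (P : Finset ℕ) (g : ℕ → ℝ),
      C0 ≤ b → C0 ≤ z0 → (∀ p ∈ P, p.Prime ∧ z0 < p ∧ p ≤ 2 ^ 2 ^ J) →
      (∀ p ∈ P, 0 ≤ g p ∧ g p ≤ k / ((p : ℝ) - 1)) →
      ∀ (Ω : Finset ℕ) (w : ℕ → ℝ) (hit : ℕ → ℕ → Prop) (A : ℝ) (err : Finset ℕ → ℝ),
        (∀ m ∈ Ω, 0 ≤ w m) → 0 ≤ A →
        (∀ T ⊆ P, ∏ p ∈ T, p ≤ (2 ^ 2 ^ J) ^ (C0 * b) →
          |∑ m ∈ Ω.filter (fun m => ∀ p ∈ T, hit p m), w m - A * ∏ p ∈ T, g p| ≤ err T) →
        |∑ m ∈ Ω.filter (fun m => ∀ p ∈ P, ¬ hit p m), w m - A * ∏ p ∈ P, (1 - g p)| ≤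
          (1 / 2 : ℝ) ^ b * (A * ∏ p ∈ P, (1 - g p)) +
            ((J : ℝ) + 2) *
              ∑ T ∈ P.powerset.filter (fun T : Finset ℕ => ∏ p ∈ T, p ≤ (2 ^ 2 ^ J) ^ (C0 * b)), err T)
    (hb : C0 ≤ bb) (hz : C0 ≤ z0) (hq1 : 1 ≤ q)
    (hD : D = (2 ^ 2 ^ JJ y) ^ (C0 * bb)) :
    |∑ n ∈ ((Icc 1 X).filter (fun n => n ≡ c [MOD q])).filter (fun n => ∀ p ∈ (pz y).filter (fun p => z0 < p), ¬ Q p n),
      lz (a * n + b)| ≤ 2 * (1 / 2 : ℝ) ^ bb *
        ((((Icc 1 X).filter (fun n => n ≡ c [MOD q])).filter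
          (fun n => ∀ p ∈ (pz y).filter (fun p => z0 < p), ¬ Q p n)).card : ℝ) +
        4 * (((JJ y : ℕ) : ℝ) + 2) * TE2 a (hh (a * X + b)) (hh b) k q D ((pz y).filter (fun p => z0 < p)) := by
  set P := (pz y).filter (fun p => z0 < p) with hP
  set J := JJ y with hJ
  have hPp : ∀ p ∈ P, p.Prime ∧ z0 < p ∧ p ≤ 2 ^ 2 ^ J := by
    intro p hp
    rw [hP, mem_filter] at hp
    exact ⟨(mem_pz.1 hp.1).2, hp.2, ((mem_pz.1 hp.1).1.trans (JJ_lt y).le)⟩
  have hq0 : (0 : ℝ) < q := by exact_mod_cast hq1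
  have hcnd : ∀ p ∈ P, Cf a b k Q p := by
    intro p hp
    have h1 := hPp p hp
    refine ⟨h1.1, fun h => hnb p h1.1 h, fun n => hper p n, ?_⟩
    refine le_trans ?_ (hle p hp)
    unfold nuB
    apply card_le_card
    intro r hr
    rw [mem_filter] at hr ⊢
    exact ⟨hr.1, hr.2.1⟩
  set Ω := (Icc 1 X).filter (fun n => n ≡ c [MOD q]) with hΩ
  set F := Ω.filter (fun n => ∀ p ∈ P, ¬ Q p n) with hF
  set Λ := ∑ n ∈ F, lz (a * n + b) with hΛ
  set M : ℝ := (X : ℝ) / (2 * q) * ∏ p ∈ P, (1 - (nuB Q p : ℝ) / p) with hM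
  set TT := ((J : ℝ) + 2) * TE2 a (hh (a * X + b)) (hh b) k q D P with hTT
  have hTE0 := TE2_nonneg a (hh (a * X + b)) (hh b) k q D P
  have hTT0 : 0 ≤ TT := by positivity
  -- both signs
  have key : ∀ σ : ℝ, |σ| = 1 → |((F.card : ℝ) + σ * Λ) / 2 - M| ≤ (1 / 2 : ℝ) ^ bb * M + TT := by
    intro σ hσ
    have h := hFL bb J z0 P (fun p => (nuB Q p : ℝ) / p) hb hz hPp (fun p hp => by
        have hp0 : (0 : ℝ) < p := by exact_mod_cast (hPp p hp).1.pos
        have hp1 : (1 : ℝ) < p := by exact_mod_cast (hPp p hp).1.one_lt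
        refine ⟨by positivity, ?_⟩
        apply div_le_div₀ (Nat.cast_nonneg _) (by exact_mod_cast hle p hp) (by linarith) (by linarith))
      Ω (fun n => (1 + σ * lz (a * n + b)) / 2) (fun p n => Q p n) ((X : ℝ) / (2 * q))
      (fun T => (D : ℝ) + ∑ U ∈ T.powerset, (k : ℝ) ^ (T \ U).card *
        B2 (hh (a * X + b)) (hh b) (a * (q * ∏ p ∈ T \ U, p)) (1 * ∏ p ∈ U, p))
      (fun n _ => by
        have h1 : |σ * lz (a * n + b)| ≤ 1 := by
          rw [abs_mul, hσ, one_mul]
          exact lz_abs _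
        have := (abs_le.1 h1).1
        linarith) (by positivity) (by
        intro T hT hTD
        rw [← hD] at hTD
        have hTp : ∀ p ∈ T, p.Prime := fun p hp => (hPp p (hT hp)).1
        have h1 := ind3 a X k b ha Q T (fun p hp => hcnd p (hT hp)) 1 q c le_rfl hq1
          (fun p hp => ⟨(hTp p hp).one_lt.ne' ∘ Nat.dvd_one.1, hndq p (hT hp)⟩) (by
            rw [Nat.cast_one]
            exact isCoprime_one_left) hcop
        have e1 : Ω.filter (fun n => ∀ p ∈ T, Q p n) =
            (Icc 1 X).filter (fun n : ℕ => (n : ℤ) ≡ (c : ℤ) [ZMOD q] ∧ ((1 : ℕ) : ℤ) ∣ a * n + b ∧ ∀ p ∈ T, Q p n) := by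
          rw [hΩ, filter_filter]
          apply filter_congr
          intro n _
          rw [Int.natCast_modEq_iff]
          simp
        have h2 := count_sys (fun p a' => Q p a') X T hTp q hq1 (fun p hp => hndq p (hT hp)) c
        have e2 : (Icc 1 X).filter (fun n => n ≡ c [MOD q] ∧ ∀ p ∈ T, Q p (n % p)) =
            Ω.filter (fun n => ∀ p ∈ T, Q p n) := by
          rw [hΩ, filter_filter]
          apply filter_congr
          intro n _
          constructor
          · rintro ⟨h3, h4⟩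
            exact ⟨h3, fun p hp => (hper p n).2 (h4 p hp)⟩
          · rintro ⟨h3, h4⟩
            exact ⟨h3, fun p hp => (hper p n).1 (h4 p hp)⟩
        rw [e2] at h2
        rw [← e1] at h1
        have h3 : ∏ p ∈ T, (((range p).filter (fun a' => Q p a')).card : ℝ) ≤ D := by
          have h5 : ∏ p ∈ T, (((range p).filter (fun a' => Q p a')).card : ℝ) ≤ ∏ p ∈ T, (p : ℝ) := by
            apply prod_le_prod (fun _ _ => Nat.cast_nonneg _)
            intro p hp
            exact_mod_cast nuB_le Q p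
          refine h5.trans ?_
          have h6 : ((∏ p ∈ T, p : ℕ) : ℝ) ≤ D := by exact_mod_cast hTD
          push_cast at h6
          exact h6
        set N1 : ℝ := ((Ω.filter (fun n => ∀ p ∈ T, Q p n)).card : ℝ) with hN1
        set S1 := ∑ n ∈ Ω.filter (fun n => ∀ p ∈ T, Q p n), lz (a * n + b) with hS1
        have e3 : ∑ n ∈ Ω.filter (fun n => ∀ p ∈ T, Q p n), (1 + σ * lz (a * n + b)) / 2 =
            (N1 + σ * S1) / 2 := by
          rw [← sum_div, sum_add_distrib, ← mul_sum, sum_const, nsmul_eq_mul, mul_one]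
        have e4 : (X : ℝ) / (2 * q) * ∏ p ∈ T, ((nuB Q p : ℝ) / p) =
            ((X : ℝ) / q * ∏ p ∈ T, ((((range p).filter (fun a' => Q p a')).card : ℝ) / p)) / 2 := by
          unfold nuB
          ring
        rw [e3, e4]
        have e5 : (N1 + σ * S1) / 2 - ((X : ℝ) / q * ∏ p ∈ T, ((((range p).filter (fun a' => Q p a')).card : ℝ) / p)) / 2 =
            (N1 - (X : ℝ) / q * ∏ p ∈ T, ((((range p).filter (fun a' => Q p a')).card : ℝ) / p)) / 2 + (σ * S1) / 2 := by ring
        rw [e5]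
        refine (abs_add_le _ _).trans ?_
        rw [abs_div, abs_div, abs_mul, hσ, one_mul, abs_of_pos (by norm_num : (0 : ℝ) < 2)]
        have h6 := h2.trans h3
        have hDn : (0 : ℝ) ≤ D := Nat.cast_nonneg _
        have hn : 0 ≤ ∑ U ∈ T.powerset, (k : ℝ) ^ (T \ U).card *
            B2 (hh (a * X + b)) (hh b) (a * (q * ∏ p ∈ T \ U, p)) (1 * ∏ p ∈ U, p) :=
          sum_nonneg fun U _ => mul_nonneg (by positivity) (B2_nonneg _ _ _ _)
        apply add_le_add
        · linarith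
        · linarith)
    have e6 : ∑ n ∈ Ω.filter (fun n => ∀ p ∈ P, ¬ Q p n), (1 + σ * lz (a * n + b)) / 2 =
        ((F.card : ℝ) + σ * Λ) / 2 := by
      rw [← sum_div, sum_add_distrib, ← mul_sum, sum_const, nsmul_eq_mul, mul_one]
    rw [e6, ← hD] at h
    exact h
  have k1 := key 1 (by norm_num)
  have k2 := key (-1) (by norm_num)
  rw [one_mul] at k1
  have e7 : (F.card : ℝ) + -1 * Λ = F.card - Λ := by ring
  rw [e7] at k2
  have hb1 : 1 ≤ bb := hC0.trans hb
  have hη : (1 / 2 : ℝ) ^ bb ≤ 1 / 2 := by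
    calc (1 / 2 : ℝ) ^ bb ≤ (1 / 2 : ℝ) ^ 1 := pow_le_pow_of_le_one (by norm_num) (by norm_num) hb1
      _ = _ := pow_one _
  have := two_bounds (by positivity) hη hTT0 (Nat.cast_nonneg _) k1 k2
  refine this.trans (le_of_eq ?_)
  rw [hTT]
  ring




end Pool.Agent.H530.Ha
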