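import Pool.Agent.H530.HwA
import Pool.Agent.H530.HaH

/-! The Liouville function at ANY linear form on a sifted set. -/

set_option autoImplicit false

namespace Pool.Agent.H530.Ha

open Finset Pool.Agent.H373R2.T7 Filter

lemma cop_of_primes {a : ℕ} {b : ℤ} (h : ∀ p : ℕ, p.Prime → p ∣ a → ¬ (p : ℤ) ∣ b) : IsCoprime b (a : ℤ) := by
  rw [Int.isCoprime_iff_gcd_eq_one]
  by_contra hne
  obtain ⟨p, hp, hpd⟩ := Nat.exists_prime_and_dvd hne
  exact h p hp (Int.natCast_dvd_natCast.1 ((Int.natCast_dvd_natCast.2 hpd).trans (Int.gcd_dvd_right _ _)))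
    ((Int.natCast_dvd_natCast.2 hpd).trans (Int.gcd_dvd_left _ _))

lemma hh_le (h : ℤ) : ((hh h : ℕ) : ℝ) ≤ |(h : ℝ)| := by
  unfold hh
  split_ifs with h0
  · have : ((h.toNat : ℕ) : ℝ) = (h : ℝ) := by
      have := Int.toNat_of_nonneg h0
      exact_mod_cast this
    rw [this]
    exact le_abs_self _
  · have : (((-h - 1).toNat : ℕ) : ℝ) = -(h : ℝ) - 1 := by
      have := Int.toNat_of_nonneg (show 0 ≤ -h - 1 by omega)
      exact_mod_cast this
    rw [this]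
    have := neg_le_abs (h : ℝ)
    linarith

/-- the form on one class -/
lemma class_form (a q c : ℕ) (b : ℤ) (ha : 1 ≤ a) (hq : 1 ≤ q)
    (hnb : ∀ p : ℕ, p.Prime → p ∣ a → ¬ (p : ℤ) ∣ b) :
    ∃ (g a1 : ℕ) (b1 : ℤ), 1 ≤ g ∧ 1 ≤ a1 ∧ a1 ≤ a * q ∧ (∀ p : ℕ, p.Prime → p ∣ a1 → ¬ (p : ℤ) ∣ b1) ∧
      (g : ℤ) * b1 = a * c + b ∧ g * a1 = a * q := by
  obtain ⟨g, hg⟩ : ∃ g : ℕ, g = Int.gcd ((a : ℤ) * c + b) (q : ℤ) := ⟨_, rfl⟩
  have hg1 : (g : ℤ) ∣ a * c + b := by rw [hg]; exact Int.gcd_dvd_left _ _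
  have hg2 : (g : ℤ) ∣ q := by rw [hg]; exact Int.gcd_dvd_right _ _
  have hg2' : g ∣ q := Int.natCast_dvd_natCast.1 hg2
  have hgpos : 1 ≤ g := Nat.pos_of_dvd_of_pos hg2' hq
  obtain ⟨b1, hb1⟩ := hg1
  obtain ⟨q1, hq1⟩ := hg2'
  have hq1pos : 1 ≤ q1 := by
    rcases Nat.eq_zero_or_pos q1 with h | h
    · rw [h, mul_zero] at hq1
      omega
    · exact h
  refine ⟨g, a * q1, b1, hgpos, Nat.mul_pos ha hq1pos, ?_, ?_, hb1.symm, ?_⟩
  · apply Nat.mul_le_mul_left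
    rw [hq1]
    exact Nat.le_mul_of_pos_left _ hgpos
  · intro p hp hpa hpb
    rcases hp.dvd_mul.1 hpa with h | h
    · have h1 : (p : ℤ) ∣ a * c + b := by
        rw [hb1]
        exact hpb.mul_left _
      have h2 : (p : ℤ) ∣ (a : ℤ) * c := (Int.natCast_dvd_natCast.2 h).mul_right _
      exact hnb p hp h ((dvd_add_right h2).1 h1)
    · have h1 : ((g * p : ℕ) : ℤ) ∣ a * c + b := by
        rw [hb1, Nat.cast_mul]
        exact mul_dvd_mul_left _ hpb
      have h2 : ((g * p : ℕ) : ℤ) ∣ q := by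
        rw [Int.natCast_dvd_natCast, hq1]
        exact Nat.mul_dvd_mul_left _ h
      have h3 : ((g * p : ℕ) : ℤ) ∣ ((Int.gcd ((a : ℤ) * c + b) (q : ℤ) : ℕ) : ℤ) := Int.dvd_coe_gcd h1 h2
      rw [← hg, Int.natCast_dvd_natCast] at h3
      have h4 := Nat.le_of_dvd hgpos h3
      have h5 := hp.two_le
      nlinarith
  · rw [hq1]
    ring

open Classical in
/-- the sum over one class modulo the product of the small primes -/
lemma class_sum {k : ℕ} {Q : ℕ → ℕ → Prop} (hQ : Sv k Q) {X c q : ℕ} {P : Finset ℕ} (hq : 1 ≤ q) (hc : c < q)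
    (hX : q ≤ X) (F : ℕ → ℝ) (hF : ∀ n, |F n| ≤ 1) :
    (((Icc 1 ((X - c) / q)).filter (fun j => ∀ p ∈ P, ¬ Q p (c + q * j))).card ≤
      (((Icc 1 X).filter (fun n => n ≡ c [MOD q])).filter (fun n => ∀ p ∈ P, ¬ Q p n)).card) ∧
    |∑ n ∈ ((Icc 1 X).filter (fun n => n ≡ c [MOD q])).filter (fun n => ∀ p ∈ P, ¬ Q p n), F n| ≤
      |∑ j ∈ (Icc 1 ((X - c) / q)).filter (fun j => ∀ p ∈ P, ¬ Q p (c + q * j)), F (c + q * j)| + 1 := by
  obtain ⟨N, hN⟩ : ∃ N, N = ((Icc 1 X).filter (fun n => n ≡ c [MOD q])).filter (fun n => ∀ p ∈ P, ¬ Q p n) := ⟨_, rfl⟩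
  obtain ⟨J, hJ⟩ : ∃ J, J = (Icc 1 ((X - c) / q)).filter (fun j => ∀ p ∈ P, ¬ Q p (c + q * j)) := ⟨_, rfl⟩
  rw [← hN, ← hJ]
  have hinj : Set.InjOn (fun j => c + q * j) (J : Set ℕ) := by
    intro i _ j _ h
    simp only at h
    have h2 : q * i = q * j := by omega
    exact Nat.eq_of_mul_eq_mul_left hq h2
  have himg : J.image (fun j => c + q * j) = N.filter (fun n => q ≤ n) := by
    ext n
    rw [mem_image, mem_filter, hN, mem_filter, mem_filter, mem_Icc]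
    constructor
    · rintro ⟨j, hj, rfl⟩
      rw [hJ, mem_filter, mem_Icc] at hj
      obtain ⟨⟨h1, h2⟩, h3⟩ := hj
      rw [Nat.le_div_iff_mul_le hq] at h2
      have h4 : q ≤ q * j := Nat.le_mul_of_pos_right q h1
      refine ⟨⟨⟨⟨by omega, ?_⟩, ?_⟩, h3⟩, by omega⟩
      · rw [mul_comm] at h2
        omega
      · unfold Nat.ModEq
        rw [Nat.add_mul_mod_self_left]
    · rintro ⟨⟨⟨⟨h1, h2⟩, h3⟩, h4⟩, h5⟩
      unfold Nat.ModEq at h3
      rw [Nat.mod_eq_of_lt hc] at h3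
      have h6 := Nat.mod_add_div n q
      rw [h3] at h6
      refine ⟨n / q, ?_, h6⟩
      rw [hJ, mem_filter, mem_Icc]
      refine ⟨⟨Nat.div_pos h5 hq, ?_⟩, ?_⟩
      · rw [Nat.le_div_iff_mul_le hq, mul_comm]
        omega
      · rw [h6]
        exact h4
  constructor
  · rw [← card_image_of_injOn hinj, himg]
    exact card_filter_le _ _
  · have hsplit := sum_filter_add_sum_filter_not N (fun n => q ≤ n) F
    rw [← hsplit, ← himg, sum_image (fun i hi j hj h => hinj hi hj h)]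
    refine (abs_add_le _ _).trans (add_le_add le_rfl ?_)
    have hsub : N.filter (fun n => ¬ q ≤ n) ⊆ {c} := by
      intro n hn
      rw [mem_filter, hN, mem_filter, mem_filter] at hn
      have h3 := hn.1.1.2
      unfold Nat.ModEq at h3
      rw [Nat.mod_eq_of_lt hc, Nat.mod_eq_of_lt (by omega)] at h3
      rw [mem_singleton]
      exact h3
    have hcard : ((N.filter (fun n => ¬ q ≤ n)).card : ℝ) ≤ 1 := by
      exact_mod_cast (card_le_card hsub).trans (by simp)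
    refine (abs_sum_le_sum_abs _ _).trans ?_
    refine (sum_le_card_nsmul _ _ 1 (fun n _ => hF n)).trans ?_
    rw [nsmul_eq_mul, mul_one]
    exact hcard

open Classical in
theorem one_F (k : ℕ) (ε : ℝ) (hε : 0 < ε) : ∃ K : ℕ, 1 ≤ K ∧ ∀ B' : ℕ, ∃ X0 y0 : ℕ,
    ∀ Q : ℕ → ℕ → Prop, Sv k Q → ∀ X y : ℕ, X0 ≤ X → y0 ≤ y → y ^ K ≤ X →
      ∀ (a : ℕ) (b : ℤ), 1 ≤ a → (∀ p : ℕ, p.Prime → p ∣ a → ¬ (p : ℤ) ∣ b) → (a : ℝ) ≤ Real.log X ^ B' →
      |(b : ℝ)| ≤ X * Real.log X ^ B' →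
      |∑ n ∈ RQ Q X y, lz (a * n + b)| ≤ ε * (RQ Q X y).card + X / Real.log X ^ (k + 1) := by
  obtain ⟨C0, hC0, hFL⟩ := Pool.Agent.H20R2.fLem k
  obtain ⟨b1, hb1⟩ := exists_pow_lt_of_lt_one (show (0 : ℝ) < ε / 2 by positivity) (show (1 / 2 : ℝ) < 1 by norm_num)
  obtain ⟨bb, hbb⟩ : ∃ bb : ℕ, bb = max C0 b1 := ⟨_, rfl⟩
  have hbC : C0 ≤ bb := by rw [hbb]; exact le_max_left _ _
  have hbε : 2 * (1 / 2 : ℝ) ^ bb ≤ ε := by
    have : (1 / 2 : ℝ) ^ bb ≤ (1 / 2) ^ b1 :=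
      pow_le_pow_of_le_one (by norm_num) (by norm_num) (by rw [hbb]; exact le_max_right _ _)
    linarith
  have hbb1 : 1 ≤ C0 * bb := Nat.mul_pos hC0 (hC0.trans hbC)
  refine ⟨16 * (C0 * bb), by omega, ?_⟩
  intro B'
  obtain ⟨z0, hz0⟩ : ∃ z0 : ℕ, z0 = C0 + k := ⟨_, rfl⟩
  obtain ⟨q, hq⟩ : ∃ q : ℕ, q = ∏ p ∈ pz z0, p := ⟨_, rfl⟩
  have hq1 : 1 ≤ q := by
    rw [hq]
    exact Nat.pos_of_ne_zero (prod_ne_zero_iff.2 fun p hp => (mem_pz.1 hp).2.ne_zero)
  obtain ⟨X0, y0, hTE⟩ := TH_bound k (k + 3) (B' + 1) q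
  obtain ⟨X1, hX1⟩ := ev_L' (max 4 (61 * q))
  obtain ⟨X2, hX2⟩ := ev_log' (k + 3) 1
  refine ⟨max (max X0 X2) X1 + q + 1, max y0 (z0 + 2), ?_⟩
  intro Q hQ X y hX hy hyX a b ha hnb haX hbX
  have hX0 : X0 ≤ X := by
    have := (le_max_left X0 X2).trans (le_max_left (max X0 X2) X1)
    omega
  have hX2' : X2 ≤ X := by
    have := (le_max_right X0 X2).trans (le_max_left (max X0 X2) X1)
    omega
  have hX1' : X1 ≤ X := by
    have := le_max_right (max X0 X2) X1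
    omega
  have hqX : q ≤ X := by omega
  have hy0 : y0 ≤ y := (le_max_left _ _).trans hy
  have hyz : z0 + 2 ≤ y := (le_max_right _ _).trans hy
  obtain ⟨D, hD⟩ : ∃ D : ℕ, D = (2 ^ 2 ^ JJ y) ^ (C0 * bb) := ⟨_, rfl⟩
  have hD1 : 1 ≤ D := by rw [hD]; exact Nat.one_le_pow _ _ (by positivity)
  have hD8 : D ^ 8 ≤ X := by
    refine le_trans ?_ hyX
    rw [hD]
    calc ((2 ^ 2 ^ JJ y) ^ (C0 * bb)) ^ 8 ≤ ((y ^ 2) ^ (C0 * bb)) ^ 8 :=
          Nat.pow_le_pow_left (Nat.pow_le_pow_left (JJ_le y (by omega)) _) _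
      _ = y ^ (16 * (C0 * bb)) := by rw [← pow_mul, ← pow_mul]; congr 1; ring
  have hyX1 : y ≤ X := (Nat.le_self_pow (by omega) y).trans hyX
  have hL := hX1 X hX1'
  obtain ⟨L, hLe⟩ : ∃ L : ℝ, L = Real.log X := ⟨_, rfl⟩
  have hL22 := hX2 X hX2'
  rw [← hLe] at hL haX hbX hL22
  have hL4 : 4 ≤ L := (le_max_left _ _).trans hL
  have hL1 : 1 ≤ L := by linarith
  have hLq : 61 * (q : ℝ) ≤ L := (le_max_right _ _).trans hL
  have hXp : (0 : ℝ) < X := by
    have : 1 ≤ X := by omega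
    exact_mod_cast this
  obtain ⟨P, hP⟩ : ∃ P, P = (pz y).filter (fun p => z0 < p) := ⟨_, rfl⟩
  have hPp : ∀ p ∈ P, p.Prime ∧ z0 < p ∧ p ≤ y := by
    intro p hp
    rw [hP, mem_filter, mem_pz] at hp
    exact ⟨hp.1.2, hp.2, hp.1.1⟩
  have hndq : ∀ p ∈ P, ¬ p ∣ q := by
    intro p hp hd
    rw [hq] at hd
    obtain ⟨p', hp', hd'⟩ := (Prime.dvd_finsetProd_iff (hPp p hp).1.prime _).1 hd
    have h1 := (Nat.prime_dvd_prime_iff_eq (hPp p hp).1 (mem_pz.1 hp').2).1 hd'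
    have h2 := (mem_pz.1 hp').1
    have h3 := (hPp p hp).2.1
    omega
  have hLB0 : (1 : ℝ) ≤ L ^ B' := one_le_pow₀ hL1
  have hLB : L ^ B' ≤ L ^ (B' + 1) := pow_le_pow_right₀ hL1 (by omega)
  have hX2L : X * L ^ B' * 4 ≤ X * L ^ (B' + 1) := by
    rw [pow_succ, ← mul_assoc]
    exact mul_le_mul_of_nonneg_left hL4 (by positivity)
  have hXL0 : 0 ≤ X * L ^ B' := by positivity
  have hDD : (D : ℝ) ^ 2 ≤ X / L ^ (k + 3) := by
    rw [le_div_iff₀ (by positivity)]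
    rw [one_mul] at hL22
    have e1 : (D : ℝ) ^ 2 ≤ √(X : ℝ) := by
      apply Real.le_sqrt_of_sq_le
      have h1 : (D : ℝ) ^ 8 ≤ X := by exact_mod_cast hD8
      have h2 : (1 : ℝ) ≤ D := by exact_mod_cast hD1
      calc ((D : ℝ) ^ 2) ^ 2 = (D : ℝ) ^ 4 := by ring
        _ ≤ (D : ℝ) ^ 8 := pow_le_pow_right₀ h2 (by norm_num)
        _ ≤ _ := h1
    calc (D : ℝ) ^ 2 * L ^ (k + 3) ≤ √(X : ℝ) * √(X : ℝ) :=
          mul_le_mul e1 hL22 (by positivity) (Real.sqrt_nonneg _)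
      _ = X := Real.mul_self_sqrt hXp.le
  have hXL1 : 1 ≤ L * (X / L ^ (k + 3)) := by
    have h1 : 1 ≤ (D : ℝ) ^ 2 := by
      have : (1 : ℝ) ≤ D := by exact_mod_cast hD1
      exact one_le_pow₀ this
    have h2 : 1 ≤ X / L ^ (k + 3) := h1.trans hDD
    nlinarith
  -- one class
  have hclass : ∀ c < q, |∑ n ∈ ((Icc 1 X).filter (fun n => n ≡ c [MOD q])).filter (fun n => ∀ p ∈ P, ¬ Q p n), lz (a * n + b)| ≤
      2 * (1 / 2 : ℝ) ^ bb * ((((Icc 1 X).filter (fun n => n ≡ c [MOD q])).filter (fun n => ∀ p ∈ P, ¬ Q p n)).card : ℝ) +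
        61 * L * (X / L ^ (k + 3)) := by
    intro c hc
    obtain ⟨h1, h2⟩ := class_sum (P := P) hQ hq1 hc hqX (fun n => lz (a * n + b)) (fun n => lz_abs _)
    obtain ⟨g, a1, b1, hg1, ha1, haq, hnb1, hgb, hga⟩ := class_form a q c b ha hq1 hnb
    obtain ⟨X', hX'⟩ : ∃ X', X' = (X - c) / q := ⟨_, rfl⟩
    rw [← hX'] at h1 h2
    have hform : ∀ j : ℕ, ((a : ℤ) * ((c + q * j : ℕ) : ℤ) + b) = (g : ℤ) * ((a1 : ℤ) * j + b1) := by
      intro j
      have e1 : (g : ℤ) * a1 = a * q := by exact_mod_cast hga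
      push_cast
      linear_combination (-(j : ℤ)) * e1 - hgb
    have hlz : ∀ j : ℕ, lz ((a : ℤ) * ((c + q * j : ℕ) : ℤ) + b) = lz g * lz ((a1 : ℤ) * j + b1) := by
      intro j
      rw [hform, lz_mul]
    have hcq : (c : ℤ) < q := by exact_mod_cast hc
    -- bounds for the form
    have hgr : (1 : ℝ) ≤ g := by exact_mod_cast hg1
    have hb1a : |(b1 : ℝ)| ≤ X * L ^ (B' + 1) := by
      have e1 : (g : ℝ) * b1 = a * c + b := by exact_mod_cast hgb
      have e2 : |(g : ℝ) * b1| = g * |(b1 : ℝ)| := by rw [abs_mul, abs_of_pos (by linarith)]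
      have e3 : |(b1 : ℝ)| ≤ |(a : ℝ) * c + b| := by
        rw [← e1, e2]
        have := abs_nonneg (b1 : ℝ)
        nlinarith
      have e4 : (a : ℝ) * c ≤ X * L ^ B' := by
        rw [mul_comm]
        apply mul_le_mul _ haX (Nat.cast_nonneg _) hXp.le
        exact_mod_cast (by omega : c ≤ X)
      have e5 : |(a : ℝ) * c + b| ≤ (a : ℝ) * c + |(b : ℝ)| := by
        refine (abs_add_le _ _).trans ?_
        rw [abs_of_nonneg (show (0 : ℝ) ≤ (a : ℝ) * c by positivity)]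
      linarith
    have hc1a : |(a1 : ℝ) * X' + b1| ≤ X * L ^ (B' + 1) := by
      have e0 := hform X'
      have e1 : (g : ℝ) * ((a1 : ℝ) * X' + b1) = a * ((c + q * X' : ℕ) : ℝ) + b := by exact_mod_cast e0.symm
      have e2 : |(g : ℝ) * ((a1 : ℝ) * X' + b1)| = g * |(a1 : ℝ) * X' + b1| := by
        rw [abs_mul, abs_of_pos (show (0 : ℝ) < g by linarith)]
      have e3 : |(a1 : ℝ) * X' + b1| ≤ |(a : ℝ) * ((c + q * X' : ℕ) : ℝ) + b| := by
        rw [← e1, e2]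
        have := abs_nonneg ((a1 : ℝ) * X' + b1)
        nlinarith
      have e6 : c + q * X' ≤ X := by
        rw [hX']
        have := Nat.mul_div_le (X - c) q
        omega
      have e4 : (a : ℝ) * ((c + q * X' : ℕ) : ℝ) ≤ X * L ^ B' := by
        rw [mul_comm]
        apply mul_le_mul _ haX (Nat.cast_nonneg _) hXp.le
        exact_mod_cast e6
      have e5 : |(a : ℝ) * ((c + q * X' : ℕ) : ℝ) + b| ≤ (a : ℝ) * ((c + q * X' : ℕ) : ℝ) + |(b : ℝ)| := by
        refine (abs_add_le _ _).trans ?_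
        rw [abs_of_nonneg (show (0 : ℝ) ≤ (a : ℝ) * ((c + q * X' : ℕ) : ℝ) by positivity)]
      linarith
    have hm : ((a1 * 1 : ℕ) : ℝ) ≤ q * L ^ (B' + 1) := by
      rw [mul_one]
      calc (a1 : ℝ) ≤ ((a * q : ℕ) : ℝ) := by exact_mod_cast haq
        _ = q * a := by push_cast; ring
        _ ≤ _ := mul_le_mul_of_nonneg_left (haX.trans hLB) (Nat.cast_nonneg _)
    have hte1 := hTE X hX0 (hh ((a1 : ℤ) * X' + b1)) (a1 * 1) (by
        rw [← hLe]
        refine (hh_le _).trans ?_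
        push_cast
        exact hc1a) (by omega) (by rw [← hLe]; exact hm) y D hy0 hyX1 hD1 hD8 P
      (by rw [hP]; exact filter_subset _ _) (fun p hp => by
        have := (hPp p hp).2.1
        omega)
    have hte2 := hTE X hX0 (hh b1) (a1 * 1) (by
        rw [← hLe]
        refine (hh_le _).trans ?_
        exact hb1a) (by omega) (by rw [← hLe]; exact hm) y D hy0 hyX1 hD1 hD8 P
      (by rw [hP]; exact filter_subset _ _) (fun p hp => by
        have := (hPp p hp).2.1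
        omega)
    have hte3 := TE2_le (a := a1) (h1 := hh ((a1 : ℤ) * X' + b1)) (h0 := hh b1) (κ := k) (q := 1) (D := D) (y := y) (P := P)
      (by rw [hP]; exact filter_subset _ _)
    rw [← hLe] at hte1 hte2
    obtain ⟨te, hte'⟩ : ∃ te, te = TE2 a1 (hh ((a1 : ℤ) * X' + b1)) (hh b1) k 1 D P := ⟨_, rfl⟩
    rw [← hte'] at hte3
    have hte : te ≤ 3 * (X / L ^ (k + 3)) := by linarith
    have hcls := cls3 (k := k) (Q := fun p j => Q p (c + q * j)) (a := a1) (b := b1) (X := X') (q := 1) (c := 0)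
      (z0 := z0) (y := y) (D := D) (bb := bb) ha1 hnb1 (fun p n => by
        apply hQ.mod
        exact (((Nat.mod_modEq n p).symm.mul_left q)).add_left c) (fun p hp => by
        rw [← hP] at hp
        refine le_trans ?_ (hQ.le p (hPp p hp).1)
        unfold nuB
        apply card_le_card_of_injOn (fun j => (c + q * j) % p)
        · intro j hj
          rw [mem_coe, mem_filter] at hj ⊢
          rw [mem_range]
          refine ⟨Nat.mod_lt _ (hPp p hp).1.pos, ?_⟩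
          exact (hQ.per p _).1 hj.2
        · intro i hi j hj hij
          rw [mem_coe, mem_filter, mem_range] at hi hj
          have e1 : c + q * i ≡ c + q * j [MOD p] := hij
          have e2 := Nat.ModEq.add_left_cancel' c e1
          have e3 : i ≡ j [MOD p] := Nat.ModEq.cancel_left_of_coprime
            ((Nat.Prime.coprime_iff_not_dvd (hPp p hp).1).2 (hndq p hp)) e2
          unfold Nat.ModEq at e3
          rwa [Nat.mod_eq_of_lt hi.1, Nat.mod_eq_of_lt hj.1] at e3) (fun p hp h => by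
        rw [← hP] at hp
        exact (hPp p hp).1.one_lt.ne' (Nat.dvd_one.1 h)) (by
        have := cop_of_primes hnb1
        simpa using this) hC0 hFL hbC (by omega) le_rfl hD
    rw [← hP, ← hte'] at hcls
    have e7 : ((Icc 1 X').filter (fun n => n ≡ 0 [MOD 1])).filter (fun n => ∀ p ∈ P, ¬ Q p (c + q * n)) =
        (Icc 1 X').filter (fun j => ∀ p ∈ P, ¬ Q p (c + q * j)) := by
      rw [filter_filter]
      apply filter_congr
      intro n _
      simp [Nat.modEq_one]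
    rw [e7] at hcls
    have e8 : |∑ j ∈ (Icc 1 X').filter (fun j => ∀ p ∈ P, ¬ Q p (c + q * j)), lz ((a : ℤ) * ((c + q * j : ℕ) : ℤ) + b)| ≤
        |∑ j ∈ (Icc 1 X').filter (fun j => ∀ p ∈ P, ¬ Q p (c + q * j)), lz ((a1 : ℤ) * j + b1)| := by
      rw [sum_congr rfl (fun j _ => hlz j), ← mul_sum, abs_mul]
      calc |lz g| * |∑ j ∈ (Icc 1 X').filter (fun j => ∀ p ∈ P, ¬ Q p (c + q * j)), lz ((a1 : ℤ) * j + b1)| ≤
          1 * |∑ j ∈ (Icc 1 X').filter (fun j => ∀ p ∈ P, ¬ Q p (c + q * j)), lz ((a1 : ℤ) * j + b1)| :=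
            mul_le_mul_of_nonneg_right (lz_abs _) (abs_nonneg _)
        _ = _ := one_mul _
    have hJ0 : (0 : ℝ) ≤ ((JJ y : ℕ) : ℝ) := Nat.cast_nonneg _
    have hte0 : 0 ≤ (X : ℝ) / L ^ (k + 3) := by positivity
    have hJL : ((JJ y : ℕ) : ℝ) + 2 ≤ 5 * L := by
      have h1 := JJ_log (y := y) (by omega)
      have h2 : Real.log y ≤ L := by
        rw [hLe]
        apply Real.log_le_log
        · exact_mod_cast (by omega : 0 < y)
        · exact_mod_cast hyX1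
      linarith
    have h9 : 4 * (((JJ y : ℕ) : ℝ) + 2) * te ≤ 4 * (5 * L) * (3 * (X / L ^ (k + 3))) := by
      calc 4 * (((JJ y : ℕ) : ℝ) + 2) * te ≤ 4 * (((JJ y : ℕ) : ℝ) + 2) * (3 * (X / L ^ (k + 3))) :=
            mul_le_mul_of_nonneg_left hte (by positivity)
        _ ≤ _ := mul_le_mul_of_nonneg_right (by linarith) (by positivity)
    have h10 : 2 * (1 / 2 : ℝ) ^ bb * (((Icc 1 X').filter (fun j => ∀ p ∈ P, ¬ Q p (c + q * j))).card : ℝ) ≤
        2 * (1 / 2 : ℝ) ^ bb * ((((Icc 1 X).filter (fun n => n ≡ c [MOD q])).filter (fun n => ∀ p ∈ P, ¬ Q p n)).card : ℝ) := by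
      apply mul_le_mul_of_nonneg_left _ (by positivity)
      exact_mod_cast h1
    linarith
  -- decomposition into classes
  obtain ⟨G, hG⟩ : ∃ G, G = (range q).filter (fun c => ∀ p ∈ pz z0, ¬ Q p c) := ⟨_, rfl⟩
  have hdq : ∀ p ∈ pz z0, p ∣ q := by
    intro p hp
    rw [hq]
    exact dvd_prod_of_mem _ hp
  have hfib : ∀ f : ℕ → ℝ, ∑ n ∈ RQ Q X y, f n = ∑ c ∈ G,
      ∑ n ∈ ((Icc 1 X).filter (fun n => n ≡ c [MOD q])).filter (fun n => ∀ p ∈ P, ¬ Q p n), f n := by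
    intro f
    rw [← sum_fiberwise_of_maps_to (s := RQ Q X y) (t := G) (g := fun n => n % q)]
    · apply sum_congr rfl
      intro c hc
      rw [hG, mem_filter, mem_range] at hc
      apply sum_congr _ fun _ _ => rfl
      ext n
      rw [mem_filter, mem_filter, mem_filter, RQ, mem_filter]
      constructor
      · rintro ⟨⟨h1, h2⟩, h3⟩
        refine ⟨⟨h1, ?_⟩, fun p hp => h2 p (by
          rw [hP] at hp
          exact (mem_filter.1 hp).1)⟩
        rw [← h3]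
        exact (Nat.mod_modEq n q).symm
      · rintro ⟨⟨h1, h2⟩, h3⟩
        refine ⟨⟨h1, ?_⟩, ?_⟩
        · intro p hp
          by_cases hpz : z0 < p
          · exact h3 p (by rw [hP]; exact mem_filter.2 ⟨hp, hpz⟩)
          · have hp0 : p ∈ pz z0 := mem_pz.2 ⟨by omega, (mem_pz.1 hp).2⟩
            intro h
            apply hc.2 p hp0
            exact (hQ.mod (h2.of_dvd (hdq p hp0))).1 h
        · have := h2
          unfold Nat.ModEq at this
          rw [Nat.mod_eq_of_lt hc.1] at this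
          exact this
    · intro n hn
      rw [RQ, mem_filter] at hn
      rw [hG, mem_filter, mem_range]
      refine ⟨Nat.mod_lt _ hq1, fun p hp h => ?_⟩
      have hpy : p ∈ pz y := mem_pz.2 ⟨by have := (mem_pz.1 hp).1; omega, (mem_pz.1 hp).2⟩
      apply hn.2 p hpy
      exact (hQ.mod ((Nat.mod_modEq n q).symm.of_dvd (hdq p hp))).2 h
  rw [hfib]
  have hcard : ((RQ Q X y).card : ℝ) = ∑ c ∈ G,
      ((((Icc 1 X).filter (fun n => n ≡ c [MOD q])).filter (fun n => ∀ p ∈ P, ¬ Q p n)).card : ℝ) := by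
    have := hfib (fun _ => 1)
    simpa using this
  rw [hcard]
  have hGq : (G.card : ℝ) ≤ q := by
    have : G.card ≤ q := by
      rw [hG]
      refine (card_filter_le _ _).trans ?_
      rw [card_range]
    exact_mod_cast this
  have hte0 : 0 ≤ (X : ℝ) / L ^ (k + 3) := by positivity
  calc |∑ c ∈ G, ∑ n ∈ ((Icc 1 X).filter (fun n => n ≡ c [MOD q])).filter (fun n => ∀ p ∈ P, ¬ Q p n),
        lz (a * n + b)|
      ≤ ∑ c ∈ G, |∑ n ∈ ((Icc 1 X).filter (fun n => n ≡ c [MOD q])).filter (fun n => ∀ p ∈ P, ¬ Q p n),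
        lz (a * n + b)| := abs_sum_le_sum_abs _ _
    _ ≤ ∑ c ∈ G, (2 * (1 / 2 : ℝ) ^ bb *
          ((((Icc 1 X).filter (fun n => n ≡ c [MOD q])).filter (fun n => ∀ p ∈ P, ¬ Q p n)).card : ℝ) +
          61 * L * (X / L ^ (k + 3))) := by
        apply sum_le_sum
        intro c hc
        rw [hG, mem_filter, mem_range] at hc
        exact hclass c hc.1
    _ = 2 * (1 / 2 : ℝ) ^ bb * (∑ c ∈ G,
          ((((Icc 1 X).filter (fun n => n ≡ c [MOD q])).filter (fun n => ∀ p ∈ P, ¬ Q p n)).card : ℝ)) +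
          G.card * (61 * L * (X / L ^ (k + 3))) := by
        rw [sum_add_distrib, ← mul_sum, sum_const, nsmul_eq_mul]
    _ ≤ ε * (∑ c ∈ G,
          ((((Icc 1 X).filter (fun n => n ≡ c [MOD q])).filter (fun n => ∀ p ∈ P, ¬ Q p n)).card : ℝ)) +
          q * (61 * L * (X / L ^ (k + 3))) := by
        apply add_le_add
        · exact mul_le_mul_of_nonneg_right hbε (sum_nonneg fun _ _ => Nat.cast_nonneg _)
        · exact mul_le_mul_of_nonneg_right hGq (by positivity)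
    _ ≤ _ := by
        apply add_le_add le_rfl
        rw [← hLe]
        have e1 : (X : ℝ) / L ^ (k + 1) = L ^ 2 * (X / L ^ (k + 3)) := by
          field_simp
          ring
        rw [e1]
        have e2 : (q : ℝ) * (61 * L * (X / L ^ (k + 3))) = (61 * q * L) * (X / L ^ (k + 3)) := by ring
        rw [e2]
        apply mul_le_mul_of_nonneg_right _ hte0
        nlinarith

end Pool.Agent.H530.Ha
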