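import Pool.Graph.R_seed8.H373R2.T7.VauMu

/-! Bilinear sums with a linear phase over a residue class. -/

set_option autoImplicit false

namespace Pool.Agent.H530.Hx

open Finset Pool.Agent.H373R2.T7 Pool.Agent.H807R2.Dav

/-- a class in an interval is a progression -/
lemma class_img (d r a b : ℕ) (hd : 1 ≤ d) (hab : a ≤ b) : ∃ m0 J : ℕ, (J : ℝ) ≤ ((b : ℝ) - a) / d + 1 ∧
    (Ico a b).filter (fun m => m ≡ r [MOD d]) = (range J).image (fun j => m0 + d * j) := by
  -- the first element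
  obtain ⟨t, ht, htr⟩ : ∃ t < d, a + t ≡ r [MOD d] := by
    refine ⟨(r + (d - a % d)) % d, Nat.mod_lt _ hd, ?_⟩
    unfold Nat.ModEq
    rw [Nat.add_mod_mod]
    have h1 := Nat.mod_lt a hd
    have h2 : a + (r + (d - a % d)) = r + d * (a / d + 1) := by
      have := Nat.mod_add_div a d
      have h3 : d * (a / d + 1) = d * (a / d) + d := by ring
      omega
    rw [h2, Nat.add_mul_mod_self_left]
  have hd0 : (0 : ℝ) < d := by exact_mod_cast hd
  rcases le_or_gt b (a + t) with h | h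
  · refine ⟨0, 0, ?_, ?_⟩
    · have : (a : ℝ) ≤ b := by exact_mod_cast hab
      have h2 : 0 ≤ ((b : ℝ) - a) / d := div_nonneg (by linarith) hd0.le
      rw [Nat.cast_zero]
      linarith
    · rw [range_zero, image_empty, filter_eq_empty_iff]
      intro m hm hmr
      rw [mem_Ico] at hm
      have h1 : a + t ≡ m [MOD d] := htr.trans hmr.symm
      have h2 : t ≡ m - a [MOD d] := by
        have h3 : m = a + (m - a) := by omega
        rw [h3] at h1
        exact Nat.ModEq.add_left_cancel' a h1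
      unfold Nat.ModEq at h2
      rw [Nat.mod_eq_of_lt ht, Nat.mod_eq_of_lt (by omega)] at h2
      omega
  · refine ⟨a + t, (b - 1 - (a + t)) / d + 1, ?_, ?_⟩
    · push_cast
      have h1 : (((b - 1 - (a + t)) / d : ℕ) : ℝ) ≤ ((b - 1 - (a + t) : ℕ) : ℝ) / d := Nat.cast_div_le
      have h2 : ((b - 1 - (a + t) : ℕ) : ℝ) ≤ (b : ℝ) - a := by
        have : ((b - 1 - (a + t) : ℕ) : ℝ) + a ≤ b := by exact_mod_cast (by omega : (b - 1 - (a + t)) + a ≤ b)
        linarith
      have h3 := div_le_div_of_nonneg_right h2 hd0.le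
      linarith
    · ext m
      rw [mem_filter, mem_Ico, mem_image]
      constructor
      · rintro ⟨⟨h1, h2⟩, h3⟩
        have h4 : a + t ≡ m [MOD d] := htr.trans h3.symm
        have hle : a + t ≤ m := by
          by_contra hc
          have h5 : a + t ≡ m [MOD d] := h4
          have h6 := (Nat.modEq_iff_dvd' (by omega : m ≤ a + t)).1 h5.symm
          have h7 := Nat.le_of_dvd (by omega) h6
          omega
        obtain ⟨j, hj⟩ := (Nat.modEq_iff_dvd' hle).1 h4
        refine ⟨j, ?_, by omega⟩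
        rw [mem_range, Nat.lt_succ_iff, Nat.le_div_iff_mul_le hd, mul_comm]
        omega
      · rintro ⟨j, hj, rfl⟩
        rw [mem_range, Nat.lt_succ_iff, Nat.le_div_iff_mul_le hd, mul_comm] at hj
        refine ⟨⟨by omega, by omega⟩, ?_⟩
        have : a + t + d * j ≡ a + t [MOD d] := by
          unfold Nat.ModEq
          rw [Nat.add_mul_mod_self_left]
        exact this.trans htr

lemma sum_class {E : Type*} [AddCommMonoid E] {d r a b m0 J : ℕ} (hd : 1 ≤ d)
    (h : (Ico a b).filter (fun m => m ≡ r [MOD d]) = (range J).image (fun j => m0 + d * j)) (F : ℕ → E) :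
    ∑ m ∈ (Ico a b).filter (fun m => m ≡ r [MOD d]), F m = ∑ j ∈ range J, F (m0 + d * j) := by
  rw [h, sum_image]
  intro i _ j _ hij
  have h2 : d * i = d * j := by
    simp only at hij
    omega
  exact Nat.eq_of_mul_eq_mul_left hd h2

/-- geometric sums over a class -/
lemma geo_class (d r a b : ℕ) (hd : 1 ≤ d) {M : ℝ} (hM0 : 0 ≤ M) (hM : ((b : ℝ) - a) ≤ M) (x : ℝ) :
    ‖∑ m ∈ (Ico a b).filter (fun m => m ≡ r [MOD d]), ee (m * x)‖ ≤ KK (M / d + 1) (d * x) := by
  have hd0 : (0 : ℝ) < d := by exact_mod_cast hd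
  rcases le_or_gt a b with hab | hab
  · obtain ⟨m0, J, hJ, himg⟩ := class_img d r a b hd hab
    rw [sum_class hd himg (fun m => ee (m * x))]
    have e1 : ∀ j ∈ range J, ee (((m0 + d * j : ℕ) : ℝ) * x) = ee (m0 * x) * ee (j * (d * x)) := by
      intro j _
      rw [← ee_add]
      congr 1
      push_cast
      ring
    rw [sum_congr rfl e1, ← mul_sum, norm_mul, norm_ee, one_mul, ← Nat.Ico_zero_eq_range]
    apply geo_bound 0 J (Nat.zero_le _)
    have := div_le_div_of_nonneg_right hM hd0.le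
    rw [Nat.cast_zero]
    linarith
  · rw [Ico_eq_empty_of_le hab.le, filter_empty, sum_empty, norm_zero]
    exact KK_nonneg (by positivity) _

/-- the restriction of a linear phase to a class -/
noncomputable def Ec (d c : ℕ) (α : ℝ) (n : ℕ) : ℂ := if n ≡ c [MOD d] then ee (n * α) else 0

/-- bilinear sums with a linear phase over a class -/
theorem typeII_cls {q : ℕ} (hq : 1 ≤ q) {c1 : ℤ} (hcop : IsCoprime c1 (q : ℤ)) {α : ℝ} {d : ℕ} (hd : 1 ≤ d)
    (hα : |(d : ℝ) ^ 2 * α - c1 / q| ≤ 1 / (q : ℝ) ^ 2) (c : ℕ) (hc : Nat.Coprime c d) (N N' M L : ℕ) (a b : ℕ → ℂ) :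
    ‖∑ m ∈ Ioc M (2 * M), ∑ l ∈ Ioc L (2 * L), a m * b l *
      (if N < m * l ∧ m * l ≤ N' then Ec d c α (m * l) else 0)‖ ^ 2 ≤
      (∑ m ∈ Ioc M (2 * M), ‖a m‖ ^ 2) * ((∑ l ∈ Ioc L (2 * L), ‖b l‖ ^ 2) *
        ((((L : ℝ) / d + 1) / q + 1) * (39 * ((M : ℝ) / d + 1) + 3 * q * (1 + Real.log q)))) := by
  classical
  have hd0 : (0 : ℝ) < d := by exact_mod_cast hd
  set S : ℕ → ℂ := fun m => ∑ l ∈ Ioc L (2 * L), b l * (if N < m * l ∧ m * l ≤ N' then Ec d c α (m * l) else 0) with hS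
  have e1 : ∑ m ∈ Ioc M (2 * M), ∑ l ∈ Ioc L (2 * L), a m * b l *
      (if N < m * l ∧ m * l ≤ N' then Ec d c α (m * l) else 0) = ∑ m ∈ Ioc M (2 * M), a m * S m := by
    apply sum_congr rfl; intro m _
    rw [hS, mul_sum]
    apply sum_congr rfl; intro l _
    ring
  rw [e1]
  refine (cs_norm _ _ _).trans (mul_le_mul_of_nonneg_left ?_ (by positivity))
  -- the conditions
  obtain ⟨G, hG⟩ : ∃ G : ℕ → ℕ → Prop, G = fun m l => (N < m * l ∧ m * l ≤ N') ∧ m * l ≡ c [MOD d] := ⟨_, rfl⟩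
  have hF : ∀ m l : ℕ, (if N < m * l ∧ m * l ≤ N' then Ec d c α (m * l) else 0) =
      if G m l then ee (((m * l : ℕ) : ℝ) * α) else 0 := by
    intro m l
    rw [hG]
    unfold Ec
    by_cases h1 : N < m * l ∧ m * l ≤ N'
    · by_cases h2 : m * l ≡ c [MOD d]
      · rw [if_pos h1, if_pos h2, if_pos ⟨h1, h2⟩]
      · rw [if_pos h1, if_neg h2, if_neg (fun h => h2 h.2)]
    · rw [if_neg h1, if_neg (fun h => h1 h.1)]
  have h1 : ((∑ m ∈ Ioc M (2 * M), ‖S m‖ ^ 2 : ℝ) : ℂ) =
      ∑ l ∈ Ioc L (2 * L), ∑ l' ∈ Ioc L (2 * L), (b l * (starRingEnd ℂ) (b l')) *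
        ∑ m ∈ (Ioc M (2 * M)).filter (fun m => G m l ∧ G m l'),
          ee ((m : ℝ) * (((l : ℝ) - l') * α)) := by
    push_cast
    have h2 : ∀ m ∈ Ioc M (2 * M), ((‖S m‖ : ℂ)) ^ 2 = ∑ l ∈ Ioc L (2 * L), ∑ l' ∈ Ioc L (2 * L),
        (b l * (starRingEnd ℂ) (b l')) * (if G m l ∧ G m l' then
          ee ((m : ℝ) * (((l : ℝ) - l') * α)) else 0) := by
      intro m _
      rw [← Complex.mul_conj', hS]
      simp only
      rw [map_sum, sum_mul_sum]
      apply sum_congr rfl; intro l _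
      apply sum_congr rfl; intro l' _
      rw [map_mul, hF, hF]
      by_cases g1 : G m l
      · by_cases g2 : G m l'
        · rw [if_pos g1, if_pos g2, if_pos ⟨g1, g2⟩, ee_conj']
          have : ee ((m : ℝ) * (((l : ℝ) - l') * α)) = ee (((m * l : ℕ) : ℝ) * α) * ee (-(((m * l' : ℕ) : ℝ) * α)) := by
            rw [← ee_add]; congr 1; push_cast; ring
          rw [this]; ring
        · rw [if_neg g2, if_neg (fun h : G m l ∧ G m l' => g2 h.2)]; simp
      · rw [if_neg g1, if_neg (fun h : G m l ∧ G m l' => g1 h.1)]; simp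
    rw [sum_congr rfl h2, sum_comm]
    apply sum_congr rfl; intro l _
    rw [sum_comm]
    apply sum_congr rfl; intro l' _
    rw [← mul_sum, sum_filter]
  have hK : ∀ l ∈ Ioc L (2 * L), ∀ l' ∈ Ioc L (2 * L),
      ‖∑ m ∈ (Ioc M (2 * M)).filter (fun m => G m l ∧ G m l'),
          ee ((m : ℝ) * (((l : ℝ) - l') * α))‖ ≤
        if l' ≡ l [MOD d] then KK ((M : ℝ) / d + 1) (d * (((l : ℝ) - l') * α)) else 0 := by
    intro l hl l' hl'
    rw [mem_Ioc] at hl hl'
    have hl0 : 0 < l := by omega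
    have hl0' : 0 < l' := by omega
    by_cases hll : l' ≡ l [MOD d]
    · rw [if_pos hll]
      by_cases hex : ∃ m1, m1 * l ≡ c [MOD d]
      · obtain ⟨m1, hm1⟩ := hex
        have hlc : Nat.Coprime l d := by
          have h2 : Nat.Coprime (m1 * l) d := by
            rw [Nat.Coprime, hm1.gcd_eq]
            exact hc
          exact Nat.Coprime.coprime_mul_left h2
        have hcls : ∀ m, m * l ≡ c [MOD d] ↔ m ≡ m1 [MOD d] := by
          intro m
          constructor
          · intro h2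
            exact Nat.ModEq.cancel_right_of_coprime (by rw [Nat.gcd_comm]; exact hlc) (h2.trans hm1.symm)
          · intro h2
            exact (h2.mul_right l).trans hm1
        set lo := max M (max (N / l) (N / l')) with hlo
        set hi := min (2 * M) (min (N' / l) (N' / l')) with hhi
        have hset : (Ioc M (2 * M)).filter (fun m => G m l ∧ G m l') =
            (Ico (lo + 1) (hi + 1)).filter (fun m => m ≡ m1 [MOD d]) := by
          ext m
          rw [mem_filter, mem_Ioc, mem_filter, mem_Ico, hG]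
          have g1 : N < m * l ↔ N / l < m := (Nat.div_lt_iff_lt_mul hl0).symm
          have g2 : m * l ≤ N' ↔ m ≤ N' / l := (Nat.le_div_iff_mul_le hl0).symm
          have g3 : N < m * l' ↔ N / l' < m := (Nat.div_lt_iff_lt_mul hl0').symm
          have g4 : m * l' ≤ N' ↔ m ≤ N' / l' := (Nat.le_div_iff_mul_le hl0').symm
          have g5 : m * l' ≡ c [MOD d] ↔ m ≡ m1 [MOD d] := by
            rw [← hcls m]
            exact ⟨fun h => (hll.symm.mul_left m).trans h, fun h => (hll.mul_left m).trans h⟩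
          simp only
          rw [g1, g2, g3, g4, hcls m, g5]
          constructor
          · rintro ⟨g6, ⟨⟨g7, g8⟩, g9⟩, ⟨g10, g11⟩, g12⟩
            exact ⟨by omega, g9⟩
          · rintro ⟨g6, g7⟩
            exact ⟨by omega, ⟨⟨by omega, by omega⟩, g7⟩, ⟨by omega, by omega⟩, g7⟩
        rw [hset]
        apply geo_class d m1 _ _ hd (Nat.cast_nonneg _)
        have g1 : M ≤ lo := le_max_left _ _
        have g2 : hi ≤ 2 * M := min_le_left _ _
        have g1r : (M : ℝ) ≤ lo := by exact_mod_cast g1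
        have g2r : (hi : ℝ) ≤ 2 * M := by exact_mod_cast g2
        push_cast
        linarith
      · have : (Ioc M (2 * M)).filter (fun m => G m l ∧ G m l') = ∅ := by
          rw [filter_eq_empty_iff]
          intro m _ h2
          rw [hG] at h2
          exact hex ⟨m, h2.1.2⟩
        rw [this, sum_empty, norm_zero]
        exact KK_nonneg (by positivity) _
    · rw [if_neg hll]
      have : (Ioc M (2 * M)).filter (fun m => G m l ∧ G m l') = ∅ := by
        rw [filter_eq_empty_iff]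
        intro m _ h2
        rw [hG] at h2
        apply hll
        have h3 : Nat.Coprime (m * l) d := by
          rw [Nat.Coprime, h2.1.2.gcd_eq]
          exact hc
        have h4 : Nat.Coprime m d := Nat.Coprime.coprime_mul_right h3
        exact Nat.ModEq.cancel_left_of_coprime (by rw [Nat.gcd_comm]; exact h4) (h2.2.2.trans h2.1.2.symm)
      rw [this, sum_empty, norm_zero]
  obtain ⟨W, hW⟩ : ∃ W : ℕ → ℕ → ℝ, W = fun l l' => if l' ≡ l [MOD d] then
      KK ((M : ℝ) / d + 1) (d * (((l : ℝ) - l') * α)) else 0 := ⟨_, rfl⟩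
  have hW0 : ∀ l l', 0 ≤ W l l' := by
    intro l l'
    rw [hW]
    dsimp only
    split_ifs
    · exact KK_nonneg (by positivity) _
    · exact le_rfl
  have hWs : ∀ l l', W l l' = W l' l := by
    intro l l'
    rw [hW]
    dsimp only
    by_cases h : l' ≡ l [MOD d]
    · rw [if_pos h, if_pos h.symm, ← KK_neg]
      congr 1
      ring
    · rw [if_neg h, if_neg (fun h' : l ≡ l' [MOD d] => h h'.symm)]
  have h2 : ∑ m ∈ Ioc M (2 * M), ‖S m‖ ^ 2 ≤
      ∑ l ∈ Ioc L (2 * L), ∑ l' ∈ Ioc L (2 * L), (‖b l‖ ^ 2 + ‖b l'‖ ^ 2) / 2 * W l l' := by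
    have h3 : (∑ m ∈ Ioc M (2 * M), ‖S m‖ ^ 2) = ‖((∑ m ∈ Ioc M (2 * M), ‖S m‖ ^ 2 : ℝ) : ℂ)‖ := by
      rw [Complex.norm_real, Real.norm_of_nonneg (by positivity)]
    rw [h3, h1]
    refine (norm_sum_le _ _).trans (sum_le_sum fun l hl => ?_)
    refine (norm_sum_le _ _).trans (sum_le_sum fun l' hl' => ?_)
    rw [norm_mul, norm_mul, RCLike.norm_conj, hW]
    apply mul_le_mul _ (hK l hl l' hl') (norm_nonneg _) (by positivity)
    nlinarith [sq_nonneg (‖b l‖ - ‖b l'‖)]
  refine h2.trans ?_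
  have h4 : ∑ l ∈ Ioc L (2 * L), ∑ l' ∈ Ioc L (2 * L), (‖b l‖ ^ 2 + ‖b l'‖ ^ 2) / 2 * W l l' =
      ∑ l ∈ Ioc L (2 * L), ‖b l‖ ^ 2 * ∑ l' ∈ Ioc L (2 * L), W l l' := by
    have e2 : ∀ l l' : ℕ, (‖b l‖ ^ 2 + ‖b l'‖ ^ 2) / 2 * W l l' =
        1 / 2 * (‖b l‖ ^ 2 * W l l') + 1 / 2 * (‖b l'‖ ^ 2 * W l l') := by
      intro l l'; ring
    simp_rw [e2, sum_add_distrib]
    have e3 : ∑ l ∈ Ioc L (2 * L), ∑ l' ∈ Ioc L (2 * L), 1 / 2 * (‖b l'‖ ^ 2 * W l l') =
        ∑ l ∈ Ioc L (2 * L), ∑ l' ∈ Ioc L (2 * L), 1 / 2 * (‖b l‖ ^ 2 * W l l') := by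
      rw [sum_comm]
      apply sum_congr rfl; intro l _
      apply sum_congr rfl; intro l' _
      rw [hWs]
    rw [e3, ← sum_add_distrib]
    apply sum_congr rfl; intro l _
    rw [← sum_add_distrib, mul_sum]
    apply sum_congr rfl; intro l' _
    ring
  rw [h4, sum_mul]
  apply sum_le_sum
  intro l _
  apply mul_le_mul_of_nonneg_left _ (by positivity)
  have e5 : Ioc L (2 * L) = Ico (L + 1) (2 * L + 1) := by
    ext x
    rw [mem_Ioc, mem_Ico]
    omega
  have h5 : ∑ l' ∈ Ioc L (2 * L), W l l' = ∑ l' ∈ (Ico (L + 1) (2 * L + 1)).filter (fun l' => l' ≡ l [MOD d]),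
      KK ((M : ℝ) / d + 1) (d * (((l : ℝ) - l') * α)) := by
    rw [e5, sum_filter, hW]
  obtain ⟨l0, J, hJ, himg⟩ := class_img d l (L + 1) (2 * L + 1) hd (by omega)
  rw [h5, sum_class hd himg (fun l' => KK ((M : ℝ) / d + 1) (d * (((l : ℝ) - l') * α)))]
  have e6 : ∀ j ∈ range J, KK ((M : ℝ) / d + 1) (d * (((l : ℝ) - ((l0 + d * j : ℕ) : ℝ)) * α)) =
      KK ((M : ℝ) / d + 1) (d * ((l0 : ℝ) - l) * α + j * ((d : ℝ) ^ 2 * α)) := by
    intro j _
    rw [← KK_neg]
    congr 1
    push_cast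
    ring
  rw [sum_congr rfl e6]
  have hv := vino hq hcop hα (M := (M : ℝ) / d + 1) (by positivity) (d * ((l0 : ℝ) - l) * α) J
  refine hv.trans ?_
  have hq0 : (0 : ℝ) < q := by exact_mod_cast hq
  have hq1 : (1 : ℝ) ≤ q := by exact_mod_cast hq
  have hlq : 0 ≤ Real.log q := Real.log_nonneg hq1
  apply mul_le_mul_of_nonneg_right _ (by positivity)
  have hJ2 : (J : ℝ) ≤ (L : ℝ) / d + 1 := by
    refine hJ.trans (le_of_eq ?_)
    push_cast
    ring
  have := div_le_div_of_nonneg_right hJ2 hq0.le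
  linarith

end Pool.Agent.H530.Hx
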