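import Pool.Agent.H530.HxA

/-! The Moebius function with a linear phase over a residue class: one dyadic block. -/

set_option autoImplicit false

namespace Pool.Agent.H530.Hx

open Finset Pool.Agent.H373R2.T7 Pool.Agent.H807R2.Dav

lemma Ec_norm (d c : ℕ) (α : ℝ) (n : ℕ) : ‖Ec d c α n‖ ≤ 1 := by
  unfold Ec
  split_ifs
  · rw [norm_ee]
  · rw [norm_zero]
    exact zero_le_one

/-- type I sums over a class -/
lemma typeI_cls {d c : ℕ} (hd : 1 ≤ d) (hc : Nat.Coprime c d) (α : ℝ) (m A b : ℕ) {M : ℝ} (hM0 : 0 ≤ M)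
    (hM : (b : ℝ) - A ≤ M) :
    ‖∑ l ∈ Ioc A b, Ec d c α (m * l)‖ ≤ KK (M / d + 1) (m * (d * α)) := by
  have e0 : ∑ l ∈ Ioc A b, Ec d c α (m * l) = ∑ l ∈ (Ico (A + 1) (b + 1)).filter (fun l => m * l ≡ c [MOD d]),
      ee (l * (m * α)) := by
    have e1 : Ioc A b = Ico (A + 1) (b + 1) := by
      ext x
      rw [mem_Ioc, mem_Ico]
      omega
    rw [e1, sum_filter]
    apply sum_congr rfl
    intro l _
    unfold Ec
    split_ifs
    · congr 1
      push_cast
      ring
    · rfl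
  rw [e0]
  have hx : (m : ℝ) * (d * α) = d * (m * α) := by ring
  by_cases hex : ∃ l1, m * l1 ≡ c [MOD d]
  · obtain ⟨l1, hl1⟩ := hex
    have hmc : Nat.Coprime m d := by
      have h2 : Nat.Coprime (m * l1) d := by
        rw [Nat.Coprime, hl1.gcd_eq]
        exact hc
      exact Nat.Coprime.coprime_mul_right h2
    have hset : (Ico (A + 1) (b + 1)).filter (fun l => m * l ≡ c [MOD d]) =
        (Ico (A + 1) (b + 1)).filter (fun l => l ≡ l1 [MOD d]) := by
      apply filter_congr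
      intro l _
      constructor
      · intro h2
        exact Nat.ModEq.cancel_left_of_coprime (by rw [Nat.gcd_comm]; exact hmc) (h2.trans hl1.symm)
      · intro h2
        exact (h2.mul_left m).trans hl1
    rw [hset, hx]
    apply geo_class d l1 _ _ hd hM0
    push_cast
    linarith
  · have : (Ico (A + 1) (b + 1)).filter (fun l => m * l ≡ c [MOD d]) = ∅ := by
      rw [filter_eq_empty_iff]
      intro l _ h2
      exact hex ⟨l, h2⟩
    rw [this, sum_empty, norm_zero]
    exact KK_nonneg (by positivity) _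

/-- one dyadic block -/
theorem block_cls {d c : ℕ} (hd : 1 ≤ d) (hc : Nat.Coprime c d) {α : ℝ} {q1 q2 : ℕ} (hq1 : 1 ≤ q1) (hq2 : 1 ≤ q2)
    {c1 c2 : ℤ} (hcop1 : IsCoprime c1 (q1 : ℤ)) (hcop2 : IsCoprime c2 (q2 : ℤ))
    (hα1 : |(d : ℝ) * α - c1 / q1| ≤ 1 / (q1 : ℝ) ^ 2) (hα2 : |(d : ℝ) ^ 2 * α - c2 / q2| ≤ 1 / (q2 : ℝ) ^ 2)
    (N U : ℕ) (hN : 1 ≤ N) (hU : 1 ≤ U) (hUN : U * U ≤ N) :
    ‖∑ n ∈ Ioc N (2 * N), (((ArithmeticFunction.moebius n : ℤ) : ℝ) : ℂ) * Ec d c α n‖ ≤
      8 * (1 + Real.log (4 * N)) ^ 4 * Real.sqrt (960 * (1 + Real.log q2) *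
        (N * ((N : ℝ) / (d ^ 2 * q2) + N / (d * U) + q2))) +
      Real.sqrt (6 * (N / d + U * U + 1 : ℕ) * (1 + Real.log (U * U : ℕ)) ^ 4) *
        Real.sqrt (600 * (Nat.log 2 (U * U) + 1 : ℝ) *
          (((N / d + U * U + 1 : ℕ) : ℝ) / q1 + (U * U : ℕ) + q1) * (1 + Real.log q1)) := by
  have hq0 : (0 : ℝ) < q2 := by exact_mod_cast hq2
  have hq1' : (1 : ℝ) ≤ q2 := by exact_mod_cast hq2
  have hlq : 0 ≤ Real.log q2 := Real.log_nonneg hq1'
  have hN0 : (1 : ℝ) ≤ N := by exact_mod_cast hN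
  have hU0 : (0 : ℝ) < U := by exact_mod_cast hU
  have hd0 : (0 : ℝ) < d := by exact_mod_cast hd
  have hd1 : (1 : ℝ) ≤ d := by exact_mod_cast hd
  have hlog4N : 0 ≤ Real.log (4 * (N : ℝ)) := Real.log_nonneg (by linarith)
  obtain ⟨lg, hlg⟩ : ∃ lg : ℝ, lg = 1 + Real.log q2 := ⟨_, rfl⟩
  have hlg1 : 1 ≤ lg := by linarith
  have hUU : 1 ≤ U * U := Nat.mul_pos hU hU
  obtain ⟨N1, hN1⟩ : ∃ N1, N1 = N / d + U * U + 1 := ⟨_, rfl⟩
  have hN1' : (N : ℝ) / d + (U * U : ℕ) ≤ N1 := by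
    have h1 : (N : ℝ) / d < ((N / d : ℕ) : ℝ) + 1 := by
      rw [div_lt_iff₀ hd0]
      have := Nat.lt_div_mul_add (a := N) (b := d) hd
      have h2 : N < (N / d + 1) * d := by
        rw [add_mul, one_mul]
        exact this
      exact_mod_cast h2
    rw [hN1]
    push_cast
    push_cast at h1
    linarith
  have key := vaughan_mu (Ec d c α) N (2 * N) U hN (by omega) le_rfl hU hUN
    (fun m => KK (2 * N1 / m) (m * (d * α))) (Real.sqrt (960 * (1 + Real.log q2) *
        (N * ((N : ℝ) / (d ^ 2 * q2) + N / (d * U) + q2))))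
    (Real.sqrt_nonneg _) (fun m => KK_nonneg (by positivity) _) (by
      intro m hm b hb
      rw [mem_Icc] at hm
      have hm0 : (0 : ℝ) < m := by exact_mod_cast (by omega : 0 < m)
      have h1 : (b : ℝ) ≤ 2 * N / m := by
        have h2 : (b : ℝ) ≤ ((2 * N / m : ℕ) : ℝ) := by exact_mod_cast hb
        have h3 : ((2 * N / m : ℕ) : ℝ) ≤ ((2 * N : ℕ) : ℝ) / m := Nat.cast_div_le
        push_cast at h3
        linarith
      have h5 : (0 : ℝ) ≤ ((N / m : ℕ) : ℝ) := Nat.cast_nonneg _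
      refine (typeI_cls hd hc α m (N / m) b (M := 2 * N / m) (by positivity) (by linarith)).trans ?_
      apply KK_mono (by positivity)
      have h6 : (m : ℝ) ≤ (U * U : ℕ) := by exact_mod_cast hm.2
      rw [div_add' _ _ _ hd0.ne', div_le_div_iff₀ hd0 hm0]
      have h7 : 2 * (N : ℝ) / m * m = 2 * N := by field_simp
      have h8 : (N : ℝ) + (U * U : ℕ) * d ≤ N1 * d := by
        have := mul_le_mul_of_nonneg_right hN1' hd0.le
        rw [add_mul, div_mul_cancel₀ _ hd0.ne'] at this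
        exact this
      calc (2 * (N : ℝ) / m + 1 * d) * m = 2 * N + d * m := by rw [add_mul, h7]; ring
        _ ≤ 2 * N + 2 * ((U * U : ℕ) * d) := by nlinarith
        _ ≤ _ := by linarith) (by
      intro a b A₂ B₂ hA0 hB0 M L hM hL hM2 hL2 hML hA hB
      have h1 := typeII_cls hq2 hcop2 hd hα2 c hc N (2 * N) M L a b
      refine h1.trans ?_
      rw [Real.sq_sqrt (by positivity)]
      have hM0 : (0 : ℝ) < M := by exact_mod_cast hM
      have hL0 : (0 : ℝ) < L := by exact_mod_cast hL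
      have hMLr : (M : ℝ) * L ≤ 2 * N := by exact_mod_cast hML
      have hM4 : (M : ℝ) ≤ 4 * (N / U) := by
        rw [mul_div_assoc', le_div_iff₀ hU0]
        have : (U : ℝ) ≤ 2 * L := by exact_mod_cast hL2.le
        nlinarith
      have hL4 : (L : ℝ) ≤ 4 * (N / U) := by
        rw [mul_div_assoc', le_div_iff₀ hU0]
        have : (U : ℝ) ≤ 2 * M := by exact_mod_cast hM2.le
        nlinarith
      rw [← hlg]
      -- the product of the two factors
      have f1 : (((L : ℝ) / d + 1) / q2 + 1) ≤ L / (d * q2) + 2 := by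
        have : ((L : ℝ) / d + 1) / q2 = L / (d * q2) + 1 / q2 := by
          field_simp
        rw [this]
        have : 1 / (q2 : ℝ) ≤ 1 := by
          rw [div_le_one hq0]
          exact hq1'
        linarith
      have f2 : 39 * ((M : ℝ) / d + 1) + 3 * q2 * lg ≤ 39 * (M / d) + 42 * (q2 * lg) := by
        have : 1 ≤ q2 * lg := by nlinarith
        linarith
      have f3 : (L / (d * q2) + 2 : ℝ) * (39 * (M / d) + 42 * (q2 * lg)) =
          39 * (M * L / (d ^ 2 * q2)) + 42 * (lg * (L / d)) + 78 * (M / d) + 84 * (q2 * lg) := by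
        field_simp
        ring
      have g1 : (M : ℝ) * L / (d ^ 2 * q2) ≤ 2 * (N / (d ^ 2 * q2)) := by
        rw [mul_div_assoc']
        exact div_le_div_of_nonneg_right hMLr (by positivity)
      have g2 : (L : ℝ) / d ≤ 4 * (N / (d * U)) := by
        calc (L : ℝ) / d ≤ 4 * (N / U) / d := div_le_div_of_nonneg_right hL4 hd0.le
          _ = _ := by field_simp
      have g3 : (M : ℝ) / d ≤ 4 * (N / (d * U)) := by
        calc (M : ℝ) / d ≤ 4 * (N / U) / d := div_le_div_of_nonneg_right hM4 hd0.le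
          _ = _ := by field_simp
      have g4 : 0 ≤ (N : ℝ) / (d ^ 2 * q2) := by positivity
      have g5 : 0 ≤ (N : ℝ) / (d * U) := by positivity
      have f4 : (((L : ℝ) / d + 1) / q2 + 1) * (39 * ((M : ℝ) / d + 1) + 3 * q2 * lg) ≤
          lg * (480 * ((N : ℝ) / (d ^ 2 * q2) + N / (d * U) + q2)) := by
        calc _ ≤ (L / (d * q2) + 2 : ℝ) * (39 * (M / d) + 42 * (q2 * lg)) :=
              mul_le_mul f1 f2 (by positivity) (by positivity)
          _ = 39 * (M * L / (d ^ 2 * q2)) + 42 * (lg * (L / d)) + 78 * (M / d) + 84 * (q2 * lg) := f3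
          _ ≤ 39 * (lg * (2 * (N / (d ^ 2 * q2)))) + 42 * (lg * (4 * (N / (d * U)))) +
              78 * (lg * (4 * (N / (d * U)))) + 84 * (q2 * lg) := by
              have k1 : (M : ℝ) * L / (d ^ 2 * q2) ≤ lg * (2 * (N / (d ^ 2 * q2))) := by
                refine g1.trans ?_
                nlinarith
              have k2 : lg * ((L : ℝ) / d) ≤ lg * (4 * (N / (d * U))) := mul_le_mul_of_nonneg_left g2 (by linarith)
              have k3 : (M : ℝ) / d ≤ lg * (4 * (N / (d * U))) := by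
                refine g3.trans ?_
                nlinarith
              linarith
          _ ≤ _ := by
              have k1 : 0 ≤ lg * ((N : ℝ) / (d ^ 2 * q2)) := by positivity
              have k2 : 0 ≤ lg * (q2 : ℝ) := by positivity
              nlinarith
      calc (∑ m ∈ Ioc M (2 * M), ‖a m‖ ^ 2) * ((∑ l ∈ Ioc L (2 * L), ‖b l‖ ^ 2) *
            ((((L : ℝ) / d + 1) / q2 + 1) * (39 * ((M : ℝ) / d + 1) + 3 * q2 * lg)))
          ≤ (A₂ * M) * ((B₂ * L) * (lg * (480 * ((N : ℝ) / (d ^ 2 * q2) + N / (d * U) + q2)))) := by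
            apply mul_le_mul hA _ (by positivity) (by positivity)
            exact mul_le_mul hB f4 (by positivity) (by positivity)
        _ = A₂ * B₂ * ((M * L) * (lg * (480 * ((N : ℝ) / (d ^ 2 * q2) + N / (d * U) + q2)))) := by ring
        _ ≤ A₂ * B₂ * ((2 * N) * (lg * (480 * ((N : ℝ) / (d ^ 2 * q2) + N / (d * U) + q2)))) := by
            apply mul_le_mul_of_nonneg_left _ (by positivity)
            apply mul_le_mul_of_nonneg_right hMLr (by positivity)
        _ = _ := by ring)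
  rw [← hN1]
  refine key.trans ?_
  apply add_le_add le_rfl
  have h9 := typeI_tau hq1 hcop1 hα1 N1 (U * U) (by rw [hN1]; exact Nat.le_add_left 1 _) hUU
  exact h9

/-- from dyadic blocks to initial segments -/
lemma dyad (F : ℕ → ℂ) (hF : ∀ n, ‖F n‖ ≤ 1) {Bk T0 : ℝ} (hB : 0 ≤ Bk) (n0 H : ℕ) (hn0 : 1 ≤ n0)
    (h0 : ∀ n ≤ n0, ‖∑ k ∈ Icc 1 n, F k‖ ≤ T0) (hb : ∀ N, n0 ≤ 2 * N → 1 ≤ N → N ≤ H → ‖∑ k ∈ Ioc N (2 * N), F k‖ ≤ Bk) :
    ∀ n ≤ H, ‖∑ k ∈ Icc 1 n, F k‖ ≤ (Nat.log 2 n : ℝ) * (Bk + 1) + T0 := by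
  have hT0 : 0 ≤ T0 := (norm_nonneg _).trans (h0 0 (Nat.zero_le _))
  intro n
  induction n using Nat.strong_induction_on with
  | _ n ih =>
    intro hn
    rcases le_or_gt n n0 with h | h
    · have := h0 n h
      have h2 : 0 ≤ (Nat.log 2 n : ℝ) * (Bk + 1) := by positivity
      linarith
    · have h1 : 1 < n := by omega
      obtain ⟨N, hN⟩ : ∃ N, N = n / 2 := ⟨_, rfl⟩
      have hN1 : 1 ≤ N := by omega
      have h2 := ih N (by omega) (by omega)
      have h3 := hb N (by omega) hN1 (by omega)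
      have hlog : Nat.log 2 n = Nat.log 2 N + 1 := by
        rw [hN, Nat.log_div_base]
        have : 1 ≤ Nat.log 2 n := Nat.log_pos (by norm_num) h1
        omega
      have hsplit : ‖∑ k ∈ Icc 1 n, F k‖ ≤ ‖∑ k ∈ Icc 1 N, F k‖ + ‖∑ k ∈ Ioc N (2 * N), F k‖ + 1 := by
        have e1 : Icc 1 (2 * N) = Icc 1 N ∪ Ioc N (2 * N) := by
          ext x
          rw [mem_union, mem_Icc, mem_Icc, mem_Ioc]
          omega
        have e2 : ∑ k ∈ Icc 1 (2 * N), F k = ∑ k ∈ Icc 1 N, F k + ∑ k ∈ Ioc N (2 * N), F k := by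
          rw [e1, sum_union]
          rw [disjoint_left]
          intro x hx hx'
          rw [mem_Icc] at hx
          rw [mem_Ioc] at hx'
          omega
        rcases Nat.even_or_odd' n with ⟨t, ht | ht⟩
        · have : n = 2 * N := by omega
          rw [this, e2]
          have := norm_add_le (∑ k ∈ Icc 1 N, F k) (∑ k ∈ Ioc N (2 * N), F k)
          linarith
        · have e3 : n = 2 * N + 1 := by omega
          rw [e3, sum_Icc_succ_top (by omega), e2]
          have h4 := norm_add_le (∑ k ∈ Icc 1 N, F k + ∑ k ∈ Ioc N (2 * N), F k) (F (2 * N + 1))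
          have h5 := norm_add_le (∑ k ∈ Icc 1 N, F k) (∑ k ∈ Ioc N (2 * N), F k)
          have h6 := hF (2 * N + 1)
          linarith
      rw [hlog]
      push_cast
      nlinarith

end Pool.Agent.H530.Hx
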