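import Pool.Agent.H530.HxB

/-! The Moebius function with a linear phase over a residue class: minor arcs. -/

set_option autoImplicit false

namespace Pool.Agent.H530.Hx

open Finset Pool.Agent.H373R2.T7 Pool.Agent.H807R2.Dav

/-- the integer part of the root of order `16` -/
lemma root16 (x : ℕ) : ∃ u : ℕ, u ^ 16 ≤ x ∧ x < (u + 1) ^ 16 := by
  refine ⟨Nat.findGreatest (fun u => u ^ 16 ≤ x) x, ?_, ?_⟩
  · have := Nat.findGreatest_spec (P := fun u => u ^ 16 ≤ x) (Nat.zero_le x) (by simp)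
    exact this
  · by_contra hc
    rw [not_lt] at hc
    have h1 : Nat.findGreatest (fun u => u ^ 16 ≤ x) x + 1 ≤ x :=
      (Nat.le_self_pow (by norm_num) _).trans hc
    have := Nat.findGreatest_is_greatest (P := fun u => u ^ 16 ≤ x) (Nat.lt_succ_self _) h1
    exact this hc

lemma ev16 (k : ℕ) : ∃ x0 : ℕ, ∀ x u : ℕ, x0 ≤ x → x < (u + 1) ^ 16 → Real.log x ^ k ≤ u := by
  obtain ⟨x0, h0⟩ := ev_log' (16 * k) (2 ^ 16)
  obtain ⟨x1, h1⟩ := ev_L' 1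
  refine ⟨max (max x0 x1) 1, fun x u hx hu => ?_⟩
  have hx0 : x0 ≤ x := le_trans (le_trans (le_max_left _ _) (le_max_left _ _)) hx
  have hx1 : x1 ≤ x := le_trans (le_trans (le_max_right _ _) (le_max_left _ _)) hx
  have hx2 : 1 ≤ x := le_trans (le_max_right _ _) hx
  have hL := h1 x hx1
  have hA := h0 x hx0
  have hxr : (1 : ℝ) ≤ x := by exact_mod_cast hx2
  have h6 : √(x : ℝ) ≤ x := by
    rw [Real.sqrt_le_left (by positivity)]
    nlinarith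
  have h5 : (x : ℝ) ≤ ((u : ℝ) + 1) ^ 16 := by exact_mod_cast hu.le
  have h7 : (2 * Real.log x ^ k) ^ 16 ≤ ((u : ℝ) + 1) ^ 16 := by
    calc (2 * Real.log x ^ k) ^ 16 = 2 ^ 16 * Real.log x ^ (16 * k) := by rw [mul_pow, ← pow_mul]; ring_nf
      _ ≤ _ := hA.trans (h6.trans h5)
  have h8 : 2 * Real.log x ^ k ≤ (u : ℝ) + 1 := le_of_pow_le_pow_left₀ (by norm_num) (by positivity) h7
  have h9 : 1 ≤ Real.log x ^ k := one_le_pow₀ hL
  linarith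

/-- a good rational approximation -/
def Gd (θ : ℝ) (lo hi : ℝ) : Prop :=
  ∃ (q : ℕ) (c : ℤ), 1 ≤ q ∧ IsCoprime c (q : ℤ) ∧ |θ - c / q| ≤ 1 / (q : ℝ) ^ 2 ∧ lo ≤ q ∧ (q : ℝ) ≤ hi

lemma sq_one {A B : ℕ} (hB : B = 2 * (A + 6) + 1) {ℓ H d N U q2 : ℝ} (hℓ1 : 1 ≤ ℓ) (hd0 : 0 < d)
    (hN0 : 0 ≤ N) (hU0 : 0 < U) (hq20 : 0 < q2) (hNH : N ≤ H) (hlq2 : 1 + Real.log q2 ≤ 2 * ℓ) (hlq2' : 0 ≤ 1 + Real.log q2)
    (lo2 : ℓ ^ B ≤ q2) (hi2 : q2 ≤ H / (d ^ 2 * ℓ ^ B)) (hUd : d * ℓ ^ B ≤ U) :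
    Real.sqrt (960 * (1 + Real.log q2) * (N * (N / (d ^ 2 * q2) + N / (d * U) + q2))) ≤
        76 * ((H / d) / ℓ ^ (A + 6)) := by
  have hℓ0 : 0 < ℓ := by linarith
  have hH0 : 0 ≤ H := hN0.trans hNH
  obtain ⟨W, hW⟩ : ∃ W : ℝ, W = H / (d ^ 2 * ℓ ^ B) := ⟨_, rfl⟩
  have hW0 : 0 ≤ W := by rw [hW]; positivity
  have t1 : N / (d ^ 2 * q2) ≤ W := by
    rw [hW]
    apply div_le_div₀ hH0 hNH (by positivity)
    exact mul_le_mul_of_nonneg_left lo2 (by positivity)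
  have t2 : N / (d * U) ≤ W := by
    rw [hW]
    apply div_le_div₀ hH0 hNH (by positivity)
    calc d ^ 2 * ℓ ^ B = d * (d * ℓ ^ B) := by ring
      _ ≤ d * U := mul_le_mul_of_nonneg_left hUd hd0.le
  have t3 : q2 ≤ W := by rw [hW]; exact hi2
  rw [Real.sqrt_le_left (by positivity)]
  calc 960 * (1 + Real.log q2) * (N * (N / (d ^ 2 * q2) + N / (d * U) + q2)) ≤
        960 * (2 * ℓ) * (H * (W + W + W)) := by
        apply mul_le_mul _ _ (by positivity) (by positivity)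
        · linarith
        · apply mul_le_mul hNH _ (by positivity) (by positivity)
          linarith
    _ = 5760 * ((H / d) ^ 2 * (ℓ / ℓ ^ B)) := by
        rw [hW]
        field_simp
        ring
    _ = 5760 * ((H / d) ^ 2 * (1 / (ℓ ^ (A + 6)) ^ 2)) := by
        have : ℓ / ℓ ^ B = 1 / (ℓ ^ (A + 6)) ^ 2 := by
          rw [hB, ← pow_mul, mul_comm (A + 6) 2, pow_succ]
          field_simp
        rw [this]
    _ ≤ 5776 * ((H / d) ^ 2 * (1 / (ℓ ^ (A + 6)) ^ 2)) := by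
        have : 0 ≤ (H / d) ^ 2 * (1 / (ℓ ^ (A + 6)) ^ 2) := by positivity
        linarith
    _ = (76 * ((H / d) / ℓ ^ (A + 6))) ^ 2 := by
        ring

lemma sq_two {A B : ℕ} (hB : B = 2 * (A + 6) + 1) {ℓ H d N1 V q1 lU lV : ℝ} (hℓ1 : 1 ≤ ℓ) (hd0 : 0 < d) (hH0 : 0 ≤ H)
    (hq10 : 0 < q1) (hN10 : 0 ≤ N1) (hN1 : N1 ≤ 2 * (H / d)) (hV0 : 0 ≤ V) (hV : V ≤ H / (d * ℓ ^ B))
    (hlq1 : 1 + Real.log q1 ≤ 2 * ℓ) (hlq1' : 0 ≤ 1 + Real.log q1)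
    (lo1 : ℓ ^ B ≤ q1) (hi1 : q1 ≤ H / (d * ℓ ^ B)) (hlU0 : 0 ≤ lU) (hlU : lU ≤ 2 * ℓ) (hlV0 : 0 ≤ lV) (hlV : lV ≤ 2 * ℓ) :
    Real.sqrt (6 * N1 * lU ^ 4) * Real.sqrt (600 * lV * (N1 / q1 + V + q1) * (1 + Real.log q1)) ≤
        1358 * ((H / d) / ℓ ^ (A + 2)) := by
  have hℓ0 : 0 < ℓ := by linarith
  obtain ⟨W1, hW1⟩ : ∃ W1 : ℝ, W1 = H / (d * ℓ ^ B) := ⟨_, rfl⟩
  rw [← hW1] at hi1 hV
  have hW10 : 0 ≤ W1 := by rw [hW1]; positivity
  have t4 : N1 / q1 ≤ 2 * W1 := by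
    have e : 2 * W1 = (2 * (H / d)) / ℓ ^ B := by rw [hW1]; field_simp
    rw [e]
    exact div_le_div₀ (by positivity) hN1 (by positivity) lo1
  have hs1 : Real.sqrt (6 * N1 * lU ^ 4) ≤ Real.sqrt (192 * ((H / d) * ℓ ^ 4)) := by
    apply Real.sqrt_le_sqrt
    calc 6 * N1 * lU ^ 4 ≤ 6 * (2 * (H / d)) * (2 * ℓ) ^ 4 := by
          apply mul_le_mul _ _ (by positivity) (by positivity)
          · linarith
          · exact pow_le_pow_left₀ hlU0 hlU 4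
      _ = _ := by ring
  have hs2 : Real.sqrt (600 * lV * (N1 / q1 + V + q1) * (1 + Real.log q1)) ≤ Real.sqrt (9600 * (ℓ ^ 2 * W1)) := by
    apply Real.sqrt_le_sqrt
    calc _ ≤ 600 * (2 * ℓ) * (2 * W1 + W1 + W1) * (2 * ℓ) := by
          apply mul_le_mul _ hlq1 hlq1' (by positivity)
          apply mul_le_mul _ _ (by positivity) (by positivity)
          · linarith
          · linarith
      _ = _ := by ring
  refine (mul_le_mul hs1 hs2 (Real.sqrt_nonneg _) (Real.sqrt_nonneg _)).trans ?_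
  rw [← Real.sqrt_mul (by positivity), Real.sqrt_le_left (by positivity)]
  calc 192 * ((H / d) * ℓ ^ 4) * (9600 * (ℓ ^ 2 * W1)) = 1843200 * ((H / d) ^ 2 * (ℓ ^ 6 / ℓ ^ B)) := by
        rw [hW1]
        field_simp
        ring
    _ ≤ 1843200 * ((H / d) ^ 2 * (1 / (ℓ ^ (A + 2)) ^ 2)) := by
        apply mul_le_mul_of_nonneg_left _ (by norm_num)
        apply mul_le_mul_of_nonneg_left _ (by positivity)
        rw [div_le_div_iff₀ (by positivity) (by positivity), one_mul, ← pow_mul, ← pow_add]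
        exact pow_le_pow_right₀ hℓ1 (by omega)
    _ ≤ 1844164 * ((H / d) ^ 2 * (1 / (ℓ ^ (A + 2)) ^ 2)) := by
        have : 0 ≤ (H / d) ^ 2 * (1 / (ℓ ^ (A + 2)) ^ 2) := by positivity
        linarith
    _ = (1358 * ((H / d) / ℓ ^ (A + 2))) ^ 2 := by
        ring

/-- the parameters -/
structure Par (A B H d u : ℕ) (ℓ : ℝ) : Prop where
  hB : B = 2 * (A + 6) + 1
  hℓ : ℓ = Real.log H
  hl : 100000 ≤ ℓ
  hd : 1 ≤ d
  hdu : (d : ℝ) ≤ u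
  huB : ℓ ^ B ≤ u
  huA : ℓ ^ (A + 1) ≤ u
  hu16 : (u : ℝ) ^ 16 ≤ H

lemma Par.u1 {A B H d u : ℕ} {ℓ : ℝ} (h : Par A B H d u ℓ) : ℓ ≤ u := by
  refine le_trans ?_ h.huB
  have := h.hl
  have := h.hB
  exact le_self_pow₀ (by linarith) (by omega)

lemma Par.u4 {A B H d u : ℕ} {ℓ : ℝ} (h : Par A B H d u ℓ) : (u : ℝ) ^ 4 * 2 ≤ H / (d * ℓ ^ B) := by
  have hl := h.hl
  have hℓ0 : 0 < ℓ := by linarith
  have hd0 : (0 : ℝ) < d := by exact_mod_cast h.hd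
  have h1 := h.u1
  have hu1r : (1 : ℝ) ≤ u := by linarith
  rw [le_div_iff₀ (by positivity)]
  have h3 : d * ℓ ^ B ≤ (u : ℝ) ^ 2 := by
    rw [sq]
    exact mul_le_mul h.hdu h.huB (by positivity) (by positivity)
  have h4 : (2 : ℝ) ≤ u ^ 2 := by
    have h5 : (u : ℝ) ≤ u ^ 2 := le_self_pow₀ hu1r (by norm_num)
    linarith
  calc (u : ℝ) ^ 4 * 2 * (d * ℓ ^ B) ≤ (u : ℝ) ^ 4 * u ^ 2 * u ^ 2 := by
        apply mul_le_mul (mul_le_mul_of_nonneg_left h4 (by positivity)) h3 (by positivity) (by positivity)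
    _ = (u : ℝ) ^ 8 := by ring
    _ ≤ (u : ℝ) ^ 16 := pow_le_pow_right₀ hu1r (by norm_num)
    _ ≤ H := h.hu16

lemma Par.H1 {A B H d u : ℕ} {ℓ : ℝ} (h : Par A B H d u ℓ) : (1 : ℝ) ≤ H := by
  have h1 := h.u1
  have hl := h.hl
  have hu1r : (1 : ℝ) ≤ u := by linarith
  exact (one_le_pow₀ hu1r).trans h.hu16

/-- the block bound -/
lemma blk {A B H d u c : ℕ} {ℓ : ℝ} (hp : Par A B H d u ℓ) (hc : Nat.Coprime c d) {α : ℝ} {q1 q2 : ℕ} (hq1 : 1 ≤ q1)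
    (hq2 : 1 ≤ q2) {c1 c2 : ℤ} (hcop1 : IsCoprime c1 (q1 : ℤ)) (hcop2 : IsCoprime c2 (q2 : ℤ))
    (hα1 : |(d : ℝ) * α - c1 / q1| ≤ 1 / (q1 : ℝ) ^ 2) (hα2 : |(d : ℝ) ^ 2 * α - c2 / q2| ≤ 1 / (q2 : ℝ) ^ 2)
    (lo1 : ℓ ^ B ≤ q1) (hi1 : (q1 : ℝ) ≤ H / (d * ℓ ^ B)) (lo2 : ℓ ^ B ≤ q2) (hi2 : (q2 : ℝ) ≤ H / (d ^ 2 * ℓ ^ B))
    (N : ℕ) (hN1 : (u * u) * (u * u) ≤ N) (hN : 1 ≤ N) (hNH : N ≤ H) :
    ‖∑ n ∈ Ioc N (2 * N), (((ArithmeticFunction.moebius n : ℤ) : ℝ) : ℂ) * Ec d c α n‖ ≤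
      12000 * (((H : ℝ) / d) / ℓ ^ (A + 2)) := by
  have hl := hp.hl
  have hℓ0 : 0 < ℓ := by linarith
  have hℓ1 : 1 ≤ ℓ := by linarith
  have hd := hp.hd
  have hd0 : (0 : ℝ) < d := by exact_mod_cast hd
  have hd1 : (1 : ℝ) ≤ d := by exact_mod_cast hd
  have hH1 := hp.H1
  have hu1 := hp.u1
  have hu1r : (1 : ℝ) ≤ u := by linarith
  have hun : 1 ≤ u := by exact_mod_cast hu1r
  have hℓB1 : 1 ≤ ℓ ^ B := one_le_pow₀ hℓ1
  have hU1 : 1 ≤ u * u := Nat.mul_pos hun hun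
  have hUr : ((u * u : ℕ) : ℝ) = u ^ 2 := by push_cast; ring
  have hUU : ((u * u * (u * u) : ℕ) : ℝ) = u ^ 4 := by push_cast; ring
  have hUd : d * ℓ ^ B ≤ ((u * u : ℕ) : ℝ) := by
    rw [hUr, sq]
    exact mul_le_mul hp.hdu hp.huB (by positivity) (by positivity)
  have hu4 := hp.u4
  have hHd : (H : ℝ) / (d * ℓ ^ B) ≤ H / d := by
    apply div_le_div_of_nonneg_left (by positivity) hd0
    exact le_mul_of_one_le_right hd0.le hℓB1
  refine (block_cls hd hc hq1 hq2 hcop1 hcop2 hα1 hα2 N (u * u) hN hU1 hN1).trans ?_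
  have hNr : (1 : ℝ) ≤ N := by exact_mod_cast hN
  have hNHr : (N : ℝ) ≤ H := by exact_mod_cast hNH
  have hq1r : (1 : ℝ) ≤ q1 := by exact_mod_cast hq1
  have hq2r : (1 : ℝ) ≤ q2 := by exact_mod_cast hq2
  have hℓe := hp.hℓ
  have hlog4 : Real.log 4 ≤ 2 := by
    have h1 : Real.log 4 = 2 * Real.log 2 := by
      rw [show (4 : ℝ) = 2 ^ 2 by norm_num, Real.log_pow]; push_cast; ring
    have := Real.log_two_lt_d9
    linarith
  have hlN : 1 + Real.log (4 * N) ≤ 2 * ℓ := by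
    rw [Real.log_mul (by norm_num) (by linarith)]
    have := Real.log_le_log (by linarith) hNHr
    rw [← hℓe] at this
    linarith
  have hlN0 : 0 ≤ 1 + Real.log (4 * N) := by
    have := Real.log_nonneg (show (1 : ℝ) ≤ 4 * N by linarith)
    linarith
  have hq2H : (q2 : ℝ) ≤ H := by
    refine hi2.trans ?_
    rw [div_le_iff₀ (by positivity)]
    exact le_mul_of_one_le_right (by linarith) (one_le_mul_of_one_le_of_one_le (one_le_pow₀ hd1) hℓB1)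
  have hq1H : (q1 : ℝ) ≤ H := by
    refine hi1.trans ?_
    rw [div_le_iff₀ (by positivity)]
    exact le_mul_of_one_le_right (by linarith) (one_le_mul_of_one_le_of_one_le hd1 hℓB1)
  have hlq2 : 1 + Real.log q2 ≤ 2 * ℓ := by
    have := Real.log_le_log (by linarith) hq2H
    rw [← hℓe] at this
    linarith
  have hlq1 : 1 + Real.log q1 ≤ 2 * ℓ := by
    have := Real.log_le_log (by linarith) hq1H
    rw [← hℓe] at this
    linarith
  have hlq2' : 0 ≤ 1 + Real.log q2 := by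
    have := Real.log_nonneg hq2r
    linarith
  have hlq1' : 0 ≤ 1 + Real.log q1 := by
    have := Real.log_nonneg hq1r
    linarith
  have hsq1 := sq_one (N := N) (U := ((u * u : ℕ) : ℝ)) hp.hB hℓ1 hd0 (by linarith) (by rw [hUr]; positivity) (by linarith)
    hNHr hlq2 hlq2' lo2 hi2 hUd
  have hT1 : 8 * (1 + Real.log (4 * N)) ^ 4 * Real.sqrt (960 * (1 + Real.log q2) *
      (N * ((N : ℝ) / (d ^ 2 * q2) + N / (d * ((u * u : ℕ) : ℝ)) + q2))) ≤ 9728 * (((H : ℝ) / d) / ℓ ^ (A + 2)) := by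
    calc _ ≤ 8 * (2 * ℓ) ^ 4 * (76 * ((H / d) / ℓ ^ (A + 6))) := by
          apply mul_le_mul _ hsq1 (Real.sqrt_nonneg _) (by positivity)
          apply mul_le_mul_of_nonneg_left _ (by norm_num)
          exact pow_le_pow_left₀ hlN0 hlN 4
      _ = 9728 * ((H / d) / ℓ ^ (A + 2)) := by
          rw [show A + 6 = (A + 2) + 4 by ring, pow_add ℓ (A + 2) 4]
          field_simp
          ring
  have hu41 : (u : ℝ) ^ 4 + 1 ≤ H / d := by
    have : (1 : ℝ) ≤ u ^ 4 := one_le_pow₀ hu1r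
    linarith
  have hN1c : ((N / d + u * u * (u * u) + 1 : ℕ) : ℝ) ≤ 2 * (H / d) := by
    have h3 : ((N / d : ℕ) : ℝ) ≤ N / d := Nat.cast_div_le
    have h4 : (N : ℝ) / d ≤ H / d := div_le_div_of_nonneg_right hNHr hd0.le
    rw [Nat.cast_add, Nat.cast_add, hUU, Nat.cast_one]
    linarith
  have hVH : ((u * u * (u * u) : ℕ) : ℝ) ≤ H := by
    rw [hUU]
    exact (pow_le_pow_right₀ hu1r (by norm_num)).trans hp.hu16
  have hV1 : (1 : ℝ) ≤ ((u * u * (u * u) : ℕ) : ℝ) := by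
    rw [hUU]
    exact one_le_pow₀ hu1r
  have hlU : 1 + Real.log ((u * u * (u * u) : ℕ) : ℝ) ≤ 2 * ℓ := by
    have := Real.log_le_log (by linarith) hVH
    rw [← hℓe] at this
    linarith
  have hlU0 : 0 ≤ 1 + Real.log ((u * u * (u * u) : ℕ) : ℝ) := by
    have := Real.log_nonneg hV1
    linarith
  have hlogU : (Nat.log 2 (u * u * (u * u)) + 1 : ℝ) ≤ 2 * ℓ := by
    have h3 : (Nat.log 2 (u * u * (u * u)) : ℝ) * Real.log 2 ≤ ℓ := by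
      have h4 : (2 : ℝ) ^ Nat.log 2 (u * u * (u * u)) ≤ ((u * u * (u * u) : ℕ) : ℝ) := by
        exact_mod_cast Nat.pow_log_le_self 2 (by positivity)
      have h7 := Real.log_le_log (by positivity) (h4.trans hVH)
      rw [Real.log_pow, ← hℓe] at h7
      exact h7
    have h4 := Real.log_two_gt_d9
    have h5 : (0 : ℝ) ≤ Nat.log 2 (u * u * (u * u)) := Nat.cast_nonneg _
    have h6 : (Nat.log 2 (u * u * (u * u)) : ℝ) * (69 / 100) ≤ (Nat.log 2 (u * u * (u * u)) : ℝ) * Real.log 2 :=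
      mul_le_mul_of_nonneg_left (by linarith) h5
    linarith
  have hV : ((u * u * (u * u) : ℕ) : ℝ) ≤ H / (d * ℓ ^ B) := by
    rw [hUU]
    have : (0 : ℝ) ≤ u ^ 4 := by positivity
    linarith
  have hT2 := sq_two (N1 := ((N / d + u * u * (u * u) + 1 : ℕ) : ℝ)) (V := ((u * u * (u * u) : ℕ) : ℝ))
    (lU := 1 + Real.log ((u * u * (u * u) : ℕ) : ℝ)) (lV := (Nat.log 2 (u * u * (u * u)) + 1 : ℝ))
    hp.hB hℓ1 hd0 (by linarith) (by linarith) (Nat.cast_nonneg _) hN1c (Nat.cast_nonneg _) hV hlq1 hlq1' lo1 hi1 hlU0 hlU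
    (by positivity) hlogU
  have : 0 ≤ ((H : ℝ) / d) / ℓ ^ (A + 2) := by positivity
  linarith

/-- the final estimate -/
lemma fin_est {A B H d u : ℕ} {ℓ : ℝ} (hp : Par A B H d u ℓ) {L : ℝ} (hL0 : 0 ≤ L) (hL : L ≤ 2 * ℓ) :
    L * (12000 * (((H : ℝ) / d) / ℓ ^ (A + 2)) + 1) + 2 * u ^ 4 ≤ H / (d * ℓ ^ A) := by
  have hl := hp.hl
  have hℓ0 : 0 < ℓ := by linarith
  have hℓ1 : 1 ≤ ℓ := by linarith
  have hd := hp.hd
  have hd0 : (0 : ℝ) < d := by exact_mod_cast hd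
  have hu1 := hp.u1
  have hu1r : (1 : ℝ) ≤ u := by linarith
  obtain ⟨Z, hZ⟩ : ∃ Z : ℝ, Z = H / (d * ℓ ^ A) := ⟨_, rfl⟩
  rw [← hZ]
  have hZ0 : 0 ≤ Z := by rw [hZ]; positivity
  have e1 : ((H : ℝ) / d) / ℓ ^ (A + 2) = Z / ℓ ^ 2 := by
    rw [hZ, pow_add]
    field_simp
  rw [e1]
  have e2 : 2 * ℓ * (12000 * (Z / ℓ ^ 2)) ≤ Z / 2 := by
    have : 2 * ℓ * (12000 * (Z / ℓ ^ 2)) = 24000 / ℓ * Z := by
      field_simp
      ring
    rw [this]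
    have h4 : 24000 / ℓ ≤ 1 / 2 := by
      rw [div_le_div_iff₀ hℓ0 (by norm_num)]
      linarith
    have := mul_le_mul_of_nonneg_right h4 hZ0
    linarith
  have e3 : 2 * ℓ + 2 * (u : ℝ) ^ 4 ≤ Z / 2 := by
    rw [hZ, le_div_iff₀ (by norm_num), le_div_iff₀ (by positivity)]
    have h4 : ℓ ≤ (u : ℝ) ^ 4 := hu1.trans (le_self_pow₀ hu1r (by norm_num))
    have h6 : (d : ℝ) * ℓ ^ A ≤ u ^ 2 := by
      rw [sq]
      apply mul_le_mul hp.hdu _ (by positivity) (by positivity)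
      exact (pow_le_pow_right₀ hℓ1 (by omega)).trans hp.huA
    calc (2 * ℓ + 2 * (u : ℝ) ^ 4) * 2 * (d * ℓ ^ A) ≤ (8 * (u : ℝ) ^ 4) * (u ^ 2) := by
          apply mul_le_mul (by linarith) h6 (by positivity) (by positivity)
      _ ≤ (u * (u : ℝ) ^ 4) * (u ^ 2) := by
          apply mul_le_mul_of_nonneg_right _ (by positivity)
          exact mul_le_mul_of_nonneg_right (by linarith) (by positivity)
      _ = (u : ℝ) ^ 7 := by ring
      _ ≤ (u : ℝ) ^ 16 := pow_le_pow_right₀ hu1r (by norm_num)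
      _ ≤ H := hp.hu16
  have hb : 0 ≤ 12000 * (Z / ℓ ^ 2) + 1 := by positivity
  have e4 : L * (12000 * (Z / ℓ ^ 2) + 1) ≤ 2 * ℓ * (12000 * (Z / ℓ ^ 2) + 1) := mul_le_mul_of_nonneg_right hL hb
  have e5 : 2 * ℓ * (12000 * (Z / ℓ ^ 2) + 1) = 2 * ℓ * (12000 * (Z / ℓ ^ 2)) + 2 * ℓ := by ring
  linarith

theorem mu_cls (A : ℕ) : ∃ B H0 : ℕ, ∀ H : ℕ, H0 ≤ H → ∀ d c : ℕ, 1 ≤ d → d ^ 16 ≤ H → Nat.Coprime c d →
    ∀ α : ℝ, Gd (d * α) (Real.log H ^ B) (H / (d * Real.log H ^ B)) →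
      Gd ((d : ℝ) ^ 2 * α) (Real.log H ^ B) (H / (d ^ 2 * Real.log H ^ B)) → ∀ h ≤ H,
      ‖∑ n ∈ Icc 1 h, (((ArithmeticFunction.moebius n : ℤ) : ℝ) : ℂ) * Ec d c α n‖ ≤
        H / (d * Real.log H ^ A) := by
  obtain ⟨B, hB⟩ : ∃ B : ℕ, B = 2 * (A + 6) + 1 := ⟨_, rfl⟩
  obtain ⟨n1, h1⟩ := ev16 (B + A + 1)
  obtain ⟨n2, h2⟩ := ev_L' 100000
  refine ⟨B, max n1 n2 + 1, ?_⟩
  intro H hH d c hd hdH hc α hg1 hg2 h hh
  obtain ⟨q1, c1, hq1, hcop1, hα1, lo1, hi1⟩ := hg1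
  obtain ⟨q2, c2, hq2, hcop2, hα2, lo2, hi2⟩ := hg2
  have hn1 : n1 ≤ H := by have := le_max_left n1 n2; omega
  have hn2 : n2 ≤ H := by have := le_max_right n1 n2; omega
  obtain ⟨u, hu1, hu2⟩ := root16 H
  have hul := h1 H u hn1 hu2
  have hl := h2 H hn2
  obtain ⟨ℓ, hℓ⟩ : ∃ ℓ : ℝ, ℓ = Real.log H := ⟨_, rfl⟩
  rw [← hℓ] at hul hl lo1 hi1 lo2 hi2 ⊢
  have hℓ1 : 1 ≤ ℓ := by linarith
  have hdu : d ≤ u := by
    by_contra hcon
    have h3 : (u + 1) ^ 16 ≤ d ^ 16 := Nat.pow_le_pow_left (by omega) 16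
    omega
  have hp : Par A B H d u ℓ := ⟨hB, hℓ, hl, hd, by exact_mod_cast hdu, (pow_le_pow_right₀ hℓ1 (by omega)).trans hul,
    (pow_le_pow_right₀ hℓ1 (by omega)).trans hul, by exact_mod_cast hu1⟩
  have hu1r := hp.u1
  have hun : 1 ≤ u := by
    have : (1 : ℝ) ≤ u := by linarith
    exact_mod_cast this
  have hF : ∀ n, ‖(((ArithmeticFunction.moebius n : ℤ) : ℝ) : ℂ) * Ec d c α n‖ ≤ 1 := by
    intro n
    rw [norm_mul, Complex.norm_real, Real.norm_eq_abs]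
    have h3 : |((ArithmeticFunction.moebius n : ℤ) : ℝ)| ≤ 1 := by
      exact_mod_cast ArithmeticFunction.abs_moebius_le_one
    exact mul_le_one₀ h3 (norm_nonneg _) (Ec_norm _ _ _ _)
  have hV1 : 1 ≤ (u * u) * (u * u) := Nat.mul_pos (Nat.mul_pos hun hun) (Nat.mul_pos hun hun)
  have hℓ0 : 0 < ℓ := by linarith
  have hd0 : (0 : ℝ) < d := by exact_mod_cast hd
  have h3 := dyad (fun n => (((ArithmeticFunction.moebius n : ℤ) : ℝ) : ℂ) * Ec d c α n) hF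
    (Bk := 12000 * (((H : ℝ) / d) / ℓ ^ (A + 2))) (by positivity) (2 * ((u * u) * (u * u))) H
    (by omega) (T0 := 2 * u ^ 4) (by
      intro n hn
      refine (norm_sum_le _ _).trans ?_
      refine (sum_le_sum (fun k _ => hF k)).trans ?_
      rw [sum_const, Nat.card_Icc, nsmul_eq_mul, mul_one, Nat.add_sub_cancel]
      have h4 : (n : ℝ) ≤ ((2 * ((u * u) * (u * u)) : ℕ) : ℝ) := by exact_mod_cast hn
      refine h4.trans (le_of_eq ?_)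
      push_cast
      ring) (fun N hN1 hN hNH => blk hp hc hq1 hq2 hcop1 hcop2 hα1 hα2 lo1 hi1 lo2 hi2 N (by omega) hN hNH) h hh
  refine h3.trans ?_
  apply fin_est hp (Nat.cast_nonneg _)
  rcases Nat.eq_zero_or_pos h with h0 | h0
  · rw [h0]
    simp
    exact hℓ0.le
  · have h3 : (Nat.log 2 h : ℝ) * Real.log 2 ≤ ℓ := by
      have h4 : (2 : ℝ) ^ Nat.log 2 h ≤ (h : ℝ) := by
        exact_mod_cast Nat.pow_log_le_self 2 (by omega)
      have h5 : (h : ℝ) ≤ H := by exact_mod_cast hh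
      have h7 := Real.log_le_log (by positivity) (h4.trans h5)
      rw [Real.log_pow, ← hℓ] at h7
      exact h7
    have h4 := Real.log_two_gt_d9
    have h5 : (0 : ℝ) ≤ Nat.log 2 h := Nat.cast_nonneg _
    have h6 : (Nat.log 2 h : ℝ) * (69 / 100) ≤ (Nat.log 2 h : ℝ) * Real.log 2 :=
      mul_le_mul_of_nonneg_left (by linarith) h5
    linarith

end Pool.Agent.H530.Hx
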