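import Pool.Agent.H530.HxC
import Pool.Agent.H530.HuC

/-! Bombieri and Vinogradov with variable lengths, in the form which is used for the major arcs. -/

set_option autoImplicit false

namespace Pool.Agent.H530.Ha

open Finset Pool.Agent.H373R2.T7 Filter

/-- the largest sum over a coprime class and over all lengths -/
noncomputable def EM (h m : ℕ) : ℝ :=
  (range (h + 1)).sup' ⟨0, mem_range.2 (Nat.succ_pos _)⟩ (fun x => EE x m)

lemma EM_ge {x h m : ℕ} (hx : x ≤ h) : EE x m ≤ EM h m :=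
  Finset.le_sup' (s := range (h + 1)) (fun x => EE x m) (mem_range.2 (by omega))

lemma EM_nonneg (h m : ℕ) : 0 ≤ EM h m := (EE_nonneg 0 m).trans (EM_ge (Nat.zero_le h))

lemma EM_eq (h m : ℕ) : ∃ x ≤ h, EM h m = EE x m := by
  obtain ⟨x, hx, hr⟩ := Finset.exists_mem_eq_sup' (s := range (h + 1))
    ⟨0, mem_range.2 (Nat.succ_pos _)⟩ (fun x => EE x m)
  rw [mem_range] at hx
  exact ⟨x, by omega, hr⟩

lemma EM_le (h m : ℕ) (hm : 1 ≤ m) : EM h m ≤ h / m + 1 := by
  obtain ⟨x, hx, hr⟩ := EM_eq h m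
  rw [hr]
  refine (EE_le x m hm).trans ?_
  have : (x : ℝ) / m ≤ h / m := div_le_div_of_nonneg_right (by exact_mod_cast hx) (Nat.cast_nonneg _)
  linarith

/-- Bombieri and Vinogradov -/
theorem bvM (A : ℕ) : ∃ K X0 : ℕ, ∀ x : ℕ, X0 ≤ x → ∀ D : ℕ, (D : ℝ) ^ 2 * Real.log x ^ K ≤ x →
    ∑ m ∈ Icc 1 D, EM x m ≤ x / Real.log x ^ A := by
  obtain ⟨K, X0, H⟩ := Pool.Agent.N403.QG.t_BVL A
  refine ⟨K, X0, fun x hx D hD => ?_⟩
  choose t ht1 ht2 using fun m => EM_eq x m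
  choose r hr using fun m => EE_eq (t m) m
  have h1 := H x hx D hD (fun m => if Nat.Coprime (r m) m then r m else 1) t
    (fun m _ => by
      split_ifs with h
      · exact h
      · exact Nat.coprime_one_left _) ht1
  refine le_trans (sum_le_sum fun m hm => ?_) h1
  rw [ht2 m, hr m]
  by_cases h : Nat.Coprime (r m) m
  · rw [if_pos h, if_pos h]
    unfold SL la
    exact le_rfl
  · rw [if_neg h]
    exact abs_nonneg _

/-- the total error for one length -/
noncomputable def TM (h κ m D : ℕ) (P : Finset ℕ) : ℝ :=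
  ∑ U ∈ Sm P D, ∑ V ∈ Sm P D, (κ : ℝ) ^ V.card * EM (h / ∏ p ∈ U, p) (m * ∏ p ∈ V, p)

/-- the sum over one variable -/
lemma sumVM {P : Finset ℕ} {y D h m κ : ℕ} (hP : P ⊆ pz y) (hm : 1 ≤ m) (hDh : D ≤ h) :
    ∑ V ∈ Sm P D, (κ : ℝ) ^ V.card * EM h (m * ∏ p ∈ V, p) ≤
      √(2 * h * WW y (κ ^ 2)) * √(∑ d ∈ Icc 1 (m * D), EM h d) := by
  have hPp : ∀ p ∈ P, p.Prime := fun p hp => (mem_pz.1 (hP hp)).2
  calc ∑ V ∈ Sm P D, (κ : ℝ) ^ V.card * EM h (m * ∏ p ∈ V, p) =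
      ∑ V ∈ Sm P D, √((κ : ℝ) ^ (2 * V.card) * EM h (m * ∏ p ∈ V, p)) * √(EM h (m * ∏ p ∈ V, p)) := by
        apply sum_congr rfl
        intro V _
        have h0 := EM_nonneg h (m * ∏ p ∈ V, p)
        rw [mul_comm 2, pow_mul, Real.sqrt_mul (by positivity), Real.sqrt_sq (by positivity), mul_assoc,
          Real.mul_self_sqrt h0]
    _ ≤ √(∑ V ∈ Sm P D, (κ : ℝ) ^ (2 * V.card) * EM h (m * ∏ p ∈ V, p)) *
        √(∑ V ∈ Sm P D, EM h (m * ∏ p ∈ V, p)) :=
        Real.sum_sqrt_mul_sqrt_le _ (fun V => mul_nonneg (by positivity) (EM_nonneg _ _))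
          (fun V => EM_nonneg _ _)
    _ ≤ _ := by
        apply mul_le_mul _ _ (Real.sqrt_nonneg _) (Real.sqrt_nonneg _)
        · apply Real.sqrt_le_sqrt
          calc ∑ V ∈ Sm P D, (κ : ℝ) ^ (2 * V.card) * EM h (m * ∏ p ∈ V, p) ≤
              ∑ V ∈ Sm P D, 2 * h * (((κ ^ 2 : ℕ) : ℝ) ^ V.card / ((∏ p ∈ V, p : ℕ) : ℝ)) := by
                apply sum_le_sum
                intro V hV
                have hpos := Sm_pos hPp hV
                rw [Sm, mem_filter, mem_powerset] at hV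
                have hpr : (1 : ℝ) ≤ ((∏ p ∈ V, p : ℕ) : ℝ) := by exact_mod_cast hpos
                have hle : EM h (m * ∏ p ∈ V, p) ≤ 2 * h / ((∏ p ∈ V, p : ℕ) : ℝ) := by
                  refine (EM_le _ _ (Nat.mul_pos hm hpos)).trans ?_
                  have h1 : (h : ℝ) / ((m * ∏ p ∈ V, p : ℕ) : ℝ) ≤ h / ((∏ p ∈ V, p : ℕ) : ℝ) := by
                    apply div_le_div_of_nonneg_left (Nat.cast_nonneg _) (by linarith)
                    exact_mod_cast Nat.le_mul_of_pos_left _ hm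
                  have h2 : (1 : ℝ) ≤ h / ((∏ p ∈ V, p : ℕ) : ℝ) := by
                    rw [le_div_iff₀ (by linarith), one_mul]
                    exact_mod_cast hV.2.trans hDh
                  calc _ ≤ (h : ℝ) / ((∏ p ∈ V, p : ℕ) : ℝ) + h / ((∏ p ∈ V, p : ℕ) : ℝ) := add_le_add h1 h2
                    _ = _ := by ring
                calc (κ : ℝ) ^ (2 * V.card) * EM h (m * ∏ p ∈ V, p) ≤
                    (κ : ℝ) ^ (2 * V.card) * (2 * h / ((∏ p ∈ V, p : ℕ) : ℝ)) :=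
                      mul_le_mul_of_nonneg_left hle (by positivity)
                  _ = _ := by
                      rw [pow_mul]
                      push_cast
                      ring
            _ = 2 * h * ∑ V ∈ Sm P D, (((κ ^ 2 : ℕ) : ℝ) ^ V.card / ((∏ p ∈ V, p : ℕ) : ℝ)) := by rw [mul_sum]
            _ ≤ _ := mul_le_mul_of_nonneg_left (euler hP (κ ^ 2) D) (by positivity)
        · apply Real.sqrt_le_sqrt
          exact Sm_sum' hm hPp (fun d => EM h d) (fun d => EM_nonneg _ _)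

theorem TM_bound (κ B B' q : ℕ) : ∃ X0 y0 : ℕ, ∀ X : ℕ, X0 ≤ X → ∀ h m : ℕ,
    (h : ℝ) ≤ X * Real.log X ^ B' → 1 ≤ m → (m : ℝ) ≤ q * Real.log X ^ B' →
    ∀ y D : ℕ, y0 ≤ y → y ≤ X → 1 ≤ D → D ^ 8 ≤ X → ∀ P : Finset ℕ, P ⊆ pz y → (∀ p ∈ P, κ ≤ p) →
    TM h κ m D P ≤ X / Real.log X ^ B := by
  obtain ⟨C, y0, hW⟩ := WW_le
  obtain ⟨E, hE⟩ : ∃ E : ℕ, E = C + B + B' + 1 := ⟨_, rfl⟩
  obtain ⟨A, hA⟩ : ∃ A : ℕ, A = C * κ ^ 2 + 2 * E := ⟨_, rfl⟩
  obtain ⟨K, X1, hbv⟩ := bvM A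
  obtain ⟨h1, hh1⟩ := ev_log' (2 * B' + K) ((q : ℝ) ^ 2 * 4 ^ (2 * B'))
  obtain ⟨X2, hX2⟩ := ev_log' (8 * B) (4 ^ 8)
  obtain ⟨c, hc⟩ : ∃ c : ℝ, c = √(2 * 4 ^ A) := ⟨_, rfl⟩
  have hc0 : 0 ≤ c := by rw [hc]; exact Real.sqrt_nonneg _
  obtain ⟨X3, hX3⟩ := ev_L' (max 4 (2 * c))
  refine ⟨max (max ((max X1 h1) ^ 2 + 1) X2) (max X3 16), y0, ?_⟩
  intro X hX h m hh hm1 hm y D hy hyX hD1 hD P hP hκ
  have a1 : (max X1 h1) ^ 2 + 1 ≤ X := (le_max_left _ _).trans ((le_max_left _ _).trans hX)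
  have a2 : X2 ≤ X := (le_max_right _ _).trans ((le_max_left _ _).trans hX)
  have a3 : X3 ≤ X := (le_max_left _ _).trans ((le_max_right _ _).trans hX)
  have a4 : 16 ≤ X := (le_max_right _ _).trans ((le_max_right _ _).trans hX)
  obtain ⟨L, hL⟩ : ∃ L : ℝ, L = Real.log X := ⟨_, rfl⟩
  have hLX := hX3 X a3
  rw [← hL] at hLX hh hm
  have hL4 : 4 ≤ L := (le_max_left _ _).trans hLX
  have hLc : 2 * c ≤ L := (le_max_right _ _).trans hLX
  have hL0 : 0 < L := by linarith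
  have hX0 : (0 : ℝ) < X := by exact_mod_cast (by omega : 0 < X)
  obtain ⟨s, hs⟩ : ∃ s : ℕ, s = Nat.sqrt X := ⟨_, rfl⟩
  have hs2 : s * s ≤ X := by rw [hs]; exact Nat.sqrt_le X
  have hs3 : X < (s + 1) * (s + 1) := by rw [hs]; exact Nat.lt_succ_sqrt X
  have hs4 : 4 ≤ s := by
    rw [hs, Nat.le_sqrt]
    omega
  have hD4 : D ^ 4 ≤ s := by
    rw [hs, Nat.le_sqrt, ← pow_add]
    exact hD
  have hDs : D ≤ s := (Nat.le_self_pow (by norm_num) D).trans hD4
  have hXs : X ≤ s ^ 4 := by nlinarith [Nat.mul_le_mul hs4 hs4, sq_nonneg (s - 1)]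
  have hsM : max X1 h1 ≤ s := by
    rw [hs, Nat.le_sqrt']
    omega
  have hlogs : L / 4 ≤ Real.log s := by
    have h2 : Real.log X ≤ Real.log ((s : ℝ) ^ 4) := Real.log_le_log hX0 (by exact_mod_cast hXs)
    rw [Real.log_pow] at h2
    push_cast at h2
    rw [hL]
    linarith
  have hPp : ∀ p ∈ P, p.Prime := fun p hp => (mem_pz.1 (hP hp)).2
  have hcard : ((Sm P D).card : ℝ) ≤ D := by exact_mod_cast Sm_card hPp
  have hWy : ∀ κ : ℕ, WW y κ ≤ L ^ (C * κ) := by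
    intro κ
    refine (hW y hy κ).trans ?_
    have hy0 : (0 : ℝ) < y ∨ y = 0 := by
      rcases Nat.eq_zero_or_pos y with h | h
      · exact Or.inr h
      · left; exact_mod_cast h
    apply pow_le_pow_left₀ (Real.log_natCast_nonneg _)
    rcases hy0 with h | h
    · rw [hL]
      exact Real.log_le_log h (by exact_mod_cast hyX)
    · rw [h, Nat.cast_zero, Real.log_zero]
      exact hL0.le
  -- one term
  have hterm : ∀ U ∈ Sm P D, ∑ V ∈ Sm P D, (κ : ℝ) ^ V.card * EM (h / ∏ p ∈ U, p) (m * ∏ p ∈ V, p) ≤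
        (h : ℝ) * (c / L ^ E) * (((1 : ℕ) : ℝ) ^ U.card / ((∏ p ∈ U, p : ℕ) : ℝ)) + (D : ℝ) ^ 2 * (2 * s) := by
    intro U hU
    have hpos := Sm_pos hPp hU
    obtain ⟨h', hh'⟩ : ∃ h' : ℕ, h' = h / ∏ p ∈ U, p := ⟨_, rfl⟩
    rw [← hh']
    by_cases hsh : s ≤ h'
    · have hh0 : (0 : ℝ) < h' := by exact_mod_cast (by omega : 0 < h')
      have b1 : X1 ≤ h' := (le_max_left _ _).trans (hsM.trans hsh)
      have b2 : h1 ≤ h' := (le_max_right _ _).trans (hsM.trans hsh)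
      have hlogh : L / 4 ≤ Real.log h' := hlogs.trans (Real.log_le_log
        (by exact_mod_cast (by omega : 0 < s)) (by exact_mod_cast hsh))
      have hlogh0 : 0 < Real.log h' := by linarith
      have hcond : (((m * D : ℕ) : ℝ)) ^ 2 * Real.log h' ^ K ≤ h' := by
        have c1 := hh1 h' b2
        have c0 : (m : ℝ) ^ 2 ≤ (q : ℝ) ^ 2 * 4 ^ (2 * B') * Real.log h' ^ (2 * B') := by
          calc (m : ℝ) ^ 2 ≤ (q * L ^ B') ^ 2 := pow_le_pow_left₀ (Nat.cast_nonneg _) hm 2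
            _ ≤ (q * (4 * Real.log h') ^ B') ^ 2 := by
                apply pow_le_pow_left₀ (by positivity)
                apply mul_le_mul_of_nonneg_left _ (Nat.cast_nonneg _)
                exact pow_le_pow_left₀ hL0.le (by linarith) _
            _ = _ := by
                rw [mul_pow, mul_pow, mul_pow, ← pow_mul, ← pow_mul, mul_comm B' 2]
                ring
        have c2 : (D : ℝ) ^ 2 ≤ √(h' : ℝ) := by
          apply Real.le_sqrt_of_sq_le
          have : (D : ℝ) ^ 4 ≤ h' := by exact_mod_cast hD4.trans hsh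
          calc ((D : ℝ) ^ 2) ^ 2 = (D : ℝ) ^ 4 := by ring
            _ ≤ _ := this
        have c3 : √(h' : ℝ) * √(h' : ℝ) = h' := Real.mul_self_sqrt hh0.le
        calc (((m * D : ℕ) : ℝ)) ^ 2 * Real.log h' ^ K =
            ((m : ℝ) ^ 2 * Real.log h' ^ K) * (D : ℝ) ^ 2 := by push_cast; ring
          _ ≤ ((q : ℝ) ^ 2 * 4 ^ (2 * B') * Real.log h' ^ (2 * B') * Real.log h' ^ K) * (D : ℝ) ^ 2 := by
              apply mul_le_mul_of_nonneg_right _ (by positivity)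
              exact mul_le_mul_of_nonneg_right c0 (by positivity)
          _ = ((q : ℝ) ^ 2 * 4 ^ (2 * B') * Real.log h' ^ (2 * B' + K)) * (D : ℝ) ^ 2 := by
              rw [pow_add]
              ring
          _ ≤ √(h' : ℝ) * √(h' : ℝ) := mul_le_mul c1 c2 (by positivity) (Real.sqrt_nonneg _)
          _ = h' := c3
      have d1 := hbv h' b1 (m * D) hcond
      have hlog : (L / 4) ^ A ≤ Real.log h' ^ A := pow_le_pow_left₀ (by positivity) hlogh A
      have hLA : 0 < (L / 4) ^ A := by positivity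
      have d2 : ∑ d ∈ Icc 1 (m * D), EM h' d ≤ h' * (4 ^ A / L ^ A) := by
        refine d1.trans ?_
        calc (h' : ℝ) / Real.log h' ^ A ≤ h' / (L / 4) ^ A := div_le_div_of_nonneg_left hh0.le hLA hlog
          _ = h' * (4 ^ A / L ^ A) := by
              rw [div_pow]
              field_simp
      have hWn : 0 ≤ WW y (κ ^ 2) := by
        unfold WW
        have := (Vz_pos y).le
        positivity
      have d3 : √(2 * (h' : ℝ) * WW y (κ ^ 2)) * √(∑ d ∈ Icc 1 (m * D), EM h' d) ≤ h' * (c / L ^ E) := by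
        rw [← Real.sqrt_mul (by positivity)]
        apply Real.sqrt_le_iff.2
        constructor
        · positivity
        · have hSn : 0 ≤ ∑ d ∈ Icc 1 (m * D), EM h' d := sum_nonneg fun d _ => EM_nonneg _ _
          calc 2 * (h' : ℝ) * WW y (κ ^ 2) * ∑ d ∈ Icc 1 (m * D), EM h' d ≤
              2 * h' * L ^ (C * κ ^ 2) * (h' * (4 ^ A / L ^ A)) := by
                apply mul_le_mul _ d2 hSn (by positivity)
                exact mul_le_mul_of_nonneg_left (hWy (κ ^ 2)) (by positivity)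
            _ = (h' * (c / L ^ E)) ^ 2 := by
                have e1 : c ^ 2 = 2 * 4 ^ A := by
                  rw [hc]
                  exact Real.sq_sqrt (by positivity)
                have e2 : L ^ A = L ^ (C * κ ^ 2) * (L ^ E) ^ 2 := by
                  rw [hA, pow_add, ← pow_mul, mul_comm E 2]
                rw [mul_pow, div_pow, e1, e2]
                field_simp
      have d5 := sumVM (κ := κ) hP hm1 (hDs.trans hsh)
      have d4 : (h' : ℝ) ≤ (h : ℝ) / ((∏ p ∈ U, p : ℕ) : ℝ) := by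
        rw [hh']
        exact Nat.cast_div_le
      have d6 : (0 : ℝ) ≤ (D : ℝ) ^ 2 * (2 * s) := by positivity
      calc ∑ V ∈ Sm P D, (κ : ℝ) ^ V.card * EM h' (m * ∏ p ∈ V, p) ≤ h' * (c / L ^ E) := d5.trans d3
        _ ≤ (h : ℝ) / ((∏ p ∈ U, p : ℕ) : ℝ) * (c / L ^ E) :=
            mul_le_mul_of_nonneg_right d4 (by positivity)
        _ = (h : ℝ) * (c / L ^ E) * (((1 : ℕ) : ℝ) ^ U.card / ((∏ p ∈ U, p : ℕ) : ℝ)) := by
            rw [Nat.cast_one, one_pow]
            ring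
        _ ≤ _ := by linarith
    · push Not at hsh
      have d6 : (0 : ℝ) ≤ (h : ℝ) * (c / L ^ E) * (((1 : ℕ) : ℝ) ^ U.card / ((∏ p ∈ U, p : ℕ) : ℝ)) := by positivity
      have d7 : ∀ V ∈ Sm P D, (κ : ℝ) ^ V.card * EM h' (m * ∏ p ∈ V, p) ≤ D * (2 * s) := by
        intro V hV
        have hposV := Sm_pos hPp hV
        have h2 : EM h' (m * ∏ p ∈ V, p) ≤ 2 * s := by
          refine (EM_le _ _ (Nat.mul_pos hm1 hposV)).trans ?_
          have h3 : (h' : ℝ) / ((m * ∏ p ∈ V, p : ℕ) : ℝ) ≤ h' := by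
            apply div_le_self (Nat.cast_nonneg _)
            exact_mod_cast Nat.mul_pos hm1 hposV
          have h4 : (h' : ℝ) + 1 ≤ s := by exact_mod_cast hsh
          have h5 : (0 : ℝ) ≤ s := Nat.cast_nonneg _
          linarith
        exact mul_le_mul (card_pow_le hκ hV) h2 (EM_nonneg _ _) (Nat.cast_nonneg _)
      calc ∑ V ∈ Sm P D, (κ : ℝ) ^ V.card * EM h' (m * ∏ p ∈ V, p) ≤ ∑ V ∈ Sm P D, (D : ℝ) * (2 * s) :=
            sum_le_sum d7
        _ = (Sm P D).card * ((D : ℝ) * (2 * s)) := by rw [sum_const, nsmul_eq_mul]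
        _ ≤ D * ((D : ℝ) * (2 * s)) := mul_le_mul_of_nonneg_right hcard (by positivity)
        _ = (D : ℝ) ^ 2 * (2 * s) := by ring
        _ ≤ _ := by linarith
  have hsum : TM h κ m D P ≤ (h : ℝ) * (c / L ^ E) * L ^ C + D * ((D : ℝ) ^ 2 * (2 * s)) := by
    unfold TM
    refine (sum_le_sum hterm).trans ?_
    rw [sum_add_distrib, ← mul_sum, sum_const, nsmul_eq_mul]
    apply add_le_add
    · apply mul_le_mul_of_nonneg_left _ (by positivity)
      refine (euler hP 1 D).trans ?_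
      have := hWy 1
      rwa [mul_one] at this
    · exact mul_le_mul_of_nonneg_right hcard (by positivity)
  have hfin1 : (h : ℝ) * (c / L ^ E) * L ^ C ≤ (1 / 2) * (X / L ^ B) := by
    have e2 : L ^ E = L ^ C * L ^ B * L ^ B' * L := by
      rw [hE, pow_add, pow_add, pow_add, pow_one]
    calc (h : ℝ) * (c / L ^ E) * L ^ C ≤ (X * L ^ B') * (c / L ^ E) * L ^ C := by
          apply mul_le_mul_of_nonneg_right _ (by positivity)
          exact mul_le_mul_of_nonneg_right hh (by positivity)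
      _ = (1 / 2) * (X / L ^ B) * ((2 * c) / L) := by
          rw [e2]
          field_simp
      _ ≤ (1 / 2) * (X / L ^ B) * 1 := by
          apply mul_le_mul_of_nonneg_left _ (by positivity)
          rw [div_le_one hL0]
          exact hLc
      _ = _ := mul_one _
  have hfin2 : D * ((D : ℝ) ^ 2 * (2 * s)) ≤ (1 / 2) * (X / L ^ B) := by
    have hDr : (1 : ℝ) ≤ D := by exact_mod_cast hD1
    have hsr : (s : ℝ) * s ≤ X := by exact_mod_cast hs2
    have hs0 : (0 : ℝ) ≤ s := Nat.cast_nonneg _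
    -- 4 L^B D^3 ≤ s is enough
    have e4 := hX2 X a2
    rw [← hL] at e4
    have e6 : 0 < L ^ B := by positivity
    -- (4 L^B)^8 ≤ √X ≤ X^(1/2), so that 4 L^B D^3 s ≤ X
    have e7 : (4 * L ^ B) ^ 8 ≤ √(X : ℝ) := by
      calc (4 * L ^ B) ^ 8 = 4 ^ 8 * L ^ (8 * B) := by
            rw [mul_pow, ← pow_mul, mul_comm B 8]
        _ ≤ _ := e4
    have e8 : √(X : ℝ) * √(X : ℝ) = X := Real.mul_self_sqrt hX0.le
    have hsq : (s : ℝ) ≤ √(X : ℝ) := Real.le_sqrt_of_sq_le (by rw [sq]; exact hsr)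
    have e9 : 4 * L ^ B * (D : ℝ) ^ 3 ≤ √(X : ℝ) := by
      have f1 : (4 * L ^ B * (D : ℝ) ^ 3) ^ 8 ≤ (√(X : ℝ)) ^ 8 := by
        have f2 : (D : ℝ) ^ 8 ≤ X := by exact_mod_cast hD
        calc (4 * L ^ B * (D : ℝ) ^ 3) ^ 8 = (4 * L ^ B) ^ 8 * ((D : ℝ) ^ 8) ^ 3 := by ring
          _ ≤ √(X : ℝ) * (X : ℝ) ^ 3 := by
              apply mul_le_mul e7 (pow_le_pow_left₀ (by positivity) f2 3) (by positivity) (Real.sqrt_nonneg _)
          _ ≤ (√(X : ℝ)) ^ 8 := by
              have f3 : (1 : ℝ) ≤ √(X : ℝ) := by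
                rw [Real.one_le_sqrt]
                exact_mod_cast (by omega : 1 ≤ X)
              have f4 : (X : ℝ) ^ 3 = (√(X : ℝ)) ^ 6 := by
                rw [show (√(X : ℝ)) ^ 6 = ((√(X : ℝ)) ^ 2) ^ 3 by ring, Real.sq_sqrt hX0.le]
              rw [f4]
              calc √(X : ℝ) * (√(X : ℝ)) ^ 6 = (√(X : ℝ)) ^ 7 := by ring
                _ ≤ (√(X : ℝ)) ^ 8 := pow_le_pow_right₀ f3 (by norm_num)
      exact le_of_pow_le_pow_left₀ (by norm_num) (Real.sqrt_nonneg _) f1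
    rw [← mul_div_assoc, le_div_iff₀ e6]
    calc D * ((D : ℝ) ^ 2 * (2 * s)) * L ^ B = (1 / 2) * ((4 * L ^ B * (D : ℝ) ^ 3) * s) := by ring
      _ ≤ (1 / 2) * (√(X : ℝ) * √(X : ℝ)) := by
          apply mul_le_mul_of_nonneg_left _ (by norm_num)
          exact mul_le_mul e9 hsq hs0 (Real.sqrt_nonneg _)
      _ = _ := by rw [e8]
  rw [← hL]
  calc TM h κ m D P ≤ _ := hsum
    _ ≤ (1 / 2) * (X / L ^ B) + (1 / 2) * (X / L ^ B) := add_le_add hfin1 hfin2
    _ = X / L ^ B := by ring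

end Pool.Agent.H530.Ha
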