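import Pool.Agent.H530.HyB

/-! The Möbius function at any primitive linear form on a sifted set. -/

set_option autoImplicit false

namespace Pool.Agent.H530.Ha

open Finset Pool.Agent.H373R2.T7 Filter

lemma inv_sq_tail (m n : ℕ) (hm : 1 ≤ m) : ∑ i ∈ Ioc m n, 1 / ((i : ℝ) ^ 2) ≤ 1 / (m : ℝ) := by
  have hm0 : (0 : ℝ) < m := by exact_mod_cast hm
  by_cases h : m ≤ n
  · have h1 := sum_Ioc_inv_sq_le_sub (α := ℝ) (show m ≠ 0 by omega) h
    have h2 : (0 : ℝ) ≤ (n : ℝ)⁻¹ := by positivity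
    simp only [one_div]
    linarith
  · rw [Ioc_eq_empty (by omega), sum_empty]
    positivity

open Classical in
/-- the points with a large square factor -/
theorem sq_tail (k : ℕ) (hk : 1 ≤ k) : ∃ K : ℕ, 1 ≤ K ∧ ∀ B' : ℕ, ∃ X0 y0 : ℕ, ∀ Q : ℕ → ℕ → Prop, Sv k Q →
    ∀ X y : ℕ, X0 ≤ X → y0 ≤ y → y ^ K ≤ X → ∀ w : ℕ, 2 * k ≤ w → 1 ≤ w →
      ∀ (a : ℕ) (b : ℤ), 1 ≤ a → (∀ p : ℕ, p.Prime → p ∣ a → ¬ (p : ℤ) ∣ b) →
      (a : ℝ) ≤ Real.log X ^ B' → |(b : ℝ)| ≤ X * Real.log X ^ B' →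
      (((RQ Q X y).filter (fun n : ℕ => ∃ p : ℕ, p.Prime ∧ w < p ∧ ((p ^ 2 : ℕ) : ℤ) ∣ a * n + b ∧ (a : ℤ) * n + b ≠ 0)).card : ℝ) ≤
        6 / w * (RQ Q X y).card + X / Real.log X ^ (k + 1) := by
  obtain ⟨K, hK, X0, y0, H0⟩ := sq_small k hk
  refine ⟨K, hK, fun B' => ?_⟩
  obtain ⟨X1, hX1⟩ := ev_log' (k + 1 + B') 4
  obtain ⟨X2, hX2⟩ := ev_L' 2
  refine ⟨X0 + X1 + X2 + 1, y0, ?_⟩
  intro Q hQ X y hX hy hyX w hwk hw a b ha hnb haX hbX
  obtain ⟨L, hL⟩ : ∃ L : ℝ, L = Real.log X := ⟨_, rfl⟩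
  have hlog := hX1 X (by omega)
  have hL2 := hX2 X (by omega)
  have H1 := H0 Q hQ X y (by omega) hy hyX a b
  rw [← hL] at hlog hL2 haX hbX H1 ⊢
  have hXr : (1 : ℝ) ≤ X := by exact_mod_cast (by omega : 1 ≤ X)
  have hL1 : 1 ≤ L := by linarith
  have hs0 : 0 ≤ √(X : ℝ) := Real.sqrt_nonneg _
  have hss : √(X : ℝ) * √(X : ℝ) = X := Real.mul_self_sqrt (by linarith)
  -- the range of the primes
  obtain ⟨Y, hY⟩ : ∃ Y : ℕ, Y = ⌊√(2 * X * L ^ B')⌋₊ := ⟨_, rfl⟩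
  obtain ⟨P, hP⟩ : ∃ P : ℕ, P = ⌈L ^ (k + 2)⌉₊ := ⟨_, rfl⟩
  have hLk : (1 : ℝ) ≤ L ^ (k + 2) := one_le_pow₀ hL1
  have hP1 : L ^ (k + 2) ≤ P := by rw [hP]; exact Nat.le_ceil _
  have hP2 : (P : ℝ) ≤ 2 * L ^ (k + 2) := by
    have := (Nat.ceil_lt_add_one (show 0 ≤ L ^ (k + 2) by positivity)).le
    rw [← hP] at this
    linarith
  have hPpos : 1 ≤ P := by
    have : (1 : ℝ) ≤ P := hLk.trans hP1
    exact_mod_cast this
  obtain ⟨D, hD⟩ : ∃ D : ℕ → Finset ℕ, D = fun p => (RQ Q X y).filter (fun n : ℕ => ((p ^ 2 : ℕ) : ℤ) ∣ a * n + b) := ⟨_, rfl⟩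
  have hsub : (RQ Q X y).filter (fun n : ℕ => ∃ p : ℕ, p.Prime ∧ w < p ∧ ((p ^ 2 : ℕ) : ℤ) ∣ a * n + b ∧ (a : ℤ) * n + b ≠ 0) ⊆
      ((Ioc w Y).filter Nat.Prime).biUnion D := by
    intro n hn
    rw [mem_filter] at hn
    obtain ⟨hnR, p, hp, hwp, hd, hne⟩ := hn
    have hnX : n ≤ X := by
      unfold RQ at hnR
      exact (mem_Icc.1 (mem_filter.1 hnR).1).2
    rw [mem_biUnion]
    refine ⟨p, ?_, ?_⟩
    · rw [mem_filter, mem_Ioc]
      refine ⟨⟨hwp, ?_⟩, hp⟩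
      rw [hY]
      apply Nat.le_floor
      apply Real.le_sqrt_of_sq_le
      have h1 := Int.le_of_dvd (abs_pos.2 hne) ((dvd_abs _ _).2 hd)
      have h2 : ((p ^ 2 : ℕ) : ℝ) ≤ |(a : ℝ) * n + b| := by exact_mod_cast h1
      push_cast at h2
      have h3 : |(a : ℝ) * n + b| ≤ a * n + |(b : ℝ)| := by
        refine (abs_add_le _ _).trans ?_
        rw [abs_of_nonneg (by positivity : (0 : ℝ) ≤ a * n)]
      have h4 : (a : ℝ) * n ≤ L ^ B' * X := by
        apply mul_le_mul haX (by exact_mod_cast hnX) (Nat.cast_nonneg _) (by positivity)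
      linarith
    · rw [hD]
      dsimp only
      rw [mem_filter]
      exact ⟨hnR, hd⟩
  obtain ⟨G, hG⟩ : ∃ G : ℝ, G = ((RQ Q X y).card : ℝ) := ⟨_, rfl⟩
  have hG0 : 0 ≤ G := by rw [hG]; exact Nat.cast_nonneg _
  rw [← hG] at H1 ⊢
  -- one prime
  have hone : ∀ p ∈ (Ioc w Y).filter Nat.Prime, ((D p).card : ℝ) ≤
      6 * G * (1 / (p : ℝ) ^ 2) + (if P < p then (X : ℝ) * (1 / (p : ℝ) ^ 2) else 0) + 1 := by
    intro p hp
    rw [mem_filter, mem_Ioc] at hp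
    obtain ⟨⟨h1, h2⟩, hpp⟩ := hp
    have hp0 : (0 : ℝ) < (p : ℝ) ^ 2 := by
      have : (0 : ℝ) < p := by exact_mod_cast hpp.pos
      positivity
    have hif : (0 : ℝ) ≤ (if P < p then (X : ℝ) * (1 / (p : ℝ) ^ 2) else 0) := by
      split_ifs
      · positivity
      · exact le_rfl
    by_cases hpa : p ∣ a
    · have hD0 : D p = ∅ := by
        rw [hD]
        dsimp only
        rw [filter_eq_empty_iff]
        intro n _ hd
        apply hnb p hpp hpa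
        have h3 : (p : ℤ) ∣ ((p ^ 2 : ℕ) : ℤ) := Int.natCast_dvd_natCast.2 (dvd_pow_self p two_ne_zero)
        have h4 : (p : ℤ) ∣ a * n := (Int.natCast_dvd_natCast.2 hpa).mul_right _
        exact (dvd_add_right h4).1 (h3.trans hd)
      rw [hD0]
      simp only [card_empty, Nat.cast_zero]
      positivity
    · by_cases hpP : P < p
      · rw [if_pos hpP]
        obtain ⟨c, hc, hcl⟩ := one_class b hpp hpa
        have h3 : D p ⊆ (Icc 1 X).filter (fun n => n ≡ c [MOD p ^ 2]) := by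
          intro n hn
          rw [hD] at hn
          dsimp only at hn
          rw [mem_filter] at hn
          rw [mem_filter]
          refine ⟨?_, (hcl n).1 hn.2⟩
          have := hn.1
          unfold RQ at this
          exact (mem_filter.1 this).1
        have h4 : ((D p).card : ℝ) ≤ (((Icc 1 X).filter (fun n => n ≡ c [MOD p ^ 2])).card : ℝ) := by
          exact_mod_cast card_le_card h3
        have h5 := cnt_class X (p ^ 2) c (Nat.one_le_pow _ _ hpp.pos)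
        push_cast at h5
        have h6 : 0 ≤ 6 * G * (1 / (p : ℝ) ^ 2) := by positivity
        have h7 : (X : ℝ) / (p : ℝ) ^ 2 = X * (1 / (p : ℝ) ^ 2) := by ring
        linarith
      · rw [if_neg hpP]
        have h3 : (p : ℝ) ≤ P := by exact_mod_cast (by omega : p ≤ P)
        have h4 := H1 p hpp (by omega) (h3.trans hP2) hpa
        rw [hD]
        dsimp only
        have h5 : 6 * G / (p : ℝ) ^ 2 = 6 * G * (1 / (p : ℝ) ^ 2) := by ring
        linarith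
  -- the sum
  have hc1 : (((RQ Q X y).filter (fun n : ℕ => ∃ p : ℕ, p.Prime ∧ w < p ∧ ((p ^ 2 : ℕ) : ℤ) ∣ a * n + b ∧ (a : ℤ) * n + b ≠ 0)).card : ℝ) ≤
      ∑ p ∈ (Ioc w Y).filter Nat.Prime, ((D p).card : ℝ) := by
    have := (card_le_card hsub).trans card_biUnion_le
    exact_mod_cast this
  refine hc1.trans ((sum_le_sum hone).trans ?_)
  rw [sum_add_distrib, sum_add_distrib, ← mul_sum, sum_const, nsmul_eq_mul, mul_one]
  have s1 : ∑ p ∈ (Ioc w Y).filter Nat.Prime, 1 / (p : ℝ) ^ 2 ≤ 1 / (w : ℝ) := by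
    refine le_trans ?_ (inv_sq_tail w Y hw)
    exact sum_le_sum_of_subset_of_nonneg (filter_subset _ _) (fun _ _ _ => by positivity)
  have s2 : ∑ p ∈ (Ioc w Y).filter Nat.Prime, (if P < p then (X : ℝ) * (1 / (p : ℝ) ^ 2) else 0) ≤ (X : ℝ) * (1 / (P : ℝ)) := by
    rw [← sum_filter, ← mul_sum]
    apply mul_le_mul_of_nonneg_left _ (by linarith)
    refine le_trans ?_ (inv_sq_tail P Y hPpos)
    apply sum_le_sum_of_subset_of_nonneg _ (fun _ _ _ => by positivity)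
    intro p hp
    rw [mem_filter, mem_filter, mem_Ioc] at hp
    rw [mem_Ioc]
    exact ⟨hp.2, hp.1.1.2⟩
  have s3 : ((((Ioc w Y).filter Nat.Prime).card : ℕ) : ℝ) ≤ √(2 * X * L ^ B') := by
    have h1 : ((Ioc w Y).filter Nat.Prime).card ≤ Y := by
      refine (card_filter_le _ _).trans ?_
      rw [Nat.card_Ioc]
      exact Nat.sub_le _ _
    have h2 : (Y : ℝ) ≤ √(2 * X * L ^ B') := by
      rw [hY]
      exact Nat.floor_le (Real.sqrt_nonneg _)
    exact le_trans (by exact_mod_cast h1) h2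
  have hLB : (1 : ℝ) ≤ L ^ B' := one_le_pow₀ hL1
  have s4 : √(2 * X * L ^ B') ≤ 2 * √(X : ℝ) * L ^ B' := by
    rw [Real.sqrt_le_left (by positivity)]
    have e1 : (2 * √(X : ℝ) * L ^ B') ^ 2 = 4 * (√(X : ℝ) * √(X : ℝ)) * (L ^ B' * L ^ B') := by ring
    rw [e1, hss]
    have h1 : L ^ B' ≤ L ^ B' * L ^ B' := le_mul_of_one_le_right (by linarith) hLB
    nlinarith
  have s5 : 2 * √(X : ℝ) * L ^ B' ≤ 1 / 2 * (X / L ^ (k + 1)) := by
    have hLk1 : 0 < L ^ (k + 1) := by positivity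
    have e1 : 1 / 2 * (X / L ^ (k + 1)) = X / 2 / L ^ (k + 1) := by ring
    rw [e1, le_div_iff₀ hLk1]
    have h1 : 4 * L ^ (k + 1 + B') * √(X : ℝ) ≤ √(X : ℝ) * √(X : ℝ) := mul_le_mul_of_nonneg_right hlog hs0
    rw [hss, pow_add] at h1
    linarith
  have s6 : X * (1 / (P : ℝ)) ≤ 1 / 2 * (X / L ^ (k + 1)) := by
    have hPr : (0 : ℝ) < P := by exact_mod_cast hPpos
    have e1 : X * (1 / (P : ℝ)) = X / P := by ring
    have e2 : 1 / 2 * (X / L ^ (k + 1)) = X / (2 * L ^ (k + 1)) := by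
      field_simp
    rw [e1, e2]
    apply div_le_div_of_nonneg_left (by linarith) (by positivity)
    refine le_trans ?_ hP1
    rw [pow_succ L (k + 1), mul_comm]
    exact mul_le_mul_of_nonneg_left hL2 (by positivity)
  have s7 : 6 * G * ∑ p ∈ (Ioc w Y).filter Nat.Prime, 1 / (p : ℝ) ^ 2 ≤ 6 / w * G := by
    calc 6 * G * ∑ p ∈ (Ioc w Y).filter Nat.Prime, 1 / (p : ℝ) ^ 2 ≤ 6 * G * (1 / w) :=
          mul_le_mul_of_nonneg_left s1 (by positivity)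
      _ = _ := by ring
  linarith

end Pool.Agent.H530.Ha
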