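import Pool.Agent.H530.HxD
import Pool.Graph.R_seed8.H373R2.T7.SupLiou
import Pool.Agent.H530.HyC

/-! The Liouville function with a linear phase over a residue class: minor arcs. -/

set_option autoImplicit false

namespace Pool.Agent.H530.Hx

open Finset Pool.Agent.H373R2.T7 Pool.Agent.H807R2.Dav Pool.Agent.H530.Ha

/-- sums of the Liouville function over a class with a phase -/
noncomputable def SA (h m r : ℕ) (θ : ℝ) : ℂ := ∑ n ∈ Icc 1 h, ((la n : ℝ) : ℂ) * Ec m r θ n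

lemma Ec_mod {m r r' : ℕ} (h : r ≡ r' [MOD m]) (θ : ℝ) (n : ℕ) : Ec m r θ n = Ec m r' θ n := by
  unfold Ec
  have : n ≡ r [MOD m] ↔ n ≡ r' [MOD m] := ⟨fun a => a.trans h, fun a => a.trans h.symm⟩
  simp only [this]

lemma SA_triv (h m r : ℕ) (hm : 1 ≤ m) (θ : ℝ) : ‖SA h m r θ‖ ≤ h / m + 1 := by
  refine le_trans ?_ (card_class h m r hm)
  unfold SA
  refine (norm_sum_le _ _).trans ?_
  rw [card_filter]
  push_cast
  apply sum_le_sum
  intro n _
  rw [norm_mul, Complex.norm_real, Real.norm_eq_abs]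
  unfold Ec
  split_ifs with hc
  · rw [norm_ee, mul_one]
    exact la_abs n
  · rw [norm_zero, mul_zero]

/-- the supremum over the lengths and the coprime classes -/
noncomputable def EA (h m : ℕ) (θ : ℝ) : ℝ :=
  (range (h + 1) ×ˢ range (m + 1)).sup' ⟨(0, 0), by simp⟩
    (fun z => if Nat.Coprime z.2 m then ‖SA z.1 m z.2 θ‖ else 0)

lemma EA_nonneg (h m : ℕ) (θ : ℝ) : 0 ≤ EA h m θ := by
  refine le_trans ?_ (Finset.le_sup' (s := range (h + 1) ×ˢ range (m + 1))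
    (fun z => if Nat.Coprime z.2 m then ‖SA z.1 m z.2 θ‖ else 0) (show (0, 0) ∈ _ by simp))
  split_ifs
  · exact norm_nonneg _
  · exact le_rfl

lemma EA_ge {x h m r : ℕ} (hx : x ≤ h) (hm : 1 ≤ m) (hr : Nat.Coprime r m) (θ : ℝ) : ‖SA x m r θ‖ ≤ EA h m θ := by
  have h1 : r % m < m + 1 := (Nat.mod_lt _ hm).trans (Nat.lt_succ_self _)
  have h2 := Finset.le_sup' (s := range (h + 1) ×ˢ range (m + 1))
    (fun z => if Nat.Coprime z.2 m then ‖SA z.1 m z.2 θ‖ else 0)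
    (show (x, r % m) ∈ _ by
      rw [mem_product, mem_range, mem_range]
      exact ⟨by simp only; omega, h1⟩)
  have h3 : Nat.Coprime (r % m) m := by
    have := (Nat.mod_modEq r m).gcd_eq
    rw [Nat.Coprime, this]
    exact hr
  simp only [if_pos h3] at h2
  refine le_trans (le_of_eq ?_) h2
  unfold SA
  congr 1
  apply sum_congr rfl
  intro n _
  rw [Ec_mod (Nat.mod_modEq r m)]

lemma EA_le_of {h m : ℕ} {θ C : ℝ} (hC : 0 ≤ C) (H : ∀ x ≤ h, ∀ r, Nat.Coprime r m → ‖SA x m r θ‖ ≤ C) :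
    EA h m θ ≤ C := by
  unfold EA
  apply Finset.sup'_le
  intro z hz
  rw [mem_product, mem_range, mem_range] at hz
  split_ifs with hc
  · exact H _ (by omega) _ hc
  · exact hC

lemma EA_mono {h h' m : ℕ} (θ : ℝ) (hm : 1 ≤ m) (hh : h ≤ h') : EA h m θ ≤ EA h' m θ :=
  EA_le_of (EA_nonneg _ _ _) fun x hx _ hr => EA_ge (hx.trans hh) hm hr θ

lemma EA_triv (h m : ℕ) (hm : 1 ≤ m) (θ : ℝ) : EA h m θ ≤ h / m + 1 := by
  apply EA_le_of (by positivity)
  intro x hx r _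
  refine (SA_triv x m r hm θ).trans ?_
  have : (x : ℝ) / m ≤ h / m := div_le_div_of_nonneg_right (by exact_mod_cast hx) (Nat.cast_nonneg _)
  linarith

lemma Ec_sq {d e r : ℕ} (hd : 1 ≤ d) (he : Nat.Coprime e d) (hr : Nat.Coprime r d) (θ : ℝ) :
    ∃ r' : ℕ, Nat.Coprime r' d ∧ ∀ m, Ec d r θ (e ^ 2 * m) = Ec d r' ((e : ℝ) ^ 2 * θ) m := by
  have hed : Nat.Coprime (e ^ 2) d := he.pow_left 2
  obtain ⟨r', hr'⟩ : ∃ r' : ℕ, e ^ 2 * r' ≡ r [MOD d] := by
    have : NeZero d := ⟨by omega⟩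
    refine ⟨(((e ^ 2 : ℕ) : ZMod d)⁻¹ * (r : ZMod d)).val, ?_⟩
    rw [← ZMod.natCast_eq_natCast_iff]
    push_cast
    rw [ZMod.natCast_zmod_val, ← mul_assoc]
    have := ZMod.coe_mul_inv_eq_one (e ^ 2) hed
    push_cast at this
    rw [this, one_mul]
  refine ⟨r', ?_, ?_⟩
  · have h1 : Nat.Coprime (e ^ 2 * r') d := by
      rw [Nat.Coprime, hr'.gcd_eq]
      exact hr
    exact Nat.Coprime.coprime_mul_left h1
  · intro m
    unfold Ec
    have h1 : e ^ 2 * m ≡ r [MOD d] ↔ m ≡ r' [MOD d] := by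
      constructor
      · intro h
        exact Nat.ModEq.cancel_left_of_coprime hed.symm (h.trans hr'.symm)
      · intro h
        exact (h.mul_left _).trans hr'
    simp only [h1]
    split_ifs
    · congr 1
      push_cast
      ring
    · rfl

lemma Ec_sq0 {d e r : ℕ} (he : ¬ Nat.Coprime e d) (hr : Nat.Coprime r d) (θ : ℝ) (m : ℕ) :
    Ec d r θ (e ^ 2 * m) = 0 := by
  unfold Ec
  rw [if_neg]
  intro h
  have h1 : Nat.gcd (e ^ 2 * m) d = 1 := by
    rw [h.gcd_eq]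
    exact hr
  apply he
  have h2 : Nat.Coprime (e ^ 2 * m) d := h1
  have h3 : Nat.Coprime (e ^ 2) d := Nat.Coprime.coprime_mul_right h2
  rw [pow_two] at h3
  exact Nat.Coprime.coprime_mul_right h3

/-- the Liouville function is a sum over squares -/
lemma SA_split (h d r : ℕ) (θ : ℝ) : SA h d r θ =
    ∑ e ∈ Icc 1 h, ∑ m ∈ Icc 1 (h / e ^ 2), (((ArithmeticFunction.moebius m : ℤ) : ℝ) : ℂ) * Ec d r θ (e ^ 2 * m) := by
  unfold SA
  have h1 : ∀ n ∈ Icc 1 h, ((la n : ℝ) : ℂ) * Ec d r θ n =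
      ∑ e ∈ Icc 1 h, if e ^ 2 ∣ n then (((ArithmeticFunction.moebius (n / e ^ 2) : ℤ) : ℝ) : ℂ) * Ec d r θ n else 0 := by
    intro n hn
    have hn0 : n ≠ 0 := by
      rw [mem_Icc] at hn
      omega
    have h2 := Pool.Agent.H534R2.BH.lam_eq h n hn
    have h3 : ((la n : ℝ) : ℂ) = ∑ m ∈ Finset.Icc 1 h, if m ^ 2 ∣ n then (((ArithmeticFunction.moebius (n / m ^ 2) : ℤ) : ℝ) : ℂ) else 0 := by
      rw [la_eq hn0]
      have h4 : ((((-1 : ℝ)) ^ ArithmeticFunction.cardFactors n : ℝ) : ℂ) = (-1 : ℂ) ^ ArithmeticFunction.cardFactors n := by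
        push_cast
        rfl
      rw [h4, h2]
      apply sum_congr rfl
      intro m _
      split_ifs
      · push_cast
        rfl
      · rfl
    rw [h3, sum_mul]
    apply sum_congr rfl
    intro e _
    split_ifs
    · rfl
    · rw [zero_mul]
  rw [sum_congr rfl h1, sum_comm]
  apply sum_congr rfl
  intro e he
  rw [mem_Icc] at he
  have he2 : 0 < e ^ 2 := pow_pos (by omega) 2
  rw [← sum_filter]
  symm
  refine sum_bij' (fun m _ => e ^ 2 * m) (fun n _ => n / e ^ 2) ?_ ?_ ?_ ?_ ?_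
  · intro m hm
    rw [mem_Icc] at hm
    rw [mem_filter, mem_Icc]
    refine ⟨⟨?_, ?_⟩, Dvd.intro _ rfl⟩
    · exact Nat.one_le_iff_ne_zero.mpr (Nat.mul_ne_zero he2.ne' (by omega))
    · calc e ^ 2 * m ≤ e ^ 2 * (h / e ^ 2) := Nat.mul_le_mul_left _ hm.2
        _ ≤ h := Nat.mul_div_le _ _
  · intro n hn
    rw [mem_filter, mem_Icc] at hn
    obtain ⟨⟨h1, h2⟩, c, hc⟩ := hn
    rw [mem_Icc]
    refine ⟨?_, Nat.div_le_div_right h2⟩
    rw [hc, Nat.mul_div_cancel_left _ he2]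
    rcases Nat.eq_zero_or_pos c with h | h
    · rw [h, mul_zero] at hc
      omega
    · exact h
  · intro m _
    exact Nat.mul_div_cancel_left _ he2
  · intro n hn
    rw [mem_filter] at hn
    exact Nat.mul_div_cancel' hn.2
  · intro m _
    rw [Nat.mul_div_cancel_left _ he2]

/-- one term, trivially -/
lemma sq_term {h H d r e : ℕ} (hhH : h ≤ H) (hd : 1 ≤ d) (he1 : 1 ≤ e) (hr : Nat.Coprime r d) (θ : ℝ) :
    ‖∑ m ∈ Icc 1 (h / e ^ 2), (((ArithmeticFunction.moebius m : ℤ) : ℝ) : ℂ) * Ec d r θ (e ^ 2 * m)‖ ≤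
      H / d * (1 / (e : ℝ) ^ 2) + (if e * e ≤ H then 1 else 0) := by
  have hnn : (0 : ℝ) ≤ H / d * (1 / (e : ℝ) ^ 2) + (if e * e ≤ H then 1 else 0) := by
    split_ifs <;> positivity
  by_cases hco : Nat.Coprime e d
  · obtain ⟨r', hr', hEc⟩ := Ec_sq hd hco hr θ
    by_cases heH : e * e ≤ h
    · rw [if_pos (heH.trans hhH)]
      have h1 := card_class (h / e ^ 2) d r' hd
      have h2 : ‖∑ m ∈ Icc 1 (h / e ^ 2), (((ArithmeticFunction.moebius m : ℤ) : ℝ) : ℂ) * Ec d r θ (e ^ 2 * m)‖ ≤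
          (((Icc 1 (h / e ^ 2)).filter (fun n => n ≡ r' [MOD d])).card : ℝ) := by
        refine (norm_sum_le _ _).trans ?_
        rw [card_filter, Nat.cast_sum]
        apply sum_le_sum
        intro n _
        rw [hEc, norm_mul, Complex.norm_real, Real.norm_eq_abs, Nat.cast_ite, Nat.cast_one, Nat.cast_zero]
        unfold Ec
        split_ifs with hc
        · rw [norm_ee, mul_one]
          have := ArithmeticFunction.abs_moebius_le_one (n := n)
          exact_mod_cast this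
        · rw [norm_zero, mul_zero]
      refine h2.trans (h1.trans ?_)
      have h3 : ((h / e ^ 2 : ℕ) : ℝ) ≤ H / (e : ℝ) ^ 2 := by
        have := Nat.cast_div_le (α := ℝ) (m := h) (n := e ^ 2)
        push_cast at this
        refine this.trans ?_
        apply div_le_div_of_nonneg_right _ (by positivity)
        exact_mod_cast hhH
      have h4 : ((h / e ^ 2 : ℕ) : ℝ) / d ≤ H / d * (1 / (e : ℝ) ^ 2) := by
        calc ((h / e ^ 2 : ℕ) : ℝ) / d ≤ H / (e : ℝ) ^ 2 / d := div_le_div_of_nonneg_right h3 (Nat.cast_nonneg _)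
          _ = _ := by ring
      linarith
    · have h0 : h / e ^ 2 = 0 := by
        apply Nat.div_eq_of_lt
        rw [pow_two]
        omega
      rw [h0]
      simpa using hnn
  · rw [sum_eq_zero fun m _ => by rw [Ec_sq0 hco hr θ m, mul_zero], norm_zero]
    exact hnn

theorem lam_cls (A : ℕ) : ∃ B H0 : ℕ, ∀ H : ℕ, H0 ≤ H → ∀ d r : ℕ, 1 ≤ d → d ^ 16 ≤ H → Nat.Coprime r d →
    ∀ θ : ℝ, (∀ e : ℕ, 1 ≤ e → (e : ℝ) ≤ Real.log H ^ (A + 2) →
      Gd (d * ((e : ℝ) ^ 2 * θ)) (Real.log H ^ B) (H / (d * Real.log H ^ B)) ∧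
      Gd ((d : ℝ) ^ 2 * ((e : ℝ) ^ 2 * θ)) (Real.log H ^ B) (H / (d ^ 2 * Real.log H ^ B))) →
    ∀ h ≤ H, ‖SA h d r θ‖ ≤ H / (d * Real.log H ^ A) := by
  obtain ⟨B, H0, hmu⟩ := mu_cls (2 * A + 4)
  obtain ⟨H1, hH1⟩ := ev_L' 2
  obtain ⟨H2, hH2⟩ := ev_log' (4 * (A + 2)) 1
  refine ⟨B, H0 + H1 + H2 + 1, ?_⟩
  intro H hH d r hd hdH hr θ hgood h hh
  obtain ⟨L, hL⟩ : ∃ L : ℝ, L = Real.log H := ⟨_, rfl⟩
  have h2 := hH1 H (by omega)
  have h4 := hH2 H (by omega)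
  have hmuH := hmu H (by omega)
  rw [← hL] at h2 h4 hgood hmuH ⊢
  have hL1 : 1 ≤ L := by linarith
  have hHr : (1 : ℝ) ≤ H := by exact_mod_cast (by omega : 1 ≤ H)
  have hdr : (1 : ℝ) ≤ d := by exact_mod_cast hd
  obtain ⟨E0, hE0⟩ : ∃ E0 : ℕ, E0 = ⌊L ^ (A + 2)⌋₊ := ⟨_, rfl⟩
  have hLA1 : 1 ≤ L ^ (A + 2) := one_le_pow₀ hL1
  have hE1 : (E0 : ℝ) ≤ L ^ (A + 2) := by rw [hE0]; exact Nat.floor_le (by positivity)
  have hE2 : L ^ (A + 2) ≤ 2 * E0 := by
    have h5 := Nat.lt_floor_add_one (L ^ (A + 2))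
    rw [← hE0] at h5
    have h6 : 1 ≤ E0 := by
      rw [hE0]
      apply Nat.le_floor
      exact_mod_cast hLA1
    have h7 : (1 : ℝ) ≤ E0 := by exact_mod_cast h6
    linarith
  have hE3 : 1 ≤ E0 := by
    have : (0 : ℝ) < E0 := by linarith
    exact_mod_cast this
  rw [SA_split]
  refine (norm_sum_le _ _).trans ?_
  have hterm : ∀ e ∈ Icc 1 h, ‖∑ m ∈ Icc 1 (h / e ^ 2), (((ArithmeticFunction.moebius m : ℤ) : ℝ) : ℂ) * Ec d r θ (e ^ 2 * m)‖ ≤
      (if e ≤ E0 then H / (d * L ^ (2 * A + 4)) else 0) +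
        ((if E0 < e then (H : ℝ) / d * (1 / (e : ℝ) ^ 2) else 0) + (if e * e ≤ H then 1 else 0)) := by
    intro e he
    rw [mem_Icc] at he
    have hi1 : (0 : ℝ) ≤ (if e * e ≤ H then 1 else 0) := by split_ifs <;> norm_num
    by_cases heE : e ≤ E0
    · rw [if_pos heE, if_neg (by omega), zero_add]
      have hnn : (0 : ℝ) ≤ H / (d * L ^ (2 * A + 4)) := by positivity
      have h5 : ‖∑ m ∈ Icc 1 (h / e ^ 2), (((ArithmeticFunction.moebius m : ℤ) : ℝ) : ℂ) * Ec d r θ (e ^ 2 * m)‖ ≤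
          H / (d * L ^ (2 * A + 4)) := by
        by_cases hco : Nat.Coprime e d
        · obtain ⟨r', hr', hEc⟩ := Ec_sq hd hco hr θ
          rw [sum_congr rfl fun m _ => by rw [hEc m]]
          have h6 : (e : ℝ) ≤ L ^ (A + 2) := le_trans (by exact_mod_cast heE) hE1
          obtain ⟨g1, g2⟩ := hgood e he.1 h6
          exact hmuH d r' hd hdH hr' ((e : ℝ) ^ 2 * θ) g1 g2 (h / e ^ 2) ((Nat.div_le_self _ _).trans hh)
        · rw [sum_eq_zero fun m _ => by rw [Ec_sq0 hco hr θ m, mul_zero], norm_zero]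
          exact hnn
      linarith
    · rw [if_neg heE, if_pos (by omega), zero_add]
      exact sq_term hh hd he.1 hr θ
  refine (sum_le_sum hterm).trans ?_
  rw [sum_add_distrib, sum_add_distrib]
  have s1 : ∑ e ∈ Icc 1 h, (if e ≤ E0 then (H : ℝ) / (d * L ^ (2 * A + 4)) else 0) ≤ H / (d * L ^ (A + 2)) := by
    rw [← sum_filter, sum_const, nsmul_eq_mul]
    have h5 : (((Icc 1 h).filter (fun e => e ≤ E0)).card : ℝ) ≤ L ^ (A + 2) := by
      refine le_trans ?_ hE1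
      have : (Icc 1 h).filter (fun e => e ≤ E0) ⊆ Icc 1 E0 := by
        intro e he
        rw [mem_filter, mem_Icc] at he
        rw [mem_Icc]
        exact ⟨he.1.1, he.2⟩
      have := card_le_card this
      rw [Nat.card_Icc, Nat.add_sub_cancel] at this
      exact_mod_cast this
    calc _ ≤ L ^ (A + 2) * (H / (d * L ^ (2 * A + 4))) := mul_le_mul_of_nonneg_right h5 (by positivity)
      _ = H / (d * L ^ (A + 2)) := by
          have : L ^ (2 * A + 4) = L ^ (A + 2) * L ^ (A + 2) := by rw [← pow_add]; congr 1; omega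
          rw [this]
          field_simp
  have s2 : ∑ e ∈ Icc 1 h, (if E0 < e then (H : ℝ) / d * (1 / (e : ℝ) ^ 2) else 0) ≤ 2 * (H / (d * L ^ (A + 2))) := by
    rw [← sum_filter, ← mul_sum]
    have h5 : ∑ e ∈ (Icc 1 h).filter (fun e => E0 < e), 1 / (e : ℝ) ^ 2 ≤ 1 / (E0 : ℝ) := by
      refine le_trans ?_ (inv_sq_tail E0 h hE3)
      apply sum_le_sum_of_subset_of_nonneg _ (fun _ _ _ => by positivity)
      intro e he
      rw [mem_filter, mem_Icc] at he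
      rw [mem_Ioc]
      exact ⟨he.2, he.1.2⟩
    have h6 : 1 / (E0 : ℝ) ≤ 2 / L ^ (A + 2) := by
      have : (0 : ℝ) < E0 := by exact_mod_cast hE3
      rw [div_le_div_iff₀ this (by positivity), one_mul]
      exact hE2
    calc _ ≤ (H : ℝ) / d * (2 / L ^ (A + 2)) := mul_le_mul_of_nonneg_left (h5.trans h6) (by positivity)
      _ = _ := by
          field_simp
  have s3 : ∑ e ∈ Icc 1 h, (if e * e ≤ H then (1 : ℝ) else 0) ≤ H / (d * L ^ (A + 2)) := by
    rw [← sum_filter, sum_const, nsmul_eq_mul, mul_one]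
    have h5 : (Icc 1 h).filter (fun e => e * e ≤ H) ⊆ Icc 1 (Nat.sqrt H) := by
      intro e he
      rw [mem_filter, mem_Icc] at he
      rw [mem_Icc, Nat.le_sqrt]
      exact ⟨he.1.1, he.2⟩
    have h6 := card_le_card h5
    rw [Nat.card_Icc, Nat.add_sub_cancel] at h6
    have h7 : ((Nat.sqrt H : ℕ) : ℝ) ≤ √(H : ℝ) := Real.nat_sqrt_le_real_sqrt
    have h8 : (((Icc 1 h).filter (fun e => e * e ≤ H)).card : ℝ) ≤ √(H : ℝ) := le_trans (by exact_mod_cast h6) h7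
    refine h8.trans ?_
    rw [le_div_iff₀ (by positivity)]
    -- d L^(A+2) ≤ √H
    have h9 : (d : ℝ) * L ^ (A + 2) ≤ √(H : ℝ) := by
      have h10 : ((d : ℝ) * L ^ (A + 2)) ^ 4 ≤ (√(H : ℝ)) ^ 4 := by
        have h11 : (√(H : ℝ)) ^ 4 = (H : ℝ) ^ 2 := by
          rw [show (√(H : ℝ)) ^ 4 = ((√(H : ℝ)) ^ 2) ^ 2 by ring, Real.sq_sqrt (by linarith)]
        have h12 : (d : ℝ) ^ 4 ≤ √(H : ℝ) := by
          apply Real.le_sqrt_of_sq_le
          have h13 : (d : ℝ) ^ 16 ≤ H := by exact_mod_cast hdH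
          have h14 : ((d : ℝ) ^ 4) ^ 2 ≤ (d : ℝ) ^ 16 := by
            rw [← pow_mul]
            exact pow_le_pow_right₀ hdr (by norm_num)
          linarith
        have h15 : (L ^ (A + 2)) ^ 4 ≤ √(H : ℝ) := by
          rw [← pow_mul, mul_comm (A + 2) 4]
          linarith
        have h16 : √(H : ℝ) * √(H : ℝ) = H := Real.mul_self_sqrt (by linarith)
        rw [mul_pow, h11]
        calc (d : ℝ) ^ 4 * (L ^ (A + 2)) ^ 4 ≤ √(H : ℝ) * √(H : ℝ) :=
              mul_le_mul h12 h15 (by positivity) (Real.sqrt_nonneg _)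
          _ = H := h16
          _ ≤ _ := by nlinarith
      exact le_of_pow_le_pow_left₀ (by norm_num) (Real.sqrt_nonneg _) h10
    calc √(H : ℝ) * (d * L ^ (A + 2)) ≤ √(H : ℝ) * √(H : ℝ) := mul_le_mul_of_nonneg_left h9 (Real.sqrt_nonneg _)
      _ = H := Real.mul_self_sqrt (by linarith)
  have hfin : 4 * (H / (d * L ^ (A + 2))) ≤ H / (d * L ^ A) := by
    have e1 : 4 * (H / (d * L ^ (A + 2))) = (4 / L ^ 2) * (H / (d * L ^ A)) := by
      rw [pow_add]
      field_simp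
    rw [e1]
    have e2 : 4 / L ^ 2 ≤ 1 := by
      rw [div_le_one (by positivity)]
      nlinarith
    have e3 : (0 : ℝ) ≤ H / (d * L ^ A) := by positivity
    nlinarith
  linarith

end Pool.Agent.H530.Hx
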