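import Pool.Agent.H530.HxE

/-! Approximations of the frequency; the major arcs. -/

set_option autoImplicit false

namespace Pool.Agent.H530.Hx

open Finset Pool.Agent.H373R2.T7 Pool.Agent.H807R2.Dav Pool.Agent.H530.Ha

lemma not_Gd {θ lo hi : ℝ} (hhi : 1 ≤ hi) (h : ¬ Gd θ lo hi) :
    ∃ ρ : ℚ, (ρ.den : ℝ) < lo ∧ |θ - ρ| ≤ 1 / hi := by
  obtain ⟨n, hn⟩ : ∃ n : ℕ, n = ⌊hi⌋₊ := ⟨_, rfl⟩
  have hn1 : 0 < n := by
    rw [hn]
    exact Nat.floor_pos.2 hhi
  have hn2 : (n : ℝ) ≤ hi := by rw [hn]; exact Nat.floor_le (by linarith)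
  have hn3 : hi < n + 1 := by rw [hn]; exact Nat.lt_floor_add_one hi
  obtain ⟨ρ, h1, h2⟩ := Real.exists_rat_abs_sub_le_and_den_le θ hn1
  have hden : (1 : ℝ) ≤ ρ.den := by exact_mod_cast ρ.den_pos
  have hdn : (ρ.den : ℝ) ≤ n := by exact_mod_cast h2
  refine ⟨ρ, ?_, ?_⟩
  · by_contra hcon
    push Not at hcon
    apply h
    refine ⟨ρ.den, ρ.num, ρ.den_pos, ?_, ?_, hcon, hdn.trans hn2⟩
    · rw [Int.isCoprime_iff_gcd_eq_one]
      exact ρ.reduced
    · have h3 : ((ρ.num : ℝ)) / (ρ.den : ℝ) = (ρ : ℝ) := by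
        rw [Rat.cast_def]
      rw [h3]
      refine h1.trans ?_
      apply one_div_le_one_div_of_le (by positivity)
      rw [pow_two]
      exact mul_le_mul_of_nonneg_right (by linarith) (by linarith)
  · refine h1.trans ?_
    apply one_div_le_one_div_of_le (by linarith)
    calc hi ≤ (n + 1) * 1 := by linarith
      _ ≤ _ := mul_le_mul_of_nonneg_left hden (by linarith)

lemma bad_rat {α lo hi : ℝ} {s : ℕ} (hs : 1 ≤ s) (hhi : 1 ≤ hi) (h : ¬ Gd (s * α) lo hi) :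
    ∃ (ρ : ℚ) (w : ℕ), 1 ≤ w ∧ (w : ℝ) < lo ∧ ρ.den ∣ s * w ∧ |α - ρ| ≤ 1 / (s * hi) := by
  obtain ⟨ρ', h1, h2⟩ := not_Gd hhi h
  have hs0 : (0 : ℝ) < s := by exact_mod_cast hs
  have hsq : (s : ℚ) ≠ 0 := by exact_mod_cast (by omega : s ≠ 0)
  refine ⟨ρ' / s, ρ'.den, ρ'.den_pos, h1, ?_, ?_⟩
  · have h3 : ρ' / s = Rat.divInt ρ'.num ((s : ℤ) * ρ'.den) := by
      rw [Rat.divInt_eq_div]
      have h4 : (ρ'.den : ℚ) ≠ 0 := by exact_mod_cast ρ'.den_pos.ne'
      have h5 : ρ' = ρ'.num / ρ'.den := (Rat.num_div_den ρ').symm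
      push_cast
      rw [div_eq_div_iff hsq (mul_ne_zero hsq h4)]
      have h6 : ρ' * ρ'.den = ρ'.num := by
        exact Rat.mul_den_eq_num ρ'
      linear_combination (s : ℚ) * h6
    have h4 := Rat.den_dvd ρ'.num ((s : ℤ) * ρ'.den)
    rw [← h3] at h4
    exact_mod_cast h4
  · have h3 : α - ((ρ' / s : ℚ) : ℝ) = (s * α - ρ') / s := by
      push_cast
      field_simp
    rw [h3, abs_div, abs_of_pos hs0, div_le_div_iff₀ hs0 (by positivity), one_mul]
    have hhi0 : 0 < hi := by linarith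
    rw [le_div_iff₀ hhi0] at h2
    calc |s * α - ρ'| * (s * hi) = (|s * α - ρ'| * hi) * s := by ring
      _ ≤ 1 * s := mul_le_mul_of_nonneg_right h2 hs0.le
      _ = s := one_mul _

lemma rat_unique {α η T : ℝ} {ρ ρ' : ℚ} (h : |α - ρ| ≤ η) (h' : |α - ρ'| ≤ η) (hd : (ρ.den : ℝ) ≤ T)
    (hd' : (ρ'.den : ℝ) ≤ T) (hT : 2 * η * T ^ 2 < 1) : ρ = ρ' := by
  by_contra hne
  have h1 : |(ρ : ℝ) - ρ'| ≤ 2 * η := by
    have e1 : (ρ : ℝ) - ρ' = (α - ρ') - (α - ρ) := by ring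
    rw [e1]
    refine (abs_sub _ _).trans ?_
    linarith
  have hp : (0 : ℝ) < ρ.den := by exact_mod_cast ρ.den_pos
  have hp' : (0 : ℝ) < ρ'.den := by exact_mod_cast ρ'.den_pos
  have h2 : ((ρ.num * ρ'.den - ρ'.num * ρ.den : ℤ) : ℝ) = ((ρ : ℝ) - ρ') * (ρ.den * ρ'.den) := by
    have e1 : (ρ : ℝ) = ρ.num / ρ.den := Rat.cast_def ρ
    have e2 : (ρ' : ℝ) = ρ'.num / ρ'.den := Rat.cast_def ρ'
    rw [e1, e2]
    push_cast
    field_simp
  have h3 : (ρ.num * ρ'.den - ρ'.num * ρ.den : ℤ) ≠ 0 := by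
    intro h4
    rw [h4, Int.cast_zero] at h2
    have h5 : (ρ : ℝ) - ρ' = 0 := by
      rcases mul_eq_zero.1 h2.symm with h6 | h6
      · exact h6
      · exact absurd h6 (by positivity)
    apply hne
    have h6 : (ρ : ℝ) = ρ' := by linarith
    exact_mod_cast h6
  have h4 : (1 : ℝ) ≤ |((ρ.num * ρ'.den - ρ'.num * ρ.den : ℤ) : ℝ)| := by
    rw [← Int.cast_abs]
    exact_mod_cast Int.one_le_abs h3
  rw [h2, abs_mul, abs_of_pos (mul_pos hp hp')] at h4
  have hη : 0 ≤ 2 * η := (abs_nonneg _).trans h1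
  have h5 : |(ρ : ℝ) - ρ'| * (ρ.den * ρ'.den) ≤ 2 * η * (T * T) := by
    apply mul_le_mul h1 _ (by positivity) hη
    exact mul_le_mul hd hd' hp'.le (hp.le.trans hd)
  have h6 : 2 * η * (T * T) = 2 * η * T ^ 2 := by ring
  linarith

/-- partial summation -/
lemma part_sum (a : ℕ → ℂ) (γ C : ℝ) (N : ℕ) (hC : ∀ x ≤ N, ‖∑ n ∈ Icc 1 x, a n‖ ≤ C) :
    ‖∑ n ∈ Icc 1 N, a n * ee (n * γ)‖ ≤ C * (1 + N * (2 * Real.pi * |γ|)) := by
  have hC0 : 0 ≤ C := (norm_nonneg _).trans (hC 0 (Nat.zero_le _))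
  have h1 : ∀ x ≤ N, ‖∑ n ∈ Icc 1 x, a n * ee (n * γ) - (∑ n ∈ Icc 1 x, a n) * ee (x * γ)‖ ≤
      x * (C * (2 * Real.pi * |γ|)) := by
    intro x
    induction x with
    | zero =>
      intro _
      simp
    | succ x ih =>
      intro hx
      have h2 := ih (by omega)
      have e1 : Icc 1 (x + 1) = insert (x + 1) (Icc 1 x) := by
        ext i
        rw [mem_insert, mem_Icc, mem_Icc]
        omega
      have hni : (x + 1) ∉ Icc 1 x := by
        rw [mem_Icc]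
        omega
      rw [e1, sum_insert hni, sum_insert hni]
      have e2 : a (x + 1) * ee (((x + 1 : ℕ) : ℝ) * γ) + ∑ n ∈ Icc 1 x, a n * ee (n * γ) -
          (a (x + 1) + ∑ n ∈ Icc 1 x, a n) * ee (((x + 1 : ℕ) : ℝ) * γ) =
          (∑ n ∈ Icc 1 x, a n * ee (n * γ) - (∑ n ∈ Icc 1 x, a n) * ee (x * γ)) +
          (∑ n ∈ Icc 1 x, a n) * (ee (x * γ) * (1 - ee γ)) := by
        have e3 : ee (((x + 1 : ℕ) : ℝ) * γ) = ee (x * γ) * ee γ := by
          rw [← ee_add]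
          congr 1
          push_cast
          ring
        rw [e3]
        ring
      rw [e2]
      refine (norm_add_le _ _).trans ?_
      rw [norm_mul, norm_mul, norm_ee, one_mul]
      have h3 : ‖(1 : ℂ) - ee γ‖ ≤ 2 * Real.pi * |γ| := dd_le γ
      have h4 : ‖∑ n ∈ Icc 1 x, a n‖ * ‖(1 : ℂ) - ee γ‖ ≤ C * (2 * Real.pi * |γ|) :=
        mul_le_mul (hC x (by omega)) h3 (norm_nonneg _) hC0
      push_cast
      linarith
  have h2 := h1 N le_rfl
  have h3 := norm_add_le (∑ n ∈ Icc 1 N, a n * ee (n * γ) - (∑ n ∈ Icc 1 N, a n) * ee (N * γ))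
    ((∑ n ∈ Icc 1 N, a n) * ee (N * γ))
  rw [sub_add_cancel, norm_mul, norm_ee, mul_one] at h3
  have h4 := hC N le_rfl
  linarith

open Classical in
/-- the Liouville function in the intersection of two classes -/
lemma two_classes {x d r q0 s : ℕ} (hd : 1 ≤ d) (hq : 1 ≤ q0) (hr : Nat.Coprime r d) :
    |∑ n ∈ (Icc 1 x).filter (fun n => n ≡ r [MOD d] ∧ n ≡ s [MOD q0]), la n| ≤ ∑ i ∈ Icc 1 q0, EM x (d * i) := by
  obtain ⟨F, hF⟩ : ∃ F, F = (Icc 1 x).filter (fun n => n ≡ r [MOD d] ∧ n ≡ s [MOD q0]) := ⟨_, rfl⟩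
  rw [← hF]
  rcases F.eq_empty_or_nonempty with hE | ⟨n0, hn0⟩
  · rw [hE, sum_empty, abs_zero]
    exact sum_nonneg fun i _ => EM_nonneg _ _
  rw [hF, mem_filter, mem_Icc] at hn0
  obtain ⟨⟨hn1, hn2⟩, hnr, hns⟩ := hn0
  obtain ⟨l, hl⟩ : ∃ l, l = Nat.lcm d q0 := ⟨_, rfl⟩
  have hl0 : 0 < l := by rw [hl]; exact Nat.lcm_pos hd hq
  have hdl : d ∣ l := by rw [hl]; exact Nat.dvd_lcm_left _ _
  have hql : q0 ∣ l := by rw [hl]; exact Nat.dvd_lcm_right _ _
  have hlq : l ≤ d * q0 := by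
    rw [hl]
    exact Nat.le_of_dvd (Nat.mul_pos hd hq) (Nat.lcm_dvd_mul _ _)
  have hFl : F = (Icc 1 x).filter (fun n => n ≡ n0 [MOD l]) := by
    rw [hF]
    apply filter_congr
    intro n _
    constructor
    · rintro ⟨h1, h2⟩
      rw [hl]
      have a1 : n ≡ n0 [MOD d] := h1.trans hnr.symm
      have a2 : n ≡ n0 [MOD q0] := h2.trans hns.symm
      rw [← Int.natCast_modEq_iff, Int.modEq_iff_dvd] at a1 a2 ⊢
      have := Int.coe_lcm_dvd a1 a2
      exact_mod_cast this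
    · intro h
      exact ⟨(h.of_dvd hdl).trans hnr, (h.of_dvd hql).trans hns⟩
  obtain ⟨g, hg⟩ : ∃ g, g = Nat.gcd n0 l := ⟨_, rfl⟩
  have hg0 : 0 < g := by rw [hg]; exact Nat.gcd_pos_of_pos_right _ hl0
  have hgn : g ∣ n0 := by rw [hg]; exact Nat.gcd_dvd_left _ _
  have hgl : g ∣ l := by rw [hg]; exact Nat.gcd_dvd_right _ _
  have hn0d : Nat.Coprime n0 d := by
    rw [Nat.Coprime, hnr.gcd_eq]
    exact hr
  have hgd : Nat.Coprime g d := hn0d.coprime_dvd_left hgn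
  obtain ⟨i, hi⟩ : g * d ∣ l := hgd.mul_dvd_of_dvd_of_dvd hgl hdl
  have hi0 : 1 ≤ i := by
    rcases Nat.eq_zero_or_pos i with h | h
    · rw [h, mul_zero] at hi
      omega
    · exact h
  have hiq : i ≤ q0 := by
    have h1 : d * i ≤ d * q0 := by
      calc d * i ≤ g * (d * i) := Nat.le_mul_of_pos_left _ hg0
        _ = l := by rw [hi]; ring
        _ ≤ _ := hlq
    exact Nat.le_of_mul_le_mul_left h1 hd
  have hlg : l = g * (d * i) := by rw [hi]; ring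
  obtain ⟨m0, hm0⟩ := hgn
  -- coprimality
  have hco : Nat.Coprime m0 (d * i) := by
    have h1 : Nat.gcd (g * m0) (g * (d * i)) = g := by
      rw [← hm0, ← hlg, ← hg]
    rw [Nat.gcd_mul_left] at h1
    have h2 : g * Nat.gcd m0 (d * i) = g * 1 := by rw [h1, mul_one]
    exact Nat.eq_of_mul_eq_mul_left hg0 h2
  have hsum : ∑ n ∈ F, la n = la g * SL (x / g) (d * i) m0 := by
    unfold SL
    rw [mul_sum, hFl]
    symm
    refine sum_bij' (fun m _ => g * m) (fun n _ => n / g) ?_ ?_ ?_ ?_ ?_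
    · intro m hm
      rw [mem_filter, mem_Icc] at hm
      rw [mem_filter, mem_Icc]
      refine ⟨⟨Nat.mul_pos hg0 hm.1.1, ?_⟩, ?_⟩
      · calc g * m ≤ g * (x / g) := Nat.mul_le_mul_left _ hm.1.2
          _ ≤ x := Nat.mul_div_le _ _
      · rw [hm0, hlg]
        exact hm.2.mul_left' g
    · intro n hn
      rw [mem_filter, mem_Icc] at hn
      have hgn' : g ∣ n := by
        have h1 : n ≡ n0 [MOD g] := hn.2.of_dvd hgl
        have h2 : n0 ≡ 0 [MOD g] := by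
          rw [hm0]
          exact (Nat.modEq_zero_iff_dvd).2 (dvd_mul_right _ _)
        exact Nat.modEq_zero_iff_dvd.1 (h1.trans h2)
      obtain ⟨m, hm⟩ := hgn'
      rw [hm, Nat.mul_div_cancel_left _ hg0, mem_filter, mem_Icc]
      refine ⟨⟨?_, ?_⟩, ?_⟩
      · rcases Nat.eq_zero_or_pos m with h | h
        · rw [h, mul_zero] at hm
          omega
        · exact h
      · rw [Nat.le_div_iff_mul_le hg0, mul_comm, ← hm]
        exact hn.1.2
      · have h3 := hn.2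
        rw [hm, hm0, hlg] at h3
        exact Nat.ModEq.mul_left_cancel' hg0.ne' h3
    · intro m _
      exact Nat.mul_div_cancel_left _ hg0
    · intro n hn
      rw [mem_filter, mem_Icc] at hn
      have hgn' : g ∣ n := by
        have h1 : n ≡ n0 [MOD g] := hn.2.of_dvd hgl
        have h2 : n0 ≡ 0 [MOD g] := by
          rw [hm0]
          exact (Nat.modEq_zero_iff_dvd).2 (dvd_mul_right _ _)
        exact Nat.modEq_zero_iff_dvd.1 (h1.trans h2)
      exact Nat.mul_div_cancel' hgn'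
    · intro m _
      rw [la_mul]
  rw [hsum, abs_mul]
  calc |la g| * |SL (x / g) (d * i) m0| ≤ 1 * EM x (d * i) := by
        apply mul_le_mul (la_abs g) _ (abs_nonneg _) zero_le_one
        exact (EE_ge (Nat.mul_pos hd hi0) hco).trans (EM_ge (Nat.div_le_self _ _))
    _ = EM x (d * i) := one_mul _
    _ ≤ _ := single_le_sum (f := fun i => EM x (d * i)) (fun i _ => EM_nonneg _ _) (mem_Icc.2 ⟨hi0, hiq⟩)

lemma EM_mono {x h m : ℕ} (hx : x ≤ h) : EM x m ≤ EM h m := by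
  obtain ⟨t, ht, he⟩ := EM_eq x m
  rw [he]
  exact EM_ge (ht.trans hx)

/-- the phases of a rational number depend on the class only -/
lemma ee_rat (ρ : ℚ) (t n s : ℕ) (h : n ≡ s [MOD ρ.den]) : ee (n * (t * (ρ : ℝ))) = ee (s * (t * (ρ : ℝ))) := by
  have h1 : (ρ.den : ℤ) ∣ (n : ℤ) - s := by
    rw [← Int.natCast_modEq_iff, Int.modEq_iff_dvd] at h
    rw [← dvd_neg, neg_sub]
    exact h
  obtain ⟨j, hj⟩ := h1
  have hden : (ρ.den : ℝ) ≠ 0 := by exact_mod_cast ρ.den_pos.ne'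
  have h2 : (n : ℝ) * (t * (ρ : ℝ)) = s * (t * (ρ : ℝ)) + ((j * t * ρ.num : ℤ) : ℝ) := by
    have h3 : (n : ℝ) - s = ρ.den * j := by exact_mod_cast hj
    have h4 : (ρ : ℝ) * ρ.den = ρ.num := by
      rw [Rat.cast_def]
      field_simp
    push_cast
    linear_combination (t * (ρ : ℝ)) * h3 + (t : ℝ) * j * h4
  rw [h2, ee_add_int]

/-- **The major arcs.** -/
lemma major {h d t : ℕ} (hd : 1 ≤ d) {α : ℝ} (ρ : ℚ) :
    EA h d (t * α) ≤ ρ.den * (∑ i ∈ Icc 1 ρ.den, EM h (d * i)) * (1 + h * (2 * Real.pi * (t * |α - ρ|))) := by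
  have hS0 : 0 ≤ ∑ i ∈ Icc 1 ρ.den, EM h (d * i) := sum_nonneg fun i _ => EM_nonneg _ _
  apply EA_le_of
  · have := Real.pi_pos
    positivity
  intro x hx r hr
  have hq : 1 ≤ ρ.den := ρ.den_pos
  -- the sums without the small phase
  have hA : ∀ x' ≤ x, ‖∑ n ∈ Icc 1 x', ((la n : ℝ) : ℂ) * Ec d r (t * (ρ : ℝ)) n‖ ≤
      ρ.den * (∑ i ∈ Icc 1 ρ.den, EM h (d * i)) := by
    intro x' hx'
    have h1 : ∑ n ∈ Icc 1 x', ((la n : ℝ) : ℂ) * Ec d r (t * (ρ : ℝ)) n =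
        ∑ s ∈ range ρ.den, ee (s * (t * (ρ : ℝ))) *
          ((∑ n ∈ (Icc 1 x').filter (fun n => n ≡ r [MOD d] ∧ n ≡ s [MOD ρ.den]), la n : ℝ) : ℂ) := by
      rw [← sum_fiberwise_of_maps_to (g := fun n => n % ρ.den) (t := range ρ.den)
        (fun n _ => mem_range.2 (Nat.mod_lt _ (by omega)))]
      apply sum_congr rfl
      intro s hs
      rw [mem_range] at hs
      push_cast
      rw [mul_sum, filter_and, sum_filter]
      rw [← filter_and, sum_filter]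
      apply sum_congr rfl
      intro n _
      unfold Ec
      have h2 : n ≡ s [MOD ρ.den] ↔ n % ρ.den = s := by
        unfold Nat.ModEq
        rw [Nat.mod_eq_of_lt hs]
      by_cases h3 : n % ρ.den = s
      · rw [if_pos h3]
        by_cases h4 : n ≡ r [MOD d]
        · rw [if_pos h4, if_pos ⟨h4, h2.2 h3⟩, ee_rat ρ t n s (h2.2 h3), mul_comm]
        · rw [if_neg h4, if_neg (fun h5 => h4 h5.1), mul_zero]
      · rw [if_neg h3, if_neg (fun h5 => h3 (h2.1 h5.2))]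
    rw [h1]
    refine (norm_sum_le _ _).trans ?_
    have h2 : ∀ s ∈ range ρ.den, ‖ee (s * (t * (ρ : ℝ))) *
          ((∑ n ∈ (Icc 1 x').filter (fun n => n ≡ r [MOD d] ∧ n ≡ s [MOD ρ.den]), la n : ℝ) : ℂ)‖ ≤
        ∑ i ∈ Icc 1 ρ.den, EM h (d * i) := by
      intro s _
      rw [norm_mul, norm_ee, one_mul, Complex.norm_real, Real.norm_eq_abs]
      refine (two_classes hd hq hr).trans ?_
      exact sum_le_sum fun i _ => EM_mono (hx'.trans hx)
    refine (sum_le_sum h2).trans ?_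
    rw [sum_const, card_range, nsmul_eq_mul]
  have h1 : SA x d r (t * α) = ∑ n ∈ Icc 1 x, (((la n : ℝ) : ℂ) * Ec d r (t * (ρ : ℝ)) n) * ee (n * (t * (α - ρ))) := by
    unfold SA
    apply sum_congr rfl
    intro n _
    rw [mul_assoc]
    congr 1
    unfold Ec
    split_ifs
    · rw [← ee_add]
      congr 1
      ring
    · rw [zero_mul]
  rw [h1]
  refine (part_sum _ _ _ x hA).trans ?_
  have h2 : |(t : ℝ) * (α - ρ)| = t * |α - ρ| := by rw [abs_mul, Nat.abs_cast]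
  rw [h2]
  apply mul_le_mul_of_nonneg_left _ (by positivity)
  have h3 : (x : ℝ) ≤ h := by exact_mod_cast hx
  have h4 : 0 ≤ 2 * Real.pi * (t * |α - (ρ : ℝ)|) := by
    have := Real.pi_pos
    positivity
  have := mul_le_mul_of_nonneg_right h3 h4
  linarith

end Pool.Agent.H530.Hx
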