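import Pool.Agent.H530.HxF

/-! Few pairs of moduli have a large common factor with a given denominator. -/

set_option autoImplicit false

namespace Pool.Agent.H530.Hx

open Finset Pool.Agent.H373R2.T7 Pool.Agent.H530.Ha

lemma gcd_prod (q0 : ℕ) (T : Finset ℕ) (hT : ∀ p ∈ T, p.Prime) :
    Nat.gcd q0 (∏ p ∈ T, p) = ∏ p ∈ T, Nat.gcd q0 p := by
  classical
  induction T using Finset.induction_on with
  | empty => simp
  | insert p T hp ih =>
    rw [prod_insert hp, prod_insert hp]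
    have hco : Nat.Coprime p (∏ p ∈ T, p) := by
      apply Nat.Coprime.prod_right
      intro r hr
      rw [Nat.coprime_primes (hT p (mem_insert_self _ _)) (hT r (mem_insert_of_mem hr))]
      rintro rfl
      exact hp hr
    rw [Nat.Coprime.gcd_mul _ hco, ih (fun r hr => hT r (mem_insert_of_mem hr))]

lemma one_add_le_prod {P : Finset ℕ} {y κ : ℕ} (hP : P ⊆ pz y) : ∏ p ∈ P, (1 + (κ : ℝ) / p) ≤ WW y κ := by
  have h := euler hP κ (∏ p ∈ P, p)
  refine le_trans (le_of_eq ?_) h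
  have hPp : ∀ p ∈ P, p.Prime := fun p hp => (mem_pz.1 (hP hp)).2
  have e1 : Sm P (∏ p ∈ P, p) = P.powerset := by
    unfold Sm
    rw [filter_eq_self]
    intro T hT
    rw [mem_powerset] at hT
    exact Nat.le_of_dvd (Nat.pos_of_ne_zero (prod_ne_zero_iff.2 fun p hp => (hPp p hp).ne_zero))
      (prod_dvd_prod_of_subset _ _ _ hT)
  rw [e1, prod_one_add]
  apply sum_congr rfl
  intro T _
  rw [prod_div_distrib, prod_const]
  push_cast
  rfl

lemma WW_nonneg (y κ : ℕ) : 0 ≤ WW y κ := by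
  unfold WW
  have := (Pool.Agent.H530.Ha.Vz_pos y).le
  positivity

lemma wsum {P : Finset ℕ} {y κ D q0 : ℕ} (hP : P ⊆ pz y) (hq : 1 ≤ q0) :
    ∑ T ∈ Sm P D, (κ : ℝ) ^ T.card * √((Nat.gcd q0 (∏ p ∈ T, p) : ℕ) : ℝ) / ((∏ p ∈ T, p : ℕ) : ℝ) ≤
      WW y κ * ((1 + κ : ℕ) : ℝ) ^ q0.primeFactors.card := by
  have hPp : ∀ p ∈ P, p.Prime := fun p hp => (mem_pz.1 (hP hp)).2
  calc ∑ T ∈ Sm P D, (κ : ℝ) ^ T.card * √((Nat.gcd q0 (∏ p ∈ T, p) : ℕ) : ℝ) / ((∏ p ∈ T, p : ℕ) : ℝ) ≤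
      ∑ T ∈ P.powerset, ∏ p ∈ T, ((κ : ℝ) * √((Nat.gcd q0 p : ℕ) : ℝ) / p) := by
        refine le_trans (sum_le_sum_of_subset_of_nonneg (filter_subset _ _) (fun T _ _ => by positivity)) ?_
        apply sum_le_sum
        intro T hT
        rw [mem_powerset] at hT
        have hTp : ∀ p ∈ T, p.Prime := fun p hp => hPp p (hT hp)
        rw [prod_div_distrib, prod_mul_distrib, prod_const, gcd_prod q0 T hTp]
        push_cast
        rw [Real.sqrt_prod _ (fun p _ => Nat.cast_nonneg _)]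
    _ = ∏ p ∈ P, (1 + (κ : ℝ) * √((Nat.gcd q0 p : ℕ) : ℝ) / p) := by rw [prod_one_add]
    _ ≤ ∏ p ∈ P, ((1 + (κ : ℝ) / p) * (if p ∣ q0 then ((1 + κ : ℕ) : ℝ) else 1)) := by
        apply prod_le_prod (fun p _ => by positivity)
        intro p hp
        have hpp := hPp p hp
        have hp0 : (0 : ℝ) < p := by exact_mod_cast hpp.pos
        have hp1 : (1 : ℝ) ≤ p := by exact_mod_cast hpp.one_lt.le
        split_ifs with hd
        · rw [Nat.gcd_eq_right hd]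
          have h1 : √(p : ℝ) / p ≤ 1 := by
            rw [div_le_one hp0]
            rw [Real.sqrt_le_left (by linarith)]
            nlinarith
          have h2 : (κ : ℝ) * √(p : ℝ) / p = κ * (√(p : ℝ) / p) := by ring
          have h3 : (κ : ℝ) * (√(p : ℝ) / p) ≤ κ * 1 := mul_le_mul_of_nonneg_left h1 (Nat.cast_nonneg _)
          have h4 : (0 : ℝ) ≤ (κ : ℝ) / p * (1 + κ) := by positivity
          rw [h2]
          push_cast
          nlinarith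
        · have h1 : Nat.gcd q0 p = 1 := by
            rw [Nat.gcd_comm]
            exact (Nat.Prime.coprime_iff_not_dvd hpp).2 hd
          rw [h1, Nat.cast_one, Real.sqrt_one, mul_one, mul_one]
    _ = (∏ p ∈ P, (1 + (κ : ℝ) / p)) * ((1 + κ : ℕ) : ℝ) ^ (P.filter (fun p => p ∣ q0)).card := by
        rw [prod_mul_distrib]
        congr 1
        rw [← prod_filter, prod_const]
    _ ≤ WW y κ * ((1 + κ : ℕ) : ℝ) ^ q0.primeFactors.card := by
        apply mul_le_mul (one_add_le_prod hP) _ (by positivity) (WW_nonneg _ _)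
        apply pow_le_pow_right₀
        · push_cast
          have : (0 : ℝ) ≤ κ := Nat.cast_nonneg _
          linarith
        · apply card_le_card
          intro p hp
          rw [mem_filter] at hp
          rw [Nat.mem_primeFactors]
          exact ⟨hPp p hp.1, hp.2, by omega⟩

lemma omega_bd (K q : ℕ) (hK : 1 ≤ K) (hq : 1 ≤ q) : K ^ q.primeFactors.card ≤ K ^ K * q := by
  have h1 : q.primeFactors.card = (q.primeFactors.filter (fun p => p ≤ K)).card +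
      (q.primeFactors.filter (fun p => ¬ p ≤ K)).card := (card_filter_add_card_filter_not _).symm
  rw [h1, pow_add]
  apply Nat.mul_le_mul
  · apply Nat.pow_le_pow_right hK
    have : q.primeFactors.filter (fun p => p ≤ K) ⊆ Icc 1 K := by
      intro p hp
      rw [mem_filter, Nat.mem_primeFactors] at hp
      rw [mem_Icc]
      exact ⟨hp.1.1.pos, hp.2⟩
    have := card_le_card this
    rwa [Nat.card_Icc, Nat.add_sub_cancel] at this
  · calc K ^ (q.primeFactors.filter (fun p => ¬ p ≤ K)).card =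
        ∏ p ∈ q.primeFactors.filter (fun p => ¬ p ≤ K), K := by rw [prod_const]
      _ ≤ ∏ p ∈ q.primeFactors.filter (fun p => ¬ p ≤ K), p := by
          apply prod_le_prod (fun _ _ => Nat.zero_le _)
          intro p hp
          rw [mem_filter] at hp
          omega
      _ ≤ q := by
          apply Nat.le_of_dvd hq
          exact (prod_dvd_prod_of_subset _ _ _ (filter_subset _ _)).trans (Nat.prod_primeFactors_dvd q)

open Classical in
/-- few pairs -/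
lemma rankin {P : Finset ℕ} {y κ D q0 : ℕ} (hP : P ⊆ pz y) (hq : 1 ≤ q0) {Ω : ℝ}
    (bad : Finset ℕ → Finset ℕ → Prop)
    (hbad : ∀ U ∈ Sm P D, ∀ V ∈ Sm P D, bad U V → ∃ w : ℕ, 1 ≤ w ∧ (w : ℝ) ≤ Ω ∧
      q0 ∣ (∏ p ∈ U, p) * (∏ p ∈ V, p) ^ 2 * w) :
    ∑ U ∈ Sm P D, ∑ V ∈ Sm P D, (if bad U V then
      (κ : ℝ) ^ V.card / (((∏ p ∈ U, p : ℕ) : ℝ) * ((∏ p ∈ V, p : ℕ) : ℝ)) else 0) ≤
      √(√(Ω / q0)) * (WW y 1 * WW y κ * ((2 + 2 * κ : ℕ) : ℝ) ^ q0.primeFactors.card) := by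
  have hPp : ∀ p ∈ P, p.Prime := fun p hp => (mem_pz.1 (hP hp)).2
  have hq0 : (0 : ℝ) < q0 := by exact_mod_cast hq
  have hterm : ∀ U ∈ Sm P D, ∀ V ∈ Sm P D, (if bad U V then
      (κ : ℝ) ^ V.card / (((∏ p ∈ U, p : ℕ) : ℝ) * ((∏ p ∈ V, p : ℕ) : ℝ)) else 0) ≤
      √(√(Ω / q0)) * ((((1 : ℕ) : ℝ) ^ U.card * √((Nat.gcd q0 (∏ p ∈ U, p) : ℕ) : ℝ) / ((∏ p ∈ U, p : ℕ) : ℝ)) *
        ((κ : ℝ) ^ V.card * √((Nat.gcd q0 (∏ p ∈ V, p) : ℕ) : ℝ) / ((∏ p ∈ V, p : ℕ) : ℝ))) := by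
    intro U hU V hV
    have hu := Sm_pos hPp hU
    have hv := Sm_pos hPp hV
    obtain ⟨u, hu'⟩ : ∃ u, u = ∏ p ∈ U, p := ⟨_, rfl⟩
    obtain ⟨v, hv'⟩ : ∃ v, v = ∏ p ∈ V, p := ⟨_, rfl⟩
    have hb := hbad U hU V hV
    rw [← hu'] at hu hb ⊢
    rw [← hv'] at hv hb ⊢
    have hur : (0 : ℝ) < u := by exact_mod_cast hu
    have hvr : (0 : ℝ) < v := by exact_mod_cast hv
    split_ifs with hbd
    · obtain ⟨w, hw1, hwΩ, hd⟩ := hb hbd
      obtain ⟨gu, hgu⟩ : ∃ gu, gu = Nat.gcd q0 u := ⟨_, rfl⟩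
      obtain ⟨gv, hgv⟩ : ∃ gv, gv = Nat.gcd q0 v := ⟨_, rfl⟩
      rw [← hgu, ← hgv]
      have hgu1 : 1 ≤ gu := by rw [hgu]; exact Nat.gcd_pos_of_pos_left _ hq
      have hgv1 : 1 ≤ gv := by rw [hgv]; exact Nat.gcd_pos_of_pos_left _ hq
      have h1 : q0 ≤ gu * gv ^ 2 * w := by
        have h2 : q0 = Nat.gcd q0 (u * v ^ 2 * w) := (Nat.gcd_eq_left hd).symm
        have h3 : Nat.gcd q0 (u * v ^ 2 * w) ∣ Nat.gcd q0 (u * v ^ 2) * Nat.gcd q0 w := Nat.gcd_mul_right_dvd_mul_gcd _ _ _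
        have h4 : Nat.gcd q0 (u * v ^ 2) ∣ Nat.gcd q0 u * Nat.gcd q0 (v ^ 2) := Nat.gcd_mul_right_dvd_mul_gcd _ _ _
        have h5 : Nat.gcd q0 (v ^ 2) ∣ gv ^ 2 := by
          rw [pow_two, pow_two, hgv]
          exact Nat.gcd_mul_right_dvd_mul_gcd _ _ _
        have h6 : Nat.gcd q0 (u * v ^ 2 * w) ∣ gu * gv ^ 2 * w := by
          exact h3.trans (mul_dvd_mul (h4.trans (mul_dvd_mul (by rw [hgu]) h5)) (Nat.gcd_dvd_right _ _))
        rw [← h2] at h6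
        apply Nat.le_of_dvd _ h6
        positivity
      have h2 : (1 : ℝ) ≤ (gu : ℝ) * gv ^ 2 * (Ω / q0) := by
        have h3 : (q0 : ℝ) ≤ gu * gv ^ 2 * w := by exact_mod_cast h1
        have h4 : (gu : ℝ) * gv ^ 2 * w ≤ gu * gv ^ 2 * Ω := mul_le_mul_of_nonneg_left hwΩ (by positivity)
        rw [← mul_div_assoc, le_div_iff₀ hq0, one_mul]
        linarith
      have hgur : (1 : ℝ) ≤ gu := by exact_mod_cast hgu1
      have hgvr : (1 : ℝ) ≤ gv := by exact_mod_cast hgv1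
      have hΩ0 : 0 ≤ Ω / q0 := by
        have : (0 : ℝ) ≤ Ω := (Nat.cast_nonneg w).trans hwΩ
        positivity
      have h3 : (1 : ℝ) ≤ √(√(Ω / q0)) * (√(gu : ℝ) * √(gv : ℝ)) := by
        have h4 : (1 : ℝ) ≤ √(√((gu : ℝ) ^ 2 * gv ^ 2 * (Ω / q0))) := by
          rw [Real.one_le_sqrt, Real.one_le_sqrt]
          refine h2.trans ?_
          apply mul_le_mul_of_nonneg_right _ hΩ0
          apply mul_le_mul_of_nonneg_right _ (by positivity)
          nlinarith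
        refine h4.trans (le_of_eq ?_)
        have h5 : (gu : ℝ) ^ 2 * gv ^ 2 * (Ω / q0) = (gu * gv) ^ 2 * (Ω / q0) := by ring
        rw [h5, Real.sqrt_mul (by positivity), Real.sqrt_sq (by positivity), Real.sqrt_mul (by positivity),
          Real.sqrt_mul (by positivity)]
        ring
      have h6 : (0 : ℝ) ≤ (κ : ℝ) ^ V.card / ((u : ℝ) * v) := by positivity
      calc (κ : ℝ) ^ V.card / ((u : ℝ) * v) = 1 * ((κ : ℝ) ^ V.card / ((u : ℝ) * v)) := (one_mul _).symm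
        _ ≤ √(√(Ω / q0)) * (√(gu : ℝ) * √(gv : ℝ)) * ((κ : ℝ) ^ V.card / ((u : ℝ) * v)) :=
            mul_le_mul_of_nonneg_right h3 h6
        _ = _ := by
            rw [Nat.cast_one, one_pow]
            field_simp
    · positivity
  refine (sum_le_sum fun U hU => sum_le_sum fun V hV => hterm U hU V hV).trans ?_
  have e1 : ∑ U ∈ Sm P D, ∑ V ∈ Sm P D, √(√(Ω / q0)) *
      ((((1 : ℕ) : ℝ) ^ U.card * √((Nat.gcd q0 (∏ p ∈ U, p) : ℕ) : ℝ) / ((∏ p ∈ U, p : ℕ) : ℝ)) *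
        ((κ : ℝ) ^ V.card * √((Nat.gcd q0 (∏ p ∈ V, p) : ℕ) : ℝ) / ((∏ p ∈ V, p : ℕ) : ℝ))) =
      √(√(Ω / q0)) * ((∑ U ∈ Sm P D, ((1 : ℕ) : ℝ) ^ U.card * √((Nat.gcd q0 (∏ p ∈ U, p) : ℕ) : ℝ) / ((∏ p ∈ U, p : ℕ) : ℝ)) *
        ∑ V ∈ Sm P D, (κ : ℝ) ^ V.card * √((Nat.gcd q0 (∏ p ∈ V, p) : ℕ) : ℝ) / ((∏ p ∈ V, p : ℕ) : ℝ)) := by
    rw [sum_mul_sum, mul_sum]
    apply sum_congr rfl
    intro U _
    rw [mul_sum]
  rw [e1]
  apply mul_le_mul_of_nonneg_left _ (Real.sqrt_nonneg _)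
  have w1 := wsum (D := D) (κ := 1) hP hq
  have w2 := wsum (D := D) (κ := κ) hP hq
  refine (mul_le_mul w1 w2 (sum_nonneg fun V _ => by positivity) (mul_nonneg (WW_nonneg _ _) (by positivity))).trans
    (le_of_eq ?_)
  have e2 : ((2 + 2 * κ : ℕ) : ℝ) = ((1 + 1 : ℕ) : ℝ) * ((1 + κ : ℕ) : ℝ) := by
    push_cast
    ring
  rw [e2, mul_pow]
  ring

end Pool.Agent.H530.Hx
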