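import Pool.Agent.H530.HxG

/-! One pair of moduli: the minor arcs, or the frequency is near to a certain rational number. -/

set_option autoImplicit false

namespace Pool.Agent.H530.Hx

open Finset Pool.Agent.H373R2.T7 Pool.Agent.H807R2.Dav Pool.Agent.H530.Ha

lemma sq_le_aux {x l s : ℝ} (hx : 1 ≤ x) (hs : 1 ≤ s) (h1 : x ^ 16 ≤ s) (h2 : l ^ 2 ≤ s) :
    x ^ 2 * l ≤ s := by
  have h3 : (x ^ 2 * l) ^ 2 ≤ s ^ 2 := by
    have h4 : x ^ 4 ≤ s := (pow_le_pow_right₀ hx (by norm_num)).trans h1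
    calc (x ^ 2 * l) ^ 2 = x ^ 4 * l ^ 2 := by ring
      _ ≤ s * s := mul_le_mul h4 h2 (by positivity) (by linarith)
      _ = s ^ 2 := by ring
  exact le_of_pow_le_pow_left₀ (by norm_num) (by linarith) h3

theorem pair_dich (A B' q : ℕ) : ∃ B X0 : ℕ, ∀ X : ℕ, X0 ≤ X → ∀ H : ℕ, X ≤ H →
    (H : ℝ) ≤ X * Real.log X ^ B' → ∀ D : ℕ, D ^ 64 ≤ X → ∀ G M : ℕ, 1 ≤ G → G ≤ q → 1 ≤ M → M ≤ q →
    ∀ u v : ℕ, 1 ≤ u → u ≤ D → 1 ≤ v → v ≤ D → ∀ α : ℝ,
    EA (H / (G * u)) (M * v) (((G * u : ℕ) : ℝ) * α) ≤ H * (2 ^ A / Real.log X ^ A) / (u * v) ∨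
    ∃ (ρ : ℚ) (w : ℕ), 1 ≤ w ∧ (w : ℝ) ≤ q ^ 3 * (2 * Real.log X) ^ B ∧ ρ.den ∣ u * v ^ 2 * w ∧
      |α - ρ| ≤ 2 * (2 * Real.log X) ^ B / H := by
  obtain ⟨B, H0, hlam⟩ := lam_cls A
  obtain ⟨X1, hX1⟩ := ev_log' 0 ((4 * q : ℝ) ^ 32)
  obtain ⟨X2, hX2⟩ := ev_log' (2 * B) (2 ^ (2 * B))
  obtain ⟨X3, hX3⟩ := ev_log' B' 1
  obtain ⟨X4, hX4⟩ := ev_L' 2
  refine ⟨B + 2 * (A + 2), X1 + X2 + X3 + X4 + H0 ^ 2 + 16, ?_⟩
  intro X hX H hXH hHX D hD G M hG1 hGq hM1 hMq u v hu1 huD hv1 hvD α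
  obtain ⟨L, hL⟩ : ∃ L : ℝ, L = Real.log X := ⟨_, rfl⟩
  have g1 := hX1 X (by omega)
  have g2 := hX2 X (by omega)
  have g3 := hX3 X (by omega)
  have g4 := hX4 X (by omega)
  rw [pow_zero, mul_one] at g1
  rw [one_mul] at g3
  rw [← hL] at g2 g3 g4 hHX ⊢
  obtain ⟨s, hs⟩ : ∃ s : ℝ, s = √(X : ℝ) := ⟨_, rfl⟩
  have hX16 : (16 : ℝ) ≤ X := by exact_mod_cast (by omega : 16 ≤ X)
  have hss : s * s = X := by rw [hs]; exact Real.mul_self_sqrt (by linarith)
  have hs4 : 4 ≤ s := by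
    rw [hs]
    apply Real.le_sqrt_of_sq_le
    linarith
  rw [← hs] at g1 g2 g3
  have hX4s : 4 * s ≤ X := by
    rw [← hss]
    exact mul_le_mul_of_nonneg_right hs4 (by linarith)
  have hL1 : 1 ≤ L := by linarith
  have hq1 : 1 ≤ q := hG1.trans hGq
  have hqr : (1 : ℝ) ≤ q := by exact_mod_cast hq1
  have hD1 : 1 ≤ D := hu1.trans huD
  have hDr : (1 : ℝ) ≤ D := by exact_mod_cast hD1
  -- sizes
  obtain ⟨x, hx⟩ : ∃ x : ℝ, x = 4 * q * D := ⟨_, rfl⟩
  have hx1 : 1 ≤ x := by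
    rw [hx]
    have : (1 : ℝ) ≤ q * D := one_le_mul_of_one_le_of_one_le hqr hDr
    linarith
  have hx16 : x ^ 16 ≤ s := by
    have h1 : (x ^ 16) ^ 2 ≤ s ^ 2 := by
      have h2 : (D : ℝ) ^ 32 ≤ s := by
        rw [hs]
        apply Real.le_sqrt_of_sq_le
        have : (D : ℝ) ^ 64 ≤ X := by exact_mod_cast hD
        have h5 : ((D : ℝ) ^ 32) ^ 2 = (D : ℝ) ^ 64 := by rw [← pow_mul]
        rw [h5]
        exact this
      calc (x ^ 16) ^ 2 = (4 * q : ℝ) ^ 32 * (D : ℝ) ^ 32 := by rw [hx]; ring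
        _ ≤ s * s := mul_le_mul g1 h2 (by positivity) (by linarith)
        _ = s ^ 2 := by ring
    exact le_of_pow_le_pow_left₀ (by norm_num) (by linarith) h1
  have hxs : x ≤ s := (le_self_pow₀ hx1 (by norm_num)).trans hx16
  have hqD : (q : ℝ) * D ≤ s / 4 := by
    rw [hx] at hxs
    linarith
  have hur : (1 : ℝ) ≤ u := by exact_mod_cast hu1
  have hvr : (1 : ℝ) ≤ v := by exact_mod_cast hv1
  have hGr : (1 : ℝ) ≤ G := by exact_mod_cast hG1
  have hMr : (1 : ℝ) ≤ M := by exact_mod_cast hM1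
  have hGu : (G : ℝ) * u ≤ q * D := mul_le_mul (by exact_mod_cast hGq) (by exact_mod_cast huD) (by linarith) (by linarith)
  have hMv : (M : ℝ) * v ≤ q * D := mul_le_mul (by exact_mod_cast hMq) (by exact_mod_cast hvD) (by linarith) (by linarith)
  obtain ⟨t, ht⟩ : ∃ t : ℕ, t = G * u := ⟨_, rfl⟩
  obtain ⟨d, hd⟩ : ∃ d : ℕ, d = M * v := ⟨_, rfl⟩
  have ht1 : 1 ≤ t := by rw [ht]; exact Nat.mul_pos hG1 hu1
  have hd1 : 1 ≤ d := by rw [hd]; exact Nat.mul_pos hM1 hv1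
  have htr : (t : ℝ) ≤ q * D := by rw [ht]; push_cast; exact hGu
  have hdr : (d : ℝ) ≤ q * D := by rw [hd]; push_cast; exact hMv
  have ht0 : (1 : ℝ) ≤ t := by exact_mod_cast ht1
  have hd0 : (1 : ℝ) ≤ d := by exact_mod_cast hd1
  obtain ⟨Hu, hHu⟩ : ∃ Hu : ℕ, Hu = H / t := ⟨_, rfl⟩
  rw [← ht, ← hd, ← hHu]
  have hHr : (X : ℝ) ≤ H := by exact_mod_cast hXH
  have hHt : (H : ℝ) < t * (Hu + 1) := by
    have : H < t * (Hu + 1) := by
      rw [hHu]
      exact Nat.lt_mul_div_succ _ (by omega)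
    exact_mod_cast this
  have hHt2 : (t : ℝ) * Hu ≤ H := by
    have : t * Hu ≤ H := by
      rw [hHu]
      exact Nat.mul_div_le _ _
    exact_mod_cast this
  have hHtl : (H : ℝ) / 2 ≤ t * Hu := by
    have h1 : (t : ℝ) ≤ X / 2 := by linarith
    linarith
  have hHus : s ≤ Hu := by
    by_contra hcon
    push Not at hcon
    have h1 : (t : ℝ) * (Hu + 1) ≤ s / 4 * (s + 1) :=
      mul_le_mul (htr.trans hqD) (by linarith) (by positivity) (by linarith)
    have h2 : s / 4 * (s + 1) = X / 4 + s / 4 := by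
      rw [← hss]
      ring
    linarith
  have hHuH : (Hu : ℝ) ≤ H := by
    have : Hu ≤ H := by rw [hHu]; exact Nat.div_le_self _ _
    exact_mod_cast this
  have hHu1 : (1 : ℝ) ≤ Hu := by linarith
  -- logarithms
  have hlog1 : L / 2 ≤ Real.log Hu := by
    have h1 : Real.log s ≤ Real.log Hu := Real.log_le_log (by linarith) hHus
    have h2 : Real.log s = Real.log X / 2 := by
      rw [hs, Real.log_sqrt (by linarith)]
    rw [h2, ← hL] at h1
    exact h1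
  have hlog2 : Real.log Hu ≤ 2 * L := by
    have h1 : (Hu : ℝ) ≤ X ^ 2 := by
      have h2 : L ^ B' ≤ X := g3.trans (by linarith)
      calc (Hu : ℝ) ≤ H := hHuH
        _ ≤ X * L ^ B' := hHX
        _ ≤ X * X := mul_le_mul_of_nonneg_left h2 (by linarith)
        _ = _ := by ring
    have h2 := Real.log_le_log (by linarith) h1
    rw [Real.log_pow, ← hL] at h2
    push_cast at h2
    exact h2
  obtain ⟨ℓ, hℓ⟩ : ∃ ℓ : ℝ, ℓ = Real.log Hu := ⟨_, rfl⟩
  have hH0 : H0 ≤ Hu := by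
    have h1 : (H0 : ℝ) ≤ s := by
      rw [hs]
      apply Real.le_sqrt_of_sq_le
      exact_mod_cast (by omega : H0 ^ 2 ≤ X)
    exact_mod_cast h1.trans hHus
  have hd16 : d ^ 16 ≤ Hu := by
    have h1 : (d : ℝ) ^ 16 ≤ Hu := by
      have h2 : (d : ℝ) ≤ x := by
        rw [hx]
        have : (0 : ℝ) ≤ q * D := by positivity
        linarith
      exact (pow_le_pow_left₀ (by linarith) h2 16).trans (hx16.trans hHus)
    exact_mod_cast h1
  have hlamH := hlam Hu hH0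
  rw [← hℓ] at hlog1 hlog2 hlamH
  have hℓ1 : 1 ≤ ℓ := by linarith
  by_cases hgood : ∀ e : ℕ, 1 ≤ e → (e : ℝ) ≤ ℓ ^ (A + 2) →
      Gd (d * ((e : ℝ) ^ 2 * ((t : ℝ) * α))) (ℓ ^ B) (Hu / (d * ℓ ^ B)) ∧
      Gd ((d : ℝ) ^ 2 * ((e : ℝ) ^ 2 * ((t : ℝ) * α))) (ℓ ^ B) (Hu / (d ^ 2 * ℓ ^ B))
  · left
    have hbound : EA Hu d ((t : ℝ) * α) ≤ Hu / (d * ℓ ^ A) := by
      apply EA_le_of (by positivity)
      intro x' hx' r hr
      exact hlamH d r hd1 hd16 hr ((t : ℝ) * α) hgood x' hx'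
    refine hbound.trans ?_
    have h1 : (L / 2) ^ A ≤ ℓ ^ A := pow_le_pow_left₀ (by linarith) hlog1 A
    have h2 : (u : ℝ) * v ≤ t * d := by
      rw [ht, hd]
      push_cast
      have h3 : (u : ℝ) ≤ G * u := le_mul_of_one_le_left (by linarith) hGr
      have h4 : (v : ℝ) ≤ M * v := le_mul_of_one_le_left (by linarith) hMr
      exact mul_le_mul h3 h4 (by linarith) (by positivity)
    rw [div_le_div_iff₀ (by positivity) (by positivity)]
    have h5 : (Hu : ℝ) * (u * v) ≤ H * d := by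
      calc (Hu : ℝ) * (u * v) ≤ Hu * (t * d) := mul_le_mul_of_nonneg_left h2 (by linarith)
        _ = (t * Hu) * d := by ring
        _ ≤ H * d := mul_le_mul_of_nonneg_right hHt2 (by linarith)
    have hLA : 0 < L ^ A := by positivity
    have h6 : (1 : ℝ) ≤ 2 ^ A / L ^ A * ℓ ^ A := by
      rw [div_mul_eq_mul_div, le_div_iff₀ hLA, one_mul]
      have h7 : (L / 2) ^ A * 2 ^ A = L ^ A := by
        rw [← mul_pow]
        congr 1
        ring
      calc L ^ A = (L / 2) ^ A * 2 ^ A := h7.symm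
        _ ≤ ℓ ^ A * 2 ^ A := mul_le_mul_of_nonneg_right h1 (by positivity)
        _ = _ := by ring
    have h8 : (0 : ℝ) ≤ H * d := by positivity
    calc (Hu : ℝ) * (u * v) ≤ H * d * 1 := by linarith
      _ ≤ H * d * (2 ^ A / L ^ A * ℓ ^ A) := mul_le_mul_of_nonneg_left h6 h8
      _ = _ := by ring
  · right
    push Not at hgood
    obtain ⟨e, he1, heA, hbad⟩ := hgood
    have he0 : (1 : ℝ) ≤ e := by exact_mod_cast he1
    have hlB : (1 : ℝ) ≤ ℓ ^ B := one_le_pow₀ hℓ1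
    have hlB2 : ℓ ^ B ≤ (2 * L) ^ B := pow_le_pow_left₀ (by linarith) hlog2 B
    have hcond : (d : ℝ) ^ 2 * ℓ ^ B ≤ Hu := by
      have h1 : x ^ 2 * (2 * L) ^ B ≤ s := by
        apply sq_le_aux hx1 (by linarith) hx16
        rw [← pow_mul, mul_comm B 2, mul_pow]
        exact g2
      have h2 : (d : ℝ) ≤ x := by
        rw [hx]
        have : (0 : ℝ) ≤ q * D := by positivity
        linarith
      calc (d : ℝ) ^ 2 * ℓ ^ B ≤ x ^ 2 * (2 * L) ^ B :=
            mul_le_mul (pow_le_pow_left₀ (by linarith) h2 2) hlB2 (by positivity) (by positivity)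
        _ ≤ s := h1
        _ ≤ Hu := hHus
    -- the common conclusion
    have hconc : ∀ (S : ℕ) (hi : ℝ), 1 ≤ S → 1 ≤ hi → (t : ℝ) * Hu ≤ S * hi * ℓ ^ B → S ∣ t * d ^ 2 * e ^ 2 →
        ¬ Gd (S * α) (ℓ ^ B) hi → ∃ (ρ : ℚ) (w : ℕ), 1 ≤ w ∧ (w : ℝ) ≤ q ^ 3 * (2 * L) ^ (B + 2 * (A + 2)) ∧
          ρ.den ∣ u * v ^ 2 * w ∧ |α - ρ| ≤ 2 * (2 * L) ^ (B + 2 * (A + 2)) / H := by
      intro S hi hS1 hhi hShi hSd hnG
      obtain ⟨ρ, w, hw1, hwl, hden, hdist⟩ := bad_rat hS1 hhi hnG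
      refine ⟨ρ, G * M ^ 2 * e ^ 2 * w, ?_, ?_, ?_, ?_⟩
      · have h1 : 0 < G * M ^ 2 * e ^ 2 * w := by positivity
        exact h1
      · push_cast
        have h1 : (G : ℝ) * M ^ 2 ≤ q ^ 3 := by
          calc (G : ℝ) * M ^ 2 ≤ q * q ^ 2 := by
                apply mul_le_mul (by exact_mod_cast hGq) _ (by positivity) (by positivity)
                exact pow_le_pow_left₀ (by linarith) (by exact_mod_cast hMq) 2
            _ = _ := by ring
        have h2 : (e : ℝ) ^ 2 ≤ (2 * L) ^ (2 * (A + 2)) := by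
          calc (e : ℝ) ^ 2 ≤ (ℓ ^ (A + 2)) ^ 2 := pow_le_pow_left₀ (by linarith) heA 2
            _ = ℓ ^ (2 * (A + 2)) := by rw [← pow_mul, mul_comm]
            _ ≤ _ := pow_le_pow_left₀ (by linarith) hlog2 _
        have h3 : (w : ℝ) ≤ (2 * L) ^ B := hwl.le.trans hlB2
        calc (G : ℝ) * M ^ 2 * e ^ 2 * w ≤ q ^ 3 * (2 * L) ^ (2 * (A + 2)) * (2 * L) ^ B := by
              apply mul_le_mul _ h3 (by positivity) (by positivity)
              exact mul_le_mul h1 h2 (by positivity) (by positivity)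
          _ = _ := by rw [pow_add]; ring
      · have h1 : t * d ^ 2 * e ^ 2 * w = u * v ^ 2 * (G * M ^ 2 * e ^ 2 * w) := by
          rw [ht, hd]
          ring
        rw [← h1]
        exact hden.trans (Nat.mul_dvd_mul_right hSd w)
      · refine hdist.trans ?_
        have hSr : (1 : ℝ) ≤ S := by exact_mod_cast hS1
        have hHpos : (0 : ℝ) < H := by linarith
        rw [div_le_div_iff₀ (by positivity) hHpos, one_mul]
        have h1 : (2 * L) ^ B ≤ (2 * L) ^ (B + 2 * (A + 2)) := pow_le_pow_right₀ (by linarith) (by omega)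
        have h2 : (0 : ℝ) ≤ S * hi := by positivity
        calc (H : ℝ) ≤ 2 * (t * Hu) := by linarith
          _ ≤ 2 * (S * hi * ℓ ^ B) := by linarith
          _ ≤ 2 * (S * hi * (2 * L) ^ (B + 2 * (A + 2))) := by
              have := mul_le_mul_of_nonneg_left (hlB2.trans h1) h2
              linarith
          _ = _ := by ring
    have hdpos : (0 : ℝ) < d * ℓ ^ B := by positivity
    have hd2pos : (0 : ℝ) < (d : ℝ) ^ 2 * ℓ ^ B := by positivity
    by_cases h1 : Gd (d * ((e : ℝ) ^ 2 * ((t : ℝ) * α))) (ℓ ^ B) (Hu / (d * ℓ ^ B))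
    · have h2 := hbad h1
      apply hconc (d ^ 2 * e ^ 2 * t) (Hu / (d ^ 2 * ℓ ^ B))
      · have : 0 < d ^ 2 * e ^ 2 * t := by positivity
        exact this
      · rw [le_div_iff₀ hd2pos, one_mul]
        exact hcond
      · have e1 : (((d ^ 2 * e ^ 2 * t : ℕ) : ℝ)) * (Hu / (d ^ 2 * ℓ ^ B)) * ℓ ^ B = (e : ℝ) ^ 2 * (t * Hu) := by
          push_cast
          field_simp
        rw [e1]
        have h3 : (1 : ℝ) ≤ (e : ℝ) ^ 2 := one_le_pow₀ he0
        have h4 : (0 : ℝ) ≤ t * Hu := by positivity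
        exact le_mul_of_one_le_left h4 h3
      · exact Dvd.intro_left 1 (by ring)
      · intro h3
        apply h2
        have e1 : (((d ^ 2 * e ^ 2 * t : ℕ) : ℝ)) * α = (d : ℝ) ^ 2 * ((e : ℝ) ^ 2 * ((t : ℝ) * α)) := by
          push_cast
          ring
        rw [← e1]
        exact h3
    · apply hconc (d * e ^ 2 * t) (Hu / (d * ℓ ^ B))
      · have : 0 < d * e ^ 2 * t := by positivity
        exact this
      · rw [le_div_iff₀ hdpos, one_mul]
        refine le_trans ?_ hcond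
        apply mul_le_mul_of_nonneg_right _ (by positivity)
        exact le_self_pow₀ hd0 two_ne_zero
      · have e1 : (((d * e ^ 2 * t : ℕ) : ℝ)) * (Hu / (d * ℓ ^ B)) * ℓ ^ B = (e : ℝ) ^ 2 * (t * Hu) := by
          push_cast
          field_simp
        rw [e1]
        have h3 : (1 : ℝ) ≤ (e : ℝ) ^ 2 := one_le_pow₀ he0
        have h4 : (0 : ℝ) ≤ t * Hu := by positivity
        exact le_mul_of_one_le_left h4 h3
      · exact Dvd.intro_left d (by ring)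
      · intro h3
        apply h1
        have e1 : (((d * e ^ 2 * t : ℕ) : ℝ)) * α = (d : ℝ) * ((e : ℝ) ^ 2 * ((t : ℝ) * α)) := by
          push_cast
          ring
        rw [← e1]
        exact h3

end Pool.Agent.H530.Hx
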