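import Pool.Agent.H530.HxH

/-! The total error with a phase. -/

set_option autoImplicit false

namespace Pool.Agent.H530.Hx

open Finset Pool.Agent.H373R2.T7 Pool.Agent.H807R2.Dav Pool.Agent.H530.Ha

/-- the total error for one length and one frequency -/
noncomputable def TA (H κ G M D : ℕ) (P : Finset ℕ) (α : ℝ) : ℝ :=
  ∑ U ∈ Sm P D, ∑ V ∈ Sm P D, (κ : ℝ) ^ V.card *
    EA (H / (G * ∏ p ∈ U, p)) (M * ∏ p ∈ V, p) (((G * ∏ p ∈ U, p : ℕ) : ℝ) * α)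

lemma sum_two {P : Finset ℕ} {y κ D : ℕ} (hP : P ⊆ pz y) {a : ℝ} (ha : 0 ≤ a) :
    ∑ U ∈ Sm P D, ∑ V ∈ Sm P D, (κ : ℝ) ^ V.card * (a / (((∏ p ∈ U, p : ℕ) : ℝ) * ((∏ p ∈ V, p : ℕ) : ℝ))) ≤
      a * (WW y 1 * WW y κ) := by
  have e1 : ∑ U ∈ Sm P D, ∑ V ∈ Sm P D, (κ : ℝ) ^ V.card * (a / (((∏ p ∈ U, p : ℕ) : ℝ) * ((∏ p ∈ V, p : ℕ) : ℝ))) =
      a * ((∑ U ∈ Sm P D, ((1 : ℕ) : ℝ) ^ U.card / ((∏ p ∈ U, p : ℕ) : ℝ)) *
        ∑ V ∈ Sm P D, (κ : ℝ) ^ V.card / ((∏ p ∈ V, p : ℕ) : ℝ)) := by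
    rw [sum_mul_sum, mul_sum]
    apply sum_congr rfl
    intro U _
    rw [mul_sum]
    apply sum_congr rfl
    intro V _
    rw [Nat.cast_one, one_pow]
    ring
  rw [e1]
  apply mul_le_mul_of_nonneg_left _ ha
  exact mul_le_mul (euler hP 1 D) (euler hP κ D) (sum_nonneg fun V _ => by positivity) (WW_nonneg _ _)

lemma sum_ones {P : Finset ℕ} {κ D : ℕ} (hPp : ∀ p ∈ P, p.Prime) (hκ : ∀ p ∈ P, κ ≤ p) :
    ∑ _U ∈ Sm P D, ∑ V ∈ Sm P D, (κ : ℝ) ^ V.card ≤ (D : ℝ) ^ 3 := by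
  have hcard : ((Sm P D).card : ℝ) ≤ D := by exact_mod_cast Sm_card hPp
  have h1 : ∑ V ∈ Sm P D, (κ : ℝ) ^ V.card ≤ (D : ℝ) ^ 2 := by
    calc ∑ V ∈ Sm P D, (κ : ℝ) ^ V.card ≤ ∑ V ∈ Sm P D, (D : ℝ) := sum_le_sum fun V hV => card_pow_le hκ hV
      _ = (Sm P D).card * (D : ℝ) := by rw [sum_const, nsmul_eq_mul]
      _ ≤ D * D := mul_le_mul_of_nonneg_right hcard (Nat.cast_nonneg _)
      _ = _ := by ring
  calc ∑ _U ∈ Sm P D, ∑ V ∈ Sm P D, (κ : ℝ) ^ V.card ≤ ∑ _U ∈ Sm P D, (D : ℝ) ^ 2 := sum_le_sum fun _ _ => h1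
    _ = (Sm P D).card * (D : ℝ) ^ 2 := by rw [sum_const, nsmul_eq_mul]
    _ ≤ D * (D : ℝ) ^ 2 := mul_le_mul_of_nonneg_right hcard (by positivity)
    _ = _ := by ring

open Classical in
/-- the minor arcs -/
lemma TA_minor {P : Finset ℕ} {y κ D H G M : ℕ} {α a : ℝ} (hP : P ⊆ pz y) (hκ : ∀ p ∈ P, κ ≤ p) (ha : 0 ≤ a)
    (hG : 1 ≤ G) (hM : 1 ≤ M) (bad : Finset ℕ → Finset ℕ → Prop)
    (hgood : ∀ U ∈ Sm P D, ∀ V ∈ Sm P D, ¬ bad U V →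
      EA (H / (G * ∏ p ∈ U, p)) (M * ∏ p ∈ V, p) (((G * ∏ p ∈ U, p : ℕ) : ℝ) * α) ≤
        a / (((∏ p ∈ U, p : ℕ) : ℝ) * ((∏ p ∈ V, p : ℕ) : ℝ))) :
    TA H κ G M D P α ≤ a * (WW y 1 * WW y κ) + ((H : ℝ) *
      (∑ U ∈ Sm P D, ∑ V ∈ Sm P D, (if bad U V then
        (κ : ℝ) ^ V.card / (((∏ p ∈ U, p : ℕ) : ℝ) * ((∏ p ∈ V, p : ℕ) : ℝ)) else 0)) + (D : ℝ) ^ 3) := by
  have hPp : ∀ p ∈ P, p.Prime := fun p hp => (mem_pz.1 (hP hp)).2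
  have hterm : ∀ U ∈ Sm P D, ∀ V ∈ Sm P D, (κ : ℝ) ^ V.card *
      EA (H / (G * ∏ p ∈ U, p)) (M * ∏ p ∈ V, p) (((G * ∏ p ∈ U, p : ℕ) : ℝ) * α) ≤
      (κ : ℝ) ^ V.card * (a / (((∏ p ∈ U, p : ℕ) : ℝ) * ((∏ p ∈ V, p : ℕ) : ℝ))) +
      ((H : ℝ) * (if bad U V then
        (κ : ℝ) ^ V.card / (((∏ p ∈ U, p : ℕ) : ℝ) * ((∏ p ∈ V, p : ℕ) : ℝ)) else 0) + (κ : ℝ) ^ V.card) := by
    intro U hU V hV
    have hu := Sm_pos hPp hU
    have hv := Sm_pos hPp hV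
    have hg := hgood U hU V hV
    obtain ⟨u, hu'⟩ : ∃ u, u = ∏ p ∈ U, p := ⟨_, rfl⟩
    obtain ⟨v, hv'⟩ : ∃ v, v = ∏ p ∈ V, p := ⟨_, rfl⟩
    rw [← hu'] at hu hg ⊢
    rw [← hv'] at hv hg ⊢
    have hur : (1 : ℝ) ≤ u := by exact_mod_cast hu
    have hvr : (1 : ℝ) ≤ v := by exact_mod_cast hv
    have hk : (0 : ℝ) ≤ (κ : ℝ) ^ V.card := by positivity
    have hnn : (0 : ℝ) ≤ (κ : ℝ) ^ V.card * (a / ((u : ℝ) * v)) := by positivity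
    split_ifs with hb
    · have h1 := EA_triv (H / (G * u)) (M * v) (Nat.mul_pos hM hv) (((G * u : ℕ) : ℝ) * α)
      have h2 : (((H / (G * u) : ℕ) : ℝ)) / ((M * v : ℕ) : ℝ) ≤ H / (u * v) := by
        have h3 : ((H / (G * u) : ℕ) : ℝ) ≤ H / u := by
          have h4 : H / (G * u) ≤ H / u := Nat.div_le_div_left (Nat.le_mul_of_pos_left _ hG) hu
          exact (show ((H / (G * u) : ℕ) : ℝ) ≤ ((H / u : ℕ) : ℝ) by exact_mod_cast h4).trans Nat.cast_div_le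
        have h4 : (v : ℝ) ≤ ((M * v : ℕ) : ℝ) := by exact_mod_cast Nat.le_mul_of_pos_left _ hM
        calc (((H / (G * u) : ℕ) : ℝ)) / ((M * v : ℕ) : ℝ) ≤ (H / u) / v :=
              div_le_div₀ (by positivity) h3 (by linarith) h4
          _ = _ := by rw [div_div]
      have h5 : (κ : ℝ) ^ V.card * EA (H / (G * u)) (M * v) (((G * u : ℕ) : ℝ) * α) ≤
          (κ : ℝ) ^ V.card * (H / (u * v) + 1) := mul_le_mul_of_nonneg_left (by linarith) hk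
      have h6 : (κ : ℝ) ^ V.card * (H / (u * v) + 1) = H * ((κ : ℝ) ^ V.card / (u * v)) + (κ : ℝ) ^ V.card := by ring
      linarith
    · have h1 := mul_le_mul_of_nonneg_left (hg hb) hk
      linarith
  unfold TA
  refine (sum_le_sum fun U hU => sum_le_sum fun V hV => hterm U hU V hV).trans ?_
  simp only [sum_add_distrib, ← mul_sum]
  have h1 := sum_two (κ := κ) (D := D) hP ha
  have h2 := sum_ones (κ := κ) (D := D) hPp hκ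
  linarith

/-- the major arcs -/
lemma TA_major {P : Finset ℕ} {κ D H G M : ℕ} {α : ℝ} (hPp : ∀ p ∈ P, p.Prime) (hM : 1 ≤ M) (ρ : ℚ)
    {η : ℝ} (hη : |α - ρ| ≤ η) {Y : ℝ} (hY : ∀ i ∈ Icc 1 ρ.den, TM (H / G) κ (M * i) D P ≤ Y) :
    TA H κ G M D P α ≤ ρ.den * (ρ.den * Y) * (1 + 2 * Real.pi * (H * η)) := by
  have hη0 : 0 ≤ η := (abs_nonneg _).trans hη
  have hpi := Real.pi_pos
  have hterm : ∀ U ∈ Sm P D, ∀ V ∈ Sm P D, (κ : ℝ) ^ V.card *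
      EA (H / (G * ∏ p ∈ U, p)) (M * ∏ p ∈ V, p) (((G * ∏ p ∈ U, p : ℕ) : ℝ) * α) ≤
      (ρ.den * (1 + 2 * Real.pi * (H * η))) * ∑ i ∈ Icc 1 ρ.den, ((κ : ℝ) ^ V.card *
        EM (H / G / ∏ p ∈ U, p) (M * i * ∏ p ∈ V, p)) := by
    intro U hU V hV
    have hv := Sm_pos hPp hV
    obtain ⟨u, hu'⟩ : ∃ u, u = ∏ p ∈ U, p := ⟨_, rfl⟩
    obtain ⟨v, hv'⟩ : ∃ v, v = ∏ p ∈ V, p := ⟨_, rfl⟩
    rw [← hu']
    rw [← hv'] at hv ⊢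
    have h1 := major (h := H / (G * u)) (t := G * u) (α := α) (Nat.mul_pos hM hv) ρ
    have h2 : (((H / (G * u) : ℕ) : ℝ)) * (((G * u : ℕ) : ℝ)) ≤ H := by
      have : H / (G * u) * (G * u) ≤ H := Nat.div_mul_le_self _ _
      exact_mod_cast this
    have h3 : 1 + (((H / (G * u) : ℕ) : ℝ)) * (2 * Real.pi * ((((G * u : ℕ) : ℝ)) * |α - ρ|)) ≤
        1 + 2 * Real.pi * (H * η) := by
      have e1 : (((H / (G * u) : ℕ) : ℝ)) * (2 * Real.pi * ((((G * u : ℕ) : ℝ)) * |α - ρ|)) =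
          2 * Real.pi * (((((H / (G * u) : ℕ) : ℝ)) * (((G * u : ℕ) : ℝ))) * |α - ρ|) := by ring
      rw [e1]
      have h4 : ((((H / (G * u) : ℕ) : ℝ)) * (((G * u : ℕ) : ℝ))) * |α - ρ| ≤ H * η :=
        mul_le_mul h2 hη (abs_nonneg _) (Nat.cast_nonneg _)
      have := mul_le_mul_of_nonneg_left h4 (show 0 ≤ 2 * Real.pi by positivity)
      linarith
    have hS0 : 0 ≤ ∑ i ∈ Icc 1 ρ.den, EM (H / (G * u)) (M * v * i) := sum_nonneg fun i _ => EM_nonneg _ _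
    have h4 : EA (H / (G * u)) (M * v) (((G * u : ℕ) : ℝ) * α) ≤
        ρ.den * (∑ i ∈ Icc 1 ρ.den, EM (H / (G * u)) (M * v * i)) * (1 + 2 * Real.pi * (H * η)) := by
      refine h1.trans (mul_le_mul_of_nonneg_left h3 (by positivity))
    have e2 : ∑ i ∈ Icc 1 ρ.den, EM (H / (G * u)) (M * v * i) = ∑ i ∈ Icc 1 ρ.den, EM (H / G / u) (M * i * v) := by
      apply sum_congr rfl
      intro i _
      rw [Nat.div_div_eq_div_mul]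
      congr 1
      ring
    rw [e2] at h4
    have hk : (0 : ℝ) ≤ (κ : ℝ) ^ V.card := by positivity
    refine (mul_le_mul_of_nonneg_left h4 hk).trans (le_of_eq ?_)
    rw [← mul_sum]
    ring
  unfold TA
  refine (sum_le_sum fun U hU => sum_le_sum fun V hV => hterm U hU V hV).trans ?_
  have e1 : ∑ U ∈ Sm P D, ∑ V ∈ Sm P D, (ρ.den * (1 + 2 * Real.pi * (H * η))) * ∑ i ∈ Icc 1 ρ.den, ((κ : ℝ) ^ V.card *
        EM (H / G / ∏ p ∈ U, p) (M * i * ∏ p ∈ V, p)) =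
      (ρ.den * (1 + 2 * Real.pi * (H * η))) * ∑ i ∈ Icc 1 ρ.den, TM (H / G) κ (M * i) D P := by
    unfold TM
    simp only [← mul_sum]
    congr 1
    rw [sum_comm]
    conv_rhs => rw [sum_comm]
    conv_rhs =>
      enter [2, U]
      rw [sum_comm]
    rw [sum_comm]
    apply sum_congr rfl
    intro U _
    apply sum_congr rfl
    intro V _
    rw [mul_sum]
  rw [e1]
  have h1 : ∑ i ∈ Icc 1 ρ.den, TM (H / G) κ (M * i) D P ≤ ρ.den * Y := by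
    refine (sum_le_sum hY).trans (le_of_eq ?_)
    rw [sum_const, Nat.card_Icc, nsmul_eq_mul, Nat.add_sub_cancel]
  have h2 : (0 : ℝ) ≤ ρ.den * (1 + 2 * Real.pi * (H * η)) := by positivity
  refine (mul_le_mul_of_nonneg_left h1 h2).trans (le_of_eq ?_)
  ring

end Pool.Agent.H530.Hx
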