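import Pool.Agent.H530.HxI

/-! The total error with a phase: the bound. -/

set_option autoImplicit false

namespace Pool.Agent.H530.Hx

open Finset Pool.Agent.H373R2.T7 Pool.Agent.H807R2.Dav Pool.Agent.H530.Ha

lemma TA_mono {H H' κ G M D : ℕ} {P : Finset ℕ} (hPp : ∀ p ∈ P, p.Prime) (hM : 1 ≤ M) (α : ℝ) (hH : H ≤ H') :
    TA H κ G M D P α ≤ TA H' κ G M D P α := by
  unfold TA
  apply sum_le_sum
  intro U hU
  apply sum_le_sum
  intro V hV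
  apply mul_le_mul_of_nonneg_left _ (by positivity)
  exact EA_mono _ (Nat.mul_pos hM (Sm_pos hPp hV)) (Nat.div_le_div_right hH)

/-- the saving -/
lemma sav {L Ω : ℝ} {κ E B2 q q0 C1 : ℕ} (hL : 1 ≤ L) (hq0 : 1 ≤ q0) (hΩ : Ω = q ^ 3 * (2 * L) ^ B2)
    (hC1 : C1 = 16 * E + 4 * B2 + 1) (hq0L : L ^ C1 ≤ q0)
    (hLbig : (4 : ℝ) ^ 16 * (((2 + 2 * κ) ^ 16 : ℕ) : ℝ) ^ ((2 + 2 * κ) ^ 16) * (q : ℝ) ^ 12 * 2 ^ (4 * B2) ≤ L) :
    √(√(Ω / q0)) * ((2 + 2 * κ : ℕ) : ℝ) ^ q0.primeFactors.card ≤ 1 / (4 * L ^ E) := by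
  have hq0r : (1 : ℝ) ≤ q0 := by exact_mod_cast hq0
  have hΩ0 : 0 ≤ Ω := by rw [hΩ]; positivity
  have hz : (√(√(Ω / q0)) * ((2 + 2 * κ : ℕ) : ℝ) ^ q0.primeFactors.card) ^ 16 ≤ (1 / (4 * L ^ E)) ^ 16 := by
    have h1 : (√(√(Ω / q0))) ^ 16 = (Ω / q0) ^ 4 := by
      have h2 : (√(√(Ω / q0))) ^ 4 = Ω / q0 := by
        rw [show (√(√(Ω / q0))) ^ 4 = ((√(√(Ω / q0))) ^ 2) ^ 2 by ring, Real.sq_sqrt (Real.sqrt_nonneg _),
          Real.sq_sqrt (by positivity)]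
      rw [show (√(√(Ω / q0))) ^ 16 = ((√(√(Ω / q0))) ^ 4) ^ 4 by ring, h2]
    obtain ⟨K, hK⟩ : ∃ K : ℕ, K = (2 + 2 * κ) ^ 16 := ⟨_, rfl⟩
    have hK1 : 1 ≤ K := by rw [hK]; exact Nat.one_le_pow _ _ (by omega)
    have h3 : (((2 + 2 * κ : ℕ) : ℝ) ^ q0.primeFactors.card) ^ 16 ≤ (K : ℝ) ^ K * q0 := by
      have h4 : (((2 + 2 * κ : ℕ) : ℝ) ^ q0.primeFactors.card) ^ 16 = (K : ℝ) ^ q0.primeFactors.card := by
        rw [hK]
        push_cast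
        rw [← pow_mul, ← pow_mul, mul_comm q0.primeFactors.card 16]
      rw [h4]
      exact_mod_cast omega_bd K q0 hK1 hq0
    rw [mul_pow, h1]
    have h5 : (Ω / q0) ^ 4 * (((2 + 2 * κ : ℕ) : ℝ) ^ q0.primeFactors.card) ^ 16 ≤ (Ω / q0) ^ 4 * ((K : ℝ) ^ K * q0) :=
      mul_le_mul_of_nonneg_left h3 (by positivity)
    refine h5.trans ?_
    rw [div_pow, one_div, div_mul_eq_mul_div, div_le_iff₀ (by positivity)]
    -- Ω^4 K^K q0 ≤ (4 L^E)^-16 q0^4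
    rw [← hK] at hLbig
    have h6 : (4 * L ^ E) ^ 16 * (Ω ^ 4 * ((K : ℝ) ^ K)) ≤ q0 := by
      have e1 : (4 * L ^ E) ^ 16 * (Ω ^ 4 * ((K : ℝ) ^ K)) =
          ((4 : ℝ) ^ 16 * (K : ℝ) ^ K * (q : ℝ) ^ 12 * 2 ^ (4 * B2)) * L ^ (16 * E + 4 * B2) := by
        have e2 : ((2 * L) ^ B2) ^ 4 = (2 : ℝ) ^ (4 * B2) * L ^ (4 * B2) := by
          rw [← pow_mul, mul_comm B2 4, mul_pow]
        have e3 : (L ^ E) ^ 16 = L ^ (16 * E) := by rw [← pow_mul, mul_comm]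
        rw [hΩ, mul_pow, mul_pow, e2, e3, pow_add, show ((q : ℝ) ^ 3) ^ 4 = (q : ℝ) ^ 12 by ring]
        ring
      rw [e1]
      calc _ ≤ L * L ^ (16 * E + 4 * B2) := mul_le_mul_of_nonneg_right hLbig (by positivity)
        _ = L ^ C1 := by rw [hC1, pow_succ]; ring
        _ ≤ q0 := hq0L
    have h7 : (q0 : ℝ) * q0 ≤ (q0 : ℝ) ^ 4 := by
      rw [← pow_two]
      exact pow_le_pow_right₀ hq0r (by norm_num)
    have h8 : (0 : ℝ) < (4 * L ^ E) ^ 16 := by positivity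
    rw [inv_pow, inv_mul_eq_div, le_div_iff₀ h8]
    have h9 : Ω ^ 4 * ((K : ℝ) ^ K * q0) * (4 * L ^ E) ^ 16 = ((4 * L ^ E) ^ 16 * (Ω ^ 4 * ((K : ℝ) ^ K))) * q0 := by ring
    rw [h9]
    exact (mul_le_mul_of_nonneg_right h6 (by linarith)).trans h7
  exact le_of_pow_le_pow_left₀ (by norm_num) (by positivity) hz

/-- the two cases, for a fixed rational number -/
lemma TA_case {X L : ℝ} {κ B B1 E A B2 C1 B3 C q H G M D y : ℕ} {P : Finset ℕ} {α : ℝ} (hL2 : 2 ≤ L) (hX1 : 1 ≤ X)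
    (hHX : (H : ℝ) ≤ X * L ^ B1) (hXH : X ≤ H) (hG : 1 ≤ G) (hM : 1 ≤ M)
    (hP : P ⊆ pz y) (hκ : ∀ p ∈ P, κ ≤ p) (hE : E = B + B1 + C * (1 + κ) + 1) (hA : A = E + 1)
    (hC1 : C1 = 16 * E + 4 * B2 + 1) (hB3 : B3 = B + 2 * C1 + B2 + 1)
    (hW1 : WW y 1 ≤ L ^ (C * 1)) (hWκ : WW y κ ≤ L ^ (C * κ))
    (hLA : 4 * 2 ^ A ≤ L ^ 2)
    (hLbig : (4 : ℝ) ^ 16 * (((2 + 2 * κ) ^ 16 : ℕ) : ℝ) ^ ((2 + 2 * κ) ^ 16) * (q : ℝ) ^ 12 * 2 ^ (4 * B2) ≤ L)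
    (hLB : 16 * 2 ^ B2 ≤ L) (hD3 : (D : ℝ) ^ 3 ≤ X / (4 * L ^ B))
    (bad : Finset ℕ → Finset ℕ → Prop)
    (hgood : ∀ U ∈ Sm P D, ∀ V ∈ Sm P D, ¬ bad U V →
      EA (H / (G * ∏ p ∈ U, p)) (M * ∏ p ∈ V, p) (((G * ∏ p ∈ U, p : ℕ) : ℝ) * α) ≤
        (H * (2 ^ A / L ^ A)) / (((∏ p ∈ U, p : ℕ) : ℝ) * ((∏ p ∈ V, p : ℕ) : ℝ)))
    (ρ : ℚ) (hρ : |α - ρ| ≤ 2 * (2 * L) ^ B2 / H)
    (hbad : ∀ U ∈ Sm P D, ∀ V ∈ Sm P D, bad U V → ∃ w : ℕ, 1 ≤ w ∧ (w : ℝ) ≤ q ^ 3 * (2 * L) ^ B2 ∧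
      ρ.den ∣ (∏ p ∈ U, p) * (∏ p ∈ V, p) ^ 2 * w)
    (hY : (ρ.den : ℝ) < L ^ C1 → ∀ i ∈ Icc 1 ρ.den, TM (H / G) κ (M * i) D P ≤ X / L ^ B3) :
    TA H κ G M D P α ≤ X / L ^ B := by
  classical
  have hPp : ∀ p ∈ P, p.Prime := fun p hp => (mem_pz.1 (hP hp)).2
  have hL1 : 1 ≤ L := by linarith
  have hL0 : 0 < L := by linarith
  have hH0 : (0 : ℝ) < H := by linarith
  have hXB0 : 0 ≤ X / L ^ B := by positivity
  by_cases hden : (ρ.den : ℝ) < L ^ C1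
  · -- the major arcs
    have h1 := TA_major (G := G) (α := α) hPp hM ρ hρ (hY hden)
    refine h1.trans ?_
    have e1 : (H : ℝ) * (2 * (2 * L) ^ B2 / H) = 2 * (2 * L) ^ B2 := by
      field_simp
    rw [e1]
    have hpi := Real.pi_lt_d2
    have h2 : (1 : ℝ) ≤ (2 * L) ^ B2 := one_le_pow₀ (by linarith)
    have h3 : 1 + 2 * Real.pi * (2 * (2 * L) ^ B2) ≤ 16 * (2 * L) ^ B2 := by nlinarith
    have h4 : (ρ.den : ℝ) * (ρ.den * (X / L ^ B3)) ≤ L ^ C1 * (L ^ C1 * (X / L ^ B3)) := by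
      apply mul_le_mul hden.le _ (by positivity) (by positivity)
      exact mul_le_mul_of_nonneg_right hden.le (by positivity)
    calc (ρ.den : ℝ) * (ρ.den * (X / L ^ B3)) * (1 + 2 * Real.pi * (2 * (2 * L) ^ B2)) ≤
        L ^ C1 * (L ^ C1 * (X / L ^ B3)) * (16 * (2 * L) ^ B2) := by
          apply mul_le_mul h4 h3 _ (by positivity)
          have := Real.pi_pos
          positivity
      _ = (16 * 2 ^ B2 / L) * (X / L ^ B) := by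
          have e2 : L ^ B3 = L ^ B * L ^ C1 * L ^ C1 * L ^ B2 * L := by
            rw [hB3, pow_succ, pow_add, pow_add, two_mul, pow_add]
            ring
          rw [e2, mul_pow]
          field_simp
      _ ≤ 1 * (X / L ^ B) := by
          apply mul_le_mul_of_nonneg_right _ hXB0
          rw [div_le_one hL0]
          exact hLB
      _ = _ := one_mul _
  · push Not at hden
    have h1 := TA_minor (H := H) (α := α) (a := H * (2 ^ A / L ^ A)) hP hκ (by positivity) hG hM bad hgood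
    refine h1.trans ?_
    have hR := rankin (κ := κ) (D := D) (q0 := ρ.den) hP ρ.den_pos bad hbad
    have hS := sav (κ := κ) (E := E) hL1 ρ.den_pos (rfl : (q : ℝ) ^ 3 * (2 * L) ^ B2 = q ^ 3 * (2 * L) ^ B2) hC1 hden hLbig
    obtain ⟨z, hz⟩ : ∃ z, z = √(√((q : ℝ) ^ 3 * (2 * L) ^ B2 / ρ.den)) *
      ((2 + 2 * κ : ℕ) : ℝ) ^ ρ.den.primeFactors.card := ⟨_, rfl⟩
    rw [← hz] at hS
    have hz0 : 0 ≤ z := by rw [hz]; positivity
    have hWW : WW y 1 * WW y κ ≤ L ^ (C * (1 + κ)) := by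
      calc WW y 1 * WW y κ ≤ L ^ (C * 1) * L ^ (C * κ) := mul_le_mul hW1 hWκ (WW_nonneg _ _) (by positivity)
        _ = _ := by rw [← pow_add]; congr 1; ring
    have hWW0 : 0 ≤ WW y 1 * WW y κ := mul_nonneg (WW_nonneg _ _) (WW_nonneg _ _)
    have hLL : L ^ E = L ^ B * L ^ B1 * L ^ (C * (1 + κ)) * L := by
      rw [hE, pow_succ, pow_add, pow_add]
    have t1 : (H * (2 ^ A / L ^ A)) * (WW y 1 * WW y κ) ≤ 1 / 4 * (X / L ^ B) := by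
      calc ((H : ℝ) * (2 ^ A / L ^ A)) * (WW y 1 * WW y κ) ≤ ((X * L ^ B1) * (2 ^ A / L ^ A)) * L ^ (C * (1 + κ)) := by
            apply mul_le_mul _ hWW hWW0 (by positivity)
            exact mul_le_mul_of_nonneg_right hHX (by positivity)
        _ = (2 ^ A / L ^ 2) * (X / L ^ B) := by
            have e2 : L ^ A = L ^ B * L ^ B1 * L ^ (C * (1 + κ)) * L ^ 2 := by
              rw [hA, pow_succ, hLL]
              ring
            rw [e2]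
            field_simp
        _ ≤ _ := by
            apply mul_le_mul_of_nonneg_right _ hXB0
            rw [div_le_div_iff₀ (by positivity) (by norm_num)]
            linarith
    have t2 : (H : ℝ) * (∑ U ∈ Sm P D, ∑ V ∈ Sm P D, (if bad U V then
        (κ : ℝ) ^ V.card / (((∏ p ∈ U, p : ℕ) : ℝ) * ((∏ p ∈ V, p : ℕ) : ℝ)) else 0)) ≤ 1 / 4 * (X / L ^ B) := by
      have h2 : ∑ U ∈ Sm P D, ∑ V ∈ Sm P D, (if bad U V then
        (κ : ℝ) ^ V.card / (((∏ p ∈ U, p : ℕ) : ℝ) * ((∏ p ∈ V, p : ℕ) : ℝ)) else 0) ≤ 1 / (4 * L ^ E) * L ^ (C * (1 + κ)) := by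
        refine hR.trans ?_
        have e2 : √(√((q : ℝ) ^ 3 * (2 * L) ^ B2 / ρ.den)) * (WW y 1 * WW y κ *
            ((2 + 2 * κ : ℕ) : ℝ) ^ ρ.den.primeFactors.card) = z * (WW y 1 * WW y κ) := by
          rw [hz]
          ring
        rw [e2]
        exact mul_le_mul hS hWW hWW0 (by positivity)
      calc _ ≤ (X * L ^ B1) * (1 / (4 * L ^ E) * L ^ (C * (1 + κ))) :=
            mul_le_mul hHX h2 (sum_nonneg fun U _ => sum_nonneg fun V _ => by split_ifs <;> positivity) (by positivity)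
        _ = 1 / 4 * (X / L ^ B) * (1 / L) := by
            rw [hLL]
            field_simp
        _ ≤ 1 / 4 * (X / L ^ B) * 1 := by
            apply mul_le_mul_of_nonneg_left _ (by positivity)
            rw [div_le_one hL0]
            exact hL1
        _ = _ := mul_one _
    have t3 : X / (4 * L ^ B) = 1 / 4 * (X / L ^ B) := by
      field_simp
    rw [t3] at hD3
    linarith

end Pool.Agent.H530.Hx
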