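import Pool.Agent.H530.HxJ

/-! The total error with a phase: the theorem. -/

set_option autoImplicit false

namespace Pool.Agent.H530.Hx

open Finset Pool.Agent.H373R2.T7 Pool.Agent.H807R2.Dav Pool.Agent.H530.Ha

/-- the spacing condition -/
lemma spc {X H D q B2 : ℕ} {L s : ℝ} (hL : 1 ≤ L) (hss : s * s = X) (hs : 1 ≤ s) (hXH : X ≤ H) (hD1 : 1 ≤ D)
    (hD : D ^ 64 ≤ X) (hbig : 8 * (2 * L) ^ (3 * B2) * q ^ 6 ≤ s) :
    2 * (2 * (2 * L) ^ B2 / H) * ((D : ℝ) ^ 3 * (q ^ 3 * (2 * L) ^ B2)) ^ 2 < 1 := by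
  have hDr : (1 : ℝ) ≤ D := by exact_mod_cast hD1
  have hX1 : (1 : ℝ) ≤ X := by rw [← hss]; exact one_le_mul_of_one_le_of_one_le hs hs
  have hHX : (X : ℝ) ≤ H := by exact_mod_cast hXH
  have hH0 : (0 : ℝ) < H := by linarith
  have h1 : (D : ℝ) ^ 6 ≤ s := by
    have h2 : ((D : ℝ) ^ 6) ^ 2 ≤ s ^ 2 := by
      rw [pow_two s, hss, ← pow_mul]
      have h3 : (D : ℝ) ^ 64 ≤ X := by exact_mod_cast hD
      exact (pow_le_pow_right₀ hDr (by norm_num)).trans h3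
    exact le_of_pow_le_pow_left₀ (by norm_num) (by linarith) h2
  have e1 : 2 * (2 * (2 * L) ^ B2 / H) * ((D : ℝ) ^ 3 * (q ^ 3 * (2 * L) ^ B2)) ^ 2 =
      (4 * (2 * L) ^ (3 * B2) * q ^ 6) * (D : ℝ) ^ 6 / H := by
    have e2 : (2 * L) ^ (3 * B2) = ((2 * L) ^ B2) ^ 3 := by rw [← pow_mul, mul_comm 3 B2]
    rw [e2]
    ring
  rw [e1, div_lt_one hH0]
  have h4 : (4 * (2 * L) ^ (3 * B2) * q ^ 6) * (D : ℝ) ^ 6 ≤ (s / 2) * s := by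
    apply mul_le_mul _ h1 (by positivity) (by linarith)
    linarith
  have h5 : (s / 2) * s = X / 2 := by
    rw [← hss]
    ring
  linarith

theorem TA_bound (κ B B' q : ℕ) : ∃ X0 y0 : ℕ, ∀ X : ℕ, X0 ≤ X → ∀ H : ℕ, (H : ℝ) ≤ X * Real.log X ^ B' →
    ∀ G M : ℕ, 1 ≤ G → G ≤ q → 1 ≤ M → M ≤ q →
    ∀ y D : ℕ, y0 ≤ y → y ≤ X → 1 ≤ D → D ^ 64 ≤ X → ∀ P : Finset ℕ, P ⊆ pz y → (∀ p ∈ P, κ ≤ p) → ∀ α : ℝ,
    TA H κ G M D P α ≤ X / Real.log X ^ B := by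
  classical
  obtain ⟨C, y0, hW⟩ := WW_le
  obtain ⟨E, hE⟩ : ∃ E : ℕ, E = B + (B' + 1) + C * (1 + κ) + 1 := ⟨_, rfl⟩
  obtain ⟨A, hA⟩ : ∃ A : ℕ, A = E + 1 := ⟨_, rfl⟩
  obtain ⟨B2, X1, hpair⟩ := pair_dich A (B' + 1) q
  obtain ⟨C1, hC1⟩ : ∃ C1 : ℕ, C1 = 16 * E + 4 * B2 + 1 := ⟨_, rfl⟩
  obtain ⟨B3, hB3⟩ : ∃ B3 : ℕ, B3 = B + 2 * C1 + B2 + 1 := ⟨_, rfl⟩
  obtain ⟨X2, y2, hTM⟩ := TM_bound κ B3 (B' + 1 + C1) q
  obtain ⟨c, hc⟩ : ∃ c : ℝ, c = 4 * 2 ^ A + (4 : ℝ) ^ 16 * (((2 + 2 * κ) ^ 16 : ℕ) : ℝ) ^ ((2 + 2 * κ) ^ 16) * (q : ℝ) ^ 12 * 2 ^ (4 * B2) +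
    16 * 2 ^ B2 + 2 := ⟨_, rfl⟩
  obtain ⟨X3, hX3⟩ := ev_L' c
  obtain ⟨X4, hX4⟩ := ev_log' B 4
  obtain ⟨X5, hX5⟩ := ev_log' (3 * B2) (8 * 2 ^ (3 * B2) * q ^ 6)
  refine ⟨X1 + X2 + X3 + X4 + X5 + 1, y0 + y2, ?_⟩
  intro X hX H0 hH0 G M hG hGq hM hMq y D hy hyX hD1 hD P hP hκ α
  obtain ⟨L, hL⟩ : ∃ L : ℝ, L = Real.log X := ⟨_, rfl⟩
  have g3 := hX3 X (by omega)
  have g4 := hX4 X (by omega)
  have g5 := hX5 X (by omega)
  have hp := hpair X (by omega)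
  have hT := hTM X (by omega)
  have hlogy : Real.log y ≤ Real.log X ∨ y = 0 := by
    rcases Nat.eq_zero_or_pos y with h | h
    · exact Or.inr h
    · left
      exact Real.log_le_log (by exact_mod_cast h) (by exact_mod_cast hyX)
  rw [← hL] at g3 g4 g5 hH0 hp hT hlogy ⊢
  have hn1 : (0 : ℝ) ≤ 4 * 2 ^ A := by positivity
  have hn2 : (0 : ℝ) ≤ (4 : ℝ) ^ 16 * (((2 + 2 * κ) ^ 16 : ℕ) : ℝ) ^ ((2 + 2 * κ) ^ 16) * (q : ℝ) ^ 12 * 2 ^ (4 * B2) := by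
    positivity
  have hn3 : (0 : ℝ) ≤ 16 * 2 ^ B2 := by positivity
  have hL2 : 2 ≤ L := by linarith
  have hL1 : 1 ≤ L := by linarith
  have hX1r : (1 : ℝ) ≤ X := by exact_mod_cast (by omega : 1 ≤ X)
  obtain ⟨s, hs⟩ : ∃ s : ℝ, s = √(X : ℝ) := ⟨_, rfl⟩
  have hss : s * s = X := by rw [hs]; exact Real.mul_self_sqrt (by linarith)
  have hs1 : 1 ≤ s := by
    rw [hs, Real.one_le_sqrt]
    exact hX1r
  rw [← hs] at g4 g5
  have hPp : ∀ p ∈ P, p.Prime := fun p hp => (mem_pz.1 (hP hp)).2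
  -- the length
  obtain ⟨J, hJ⟩ : ∃ J : ℕ, J = ⌈L ^ B'⌉₊ := ⟨_, rfl⟩
  have hLB1 : (1 : ℝ) ≤ L ^ B' := one_le_pow₀ hL1
  have hJ1 : L ^ B' ≤ J := by rw [hJ]; exact Nat.le_ceil _
  have hJ2 : (J : ℝ) ≤ L ^ (B' + 1) := by
    have h1 := (Nat.ceil_lt_add_one (show 0 ≤ L ^ B' by positivity)).le
    rw [← hJ] at h1
    rw [pow_succ]
    have := mul_le_mul_of_nonneg_left hL2 (show 0 ≤ L ^ B' by positivity)
    linarith
  have hJ3 : 1 ≤ J := by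
    have : (1 : ℝ) ≤ J := hLB1.trans hJ1
    exact_mod_cast this
  obtain ⟨H, hH⟩ : ∃ H : ℕ, H = X * J := ⟨_, rfl⟩
  have hXH : X ≤ H := by
    rw [hH]
    exact Nat.le_mul_of_pos_right _ hJ3
  have hHX : (H : ℝ) ≤ X * L ^ (B' + 1) := by
    rw [hH]
    push_cast
    exact mul_le_mul_of_nonneg_left hJ2 (by linarith)
  have hHH : H0 ≤ H := by
    have : (H0 : ℝ) ≤ H := by
      rw [hH]
      push_cast
      exact hH0.trans (mul_le_mul_of_nonneg_left hJ1 (by linarith))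
    exact_mod_cast this
  refine (TA_mono hPp hM α hHH).trans ?_
  have hp2 := hp H hXH hHX D hD G M hG hGq hM hMq
  -- the Euler products
  have hWy : ∀ κ : ℕ, WW y κ ≤ L ^ (C * κ) := by
    intro κ
    refine (hW y (by omega) κ).trans ?_
    apply pow_le_pow_left₀ (Real.log_natCast_nonneg _)
    rcases hlogy with h | h
    · exact h
    · rw [h, Nat.cast_zero, Real.log_zero]
      linarith
  have hD3 : (D : ℝ) ^ 3 ≤ X / (4 * L ^ B) := by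
    rw [le_div_iff₀ (by positivity), ← hss]
    have hDr : (1 : ℝ) ≤ D := by exact_mod_cast hD1
    have h1 : (D : ℝ) ^ 3 ≤ s := by
      have h2 : ((D : ℝ) ^ 3) ^ 2 ≤ s ^ 2 := by
        rw [pow_two s, hss, ← pow_mul]
        have h3 : (D : ℝ) ^ 64 ≤ X := by exact_mod_cast hD
        exact (pow_le_pow_right₀ hDr (by norm_num)).trans h3
      exact le_of_pow_le_pow_left₀ (by norm_num) (by linarith) h2
    exact mul_le_mul h1 g4 (by positivity) (by linarith)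
  -- the closeness predicate
  obtain ⟨cl, hcl⟩ : ∃ cl : Finset ℕ → Finset ℕ → ℚ → Prop, cl = fun U V (ρ : ℚ) => ∃ w : ℕ, 1 ≤ w ∧
      (w : ℝ) ≤ q ^ 3 * (2 * L) ^ B2 ∧ ρ.den ∣ (∏ p ∈ U, p) * (∏ p ∈ V, p) ^ 2 * w ∧
      |α - ρ| ≤ 2 * (2 * L) ^ B2 / H := ⟨_, rfl⟩
  have hdich : ∀ U ∈ Sm P D, ∀ V ∈ Sm P D, (¬ ∃ ρ, cl U V ρ) →
      EA (H / (G * ∏ p ∈ U, p)) (M * ∏ p ∈ V, p) (((G * ∏ p ∈ U, p : ℕ) : ℝ) * α) ≤
        (H * (2 ^ A / L ^ A)) / (((∏ p ∈ U, p : ℕ) : ℝ) * ((∏ p ∈ V, p : ℕ) : ℝ)) := by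
    intro U hU V hV hn
    have hu := Sm_pos hPp hU
    have hv := Sm_pos hPp hV
    have hu2 : ∏ p ∈ U, p ≤ D := (mem_filter.1 hU).2
    have hv2 : ∏ p ∈ V, p ≤ D := (mem_filter.1 hV).2
    rcases hp2 _ _ hu hu2 hv hv2 α with h | ⟨ρ, w, h⟩
    · exact h
    · exfalso
      apply hn
      rw [hcl]
      exact ⟨ρ, w, h⟩
  have hTMρ : ∀ ρ : ℚ, (ρ.den : ℝ) < L ^ C1 → ∀ i ∈ Icc 1 ρ.den, TM (H / G) κ (M * i) D P ≤ X / L ^ B3 := by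
    intro ρ hρ i hi
    rw [mem_Icc] at hi
    have hir : (i : ℝ) ≤ L ^ C1 := le_trans (by exact_mod_cast hi.2) hρ.le
    apply hT (H / G) (M * i) _ (Nat.mul_pos hM hi.1) _ y D (by omega) hyX hD1 _ P hP hκ
    · have h1 : ((H / G : ℕ) : ℝ) ≤ H := by exact_mod_cast Nat.div_le_self H G
      refine h1.trans (hHX.trans ?_)
      apply mul_le_mul_of_nonneg_left _ (by linarith)
      exact pow_le_pow_right₀ hL1 (by omega)
    · push_cast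
      have h1 : (M : ℝ) ≤ q := by exact_mod_cast hMq
      have h2 : L ^ C1 ≤ L ^ (B' + 1 + C1) := pow_le_pow_right₀ hL1 (by omega)
      exact mul_le_mul h1 (hir.trans h2) (Nat.cast_nonneg _) (Nat.cast_nonneg _)
    · exact (Nat.pow_le_pow_right hD1 (by norm_num)).trans hD
  have hcond : ∀ (bad : Finset ℕ → Finset ℕ → Prop)
      (_ : ∀ U ∈ Sm P D, ∀ V ∈ Sm P D, ¬ bad U V →
        EA (H / (G * ∏ p ∈ U, p)) (M * ∏ p ∈ V, p) (((G * ∏ p ∈ U, p : ℕ) : ℝ) * α) ≤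
          (H * (2 ^ A / L ^ A)) / (((∏ p ∈ U, p : ℕ) : ℝ) * ((∏ p ∈ V, p : ℕ) : ℝ)))
      (ρ : ℚ) (_ : |α - ρ| ≤ 2 * (2 * L) ^ B2 / H)
      (_ : ∀ U ∈ Sm P D, ∀ V ∈ Sm P D, bad U V → ∃ w : ℕ, 1 ≤ w ∧ (w : ℝ) ≤ q ^ 3 * (2 * L) ^ B2 ∧
        ρ.den ∣ (∏ p ∈ U, p) * (∏ p ∈ V, p) ^ 2 * w), TA H κ G M D P α ≤ X / L ^ B := by
    intro bad hgood ρ hρ hbad
    apply TA_case (B1 := B' + 1) (E := E) (A := A) (B2 := B2) (C1 := C1) (B3 := B3) (C := C) (q := q) (y := y) hL2 hX1r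
      hHX (by exact_mod_cast hXH) hG hM hP hκ hE hA hC1 hB3 (hWy 1) (hWy κ) _ _ _ hD3 bad hgood ρ hρ hbad (hTMρ ρ)
    · have h1 : (1 : ℝ) ≤ L := hL1
      calc (4 : ℝ) * 2 ^ A ≤ L := by linarith
        _ ≤ L ^ 2 := le_self_pow₀ h1 two_ne_zero
    · linarith
    · linarith
  by_cases hex : ∃ U ∈ Sm P D, ∃ V ∈ Sm P D, ∃ ρ, cl U V ρ
  · obtain ⟨U0, hU0, V0, hV0, ρ0, hρ0⟩ := hex
    have hdenb : ∀ U ∈ Sm P D, ∀ V ∈ Sm P D, ∀ ρ, cl U V ρ → (ρ.den : ℝ) ≤ (D : ℝ) ^ 3 * (q ^ 3 * (2 * L) ^ B2) := by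
      intro U hU V hV ρ hρ
      rw [hcl] at hρ
      obtain ⟨w, hw1, hw2, hw3, _⟩ := hρ
      have hu := Sm_pos hPp hU
      have hv := Sm_pos hPp hV
      have hu2 : ∏ p ∈ U, p ≤ D := (mem_filter.1 hU).2
      have hv2 : ∏ p ∈ V, p ≤ D := (mem_filter.1 hV).2
      have h1 : ρ.den ≤ (∏ p ∈ U, p) * (∏ p ∈ V, p) ^ 2 * w := by
        apply Nat.le_of_dvd _ hw3
        exact Nat.mul_pos (Nat.mul_pos hu (Nat.pow_pos hv)) hw1
      have h2 : (∏ p ∈ U, p) * (∏ p ∈ V, p) ^ 2 ≤ D ^ 3 := by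
        calc (∏ p ∈ U, p) * (∏ p ∈ V, p) ^ 2 ≤ D * D ^ 2 := Nat.mul_le_mul hu2 (Nat.pow_le_pow_left hv2 2)
          _ = D ^ 3 := by ring
      have h3 : (ρ.den : ℝ) ≤ (D : ℝ) ^ 3 * w := by exact_mod_cast h1.trans (Nat.mul_le_mul_right w h2)
      exact h3.trans (mul_le_mul_of_nonneg_left hw2 (by positivity))
    have hspc : 2 * (2 * (2 * L) ^ B2 / H) * ((D : ℝ) ^ 3 * (q ^ 3 * (2 * L) ^ B2)) ^ 2 < 1 := by
      apply spc hL1 hss hs1 hXH hD1 hD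
      rw [mul_pow]
      linarith
    have huniq : ∀ U ∈ Sm P D, ∀ V ∈ Sm P D, ∀ ρ, cl U V ρ → ρ = ρ0 := by
      intro U hU V hV ρ hρ
      have h1 := hdenb U hU V hV ρ hρ
      have h2 := hdenb U0 hU0 V0 hV0 ρ0 hρ0
      rw [hcl] at hρ
      have h3 := hρ0
      rw [hcl] at h3
      obtain ⟨_, _, _, _, h4⟩ := hρ
      obtain ⟨_, _, _, _, h5⟩ := h3
      exact rat_unique h4 h5 h1 h2 hspc
    refine hcond (fun U V => ∃ ρ, cl U V ρ) hdich ρ0 ?_ ?_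
    · have h3 := hρ0
      rw [hcl] at h3
      obtain ⟨_, _, _, _, h5⟩ := h3
      exact h5
    · intro U hU V hV hb
      obtain ⟨ρ, hρ⟩ := hb
      have h1 := huniq U hU V hV ρ hρ
      rw [h1, hcl] at hρ
      obtain ⟨w, h2, h3, h4, _⟩ := hρ
      exact ⟨w, h2, h3, h4⟩
  · -- no bad pair: the sum is at most that with an arbitrary rational number; use the minor arc bound
    have h1 := TA_minor (H := H) (α := α) (a := H * (2 ^ A / L ^ A)) hP hκ (by positivity) hG hM (fun _ _ => False) (by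
      intro U hU V hV _
      exact hdich U hU V hV (fun h => hex ⟨U, hU, V, hV, h⟩))
    refine h1.trans ?_
    simp only [if_false, sum_const_zero, mul_zero, zero_add]
    have hWW : WW y 1 * WW y κ ≤ L ^ (C * (1 + κ)) := by
      calc WW y 1 * WW y κ ≤ L ^ (C * 1) * L ^ (C * κ) := mul_le_mul (hWy 1) (hWy κ) (WW_nonneg _ _) (by positivity)
        _ = _ := by rw [← pow_add]; congr 1; ring
    have hWW0 : 0 ≤ WW y 1 * WW y κ := mul_nonneg (WW_nonneg _ _) (WW_nonneg _ _)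
    have hXB0 : 0 ≤ X / L ^ B := by positivity
    have t1 : (H * (2 ^ A / L ^ A)) * (WW y 1 * WW y κ) ≤ 1 / 4 * (X / L ^ B) := by
      calc ((H : ℝ) * (2 ^ A / L ^ A)) * (WW y 1 * WW y κ) ≤ ((X * L ^ (B' + 1)) * (2 ^ A / L ^ A)) * L ^ (C * (1 + κ)) := by
            apply mul_le_mul _ hWW hWW0 (by positivity)
            exact mul_le_mul_of_nonneg_right hHX (by positivity)
        _ = (2 ^ A / L ^ 2) * (X / L ^ B) := by
            have e2 : L ^ A = L ^ B * L ^ (B' + 1) * L ^ (C * (1 + κ)) * L ^ 2 := by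
              rw [hA, hE, pow_succ, pow_succ, pow_add (n := C * (1 + κ)), pow_add (n := B' + 1)]
              ring
            rw [e2]
            field_simp
        _ ≤ _ := by
            apply mul_le_mul_of_nonneg_right _ hXB0
            rw [div_le_div_iff₀ (by positivity) (by norm_num)]
            have : L ≤ L ^ 2 := le_self_pow₀ hL1 two_ne_zero
            linarith
    have t3 : X / (4 * L ^ B) = 1 / 4 * (X / L ^ B) := by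
      field_simp
    rw [t3] at hD3
    linarith

end Pool.Agent.H530.Hx
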