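import Pool.Agent.H530.HxK

/-! The Liouville function with a phase under conditions modulo several primes. -/

set_option autoImplicit false

namespace Pool.Agent.H530.Hx

open Finset Pool.Agent.H373R2.T7 Pool.Agent.H807R2.Dav Pool.Agent.H530.Ha

/-- the errors for two lengths -/
noncomputable def B3 (h1 h0 m g : ℕ) (θ : ℝ) : ℝ := EA (h1 / g) m ((g : ℝ) * θ) + EA (h0 / g) m ((g : ℝ) * θ)

lemma B3_nonneg (h1 h0 m g : ℕ) (θ : ℝ) : 0 ≤ B3 h1 h0 m g θ := add_nonneg (EA_nonneg _ _ _) (EA_nonneg _ _ _)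

open Classical in
/-- a condition modulo `p` with few nonzero classes -/
structure Cp (κ : ℕ) (R : ℕ → ℕ → Prop) (p : ℕ) : Prop where
  pr : p.Prime
  per : ∀ n, R p n ↔ R p (n % p)
  few : ((range p).filter (fun r => R p r ∧ r ≠ 0)).card ≤ κ

open Classical in
/-- one length, no conditions -/
lemma lin0 (M g q c : ℕ) (θ : ℝ) (hg : 1 ≤ g) (hq : 1 ≤ q) (hgq : Nat.Coprime g q) (hc : Nat.Coprime c q) :
    ∃ c' : ℕ, Nat.Coprime c' q ∧ ∀ M : ℕ,
    ∑ m ∈ (Icc 1 M).filter (fun m => m ≡ c [MOD q] ∧ g ∣ m), ((la m : ℝ) : ℂ) * ee (m * θ) =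
      ((la g : ℝ) : ℂ) * SA (M / g) q c' ((g : ℝ) * θ) := by
  obtain ⟨c', hc'⟩ : ∃ c' : ℕ, g * c' ≡ c [MOD q] := by
    have : NeZero q := ⟨by omega⟩
    refine ⟨((g : ZMod q)⁻¹ * (c : ZMod q)).val, ?_⟩
    rw [← ZMod.natCast_eq_natCast_iff]
    push_cast
    rw [ZMod.natCast_zmod_val, ← mul_assoc, ZMod.coe_mul_inv_eq_one g hgq, one_mul]
  refine ⟨c', ?_, ?_⟩
  · have h1 : Nat.Coprime (g * c') q := by
      rw [Nat.Coprime, hc'.gcd_eq]
      exact hc
    exact Nat.Coprime.coprime_mul_left h1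
  · intro M
    have hiff : ∀ m, g * m ≡ c [MOD q] ↔ m ≡ c' [MOD q] := by
      intro m
      constructor
      · intro h
        exact Nat.ModEq.cancel_left_of_coprime hgq.symm (h.trans hc'.symm)
      · intro h
        exact (h.mul_left _).trans hc'
    unfold SA
    rw [mul_sum]
    have e1 : ∑ n ∈ Icc 1 (M / g), ((la g : ℝ) : ℂ) * (((la n : ℝ) : ℂ) * Ec q c' ((g : ℝ) * θ) n) =
        ∑ n ∈ (Icc 1 (M / g)).filter (fun n => n ≡ c' [MOD q]), ((la g : ℝ) : ℂ) * (((la n : ℝ) : ℂ) * ee (n * ((g : ℝ) * θ))) := by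
      rw [sum_filter]
      apply sum_congr rfl
      intro n _
      unfold Ec
      split_ifs
      · rfl
      · rw [mul_zero, mul_zero]
    rw [e1]
    symm
    refine sum_bij' (fun m _ => g * m) (fun n _ => n / g) ?_ ?_ ?_ ?_ ?_
    · intro m hm
      rw [mem_filter, mem_Icc] at hm
      rw [mem_filter, mem_Icc]
      refine ⟨⟨Nat.mul_pos hg hm.1.1, ?_⟩, (hiff m).2 hm.2, dvd_mul_right _ _⟩
      calc g * m ≤ g * (M / g) := Nat.mul_le_mul_left _ hm.1.2
        _ ≤ M := Nat.mul_div_le _ _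
    · intro n hn
      rw [mem_filter, mem_Icc] at hn
      obtain ⟨⟨h1, h2⟩, h3, m, hm⟩ := hn
      rw [hm, Nat.mul_div_cancel_left _ hg, mem_filter, mem_Icc]
      refine ⟨⟨?_, ?_⟩, ?_⟩
      · rcases Nat.eq_zero_or_pos m with h | h
        · rw [h, mul_zero] at hm
          omega
        · exact h
      · rw [Nat.le_div_iff_mul_le hg, mul_comm, ← hm]
        exact h2
      · rw [hm] at h3
        exact (hiff m).1 h3
    · intro m _
      exact Nat.mul_div_cancel_left _ hg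
    · intro n hn
      rw [mem_filter] at hn
      exact Nat.mul_div_cancel' hn.2.2
    · intro m _
      rw [la_mul]
      push_cast
      rw [mul_assoc]
      congr 2
      ring

open Classical in
lemma linP (M0 M1 g q c : ℕ) (hM : M0 ≤ M1) (θ : ℝ) (hg : 1 ≤ g) (hq : 1 ≤ q) (hgq : Nat.Coprime g q)
    (hc : Nat.Coprime c q) :
    ‖∑ m ∈ (Ioc M0 M1).filter (fun m => m ≡ c [MOD q] ∧ g ∣ m), ((la m : ℝ) : ℂ) * ee (m * θ)‖ ≤ B3 M1 M0 q g θ := by
  obtain ⟨c', hc', H⟩ := lin0 M1 g q c θ hg hq hgq hc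
  have h1 := H M1
  have h0 := H M0
  have hsplit : (Icc 1 M1).filter (fun m => m ≡ c [MOD q] ∧ g ∣ m) =
      (Icc 1 M0).filter (fun m => m ≡ c [MOD q] ∧ g ∣ m) ∪ (Ioc M0 M1).filter (fun m => m ≡ c [MOD q] ∧ g ∣ m) := by
    rw [← filter_union]
    congr 1
    ext m
    rw [mem_union, mem_Icc, mem_Icc, mem_Ioc]
    omega
  have hdisj : Disjoint ((Icc 1 M0).filter (fun m => m ≡ c [MOD q] ∧ g ∣ m))
      ((Ioc M0 M1).filter (fun m => m ≡ c [MOD q] ∧ g ∣ m)) := by
    apply disjoint_filter_filter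
    rw [disjoint_left]
    intro m hm hm'
    rw [mem_Icc] at hm
    rw [mem_Ioc] at hm'
    omega
  rw [hsplit, sum_union hdisj, h0] at h1
  have e1 : ∑ m ∈ (Ioc M0 M1).filter (fun m => m ≡ c [MOD q] ∧ g ∣ m), ((la m : ℝ) : ℂ) * ee (m * θ) =
      ((la g : ℝ) : ℂ) * SA (M1 / g) q c' ((g : ℝ) * θ) - ((la g : ℝ) : ℂ) * SA (M0 / g) q c' ((g : ℝ) * θ) := by
    rw [← h1]
    ring
  rw [e1]
  refine (norm_sub_le _ _).trans ?_
  unfold B3
  have hg1 : ‖((la g : ℝ) : ℂ)‖ ≤ 1 := by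
    rw [Complex.norm_real, Real.norm_eq_abs]
    exact la_abs g
  apply add_le_add
  · rw [norm_mul]
    calc _ ≤ 1 * EA (M1 / g) q ((g : ℝ) * θ) := mul_le_mul hg1 (EA_ge le_rfl hq hc' _) (norm_nonneg _) zero_le_one
      _ = _ := one_mul _
  · rw [norm_mul]
    calc _ ≤ 1 * EA (M0 / g) q ((g : ℝ) * θ) := mul_le_mul hg1 (EA_ge le_rfl hq hc' _) (norm_nonneg _) zero_le_one
      _ = _ := one_mul _

open Classical in
theorem indP (M0 M1 κ : ℕ) (hM : M0 ≤ M1) (θ : ℝ) (R : ℕ → ℕ → Prop) (S : Finset ℕ) :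
    (∀ p ∈ S, Cp κ R p) → ∀ g q c : ℕ, 1 ≤ g → 1 ≤ q → (∀ p ∈ S, ¬ p ∣ g ∧ ¬ p ∣ q) →
    Nat.Coprime g q → Nat.Coprime c q →
    ‖∑ m ∈ (Ioc M0 M1).filter (fun m => m ≡ c [MOD q] ∧ g ∣ m ∧ ∀ p ∈ S, R p m), ((la m : ℝ) : ℂ) * ee (m * θ)‖ ≤
      ∑ U ∈ S.powerset, (κ : ℝ) ^ (S \ U).card * B3 M1 M0 (q * ∏ p ∈ S \ U, p) (g * ∏ p ∈ U, p) θ := by
  induction S using Finset.induction_on with
  | empty =>
    intro _ g q c hg hq _ h1 h2
    have h3 := linP M0 M1 g q c hM θ hg hq h1 h2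
    simpa using h3
  | insert p S hp ih =>
    intro hS g q c hg hq hgq h1 h2
    have hP := hS p (mem_insert_self p S)
    have hS' : ∀ p' ∈ S, Cp κ R p' := fun p' hp' => hS p' (mem_insert_of_mem hp')
    have hpg := hgq p (mem_insert_self p S)
    have hne : ∀ p' ∈ S, ¬ p' ∣ p := by
      intro p' hp' hd
      have := (Nat.prime_dvd_prime_iff_eq (hS' p' hp').pr hP.pr).1 hd
      rw [this] at hp'
      exact hp hp'
    have hpp := hP.pr.pos
    rw [Finset.sum_powerset_insert hp]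
    set F := (Ioc M0 M1).filter (fun m => m ≡ c [MOD q] ∧ g ∣ m ∧ ∀ p' ∈ insert p S, R p' m) with hF
    have hsplit := sum_filter_add_sum_filter_not F (fun m : ℕ => p ∣ m) (fun m : ℕ => ((la m : ℝ) : ℂ) * ee (m * θ))
    rw [← hsplit]
    have hgp : Nat.Coprime g p := ((Nat.Prime.coprime_iff_not_dvd hP.pr).2 hpg.1).symm
    have hqp : Nat.Coprime q p := ((Nat.Prime.coprime_iff_not_dvd hP.pr).2 hpg.2).symm
    -- the first part
    have g1 : ‖∑ m ∈ F.filter (fun m : ℕ => p ∣ m), ((la m : ℝ) : ℂ) * ee (m * θ)‖ ≤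
        ∑ U ∈ S.powerset, (κ : ℝ) ^ (S \ U).card * B3 M1 M0 (q * ∏ p ∈ S \ U, p) (g * p * ∏ p ∈ U, p) θ := by
      by_cases hhit : R p 0
      swap
      · have hF0 : F.filter (fun m : ℕ => p ∣ m) = ∅ := by
          rw [filter_eq_empty_iff]
          intro m hm hd
          rw [hF, mem_filter] at hm
          have hqn := hm.2.2.2 p (mem_insert_self p S)
          rw [hP.per, Nat.mod_eq_zero_of_dvd hd] at hqn
          exact hhit hqn
        rw [hF0, sum_empty, norm_zero]
        exact sum_nonneg fun U _ => mul_nonneg (pow_nonneg (Nat.cast_nonneg _) _) (B3_nonneg _ _ _ _ _)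
      have f1 : F.filter (fun m : ℕ => p ∣ m) =
          (Ioc M0 M1).filter (fun m => m ≡ c [MOD q] ∧ g * p ∣ m ∧ ∀ p' ∈ S, R p' m) := by
        ext m
        rw [mem_filter, hF, mem_filter, mem_filter]
        constructor
        · rintro ⟨⟨h3, h4, h5, h6⟩, h7⟩
          exact ⟨h3, h4, hgp.mul_dvd_of_dvd_of_dvd h5 h7, fun p' hp' => h6 p' (mem_insert_of_mem hp')⟩
        · rintro ⟨h3, h4, h5, h6⟩
          have h7 : p ∣ m := (dvd_mul_left _ _).trans h5
          refine ⟨⟨h3, h4, (dvd_mul_right _ _).trans h5, fun p' hp' => ?_⟩, h7⟩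
          rcases mem_insert.1 hp' with h | h
          · rw [h, hP.per, Nat.mod_eq_zero_of_dvd h7]
            exact hhit
          · exact h6 p' h
      rw [f1]
      apply ih hS' (g * p) q c (Nat.mul_pos hg hpp) hq
      · intro p' hp'
        have h3 := hgq p' (mem_insert_of_mem hp')
        refine ⟨?_, h3.2⟩
        rw [(hS' p' hp').pr.dvd_mul]
        rintro (h | h)
        · exact h3.1 h
        · exact hne p' hp' h
      · exact Nat.Coprime.mul_left h1 hqp.symm
      · exact h2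
    -- the second part
    set T := (range p).filter (fun r => R p r ∧ r ≠ 0) with hT
    have f2 : ∑ m ∈ F.filter (fun m : ℕ => ¬ p ∣ m), ((la m : ℝ) : ℂ) * ee (m * θ) =
        ∑ r ∈ T, ∑ m ∈ (F.filter (fun m : ℕ => ¬ p ∣ m)).filter (fun m => m % p = r), ((la m : ℝ) : ℂ) * ee (m * θ) := by
      refine (sum_fiberwise_of_maps_to (fun m hm => ?_) _).symm
      rw [mem_filter, hF, mem_filter] at hm
      obtain ⟨⟨h3, h4, h5, h6⟩, h7⟩ := hm
      rw [hT, mem_filter, mem_range]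
      refine ⟨Nat.mod_lt _ hpp, (hP.per m).1 (h6 p (mem_insert_self p S)), ?_⟩
      intro h8
      exact h7 (Nat.dvd_of_mod_eq_zero h8)
    have g2 : ‖∑ m ∈ F.filter (fun m : ℕ => ¬ p ∣ m), ((la m : ℝ) : ℂ) * ee (m * θ)‖ ≤
        κ * ∑ U ∈ S.powerset, (κ : ℝ) ^ (S \ U).card * B3 M1 M0 (q * p * ∏ p ∈ S \ U, p) (g * ∏ p ∈ U, p) θ := by
      rw [f2]
      refine (norm_sum_le _ _).trans ?_
      have h3 : ∀ r ∈ T, ‖∑ m ∈ (F.filter (fun m : ℕ => ¬ p ∣ m)).filter (fun m => m % p = r),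
          ((la m : ℝ) : ℂ) * ee (m * θ)‖ ≤
          ∑ U ∈ S.powerset, (κ : ℝ) ^ (S \ U).card * B3 M1 M0 (q * p * ∏ p ∈ S \ U, p) (g * ∏ p ∈ U, p) θ := by
        intro r hr
        rw [hT, mem_filter, mem_range] at hr
        obtain ⟨c', hc1, hc2⟩ : ∃ c' : ℕ, c' ≡ c [MOD q] ∧ c' ≡ r [MOD p] :=
          ⟨(Nat.chineseRemainder hqp c r : ℕ), (Nat.chineseRemainder hqp c r).2⟩
        have f3 : (F.filter (fun m : ℕ => ¬ p ∣ m)).filter (fun m => m % p = r) =
            (Ioc M0 M1).filter (fun m => m ≡ c' [MOD q * p] ∧ g ∣ m ∧ ∀ p' ∈ S, R p' m) := by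
          ext m
          rw [mem_filter, mem_filter, hF, mem_filter, mem_filter]
          constructor
          · rintro ⟨⟨⟨h4, h5, h6, h7⟩, h8⟩, h9⟩
            refine ⟨h4, ?_, h6, fun p' hp' => h7 p' (mem_insert_of_mem hp')⟩
            have h10 : m ≡ r [MOD p] := by
              rw [← h9]
              exact (Nat.mod_modEq _ _).symm
            exact (Nat.modEq_and_modEq_iff_modEq_mul hqp).1 ⟨h5.trans hc1.symm, h10.trans hc2.symm⟩
          · rintro ⟨h4, h5, h6, h7⟩
            have a1 : m ≡ c [MOD q] := (h5.of_dvd (dvd_mul_right _ _)).trans hc1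
            have a2 : m ≡ r [MOD p] := (h5.of_dvd (dvd_mul_left _ _)).trans hc2
            have h9 : m % p = r := by
              unfold Nat.ModEq at a2
              rw [a2]
              exact Nat.mod_eq_of_lt hr.1
            refine ⟨⟨⟨h4, a1, h6, fun p' hp' => ?_⟩, ?_⟩, h9⟩
            · rcases mem_insert.1 hp' with h | h
              · rw [h, hP.per, h9]
                exact hr.2.1
              · exact h7 p' h
            · intro h10
              apply hr.2.2
              rw [← h9]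
              exact Nat.mod_eq_zero_of_dvd h10
        rw [f3]
        apply ih hS' g (q * p) c' hg (Nat.mul_pos hq hpp)
        · intro p' hp'
          have h3 := hgq p' (mem_insert_of_mem hp')
          refine ⟨h3.1, ?_⟩
          rw [(hS' p' hp').pr.dvd_mul]
          rintro (h | h)
          · exact h3.2 h
          · exact hne p' hp' h
        · exact Nat.Coprime.mul_right h1 hgp
        · apply Nat.Coprime.mul_right
          · rw [Nat.Coprime, hc1.gcd_eq]
            exact h2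
          · rw [Nat.Coprime, hc2.gcd_eq]
            have h4 : ¬ p ∣ r := by
              intro h5
              have := Nat.le_of_dvd (Nat.pos_of_ne_zero hr.2.2) h5
              omega
            exact ((Nat.Prime.coprime_iff_not_dvd hP.pr).2 h4).symm
      calc ∑ r ∈ T, ‖∑ m ∈ (F.filter (fun m : ℕ => ¬ p ∣ m)).filter (fun m => m % p = r), ((la m : ℝ) : ℂ) * ee (m * θ)‖ ≤
          ∑ r ∈ T, ∑ U ∈ S.powerset, (κ : ℝ) ^ (S \ U).card * B3 M1 M0 (q * p * ∏ p ∈ S \ U, p) (g * ∏ p ∈ U, p) θ :=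
            sum_le_sum h3
        _ = (T.card : ℝ) * ∑ U ∈ S.powerset, (κ : ℝ) ^ (S \ U).card * B3 M1 M0 (q * p * ∏ p ∈ S \ U, p) (g * ∏ p ∈ U, p) θ := by
            rw [sum_const, nsmul_eq_mul]
        _ ≤ _ := by
            apply mul_le_mul_of_nonneg_right (by exact_mod_cast hP.few)
            exact sum_nonneg fun U _ => mul_nonneg (pow_nonneg (Nat.cast_nonneg _) _) (B3_nonneg _ _ _ _ _)
    refine (norm_add_le _ _).trans ?_
    rw [add_comm (∑ t ∈ S.powerset, _)]
    apply add_le_add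
    · refine g1.trans (le_of_eq ?_)
      apply sum_congr rfl
      intro U hU
      have hpU : p ∉ U := fun h => hp (mem_powerset.1 hU h)
      rw [prod_insert hpU, mul_assoc]
      have e1 : insert p S \ insert p U = S \ U := by
        ext x
        simp only [mem_sdiff, mem_insert, not_or]
        constructor
        · rintro ⟨h | h, h3, h4⟩
          · exact absurd h h3
          · exact ⟨h, h4⟩
        · rintro ⟨h, h3⟩
          refine ⟨Or.inr h, ?_, h3⟩
          rintro rfl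
          exact hp h
      rw [e1]
    · refine g2.trans (le_of_eq ?_)
      rw [mul_sum]
      apply sum_congr rfl
      intro U hU
      have hpU : p ∉ U := fun h => hp (mem_powerset.1 hU h)
      have e1 : insert p S \ U = insert p (S \ U) := by
        ext x
        simp only [mem_sdiff, mem_insert]
        constructor
        · rintro ⟨h | h, h3⟩
          · exact Or.inl h
          · exact Or.inr ⟨h, h3⟩
        · rintro (h | ⟨h, h3⟩)
          · rw [h]
            exact ⟨Or.inl rfl, hpU⟩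
          · exact ⟨Or.inr h, h3⟩
      have e2 : p ∉ S \ U := fun h => hp (mem_sdiff.1 h).1
      rw [e1, card_insert_of_notMem e2, prod_insert e2, pow_succ]
      rw [mul_assoc q p]
      ring

end Pool.Agent.H530.Hx
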