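import Pool.Agent.H530.HxL

/-! The Liouville function with a phase: sifted integers in a class. -/

set_option autoImplicit false

namespace Pool.Agent.H530.Hx

open Finset Pool.Agent.H373R2.T7 Pool.Agent.H807R2.Dav Pool.Agent.H530.Ha

open Classical in
theorem nspace {κ X b q c : ℕ} {α : ℝ} {Q : ℕ → ℕ → Prop} {S : Finset ℕ} (hper : ∀ p n, Q p n ↔ Q p (n % p))
    (hSp : ∀ p ∈ S, p.Prime) (hle : ∀ p ∈ S, nuB Q p ≤ κ) (hndq : ∀ p ∈ S, ¬ p ∣ q) (hq : 1 ≤ q)
    (hsq : Squarefree q) {g : ℕ} (hg : g = Nat.gcd (c + b) q) {q1 : ℕ} (hq1 : q = g * q1) :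
    ‖∑ n ∈ (Icc 1 X).filter (fun n => n ≡ c [MOD q] ∧ ∀ p ∈ S, Q p n), ((la (n + b) : ℝ) : ℂ) * ee (n * α)‖ ≤
      ∑ U ∈ S.powerset, (κ : ℝ) ^ (S \ U).card *
        (EA ((X + b) / (g * ∏ p ∈ U, p)) (q1 * ∏ p ∈ S \ U, p) (((g * ∏ p ∈ U, p : ℕ) : ℝ) * α) +
         EA (b / (g * ∏ p ∈ U, p)) (q1 * ∏ p ∈ S \ U, p) (((g * ∏ p ∈ U, p : ℕ) : ℝ) * α)) := by
  have hg0 : 0 < g := by rw [hg]; exact Nat.gcd_pos_of_pos_right _ hq
  have hgc : g ∣ c + b := by rw [hg]; exact Nat.gcd_dvd_left _ _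
  obtain ⟨c1, hc1⟩ := hgc
  have hq1pos : 1 ≤ q1 := by
    rcases Nat.eq_zero_or_pos q1 with h | h
    · rw [h, mul_zero] at hq1
      omega
    · exact h
  have hgq1 : Nat.Coprime g q1 := by
    rw [hq1] at hsq
    exact Nat.coprime_of_squarefree_mul hsq
  have hcop : Nat.Coprime c1 q1 := by
    have h1 : Nat.gcd (g * c1) (g * q1) = g := by rw [← hc1, ← hq1, ← hg]
    rw [Nat.gcd_mul_left] at h1
    have h2 : g * Nat.gcd c1 q1 = g * 1 := by rw [h1, mul_one]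
    exact Nat.eq_of_mul_eq_mul_left hg0 h2
  have hpg : ∀ p ∈ S, ¬ p ∣ g := fun p hp h => hndq p hp (by rw [hq1]; exact h.mul_right _)
  have hpq1 : ∀ p ∈ S, ¬ p ∣ q1 := fun p hp h => hndq p hp (by rw [hq1]; exact h.mul_left _)
  -- the conditions in the new variable
  obtain ⟨R, hR⟩ : ∃ R : ℕ → ℕ → Prop, R = fun p m => ∃ n, n + b ≡ g * m [MOD p] ∧ Q p n := ⟨_, rfl⟩
  have hRQ : ∀ p n m, n + b = g * m → (R p m ↔ Q p n) := by
    intro p n m h
    rw [hR]
    constructor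
    · rintro ⟨n', h1, h2⟩
      rw [← h] at h1
      have h3 : n' ≡ n [MOD p] := Nat.ModEq.add_right_cancel' b h1
      rw [hper p n, ← show n' % p = n % p from h3, ← hper]
      exact h2
    · intro h2
      exact ⟨n, by rw [h], h2⟩
  have hCp : ∀ p ∈ S, Cp κ R p := by
    intro p hp
    have hpp := hSp p hp
    refine ⟨hpp, ?_, ?_⟩
    · intro m
      rw [hR]
      have h1 : g * m ≡ g * (m % p) [MOD p] := ((Nat.mod_modEq m p).symm).mul_left g
      constructor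
      · rintro ⟨n, h2, h3⟩
        exact ⟨n, h2.trans h1, h3⟩
      · rintro ⟨n, h2, h3⟩
        exact ⟨n, h2.trans h1.symm, h3⟩
    · refine le_trans ?_ (hle p hp)
      unfold nuB
      have hex : ∀ r ∈ (range p).filter (fun r => R p r ∧ r ≠ 0), ∃ n, n + b ≡ g * r [MOD p] ∧ Q p n := by
        intro r hr
        rw [mem_filter] at hr
        have := hr.2.1
        rw [hR] at this
        exact this
      choose! f hf1 hf2 using hex
      apply card_le_card_of_injOn (fun r => f r % p)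
      · intro r hr
        have hr' : r ∈ (range p).filter (fun r => R p r ∧ r ≠ 0) := hr
        rw [mem_coe, mem_filter, mem_range]
        exact ⟨Nat.mod_lt _ hpp.pos, (hper p _).1 (hf2 r hr')⟩
      · intro r hr s hs hrs
        have hr' : r ∈ (range p).filter (fun r => R p r ∧ r ≠ 0) := hr
        have hs' : s ∈ (range p).filter (fun r => R p r ∧ r ≠ 0) := hs
        have h1 : f r ≡ f s [MOD p] := hrs
        have h2 : g * r ≡ g * s [MOD p] := ((hf1 r hr').symm.trans (h1.add_right b)).trans (hf1 s hs')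
        have hco : Nat.gcd p g = 1 := (Nat.Prime.coprime_iff_not_dvd hpp).2 (hpg p hp)
        have h3 : r ≡ s [MOD p] := Nat.ModEq.cancel_left_of_coprime hco h2
        rw [mem_filter, mem_range] at hr' hs'
        exact Nat.ModEq.eq_of_lt_of_lt h3 hr'.1 hs'.1
  have hM : b / g ≤ (X + b) / g := Nat.div_le_div_right (by omega)
  have h1 := indP (b / g) ((X + b) / g) κ hM ((g : ℝ) * α) R S hCp 1 q1 c1 le_rfl hq1pos
    (fun p hp => ⟨(hSp p hp).one_lt.ne' ∘ Nat.dvd_one.1, hpq1 p hp⟩) (Nat.coprime_one_left _) hcop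
  -- the substitution
  have e1 : ∑ n ∈ (Icc 1 X).filter (fun n => n ≡ c [MOD q] ∧ ∀ p ∈ S, Q p n), ((la (n + b) : ℝ) : ℂ) * ee (n * α) =
      (((la g : ℝ) : ℂ) * ee (-(b * α))) *
        ∑ m ∈ (Ioc (b / g) ((X + b) / g)).filter (fun m => m ≡ c1 [MOD q1] ∧ 1 ∣ m ∧ ∀ p ∈ S, R p m),
          ((la m : ℝ) : ℂ) * ee (m * ((g : ℝ) * α)) := by
    rw [mul_sum]
    have hgn : ∀ n, n ≡ c [MOD q] → g ∣ n + b := by
      intro n hn
      have h2 : n + b ≡ c + b [MOD g] := (hn.add_right b).of_dvd (by rw [hq1]; exact dvd_mul_right _ _)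
      have h3 : c + b ≡ 0 [MOD g] := by
        rw [hc1]
        exact Nat.modEq_zero_iff_dvd.2 (dvd_mul_right _ _)
      exact Nat.modEq_zero_iff_dvd.1 (h2.trans h3)
    refine sum_bij' (fun n _ => (n + b) / g) (fun m _ => g * m - b) ?_ ?_ ?_ ?_ ?_
    · intro n hn
      rw [mem_filter, mem_Icc] at hn
      obtain ⟨⟨h2, h3⟩, h4, h5⟩ := hn
      obtain ⟨m, hm⟩ := hgn n h4
      rw [hm, Nat.mul_div_cancel_left _ hg0, mem_filter, mem_Ioc]
      refine ⟨⟨?_, ?_⟩, ?_, one_dvd _, ?_⟩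
      · rw [Nat.div_lt_iff_lt_mul hg0, mul_comm, ← hm]
        omega
      · rw [Nat.le_div_iff_mul_le hg0, mul_comm, ← hm]
        omega
      · have h6 := h4.add_right b
        rw [hm, hc1, hq1] at h6
        exact Nat.ModEq.mul_left_cancel' hg0.ne' h6
      · intro p hp
        exact (hRQ p n m hm).2 (h5 p hp)
    · intro m hm
      rw [mem_filter, mem_Ioc] at hm
      obtain ⟨⟨h2, h3⟩, h4, _, h5⟩ := hm
      rw [Nat.div_lt_iff_lt_mul hg0, mul_comm] at h2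
      rw [Nat.le_div_iff_mul_le hg0, mul_comm] at h3
      have h6 : g * m - b + b = g * m := by omega
      rw [mem_filter, mem_Icc]
      refine ⟨⟨by omega, by omega⟩, ?_, ?_⟩
      · apply Nat.ModEq.add_right_cancel' b
        rw [h6, hc1, hq1]
        exact h4.mul_left' g
      · intro p hp
        exact (hRQ p _ m h6).1 (h5 p hp)
    · intro n hn
      rw [mem_filter, mem_Icc] at hn
      obtain ⟨⟨h2, h3⟩, h4, h5⟩ := hn
      have h7 := Nat.mul_div_cancel' (hgn n h4)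
      rw [h7]
      omega
    · intro m hm
      rw [mem_filter, mem_Ioc] at hm
      obtain ⟨⟨h2, h3⟩, h4, _, h5⟩ := hm
      rw [Nat.div_lt_iff_lt_mul hg0, mul_comm] at h2
      have h6 : g * m - b + b = g * m := by omega
      rw [h6, Nat.mul_div_cancel_left _ hg0]
    · intro n hn
      rw [mem_filter, mem_Icc] at hn
      obtain ⟨⟨h2, h3⟩, h4, h5⟩ := hn
      obtain ⟨m, hm⟩ := hgn n h4
      rw [hm, Nat.mul_div_cancel_left _ hg0, la_mul]
      push_cast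
      have h6 : ee (n * α) = ee (-(b * α)) * ee (m * ((g : ℝ) * α)) := by
        rw [← ee_add]
        congr 1
        have h7 : (n : ℝ) + b = g * m := by exact_mod_cast hm
        linear_combination α * h7
      rw [h6]
      ring
  rw [e1, norm_mul, norm_mul, norm_ee, mul_one]
  have hg1 : ‖((la g : ℝ) : ℂ)‖ ≤ 1 := by
    rw [Complex.norm_real, Real.norm_eq_abs]
    exact la_abs g
  calc _ ≤ 1 * ‖∑ m ∈ (Ioc (b / g) ((X + b) / g)).filter (fun m => m ≡ c1 [MOD q1] ∧ 1 ∣ m ∧ ∀ p ∈ S, R p m),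
          ((la m : ℝ) : ℂ) * ee (m * ((g : ℝ) * α))‖ := mul_le_mul_of_nonneg_right hg1 (norm_nonneg _)
    _ = ‖∑ m ∈ (Ioc (b / g) ((X + b) / g)).filter (fun m => m ≡ c1 [MOD q1] ∧ 1 ∣ m ∧ ∀ p ∈ S, R p m),
          ((la m : ℝ) : ℂ) * ee (m * ((g : ℝ) * α))‖ := one_mul _
    _ ≤ _ := h1
    _ = _ := by
        apply sum_congr rfl
        intro U _
        unfold B3
        congr 1
        have e2 : ((1 * ∏ p ∈ U, p : ℕ) : ℝ) * ((g : ℝ) * α) = ((g * ∏ p ∈ U, p : ℕ) : ℝ) * α := by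
          push_cast
          ring
        rw [e2, Nat.div_div_eq_div_mul, Nat.div_div_eq_div_mul, one_mul]

open Classical in
/-- the fundamental lemma with a signed function -/
theorem clsG {k : ℕ} {Q : ℕ → ℕ → Prop} {C0 z0 bb y X D q c : ℕ} (hper : ∀ p n, Q p n ↔ Q p (n % p))
    (hle : ∀ p ∈ (pz y).filter (fun p => z0 < p), nuB Q p ≤ k)
    (hndq : ∀ p ∈ (pz y).filter (fun p => z0 < p), ¬ p ∣ q)
    (hC0 : 1 ≤ C0) (hFL : ∀ (b J z0 : ℕ) (P : Finset ℕ) (g : ℕ → ℝ),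
      C0 ≤ b → C0 ≤ z0 → (∀ p ∈ P, p.Prime ∧ z0 < p ∧ p ≤ 2 ^ 2 ^ J) →
      (∀ p ∈ P, 0 ≤ g p ∧ g p ≤ k / ((p : ℝ) - 1)) →
      ∀ (Ω : Finset ℕ) (w : ℕ → ℝ) (hit : ℕ → ℕ → Prop) (A : ℝ) (err : Finset ℕ → ℝ),
        (∀ m ∈ Ω, 0 ≤ w m) → 0 ≤ A →
        (∀ T ⊆ P, ∏ p ∈ T, p ≤ (2 ^ 2 ^ J) ^ (C0 * b) →
          |∑ m ∈ Ω.filter (fun m => ∀ p ∈ T, hit p m), w m - A * ∏ p ∈ T, g p| ≤ err T) →
        |∑ m ∈ Ω.filter (fun m => ∀ p ∈ P, ¬ hit p m), w m - A * ∏ p ∈ P, (1 - g p)| ≤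
          (1 / 2 : ℝ) ^ b * (A * ∏ p ∈ P, (1 - g p)) +
            ((J : ℝ) + 2) *
              ∑ T ∈ P.powerset.filter (fun T : Finset ℕ => ∏ p ∈ T, p ≤ (2 ^ 2 ^ J) ^ (C0 * b)), err T)
    (hb : C0 ≤ bb) (hz : C0 ≤ z0) (hq1 : 1 ≤ q)
    (hD : D = (2 ^ 2 ^ JJ y) ^ (C0 * bb)) (f : ℕ → ℝ) (hf : ∀ n, |f n| ≤ 1) (er : Finset ℕ → ℝ)
    (her0 : ∀ T, 0 ≤ er T)
    (her : ∀ T ⊆ (pz y).filter (fun p => z0 < p), ∏ p ∈ T, p ≤ D →
      |∑ n ∈ (Icc 1 X).filter (fun n => n ≡ c [MOD q] ∧ ∀ p ∈ T, Q p n), f n| ≤ er T) :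
    |∑ n ∈ ((Icc 1 X).filter (fun n => n ≡ c [MOD q])).filter (fun n => ∀ p ∈ (pz y).filter (fun p => z0 < p), ¬ Q p n),
      f n| ≤ 2 * (1 / 2 : ℝ) ^ bb *
        ((((Icc 1 X).filter (fun n => n ≡ c [MOD q])).filter
          (fun n => ∀ p ∈ (pz y).filter (fun p => z0 < p), ¬ Q p n)).card : ℝ) +
        4 * (((JJ y : ℕ) : ℝ) + 2) * ∑ T ∈ Sm ((pz y).filter (fun p => z0 < p)) D, ((D : ℝ) + er T) := by
  set P := (pz y).filter (fun p => z0 < p) with hP
  set J := JJ y with hJ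
  have hPp : ∀ p ∈ P, p.Prime ∧ z0 < p ∧ p ≤ 2 ^ 2 ^ J := by
    intro p hp
    rw [hP, mem_filter] at hp
    exact ⟨(mem_pz.1 hp.1).2, hp.2, ((mem_pz.1 hp.1).1.trans (JJ_lt y).le)⟩
  have hq0 : (0 : ℝ) < q := by exact_mod_cast hq1
  set Ω := (Icc 1 X).filter (fun n => n ≡ c [MOD q]) with hΩ
  set F := Ω.filter (fun n => ∀ p ∈ P, ¬ Q p n) with hF
  set Λ := ∑ n ∈ F, f n with hΛ
  set M : ℝ := (X : ℝ) / (2 * q) * ∏ p ∈ P, (1 - (nuB Q p : ℝ) / p) with hM
  have hTE0 : 0 ≤ ∑ T ∈ Sm P D, ((D : ℝ) + er T) :=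
    sum_nonneg fun T _ => add_nonneg (Nat.cast_nonneg _) (her0 T)
  set TT := ((J : ℝ) + 2) * ∑ T ∈ Sm P D, ((D : ℝ) + er T) with hTT
  have hTT0 : 0 ≤ TT := by positivity
  -- both signs
  have key : ∀ σ : ℝ, |σ| = 1 → |((F.card : ℝ) + σ * Λ) / 2 - M| ≤ (1 / 2 : ℝ) ^ bb * M + TT := by
    intro σ hσ
    have h := hFL bb J z0 P (fun p => (nuB Q p : ℝ) / p) hb hz hPp (fun p hp => by
        have hp0 : (0 : ℝ) < p := by exact_mod_cast (hPp p hp).1.pos
        have hp1 : (1 : ℝ) < p := by exact_mod_cast (hPp p hp).1.one_lt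
        refine ⟨by positivity, ?_⟩
        apply div_le_div₀ (Nat.cast_nonneg _) (by exact_mod_cast hle p hp) (by linarith) (by linarith))
      Ω (fun n => (1 + σ * f n) / 2) (fun p n => Q p n) ((X : ℝ) / (2 * q))
      (fun T => (D : ℝ) + er T)
      (fun n _ => by
        have h1 : |σ * f n| ≤ 1 := by
          rw [abs_mul, hσ, one_mul]
          exact hf n
        have := (abs_le.1 h1).1
        linarith) (by positivity) (by
        intro T hT hTD
        rw [← hD] at hTD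
        have hTp : ∀ p ∈ T, p.Prime := fun p hp => (hPp p (hT hp)).1
        have h1 := her T hT hTD
        have e1 : Ω.filter (fun n => ∀ p ∈ T, Q p n) =
            (Icc 1 X).filter (fun n : ℕ => n ≡ c [MOD q] ∧ ∀ p ∈ T, Q p n) := by
          rw [hΩ, filter_filter]
        have h2 := count_sys (fun p a' => Q p a') X T hTp q hq1 (fun p hp => hndq p (hT hp)) c
        have e2 : (Icc 1 X).filter (fun n => n ≡ c [MOD q] ∧ ∀ p ∈ T, Q p (n % p)) =
            Ω.filter (fun n => ∀ p ∈ T, Q p n) := by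
          rw [hΩ, filter_filter]
          apply filter_congr
          intro n _
          constructor
          · rintro ⟨h3, h4⟩
            exact ⟨h3, fun p hp => (hper p n).2 (h4 p hp)⟩
          · rintro ⟨h3, h4⟩
            exact ⟨h3, fun p hp => (hper p n).1 (h4 p hp)⟩
        rw [e2] at h2
        rw [← e1] at h1
        have h3 : ∏ p ∈ T, (((range p).filter (fun a' => Q p a')).card : ℝ) ≤ D := by
          have h5 : ∏ p ∈ T, (((range p).filter (fun a' => Q p a')).card : ℝ) ≤ ∏ p ∈ T, (p : ℝ) := by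
            apply prod_le_prod (fun _ _ => Nat.cast_nonneg _)
            intro p hp
            exact_mod_cast nuB_le Q p
          refine h5.trans ?_
          have h6 : ((∏ p ∈ T, p : ℕ) : ℝ) ≤ D := by exact_mod_cast hTD
          push_cast at h6
          exact h6
        set N1 : ℝ := ((Ω.filter (fun n => ∀ p ∈ T, Q p n)).card : ℝ) with hN1
        set S1 := ∑ n ∈ Ω.filter (fun n => ∀ p ∈ T, Q p n), f n with hS1
        have e3 : ∑ n ∈ Ω.filter (fun n => ∀ p ∈ T, Q p n), (1 + σ * f n) / 2 =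
            (N1 + σ * S1) / 2 := by
          rw [← sum_div, sum_add_distrib, ← mul_sum, sum_const, nsmul_eq_mul, mul_one]
        have e4 : (X : ℝ) / (2 * q) * ∏ p ∈ T, ((nuB Q p : ℝ) / p) =
            ((X : ℝ) / q * ∏ p ∈ T, ((((range p).filter (fun a' => Q p a')).card : ℝ) / p)) / 2 := by
          unfold nuB
          ring
        rw [e3, e4]
        have e5 : (N1 + σ * S1) / 2 - ((X : ℝ) / q * ∏ p ∈ T, ((((range p).filter (fun a' => Q p a')).card : ℝ) / p)) / 2 =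
            (N1 - (X : ℝ) / q * ∏ p ∈ T, ((((range p).filter (fun a' => Q p a')).card : ℝ) / p)) / 2 + (σ * S1) / 2 := by ring
        rw [e5]
        refine (abs_add_le _ _).trans ?_
        rw [abs_div, abs_div, abs_mul, hσ, one_mul, abs_of_pos (by norm_num : (0 : ℝ) < 2)]
        have h6 := h2.trans h3
        have hDn : (0 : ℝ) ≤ D := Nat.cast_nonneg _
        have hn := her0 T
        apply add_le_add
        · linarith
        · linarith)
    have e6 : ∑ n ∈ Ω.filter (fun n => ∀ p ∈ P, ¬ Q p n), (1 + σ * f n) / 2 =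
        ((F.card : ℝ) + σ * Λ) / 2 := by
      rw [← sum_div, sum_add_distrib, ← mul_sum, sum_const, nsmul_eq_mul, mul_one]
    rw [e6, ← hD] at h
    exact h
  have k1 := key 1 (by norm_num)
  have k2 := key (-1) (by norm_num)
  rw [one_mul] at k1
  have e7 : (F.card : ℝ) + -1 * Λ = F.card - Λ := by ring
  rw [e7] at k2
  have hb1 : 1 ≤ bb := hC0.trans hb
  have hη : (1 / 2 : ℝ) ^ bb ≤ 1 / 2 := by
    calc (1 / 2 : ℝ) ^ bb ≤ (1 / 2 : ℝ) ^ 1 := pow_le_pow_of_le_one (by norm_num) (by norm_num) hb1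
      _ = _ := pow_one _
  have := two_bounds (by positivity) hη hTT0 (Nat.cast_nonneg _) k1 k2
  refine this.trans (le_of_eq ?_)
  rw [hTT]
  ring

end Pool.Agent.H530.Hx
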