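import Pool.Agent.H530.HxM

/-! **Fourier uniformity** of the Liouville function on sifted sets. -/

set_option autoImplicit false

namespace Pool.Agent.H530.Hx

open Finset Pool.Agent.H807R2.Dav Pool.Agent.H530.Ha
open Pool.Agent.H373R2.T7 hiding RQ

lemma sqf_prod (z : ℕ) : Squarefree (∏ p ∈ pz z, p) := by
  rw [Nat.squarefree_iff_prime_squarefree]
  intro p hp hd
  have hpz : p ∈ pz z := by
    have h1 : p ∣ ∏ p ∈ pz z, p := (dvd_mul_right p p).trans hd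
    obtain ⟨r, hr, hd'⟩ := (Prime.dvd_finsetProd_iff hp.prime _).1 h1
    rw [(Nat.prime_dvd_prime_iff_eq hp (mem_pz.1 hr).2).1 hd']
    exact hr
  rw [← mul_prod_erase _ _ hpz] at hd
  have h2 : p ∣ ∏ r ∈ (pz z).erase p, r := Nat.dvd_of_mul_dvd_mul_left hp.pos hd
  obtain ⟨r, hr, hd'⟩ := (Prime.dvd_finsetProd_iff hp.prime _).1 h2
  rw [mem_erase] at hr
  exact hr.1 ((Nat.prime_dvd_prime_iff_eq hp (mem_pz.1 hr.2).2).1 hd').symm

/-- the real function of the class sum -/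
noncomputable def fP (ω : ℂ) (b : ℕ) (α : ℝ) (n : ℕ) : ℝ := (ω * (((la (n + b) : ℝ) : ℂ) * ee (n * α))).re

lemma fP_abs {ω : ℂ} (hω : ‖ω‖ = 1) (b : ℕ) (α : ℝ) (n : ℕ) : |fP ω b α n| ≤ 1 := by
  unfold fP
  refine (Complex.abs_re_le_norm _).trans ?_
  rw [norm_mul, norm_mul, hω, norm_ee, one_mul, mul_one, Complex.norm_real, Real.norm_eq_abs]
  exact la_abs _

lemma fP_sum {ω : ℂ} (hω : ‖ω‖ = 1) (b : ℕ) (α : ℝ) (F : Finset ℕ) :
    |∑ n ∈ F, fP ω b α n| ≤ ‖∑ n ∈ F, ((la (n + b) : ℝ) : ℂ) * ee (n * α)‖ := by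
  have h1 : ∑ n ∈ F, fP ω b α n = (ω * ∑ n ∈ F, ((la (n + b) : ℝ) : ℂ) * ee (n * α)).re := by
    unfold fP
    rw [mul_sum, Complex.re_sum]
  rw [h1]
  refine (Complex.abs_re_le_norm _).trans ?_
  rw [norm_mul, hω, one_mul]

open Classical in
/-- one class -/
lemma clsP {k : ℕ} {Q : ℕ → ℕ → Prop} (hQ : Sv k Q) {C0 z0 bb y X D q c b : ℕ} {α : ℝ} {ω : ℂ} (hω : ‖ω‖ = 1)
    (hC0 : 1 ≤ C0) (hFL : ∀ (b J z0 : ℕ) (P : Finset ℕ) (g : ℕ → ℝ),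
      C0 ≤ b → C0 ≤ z0 → (∀ p ∈ P, p.Prime ∧ z0 < p ∧ p ≤ 2 ^ 2 ^ J) →
      (∀ p ∈ P, 0 ≤ g p ∧ g p ≤ k / ((p : ℝ) - 1)) →
      ∀ (Ω : Finset ℕ) (w : ℕ → ℝ) (hit : ℕ → ℕ → Prop) (A : ℝ) (err : Finset ℕ → ℝ),
        (∀ m ∈ Ω, 0 ≤ w m) → 0 ≤ A →
        (∀ T ⊆ P, ∏ p ∈ T, p ≤ (2 ^ 2 ^ J) ^ (C0 * b) →
          |∑ m ∈ Ω.filter (fun m => ∀ p ∈ T, hit p m), w m - A * ∏ p ∈ T, g p| ≤ err T) →
        |∑ m ∈ Ω.filter (fun m => ∀ p ∈ P, ¬ hit p m), w m - A * ∏ p ∈ P, (1 - g p)| ≤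
          (1 / 2 : ℝ) ^ b * (A * ∏ p ∈ P, (1 - g p)) +
            ((J : ℝ) + 2) *
              ∑ T ∈ P.powerset.filter (fun T : Finset ℕ => ∏ p ∈ T, p ≤ (2 ^ 2 ^ J) ^ (C0 * b)), err T)
    (hb : C0 ≤ bb) (hz : C0 ≤ z0) (hz0q : ∏ p ∈ pz z0, p = q)
    (hD : D = (2 ^ 2 ^ JJ y) ^ (C0 * bb)) {g q1 : ℕ} (hg : g = Nat.gcd (c + b) q) (hq1 : q = g * q1) :
    |∑ n ∈ ((Icc 1 X).filter (fun n => n ≡ c [MOD q])).filter (fun n => ∀ p ∈ (pz y).filter (fun p => z0 < p), ¬ Q p n),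
      fP ω b α n| ≤ 2 * (1 / 2 : ℝ) ^ bb *
        ((((Icc 1 X).filter (fun n => n ≡ c [MOD q])).filter
          (fun n => ∀ p ∈ (pz y).filter (fun p => z0 < p), ¬ Q p n)).card : ℝ) +
        4 * (((JJ y : ℕ) : ℝ) + 2) * ((D : ℝ) ^ 2 + (TA (X + b) k g q1 D ((pz y).filter (fun p => z0 < p)) α +
          TA b k g q1 D ((pz y).filter (fun p => z0 < p)) α)) := by
  obtain ⟨P, hP⟩ : ∃ P, P = (pz y).filter (fun p => z0 < p) := ⟨_, rfl⟩
  have hPp : ∀ p ∈ P, p.Prime ∧ z0 < p ∧ p ≤ y := by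
    intro p hp
    rw [hP, mem_filter, mem_pz] at hp
    exact ⟨hp.1.2, hp.2, hp.1.1⟩
  have hPp' : ∀ p ∈ P, p.Prime := fun p hp => (hPp p hp).1
  have hqpos : 1 ≤ q := by
    rw [← hz0q]
    exact Nat.pos_of_ne_zero (prod_ne_zero_iff.2 fun p hp => (mem_pz.1 hp).2.ne_zero)
  have hndq : ∀ p ∈ P, ¬ p ∣ q := by
    intro p hp hd
    rw [← hz0q] at hd
    obtain ⟨p', hp', hd'⟩ := (Prime.dvd_finsetProd_iff (hPp p hp).1.prime _).1 hd
    have h1 := (Nat.prime_dvd_prime_iff_eq (hPp p hp).1 (mem_pz.1 hp').2).1 hd'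
    have h2 := (mem_pz.1 hp').1
    have h3 := (hPp p hp).2.1
    omega
  have hle : ∀ p ∈ P, nuB Q p ≤ k := fun p hp => hQ.le p (hPp p hp).1
  have h := clsG (k := k) (Q := Q) (C0 := C0) (z0 := z0) (bb := bb) (y := y) (X := X) (D := D) (q := q) (c := c)
    hQ.per (by rw [← hP]; exact hle) (by rw [← hP]; exact hndq) hC0 hFL hb hz hqpos hD (fP ω b α)
    (fun n => fP_abs hω b α n)
    (fun T => ∑ U ∈ T.powerset, (k : ℝ) ^ (T \ U).card *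
        (EA ((X + b) / (g * ∏ p ∈ U, p)) (q1 * ∏ p ∈ T \ U, p) (((g * ∏ p ∈ U, p : ℕ) : ℝ) * α) +
         EA (b / (g * ∏ p ∈ U, p)) (q1 * ∏ p ∈ T \ U, p) (((g * ∏ p ∈ U, p : ℕ) : ℝ) * α)))
    (fun T => sum_nonneg fun U _ => mul_nonneg (by positivity) (add_nonneg (EA_nonneg _ _ _) (EA_nonneg _ _ _))) (by
      intro T hT hTD
      rw [← hP] at hT
      refine (fP_sum hω b α _).trans ?_
      exact nspace hQ.per (fun p hp => hPp' p (hT hp)) (fun p hp => hle p (hT hp)) (fun p hp => hndq p (hT hp))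
        hqpos (by rw [← hz0q]; exact sqf_prod z0) hg hq1)
  rw [← hP] at h ⊢
  refine h.trans (add_le_add le_rfl ?_)
  apply mul_le_mul_of_nonneg_left _ (by positivity)
  have hcard : ((Sm P D).card : ℝ) ≤ D := by exact_mod_cast Sm_card hPp'
  rw [sum_add_distrib, sum_const, nsmul_eq_mul]
  have e1 := pairs P D hPp' (fun U V => (k : ℝ) ^ V.card *
        (EA ((X + b) / (g * ∏ p ∈ U, p)) (q1 * ∏ p ∈ V, p) (((g * ∏ p ∈ U, p : ℕ) : ℝ) * α) +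
         EA (b / (g * ∏ p ∈ U, p)) (q1 * ∏ p ∈ V, p) (((g * ∏ p ∈ U, p : ℕ) : ℝ) * α)))
    (fun U V => mul_nonneg (by positivity) (add_nonneg (EA_nonneg _ _ _) (EA_nonneg _ _ _)))
  apply add_le_add
  · rw [sq]
    exact mul_le_mul_of_nonneg_right hcard (Nat.cast_nonneg _)
  · refine e1.trans (le_of_eq ?_)
    unfold TA
    rw [← sum_add_distrib]
    apply sum_congr rfl
    intro U _
    rw [← sum_add_distrib]
    apply sum_congr rfl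
    intro V _
    ring

open Classical in
/-- the decomposition into the classes modulo the small primes -/
lemma fib {k : ℕ} {Q : ℕ → ℕ → Prop} (hQ : Sv k Q) {z0 y X q : ℕ} (hzy : z0 ≤ y) (hq : q = ∏ p ∈ pz z0, p)
    (hq1 : 1 ≤ q) (f : ℕ → ℝ) :
    ∑ n ∈ RQ Q X y, f n = ∑ c ∈ (range q).filter (fun c => ∀ p ∈ pz z0, ¬ Q p c),
      ∑ n ∈ ((Icc 1 X).filter (fun n => n ≡ c [MOD q])).filter
        (fun n => ∀ p ∈ (pz y).filter (fun p => z0 < p), ¬ Q p n), f n := by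
  have hdq : ∀ p ∈ pz z0, p ∣ q := by
    intro p hp
    rw [hq]
    exact dvd_prod_of_mem _ hp
  rw [← sum_fiberwise_of_maps_to (s := RQ Q X y) (t := (range q).filter (fun c => ∀ p ∈ pz z0, ¬ Q p c))
    (g := fun n => n % q)]
  · apply sum_congr rfl
    intro c hc
    rw [mem_filter, mem_range] at hc
    apply sum_congr _ fun _ _ => rfl
    ext n
    rw [mem_filter, mem_filter, mem_filter, RQ, mem_filter]
    constructor
    · rintro ⟨⟨h1, h2⟩, h3⟩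
      refine ⟨⟨h1, ?_⟩, fun p hp => h2 p (mem_filter.1 hp).1⟩
      rw [← h3]
      exact (Nat.mod_modEq n q).symm
    · rintro ⟨⟨h1, h2⟩, h3⟩
      refine ⟨⟨h1, ?_⟩, ?_⟩
      · intro p hp
        by_cases hpz : z0 < p
        · exact h3 p (mem_filter.2 ⟨hp, hpz⟩)
        · have hp0 : p ∈ pz z0 := mem_pz.2 ⟨by omega, (mem_pz.1 hp).2⟩
          intro h
          apply hc.2 p hp0
          exact (hQ.mod (h2.of_dvd (hdq p hp0))).1 h
      · have := h2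
        unfold Nat.ModEq at this
        rw [Nat.mod_eq_of_lt hc.1] at this
        exact this
  · intro n hn
    rw [RQ, mem_filter] at hn
    rw [mem_filter, mem_range]
    refine ⟨Nat.mod_lt _ hq1, fun p hp h => ?_⟩
    have hpy : p ∈ pz y := mem_pz.2 ⟨by have := (mem_pz.1 hp).1; omega, (mem_pz.1 hp).2⟩
    apply hn.2 p hpy
    exact (hQ.mod ((Nat.mod_modEq n q).symm.of_dvd (hdq p hp))).2 h

theorem one_P (k : ℕ) (ε : ℝ) (hε : 0 < ε) : ∃ K : ℕ, 1 ≤ K ∧ ∀ B' : ℕ, ∃ X0 y0 : ℕ,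
    ∀ Q : ℕ → ℕ → Prop, Sv k Q → ∀ X y : ℕ, X0 ≤ X → y0 ≤ y → y ^ K ≤ X →
      ∀ b : ℕ, (b : ℝ) ≤ X * Real.log X ^ B' → ∀ (α : ℝ) (ω : ℂ), ‖ω‖ = 1 →
      |∑ n ∈ RQ Q X y, fP ω b α n| ≤ ε * (RQ Q X y).card + X / Real.log X ^ (k + 1) := by
  classical
  obtain ⟨C0, hC0, hFL⟩ := Pool.Agent.H20R2.fLem k
  obtain ⟨b1, hb1⟩ := exists_pow_lt_of_lt_one (show (0 : ℝ) < ε / 2 by positivity) (show (1 / 2 : ℝ) < 1 by norm_num)
  obtain ⟨bb, hbb⟩ : ∃ bb : ℕ, bb = max C0 b1 := ⟨_, rfl⟩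
  have hbC : C0 ≤ bb := by rw [hbb]; exact le_max_left _ _
  have hbε : 2 * (1 / 2 : ℝ) ^ bb ≤ ε := by
    have : (1 / 2 : ℝ) ^ bb ≤ (1 / 2) ^ b1 :=
      pow_le_pow_of_le_one (by norm_num) (by norm_num) (by rw [hbb]; exact le_max_right _ _)
    linarith
  have hbb1 : 1 ≤ C0 * bb := Nat.mul_pos hC0 (hC0.trans hbC)
  refine ⟨128 * (C0 * bb), by omega, ?_⟩
  intro B'
  obtain ⟨z0, hz0⟩ : ∃ z0 : ℕ, z0 = C0 + k := ⟨_, rfl⟩
  obtain ⟨q, hq⟩ : ∃ q : ℕ, q = ∏ p ∈ pz z0, p := ⟨_, rfl⟩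
  have hq1 : 1 ≤ q := by
    rw [hq]
    exact Nat.pos_of_ne_zero (prod_ne_zero_iff.2 fun p hp => (mem_pz.1 hp).2.ne_zero)
  obtain ⟨X0, y0, hTA⟩ := TA_bound k (k + 3) (B' + 1) q
  obtain ⟨X1, hX1⟩ := ev_L' (max 4 (61 * q))
  obtain ⟨X2, hX2⟩ := ev_log' (k + 3) 1
  refine ⟨X0 + X1 + X2 + q + 1, y0 + z0 + 2, ?_⟩
  intro Q hQ X y hX hy hyX b hbX α ω hω
  obtain ⟨D, hD⟩ : ∃ D : ℕ, D = (2 ^ 2 ^ JJ y) ^ (C0 * bb) := ⟨_, rfl⟩
  have hD1 : 1 ≤ D := by rw [hD]; exact Nat.one_le_pow _ _ (by positivity)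
  have hD64 : D ^ 64 ≤ X := by
    refine le_trans ?_ hyX
    rw [hD]
    calc ((2 ^ 2 ^ JJ y) ^ (C0 * bb)) ^ 64 ≤ ((y ^ 2) ^ (C0 * bb)) ^ 64 :=
          Nat.pow_le_pow_left (Nat.pow_le_pow_left (JJ_le y (by omega)) _) _
      _ = y ^ (128 * (C0 * bb)) := by rw [← pow_mul, ← pow_mul]; congr 1; ring
  have hyX1 : y ≤ X := (Nat.le_self_pow (by omega) y).trans hyX
  have hL := hX1 X (by omega)
  obtain ⟨L, hLe⟩ : ∃ L : ℝ, L = Real.log X := ⟨_, rfl⟩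
  have hL22 := hX2 X (by omega)
  have hT := hTA X (by omega)
  rw [← hLe] at hL hbX hL22 hT ⊢
  have hL4 : 4 ≤ L := (le_max_left _ _).trans hL
  have hL1 : 1 ≤ L := by linarith
  have hLq : 61 * (q : ℝ) ≤ L := (le_max_right _ _).trans hL
  have hXp : (1 : ℝ) ≤ X := by exact_mod_cast (by omega : 1 ≤ X)
  obtain ⟨P, hP⟩ : ∃ P, P = (pz y).filter (fun p => z0 < p) := ⟨_, rfl⟩
  have hPy : P ⊆ pz y := by rw [hP]; exact filter_subset _ _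
  have hPk : ∀ p ∈ P, k ≤ p := by
    intro p hp
    rw [hP, mem_filter] at hp
    omega
  have hLB0 : (1 : ℝ) ≤ L ^ B' := one_le_pow₀ hL1
  have hXb : ((X + b : ℕ) : ℝ) ≤ X * L ^ (B' + 1) := by
    push_cast
    have h1 : (X : ℝ) ≤ X * L ^ B' := le_mul_of_one_le_right (by linarith) hLB0
    have h2 : X * L ^ B' * 4 ≤ X * L ^ (B' + 1) := by
      rw [pow_succ, ← mul_assoc]
      exact mul_le_mul_of_nonneg_left hL4 (by positivity)
    linarith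
  have hbb2 : (b : ℝ) ≤ X * L ^ (B' + 1) := by
    refine le_trans ?_ hXb
    push_cast
    linarith
  have hDD : (D : ℝ) ^ 2 ≤ X / L ^ (k + 3) := by
    rw [le_div_iff₀ (by positivity)]
    rw [one_mul] at hL22
    have h2 : (1 : ℝ) ≤ D := by exact_mod_cast hD1
    have e1 : (D : ℝ) ^ 2 ≤ √(X : ℝ) := by
      apply Real.le_sqrt_of_sq_le
      have h1 : (D : ℝ) ^ 64 ≤ X := by exact_mod_cast hD64
      calc ((D : ℝ) ^ 2) ^ 2 = (D : ℝ) ^ 4 := by ring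
        _ ≤ (D : ℝ) ^ 64 := pow_le_pow_right₀ h2 (by norm_num)
        _ ≤ _ := h1
    calc (D : ℝ) ^ 2 * L ^ (k + 3) ≤ √(X : ℝ) * √(X : ℝ) :=
          mul_le_mul e1 hL22 (by positivity) (Real.sqrt_nonneg _)
      _ = X := Real.mul_self_sqrt (by linarith)
  -- one class
  have hclass : ∀ c < q, |∑ n ∈ ((Icc 1 X).filter (fun n => n ≡ c [MOD q])).filter (fun n => ∀ p ∈ P, ¬ Q p n), fP ω b α n| ≤
      2 * (1 / 2 : ℝ) ^ bb * ((((Icc 1 X).filter (fun n => n ≡ c [MOD q])).filter (fun n => ∀ p ∈ P, ¬ Q p n)).card : ℝ) +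
        60 * L * (X / L ^ (k + 3)) := by
    intro c hc
    obtain ⟨g, hg⟩ : ∃ g, g = Nat.gcd (c + b) q := ⟨_, rfl⟩
    have hgq : g ∣ q := by rw [hg]; exact Nat.gcd_dvd_right _ _
    obtain ⟨q1, hq1'⟩ := hgq
    have hg1 : 1 ≤ g := by rw [hg]; exact Nat.gcd_pos_of_pos_right _ hq1
    have hq11 : 1 ≤ q1 := by
      rcases Nat.eq_zero_or_pos q1 with h | h
      · rw [h, mul_zero] at hq1'
        omega
      · exact h
    have hgle : g ≤ q := by rw [hq1']; exact Nat.le_mul_of_pos_right _ hq11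
    have hq1le : q1 ≤ q := by rw [hq1']; exact Nat.le_mul_of_pos_left _ hg1
    have h1 := clsP hQ (y := y) (X := X) (c := c) (b := b) (α := α) hω hC0 hFL hbC (by omega : C0 ≤ z0) hq.symm hD hg hq1'
    rw [← hP] at h1
    have t1 := hT (X + b) hXb g q1 hg1 hgle hq11 hq1le y D (by omega) hyX1 hD1 hD64 P hPy hPk α
    have t2 := hT b hbb2 g q1 hg1 hgle hq11 hq1le y D (by omega) hyX1 hD1 hD64 P hPy hPk α
    have hJ0 : (0 : ℝ) ≤ ((JJ y : ℕ) : ℝ) := Nat.cast_nonneg _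
    have hte0 : 0 ≤ (X : ℝ) / L ^ (k + 3) := by positivity
    have hJL : ((JJ y : ℕ) : ℝ) + 2 ≤ 5 * L := by
      have h1 := JJ_log (y := y) (by omega)
      have h2 : Real.log y ≤ L := by
        rw [hLe]
        apply Real.log_le_log
        · exact_mod_cast (by omega : 0 < y)
        · exact_mod_cast hyX1
      linarith
    have h9 : 4 * (((JJ y : ℕ) : ℝ) + 2) * ((D : ℝ) ^ 2 + (TA (X + b) k g q1 D P α + TA b k g q1 D P α)) ≤
        60 * L * (X / L ^ (k + 3)) := by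
      calc _ ≤ 4 * (((JJ y : ℕ) : ℝ) + 2) * (3 * (X / L ^ (k + 3))) :=
            mul_le_mul_of_nonneg_left (by linarith) (by positivity)
        _ ≤ 4 * (5 * L) * (3 * (X / L ^ (k + 3))) := mul_le_mul_of_nonneg_right (by linarith) (by positivity)
        _ = _ := by ring
    linarith
  -- all classes
  have hfib := fib hQ (y := y) (X := X) (show z0 ≤ y by omega) hq hq1
  rw [← hP] at hfib
  rw [hfib]
  obtain ⟨G, hG⟩ : ∃ G, G = (range q).filter (fun c => ∀ p ∈ pz z0, ¬ Q p c) := ⟨_, rfl⟩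
  rw [← hG] at hfib ⊢
  have hcard : ((RQ Q X y).card : ℝ) = ∑ c ∈ G,
      ((((Icc 1 X).filter (fun n => n ≡ c [MOD q])).filter (fun n => ∀ p ∈ P, ¬ Q p n)).card : ℝ) := by
    have := hfib (fun _ => 1)
    simpa using this
  rw [hcard]
  have hGq : (G.card : ℝ) ≤ q := by
    have : G.card ≤ q := by
      rw [hG]
      refine (card_filter_le _ _).trans ?_
      rw [card_range]
    exact_mod_cast this
  have hte0 : 0 ≤ (X : ℝ) / L ^ (k + 3) := by positivity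
  refine (abs_sum_le_sum_abs _ _).trans ?_
  have h1 : ∀ c ∈ G, |∑ n ∈ ((Icc 1 X).filter (fun n => n ≡ c [MOD q])).filter (fun n => ∀ p ∈ P, ¬ Q p n), fP ω b α n| ≤
      2 * (1 / 2 : ℝ) ^ bb * ((((Icc 1 X).filter (fun n => n ≡ c [MOD q])).filter (fun n => ∀ p ∈ P, ¬ Q p n)).card : ℝ) +
        60 * L * (X / L ^ (k + 3)) := by
    intro c hc
    rw [hG, mem_filter, mem_range] at hc
    exact hclass c hc.1
  refine (sum_le_sum h1).trans ?_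
  rw [sum_add_distrib, ← mul_sum, sum_const, nsmul_eq_mul]
  apply add_le_add
  · exact mul_le_mul_of_nonneg_right hbε (sum_nonneg fun _ _ => Nat.cast_nonneg _)
  · have e1 : (X : ℝ) / L ^ (k + 1) = L ^ 2 * (X / L ^ (k + 3)) := by
      field_simp
      ring
    rw [e1]
    have h2 : (G.card : ℝ) * (60 * L * (X / L ^ (k + 3))) ≤ q * (60 * L * (X / L ^ (k + 3))) :=
      mul_le_mul_of_nonneg_right hGq (by positivity)
    refine h2.trans ?_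
    have e2 : (q : ℝ) * (60 * L * (X / L ^ (k + 3))) = (60 * q * L) * (X / L ^ (k + 3)) := by ring
    rw [e2]
    apply mul_le_mul_of_nonneg_right _ hte0
    have hq0 : (0 : ℝ) ≤ q := Nat.cast_nonneg _
    have h3 : 60 * (q : ℝ) ≤ L := by linarith
    calc 60 * (q : ℝ) * L ≤ L * L := mul_le_mul_of_nonneg_right h3 (by linarith)
      _ = L ^ 2 := by ring

/-- **Fourier uniformity of the Liouville function on sifted sets.** -/
theorem all_P (k : ℕ) (hk : 1 ≤ k) (ε : ℝ) (hε : 0 < ε) : ∃ K : ℕ, 1 ≤ K ∧ ∀ B' : ℕ, ∃ X0 y0 : ℕ,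
    ∀ Q : ℕ → ℕ → Prop, Sv k Q → ∀ X y : ℕ, X0 ≤ X → y0 ≤ y → y ^ K ≤ X →
      ∀ b : ℕ, (b : ℝ) ≤ X * Real.log X ^ B' → ∀ α : ℝ,
      ‖∑ n ∈ RQ Q X y, ((la (n + b) : ℝ) : ℂ) * ee (n * α)‖ ≤ ε * (RQ Q X y).card := by
  obtain ⟨K1, hK1, H1⟩ := one_P k (ε / 2) (by positivity)
  obtain ⟨c, hc, H3⟩ := all_F k hk
  obtain ⟨K3, hK3, H3⟩ := H3 1 one_pos
  refine ⟨K1 + K3, by omega, fun B' => ?_⟩
  obtain ⟨X1, y1, H1⟩ := H1 B'
  obtain ⟨X3, y3, H3⟩ := H3 0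
  obtain ⟨X4, hX4⟩ := ev_L' (max 1 (2 / (c * ε)))
  refine ⟨X1 + X3 + X4 + 1, y1 + y3 + 1, ?_⟩
  intro Q hQ X y hX hy hyX b hbX α
  obtain ⟨h3, _, _⟩ := H3 Q hQ X y (by omega) (by omega) ((Nat.pow_le_pow_right (by omega) (by omega)).trans hyX)
  have h1 := H1 Q hQ X y (by omega) (by omega) ((Nat.pow_le_pow_right (by omega) (by omega)).trans hyX) b hbX α
  have hl := hX4 X (by omega)
  obtain ⟨L, hL⟩ : ∃ L : ℝ, L = Real.log X := ⟨_, rfl⟩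
  obtain ⟨G, hG⟩ : ∃ G : ℝ, G = ((RQ Q X y).card : ℝ) := ⟨_, rfl⟩
  rw [← hL] at h1 h3 hl
  rw [← hG] at h1 h3 ⊢
  have hL1 : 1 ≤ L := (le_max_left _ _).trans hl
  have hLc : 2 / (c * ε) ≤ L := (le_max_right _ _).trans hl
  have hXr : (1 : ℝ) ≤ X := by exact_mod_cast (by omega : 1 ≤ X)
  have h4 : (X : ℝ) / L ^ (k + 1) ≤ ε / 2 * G := by
    rw [div_le_iff₀ (by positivity)] at hLc
    have e1 : (X : ℝ) / L ^ (k + 1) ≤ ε / 2 * (c * (X / L ^ k)) := by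
      have e2 : ε / 2 * (c * (X / L ^ k)) = (L * (c * ε) / 2) * (X / L ^ (k + 1)) := by
        field_simp
        ring
      rw [e2]
      have e3 : 0 ≤ (X : ℝ) / L ^ (k + 1) := by positivity
      nlinarith
    refine e1.trans ?_
    apply mul_le_mul_of_nonneg_left h3 (by positivity)
  obtain ⟨Z, hZ⟩ : ∃ Z : ℂ, Z = ∑ n ∈ RQ Q X y, ((la (n + b) : ℝ) : ℂ) * ee (n * α) := ⟨_, rfl⟩
  rw [← hZ]
  by_cases hZ0 : Z = 0
  · rw [hZ0, norm_zero]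
    have : 0 ≤ G := by rw [hG]; exact Nat.cast_nonneg _
    positivity
  · have hn : (0 : ℝ) < ‖Z‖ := norm_pos_iff.2 hZ0
    have hω : ‖(starRingEnd ℂ) Z / (‖Z‖ : ℂ)‖ = 1 := by
      rw [norm_div, Complex.norm_conj, Complex.norm_real, Real.norm_eq_abs, abs_of_pos hn, div_self hn.ne']
    have h5 := h1 _ hω
    have h6 : ∑ n ∈ RQ Q X y, fP ((starRingEnd ℂ) Z / (‖Z‖ : ℂ)) b α n = ‖Z‖ := by
      unfold fP
      rw [← Complex.re_sum, ← mul_sum, ← hZ]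
      have h7 : (starRingEnd ℂ) Z / (‖Z‖ : ℂ) * Z = ((‖Z‖ : ℝ) : ℂ) := by
        rw [div_mul_eq_mul_div, mul_comm, Complex.mul_conj, Complex.normSq_eq_norm_sq]
        push_cast
        have : ((‖Z‖ : ℝ) : ℂ) ≠ 0 := by exact_mod_cast hn.ne'
        field_simp
      rw [h7, Complex.ofReal_re]
    rw [h6, abs_of_pos hn] at h5
    linarith

end Pool.Agent.H530.Hx
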