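import Pool.Agent.H530.HwC

/-! The sieve on one class; the Möbius function on the integers. -/

set_option autoImplicit false

namespace Pool.Agent.H530.Ha

open Finset Pool.Agent.H373R2.T7 Filter

/-- the sieve on a class -/
def Qc (Q : ℕ → ℕ → Prop) (M c : ℕ) (p j : ℕ) : Prop := ¬ p ∣ M ∧ Q p (c + M * j)

lemma Qc_per {k : ℕ} {Q : ℕ → ℕ → Prop} (hQ : Sv k Q) (M c p n : ℕ) : Qc Q M c p n ↔ Qc Q M c p (n % p) := by
  unfold Qc
  rw [hQ.mod (show c + M * n ≡ c + M * (n % p) [MOD p] from ((Nat.mod_modEq n p).symm.mul_left M).add_left c)]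

lemma nuB_Qc {k : ℕ} {Q : ℕ → ℕ → Prop} (hQ : Sv k Q) (M c p : ℕ) (hp : p.Prime) (h : ¬ p ∣ M) :
    nuB (Qc Q M c) p = nuB Q p := by
  classical
  unfold nuB
  have hco : Nat.Coprime M p := ((Nat.Prime.coprime_iff_not_dvd hp).2 h).symm
  obtain ⟨M', _, hM'⟩ := Nat.exists_mul_mod_eq_one_of_coprime hco hp.one_lt
  have hM1 : M * M' ≡ 1 [MOD p] := by
    unfold Nat.ModEq
    rw [hM', Nat.mod_eq_of_lt hp.one_lt]
  apply card_bij (fun r _ => (c + M * r) % p)
  · intro r hr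
    rw [mem_filter, mem_range] at hr ⊢
    refine ⟨Nat.mod_lt _ hp.pos, ?_⟩
    rw [← hQ.per]
    exact hr.2.2
  · intro r hr s hs hrs
    rw [mem_filter, mem_range] at hr hs
    have h1 : c + M * r ≡ c + M * s [MOD p] := hrs
    have h2 := Nat.ModEq.add_left_cancel' c h1
    have h3 : r ≡ s [MOD p] := by
      have h4 := h2.mul_left M'
      rw [← mul_assoc, ← mul_assoc, mul_comm M' M] at h4
      have h5 := (hM1.mul_right r).symm.trans (h4.trans (hM1.mul_right s))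
      rwa [one_mul, one_mul] at h5
    exact Nat.ModEq.eq_of_lt_of_lt h3 hr.1 hs.1
  · intro s hs
    rw [mem_filter, mem_range] at hs
    have hkey : c + M * ((M' * (s + (p - c % p))) % p) ≡ s [MOD p] := by
      have h1 : M * ((M' * (s + (p - c % p))) % p) ≡ s + (p - c % p) [MOD p] := by
        have h2 := (Nat.mod_modEq (M' * (s + (p - c % p))) p).mul_left M
        rw [← mul_assoc] at h2
        have h3 := hM1.mul_right (s + (p - c % p))
        rw [one_mul] at h3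
        exact h2.trans h3
      have h4 := h1.add_left c
      refine h4.trans ?_
      have h5 : c ≡ c % p [MOD p] := (Nat.mod_modEq c p).symm
      have h6 := h5.add_right (s + (p - c % p))
      refine h6.trans ?_
      have h7 : c % p + (s + (p - c % p)) = s + p := by
        have := Nat.mod_lt c hp.pos
        omega
      rw [h7]
      unfold Nat.ModEq
      exact Nat.add_mod_right s p
    refine ⟨(M' * (s + (p - c % p))) % p, ?_, ?_⟩
    · rw [mem_filter, mem_range]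
      exact ⟨Nat.mod_lt _ hp.pos, h, (hQ.mod hkey).2 hs.2⟩
    · have h8 : (c + M * ((M' * (s + (p - c % p))) % p)) % p = s % p := hkey
      rw [h8, Nat.mod_eq_of_lt hs.1]

lemma nuB_Qc' (Q : ℕ → ℕ → Prop) (M c p : ℕ) (h : p ∣ M) : nuB (Qc Q M c) p = 0 := by
  classical
  unfold nuB
  rw [card_eq_zero, filter_eq_empty_iff]
  intro r _ hr
  exact hr.1 h

lemma sv_Qc {k : ℕ} {Q : ℕ → ℕ → Prop} (hQ : Sv k Q) (M c : ℕ) : Sv k (Qc Q M c) where
  per := fun p n => Qc_per hQ M c p n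
  le := fun p hp => by
    by_cases h : p ∣ M
    · rw [nuB_Qc' Q M c p h]
      exact Nat.zero_le _
    · rw [nuB_Qc hQ M c p hp h]
      exact hQ.le p hp
  lt := fun p hp => by
    by_cases h : p ∣ M
    · rw [nuB_Qc' Q M c p h]
      exact hp.one_lt.le
    · rw [nuB_Qc hQ M c p hp h]
      exact hQ.lt p hp

open Classical in
lemma class_RQ {k : ℕ} {Q : ℕ → ℕ → Prop} (hQ : Sv k Q) {X c M y : ℕ} (hM : 1 ≤ M) (hc : c < M) (hX : M ≤ X) :
    (RQ Q X y).filter (fun n => n ≡ c [MOD M]) = ∅ ∨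
    ((RQ (Qc Q M c) ((X - c) / M) y).card ≤ ((RQ Q X y).filter (fun n => n ≡ c [MOD M])).card ∧
      ∀ F : ℕ → ℝ, (∀ n, |F n| ≤ 1) → |∑ n ∈ (RQ Q X y).filter (fun n => n ≡ c [MOD M]), F n| ≤
        |∑ j ∈ RQ (Qc Q M c) ((X - c) / M) y, F (c + M * j)| + 1) := by
  by_cases hk : ∃ p ∈ pz y, p ∣ M ∧ Q p c
  · left
    obtain ⟨p, hp, hpM, hpc⟩ := hk
    rw [filter_eq_empty_iff]
    intro n hn hnc
    unfold RQ at hn
    rw [mem_filter] at hn
    exact hn.2 p hp ((hQ.mod (hnc.of_dvd hpM)).2 hpc)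
  · right
    push Not at hk
    have e1 : (RQ Q X y).filter (fun n => n ≡ c [MOD M]) =
        ((Icc 1 X).filter (fun n => n ≡ c [MOD M])).filter (fun n => ∀ p ∈ pz y, ¬ Q p n) := by
      unfold RQ
      rw [filter_filter, filter_filter]
      apply filter_congr
      intro n _
      exact and_comm
    have e2 : RQ (Qc Q M c) ((X - c) / M) y =
        (Icc 1 ((X - c) / M)).filter (fun j => ∀ p ∈ pz y, ¬ Q p (c + M * j)) := by
      unfold RQ
      apply filter_congr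
      intro j _
      apply forall₂_congr
      intro p hp
      unfold Qc
      constructor
      · intro h1 h2
        by_cases h3 : p ∣ M
        · apply hk p hp h3
          refine (hQ.mod ?_).1 h2
          obtain ⟨t, ht⟩ := h3
          unfold Nat.ModEq
          rw [ht, mul_assoc, Nat.add_mul_mod_self_left]
        · exact h1 ⟨h3, h2⟩
      · intro h1 h2
        exact h1 h2.2
    rw [e1, e2]
    refine ⟨(class_sum (P := pz y) hQ hM hc hX (fun _ => 0) (fun _ => by simp)).1, fun F hF => ?_⟩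
    exact (class_sum (P := pz y) hQ hM hc hX F hF).2

open Classical in
lemma class_RQ_sum {k : ℕ} {Q : ℕ → ℕ → Prop} (hQ : Sv k Q) {X c M y : ℕ} (hM : 1 ≤ M) (hc : c < M) (hX : M ≤ X)
    (F : ℕ → ℝ) (hF : ∀ n, |F n| ≤ 1) {e : ℝ} (he : 0 ≤ e)
    (h : |∑ j ∈ RQ (Qc Q M c) ((X - c) / M) y, F (c + M * j)| ≤ e * (RQ (Qc Q M c) ((X - c) / M) y).card) :
    |∑ n ∈ (RQ Q X y).filter (fun n => n ≡ c [MOD M]), F n| ≤
      e * ((RQ Q X y).filter (fun n => n ≡ c [MOD M])).card + 1 := by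
  rcases class_RQ (y := y) hQ hM hc hX with h1 | ⟨h1, h2⟩
  · rw [h1]
    simp
  · have h3 := h2 F hF
    have h4 : ((RQ (Qc Q M c) ((X - c) / M) y).card : ℝ) ≤ ((RQ Q X y).filter (fun n => n ≡ c [MOD M])).card := by
      exact_mod_cast h1
    have h5 := mul_le_mul_of_nonneg_left h4 he
    linarith

open Classical in
lemma class_RQ_card {k : ℕ} {Q : ℕ → ℕ → Prop} (hQ : Sv k Q) {X c M y : ℕ} (hM : 1 ≤ M) (hc : c < M) (hX : M ≤ X) :
    (((RQ Q X y).filter (fun n => n ≡ c [MOD M])).card : ℝ) ≤ (RQ (Qc Q M c) ((X - c) / M) y).card + 1 := by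
  rcases class_RQ (y := y) hQ hM hc hX with h1 | ⟨h1, h2⟩
  · rw [h1]
    simp only [card_empty, Nat.cast_zero]
    positivity
  · have h3 := h2 (fun _ => 1) (fun _ => by simp)
    rw [sum_const, sum_const, nsmul_eq_mul, nsmul_eq_mul, mul_one, mul_one, Nat.abs_cast, Nat.abs_cast] at h3
    exact h3

/-- the Möbius function on the integers -/
noncomputable def mz (m : ℤ) : ℝ := (ArithmeticFunction.moebius m.natAbs : ℝ)

lemma mz_abs (m : ℤ) : |mz m| ≤ 1 := by
  unfold mz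
  have := ArithmeticFunction.abs_moebius_le_one (n := m.natAbs)
  exact_mod_cast this

lemma mz_eq_zero {m : ℤ} {p : ℕ} (hp : p.Prime) (h : ((p ^ 2 : ℕ) : ℤ) ∣ m) : mz m = 0 := by
  unfold mz
  rw [ArithmeticFunction.moebius_eq_zero_of_not_squarefree, Int.cast_zero]
  intro hs
  have h1 : p ^ 2 ∣ m.natAbs := Int.natCast_dvd.1 h
  rw [pow_two] at h1
  exact hp.one_lt.ne' (Nat.isUnit_iff.1 (hs p h1))

lemma mz_eq_lz {m : ℤ} (h : ∀ p : ℕ, p.Prime → ¬ ((p ^ 2 : ℕ) : ℤ) ∣ m) : mz m = lz m := by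
  have hm : m ≠ 0 := by
    rintro rfl
    exact h 2 Nat.prime_two (dvd_zero _)
  have hs : Squarefree m.natAbs := by
    rw [Nat.squarefree_iff_prime_squarefree]
    intro p hp hd
    apply h p hp
    rw [Int.natCast_dvd, pow_two]
    exact hd
  unfold mz lz
  rw [ArithmeticFunction.moebius_apply_of_squarefree hs, la_eq (Int.natAbs_ne_zero.2 hm)]
  push_cast
  rfl

open Classical in
/-- the difference of the two functions -/
lemma mz_lz (w : ℕ) (m : ℤ) : |mz m - (if ∀ p ∈ pz w, ¬ ((p ^ 2 : ℕ) : ℤ) ∣ m then lz m else 0)| ≤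
    (if ∃ p : ℕ, p.Prime ∧ w < p ∧ ((p ^ 2 : ℕ) : ℤ) ∣ m ∧ m ≠ 0 then 1 else 0) := by
  by_cases h1 : ∀ p ∈ pz w, ¬ ((p ^ 2 : ℕ) : ℤ) ∣ m
  · rw [if_pos h1]
    by_cases h2 : ∃ p : ℕ, p.Prime ∧ w < p ∧ ((p ^ 2 : ℕ) : ℤ) ∣ m ∧ m ≠ 0
    · rw [if_pos h2]
      obtain ⟨p, hp, _, hd, _⟩ := h2
      rw [mz_eq_zero hp hd, zero_sub, abs_neg]
      exact lz_abs _
    · rw [if_neg h2]
      by_cases hm : m = 0
      · rw [hm, lz_zero]
        unfold mz
        simp
      · rw [mz_eq_lz, sub_self, abs_zero]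
        intro p hp hd
        by_cases hpw : p ≤ w
        · exact h1 p (mem_pz.2 ⟨hpw, hp⟩) hd
        · exact h2 ⟨p, hp, by omega, hd, hm⟩
  · rw [if_neg h1]
    push Not at h1
    obtain ⟨p, hp, hd⟩ := h1
    rw [mz_eq_zero (mem_pz.1 hp).2 hd, sub_zero, abs_zero]
    split_ifs <;> norm_num

end Pool.Agent.H530.Ha
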