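import Pool.Agent.H530.HyA

/-! The points of a sifted set at which a linear form has a large square factor. -/

set_option autoImplicit false

namespace Pool.Agent.H530.Ha

open Finset Pool.Agent.H373R2.T7 Filter

/-- the zeros of a primitive form -/
lemma one_class {a : ℕ} (b : ℤ) {p : ℕ} (hp : p.Prime) (hpa : ¬ p ∣ a) : ∃ c < p ^ 2, ∀ n : ℕ,
    ((p ^ 2 : ℕ) : ℤ) ∣ a * n + b ↔ n ≡ c [MOD p ^ 2] := by
  have hco : IsCoprime (a : ℤ) ((p ^ 2 : ℕ) : ℤ) := by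
    rw [Nat.isCoprime_iff_coprime]
    exact (((Nat.Prime.coprime_iff_not_dvd hp).2 hpa).symm).pow_right 2
  obtain ⟨x, y, hxy⟩ := hco
  have hpos : 0 < ((p ^ 2 : ℕ) : ℤ) := by
    have := hp.pos
    positivity
  obtain ⟨m, hm⟩ : ∃ m : ℤ, m = ((p ^ 2 : ℕ) : ℤ) := ⟨_, rfl⟩
  rw [← hm] at hxy hpos ⊢
  have h0 := Int.emod_nonneg (-(x * b)) hpos.ne'
  have h1 := Int.emod_lt_of_pos (-(x * b)) hpos
  refine ⟨((-(x * b)) % m).toNat, ?_, ?_⟩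
  · have : (((-(x * b)) % m).toNat : ℤ) < ((p ^ 2 : ℕ) : ℤ) := by
      rw [Int.toNat_of_nonneg h0, ← hm]
      exact h1
    exact_mod_cast this
  · intro n
    rw [← Int.natCast_modEq_iff, Int.toNat_of_nonneg h0, ← hm]
    have e1 : (n : ℤ) ≡ (-(x * b)) % m [ZMOD m] ↔ (n : ℤ) ≡ -(x * b) [ZMOD m] :=
      ⟨fun h => h.trans (Int.mod_modEq _ _), fun h => h.trans (Int.mod_modEq _ _).symm⟩
    rw [e1, Int.modEq_iff_dvd]
    constructor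
    · rintro ⟨t, ht⟩
      refine ⟨-(x * t) - y * n, ?_⟩
      linear_combination (-x) * ht + (n : ℤ) * hxy
    · rintro ⟨t, ht⟩
      refine ⟨-(a * t) + y * b, ?_⟩
      linear_combination (-(a : ℤ)) * ht - b * hxy

lemma cnt_class (X m c : ℕ) (hm : 1 ≤ m) :
    (((Icc 1 X).filter (fun n => n ≡ c [MOD m])).card : ℝ) ≤ X / m + 1 := by
  have h := Nat.Ioc_filter_modEq_card 0 X (show 0 < m from hm) c
  have e : Ioc 0 X = Icc 1 X := by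
    ext n
    rw [mem_Ioc, mem_Icc]
    omega
  rw [e] at h
  have hmq : (0 : ℚ) < m := by exact_mod_cast hm
  have h1 : ((((Icc 1 X).filter (fun n => n ≡ c [MOD m])).card : ℤ) : ℚ) ≤ (X : ℚ) / m + 1 := by
    rw [h]
    push_cast
    apply max_le
    · have a1 := Int.floor_le (((X : ℚ) - c) / m)
      have a2 := Int.lt_floor_add_one ((((0 : ℕ) : ℚ) - c) / m)
      have a3 : ((X : ℚ) - c) / m - (((0 : ℕ) : ℚ) - c) / m = X / m := by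
        push_cast
        ring
      have a4 : ((⌊((X : ℚ) - c) / m⌋ : ℤ) : ℚ) - ((⌊(((0 : ℕ) : ℚ) - c) / m⌋ : ℤ) : ℚ) ≤ (X : ℚ) / m + 1 := by
        linarith
      simpa using a4
    · positivity
  have h2 : (((((Icc 1 X).filter (fun n => n ≡ c [MOD m])).card : ℤ) : ℚ) : ℝ) ≤ (((X : ℚ) / m + 1 : ℚ) : ℝ) := by
    exact_mod_cast h1
  push_cast at h2
  exact h2

/-- the products of the sieve on a class -/
lemma V_class {k : ℕ} {Q : ℕ → ℕ → Prop} (hQ : Sv k Q) {p c y : ℕ} (hp : p.Prime) (hk : 2 * k ≤ p) :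
    0 ≤ ∏ r ∈ pz y, (1 - (nuB Q r : ℝ) / r) ∧
    ∏ r ∈ pz y, (1 - (nuB (Qc Q (p ^ 2) c) r : ℝ) / r) ≤ 2 * ∏ r ∈ pz y, (1 - (nuB Q r : ℝ) / r) := by
  have hfac : ∀ r ∈ pz y, 0 ≤ 1 - (nuB Q r : ℝ) / r := by
    intro r hr
    have h1 : (0 : ℝ) < r := by exact_mod_cast (mem_pz.1 hr).2.pos
    have h2 : (nuB Q r : ℝ) ≤ r := by exact_mod_cast nuB_le Q r
    have : (nuB Q r : ℝ) / r ≤ 1 := by rw [div_le_one h1]; exact h2
    linarith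
  have hV0 : 0 ≤ ∏ r ∈ pz y, (1 - (nuB Q r : ℝ) / r) := prod_nonneg hfac
  refine ⟨hV0, ?_⟩
  have hne : ∀ r ∈ pz y, r ≠ p → nuB (Qc Q (p ^ 2) c) r = nuB Q r := by
    intro r hr hrp
    have hrP := (mem_pz.1 hr).2
    apply nuB_Qc hQ _ _ _ hrP
    intro hd
    exact hrp ((Nat.prime_dvd_prime_iff_eq hrP hp).1 (hrP.dvd_of_dvd_pow hd))
  by_cases hpy : p ∈ pz y
  · rw [← mul_prod_erase _ _ hpy, ← mul_prod_erase (pz y) (fun r => 1 - (nuB Q r : ℝ) / r) hpy]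
    have e1 : ∏ r ∈ (pz y).erase p, (1 - (nuB (Qc Q (p ^ 2) c) r : ℝ) / r) =
        ∏ r ∈ (pz y).erase p, (1 - (nuB Q r : ℝ) / r) := by
      apply prod_congr rfl
      intro r hr
      rw [mem_erase] at hr
      rw [hne r hr.2 hr.1]
    have e2 : nuB (Qc Q (p ^ 2) c) p = 0 := nuB_Qc' _ _ _ _ (dvd_pow_self p two_ne_zero)
    rw [e1, e2]
    have hR0 : 0 ≤ ∏ r ∈ (pz y).erase p, (1 - (nuB Q r : ℝ) / r) :=
      prod_nonneg fun r hr => hfac r (mem_of_mem_erase hr)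
    have h3 : (nuB Q p : ℝ) / p ≤ 1 / 2 := by
      have h4 : (0 : ℝ) < p := by exact_mod_cast hp.pos
      rw [div_le_iff₀ h4]
      have h5 : (nuB Q p : ℝ) ≤ k := by exact_mod_cast hQ.le p hp
      have h6 : 2 * (k : ℝ) ≤ p := by exact_mod_cast hk
      linarith
    have h7 : (1 : ℝ) ≤ 2 * (1 - (nuB Q p : ℝ) / p) := by linarith
    simp only [Nat.cast_zero, zero_div, sub_zero, one_mul]
    rw [← mul_assoc]
    calc ∏ r ∈ (pz y).erase p, (1 - (nuB Q r : ℝ) / r) = 1 * ∏ r ∈ (pz y).erase p, (1 - (nuB Q r : ℝ) / r) := (one_mul _).symm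
      _ ≤ _ := mul_le_mul_of_nonneg_right h7 hR0
  · have e1 : ∏ r ∈ pz y, (1 - (nuB (Qc Q (p ^ 2) c) r : ℝ) / r) = ∏ r ∈ pz y, (1 - (nuB Q r : ℝ) / r) := by
      apply prod_congr rfl
      intro r hr
      rw [hne r hr (fun h => hpy (h ▸ hr))]
    rw [e1]
    linarith

open Classical in
/-- one square of a small prime -/
lemma sq_small (k : ℕ) (hk : 1 ≤ k) : ∃ K : ℕ, 1 ≤ K ∧ ∃ X0 y0 : ℕ, ∀ Q : ℕ → ℕ → Prop, Sv k Q → ∀ X y : ℕ,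
    X0 ≤ X → y0 ≤ y → y ^ K ≤ X → ∀ (a : ℕ) (b : ℤ), ∀ p : ℕ, p.Prime → 2 * k ≤ p → (p : ℝ) ≤ 2 * Real.log X ^ (k + 2) →
      ¬ p ∣ a →
      (((RQ Q X y).filter (fun n : ℕ => ((p ^ 2 : ℕ) : ℤ) ∣ a * n + b)).card : ℝ) ≤ 6 * (RQ Q X y).card / p ^ 2 + 1 := by
  obtain ⟨c0, hc0, H0⟩ := all_F k hk
  obtain ⟨K, hK, H0⟩ := H0 (1 / 2) (by norm_num)
  obtain ⟨X0, y0, H0⟩ := H0 0
  obtain ⟨X1, hX1⟩ := ev_log' (2 * (k + 2)) 16
  refine ⟨2 * K, by omega, max (X0 ^ 2 + X1 + 16) X0, y0 + 1, ?_⟩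
  intro Q hQ X y hX hy hyX a b p hp hkp hpL hpa
  have hX0 : X0 ≤ X := (le_max_right _ _).trans hX
  have hX2 : X0 ^ 2 + X1 + 16 ≤ X := (le_max_left _ _).trans hX
  have hXr : (16 : ℝ) ≤ X := by exact_mod_cast (by omega : 16 ≤ X)
  have hs4 : (4 : ℝ) ≤ √(X : ℝ) := by
    apply Real.le_sqrt_of_sq_le
    linarith
  have hss : √(X : ℝ) * √(X : ℝ) = X := Real.mul_self_sqrt (by linarith)
  have hlog := hX1 X (by omega)
  have hp2 : (p : ℝ) ^ 2 * 4 ≤ √(X : ℝ) := by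
    have h1 : (p : ℝ) ^ 2 ≤ (2 * Real.log X ^ (k + 2)) ^ 2 := pow_le_pow_left₀ (Nat.cast_nonneg _) hpL 2
    have h2 : (2 * Real.log X ^ (k + 2)) ^ 2 * 4 = 16 * Real.log X ^ (2 * (k + 2)) := by
      rw [mul_pow, ← pow_mul, mul_comm (k + 2) 2]
      ring
    linarith
  have hpp : (0 : ℝ) < (p : ℝ) ^ 2 := by
    have : (0 : ℝ) < p := by exact_mod_cast hp.pos
    positivity
  have hpp1 : 1 ≤ p ^ 2 := Nat.one_le_pow _ _ hp.pos
  have hpX : p ^ 2 ≤ X := by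
    have h1 : ((p ^ 2 : ℕ) : ℝ) ≤ X := by
      push_cast
      have h2 : √(X : ℝ) ≤ √(X : ℝ) * √(X : ℝ) := le_mul_of_one_le_right (by linarith) (by linarith)
      linarith
    exact_mod_cast h1
  obtain ⟨c, hc, hcl⟩ := one_class b hp hpa
  have e1 : (RQ Q X y).filter (fun n : ℕ => ((p ^ 2 : ℕ) : ℤ) ∣ a * n + b) =
      (RQ Q X y).filter (fun n => n ≡ c [MOD p ^ 2]) := filter_congr fun n _ => hcl n
  rw [e1]
  have h1 := class_RQ_card (y := y) hQ hpp1 hc hpX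
  obtain ⟨X', hX'⟩ : ∃ X', X' = (X - c) / p ^ 2 := ⟨_, rfl⟩
  rw [← hX'] at h1
  have hX'l : √(X : ℝ) ≤ X' := by
    have h2 : X - c < p ^ 2 * (X' + 1) := by
      rw [hX']
      exact Nat.lt_mul_div_succ _ (by omega)
    have h3 : X < p ^ 2 * (X' + 2) := by
      have h4 : p ^ 2 * (X' + 2) = p ^ 2 * (X' + 1) + p ^ 2 := by ring
      omega
    have h5 : (X : ℝ) < (p : ℝ) ^ 2 * (X' + 2) := by exact_mod_cast h3
    by_contra hcon
    push Not at hcon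
    have h6 : (p : ℝ) ^ 2 * (X' + 2) ≤ (√(X : ℝ) / 4) * (√(X : ℝ) + 2) := by
      apply mul_le_mul (by linarith) (by linarith) (by positivity) (by positivity)
    nlinarith
  have hX'u : (X' : ℝ) ≤ X / (p : ℝ) ^ 2 := by
    rw [hX']
    refine (Nat.cast_div_le).trans ?_
    push_cast
    apply div_le_div_of_nonneg_right _ hpp.le
    exact_mod_cast Nat.sub_le X c
  have hX0' : X0 ≤ X' := by
    have h2 : (X0 : ℝ) ≤ √(X : ℝ) := by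
      apply Real.le_sqrt_of_sq_le
      exact_mod_cast (by omega : X0 ^ 2 ≤ X)
    exact_mod_cast h2.trans hX'l
  have hyX' : y ^ K ≤ X' := by
    have h2 : ((y ^ K : ℕ) : ℝ) ≤ √(X : ℝ) := by
      apply Real.le_sqrt_of_sq_le
      have : (y ^ K) ^ 2 ≤ X := by rw [← pow_mul, mul_comm K 2]; exact hyX
      exact_mod_cast this
    exact_mod_cast h2.trans hX'l
  obtain ⟨_, h2, _⟩ := H0 (Qc Q (p ^ 2) c) (sv_Qc hQ _ _) X' y hX0' (by omega) hyX'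
  obtain ⟨_, h3, _⟩ := H0 Q hQ X y hX0 (by omega) ((Nat.pow_le_pow_right (by omega) (by omega)).trans hyX)
  obtain ⟨h4, h5⟩ := V_class hQ (c := c) (y := y) hp hkp
  obtain ⟨V, hV⟩ : ∃ V, V = ∏ r ∈ pz y, (1 - (nuB Q r : ℝ) / r) := ⟨_, rfl⟩
  obtain ⟨V', hV'⟩ : ∃ V', V' = ∏ r ∈ pz y, (1 - (nuB (Qc Q (p ^ 2) c) r : ℝ) / r) := ⟨_, rfl⟩
  rw [← hV] at h3 h4 h5
  rw [← hV'] at h2 h5
  have h6 := (abs_le.1 h2).2
  have h7 := (abs_le.1 h3).1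
  have h8 : (X' : ℝ) * V' ≤ X / (p : ℝ) ^ 2 * (2 * V) :=
    (mul_le_mul_of_nonneg_left h5 (Nat.cast_nonneg _)).trans (mul_le_mul_of_nonneg_right hX'u (by positivity))
  have h9 : (X : ℝ) / (p : ℝ) ^ 2 * (2 * V) * 2 ≤ 6 * (RQ Q X y).card / (p : ℝ) ^ 2 := by
    rw [le_div_iff₀ hpp]
    have e3 : (X : ℝ) / (p : ℝ) ^ 2 * (p : ℝ) ^ 2 = X := div_mul_cancel₀ _ hpp.ne'
    have e2 : (X : ℝ) / (p : ℝ) ^ 2 * (2 * V) * 2 * (p : ℝ) ^ 2 = 4 * (X * V) := by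
      linear_combination (4 * V) * e3
    rw [e2]
    linarith
  linarith

end Pool.Agent.H530.Ha
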