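import Pool.Agent.H530.HyC

/-! The Möbius function at any primitive linear form on a sifted set. -/

set_option autoImplicit false

namespace Pool.Agent.H530.Ha

open Finset Pool.Agent.H373R2.T7 Filter

open Classical in
/-- the Liouville function with the condition on the small squares -/
theorem small_sq (k : ℕ) (hk : 1 ≤ k) (w : ℕ) (e : ℝ) (he : 0 < e) : ∃ K : ℕ, 1 ≤ K ∧ ∀ B' : ℕ,
    ∃ X0 y0 : ℕ, ∀ Q : ℕ → ℕ → Prop, Sv k Q → ∀ X y : ℕ, X0 ≤ X → y0 ≤ y → y ^ K ≤ X →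
      ∀ (a : ℕ) (b : ℤ), 1 ≤ a → (a : ℝ) ≤ Real.log X ^ B' → |(b : ℝ)| ≤ X * Real.log X ^ B' →
        |∑ n ∈ RQ Q X y, (if ∀ p ∈ pz w, ¬ ((p ^ 2 : ℕ) : ℤ) ∣ ((a : ℤ) * n + b) then lz (a * n + b) else 0)| ≤
          e * (RQ Q X y).card + X / Real.log X ^ (k + 1) := by
  obtain ⟨c0, hc0, H0⟩ := all_F k hk
  obtain ⟨K, hK, H0⟩ := H0 e he
  obtain ⟨M, hM⟩ : ∃ M : ℕ, M = ∏ p ∈ pz w, p ^ 2 := ⟨_, rfl⟩
  have hM1 : 1 ≤ M := by
    rw [hM]
    exact Nat.pos_of_ne_zero (prod_ne_zero_iff.2 fun p hp => (Nat.pow_pos (mem_pz.1 hp).2.pos).ne')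
  have hMd : ∀ p ∈ pz w, p ^ 2 ∣ M := fun p hp => by
    rw [hM]
    exact dvd_prod_of_mem _ hp
  refine ⟨2 * K, by omega, fun B' => ?_⟩
  obtain ⟨X0, y0, H0⟩ := H0 (2 * B' + 1)
  obtain ⟨X1, hX1⟩ := ev_L' (4 * M + 4)
  obtain ⟨X2, hX2⟩ := ev_log' (k + 1) M
  refine ⟨X0 ^ 2 + X1 + X2 + (4 * M) ^ 2 + 16, y0, ?_⟩
  intro Q hQ X y hX hy hyX a b ha haX hbX
  have hXr : (16 : ℝ) ≤ X := by exact_mod_cast (by omega : 16 ≤ X)
  have hs4 : (4 : ℝ) ≤ √(X : ℝ) := by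
    apply Real.le_sqrt_of_sq_le
    linarith
  have hss : √(X : ℝ) * √(X : ℝ) = X := Real.mul_self_sqrt (by linarith)
  obtain ⟨L, hL⟩ : ∃ L : ℝ, L = Real.log X := ⟨_, rfl⟩
  have hLM := hX1 X (by omega)
  have hlog := hX2 X (by omega)
  rw [← hL] at hLM hlog haX hbX ⊢
  have hMr : (1 : ℝ) ≤ M := by exact_mod_cast hM1
  have hL4 : 4 ≤ L := by linarith
  have hMs : 4 * (M : ℝ) ≤ √(X : ℝ) := by
    apply Real.le_sqrt_of_sq_le
    exact_mod_cast (by omega : (4 * M) ^ 2 ≤ X)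
  have hMX : M ≤ X := by
    have h1 : (M : ℝ) ≤ X := by nlinarith
    exact_mod_cast h1
  -- one class
  have hcls : ∀ c ∈ range M, |∑ n ∈ (RQ Q X y).filter (fun n => n ≡ c [MOD M]),
      (if ∀ p ∈ pz w, ¬ ((p ^ 2 : ℕ) : ℤ) ∣ ((a : ℤ) * n + b) then lz (a * n + b) else 0)| ≤
      e * ((RQ Q X y).filter (fun n => n ≡ c [MOD M])).card + 1 := by
    intro c hc
    rw [mem_range] at hc
    have hiff : ∀ n ∈ (RQ Q X y).filter (fun n => n ≡ c [MOD M]),
        ((∀ p ∈ pz w, ¬ ((p ^ 2 : ℕ) : ℤ) ∣ ((a : ℤ) * n + b)) ↔ (∀ p ∈ pz w, ¬ ((p ^ 2 : ℕ) : ℤ) ∣ ((a : ℤ) * c + b))) := by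
      intro n hn
      rw [mem_filter] at hn
      apply forall₂_congr
      intro p hp
      rw [not_iff_not]
      apply form_dvd
      have := hn.2.of_dvd (hMd p hp)
      exact Int.natCast_modEq_iff.2 this
    by_cases hgood : ∀ p ∈ pz w, ¬ ((p ^ 2 : ℕ) : ℤ) ∣ ((a : ℤ) * c + b)
    · rw [sum_congr rfl (fun n hn => if_pos ((hiff n hn).2 hgood))]
      apply class_RQ_sum hQ hM1 hc hMX (fun n => lz (a * n + b)) (fun n => lz_abs _) he.le
      obtain ⟨X', hX'⟩ : ∃ X', X' = (X - c) / M := ⟨_, rfl⟩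
      rw [← hX']
      have hX'l : √(X : ℝ) ≤ X' := by
        have h2 : X - c < M * (X' + 1) := by
          rw [hX']
          exact Nat.lt_mul_div_succ _ (by omega)
        have h3 : X < M * (X' + 2) := by
          have h4 : M * (X' + 2) = M * (X' + 1) + M := by ring
          omega
        have h5 : (X : ℝ) < M * (X' + 2) := by exact_mod_cast h3
        by_contra hcon
        push Not at hcon
        have h6 : (M : ℝ) * (X' + 2) ≤ (√(X : ℝ) / 4) * (√(X : ℝ) + 2) := by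
          apply mul_le_mul (by linarith) (by linarith) (by positivity) (by positivity)
        nlinarith
      have hX0' : X0 ≤ X' := by
        have h2 : (X0 : ℝ) ≤ √(X : ℝ) := by
          apply Real.le_sqrt_of_sq_le
          exact_mod_cast (by omega : X0 ^ 2 ≤ X)
        exact_mod_cast h2.trans hX'l
      have hyX' : y ^ K ≤ X' := by
        have h2 : ((y ^ K : ℕ) : ℝ) ≤ √(X : ℝ) := by
          apply Real.le_sqrt_of_sq_le
          have : (y ^ K) ^ 2 ≤ X := by rw [← pow_mul, mul_comm K 2]; exact hyX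
          exact_mod_cast this
        exact_mod_cast h2.trans hX'l
      obtain ⟨_, _, h4⟩ := H0 (Qc Q M c) (sv_Qc hQ _ _) X' y hX0' hy hyX'
      -- the logarithms
      have hLL : L ≤ 2 * Real.log X' := by
        have h5 : Real.log (√(X : ℝ)) ≤ Real.log X' := Real.log_le_log (by linarith) hX'l
        rw [Real.log_sqrt (by linarith)] at h5
        rw [hL]
        linarith
      obtain ⟨L', hL'⟩ : ∃ L', L' = Real.log X' := ⟨_, rfl⟩
      rw [← hL'] at hLL h4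
      have hL'M : 2 * (M : ℝ) + 2 ≤ L' := by linarith
      have hL'1 : 2 ≤ L' := by linarith
      have hLB : L ^ B' ≤ L' ^ (2 * B') := by
        calc L ^ B' ≤ (L' ^ 2) ^ B' := by
              apply pow_le_pow_left₀ (by linarith)
              nlinarith
          _ = _ := by rw [← pow_mul]
      have hLB1 : (1 : ℝ) ≤ L' ^ (2 * B') := one_le_pow₀ (by linarith)
      have h6 := h4 (a * M) ((a : ℤ) * c + b) (Nat.mul_pos ha hM1) (by
        push_cast
        rw [pow_succ]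
        exact mul_le_mul (haX.trans hLB) (by linarith) (by linarith) (by positivity)) (by
        push_cast
        refine (abs_add_le _ _).trans ?_
        rw [abs_of_nonneg (by positivity : (0 : ℝ) ≤ a * c)]
        have h7 : (a : ℝ) * c ≤ L' ^ (2 * B') * M := by
          apply mul_le_mul (haX.trans hLB) (by exact_mod_cast hc.le) (Nat.cast_nonneg _) (by positivity)
        have h8 : (X : ℝ) ≤ M * (X' + 2) := by
          have h2 : X - c < M * (X' + 1) := by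
            rw [hX']
            exact Nat.lt_mul_div_succ _ (by omega)
          have h3 : X < M * (X' + 2) := by
            have h4 : M * (X' + 2) = M * (X' + 1) + M := by ring
            omega
          exact_mod_cast h3.le
        have hX'2 : (2 : ℝ) ≤ X' := by linarith
        have h9 : |(b : ℝ)| ≤ M * (X' + 2) * L' ^ (2 * B') :=
          hbX.trans (mul_le_mul h8 hLB (by positivity) (by positivity))
        have h10 : L' ^ (2 * B') * M + M * (X' + 2) * L' ^ (2 * B') ≤ X' * L' ^ (2 * B' + 1) := by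
          rw [pow_succ]
          have h11 : (M : ℝ) * (X' + 3) ≤ X' * L' := by nlinarith
          nlinarith
        linarith)
      refine le_trans (le_of_eq ?_) h6
      congr 1
      apply sum_congr rfl
      intro j _
      congr 1
      push_cast
      ring
    · rw [sum_congr rfl (fun n hn => if_neg (fun h => hgood ((hiff n hn).1 h)))]
      rw [sum_const_zero, abs_zero]
      positivity
  -- all classes
  have hsplit : ∀ F : ℕ → ℝ, ∑ n ∈ RQ Q X y, F n = ∑ c ∈ range M, ∑ n ∈ (RQ Q X y).filter (fun n => n ≡ c [MOD M]), F n := by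
    intro F
    rw [← sum_fiberwise_of_maps_to (g := fun n => n % M) (t := range M)
      (fun n _ => mem_range.2 (Nat.mod_lt _ (by omega)))]
    apply sum_congr rfl
    intro c hc
    apply sum_congr _ (fun _ _ => rfl)
    apply filter_congr
    intro n _
    unfold Nat.ModEq
    rw [Nat.mod_eq_of_lt (mem_range.1 hc)]
  rw [hsplit]
  refine (abs_sum_le_sum_abs _ _).trans ((sum_le_sum hcls).trans ?_)
  rw [sum_add_distrib, ← mul_sum, sum_const, card_range, nsmul_eq_mul, mul_one]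
  have h1 : ∑ c ∈ range M, (((RQ Q X y).filter (fun n => n ≡ c [MOD M])).card : ℝ) = (RQ Q X y).card := by
    have := hsplit (fun _ => 1)
    simp only [sum_const, nsmul_eq_mul, mul_one] at this
    exact this.symm
  rw [h1]
  have h2 : (M : ℝ) ≤ X / L ^ (k + 1) := by
    rw [le_div_iff₀ (by positivity)]
    have : √(X : ℝ) ≤ X := by nlinarith
    linarith
  linarith

/-- **The Möbius function at any primitive linear form on a sifted set.** -/
theorem all_mu (k : ℕ) (hk : 1 ≤ k) (ε : ℝ) (hε : 0 < ε) : ∃ K : ℕ, 1 ≤ K ∧ ∀ B' : ℕ,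
    ∃ X0 y0 : ℕ, ∀ Q : ℕ → ℕ → Prop, Sv k Q → ∀ X y : ℕ, X0 ≤ X → y0 ≤ y → y ^ K ≤ X →
      ∀ (a : ℕ) (b : ℤ), 1 ≤ a → (∀ p : ℕ, p.Prime → p ∣ a → ¬ (p : ℤ) ∣ b) →
        (a : ℝ) ≤ Real.log X ^ B' → |(b : ℝ)| ≤ X * Real.log X ^ B' →
        |∑ n ∈ RQ Q X y, mz (a * n + b)| ≤ ε * (RQ Q X y).card := by
  classical
  obtain ⟨w0, hw0⟩ : ∃ w0 : ℕ, 24 / ε ≤ w0 := exists_nat_ge _
  obtain ⟨w, hw⟩ : ∃ w : ℕ, w = w0 + 2 * k + 1 := ⟨_, rfl⟩
  have hwε : 6 / (w : ℝ) ≤ ε / 4 := by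
    have h1 : (w0 : ℝ) ≤ w := by exact_mod_cast (by omega : w0 ≤ w)
    have h2 : (0 : ℝ) < w := by exact_mod_cast (by omega : 0 < w)
    rw [div_le_iff₀ h2]
    rw [div_le_iff₀ hε] at hw0
    nlinarith
  obtain ⟨K1, hK1, H1⟩ := small_sq k hk w (ε / 4) (by positivity)
  obtain ⟨K2, hK2, H2⟩ := sq_tail k hk
  obtain ⟨c, hc, H3⟩ := all_F k hk
  obtain ⟨K3, hK3, H3⟩ := H3 1 one_pos
  refine ⟨K1 + K2 + K3, by omega, fun B' => ?_⟩
  obtain ⟨X1, y1, H1⟩ := H1 B'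
  obtain ⟨X2, y2, H2⟩ := H2 B'
  obtain ⟨X3, y3, H3⟩ := H3 0
  obtain ⟨X4, hX4⟩ := ev_L' (max 1 (4 / (c * ε)))
  refine ⟨X1 + X2 + X3 + X4 + 1, y1 + y2 + y3 + 1, ?_⟩
  intro Q hQ X y hX hy hyX a b ha hnb haX hbX
  have h1 := H1 Q hQ X y (by omega) (by omega) ((Nat.pow_le_pow_right (by omega) (by omega)).trans hyX) a b ha haX hbX
  have h2 := H2 Q hQ X y (by omega) (by omega) ((Nat.pow_le_pow_right (by omega) (by omega)).trans hyX) w (by omega) (by omega)
    a b ha hnb haX hbX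
  obtain ⟨h3, _, _⟩ := H3 Q hQ X y (by omega) (by omega) ((Nat.pow_le_pow_right (by omega) (by omega)).trans hyX)
  have hl := hX4 X (by omega)
  obtain ⟨L, hL⟩ : ∃ L : ℝ, L = Real.log X := ⟨_, rfl⟩
  obtain ⟨G, hG⟩ : ∃ G : ℝ, G = ((RQ Q X y).card : ℝ) := ⟨_, rfl⟩
  have hG0 : 0 ≤ G := by rw [hG]; exact Nat.cast_nonneg _
  rw [← hL] at h1 h2 h3 hl
  rw [← hG] at h1 h2 h3 ⊢
  have hL1 : 1 ≤ L := (le_max_left _ _).trans hl
  have hLc : 4 / (c * ε) ≤ L := (le_max_right _ _).trans hl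
  have hXr : (1 : ℝ) ≤ X := by exact_mod_cast (by omega : 1 ≤ X)
  have h4 : (X : ℝ) / L ^ (k + 1) ≤ ε / 4 * G := by
    rw [div_le_iff₀ (by positivity)] at hLc
    have e1 : (X : ℝ) / L ^ (k + 1) ≤ ε / 4 * (c * (X / L ^ k)) := by
      have e2 : ε / 4 * (c * (X / L ^ k)) = (L * (c * ε) / 4) * (X / L ^ (k + 1)) := by
        field_simp
        ring
      rw [e2]
      have e3 : 0 ≤ (X : ℝ) / L ^ (k + 1) := by positivity
      nlinarith
    refine e1.trans ?_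
    apply mul_le_mul_of_nonneg_left h3 (by positivity)
  have h5 : |∑ n ∈ RQ Q X y, mz (a * n + b) -
      ∑ n ∈ RQ Q X y, (if ∀ p ∈ pz w, ¬ ((p ^ 2 : ℕ) : ℤ) ∣ ((a : ℤ) * n + b) then lz (a * n + b) else 0)| ≤
      6 / w * G + X / L ^ (k + 1) := by
    rw [← sum_sub_distrib]
    refine (abs_sum_le_sum_abs _ _).trans ((sum_le_sum fun (n : ℕ) _ => mz_lz w ((a : ℤ) * (n : ℤ) + b)).trans ?_)
    refine le_trans (le_of_eq ?_) h2
    rw [sum_ite, sum_const_zero, add_zero, sum_const, nsmul_eq_mul, mul_one]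
  have h6 := abs_add_le (∑ n ∈ RQ Q X y, mz (a * n + b) -
      ∑ n ∈ RQ Q X y, (if ∀ p ∈ pz w, ¬ ((p ^ 2 : ℕ) : ℤ) ∣ ((a : ℤ) * n + b) then lz (a * n + b) else 0))
      (∑ n ∈ RQ Q X y, (if ∀ p ∈ pz w, ¬ ((p ^ 2 : ℕ) : ℤ) ∣ ((a : ℤ) * n + b) then lz (a * n + b) else 0))
  rw [sub_add_cancel] at h6
  have h7 : 6 / w * G ≤ ε / 4 * G := mul_le_mul_of_nonneg_right hwε hG0
  linarith

end Pool.Agent.H530.Ha
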