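import Pool.Agent.H530.HyD

/-! The Möbius function at any primitive linear form is uncorrelated with the configuration of sifted integers near a
sifted tuple. -/

set_option autoImplicit false

namespace Pool.Agent.H530.Hv

open Finset Filter Pool.Agent.W123.RP Pool.Agent.W123.RU Pool.Agent.TH464.PO Pool.Agent.H530.Ha
open Pool.Agent.H373R2.T7 hiding RQ

/-- **The decorrelation theorem for the Möbius function.** -/
theorem decorM (s : ℕ) (A ε : ℝ) (hA : 0 < A) (hε : 0 < ε) : ∃ K : ℕ, 1 ≤ K ∧ ∀ B : ℕ,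
    ∃ X0 y0 : ℕ, ∀ X y Z T : ℕ, ∀ S : Finset ℕ, X0 ≤ X → y0 ≤ y → y ^ K ≤ X → (T : ℝ) ≤ A * Real.log y →
      S ⊆ Icc 1 T → S.card ≤ s → ∀ f : Finset ℕ → ℝ, (∀ P, |f P| ≤ 1) →
      ∀ (a : ℕ) (b : ℤ), 1 ≤ a → (∀ p : ℕ, p.Prime → p ∣ a → ¬ (p : ℤ) ∣ b) → (a : ℝ) ≤ Real.log X ^ B →
        |(b : ℝ)| ≤ X * Real.log X ^ B →
        |∑ n ∈ GS y Z X S, f (Cfg y Z T n) * mz (a * n + b)| ≤ ε * (GS y Z X S).card := by
  classical
  obtain ⟨x0, hx0, hpar⟩ := params' A hA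
  obtain ⟨L, e, he, K, hK, T0, X0, y0, H0⟩ := decorH s x0 ε hx0 hε
  obtain ⟨K1, hK1, H1⟩ := all_mu (s + L + 1) (by omega) e he
  obtain ⟨y2, hy2⟩ := hpar T0
  refine ⟨K + K1, by omega, fun B => ?_⟩
  obtain ⟨X1, y1, H1⟩ := H1 B
  refine ⟨X0 + X1 + 1, y0 + y1 + y2 + s + L + 1, ?_⟩
  intro X y Z T S hX hy hyX hT hST hSs f hf a b ha hnb haX hbX
  have hSr : S ⊆ range (max T T0 + 1) := by
    intro t ht
    have := mem_Icc.1 (hST ht)
    rw [mem_range]
    omega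
  have h1 := H0 X y Z (max T T0) S (by omega) (by omega) ((Nat.pow_le_pow_right (by omega) (by omega)).trans hyX)
    (le_max_right _ _) hSr hSs (hy2 y Z T (by omega) hT)
    (fun P => f (P.filter (fun v => v ≤ T) ∪ S)) (fun P => hf _) (fun n => mz (a * n + b)) (fun n => mz_abs _) (by
      intro U _ hUL
      have hc0 : (U ∪ S).card ≤ s + L := (card_union_le _ _).trans (by omega)
      by_cases hadm : ∀ p : ℕ, p.Prime → nuB (QH (Q1 Z) (U ∪ S)) p < p
      · exact H1 (QH (Q1 Z) (U ∪ S)) (sv_QS Z (s + L + 1) (U ∪ S) (by omega) hadm) X y (by omega)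
          (by omega) ((Nat.pow_le_pow_right (by omega) (by omega)).trans hyX) a b ha hnb haX hbX
      · obtain ⟨h2, _⟩ := nonadm Z (s + L + 1) (U ∪ S) (by omega) X y (by omega) hadm
        rw [h2]
        simp)
  rw [RQ_GS] at h1
  refine le_trans (le_of_eq ?_) h1
  congr 1
  apply Finset.sum_congr rfl
  intro n hn
  rw [Cfg_eq Z X T y n S hST hn, ← NS_max]

end Pool.Agent.H530.Hv
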