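import Pool.Agent.H530.HxN

/-! Fourier uniformity of the Liouville function on sifted sets: quantitative form. -/

set_option autoImplicit false

namespace Pool.Agent.H530.Hz

open Finset Pool.Agent.H807R2.Dav Pool.Agent.H530.Ha Pool.Agent.H530.Hx
open Pool.Agent.H373R2.T7 hiding RQ

/-- quantitative form -/
theorem one_Pq (k : ℕ) : ∃ C0 : ℕ, 1 ≤ C0 ∧ ∀ bb : ℕ, C0 ≤ bb → ∀ B' : ℕ, ∃ X0 y0 : ℕ,
    ∀ Q : ℕ → ℕ → Prop, Sv k Q → ∀ X y : ℕ, X0 ≤ X → y0 ≤ y → y ^ (128 * (C0 * bb)) ≤ X →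
      ∀ b : ℕ, (b : ℝ) ≤ X * Real.log X ^ B' → ∀ (α : ℝ) (ω : ℂ), ‖ω‖ = 1 →
      |∑ n ∈ RQ Q X y, fP ω b α n| ≤ 2 * (1 / 2 : ℝ) ^ bb * (RQ Q X y).card + X / Real.log X ^ (k + 1) := by
  classical
  obtain ⟨C0, hC0, hFL⟩ := Pool.Agent.H20R2.fLem k
  refine ⟨C0, hC0, fun bb hbC => ?_⟩
  have hbb1 : 1 ≤ C0 * bb := Nat.mul_pos hC0 (hC0.trans hbC)
  intro B'
  obtain ⟨z0, hz0⟩ : ∃ z0 : ℕ, z0 = C0 + k := ⟨_, rfl⟩
  obtain ⟨q, hq⟩ : ∃ q : ℕ, q = ∏ p ∈ pz z0, p := ⟨_, rfl⟩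
  have hq1 : 1 ≤ q := by
    rw [hq]
    exact Nat.pos_of_ne_zero (prod_ne_zero_iff.2 fun p hp => (mem_pz.1 hp).2.ne_zero)
  obtain ⟨X0, y0, hTA⟩ := TA_bound k (k + 3) (B' + 1) q
  obtain ⟨X1, hX1⟩ := ev_L' (max 4 (61 * q))
  obtain ⟨X2, hX2⟩ := ev_log' (k + 3) 1
  refine ⟨X0 + X1 + X2 + q + 1, y0 + z0 + 2, ?_⟩
  intro Q hQ X y hX hy hyX b hbX α ω hω
  obtain ⟨D, hD⟩ : ∃ D : ℕ, D = (2 ^ 2 ^ JJ y) ^ (C0 * bb) := ⟨_, rfl⟩
  have hD1 : 1 ≤ D := by rw [hD]; exact Nat.one_le_pow _ _ (by positivity)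
  have hD64 : D ^ 64 ≤ X := by
    refine le_trans ?_ hyX
    rw [hD]
    calc ((2 ^ 2 ^ JJ y) ^ (C0 * bb)) ^ 64 ≤ ((y ^ 2) ^ (C0 * bb)) ^ 64 :=
          Nat.pow_le_pow_left (Nat.pow_le_pow_left (JJ_le y (by omega)) _) _
      _ = y ^ (128 * (C0 * bb)) := by rw [← pow_mul, ← pow_mul]; congr 1; ring
  have hyX1 : y ≤ X := (Nat.le_self_pow (by omega) y).trans hyX
  have hL := hX1 X (by omega)
  obtain ⟨L, hLe⟩ : ∃ L : ℝ, L = Real.log X := ⟨_, rfl⟩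
  have hL22 := hX2 X (by omega)
  have hT := hTA X (by omega)
  rw [← hLe] at hL hbX hL22 hT ⊢
  have hL4 : 4 ≤ L := (le_max_left _ _).trans hL
  have hL1 : 1 ≤ L := by linarith
  have hLq : 61 * (q : ℝ) ≤ L := (le_max_right _ _).trans hL
  have hXp : (1 : ℝ) ≤ X := by exact_mod_cast (by omega : 1 ≤ X)
  obtain ⟨P, hP⟩ : ∃ P, P = (pz y).filter (fun p => z0 < p) := ⟨_, rfl⟩
  have hPy : P ⊆ pz y := by rw [hP]; exact filter_subset _ _
  have hPk : ∀ p ∈ P, k ≤ p := by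
    intro p hp
    rw [hP, mem_filter] at hp
    omega
  have hLB0 : (1 : ℝ) ≤ L ^ B' := one_le_pow₀ hL1
  have hXb : ((X + b : ℕ) : ℝ) ≤ X * L ^ (B' + 1) := by
    push_cast
    have h1 : (X : ℝ) ≤ X * L ^ B' := le_mul_of_one_le_right (by linarith) hLB0
    have h2 : X * L ^ B' * 4 ≤ X * L ^ (B' + 1) := by
      rw [pow_succ, ← mul_assoc]
      exact mul_le_mul_of_nonneg_left hL4 (by positivity)
    linarith
  have hbb2 : (b : ℝ) ≤ X * L ^ (B' + 1) := by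
    refine le_trans ?_ hXb
    push_cast
    linarith
  have hDD : (D : ℝ) ^ 2 ≤ X / L ^ (k + 3) := by
    rw [le_div_iff₀ (by positivity)]
    rw [one_mul] at hL22
    have h2 : (1 : ℝ) ≤ D := by exact_mod_cast hD1
    have e1 : (D : ℝ) ^ 2 ≤ √(X : ℝ) := by
      apply Real.le_sqrt_of_sq_le
      have h1 : (D : ℝ) ^ 64 ≤ X := by exact_mod_cast hD64
      calc ((D : ℝ) ^ 2) ^ 2 = (D : ℝ) ^ 4 := by ring
        _ ≤ (D : ℝ) ^ 64 := pow_le_pow_right₀ h2 (by norm_num)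
        _ ≤ _ := h1
    calc (D : ℝ) ^ 2 * L ^ (k + 3) ≤ √(X : ℝ) * √(X : ℝ) :=
          mul_le_mul e1 hL22 (by positivity) (Real.sqrt_nonneg _)
      _ = X := Real.mul_self_sqrt (by linarith)
  -- one class
  have hclass : ∀ c < q, |∑ n ∈ ((Icc 1 X).filter (fun n => n ≡ c [MOD q])).filter (fun n => ∀ p ∈ P, ¬ Q p n), fP ω b α n| ≤
      2 * (1 / 2 : ℝ) ^ bb * ((((Icc 1 X).filter (fun n => n ≡ c [MOD q])).filter (fun n => ∀ p ∈ P, ¬ Q p n)).card : ℝ) +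
        60 * L * (X / L ^ (k + 3)) := by
    intro c hc
    obtain ⟨g, hg⟩ : ∃ g, g = Nat.gcd (c + b) q := ⟨_, rfl⟩
    have hgq : g ∣ q := by rw [hg]; exact Nat.gcd_dvd_right _ _
    obtain ⟨q1, hq1'⟩ := hgq
    have hg1 : 1 ≤ g := by rw [hg]; exact Nat.gcd_pos_of_pos_right _ hq1
    have hq11 : 1 ≤ q1 := by
      rcases Nat.eq_zero_or_pos q1 with h | h
      · rw [h, mul_zero] at hq1'
        omega
      · exact h
    have hgle : g ≤ q := by rw [hq1']; exact Nat.le_mul_of_pos_right _ hq11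
    have hq1le : q1 ≤ q := by rw [hq1']; exact Nat.le_mul_of_pos_left _ hg1
    have h1 := clsP hQ (y := y) (X := X) (c := c) (b := b) (α := α) hω hC0 hFL hbC (by omega : C0 ≤ z0) hq.symm hD hg hq1'
    rw [← hP] at h1
    have t1 := hT (X + b) hXb g q1 hg1 hgle hq11 hq1le y D (by omega) hyX1 hD1 hD64 P hPy hPk α
    have t2 := hT b hbb2 g q1 hg1 hgle hq11 hq1le y D (by omega) hyX1 hD1 hD64 P hPy hPk α
    have hJ0 : (0 : ℝ) ≤ ((JJ y : ℕ) : ℝ) := Nat.cast_nonneg _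
    have hte0 : 0 ≤ (X : ℝ) / L ^ (k + 3) := by positivity
    have hJL : ((JJ y : ℕ) : ℝ) + 2 ≤ 5 * L := by
      have h1 := JJ_log (y := y) (by omega)
      have h2 : Real.log y ≤ L := by
        rw [hLe]
        apply Real.log_le_log
        · exact_mod_cast (by omega : 0 < y)
        · exact_mod_cast hyX1
      linarith
    have h9 : 4 * (((JJ y : ℕ) : ℝ) + 2) * ((D : ℝ) ^ 2 + (TA (X + b) k g q1 D P α + TA b k g q1 D P α)) ≤
        60 * L * (X / L ^ (k + 3)) := by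
      calc _ ≤ 4 * (((JJ y : ℕ) : ℝ) + 2) * (3 * (X / L ^ (k + 3))) :=
            mul_le_mul_of_nonneg_left (by linarith) (by positivity)
        _ ≤ 4 * (5 * L) * (3 * (X / L ^ (k + 3))) := mul_le_mul_of_nonneg_right (by linarith) (by positivity)
        _ = _ := by ring
    linarith
  -- all classes
  have hfib := fib hQ (y := y) (X := X) (show z0 ≤ y by omega) hq hq1
  rw [← hP] at hfib
  rw [hfib]
  obtain ⟨G, hG⟩ : ∃ G, G = (range q).filter (fun c => ∀ p ∈ pz z0, ¬ Q p c) := ⟨_, rfl⟩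
  rw [← hG] at hfib ⊢
  have hcard : ((RQ Q X y).card : ℝ) = ∑ c ∈ G,
      ((((Icc 1 X).filter (fun n => n ≡ c [MOD q])).filter (fun n => ∀ p ∈ P, ¬ Q p n)).card : ℝ) := by
    have := hfib (fun _ => 1)
    simpa using this
  rw [hcard]
  have hGq : (G.card : ℝ) ≤ q := by
    have : G.card ≤ q := by
      rw [hG]
      refine (card_filter_le _ _).trans ?_
      rw [card_range]
    exact_mod_cast this
  have hte0 : 0 ≤ (X : ℝ) / L ^ (k + 3) := by positivity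
  refine (abs_sum_le_sum_abs _ _).trans ?_
  have h1 : ∀ c ∈ G, |∑ n ∈ ((Icc 1 X).filter (fun n => n ≡ c [MOD q])).filter (fun n => ∀ p ∈ P, ¬ Q p n), fP ω b α n| ≤
      2 * (1 / 2 : ℝ) ^ bb * ((((Icc 1 X).filter (fun n => n ≡ c [MOD q])).filter (fun n => ∀ p ∈ P, ¬ Q p n)).card : ℝ) +
        60 * L * (X / L ^ (k + 3)) := by
    intro c hc
    rw [hG, mem_filter, mem_range] at hc
    exact hclass c hc.1
  refine (sum_le_sum h1).trans ?_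
  rw [sum_add_distrib, ← mul_sum, sum_const, nsmul_eq_mul]
  apply add_le_add
  · exact le_rfl
  · have e1 : (X : ℝ) / L ^ (k + 1) = L ^ 2 * (X / L ^ (k + 3)) := by
      field_simp
      ring
    rw [e1]
    have h2 : (G.card : ℝ) * (60 * L * (X / L ^ (k + 3))) ≤ q * (60 * L * (X / L ^ (k + 3))) :=
      mul_le_mul_of_nonneg_right hGq (by positivity)
    refine h2.trans ?_
    have e2 : (q : ℝ) * (60 * L * (X / L ^ (k + 3))) = (60 * q * L) * (X / L ^ (k + 3)) := by ring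
    rw [e2]
    apply mul_le_mul_of_nonneg_right _ hte0
    have hq0 : (0 : ℝ) ≤ q := Nat.cast_nonneg _
    have h3 : 60 * (q : ℝ) ≤ L := by linarith
    calc 60 * (q : ℝ) * L ≤ L * L := mul_le_mul_of_nonneg_right h3 (by linarith)
      _ = L ^ 2 := by ring


/-- the bound for the complex sum -/
theorem all_Pq (k : ℕ) (hk : 1 ≤ k) : ∃ A : ℕ, 1 ≤ A ∧ ∀ K : ℕ, A ≤ K → ∀ B' : ℕ, ∃ X0 y0 : ℕ,
    ∀ Q : ℕ → ℕ → Prop, Sv k Q → ∀ X y : ℕ, X0 ≤ X → y0 ≤ y → y ^ K ≤ X →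
      ∀ b : ℕ, (b : ℝ) ≤ X * Real.log X ^ B' → ∀ α : ℝ,
      ‖∑ n ∈ RQ Q X y, ((la (n + b) : ℝ) : ℂ) * ee (n * α)‖ ≤ 3 * (1 / 2 : ℝ) ^ (K / A) * (RQ Q X y).card := by
  obtain ⟨C0, hC0, H1⟩ := one_Pq k
  obtain ⟨c, hc, H3⟩ := all_F k hk
  obtain ⟨K3, hK3, H3⟩ := H3 1 one_pos
  refine ⟨128 * C0 * (C0 + K3), Nat.mul_pos (by omega) (by omega), fun K hK B' => ?_⟩
  obtain ⟨bb, hbb⟩ : ∃ bb : ℕ, bb = K / (128 * C0) := ⟨_, rfl⟩
  have hbC : C0 ≤ bb := by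
    rw [hbb, Nat.le_div_iff_mul_le (by omega)]
    refine le_trans ?_ hK
    have : C0 ≤ C0 + K3 := Nat.le_add_right _ _
    calc C0 * (128 * C0) ≤ (C0 + K3) * (128 * C0) := Nat.mul_le_mul_right _ this
      _ = _ := by ring
  have hbK : 128 * (C0 * bb) ≤ K := by
    rw [hbb, ← mul_assoc]
    exact Nat.mul_div_le _ _
  have hK3' : K3 ≤ K := by
    refine le_trans ?_ hK
    have h1 : 1 ≤ 128 * C0 := by omega
    calc K3 ≤ C0 + K3 := Nat.le_add_left _ _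
      _ = 1 * (C0 + K3) := (one_mul _).symm
      _ ≤ _ := Nat.mul_le_mul_right _ h1
  obtain ⟨e, he⟩ : ∃ e : ℝ, e = (1 / 2 : ℝ) ^ bb := ⟨_, rfl⟩
  have he0 : 0 < e := by rw [he]; positivity
  have hle : e ≤ (1 / 2 : ℝ) ^ (K / (128 * C0 * (C0 + K3))) := by
    rw [he, hbb]
    apply pow_le_pow_of_le_one (by norm_num) (by norm_num)
    rw [← Nat.div_div_eq_div_mul]
    exact Nat.div_le_self _ _
  obtain ⟨X1, y1, H1⟩ := H1 bb hbC B'
  obtain ⟨X3, y3, H3⟩ := H3 0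
  obtain ⟨X4, hX4⟩ := ev_L' (max 1 (1 / (c * e)))
  refine ⟨X1 + X3 + X4 + 1, y1 + y3 + 1, ?_⟩
  intro Q hQ X y hX hy hyX b hbX α
  obtain ⟨h3, _, _⟩ := H3 Q hQ X y (by omega) (by omega) ((Nat.pow_le_pow_right (by omega) hK3').trans hyX)
  have h1 := H1 Q hQ X y (by omega) (by omega) ((Nat.pow_le_pow_right (by omega) hbK).trans hyX) b hbX α
  have hl := hX4 X (by omega)
  rw [← he] at h1
  obtain ⟨L, hL⟩ : ∃ L : ℝ, L = Real.log X := ⟨_, rfl⟩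
  obtain ⟨G, hG⟩ : ∃ G : ℝ, G = ((RQ Q X y).card : ℝ) := ⟨_, rfl⟩
  rw [← hL] at h1 h3 hl
  rw [← hG] at h1 h3 ⊢
  have hG0 : 0 ≤ G := by rw [hG]; exact Nat.cast_nonneg _
  have hL1 : 1 ≤ L := (le_max_left _ _).trans hl
  have hLc : 1 / (c * e) ≤ L := (le_max_right _ _).trans hl
  have hXr : (1 : ℝ) ≤ X := by exact_mod_cast (by omega : 1 ≤ X)
  have h4 : (X : ℝ) / L ^ (k + 1) ≤ e * G := by
    rw [div_le_iff₀ (by positivity)] at hLc
    have e1 : (X : ℝ) / L ^ (k + 1) ≤ e * (c * (X / L ^ k)) := by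
      have e2 : e * (c * (X / L ^ k)) = (L * (c * e)) * (X / L ^ (k + 1)) := by
        field_simp
        ring
      rw [e2]
      have e3 : 0 ≤ (X : ℝ) / L ^ (k + 1) := by positivity
      nlinarith
    refine e1.trans ?_
    apply mul_le_mul_of_nonneg_left h3 he0.le
  have hfin : 3 * e * G ≤ 3 * (1 / 2 : ℝ) ^ (K / (128 * C0 * (C0 + K3))) * G := by
    apply mul_le_mul_of_nonneg_right _ hG0
    linarith
  refine le_trans ?_ hfin
  obtain ⟨Z, hZ⟩ : ∃ Z : ℂ, Z = ∑ n ∈ RQ Q X y, ((la (n + b) : ℝ) : ℂ) * ee (n * α) := ⟨_, rfl⟩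
  rw [← hZ]
  by_cases hZ0 : Z = 0
  · rw [hZ0, norm_zero]
    positivity
  · have hn : (0 : ℝ) < ‖Z‖ := norm_pos_iff.2 hZ0
    have hω : ‖(starRingEnd ℂ) Z / (‖Z‖ : ℂ)‖ = 1 := by
      rw [norm_div, Complex.norm_conj, Complex.norm_real, Real.norm_eq_abs, abs_of_pos hn, div_self hn.ne']
    have h5 := h1 _ hω
    have h6 : ∑ n ∈ RQ Q X y, fP ((starRingEnd ℂ) Z / (‖Z‖ : ℂ)) b α n = ‖Z‖ := by
      unfold fP
      rw [← Complex.re_sum, ← mul_sum, ← hZ]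
      have h7 : (starRingEnd ℂ) Z / (‖Z‖ : ℂ) * Z = ((‖Z‖ : ℝ) : ℂ) := by
        rw [div_mul_eq_mul_div, mul_comm, Complex.mul_conj, Complex.normSq_eq_norm_sq]
        push_cast
        have : ((‖Z‖ : ℝ) : ℂ) ≠ 0 := by exact_mod_cast hn.ne'
        field_simp
      rw [h7, Complex.ofReal_re]
    rw [h6, abs_of_pos hn] at h5
    linarith

end Pool.Agent.H530.Hz
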