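import Pool.Agent.H530.HzA
import Pool.Agent.H530.HyA

/-! Reflections and translations; all integral shifts. -/

set_option autoImplicit false

namespace Pool.Agent.H530.Hz

open Finset Pool.Agent.H807R2.Dav Pool.Agent.H530.Ha Pool.Agent.H530.Hx
open Pool.Agent.H373R2.T7 hiding RQ

/-- the reflected sieve -/
def Qr (Q : ℕ → ℕ → Prop) (β : ℕ) (p n : ℕ) : Prop := Q p (β + (p - 1) * n)

/-- the translated sieve -/
def Qt (Q : ℕ → ℕ → Prop) (β : ℕ) (p n : ℕ) : Prop := Q p (β + n)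

lemma not_dvd_pred {p : ℕ} (hp : p.Prime) : ¬ p ∣ p - 1 := by
  intro h
  have h1 := hp.two_le
  have := Nat.le_of_dvd (by omega) h
  omega

lemma nuB_Qr {k : ℕ} {Q : ℕ → ℕ → Prop} (hQ : Sv k Q) (β : ℕ) {p : ℕ} (hp : p.Prime) : nuB (Qr Q β) p = nuB Q p := by
  rw [← nuB_Qc hQ (p - 1) β p hp (not_dvd_pred hp)]
  unfold nuB
  congr 1
  ext r
  simp only [mem_filter, mem_range, Qr, Qc]
  constructor
  · rintro ⟨h1, h2⟩
    exact ⟨h1, not_dvd_pred hp, h2⟩
  · rintro ⟨h1, _, h2⟩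
    exact ⟨h1, h2⟩

lemma nuB_Qt {k : ℕ} {Q : ℕ → ℕ → Prop} (hQ : Sv k Q) (β : ℕ) {p : ℕ} (hp : p.Prime) : nuB (Qt Q β) p = nuB Q p := by
  have h1 : ¬ p ∣ 1 := fun h => hp.one_lt.ne' (Nat.dvd_one.1 h)
  rw [← nuB_Qc hQ 1 β p hp h1]
  unfold nuB
  congr 1
  ext r
  simp only [mem_filter, mem_range, Qt, Qc]
  rw [one_mul]
  constructor
  · rintro ⟨h3, h2⟩
    exact ⟨h3, h1, h2⟩
  · rintro ⟨h3, _, h2⟩
    exact ⟨h3, h2⟩

lemma sv_Qr {k : ℕ} {Q : ℕ → ℕ → Prop} (hQ : Sv k Q) (β : ℕ) : Sv k (Qr Q β) where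
  per := fun p n => by
    unfold Qr
    exact hQ.mod (((Nat.mod_modEq n p).symm.mul_left (p - 1)).add_left β)
  le := fun p hp => by rw [nuB_Qr hQ β hp]; exact hQ.le p hp
  lt := fun p hp => by rw [nuB_Qr hQ β hp]; exact hQ.lt p hp

lemma sv_Qt {k : ℕ} {Q : ℕ → ℕ → Prop} (hQ : Sv k Q) (β : ℕ) : Sv k (Qt Q β) where
  per := fun p n => by
    unfold Qt
    exact hQ.mod ((Nat.mod_modEq n p).symm.add_left β)
  le := fun p hp => by rw [nuB_Qt hQ β hp]; exact hQ.le p hp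
  lt := fun p hp => by rw [nuB_Qt hQ β hp]; exact hQ.lt p hp

lemma refl_mod {β n p : ℕ} (hn : n ≤ β) (hp : 1 ≤ p) : β + (p - 1) * n ≡ β - n [MOD p] := by
  have h1 : β + (p - 1) * n = (β - n) + p * n := by
    obtain ⟨t, rfl⟩ : ∃ t, β = n + t := ⟨β - n, by omega⟩
    obtain ⟨s, rfl⟩ : ∃ s, p = s + 1 := ⟨p - 1, by omega⟩
    simp only [Nat.add_sub_cancel_left, Nat.add_sub_cancel]
    ring
  rw [h1]
  unfold Nat.ModEq
  rw [Nat.add_mul_mod_self_left]

lemma refl_iff {k : ℕ} {Q : ℕ → ℕ → Prop} (hQ : Sv k Q) {β n p : ℕ} (hn : n ≤ β) (hp : p.Prime) :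
    Qr Q β p n ↔ Q p (β - n) := hQ.mod (refl_mod hn hp.one_lt.le)

lemma mem_RQ {Q : ℕ → ℕ → Prop} {X y n : ℕ} : n ∈ RQ Q X y ↔ (1 ≤ n ∧ n ≤ X) ∧ ∀ p ∈ pz y, ¬ Q p n := by
  classical
  unfold RQ
  rw [mem_filter, mem_Icc]

lemma card_RQ_le (Q : ℕ → ℕ → Prop) (X y : ℕ) : (RQ Q X y).card ≤ X := by
  have h : RQ Q X y ⊆ Icc 1 X := fun n hn => mem_Icc.2 (mem_RQ.1 hn).1
  have h2 := card_le_card h
  rwa [Nat.card_Icc, Nat.add_sub_cancel] at h2

/-- reflection -/
lemma sum_refl {k : ℕ} {Q : ℕ → ℕ → Prop} (hQ : Sv k Q) (X y : ℕ) {M : Type} [AddCommMonoid M] (f : ℕ → M) :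
    ∑ n ∈ RQ Q X y, f n = ∑ m ∈ RQ (Qr Q (X + 1)) X y, f (X + 1 - m) := by
  symm
  apply sum_bij (fun m _ => X + 1 - m)
  · intro m hm
    rw [mem_RQ] at hm ⊢
    refine ⟨by omega, fun p hp h => hm.2 p hp ?_⟩
    exact (refl_iff hQ (by omega) (mem_pz.1 hp).2).2 h
  · intro m hm n hn h
    rw [mem_RQ] at hm hn
    omega
  · intro n hn
    rw [mem_RQ] at hn
    refine ⟨X + 1 - n, ?_, by omega⟩
    rw [mem_RQ]
    refine ⟨by omega, fun p hp h => hn.2 p hp ?_⟩
    have h1 := (refl_iff hQ (show X + 1 - n ≤ X + 1 by omega) (mem_pz.1 hp).2).1 h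
    have h2 : X + 1 - (X + 1 - n) = n := by omega
    rwa [h2] at h1
  · intro m _
    rfl

/-- translation -/
lemma sum_tr (Q : ℕ → ℕ → Prop) {X y β : ℕ} (hβ : β ≤ X) {M : Type} [AddCommMonoid M] (f : ℕ → M) :
    ∑ n ∈ (RQ Q X y).filter (fun n => β < n), f n = ∑ m ∈ RQ (Qt Q β) (X - β) y, f (β + m) := by
  symm
  apply sum_bij (fun m _ => β + m)
  · intro m hm
    rw [mem_RQ] at hm
    rw [mem_filter, mem_RQ]
    exact ⟨⟨by omega, hm.2⟩, by omega⟩
  · intro m _ n _ h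
    omega
  · intro n hn
    rw [mem_filter, mem_RQ] at hn
    refine ⟨n - β, ?_, by omega⟩
    rw [mem_RQ]
    refine ⟨by omega, fun p hp h => hn.1.2 p hp ?_⟩
    unfold Qt at h
    have h2 : β + (n - β) = n := by omega
    rwa [h2] at h
  · intro m _
    rfl

lemma RQ_lt (Q : ℕ → ℕ → Prop) {X y β : ℕ} (hβ : β + 1 ≤ X) :
    (RQ Q X y).filter (fun n => n < β + 1) = RQ Q β y := by
  ext n
  rw [mem_filter, mem_RQ, mem_RQ]
  constructor
  · rintro ⟨⟨h1, h2⟩, h3⟩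
    exact ⟨by omega, h2⟩
  · rintro ⟨h1, h2⟩
    exact ⟨⟨by omega, h2⟩, by omega⟩

lemma ee_sub_nat (X m : ℕ) (h : m ≤ X) (α : ℝ) : ee (((X - m : ℕ) : ℝ) * α) = ee (X * α) * ee (m * (-α)) := by
  rw [Nat.cast_sub h, ← ee_add]
  congr 1
  ring

/-- **Fourier uniformity, all integral shifts** -/
theorem all_Z (k : ℕ) (hk : 1 ≤ k) : ∃ A : ℕ, 1 ≤ A ∧ ∀ K : ℕ, A ≤ K → ∀ B' : ℕ, ∃ X0 y0 : ℕ,
    ∀ Q : ℕ → ℕ → Prop, Sv k Q → ∀ X y : ℕ, X0 ≤ X → y0 ≤ y → y ^ K ≤ X →
      ∀ b : ℤ, |(b : ℝ)| ≤ X * Real.log X ^ B' → ∀ α : ℝ,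
      ‖∑ n ∈ RQ Q X y, ((lz ((n : ℤ) + b) : ℝ) : ℂ) * ee (n * α)‖ ≤ 9 * (1 / 2 : ℝ) ^ (K / A) * (RQ Q X y).card := by
  obtain ⟨A0, hA0, H0⟩ := all_Pq k hk
  obtain ⟨c, hc, H3⟩ := all_F k hk
  obtain ⟨K3, hK3, H3⟩ := H3 1 one_pos
  refine ⟨2 * (A0 + K3), by omega, fun K hK B' => ?_⟩
  obtain ⟨K', hK'⟩ : ∃ K', K' = K / 2 := ⟨_, rfl⟩
  have hK2 : 2 * K' ≤ K := by omega
  have hAK : A0 ≤ K' := by omega
  obtain ⟨e, he⟩ : ∃ e : ℝ, e = (1 / 2 : ℝ) ^ (K' / A0) := ⟨_, rfl⟩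
  have he0 : 0 < e := by rw [he]; positivity
  have hle : e ≤ (1 / 2 : ℝ) ^ (K / (2 * (A0 + K3))) := by
    rw [he]
    apply pow_le_pow_of_le_one (by norm_num) (by norm_num)
    rw [hK', Nat.div_div_eq_div_mul]
    apply Nat.div_le_div_left _ (by omega)
    omega
  obtain ⟨X0, y0, H0⟩ := H0 K' hAK (B' + 1)
  obtain ⟨X3, y3, H3⟩ := H3 0
  obtain ⟨X4, hX4⟩ := ev_L' 1
  obtain ⟨X5, hX5⟩ := ev_log' k (1 / (c * e))
  refine ⟨X0 ^ 2 + X0 + X3 + X4 + X5 + 4, y0 + y3 + 1, ?_⟩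
  intro Q hQ X y hX hy hyX b hbX α
  have hX0 : X0 ≤ X := by omega
  have hyK : y ^ K' ≤ X := (Nat.pow_le_pow_right (by omega) (by omega)).trans hyX
  have hXp : 1 ≤ X := by omega
  have hXr : (1 : ℝ) ≤ X := by exact_mod_cast hXp
  have hL1 := hX4 X (by omega)
  obtain ⟨h3, _, _⟩ := H3 Q hQ X y (by omega) (by omega) ((Nat.pow_le_pow_right (by omega) (by omega)).trans hyX)
  have hl5 := hX5 X (by omega)
  obtain ⟨G, hG⟩ : ∃ G : ℝ, G = ((RQ Q X y).card : ℝ) := ⟨_, rfl⟩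
  rw [← hG] at h3 ⊢
  have hG0 : 0 ≤ G := by rw [hG]; exact Nat.cast_nonneg _
  -- the square root is small
  have hsq : √(X : ℝ) ≤ e * G := by
    have hs : 0 < √(X : ℝ) := Real.sqrt_pos.2 (by linarith)
    have h6 : 1 / (c * e) * Real.log X ^ k ≤ √(X : ℝ) := by
      simpa [mul_comm] using hl5
    have hLk : 0 < Real.log X ^ k := by positivity
    have h7 : Real.log X ^ k ≤ c * e * √(X : ℝ) := by
      rw [one_div_mul_eq_div, div_le_iff₀ (by positivity)] at h6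
      linarith
    have h8 : √(X : ℝ) * Real.log X ^ k ≤ c * e * X := by
      calc √(X : ℝ) * Real.log X ^ k ≤ √(X : ℝ) * (c * e * √(X : ℝ)) :=
            mul_le_mul_of_nonneg_left h7 hs.le
        _ = c * e * (√(X : ℝ) * √(X : ℝ)) := by ring
        _ = _ := by rw [Real.mul_self_sqrt (by linarith)]
    have h9 : √(X : ℝ) ≤ e * (c * (X / Real.log X ^ k)) := by
      have : e * (c * (X / Real.log X ^ k)) = c * e * X / Real.log X ^ k := by ring
      rw [this, le_div_iff₀ hLk]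
      exact h8
    exact h9.trans (mul_le_mul_of_nonneg_left h3 he0.le)
  -- the parts
  have hpart : ∀ Q' : ℕ → ℕ → Prop, Sv k Q' → ∀ X' : ℕ, X' ≤ X → ((RQ Q' X' y).card : ℝ) ≤ G → ∀ α' : ℝ,
      ‖∑ m ∈ RQ Q' X' y, ((la m : ℝ) : ℂ) * ee (m * α')‖ ≤ 3 * e * G + √(X : ℝ) := by
    intro Q' hQ' X' hX' hcard α'
    by_cases hs : X < X' ^ 2
    · have h1 : X0 ≤ X' := by
        by_contra h
        push Not at h
        have : X' ^ 2 ≤ X0 ^ 2 := Nat.pow_le_pow_left h.le 2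
        omega
      have h2 : y ^ K' ≤ X' := by
        by_contra h
        push Not at h
        have h4 : X' ^ 2 < (y ^ K') ^ 2 := Nat.pow_lt_pow_left h (by norm_num)
        rw [← pow_mul] at h4
        have h5 : y ^ (K' * 2) ≤ y ^ K := Nat.pow_le_pow_right (by omega) (by omega)
        omega
      have h3 := H0 Q' hQ' X' y h1 (by omega) h2 0 (by
        rw [Nat.cast_zero]
        have : 0 ≤ Real.log (X' : ℝ) := Real.log_natCast_nonneg _
        positivity) α'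
      rw [← he] at h3
      simp only [add_zero] at h3
      have h4 : 3 * e * ((RQ Q' X' y).card : ℝ) ≤ 3 * e * G := mul_le_mul_of_nonneg_left hcard (by positivity)
      linarith [Real.sqrt_nonneg (X : ℝ)]
    · push Not at hs
      have h1 : ‖∑ m ∈ RQ Q' X' y, ((la m : ℝ) : ℂ) * ee (m * α')‖ ≤ X' := by
        refine (norm_sum_le _ _).trans ?_
        calc ∑ m ∈ RQ Q' X' y, ‖((la m : ℝ) : ℂ) * ee (m * α')‖ ≤ ∑ m ∈ RQ Q' X' y, (1 : ℝ) := by
              apply sum_le_sum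
              intro m _
              rw [norm_mul, norm_ee, mul_one, Complex.norm_real, Real.norm_eq_abs]
              exact la_abs _
          _ = ((RQ Q' X' y).card : ℝ) := by rw [sum_const, nsmul_eq_mul, mul_one]
          _ ≤ X' := by exact_mod_cast card_RQ_le _ _ _
      have h2 : (X' : ℝ) ≤ √(X : ℝ) := by
        apply Real.le_sqrt_of_sq_le
        exact_mod_cast hs
      have h3 : 0 ≤ 3 * e * G := by positivity
      linarith
  have hfin : 9 * e * G ≤ 9 * (1 / 2 : ℝ) ^ (K / (2 * (A0 + K3))) * G := by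
    apply mul_le_mul_of_nonneg_right _ hG0
    linarith
  refine le_trans ?_ hfin
  have heG : 0 ≤ e * G := by positivity
  rcases le_or_gt 0 b with hb | hb
  · -- nonnegative shifts
    obtain ⟨b', rfl⟩ := Int.eq_ofNat_of_zero_le hb
    have h1 := H0 Q hQ X y hX0 (by omega) hyK b' (by
      rw [Int.cast_natCast, Nat.abs_cast] at hbX
      refine hbX.trans ?_
      apply mul_le_mul_of_nonneg_left _ (by linarith)
      exact pow_le_pow_right₀ hL1 (by omega)) α
    rw [← hG, ← he] at h1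
    have e1 : ∀ n : ℕ, lz ((n : ℤ) + (b' : ℤ)) = la (n + b') := by
      intro n
      unfold lz
      rw [← Nat.cast_add, Int.natAbs_natCast]
    simp only [e1]
    linarith
  · obtain ⟨β, hβ⟩ : ∃ β : ℕ, b = -(β : ℤ) := ⟨b.natAbs, by omega⟩
    have hβ1 : 1 ≤ β := by omega
    subst hβ
    rcases le_or_gt β X with hβX | hβX
    · -- inside
      have hsplit : ∑ n ∈ RQ Q X y, ((lz ((n : ℤ) + -(β : ℤ)) : ℝ) : ℂ) * ee (n * α) =
          ∑ n ∈ RQ Q (β - 1) y, ((lz ((n : ℤ) + -(β : ℤ)) : ℝ) : ℂ) * ee (n * α) +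
          ∑ n ∈ (RQ Q X y).filter (fun n => β < n), ((lz ((n : ℤ) + -(β : ℤ)) : ℝ) : ℂ) * ee (n * α) := by
        rw [← sum_filter_add_sum_filter_not (RQ Q X y) (fun n => n < β - 1 + 1)]
        rw [RQ_lt Q (show β - 1 + 1 ≤ X by omega)]
        congr 1
        have h1 : (RQ Q X y).filter (fun n => ¬ n < β - 1 + 1) =
            (RQ Q X y).filter (fun n => β < n) ∪ (RQ Q X y).filter (fun n => n = β) := by
          ext n
          rw [mem_union, mem_filter, mem_filter, mem_filter]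
          constructor
          · rintro ⟨h1, h2⟩
            rcases Nat.lt_or_ge β n with h | h
            · exact Or.inl ⟨h1, h⟩
            · exact Or.inr ⟨h1, by omega⟩
          · rintro (⟨h1, h2⟩ | ⟨h1, h2⟩)
            · exact ⟨h1, by omega⟩
            · exact ⟨h1, by omega⟩
        rw [h1, sum_union]
        · have h2 : ∑ n ∈ (RQ Q X y).filter (fun n => n = β), ((lz ((n : ℤ) + -(β : ℤ)) : ℝ) : ℂ) * ee (n * α) = 0 := by
            apply sum_eq_zero
            intro n hn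
            rw [(mem_filter.1 hn).2]
            have : (β : ℤ) + -(β : ℤ) = 0 := by ring
            rw [this, lz_zero]
            simp
          rw [h2, add_zero]
        · rw [disjoint_left]
          intro n h1 h2
          have h3 := (mem_filter.1 h1).2
          have h4 := (mem_filter.1 h2).2
          omega
      rw [hsplit]
      refine (norm_add_le _ _).trans ?_
      have p1 : ‖∑ n ∈ RQ Q (β - 1) y, ((lz ((n : ℤ) + -(β : ℤ)) : ℝ) : ℂ) * ee (n * α)‖ ≤ 3 * e * G + √(X : ℝ) := by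
        rw [sum_refl hQ (β - 1) y]
        have h1 : ∀ m ∈ RQ (Qr Q (β - 1 + 1)) (β - 1) y,
            ((lz (((β - 1 + 1 - m : ℕ) : ℤ) + -(β : ℤ)) : ℝ) : ℂ) * ee (((β - 1 + 1 - m : ℕ) : ℝ) * α) =
            ee ((β : ℝ) * α) * (((la m : ℝ) : ℂ) * ee (m * (-α))) := by
          intro m hm
          rw [mem_RQ] at hm
          have h2 : β - 1 + 1 = β := by omega
          rw [h2, ee_sub_nat β m (by omega)]
          have h3 : ((β - m : ℕ) : ℤ) + -(β : ℤ) = -(m : ℤ) := by omega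
          rw [h3, lz_neg]
          have h4 : lz (m : ℤ) = la m := by
            unfold lz
            rw [Int.natAbs_natCast]
          rw [h4]
          ring
        rw [sum_congr rfl h1, ← mul_sum, norm_mul, norm_ee, one_mul]
        apply hpart _ (sv_Qr hQ _) _ (by omega)
        have h5 := sum_refl hQ (β - 1) y (fun _ => (1 : ℕ))
        simp only [sum_const, smul_eq_mul, mul_one] at h5
        rw [← h5, hG]
        have h6 : (RQ Q (β - 1) y).card ≤ (RQ Q X y).card := by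
          rw [← RQ_lt Q (show β - 1 + 1 ≤ X by omega)]
          exact card_filter_le _ _
        exact_mod_cast h6
      have p2 : ‖∑ n ∈ (RQ Q X y).filter (fun n => β < n), ((lz ((n : ℤ) + -(β : ℤ)) : ℝ) : ℂ) * ee (n * α)‖ ≤
          3 * e * G + √(X : ℝ) := by
        rw [sum_tr Q hβX]
        have h1 : ∀ m ∈ RQ (Qt Q β) (X - β) y,
            ((lz (((β + m : ℕ) : ℤ) + -(β : ℤ)) : ℝ) : ℂ) * ee (((β + m : ℕ) : ℝ) * α) =
            ee ((β : ℝ) * α) * (((la m : ℝ) : ℂ) * ee (m * α)) := by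
          intro m hm
          have h3 : ((β + m : ℕ) : ℤ) + -(β : ℤ) = (m : ℤ) := by push_cast; ring
          rw [h3]
          have h4 : lz (m : ℤ) = la m := by
            unfold lz
            rw [Int.natAbs_natCast]
          rw [h4, Nat.cast_add, add_mul, ee_add]
          ring
        rw [sum_congr rfl h1, ← mul_sum, norm_mul, norm_ee, one_mul]
        apply hpart _ (sv_Qt hQ _) _ (by omega)
        have h5 := sum_tr Q (y := y) hβX (fun _ => (1 : ℕ))
        simp only [sum_const, smul_eq_mul, mul_one] at h5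
        rw [← h5, hG]
        have h6 : ((RQ Q X y).filter (fun n => β < n)).card ≤ (RQ Q X y).card := card_filter_le _ _
        exact_mod_cast h6
      linarith
    · -- outside
      rw [sum_refl hQ X y]
      have h1 : ∀ m ∈ RQ (Qr Q (X + 1)) X y,
          ((lz (((X + 1 - m : ℕ) : ℤ) + -(β : ℤ)) : ℝ) : ℂ) * ee (((X + 1 - m : ℕ) : ℝ) * α) =
          ee (((X + 1 : ℕ) : ℝ) * α) * (((la (m + (β - (X + 1))) : ℝ) : ℂ) * ee (m * (-α))) := by
        intro m hm
        rw [mem_RQ] at hm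
        rw [ee_sub_nat (X + 1) m (by omega)]
        have h3 : ((X + 1 - m : ℕ) : ℤ) + -(β : ℤ) = -((m + (β - (X + 1)) : ℕ) : ℤ) := by omega
        rw [h3, lz_neg]
        have h4 : lz ((m + (β - (X + 1)) : ℕ) : ℤ) = la (m + (β - (X + 1))) := by
          unfold lz
          rw [Int.natAbs_natCast]
        rw [h4]
        ring
      rw [sum_congr rfl h1, ← mul_sum, norm_mul, norm_ee, one_mul]
      have hb' : ((β - (X + 1) : ℕ) : ℝ) ≤ X * Real.log X ^ (B' + 1) := by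
        have h5 : ((β - (X + 1) : ℕ) : ℝ) ≤ β := by exact_mod_cast Nat.sub_le _ _
        have h6 : (β : ℝ) ≤ X * Real.log X ^ B' := by
          have : |((-(β : ℤ) : ℤ) : ℝ)| = β := by
            push_cast
            rw [abs_neg, Nat.abs_cast]
          rwa [this] at hbX
        refine h5.trans (h6.trans ?_)
        apply mul_le_mul_of_nonneg_left _ (by linarith)
        exact pow_le_pow_right₀ hL1 (by omega)
      have h7 := H0 _ (sv_Qr hQ (X + 1)) X y hX0 (by omega) hyK _ hb' (-α)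
      rw [← he] at h7
      have h8 := sum_refl hQ X y (fun _ => (1 : ℕ))
      simp only [sum_const, smul_eq_mul, mul_one] at h8
      rw [← h8, ← hG] at h7
      linarith

end Pool.Agent.H530.Hz
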