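import Pool.Agent.H530.HzB

/-! Trigonometric sums: orthogonality, Parseval, dilations. -/

set_option autoImplicit false

namespace Pool.Agent.H530.Hz

open Finset Pool.Agent.H807R2.Dav MeasureTheory

lemma ee_cont : Continuous ee := by
  unfold ee
  fun_prop

lemma int_ee (m : ℤ) : ∫ α in (0 : ℝ)..1, ee (m * α) = if m = 0 then 1 else 0 := by
  by_cases hm : m = 0
  · rw [if_pos hm, hm]
    simp [ee_zero]
  · rw [if_neg hm]
    have hm' : (m : ℂ) ≠ 0 := by exact_mod_cast hm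
    have hc : (2 * Real.pi * Complex.I * m : ℂ) ≠ 0 := by
      have := Real.pi_ne_zero
      have h2 : (Real.pi : ℂ) ≠ 0 := by exact_mod_cast this
      simp [h2, Complex.I_ne_zero, hm']
    have h1 : ∀ α : ℝ, ee (m * α) = Complex.exp ((2 * Real.pi * Complex.I * m) * (α : ℂ)) := by
      intro α
      unfold ee
      congr 1
      push_cast
      ring
    simp only [h1]
    rw [integral_exp_mul_complex hc]
    have h2 : Complex.exp (2 * Real.pi * Complex.I * m * ((1 : ℝ) : ℂ)) = 1 := by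
      rw [Complex.ofReal_one, mul_one, Complex.exp_eq_one_iff]
      exact ⟨m, by ring⟩
    rw [h2]
    simp

/-- a trigonometric sum -/
noncomputable def TS {ι : Type} (S : Finset ι) (c : ι → ℂ) (φ : ι → ℤ) (α : ℝ) : ℂ := ∑ i ∈ S, c i * ee (φ i * α)

lemma TS_cont {ι : Type} (S : Finset ι) (c : ι → ℂ) (φ : ι → ℤ) : Continuous (TS S c φ) := by
  unfold TS
  exact continuous_finsetSum _ fun i _ => continuous_const.mul (ee_cont.comp (by fun_prop))

lemma int_TS {ι : Type} (S : Finset ι) (c : ι → ℂ) (φ : ι → ℤ) :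
    ∫ α in (0 : ℝ)..1, TS S c φ α = ∑ i ∈ S.filter (fun i => φ i = 0), c i := by
  unfold TS
  rw [intervalIntegral.integral_finsetSum]
  · rw [sum_filter]
    apply sum_congr rfl
    intro i _
    rw [intervalIntegral.integral_const_mul, int_ee]
    split_ifs <;> simp
  · intro i _
    exact (continuous_const.mul (ee_cont.comp (by fun_prop))).intervalIntegrable _ _

lemma TS_mul {ι κ : Type} (S : Finset ι) (c : ι → ℂ) (φ : ι → ℤ) (T : Finset κ) (d : κ → ℂ) (ψ : κ → ℤ) (α : ℝ) :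
    TS S c φ α * TS T d ψ α = TS (S ×ˢ T) (fun x => c x.1 * d x.2) (fun x => φ x.1 + ψ x.2) α := by
  unfold TS
  rw [sum_mul_sum, sum_product]
  apply sum_congr rfl
  intro i _
  apply sum_congr rfl
  intro j _
  push_cast
  rw [add_mul, ee_add]
  ring

lemma conj_ee (x : ℝ) : (starRingEnd ℂ) (ee x) = ee (-x) := by
  unfold ee
  rw [← Complex.exp_conj]
  congr 1
  have h2 : (starRingEnd ℂ) 2 = 2 := by
    have := Complex.conj_ofReal 2
    simpa using this
  simp [h2]

lemma TS_conj {ι : Type} (S : Finset ι) (c : ι → ℂ) (φ : ι → ℤ) (α : ℝ) :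
    (starRingEnd ℂ) (TS S c φ α) = TS S (fun i => (starRingEnd ℂ) (c i)) (fun i => - φ i) α := by
  unfold TS
  rw [map_sum]
  apply sum_congr rfl
  intro i _
  rw [map_mul, conj_ee]
  congr 2
  push_cast
  ring

/-- Parseval -/
lemma parseval {ι : Type} (S : Finset ι) (c : ι → ℂ) (φ : ι → ℤ) (U : Finset ℤ) :
    ∑ M ∈ U, ‖∑ i ∈ S.filter (fun i => φ i = M), c i‖ ^ 2 ≤ ∫ α in (0 : ℝ)..1, ‖TS S c φ α‖ ^ 2 := by
  classical
  have h1 : ((∫ α in (0 : ℝ)..1, ‖TS S c φ α‖ ^ 2 : ℝ) : ℂ) =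
      ∑ M ∈ S.image φ, (((‖∑ i ∈ S.filter (fun i => φ i = M), c i‖ ^ 2 : ℝ)) : ℂ) := by
    rw [← intervalIntegral.integral_ofReal]
    have h2 : ∀ α : ℝ, ((‖TS S c φ α‖ ^ 2 : ℝ) : ℂ) =
        TS (S ×ˢ S) (fun x => c x.1 * (starRingEnd ℂ) (c x.2)) (fun x => φ x.1 + -φ x.2) α := by
      intro α
      have h3 := TS_mul S c φ S (fun i => (starRingEnd ℂ) (c i)) (fun i => - φ i) α
      rw [← h3, ← TS_conj, Complex.mul_conj, Complex.normSq_eq_norm_sq]
    simp only [h2]
    rw [int_TS, sum_filter, sum_product]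
    rw [← sum_fiberwise_of_maps_to (s := S) (t := S.image φ) (g := φ) (fun i hi => mem_image_of_mem _ hi)]
    apply sum_congr rfl
    intro M _
    have h3 : (((‖∑ i ∈ S.filter (fun i => φ i = M), c i‖ ^ 2 : ℝ)) : ℂ) =
        (∑ i ∈ S.filter (fun i => φ i = M), c i) * (starRingEnd ℂ) (∑ i ∈ S.filter (fun i => φ i = M), c i) := by
      rw [Complex.mul_conj, Complex.normSq_eq_norm_sq]
    rw [h3, map_sum, sum_mul_sum]
    apply sum_congr rfl
    intro i hi
    have hiM := (mem_filter.1 hi).2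
    rw [sum_filter]
    apply sum_congr rfl
    intro j _
    have h4 : (φ i + -φ j = 0) ↔ (φ j = M) := by
      rw [hiM]
      constructor
      · intro h; omega
      · intro h; omega
    simp only [h4]
  have h5 : ∫ α in (0 : ℝ)..1, ‖TS S c φ α‖ ^ 2 = ∑ M ∈ S.image φ, ‖∑ i ∈ S.filter (fun i => φ i = M), c i‖ ^ 2 := by
    exact_mod_cast h1
  rw [h5, ← sum_filter_add_sum_filter_not U (fun M => M ∈ S.image φ)]
  have h6 : ∑ M ∈ U.filter (fun M => ¬ M ∈ S.image φ), ‖∑ i ∈ S.filter (fun i => φ i = M), c i‖ ^ 2 = 0 := by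
    apply sum_eq_zero
    intro M hM
    have h7 : S.filter (fun i => φ i = M) = ∅ := by
      rw [filter_eq_empty_iff]
      intro i hi h
      exact (mem_filter.1 hM).2 (mem_image.2 ⟨i, hi, h⟩)
    rw [h7]
    simp
  rw [h6, add_zero]
  apply sum_le_sum_of_subset_of_nonneg
  · intro M hM
    exact (mem_filter.1 hM).2
  · intro M _ _
    positivity

/-- dilations of a periodic function -/
lemma int_dil (f : ℝ → ℝ) (hf : Continuous f) (hp : Function.Periodic f 1) (a : ℤ) (ha : a ≠ 0) :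
    ∫ α in (0 : ℝ)..1, f (a * α) = ∫ α in (0 : ℝ)..1, f α := by
  have ha' : (a : ℝ) ≠ 0 := by exact_mod_cast ha
  rw [intervalIntegral.integral_comp_mul_left f ha', mul_zero, mul_one]
  have h1 := hp.intervalIntegral_add_zsmul_eq a 0 (fun t₁ t₂ => hf.intervalIntegrable t₁ t₂)
  simp only [zero_add, zsmul_eq_mul, mul_one] at h1
  rw [h1, smul_eq_mul, ← mul_assoc, inv_mul_cancel₀ ha', one_mul]

/-- the exponential sum of a set of natural numbers -/
noncomputable def FS (S : Finset ℕ) (w : ℕ → ℂ) (α : ℝ) : ℂ := ∑ n ∈ S, w n * ee (n * α)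

lemma FS_TS (S : Finset ℕ) (w : ℕ → ℂ) (a : ℤ) (α : ℝ) : FS S w (a * α) = TS S w (fun n => a * n) α := by
  unfold FS TS
  apply sum_congr rfl
  intro n _
  congr 2
  push_cast
  ring

lemma FS_cont (S : Finset ℕ) (w : ℕ → ℂ) : Continuous (FS S w) := by
  unfold FS
  exact continuous_finsetSum _ fun i _ => continuous_const.mul (ee_cont.comp (by fun_prop))

lemma FS_per (S : Finset ℕ) (w : ℕ → ℂ) : Function.Periodic (FS S w) 1 := by
  intro α
  unfold FS
  apply sum_congr rfl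
  intro n _
  congr 1
  have h1 : (n : ℝ) * (α + 1) = n * α + ((n : ℤ) : ℝ) := by push_cast; ring
  rw [h1, ee_add_int]

end Pool.Agent.H530.Hz
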