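import Pool.Agent.H530.HzC

/-! The ternary and the binary estimate. -/

set_option autoImplicit false

namespace Pool.Agent.H530.Hz

open Finset Pool.Agent.H807R2.Dav MeasureTheory

lemma TS_shift {ι : Type} (S : Finset ι) (c : ι → ℂ) (φ : ι → ℤ) (N : ℤ) (α : ℝ) :
    TS S c φ α * ee (-(N * α)) = TS S c (fun i => φ i - N) α := by
  unfold TS
  rw [sum_mul]
  apply sum_congr rfl
  intro i _
  rw [mul_assoc, ← ee_add]
  congr 2
  push_cast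
  ring

lemma young3 {u v t ε : ℝ} (hu : 0 ≤ u) (hv : 0 ≤ v) (ht : 0 ≤ t) (hte : t ≤ ε) :
    u * v * t ≤ √ε * (2 / 5 * u ^ (5 / 2 : ℝ) + 2 / 5 * v ^ (5 / 2 : ℝ) + 1 / 5 * t ^ (5 / 2 : ℝ)) := by
  have h1 := Real.geom_mean_le_arith_mean3_weighted (w₁ := 2 / 5) (w₂ := 2 / 5) (w₃ := 1 / 5)
    (p₁ := u ^ (5 / 2 : ℝ)) (p₂ := v ^ (5 / 2 : ℝ)) (p₃ := t ^ (5 / 2 : ℝ)) (by norm_num) (by norm_num) (by norm_num)
    (by positivity) (by positivity) (by positivity) (by norm_num)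
  have e1 : (u ^ (5 / 2 : ℝ)) ^ (2 / 5 : ℝ) = u := by
    rw [← Real.rpow_mul hu]
    norm_num
  have e2 : (v ^ (5 / 2 : ℝ)) ^ (2 / 5 : ℝ) = v := by
    rw [← Real.rpow_mul hv]
    norm_num
  have e3 : (t ^ (5 / 2 : ℝ)) ^ (1 / 5 : ℝ) = √t := by
    rw [← Real.rpow_mul ht, Real.sqrt_eq_rpow]
    norm_num
  rw [e1, e2, e3] at h1
  have h2 : u * v * t ≤ √ε * (u * v * √t) := by
    have h3 : t = √t * √t := (Real.mul_self_sqrt ht).symm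
    have h4 : √t ≤ √ε := Real.sqrt_le_sqrt hte
    calc u * v * t = √t * (u * v * √t) := by
          nth_rewrite 1 [h3]
          ring
      _ ≤ _ := mul_le_mul_of_nonneg_right h4 (by positivity)
  exact h2.trans (mul_le_mul_of_nonneg_left h1 (Real.sqrt_nonneg _))

lemma young3s {u v t ε : ℝ} (hu : 0 ≤ u) (hv : 0 ≤ v) (ht : 0 ≤ t) (h : u ≤ ε ∨ v ≤ ε ∨ t ≤ ε) :
    u * v * t ≤ √ε * (2 / 5 * u ^ (5 / 2 : ℝ) + 2 / 5 * v ^ (5 / 2 : ℝ) + 2 / 5 * t ^ (5 / 2 : ℝ)) := by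
  have hs : 0 ≤ √ε := Real.sqrt_nonneg _
  have p1 : 0 ≤ √ε * u ^ (5 / 2 : ℝ) := by positivity
  have p2 : 0 ≤ √ε * v ^ (5 / 2 : ℝ) := by positivity
  have p3 : 0 ≤ √ε * t ^ (5 / 2 : ℝ) := by positivity
  rcases h with h | h | h
  · have h1 := young3 hv ht hu h
    nlinarith
  · have h1 := young3 hu ht hv h
    nlinarith
  · have h1 := young3 hu hv ht h
    nlinarith

lemma young2 {u v ε : ℝ} (hu : 0 ≤ u) (hv : 0 ≤ v) (hve : v ≤ ε) :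
    (u * v) ^ 2 ≤ ε * (2 / 3 * u ^ (3 : ℝ) + 1 / 3 * v ^ (3 : ℝ)) := by
  have h1 := Real.geom_mean_le_arith_mean2_weighted (w₁ := 2 / 3) (w₂ := 1 / 3)
    (p₁ := u ^ (3 : ℝ)) (p₂ := v ^ (3 : ℝ)) (by norm_num) (by norm_num)
    (by positivity) (by positivity) (by norm_num)
  have e1 : (u ^ (3 : ℝ)) ^ (2 / 3 : ℝ) = u ^ 2 := by
    rw [← Real.rpow_mul hu]
    norm_num
  have e2 : (v ^ (3 : ℝ)) ^ (1 / 3 : ℝ) = v := by
    rw [← Real.rpow_mul hv]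
    norm_num
  rw [e1, e2] at h1
  calc (u * v) ^ 2 = v * (u ^ 2 * v) := by ring
    _ ≤ ε * (u ^ 2 * v) := mul_le_mul_of_nonneg_right hve (by positivity)
    _ ≤ _ := mul_le_mul_of_nonneg_left h1 (hv.trans hve)

lemma young2s {u v ε : ℝ} (hu : 0 ≤ u) (hv : 0 ≤ v) (h : u ≤ ε ∨ v ≤ ε) :
    (u * v) ^ 2 ≤ ε * (2 / 3 * u ^ (3 : ℝ) + 2 / 3 * v ^ (3 : ℝ)) := by
  rcases h with h | h
  · have h1 := young2 hv hu h
    have p1 : 0 ≤ ε * u ^ (3 : ℝ) := mul_nonneg (hu.trans h) (by positivity)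
    have p2 : 0 ≤ ε * v ^ (3 : ℝ) := mul_nonneg (hu.trans h) (by positivity)
    have e : (u * v) ^ 2 = (v * u) ^ 2 := by ring
    rw [e]
    nlinarith
  · have h1 := young2 hu hv h
    have p1 : 0 ≤ ε * u ^ (3 : ℝ) := mul_nonneg (hv.trans h) (by positivity)
    have p2 : 0 ≤ ε * v ^ (3 : ℝ) := mul_nonneg (hv.trans h) (by positivity)
    nlinarith

lemma int_dilp (S : Finset ℕ) (w : ℕ → ℂ) (p : ℝ) (hp : 0 ≤ p) (a : ℤ) (ha : a ≠ 0) :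
    ∫ α in (0 : ℝ)..1, ‖FS S w (a * α)‖ ^ p = ∫ α in (0 : ℝ)..1, ‖FS S w α‖ ^ p := by
  apply int_dil (fun α => ‖FS S w α‖ ^ p) ((FS_cont S w).norm.rpow_const fun _ => Or.inr hp) _ a ha
  intro α
  simp only
  rw [FS_per S w α]

/-- **the ternary estimate** -/
theorem tern {S1 S2 S3 : Finset ℕ} {w1 w2 w3 : ℕ → ℂ} {a1 a2 a3 : ℤ} (h1 : a1 ≠ 0) (h2 : a2 ≠ 0) (h3 : a3 ≠ 0)
    (N : ℤ) {G1 G2 G3 C X ε : ℝ} (hG1 : 0 < G1) (hG2 : 0 < G2) (hG3 : 0 < G3)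
    (r1 : ∫ α in (0 : ℝ)..1, ‖FS S1 w1 α‖ ^ (5 / 2 : ℝ) ≤ C * (G1 ^ (5 / 2 : ℝ) / X))
    (r2 : ∫ α in (0 : ℝ)..1, ‖FS S2 w2 α‖ ^ (5 / 2 : ℝ) ≤ C * (G2 ^ (5 / 2 : ℝ) / X))
    (r3 : ∫ α in (0 : ℝ)..1, ‖FS S3 w3 α‖ ^ (5 / 2 : ℝ) ≤ C * (G3 ^ (5 / 2 : ℝ) / X))
    (hs : (∀ α, ‖FS S1 w1 α‖ ≤ ε * G1) ∨ (∀ α, ‖FS S2 w2 α‖ ≤ ε * G2) ∨ (∀ α, ‖FS S3 w3 α‖ ≤ ε * G3)) :
    ‖∑ t ∈ (S1 ×ˢ (S2 ×ˢ S3)).filter (fun t => a1 * t.1 + (a2 * t.2.1 + a3 * t.2.2) = N),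
      w1 t.1 * (w2 t.2.1 * w3 t.2.2)‖ ≤ √ε * (6 / 5 * C) * (G1 * G2 * G3 / X) := by
  have e1 : ∑ t ∈ (S1 ×ˢ (S2 ×ˢ S3)).filter (fun t => a1 * t.1 + (a2 * t.2.1 + a3 * t.2.2) = N),
      w1 t.1 * (w2 t.2.1 * w3 t.2.2) =
      ∫ α in (0 : ℝ)..1, FS S1 w1 (a1 * α) * (FS S2 w2 (a2 * α) * FS S3 w3 (a3 * α)) * ee (-(N * α)) := by
    have h4 : ∀ α : ℝ, FS S1 w1 (a1 * α) * (FS S2 w2 (a2 * α) * FS S3 w3 (a3 * α)) * ee (-(N * α)) =
        TS (S1 ×ˢ (S2 ×ˢ S3)) (fun t => w1 t.1 * (w2 t.2.1 * w3 t.2.2))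
          (fun t => a1 * t.1 + (a2 * t.2.1 + a3 * t.2.2) - N) α := by
      intro α
      rw [FS_TS, FS_TS, FS_TS, TS_mul, TS_mul, TS_shift]
    simp only [h4]
    rw [int_TS]
    apply sum_congr _ fun _ _ => rfl
    apply filter_congr
    intro t _
    constructor <;> intro h <;> omega
  rw [e1]
  have hc1 : Continuous (fun α : ℝ => ‖FS S1 w1 (a1 * α)‖ ^ (5 / 2 : ℝ)) :=
    ((FS_cont S1 w1).comp (by fun_prop)).norm.rpow_const fun _ => Or.inr (by norm_num)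
  have hc2 : Continuous (fun α : ℝ => ‖FS S2 w2 (a2 * α)‖ ^ (5 / 2 : ℝ)) :=
    ((FS_cont S2 w2).comp (by fun_prop)).norm.rpow_const fun _ => Or.inr (by norm_num)
  have hc3 : Continuous (fun α : ℝ => ‖FS S3 w3 (a3 * α)‖ ^ (5 / 2 : ℝ)) :=
    ((FS_cont S3 w3).comp (by fun_prop)).norm.rpow_const fun _ => Or.inr (by norm_num)
  have hc : Continuous (fun α : ℝ => FS S1 w1 (a1 * α) * (FS S2 w2 (a2 * α) * FS S3 w3 (a3 * α)) * ee (-(N * α))) := by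
    have c1 : Continuous (fun α : ℝ => FS S1 w1 (a1 * α)) := (FS_cont S1 w1).comp (by fun_prop)
    have c2 : Continuous (fun α : ℝ => FS S2 w2 (a2 * α)) := (FS_cont S2 w2).comp (by fun_prop)
    have c3 : Continuous (fun α : ℝ => FS S3 w3 (a3 * α)) := (FS_cont S3 w3).comp (by fun_prop)
    have c4 : Continuous (fun α : ℝ => ee (-(N * α))) := ee_cont.comp (by fun_prop)
    exact (c1.mul (c2.mul c3)).mul c4
  refine (intervalIntegral.norm_integral_le_integral_norm (by norm_num)).trans ?_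
  have hpt : ∀ α : ℝ, ‖FS S1 w1 (a1 * α) * (FS S2 w2 (a2 * α) * FS S3 w3 (a3 * α)) * ee (-(N * α))‖ ≤
      √ε * (G1 * G2 * G3) * (2 / 5 * (‖FS S1 w1 (a1 * α)‖ ^ (5 / 2 : ℝ) / G1 ^ (5 / 2 : ℝ)) +
        2 / 5 * (‖FS S2 w2 (a2 * α)‖ ^ (5 / 2 : ℝ) / G2 ^ (5 / 2 : ℝ)) +
        2 / 5 * (‖FS S3 w3 (a3 * α)‖ ^ (5 / 2 : ℝ) / G3 ^ (5 / 2 : ℝ))) := by
    intro α
    rw [norm_mul, norm_ee, mul_one, norm_mul, norm_mul]
    have y := young3s (u := ‖FS S1 w1 (a1 * α)‖ / G1) (v := ‖FS S2 w2 (a2 * α)‖ / G2)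
      (t := ‖FS S3 w3 (a3 * α)‖ / G3) (ε := ε) (by positivity) (by positivity) (by positivity)
      (by
        rcases hs with hs | hs | hs
        · left
          rw [div_le_iff₀ hG1]
          exact hs _
        · right; left
          rw [div_le_iff₀ hG2]
          exact hs _
        · right; right
          rw [div_le_iff₀ hG3]
          exact hs _)
    rw [Real.div_rpow (norm_nonneg _) hG1.le, Real.div_rpow (norm_nonneg _) hG2.le,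
      Real.div_rpow (norm_nonneg _) hG3.le] at y
    have e2 : ‖FS S1 w1 (a1 * α)‖ * (‖FS S2 w2 (a2 * α)‖ * ‖FS S3 w3 (a3 * α)‖) =
        (G1 * G2 * G3) * (‖FS S1 w1 (a1 * α)‖ / G1 * (‖FS S2 w2 (a2 * α)‖ / G2) * (‖FS S3 w3 (a3 * α)‖ / G3)) := by
      field_simp
    rw [e2]
    calc _ ≤ (G1 * G2 * G3) * _ := mul_le_mul_of_nonneg_left y (by positivity)
      _ = _ := by ring
  have hcr : Continuous (fun α : ℝ => √ε * (G1 * G2 * G3) * (2 / 5 * (‖FS S1 w1 (a1 * α)‖ ^ (5 / 2 : ℝ) / G1 ^ (5 / 2 : ℝ)) +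
        2 / 5 * (‖FS S2 w2 (a2 * α)‖ ^ (5 / 2 : ℝ) / G2 ^ (5 / 2 : ℝ)) +
        2 / 5 * (‖FS S3 w3 (a3 * α)‖ ^ (5 / 2 : ℝ) / G3 ^ (5 / 2 : ℝ)))) := by
    refine continuous_const.mul (((continuous_const.mul ?_).add (continuous_const.mul ?_)).add (continuous_const.mul ?_))
    · exact hc1.div_const _
    · exact hc2.div_const _
    · exact hc3.div_const _
  refine (intervalIntegral.integral_mono_on (by norm_num) (hc.norm.intervalIntegrable _ _)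
    (hcr.intervalIntegrable _ _) (fun α _ => hpt α)).trans ?_
  rw [intervalIntegral.integral_const_mul, intervalIntegral.integral_add, intervalIntegral.integral_add,
    intervalIntegral.integral_const_mul, intervalIntegral.integral_const_mul, intervalIntegral.integral_const_mul,
    intervalIntegral.integral_div, intervalIntegral.integral_div, intervalIntegral.integral_div,
    int_dilp S1 w1 _ (by norm_num) a1 h1, int_dilp S2 w2 _ (by norm_num) a2 h2, int_dilp S3 w3 _ (by norm_num) a3 h3]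
  · have k1 : (∫ α in (0 : ℝ)..1, ‖FS S1 w1 α‖ ^ (5 / 2 : ℝ)) / G1 ^ (5 / 2 : ℝ) ≤ C / X := by
      rw [div_le_iff₀ (by positivity)]
      refine r1.trans (le_of_eq (by ring))
    have k2 : (∫ α in (0 : ℝ)..1, ‖FS S2 w2 α‖ ^ (5 / 2 : ℝ)) / G2 ^ (5 / 2 : ℝ) ≤ C / X := by
      rw [div_le_iff₀ (by positivity)]
      refine r2.trans (le_of_eq (by ring))
    have k3 : (∫ α in (0 : ℝ)..1, ‖FS S3 w3 α‖ ^ (5 / 2 : ℝ)) / G3 ^ (5 / 2 : ℝ) ≤ C / X := by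
      rw [div_le_iff₀ (by positivity)]
      refine r3.trans (le_of_eq (by ring))
    calc _ ≤ √ε * (G1 * G2 * G3) * (2 / 5 * (C / X) + 2 / 5 * (C / X) + 2 / 5 * (C / X)) := by
          apply mul_le_mul_of_nonneg_left _ (by positivity)
          linarith
      _ = _ := by ring
  · exact (continuous_const.mul (hc1.div_const _)).intervalIntegrable _ _
  · exact (continuous_const.mul (hc2.div_const _)).intervalIntegrable _ _
  · exact ((continuous_const.mul (hc1.div_const _)).add (continuous_const.mul (hc2.div_const _))).intervalIntegrable _ _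
  · exact (continuous_const.mul (hc3.div_const _)).intervalIntegrable _ _

/-- **the binary estimate** -/
theorem bin {S1 S2 : Finset ℕ} {w1 w2 : ℕ → ℂ} {a1 a2 : ℤ} (h1 : a1 ≠ 0) (h2 : a2 ≠ 0)
    (U : Finset ℤ) {G1 G2 C X ε : ℝ} (hε : 0 ≤ ε) (hG1 : 0 < G1) (hG2 : 0 < G2)
    (r1 : ∫ α in (0 : ℝ)..1, ‖FS S1 w1 α‖ ^ (3 : ℝ) ≤ C * (G1 ^ (3 : ℝ) / X))
    (r2 : ∫ α in (0 : ℝ)..1, ‖FS S2 w2 α‖ ^ (3 : ℝ) ≤ C * (G2 ^ (3 : ℝ) / X))
    (hs : (∀ α, ‖FS S1 w1 α‖ ≤ ε * G1) ∨ (∀ α, ‖FS S2 w2 α‖ ≤ ε * G2)) :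
    ∑ M ∈ U, ‖∑ t ∈ (S1 ×ˢ S2).filter (fun t => a1 * t.1 + a2 * t.2 = M), w1 t.1 * w2 t.2‖ ^ 2 ≤
      ε * (4 / 3 * C) * ((G1 * G2) ^ 2 / X) := by
  refine (parseval (S1 ×ˢ S2) (fun t => w1 t.1 * w2 t.2) (fun t => a1 * t.1 + a2 * t.2) U).trans ?_
  have e1 : ∀ α : ℝ, TS (S1 ×ˢ S2) (fun t => w1 t.1 * w2 t.2) (fun t => a1 * t.1 + a2 * t.2) α =
      FS S1 w1 (a1 * α) * FS S2 w2 (a2 * α) := by
    intro α
    rw [FS_TS, FS_TS, TS_mul]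
  have hc1 : Continuous (fun α : ℝ => ‖FS S1 w1 (a1 * α)‖ ^ (3 : ℝ)) :=
    ((FS_cont S1 w1).comp (by fun_prop)).norm.rpow_const fun _ => Or.inr (by norm_num)
  have hc2 : Continuous (fun α : ℝ => ‖FS S2 w2 (a2 * α)‖ ^ (3 : ℝ)) :=
    ((FS_cont S2 w2).comp (by fun_prop)).norm.rpow_const fun _ => Or.inr (by norm_num)
  have hpt : ∀ α : ℝ, ‖TS (S1 ×ˢ S2) (fun t => w1 t.1 * w2 t.2) (fun t => a1 * t.1 + a2 * t.2) α‖ ^ 2 ≤
      ε * (G1 * G2) ^ 2 * (2 / 3 * (‖FS S1 w1 (a1 * α)‖ ^ (3 : ℝ) / G1 ^ (3 : ℝ)) +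
        2 / 3 * (‖FS S2 w2 (a2 * α)‖ ^ (3 : ℝ) / G2 ^ (3 : ℝ))) := by
    intro α
    rw [e1, norm_mul]
    have y := young2s (u := ‖FS S1 w1 (a1 * α)‖ / G1) (v := ‖FS S2 w2 (a2 * α)‖ / G2) (ε := ε)
      (by positivity) (by positivity) (by
        rcases hs with hs | hs
        · left
          rw [div_le_iff₀ hG1]
          exact hs _
        · right
          rw [div_le_iff₀ hG2]
          exact hs _)
    rw [Real.div_rpow (norm_nonneg _) hG1.le, Real.div_rpow (norm_nonneg _) hG2.le] at y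
    have e2 : (‖FS S1 w1 (a1 * α)‖ * ‖FS S2 w2 (a2 * α)‖) ^ 2 =
        (G1 * G2) ^ 2 * (‖FS S1 w1 (a1 * α)‖ / G1 * (‖FS S2 w2 (a2 * α)‖ / G2)) ^ 2 := by
      field_simp
    rw [e2]
    calc _ ≤ (G1 * G2) ^ 2 * _ := mul_le_mul_of_nonneg_left y (by positivity)
      _ = _ := by ring
  have hcr : Continuous (fun α : ℝ => ε * (G1 * G2) ^ 2 * (2 / 3 * (‖FS S1 w1 (a1 * α)‖ ^ (3 : ℝ) / G1 ^ (3 : ℝ)) +
        2 / 3 * (‖FS S2 w2 (a2 * α)‖ ^ (3 : ℝ) / G2 ^ (3 : ℝ)))) := by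
    refine continuous_const.mul ((continuous_const.mul ?_).add (continuous_const.mul ?_))
    · exact hc1.div_const _
    · exact hc2.div_const _
  refine (intervalIntegral.integral_mono_on (by norm_num) (((TS_cont _ _ _).norm.pow 2).intervalIntegrable _ _)
    (hcr.intervalIntegrable _ _) (fun α _ => hpt α)).trans ?_
  rw [intervalIntegral.integral_const_mul, intervalIntegral.integral_add,
    intervalIntegral.integral_const_mul, intervalIntegral.integral_const_mul,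
    intervalIntegral.integral_div, intervalIntegral.integral_div,
    int_dilp S1 w1 _ (by norm_num) a1 h1, int_dilp S2 w2 _ (by norm_num) a2 h2]
  · have k1 : (∫ α in (0 : ℝ)..1, ‖FS S1 w1 α‖ ^ (3 : ℝ)) / G1 ^ (3 : ℝ) ≤ C / X := by
      rw [div_le_iff₀ (by positivity)]
      refine r1.trans (le_of_eq (by ring))
    have k2 : (∫ α in (0 : ℝ)..1, ‖FS S2 w2 α‖ ^ (3 : ℝ)) / G2 ^ (3 : ℝ) ≤ C / X := by
      rw [div_le_iff₀ (by positivity)]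
      refine r2.trans (le_of_eq (by ring))
    calc _ ≤ ε * (G1 * G2) ^ 2 * (2 / 3 * (C / X) + 2 / 3 * (C / X)) := by
          apply mul_le_mul_of_nonneg_left _ (by positivity)
          linarith
      _ = _ := by ring
  · exact (continuous_const.mul (hc1.div_const _)).intervalIntegrable _ _
  · exact (continuous_const.mul (hc2.div_const _)).intervalIntegrable _ _

end Pool.Agent.H530.Hz
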