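import Pool.Agent.H530.HzD
import Pool.Graph.R_pool_sql_team_seeded_35f281b4.K7.H64.LS.Restr

/-! The restriction theorem for the sifted sets. -/

set_option autoImplicit false

namespace Pool.Agent.H530.Hz

open Finset Pool.Agent.H807R2.Dav MeasureTheory Pool.Agent.H530.Ha
open Pool.Agent.H373R2.T7 hiding RQ

lemma ee_eq (x : ℝ) : Pool.Agent.Helper112.ee x = ee x := by
  unfold Pool.Agent.Helper112.ee ee
  congr 1
  ring

open Classical in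
/-- the sieve as a family of sets -/
noncomputable def Zf (Q : ℕ → ℕ → Prop) (y q : ℕ) : Finset ℕ := if q ≤ y then (range q).filter (fun r => Q q r) else ∅

lemma Zf_card_le (Q : ℕ → ℕ → Prop) (y q : ℕ) : (Zf Q y q).card ≤ nuB Q q := by
  classical
  unfold Zf nuB
  split_ifs
  · apply le_of_eq
    congr 1
  · simp

lemma VV_eq (Q : ℕ → ℕ → Prop) {X y : ℕ} (hyX : y ≤ X) :
    Pool.Agent.Y843.HS.VV (Zf Q y) 0 X = ∏ p ∈ pz y, (1 - (nuB Q p : ℝ) / p) := by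
  classical
  unfold Pool.Agent.Y843.HS.VV
  symm
  apply prod_subset_one_on_sdiff
  · intro p hp
    have := mem_pz.1 hp
    unfold Pool.Agent.Y843.HS.Pr
    rw [mem_filter, mem_Ioc]
    exact ⟨⟨this.2.pos, by omega⟩, this.2⟩
  · intro p hp
    rw [mem_sdiff] at hp
    unfold Pool.Agent.Y843.HS.Pr at hp
    rw [mem_filter, mem_Ioc, mem_pz] at hp
    have h1 : ¬ p ≤ y := fun h => hp.2 ⟨h, hp.1.2⟩
    unfold Zf
    rw [if_neg h1]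
    simp
  · intro p hp
    have h1 := (mem_pz.1 hp).1
    unfold Zf nuB
    rw [if_pos h1]

/-- **restriction for the sifted sets** -/
theorem restr_RQ (k : ℕ) (hk : 1 ≤ k) {p : ℝ} (hp : 2 < p) : ∃ C : ℝ, 0 < C ∧ ∃ K : ℕ, 1 ≤ K ∧ ∃ X0 y0 : ℕ,
    ∀ Q : ℕ → ℕ → Prop, Sv k Q → ∀ X y : ℕ, X0 ≤ X → y0 ≤ y → y ^ K ≤ X → ∀ w : ℕ → ℂ,
      ∫ α in (0 : ℝ)..1, ‖FS (RQ Q X y) w α‖ ^ p ≤
        C * ((((RQ Q X y).card : ℝ) * ∑ n ∈ RQ Q X y, ‖w n‖ ^ 2) ^ (p / 2) / X) := by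
  classical
  obtain ⟨C, hC, H⟩ := Pool.Agent.K7.H64.LS.restr k (κ := 1) one_pos hp
  obtain ⟨c, hc, H3⟩ := all_F k hk
  obtain ⟨K3, hK3, H3⟩ := H3 (1 / 2) (by norm_num)
  obtain ⟨X3, y3, H3⟩ := H3 0
  refine ⟨C * 2 ^ (p / 2), by positivity, K3, hK3, X3 + 1, y3 + 1, ?_⟩
  intro Q hQ X y hX hy hyX w
  obtain ⟨_, h2, _⟩ := H3 Q hQ X y (by omega) (by omega) hyX
  have hXr : (1 : ℝ) ≤ X := by exact_mod_cast (by omega : 1 ≤ X)
  have hX0 : (0 : ℝ) < X := by linarith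
  have hyX' : y ≤ X := (Nat.le_self_pow (by omega) y).trans hyX
  obtain ⟨G, hG⟩ : ∃ G : ℝ, G = ((RQ Q X y).card : ℝ) := ⟨_, rfl⟩
  obtain ⟨V, hV⟩ : ∃ V : ℝ, V = ∏ p ∈ pz y, (1 - (nuB Q p : ℝ) / p) := ⟨_, rfl⟩
  rw [← hG, ← hV] at h2
  have hG0 : 0 ≤ G := by rw [hG]; exact Nat.cast_nonneg _
  have hV0 : 0 ≤ V := by
    rw [hV]
    apply prod_nonneg
    intro q hq
    have h1 := hQ.lt q (mem_pz.1 hq).2
    have hq0 : (0 : ℝ) < q := by exact_mod_cast (mem_pz.1 hq).2.pos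
    have h3 : (nuB Q q : ℝ) ≤ q := by exact_mod_cast (by omega : nuB Q q ≤ q)
    rw [sub_nonneg, div_le_one hq0]
    exact h3
  have hVG : V ≤ 2 * G / X := by
    rw [le_div_iff₀ hX0]
    have := (abs_le.1 h2).1
    nlinarith
  have h4 := H X (by omega) 0 (Zf Q y) (by
    intro q hq _
    refine ⟨(Zf_card_le Q y q).trans (hQ.le q hq), ?_, ?_⟩
    · have h1 := Zf_card_le Q y q
      have h2 := hQ.lt q hq
      omega
    · intro c hc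
      unfold Zf at hc
      split_ifs at hc
      · exact mem_range.1 (mem_filter.1 hc).1
      · simp at hc) (RQ Q X y) (by
    intro n hn
    have := (mem_RQ.1 hn).1
    rw [mem_Ioc]
    omega) (by
    intro n hn q hq _ hm
    unfold Zf at hm
    split_ifs at hm with hqy
    · have h1 := (mem_filter.1 hm).2
      exact (mem_RQ.1 hn).2 q (mem_pz.2 ⟨hqy, hq⟩) ((hQ.per q n).2 h1)
    · simp at hm) w
  have e1 : ⌊(X : ℝ) ^ (1 : ℝ)⌋₊ = X := by rw [Real.rpow_one, Nat.floor_natCast]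
  rw [e1, VV_eq Q hyX', ← hV] at h4
  have e2 : ∀ α : ℝ, ‖FS (RQ Q X y) w α‖ = ‖∑ n ∈ RQ Q X y, w n * Pool.Agent.Helper112.ee (n * α)‖ := by
    intro α
    unfold FS
    simp only [ee_eq]
  simp only [e2]
  refine h4.trans ?_
  obtain ⟨W, hW⟩ : ∃ W : ℝ, W = ∑ n ∈ RQ Q X y, ‖w n‖ ^ 2 := ⟨_, rfl⟩
  have hW0 : 0 ≤ W := by rw [hW]; exact sum_nonneg fun i _ => by positivity
  rw [← hG, ← hW]
  have hp2 : 0 < p / 2 := by linarith
  have k1 : V ^ (p / 2) ≤ (2 * G / X) ^ (p / 2) := Real.rpow_le_rpow hV0 hVG hp2.le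
  have k2 : (2 * G / X) ^ (p / 2) = 2 ^ (p / 2) * G ^ (p / 2) / (X : ℝ) ^ (p / 2) := by
    rw [Real.div_rpow (by positivity) hX0.le, Real.mul_rpow (by norm_num) hG0]
  rw [k2] at k1
  have k3 : (X : ℝ) ^ (p / 2 - 1) = (X : ℝ) ^ (p / 2) / X := by
    rw [Real.rpow_sub hX0, Real.rpow_one]
  rw [k3, Real.mul_rpow hG0 hW0]
  have hXp : 0 < (X : ℝ) ^ (p / 2) := by positivity
  calc C * ((X : ℝ) ^ (p / 2) / X * V ^ (p / 2) * W ^ (p / 2))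
      ≤ C * ((X : ℝ) ^ (p / 2) / X * (2 ^ (p / 2) * G ^ (p / 2) / (X : ℝ) ^ (p / 2)) * W ^ (p / 2)) := by
        apply mul_le_mul_of_nonneg_left _ hC.le
        apply mul_le_mul_of_nonneg_right _ (by positivity)
        exact mul_le_mul_of_nonneg_left k1 (by positivity)
    _ = _ := by
        field_simp

/-- bounded coefficients -/
theorem restr_one (k : ℕ) (hk : 1 ≤ k) {p : ℝ} (hp : 2 < p) : ∃ C : ℝ, 0 < C ∧ ∃ K : ℕ, 1 ≤ K ∧ ∃ X0 y0 : ℕ,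
    ∀ Q : ℕ → ℕ → Prop, Sv k Q → ∀ X y : ℕ, X0 ≤ X → y0 ≤ y → y ^ K ≤ X → ∀ w : ℕ → ℂ,
      (∀ n ∈ RQ Q X y, ‖w n‖ ≤ 1) →
      ∫ α in (0 : ℝ)..1, ‖FS (RQ Q X y) w α‖ ^ p ≤ C * (((RQ Q X y).card : ℝ) ^ p / X) := by
  obtain ⟨C, hC, K, hK, X0, y0, H⟩ := restr_RQ k hk hp
  refine ⟨C, hC, K, hK, X0, y0, ?_⟩
  intro Q hQ X y hX hy hyX w hw
  refine (H Q hQ X y hX hy hyX w).trans ?_
  apply mul_le_mul_of_nonneg_left _ hC.le
  apply div_le_div_of_nonneg_right _ (Nat.cast_nonneg _)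
  obtain ⟨G, hG⟩ : ∃ G : ℝ, G = ((RQ Q X y).card : ℝ) := ⟨_, rfl⟩
  have hG0 : 0 ≤ G := by rw [hG]; exact Nat.cast_nonneg _
  have h1 : ∑ n ∈ RQ Q X y, ‖w n‖ ^ 2 ≤ G := by
    calc ∑ n ∈ RQ Q X y, ‖w n‖ ^ 2 ≤ ∑ n ∈ RQ Q X y, (1 : ℝ) := by
          apply sum_le_sum
          intro n hn
          exact pow_le_one₀ (norm_nonneg _) (hw n hn)
      _ = G := by rw [sum_const, nsmul_eq_mul, mul_one, hG]
  rw [← hG]
  have h2 : 0 ≤ ∑ n ∈ RQ Q X y, ‖w n‖ ^ 2 := sum_nonneg fun i _ => by positivity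
  calc (G * ∑ n ∈ RQ Q X y, ‖w n‖ ^ 2) ^ (p / 2) ≤ (G * G) ^ (p / 2) := by
        apply Real.rpow_le_rpow (by positivity) _ (by linarith)
        exact mul_le_mul_of_nonneg_left h1 hG0
    _ = G ^ p := by
        rw [← sq, ← Real.rpow_natCast G 2, ← Real.rpow_mul hG0]
        congr 1
        push_cast
        ring

end Pool.Agent.H530.Hz
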