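import Pool.Agent.H530.HzE

/-! The ternary and the binary estimate for the sifted sets: arbitrary weights, one Liouville factor. -/

set_option autoImplicit false

namespace Pool.Agent.H530.Hz

open Finset Pool.Agent.H807R2.Dav MeasureTheory Pool.Agent.H530.Ha
open Pool.Agent.H373R2.T7 hiding RQ

lemma lz_abs (m : ℤ) : |lz m| ≤ 1 := by
  unfold lz
  exact la_abs _

lemma sqrt_pow_half {m : ℕ} {e : ℝ} (he : e ≤ 9 * (1 / 2 : ℝ) ^ m) : √e ≤ 3 * (1 / 2 : ℝ) ^ (m / 2) := by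
  apply Real.sqrt_le_iff.2
  refine ⟨by positivity, he.trans ?_⟩
  have h1 : (1 / 2 : ℝ) ^ m ≤ (1 / 2 : ℝ) ^ (m / 2 * 2) :=
    pow_le_pow_of_le_one (by norm_num) (by norm_num) (Nat.div_mul_le_self m 2)
  rw [mul_pow, ← pow_mul]
  linarith

/-- the weight is a shifted Liouville function -/
def Lw (X B' : ℕ) (w : ℕ → ℂ) : Prop :=
  ∃ b : ℤ, |(b : ℝ)| ≤ X * Real.log X ^ B' ∧ ∀ n : ℕ, w n = ((lz ((n : ℤ) + b) : ℝ) : ℂ)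

/-- common data -/
lemma data (k : ℕ) (hk : 1 ≤ k) {p : ℝ} (hp : 2 < p) : ∃ A : ℕ, 1 ≤ A ∧ ∃ C : ℝ, 0 < C ∧ ∀ K : ℕ, A ≤ K →
    ∀ B' : ℕ, ∃ X0 y0 : ℕ, ∀ Q : ℕ → ℕ → Prop, Sv k Q → ∀ X y : ℕ, X0 ≤ X → y0 ≤ y → y ^ K ≤ X →
      1 ≤ X ∧ 1 ≤ (RQ Q X y).card ∧
      (∀ w : ℕ → ℂ, (∀ n ∈ RQ Q X y, ‖w n‖ ≤ 1) →
        ∫ α in (0 : ℝ)..1, ‖FS (RQ Q X y) w α‖ ^ p ≤ C * (((RQ Q X y).card : ℝ) ^ p / X)) ∧
      ∀ w : ℕ → ℂ, Lw X B' w → ∀ α : ℝ, ‖FS (RQ Q X y) w α‖ ≤ 9 * (1 / 2 : ℝ) ^ (K / A) * (RQ Q X y).card := by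
  obtain ⟨A0, hA0, H0⟩ := all_Z k hk
  obtain ⟨C, hC, K1, hK1, X1, y1, H1⟩ := restr_one k hk hp
  obtain ⟨c, hc, H3⟩ := all_F k hk
  obtain ⟨K3, hK3, H3⟩ := H3 1 one_pos
  refine ⟨A0 + K1 + K3, by omega, C, hC, fun K hK B' => ?_⟩
  obtain ⟨X2, y2, H0⟩ := H0 K (by omega) B'
  obtain ⟨X3, y3, H3⟩ := H3 0
  refine ⟨X1 + X2 + X3 + 3, y1 + y2 + y3 + 1, ?_⟩
  intro Q hQ X y hX hy hyX
  obtain ⟨h3, _, _⟩ := H3 Q hQ X y (by omega) (by omega) ((Nat.pow_le_pow_right (by omega) (by omega)).trans hyX)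
  refine ⟨by omega, ?_, ?_, ?_⟩
  · have hXr : (1 : ℝ) < X := by exact_mod_cast (by omega : 1 < X)
    have h4 : 0 < c * (X / Real.log X ^ k) := by
      have := Real.log_pos hXr
      positivity
    have h5 : (0 : ℝ) < (RQ Q X y).card := lt_of_lt_of_le h4 h3
    exact_mod_cast h5
  · intro w hw
    exact H1 Q hQ X y (by omega) (by omega) ((Nat.pow_le_pow_right (by omega) (by omega)).trans hyX) w hw
  · rintro w ⟨b, hb, hw⟩ α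
    have h5 := H0 Q hQ X y (by omega) (by omega) hyX b hb α
    unfold FS
    simp only [hw]
    refine h5.trans ?_
    apply mul_le_mul_of_nonneg_right _ (Nat.cast_nonneg _)
    apply mul_le_mul_of_nonneg_left _ (by norm_num)
    apply pow_le_pow_of_le_one (by norm_num) (by norm_num)
    exact Nat.div_le_div_left (by omega) (by omega)

/-- **the ternary estimate, arbitrary weights** -/
theorem tern_RQ (k : ℕ) (hk : 1 ≤ k) : ∃ A : ℕ, 1 ≤ A ∧ ∀ K : ℕ, A ≤ K →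
    ∀ B' : ℕ, ∃ X0 y0 : ℕ, ∀ Q1 Q2 Q3 : ℕ → ℕ → Prop, Sv k Q1 → Sv k Q2 → Sv k Q3 →
      ∀ X y : ℕ, X0 ≤ X → y0 ≤ y → y ^ K ≤ X → ∀ a1 a2 a3 : ℤ, a1 ≠ 0 → a2 ≠ 0 → a3 ≠ 0 → ∀ N : ℤ,
      ∀ w1 w2 w3 : ℕ → ℂ, (∀ n, ‖w1 n‖ ≤ 1) → (∀ n, ‖w2 n‖ ≤ 1) → (∀ n, ‖w3 n‖ ≤ 1) →
      (Lw X B' w1 ∨ Lw X B' w2 ∨ Lw X B' w3) →
        ‖∑ t ∈ (RQ Q1 X y ×ˢ (RQ Q2 X y ×ˢ RQ Q3 X y)).filter
            (fun t => a1 * t.1 + (a2 * t.2.1 + a3 * t.2.2) = N),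
          w1 t.1 * (w2 t.2.1 * w3 t.2.2)‖ ≤
          A * (1 / 2 : ℝ) ^ (K / A) *
            (((RQ Q1 X y).card : ℝ) * (RQ Q2 X y).card * (RQ Q3 X y).card / X) := by
  obtain ⟨A0, hA0, C, hC, H⟩ := data k hk (p := 5 / 2) (by norm_num)
  refine ⟨2 * A0 + ⌈18 / 5 * C⌉₊, by omega, fun K hK B' => ?_⟩
  obtain ⟨X0, y0, H⟩ := H K (by omega) B'
  refine ⟨X0, y0, ?_⟩
  intro Q1 Q2 Q3 hQ1 hQ2 hQ3 X y hX hy hyX a1 a2 a3 ha1 ha2 ha3 N w1 w2 w3 hw1 hw2 hw3 hL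
  obtain ⟨hX1, g1, p1, f1⟩ := H Q1 hQ1 X y hX hy hyX
  obtain ⟨_, g2, p2, f2⟩ := H Q2 hQ2 X y hX hy hyX
  obtain ⟨_, g3, p3, f3⟩ := H Q3 hQ3 X y hX hy hyX
  have g1' : (0 : ℝ) < (RQ Q1 X y).card := by exact_mod_cast (by omega : 0 < (RQ Q1 X y).card)
  have g2' : (0 : ℝ) < (RQ Q2 X y).card := by exact_mod_cast (by omega : 0 < (RQ Q2 X y).card)
  have g3' : (0 : ℝ) < (RQ Q3 X y).card := by exact_mod_cast (by omega : 0 < (RQ Q3 X y).card)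
  have h1 := tern (w1 := w1) (w2 := w2) (w3 := w3) (ε := 9 * (1 / 2 : ℝ) ^ (K / A0)) ha1 ha2 ha3 N
    g1' g2' g3' (p1 w1 fun n _ => hw1 n) (p2 w2 fun n _ => hw2 n) (p3 w3 fun n _ => hw3 n) (by
      rcases hL with h | h | h
      · exact Or.inl (f1 w1 h)
      · exact Or.inr (Or.inl (f2 w2 h))
      · exact Or.inr (Or.inr (f3 w3 h)))
  refine h1.trans ?_
  have hXr : (1 : ℝ) ≤ X := by exact_mod_cast hX1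
  apply mul_le_mul_of_nonneg_right _ (by positivity)
  have h2 := sqrt_pow_half (le_refl (9 * (1 / 2 : ℝ) ^ (K / A0)))
  rw [Nat.div_div_eq_div_mul] at h2
  have h3 : (1 / 2 : ℝ) ^ (K / (A0 * 2)) ≤ (1 / 2 : ℝ) ^ (K / (2 * A0 + ⌈18 / 5 * C⌉₊)) := by
    apply pow_le_pow_of_le_one (by norm_num) (by norm_num)
    exact Nat.div_le_div_left (by omega) (by omega)
  have h4 : 18 / 5 * C ≤ ((2 * A0 + ⌈18 / 5 * C⌉₊ : ℕ) : ℝ) := by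
    refine (Nat.le_ceil _).trans ?_
    exact_mod_cast Nat.le_add_left _ _
  calc √(9 * (1 / 2 : ℝ) ^ (K / A0)) * (6 / 5 * C) ≤ 3 * (1 / 2 : ℝ) ^ (K / (A0 * 2)) * (6 / 5 * C) :=
        mul_le_mul_of_nonneg_right h2 (by positivity)
    _ ≤ 3 * (1 / 2 : ℝ) ^ (K / (2 * A0 + ⌈18 / 5 * C⌉₊)) * (6 / 5 * C) := by
        apply mul_le_mul_of_nonneg_right _ (by positivity)
        linarith
    _ = 18 / 5 * C * (1 / 2 : ℝ) ^ (K / (2 * A0 + ⌈18 / 5 * C⌉₊)) := by ring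
    _ ≤ _ := mul_le_mul_of_nonneg_right h4 (by positivity)

/-- **the binary estimate, arbitrary weights** -/
theorem bin_RQ (k : ℕ) (hk : 1 ≤ k) : ∃ A : ℕ, 1 ≤ A ∧ ∀ K : ℕ, A ≤ K →
    ∀ B' : ℕ, ∃ X0 y0 : ℕ, ∀ Q1 Q2 : ℕ → ℕ → Prop, Sv k Q1 → Sv k Q2 →
      ∀ X y : ℕ, X0 ≤ X → y0 ≤ y → y ^ K ≤ X → ∀ a1 a2 : ℤ, a1 ≠ 0 → a2 ≠ 0 →
      ∀ w1 w2 : ℕ → ℂ, (∀ n, ‖w1 n‖ ≤ 1) → (∀ n, ‖w2 n‖ ≤ 1) → (Lw X B' w1 ∨ Lw X B' w2) → ∀ U : Finset ℤ,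
        ∑ M ∈ U, ‖∑ t ∈ (RQ Q1 X y ×ˢ RQ Q2 X y).filter (fun t => a1 * t.1 + a2 * t.2 = M),
          w1 t.1 * w2 t.2‖ ^ 2 ≤
          A * (1 / 2 : ℝ) ^ (K / A) *
            ((((RQ Q1 X y).card : ℝ) * (RQ Q2 X y).card) ^ 2 / X) := by
  obtain ⟨A0, hA0, C, hC, H⟩ := data k hk (p := 3) (by norm_num)
  refine ⟨A0 + ⌈12 * C⌉₊, by omega, fun K hK B' => ?_⟩
  obtain ⟨X0, y0, H⟩ := H K (by omega) B'
  refine ⟨X0, y0, ?_⟩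
  intro Q1 Q2 hQ1 hQ2 X y hX hy hyX a1 a2 ha1 ha2 w1 w2 hw1 hw2 hL U
  obtain ⟨hX1, g1, p1, f1⟩ := H Q1 hQ1 X y hX hy hyX
  obtain ⟨_, g2, p2, f2⟩ := H Q2 hQ2 X y hX hy hyX
  have g1' : (0 : ℝ) < (RQ Q1 X y).card := by exact_mod_cast (by omega : 0 < (RQ Q1 X y).card)
  have g2' : (0 : ℝ) < (RQ Q2 X y).card := by exact_mod_cast (by omega : 0 < (RQ Q2 X y).card)
  have h1 := bin (w1 := w1) (w2 := w2) (ε := 9 * (1 / 2 : ℝ) ^ (K / A0)) ha1 ha2 U (by positivity)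
    g1' g2' (p1 w1 fun n _ => hw1 n) (p2 w2 fun n _ => hw2 n) (by
      rcases hL with h | h
      · exact Or.inl (f1 w1 h)
      · exact Or.inr (f2 w2 h))
  refine h1.trans ?_
  have hXr : (1 : ℝ) ≤ X := by exact_mod_cast hX1
  apply mul_le_mul_of_nonneg_right _ (by positivity)
  have h3 : (1 / 2 : ℝ) ^ (K / A0) ≤ (1 / 2 : ℝ) ^ (K / (A0 + ⌈12 * C⌉₊)) := by
    apply pow_le_pow_of_le_one (by norm_num) (by norm_num)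
    exact Nat.div_le_div_left (by omega) (by omega)
  have h4 : 12 * C ≤ ((A0 + ⌈12 * C⌉₊ : ℕ) : ℝ) := by
    refine (Nat.le_ceil _).trans ?_
    exact_mod_cast Nat.le_add_left _ _
  calc 9 * (1 / 2 : ℝ) ^ (K / A0) * (4 / 3 * C) ≤ 9 * (1 / 2 : ℝ) ^ (K / (A0 + ⌈12 * C⌉₊)) * (4 / 3 * C) := by
        apply mul_le_mul_of_nonneg_right _ (by positivity)
        linarith
    _ = 12 * C * (1 / 2 : ℝ) ^ (K / (A0 + ⌈12 * C⌉₊)) := by ring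
    _ ≤ _ := mul_le_mul_of_nonneg_right h4 (by positivity)

end Pool.Agent.H530.Hz
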