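import Pool.Agent.H530.HzF

/-! Two sieves at once. -/

set_option autoImplicit false

namespace Pool.Agent.H530.Hz

open Finset Pool.Agent.H530.Ha
open Pool.Agent.H373R2.T7 hiding RQ

/-- the density of the sieve -/
noncomputable def VQ (Q : ℕ → ℕ → Prop) (y : ℕ) : ℝ := ∏ p ∈ pz y, (1 - (nuB Q p : ℝ) / p)

/-- both sieves -/
def Qor (Q Q' : ℕ → ℕ → Prop) (p n : ℕ) : Prop := Q p n ∨ Q' p n

lemma nuB_or (Q Q' : ℕ → ℕ → Prop) (p : ℕ) : nuB (Qor Q Q') p ≤ nuB Q p + nuB Q' p := by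
  classical
  have h : (range p).filter (fun r => Qor Q Q' p r) ⊆ (range p).filter (fun r => Q p r) ∪ (range p).filter (fun r => Q' p r) := by
    intro r hr
    rw [mem_filter] at hr
    rw [mem_union, mem_filter, mem_filter]
    rcases hr.2 with h | h
    · exact Or.inl ⟨hr.1, h⟩
    · exact Or.inr ⟨hr.1, h⟩
  have h2 := (card_le_card h).trans (card_union_le _ _)
  unfold nuB
  convert h2

lemma nuB_lt {Q : ℕ → ℕ → Prop} (hper : ∀ p n, Q p n ↔ Q p (n % p)) {p : ℕ} (hp : p.Prime) (h : ∃ n, ¬ Q p n) :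
    nuB Q p + 1 ≤ p := by
  classical
  obtain ⟨n, hn⟩ := h
  have h1 : (range p).filter (fun r => Q p r) ⊂ range p := by
    rw [ssubset_iff_of_subset (filter_subset _ _)]
    refine ⟨n % p, mem_range.2 (Nat.mod_lt _ hp.pos), fun h2 => hn ?_⟩
    rw [hper p n]
    exact (mem_filter.1 h2).2
  have h2 := card_lt_card h1
  rw [card_range] at h2
  have h3 : nuB Q p = ((range p).filter (fun r => Q p r)).card := by
    unfold nuB
    congr 1
  omega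

lemma sv_or {k l : ℕ} {Q Q' : ℕ → ℕ → Prop} (hQ : Sv k Q) (hQ' : Sv l Q')
    (h : ∀ p : ℕ, p.Prime → ∃ n, ¬ Q p n ∧ ¬ Q' p n) : Sv (k + l) (Qor Q Q') where
  per := fun p n => by
    unfold Qor
    rw [hQ.per p n, hQ'.per p n]
  le := fun p hp => (nuB_or Q Q' p).trans (add_le_add (hQ.le p hp) (hQ'.le p hp))
  lt := fun p hp => by
    apply nuB_lt _ hp
    · obtain ⟨n, h1, h2⟩ := h p hp
      exact ⟨n, fun h3 => h3.elim h1 h2⟩
    · intro p n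
      unfold Qor
      rw [hQ.per p n, hQ'.per p n]

lemma prod_ge (S : Finset ℕ) (f : ℕ → ℝ) (h : ∀ i ∈ S, 0 ≤ f i ∧ f i ≤ 1) :
    1 - ∑ i ∈ S, f i ≤ ∏ i ∈ S, (1 - f i) ∧ ∏ i ∈ S, (1 - f i) ≤ 1 := by
  classical
  induction S using Finset.induction_on with
  | empty => simp
  | insert a s ha ih =>
    have h1 := ih fun i hi => h i (mem_insert_of_mem hi)
    obtain ⟨h2, h3⟩ := h a (mem_insert_self _ _)
    rw [sum_insert ha, prod_insert ha]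
    have hp0 : 0 ≤ ∏ i ∈ s, (1 - f i) := prod_nonneg fun i hi => by linarith [(h i (mem_insert_of_mem hi)).2]
    have hs0 : 0 ≤ ∑ i ∈ s, f i := sum_nonneg fun i hi => (h i (mem_insert_of_mem hi)).1
    constructor
    · nlinarith [h1.1, h1.2]
    · nlinarith [h1.1, h1.2]

lemma two_le_mul {P : ℝ} {ν1 ν2 p k : ℝ} (hk : 0 ≤ k) (h1 : 0 ≤ ν1) (h2 : 0 ≤ ν2) (h1k : ν1 ≤ k) (h2k : ν2 ≤ k)
    (hp : 4 * k < p) (hP : P ≤ ν1 + ν2) : (1 - 2 * k ^ 2 / p ^ 2) * ((1 - ν1 / p) * (1 - ν2 / p)) ≤ 1 - P / p := by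
  have hp0 : 0 < p := by linarith
  obtain ⟨a, ha⟩ : ∃ a, a = ν1 / p := ⟨_, rfl⟩
  obtain ⟨b, hb⟩ : ∃ b, b = ν2 / p := ⟨_, rfl⟩
  obtain ⟨t, ht⟩ : ∃ t, t = 2 * k ^ 2 / p ^ 2 := ⟨_, rfl⟩
  have ha0 : 0 ≤ a := by rw [ha]; positivity
  have hb0 : 0 ≤ b := by rw [hb]; positivity
  have ha4 : a ≤ 1 / 4 := by rw [ha, div_le_iff₀ hp0]; linarith
  have hb4 : b ≤ 1 / 4 := by rw [hb, div_le_iff₀ hp0]; linarith
  have hab : 2 * (a * b) ≤ t := by
    rw [ha, hb, ht, div_mul_div_comm, ← mul_div_assoc, ← sq p]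
    apply div_le_div_of_nonneg_right _ (by positivity)
    have := mul_le_mul h1k h2k h2 hk
    nlinarith
  have hPp : P / p ≤ a + b := by
    rw [ha, hb, ← add_div]
    exact div_le_div_of_nonneg_right hP hp0.le
  rw [← ha, ← hb, ← ht]
  have h3 : 9 / 16 ≤ (1 - a) * (1 - b) := by nlinarith
  have ht0 : 0 ≤ t := by rw [ht]; positivity
  have h4 : (1 - t) * ((1 - a) * (1 - b)) = (1 - a) * (1 - b) - t * ((1 - a) * (1 - b)) := by ring
  have h5 : t * (9 / 16) ≤ t * ((1 - a) * (1 - b)) := mul_le_mul_of_nonneg_left h3 ht0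
  have h6 : 0 ≤ a * b := mul_nonneg ha0 hb0
  rw [h4]
  nlinarith

theorem V_low (k : ℕ) : ∃ c : ℝ, 0 < c ∧ ∀ Q Q' R : ℕ → ℕ → Prop, Sv k Q → Sv k Q' →
    (∀ p : ℕ, p.Prime → nuB R p + 1 ≤ p) → (∀ p : ℕ, p.Prime → nuB R p ≤ nuB Q p + nuB Q' p) →
    ∀ y : ℕ, c * (VQ Q y * VQ Q' y) ≤ VQ R y := by
  classical
  obtain ⟨P0, hP0⟩ : ∃ P0 : ℕ, P0 = 4 * k ^ 2 + 4 * k + 1 := ⟨_, rfl⟩
  have hP01 : (1 : ℝ) ≤ P0 := by exact_mod_cast (by omega : 1 ≤ P0)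
  refine ⟨(1 / (P0 : ℝ)) ^ P0 * (1 / 2), by positivity, ?_⟩
  intro Q Q' R hQ hQ' hR hle y
  obtain ⟨g, hg⟩ : ∃ g : ℕ → ℝ, g = fun p => if p ≤ P0 then 1 / (P0 : ℝ) else 1 - 2 * (k : ℝ) ^ 2 / (p : ℝ) ^ 2 := ⟨_, rfl⟩
  have hf1 : ∀ p ∈ pz y, 0 ≤ 1 - (nuB Q p : ℝ) / p ∧ 1 - (nuB Q p : ℝ) / p ≤ 1 := by
    intro p hp
    have hp0 : (0 : ℝ) < p := by exact_mod_cast (mem_pz.1 hp).2.pos
    have h1 : (nuB Q p : ℝ) ≤ p := by exact_mod_cast (by have := hQ.lt p (mem_pz.1 hp).2; omega : nuB Q p ≤ p)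
    constructor
    · rw [sub_nonneg, div_le_one hp0]; exact h1
    · have : 0 ≤ (nuB Q p : ℝ) / p := by positivity
      linarith
  have hf2 : ∀ p ∈ pz y, 0 ≤ 1 - (nuB Q' p : ℝ) / p ∧ 1 - (nuB Q' p : ℝ) / p ≤ 1 := by
    intro p hp
    have hp0 : (0 : ℝ) < p := by exact_mod_cast (mem_pz.1 hp).2.pos
    have h1 : (nuB Q' p : ℝ) ≤ p := by exact_mod_cast (by have := hQ'.lt p (mem_pz.1 hp).2; omega : nuB Q' p ≤ p)
    constructor
    · rw [sub_nonneg, div_le_one hp0]; exact h1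
    · have : 0 ≤ (nuB Q' p : ℝ) / p := by positivity
      linarith
  have hbig : ∀ p : ℕ, ¬ p ≤ P0 → 0 ≤ 2 * (k : ℝ) ^ 2 / (p : ℝ) ^ 2 ∧ 2 * (k : ℝ) ^ 2 / (p : ℝ) ^ 2 ≤ 1 := by
    intro p hp
    have h1 : P0 < p := by omega
    refine ⟨by positivity, ?_⟩
    have hp1 : (P0 : ℝ) ≤ p := by exact_mod_cast h1.le
    have hp2 : (0 : ℝ) < (p : ℝ) ^ 2 := by
      have : (0 : ℝ) < p := by linarith
      positivity
    rw [div_le_one hp2]
    have h2 : (P0 : ℝ) = 4 * (k : ℝ) ^ 2 + 4 * k + 1 := by rw [hP0]; push_cast; ring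
    have h3 : 2 * (k : ℝ) ^ 2 ≤ P0 := by rw [h2]; nlinarith [sq_nonneg (k : ℝ), (Nat.cast_nonneg k : (0 : ℝ) ≤ k)]
    have h4 : (p : ℝ) ≤ (p : ℝ) ^ 2 := by nlinarith
    linarith
  have hpt : ∀ p ∈ pz y, g p * ((1 - (nuB Q p : ℝ) / p) * (1 - (nuB Q' p : ℝ) / p)) ≤ 1 - (nuB R p : ℝ) / p := by
    intro p hp
    have hpp := (mem_pz.1 hp).2
    have hp0 : (0 : ℝ) < p := by exact_mod_cast hpp.pos
    rw [hg]
    simp only
    split_ifs with h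
    · have h1 : (1 : ℝ) / P0 ≤ 1 / p := one_div_le_one_div_of_le hp0 (by exact_mod_cast h)
      have h2 : 1 / (p : ℝ) ≤ 1 - (nuB R p : ℝ) / p := by
        rw [le_sub_iff_add_le, ← add_div, div_le_one hp0]
        have := hR p hpp
        exact_mod_cast (by omega : 1 + nuB R p ≤ p)
      have h3 : (1 - (nuB Q p : ℝ) / p) * (1 - (nuB Q' p : ℝ) / p) ≤ 1 :=
        mul_le_one₀ (hf1 p hp).2 (hf2 p hp).1 (hf2 p hp).2
      calc 1 / (P0 : ℝ) * ((1 - (nuB Q p : ℝ) / p) * (1 - (nuB Q' p : ℝ) / p)) ≤ 1 / (P0 : ℝ) * 1 :=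
            mul_le_mul_of_nonneg_left h3 (by positivity)
        _ ≤ _ := by rw [mul_one]; exact h1.trans h2
    · apply two_le_mul (Nat.cast_nonneg _) (Nat.cast_nonneg _) (Nat.cast_nonneg _)
      · exact_mod_cast hQ.le p hpp
      · exact_mod_cast hQ'.le p hpp
      · have : 4 * k < p := by omega
        exact_mod_cast this
      · exact_mod_cast hle p hpp
  have hg0 : ∀ p ∈ pz y, 0 ≤ g p := by
    intro p _
    rw [hg]
    simp only
    split_ifs with h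
    · positivity
    · linarith [(hbig p h).2]
  have hprod : (1 / (P0 : ℝ)) ^ P0 * (1 / 2) ≤ ∏ p ∈ pz y, g p := by
    rw [← prod_filter_mul_prod_filter_not (pz y) (fun p => p ≤ P0)]
    have e1 : ∏ p ∈ (pz y).filter (fun p => p ≤ P0), g p = (1 / (P0 : ℝ)) ^ ((pz y).filter (fun p => p ≤ P0)).card := by
      rw [← prod_const]
      apply prod_congr rfl
      intro p hp
      rw [hg]
      simp only
      rw [if_pos (mem_filter.1 hp).2]
    have e2 : ∏ p ∈ (pz y).filter (fun p => ¬ p ≤ P0), g p =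
        ∏ p ∈ (pz y).filter (fun p => ¬ p ≤ P0), (1 - 2 * (k : ℝ) ^ 2 / (p : ℝ) ^ 2) := by
      apply prod_congr rfl
      intro p hp
      rw [hg]
      simp only
      rw [if_neg (mem_filter.1 hp).2]
    rw [e1, e2]
    have hcard : ((pz y).filter (fun p => p ≤ P0)).card ≤ P0 := by
      have h1 : (pz y).filter (fun p => p ≤ P0) ⊆ Icc 1 P0 := by
        intro p hp
        rw [mem_filter, mem_pz] at hp
        rw [mem_Icc]
        exact ⟨hp.1.2.pos, hp.2⟩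
      have h2 := card_le_card h1
      rwa [Nat.card_Icc, Nat.add_sub_cancel] at h2
    have k1 : (1 / (P0 : ℝ)) ^ P0 ≤ (1 / (P0 : ℝ)) ^ ((pz y).filter (fun p => p ≤ P0)).card := by
      apply pow_le_pow_of_le_one (by positivity) _ hcard
      rw [div_le_one (by linarith)]
      exact hP01
    have k2 := (prod_ge ((pz y).filter (fun p => ¬ p ≤ P0)) (fun p => 2 * (k : ℝ) ^ 2 / (p : ℝ) ^ 2)
      (fun p hp => hbig p (mem_filter.1 hp).2)).1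
    have k3 : ∑ p ∈ (pz y).filter (fun p => ¬ p ≤ P0), 2 * (k : ℝ) ^ 2 / (p : ℝ) ^ 2 ≤ 1 / 2 := by
      have h1 : (pz y).filter (fun p => ¬ p ≤ P0) ⊆ Ioc P0 y := by
        intro p hp
        rw [mem_filter, mem_pz] at hp
        rw [mem_Ioc]
        omega
      calc ∑ p ∈ (pz y).filter (fun p => ¬ p ≤ P0), 2 * (k : ℝ) ^ 2 / (p : ℝ) ^ 2
          ≤ ∑ p ∈ Ioc P0 y, 2 * (k : ℝ) ^ 2 / (p : ℝ) ^ 2 :=
            sum_le_sum_of_subset_of_nonneg h1 fun i _ _ => by positivity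
        _ = 2 * (k : ℝ) ^ 2 * ∑ p ∈ Ioc P0 y, 1 / (p : ℝ) ^ 2 := by
            rw [mul_sum]
            apply sum_congr rfl
            intro p _
            ring
        _ ≤ 2 * (k : ℝ) ^ 2 * (1 / P0) := mul_le_mul_of_nonneg_left (inv_sq_tail P0 y (by omega)) (by positivity)
        _ ≤ 1 / 2 := by
            rw [mul_one_div, div_le_iff₀ (by linarith)]
            have h2 : (P0 : ℝ) = 4 * (k : ℝ) ^ 2 + 4 * k + 1 := by rw [hP0]; push_cast; ring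
            rw [h2]
            nlinarith [sq_nonneg (k : ℝ), (Nat.cast_nonneg k : (0 : ℝ) ≤ k)]
    apply mul_le_mul k1 (by linarith) (by norm_num) (by positivity)
  unfold VQ
  calc (1 / (P0 : ℝ)) ^ P0 * (1 / 2) * ((∏ p ∈ pz y, (1 - (nuB Q p : ℝ) / p)) * ∏ p ∈ pz y, (1 - (nuB Q' p : ℝ) / p))
      ≤ (∏ p ∈ pz y, g p) * ((∏ p ∈ pz y, (1 - (nuB Q p : ℝ) / p)) * ∏ p ∈ pz y, (1 - (nuB Q' p : ℝ) / p)) := by
        apply mul_le_mul_of_nonneg_right hprod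
        exact mul_nonneg (prod_nonneg fun p hp => (hf1 p hp).1) (prod_nonneg fun p hp => (hf2 p hp).1)
    _ = ∏ p ∈ pz y, (g p * ((1 - (nuB Q p : ℝ) / p) * (1 - (nuB Q' p : ℝ) / p))) := by
        rw [prod_mul_distrib, prod_mul_distrib]
    _ ≤ _ := prod_le_prod (fun p hp => mul_nonneg (hg0 p hp) (mul_nonneg (hf1 p hp).1 (hf2 p hp).1)) hpt

lemma VQ_nonneg {k : ℕ} {Q : ℕ → ℕ → Prop} (hQ : Sv k Q) (y : ℕ) : 0 < VQ Q y := by
  unfold VQ
  apply prod_pos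
  intro p hp
  have hp0 : (0 : ℝ) < p := by exact_mod_cast (mem_pz.1 hp).2.pos
  have h1 : (nuB Q p : ℝ) < p := by exact_mod_cast (by have := hQ.lt p (mem_pz.1 hp).2; omega : nuB Q p < p)
  rw [sub_pos, div_lt_one hp0]
  exact h1

lemma VQ_congr {Q Q' : ℕ → ℕ → Prop} {y : ℕ} (h : ∀ p ∈ pz y, nuB Q p = nuB Q' p) : VQ Q y = VQ Q' y := by
  unfold VQ
  apply prod_congr rfl
  intro p hp
  rw [h p hp]

end Pool.Agent.H530.Hz
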