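import Pool.Agent.H530.HzG

/-! Lower bounds for the number of solutions. -/

set_option autoImplicit false

namespace Pool.Agent.H530.Hz

open Finset Pool.Agent.H530.Ha
open Pool.Agent.H373R2.T7 hiding RQ

theorem cnt2 (k : ℕ) (hk : 1 ≤ k) : ∃ K : ℕ, 1 ≤ K ∧ ∃ X0 y0 : ℕ, ∀ Q : ℕ → ℕ → Prop, Sv k Q → ∀ X y : ℕ,
    X0 ≤ X → y0 ≤ y → y ^ K ≤ X → X * VQ Q y / 2 ≤ (RQ Q X y).card ∧ ((RQ Q X y).card : ℝ) ≤ 2 * (X * VQ Q y) := by
  obtain ⟨c, hc, H3⟩ := all_F k hk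
  obtain ⟨K3, hK3, H3⟩ := H3 (1 / 2) (by norm_num)
  obtain ⟨X3, y3, H3⟩ := H3 0
  refine ⟨K3, hK3, X3, y3, ?_⟩
  intro Q hQ X y hX hy hyX
  obtain ⟨_, h2, _⟩ := H3 Q hQ X y hX hy hyX
  have e : ∏ p ∈ pz y, (1 - (nuB Q p : ℝ) / p) = VQ Q y := rfl
  rw [e] at h2
  have h3 := abs_le.1 h2
  have h4 : (0 : ℝ) ≤ (RQ Q X y).card := Nat.cast_nonneg _
  constructor
  · linarith [h3.1]
  · linarith [h3.2]

lemma ex_not {R : ℕ → ℕ → Prop} {p : ℕ} (h : nuB R p + 1 ≤ p) : ∃ n, ¬ R p n := by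
  classical
  by_contra hc
  push Not at hc
  have h1 : nuB R p = ((range p).filter (fun r => R p r)).card := by
    unfold nuB
    congr 1
  rw [filter_true_of_mem (fun r _ => hc r), card_range] at h1
  omega

/-- the modulus -/
def WW (k : ℕ) : ℕ := ∏ p ∈ pz (2 * k), p

lemma WW_pos (k : ℕ) : 1 ≤ WW k := by
  unfold WW
  exact Nat.pos_of_ne_zero (prod_ne_zero_iff.2 fun p hp => (mem_pz.1 hp).2.ne_zero)

lemma dvd_WW {k p : ℕ} (hp : p ∈ pz (2 * k)) : p ∣ WW k := dvd_prod_of_mem _ hp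

lemma of_dvd_WW {k p : ℕ} (hp : p.Prime) (h : p ∣ WW k) : p ∈ pz (2 * k) := by
  unfold WW at h
  obtain ⟨r, hr, hd⟩ := (Prime.dvd_finsetProd_iff hp.prime _).1 h
  rw [(Nat.prime_dvd_prime_iff_eq hp (mem_pz.1 hr).2).1 hd]
  exact hr

/-- the Chinese remainder theorem -/
lemma crt (k : ℕ) (a : ℕ → ℕ) : ∃ A < WW k, ∀ p ∈ pz (2 * k), A ≡ a p [MOD p] := by
  have hpp : Set.Pairwise (↑(pz (2 * k)) : Set ℕ) (Function.onFun Nat.Coprime (fun p => p)) := by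
    intro p hp q hq hpq
    exact (Nat.coprime_primes (mem_pz.1 hp).2 (mem_pz.1 hq).2).2 hpq
  obtain ⟨x, hx⟩ := Nat.chineseRemainderOfFinset a (fun p => p) (pz (2 * k)) (fun p hp => (mem_pz.1 hp).2.ne_zero) hpp
  refine ⟨x % WW k, Nat.mod_lt _ (WW_pos k), fun p hp => ?_⟩
  exact ((Nat.mod_modEq x (WW k)).of_dvd (dvd_WW hp)).trans (hx p hp)

lemma VQ_Qc {k : ℕ} {Q : ℕ → ℕ → Prop} (hQ : Sv k Q) (M c y : ℕ) : VQ Q y ≤ VQ (Qc Q M c) y := by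
  unfold VQ
  apply prod_le_prod
  · intro p hp
    have hp0 : (0 : ℝ) < p := by exact_mod_cast (mem_pz.1 hp).2.pos
    have h1 : (nuB Q p : ℝ) ≤ p := by exact_mod_cast (by have := hQ.lt p (mem_pz.1 hp).2; omega : nuB Q p ≤ p)
    rw [sub_nonneg, div_le_one hp0]
    exact h1
  · intro p hp
    have hp0 : (0 : ℝ) < p := by exact_mod_cast (mem_pz.1 hp).2.pos
    apply sub_le_sub_left
    apply div_le_div_of_nonneg_right _ hp0.le
    by_cases h : p ∣ M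
    · rw [nuB_Qc' Q M c p h]
      simp
    · rw [nuB_Qc hQ M c p (mem_pz.1 hp).2 h]

open Classical in
/-- the elements in a class -/
lemma class_low {k : ℕ} {Q : ℕ → ℕ → Prop} (hQ : Sv k Q) {X c M y : ℕ} (hM : 1 ≤ M) (hc : c < M) (hX : M ≤ X)
    (h : ∀ p ∈ pz y, p ∣ M → ¬ Q p c) :
    (RQ (Qc Q M c) ((X - c) / M) y).card ≤ ((RQ Q X y).filter (fun n => n ≡ c [MOD M])).card := by
  rcases class_RQ (y := y) hQ hM hc hX with h1 | ⟨h1, _⟩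
  · apply card_le_card_of_injOn (fun j => c + M * j)
    · intro j hj
      rw [mem_coe, mem_RQ] at hj
      rw [mem_coe, mem_filter, mem_RQ]
      have h2 : M * j ≤ X - c := by
        have h3 := (Nat.le_div_iff_mul_le hM).1 hj.1.2
        rwa [mul_comm] at h3
      have h4 : M * 1 ≤ M * j := Nat.mul_le_mul_left _ hj.1.1
      have h5 : c + M * j ≤ X := by omega
      have h6 : 1 ≤ c + M * j := by omega
      refine ⟨⟨⟨h6, h5⟩, fun p hp hq => ?_⟩, ?_⟩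
      · by_cases hd : p ∣ M
        · apply h p hp hd
          refine (hQ.mod ?_).1 hq
          obtain ⟨t, ht⟩ := hd
          show (c + M * j) % p = c % p
          rw [ht, mul_assoc, Nat.add_mul_mod_self_left]
        · exact hj.2 p hp ⟨hd, hq⟩
      · show (c + M * j) % M = c % M
        rw [Nat.add_mul_mod_self_left]
    · intro i _ j _ hij
      simp only at hij
      have h3 : M * i = M * j := by omega
      exact Nat.eq_of_mul_eq_mul_left hM h3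
  · exact h1

open Classical in
/-- many elements in a good class -/
theorem T_low (k : ℕ) (hk : 1 ≤ k) : ∃ c : ℝ, 0 < c ∧ ∃ K : ℕ, 1 ≤ K ∧ ∃ X0 y0 : ℕ, ∀ Q : ℕ → ℕ → Prop, Sv k Q →
    ∀ X y : ℕ, X0 ≤ X → y0 ≤ y → y ^ K ≤ X → ∀ A < WW k, (∀ p ∈ pz (2 * k), ¬ Q p A) →
      c * (X * VQ Q y) ≤ ((RQ Q X y).filter (fun n => n ≡ A [MOD WW k])).card := by
  obtain ⟨K, hK, X0, y0, H⟩ := cnt2 k hk
  obtain ⟨W, hW⟩ : ∃ W, W = WW k := ⟨_, rfl⟩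
  have hW1 : 1 ≤ W := by rw [hW]; exact WW_pos k
  have hWr : (0 : ℝ) < W := by exact_mod_cast (by omega : 0 < W)
  refine ⟨1 / (8 * W), by positivity, K + 1, by omega, 8 * W * (X0 + 1), y0 + 8 * W, ?_⟩
  intro Q hQ X y hX hy hyX A hA hgood
  rw [← hW] at hA ⊢
  have hWX : W ≤ X := by nlinarith
  have h1 := class_low (y := y) hQ hW1 hA hWX (fun p hp hd => hgood p (of_dvd_WW (mem_pz.1 hp).2 (by rw [← hW]; exact hd)))
  have h8 : X / (4 * W) ≤ (X - A) / W := by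
    rw [Nat.le_div_iff_mul_le hW1]
    have h2 : X / (4 * W) * (4 * W) ≤ X := Nat.div_mul_le_self _ _
    have h3 : X / (4 * W) * W * 4 ≤ X := by
      calc X / (4 * W) * W * 4 = X / (4 * W) * (4 * W) := by ring
        _ ≤ X := h2
    have h4 : 8 * W ≤ X := by nlinarith
    omega
  have hXa : X0 ≤ (X - A) / W := by
    refine le_trans ?_ h8
    rw [Nat.le_div_iff_mul_le (by omega)]
    nlinarith
  have hXb : y ^ K ≤ (X - A) / W := by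
    refine le_trans ?_ h8
    rw [Nat.le_div_iff_mul_le (by omega)]
    calc y ^ K * (4 * W) ≤ y ^ K * y := Nat.mul_le_mul_left _ (by omega)
      _ = y ^ (K + 1) := by ring
      _ ≤ X := hyX
  have h2 := (H (Qc Q W A) (sv_Qc hQ W A) _ y hXa (by omega) hXb).1
  have h3 := VQ_Qc hQ W A y
  have hV := VQ_nonneg hQ y
  have h5 : (X : ℝ) / (4 * W) ≤ ((X - A) / W : ℕ) := by
    rw [div_le_iff₀ (by positivity)]
    have h6 : X ≤ ((X - A) / W) * (4 * W) := by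
      have h7 : X - A < ((X - A) / W) * W + W := by
        have := Nat.lt_div_mul_add (a := X - A) (b := W) hW1
        exact this
      have h9 : 4 * W ≤ X := by nlinarith
      have h10 : ((X - A) / W) * (4 * W) = 4 * (((X - A) / W) * W) := by ring
      rw [h10]
      omega
    exact_mod_cast h6
  have h6 : (X : ℝ) / (4 * W) * VQ Q y / 2 ≤ (RQ (Qc Q W A) ((X - A) / W) y).card := by
    refine le_trans ?_ h2
    apply div_le_div_of_nonneg_right _ (by norm_num)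
    exact mul_le_mul h5 h3 hV.le (Nat.cast_nonneg _)
  have h7 : ((RQ (Qc Q W A) ((X - A) / W) y).card : ℝ) ≤ ((RQ Q X y).filter (fun n => n ≡ A [MOD W])).card := by
    exact_mod_cast h1
  refine le_trans (le_of_eq ?_) (h6.trans h7)
  field_simp
  ring

/-- the pairs -/
def rep2 (S1 S2 : Finset ℕ) (a1 a2 M : ℤ) : Finset (ℕ × ℕ) := (S1 ×ˢ S2).filter (fun t => a1 * t.1 + a2 * t.2 = M)

/-- the triples -/
def rep3 (S1 S2 S3 : Finset ℕ) (a1 a2 a3 M : ℤ) : Finset (ℕ × (ℕ × ℕ)) :=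
  (S1 ×ˢ (S2 ×ˢ S3)).filter (fun t => a1 * t.1 + (a2 * t.2.1 + a3 * t.2.2) = M)

/-- **sums of two** -/
theorem sum2_low (k : ℕ) (hk : 1 ≤ k) : ∃ c : ℝ, 0 < c ∧ ∃ K : ℕ, 1 ≤ K ∧ ∃ X0 y0 : ℕ, ∀ Q1 Q2 : ℕ → ℕ → Prop,
    Sv k Q1 → Sv k Q2 → ∀ N X y : ℕ, X0 ≤ N → N ≤ X → y0 ≤ y → y ^ K ≤ N →
      (∀ p ∈ pz (2 * k), ∃ n1 n2 : ℕ, n1 + n2 ≡ N [MOD p] ∧ ¬ Q1 p n1 ∧ ¬ Q2 p n2) →
      c * (N * (VQ Q1 y * VQ Q2 y)) ≤ (rep2 (RQ Q1 X y) (RQ Q2 X y) 1 1 N).card := by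
  obtain ⟨K, hK, X0, y0, H⟩ := cnt2 (k + k) (by omega)
  obtain ⟨c, hc, HV⟩ := V_low k
  refine ⟨c / 4, by positivity, K + 1, by omega, X0 + 2, y0 + 2, ?_⟩
  intro Q1 Q2 hQ1 hQ2 N X y hX hNX hy hyN hloc
  obtain ⟨R, hR⟩ : ∃ R, R = Qor Q1 (Qr Q2 N) := ⟨_, rfl⟩
  have hsv2 := sv_Qr hQ2 N
  have hl : ∀ p : ℕ, p.Prime → ∃ n, ¬ Q1 p n ∧ ¬ Qr Q2 N p n := by
    intro p hp
    by_cases h : p ≤ 2 * k
    · obtain ⟨n1, n2, h1, h2, h3⟩ := hloc p (mem_pz.2 ⟨h, hp⟩)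
      refine ⟨n1, h2, fun h4 => h3 ?_⟩
      unfold Qr at h4
      refine (hQ2.mod ?_).1 h4
      have h5 : N + (p - 1) * n1 ≡ n1 + n2 + (p - 1) * n1 [MOD p] := (h1.symm).add_right _
      refine h5.trans ?_
      have h6 : n1 + n2 + (p - 1) * n1 = n2 + p * n1 := by
        obtain ⟨s, rfl⟩ : ∃ s, p = s + 1 := ⟨p - 1, by have := hp.pos; omega⟩
        rw [Nat.add_sub_cancel]
        ring
      rw [h6]
      unfold Nat.ModEq
      rw [Nat.add_mul_mod_self_left]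
    · have h1 := nuB_or Q1 (Qr Q2 N) p
      have h2 := hQ1.le p hp
      have h3 := hsv2.le p hp
      obtain ⟨n, hn⟩ := ex_not (show nuB (Qor Q1 (Qr Q2 N)) p + 1 ≤ p by omega)
      unfold Qor at hn
      push Not at hn
      exact ⟨n, hn⟩
  have hsv : Sv (k + k) R := by rw [hR]; exact sv_or hQ1 hsv2 hl
  have hyN1 : y ^ K ≤ N - 1 := by
    have h1 : y ^ K * 2 ≤ y ^ (K + 1) := by
      rw [pow_succ]
      exact Nat.mul_le_mul_left _ (by omega)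
    have h2 : 1 ≤ y ^ K := Nat.one_le_pow _ _ (by omega)
    omega
  have h1 := (H R hsv (N - 1) y (by omega) (by omega) hyN1).1
  have h2 := HV Q1 (Qr Q2 N) R hQ1 hsv2 hsv.lt (fun p _ => by rw [hR]; exact nuB_or _ _ p) y
  have h3 : VQ (Qr Q2 N) y = VQ Q2 y := VQ_congr fun p hp => nuB_Qr hQ2 N (mem_pz.1 hp).2
  rw [h3] at h2
  have h4 : (RQ R (N - 1) y).card ≤ (rep2 (RQ Q1 X y) (RQ Q2 X y) 1 1 N).card := by
    apply card_le_card_of_injOn (fun n => (n, N - n))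
    · intro n hn
      rw [mem_coe, mem_RQ] at hn
      unfold rep2
      rw [mem_coe, mem_filter, mem_product, mem_RQ, mem_RQ]
      simp only
      refine ⟨⟨⟨by omega, fun p hp h => hn.2 p hp ?_⟩, by omega, fun p hp h => hn.2 p hp ?_⟩, by omega⟩
      · rw [hR]
        exact Or.inl h
      · rw [hR]
        exact Or.inr ((refl_iff hQ2 (by omega) (mem_pz.1 hp).2).2 h)
    · intro m _ n _ h
      simp only [Prod.mk.injEq] at h
      exact h.1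
  have h5 : (N : ℝ) / 2 ≤ ((N - 1 : ℕ) : ℝ) := by
    rw [Nat.cast_sub (by omega)]
    have : (2 : ℝ) ≤ N := by exact_mod_cast (by omega : 2 ≤ N)
    push_cast
    linarith
  have hV1 := VQ_nonneg hQ1 y
  have hV2 := VQ_nonneg hQ2 y
  have h6 : ((RQ R (N - 1) y).card : ℝ) ≤ (rep2 (RQ Q1 X y) (RQ Q2 X y) 1 1 N).card := by exact_mod_cast h4
  refine le_trans ?_ h6
  refine le_trans ?_ h1
  have h7 : (N : ℝ) / 2 * (c * (VQ Q1 y * VQ Q2 y)) ≤ ((N - 1 : ℕ) : ℝ) * VQ R y :=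
    mul_le_mul h5 h2 (by positivity) (Nat.cast_nonneg _)
  linarith

/-- **differences** -/
theorem dif2_low (k : ℕ) (hk : 1 ≤ k) : ∃ c : ℝ, 0 < c ∧ ∃ K : ℕ, 1 ≤ K ∧ ∃ X0 y0 : ℕ, ∀ Q1 Q2 : ℕ → ℕ → Prop,
    Sv k Q1 → Sv k Q2 → ∀ h X y : ℕ, h ≤ X → X0 ≤ X - h → y0 ≤ y → y ^ K ≤ X - h →
      (∀ p ∈ pz (2 * k), ∃ n : ℕ, ¬ Q1 p n ∧ ¬ Q2 p (h + n)) →
      c * ((X - h : ℕ) * (VQ Q1 y * VQ Q2 y)) ≤ (rep2 (RQ Q1 X y) (RQ Q2 X y) (-1) 1 h).card := by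
  obtain ⟨K, hK, X0, y0, H⟩ := cnt2 (k + k) (by omega)
  obtain ⟨c, hc, HV⟩ := V_low k
  refine ⟨c / 2, by positivity, K, hK, X0, y0, ?_⟩
  intro Q1 Q2 hQ1 hQ2 h X y hhX hX hy hyN hloc
  obtain ⟨R, hR⟩ : ∃ R, R = Qor Q1 (Qt Q2 h) := ⟨_, rfl⟩
  have hsv2 := sv_Qt hQ2 h
  have hl : ∀ p : ℕ, p.Prime → ∃ n, ¬ Q1 p n ∧ ¬ Qt Q2 h p n := by
    intro p hp
    by_cases hpk : p ≤ 2 * k
    · obtain ⟨n, h2, h3⟩ := hloc p (mem_pz.2 ⟨hpk, hp⟩)
      exact ⟨n, h2, h3⟩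
    · have h1 := nuB_or Q1 (Qt Q2 h) p
      have h2 := hQ1.le p hp
      have h3 := hsv2.le p hp
      obtain ⟨n, hn⟩ := ex_not (show nuB (Qor Q1 (Qt Q2 h)) p + 1 ≤ p by omega)
      unfold Qor at hn
      push Not at hn
      exact ⟨n, hn⟩
  have hsv : Sv (k + k) R := by rw [hR]; exact sv_or hQ1 hsv2 hl
  have h1 := (H R hsv (X - h) y hX hy hyN).1
  have h2 := HV Q1 (Qt Q2 h) R hQ1 hsv2 hsv.lt (fun p _ => by rw [hR]; exact nuB_or _ _ p) y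
  have h3 : VQ (Qt Q2 h) y = VQ Q2 y := VQ_congr fun p hp => nuB_Qt hQ2 h (mem_pz.1 hp).2
  rw [h3] at h2
  have h4 : (RQ R (X - h) y).card ≤ (rep2 (RQ Q1 X y) (RQ Q2 X y) (-1) 1 h).card := by
    apply card_le_card_of_injOn (fun n => (n, h + n))
    · intro n hn
      rw [mem_coe, mem_RQ] at hn
      unfold rep2
      rw [mem_coe, mem_filter, mem_product, mem_RQ, mem_RQ]
      simp only
      refine ⟨⟨⟨by omega, fun p hp h' => hn.2 p hp ?_⟩, by omega, fun p hp h' => hn.2 p hp ?_⟩, by push_cast; ring⟩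
      · rw [hR]
        exact Or.inl h'
      · rw [hR]
        exact Or.inr h'
    · intro m _ n _ h
      simp only [Prod.mk.injEq] at h
      exact h.1
  have hV1 := VQ_nonneg hQ1 y
  have hV2 := VQ_nonneg hQ2 y
  have h6 : ((RQ R (X - h) y).card : ℝ) ≤ (rep2 (RQ Q1 X y) (RQ Q2 X y) (-1) 1 h).card := by exact_mod_cast h4
  refine le_trans ?_ h6
  refine le_trans ?_ h1
  have h7 : ((X - h : ℕ) : ℝ) * (c * (VQ Q1 y * VQ Q2 y)) ≤ ((X - h : ℕ) : ℝ) * VQ R y :=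
    mul_le_mul_of_nonneg_left h2 (Nat.cast_nonneg _)
  linarith

end Pool.Agent.H530.Hz
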