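import Pool.Agent.H530.HzH

/-! Lower bounds for the number of solutions of ternary equations. -/

set_option autoImplicit false

namespace Pool.Agent.H530.Hz

open Finset Pool.Agent.H530.Ha
open Pool.Agent.H373R2.T7 hiding RQ

lemma half_real {N : ℕ} (hN : 4 ≤ N) : (N : ℝ) / 4 ≤ ((N / 2 : ℕ) : ℝ) := by
  have h1 : N ≤ 4 * (N / 2) := by omega
  have h2 : (N : ℝ) ≤ 4 * ((N / 2 : ℕ) : ℝ) := by exact_mod_cast h1
  linarith

lemma quarter_real {N : ℕ} (hN : 8 ≤ N) : (N : ℝ) / 8 ≤ ((N / 4 : ℕ) : ℝ) := by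
  have h1 : N ≤ 8 * (N / 4) := by omega
  have h2 : (N : ℝ) ≤ 8 * ((N / 4 : ℕ) : ℝ) := by exact_mod_cast h1
  linarith

/-- **sums of three** -/
theorem sum3_low (k : ℕ) (hk : 1 ≤ k) : ∃ c : ℝ, 0 < c ∧ ∃ K : ℕ, 1 ≤ K ∧ ∃ X0 y0 : ℕ,
    ∀ Q1 Q2 Q3 : ℕ → ℕ → Prop, Sv k Q1 → Sv k Q2 → Sv k Q3 → ∀ N X y : ℕ, X0 ≤ N → N ≤ X → y0 ≤ y → y ^ K ≤ N →
      (∀ p ∈ pz (2 * k), ∃ n1 n2 n3 : ℕ, n1 + n2 + n3 ≡ N [MOD p] ∧ ¬ Q1 p n1 ∧ ¬ Q2 p n2 ∧ ¬ Q3 p n3) →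
      c * ((N : ℝ) ^ 2 * (VQ Q1 y * VQ Q2 y * VQ Q3 y)) ≤
        (rep3 (RQ Q1 X y) (RQ Q2 X y) (RQ Q3 X y) 1 1 1 N).card := by
  classical
  obtain ⟨c1, hc1, K1, hK1, X1, y1, H1⟩ := T_low k hk
  obtain ⟨c2, hc2, K2, hK2, X2, y2, H2⟩ := sum2_low k hk
  refine ⟨c1 * c2 / 8, by positivity, K1 + K2 + 1, by omega, 2 * (X1 + X2) + 4, y1 + y2 + 4, ?_⟩
  intro Q1 Q2 Q3 hQ1 hQ2 hQ3 N X y hN hNX hy hyN hloc
  have hloc' : ∀ p : ℕ, ∃ n1 n2 n3 : ℕ, p ∈ pz (2 * k) → n1 + n2 + n3 ≡ N [MOD p] ∧ ¬ Q1 p n1 ∧ ¬ Q2 p n2 ∧ ¬ Q3 p n3 := by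
    intro p
    by_cases hp : p ∈ pz (2 * k)
    · obtain ⟨n1, n2, n3, h⟩ := hloc p hp
      exact ⟨n1, n2, n3, fun _ => h⟩
    · exact ⟨0, 0, 0, fun h => absurd h hp⟩
  choose f1 f2 f3 hf using hloc'
  obtain ⟨A, hA, hAf⟩ := crt k f3
  have hgood : ∀ p ∈ pz (2 * k), ¬ Q3 p A := by
    intro p hp h
    exact (hf p hp).2.2.2 ((hQ3.mod (hAf p hp)).1 h)
  have hy1 : 1 ≤ y := by omega
  have hyh : y ^ (K1 + K2) ≤ N / 2 := by
    rw [Nat.le_div_iff_mul_le (by norm_num)]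
    calc y ^ (K1 + K2) * 2 ≤ y ^ (K1 + K2) * y := Nat.mul_le_mul_left _ (by omega)
      _ = y ^ (K1 + K2 + 1) := by ring
      _ ≤ N := hyN
  have hT := H1 Q3 hQ3 (N / 2) y (by omega) (by omega) ((Nat.pow_le_pow_right hy1 (by omega)).trans hyh) A hA hgood
  obtain ⟨T, hTe⟩ : ∃ T, T = (RQ Q3 (N / 2) y).filter (fun n => n ≡ A [MOD WW k]) := ⟨_, rfl⟩
  rw [← hTe] at hT
  have hTm : ∀ n ∈ T, (1 ≤ n ∧ n ≤ N / 2) ∧ n ∈ RQ Q3 X y ∧ n ≡ A [MOD WW k] := by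
    intro n hn
    rw [hTe, mem_filter, mem_RQ] at hn
    refine ⟨hn.1.1, ?_, hn.2⟩
    rw [mem_RQ]
    exact ⟨by omega, hn.1.2⟩
  have hpair : ∀ n ∈ T, c2 * ((N : ℝ) / 2 * (VQ Q1 y * VQ Q2 y)) ≤
      ((rep2 (RQ Q1 X y) (RQ Q2 X y) 1 1 ((N - n : ℕ) : ℤ)).card : ℝ) := by
    intro n hn
    obtain ⟨⟨hn1, hn2⟩, _, hnA⟩ := hTm n hn
    have h1 := H2 Q1 Q2 hQ1 hQ2 (N - n) X y (by omega) (by omega) (by omega)
      ((Nat.pow_le_pow_right hy1 (by omega)).trans (hyh.trans (by omega))) (by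
        intro p hp
        obtain ⟨e1, e2, e3, e4⟩ := hf p hp
        refine ⟨f1 p, f2 p, ?_, e2, e3⟩
        have h2 : n ≡ f3 p [MOD p] := (hnA.of_dvd (dvd_WW hp)).trans (hAf p hp)
        have h3 : f1 p + f2 p + n ≡ (N - n) + n [MOD p] := by
          rw [Nat.sub_add_cancel (by omega)]
          exact ((h2.add_left (f1 p + f2 p))).trans e1
        exact Nat.ModEq.add_right_cancel' n h3)
    refine le_trans ?_ h1
    apply mul_le_mul_of_nonneg_left _ hc2.le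
    apply mul_le_mul_of_nonneg_right _ (mul_pos (VQ_nonneg hQ1 y) (VQ_nonneg hQ2 y)).le
    have h5 : N ≤ 2 * (N - n) := by omega
    have h6 : (N : ℝ) ≤ 2 * ((N - n : ℕ) : ℝ) := by exact_mod_cast h5
    linarith
  have hcard : ∑ n ∈ T, (rep2 (RQ Q1 X y) (RQ Q2 X y) 1 1 ((N - n : ℕ) : ℤ)).card ≤
      (rep3 (RQ Q1 X y) (RQ Q2 X y) (RQ Q3 X y) 1 1 1 N).card := by
    rw [← card_sigma]
    apply card_le_card_of_injOn (fun s => (s.2.1, (s.2.2, s.1)))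
    · rintro ⟨n, a, b⟩ hs
      rw [mem_coe, mem_sigma] at hs
      obtain ⟨h1, h2⟩ := hs
      simp only at h1 h2
      obtain ⟨⟨hn1, hn2⟩, hnR, _⟩ := hTm n h1
      unfold rep2 at h2
      rw [mem_filter, mem_product] at h2
      unfold rep3
      rw [mem_coe, mem_filter, mem_product, mem_product]
      refine ⟨⟨h2.1.1, h2.1.2, hnR⟩, ?_⟩
      have h3 := h2.2
      simp only at h3 ⊢
      push_cast [Nat.cast_sub (show n ≤ N by omega)] at h3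
      linarith
    · rintro ⟨n, a, b⟩ _ ⟨n', a', b'⟩ _ h
      simp only [Prod.mk.injEq] at h
      obtain ⟨h1, h2, h3⟩ := h
      subst h1 h2 h3
      rfl
  have hc' : (∑ n ∈ T, (rep2 (RQ Q1 X y) (RQ Q2 X y) 1 1 ((N - n : ℕ) : ℤ)).card : ℝ) ≤
      (rep3 (RQ Q1 X y) (RQ Q2 X y) (RQ Q3 X y) 1 1 1 N).card := by exact_mod_cast hcard
  refine le_trans ?_ hc'
  refine le_trans ?_ (sum_le_sum hpair)
  rw [sum_const, nsmul_eq_mul]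
  have hV1 := VQ_nonneg hQ1 y
  have hV2 := VQ_nonneg hQ2 y
  have hV3 := VQ_nonneg hQ3 y
  have hT' : c1 * ((N : ℝ) / 4 * VQ Q3 y) ≤ T.card := by
    refine le_trans ?_ hT
    apply mul_le_mul_of_nonneg_left _ hc1.le
    exact mul_le_mul_of_nonneg_right (half_real (by omega)) hV3.le
  calc c1 * c2 / 8 * ((N : ℝ) ^ 2 * (VQ Q1 y * VQ Q2 y * VQ Q3 y))
      = c1 * ((N : ℝ) / 4 * VQ Q3 y) * (c2 * ((N : ℝ) / 2 * (VQ Q1 y * VQ Q2 y))) := by ring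
    _ ≤ _ := mul_le_mul_of_nonneg_right hT' (by positivity)

/-- **three terms in arithmetic progression** -/
theorem ap3_low (k : ℕ) (hk : 1 ≤ k) : ∃ c : ℝ, 0 < c ∧ ∃ K : ℕ, 1 ≤ K ∧ ∃ X0 y0 : ℕ,
    ∀ Q1 Q2 Q3 : ℕ → ℕ → Prop, Sv k Q1 → Sv k Q2 → Sv k Q3 → ∀ X y : ℕ, X0 ≤ X → y0 ≤ y → y ^ K ≤ X →
      (∀ p ∈ pz (2 * k), ∃ n d : ℕ, ¬ Q1 p n ∧ ¬ Q2 p (n + 2 * d) ∧ ¬ Q3 p (n + d)) →
      c * ((X : ℝ) ^ 2 * (VQ Q1 y * VQ Q2 y * VQ Q3 y)) ≤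
        ((rep3 (RQ Q1 X y) (RQ Q2 X y) (RQ Q3 X y) 1 1 (-2) 0).filter (fun t => t.1 < t.2.2)).card := by
  classical
  obtain ⟨c1, hc1, K1, hK1, X1, y1, H1⟩ := T_low k hk
  obtain ⟨K2, hK2, X2, y2, H2⟩ := cnt2 (k + k) (by omega)
  obtain ⟨c, hc, HV⟩ := V_low k
  refine ⟨c1 * c / 64, by positivity, K1 + K2 + 1, by omega, 4 * (X1 + X2) + 8, y1 + y2 + 4, ?_⟩
  intro Q1 Q2 Q3 hQ1 hQ2 hQ3 X y hX hy hyX hloc
  have hloc' : ∀ p : ℕ, ∃ n d : ℕ, p ∈ pz (2 * k) → ¬ Q1 p n ∧ ¬ Q2 p (n + 2 * d) ∧ ¬ Q3 p (n + d) := by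
    intro p
    by_cases hp : p ∈ pz (2 * k)
    · obtain ⟨n, d, h⟩ := hloc p hp
      exact ⟨n, d, fun _ => h⟩
    · exact ⟨0, 0, fun h => absurd h hp⟩
  choose f g hf using hloc'
  obtain ⟨A, hA, hAf⟩ := crt k f
  have hgood : ∀ p ∈ pz (2 * k), ¬ Q1 p A := by
    intro p hp h
    exact (hf p hp).1 ((hQ1.mod (hAf p hp)).1 h)
  have hy1 : 1 ≤ y := by omega
  have hyh : y ^ (K1 + K2) ≤ X / 4 := by
    rw [Nat.le_div_iff_mul_le (by norm_num)]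
    calc y ^ (K1 + K2) * 4 ≤ y ^ (K1 + K2) * y := Nat.mul_le_mul_left _ (by omega)
      _ = y ^ (K1 + K2 + 1) := by ring
      _ ≤ X := hyX
  have hT := H1 Q1 hQ1 (X / 2) y (by omega) (by omega)
    ((Nat.pow_le_pow_right hy1 (by omega)).trans (hyh.trans (by omega))) A hA hgood
  obtain ⟨T, hTe⟩ : ∃ T, T = (RQ Q1 (X / 2) y).filter (fun n => n ≡ A [MOD WW k]) := ⟨_, rfl⟩
  rw [← hTe] at hT
  have hTm : ∀ n ∈ T, (1 ≤ n ∧ n ≤ X / 2) ∧ n ∈ RQ Q1 X y ∧ n ≡ A [MOD WW k] := by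
    intro n hn
    rw [hTe, mem_filter, mem_RQ] at hn
    refine ⟨hn.1.1, ?_, hn.2⟩
    rw [mem_RQ]
    exact ⟨by omega, hn.1.2⟩
  have h2W : 2 ∈ pz (2 * k) := mem_pz.2 ⟨by omega, Nat.prime_two⟩
  have hpair : ∀ n ∈ T, c / 2 * ((X : ℝ) / 8 * (VQ Q3 y * VQ Q2 y)) ≤
      ((RQ (Qor (Qt Q3 n) (Qc Q2 2 n)) (X / 4) y).card : ℝ) := by
    intro n hn
    obtain ⟨⟨hn1, hn2⟩, _, hnA⟩ := hTm n hn
    have hs3 := sv_Qt hQ3 n
    have hs2 := sv_Qc hQ2 2 n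
    have hl : ∀ p : ℕ, p.Prime → ∃ d, ¬ Qt Q3 n p d ∧ ¬ Qc Q2 2 n p d := by
      intro p hp
      by_cases hpk : p ≤ 2 * k
      · have hpm : p ∈ pz (2 * k) := mem_pz.2 ⟨hpk, hp⟩
        obtain ⟨e1, e2, e3⟩ := hf p hpm
        have h2 : n ≡ f p [MOD p] := (hnA.of_dvd (dvd_WW hpm)).trans (hAf p hpm)
        refine ⟨g p, fun h => e3 ?_, fun h => e2 ?_⟩
        · exact (hQ3.mod (h2.add_right _)).1 h
        · exact (hQ2.mod (h2.add_right _)).1 h.2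
      · have h1 := nuB_or (Qt Q3 n) (Qc Q2 2 n) p
        have h2 := hs3.le p hp
        have h3 := hs2.le p hp
        obtain ⟨d, hd⟩ := ex_not (show nuB (Qor (Qt Q3 n) (Qc Q2 2 n)) p + 1 ≤ p by omega)
        unfold Qor at hd
        push Not at hd
        exact ⟨d, hd⟩
    have hsv := sv_or hs3 hs2 hl
    have h1 := (H2 _ hsv (X / 4) y (by omega) (by omega) ((Nat.pow_le_pow_right hy1 (by omega)).trans hyh)).1
    have h2 := HV (Qt Q3 n) (Qc Q2 2 n) _ hs3 hs2 hsv.lt (fun p _ => nuB_or _ _ p) y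
    have h3 : VQ (Qt Q3 n) y = VQ Q3 y := VQ_congr fun p hp => nuB_Qt hQ3 n (mem_pz.1 hp).2
    have h4 := VQ_Qc hQ2 2 n y
    rw [h3] at h2
    have hV2 := VQ_nonneg hQ2 y
    have hV3 := VQ_nonneg hQ3 y
    refine le_trans ?_ h1
    have h5 : c * (VQ Q3 y * VQ Q2 y) ≤ VQ (Qor (Qt Q3 n) (Qc Q2 2 n)) y := by
      refine le_trans ?_ h2
      apply mul_le_mul_of_nonneg_left _ hc.le
      exact mul_le_mul_of_nonneg_left h4 hV3.le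
    have h6 : (X : ℝ) / 8 * (c * (VQ Q3 y * VQ Q2 y)) ≤ ((X / 4 : ℕ) : ℝ) * VQ (Qor (Qt Q3 n) (Qc Q2 2 n)) y :=
      mul_le_mul (quarter_real (by omega)) h5 (by positivity) (Nat.cast_nonneg _)
    linarith
  have hcard : ∑ n ∈ T, (RQ (Qor (Qt Q3 n) (Qc Q2 2 n)) (X / 4) y).card ≤
      ((rep3 (RQ Q1 X y) (RQ Q2 X y) (RQ Q3 X y) 1 1 (-2) 0).filter (fun t => t.1 < t.2.2)).card := by
    rw [← card_sigma]
    apply card_le_card_of_injOn (fun s => (s.1, (s.1 + 2 * s.2, s.1 + s.2)))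
    · rintro ⟨n, d⟩ hs
      rw [mem_coe, mem_sigma] at hs
      obtain ⟨h1, h2⟩ := hs
      simp only at h1 h2
      obtain ⟨⟨hn1, hn2⟩, hnR, hnA⟩ := hTm n h1
      rw [mem_RQ] at h2
      unfold rep3
      rw [mem_coe, mem_filter, mem_filter, mem_product, mem_product]
      refine ⟨⟨⟨hnR, ?_, ?_⟩, ?_⟩, ?_⟩
      · simp only
        rw [mem_RQ]
        refine ⟨by omega, fun p hp h => ?_⟩
        by_cases hp2 : p = 2
        · subst hp2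
          have h3 : n ≡ f 2 [MOD 2] := (hnA.of_dvd (dvd_WW h2W)).trans (hAf 2 h2W)
          apply (hf 2 h2W).2.1
          refine (hQ2.mod ?_).1 h
          have h4 : n + 2 * d ≡ n [MOD 2] := by
            unfold Nat.ModEq
            rw [Nat.add_mul_mod_self_left]
          have h5 : f 2 + 2 * g 2 ≡ f 2 [MOD 2] := by
            unfold Nat.ModEq
            rw [Nat.add_mul_mod_self_left]
          exact h4.trans (h3.trans h5.symm)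
        · apply h2.2 p hp
          right
          refine ⟨fun hd => hp2 ?_, h⟩
          exact (Nat.prime_dvd_prime_iff_eq (mem_pz.1 hp).2 Nat.prime_two).1 hd
      · simp only
        rw [mem_RQ]
        refine ⟨by omega, fun p hp h => h2.2 p hp (Or.inl h)⟩
      · push_cast
        ring
      · simp only
        omega
    · rintro ⟨n, d⟩ _ ⟨n', d'⟩ _ h
      simp only [Prod.mk.injEq] at h
      obtain ⟨h1, h2, h3⟩ := h
      subst h1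
      have : d = d' := by omega
      subst this
      rfl
  have hc' : (∑ n ∈ T, (RQ (Qor (Qt Q3 n) (Qc Q2 2 n)) (X / 4) y).card : ℝ) ≤
      ((rep3 (RQ Q1 X y) (RQ Q2 X y) (RQ Q3 X y) 1 1 (-2) 0).filter (fun t => t.1 < t.2.2)).card := by exact_mod_cast hcard
  refine le_trans ?_ hc'
  refine le_trans ?_ (sum_le_sum hpair)
  rw [sum_const, nsmul_eq_mul]
  have hV1 := VQ_nonneg hQ1 y
  have hV2 := VQ_nonneg hQ2 y
  have hV3 := VQ_nonneg hQ3 y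
  have hT' : c1 * ((X : ℝ) / 4 * VQ Q1 y) ≤ T.card := by
    refine le_trans ?_ hT
    apply mul_le_mul_of_nonneg_left _ hc1.le
    exact mul_le_mul_of_nonneg_right (half_real (by omega)) hV1.le
  calc c1 * c / 64 * ((X : ℝ) ^ 2 * (VQ Q1 y * VQ Q2 y * VQ Q3 y))
      = c1 * ((X : ℝ) / 4 * VQ Q1 y) * (c / 2 * ((X : ℝ) / 8 * (VQ Q3 y * VQ Q2 y))) := by ring
    _ ≤ _ := mul_le_mul_of_nonneg_right hT' (by positivity)

end Pool.Agent.H530.Hz
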