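import Pool.Agent.H530.HzI

/-! The patterns of the Liouville function. -/

set_option autoImplicit false

namespace Pool.Agent.H530.Hz

open Finset Pool.Agent.H530.Ha
open Pool.Agent.H373R2.T7 hiding RQ

/-- the real weight is a shifted Liouville function -/
def Lr (X B' : ℕ) (r : ℕ → ℝ) : Prop :=
  ∃ b : ℤ, |(b : ℝ)| ≤ X * Real.log X ^ B' ∧ ∀ n : ℕ, r n = lz ((n : ℤ) + b)

lemma Lr.lw {X B' : ℕ} {r : ℕ → ℝ} (h : Lr X B' r) : Lw X B' (fun n => (r n : ℂ)) := by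
  obtain ⟨b, hb, hr⟩ := h
  exact ⟨b, hb, fun n => by simp only [hr n]⟩

/-- real weights -/
theorem tern_real (k : ℕ) (hk : 1 ≤ k) : ∃ A : ℕ, 1 ≤ A ∧ ∀ K : ℕ, A ≤ K →
    ∀ B' : ℕ, ∃ X0 y0 : ℕ, ∀ Q1 Q2 Q3 : ℕ → ℕ → Prop, Sv k Q1 → Sv k Q2 → Sv k Q3 →
      ∀ X y : ℕ, X0 ≤ X → y0 ≤ y → y ^ K ≤ X → ∀ a1 a2 a3 : ℤ, a1 ≠ 0 → a2 ≠ 0 → a3 ≠ 0 → ∀ N : ℤ,
      ∀ r1 r2 r3 : ℕ → ℝ, (∀ n, |r1 n| ≤ 1) → (∀ n, |r2 n| ≤ 1) → (∀ n, |r3 n| ≤ 1) →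
      (Lr X B' r1 ∨ Lr X B' r2 ∨ Lr X B' r3) →
        |∑ t ∈ rep3 (RQ Q1 X y) (RQ Q2 X y) (RQ Q3 X y) a1 a2 a3 N, r1 t.1 * (r2 t.2.1 * r3 t.2.2)| ≤
          A * (1 / 2 : ℝ) ^ (K / A) *
            (((RQ Q1 X y).card : ℝ) * (RQ Q2 X y).card * (RQ Q3 X y).card / X) := by
  obtain ⟨A, hA, H⟩ := tern_RQ k hk
  refine ⟨A, hA, fun K hK B' => ?_⟩
  obtain ⟨X0, y0, H⟩ := H K hK B'
  refine ⟨X0, y0, ?_⟩
  intro Q1 Q2 Q3 hQ1 hQ2 hQ3 X y hX hy hyX a1 a2 a3 ha1 ha2 ha3 N r1 r2 r3 h1 h2 h3 hL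
  have h := H Q1 Q2 Q3 hQ1 hQ2 hQ3 X y hX hy hyX a1 a2 a3 ha1 ha2 ha3 N (fun n => (r1 n : ℂ)) (fun n => (r2 n : ℂ))
    (fun n => (r3 n : ℂ)) (fun n => by rw [Complex.norm_real]; exact h1 n) (fun n => by rw [Complex.norm_real]; exact h2 n)
    (fun n => by rw [Complex.norm_real]; exact h3 n) (by
      rcases hL with h | h | h
      · exact Or.inl h.lw
      · exact Or.inr (Or.inl h.lw)
      · exact Or.inr (Or.inr h.lw))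
  refine le_trans (le_of_eq ?_) h
  unfold rep3
  rw [← Real.norm_eq_abs, ← Complex.norm_real]
  congr 1
  push_cast
  rfl

theorem bin_real (k : ℕ) (hk : 1 ≤ k) : ∃ A : ℕ, 1 ≤ A ∧ ∀ K : ℕ, A ≤ K →
    ∀ B' : ℕ, ∃ X0 y0 : ℕ, ∀ Q1 Q2 : ℕ → ℕ → Prop, Sv k Q1 → Sv k Q2 →
      ∀ X y : ℕ, X0 ≤ X → y0 ≤ y → y ^ K ≤ X → ∀ a1 a2 : ℤ, a1 ≠ 0 → a2 ≠ 0 →
      ∀ r1 r2 : ℕ → ℝ, (∀ n, |r1 n| ≤ 1) → (∀ n, |r2 n| ≤ 1) → (Lr X B' r1 ∨ Lr X B' r2) → ∀ U : Finset ℤ,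
        ∑ M ∈ U, (∑ t ∈ rep2 (RQ Q1 X y) (RQ Q2 X y) a1 a2 M, r1 t.1 * r2 t.2) ^ 2 ≤
          A * (1 / 2 : ℝ) ^ (K / A) *
            ((((RQ Q1 X y).card : ℝ) * (RQ Q2 X y).card) ^ 2 / X) := by
  obtain ⟨A, hA, H⟩ := bin_RQ k hk
  refine ⟨A, hA, fun K hK B' => ?_⟩
  obtain ⟨X0, y0, H⟩ := H K hK B'
  refine ⟨X0, y0, ?_⟩
  intro Q1 Q2 hQ1 hQ2 X y hX hy hyX a1 a2 ha1 ha2 r1 r2 h1 h2 hL U
  have h := H Q1 Q2 hQ1 hQ2 X y hX hy hyX a1 a2 ha1 ha2 (fun n => (r1 n : ℂ)) (fun n => (r2 n : ℂ))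
    (fun n => by rw [Complex.norm_real]; exact h1 n) (fun n => by rw [Complex.norm_real]; exact h2 n) (by
      rcases hL with h | h
      · exact Or.inl h.lw
      · exact Or.inr h.lw) U
  refine le_trans (le_of_eq ?_) h
  apply sum_congr rfl
  intro M _
  unfold rep2
  rw [← sq_abs, ← Real.norm_eq_abs, ← Complex.norm_real]
  congr 2
  push_cast
  rfl

lemma lz_cases (m : ℤ) : lz m = 1 ∨ lz m = -1 ∨ (lz m = 0 ∧ m = 0) := by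
  by_cases hm : m = 0
  · right; right
    rw [hm]
    exact ⟨lz_zero, rfl⟩
  · have h : lz m = (-1) ^ (ArithmeticFunction.cardFactors m.natAbs) := by
      unfold lz
      exact la_eq (by omega)
    rcases Nat.even_or_odd (ArithmeticFunction.cardFactors m.natAbs) with h1 | h1
    · left
      rw [h, h1.neg_one_pow]
    · right; left
      rw [h, h1.neg_one_pow]

/-- indicator of a value -/
noncomputable def ind (s : ℝ) (m : ℤ) : ℝ := if lz m = s then 1 else 0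

/-- indicator of zero -/
noncomputable def zr (m : ℤ) : ℝ := if m = 0 then 1 else 0

lemma ind_eq {s : ℝ} (hs : s = 1 ∨ s = -1) (m : ℤ) : 2 * ind s m = 1 + s * lz m - zr m := by
  unfold ind zr
  by_cases hm : m = 0
  · rw [if_pos hm, hm, lz_zero]
    rcases hs with rfl | rfl
    · rw [if_neg (by norm_num)]; norm_num
    · rw [if_neg (by norm_num)]; norm_num
  · rw [if_neg hm]
    rcases lz_cases m with h | h | ⟨_, h⟩
    · rw [h]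
      rcases hs with rfl | rfl
      · rw [if_pos rfl]; norm_num
      · rw [if_neg (by norm_num)]; norm_num
    · rw [h]
      rcases hs with rfl | rfl
      · rw [if_neg (by norm_num)]; norm_num
      · rw [if_pos rfl]; norm_num
    · exact absurd h hm

lemma pat_pt3 {s1 s2 s3 : ℝ} (h1 : s1 = 1 ∨ s1 = -1) (h2 : s2 = 1 ∨ s2 = -1) (h3 : s3 = 1 ∨ s3 = -1) (m1 m2 m3 : ℤ) :
    |8 * (ind s1 m1 * (ind s2 m2 * ind s3 m3)) - (1 + s1 * lz m1) * ((1 + s2 * lz m2) * (1 + s3 * lz m3))| ≤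
      4 * (zr m1 + zr m2 + zr m3) := by
  have e1 := ind_eq h1 m1
  have e2 := ind_eq h2 m2
  have e3 := ind_eq h3 m3
  obtain ⟨u, hu⟩ : ∃ u, u = 1 + s1 * lz m1 := ⟨_, rfl⟩
  obtain ⟨v, hv⟩ : ∃ v, v = 1 + s2 * lz m2 := ⟨_, rfl⟩
  obtain ⟨w, hw⟩ : ∃ w, w = 1 + s3 * lz m3 := ⟨_, rfl⟩
  have bd : ∀ (s : ℝ) (m : ℤ), (s = 1 ∨ s = -1) → 0 ≤ 1 + s * lz m ∧ 1 + s * lz m ≤ 2 ∧ (m = 0 → 1 + s * lz m = 1) ∧
      (ind s m = 0 ∨ zr m = 0) ∧ (zr m = 0 ∨ zr m = 1 ∧ m = 0) := by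
    intro s m hs
    refine ⟨?_, ?_, ?_, ?_, ?_⟩
    · rcases lz_cases m with h | h | ⟨h, _⟩ <;> rcases hs with rfl | rfl <;> rw [h] <;> norm_num
    · rcases lz_cases m with h | h | ⟨h, _⟩ <;> rcases hs with rfl | rfl <;> rw [h] <;> norm_num
    · intro h
      rw [h, lz_zero, mul_zero, add_zero]
    · by_cases hm : m = 0
      · left
        unfold ind
        rw [hm, lz_zero]
        rcases hs with rfl | rfl
        · rw [if_neg (by norm_num)]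
        · rw [if_neg (by norm_num)]
      · right
        unfold zr
        rw [if_neg hm]
    · by_cases hm : m = 0
      · right
        unfold zr
        rw [if_pos hm]
        exact ⟨rfl, hm⟩
      · left
        unfold zr
        rw [if_neg hm]
  obtain ⟨a1, a2, a3, a4, a5⟩ := bd s1 m1 h1
  obtain ⟨b1, b2, b3, b4, b5⟩ := bd s2 m2 h2
  obtain ⟨c1, c2, c3, c4, c5⟩ := bd s3 m3 h3
  rw [← hu] at a1 a2 a3 e1 ⊢
  rw [← hv] at b1 b2 b3 e2 ⊢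
  rw [← hw] at c1 c2 c3 e3 ⊢
  have f1 : ind s1 m1 = (u - zr m1) / 2 := by linarith
  have f2 : ind s2 m2 = (v - zr m2) / 2 := by linarith
  have f3 : ind s3 m3 = (w - zr m3) / 2 := by linarith
  rw [f1, f2, f3]
  have hvw : 0 ≤ v * w := mul_nonneg b1 c1
  have hvw4 : v * w ≤ 4 := by nlinarith
  have huw : 0 ≤ u * w := mul_nonneg a1 c1
  have huw4 : u * w ≤ 4 := by nlinarith
  have huv : 0 ≤ u * v := mul_nonneg a1 b1
  have huv4 : u * v ≤ 4 := by nlinarith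
  rcases a5 with z1 | ⟨z1, z1'⟩ <;> rcases b5 with z2 | ⟨z2, z2'⟩ <;> rcases c5 with z3 | ⟨z3, z3'⟩ <;>
    rw [z1, z2, z3] <;> (try have := a3 z1') <;> (try have := b3 z2') <;> (try have := c3 z3') <;> subst_vars <;>
    rw [abs_le] <;> constructor <;> nlinarith

lemma ind_zr {s : ℝ} (hs : s = 1 ∨ s = -1) (m : ℤ) :
    0 ≤ 1 + s * lz m ∧ 1 + s * lz m ≤ 2 ∧ (zr m = 0 ∨ zr m = 1 ∧ 1 + s * lz m = 1) := by
  refine ⟨?_, ?_, ?_⟩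
  · rcases lz_cases m with h | h | ⟨h, _⟩ <;> rcases hs with rfl | rfl <;> rw [h] <;> norm_num
  · rcases lz_cases m with h | h | ⟨h, _⟩ <;> rcases hs with rfl | rfl <;> rw [h] <;> norm_num
  · by_cases hm : m = 0
    · right
      unfold zr
      rw [if_pos hm, hm, lz_zero]
      simp
    · left
      unfold zr
      rw [if_neg hm]

lemma pat_pt2 {s1 s2 : ℝ} (h1 : s1 = 1 ∨ s1 = -1) (h2 : s2 = 1 ∨ s2 = -1) (m1 m2 : ℤ) :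
    |4 * (ind s1 m1 * ind s2 m2) - (1 + s1 * lz m1) * (1 + s2 * lz m2)| ≤ 2 * (zr m1 + zr m2) := by
  have e1 := ind_eq h1 m1
  have e2 := ind_eq h2 m2
  obtain ⟨a1, a2, a5⟩ := ind_zr h1 m1
  obtain ⟨b1, b2, b5⟩ := ind_zr h2 m2
  obtain ⟨u, hu⟩ : ∃ u, u = 1 + s1 * lz m1 := ⟨_, rfl⟩
  obtain ⟨v, hv⟩ : ∃ v, v = 1 + s2 * lz m2 := ⟨_, rfl⟩
  rw [← hu] at a1 a2 a5 e1 ⊢
  rw [← hv] at b1 b2 b5 e2 ⊢
  have f1 : ind s1 m1 = (u - zr m1) / 2 := by linarith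
  have f2 : ind s2 m2 = (v - zr m2) / 2 := by linarith
  rw [f1, f2]
  rcases a5 with z1 | ⟨z1, z1'⟩ <;> rcases b5 with z2 | ⟨z2, z2'⟩ <;>
    rw [z1, z2] <;> subst_vars <;> rw [abs_le] <;> constructor <;> nlinarith

end Pool.Agent.H530.Hz
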