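import Pool.Agent.H530.HzJ

/-! The patterns: counting. -/

set_option autoImplicit false

namespace Pool.Agent.H530.Hz

open Finset Pool.Agent.H530.Ha
open Pool.Agent.H373R2.T7 hiding RQ

/-- few triples with a given entry -/
lemma few1 {S1 S2 S3 : Finset ℕ} {a1 a2 a3 N : ℤ} (h3 : a3 ≠ 0) (b : ℤ) :
    ∑ t ∈ rep3 S1 S2 S3 a1 a2 a3 N, zr ((t.1 : ℤ) + b) ≤ S2.card := by
  classical
  unfold zr
  rw [← sum_filter, sum_const, nsmul_eq_mul, mul_one]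
  have h : ((rep3 S1 S2 S3 a1 a2 a3 N).filter (fun t => (t.1 : ℤ) + b = 0)).card ≤ S2.card := by
    apply card_le_card_of_injOn (fun t => t.2.1)
    · intro t ht
      rw [mem_coe, mem_filter] at ht
      unfold rep3 at ht
      rw [mem_filter, mem_product, mem_product] at ht
      exact ht.1.1.2.1
    · intro t ht s hs hts
      rw [mem_coe, mem_filter] at ht hs
      unfold rep3 at ht hs
      rw [mem_filter] at ht hs
      simp only at hts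
      have e1 : (t.1 : ℤ) = s.1 := by have := ht.2; have := hs.2; omega
      have e2 : (t.2.1 : ℤ) = s.2.1 := by exact_mod_cast hts
      have e3 := ht.1.2
      have e4 := hs.1.2
      rw [← e1, ← e2] at e4
      have e5 : a3 * ((t.2.2 : ℤ) - s.2.2) = 0 := by linarith
      rcases mul_eq_zero.1 e5 with h | h
      · exact absurd h h3
      · have e6 : (t.2.2 : ℤ) = s.2.2 := by linarith
        ext
        · exact_mod_cast e1
        · exact_mod_cast e2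
        · exact_mod_cast e6
  exact_mod_cast h

lemma few2 {S1 S2 S3 : Finset ℕ} {a1 a2 a3 N : ℤ} (h3 : a3 ≠ 0) (b : ℤ) :
    ∑ t ∈ rep3 S1 S2 S3 a1 a2 a3 N, zr ((t.2.1 : ℤ) + b) ≤ S1.card := by
  classical
  unfold zr
  rw [← sum_filter, sum_const, nsmul_eq_mul, mul_one]
  have h : ((rep3 S1 S2 S3 a1 a2 a3 N).filter (fun t => (t.2.1 : ℤ) + b = 0)).card ≤ S1.card := by
    apply card_le_card_of_injOn (fun t => t.1)
    · intro t ht
      rw [mem_coe, mem_filter] at ht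
      unfold rep3 at ht
      rw [mem_filter, mem_product, mem_product] at ht
      exact ht.1.1.1
    · intro t ht s hs hts
      rw [mem_coe, mem_filter] at ht hs
      unfold rep3 at ht hs
      rw [mem_filter] at ht hs
      simp only at hts
      have e1 : (t.2.1 : ℤ) = s.2.1 := by have := ht.2; have := hs.2; omega
      have e2 : (t.1 : ℤ) = s.1 := by exact_mod_cast hts
      have e3 := ht.1.2
      have e4 := hs.1.2
      rw [← e1, ← e2] at e4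
      have e5 : a3 * ((t.2.2 : ℤ) - s.2.2) = 0 := by linarith
      rcases mul_eq_zero.1 e5 with h | h
      · exact absurd h h3
      · have e6 : (t.2.2 : ℤ) = s.2.2 := by linarith
        ext
        · exact_mod_cast e2
        · exact_mod_cast e1
        · exact_mod_cast e6
  exact_mod_cast h

lemma few3 {S1 S2 S3 : Finset ℕ} {a1 a2 a3 N : ℤ} (h2 : a2 ≠ 0) (b : ℤ) :
    ∑ t ∈ rep3 S1 S2 S3 a1 a2 a3 N, zr ((t.2.2 : ℤ) + b) ≤ S1.card := by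
  classical
  unfold zr
  rw [← sum_filter, sum_const, nsmul_eq_mul, mul_one]
  have h : ((rep3 S1 S2 S3 a1 a2 a3 N).filter (fun t => (t.2.2 : ℤ) + b = 0)).card ≤ S1.card := by
    apply card_le_card_of_injOn (fun t => t.1)
    · intro t ht
      rw [mem_coe, mem_filter] at ht
      unfold rep3 at ht
      rw [mem_filter, mem_product, mem_product] at ht
      exact ht.1.1.1
    · intro t ht s hs hts
      rw [mem_coe, mem_filter] at ht hs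
      unfold rep3 at ht hs
      rw [mem_filter] at ht hs
      simp only at hts
      have e1 : (t.2.2 : ℤ) = s.2.2 := by have := ht.2; have := hs.2; omega
      have e2 : (t.1 : ℤ) = s.1 := by exact_mod_cast hts
      have e3 := ht.1.2
      have e4 := hs.1.2
      rw [← e1, ← e2] at e4
      have e5 : a2 * ((t.2.1 : ℤ) - s.2.1) = 0 := by linarith
      rcases mul_eq_zero.1 e5 with h | h
      · exact absurd h h2
      · have e6 : (t.2.1 : ℤ) = s.2.1 := by linarith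
        ext
        · exact_mod_cast e2
        · exact_mod_cast e6
        · exact_mod_cast e1
  exact_mod_cast h

lemma few21 {S1 S2 : Finset ℕ} {a1 a2 N : ℤ} (h2 : a2 ≠ 0) (b : ℤ) :
    ∑ t ∈ rep2 S1 S2 a1 a2 N, zr ((t.1 : ℤ) + b) ≤ 1 := by
  classical
  unfold zr
  rw [← sum_filter, sum_const, nsmul_eq_mul, mul_one]
  have h : ((rep2 S1 S2 a1 a2 N).filter (fun t => (t.1 : ℤ) + b = 0)).card ≤ 1 := by
    rw [card_le_one]
    intro t ht s hs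
    rw [mem_filter] at ht hs
    unfold rep2 at ht hs
    rw [mem_filter] at ht hs
    have e1 : (t.1 : ℤ) = s.1 := by have := ht.2; have := hs.2; omega
    have e3 := ht.1.2
    have e4 := hs.1.2
    rw [← e1] at e4
    have e5 : a2 * ((t.2 : ℤ) - s.2) = 0 := by linarith
    rcases mul_eq_zero.1 e5 with h | h
    · exact absurd h h2
    · have e6 : (t.2 : ℤ) = s.2 := by linarith
      ext
      · exact_mod_cast e1
      · exact_mod_cast e6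
  exact_mod_cast h

lemma few22 {S1 S2 : Finset ℕ} {a1 a2 N : ℤ} (h1 : a1 ≠ 0) (b : ℤ) :
    ∑ t ∈ rep2 S1 S2 a1 a2 N, zr ((t.2 : ℤ) + b) ≤ 1 := by
  classical
  unfold zr
  rw [← sum_filter, sum_const, nsmul_eq_mul, mul_one]
  have h : ((rep2 S1 S2 a1 a2 N).filter (fun t => (t.2 : ℤ) + b = 0)).card ≤ 1 := by
    rw [card_le_one]
    intro t ht s hs
    rw [mem_filter] at ht hs
    unfold rep2 at ht hs
    rw [mem_filter] at ht hs
    have e1 : (t.2 : ℤ) = s.2 := by have := ht.2; have := hs.2; omega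
    have e3 := ht.1.2
    have e4 := hs.1.2
    rw [← e1] at e4
    have e5 : a1 * ((t.1 : ℤ) - s.1) = 0 := by linarith
    rcases mul_eq_zero.1 e5 with h | h
    · exact absurd h h1
    · have e6 : (t.1 : ℤ) = s.1 := by linarith
      ext
      · exact_mod_cast e6
      · exact_mod_cast e1
  exact_mod_cast h

/-- the number of the triples with a given pattern -/
noncomputable def pat3 (R : Finset (ℕ × (ℕ × ℕ))) (b1 b2 b3 : ℤ) (s1 s2 s3 : ℝ) : ℝ :=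
  ∑ t ∈ R, ind s1 ((t.1 : ℤ) + b1) * (ind s2 ((t.2.1 : ℤ) + b2) * ind s3 ((t.2.2 : ℤ) + b3))

/-- the number of the pairs with a given pattern -/
noncomputable def pat2 (R : Finset (ℕ × ℕ)) (b1 b2 : ℤ) (s1 s2 : ℝ) : ℝ :=
  ∑ t ∈ R, ind s1 ((t.1 : ℤ) + b1) * ind s2 ((t.2 : ℤ) + b2)

lemma sgn_abs {s : ℝ} (hs : s = 1 ∨ s = -1) : |s| = 1 := by
  rcases hs with rfl | rfl
  · exact abs_one
  · rw [abs_neg, abs_one]

lemma lr_shift {X B' : ℕ} {b : ℤ} (hb : |(b : ℝ)| ≤ X * Real.log X ^ B') : Lr X B' (fun n => lz ((n : ℤ) + b)) :=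
  ⟨b, hb, fun _ => rfl⟩

/-- **all patterns are equally frequent, ternary equations** -/
theorem pat3_all (k : ℕ) (hk : 1 ≤ k) : ∃ A : ℕ, 1 ≤ A ∧ ∀ K : ℕ, A ≤ K →
    ∀ B' : ℕ, ∃ X0 y0 : ℕ, ∀ Q1 Q2 Q3 : ℕ → ℕ → Prop, Sv k Q1 → Sv k Q2 → Sv k Q3 →
      ∀ X y : ℕ, X0 ≤ X → y0 ≤ y → y ^ K ≤ X → ∀ a1 a2 a3 : ℤ, a1 ≠ 0 → a2 ≠ 0 → a3 ≠ 0 → ∀ N : ℤ,
      ∀ b1 b2 b3 : ℤ, |(b1 : ℝ)| ≤ X * Real.log X ^ B' → |(b2 : ℝ)| ≤ X * Real.log X ^ B' →
        |(b3 : ℝ)| ≤ X * Real.log X ^ B' → ∀ s1 s2 s3 : ℝ, (s1 = 1 ∨ s1 = -1) → (s2 = 1 ∨ s2 = -1) →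
        (s3 = 1 ∨ s3 = -1) →
        |8 * pat3 (rep3 (RQ Q1 X y) (RQ Q2 X y) (RQ Q3 X y) a1 a2 a3 N) b1 b2 b3 s1 s2 s3 -
          (rep3 (RQ Q1 X y) (RQ Q2 X y) (RQ Q3 X y) a1 a2 a3 N).card| ≤
          A * (1 / 2 : ℝ) ^ (K / A) *
            (((RQ Q1 X y).card : ℝ) * (RQ Q2 X y).card * (RQ Q3 X y).card / X) := by
  obtain ⟨A, hA, H⟩ := tern_real k hk
  obtain ⟨c, hc, H3⟩ := all_F k hk
  obtain ⟨K3, hK3, H3⟩ := H3 1 one_pos
  refine ⟨8 * A + K3, by omega, fun K hK B' => ?_⟩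
  obtain ⟨X0, y0, H⟩ := H K (by omega) B'
  obtain ⟨X3, y3, H3⟩ := H3 0
  obtain ⟨e, he⟩ : ∃ e : ℝ, e = (1 / 2 : ℝ) ^ (K / (8 * A + K3)) := ⟨_, rfl⟩
  have he0 : 0 < e := by rw [he]; positivity
  have hee : (1 / 2 : ℝ) ^ (K / A) ≤ e := by
    rw [he]
    apply pow_le_pow_of_le_one (by norm_num) (by norm_num)
    exact Nat.div_le_div_left (by omega) (by omega)
  obtain ⟨X4, hX4⟩ := ev_log' (3 * k) (12 / (e * c ^ 3))
  obtain ⟨X5, hX5⟩ := ev_L' 1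
  refine ⟨X0 + X3 + X4 + X5 + 1, y0 + y3 + 1, ?_⟩
  intro Q1 Q2 Q3 hQ1 hQ2 hQ3 X y hX hy hyX a1 a2 a3 ha1 ha2 ha3 N b1 b2 b3 hb1 hb2 hb3 s1 s2 s3 hs1 hs2 hs3
  have hXr : (1 : ℝ) ≤ X := by exact_mod_cast (by omega : 1 ≤ X)
  have hyK3 := (Nat.pow_le_pow_right (show 1 ≤ y by omega) (show K3 ≤ K by omega)).trans hyX
  obtain ⟨g1, _, _⟩ := H3 Q1 hQ1 X y (by omega) (by omega) hyK3
  obtain ⟨g2, _, _⟩ := H3 Q2 hQ2 X y (by omega) (by omega) hyK3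
  obtain ⟨g3, _, _⟩ := H3 Q3 hQ3 X y (by omega) (by omega) hyK3
  have hlog := hX4 X (by omega)
  have hL1 := hX5 X (by omega)
  have HH := H Q1 Q2 Q3 hQ1 hQ2 hQ3 X y (by omega) (by omega) hyX a1 a2 a3 ha1 ha2 ha3 N
  obtain ⟨R, hR⟩ : ∃ R, R = rep3 (RQ Q1 X y) (RQ Q2 X y) (RQ Q3 X y) a1 a2 a3 N := ⟨_, rfl⟩
  obtain ⟨G1, hG1⟩ : ∃ G : ℝ, G = ((RQ Q1 X y).card : ℝ) := ⟨_, rfl⟩
  obtain ⟨G2, hG2⟩ : ∃ G : ℝ, G = ((RQ Q2 X y).card : ℝ) := ⟨_, rfl⟩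
  obtain ⟨G3, hG3⟩ : ∃ G : ℝ, G = ((RQ Q3 X y).card : ℝ) := ⟨_, rfl⟩
  have hz1 := few1 (S1 := RQ Q1 X y) (S2 := RQ Q2 X y) (S3 := RQ Q3 X y) (a1 := a1) (a2 := a2) (N := N) ha3 b1
  have hz2 := few2 (S1 := RQ Q1 X y) (S2 := RQ Q2 X y) (S3 := RQ Q3 X y) (a1 := a1) (a2 := a2) (N := N) ha3 b2
  have hz3 := few3 (S1 := RQ Q1 X y) (S2 := RQ Q2 X y) (S3 := RQ Q3 X y) (a1 := a1) (a3 := a3) (N := N) ha2 b3
  have hGX1 : ((RQ Q1 X y).card : ℝ) ≤ X := by exact_mod_cast card_RQ_le _ _ _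
  have hGX2 : ((RQ Q2 X y).card : ℝ) ≤ X := by exact_mod_cast card_RQ_le _ _ _
  rw [← hR] at HH hz1 hz2 hz3 ⊢
  rw [← hG1] at g1 HH hGX1 hz2 hz3 ⊢
  rw [← hG2] at g2 HH hGX2 hz1 ⊢
  rw [← hG3] at g3 HH ⊢
  obtain ⟨E, hE⟩ : ∃ E : ℝ, E = A * (1 / 2 : ℝ) ^ (K / A) * (G1 * G2 * G3 / X) := ⟨_, rfl⟩
  rw [← hE] at HH
  have one : ∀ n : ℕ, |(1 : ℝ)| ≤ 1 := fun _ => by simp
  have lb : ∀ b : ℤ, ∀ n : ℕ, |lz ((n : ℤ) + b)| ≤ 1 := fun b n => lz_abs _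
  have t1 := HH (fun n => lz ((n : ℤ) + b1)) (fun _ => 1) (fun _ => 1) (lb b1) one one (Or.inl (lr_shift hb1))
  have t2 := HH (fun _ => 1) (fun n => lz ((n : ℤ) + b2)) (fun _ => 1) one (lb b2) one (Or.inr (Or.inl (lr_shift hb2)))
  have t3 := HH (fun _ => 1) (fun _ => 1) (fun n => lz ((n : ℤ) + b3)) one one (lb b3) (Or.inr (Or.inr (lr_shift hb3)))
  have t12 := HH (fun n => lz ((n : ℤ) + b1)) (fun n => lz ((n : ℤ) + b2)) (fun _ => 1) (lb b1) (lb b2) one (Or.inl (lr_shift hb1))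
  have t13 := HH (fun n => lz ((n : ℤ) + b1)) (fun _ => 1) (fun n => lz ((n : ℤ) + b3)) (lb b1) one (lb b3) (Or.inl (lr_shift hb1))
  have t23 := HH (fun _ => 1) (fun n => lz ((n : ℤ) + b2)) (fun n => lz ((n : ℤ) + b3)) one (lb b2) (lb b3) (Or.inr (Or.inl (lr_shift hb2)))
  have t123 := HH (fun n => lz ((n : ℤ) + b1)) (fun n => lz ((n : ℤ) + b2)) (fun n => lz ((n : ℤ) + b3)) (lb b1) (lb b2) (lb b3) (Or.inl (lr_shift hb1))
  simp only [one_mul, mul_one] at t1 t2 t3 t12 t13 t23 t123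
  -- the expansion
  have hexp : ∑ t ∈ R, (1 + s1 * lz ((t.1 : ℤ) + b1)) * ((1 + s2 * lz ((t.2.1 : ℤ) + b2)) * (1 + s3 * lz ((t.2.2 : ℤ) + b3))) =
      (R.card : ℝ) + s1 * ∑ t ∈ R, lz ((t.1 : ℤ) + b1) + s2 * ∑ t ∈ R, lz ((t.2.1 : ℤ) + b2) +
      s3 * ∑ t ∈ R, lz ((t.2.2 : ℤ) + b3) + s1 * s2 * ∑ t ∈ R, lz ((t.1 : ℤ) + b1) * lz ((t.2.1 : ℤ) + b2) +
      s1 * s3 * ∑ t ∈ R, lz ((t.1 : ℤ) + b1) * lz ((t.2.2 : ℤ) + b3) +
      s2 * s3 * ∑ t ∈ R, lz ((t.2.1 : ℤ) + b2) * lz ((t.2.2 : ℤ) + b3) +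
      s1 * s2 * s3 * ∑ t ∈ R, lz ((t.1 : ℤ) + b1) * (lz ((t.2.1 : ℤ) + b2) * lz ((t.2.2 : ℤ) + b3)) := by
    rw [card_eq_sum_ones, Nat.cast_sum]
    simp only [mul_sum, ← sum_add_distrib]
    apply sum_congr rfl
    intro t _
    push_cast
    ring
  have habs : ∀ s x : ℝ, |s| = 1 → |x| ≤ E → |s * x| ≤ E := by
    intro s x hs hx
    rw [abs_mul, hs, one_mul]
    exact hx
  have a1' := sgn_abs hs1
  have a2' := sgn_abs hs2
  have a3' := sgn_abs hs3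
  have u1 := habs s1 _ a1' t1
  have u2 := habs s2 _ a2' t2
  have u3 := habs s3 _ a3' t3
  have u12 := habs (s1 * s2) _ (by rw [abs_mul, a1', a2', one_mul]) t12
  have u13 := habs (s1 * s3) _ (by rw [abs_mul, a1', a3', one_mul]) t13
  have u23 := habs (s2 * s3) _ (by rw [abs_mul, a2', a3', one_mul]) t23
  have u123 := habs (s1 * s2 * s3) _ (by rw [abs_mul, abs_mul, a1', a2', a3', one_mul, one_mul]) t123
  have hmain : |∑ t ∈ R, (1 + s1 * lz ((t.1 : ℤ) + b1)) * ((1 + s2 * lz ((t.2.1 : ℤ) + b2)) * (1 + s3 * lz ((t.2.2 : ℤ) + b3))) -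
      R.card| ≤ 7 * E := by
    rw [hexp]
    rw [abs_le] at u1 u2 u3 u12 u13 u23 u123 ⊢
    constructor <;> linarith [u1.1, u1.2, u2.1, u2.2, u3.1, u3.2, u12.1, u12.2, u13.1, u13.2, u23.1, u23.2, u123.1, u123.2]
  have herr : |8 * pat3 R b1 b2 b3 s1 s2 s3 -
      ∑ t ∈ R, (1 + s1 * lz ((t.1 : ℤ) + b1)) * ((1 + s2 * lz ((t.2.1 : ℤ) + b2)) * (1 + s3 * lz ((t.2.2 : ℤ) + b3)))| ≤
      12 * X := by
    unfold pat3
    rw [mul_sum, ← sum_sub_distrib]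
    refine (abs_sum_le_sum_abs _ _).trans ?_
    refine (sum_le_sum fun t _ => pat_pt3 hs1 hs2 hs3 _ _ _).trans ?_
    rw [← mul_sum, sum_add_distrib, sum_add_distrib]
    linarith
  -- the error is small
  have hsmall : 12 * (X : ℝ) ≤ e * (G1 * G2 * G3 / X) := by
    have hLk : 0 < Real.log X ^ k := by positivity
    have hg : c ^ 3 * (X ^ 3 / Real.log X ^ (3 * k)) ≤ G1 * G2 * G3 := by
      have e1 : c ^ 3 * (X ^ 3 / Real.log X ^ (3 * k)) =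
          (c * (X / Real.log X ^ k)) * (c * (X / Real.log X ^ k)) * (c * (X / Real.log X ^ k)) := by
        rw [mul_comm 3 k, pow_mul]
        field_simp
      rw [e1]
      have p0 : 0 ≤ c * (X / Real.log X ^ k) := by positivity
      exact mul_le_mul (mul_le_mul g1 g2 p0 (p0.trans g1)) g3 p0 (mul_nonneg (p0.trans g1) (p0.trans g2))
    have hs0 : 0 ≤ √(X : ℝ) := Real.sqrt_nonneg _
    have hss : √(X : ℝ) * √(X : ℝ) = X := Real.mul_self_sqrt (by linarith)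
    have hs1' : 1 ≤ √(X : ℝ) := by
      rw [show (1 : ℝ) = √1 by simp]
      exact Real.sqrt_le_sqrt hXr
    have h6 : 12 / (e * c ^ 3) * Real.log X ^ (3 * k) ≤ X := by
      refine le_trans hlog ?_
      nlinarith
    have hL3 : 0 < Real.log X ^ (3 * k) := by positivity
    have h7 : 12 * Real.log X ^ (3 * k) ≤ e * c ^ 3 * X := by
      rw [div_mul_eq_mul_div, div_le_iff₀ (by positivity)] at h6
      linarith
    have h8 : 12 * (X : ℝ) ≤ e * (c ^ 3 * (X ^ 3 / Real.log X ^ (3 * k)) / X) := by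
      have e2 : e * (c ^ 3 * (X ^ 3 / Real.log X ^ (3 * k)) / X) = e * c ^ 3 * X * X / Real.log X ^ (3 * k) := by
        field_simp
      rw [e2, le_div_iff₀ hL3]
      nlinarith
    refine h8.trans ?_
    apply mul_le_mul_of_nonneg_left _ he0.le
    exact div_le_div_of_nonneg_right hg (by linarith)
  have hGG : 0 ≤ G1 * G2 * G3 / X := by
    have : 0 ≤ G1 := by rw [hG1]; exact Nat.cast_nonneg _
    have : 0 ≤ G2 := by rw [hG2]; exact Nat.cast_nonneg _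
    have : 0 ≤ G3 := by rw [hG3]; exact Nat.cast_nonneg _
    positivity
  have hE2 : 7 * E ≤ 7 * A * e * (G1 * G2 * G3 / X) := by
    rw [hE]
    have : (A : ℝ) * (1 / 2 : ℝ) ^ (K / A) ≤ A * e := mul_le_mul_of_nonneg_left hee (Nat.cast_nonneg _)
    have := mul_le_mul_of_nonneg_right this hGG
    linarith
  rw [← he]
  have hA1 : (1 : ℝ) ≤ A := by exact_mod_cast hA
  have hK30 : (0 : ℝ) ≤ K3 := Nat.cast_nonneg _
  obtain ⟨Y, hY⟩ : ∃ Y : ℝ, Y = e * (G1 * G2 * G3 / X) := ⟨_, rfl⟩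
  have hY0 : 0 ≤ Y := by rw [hY]; positivity
  have hfin : ((8 * A + K3 : ℕ) : ℝ) * e * (G1 * G2 * G3 / X) = (8 * A + K3) * Y := by
    rw [hY]
    push_cast
    ring
  rw [hfin]
  have h9 : 7 * E ≤ 7 * A * Y := by
    rw [hY]
    linarith
  rw [← hY] at hsmall
  have h10 : 7 * A * Y + Y ≤ (8 * A + K3) * Y := by nlinarith
  have h11 := abs_sub_le (8 * pat3 R b1 b2 b3 s1 s2 s3)
    (∑ t ∈ R, (1 + s1 * lz ((t.1 : ℤ) + b1)) * ((1 + s2 * lz ((t.2.1 : ℤ) + b2)) * (1 + s3 * lz ((t.2.2 : ℤ) + b3))))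
    (R.card : ℝ)
  linarith

end Pool.Agent.H530.Hz
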