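import Pool.Agent.H530.HzK

/-! The patterns for binary equations. -/

set_option autoImplicit false

namespace Pool.Agent.H530.Hz

open Finset Pool.Agent.H530.Ha
open Pool.Agent.H373R2.T7 hiding RQ

/-- **all patterns are equally frequent, binary equations, in the mean square** -/
theorem pat2_all (k : ℕ) (hk : 1 ≤ k) : ∃ A : ℕ, 1 ≤ A ∧ ∀ K : ℕ, A ≤ K →
    ∀ B' : ℕ, ∃ X0 y0 : ℕ, ∀ Q1 Q2 : ℕ → ℕ → Prop, Sv k Q1 → Sv k Q2 →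
      ∀ X y : ℕ, X0 ≤ X → y0 ≤ y → y ^ K ≤ X → ∀ a1 a2 : ℤ, a1 ≠ 0 → a2 ≠ 0 →
      ∀ b1 b2 : ℤ, |(b1 : ℝ)| ≤ X * Real.log X ^ B' → |(b2 : ℝ)| ≤ X * Real.log X ^ B' →
        ∀ s1 s2 : ℝ, (s1 = 1 ∨ s1 = -1) → (s2 = 1 ∨ s2 = -1) → ∀ U : Finset ℤ, (U.card : ℝ) ≤ 4 * X →
        ∑ M ∈ U, (4 * pat2 (rep2 (RQ Q1 X y) (RQ Q2 X y) a1 a2 M) b1 b2 s1 s2 -
          (rep2 (RQ Q1 X y) (RQ Q2 X y) a1 a2 M).card) ^ 2 ≤
          A * (1 / 2 : ℝ) ^ (K / A) * ((((RQ Q1 X y).card : ℝ) * (RQ Q2 X y).card) ^ 2 / X) := by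
  obtain ⟨A, hA, H⟩ := bin_real k hk
  obtain ⟨c, hc, H3⟩ := all_F k hk
  obtain ⟨K3, hK3, H3⟩ := H3 1 one_pos
  refine ⟨13 * A + K3, by omega, fun K hK B' => ?_⟩
  obtain ⟨X0, y0, H⟩ := H K (by omega) B'
  obtain ⟨X3, y3, H3⟩ := H3 0
  obtain ⟨e, he⟩ : ∃ e : ℝ, e = (1 / 2 : ℝ) ^ (K / (13 * A + K3)) := ⟨_, rfl⟩
  have he0 : 0 < e := by rw [he]; positivity
  have hee : (1 / 2 : ℝ) ^ (K / A) ≤ e := by
    rw [he]
    apply pow_le_pow_of_le_one (by norm_num) (by norm_num)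
    exact Nat.div_le_div_left (by omega) (by omega)
  obtain ⟨X4, hX4⟩ := ev_log' (4 * k) (256 / (e * c ^ 4))
  obtain ⟨X5, hX5⟩ := ev_L' 1
  refine ⟨X0 + X3 + X4 + X5 + 1, y0 + y3 + 1, ?_⟩
  intro Q1 Q2 hQ1 hQ2 X y hX hy hyX a1 a2 ha1 ha2 b1 b2 hb1 hb2 s1 s2 hs1 hs2 U hU
  have hXr : (1 : ℝ) ≤ X := by exact_mod_cast (by omega : 1 ≤ X)
  have hyK3 := (Nat.pow_le_pow_right (show 1 ≤ y by omega) (show K3 ≤ K by omega)).trans hyX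
  obtain ⟨g1, _, _⟩ := H3 Q1 hQ1 X y (by omega) (by omega) hyK3
  obtain ⟨g2, _, _⟩ := H3 Q2 hQ2 X y (by omega) (by omega) hyK3
  have hlog := hX4 X (by omega)
  have hL1 := hX5 X (by omega)
  have HH := H Q1 Q2 hQ1 hQ2 X y (by omega) (by omega) hyX a1 a2 ha1 ha2
  obtain ⟨R, hR⟩ : ∃ R : ℤ → Finset (ℕ × ℕ), R = fun M => rep2 (RQ Q1 X y) (RQ Q2 X y) a1 a2 M := ⟨_, rfl⟩
  have hRM : ∀ M, rep2 (RQ Q1 X y) (RQ Q2 X y) a1 a2 M = R M := fun M => by rw [hR]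
  have hz1 := fun M => few21 (S1 := RQ Q1 X y) (S2 := RQ Q2 X y) (a1 := a1) (N := M) ha2 b1
  have hz2 := fun M => few22 (S1 := RQ Q1 X y) (S2 := RQ Q2 X y) (a2 := a2) (N := M) ha1 b2
  obtain ⟨G1, hG1⟩ : ∃ G : ℝ, G = ((RQ Q1 X y).card : ℝ) := ⟨_, rfl⟩
  obtain ⟨G2, hG2⟩ : ∃ G : ℝ, G = ((RQ Q2 X y).card : ℝ) := ⟨_, rfl⟩
  simp only [hRM] at HH hz1 hz2 ⊢
  rw [← hG1] at g1 HH ⊢
  rw [← hG2] at g2 HH ⊢
  obtain ⟨E, hE⟩ : ∃ E : ℝ, E = A * (1 / 2 : ℝ) ^ (K / A) * ((G1 * G2) ^ 2 / X) := ⟨_, rfl⟩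
  rw [← hE] at HH
  have one : ∀ n : ℕ, |(1 : ℝ)| ≤ 1 := fun _ => by simp
  have lb : ∀ b : ℤ, ∀ n : ℕ, |lz ((n : ℤ) + b)| ≤ 1 := fun b n => lz_abs _
  have t1 := HH (fun n => lz ((n : ℤ) + b1)) (fun _ => 1) (lb b1) one (Or.inl (lr_shift hb1)) U
  have t2 := HH (fun _ => 1) (fun n => lz ((n : ℤ) + b2)) one (lb b2) (Or.inr (lr_shift hb2)) U
  have t12 := HH (fun n => lz ((n : ℤ) + b1)) (fun n => lz ((n : ℤ) + b2)) (lb b1) (lb b2) (Or.inl (lr_shift hb1)) U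
  simp only [one_mul, mul_one] at t1 t2 t12
  have hexp : ∀ M, ∑ t ∈ R M, (1 + s1 * lz ((t.1 : ℤ) + b1)) * (1 + s2 * lz ((t.2 : ℤ) + b2)) =
      ((R M).card : ℝ) + s1 * ∑ t ∈ R M, lz ((t.1 : ℤ) + b1) + s2 * ∑ t ∈ R M, lz ((t.2 : ℤ) + b2) +
      s1 * s2 * ∑ t ∈ R M, lz ((t.1 : ℤ) + b1) * lz ((t.2 : ℤ) + b2) := by
    intro M
    rw [card_eq_sum_ones, Nat.cast_sum]
    simp only [mul_sum, ← sum_add_distrib]
    apply sum_congr rfl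
    intro t _
    push_cast
    ring
  have a1' := sgn_abs hs1
  have a2' := sgn_abs hs2
  have sq1 : s1 ^ 2 = 1 := by rw [← sq_abs, a1', one_pow]
  have sq2 : s2 ^ 2 = 1 := by rw [← sq_abs, a2', one_pow]
  have hpt : ∀ M, (4 * pat2 (R M) b1 b2 s1 s2 - ((R M).card : ℝ)) ^ 2 ≤
      4 * ((∑ t ∈ R M, lz ((t.1 : ℤ) + b1)) ^ 2 + (∑ t ∈ R M, lz ((t.2 : ℤ) + b2)) ^ 2 +
        (∑ t ∈ R M, lz ((t.1 : ℤ) + b1) * lz ((t.2 : ℤ) + b2)) ^ 2 + 16) := by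
    intro M
    have herr : |4 * pat2 (R M) b1 b2 s1 s2 - ∑ t ∈ R M, (1 + s1 * lz ((t.1 : ℤ) + b1)) * (1 + s2 * lz ((t.2 : ℤ) + b2))| ≤ 4 := by
      unfold pat2
      rw [mul_sum, ← sum_sub_distrib]
      refine (abs_sum_le_sum_abs _ _).trans ?_
      refine (sum_le_sum fun t _ => pat_pt2 hs1 hs2 _ _).trans ?_
      rw [← mul_sum, sum_add_distrib]
      linarith [hz1 M, hz2 M]
    rw [hexp M] at herr
    obtain ⟨x, hx⟩ : ∃ x, x = ∑ t ∈ R M, lz ((t.1 : ℤ) + b1) := ⟨_, rfl⟩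
    obtain ⟨z, hz⟩ : ∃ z, z = ∑ t ∈ R M, lz ((t.2 : ℤ) + b2) := ⟨_, rfl⟩
    obtain ⟨w, hw⟩ : ∃ w, w = ∑ t ∈ R M, lz ((t.1 : ℤ) + b1) * lz ((t.2 : ℤ) + b2) := ⟨_, rfl⟩
    rw [← hx, ← hz, ← hw] at herr
    rw [← hx, ← hz, ← hw]
    obtain ⟨d, hd⟩ : ∃ d, d = 4 * pat2 (R M) b1 b2 s1 s2 - (((R M).card : ℝ) + s1 * x + s2 * z + s1 * s2 * w) := ⟨_, rfl⟩
    rw [← hd] at herr
    have e1 : 4 * pat2 (R M) b1 b2 s1 s2 - ((R M).card : ℝ) = s1 * x + s2 * z + s1 * s2 * w + d := by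
      rw [hd]
      ring
    rw [e1]
    have hd2 : d ^ 2 ≤ 16 := by
      have := sq_le_sq' (abs_le.1 herr).1 (abs_le.1 herr).2
      linarith
    have e2 : (s1 * x) ^ 2 = x ^ 2 := by rw [mul_pow, sq1, one_mul]
    have e3 : (s2 * z) ^ 2 = z ^ 2 := by rw [mul_pow, sq2, one_mul]
    have e4 : (s1 * s2 * w) ^ 2 = w ^ 2 := by rw [mul_pow, mul_pow, sq1, sq2, one_mul, one_mul]
    have e5 : (s1 * x + s2 * z + s1 * s2 * w + d) ^ 2 ≤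
        4 * ((s1 * x) ^ 2 + (s2 * z) ^ 2 + (s1 * s2 * w) ^ 2 + d ^ 2) := by
      nlinarith [sq_nonneg (s1 * x - s2 * z), sq_nonneg (s1 * x - s1 * s2 * w), sq_nonneg (s1 * x - d),
        sq_nonneg (s2 * z - s1 * s2 * w), sq_nonneg (s2 * z - d), sq_nonneg (s1 * s2 * w - d)]
    rw [e2, e3, e4] at e5
    linarith
  refine (sum_le_sum fun M _ => hpt M).trans ?_
  rw [← mul_sum, sum_add_distrib, sum_add_distrib, sum_add_distrib, sum_const, nsmul_eq_mul]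
  -- the error is small
  have hsmall : 256 * (X : ℝ) ≤ e * ((G1 * G2) ^ 2 / X) := by
    have hLk : 0 < Real.log X ^ k := by positivity
    have p0 : 0 ≤ c * (X / Real.log X ^ k) := by positivity
    have hg : c ^ 4 * (X ^ 4 / Real.log X ^ (4 * k)) ≤ (G1 * G2) ^ 2 := by
      have e1 : c ^ 4 * (X ^ 4 / Real.log X ^ (4 * k)) =
          ((c * (X / Real.log X ^ k)) * (c * (X / Real.log X ^ k))) ^ 2 := by
        rw [mul_comm 4 k, pow_mul]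
        field_simp
      rw [e1]
      apply pow_le_pow_left₀ (by positivity)
      exact mul_le_mul g1 g2 p0 (p0.trans g1)
    have hs0 : 0 ≤ √(X : ℝ) := Real.sqrt_nonneg _
    have hss : √(X : ℝ) * √(X : ℝ) = X := Real.mul_self_sqrt (by linarith)
    have hs1' : 1 ≤ √(X : ℝ) := by
      rw [show (1 : ℝ) = √1 by simp]
      exact Real.sqrt_le_sqrt hXr
    have h6 : 256 / (e * c ^ 4) * Real.log X ^ (4 * k) ≤ X := by
      refine le_trans hlog ?_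
      nlinarith
    have hL4 : 0 < Real.log X ^ (4 * k) := by positivity
    have h7 : 256 * Real.log X ^ (4 * k) ≤ e * c ^ 4 * X := by
      rw [div_mul_eq_mul_div, div_le_iff₀ (by positivity)] at h6
      linarith
    have h8 : 256 * (X : ℝ) ≤ e * (c ^ 4 * (X ^ 4 / Real.log X ^ (4 * k)) / X) := by
      have e2 : e * (c ^ 4 * (X ^ 4 / Real.log X ^ (4 * k)) / X) = e * c ^ 4 * X * (X * X) / Real.log X ^ (4 * k) := by
        field_simp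
      rw [e2, le_div_iff₀ hL4]
      have h9 : 256 * (X : ℝ) * Real.log X ^ (4 * k) = (256 * Real.log X ^ (4 * k)) * X := by ring
      rw [h9]
      have h10 : (256 * Real.log X ^ (4 * k)) * X ≤ (e * c ^ 4 * X) * X := mul_le_mul_of_nonneg_right h7 (by linarith)
      have h11 : (e * c ^ 4 * X) * X ≤ e * c ^ 4 * X * (X * X) := by
        apply mul_le_mul_of_nonneg_left _ (by positivity)
        nlinarith
      linarith
    refine h8.trans ?_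
    apply mul_le_mul_of_nonneg_left _ he0.le
    exact div_le_div_of_nonneg_right hg (by linarith)
  have hGG : 0 ≤ (G1 * G2) ^ 2 / X := by positivity
  obtain ⟨Y, hY⟩ : ∃ Y : ℝ, Y = e * ((G1 * G2) ^ 2 / X) := ⟨_, rfl⟩
  have hY0 : 0 ≤ Y := by rw [hY]; positivity
  have hE2 : E ≤ A * Y := by
    rw [hE, hY]
    have : (A : ℝ) * (1 / 2 : ℝ) ^ (K / A) ≤ A * e := mul_le_mul_of_nonneg_left hee (Nat.cast_nonneg _)
    have := mul_le_mul_of_nonneg_right this hGG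
    linarith
  rw [← he]
  have hA1 : (1 : ℝ) ≤ A := by exact_mod_cast hA
  have hK30 : (0 : ℝ) ≤ K3 := Nat.cast_nonneg _
  have hfin : ((13 * A + K3 : ℕ) : ℝ) * e * ((G1 * G2) ^ 2 / X) = (13 * A + K3) * Y := by
    rw [hY]
    push_cast
    ring
  rw [hfin]
  rw [← hY] at hsmall
  have hU16 : 4 * ((U.card : ℝ) * 16) ≤ Y := by
    refine le_trans ?_ hsmall
    linarith
  have h10 : 12 * (A * Y) + Y ≤ (13 * A + K3) * Y := by nlinarith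
  linarith

end Pool.Agent.H530.Hz
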