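import Pool.Agent.H530.HzL

/-! The final forms: patterns of the Liouville function in ternary and binary equations. -/

set_option autoImplicit false

namespace Pool.Agent.H530.Hz

open Finset Pool.Agent.H530.Ha
open Pool.Agent.H373R2.T7 hiding RQ

lemma absorb (A0 j L : ℕ) (hA0 : 1 ≤ A0) (C : ℝ) (hC : 0 < C) : ∃ A : ℕ, L ≤ A ∧ A0 ≤ A ∧ ∀ K : ℕ, A ≤ K →
    C * (1 / 2 : ℝ) ^ (K / A0) ≤ ((1 / 2 : ℝ) ^ (K / A)) ^ j := by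
  obtain ⟨m, hm⟩ := exists_pow_lt_of_lt_one (show (0 : ℝ) < 1 / C by positivity) (show (1 / 2 : ℝ) < 1 by norm_num)
  refine ⟨A0 * (j + m + 1) * (L + 1), ?_, ?_, ?_⟩
  · have h1 : 1 ≤ A0 * (j + m + 1) := Nat.mul_pos hA0 (by omega)
    nlinarith
  · have h1 : 1 ≤ (j + m + 1) * (L + 1) := Nat.mul_pos (by omega) (by omega)
    nlinarith
  · intro K hK
    obtain ⟨A, hA⟩ : ∃ A, A = A0 * (j + m + 1) * (L + 1) := ⟨_, rfl⟩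
    rw [← hA] at hK ⊢
    have hApos : 1 ≤ A := by rw [hA]; exact Nat.mul_pos (Nat.mul_pos hA0 (by omega)) (by omega)
    have h1 : 1 ≤ K / A := (Nat.one_le_div_iff hApos).2 hK
    have h2 : (K / A) * (j + m) ≤ K / A0 := by
      rw [Nat.le_div_iff_mul_le hA0]
      have h3 : (K / A) * A ≤ K := Nat.div_mul_le_self _ _
      refine le_trans ?_ h3
      rw [mul_assoc]
      apply Nat.mul_le_mul_left
      rw [hA]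
      nlinarith [Nat.zero_le L, Nat.zero_le (A0 * (j + m + 1) * L)]
    have h3 : K / A * j + m ≤ K / A0 := by nlinarith
    have h4 : (1 / 2 : ℝ) ^ (K / A0) ≤ (1 / 2 : ℝ) ^ (K / A * j + m) :=
      pow_le_pow_of_le_one (by norm_num) (by norm_num) h3
    rw [← pow_mul]
    rw [pow_add] at h4
    have h5 : C * (1 / 2 : ℝ) ^ m ≤ 1 := by
      rw [lt_div_iff₀ hC] at hm
      linarith
    have h6 : (0 : ℝ) < (1 / 2 : ℝ) ^ (K / A * j) := by positivity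
    calc C * (1 / 2 : ℝ) ^ (K / A0) ≤ C * ((1 / 2 : ℝ) ^ (K / A * j) * (1 / 2 : ℝ) ^ m) :=
          mul_le_mul_of_nonneg_left h4 hC.le
      _ = (C * (1 / 2 : ℝ) ^ m) * (1 / 2 : ℝ) ^ (K / A * j) := by ring
      _ ≤ 1 * (1 / 2 : ℝ) ^ (K / A * j) := mul_le_mul_of_nonneg_right h5 h6.le
      _ = _ := one_mul _

/-- no local obstruction for a sum of three -/
def Loc3 (k : ℕ) (Q1 Q2 Q3 : ℕ → ℕ → Prop) (N : ℕ) : Prop :=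
  ∀ p ∈ pz (2 * k), ∃ n1 n2 n3 : ℕ, n1 + n2 + n3 ≡ N [MOD p] ∧ ¬ Q1 p n1 ∧ ¬ Q2 p n2 ∧ ¬ Q3 p n3

/-- no local obstruction for a progression -/
def LocA (k : ℕ) (Q1 Q2 Q3 : ℕ → ℕ → Prop) : Prop :=
  ∀ p ∈ pz (2 * k), ∃ n d : ℕ, ¬ Q1 p n ∧ ¬ Q2 p (n + 2 * d) ∧ ¬ Q3 p (n + d)

/-- no local obstruction for a sum of two -/
def Loc2 (k : ℕ) (Q1 Q2 : ℕ → ℕ → Prop) (N : ℕ) : Prop :=
  ∀ p ∈ pz (2 * k), ∃ n1 n2 : ℕ, n1 + n2 ≡ N [MOD p] ∧ ¬ Q1 p n1 ∧ ¬ Q2 p n2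

/-- no local obstruction for a difference -/
def LocD (k : ℕ) (Q1 Q2 : ℕ → ℕ → Prop) (h : ℕ) : Prop :=
  ∀ p ∈ pz (2 * k), ∃ n : ℕ, ¬ Q1 p n ∧ ¬ Q2 p (h + n)

lemma three_le {X V1 V2 V3 G1 G2 G3 c0 r : ℝ} (hX : 0 < X) (h1 : G1 ≤ 2 * (X * V1)) (h2 : G2 ≤ 2 * (X * V2))
    (h3 : G3 ≤ 2 * (X * V3)) (g1 : 0 ≤ G1) (g2 : 0 ≤ G2) (g3 : 0 ≤ G3) (hc : 0 < c0)
    (h : c0 * (X ^ 2 * (V1 * V2 * V3)) ≤ r) : c0 / 8 * (G1 * G2 * G3 / X) ≤ r := by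
  refine le_trans ?_ h
  have e1 : G1 * G2 * G3 ≤ (2 * (X * V1)) * (2 * (X * V2)) * (2 * (X * V3)) :=
    mul_le_mul (mul_le_mul h1 h2 g2 (g1.trans h1)) h3 g3 (mul_nonneg (g1.trans h1) (g2.trans h2))
  have e2 : G1 * G2 * G3 / X ≤ 8 * (X ^ 2 * (V1 * V2 * V3)) := by
    rw [div_le_iff₀ hX]
    refine e1.trans (le_of_eq ?_)
    ring
  calc c0 / 8 * (G1 * G2 * G3 / X) ≤ c0 / 8 * (8 * (X ^ 2 * (V1 * V2 * V3))) :=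
        mul_le_mul_of_nonneg_left e2 (by positivity)
    _ = _ := by ring

/-- **Vinogradov's theorem with prescribed parities** -/
theorem F3 (k : ℕ) (hk : 1 ≤ k) : ∃ c : ℝ, 0 < c ∧ ∃ A : ℕ, 1 ≤ A ∧ ∀ K : ℕ, A ≤ K → ∀ B' : ℕ, ∃ X0 y0 : ℕ,
    ∀ Q1 Q2 Q3 : ℕ → ℕ → Prop, Sv k Q1 → Sv k Q2 → Sv k Q3 → ∀ N y : ℕ, X0 ≤ N → y0 ≤ y → y ^ K ≤ N →
      Loc3 k Q1 Q2 Q3 N →
      c * (((RQ Q1 N y).card : ℝ) * (RQ Q2 N y).card * (RQ Q3 N y).card / N) ≤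
        (rep3 (RQ Q1 N y) (RQ Q2 N y) (RQ Q3 N y) 1 1 1 N).card ∧
      ∀ b1 b2 b3 : ℤ, |(b1 : ℝ)| ≤ N * Real.log N ^ B' → |(b2 : ℝ)| ≤ N * Real.log N ^ B' →
        |(b3 : ℝ)| ≤ N * Real.log N ^ B' → ∀ s1 s2 s3 : ℝ, (s1 = 1 ∨ s1 = -1) → (s2 = 1 ∨ s2 = -1) →
        (s3 = 1 ∨ s3 = -1) →
        |8 * pat3 (rep3 (RQ Q1 N y) (RQ Q2 N y) (RQ Q3 N y) 1 1 1 N) b1 b2 b3 s1 s2 s3 -
          (rep3 (RQ Q1 N y) (RQ Q2 N y) (RQ Q3 N y) 1 1 1 N).card| ≤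
          (1 / 2 : ℝ) ^ (K / A) * (rep3 (RQ Q1 N y) (RQ Q2 N y) (RQ Q3 N y) 1 1 1 N).card := by
  obtain ⟨A0, hA0, H0⟩ := pat3_all k hk
  obtain ⟨c0, hc0, K1, hK1, X1, y1, H1⟩ := sum3_low k hk
  obtain ⟨K2, hK2, X2, y2, H2⟩ := cnt2 k hk
  obtain ⟨A, hAL, hA0A, hA⟩ := absorb A0 1 (K1 + K2 + 1) hA0 (A0 / (c0 / 8)) (by
    have : (0 : ℝ) < A0 := by exact_mod_cast hA0
    positivity)
  refine ⟨c0 / 8, by positivity, A, by omega, fun K hK B' => ?_⟩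
  obtain ⟨X0, y0, H0⟩ := H0 K (by omega) B'
  refine ⟨X0 + X1 + X2 + 1, y0 + y1 + y2 + 1, ?_⟩
  intro Q1 Q2 Q3 hQ1 hQ2 hQ3 N y hN hy hyN hloc
  have hNr : (1 : ℝ) ≤ N := by exact_mod_cast (by omega : 1 ≤ N)
  have hy1 : 1 ≤ y := by omega
  have l1 := H1 Q1 Q2 Q3 hQ1 hQ2 hQ3 N N y (by omega) le_rfl (by omega)
    ((Nat.pow_le_pow_right hy1 (by omega)).trans hyN) hloc
  have m1 := (H2 Q1 hQ1 N y (by omega) (by omega) ((Nat.pow_le_pow_right hy1 (by omega)).trans hyN)).2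
  have m2 := (H2 Q2 hQ2 N y (by omega) (by omega) ((Nat.pow_le_pow_right hy1 (by omega)).trans hyN)).2
  have m3 := (H2 Q3 hQ3 N y (by omega) (by omega) ((Nat.pow_le_pow_right hy1 (by omega)).trans hyN)).2
  have l2 := three_le (by linarith) m1 m2 m3 (Nat.cast_nonneg _) (Nat.cast_nonneg _) (Nat.cast_nonneg _) hc0 l1
  refine ⟨l2, ?_⟩
  intro b1 b2 b3 hb1 hb2 hb3 s1 s2 s3 hs1 hs2 hs3
  have l3 := H0 Q1 Q2 Q3 hQ1 hQ2 hQ3 N y (by omega) (by omega) hyN 1 1 1 one_ne_zero one_ne_zero one_ne_zero N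
    b1 b2 b3 hb1 hb2 hb3 s1 s2 s3 hs1 hs2 hs3
  refine l3.trans ?_
  have h1 := hA K hK
  rw [pow_one] at h1
  have hw0 : (0 : ℝ) < (1 / 2 : ℝ) ^ (K / A) := by positivity
  have h2 : (A0 : ℝ) * (1 / 2 : ℝ) ^ (K / A0) ≤ (1 / 2 : ℝ) ^ (K / A) * (c0 / 8) := by
    have e : (A0 : ℝ) / (c0 / 8) * (1 / 2 : ℝ) ^ (K / A0) * (c0 / 8) = A0 * (1 / 2 : ℝ) ^ (K / A0) := by
      field_simp
    rw [← e]
    exact mul_le_mul_of_nonneg_right h1 (by positivity)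
  calc _ ≤ ((1 / 2 : ℝ) ^ (K / A) * (c0 / 8)) *
        (((RQ Q1 N y).card : ℝ) * (RQ Q2 N y).card * (RQ Q3 N y).card / N) :=
        mul_le_mul_of_nonneg_right h2 (by positivity)
    _ = (1 / 2 : ℝ) ^ (K / A) * (c0 / 8 * (((RQ Q1 N y).card : ℝ) * (RQ Q2 N y).card * (RQ Q3 N y).card / N)) := by ring
    _ ≤ _ := mul_le_mul_of_nonneg_left l2 hw0.le

/-- **progressions of three terms with prescribed parities** -/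
theorem F3ap (k : ℕ) (hk : 1 ≤ k) : ∃ c : ℝ, 0 < c ∧ ∃ A : ℕ, 1 ≤ A ∧ ∀ K : ℕ, A ≤ K → ∀ B' : ℕ, ∃ X0 y0 : ℕ,
    ∀ Q1 Q2 Q3 : ℕ → ℕ → Prop, Sv k Q1 → Sv k Q2 → Sv k Q3 → ∀ X y : ℕ, X0 ≤ X → y0 ≤ y → y ^ K ≤ X →
      LocA k Q1 Q2 Q3 →
      c * (((RQ Q1 X y).card : ℝ) * (RQ Q2 X y).card * (RQ Q3 X y).card / X) ≤
        ((rep3 (RQ Q1 X y) (RQ Q2 X y) (RQ Q3 X y) 1 1 (-2) 0).filter (fun t => t.1 < t.2.2)).card ∧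
      ∀ b1 b2 b3 : ℤ, |(b1 : ℝ)| ≤ X * Real.log X ^ B' → |(b2 : ℝ)| ≤ X * Real.log X ^ B' →
        |(b3 : ℝ)| ≤ X * Real.log X ^ B' → ∀ s1 s2 s3 : ℝ, (s1 = 1 ∨ s1 = -1) → (s2 = 1 ∨ s2 = -1) →
        (s3 = 1 ∨ s3 = -1) →
        |8 * pat3 (rep3 (RQ Q1 X y) (RQ Q2 X y) (RQ Q3 X y) 1 1 (-2) 0) b1 b2 b3 s1 s2 s3 -
          (rep3 (RQ Q1 X y) (RQ Q2 X y) (RQ Q3 X y) 1 1 (-2) 0).card| ≤
          (1 / 2 : ℝ) ^ (K / A) * (rep3 (RQ Q1 X y) (RQ Q2 X y) (RQ Q3 X y) 1 1 (-2) 0).card := by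
  obtain ⟨A0, hA0, H0⟩ := pat3_all k hk
  obtain ⟨c0, hc0, K1, hK1, X1, y1, H1⟩ := ap3_low k hk
  obtain ⟨K2, hK2, X2, y2, H2⟩ := cnt2 k hk
  obtain ⟨A, hAL, hA0A, hA⟩ := absorb A0 1 (K1 + K2 + 1) hA0 (A0 / (c0 / 8)) (by
    have : (0 : ℝ) < A0 := by exact_mod_cast hA0
    positivity)
  refine ⟨c0 / 8, by positivity, A, by omega, fun K hK B' => ?_⟩
  obtain ⟨X0, y0, H0⟩ := H0 K (by omega) B'
  refine ⟨X0 + X1 + X2 + 1, y0 + y1 + y2 + 1, ?_⟩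
  intro Q1 Q2 Q3 hQ1 hQ2 hQ3 N y hN hy hyN hloc
  have hNr : (1 : ℝ) ≤ N := by exact_mod_cast (by omega : 1 ≤ N)
  have hy1 : 1 ≤ y := by omega
  have l1 := H1 Q1 Q2 Q3 hQ1 hQ2 hQ3 N y (by omega) (by omega)
    ((Nat.pow_le_pow_right hy1 (by omega)).trans hyN) hloc
  have m1 := (H2 Q1 hQ1 N y (by omega) (by omega) ((Nat.pow_le_pow_right hy1 (by omega)).trans hyN)).2
  have m2 := (H2 Q2 hQ2 N y (by omega) (by omega) ((Nat.pow_le_pow_right hy1 (by omega)).trans hyN)).2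
  have m3 := (H2 Q3 hQ3 N y (by omega) (by omega) ((Nat.pow_le_pow_right hy1 (by omega)).trans hyN)).2
  have l2 := three_le (by linarith) m1 m2 m3 (Nat.cast_nonneg _) (Nat.cast_nonneg _) (Nat.cast_nonneg _) hc0 l1
  refine ⟨l2, ?_⟩
  have l2' : c0 / 8 * (((RQ Q1 N y).card : ℝ) * (RQ Q2 N y).card * (RQ Q3 N y).card / N) ≤
      (rep3 (RQ Q1 N y) (RQ Q2 N y) (RQ Q3 N y) 1 1 (-2) 0).card := by
    refine l2.trans ?_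
    exact_mod_cast card_filter_le _ _
  intro b1 b2 b3 hb1 hb2 hb3 s1 s2 s3 hs1 hs2 hs3
  have l3 := H0 Q1 Q2 Q3 hQ1 hQ2 hQ3 N y (by omega) (by omega) hyN 1 1 (-2) one_ne_zero one_ne_zero (by norm_num) 0
    b1 b2 b3 hb1 hb2 hb3 s1 s2 s3 hs1 hs2 hs3
  refine l3.trans ?_
  have h1 := hA K hK
  rw [pow_one] at h1
  have hw0 : (0 : ℝ) < (1 / 2 : ℝ) ^ (K / A) := by positivity
  have h2 : (A0 : ℝ) * (1 / 2 : ℝ) ^ (K / A0) ≤ (1 / 2 : ℝ) ^ (K / A) * (c0 / 8) := by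
    have e : (A0 : ℝ) / (c0 / 8) * (1 / 2 : ℝ) ^ (K / A0) * (c0 / 8) = A0 * (1 / 2 : ℝ) ^ (K / A0) := by
      field_simp
    rw [← e]
    exact mul_le_mul_of_nonneg_right h1 (by positivity)
  calc _ ≤ ((1 / 2 : ℝ) ^ (K / A) * (c0 / 8)) *
        (((RQ Q1 N y).card : ℝ) * (RQ Q2 N y).card * (RQ Q3 N y).card / N) :=
        mul_le_mul_of_nonneg_right h2 (by positivity)
    _ = (1 / 2 : ℝ) ^ (K / A) * (c0 / 8 * (((RQ Q1 N y).card : ℝ) * (RQ Q2 N y).card * (RQ Q3 N y).card / N)) := by ring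
    _ ≤ _ := mul_le_mul_of_nonneg_left l2' hw0.le

/-- Chebyshev for the four patterns -/
lemma exc (f : ℤ → ℝ → ℝ → ℝ) (U E : Finset ℤ) (hE : E ⊆ U) {B τ : ℝ} (hτ : 0 ≤ τ)
    (hf : ∀ s1 s2 : ℝ, (s1 = 1 ∨ s1 = -1) → (s2 = 1 ∨ s2 = -1) → ∑ M ∈ U, f M s1 s2 ^ 2 ≤ B)
    (h : ∀ M ∈ E, ∃ s1 s2 : ℝ, (s1 = 1 ∨ s1 = -1) ∧ (s2 = 1 ∨ s2 = -1) ∧ τ ≤ |f M s1 s2|) :
    (E.card : ℝ) * τ ^ 2 ≤ 4 * B := by
  have h1 : ∀ M ∈ E, τ ^ 2 ≤ f M 1 1 ^ 2 + f M 1 (-1) ^ 2 + f M (-1) 1 ^ 2 + f M (-1) (-1) ^ 2 := by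
    intro M hM
    obtain ⟨s1, s2, hs1, hs2, h2⟩ := h M hM
    have h3 : τ ^ 2 ≤ f M s1 s2 ^ 2 := by
      rw [← sq_abs (f M s1 s2)]
      exact pow_le_pow_left₀ hτ h2 2
    have p1 := sq_nonneg (f M 1 1)
    have p2 := sq_nonneg (f M 1 (-1))
    have p3 := sq_nonneg (f M (-1) 1)
    have p4 := sq_nonneg (f M (-1) (-1))
    rcases hs1 with rfl | rfl <;> rcases hs2 with rfl | rfl <;> linarith
  have h2 : (E.card : ℝ) * τ ^ 2 ≤ ∑ M ∈ U, (f M 1 1 ^ 2 + f M 1 (-1) ^ 2 + f M (-1) 1 ^ 2 + f M (-1) (-1) ^ 2) := by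
    calc (E.card : ℝ) * τ ^ 2 = ∑ M ∈ E, τ ^ 2 := by rw [sum_const, nsmul_eq_mul]
      _ ≤ ∑ M ∈ E, (f M 1 1 ^ 2 + f M 1 (-1) ^ 2 + f M (-1) 1 ^ 2 + f M (-1) (-1) ^ 2) := sum_le_sum h1
      _ ≤ _ := sum_le_sum_of_subset_of_nonneg hE fun M _ _ => by positivity
  rw [sum_add_distrib, sum_add_distrib, sum_add_distrib] at h2
  have b1 := hf 1 1 (Or.inl rfl) (Or.inl rfl)
  have b2 := hf 1 (-1) (Or.inl rfl) (Or.inr rfl)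
  have b3 := hf (-1) 1 (Or.inr rfl) (Or.inl rfl)
  have b4 := hf (-1) (-1) (Or.inr rfl) (Or.inr rfl)
  linarith

end Pool.Agent.H530.Hz
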