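import Pool.Agent.H530.HzM

/-! The final forms: binary equations. -/

set_option autoImplicit false

namespace Pool.Agent.H530.Hz

open Finset Pool.Agent.H530.Ha
open Pool.Agent.H373R2.T7 hiding RQ

lemma two_le' {X V1 V2 G1 G2 c0 r l : ℝ} (hX : 0 < X) (hl : 0 ≤ l) (h1 : G1 ≤ 2 * (X * V1)) (h2 : G2 ≤ 2 * (X * V2))
    (g1 : 0 ≤ G1) (g2 : 0 ≤ G2) (hc : 0 < c0)
    (h : c0 * (l * (V1 * V2)) ≤ r) : c0 / 4 * (l / X) * (G1 * G2 / X) ≤ r := by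
  refine le_trans ?_ h
  have e1 : G1 * G2 ≤ (2 * (X * V1)) * (2 * (X * V2)) := mul_le_mul h1 h2 g2 (g1.trans h1)
  have e2 : G1 * G2 / X ≤ 4 * (X * (V1 * V2)) := by
    rw [div_le_iff₀ hX]
    refine e1.trans (le_of_eq ?_)
    ring
  calc c0 / 4 * (l / X) * (G1 * G2 / X) ≤ c0 / 4 * (l / X) * (4 * (X * (V1 * V2))) :=
        mul_le_mul_of_nonneg_left e2 (by positivity)
    _ = _ := by
        field_simp

/-- the counting of the exceptions -/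
lemma exc_count {X g c0 δ ε0 E : ℝ} (hX : 0 < X) (hg : 0 < g) (hc : 0 < c0) (hδ : 0 < δ)
    (h : E * (c0 * δ ^ 2 / 8 * g) ^ 2 ≤ 4 * (ε0 * (X * g ^ 2))) (hε : 512 * ε0 / c0 ^ 2 ≤ δ ^ 5) : E ≤ δ / 2 * X := by
  have h1 : (c0 * δ ^ 2 / 8 * g) ^ 2 = (c0 ^ 2 * δ ^ 4 / 64) * g ^ 2 := by ring
  have h2 : 512 * ε0 ≤ δ ^ 5 * c0 ^ 2 := by
    rw [div_le_iff₀ (by positivity)] at hε
    exact hε
  have hg2 : 0 < g ^ 2 := by positivity
  rw [h1] at h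
  have h3 : E * (c0 ^ 2 * δ ^ 4 / 64) ≤ 4 * (ε0 * X) := by
    have h4 : (E * (c0 ^ 2 * δ ^ 4 / 64)) * g ^ 2 ≤ (4 * (ε0 * X)) * g ^ 2 := by linarith
    exact le_of_mul_le_mul_right h4 hg2
  have h5 : E * (c0 ^ 2 * δ ^ 4 / 64) ≤ (δ / 2 * X) * (c0 ^ 2 * δ ^ 4 / 64) := by
    refine h3.trans ?_
    have h6 : 512 * ε0 * X ≤ δ ^ 5 * c0 ^ 2 * X := mul_le_mul_of_nonneg_right h2 hX.le
    have h7 : (δ / 2 * X) * (c0 ^ 2 * δ ^ 4 / 64) = δ ^ 5 * c0 ^ 2 * X / 128 := by ring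
    rw [h7]
    linarith
  exact le_of_mul_le_mul_right h5 (by positivity)

lemma half_pow_le {K A : ℕ} : (1 / 2 : ℝ) ^ K ≤ (1 / 2 : ℝ) ^ (K / A) :=
  pow_le_pow_of_le_one (by norm_num) (by norm_num) (Nat.div_le_self _ _)

/-- sizes -/
lemma sizes {K A N X X1 K1 y : ℕ} (hN : (1 / 2 : ℝ) ^ (K / A) / 2 * X ≤ N) (hX : 2 ^ (K + 1) * X1 ≤ X)
    (hy : 2 ^ (K + 1) ≤ y) (hK : K1 + 1 ≤ K) (hyX : y ^ K ≤ X) : X1 ≤ N ∧ y ^ K1 ≤ N := by
  have h1 : (1 / 2 : ℝ) ^ (K + 1) * X ≤ N := by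
    refine le_trans ?_ hN
    apply mul_le_mul_of_nonneg_right _ (Nat.cast_nonneg _)
    rw [pow_succ]
    have := half_pow_le (K := K) (A := A)
    linarith
  have h2 : (X : ℝ) ≤ 2 ^ (K + 1) * N := by
    have e : (2 : ℝ) ^ (K + 1) * (1 / 2 : ℝ) ^ (K + 1) = 1 := by
      rw [← mul_pow]
      norm_num
    calc (X : ℝ) = 2 ^ (K + 1) * ((1 / 2 : ℝ) ^ (K + 1) * X) := by rw [← mul_assoc, e, one_mul]
      _ ≤ 2 ^ (K + 1) * N := mul_le_mul_of_nonneg_left h1 (by positivity)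
  have h3 : X ≤ 2 ^ (K + 1) * N := by exact_mod_cast h2
  have hp : 1 ≤ 2 ^ (K + 1) := Nat.one_le_two_pow
  constructor
  · exact Nat.le_of_mul_le_mul_left (hX.trans h3) (by omega)
  · have h4 : 2 ^ (K + 1) * y ^ K1 ≤ 2 ^ (K + 1) * N := by
      refine le_trans ?_ h3
      refine le_trans ?_ hyX
      calc 2 ^ (K + 1) * y ^ K1 ≤ y * y ^ K1 := Nat.mul_le_mul_right _ hy
        _ = y ^ (K1 + 1) := by ring
        _ ≤ y ^ K := Nat.pow_le_pow_right (by omega) hK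
    exact Nat.le_of_mul_le_mul_left h4 (by omega)

open Classical in
/-- **binary sums with prescribed parities, almost all numbers** -/
theorem F2s (k : ℕ) (hk : 1 ≤ k) : ∃ c : ℝ, 0 < c ∧ ∃ A : ℕ, 1 ≤ A ∧ ∀ K : ℕ, A ≤ K → ∀ B' : ℕ, ∃ X0 y0 : ℕ,
    ∀ Q1 Q2 : ℕ → ℕ → Prop, Sv k Q1 → Sv k Q2 → ∀ X y : ℕ, X0 ≤ X → y0 ≤ y → y ^ K ≤ X →
      (∀ N : ℕ, N ≤ X → (1 / 2 : ℝ) ^ (K / A) * X ≤ N → Loc2 k Q1 Q2 N →
        c * ((N : ℝ) / X) * (((RQ Q1 X y).card : ℝ) * (RQ Q2 X y).card / X) ≤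
          (rep2 (RQ Q1 X y) (RQ Q2 X y) 1 1 N).card) ∧
      ∀ b1 b2 : ℤ, |(b1 : ℝ)| ≤ X * Real.log X ^ B' → |(b2 : ℝ)| ≤ X * Real.log X ^ B' →
        (((Icc 1 X).filter (fun N : ℕ => Loc2 k Q1 Q2 N ∧ ∃ s1 s2 : ℝ, (s1 = 1 ∨ s1 = -1) ∧ (s2 = 1 ∨ s2 = -1) ∧
          (1 / 2 : ℝ) ^ (K / A) * (rep2 (RQ Q1 X y) (RQ Q2 X y) 1 1 N).card <
          |4 * pat2 (rep2 (RQ Q1 X y) (RQ Q2 X y) 1 1 N) b1 b2 s1 s2 -
            (rep2 (RQ Q1 X y) (RQ Q2 X y) 1 1 N).card|)).card : ℝ) ≤ (1 / 2 : ℝ) ^ (K / A) * X := by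
  obtain ⟨A0, hA0, H0⟩ := pat2_all k hk
  obtain ⟨c0, hc0, K1, hK1, X1, y1, H1⟩ := sum2_low k hk
  obtain ⟨K2, hK2, X2, y2, H2⟩ := cnt2 k hk
  obtain ⟨A, hAL, hA0A, hA⟩ := absorb A0 5 (K1 + K2 + 2) hA0 (512 * A0 / c0 ^ 2) (by
    have : (0 : ℝ) < A0 := by exact_mod_cast hA0
    positivity)
  refine ⟨c0 / 4, by positivity, A, by omega, fun K hK B' => ?_⟩
  obtain ⟨X0, y0, H0⟩ := H0 K (by omega) B'
  obtain ⟨P, hP⟩ : ∃ P, P = 2 ^ (K + 1) := ⟨_, rfl⟩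
  obtain ⟨Z, hZ⟩ : ∃ Z, Z = P * X1 := ⟨_, rfl⟩
  refine ⟨X0 + Z + X2 + 1, y0 + y1 + y2 + P + 1, ?_⟩
  intro Q1 Q2 hQ1 hQ2 X y hX hy hyX
  obtain ⟨δ, hδ⟩ : ∃ δ : ℝ, δ = (1 / 2 : ℝ) ^ (K / A) := ⟨_, rfl⟩
  have hδ0 : 0 < δ := by rw [hδ]; positivity
  have hδ1 : δ ≤ 1 := by rw [hδ]; exact pow_le_one₀ (by norm_num) (by norm_num)
  have hXr : (1 : ℝ) ≤ X := by exact_mod_cast (by omega : 1 ≤ X)
  have hX0 : (0 : ℝ) < X := by linarith
  have hy1 : 1 ≤ y := by omega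
  have m1 := H2 Q1 hQ1 X y (by omega) (by omega) ((Nat.pow_le_pow_right hy1 (by omega)).trans hyX)
  have m2 := H2 Q2 hQ2 X y (by omega) (by omega) ((Nat.pow_le_pow_right hy1 (by omega)).trans hyX)
  have hV1 := VQ_nonneg hQ1 y
  have hV2 := VQ_nonneg hQ2 y
  obtain ⟨G1, hG1⟩ : ∃ G : ℝ, G = ((RQ Q1 X y).card : ℝ) := ⟨_, rfl⟩
  obtain ⟨G2, hG2⟩ : ∃ G : ℝ, G = ((RQ Q2 X y).card : ℝ) := ⟨_, rfl⟩
  have hH0 := H0 Q1 Q2 hQ1 hQ2 X y (by omega) (by omega) hyX 1 1 one_ne_zero one_ne_zero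
  rw [← hG1] at m1 hH0 ⊢
  rw [← hG2] at m2 hH0 ⊢
  rw [← hδ]
  have p1 : 0 < G1 := lt_of_lt_of_le (by positivity) m1.1
  have p2 : 0 < G2 := lt_of_lt_of_le (by positivity) m2.1
  have hg : 0 < G1 * G2 / X := by positivity
  have hrl : ∀ N : ℕ, N ≤ X → δ / 2 * X ≤ N → Loc2 k Q1 Q2 N →
      c0 / 4 * ((N : ℝ) / X) * (G1 * G2 / X) ≤ (rep2 (RQ Q1 X y) (RQ Q2 X y) 1 1 N).card := by
    intro N hNX hN hloc
    rw [hδ] at hN
    obtain ⟨q1, q2⟩ := sizes hN (X1 := X1) (K1 := K1) (by rw [← hP, ← hZ]; omega) (by rw [← hP]; omega) (by omega) hyX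
    have h1 := H1 Q1 Q2 hQ1 hQ2 N X y q1 hNX (by omega) q2 hloc
    exact two_le' hX0 (Nat.cast_nonneg _) m1.2 m2.2 p1.le p2.le hc0 h1
  refine ⟨?_, ?_⟩
  · intro N hNX hN hloc
    apply hrl N hNX _ hloc
    have : δ / 2 * X ≤ δ * X := by nlinarith
    linarith
  · intro b1 b2 hb1 hb2
    obtain ⟨g, hg'⟩ : ∃ g, g = G1 * G2 / X := ⟨_, rfl⟩
    rw [← hg'] at hg hrl
    obtain ⟨E, hE⟩ : ∃ E, E = (Icc 1 X).filter (fun N : ℕ => Loc2 k Q1 Q2 N ∧ ∃ s1 s2 : ℝ, (s1 = 1 ∨ s1 = -1) ∧ (s2 = 1 ∨ s2 = -1) ∧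
          δ * (rep2 (RQ Q1 X y) (RQ Q2 X y) 1 1 N).card <
          |4 * pat2 (rep2 (RQ Q1 X y) (RQ Q2 X y) 1 1 N) b1 b2 s1 s2 -
            (rep2 (RQ Q1 X y) (RQ Q2 X y) 1 1 N).card|) := ⟨_, rfl⟩
    rw [← hE]
    have hsplit := card_filter_add_card_filter_not (s := E) (fun N : ℕ => (N : ℝ) < δ / 2 * X)
    have hsmall : ((E.filter (fun N : ℕ => (N : ℝ) < δ / 2 * X)).card : ℝ) ≤ δ / 2 * X := by
      have h1 : E.filter (fun N : ℕ => (N : ℝ) < δ / 2 * X) ⊆ Icc 1 ⌊δ / 2 * X⌋₊ := by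
        intro N hN
        rw [mem_filter, hE, mem_filter, mem_Icc] at hN
        rw [mem_Icc]
        exact ⟨hN.1.1.1, Nat.le_floor hN.2.le⟩
      have h2 := card_le_card h1
      rw [Nat.card_Icc, Nat.add_sub_cancel] at h2
      have h3 : ((E.filter (fun N : ℕ => (N : ℝ) < δ / 2 * X)).card : ℝ) ≤ (⌊δ / 2 * X⌋₊ : ℝ) := by exact_mod_cast h2
      exact h3.trans (Nat.floor_le (by positivity))
    obtain ⟨E', hE'⟩ : ∃ E', E' = E.filter (fun N : ℕ => ¬ (N : ℝ) < δ / 2 * X) := ⟨_, rfl⟩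
    rw [← hE'] at hsplit
    have hlarge : (E'.card : ℝ) ≤ δ / 2 * X := by
      apply exc_count (ε0 := A0 * (1 / 2 : ℝ) ^ (K / A0)) (g := g) hX0 hg hc0 hδ0
      · have hcardU : ((((Icc 1 X).image (fun n : ℕ => (n : ℤ)))).card : ℝ) ≤ 4 * X := by
          have h1 : ((Icc 1 X).image (fun n : ℕ => (n : ℤ))).card ≤ X := by
            refine card_image_le.trans ?_
            rw [Nat.card_Icc]
            omega
          have h2 : ((((Icc 1 X).image (fun n : ℕ => (n : ℤ)))).card : ℝ) ≤ X := by exact_mod_cast h1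
          linarith
        have h1 := exc (fun M s1 s2 => 4 * pat2 (rep2 (RQ Q1 X y) (RQ Q2 X y) 1 1 M) b1 b2 s1 s2 -
            (rep2 (RQ Q1 X y) (RQ Q2 X y) 1 1 M).card) ((Icc 1 X).image (fun n : ℕ => (n : ℤ)))
            (E'.image (fun n : ℕ => (n : ℤ)))
            (by
              apply image_subset_image
              rw [hE', hE]
              exact (filter_subset _ _).trans (filter_subset _ _))
            (τ := c0 * δ ^ 2 / 8 * g) (by positivity)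
            (fun s1 s2 hs1 hs2 => hH0 b1 b2 hb1 hb2 s1 s2 hs1 hs2 _ hcardU) (by
              intro M hM
              rw [mem_image] at hM
              obtain ⟨N, hN, rfl⟩ := hM
              rw [hE', mem_filter, hE, mem_filter, mem_Icc] at hN
              obtain ⟨⟨⟨h2, h3⟩, hloc, s1, s2, hs1, hs2, h4⟩, h5⟩ := hN
              push Not at h5
              refine ⟨s1, s2, hs1, hs2, ?_⟩
              have h6 := hrl N h3 h5 hloc
              refine le_trans ?_ h4.le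
              have h7 : δ / 2 ≤ (N : ℝ) / X := by
                rw [le_div_iff₀ hX0]
                exact h5
              have h8 : c0 / 4 * (δ / 2) * g ≤ c0 / 4 * ((N : ℝ) / X) * g := by
                apply mul_le_mul_of_nonneg_right _ hg.le
                exact mul_le_mul_of_nonneg_left h7 (by positivity)
              have h9 : δ * (c0 / 4 * (δ / 2) * g) ≤ δ * ((rep2 (RQ Q1 X y) (RQ Q2 X y) 1 1 N).card : ℝ) :=
                mul_le_mul_of_nonneg_left (h8.trans h6) hδ0.le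
              have h10 : c0 * δ ^ 2 / 8 * g = δ * (c0 / 4 * (δ / 2) * g) := by ring
              rw [h10]
              exact h9)
        rw [card_image_of_injective _ Nat.cast_injective] at h1
        refine h1.trans (le_of_eq ?_)
        rw [hg']
        field_simp
      · have h1 := hA K hK
        rw [← hδ] at h1
        refine le_trans (le_of_eq ?_) h1
        ring
    have h1 : (E.card : ℝ) = ((E.filter (fun N : ℕ => (N : ℝ) < δ / 2 * X)).card : ℝ) + E'.card := by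
      exact_mod_cast hsplit.symm
    rw [h1]
    linarith

end Pool.Agent.H530.Hz
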