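import Pool.Agent.H530.HzN

/-! The final forms: differences. -/

set_option autoImplicit false

namespace Pool.Agent.H530.Hz

open Finset Pool.Agent.H530.Ha
open Pool.Agent.H373R2.T7 hiding RQ

open Classical in
/-- **differences with prescribed parities, almost all numbers** -/
theorem F2d (k : ℕ) (hk : 1 ≤ k) : ∃ c : ℝ, 0 < c ∧ ∃ A : ℕ, 1 ≤ A ∧ ∀ K : ℕ, A ≤ K → ∀ B' : ℕ, ∃ X0 y0 : ℕ,
    ∀ Q1 Q2 : ℕ → ℕ → Prop, Sv k Q1 → Sv k Q2 → ∀ X y : ℕ, X0 ≤ X → y0 ≤ y → y ^ K ≤ X →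
      (∀ N : ℕ, N ≤ X → (1 / 2 : ℝ) ^ (K / A) * X ≤ (X - N : ℕ) → LocD k Q1 Q2 N →
        c * (((X - N : ℕ) : ℝ) / X) * (((RQ Q1 X y).card : ℝ) * (RQ Q2 X y).card / X) ≤
          (rep2 (RQ Q1 X y) (RQ Q2 X y) (-1) 1 N).card) ∧
      ∀ b1 b2 : ℤ, |(b1 : ℝ)| ≤ X * Real.log X ^ B' → |(b2 : ℝ)| ≤ X * Real.log X ^ B' →
        (((range X).filter (fun N : ℕ => LocD k Q1 Q2 N ∧ ∃ s1 s2 : ℝ, (s1 = 1 ∨ s1 = -1) ∧ (s2 = 1 ∨ s2 = -1) ∧
          (1 / 2 : ℝ) ^ (K / A) * (rep2 (RQ Q1 X y) (RQ Q2 X y) (-1) 1 N).card <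
          |4 * pat2 (rep2 (RQ Q1 X y) (RQ Q2 X y) (-1) 1 N) b1 b2 s1 s2 -
            (rep2 (RQ Q1 X y) (RQ Q2 X y) (-1) 1 N).card|)).card : ℝ) ≤ (1 / 2 : ℝ) ^ (K / A) * X := by
  obtain ⟨A0, hA0, H0⟩ := pat2_all k hk
  obtain ⟨c0, hc0, K1, hK1, X1, y1, H1⟩ := dif2_low k hk
  obtain ⟨K2, hK2, X2, y2, H2⟩ := cnt2 k hk
  obtain ⟨A, hAL, hA0A, hA⟩ := absorb A0 5 (K1 + K2 + 2) hA0 (512 * A0 / c0 ^ 2) (by
    have : (0 : ℝ) < A0 := by exact_mod_cast hA0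
    positivity)
  refine ⟨c0 / 4, by positivity, A, by omega, fun K hK B' => ?_⟩
  obtain ⟨X0, y0, H0⟩ := H0 K (by omega) B'
  obtain ⟨P, hP⟩ : ∃ P, P = 2 ^ (K + 1) := ⟨_, rfl⟩
  obtain ⟨Z, hZ⟩ : ∃ Z, Z = P * X1 := ⟨_, rfl⟩
  refine ⟨X0 + Z + X2 + 1, y0 + y1 + y2 + P + 1, ?_⟩
  intro Q1 Q2 hQ1 hQ2 X y hX hy hyX
  obtain ⟨δ, hδ⟩ : ∃ δ : ℝ, δ = (1 / 2 : ℝ) ^ (K / A) := ⟨_, rfl⟩
  have hδ0 : 0 < δ := by rw [hδ]; positivity
  have hδ1 : δ ≤ 1 := by rw [hδ]; exact pow_le_one₀ (by norm_num) (by norm_num)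
  have hXr : (1 : ℝ) ≤ X := by exact_mod_cast (by omega : 1 ≤ X)
  have hX0 : (0 : ℝ) < X := by linarith
  have hy1 : 1 ≤ y := by omega
  have m1 := H2 Q1 hQ1 X y (by omega) (by omega) ((Nat.pow_le_pow_right hy1 (by omega)).trans hyX)
  have m2 := H2 Q2 hQ2 X y (by omega) (by omega) ((Nat.pow_le_pow_right hy1 (by omega)).trans hyX)
  have hV1 := VQ_nonneg hQ1 y
  have hV2 := VQ_nonneg hQ2 y
  obtain ⟨G1, hG1⟩ : ∃ G : ℝ, G = ((RQ Q1 X y).card : ℝ) := ⟨_, rfl⟩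
  obtain ⟨G2, hG2⟩ : ∃ G : ℝ, G = ((RQ Q2 X y).card : ℝ) := ⟨_, rfl⟩
  have hH0 := H0 Q1 Q2 hQ1 hQ2 X y (by omega) (by omega) hyX (-1) 1 (by norm_num) one_ne_zero
  rw [← hG1] at m1 hH0 ⊢
  rw [← hG2] at m2 hH0 ⊢
  rw [← hδ]
  have p1 : 0 < G1 := lt_of_lt_of_le (by positivity) m1.1
  have p2 : 0 < G2 := lt_of_lt_of_le (by positivity) m2.1
  have hg : 0 < G1 * G2 / X := by positivity
  have hrl : ∀ N : ℕ, N ≤ X → δ / 2 * X ≤ (X - N : ℕ) → LocD k Q1 Q2 N →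
      c0 / 4 * (((X - N : ℕ) : ℝ) / X) * (G1 * G2 / X) ≤ (rep2 (RQ Q1 X y) (RQ Q2 X y) (-1) 1 N).card := by
    intro N hNX hN hloc
    rw [hδ] at hN
    obtain ⟨q1, q2⟩ := sizes hN (X1 := X1) (K1 := K1) (by rw [← hP, ← hZ]; omega) (by rw [← hP]; omega) (by omega) hyX
    have h1 := H1 Q1 Q2 hQ1 hQ2 N X y hNX q1 (by omega) q2 hloc
    exact two_le' hX0 (Nat.cast_nonneg _) m1.2 m2.2 p1.le p2.le hc0 h1
  refine ⟨?_, ?_⟩
  · intro N hNX hN hloc
    apply hrl N hNX _ hloc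
    have : δ / 2 * X ≤ δ * X := by nlinarith
    linarith
  · intro b1 b2 hb1 hb2
    obtain ⟨g, hg'⟩ : ∃ g, g = G1 * G2 / X := ⟨_, rfl⟩
    rw [← hg'] at hg hrl
    obtain ⟨E, hE⟩ : ∃ E, E = (range X).filter (fun N : ℕ => LocD k Q1 Q2 N ∧ ∃ s1 s2 : ℝ, (s1 = 1 ∨ s1 = -1) ∧ (s2 = 1 ∨ s2 = -1) ∧
          δ * (rep2 (RQ Q1 X y) (RQ Q2 X y) (-1) 1 N).card <
          |4 * pat2 (rep2 (RQ Q1 X y) (RQ Q2 X y) (-1) 1 N) b1 b2 s1 s2 -
            (rep2 (RQ Q1 X y) (RQ Q2 X y) (-1) 1 N).card|) := ⟨_, rfl⟩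
    rw [← hE]
    have hsplit := card_filter_add_card_filter_not (s := E) (fun N : ℕ => ((X - N : ℕ) : ℝ) < δ / 2 * X)
    have hsmall : ((E.filter (fun N : ℕ => ((X - N : ℕ) : ℝ) < δ / 2 * X)).card : ℝ) ≤ δ / 2 * X := by
      have h2 : (E.filter (fun N : ℕ => ((X - N : ℕ) : ℝ) < δ / 2 * X)).card ≤ (Icc 1 ⌊δ / 2 * X⌋₊).card := by
        apply card_le_card_of_injOn (fun N => X - N)
        · intro N hN
          rw [mem_coe, mem_filter, hE, mem_filter, mem_range] at hN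
          rw [mem_coe, mem_Icc]
          exact ⟨by have := hN.1.1; show 1 ≤ X - N; omega, Nat.le_floor hN.2.le⟩
        · intro N hN M hM h
          rw [mem_coe, mem_filter, hE, mem_filter, mem_range] at hN hM
          have h1 := hN.1.1
          have h2 := hM.1.1
          simp only at h
          omega
      rw [Nat.card_Icc, Nat.add_sub_cancel] at h2
      have h3 : ((E.filter (fun N : ℕ => ((X - N : ℕ) : ℝ) < δ / 2 * X)).card : ℝ) ≤ (⌊δ / 2 * X⌋₊ : ℝ) := by exact_mod_cast h2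
      exact h3.trans (Nat.floor_le (by positivity))
    obtain ⟨E', hE'⟩ : ∃ E', E' = E.filter (fun N : ℕ => ¬ ((X - N : ℕ) : ℝ) < δ / 2 * X) := ⟨_, rfl⟩
    rw [← hE'] at hsplit
    have hlarge : (E'.card : ℝ) ≤ δ / 2 * X := by
      apply exc_count (ε0 := A0 * (1 / 2 : ℝ) ^ (K / A0)) (g := g) hX0 hg hc0 hδ0
      · have hcardU : ((((range X).image (fun n : ℕ => (n : ℤ)))).card : ℝ) ≤ 4 * X := by
          have h1 : ((range X).image (fun n : ℕ => (n : ℤ))).card ≤ X := by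
            refine card_image_le.trans ?_
            rw [card_range]
          have h2 : ((((range X).image (fun n : ℕ => (n : ℤ)))).card : ℝ) ≤ X := by exact_mod_cast h1
          linarith
        have h1 := exc (fun M s1 s2 => 4 * pat2 (rep2 (RQ Q1 X y) (RQ Q2 X y) (-1) 1 M) b1 b2 s1 s2 -
            (rep2 (RQ Q1 X y) (RQ Q2 X y) (-1) 1 M).card) ((range X).image (fun n : ℕ => (n : ℤ)))
            (E'.image (fun n : ℕ => (n : ℤ)))
            (by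
              apply image_subset_image
              rw [hE', hE]
              exact (filter_subset _ _).trans (filter_subset _ _))
            (τ := c0 * δ ^ 2 / 8 * g) (by positivity)
            (fun s1 s2 hs1 hs2 => hH0 b1 b2 hb1 hb2 s1 s2 hs1 hs2 _ hcardU) (by
              intro M hM
              rw [mem_image] at hM
              obtain ⟨N, hN, rfl⟩ := hM
              rw [hE', mem_filter, hE, mem_filter, mem_range] at hN
              obtain ⟨⟨h3, hloc, s1, s2, hs1, hs2, h4⟩, h5⟩ := hN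
              push Not at h5
              refine ⟨s1, s2, hs1, hs2, ?_⟩
              have h6 := hrl N h3.le h5 hloc
              refine le_trans ?_ h4.le
              have h7 : δ / 2 ≤ ((X - N : ℕ) : ℝ) / X := by
                rw [le_div_iff₀ hX0]
                exact h5
              have h8 : c0 / 4 * (δ / 2) * g ≤ c0 / 4 * (((X - N : ℕ) : ℝ) / X) * g := by
                apply mul_le_mul_of_nonneg_right _ hg.le
                exact mul_le_mul_of_nonneg_left h7 (by positivity)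
              have h9 : δ * (c0 / 4 * (δ / 2) * g) ≤ δ * ((rep2 (RQ Q1 X y) (RQ Q2 X y) (-1) 1 N).card : ℝ) :=
                mul_le_mul_of_nonneg_left (h8.trans h6) hδ0.le
              have h10 : c0 * δ ^ 2 / 8 * g = δ * (c0 / 4 * (δ / 2) * g) := by ring
              rw [h10]
              exact h9)
        rw [card_image_of_injective _ Nat.cast_injective] at h1
        refine h1.trans (le_of_eq ?_)
        rw [hg']
        field_simp
      · have h1 := hA K hK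
        rw [← hδ] at h1
        refine le_trans (le_of_eq ?_) h1
        ring
    have h1 : (E.card : ℝ) = ((E.filter (fun N : ℕ => ((X - N : ℕ) : ℝ) < δ / 2 * X)).card : ℝ) + E'.card := by
      exact_mod_cast hsplit.symm
    rw [h1]
    linarith

end Pool.Agent.H530.Hz
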