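import Pool.Agent.H530.HzO

/-! Translations for the final statements. -/

set_option autoImplicit false

namespace Pool.Agent.H530.Hz

open Finset Pool.Agent.H530.Ha
open Pool.Agent.H373R2.T7 hiding RQ

open Classical in
lemma pat2_card (R : Finset (ℕ × ℕ)) (b1 b2 : ℤ) (s1 s2 : ℝ) :
    pat2 R b1 b2 s1 s2 = ((R.filter (fun t => lz ((t.1 : ℤ) + b1) = s1 ∧ lz ((t.2 : ℤ) + b2) = s2)).card : ℝ) := by
  unfold pat2 ind
  rw [card_eq_sum_ones, Nat.cast_sum, sum_filter]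
  apply sum_congr rfl
  intro t _
  by_cases h1 : lz ((t.1 : ℤ) + b1) = s1 <;> by_cases h2 : lz ((t.2 : ℤ) + b2) = s2 <;> simp [h1, h2]

open Classical in
lemma pat3_card (R : Finset (ℕ × (ℕ × ℕ))) (b1 b2 b3 : ℤ) (s1 s2 s3 : ℝ) :
    pat3 R b1 b2 b3 s1 s2 s3 = ((R.filter (fun t => lz ((t.1 : ℤ) + b1) = s1 ∧ lz ((t.2.1 : ℤ) + b2) = s2 ∧
      lz ((t.2.2 : ℤ) + b3) = s3)).card : ℝ) := by
  unfold pat3 ind
  rw [card_eq_sum_ones, Nat.cast_sum, sum_filter]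
  apply sum_congr rfl
  intro t _
  by_cases h1 : lz ((t.1 : ℤ) + b1) = s1 <;> by_cases h2 : lz ((t.2.1 : ℤ) + b2) = s2 <;>
    by_cases h3 : lz ((t.2.2 : ℤ) + b3) = s3 <;> simp [h1, h2, h3]

open Classical in
lemma rep2_dif (S1 S2 : Finset ℕ) (d : ℕ) (P : ℕ → ℕ → Prop) :
    ((rep2 S1 S2 (-1) 1 d).filter (fun t => P t.1 t.2)).card =
      (S1.filter (fun n => n + d ∈ S2 ∧ P n (n + d))).card := by
  symm
  apply card_bij (fun n _ => (n, n + d))
  · intro n hn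
    rw [mem_filter] at hn
    unfold rep2
    rw [mem_filter, mem_filter, mem_product]
    refine ⟨⟨⟨hn.1, hn.2.1⟩, ?_⟩, hn.2.2⟩
    push_cast
    ring
  · intro n _ m _ h
    exact (Prod.mk.inj h).1
  · rintro ⟨n, m⟩ h
    unfold rep2 at h
    rw [mem_filter, mem_filter, mem_product] at h
    obtain ⟨⟨⟨h1, h2⟩, h3⟩, h4⟩ := h
    simp only at h1 h2 h3 h4
    have h5 : m = n + d := by omega
    subst h5
    exact ⟨n, mem_filter.2 ⟨h1, h2, h4⟩, rfl⟩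

open Classical in
lemma rep2_sum (S1 S2 : Finset ℕ) (N : ℕ) (P : ℕ → ℕ → Prop) :
    ((rep2 S1 S2 1 1 N).filter (fun t => P t.1 t.2)).card =
      (S1.filter (fun n => n ≤ N ∧ N - n ∈ S2 ∧ P n (N - n))).card := by
  symm
  apply card_bij (fun n _ => (n, N - n))
  · intro n hn
    rw [mem_filter] at hn
    unfold rep2
    rw [mem_filter, mem_filter, mem_product]
    refine ⟨⟨⟨hn.1, hn.2.2.1⟩, ?_⟩, hn.2.2.2⟩
    simp only
    have := hn.2.1
    omega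
  · intro n _ m _ h
    exact (Prod.mk.inj h).1
  · rintro ⟨n, m⟩ h
    unfold rep2 at h
    rw [mem_filter, mem_filter, mem_product] at h
    obtain ⟨⟨⟨h1, h2⟩, h3⟩, h4⟩ := h
    simp only at h1 h2 h3 h4
    have h5 : m = N - n := by omega
    have h6 : n ≤ N := by omega
    subst h5
    exact ⟨n, mem_filter.2 ⟨h1, h6, h2, h4⟩, rfl⟩

/-- the sign of a parity -/
noncomputable def sg (s : Bool) : ℝ := if s then -1 else 1

lemma sg_cases (s : Bool) : sg s = 1 ∨ sg s = -1 := by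
  cases s
  · left; simp [sg]
  · right; simp [sg]

lemma par_iff (s : Bool) (m : ℤ) :
    (m ≠ 0 ∧ (Odd (ArithmeticFunction.cardFactors m.natAbs) ↔ s = true)) ↔ lz m = sg s := by
  by_cases hm : m = 0
  · rw [hm, lz_zero]
    constructor
    · intro h
      exact absurd rfl h.1
    · intro h
      rcases sg_cases s with h1 | h1 <;> rw [h1] at h <;> norm_num at h
  · have h : lz m = (-1) ^ (ArithmeticFunction.cardFactors m.natAbs) := by
      unfold lz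
      exact la_eq (by omega)
    rw [h]
    rcases Nat.even_or_odd (ArithmeticFunction.cardFactors m.natAbs) with h1 | h1
    · rw [h1.neg_one_pow]
      have h2 : ¬ Odd (ArithmeticFunction.cardFactors m.natAbs) := Nat.not_odd_iff_even.2 h1
      cases s <;> simp [sg, hm, h2] <;> norm_num
    · rw [h1.neg_one_pow]
      cases s <;> simp [sg, hm, h1] <;> norm_num

lemma ex_sg (P : ℝ → ℝ → Prop) : (∃ s1 s2 : ℝ, (s1 = 1 ∨ s1 = -1) ∧ (s2 = 1 ∨ s2 = -1) ∧ P s1 s2) ↔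
    ∃ s t : Bool, P (sg s) (sg t) := by
  constructor
  · rintro ⟨s1, s2, h1, h2, h⟩
    rcases h1 with rfl | rfl <;> rcases h2 with rfl | rfl
    · exact ⟨false, false, by simpa [sg] using h⟩
    · exact ⟨false, true, by simpa [sg] using h⟩
    · exact ⟨true, false, by simpa [sg] using h⟩
    · exact ⟨true, true, by simpa [sg] using h⟩
  · rintro ⟨s, t, h⟩
    exact ⟨sg s, sg t, sg_cases s, sg_cases t, h⟩

/-- the Fourier bound in the final form -/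
theorem F1 (k : ℕ) (hk : 1 ≤ k) (L : ℕ) : ∃ A : ℕ, L ≤ A ∧ 1 ≤ A ∧ ∀ K : ℕ, A ≤ K → ∀ B' : ℕ, ∃ X0 y0 : ℕ,
    ∀ Q : ℕ → ℕ → Prop, Sv k Q → ∀ X y : ℕ, X0 ≤ X → y0 ≤ y → y ^ K ≤ X →
      ∀ b : ℤ, |(b : ℝ)| ≤ X * Real.log X ^ B' → ∀ α : ℝ,
      ‖∑ n ∈ RQ Q X y, ((lz ((n : ℤ) + b) : ℝ) : ℂ) * Pool.Agent.H807R2.Dav.ee (n * α)‖ ≤
        (1 / 2 : ℝ) ^ (K / A) * (RQ Q X y).card := by
  obtain ⟨A0, hA0, H⟩ := all_Z k hk
  obtain ⟨A, h1, h2, h3⟩ := absorb A0 1 L hA0 9 (by norm_num)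
  refine ⟨A, h1, by omega, fun K hK B' => ?_⟩
  obtain ⟨X0, y0, H⟩ := H K (by omega) B'
  refine ⟨X0, y0, ?_⟩
  intro Q hQ X y hX hy hyX b hb α
  refine (H Q hQ X y hX hy hyX b hb α).trans ?_
  apply mul_le_mul_of_nonneg_right _ (Nat.cast_nonneg _)
  have := h3 K hK
  rwa [pow_one] at this

/-- a larger constant `A` is allowed -/
lemma half_mono {K A A' : ℕ} (hA : 1 ≤ A) (h : A ≤ A') : (1 / 2 : ℝ) ^ (K / A) ≤ (1 / 2 : ℝ) ^ (K / A') :=
  pow_le_pow_of_le_one (by norm_num) (by norm_num) (Nat.div_le_div_left h hA)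

end Pool.Agent.H530.Hz
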