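import Pool.Agent.H530.HzP

/-! An upper bound of the right order for the ternary counts, and subsets. -/

set_option autoImplicit false

namespace Pool.Agent.H530.Hz

open Finset Pool.Agent.H807R2.Dav MeasureTheory Pool.Agent.H530.Ha
open Pool.Agent.H373R2.T7 hiding RQ

/-- upper bound -/
theorem F3up (k : ℕ) (hk : 1 ≤ k) : ∃ C : ℝ, 0 < C ∧ ∃ K : ℕ, 1 ≤ K ∧ ∃ X0 y0 : ℕ,
    ∀ Q1 Q2 Q3 : ℕ → ℕ → Prop, Sv k Q1 → Sv k Q2 → Sv k Q3 → ∀ X y : ℕ, X0 ≤ X → y0 ≤ y → y ^ K ≤ X →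
      ∀ a1 a2 a3 : ℤ, a1 ≠ 0 → a2 ≠ 0 → a3 ≠ 0 → ∀ N : ℤ,
      ((rep3 (RQ Q1 X y) (RQ Q2 X y) (RQ Q3 X y) a1 a2 a3 N).card : ℝ) ≤
        C * (((RQ Q1 X y).card : ℝ) * (RQ Q2 X y).card * (RQ Q3 X y).card / X) := by
  obtain ⟨A0, hA0, C, hC, H⟩ := data k hk (p := 5 / 2) (by norm_num)
  obtain ⟨X0, y0, H⟩ := H A0 le_rfl 0
  refine ⟨6 / 5 * C, by positivity, A0, hA0, X0, y0, ?_⟩
  intro Q1 Q2 Q3 hQ1 hQ2 hQ3 X y hX hy hyX a1 a2 a3 ha1 ha2 ha3 N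
  obtain ⟨hX1, g1, p1, _⟩ := H Q1 hQ1 X y hX hy hyX
  obtain ⟨_, g2, p2, _⟩ := H Q2 hQ2 X y hX hy hyX
  obtain ⟨_, g3, p3, _⟩ := H Q3 hQ3 X y hX hy hyX
  have g1' : (0 : ℝ) < (RQ Q1 X y).card := by exact_mod_cast (by omega : 0 < (RQ Q1 X y).card)
  have g2' : (0 : ℝ) < (RQ Q2 X y).card := by exact_mod_cast (by omega : 0 < (RQ Q2 X y).card)
  have g3' : (0 : ℝ) < (RQ Q3 X y).card := by exact_mod_cast (by omega : 0 < (RQ Q3 X y).card)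
  have h := tern (w1 := fun _ => 1) (w2 := fun _ => 1) (w3 := fun _ => 1) (ε := 1) ha1 ha2 ha3 N g1' g2' g3'
    (p1 (fun _ => 1) fun _ _ => by simp) (p2 (fun _ => 1) fun _ _ => by simp) (p3 (fun _ => 1) fun _ _ => by simp)
    (Or.inl fun α => by
      unfold FS
      refine (norm_sum_le _ _).trans ?_
      rw [one_mul]
      calc ∑ n ∈ RQ Q1 X y, ‖(1 : ℂ) * ee (n * α)‖ ≤ ∑ n ∈ RQ Q1 X y, (1 : ℝ) := by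
            apply sum_le_sum
            intro n _
            rw [one_mul, norm_ee]
        _ = _ := by rw [sum_const, nsmul_eq_mul, mul_one])
  simp only [mul_one, sum_const, nsmul_eq_mul] at h
  rw [Complex.norm_natCast, Real.sqrt_one, one_mul] at h
  unfold rep3
  exact h

open Classical in
/-- two arbitrary subsets -/
theorem F3sub (k : ℕ) (hk : 1 ≤ k) (L : ℕ) : ∃ A : ℕ, L ≤ A ∧ 1 ≤ A ∧ ∀ K : ℕ, A ≤ K → ∀ B' : ℕ, ∃ X0 y0 : ℕ,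
    ∀ Q1 Q2 Q3 : ℕ → ℕ → Prop, Sv k Q1 → Sv k Q2 → Sv k Q3 → ∀ X y : ℕ, X0 ≤ X → y0 ≤ y → y ^ K ≤ X →
      ∀ a1 a2 a3 : ℤ, a1 ≠ 0 → a2 ≠ 0 → a3 ≠ 0 → ∀ N : ℤ,
      ∀ b : ℤ, |(b : ℝ)| ≤ X * Real.log X ^ B' → ∀ S1 S2 : Finset ℕ,
      |∑ t ∈ (rep3 (RQ Q1 X y) (RQ Q2 X y) (RQ Q3 X y) a1 a2 a3 N).filter (fun t => t.1 ∈ S1 ∧ t.2.1 ∈ S2),
        lz ((t.2.2 : ℤ) + b)| ≤
        (1 / 2 : ℝ) ^ (K / A) * (((RQ Q1 X y).card : ℝ) * (RQ Q2 X y).card * (RQ Q3 X y).card / X) := by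
  obtain ⟨A0, hA0, H⟩ := tern_real k hk
  obtain ⟨A, hAL, hA0A, hA⟩ := absorb A0 1 L hA0 A0 (by exact_mod_cast hA0)
  refine ⟨A, hAL, hA0.trans hA0A, fun K hK B' => ?_⟩
  obtain ⟨X0, y0, H⟩ := H K (hA0A.trans hK) B'
  refine ⟨X0, y0, ?_⟩
  intro Q1 Q2 Q3 hQ1 hQ2 hQ3 X y hX hy hyX a1 a2 a3 ha1 ha2 ha3 N b hb S1 S2
  have h := H Q1 Q2 Q3 hQ1 hQ2 hQ3 X y hX hy hyX a1 a2 a3 ha1 ha2 ha3 N
    (fun n => if n ∈ S1 then 1 else 0) (fun n => if n ∈ S2 then 1 else 0) (fun n => lz ((n : ℤ) + b))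
    (fun n => by split_ifs <;> simp) (fun n => by split_ifs <;> simp) (fun n => lz_abs _)
    (Or.inr (Or.inr ⟨b, hb, fun n => rfl⟩))
  have e : ∑ t ∈ (rep3 (RQ Q1 X y) (RQ Q2 X y) (RQ Q3 X y) a1 a2 a3 N).filter (fun t => t.1 ∈ S1 ∧ t.2.1 ∈ S2),
        lz ((t.2.2 : ℤ) + b) = ∑ t ∈ rep3 (RQ Q1 X y) (RQ Q2 X y) (RQ Q3 X y) a1 a2 a3 N,
        (if t.1 ∈ S1 then (1 : ℝ) else 0) * ((if t.2.1 ∈ S2 then (1 : ℝ) else 0) * lz ((t.2.2 : ℤ) + b)) := by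
    rw [sum_filter]
    apply sum_congr rfl
    intro t _
    by_cases h1 : t.1 ∈ S1 <;> by_cases h2 : t.2.1 ∈ S2 <;> simp [h1, h2]
  rw [e]
  refine h.trans ?_
  apply mul_le_mul_of_nonneg_right _ (by positivity)
  have := hA K hK
  rwa [pow_one] at this

end Pool.Agent.H530.Hz
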