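import Pool.Agent.H530.HzQ

/-! Fourier uniformity of the Liouville function on sifted sets, uniformly in the level. -/

set_option autoImplicit false

namespace Pool.Agent.H530.Hz

open Finset Pool.Agent.H807R2.Dav Pool.Agent.H530.Ha Pool.Agent.H530.Hx
open Pool.Agent.H373R2.T7 hiding RQ

/-- quantitative form -/
theorem one_PqU (k : ℕ) : ∃ C0 : ℕ, 1 ≤ C0 ∧ ∀ B' E : ℕ, ∃ X0 y0 : ℕ,
    ∀ bb : ℕ, C0 ≤ bb → ∀ Q : ℕ → ℕ → Prop, Sv k Q → ∀ X y : ℕ, X0 ≤ X → y0 ≤ y → y ^ (128 * (C0 * bb)) ≤ X →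
      ∀ b : ℕ, (b : ℝ) ≤ X * Real.log X ^ B' → ∀ (α : ℝ) (ω : ℂ), ‖ω‖ = 1 →
      |∑ n ∈ RQ Q X y, fP ω b α n| ≤ 2 * (1 / 2 : ℝ) ^ bb * (RQ Q X y).card + X / Real.log X ^ E := by
  classical
  obtain ⟨C0, hC0, hFL⟩ := Pool.Agent.H20R2.fLem k
  refine ⟨C0, hC0, ?_⟩
  intro B' E
  obtain ⟨z0, hz0⟩ : ∃ z0 : ℕ, z0 = C0 + k := ⟨_, rfl⟩
  obtain ⟨q, hq⟩ : ∃ q : ℕ, q = ∏ p ∈ pz z0, p := ⟨_, rfl⟩
  have hq1 : 1 ≤ q := by
    rw [hq]
    exact Nat.pos_of_ne_zero (prod_ne_zero_iff.2 fun p hp => (mem_pz.1 hp).2.ne_zero)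
  obtain ⟨X0, y0, hTA⟩ := TA_bound k (E + 2) (B' + 1) q
  obtain ⟨X1, hX1⟩ := ev_L' (max 4 (61 * q))
  obtain ⟨X2, hX2⟩ := ev_log' (E + 2) 1
  refine ⟨X0 + X1 + X2 + q + 1, y0 + z0 + 2, ?_⟩
  intro bb hbC Q hQ X y hX hy hyX b hbX α ω hω
  have hbb1 : 1 ≤ C0 * bb := Nat.mul_pos hC0 (hC0.trans hbC)
  obtain ⟨D, hD⟩ : ∃ D : ℕ, D = (2 ^ 2 ^ JJ y) ^ (C0 * bb) := ⟨_, rfl⟩
  have hD1 : 1 ≤ D := by rw [hD]; exact Nat.one_le_pow _ _ (by positivity)
  have hD64 : D ^ 64 ≤ X := by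
    refine le_trans ?_ hyX
    rw [hD]
    calc ((2 ^ 2 ^ JJ y) ^ (C0 * bb)) ^ 64 ≤ ((y ^ 2) ^ (C0 * bb)) ^ 64 :=
          Nat.pow_le_pow_left (Nat.pow_le_pow_left (JJ_le y (by omega)) _) _
      _ = y ^ (128 * (C0 * bb)) := by rw [← pow_mul, ← pow_mul]; congr 1; ring
  have hyX1 : y ≤ X := (Nat.le_self_pow (by omega) y).trans hyX
  have hL := hX1 X (by omega)
  obtain ⟨L, hLe⟩ : ∃ L : ℝ, L = Real.log X := ⟨_, rfl⟩
  have hL22 := hX2 X (by omega)
  have hT := hTA X (by omega)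
  rw [← hLe] at hL hbX hL22 hT ⊢
  have hL4 : 4 ≤ L := (le_max_left _ _).trans hL
  have hL1 : 1 ≤ L := by linarith
  have hLq : 61 * (q : ℝ) ≤ L := (le_max_right _ _).trans hL
  have hXp : (1 : ℝ) ≤ X := by exact_mod_cast (by omega : 1 ≤ X)
  obtain ⟨P, hP⟩ : ∃ P, P = (pz y).filter (fun p => z0 < p) := ⟨_, rfl⟩
  have hPy : P ⊆ pz y := by rw [hP]; exact filter_subset _ _
  have hPk : ∀ p ∈ P, k ≤ p := by
    intro p hp
    rw [hP, mem_filter] at hp
    omega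
  have hLB0 : (1 : ℝ) ≤ L ^ B' := one_le_pow₀ hL1
  have hXb : ((X + b : ℕ) : ℝ) ≤ X * L ^ (B' + 1) := by
    push_cast
    have h1 : (X : ℝ) ≤ X * L ^ B' := le_mul_of_one_le_right (by linarith) hLB0
    have h2 : X * L ^ B' * 4 ≤ X * L ^ (B' + 1) := by
      rw [pow_succ, ← mul_assoc]
      exact mul_le_mul_of_nonneg_left hL4 (by positivity)
    linarith
  have hbb2 : (b : ℝ) ≤ X * L ^ (B' + 1) := by
    refine le_trans ?_ hXb
    push_cast
    linarith
  have hDD : (D : ℝ) ^ 2 ≤ X / L ^ (E + 2) := by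
    rw [le_div_iff₀ (by positivity)]
    rw [one_mul] at hL22
    have h2 : (1 : ℝ) ≤ D := by exact_mod_cast hD1
    have e1 : (D : ℝ) ^ 2 ≤ √(X : ℝ) := by
      apply Real.le_sqrt_of_sq_le
      have h1 : (D : ℝ) ^ 64 ≤ X := by exact_mod_cast hD64
      calc ((D : ℝ) ^ 2) ^ 2 = (D : ℝ) ^ 4 := by ring
        _ ≤ (D : ℝ) ^ 64 := pow_le_pow_right₀ h2 (by norm_num)
        _ ≤ _ := h1
    calc (D : ℝ) ^ 2 * L ^ (E + 2) ≤ √(X : ℝ) * √(X : ℝ) :=
          mul_le_mul e1 hL22 (by positivity) (Real.sqrt_nonneg _)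
      _ = X := Real.mul_self_sqrt (by linarith)
  -- one class
  have hclass : ∀ c < q, |∑ n ∈ ((Icc 1 X).filter (fun n => n ≡ c [MOD q])).filter (fun n => ∀ p ∈ P, ¬ Q p n), fP ω b α n| ≤
      2 * (1 / 2 : ℝ) ^ bb * ((((Icc 1 X).filter (fun n => n ≡ c [MOD q])).filter (fun n => ∀ p ∈ P, ¬ Q p n)).card : ℝ) +
        60 * L * (X / L ^ (E + 2)) := by
    intro c hc
    obtain ⟨g, hg⟩ : ∃ g, g = Nat.gcd (c + b) q := ⟨_, rfl⟩
    have hgq : g ∣ q := by rw [hg]; exact Nat.gcd_dvd_right _ _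
    obtain ⟨q1, hq1'⟩ := hgq
    have hg1 : 1 ≤ g := by rw [hg]; exact Nat.gcd_pos_of_pos_right _ hq1
    have hq11 : 1 ≤ q1 := by
      rcases Nat.eq_zero_or_pos q1 with h | h
      · rw [h, mul_zero] at hq1'
        omega
      · exact h
    have hgle : g ≤ q := by rw [hq1']; exact Nat.le_mul_of_pos_right _ hq11
    have hq1le : q1 ≤ q := by rw [hq1']; exact Nat.le_mul_of_pos_left _ hg1
    have h1 := clsP hQ (y := y) (X := X) (c := c) (b := b) (α := α) hω hC0 hFL hbC (by omega : C0 ≤ z0) hq.symm hD hg hq1'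
    rw [← hP] at h1
    have t1 := hT (X + b) hXb g q1 hg1 hgle hq11 hq1le y D (by omega) hyX1 hD1 hD64 P hPy hPk α
    have t2 := hT b hbb2 g q1 hg1 hgle hq11 hq1le y D (by omega) hyX1 hD1 hD64 P hPy hPk α
    have hJ0 : (0 : ℝ) ≤ ((JJ y : ℕ) : ℝ) := Nat.cast_nonneg _
    have hte0 : 0 ≤ (X : ℝ) / L ^ (E + 2) := by positivity
    have hJL : ((JJ y : ℕ) : ℝ) + 2 ≤ 5 * L := by
      have h1 := JJ_log (y := y) (by omega)
      have h2 : Real.log y ≤ L := by
        rw [hLe]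
        apply Real.log_le_log
        · exact_mod_cast (by omega : 0 < y)
        · exact_mod_cast hyX1
      linarith
    have h9 : 4 * (((JJ y : ℕ) : ℝ) + 2) * ((D : ℝ) ^ 2 + (TA (X + b) k g q1 D P α + TA b k g q1 D P α)) ≤
        60 * L * (X / L ^ (E + 2)) := by
      calc _ ≤ 4 * (((JJ y : ℕ) : ℝ) + 2) * (3 * (X / L ^ (E + 2))) :=
            mul_le_mul_of_nonneg_left (by linarith) (by positivity)
        _ ≤ 4 * (5 * L) * (3 * (X / L ^ (E + 2))) := mul_le_mul_of_nonneg_right (by linarith) (by positivity)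
        _ = _ := by ring
    linarith
  -- all classes
  have hfib := fib hQ (y := y) (X := X) (show z0 ≤ y by omega) hq hq1
  rw [← hP] at hfib
  rw [hfib]
  obtain ⟨G, hG⟩ : ∃ G, G = (range q).filter (fun c => ∀ p ∈ pz z0, ¬ Q p c) := ⟨_, rfl⟩
  rw [← hG] at hfib ⊢
  have hcard : ((RQ Q X y).card : ℝ) = ∑ c ∈ G,
      ((((Icc 1 X).filter (fun n => n ≡ c [MOD q])).filter (fun n => ∀ p ∈ P, ¬ Q p n)).card : ℝ) := by
    have := hfib (fun _ => 1)
    simpa using this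
  rw [hcard]
  have hGq : (G.card : ℝ) ≤ q := by
    have : G.card ≤ q := by
      rw [hG]
      refine (card_filter_le _ _).trans ?_
      rw [card_range]
    exact_mod_cast this
  have hte0 : 0 ≤ (X : ℝ) / L ^ (E + 2) := by positivity
  refine (abs_sum_le_sum_abs _ _).trans ?_
  have h1 : ∀ c ∈ G, |∑ n ∈ ((Icc 1 X).filter (fun n => n ≡ c [MOD q])).filter (fun n => ∀ p ∈ P, ¬ Q p n), fP ω b α n| ≤
      2 * (1 / 2 : ℝ) ^ bb * ((((Icc 1 X).filter (fun n => n ≡ c [MOD q])).filter (fun n => ∀ p ∈ P, ¬ Q p n)).card : ℝ) +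
        60 * L * (X / L ^ (E + 2)) := by
    intro c hc
    rw [hG, mem_filter, mem_range] at hc
    exact hclass c hc.1
  refine (sum_le_sum h1).trans ?_
  rw [sum_add_distrib, ← mul_sum, sum_const, nsmul_eq_mul]
  apply add_le_add
  · exact le_rfl
  · have e1 : (X : ℝ) / L ^ E = L ^ 2 * (X / L ^ (E + 2)) := by
      field_simp
      ring
    rw [e1]
    have h2 : (G.card : ℝ) * (60 * L * (X / L ^ (E + 2))) ≤ q * (60 * L * (X / L ^ (E + 2))) :=
      mul_le_mul_of_nonneg_right hGq (by positivity)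
    refine h2.trans ?_
    have e2 : (q : ℝ) * (60 * L * (X / L ^ (E + 2))) = (60 * q * L) * (X / L ^ (E + 2)) := by ring
    rw [e2]
    apply mul_le_mul_of_nonneg_right _ hte0
    have hq0 : (0 : ℝ) ≤ q := Nat.cast_nonneg _
    have h3 : 60 * (q : ℝ) ≤ L := by linarith
    calc 60 * (q : ℝ) * L ≤ L * L := mul_le_mul_of_nonneg_right h3 (by linarith)
      _ = L ^ 2 := by ring


/-- the bound for the complex sum -/
theorem all_PqU (k : ℕ) (hk : 1 ≤ k) : ∃ A : ℕ, 1 ≤ A ∧ ∀ B' E : ℕ, ∃ X0 y0 : ℕ, ∀ K : ℕ, A ≤ K →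
    ∀ Q : ℕ → ℕ → Prop, Sv k Q → ∀ X y : ℕ, X0 ≤ X → y0 ≤ y → y ^ K ≤ X →
      ∀ b : ℕ, (b : ℝ) ≤ X * Real.log X ^ B' → ∀ α : ℝ,
      ‖∑ n ∈ RQ Q X y, ((la (n + b) : ℝ) : ℂ) * ee (n * α)‖ ≤
        (3 * (1 / 2 : ℝ) ^ (K / A) + 1 / Real.log X ^ E) * (RQ Q X y).card := by
  obtain ⟨C0, hC0, H1⟩ := one_PqU k
  obtain ⟨c, hc, H3⟩ := all_F k hk
  obtain ⟨K3, hK3, H3⟩ := H3 1 one_pos
  refine ⟨128 * C0 * (C0 + K3), Nat.mul_pos (by omega) (by omega), fun B' E => ?_⟩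
  obtain ⟨X1, y1, H1⟩ := H1 B' (E + k + 1)
  obtain ⟨X3, y3, H3⟩ := H3 0
  obtain ⟨X4, hX4⟩ := ev_L' (max 1 (1 / c))
  refine ⟨X1 + X3 + X4 + 1, y1 + y3 + 1, ?_⟩
  intro K hK
  obtain ⟨bb, hbb⟩ : ∃ bb : ℕ, bb = K / (128 * C0) := ⟨_, rfl⟩
  have hbC : C0 ≤ bb := by
    rw [hbb, Nat.le_div_iff_mul_le (by omega)]
    refine le_trans ?_ hK
    have : C0 ≤ C0 + K3 := Nat.le_add_right _ _
    calc C0 * (128 * C0) ≤ (C0 + K3) * (128 * C0) := Nat.mul_le_mul_right _ this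
      _ = _ := by ring
  have hbK : 128 * (C0 * bb) ≤ K := by
    rw [hbb, ← mul_assoc]
    exact Nat.mul_div_le _ _
  have hK3' : K3 ≤ K := by
    refine le_trans ?_ hK
    have h1 : 1 ≤ 128 * C0 := by omega
    calc K3 ≤ C0 + K3 := Nat.le_add_left _ _
      _ = 1 * (C0 + K3) := (one_mul _).symm
      _ ≤ _ := Nat.mul_le_mul_right _ h1
  obtain ⟨e, he⟩ : ∃ e : ℝ, e = (1 / 2 : ℝ) ^ bb := ⟨_, rfl⟩
  have he0 : 0 < e := by rw [he]; positivity
  have hle : e ≤ (1 / 2 : ℝ) ^ (K / (128 * C0 * (C0 + K3))) := by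
    rw [he, hbb]
    apply pow_le_pow_of_le_one (by norm_num) (by norm_num)
    rw [← Nat.div_div_eq_div_mul]
    exact Nat.div_le_self _ _
  intro Q hQ X y hX hy hyX b hbX α
  obtain ⟨h3, _, _⟩ := H3 Q hQ X y (by omega) (by omega) ((Nat.pow_le_pow_right (by omega) hK3').trans hyX)
  have h1 := H1 bb hbC Q hQ X y (by omega) (by omega) ((Nat.pow_le_pow_right (by omega) hbK).trans hyX) b hbX α
  have hl := hX4 X (by omega)
  rw [← he] at h1
  obtain ⟨L, hL⟩ : ∃ L : ℝ, L = Real.log X := ⟨_, rfl⟩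
  obtain ⟨G, hG⟩ : ∃ G : ℝ, G = ((RQ Q X y).card : ℝ) := ⟨_, rfl⟩
  rw [← hL] at h1 h3 hl
  rw [← hG] at h1 h3 ⊢
  have hG0 : 0 ≤ G := by rw [hG]; exact Nat.cast_nonneg _
  have hL1 : 1 ≤ L := (le_max_left _ _).trans hl
  have hLc : 1 / c ≤ L := (le_max_right _ _).trans hl
  have hXr : (1 : ℝ) ≤ X := by exact_mod_cast (by omega : 1 ≤ X)
  have h4 : (X : ℝ) / L ^ (E + k + 1) ≤ 1 / L ^ E * G := by
    rw [div_le_iff₀ (by positivity)] at hLc
    have e1 : (X : ℝ) / L ^ (E + k + 1) ≤ 1 / L ^ E * (c * (X / L ^ k)) := by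
      have e2 : 1 / L ^ E * (c * (X / L ^ k)) = (L * c) * (X / L ^ (E + k + 1)) := by
        have e4 : L ^ (E + k + 1) = L ^ E * L ^ k * L := by ring
        rw [e4]
        field_simp
      rw [e2]
      have e3 : 0 ≤ (X : ℝ) / L ^ (E + k + 1) := by positivity
      nlinarith
    refine e1.trans ?_
    apply mul_le_mul_of_nonneg_left h3 (by positivity)
  have hfin : (2 * e + 1 / L ^ E) * G ≤ (3 * (1 / 2 : ℝ) ^ (K / (128 * C0 * (C0 + K3))) + 1 / L ^ E) * G := by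
    apply mul_le_mul_of_nonneg_right _ hG0
    linarith
  have hEG : 0 ≤ 1 / L ^ E * G := by positivity
  rw [add_mul] at hfin
  rw [← hL]
  refine le_trans ?_ hfin
  obtain ⟨Z, hZ⟩ : ∃ Z : ℂ, Z = ∑ n ∈ RQ Q X y, ((la (n + b) : ℝ) : ℂ) * ee (n * α) := ⟨_, rfl⟩
  rw [← hZ]
  by_cases hZ0 : Z = 0
  · rw [hZ0, norm_zero]
    positivity
  · have hn : (0 : ℝ) < ‖Z‖ := norm_pos_iff.2 hZ0
    have hω : ‖(starRingEnd ℂ) Z / (‖Z‖ : ℂ)‖ = 1 := by
      rw [norm_div, Complex.norm_conj, Complex.norm_real, Real.norm_eq_abs, abs_of_pos hn, div_self hn.ne']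
    have h5 := h1 _ hω
    have h6 : ∑ n ∈ RQ Q X y, fP ((starRingEnd ℂ) Z / (‖Z‖ : ℂ)) b α n = ‖Z‖ := by
      unfold fP
      rw [← Complex.re_sum, ← mul_sum, ← hZ]
      have h7 : (starRingEnd ℂ) Z / (‖Z‖ : ℂ) * Z = ((‖Z‖ : ℝ) : ℂ) := by
        rw [div_mul_eq_mul_div, mul_comm, Complex.mul_conj, Complex.normSq_eq_norm_sq]
        push_cast
        have : ((‖Z‖ : ℝ) : ℂ) ≠ 0 := by exact_mod_cast hn.ne'
        field_simp
      rw [h7, Complex.ofReal_re]
    rw [h6, abs_of_pos hn] at h5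
    linarith

/-- **Fourier uniformity, all integral shifts** -/
theorem all_ZU (k : ℕ) (hk : 1 ≤ k) : ∃ A : ℕ, 1 ≤ A ∧ ∀ B' E : ℕ, ∃ X0 y0 : ℕ, ∀ K : ℕ, A ≤ K →
    ∀ Q : ℕ → ℕ → Prop, Sv k Q → ∀ X y : ℕ, X0 ≤ X → y0 ≤ y → y ^ K ≤ X →
      ∀ b : ℤ, |(b : ℝ)| ≤ X * Real.log X ^ B' → ∀ α : ℝ,
      ‖∑ n ∈ RQ Q X y, ((lz ((n : ℤ) + b) : ℝ) : ℂ) * ee (n * α)‖ ≤
        (9 * (1 / 2 : ℝ) ^ (K / A) + 1 / Real.log X ^ E) * (RQ Q X y).card := by
  obtain ⟨A0, hA0, H0⟩ := all_PqU k hk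
  obtain ⟨c, hc, H3⟩ := all_F k hk
  obtain ⟨K3, hK3, H3⟩ := H3 1 one_pos
  refine ⟨2 * (A0 + K3), by omega, fun B' E => ?_⟩
  obtain ⟨X0, y0, H0⟩ := H0 (B' + 1) (E + 1)
  obtain ⟨X3, y3, H3⟩ := H3 0
  obtain ⟨X4, hX4⟩ := ev_L' (3 * 2 ^ (E + 1))
  obtain ⟨X5, hX5⟩ := ev_log' (k + E) (9 / c)
  refine ⟨X0 ^ 2 + X0 + X3 + X4 + X5 + 4, y0 + y3 + 1, ?_⟩
  intro K hK
  obtain ⟨K', hK'⟩ : ∃ K', K' = K / 2 := ⟨_, rfl⟩
  have hK2 : 2 * K' ≤ K := by omega
  have hAK : A0 ≤ K' := by omega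
  have H0 := H0 K' hAK
  intro Q hQ X y hX hy hyX b hbX α
  have hL1' := hX4 X (by omega)
  have hL1 : 1 ≤ Real.log (X : ℝ) := by
    have : (1 : ℝ) ≤ 2 ^ (E + 1) := one_le_pow₀ (by norm_num)
    linarith
  obtain ⟨f, hf⟩ : ∃ f : ℝ, f = (1 / 2 : ℝ) ^ (K' / A0) := ⟨_, rfl⟩
  have hf0 : 0 < f := by rw [hf]; positivity
  obtain ⟨l, hl⟩ : ∃ l : ℝ, l = 1 / Real.log X ^ E := ⟨_, rfl⟩
  have hl0 : 0 < l := by rw [hl]; positivity
  obtain ⟨e, he⟩ : ∃ e : ℝ, e = f + l / 9 := ⟨_, rfl⟩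
  have he0 : 0 < e := by rw [he]; positivity
  have hle : f ≤ (1 / 2 : ℝ) ^ (K / (2 * (A0 + K3))) := by
    rw [hf]
    apply pow_le_pow_of_le_one (by norm_num) (by norm_num)
    rw [hK', Nat.div_div_eq_div_mul]
    apply Nat.div_le_div_left _ (by omega)
    omega
  -- the logarithms of the smaller arguments
  have hlog2 : ∀ X' : ℕ, X < X' ^ 2 → 1 / Real.log X' ^ (E + 1) ≤ l / 3 := by
    intro X' h
    have h1 : Real.log (X : ℝ) ≤ 2 * Real.log X' := by
      rw [← Real.log_rpow (by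
        have : 0 < X' := by
          rcases Nat.eq_zero_or_pos X' with h0 | h0
          · rw [h0] at h
            omega
          · exact h0
        exact_mod_cast this)]
      apply Real.log_le_log (by exact_mod_cast (by omega : 0 < X))
      have : (X : ℝ) ≤ (X' : ℝ) ^ 2 := by exact_mod_cast h.le
      simpa using this
    have h2 : Real.log (X : ℝ) / 2 ≤ Real.log X' := by linarith
    have h3 : (Real.log (X : ℝ) / 2) ^ (E + 1) ≤ Real.log X' ^ (E + 1) := pow_le_pow_left₀ (by linarith) h2 _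
    have h4 : 0 < (Real.log (X : ℝ) / 2) ^ (E + 1) := by positivity
    calc 1 / Real.log X' ^ (E + 1) ≤ 1 / (Real.log (X : ℝ) / 2) ^ (E + 1) := one_div_le_one_div_of_le h4 h3
      _ ≤ l / 3 := by
        rw [hl, div_pow, pow_succ (Real.log (X : ℝ)) E]
        rw [div_div, div_le_div_iff₀ (by positivity) (by positivity)]
        rw [one_mul, one_mul, mul_div_assoc]
        apply mul_le_mul_of_nonneg_left _ (by positivity)
        rw [le_div_iff₀ (by positivity)]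
        linarith
  have hX0 : X0 ≤ X := by omega
  have hyK : y ^ K' ≤ X := (Nat.pow_le_pow_right (by omega) (by omega)).trans hyX
  have hXp : 1 ≤ X := by omega
  have hXr : (1 : ℝ) ≤ X := by exact_mod_cast hXp
  obtain ⟨h3, _, _⟩ := H3 Q hQ X y (by omega) (by omega) ((Nat.pow_le_pow_right (by omega) (by omega)).trans hyX)
  have hl5 := hX5 X (by omega)
  obtain ⟨G, hG⟩ : ∃ G : ℝ, G = ((RQ Q X y).card : ℝ) := ⟨_, rfl⟩
  rw [← hG] at h3 ⊢
  have hG0 : 0 ≤ G := by rw [hG]; exact Nat.cast_nonneg _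
  -- the square root is small
  have hsq : √(X : ℝ) ≤ e * G := by
    have hs : 0 < √(X : ℝ) := Real.sqrt_pos.2 (by linarith)
    have hLk : 0 < Real.log X ^ k := by positivity
    have h7 : Real.log X ^ k ≤ c * e * √(X : ℝ) := by
      have h8 : 9 * Real.log (X : ℝ) ^ (k + E) ≤ c * √(X : ℝ) := by
        have := hl5
        rw [div_mul_eq_mul_div, div_le_iff₀ hc] at this
        linarith
      have h9 : Real.log (X : ℝ) ^ k = (9 * Real.log (X : ℝ) ^ (k + E)) * (l / 9) := by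
        rw [hl, pow_add]
        field_simp
      rw [h9]
      calc (9 * Real.log (X : ℝ) ^ (k + E)) * (l / 9) ≤ (c * √(X : ℝ)) * (l / 9) :=
            mul_le_mul_of_nonneg_right h8 (by positivity)
        _ = c * (l / 9) * √(X : ℝ) := by ring
        _ ≤ c * e * √(X : ℝ) := by
          apply mul_le_mul_of_nonneg_right _ (Real.sqrt_nonneg _)
          apply mul_le_mul_of_nonneg_left _ hc.le
          rw [he]
          linarith
    have h8 : √(X : ℝ) * Real.log X ^ k ≤ c * e * X := by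
      calc √(X : ℝ) * Real.log X ^ k ≤ √(X : ℝ) * (c * e * √(X : ℝ)) :=
            mul_le_mul_of_nonneg_left h7 hs.le
        _ = c * e * (√(X : ℝ) * √(X : ℝ)) := by ring
        _ = _ := by rw [Real.mul_self_sqrt (by linarith)]
    have h9 : √(X : ℝ) ≤ e * (c * (X / Real.log X ^ k)) := by
      have : e * (c * (X / Real.log X ^ k)) = c * e * X / Real.log X ^ k := by ring
      rw [this, le_div_iff₀ hLk]
      exact h8
    exact h9.trans (mul_le_mul_of_nonneg_left h3 he0.le)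
  -- the parts
  have hpart : ∀ Q' : ℕ → ℕ → Prop, Sv k Q' → ∀ X' : ℕ, X' ≤ X → ((RQ Q' X' y).card : ℝ) ≤ G → ∀ α' : ℝ,
      ‖∑ m ∈ RQ Q' X' y, ((la m : ℝ) : ℂ) * ee (m * α')‖ ≤ 3 * e * G + √(X : ℝ) := by
    intro Q' hQ' X' hX' hcard α'
    by_cases hs : X < X' ^ 2
    · have h1 : X0 ≤ X' := by
        by_contra h
        push Not at h
        have : X' ^ 2 ≤ X0 ^ 2 := Nat.pow_le_pow_left h.le 2
        omega
      have h2 : y ^ K' ≤ X' := by
        by_contra h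
        push Not at h
        have h4 : X' ^ 2 < (y ^ K') ^ 2 := Nat.pow_lt_pow_left h (by norm_num)
        rw [← pow_mul] at h4
        have h5 : y ^ (K' * 2) ≤ y ^ K := Nat.pow_le_pow_right (by omega) (by omega)
        omega
      have h3 := H0 Q' hQ' X' y h1 (by omega) h2 0 (by
        rw [Nat.cast_zero]
        have : 0 ≤ Real.log (X' : ℝ) := Real.log_natCast_nonneg _
        positivity) α'
      rw [← hf] at h3
      simp only [add_zero] at h3
      have h5 : 3 * f + 1 / Real.log (X' : ℝ) ^ (E + 1) ≤ 3 * e := by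
        have := hlog2 X' hs
        rw [he]
        linarith
      have h4 : (3 * f + 1 / Real.log (X' : ℝ) ^ (E + 1)) * ((RQ Q' X' y).card : ℝ) ≤ 3 * e * G :=
        mul_le_mul h5 hcard (Nat.cast_nonneg _) (by positivity)
      linarith [Real.sqrt_nonneg (X : ℝ)]
    · push Not at hs
      have h1 : ‖∑ m ∈ RQ Q' X' y, ((la m : ℝ) : ℂ) * ee (m * α')‖ ≤ X' := by
        refine (norm_sum_le _ _).trans ?_
        calc ∑ m ∈ RQ Q' X' y, ‖((la m : ℝ) : ℂ) * ee (m * α')‖ ≤ ∑ m ∈ RQ Q' X' y, (1 : ℝ) := by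
              apply sum_le_sum
              intro m _
              rw [norm_mul, norm_ee, mul_one, Complex.norm_real, Real.norm_eq_abs]
              exact la_abs _
          _ = ((RQ Q' X' y).card : ℝ) := by rw [sum_const, nsmul_eq_mul, mul_one]
          _ ≤ X' := by exact_mod_cast card_RQ_le _ _ _
      have h2 : (X' : ℝ) ≤ √(X : ℝ) := by
        apply Real.le_sqrt_of_sq_le
        exact_mod_cast hs
      have h3 : 0 ≤ 3 * e * G := by positivity
      linarith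
  have hfin : 9 * e * G ≤ (9 * (1 / 2 : ℝ) ^ (K / (2 * (A0 + K3))) + 1 / Real.log X ^ E) * G := by
    apply mul_le_mul_of_nonneg_right _ hG0
    rw [← hl, he]
    linarith
  have hXX : (3 * f + 1 / Real.log (X : ℝ) ^ (E + 1)) * G ≤ 3 * e * G := by
    apply mul_le_mul_of_nonneg_right _ hG0
    have := hlog2 X (by nlinarith)
    rw [he]
    linarith
  refine le_trans ?_ hfin
  have heG : 0 ≤ e * G := by positivity
  rcases le_or_gt 0 b with hb | hb
  · -- nonnegative shifts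
    obtain ⟨b', rfl⟩ := Int.eq_ofNat_of_zero_le hb
    have h1 := H0 Q hQ X y hX0 (by omega) hyK b' (by
      rw [Int.cast_natCast, Nat.abs_cast] at hbX
      refine hbX.trans ?_
      apply mul_le_mul_of_nonneg_left _ (by linarith)
      exact pow_le_pow_right₀ hL1 (by omega)) α
    rw [← hG, ← hf] at h1
    have e1 : ∀ n : ℕ, lz ((n : ℤ) + (b' : ℤ)) = la (n + b') := by
      intro n
      unfold lz
      rw [← Nat.cast_add, Int.natAbs_natCast]
    simp only [e1]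
    linarith
  · obtain ⟨β, hβ⟩ : ∃ β : ℕ, b = -(β : ℤ) := ⟨b.natAbs, by omega⟩
    have hβ1 : 1 ≤ β := by omega
    subst hβ
    rcases le_or_gt β X with hβX | hβX
    · -- inside
      have hsplit : ∑ n ∈ RQ Q X y, ((lz ((n : ℤ) + -(β : ℤ)) : ℝ) : ℂ) * ee (n * α) =
          ∑ n ∈ RQ Q (β - 1) y, ((lz ((n : ℤ) + -(β : ℤ)) : ℝ) : ℂ) * ee (n * α) +
          ∑ n ∈ (RQ Q X y).filter (fun n => β < n), ((lz ((n : ℤ) + -(β : ℤ)) : ℝ) : ℂ) * ee (n * α) := by
        rw [← sum_filter_add_sum_filter_not (RQ Q X y) (fun n => n < β - 1 + 1)]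
        rw [RQ_lt Q (show β - 1 + 1 ≤ X by omega)]
        congr 1
        have h1 : (RQ Q X y).filter (fun n => ¬ n < β - 1 + 1) =
            (RQ Q X y).filter (fun n => β < n) ∪ (RQ Q X y).filter (fun n => n = β) := by
          ext n
          rw [mem_union, mem_filter, mem_filter, mem_filter]
          constructor
          · rintro ⟨h1, h2⟩
            rcases Nat.lt_or_ge β n with h | h
            · exact Or.inl ⟨h1, h⟩
            · exact Or.inr ⟨h1, by omega⟩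
          · rintro (⟨h1, h2⟩ | ⟨h1, h2⟩)
            · exact ⟨h1, by omega⟩
            · exact ⟨h1, by omega⟩
        rw [h1, sum_union]
        · have h2 : ∑ n ∈ (RQ Q X y).filter (fun n => n = β), ((lz ((n : ℤ) + -(β : ℤ)) : ℝ) : ℂ) * ee (n * α) = 0 := by
            apply sum_eq_zero
            intro n hn
            rw [(mem_filter.1 hn).2]
            have : (β : ℤ) + -(β : ℤ) = 0 := by ring
            rw [this, lz_zero]
            simp
          rw [h2, add_zero]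
        · rw [disjoint_left]
          intro n h1 h2
          have h3 := (mem_filter.1 h1).2
          have h4 := (mem_filter.1 h2).2
          omega
      rw [hsplit]
      refine (norm_add_le _ _).trans ?_
      have p1 : ‖∑ n ∈ RQ Q (β - 1) y, ((lz ((n : ℤ) + -(β : ℤ)) : ℝ) : ℂ) * ee (n * α)‖ ≤ 3 * e * G + √(X : ℝ) := by
        rw [sum_refl hQ (β - 1) y]
        have h1 : ∀ m ∈ RQ (Qr Q (β - 1 + 1)) (β - 1) y,
            ((lz (((β - 1 + 1 - m : ℕ) : ℤ) + -(β : ℤ)) : ℝ) : ℂ) * ee (((β - 1 + 1 - m : ℕ) : ℝ) * α) =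
            ee ((β : ℝ) * α) * (((la m : ℝ) : ℂ) * ee (m * (-α))) := by
          intro m hm
          rw [mem_RQ] at hm
          have h2 : β - 1 + 1 = β := by omega
          rw [h2, ee_sub_nat β m (by omega)]
          have h3 : ((β - m : ℕ) : ℤ) + -(β : ℤ) = -(m : ℤ) := by omega
          rw [h3, lz_neg]
          have h4 : lz (m : ℤ) = la m := by
            unfold lz
            rw [Int.natAbs_natCast]
          rw [h4]
          ring
        rw [sum_congr rfl h1, ← mul_sum, norm_mul, norm_ee, one_mul]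
        apply hpart _ (sv_Qr hQ _) _ (by omega)
        have h5 := sum_refl hQ (β - 1) y (fun _ => (1 : ℕ))
        simp only [sum_const, smul_eq_mul, mul_one] at h5
        rw [← h5, hG]
        have h6 : (RQ Q (β - 1) y).card ≤ (RQ Q X y).card := by
          rw [← RQ_lt Q (show β - 1 + 1 ≤ X by omega)]
          exact card_filter_le _ _
        exact_mod_cast h6
      have p2 : ‖∑ n ∈ (RQ Q X y).filter (fun n => β < n), ((lz ((n : ℤ) + -(β : ℤ)) : ℝ) : ℂ) * ee (n * α)‖ ≤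
          3 * e * G + √(X : ℝ) := by
        rw [sum_tr Q hβX]
        have h1 : ∀ m ∈ RQ (Qt Q β) (X - β) y,
            ((lz (((β + m : ℕ) : ℤ) + -(β : ℤ)) : ℝ) : ℂ) * ee (((β + m : ℕ) : ℝ) * α) =
            ee ((β : ℝ) * α) * (((la m : ℝ) : ℂ) * ee (m * α)) := by
          intro m hm
          have h3 : ((β + m : ℕ) : ℤ) + -(β : ℤ) = (m : ℤ) := by push_cast; ring
          rw [h3]
          have h4 : lz (m : ℤ) = la m := by
            unfold lz
            rw [Int.natAbs_natCast]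
          rw [h4, Nat.cast_add, add_mul, ee_add]
          ring
        rw [sum_congr rfl h1, ← mul_sum, norm_mul, norm_ee, one_mul]
        apply hpart _ (sv_Qt hQ _) _ (by omega)
        have h5 := sum_tr Q (y := y) hβX (fun _ => (1 : ℕ))
        simp only [sum_const, smul_eq_mul, mul_one] at h5
        rw [← h5, hG]
        have h6 : ((RQ Q X y).filter (fun n => β < n)).card ≤ (RQ Q X y).card := card_filter_le _ _
        exact_mod_cast h6
      linarith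
    · -- outside
      rw [sum_refl hQ X y]
      have h1 : ∀ m ∈ RQ (Qr Q (X + 1)) X y,
          ((lz (((X + 1 - m : ℕ) : ℤ) + -(β : ℤ)) : ℝ) : ℂ) * ee (((X + 1 - m : ℕ) : ℝ) * α) =
          ee (((X + 1 : ℕ) : ℝ) * α) * (((la (m + (β - (X + 1))) : ℝ) : ℂ) * ee (m * (-α))) := by
        intro m hm
        rw [mem_RQ] at hm
        rw [ee_sub_nat (X + 1) m (by omega)]
        have h3 : ((X + 1 - m : ℕ) : ℤ) + -(β : ℤ) = -((m + (β - (X + 1)) : ℕ) : ℤ) := by omega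
        rw [h3, lz_neg]
        have h4 : lz ((m + (β - (X + 1)) : ℕ) : ℤ) = la (m + (β - (X + 1))) := by
          unfold lz
          rw [Int.natAbs_natCast]
        rw [h4]
        ring
      rw [sum_congr rfl h1, ← mul_sum, norm_mul, norm_ee, one_mul]
      have hb' : ((β - (X + 1) : ℕ) : ℝ) ≤ X * Real.log X ^ (B' + 1) := by
        have h5 : ((β - (X + 1) : ℕ) : ℝ) ≤ β := by exact_mod_cast Nat.sub_le _ _
        have h6 : (β : ℝ) ≤ X * Real.log X ^ B' := by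
          have : |((-(β : ℤ) : ℤ) : ℝ)| = β := by
            push_cast
            rw [abs_neg, Nat.abs_cast]
          rwa [this] at hbX
        refine h5.trans (h6.trans ?_)
        apply mul_le_mul_of_nonneg_left _ (by linarith)
        exact pow_le_pow_right₀ hL1 (by omega)
      have h7 := H0 _ (sv_Qr hQ (X + 1)) X y hX0 (by omega) hyK _ hb' (-α)
      rw [← hf] at h7
      have h8 := sum_refl hQ X y (fun _ => (1 : ℕ))
      simp only [sum_const, smul_eq_mul, mul_one] at h8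
      rw [← h8, ← hG] at h7
      linarith

end Pool.Agent.H530.Hz
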