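import Pool.Agent.H530.HyC

/-! The points of a sifted set with a large square factor: general powers of the logarithm. -/

set_option autoImplicit false

namespace Pool.Agent.H530.Ha

open Finset Pool.Agent.H373R2.T7 Filter

open Classical in
/-- one square of a small prime -/
lemma sq_smallE (k : ℕ) (hk : 1 ≤ k) : ∃ K : ℕ, 1 ≤ K ∧ ∀ m : ℕ, ∃ X0 y0 : ℕ, ∀ Q : ℕ → ℕ → Prop, Sv k Q → ∀ X y : ℕ,
    X0 ≤ X → y0 ≤ y → y ^ K ≤ X → ∀ (a : ℕ) (b : ℤ), ∀ p : ℕ, p.Prime → 2 * k ≤ p → (p : ℝ) ≤ 2 * Real.log X ^ m →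
      ¬ p ∣ a →
      (((RQ Q X y).filter (fun n : ℕ => ((p ^ 2 : ℕ) : ℤ) ∣ a * n + b)).card : ℝ) ≤ 6 * (RQ Q X y).card / p ^ 2 + 1 := by
  obtain ⟨c0, hc0, H0⟩ := all_F k hk
  obtain ⟨K, hK, H0⟩ := H0 (1 / 2) (by norm_num)
  obtain ⟨X0, y0, H0⟩ := H0 0
  refine ⟨2 * K, by omega, fun m => ?_⟩
  obtain ⟨X1, hX1⟩ := ev_log' (2 * m) 16
  refine ⟨max (X0 ^ 2 + X1 + 16) X0, y0 + 1, ?_⟩
  intro Q hQ X y hX hy hyX a b p hp hkp hpL hpa
  have hX0 : X0 ≤ X := (le_max_right _ _).trans hX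
  have hX2 : X0 ^ 2 + X1 + 16 ≤ X := (le_max_left _ _).trans hX
  have hXr : (16 : ℝ) ≤ X := by exact_mod_cast (by omega : 16 ≤ X)
  have hs4 : (4 : ℝ) ≤ √(X : ℝ) := by
    apply Real.le_sqrt_of_sq_le
    linarith
  have hss : √(X : ℝ) * √(X : ℝ) = X := Real.mul_self_sqrt (by linarith)
  have hlog := hX1 X (by omega)
  have hp2 : (p : ℝ) ^ 2 * 4 ≤ √(X : ℝ) := by
    have h1 : (p : ℝ) ^ 2 ≤ (2 * Real.log X ^ m) ^ 2 := pow_le_pow_left₀ (Nat.cast_nonneg _) hpL 2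
    have h2 : (2 * Real.log X ^ m) ^ 2 * 4 = 16 * Real.log X ^ (2 * m) := by
      rw [mul_pow, ← pow_mul, mul_comm m 2]
      ring
    linarith
  have hpp : (0 : ℝ) < (p : ℝ) ^ 2 := by
    have : (0 : ℝ) < p := by exact_mod_cast hp.pos
    positivity
  have hpp1 : 1 ≤ p ^ 2 := Nat.one_le_pow _ _ hp.pos
  have hpX : p ^ 2 ≤ X := by
    have h1 : ((p ^ 2 : ℕ) : ℝ) ≤ X := by
      push_cast
      have h2 : √(X : ℝ) ≤ √(X : ℝ) * √(X : ℝ) := le_mul_of_one_le_right (by linarith) (by linarith)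
      linarith
    exact_mod_cast h1
  obtain ⟨c, hc, hcl⟩ := one_class b hp hpa
  have e1 : (RQ Q X y).filter (fun n : ℕ => ((p ^ 2 : ℕ) : ℤ) ∣ a * n + b) =
      (RQ Q X y).filter (fun n => n ≡ c [MOD p ^ 2]) := filter_congr fun n _ => hcl n
  rw [e1]
  have h1 := class_RQ_card (y := y) hQ hpp1 hc hpX
  obtain ⟨X', hX'⟩ : ∃ X', X' = (X - c) / p ^ 2 := ⟨_, rfl⟩
  rw [← hX'] at h1
  have hX'l : √(X : ℝ) ≤ X' := by
    have h2 : X - c < p ^ 2 * (X' + 1) := by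
      rw [hX']
      exact Nat.lt_mul_div_succ _ (by omega)
    have h3 : X < p ^ 2 * (X' + 2) := by
      have h4 : p ^ 2 * (X' + 2) = p ^ 2 * (X' + 1) + p ^ 2 := by ring
      omega
    have h5 : (X : ℝ) < (p : ℝ) ^ 2 * (X' + 2) := by exact_mod_cast h3
    by_contra hcon
    push Not at hcon
    have h6 : (p : ℝ) ^ 2 * (X' + 2) ≤ (√(X : ℝ) / 4) * (√(X : ℝ) + 2) := by
      apply mul_le_mul (by linarith) (by linarith) (by positivity) (by positivity)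
    nlinarith
  have hX'u : (X' : ℝ) ≤ X / (p : ℝ) ^ 2 := by
    rw [hX']
    refine (Nat.cast_div_le).trans ?_
    push_cast
    apply div_le_div_of_nonneg_right _ hpp.le
    exact_mod_cast Nat.sub_le X c
  have hX0' : X0 ≤ X' := by
    have h2 : (X0 : ℝ) ≤ √(X : ℝ) := by
      apply Real.le_sqrt_of_sq_le
      exact_mod_cast (by omega : X0 ^ 2 ≤ X)
    exact_mod_cast h2.trans hX'l
  have hyX' : y ^ K ≤ X' := by
    have h2 : ((y ^ K : ℕ) : ℝ) ≤ √(X : ℝ) := by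
      apply Real.le_sqrt_of_sq_le
      have : (y ^ K) ^ 2 ≤ X := by rw [← pow_mul, mul_comm K 2]; exact hyX
      exact_mod_cast this
    exact_mod_cast h2.trans hX'l
  obtain ⟨_, h2, _⟩ := H0 (Qc Q (p ^ 2) c) (sv_Qc hQ _ _) X' y hX0' (by omega) hyX'
  obtain ⟨_, h3, _⟩ := H0 Q hQ X y hX0 (by omega) ((Nat.pow_le_pow_right (by omega) (by omega)).trans hyX)
  obtain ⟨h4, h5⟩ := V_class hQ (c := c) (y := y) hp hkp
  obtain ⟨V, hV⟩ : ∃ V, V = ∏ r ∈ pz y, (1 - (nuB Q r : ℝ) / r) := ⟨_, rfl⟩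
  obtain ⟨V', hV'⟩ : ∃ V', V' = ∏ r ∈ pz y, (1 - (nuB (Qc Q (p ^ 2) c) r : ℝ) / r) := ⟨_, rfl⟩
  rw [← hV] at h3 h4 h5
  rw [← hV'] at h2 h5
  have h6 := (abs_le.1 h2).2
  have h7 := (abs_le.1 h3).1
  have h8 : (X' : ℝ) * V' ≤ X / (p : ℝ) ^ 2 * (2 * V) :=
    (mul_le_mul_of_nonneg_left h5 (Nat.cast_nonneg _)).trans (mul_le_mul_of_nonneg_right hX'u (by positivity))
  have h9 : (X : ℝ) / (p : ℝ) ^ 2 * (2 * V) * 2 ≤ 6 * (RQ Q X y).card / (p : ℝ) ^ 2 := by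
    rw [le_div_iff₀ hpp]
    have e3 : (X : ℝ) / (p : ℝ) ^ 2 * (p : ℝ) ^ 2 = X := div_mul_cancel₀ _ hpp.ne'
    have e2 : (X : ℝ) / (p : ℝ) ^ 2 * (2 * V) * 2 * (p : ℝ) ^ 2 = 4 * (X * V) := by
      linear_combination (4 * V) * e3
    rw [e2]
    linarith
  linarith


open Classical in
/-- the points with a large square factor -/
theorem sq_tailE (k : ℕ) (hk : 1 ≤ k) : ∃ K : ℕ, 1 ≤ K ∧ ∀ B' E : ℕ, ∃ X0 y0 : ℕ, ∀ Q : ℕ → ℕ → Prop, Sv k Q →
    ∀ X y : ℕ, X0 ≤ X → y0 ≤ y → y ^ K ≤ X → ∀ w : ℕ, 2 * k ≤ w → 1 ≤ w →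
      ∀ (a : ℕ) (b : ℤ), 1 ≤ a → (∀ p : ℕ, p.Prime → p ∣ a → ¬ (p : ℤ) ∣ b) →
      (a : ℝ) ≤ Real.log X ^ B' → |(b : ℝ)| ≤ X * Real.log X ^ B' →
      (((RQ Q X y).filter (fun n : ℕ => ∃ p : ℕ, p.Prime ∧ w < p ∧ ((p ^ 2 : ℕ) : ℤ) ∣ a * n + b ∧ (a : ℤ) * n + b ≠ 0)).card : ℝ) ≤
        6 / w * (RQ Q X y).card + X / Real.log X ^ E := by
  obtain ⟨K, hK, H0⟩ := sq_smallE k hk
  refine ⟨K, hK, fun B' E => ?_⟩
  obtain ⟨X0, y0, H0⟩ := H0 (E + 1)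
  obtain ⟨X1, hX1⟩ := ev_log' (E + B') 4
  obtain ⟨X2, hX2⟩ := ev_L' 2
  refine ⟨X0 + X1 + X2 + 1, y0, ?_⟩
  intro Q hQ X y hX hy hyX w hwk hw a b ha hnb haX hbX
  obtain ⟨L, hL⟩ : ∃ L : ℝ, L = Real.log X := ⟨_, rfl⟩
  have hlog := hX1 X (by omega)
  have hL2 := hX2 X (by omega)
  have H1 := H0 Q hQ X y (by omega) hy hyX a b
  rw [← hL] at hlog hL2 haX hbX H1 ⊢
  have hXr : (1 : ℝ) ≤ X := by exact_mod_cast (by omega : 1 ≤ X)
  have hL1 : 1 ≤ L := by linarith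
  have hs0 : 0 ≤ √(X : ℝ) := Real.sqrt_nonneg _
  have hss : √(X : ℝ) * √(X : ℝ) = X := Real.mul_self_sqrt (by linarith)
  -- the range of the primes
  obtain ⟨Y, hY⟩ : ∃ Y : ℕ, Y = ⌊√(2 * X * L ^ B')⌋₊ := ⟨_, rfl⟩
  obtain ⟨P, hP⟩ : ∃ P : ℕ, P = ⌈L ^ (E + 1)⌉₊ := ⟨_, rfl⟩
  have hLk : (1 : ℝ) ≤ L ^ (E + 1) := one_le_pow₀ hL1
  have hP1 : L ^ (E + 1) ≤ P := by rw [hP]; exact Nat.le_ceil _
  have hP2 : (P : ℝ) ≤ 2 * L ^ (E + 1) := by
    have := (Nat.ceil_lt_add_one (show 0 ≤ L ^ (E + 1) by positivity)).le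
    rw [← hP] at this
    linarith
  have hPpos : 1 ≤ P := by
    have : (1 : ℝ) ≤ P := hLk.trans hP1
    exact_mod_cast this
  obtain ⟨D, hD⟩ : ∃ D : ℕ → Finset ℕ, D = fun p => (RQ Q X y).filter (fun n : ℕ => ((p ^ 2 : ℕ) : ℤ) ∣ a * n + b) := ⟨_, rfl⟩
  have hsub : (RQ Q X y).filter (fun n : ℕ => ∃ p : ℕ, p.Prime ∧ w < p ∧ ((p ^ 2 : ℕ) : ℤ) ∣ a * n + b ∧ (a : ℤ) * n + b ≠ 0) ⊆
      ((Ioc w Y).filter Nat.Prime).biUnion D := by
    intro n hn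
    rw [mem_filter] at hn
    obtain ⟨hnR, p, hp, hwp, hd, hne⟩ := hn
    have hnX : n ≤ X := by
      unfold RQ at hnR
      exact (mem_Icc.1 (mem_filter.1 hnR).1).2
    rw [mem_biUnion]
    refine ⟨p, ?_, ?_⟩
    · rw [mem_filter, mem_Ioc]
      refine ⟨⟨hwp, ?_⟩, hp⟩
      rw [hY]
      apply Nat.le_floor
      apply Real.le_sqrt_of_sq_le
      have h1 := Int.le_of_dvd (abs_pos.2 hne) ((dvd_abs _ _).2 hd)
      have h2 : ((p ^ 2 : ℕ) : ℝ) ≤ |(a : ℝ) * n + b| := by exact_mod_cast h1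
      push_cast at h2
      have h3 : |(a : ℝ) * n + b| ≤ a * n + |(b : ℝ)| := by
        refine (abs_add_le _ _).trans ?_
        rw [abs_of_nonneg (by positivity : (0 : ℝ) ≤ a * n)]
      have h4 : (a : ℝ) * n ≤ L ^ B' * X := by
        apply mul_le_mul haX (by exact_mod_cast hnX) (Nat.cast_nonneg _) (by positivity)
      linarith
    · rw [hD]
      dsimp only
      rw [mem_filter]
      exact ⟨hnR, hd⟩
  obtain ⟨G, hG⟩ : ∃ G : ℝ, G = ((RQ Q X y).card : ℝ) := ⟨_, rfl⟩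
  have hG0 : 0 ≤ G := by rw [hG]; exact Nat.cast_nonneg _
  rw [← hG] at H1 ⊢
  -- one prime
  have hone : ∀ p ∈ (Ioc w Y).filter Nat.Prime, ((D p).card : ℝ) ≤
      6 * G * (1 / (p : ℝ) ^ 2) + (if P < p then (X : ℝ) * (1 / (p : ℝ) ^ 2) else 0) + 1 := by
    intro p hp
    rw [mem_filter, mem_Ioc] at hp
    obtain ⟨⟨h1, h2⟩, hpp⟩ := hp
    have hp0 : (0 : ℝ) < (p : ℝ) ^ 2 := by
      have : (0 : ℝ) < p := by exact_mod_cast hpp.pos
      positivity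
    have hif : (0 : ℝ) ≤ (if P < p then (X : ℝ) * (1 / (p : ℝ) ^ 2) else 0) := by
      split_ifs
      · positivity
      · exact le_rfl
    by_cases hpa : p ∣ a
    · have hD0 : D p = ∅ := by
        rw [hD]
        dsimp only
        rw [filter_eq_empty_iff]
        intro n _ hd
        apply hnb p hpp hpa
        have h3 : (p : ℤ) ∣ ((p ^ 2 : ℕ) : ℤ) := Int.natCast_dvd_natCast.2 (dvd_pow_self p two_ne_zero)
        have h4 : (p : ℤ) ∣ a * n := (Int.natCast_dvd_natCast.2 hpa).mul_right _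
        exact (dvd_add_right h4).1 (h3.trans hd)
      rw [hD0]
      simp only [card_empty, Nat.cast_zero]
      positivity
    · by_cases hpP : P < p
      · rw [if_pos hpP]
        obtain ⟨c, hc, hcl⟩ := one_class b hpp hpa
        have h3 : D p ⊆ (Icc 1 X).filter (fun n => n ≡ c [MOD p ^ 2]) := by
          intro n hn
          rw [hD] at hn
          dsimp only at hn
          rw [mem_filter] at hn
          rw [mem_filter]
          refine ⟨?_, (hcl n).1 hn.2⟩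
          have := hn.1
          unfold RQ at this
          exact (mem_filter.1 this).1
        have h4 : ((D p).card : ℝ) ≤ (((Icc 1 X).filter (fun n => n ≡ c [MOD p ^ 2])).card : ℝ) := by
          exact_mod_cast card_le_card h3
        have h5 := cnt_class X (p ^ 2) c (Nat.one_le_pow _ _ hpp.pos)
        push_cast at h5
        have h6 : 0 ≤ 6 * G * (1 / (p : ℝ) ^ 2) := by positivity
        have h7 : (X : ℝ) / (p : ℝ) ^ 2 = X * (1 / (p : ℝ) ^ 2) := by ring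
        linarith
      · rw [if_neg hpP]
        have h3 : (p : ℝ) ≤ P := by exact_mod_cast (by omega : p ≤ P)
        have h4 := H1 p hpp (by omega) (h3.trans hP2) hpa
        rw [hD]
        dsimp only
        have h5 : 6 * G / (p : ℝ) ^ 2 = 6 * G * (1 / (p : ℝ) ^ 2) := by ring
        linarith
  -- the sum
  have hc1 : (((RQ Q X y).filter (fun n : ℕ => ∃ p : ℕ, p.Prime ∧ w < p ∧ ((p ^ 2 : ℕ) : ℤ) ∣ a * n + b ∧ (a : ℤ) * n + b ≠ 0)).card : ℝ) ≤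
      ∑ p ∈ (Ioc w Y).filter Nat.Prime, ((D p).card : ℝ) := by
    have := (card_le_card hsub).trans card_biUnion_le
    exact_mod_cast this
  refine hc1.trans ((sum_le_sum hone).trans ?_)
  rw [sum_add_distrib, sum_add_distrib, ← mul_sum, sum_const, nsmul_eq_mul, mul_one]
  have s1 : ∑ p ∈ (Ioc w Y).filter Nat.Prime, 1 / (p : ℝ) ^ 2 ≤ 1 / (w : ℝ) := by
    refine le_trans ?_ (inv_sq_tail w Y hw)
    exact sum_le_sum_of_subset_of_nonneg (filter_subset _ _) (fun _ _ _ => by positivity)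
  have s2 : ∑ p ∈ (Ioc w Y).filter Nat.Prime, (if P < p then (X : ℝ) * (1 / (p : ℝ) ^ 2) else 0) ≤ (X : ℝ) * (1 / (P : ℝ)) := by
    rw [← sum_filter, ← mul_sum]
    apply mul_le_mul_of_nonneg_left _ (by linarith)
    refine le_trans ?_ (inv_sq_tail P Y hPpos)
    apply sum_le_sum_of_subset_of_nonneg _ (fun _ _ _ => by positivity)
    intro p hp
    rw [mem_filter, mem_filter, mem_Ioc] at hp
    rw [mem_Ioc]
    exact ⟨hp.2, hp.1.1.2⟩
  have s3 : ((((Ioc w Y).filter Nat.Prime).card : ℕ) : ℝ) ≤ √(2 * X * L ^ B') := by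
    have h1 : ((Ioc w Y).filter Nat.Prime).card ≤ Y := by
      refine (card_filter_le _ _).trans ?_
      rw [Nat.card_Ioc]
      exact Nat.sub_le _ _
    have h2 : (Y : ℝ) ≤ √(2 * X * L ^ B') := by
      rw [hY]
      exact Nat.floor_le (Real.sqrt_nonneg _)
    exact le_trans (by exact_mod_cast h1) h2
  have hLB : (1 : ℝ) ≤ L ^ B' := one_le_pow₀ hL1
  have s4 : √(2 * X * L ^ B') ≤ 2 * √(X : ℝ) * L ^ B' := by
    rw [Real.sqrt_le_left (by positivity)]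
    have e1 : (2 * √(X : ℝ) * L ^ B') ^ 2 = 4 * (√(X : ℝ) * √(X : ℝ)) * (L ^ B' * L ^ B') := by ring
    rw [e1, hss]
    have h1 : L ^ B' ≤ L ^ B' * L ^ B' := le_mul_of_one_le_right (by linarith) hLB
    nlinarith
  have s5 : 2 * √(X : ℝ) * L ^ B' ≤ 1 / 2 * (X / L ^ E) := by
    have hLk1 : 0 < L ^ E := by positivity
    have e1 : 1 / 2 * (X / L ^ E) = X / 2 / L ^ E := by ring
    rw [e1, le_div_iff₀ hLk1]
    have h1 : 4 * L ^ (E + B') * √(X : ℝ) ≤ √(X : ℝ) * √(X : ℝ) := mul_le_mul_of_nonneg_right hlog hs0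
    rw [hss, pow_add] at h1
    linarith
  have s6 : X * (1 / (P : ℝ)) ≤ 1 / 2 * (X / L ^ E) := by
    have hPr : (0 : ℝ) < P := by exact_mod_cast hPpos
    have e1 : X * (1 / (P : ℝ)) = X / P := by ring
    have e2 : 1 / 2 * (X / L ^ E) = X / (2 * L ^ E) := by
      field_simp
    rw [e1, e2]
    apply div_le_div_of_nonneg_left (by linarith) (by positivity)
    refine le_trans ?_ hP1
    rw [pow_succ L E, mul_comm]
    exact mul_le_mul_of_nonneg_left hL2 (by positivity)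
  have s7 : 6 * G * ∑ p ∈ (Ioc w Y).filter Nat.Prime, 1 / (p : ℝ) ^ 2 ≤ 6 / w * G := by
    calc 6 * G * ∑ p ∈ (Ioc w Y).filter Nat.Prime, 1 / (p : ℝ) ^ 2 ≤ 6 * G * (1 / w) :=
          mul_le_mul_of_nonneg_left s1 (by positivity)
      _ = _ := by ring
  linarith

end Pool.Agent.H530.Ha
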