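import Pool.Agent.H530.HzQ

/-! The Liouville function at linear forms, on the sifted sets. -/

set_option autoImplicit false

namespace Pool.Agent.H530.Hz

open Finset Pool.Agent.H807R2.Dav Pool.Agent.H530.Ha
open Pool.Agent.H373R2.T7 hiding RQ

lemma orth {M : ℕ} (hM : 1 ≤ M) (t : ℤ) :
    ∑ j ∈ range M, ee (j * ((t : ℝ) / M)) = if (M : ℤ) ∣ t then (M : ℂ) else 0 := by
  have hM0 : (M : ℝ) ≠ 0 := by
    have : (0 : ℝ) < M := by exact_mod_cast hM
    exact this.ne'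
  split_ifs with h
  · obtain ⟨s, hs⟩ := h
    have e : ∀ j ∈ range M, ee (j * ((t : ℝ) / M)) = 1 := by
      intro j _
      have e1 : (j : ℝ) * ((t : ℝ) / M) = (((j : ℤ) * s : ℤ) : ℝ) := by
        rw [hs]
        push_cast
        field_simp
      rw [e1, ee_int]
    rw [sum_congr rfl e, sum_const, card_range, nsmul_eq_mul, mul_one]
  · have e : ∀ j ∈ range M, ee (j * ((t : ℝ) / M)) = ee ((t : ℝ) / M) ^ j := fun j _ => ee_pow _ _
    rw [sum_congr rfl e]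
    have h1 : ee ((t : ℝ) / M) ^ M = 1 := by
      rw [← ee_pow]
      have e1 : (M : ℝ) * ((t : ℝ) / M) = ((t : ℤ) : ℝ) := by field_simp
      rw [e1, ee_int]
    have h2 : ee ((t : ℝ) / M) ≠ 1 := by
      intro h3
      unfold ee at h3
      rw [Complex.exp_eq_one_iff] at h3
      obtain ⟨n, hn⟩ := h3
      apply h
      have hc : (2 * Real.pi * Complex.I : ℂ) ≠ 0 := by
        have := Real.pi_ne_zero
        have h2 : (Real.pi : ℂ) ≠ 0 := by exact_mod_cast this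
        simp [h2, Complex.I_ne_zero]
      have e2 : (((t : ℝ) / M : ℝ) : ℂ) = (n : ℂ) := by
        apply mul_left_cancel₀ hc
        rw [hn]
        ring
      have e3 : (t : ℝ) / M = (n : ℝ) := by exact_mod_cast e2
      rw [div_eq_iff hM0] at e3
      refine ⟨n, ?_⟩
      have e4 : (t : ℝ) = ((M * n : ℤ) : ℝ) := by
        rw [e3]
        push_cast
        ring
      exact_mod_cast e4
    have h3 := mul_geom_sum (ee ((t : ℝ) / M)) M
    rw [h1, sub_self] at h3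
    rcases mul_eq_zero.1 h3 with h4 | h4
    · exact absurd (sub_eq_zero.1 h4) h2
    · exact h4

/-- a class -/
lemma class_bd {S : Finset ℕ} {w : ℕ → ℂ} {B : ℝ} (h : ∀ β : ℝ, ‖∑ m ∈ S, w m * ee (m * β)‖ ≤ B) {M : ℕ} (hM : 1 ≤ M)
    (r : ℕ) (β : ℝ) : ‖∑ m ∈ S.filter (fun m => m ≡ r [MOD M]), w m * ee (m * β)‖ ≤ B := by
  have hM0 : (0 : ℝ) < M := by exact_mod_cast hM
  have e : (M : ℂ) * ∑ m ∈ S.filter (fun m => m ≡ r [MOD M]), w m * ee (m * β) =
      ∑ j ∈ range M, ee (-(j * ((r : ℝ) / M))) * ∑ m ∈ S, w m * ee (m * (β + (j : ℝ) / M)) := by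
    rw [sum_filter, mul_sum]
    simp only [mul_sum]
    rw [sum_comm]
    apply sum_congr rfl
    intro m _
    have e1 : ∀ j ∈ range M, ee (-(j * ((r : ℝ) / M))) * (w m * ee (m * (β + (j : ℝ) / M))) =
        (w m * ee (m * β)) * ee (j * ((((m : ℤ) - r : ℤ) : ℝ) / M)) := by
      intro j _
      have e2 : ee (j * ((((m : ℤ) - r : ℤ) : ℝ) / M)) * ee (m * β) =
          ee (-(j * ((r : ℝ) / M))) * ee (m * (β + (j : ℝ) / M)) := by
        rw [← ee_add, ← ee_add]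
        congr 1
        push_cast
        field_simp
        ring
      rw [mul_assoc, mul_comm (ee (m * β)), e2]
      ring
    rw [sum_congr rfl e1, ← mul_sum, orth hM]
    have e3 : ((M : ℤ) ∣ (m : ℤ) - r) ↔ m ≡ r [MOD M] := by
      rw [← Int.natCast_modEq_iff, Int.modEq_comm, Int.modEq_iff_dvd]
    by_cases h1 : m ≡ r [MOD M]
    · rw [if_pos h1, if_pos (e3.2 h1)]
      ring
    · rw [if_neg h1, if_neg (fun h2 => h1 (e3.1 h2))]
      ring
  have h2 : (M : ℝ) * ‖∑ m ∈ S.filter (fun m => m ≡ r [MOD M]), w m * ee (m * β)‖ ≤ M * B := by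
    have e4 : (M : ℝ) * ‖∑ m ∈ S.filter (fun m => m ≡ r [MOD M]), w m * ee (m * β)‖ =
        ‖(M : ℂ) * ∑ m ∈ S.filter (fun m => m ≡ r [MOD M]), w m * ee (m * β)‖ := by
      rw [norm_mul, Complex.norm_natCast]
    rw [e4, e]
    refine (norm_sum_le _ _).trans ?_
    calc ∑ j ∈ range M, ‖ee (-(j * ((r : ℝ) / M))) * ∑ m ∈ S, w m * ee (m * (β + (j : ℝ) / M))‖
        ≤ ∑ j ∈ range M, B := by
          apply sum_le_sum
          intro j _
          rw [norm_mul]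
          have h5 : ‖ee (-(j * ((r : ℝ) / M)))‖ = 1 := by
            rw [Pool.Agent.H807R2.Dav.ee_eq, Complex.norm_exp_ofReal_mul_I]
          rw [h5, one_mul]
          exact h _
      _ = M * B := by rw [sum_const, card_range, nsmul_eq_mul]
  exact le_of_mul_le_mul_left h2 hM0

open Classical in
/-- a condition modulo `M` -/
lemma classes_bd {S : Finset ℕ} {w : ℕ → ℂ} {B : ℝ} (h : ∀ β : ℝ, ‖∑ m ∈ S, w m * ee (m * β)‖ ≤ B) {M : ℕ} (hM : 1 ≤ M)
    (P : ℕ → Prop) (hP : ∀ m, P m ↔ P (m % M)) (β : ℝ) :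
    ‖∑ m ∈ S.filter P, w m * ee (m * β)‖ ≤ M * B := by
  have hB : 0 ≤ B := (norm_nonneg _).trans (h 0)
  have e : ∑ m ∈ S.filter P, w m * ee (m * β) =
      ∑ r ∈ (range M).filter P, ∑ m ∈ S.filter (fun m => m ≡ r [MOD M]), w m * ee (m * β) := by
    rw [← sum_fiberwise_of_maps_to (s := S.filter P) (t := (range M).filter P) (g := fun m => m % M)]
    · apply sum_congr rfl
      intro r hr
      apply sum_congr _ (fun _ _ => rfl)
      rw [mem_filter, mem_range] at hr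
      ext m
      rw [mem_filter, mem_filter, mem_filter]
      constructor
      · rintro ⟨⟨h1, h2⟩, h3⟩
        refine ⟨h1, ?_⟩
        show m % M = r % M
        rw [h3, Nat.mod_eq_of_lt hr.1]
      · rintro ⟨h1, h2⟩
        have h3 : m % M = r % M := h2
        rw [Nat.mod_eq_of_lt hr.1] at h3
        refine ⟨⟨h1, ?_⟩, h3⟩
        rw [hP m, h3]
        exact hr.2
    · intro m hm
      rw [mem_filter] at hm
      rw [mem_filter, mem_range]
      exact ⟨Nat.mod_lt _ (by omega), (hP m).1 hm.2⟩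
  rw [e]
  refine (norm_sum_le _ _).trans ?_
  calc ∑ r ∈ (range M).filter P, ‖∑ m ∈ S.filter (fun m => m ≡ r [MOD M]), w m * ee (m * β)‖
      ≤ ∑ r ∈ (range M).filter P, B := sum_le_sum fun r _ => class_bd h hM r β
    _ = ((range M).filter P).card * B := by rw [sum_const, nsmul_eq_mul]
    _ ≤ M * B := by
        apply mul_le_mul_of_nonneg_right _ hB
        have := card_filter_le (range M) P
        rw [card_range] at this
        exact_mod_cast this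

/-- the sieve for the multiples -/
def Qm (Q : ℕ → ℕ → Prop) (a p m : ℕ) : Prop := ¬ p ∣ a ∧ ∃ n, a * n ≡ m [MOD p] ∧ Q p n

lemma Qm_iff {k : ℕ} {Q : ℕ → ℕ → Prop} (hQ : Sv k Q) {a p : ℕ} (hp : p.Prime) (ha : ¬ p ∣ a) (n : ℕ) :
    Qm Q a p (a * n) ↔ Q p n := by
  constructor
  · rintro ⟨_, n', h1, h2⟩
    have h3 : Nat.gcd p a = 1 := (Nat.Prime.coprime_iff_not_dvd hp).2 ha
    exact (hQ.mod (Nat.ModEq.cancel_left_of_coprime h3 h1)).1 h2
  · intro h
    exact ⟨ha, n, Nat.ModEq.refl _, h⟩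

lemma nuB_Qm {k : ℕ} {Q : ℕ → ℕ → Prop} (hQ : Sv k Q) {a p : ℕ} (hp : p.Prime) (ha : ¬ p ∣ a) :
    nuB (Qm Q a) p = nuB Q p := by
  classical
  have e1 : nuB Q p = ((range p).filter (fun r => Q p r)).card := by
    unfold nuB
    congr 1
  have e2 : nuB (Qm Q a) p = ((range p).filter (fun r => Qm Q a p r)).card := by
    unfold nuB
    congr 1
  rw [e1, e2]
  symm
  have h3 : Nat.gcd p a = 1 := (Nat.Prime.coprime_iff_not_dvd hp).2 ha
  apply card_bij (fun n _ => a * n % p)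
  · intro n hn
    rw [mem_filter, mem_range] at hn ⊢
    refine ⟨Nat.mod_lt _ hp.pos, ha, n, ?_, hn.2⟩
    exact (Nat.mod_modEq _ _).symm
  · intro n hn m hm h
    rw [mem_filter, mem_range] at hn hm
    have h4 : a * n ≡ a * m [MOD p] := h
    have h5 : n % p = m % p := Nat.ModEq.cancel_left_of_coprime h3 h4
    rwa [Nat.mod_eq_of_lt hn.1, Nat.mod_eq_of_lt hm.1] at h5
  · intro m hm
    rw [mem_filter, mem_range] at hm
    obtain ⟨h1, _, n, h4, h5⟩ := hm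
    refine ⟨n % p, ?_, ?_⟩
    · rw [mem_filter, mem_range]
      exact ⟨Nat.mod_lt _ hp.pos, (hQ.per p n).1 h5⟩
    · have h6 : a * (n % p) ≡ m [MOD p] := ((Nat.mod_modEq n p).mul_left a).trans h4
      have h7 : a * (n % p) % p = m % p := h6
      rw [h7, Nat.mod_eq_of_lt h1]

lemma nuB_Qm' {Q : ℕ → ℕ → Prop} {a p : ℕ} (ha : p ∣ a) : nuB (Qm Q a) p = 0 := by
  classical
  unfold nuB
  rw [card_eq_zero, filter_eq_empty_iff]
  intro r _ h
  exact h.1 ha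

lemma sv_Qm {k : ℕ} {Q : ℕ → ℕ → Prop} (hQ : Sv k Q) (a : ℕ) : Sv k (Qm Q a) where
  per := fun p m => by
    unfold Qm
    apply and_congr Iff.rfl
    apply exists_congr
    intro n
    apply and_congr _ Iff.rfl
    exact ⟨fun h => h.trans (Nat.mod_modEq m p).symm, fun h => h.trans (Nat.mod_modEq m p)⟩
  le := fun p hp => by
    by_cases h : p ∣ a
    · rw [nuB_Qm' h]; omega
    · rw [nuB_Qm hQ hp h]; exact hQ.le p hp
  lt := fun p hp => by
    by_cases h : p ∣ a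
    · rw [nuB_Qm' h]; exact hp.pos
    · rw [nuB_Qm hQ hp h]; exact hQ.lt p hp

lemma VQ_Qm {k : ℕ} {Q : ℕ → ℕ → Prop} (hQ : Sv k Q) {a : ℕ} (ha : 1 ≤ a) (y : ℕ) :
    VQ (Qm Q a) y ≤ a * VQ Q y := by
  classical
  have h1 : VQ (Qm Q a) y ≤ ∏ p ∈ pz y, ((if p ∣ a then (p : ℝ) else 1) * (1 - (nuB Q p : ℝ) / p)) := by
    unfold VQ
    apply prod_le_prod
    · intro p hp
      have hp0 : (0 : ℝ) < p := by exact_mod_cast (mem_pz.1 hp).2.pos
      have h1 : (nuB (Qm Q a) p : ℝ) ≤ p := by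
        exact_mod_cast (by have := (sv_Qm hQ a).lt p (mem_pz.1 hp).2; omega : nuB (Qm Q a) p ≤ p)
      rw [sub_nonneg, div_le_one hp0]
      exact h1
    · intro p hp
      have hpp := (mem_pz.1 hp).2
      have hp0 : (0 : ℝ) < p := by exact_mod_cast hpp.pos
      by_cases h : p ∣ a
      · rw [if_pos h, nuB_Qm' h]
        have h2 : (nuB Q p : ℝ) + 1 ≤ p := by exact_mod_cast hQ.lt p hpp
        have e : (p : ℝ) * (1 - (nuB Q p : ℝ) / p) = p - nuB Q p := by field_simp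
        rw [e]
        simp only [Nat.cast_zero, zero_div, sub_zero]
        linarith
      · rw [if_neg h, nuB_Qm hQ hpp h, one_mul]
  refine h1.trans ?_
  rw [prod_mul_distrib]
  have h2 : 0 < VQ Q y := VQ_nonneg hQ y
  have e3 : ∏ p ∈ pz y, (1 - (nuB Q p : ℝ) / p) = VQ Q y := rfl
  rw [e3]
  apply mul_le_mul_of_nonneg_right _ h2.le
  rw [← prod_filter]
  have h4 : ∏ p ∈ (pz y).filter (fun p => p ∣ a), p ∣ a := by
    apply Finset.prod_primes_dvd
    · intro p hp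
      exact (mem_pz.1 (mem_filter.1 hp).1).2.prime
    · intro p hp
      exact (mem_filter.1 hp).2
  have h5 := Nat.le_of_dvd (by omega) h4
  have h6 : ((∏ p ∈ (pz y).filter (fun p => p ∣ a), p : ℕ) : ℝ) ≤ a := by exact_mod_cast h5
  refine le_trans (le_of_eq ?_) h6
  push_cast
  rfl

open Classical in
/-- reduction to the multiples of `a` -/
lemma sum_Qm {k : ℕ} {Q : ℕ → ℕ → Prop} (hQ : Sv k Q) {a X y : ℕ} (ha : 1 ≤ a) (f : ℕ → ℂ) :
    ∑ n ∈ RQ Q X y, f (a * n) =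
      ∑ m ∈ (RQ (Qm Q a) (a * X) y).filter (fun m => a ∣ m ∧ ∀ p ∈ pz y, p ∣ a → ¬ Q p (m / a)), f m := by
  apply sum_bij (fun n _ => a * n)
  · intro n hn
    rw [mem_RQ] at hn
    rw [mem_filter, mem_RQ]
    refine ⟨⟨⟨Nat.mul_pos ha hn.1.1, Nat.mul_le_mul_left _ hn.1.2⟩, fun p hp h => ?_⟩, Dvd.intro _ rfl, fun p hp _ h => ?_⟩
    · exact hn.2 p hp ((Qm_iff hQ (mem_pz.1 hp).2 h.1 n).1 h)
    · rw [Nat.mul_div_cancel_left _ (by omega)] at h
      exact hn.2 p hp h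
  · intro n _ m _ h
    exact Nat.eq_of_mul_eq_mul_left (by omega) h
  · intro m hm
    rw [mem_filter, mem_RQ] at hm
    obtain ⟨⟨h1, h2⟩, ⟨n, rfl⟩, h3⟩ := hm
    refine ⟨n, ?_, rfl⟩
    rw [mem_RQ]
    refine ⟨⟨?_, Nat.le_of_mul_le_mul_left h1.2 (by omega)⟩, fun p hp h => ?_⟩
    · rcases Nat.eq_zero_or_pos n with h0 | h0
      · rw [h0, mul_zero] at h1
        omega
      · exact h0
    · by_cases hd : p ∣ a
      · apply h3 p hp hd
        rwa [Nat.mul_div_cancel_left _ (by omega)]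
      · exact h2 p hp ((Qm_iff hQ (mem_pz.1 hp).2 hd n).2 h)
  · intro n _
    rfl

/-- the condition is periodic -/
lemma per_Qm {k : ℕ} {Q : ℕ → ℕ → Prop} (hQ : Sv k Q) {a y : ℕ} (ha : 1 ≤ a) (m : ℕ) :
    (a ∣ m ∧ ∀ p ∈ pz y, p ∣ a → ¬ Q p (m / a)) ↔
      (a ∣ m % (a * a) ∧ ∀ p ∈ pz y, p ∣ a → ¬ Q p (m % (a * a) / a)) := by
  have h0 : m % (a * a) + (a * a) * (m / (a * a)) = m := Nat.mod_add_div m (a * a)
  have h1 : a ∣ m ↔ a ∣ m % (a * a) := by
    conv_lhs => rw [← h0]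
    exact Nat.dvd_add_left (by rw [mul_assoc]; exact Dvd.intro _ rfl)
  rw [← h1]
  apply and_congr_right
  intro hd
  apply forall_congr'
  intro p
  apply forall_congr'
  intro hp
  apply forall_congr'
  intro hpa
  apply not_congr
  apply hQ.mod
  have hd' := h1.1 hd
  obtain ⟨s, hs⟩ := hd'
  have e : m = a * (s + a * (m / (a * a))) := by
    conv_lhs => rw [← h0, hs]
    ring
  have e1 : m / a = s + a * (m / (a * a)) := by
    conv_lhs => rw [e]
    exact Nat.mul_div_cancel_left _ (by omega)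
  have e2 : m % (a * a) / a = s := by
    rw [hs]
    exact Nat.mul_div_cancel_left _ (by omega)
  rw [e1, e2]
  obtain ⟨t, ht⟩ := hpa
  show (s + a * (m / (a * a))) % p = s % p
  rw [ht, mul_assoc, Nat.add_mul_mod_self_left]

/-- **Fourier uniformity at linear forms** -/
theorem all_lin (k : ℕ) (hk : 1 ≤ k) (a0 L : ℕ) : ∃ A : ℕ, L ≤ A ∧ 1 ≤ A ∧ ∀ K : ℕ, A ≤ K → ∀ B' : ℕ, ∃ X0 y0 : ℕ,
    ∀ Q : ℕ → ℕ → Prop, Sv k Q → ∀ X y : ℕ, X0 ≤ X → y0 ≤ y → y ^ K ≤ X →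
      ∀ a b : ℤ, a ≠ 0 → |a| ≤ a0 → |(b : ℝ)| ≤ X * Real.log X ^ B' → ∀ α : ℝ,
      ‖∑ n ∈ RQ Q X y, ((lz (a * n + b) : ℝ) : ℂ) * ee (n * α)‖ ≤ (1 / 2 : ℝ) ^ (K / A) * (RQ Q X y).card := by
  classical
  obtain ⟨A0, hA0, H⟩ := all_Z k hk
  obtain ⟨K2, hK2, X2, y2, H2⟩ := cnt2 k hk
  obtain ⟨A, hAL, hA0A, hA⟩ := absorb A0 1 (K2 + L + 1) hA0 (36 * ((a0 : ℝ) + 1) ^ 4) (by positivity)
  refine ⟨A, by omega, by omega, fun K hK B' => ?_⟩
  obtain ⟨X0, y0, H⟩ := H K (by omega) B'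
  refine ⟨X0 + X2 + 3, y0 + y2 + 1, ?_⟩
  intro Q hQ X y hX hy hyX
  have main : ∀ (a : ℕ) (b : ℤ), 1 ≤ a → a ≤ a0 → |(b : ℝ)| ≤ X * Real.log X ^ B' → ∀ α : ℝ,
      ‖∑ n ∈ RQ Q X y, ((lz ((a : ℤ) * n + b) : ℝ) : ℂ) * ee (n * α)‖ ≤ (1 / 2 : ℝ) ^ (K / A) * (RQ Q X y).card := by
    intro a b ha haa hb α
    have hXr : (3 : ℝ) ≤ X := by exact_mod_cast (by omega : 3 ≤ X)
    have har : (1 : ℝ) ≤ a := by exact_mod_cast ha
    have hXa : X ≤ a * X := Nat.le_mul_of_pos_left _ ha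
    have hb' : |(b : ℝ)| ≤ ((a * X : ℕ) : ℝ) * Real.log ((a * X : ℕ) : ℝ) ^ B' := by
      refine hb.trans ?_
      have h1 : (X : ℝ) ≤ ((a * X : ℕ) : ℝ) := by exact_mod_cast hXa
      have h2 : 0 ≤ Real.log (X : ℝ) := Real.log_nonneg (by linarith)
      have h3 : Real.log (X : ℝ) ≤ Real.log ((a * X : ℕ) : ℝ) := Real.log_le_log (by linarith) h1
      exact mul_le_mul h1 (pow_le_pow_left₀ h2 h3 _) (by positivity) (by linarith)
    have h1 := H (Qm Q a) (sv_Qm hQ a) (a * X) y (by omega) (by omega) (hyX.trans hXa) b hb'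
    have h2 := (H2 (Qm Q a) (sv_Qm hQ a) (a * X) y (by omega) (by omega)
      (((Nat.pow_le_pow_right (by omega) (by omega)).trans hyX).trans hXa)).2
    have h3 := (H2 Q hQ X y (by omega) (by omega) ((Nat.pow_le_pow_right (by omega) (by omega)).trans hyX)).1
    have e1 : ∑ n ∈ RQ Q X y, ((lz ((a : ℤ) * n + b) : ℝ) : ℂ) * ee (n * α) =
        ∑ m ∈ (RQ (Qm Q a) (a * X) y).filter (fun m => a ∣ m ∧ ∀ p ∈ pz y, p ∣ a → ¬ Q p (m / a)),
          ((lz ((m : ℤ) + b) : ℝ) : ℂ) * ee (m * (α / a)) := by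
      rw [← sum_Qm hQ ha (fun m => ((lz ((m : ℤ) + b) : ℝ) : ℂ) * ee (m * (α / a)))]
      apply sum_congr rfl
      intro n _
      have e2 : ((a * n : ℕ) : ℝ) * (α / a) = n * α := by
        push_cast
        field_simp
      rw [e2]
      push_cast
      rfl
    rw [e1]
    have h4 := classes_bd (w := fun m => ((lz ((m : ℤ) + b) : ℝ) : ℂ)) h1 (M := a * a) (Nat.mul_pos ha ha)
      (fun m => a ∣ m ∧ ∀ p ∈ pz y, p ∣ a → ¬ Q p (m / a)) (per_Qm hQ ha) (α / a)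
    have h4' : ‖∑ m ∈ (RQ (Qm Q a) (a * X) y).filter (fun m => a ∣ m ∧ ∀ p ∈ pz y, p ∣ a → ¬ Q p (m / a)),
          ((lz ((m : ℤ) + b) : ℝ) : ℂ) * ee (m * (α / a))‖ ≤ ((a * a : ℕ) : ℝ) * (9 * (1 / 2 : ℝ) ^ (K / A0) *
            (RQ (Qm Q a) (a * X) y).card) := by
      convert h4
    refine h4'.trans ?_
    obtain ⟨G, hG⟩ : ∃ G : ℝ, G = ((RQ Q X y).card : ℝ) := ⟨_, rfl⟩
    obtain ⟨G', hG'⟩ : ∃ G' : ℝ, G' = ((RQ (Qm Q a) (a * X) y).card : ℝ) := ⟨_, rfl⟩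
    obtain ⟨d, hd⟩ : ∃ d : ℝ, d = (1 / 2 : ℝ) ^ (K / A0) := ⟨_, rfl⟩
    have hd0 : 0 < d := by rw [hd]; positivity
    rw [← hG] at h3 ⊢
    rw [← hG'] at h2 ⊢
    rw [← hd]
    have hV := VQ_Qm hQ ha y
    have hV0 := VQ_nonneg hQ y
    have hG0 : 0 ≤ G := by rw [hG]; exact Nat.cast_nonneg _
    have h5 : G' ≤ 4 * (a : ℝ) ^ 2 * G := by
      refine h2.trans ?_
      push_cast
      have h6 : (a : ℝ) * X * VQ (Qm Q a) y ≤ (a : ℝ) * X * (a * VQ Q y) :=
        mul_le_mul_of_nonneg_left hV (by positivity)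
      have h7 : (a : ℝ) ^ 2 * (X * VQ Q y / 2) ≤ (a : ℝ) ^ 2 * G := mul_le_mul_of_nonneg_left h3 (by positivity)
      calc 2 * ((a : ℝ) * X * VQ (Qm Q a) y) ≤ 2 * ((a : ℝ) * X * (a * VQ Q y)) := by linarith
        _ = 4 * ((a : ℝ) ^ 2 * (X * VQ Q y / 2)) := by ring
        _ ≤ 4 * ((a : ℝ) ^ 2 * G) := by linarith
        _ = _ := by ring
    have h8 : (a : ℝ) ^ 4 ≤ ((a0 : ℝ) + 1) ^ 4 := by
      apply pow_le_pow_left₀ (by positivity)
      have : (a : ℝ) ≤ a0 := by exact_mod_cast haa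
      linarith
    have h9 := hA K hK
    rw [pow_one, ← hd] at h9
    push_cast
    calc (a : ℝ) * a * (9 * d * G') ≤ (a : ℝ) * a * (9 * d * (4 * (a : ℝ) ^ 2 * G)) := by
          apply mul_le_mul_of_nonneg_left _ (by positivity)
          exact mul_le_mul_of_nonneg_left h5 (by positivity)
      _ = 36 * (a : ℝ) ^ 4 * d * G := by ring
      _ ≤ 36 * ((a0 : ℝ) + 1) ^ 4 * d * G := by
          apply mul_le_mul_of_nonneg_right _ hG0
          apply mul_le_mul_of_nonneg_right _ hd0.le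
          linarith
      _ ≤ _ := mul_le_mul_of_nonneg_right h9 hG0
  intro a b ha haa hb α
  rcases lt_or_gt_of_ne ha with h | h
  · have e : ∀ n : ℕ, lz (a * n + b) = lz (((a.natAbs : ℕ) : ℤ) * n + (-b)) := by
      intro n
      rw [← lz_neg]
      congr 1
      have : ((a.natAbs : ℕ) : ℤ) = -a := by omega
      rw [this]
      ring
    simp only [e]
    apply main a.natAbs (-b) (by omega) _ (by push_cast; rwa [abs_neg]) α
    rw [Int.abs_eq_natAbs] at haa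
    exact_mod_cast haa
  · have e : ∀ n : ℕ, lz (a * n + b) = lz (((a.natAbs : ℕ) : ℤ) * n + b) := by
      intro n
      have : ((a.natAbs : ℕ) : ℤ) = a := by omega
      rw [this]
    simp only [e]
    apply main a.natAbs b (by omega) _ hb α
    rw [Int.abs_eq_natAbs] at haa
    exact_mod_cast haa

end Pool.Agent.H530.Hz
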