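import Pool.Agent.H530.HzU

/-! Patterns of the Liouville function at linear forms. -/

set_option autoImplicit false

namespace Pool.Agent.H530.Hz

open Finset Pool.Agent.H807R2.Dav MeasureTheory Pool.Agent.H530.Ha
open Pool.Agent.H373R2.T7 hiding RQ

/-- linear forms with bounded coefficient -/
def Ll (X B' a0 : ℕ) (l : ℕ → ℤ) : Prop :=
  ∃ a b : ℤ, a ≠ 0 ∧ |a| ≤ a0 ∧ |(b : ℝ)| ≤ X * Real.log X ^ B' ∧ ∀ n : ℕ, l n = a * n + b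

lemma Ll.inj {X B' a0 : ℕ} {l : ℕ → ℤ} (h : Ll X B' a0 l) (n m : ℕ) (hn : l n = 0) (hm : l m = 0) : n = m := by
  obtain ⟨a, b, ha, _, _, hl⟩ := h
  rw [hl] at hn hm
  have h1 : a * ((n : ℤ) - m) = 0 := by linarith
  rcases mul_eq_zero.1 h1 with h2 | h2
  · exact absurd h2 ha
  · have : (n : ℤ) = m := by linarith
    exact_mod_cast this

/-- the weight is the Liouville function at a linear form -/
def Lrl (X B' a0 : ℕ) (r : ℕ → ℝ) : Prop := ∃ l : ℕ → ℤ, Ll X B' a0 l ∧ ∀ n : ℕ, r n = lz (l n)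

lemma Ll.lr {X B' a0 : ℕ} {l : ℕ → ℤ} (h : Ll X B' a0 l) : Lrl X B' a0 (fun n => lz (l n)) := ⟨l, h, fun _ => rfl⟩

/-- common data -/
lemma dataL (k : ℕ) (hk : 1 ≤ k) (a0 : ℕ) {p : ℝ} (hp : 2 < p) : ∃ A : ℕ, 1 ≤ A ∧ ∃ C : ℝ, 0 < C ∧ ∀ K : ℕ, A ≤ K →
    ∀ B' : ℕ, ∃ X0 y0 : ℕ, ∀ Q : ℕ → ℕ → Prop, Sv k Q → ∀ X y : ℕ, X0 ≤ X → y0 ≤ y → y ^ K ≤ X →
      1 ≤ X ∧ 1 ≤ (RQ Q X y).card ∧
      (∀ w : ℕ → ℂ, (∀ n ∈ RQ Q X y, ‖w n‖ ≤ 1) →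
        ∫ α in (0 : ℝ)..1, ‖FS (RQ Q X y) w α‖ ^ p ≤ C * (((RQ Q X y).card : ℝ) ^ p / X)) ∧
      ∀ r : ℕ → ℝ, Lrl X B' a0 r → ∀ α : ℝ, ‖FS (RQ Q X y) (fun n => (r n : ℂ)) α‖ ≤
        (1 / 2 : ℝ) ^ (K / A) * (RQ Q X y).card := by
  obtain ⟨A1, hA1, C, hC, H1⟩ := data k hk hp
  obtain ⟨A, hA1A, hA, H2⟩ := all_lin k hk a0 A1
  refine ⟨A, hA, C, hC, fun K hK B' => ?_⟩
  obtain ⟨X1, y1, H1⟩ := H1 K (by omega) B'
  obtain ⟨X2, y2, H2⟩ := H2 K hK B'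
  refine ⟨X1 + X2, y1 + y2, ?_⟩
  intro Q hQ X y hX hy hyX
  obtain ⟨h1, h2, h3, _⟩ := H1 Q hQ X y (by omega) (by omega) hyX
  refine ⟨h1, h2, h3, ?_⟩
  rintro r ⟨l, ⟨a, b, ha, haa, hb, hl⟩, hr⟩ α
  have h := H2 Q hQ X y (by omega) (by omega) hyX a b ha haa hb α
  unfold FS
  simp only [hr, hl]
  exact h

/-- real weights -/
theorem tern_lin (k : ℕ) (hk : 1 ≤ k) (a0 : ℕ) : ∃ A : ℕ, 1 ≤ A ∧ ∀ K : ℕ, A ≤ K →
    ∀ B' : ℕ, ∃ X0 y0 : ℕ, ∀ Q1 Q2 Q3 : ℕ → ℕ → Prop, Sv k Q1 → Sv k Q2 → Sv k Q3 →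
      ∀ X y : ℕ, X0 ≤ X → y0 ≤ y → y ^ K ≤ X → ∀ a1 a2 a3 : ℤ, a1 ≠ 0 → a2 ≠ 0 → a3 ≠ 0 → ∀ N : ℤ,
      ∀ r1 r2 r3 : ℕ → ℝ, (∀ n, |r1 n| ≤ 1) → (∀ n, |r2 n| ≤ 1) → (∀ n, |r3 n| ≤ 1) →
      (Lrl X B' a0 r1 ∨ Lrl X B' a0 r2 ∨ Lrl X B' a0 r3) →
        |∑ t ∈ rep3 (RQ Q1 X y) (RQ Q2 X y) (RQ Q3 X y) a1 a2 a3 N, r1 t.1 * (r2 t.2.1 * r3 t.2.2)| ≤
          A * (1 / 2 : ℝ) ^ (K / A) *
            (((RQ Q1 X y).card : ℝ) * (RQ Q2 X y).card * (RQ Q3 X y).card / X) := by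
  obtain ⟨A0, hA0, C, hC, H⟩ := dataL k hk a0 (p := 5 / 2) (by norm_num)
  refine ⟨2 * A0 + ⌈18 / 5 * C⌉₊, by omega, fun K hK B' => ?_⟩
  obtain ⟨X0, y0, H⟩ := H K (by omega) B'
  refine ⟨X0, y0, ?_⟩
  intro Q1 Q2 Q3 hQ1 hQ2 hQ3 X y hX hy hyX a1 a2 a3 ha1 ha2 ha3 N r1 r2 r3 hr1 hr2 hr3 hL
  obtain ⟨hX1, g1, p1, f1⟩ := H Q1 hQ1 X y hX hy hyX
  obtain ⟨_, g2, p2, f2⟩ := H Q2 hQ2 X y hX hy hyX
  obtain ⟨_, g3, p3, f3⟩ := H Q3 hQ3 X y hX hy hyX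
  have g1' : (0 : ℝ) < (RQ Q1 X y).card := by exact_mod_cast (by omega : 0 < (RQ Q1 X y).card)
  have g2' : (0 : ℝ) < (RQ Q2 X y).card := by exact_mod_cast (by omega : 0 < (RQ Q2 X y).card)
  have g3' : (0 : ℝ) < (RQ Q3 X y).card := by exact_mod_cast (by omega : 0 < (RQ Q3 X y).card)
  have n1 : ∀ n ∈ RQ Q1 X y, ‖((r1 n : ℝ) : ℂ)‖ ≤ 1 := fun n _ => by rw [Complex.norm_real]; exact hr1 n
  have n2 : ∀ n ∈ RQ Q2 X y, ‖((r2 n : ℝ) : ℂ)‖ ≤ 1 := fun n _ => by rw [Complex.norm_real]; exact hr2 n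
  have n3 : ∀ n ∈ RQ Q3 X y, ‖((r3 n : ℝ) : ℂ)‖ ≤ 1 := fun n _ => by rw [Complex.norm_real]; exact hr3 n
  have hd0 : (0 : ℝ) ≤ (1 / 2 : ℝ) ^ (K / A0) := by positivity
  have w9 : ∀ {a G : ℝ}, 0 ≤ G → a ≤ (1 / 2 : ℝ) ^ (K / A0) * G → a ≤ 9 * (1 / 2 : ℝ) ^ (K / A0) * G := by
    intro a G hG ha
    have : 0 ≤ (1 / 2 : ℝ) ^ (K / A0) * G := mul_nonneg hd0 hG
    linarith
  have h1 := tern (w1 := fun n => (r1 n : ℂ)) (w2 := fun n => (r2 n : ℂ)) (w3 := fun n => (r3 n : ℂ))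
    (ε := 9 * (1 / 2 : ℝ) ^ (K / A0)) ha1 ha2 ha3 N g1' g2' g3' (p1 _ n1) (p2 _ n2) (p3 _ n3) (by
      rcases hL with h | h | h
      · exact Or.inl (fun α => w9 g1'.le (f1 r1 h α))
      · exact Or.inr (Or.inl (fun α => w9 g2'.le (f2 r2 h α)))
      · exact Or.inr (Or.inr (fun α => w9 g3'.le (f3 r3 h α))))
  have e0 : |∑ t ∈ rep3 (RQ Q1 X y) (RQ Q2 X y) (RQ Q3 X y) a1 a2 a3 N, r1 t.1 * (r2 t.2.1 * r3 t.2.2)| =
      ‖∑ t ∈ (RQ Q1 X y ×ˢ (RQ Q2 X y ×ˢ RQ Q3 X y)).filter (fun t => a1 * t.1 + (a2 * t.2.1 + a3 * t.2.2) = N),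
      ((r1 t.1 : ℝ) : ℂ) * (((r2 t.2.1 : ℝ) : ℂ) * ((r3 t.2.2 : ℝ) : ℂ))‖ := by
    unfold rep3
    rw [← Real.norm_eq_abs, ← Complex.norm_real]
    congr 1
    push_cast
    rfl
  rw [e0]
  refine h1.trans ?_
  have hXr : (1 : ℝ) ≤ X := by exact_mod_cast hX1
  apply mul_le_mul_of_nonneg_right _ (by positivity)
  have h2 := sqrt_pow_half (le_refl (9 * (1 / 2 : ℝ) ^ (K / A0)))
  rw [Nat.div_div_eq_div_mul] at h2
  have h3 : (1 / 2 : ℝ) ^ (K / (A0 * 2)) ≤ (1 / 2 : ℝ) ^ (K / (2 * A0 + ⌈18 / 5 * C⌉₊)) := by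
    apply pow_le_pow_of_le_one (by norm_num) (by norm_num)
    exact Nat.div_le_div_left (by omega) (by omega)
  have h4 : 18 / 5 * C ≤ ((2 * A0 + ⌈18 / 5 * C⌉₊ : ℕ) : ℝ) := by
    refine (Nat.le_ceil _).trans ?_
    exact_mod_cast Nat.le_add_left _ _
  calc √(9 * (1 / 2 : ℝ) ^ (K / A0)) * (6 / 5 * C) ≤ 3 * (1 / 2 : ℝ) ^ (K / (A0 * 2)) * (6 / 5 * C) :=
        mul_le_mul_of_nonneg_right h2 (by positivity)
    _ ≤ 3 * (1 / 2 : ℝ) ^ (K / (2 * A0 + ⌈18 / 5 * C⌉₊)) * (6 / 5 * C) := by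
        apply mul_le_mul_of_nonneg_right _ (by positivity)
        linarith
    _ = 18 / 5 * C * (1 / 2 : ℝ) ^ (K / (2 * A0 + ⌈18 / 5 * C⌉₊)) := by ring
    _ ≤ _ := mul_le_mul_of_nonneg_right h4 (by positivity)

theorem bin_lin (k : ℕ) (hk : 1 ≤ k) (a0 : ℕ) : ∃ A : ℕ, 1 ≤ A ∧ ∀ K : ℕ, A ≤ K →
    ∀ B' : ℕ, ∃ X0 y0 : ℕ, ∀ Q1 Q2 : ℕ → ℕ → Prop, Sv k Q1 → Sv k Q2 →
      ∀ X y : ℕ, X0 ≤ X → y0 ≤ y → y ^ K ≤ X → ∀ a1 a2 : ℤ, a1 ≠ 0 → a2 ≠ 0 →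
      ∀ r1 r2 : ℕ → ℝ, (∀ n, |r1 n| ≤ 1) → (∀ n, |r2 n| ≤ 1) → (Lrl X B' a0 r1 ∨ Lrl X B' a0 r2) → ∀ U : Finset ℤ,
        ∑ M ∈ U, (∑ t ∈ rep2 (RQ Q1 X y) (RQ Q2 X y) a1 a2 M, r1 t.1 * r2 t.2) ^ 2 ≤
          A * (1 / 2 : ℝ) ^ (K / A) *
            ((((RQ Q1 X y).card : ℝ) * (RQ Q2 X y).card) ^ 2 / X) := by
  obtain ⟨A0, hA0, C, hC, H⟩ := dataL k hk a0 (p := 3) (by norm_num)
  refine ⟨A0 + ⌈12 * C⌉₊, by omega, fun K hK B' => ?_⟩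
  obtain ⟨X0, y0, H⟩ := H K (by omega) B'
  refine ⟨X0, y0, ?_⟩
  intro Q1 Q2 hQ1 hQ2 X y hX hy hyX a1 a2 ha1 ha2 r1 r2 hr1 hr2 hL U
  obtain ⟨hX1, g1, p1, f1⟩ := H Q1 hQ1 X y hX hy hyX
  obtain ⟨_, g2, p2, f2⟩ := H Q2 hQ2 X y hX hy hyX
  have g1' : (0 : ℝ) < (RQ Q1 X y).card := by exact_mod_cast (by omega : 0 < (RQ Q1 X y).card)
  have g2' : (0 : ℝ) < (RQ Q2 X y).card := by exact_mod_cast (by omega : 0 < (RQ Q2 X y).card)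
  have n1 : ∀ n ∈ RQ Q1 X y, ‖((r1 n : ℝ) : ℂ)‖ ≤ 1 := fun n _ => by rw [Complex.norm_real]; exact hr1 n
  have n2 : ∀ n ∈ RQ Q2 X y, ‖((r2 n : ℝ) : ℂ)‖ ≤ 1 := fun n _ => by rw [Complex.norm_real]; exact hr2 n
  have h1 := bin (w1 := fun n => (r1 n : ℂ)) (w2 := fun n => (r2 n : ℂ)) (ε := (1 / 2 : ℝ) ^ (K / A0)) ha1 ha2 U
    (by positivity) g1' g2' (p1 _ n1) (p2 _ n2) (by
      rcases hL with h | h
      · exact Or.inl (fun α => f1 r1 h α)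
      · exact Or.inr (fun α => f2 r2 h α))
  have e0 : ∑ M ∈ U, (∑ t ∈ rep2 (RQ Q1 X y) (RQ Q2 X y) a1 a2 M, r1 t.1 * r2 t.2) ^ 2 =
      ∑ M ∈ U, ‖∑ t ∈ (RQ Q1 X y ×ˢ RQ Q2 X y).filter (fun t => a1 * t.1 + a2 * t.2 = M),
          ((r1 t.1 : ℝ) : ℂ) * ((r2 t.2 : ℝ) : ℂ)‖ ^ 2 := by
    apply sum_congr rfl
    intro M _
    unfold rep2
    rw [← sq_abs, ← Real.norm_eq_abs, ← Complex.norm_real]
    congr 2
    push_cast
    rfl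
  rw [e0]
  refine h1.trans ?_
  have hXr : (1 : ℝ) ≤ X := by exact_mod_cast hX1
  apply mul_le_mul_of_nonneg_right _ (by positivity)
  have h3 : (1 / 2 : ℝ) ^ (K / A0) ≤ (1 / 2 : ℝ) ^ (K / (A0 + ⌈12 * C⌉₊)) := by
    apply pow_le_pow_of_le_one (by norm_num) (by norm_num)
    exact Nat.div_le_div_left (by omega) (by omega)
  have h4 : 12 * C ≤ ((A0 + ⌈12 * C⌉₊ : ℕ) : ℝ) := by
    refine (Nat.le_ceil _).trans ?_
    exact_mod_cast Nat.le_add_left _ _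
  calc (1 / 2 : ℝ) ^ (K / A0) * (4 / 3 * C) ≤ (1 / 2 : ℝ) ^ (K / (A0 + ⌈12 * C⌉₊)) * (4 / 3 * C) := by
        apply mul_le_mul_of_nonneg_right h3 (by positivity)
    _ ≤ (1 / 2 : ℝ) ^ (K / (A0 + ⌈12 * C⌉₊)) * (12 * C) := by
        apply mul_le_mul_of_nonneg_left _ (by positivity)
        linarith
    _ = 12 * C * (1 / 2 : ℝ) ^ (K / (A0 + ⌈12 * C⌉₊)) := by ring
    _ ≤ _ := mul_le_mul_of_nonneg_right h4 (by positivity)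

/-- few triples with a given entry -/
lemma few1L {S1 S2 S3 : Finset ℕ} {a1 a2 a3 N : ℤ} (h3 : a3 ≠ 0) {l : ℕ → ℤ} (hl : ∀ n m : ℕ, l n = 0 → l m = 0 → n = m) :
    ∑ t ∈ rep3 S1 S2 S3 a1 a2 a3 N, zr (l t.1) ≤ S2.card := by
  classical
  unfold zr
  rw [← sum_filter, sum_const, nsmul_eq_mul, mul_one]
  have h : ((rep3 S1 S2 S3 a1 a2 a3 N).filter (fun t => l t.1 = 0)).card ≤ S2.card := by
    apply card_le_card_of_injOn (fun t => t.2.1)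
    · intro t ht
      rw [mem_coe, mem_filter] at ht
      unfold rep3 at ht
      rw [mem_filter, mem_product, mem_product] at ht
      exact ht.1.1.2.1
    · intro t ht s hs hts
      rw [mem_coe, mem_filter] at ht hs
      unfold rep3 at ht hs
      rw [mem_filter] at ht hs
      simp only at hts
      have e1 : (t.1 : ℤ) = s.1 := by exact_mod_cast hl _ _ ht.2 hs.2
      have e2 : (t.2.1 : ℤ) = s.2.1 := by exact_mod_cast hts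
      have e3 := ht.1.2
      have e4 := hs.1.2
      rw [← e1, ← e2] at e4
      have e5 : a3 * ((t.2.2 : ℤ) - s.2.2) = 0 := by linarith
      rcases mul_eq_zero.1 e5 with h | h
      · exact absurd h h3
      · have e6 : (t.2.2 : ℤ) = s.2.2 := by linarith
        ext
        · exact_mod_cast e1
        · exact_mod_cast e2
        · exact_mod_cast e6
  exact_mod_cast h

lemma few2L {S1 S2 S3 : Finset ℕ} {a1 a2 a3 N : ℤ} (h3 : a3 ≠ 0) {l : ℕ → ℤ} (hl : ∀ n m : ℕ, l n = 0 → l m = 0 → n = m) :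
    ∑ t ∈ rep3 S1 S2 S3 a1 a2 a3 N, zr (l t.2.1) ≤ S1.card := by
  classical
  unfold zr
  rw [← sum_filter, sum_const, nsmul_eq_mul, mul_one]
  have h : ((rep3 S1 S2 S3 a1 a2 a3 N).filter (fun t => l t.2.1 = 0)).card ≤ S1.card := by
    apply card_le_card_of_injOn (fun t => t.1)
    · intro t ht
      rw [mem_coe, mem_filter] at ht
      unfold rep3 at ht
      rw [mem_filter, mem_product, mem_product] at ht
      exact ht.1.1.1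
    · intro t ht s hs hts
      rw [mem_coe, mem_filter] at ht hs
      unfold rep3 at ht hs
      rw [mem_filter] at ht hs
      simp only at hts
      have e1 : (t.2.1 : ℤ) = s.2.1 := by exact_mod_cast hl _ _ ht.2 hs.2
      have e2 : (t.1 : ℤ) = s.1 := by exact_mod_cast hts
      have e3 := ht.1.2
      have e4 := hs.1.2
      rw [← e1, ← e2] at e4
      have e5 : a3 * ((t.2.2 : ℤ) - s.2.2) = 0 := by linarith
      rcases mul_eq_zero.1 e5 with h | h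
      · exact absurd h h3
      · have e6 : (t.2.2 : ℤ) = s.2.2 := by linarith
        ext
        · exact_mod_cast e2
        · exact_mod_cast e1
        · exact_mod_cast e6
  exact_mod_cast h

lemma few3L {S1 S2 S3 : Finset ℕ} {a1 a2 a3 N : ℤ} (h2 : a2 ≠ 0) {l : ℕ → ℤ} (hl : ∀ n m : ℕ, l n = 0 → l m = 0 → n = m) :
    ∑ t ∈ rep3 S1 S2 S3 a1 a2 a3 N, zr (l t.2.2) ≤ S1.card := by
  classical
  unfold zr
  rw [← sum_filter, sum_const, nsmul_eq_mul, mul_one]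
  have h : ((rep3 S1 S2 S3 a1 a2 a3 N).filter (fun t => l t.2.2 = 0)).card ≤ S1.card := by
    apply card_le_card_of_injOn (fun t => t.1)
    · intro t ht
      rw [mem_coe, mem_filter] at ht
      unfold rep3 at ht
      rw [mem_filter, mem_product, mem_product] at ht
      exact ht.1.1.1
    · intro t ht s hs hts
      rw [mem_coe, mem_filter] at ht hs
      unfold rep3 at ht hs
      rw [mem_filter] at ht hs
      simp only at hts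
      have e1 : (t.2.2 : ℤ) = s.2.2 := by exact_mod_cast hl _ _ ht.2 hs.2
      have e2 : (t.1 : ℤ) = s.1 := by exact_mod_cast hts
      have e3 := ht.1.2
      have e4 := hs.1.2
      rw [← e1, ← e2] at e4
      have e5 : a2 * ((t.2.1 : ℤ) - s.2.1) = 0 := by linarith
      rcases mul_eq_zero.1 e5 with h | h
      · exact absurd h h2
      · have e6 : (t.2.1 : ℤ) = s.2.1 := by linarith
        ext
        · exact_mod_cast e2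
        · exact_mod_cast e6
        · exact_mod_cast e1
  exact_mod_cast h

lemma few21L {S1 S2 : Finset ℕ} {a1 a2 N : ℤ} (h2 : a2 ≠ 0) {l : ℕ → ℤ} (hl : ∀ n m : ℕ, l n = 0 → l m = 0 → n = m) :
    ∑ t ∈ rep2 S1 S2 a1 a2 N, zr (l t.1) ≤ 1 := by
  classical
  unfold zr
  rw [← sum_filter, sum_const, nsmul_eq_mul, mul_one]
  have h : ((rep2 S1 S2 a1 a2 N).filter (fun t => l t.1 = 0)).card ≤ 1 := by
    rw [card_le_one]
    intro t ht s hs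
    rw [mem_filter] at ht hs
    unfold rep2 at ht hs
    rw [mem_filter] at ht hs
    have e1 : (t.1 : ℤ) = s.1 := by exact_mod_cast hl _ _ ht.2 hs.2
    have e3 := ht.1.2
    have e4 := hs.1.2
    rw [← e1] at e4
    have e5 : a2 * ((t.2 : ℤ) - s.2) = 0 := by linarith
    rcases mul_eq_zero.1 e5 with h | h
    · exact absurd h h2
    · have e6 : (t.2 : ℤ) = s.2 := by linarith
      ext
      · exact_mod_cast e1
      · exact_mod_cast e6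
  exact_mod_cast h

lemma few22L {S1 S2 : Finset ℕ} {a1 a2 N : ℤ} (h1 : a1 ≠ 0) {l : ℕ → ℤ} (hl : ∀ n m : ℕ, l n = 0 → l m = 0 → n = m) :
    ∑ t ∈ rep2 S1 S2 a1 a2 N, zr (l t.2) ≤ 1 := by
  classical
  unfold zr
  rw [← sum_filter, sum_const, nsmul_eq_mul, mul_one]
  have h : ((rep2 S1 S2 a1 a2 N).filter (fun t => l t.2 = 0)).card ≤ 1 := by
    rw [card_le_one]
    intro t ht s hs
    rw [mem_filter] at ht hs
    unfold rep2 at ht hs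
    rw [mem_filter] at ht hs
    have e1 : (t.2 : ℤ) = s.2 := by exact_mod_cast hl _ _ ht.2 hs.2
    have e3 := ht.1.2
    have e4 := hs.1.2
    rw [← e1] at e4
    have e5 : a1 * ((t.1 : ℤ) - s.1) = 0 := by linarith
    rcases mul_eq_zero.1 e5 with h | h
    · exact absurd h h1
    · have e6 : (t.1 : ℤ) = s.1 := by linarith
      ext
      · exact_mod_cast e6
      · exact_mod_cast e1
  exact_mod_cast h

/-- the number of the triples with a given pattern -/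
noncomputable def pat3L (R : Finset (ℕ × (ℕ × ℕ))) (l1 l2 l3 : ℕ → ℤ) (s1 s2 s3 : ℝ) : ℝ :=
  ∑ t ∈ R, ind s1 (l1 t.1) * (ind s2 (l2 t.2.1) * ind s3 (l3 t.2.2))

/-- the number of the pairs with a given pattern -/
noncomputable def pat2L (R : Finset (ℕ × ℕ)) (l1 l2 : ℕ → ℤ) (s1 s2 : ℝ) : ℝ :=
  ∑ t ∈ R, ind s1 (l1 t.1) * ind s2 (l2 t.2)

/-- **all patterns are equally frequent, ternary equations** -/
theorem pat3_lin (k : ℕ) (hk : 1 ≤ k) (a0 : ℕ) : ∃ A : ℕ, 1 ≤ A ∧ ∀ K : ℕ, A ≤ K →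
    ∀ B' : ℕ, ∃ X0 y0 : ℕ, ∀ Q1 Q2 Q3 : ℕ → ℕ → Prop, Sv k Q1 → Sv k Q2 → Sv k Q3 →
      ∀ X y : ℕ, X0 ≤ X → y0 ≤ y → y ^ K ≤ X → ∀ a1 a2 a3 : ℤ, a1 ≠ 0 → a2 ≠ 0 → a3 ≠ 0 → ∀ N : ℤ,
      ∀ l1 l2 l3 : ℕ → ℤ, Ll X B' a0 l1 → Ll X B' a0 l2 → Ll X B' a0 l3 → ∀ s1 s2 s3 : ℝ, (s1 = 1 ∨ s1 = -1) → (s2 = 1 ∨ s2 = -1) →
        (s3 = 1 ∨ s3 = -1) →
        |8 * pat3L (rep3 (RQ Q1 X y) (RQ Q2 X y) (RQ Q3 X y) a1 a2 a3 N) l1 l2 l3 s1 s2 s3 -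
          (rep3 (RQ Q1 X y) (RQ Q2 X y) (RQ Q3 X y) a1 a2 a3 N).card| ≤
          A * (1 / 2 : ℝ) ^ (K / A) *
            (((RQ Q1 X y).card : ℝ) * (RQ Q2 X y).card * (RQ Q3 X y).card / X) := by
  obtain ⟨A, hA, H⟩ := tern_lin k hk a0
  obtain ⟨c, hc, H3⟩ := all_F k hk
  obtain ⟨K3, hK3, H3⟩ := H3 1 one_pos
  refine ⟨8 * A + K3, by omega, fun K hK B' => ?_⟩
  obtain ⟨X0, y0, H⟩ := H K (by omega) B'
  obtain ⟨X3, y3, H3⟩ := H3 0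
  obtain ⟨e, he⟩ : ∃ e : ℝ, e = (1 / 2 : ℝ) ^ (K / (8 * A + K3)) := ⟨_, rfl⟩
  have he0 : 0 < e := by rw [he]; positivity
  have hee : (1 / 2 : ℝ) ^ (K / A) ≤ e := by
    rw [he]
    apply pow_le_pow_of_le_one (by norm_num) (by norm_num)
    exact Nat.div_le_div_left (by omega) (by omega)
  obtain ⟨X4, hX4⟩ := ev_log' (3 * k) (12 / (e * c ^ 3))
  obtain ⟨X5, hX5⟩ := ev_L' 1
  refine ⟨X0 + X3 + X4 + X5 + 1, y0 + y3 + 1, ?_⟩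
  intro Q1 Q2 Q3 hQ1 hQ2 hQ3 X y hX hy hyX a1 a2 a3 ha1 ha2 ha3 N l1 l2 l3 hb1 hb2 hb3 s1 s2 s3 hs1 hs2 hs3
  have hXr : (1 : ℝ) ≤ X := by exact_mod_cast (by omega : 1 ≤ X)
  have hyK3 := (Nat.pow_le_pow_right (show 1 ≤ y by omega) (show K3 ≤ K by omega)).trans hyX
  obtain ⟨g1, _, _⟩ := H3 Q1 hQ1 X y (by omega) (by omega) hyK3
  obtain ⟨g2, _, _⟩ := H3 Q2 hQ2 X y (by omega) (by omega) hyK3
  obtain ⟨g3, _, _⟩ := H3 Q3 hQ3 X y (by omega) (by omega) hyK3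
  have hlog := hX4 X (by omega)
  have hL1 := hX5 X (by omega)
  have HH := H Q1 Q2 Q3 hQ1 hQ2 hQ3 X y (by omega) (by omega) hyX a1 a2 a3 ha1 ha2 ha3 N
  obtain ⟨R, hR⟩ : ∃ R, R = rep3 (RQ Q1 X y) (RQ Q2 X y) (RQ Q3 X y) a1 a2 a3 N := ⟨_, rfl⟩
  obtain ⟨G1, hG1⟩ : ∃ G : ℝ, G = ((RQ Q1 X y).card : ℝ) := ⟨_, rfl⟩
  obtain ⟨G2, hG2⟩ : ∃ G : ℝ, G = ((RQ Q2 X y).card : ℝ) := ⟨_, rfl⟩
  obtain ⟨G3, hG3⟩ : ∃ G : ℝ, G = ((RQ Q3 X y).card : ℝ) := ⟨_, rfl⟩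
  have hz1 := few1L (S1 := RQ Q1 X y) (S2 := RQ Q2 X y) (S3 := RQ Q3 X y) (a1 := a1) (a2 := a2) (N := N) ha3 hb1.inj
  have hz2 := few2L (S1 := RQ Q1 X y) (S2 := RQ Q2 X y) (S3 := RQ Q3 X y) (a1 := a1) (a2 := a2) (N := N) ha3 hb2.inj
  have hz3 := few3L (S1 := RQ Q1 X y) (S2 := RQ Q2 X y) (S3 := RQ Q3 X y) (a1 := a1) (a3 := a3) (N := N) ha2 hb3.inj
  have hGX1 : ((RQ Q1 X y).card : ℝ) ≤ X := by exact_mod_cast card_RQ_le _ _ _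
  have hGX2 : ((RQ Q2 X y).card : ℝ) ≤ X := by exact_mod_cast card_RQ_le _ _ _
  rw [← hR] at HH hz1 hz2 hz3 ⊢
  rw [← hG1] at g1 HH hGX1 hz2 hz3 ⊢
  rw [← hG2] at g2 HH hGX2 hz1 ⊢
  rw [← hG3] at g3 HH ⊢
  obtain ⟨E, hE⟩ : ∃ E : ℝ, E = A * (1 / 2 : ℝ) ^ (K / A) * (G1 * G2 * G3 / X) := ⟨_, rfl⟩
  rw [← hE] at HH
  have one : ∀ n : ℕ, |(1 : ℝ)| ≤ 1 := fun _ => by simp
  have lb : ∀ l : ℕ → ℤ, ∀ n : ℕ, |lz (l n)| ≤ 1 := fun l n => lz_abs _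
  have t1 := HH (fun n => lz (l1 n)) (fun _ => 1) (fun _ => 1) (lb l1) one one (Or.inl (hb1.lr))
  have t2 := HH (fun _ => 1) (fun n => lz (l2 n)) (fun _ => 1) one (lb l2) one (Or.inr (Or.inl (hb2.lr)))
  have t3 := HH (fun _ => 1) (fun _ => 1) (fun n => lz (l3 n)) one one (lb l3) (Or.inr (Or.inr (hb3.lr)))
  have t12 := HH (fun n => lz (l1 n)) (fun n => lz (l2 n)) (fun _ => 1) (lb l1) (lb l2) one (Or.inl (hb1.lr))
  have t13 := HH (fun n => lz (l1 n)) (fun _ => 1) (fun n => lz (l3 n)) (lb l1) one (lb l3) (Or.inl (hb1.lr))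
  have t23 := HH (fun _ => 1) (fun n => lz (l2 n)) (fun n => lz (l3 n)) one (lb l2) (lb l3) (Or.inr (Or.inl (hb2.lr)))
  have t123 := HH (fun n => lz (l1 n)) (fun n => lz (l2 n)) (fun n => lz (l3 n)) (lb l1) (lb l2) (lb l3) (Or.inl (hb1.lr))
  simp only [one_mul, mul_one] at t1 t2 t3 t12 t13 t23 t123
  -- the expansion
  have hexp : ∑ t ∈ R, (1 + s1 * lz (l1 t.1)) * ((1 + s2 * lz (l2 t.2.1)) * (1 + s3 * lz (l3 t.2.2))) =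
      (R.card : ℝ) + s1 * ∑ t ∈ R, lz (l1 t.1) + s2 * ∑ t ∈ R, lz (l2 t.2.1) +
      s3 * ∑ t ∈ R, lz (l3 t.2.2) + s1 * s2 * ∑ t ∈ R, lz (l1 t.1) * lz (l2 t.2.1) +
      s1 * s3 * ∑ t ∈ R, lz (l1 t.1) * lz (l3 t.2.2) +
      s2 * s3 * ∑ t ∈ R, lz (l2 t.2.1) * lz (l3 t.2.2) +
      s1 * s2 * s3 * ∑ t ∈ R, lz (l1 t.1) * (lz (l2 t.2.1) * lz (l3 t.2.2)) := by
    rw [card_eq_sum_ones, Nat.cast_sum]
    simp only [mul_sum, ← sum_add_distrib]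
    apply sum_congr rfl
    intro t _
    push_cast
    ring
  have habs : ∀ s x : ℝ, |s| = 1 → |x| ≤ E → |s * x| ≤ E := by
    intro s x hs hx
    rw [abs_mul, hs, one_mul]
    exact hx
  have a1' := sgn_abs hs1
  have a2' := sgn_abs hs2
  have a3' := sgn_abs hs3
  have u1 := habs s1 _ a1' t1
  have u2 := habs s2 _ a2' t2
  have u3 := habs s3 _ a3' t3
  have u12 := habs (s1 * s2) _ (by rw [abs_mul, a1', a2', one_mul]) t12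
  have u13 := habs (s1 * s3) _ (by rw [abs_mul, a1', a3', one_mul]) t13
  have u23 := habs (s2 * s3) _ (by rw [abs_mul, a2', a3', one_mul]) t23
  have u123 := habs (s1 * s2 * s3) _ (by rw [abs_mul, abs_mul, a1', a2', a3', one_mul, one_mul]) t123
  have hmain : |∑ t ∈ R, (1 + s1 * lz (l1 t.1)) * ((1 + s2 * lz (l2 t.2.1)) * (1 + s3 * lz (l3 t.2.2))) -
      R.card| ≤ 7 * E := by
    rw [hexp]
    rw [abs_le] at u1 u2 u3 u12 u13 u23 u123 ⊢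
    constructor <;> linarith [u1.1, u1.2, u2.1, u2.2, u3.1, u3.2, u12.1, u12.2, u13.1, u13.2, u23.1, u23.2, u123.1, u123.2]
  have herr : |8 * pat3L R l1 l2 l3 s1 s2 s3 -
      ∑ t ∈ R, (1 + s1 * lz (l1 t.1)) * ((1 + s2 * lz (l2 t.2.1)) * (1 + s3 * lz (l3 t.2.2)))| ≤
      12 * X := by
    unfold pat3L
    rw [mul_sum, ← sum_sub_distrib]
    refine (abs_sum_le_sum_abs _ _).trans ?_
    refine (sum_le_sum fun t _ => pat_pt3 hs1 hs2 hs3 _ _ _).trans ?_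
    rw [← mul_sum, sum_add_distrib, sum_add_distrib]
    linarith
  -- the error is small
  have hsmall : 12 * (X : ℝ) ≤ e * (G1 * G2 * G3 / X) := by
    have hLk : 0 < Real.log X ^ k := by positivity
    have hg : c ^ 3 * (X ^ 3 / Real.log X ^ (3 * k)) ≤ G1 * G2 * G3 := by
      have e1 : c ^ 3 * (X ^ 3 / Real.log X ^ (3 * k)) =
          (c * (X / Real.log X ^ k)) * (c * (X / Real.log X ^ k)) * (c * (X / Real.log X ^ k)) := by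
        rw [mul_comm 3 k, pow_mul]
        field_simp
      rw [e1]
      have p0 : 0 ≤ c * (X / Real.log X ^ k) := by positivity
      exact mul_le_mul (mul_le_mul g1 g2 p0 (p0.trans g1)) g3 p0 (mul_nonneg (p0.trans g1) (p0.trans g2))
    have hs0 : 0 ≤ √(X : ℝ) := Real.sqrt_nonneg _
    have hss : √(X : ℝ) * √(X : ℝ) = X := Real.mul_self_sqrt (by linarith)
    have hs1' : 1 ≤ √(X : ℝ) := by
      rw [show (1 : ℝ) = √1 by simp]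
      exact Real.sqrt_le_sqrt hXr
    have h6 : 12 / (e * c ^ 3) * Real.log X ^ (3 * k) ≤ X := by
      refine le_trans hlog ?_
      nlinarith
    have hL3 : 0 < Real.log X ^ (3 * k) := by positivity
    have h7 : 12 * Real.log X ^ (3 * k) ≤ e * c ^ 3 * X := by
      rw [div_mul_eq_mul_div, div_le_iff₀ (by positivity)] at h6
      linarith
    have h8 : 12 * (X : ℝ) ≤ e * (c ^ 3 * (X ^ 3 / Real.log X ^ (3 * k)) / X) := by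
      have e2 : e * (c ^ 3 * (X ^ 3 / Real.log X ^ (3 * k)) / X) = e * c ^ 3 * X * X / Real.log X ^ (3 * k) := by
        field_simp
      rw [e2, le_div_iff₀ hL3]
      nlinarith
    refine h8.trans ?_
    apply mul_le_mul_of_nonneg_left _ he0.le
    exact div_le_div_of_nonneg_right hg (by linarith)
  have hGG : 0 ≤ G1 * G2 * G3 / X := by
    have : 0 ≤ G1 := by rw [hG1]; exact Nat.cast_nonneg _
    have : 0 ≤ G2 := by rw [hG2]; exact Nat.cast_nonneg _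
    have : 0 ≤ G3 := by rw [hG3]; exact Nat.cast_nonneg _
    positivity
  have hE2 : 7 * E ≤ 7 * A * e * (G1 * G2 * G3 / X) := by
    rw [hE]
    have : (A : ℝ) * (1 / 2 : ℝ) ^ (K / A) ≤ A * e := mul_le_mul_of_nonneg_left hee (Nat.cast_nonneg _)
    have := mul_le_mul_of_nonneg_right this hGG
    linarith
  rw [← he]
  have hA1 : (1 : ℝ) ≤ A := by exact_mod_cast hA
  have hK30 : (0 : ℝ) ≤ K3 := Nat.cast_nonneg _
  obtain ⟨Y, hY⟩ : ∃ Y : ℝ, Y = e * (G1 * G2 * G3 / X) := ⟨_, rfl⟩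
  have hY0 : 0 ≤ Y := by rw [hY]; positivity
  have hfin : ((8 * A + K3 : ℕ) : ℝ) * e * (G1 * G2 * G3 / X) = (8 * A + K3) * Y := by
    rw [hY]
    push_cast
    ring
  rw [hfin]
  have h9 : 7 * E ≤ 7 * A * Y := by
    rw [hY]
    linarith
  rw [← hY] at hsmall
  have h10 : 7 * A * Y + Y ≤ (8 * A + K3) * Y := by nlinarith
  have h11 := abs_sub_le (8 * pat3L R l1 l2 l3 s1 s2 s3)
    (∑ t ∈ R, (1 + s1 * lz (l1 t.1)) * ((1 + s2 * lz (l2 t.2.1)) * (1 + s3 * lz (l3 t.2.2))))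
    (R.card : ℝ)
  linarith

/-- **all patterns are equally frequent, binary equations, in the mean square** -/
theorem pat2_lin (k : ℕ) (hk : 1 ≤ k) (a0 : ℕ) : ∃ A : ℕ, 1 ≤ A ∧ ∀ K : ℕ, A ≤ K →
    ∀ B' : ℕ, ∃ X0 y0 : ℕ, ∀ Q1 Q2 : ℕ → ℕ → Prop, Sv k Q1 → Sv k Q2 →
      ∀ X y : ℕ, X0 ≤ X → y0 ≤ y → y ^ K ≤ X → ∀ a1 a2 : ℤ, a1 ≠ 0 → a2 ≠ 0 →
      ∀ l1 l2 : ℕ → ℤ, Ll X B' a0 l1 → Ll X B' a0 l2 →
        ∀ s1 s2 : ℝ, (s1 = 1 ∨ s1 = -1) → (s2 = 1 ∨ s2 = -1) → ∀ U : Finset ℤ, (U.card : ℝ) ≤ 4 * X →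
        ∑ M ∈ U, (4 * pat2L (rep2 (RQ Q1 X y) (RQ Q2 X y) a1 a2 M) l1 l2 s1 s2 -
          (rep2 (RQ Q1 X y) (RQ Q2 X y) a1 a2 M).card) ^ 2 ≤
          A * (1 / 2 : ℝ) ^ (K / A) * ((((RQ Q1 X y).card : ℝ) * (RQ Q2 X y).card) ^ 2 / X) := by
  obtain ⟨A, hA, H⟩ := bin_lin k hk a0
  obtain ⟨c, hc, H3⟩ := all_F k hk
  obtain ⟨K3, hK3, H3⟩ := H3 1 one_pos
  refine ⟨13 * A + K3, by omega, fun K hK B' => ?_⟩
  obtain ⟨X0, y0, H⟩ := H K (by omega) B'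
  obtain ⟨X3, y3, H3⟩ := H3 0
  obtain ⟨e, he⟩ : ∃ e : ℝ, e = (1 / 2 : ℝ) ^ (K / (13 * A + K3)) := ⟨_, rfl⟩
  have he0 : 0 < e := by rw [he]; positivity
  have hee : (1 / 2 : ℝ) ^ (K / A) ≤ e := by
    rw [he]
    apply pow_le_pow_of_le_one (by norm_num) (by norm_num)
    exact Nat.div_le_div_left (by omega) (by omega)
  obtain ⟨X4, hX4⟩ := ev_log' (4 * k) (256 / (e * c ^ 4))
  obtain ⟨X5, hX5⟩ := ev_L' 1
  refine ⟨X0 + X3 + X4 + X5 + 1, y0 + y3 + 1, ?_⟩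
  intro Q1 Q2 hQ1 hQ2 X y hX hy hyX a1 a2 ha1 ha2 l1 l2 hb1 hb2 s1 s2 hs1 hs2 U hU
  have hXr : (1 : ℝ) ≤ X := by exact_mod_cast (by omega : 1 ≤ X)
  have hyK3 := (Nat.pow_le_pow_right (show 1 ≤ y by omega) (show K3 ≤ K by omega)).trans hyX
  obtain ⟨g1, _, _⟩ := H3 Q1 hQ1 X y (by omega) (by omega) hyK3
  obtain ⟨g2, _, _⟩ := H3 Q2 hQ2 X y (by omega) (by omega) hyK3
  have hlog := hX4 X (by omega)
  have hL1 := hX5 X (by omega)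
  have HH := H Q1 Q2 hQ1 hQ2 X y (by omega) (by omega) hyX a1 a2 ha1 ha2
  obtain ⟨R, hR⟩ : ∃ R : ℤ → Finset (ℕ × ℕ), R = fun M => rep2 (RQ Q1 X y) (RQ Q2 X y) a1 a2 M := ⟨_, rfl⟩
  have hRM : ∀ M, rep2 (RQ Q1 X y) (RQ Q2 X y) a1 a2 M = R M := fun M => by rw [hR]
  have hz1 := fun M => few21L (S1 := RQ Q1 X y) (S2 := RQ Q2 X y) (a1 := a1) (N := M) ha2 hb1.inj
  have hz2 := fun M => few22L (S1 := RQ Q1 X y) (S2 := RQ Q2 X y) (a2 := a2) (N := M) ha1 hb2.inj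
  obtain ⟨G1, hG1⟩ : ∃ G : ℝ, G = ((RQ Q1 X y).card : ℝ) := ⟨_, rfl⟩
  obtain ⟨G2, hG2⟩ : ∃ G : ℝ, G = ((RQ Q2 X y).card : ℝ) := ⟨_, rfl⟩
  simp only [hRM] at HH hz1 hz2 ⊢
  rw [← hG1] at g1 HH ⊢
  rw [← hG2] at g2 HH ⊢
  obtain ⟨E, hE⟩ : ∃ E : ℝ, E = A * (1 / 2 : ℝ) ^ (K / A) * ((G1 * G2) ^ 2 / X) := ⟨_, rfl⟩
  rw [← hE] at HH
  have one : ∀ n : ℕ, |(1 : ℝ)| ≤ 1 := fun _ => by simp
  have lb : ∀ l : ℕ → ℤ, ∀ n : ℕ, |lz (l n)| ≤ 1 := fun l n => lz_abs _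
  have t1 := HH (fun n => lz (l1 n)) (fun _ => 1) (lb l1) one (Or.inl (hb1.lr)) U
  have t2 := HH (fun _ => 1) (fun n => lz (l2 n)) one (lb l2) (Or.inr (hb2.lr)) U
  have t12 := HH (fun n => lz (l1 n)) (fun n => lz (l2 n)) (lb l1) (lb l2) (Or.inl (hb1.lr)) U
  simp only [one_mul, mul_one] at t1 t2 t12
  have hexp : ∀ M, ∑ t ∈ R M, (1 + s1 * lz (l1 t.1)) * (1 + s2 * lz (l2 t.2)) =
      ((R M).card : ℝ) + s1 * ∑ t ∈ R M, lz (l1 t.1) + s2 * ∑ t ∈ R M, lz (l2 t.2) +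
      s1 * s2 * ∑ t ∈ R M, lz (l1 t.1) * lz (l2 t.2) := by
    intro M
    rw [card_eq_sum_ones, Nat.cast_sum]
    simp only [mul_sum, ← sum_add_distrib]
    apply sum_congr rfl
    intro t _
    push_cast
    ring
  have a1' := sgn_abs hs1
  have a2' := sgn_abs hs2
  have sq1 : s1 ^ 2 = 1 := by rw [← sq_abs, a1', one_pow]
  have sq2 : s2 ^ 2 = 1 := by rw [← sq_abs, a2', one_pow]
  have hpt : ∀ M, (4 * pat2L (R M) l1 l2 s1 s2 - ((R M).card : ℝ)) ^ 2 ≤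
      4 * ((∑ t ∈ R M, lz (l1 t.1)) ^ 2 + (∑ t ∈ R M, lz (l2 t.2)) ^ 2 +
        (∑ t ∈ R M, lz (l1 t.1) * lz (l2 t.2)) ^ 2 + 16) := by
    intro M
    have herr : |4 * pat2L (R M) l1 l2 s1 s2 - ∑ t ∈ R M, (1 + s1 * lz (l1 t.1)) * (1 + s2 * lz (l2 t.2))| ≤ 4 := by
      unfold pat2L
      rw [mul_sum, ← sum_sub_distrib]
      refine (abs_sum_le_sum_abs _ _).trans ?_
      refine (sum_le_sum fun t _ => pat_pt2 hs1 hs2 _ _).trans ?_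
      rw [← mul_sum, sum_add_distrib]
      linarith [hz1 M, hz2 M]
    rw [hexp M] at herr
    obtain ⟨x, hx⟩ : ∃ x, x = ∑ t ∈ R M, lz (l1 t.1) := ⟨_, rfl⟩
    obtain ⟨z, hz⟩ : ∃ z, z = ∑ t ∈ R M, lz (l2 t.2) := ⟨_, rfl⟩
    obtain ⟨w, hw⟩ : ∃ w, w = ∑ t ∈ R M, lz (l1 t.1) * lz (l2 t.2) := ⟨_, rfl⟩
    rw [← hx, ← hz, ← hw] at herr
    rw [← hx, ← hz, ← hw]
    obtain ⟨d, hd⟩ : ∃ d, d = 4 * pat2L (R M) l1 l2 s1 s2 - (((R M).card : ℝ) + s1 * x + s2 * z + s1 * s2 * w) := ⟨_, rfl⟩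
    rw [← hd] at herr
    have e1 : 4 * pat2L (R M) l1 l2 s1 s2 - ((R M).card : ℝ) = s1 * x + s2 * z + s1 * s2 * w + d := by
      rw [hd]
      ring
    rw [e1]
    have hd2 : d ^ 2 ≤ 16 := by
      have := sq_le_sq' (abs_le.1 herr).1 (abs_le.1 herr).2
      linarith
    have e2 : (s1 * x) ^ 2 = x ^ 2 := by rw [mul_pow, sq1, one_mul]
    have e3 : (s2 * z) ^ 2 = z ^ 2 := by rw [mul_pow, sq2, one_mul]
    have e4 : (s1 * s2 * w) ^ 2 = w ^ 2 := by rw [mul_pow, mul_pow, sq1, sq2, one_mul, one_mul]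
    have e5 : (s1 * x + s2 * z + s1 * s2 * w + d) ^ 2 ≤
        4 * ((s1 * x) ^ 2 + (s2 * z) ^ 2 + (s1 * s2 * w) ^ 2 + d ^ 2) := by
      nlinarith [sq_nonneg (s1 * x - s2 * z), sq_nonneg (s1 * x - s1 * s2 * w), sq_nonneg (s1 * x - d),
        sq_nonneg (s2 * z - s1 * s2 * w), sq_nonneg (s2 * z - d), sq_nonneg (s1 * s2 * w - d)]
    rw [e2, e3, e4] at e5
    linarith
  refine (sum_le_sum fun M _ => hpt M).trans ?_
  rw [← mul_sum, sum_add_distrib, sum_add_distrib, sum_add_distrib, sum_const, nsmul_eq_mul]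
  -- the error is small
  have hsmall : 256 * (X : ℝ) ≤ e * ((G1 * G2) ^ 2 / X) := by
    have hLk : 0 < Real.log X ^ k := by positivity
    have p0 : 0 ≤ c * (X / Real.log X ^ k) := by positivity
    have hg : c ^ 4 * (X ^ 4 / Real.log X ^ (4 * k)) ≤ (G1 * G2) ^ 2 := by
      have e1 : c ^ 4 * (X ^ 4 / Real.log X ^ (4 * k)) =
          ((c * (X / Real.log X ^ k)) * (c * (X / Real.log X ^ k))) ^ 2 := by
        rw [mul_comm 4 k, pow_mul]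
        field_simp
      rw [e1]
      apply pow_le_pow_left₀ (by positivity)
      exact mul_le_mul g1 g2 p0 (p0.trans g1)
    have hs0 : 0 ≤ √(X : ℝ) := Real.sqrt_nonneg _
    have hss : √(X : ℝ) * √(X : ℝ) = X := Real.mul_self_sqrt (by linarith)
    have hs1' : 1 ≤ √(X : ℝ) := by
      rw [show (1 : ℝ) = √1 by simp]
      exact Real.sqrt_le_sqrt hXr
    have h6 : 256 / (e * c ^ 4) * Real.log X ^ (4 * k) ≤ X := by
      refine le_trans hlog ?_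
      nlinarith
    have hL4 : 0 < Real.log X ^ (4 * k) := by positivity
    have h7 : 256 * Real.log X ^ (4 * k) ≤ e * c ^ 4 * X := by
      rw [div_mul_eq_mul_div, div_le_iff₀ (by positivity)] at h6
      linarith
    have h8 : 256 * (X : ℝ) ≤ e * (c ^ 4 * (X ^ 4 / Real.log X ^ (4 * k)) / X) := by
      have e2 : e * (c ^ 4 * (X ^ 4 / Real.log X ^ (4 * k)) / X) = e * c ^ 4 * X * (X * X) / Real.log X ^ (4 * k) := by
        field_simp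
      rw [e2, le_div_iff₀ hL4]
      have h9 : 256 * (X : ℝ) * Real.log X ^ (4 * k) = (256 * Real.log X ^ (4 * k)) * X := by ring
      rw [h9]
      have h10 : (256 * Real.log X ^ (4 * k)) * X ≤ (e * c ^ 4 * X) * X := mul_le_mul_of_nonneg_right h7 (by linarith)
      have h11 : (e * c ^ 4 * X) * X ≤ e * c ^ 4 * X * (X * X) := by
        apply mul_le_mul_of_nonneg_left _ (by positivity)
        nlinarith
      linarith
    refine h8.trans ?_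
    apply mul_le_mul_of_nonneg_left _ he0.le
    exact div_le_div_of_nonneg_right hg (by linarith)
  have hGG : 0 ≤ (G1 * G2) ^ 2 / X := by positivity
  obtain ⟨Y, hY⟩ : ∃ Y : ℝ, Y = e * ((G1 * G2) ^ 2 / X) := ⟨_, rfl⟩
  have hY0 : 0 ≤ Y := by rw [hY]; positivity
  have hE2 : E ≤ A * Y := by
    rw [hE, hY]
    have : (A : ℝ) * (1 / 2 : ℝ) ^ (K / A) ≤ A * e := mul_le_mul_of_nonneg_left hee (Nat.cast_nonneg _)
    have := mul_le_mul_of_nonneg_right this hGG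
    linarith
  rw [← he]
  have hA1 : (1 : ℝ) ≤ A := by exact_mod_cast hA
  have hK30 : (0 : ℝ) ≤ K3 := Nat.cast_nonneg _
  have hfin : ((13 * A + K3 : ℕ) : ℝ) * e * ((G1 * G2) ^ 2 / X) = (13 * A + K3) * Y := by
    rw [hY]
    push_cast
    ring
  rw [hfin]
  rw [← hY] at hsmall
  have hU16 : 4 * ((U.card : ℝ) * 16) ≤ Y := by
    refine le_trans ?_ hsmall
    linarith
  have h10 : 12 * (A * Y) + Y ≤ (13 * A + K3) * Y := by nlinarith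
  linarith

end Pool.Agent.H530.Hz
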