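import Pool.Agent.H530.HzV

/-! The final forms: patterns of the Liouville function at linear forms. -/

set_option autoImplicit false

namespace Pool.Agent.H530.Hz

open Finset Pool.Agent.H530.Ha
open Pool.Agent.H373R2.T7 hiding RQ

open Classical in
lemma pat2L_card (R : Finset (ℕ × ℕ)) (l1 l2 : ℕ → ℤ) (s1 s2 : ℝ) :
    pat2L R l1 l2 s1 s2 = ((R.filter (fun t => lz (l1 t.1) = s1 ∧ lz (l2 t.2) = s2)).card : ℝ) := by
  unfold pat2L ind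
  rw [card_eq_sum_ones, Nat.cast_sum, sum_filter]
  apply sum_congr rfl
  intro t _
  by_cases h1 : lz (l1 t.1) = s1 <;> by_cases h2 : lz (l2 t.2) = s2 <;> simp [h1, h2]

open Classical in
lemma pat3L_card (R : Finset (ℕ × (ℕ × ℕ))) (l1 l2 l3 : ℕ → ℤ) (s1 s2 s3 : ℝ) :
    pat3L R l1 l2 l3 s1 s2 s3 = ((R.filter (fun t => lz (l1 t.1) = s1 ∧ lz (l2 t.2.1) = s2 ∧
      lz (l3 t.2.2) = s3)).card : ℝ) := by
  unfold pat3L ind
  rw [card_eq_sum_ones, Nat.cast_sum, sum_filter]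
  apply sum_congr rfl
  intro t _
  by_cases h1 : lz (l1 t.1) = s1 <;> by_cases h2 : lz (l2 t.2.1) = s2 <;>
    by_cases h3 : lz (l3 t.2.2) = s3 <;> simp [h1, h2, h3]

/-- **Vinogradov's theorem with prescribed parities** -/
theorem F3L (k : ℕ) (hk : 1 ≤ k) (a0 : ℕ) : ∃ c : ℝ, 0 < c ∧ ∃ A : ℕ, 1 ≤ A ∧ ∀ K : ℕ, A ≤ K → ∀ B' : ℕ, ∃ X0 y0 : ℕ,
    ∀ Q1 Q2 Q3 : ℕ → ℕ → Prop, Sv k Q1 → Sv k Q2 → Sv k Q3 → ∀ N y : ℕ, X0 ≤ N → y0 ≤ y → y ^ K ≤ N →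
      Loc3 k Q1 Q2 Q3 N →
      c * (((RQ Q1 N y).card : ℝ) * (RQ Q2 N y).card * (RQ Q3 N y).card / N) ≤
        (rep3 (RQ Q1 N y) (RQ Q2 N y) (RQ Q3 N y) 1 1 1 N).card ∧
      ∀ l1 l2 l3 : ℕ → ℤ, Ll N B' a0 l1 → Ll N B' a0 l2 → Ll N B' a0 l3 → ∀ s1 s2 s3 : ℝ, (s1 = 1 ∨ s1 = -1) → (s2 = 1 ∨ s2 = -1) →
        (s3 = 1 ∨ s3 = -1) →
        |8 * pat3L (rep3 (RQ Q1 N y) (RQ Q2 N y) (RQ Q3 N y) 1 1 1 N) l1 l2 l3 s1 s2 s3 -
          (rep3 (RQ Q1 N y) (RQ Q2 N y) (RQ Q3 N y) 1 1 1 N).card| ≤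
          (1 / 2 : ℝ) ^ (K / A) * (rep3 (RQ Q1 N y) (RQ Q2 N y) (RQ Q3 N y) 1 1 1 N).card := by
  obtain ⟨A0, hA0, H0⟩ := pat3_lin k hk a0
  obtain ⟨c0, hc0, K1, hK1, X1, y1, H1⟩ := sum3_low k hk
  obtain ⟨K2, hK2, X2, y2, H2⟩ := cnt2 k hk
  obtain ⟨A, hAL, hA0A, hA⟩ := absorb A0 1 (K1 + K2 + 1) hA0 (A0 / (c0 / 8)) (by
    have : (0 : ℝ) < A0 := by exact_mod_cast hA0
    positivity)
  refine ⟨c0 / 8, by positivity, A, by omega, fun K hK B' => ?_⟩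
  obtain ⟨X0, y0, H0⟩ := H0 K (by omega) B'
  refine ⟨X0 + X1 + X2 + 1, y0 + y1 + y2 + 1, ?_⟩
  intro Q1 Q2 Q3 hQ1 hQ2 hQ3 N y hN hy hyN hloc
  have hNr : (1 : ℝ) ≤ N := by exact_mod_cast (by omega : 1 ≤ N)
  have hy1 : 1 ≤ y := by omega
  have u1 := H1 Q1 Q2 Q3 hQ1 hQ2 hQ3 N N y (by omega) le_rfl (by omega)
    ((Nat.pow_le_pow_right hy1 (by omega)).trans hyN) hloc
  have m1 := (H2 Q1 hQ1 N y (by omega) (by omega) ((Nat.pow_le_pow_right hy1 (by omega)).trans hyN)).2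
  have m2 := (H2 Q2 hQ2 N y (by omega) (by omega) ((Nat.pow_le_pow_right hy1 (by omega)).trans hyN)).2
  have m3 := (H2 Q3 hQ3 N y (by omega) (by omega) ((Nat.pow_le_pow_right hy1 (by omega)).trans hyN)).2
  have u2 := three_le (by linarith) m1 m2 m3 (Nat.cast_nonneg _) (Nat.cast_nonneg _) (Nat.cast_nonneg _) hc0 u1
  refine ⟨u2, ?_⟩
  intro l1 l2 l3 hb1 hb2 hb3 s1 s2 s3 hs1 hs2 hs3
  have u3 := H0 Q1 Q2 Q3 hQ1 hQ2 hQ3 N y (by omega) (by omega) hyN 1 1 1 one_ne_zero one_ne_zero one_ne_zero N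
    l1 l2 l3 hb1 hb2 hb3 s1 s2 s3 hs1 hs2 hs3
  refine u3.trans ?_
  have h1 := hA K hK
  rw [pow_one] at h1
  have hw0 : (0 : ℝ) < (1 / 2 : ℝ) ^ (K / A) := by positivity
  have h2 : (A0 : ℝ) * (1 / 2 : ℝ) ^ (K / A0) ≤ (1 / 2 : ℝ) ^ (K / A) * (c0 / 8) := by
    have e : (A0 : ℝ) / (c0 / 8) * (1 / 2 : ℝ) ^ (K / A0) * (c0 / 8) = A0 * (1 / 2 : ℝ) ^ (K / A0) := by
      field_simp
    rw [← e]
    exact mul_le_mul_of_nonneg_right h1 (by positivity)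
  calc _ ≤ ((1 / 2 : ℝ) ^ (K / A) * (c0 / 8)) *
        (((RQ Q1 N y).card : ℝ) * (RQ Q2 N y).card * (RQ Q3 N y).card / N) :=
        mul_le_mul_of_nonneg_right h2 (by positivity)
    _ = (1 / 2 : ℝ) ^ (K / A) * (c0 / 8 * (((RQ Q1 N y).card : ℝ) * (RQ Q2 N y).card * (RQ Q3 N y).card / N)) := by ring
    _ ≤ _ := mul_le_mul_of_nonneg_left u2 hw0.le

/-- **progressions of three terms with prescribed parities** -/
theorem F3apL (k : ℕ) (hk : 1 ≤ k) (a0 : ℕ) : ∃ c : ℝ, 0 < c ∧ ∃ A : ℕ, 1 ≤ A ∧ ∀ K : ℕ, A ≤ K → ∀ B' : ℕ, ∃ X0 y0 : ℕ,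
    ∀ Q1 Q2 Q3 : ℕ → ℕ → Prop, Sv k Q1 → Sv k Q2 → Sv k Q3 → ∀ X y : ℕ, X0 ≤ X → y0 ≤ y → y ^ K ≤ X →
      LocA k Q1 Q2 Q3 →
      c * (((RQ Q1 X y).card : ℝ) * (RQ Q2 X y).card * (RQ Q3 X y).card / X) ≤
        ((rep3 (RQ Q1 X y) (RQ Q2 X y) (RQ Q3 X y) 1 1 (-2) 0).filter (fun t => t.1 < t.2.2)).card ∧
      ∀ l1 l2 l3 : ℕ → ℤ, Ll X B' a0 l1 → Ll X B' a0 l2 → Ll X B' a0 l3 → ∀ s1 s2 s3 : ℝ, (s1 = 1 ∨ s1 = -1) → (s2 = 1 ∨ s2 = -1) →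
        (s3 = 1 ∨ s3 = -1) →
        |8 * pat3L (rep3 (RQ Q1 X y) (RQ Q2 X y) (RQ Q3 X y) 1 1 (-2) 0) l1 l2 l3 s1 s2 s3 -
          (rep3 (RQ Q1 X y) (RQ Q2 X y) (RQ Q3 X y) 1 1 (-2) 0).card| ≤
          (1 / 2 : ℝ) ^ (K / A) * (rep3 (RQ Q1 X y) (RQ Q2 X y) (RQ Q3 X y) 1 1 (-2) 0).card := by
  obtain ⟨A0, hA0, H0⟩ := pat3_lin k hk a0
  obtain ⟨c0, hc0, K1, hK1, X1, y1, H1⟩ := ap3_low k hk
  obtain ⟨K2, hK2, X2, y2, H2⟩ := cnt2 k hk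
  obtain ⟨A, hAL, hA0A, hA⟩ := absorb A0 1 (K1 + K2 + 1) hA0 (A0 / (c0 / 8)) (by
    have : (0 : ℝ) < A0 := by exact_mod_cast hA0
    positivity)
  refine ⟨c0 / 8, by positivity, A, by omega, fun K hK B' => ?_⟩
  obtain ⟨X0, y0, H0⟩ := H0 K (by omega) B'
  refine ⟨X0 + X1 + X2 + 1, y0 + y1 + y2 + 1, ?_⟩
  intro Q1 Q2 Q3 hQ1 hQ2 hQ3 N y hN hy hyN hloc
  have hNr : (1 : ℝ) ≤ N := by exact_mod_cast (by omega : 1 ≤ N)
  have hy1 : 1 ≤ y := by omega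
  have u1 := H1 Q1 Q2 Q3 hQ1 hQ2 hQ3 N y (by omega) (by omega)
    ((Nat.pow_le_pow_right hy1 (by omega)).trans hyN) hloc
  have m1 := (H2 Q1 hQ1 N y (by omega) (by omega) ((Nat.pow_le_pow_right hy1 (by omega)).trans hyN)).2
  have m2 := (H2 Q2 hQ2 N y (by omega) (by omega) ((Nat.pow_le_pow_right hy1 (by omega)).trans hyN)).2
  have m3 := (H2 Q3 hQ3 N y (by omega) (by omega) ((Nat.pow_le_pow_right hy1 (by omega)).trans hyN)).2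
  have u2 := three_le (by linarith) m1 m2 m3 (Nat.cast_nonneg _) (Nat.cast_nonneg _) (Nat.cast_nonneg _) hc0 u1
  refine ⟨u2, ?_⟩
  have u2' : c0 / 8 * (((RQ Q1 N y).card : ℝ) * (RQ Q2 N y).card * (RQ Q3 N y).card / N) ≤
      (rep3 (RQ Q1 N y) (RQ Q2 N y) (RQ Q3 N y) 1 1 (-2) 0).card := by
    refine u2.trans ?_
    exact_mod_cast card_filter_le _ _
  intro l1 l2 l3 hb1 hb2 hb3 s1 s2 s3 hs1 hs2 hs3
  have u3 := H0 Q1 Q2 Q3 hQ1 hQ2 hQ3 N y (by omega) (by omega) hyN 1 1 (-2) one_ne_zero one_ne_zero (by norm_num) 0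
    l1 l2 l3 hb1 hb2 hb3 s1 s2 s3 hs1 hs2 hs3
  refine u3.trans ?_
  have h1 := hA K hK
  rw [pow_one] at h1
  have hw0 : (0 : ℝ) < (1 / 2 : ℝ) ^ (K / A) := by positivity
  have h2 : (A0 : ℝ) * (1 / 2 : ℝ) ^ (K / A0) ≤ (1 / 2 : ℝ) ^ (K / A) * (c0 / 8) := by
    have e : (A0 : ℝ) / (c0 / 8) * (1 / 2 : ℝ) ^ (K / A0) * (c0 / 8) = A0 * (1 / 2 : ℝ) ^ (K / A0) := by
      field_simp
    rw [← e]
    exact mul_le_mul_of_nonneg_right h1 (by positivity)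
  calc _ ≤ ((1 / 2 : ℝ) ^ (K / A) * (c0 / 8)) *
        (((RQ Q1 N y).card : ℝ) * (RQ Q2 N y).card * (RQ Q3 N y).card / N) :=
        mul_le_mul_of_nonneg_right h2 (by positivity)
    _ = (1 / 2 : ℝ) ^ (K / A) * (c0 / 8 * (((RQ Q1 N y).card : ℝ) * (RQ Q2 N y).card * (RQ Q3 N y).card / N)) := by ring
    _ ≤ _ := mul_le_mul_of_nonneg_left u2' hw0.le

open Classical in
/-- **binary sums with prescribed parities, almost all numbers** -/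
theorem F2sL (k : ℕ) (hk : 1 ≤ k) (a0 : ℕ) : ∃ c : ℝ, 0 < c ∧ ∃ A : ℕ, 1 ≤ A ∧ ∀ K : ℕ, A ≤ K → ∀ B' : ℕ, ∃ X0 y0 : ℕ,
    ∀ Q1 Q2 : ℕ → ℕ → Prop, Sv k Q1 → Sv k Q2 → ∀ X y : ℕ, X0 ≤ X → y0 ≤ y → y ^ K ≤ X →
      (∀ N : ℕ, N ≤ X → (1 / 2 : ℝ) ^ (K / A) * X ≤ N → Loc2 k Q1 Q2 N →
        c * ((N : ℝ) / X) * (((RQ Q1 X y).card : ℝ) * (RQ Q2 X y).card / X) ≤
          (rep2 (RQ Q1 X y) (RQ Q2 X y) 1 1 N).card) ∧
      ∀ l1 l2 : ℕ → ℤ, Ll X B' a0 l1 → Ll X B' a0 l2 →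
        (((Icc 1 X).filter (fun N : ℕ => Loc2 k Q1 Q2 N ∧ ∃ s1 s2 : ℝ, (s1 = 1 ∨ s1 = -1) ∧ (s2 = 1 ∨ s2 = -1) ∧
          (1 / 2 : ℝ) ^ (K / A) * (rep2 (RQ Q1 X y) (RQ Q2 X y) 1 1 N).card <
          |4 * pat2L (rep2 (RQ Q1 X y) (RQ Q2 X y) 1 1 N) l1 l2 s1 s2 -
            (rep2 (RQ Q1 X y) (RQ Q2 X y) 1 1 N).card|)).card : ℝ) ≤ (1 / 2 : ℝ) ^ (K / A) * X := by
  obtain ⟨A0, hA0, H0⟩ := pat2_lin k hk a0
  obtain ⟨c0, hc0, K1, hK1, X1, y1, H1⟩ := sum2_low k hk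
  obtain ⟨K2, hK2, X2, y2, H2⟩ := cnt2 k hk
  obtain ⟨A, hAL, hA0A, hA⟩ := absorb A0 5 (K1 + K2 + 2) hA0 (512 * A0 / c0 ^ 2) (by
    have : (0 : ℝ) < A0 := by exact_mod_cast hA0
    positivity)
  refine ⟨c0 / 4, by positivity, A, by omega, fun K hK B' => ?_⟩
  obtain ⟨X0, y0, H0⟩ := H0 K (by omega) B'
  obtain ⟨P, hP⟩ : ∃ P, P = 2 ^ (K + 1) := ⟨_, rfl⟩
  obtain ⟨Z, hZ⟩ : ∃ Z, Z = P * X1 := ⟨_, rfl⟩
  refine ⟨X0 + Z + X2 + 1, y0 + y1 + y2 + P + 1, ?_⟩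
  intro Q1 Q2 hQ1 hQ2 X y hX hy hyX
  obtain ⟨δ, hδ⟩ : ∃ δ : ℝ, δ = (1 / 2 : ℝ) ^ (K / A) := ⟨_, rfl⟩
  have hδ0 : 0 < δ := by rw [hδ]; positivity
  have hδ1 : δ ≤ 1 := by rw [hδ]; exact pow_le_one₀ (by norm_num) (by norm_num)
  have hXr : (1 : ℝ) ≤ X := by exact_mod_cast (by omega : 1 ≤ X)
  have hX0 : (0 : ℝ) < X := by linarith
  have hy1 : 1 ≤ y := by omega
  have m1 := H2 Q1 hQ1 X y (by omega) (by omega) ((Nat.pow_le_pow_right hy1 (by omega)).trans hyX)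
  have m2 := H2 Q2 hQ2 X y (by omega) (by omega) ((Nat.pow_le_pow_right hy1 (by omega)).trans hyX)
  have hV1 := VQ_nonneg hQ1 y
  have hV2 := VQ_nonneg hQ2 y
  obtain ⟨G1, hG1⟩ : ∃ G : ℝ, G = ((RQ Q1 X y).card : ℝ) := ⟨_, rfl⟩
  obtain ⟨G2, hG2⟩ : ∃ G : ℝ, G = ((RQ Q2 X y).card : ℝ) := ⟨_, rfl⟩
  have hH0 := H0 Q1 Q2 hQ1 hQ2 X y (by omega) (by omega) hyX 1 1 one_ne_zero one_ne_zero
  rw [← hG1] at m1 hH0 ⊢
  rw [← hG2] at m2 hH0 ⊢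
  rw [← hδ]
  have p1 : 0 < G1 := lt_of_lt_of_le (by positivity) m1.1
  have p2 : 0 < G2 := lt_of_lt_of_le (by positivity) m2.1
  have hg : 0 < G1 * G2 / X := by positivity
  have hrl : ∀ N : ℕ, N ≤ X → δ / 2 * X ≤ N → Loc2 k Q1 Q2 N →
      c0 / 4 * ((N : ℝ) / X) * (G1 * G2 / X) ≤ (rep2 (RQ Q1 X y) (RQ Q2 X y) 1 1 N).card := by
    intro N hNX hN hloc
    rw [hδ] at hN
    obtain ⟨q1, q2⟩ := sizes hN (X1 := X1) (K1 := K1) (by rw [← hP, ← hZ]; omega) (by rw [← hP]; omega) (by omega) hyX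
    have h1 := H1 Q1 Q2 hQ1 hQ2 N X y q1 hNX (by omega) q2 hloc
    exact two_le' hX0 (Nat.cast_nonneg _) m1.2 m2.2 p1.le p2.le hc0 h1
  refine ⟨?_, ?_⟩
  · intro N hNX hN hloc
    apply hrl N hNX _ hloc
    have : δ / 2 * X ≤ δ * X := by nlinarith
    linarith
  · intro l1 l2 hb1 hb2
    obtain ⟨g, hg'⟩ : ∃ g, g = G1 * G2 / X := ⟨_, rfl⟩
    rw [← hg'] at hg hrl
    obtain ⟨E, hE⟩ : ∃ E, E = (Icc 1 X).filter (fun N : ℕ => Loc2 k Q1 Q2 N ∧ ∃ s1 s2 : ℝ, (s1 = 1 ∨ s1 = -1) ∧ (s2 = 1 ∨ s2 = -1) ∧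
          δ * (rep2 (RQ Q1 X y) (RQ Q2 X y) 1 1 N).card <
          |4 * pat2L (rep2 (RQ Q1 X y) (RQ Q2 X y) 1 1 N) l1 l2 s1 s2 -
            (rep2 (RQ Q1 X y) (RQ Q2 X y) 1 1 N).card|) := ⟨_, rfl⟩
    rw [← hE]
    have hsplit := card_filter_add_card_filter_not (s := E) (fun N : ℕ => (N : ℝ) < δ / 2 * X)
    have hsmall : ((E.filter (fun N : ℕ => (N : ℝ) < δ / 2 * X)).card : ℝ) ≤ δ / 2 * X := by
      have h1 : E.filter (fun N : ℕ => (N : ℝ) < δ / 2 * X) ⊆ Icc 1 ⌊δ / 2 * X⌋₊ := by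
        intro N hN
        rw [mem_filter, hE, mem_filter, mem_Icc] at hN
        rw [mem_Icc]
        exact ⟨hN.1.1.1, Nat.le_floor hN.2.le⟩
      have h2 := card_le_card h1
      rw [Nat.card_Icc, Nat.add_sub_cancel] at h2
      have h3 : ((E.filter (fun N : ℕ => (N : ℝ) < δ / 2 * X)).card : ℝ) ≤ (⌊δ / 2 * X⌋₊ : ℝ) := by exact_mod_cast h2
      exact h3.trans (Nat.floor_le (by positivity))
    obtain ⟨E', hE'⟩ : ∃ E', E' = E.filter (fun N : ℕ => ¬ (N : ℝ) < δ / 2 * X) := ⟨_, rfl⟩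
    rw [← hE'] at hsplit
    have hlarge : (E'.card : ℝ) ≤ δ / 2 * X := by
      apply exc_count (ε0 := A0 * (1 / 2 : ℝ) ^ (K / A0)) (g := g) hX0 hg hc0 hδ0
      · have hcardU : ((((Icc 1 X).image (fun n : ℕ => (n : ℤ)))).card : ℝ) ≤ 4 * X := by
          have h1 : ((Icc 1 X).image (fun n : ℕ => (n : ℤ))).card ≤ X := by
            refine card_image_le.trans ?_
            rw [Nat.card_Icc]
            omega
          have h2 : ((((Icc 1 X).image (fun n : ℕ => (n : ℤ)))).card : ℝ) ≤ X := by exact_mod_cast h1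
          linarith
        have h1 := exc (fun M s1 s2 => 4 * pat2L (rep2 (RQ Q1 X y) (RQ Q2 X y) 1 1 M) l1 l2 s1 s2 -
            (rep2 (RQ Q1 X y) (RQ Q2 X y) 1 1 M).card) ((Icc 1 X).image (fun n : ℕ => (n : ℤ)))
            (E'.image (fun n : ℕ => (n : ℤ)))
            (by
              apply image_subset_image
              rw [hE', hE]
              exact (filter_subset _ _).trans (filter_subset _ _))
            (τ := c0 * δ ^ 2 / 8 * g) (by positivity)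
            (fun s1 s2 hs1 hs2 => hH0 l1 l2 hb1 hb2 s1 s2 hs1 hs2 _ hcardU) (by
              intro M hM
              rw [mem_image] at hM
              obtain ⟨N, hN, rfl⟩ := hM
              rw [hE', mem_filter, hE, mem_filter, mem_Icc] at hN
              obtain ⟨⟨⟨h2, h3⟩, hloc, s1, s2, hs1, hs2, h4⟩, h5⟩ := hN
              push Not at h5
              refine ⟨s1, s2, hs1, hs2, ?_⟩
              have h6 := hrl N h3 h5 hloc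
              refine le_trans ?_ h4.le
              have h7 : δ / 2 ≤ (N : ℝ) / X := by
                rw [le_div_iff₀ hX0]
                exact h5
              have h8 : c0 / 4 * (δ / 2) * g ≤ c0 / 4 * ((N : ℝ) / X) * g := by
                apply mul_le_mul_of_nonneg_right _ hg.le
                exact mul_le_mul_of_nonneg_left h7 (by positivity)
              have h9 : δ * (c0 / 4 * (δ / 2) * g) ≤ δ * ((rep2 (RQ Q1 X y) (RQ Q2 X y) 1 1 N).card : ℝ) :=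
                mul_le_mul_of_nonneg_left (h8.trans h6) hδ0.le
              have h10 : c0 * δ ^ 2 / 8 * g = δ * (c0 / 4 * (δ / 2) * g) := by ring
              rw [h10]
              exact h9)
        rw [card_image_of_injective _ Nat.cast_injective] at h1
        refine h1.trans (le_of_eq ?_)
        rw [hg']
        field_simp
      · have h1 := hA K hK
        rw [← hδ] at h1
        refine le_trans (le_of_eq ?_) h1
        ring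
    have h1 : (E.card : ℝ) = ((E.filter (fun N : ℕ => (N : ℝ) < δ / 2 * X)).card : ℝ) + E'.card := by
      exact_mod_cast hsplit.symm
    rw [h1]
    linarith

open Classical in
/-- **differences with prescribed parities, almost all numbers** -/
theorem F2dL (k : ℕ) (hk : 1 ≤ k) (a0 : ℕ) : ∃ c : ℝ, 0 < c ∧ ∃ A : ℕ, 1 ≤ A ∧ ∀ K : ℕ, A ≤ K → ∀ B' : ℕ, ∃ X0 y0 : ℕ,
    ∀ Q1 Q2 : ℕ → ℕ → Prop, Sv k Q1 → Sv k Q2 → ∀ X y : ℕ, X0 ≤ X → y0 ≤ y → y ^ K ≤ X →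
      (∀ N : ℕ, N ≤ X → (1 / 2 : ℝ) ^ (K / A) * X ≤ (X - N : ℕ) → LocD k Q1 Q2 N →
        c * (((X - N : ℕ) : ℝ) / X) * (((RQ Q1 X y).card : ℝ) * (RQ Q2 X y).card / X) ≤
          (rep2 (RQ Q1 X y) (RQ Q2 X y) (-1) 1 N).card) ∧
      ∀ l1 l2 : ℕ → ℤ, Ll X B' a0 l1 → Ll X B' a0 l2 →
        (((range X).filter (fun N : ℕ => LocD k Q1 Q2 N ∧ ∃ s1 s2 : ℝ, (s1 = 1 ∨ s1 = -1) ∧ (s2 = 1 ∨ s2 = -1) ∧
          (1 / 2 : ℝ) ^ (K / A) * (rep2 (RQ Q1 X y) (RQ Q2 X y) (-1) 1 N).card <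
          |4 * pat2L (rep2 (RQ Q1 X y) (RQ Q2 X y) (-1) 1 N) l1 l2 s1 s2 -
            (rep2 (RQ Q1 X y) (RQ Q2 X y) (-1) 1 N).card|)).card : ℝ) ≤ (1 / 2 : ℝ) ^ (K / A) * X := by
  obtain ⟨A0, hA0, H0⟩ := pat2_lin k hk a0
  obtain ⟨c0, hc0, K1, hK1, X1, y1, H1⟩ := dif2_low k hk
  obtain ⟨K2, hK2, X2, y2, H2⟩ := cnt2 k hk
  obtain ⟨A, hAL, hA0A, hA⟩ := absorb A0 5 (K1 + K2 + 2) hA0 (512 * A0 / c0 ^ 2) (by
    have : (0 : ℝ) < A0 := by exact_mod_cast hA0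
    positivity)
  refine ⟨c0 / 4, by positivity, A, by omega, fun K hK B' => ?_⟩
  obtain ⟨X0, y0, H0⟩ := H0 K (by omega) B'
  obtain ⟨P, hP⟩ : ∃ P, P = 2 ^ (K + 1) := ⟨_, rfl⟩
  obtain ⟨Z, hZ⟩ : ∃ Z, Z = P * X1 := ⟨_, rfl⟩
  refine ⟨X0 + Z + X2 + 1, y0 + y1 + y2 + P + 1, ?_⟩
  intro Q1 Q2 hQ1 hQ2 X y hX hy hyX
  obtain ⟨δ, hδ⟩ : ∃ δ : ℝ, δ = (1 / 2 : ℝ) ^ (K / A) := ⟨_, rfl⟩
  have hδ0 : 0 < δ := by rw [hδ]; positivity
  have hδ1 : δ ≤ 1 := by rw [hδ]; exact pow_le_one₀ (by norm_num) (by norm_num)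
  have hXr : (1 : ℝ) ≤ X := by exact_mod_cast (by omega : 1 ≤ X)
  have hX0 : (0 : ℝ) < X := by linarith
  have hy1 : 1 ≤ y := by omega
  have m1 := H2 Q1 hQ1 X y (by omega) (by omega) ((Nat.pow_le_pow_right hy1 (by omega)).trans hyX)
  have m2 := H2 Q2 hQ2 X y (by omega) (by omega) ((Nat.pow_le_pow_right hy1 (by omega)).trans hyX)
  have hV1 := VQ_nonneg hQ1 y
  have hV2 := VQ_nonneg hQ2 y
  obtain ⟨G1, hG1⟩ : ∃ G : ℝ, G = ((RQ Q1 X y).card : ℝ) := ⟨_, rfl⟩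
  obtain ⟨G2, hG2⟩ : ∃ G : ℝ, G = ((RQ Q2 X y).card : ℝ) := ⟨_, rfl⟩
  have hH0 := H0 Q1 Q2 hQ1 hQ2 X y (by omega) (by omega) hyX (-1) 1 (by norm_num) one_ne_zero
  rw [← hG1] at m1 hH0 ⊢
  rw [← hG2] at m2 hH0 ⊢
  rw [← hδ]
  have p1 : 0 < G1 := lt_of_lt_of_le (by positivity) m1.1
  have p2 : 0 < G2 := lt_of_lt_of_le (by positivity) m2.1
  have hg : 0 < G1 * G2 / X := by positivity
  have hrl : ∀ N : ℕ, N ≤ X → δ / 2 * X ≤ (X - N : ℕ) → LocD k Q1 Q2 N →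
      c0 / 4 * (((X - N : ℕ) : ℝ) / X) * (G1 * G2 / X) ≤ (rep2 (RQ Q1 X y) (RQ Q2 X y) (-1) 1 N).card := by
    intro N hNX hN hloc
    rw [hδ] at hN
    obtain ⟨q1, q2⟩ := sizes hN (X1 := X1) (K1 := K1) (by rw [← hP, ← hZ]; omega) (by rw [← hP]; omega) (by omega) hyX
    have h1 := H1 Q1 Q2 hQ1 hQ2 N X y hNX q1 (by omega) q2 hloc
    exact two_le' hX0 (Nat.cast_nonneg _) m1.2 m2.2 p1.le p2.le hc0 h1
  refine ⟨?_, ?_⟩
  · intro N hNX hN hloc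
    apply hrl N hNX _ hloc
    have : δ / 2 * X ≤ δ * X := by nlinarith
    linarith
  · intro l1 l2 hb1 hb2
    obtain ⟨g, hg'⟩ : ∃ g, g = G1 * G2 / X := ⟨_, rfl⟩
    rw [← hg'] at hg hrl
    obtain ⟨E, hE⟩ : ∃ E, E = (range X).filter (fun N : ℕ => LocD k Q1 Q2 N ∧ ∃ s1 s2 : ℝ, (s1 = 1 ∨ s1 = -1) ∧ (s2 = 1 ∨ s2 = -1) ∧
          δ * (rep2 (RQ Q1 X y) (RQ Q2 X y) (-1) 1 N).card <
          |4 * pat2L (rep2 (RQ Q1 X y) (RQ Q2 X y) (-1) 1 N) l1 l2 s1 s2 -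
            (rep2 (RQ Q1 X y) (RQ Q2 X y) (-1) 1 N).card|) := ⟨_, rfl⟩
    rw [← hE]
    have hsplit := card_filter_add_card_filter_not (s := E) (fun N : ℕ => ((X - N : ℕ) : ℝ) < δ / 2 * X)
    have hsmall : ((E.filter (fun N : ℕ => ((X - N : ℕ) : ℝ) < δ / 2 * X)).card : ℝ) ≤ δ / 2 * X := by
      have h2 : (E.filter (fun N : ℕ => ((X - N : ℕ) : ℝ) < δ / 2 * X)).card ≤ (Icc 1 ⌊δ / 2 * X⌋₊).card := by
        apply card_le_card_of_injOn (fun N => X - N)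
        · intro N hN
          rw [mem_coe, mem_filter, hE, mem_filter, mem_range] at hN
          rw [mem_coe, mem_Icc]
          exact ⟨by have := hN.1.1; show 1 ≤ X - N; omega, Nat.le_floor hN.2.le⟩
        · intro N hN M hM h
          rw [mem_coe, mem_filter, hE, mem_filter, mem_range] at hN hM
          have h1 := hN.1.1
          have h2 := hM.1.1
          simp only at h
          omega
      rw [Nat.card_Icc, Nat.add_sub_cancel] at h2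
      have h3 : ((E.filter (fun N : ℕ => ((X - N : ℕ) : ℝ) < δ / 2 * X)).card : ℝ) ≤ (⌊δ / 2 * X⌋₊ : ℝ) := by exact_mod_cast h2
      exact h3.trans (Nat.floor_le (by positivity))
    obtain ⟨E', hE'⟩ : ∃ E', E' = E.filter (fun N : ℕ => ¬ ((X - N : ℕ) : ℝ) < δ / 2 * X) := ⟨_, rfl⟩
    rw [← hE'] at hsplit
    have hlarge : (E'.card : ℝ) ≤ δ / 2 * X := by
      apply exc_count (ε0 := A0 * (1 / 2 : ℝ) ^ (K / A0)) (g := g) hX0 hg hc0 hδ0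
      · have hcardU : ((((range X).image (fun n : ℕ => (n : ℤ)))).card : ℝ) ≤ 4 * X := by
          have h1 : ((range X).image (fun n : ℕ => (n : ℤ))).card ≤ X := by
            refine card_image_le.trans ?_
            rw [card_range]
          have h2 : ((((range X).image (fun n : ℕ => (n : ℤ)))).card : ℝ) ≤ X := by exact_mod_cast h1
          linarith
        have h1 := exc (fun M s1 s2 => 4 * pat2L (rep2 (RQ Q1 X y) (RQ Q2 X y) (-1) 1 M) l1 l2 s1 s2 -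
            (rep2 (RQ Q1 X y) (RQ Q2 X y) (-1) 1 M).card) ((range X).image (fun n : ℕ => (n : ℤ)))
            (E'.image (fun n : ℕ => (n : ℤ)))
            (by
              apply image_subset_image
              rw [hE', hE]
              exact (filter_subset _ _).trans (filter_subset _ _))
            (τ := c0 * δ ^ 2 / 8 * g) (by positivity)
            (fun s1 s2 hs1 hs2 => hH0 l1 l2 hb1 hb2 s1 s2 hs1 hs2 _ hcardU) (by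
              intro M hM
              rw [mem_image] at hM
              obtain ⟨N, hN, rfl⟩ := hM
              rw [hE', mem_filter, hE, mem_filter, mem_range] at hN
              obtain ⟨⟨h3, hloc, s1, s2, hs1, hs2, h4⟩, h5⟩ := hN
              push Not at h5
              refine ⟨s1, s2, hs1, hs2, ?_⟩
              have h6 := hrl N h3.le h5 hloc
              refine le_trans ?_ h4.le
              have h7 : δ / 2 ≤ ((X - N : ℕ) : ℝ) / X := by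
                rw [le_div_iff₀ hX0]
                exact h5
              have h8 : c0 / 4 * (δ / 2) * g ≤ c0 / 4 * (((X - N : ℕ) : ℝ) / X) * g := by
                apply mul_le_mul_of_nonneg_right _ hg.le
                exact mul_le_mul_of_nonneg_left h7 (by positivity)
              have h9 : δ * (c0 / 4 * (δ / 2) * g) ≤ δ * ((rep2 (RQ Q1 X y) (RQ Q2 X y) (-1) 1 N).card : ℝ) :=
                mul_le_mul_of_nonneg_left (h8.trans h6) hδ0.le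
              have h10 : c0 * δ ^ 2 / 8 * g = δ * (c0 / 4 * (δ / 2) * g) := by ring
              rw [h10]
              exact h9)
        rw [card_image_of_injective _ Nat.cast_injective] at h1
        refine h1.trans (le_of_eq ?_)
        rw [hg']
        field_simp
      · have h1 := hA K hK
        rw [← hδ] at h1
        refine le_trans (le_of_eq ?_) h1
        ring
    have h1 : (E.card : ℝ) = ((E.filter (fun N : ℕ => ((X - N : ℕ) : ℝ) < δ / 2 * X)).card : ℝ) + E'.card := by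
      exact_mod_cast hsplit.symm
    rw [h1]
    linarith

open Classical in
/-- two arbitrary subsets -/
theorem F3subL (k : ℕ) (hk : 1 ≤ k) (a0 L : ℕ) : ∃ A : ℕ, L ≤ A ∧ 1 ≤ A ∧ ∀ K : ℕ, A ≤ K → ∀ B' : ℕ, ∃ X0 y0 : ℕ,
    ∀ Q1 Q2 Q3 : ℕ → ℕ → Prop, Sv k Q1 → Sv k Q2 → Sv k Q3 → ∀ X y : ℕ, X0 ≤ X → y0 ≤ y → y ^ K ≤ X →
      ∀ a1 a2 a3 : ℤ, a1 ≠ 0 → a2 ≠ 0 → a3 ≠ 0 → ∀ N : ℤ,
      ∀ l : ℕ → ℤ, Ll X B' a0 l → ∀ S1 S2 : Finset ℕ,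
      |∑ t ∈ (rep3 (RQ Q1 X y) (RQ Q2 X y) (RQ Q3 X y) a1 a2 a3 N).filter (fun t => t.1 ∈ S1 ∧ t.2.1 ∈ S2),
        lz (l t.2.2)| ≤
        (1 / 2 : ℝ) ^ (K / A) * (((RQ Q1 X y).card : ℝ) * (RQ Q2 X y).card * (RQ Q3 X y).card / X) := by
  obtain ⟨A0, hA0, H⟩ := tern_lin k hk a0
  obtain ⟨A, hAL, hA0A, hA⟩ := absorb A0 1 L hA0 A0 (by exact_mod_cast hA0)
  refine ⟨A, hAL, hA0.trans hA0A, fun K hK B' => ?_⟩
  obtain ⟨X0, y0, H⟩ := H K (hA0A.trans hK) B'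
  refine ⟨X0, y0, ?_⟩
  intro Q1 Q2 Q3 hQ1 hQ2 hQ3 X y hX hy hyX a1 a2 a3 ha1 ha2 ha3 N l hb S1 S2
  have h := H Q1 Q2 Q3 hQ1 hQ2 hQ3 X y hX hy hyX a1 a2 a3 ha1 ha2 ha3 N
    (fun n => if n ∈ S1 then 1 else 0) (fun n => if n ∈ S2 then 1 else 0) (fun n => lz (l n))
    (fun n => by split_ifs <;> simp) (fun n => by split_ifs <;> simp) (fun n => lz_abs _)
    (Or.inr (Or.inr hb.lr))
  have e : ∑ t ∈ (rep3 (RQ Q1 X y) (RQ Q2 X y) (RQ Q3 X y) a1 a2 a3 N).filter (fun t => t.1 ∈ S1 ∧ t.2.1 ∈ S2),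
        lz (l t.2.2) = ∑ t ∈ rep3 (RQ Q1 X y) (RQ Q2 X y) (RQ Q3 X y) a1 a2 a3 N,
        (if t.1 ∈ S1 then (1 : ℝ) else 0) * ((if t.2.1 ∈ S2 then (1 : ℝ) else 0) * lz (l t.2.2)) := by
    rw [sum_filter]
    apply sum_congr rfl
    intro t _
    by_cases h1 : t.1 ∈ S1 <;> by_cases h2 : t.2.1 ∈ S2 <;> simp [h1, h2]
  rw [e]
  refine h.trans ?_
  apply mul_le_mul_of_nonneg_right _ (by positivity)
  have := hA K hK
  rwa [pow_one] at this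

end Pool.Agent.H530.Hz
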