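import Mathlib

/-!
# From joint binomial moments to a pair of independent Poisson laws (helper530)
-/

set_option autoImplicit false

namespace Pool.Agent.H530.Po

open Finset

/-- truncated inversion -/
noncomputable def Tr (i I N : ℕ) : ℝ :=
  ∑ a ∈ range I, (-1 : ℝ) ^ a * (((i + a).choose i : ℝ) * (N.choose (i + a) : ℝ))

/-- the first omitted term -/
noncomputable def Er (i I N : ℕ) : ℝ := ((i + I).choose i : ℝ) * (N.choose (i + I) : ℝ)

theorem Er_nonneg (i I N : ℕ) : 0 ≤ Er i I N := by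
  unfold Er
  positivity

theorem choose_id (i a N : ℕ) :
    (i + a).choose i * N.choose (i + a) = N.choose i * (N - i).choose a := by
  rw [mul_comm, Nat.choose_mul (Nat.le_add_right i a), Nat.add_sub_cancel_left]

theorem Tr_eq (i I N : ℕ) :
    Tr i I N = (N.choose i : ℝ) * ∑ a ∈ range I, (-1 : ℝ) ^ a * ((N - i).choose a : ℝ) := by
  unfold Tr
  rw [mul_sum]
  refine sum_congr rfl fun a _ => ?_
  have h : (((i + a).choose i : ℝ) * (N.choose (i + a) : ℝ)) =
      (N.choose i : ℝ) * ((N - i).choose a : ℝ) := by exact_mod_cast choose_id i a N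
  rw [h]
  ring

theorem tr_bound (i I N : ℕ) (hI : 1 ≤ I) :
    |(if N = i then (1 : ℝ) else 0) - Tr i I N| ≤ Er i I N := by
  have hE : Er i I N = (N.choose i : ℝ) * ((N - i).choose I : ℝ) := by
    unfold Er
    exact_mod_cast choose_id i I N
  obtain ⟨I', rfl⟩ : ∃ I', I = I' + 1 := ⟨I - 1, by omega⟩
  rcases lt_trichotomy N i with h | h | h
  · rw [if_neg (by omega), Tr_eq, Nat.choose_eq_zero_of_lt h]
    simp only [Nat.cast_zero, zero_mul, sub_zero, abs_zero]
    exact Er_nonneg _ _ _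
  · subst h
    rw [if_pos rfl, Tr_eq, Nat.choose_self, Nat.sub_self, sum_range_succ']
    simp only [Nat.choose_zero_succ, Nat.cast_zero, mul_zero, sum_const_zero, pow_zero,
      Nat.choose_self, Nat.cast_one, mul_one, zero_add, sub_self, abs_zero]
    exact Er_nonneg _ _ _
  · obtain ⟨M, hM⟩ : ∃ M, N - i = M + 1 := ⟨N - i - 1, by omega⟩
    rw [if_neg (by omega), Tr_eq, hE, hM]
    have h1 := Int.alternating_sum_range_choose_eq_choose (n := M) (m := I')
    have h2 : ∑ a ∈ range (I' + 1), (-1 : ℝ) ^ a * ((M + 1).choose a : ℝ) =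
        (-1 : ℝ) ^ I' * (M.choose I' : ℝ) := by exact_mod_cast h1
    rw [h2, zero_sub, abs_neg, abs_mul, abs_mul, abs_pow, abs_neg, abs_one, one_pow, one_mul,
      Nat.abs_cast, Nat.abs_cast]
    refine mul_le_mul_of_nonneg_left ?_ (by positivity)
    rw [Nat.choose_succ_succ]
    exact_mod_cast Nat.le_add_right _ _

theorem tr2 (i j I N N' : ℕ) (hI : 1 ≤ I) :
    |(if N = i ∧ N' = j then (1 : ℝ) else 0) - Tr i I N * Tr j I N'| ≤
      Er i I N + Er j I N' + Er i I N * Er j I N' := by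
  have h1 := tr_bound i I N hI
  have h2 := tr_bound j I N' hI
  obtain ⟨a, ha⟩ : ∃ a, a = (if N = i then (1 : ℝ) else 0) := ⟨_, rfl⟩
  obtain ⟨b, hb⟩ : ∃ b, b = (if N' = j then (1 : ℝ) else 0) := ⟨_, rfl⟩
  have hab : (if N = i ∧ N' = j then (1 : ℝ) else 0) = a * b := by
    rw [ha, hb]
    by_cases h3 : N = i <;> by_cases h4 : N' = j <;> simp [h3, h4]
  have ha1 : |a| ≤ 1 := by
    rw [ha]
    split_ifs <;> norm_num
  have hb1 : |b| ≤ 1 := by
    rw [hb]
    split_ifs <;> norm_num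
  rw [← ha] at h1
  rw [← hb] at h2
  rw [hab]
  have h5 : a * b - Tr i I N * Tr j I N' =
      (a - Tr i I N) * b + a * (b - Tr j I N') - (a - Tr i I N) * (b - Tr j I N') := by ring
  have hE1 := Er_nonneg i I N
  have hE2 := Er_nonneg j I N'
  calc |a * b - Tr i I N * Tr j I N'|
      = |(a - Tr i I N) * b + a * (b - Tr j I N') - (a - Tr i I N) * (b - Tr j I N')| := by rw [h5]
    _ ≤ |(a - Tr i I N) * b + a * (b - Tr j I N')| + |(a - Tr i I N) * (b - Tr j I N')| :=
        abs_sub _ _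
    _ ≤ |(a - Tr i I N) * b| + |a * (b - Tr j I N')| + |(a - Tr i I N) * (b - Tr j I N')| :=
        add_le_add_left (abs_add_le _ _) _
    _ ≤ Er i I N * 1 + 1 * Er j I N' + Er i I N * Er j I N' := by
        rw [abs_mul, abs_mul, abs_mul]
        gcongr
    _ = _ := by ring

/-- the tail of the exponential series -/
theorem exp_tail (x : ℝ) (I : ℕ) :
    |Real.exp x - ∑ a ∈ range I, x ^ a / (a.factorial : ℝ)| ≤
      |x| ^ I / (I.factorial : ℝ) * Real.exp |x| := by
  have hs : Summable (fun a : ℕ => x ^ a / (a.factorial : ℝ)) := Real.summable_pow_div_factorial x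
  have hs' : Summable (fun a : ℕ => |x| ^ a / (a.factorial : ℝ)) :=
    Real.summable_pow_div_factorial |x|
  have he : Real.exp x = ∑' a : ℕ, x ^ a / (a.factorial : ℝ) := by
    rw [Real.exp_eq_exp_ℝ, NormedSpace.exp_eq_tsum_div]
  have he' : Real.exp |x| = ∑' a : ℕ, |x| ^ a / (a.factorial : ℝ) := by
    rw [Real.exp_eq_exp_ℝ, NormedSpace.exp_eq_tsum_div]
  have h1 := hs.sum_add_tsum_nat_add I
  rw [he, ← h1, add_sub_cancel_left, he', ← tsum_mul_left]
  have hs2 : Summable (fun a : ℕ => |x| ^ I / (I.factorial : ℝ) * (|x| ^ a / (a.factorial : ℝ))) :=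
    hs'.mul_left _
  have hle : ∀ a : ℕ, ‖x ^ (a + I) / ((a + I).factorial : ℝ)‖ ≤
      |x| ^ I / (I.factorial : ℝ) * (|x| ^ a / (a.factorial : ℝ)) := by
    intro a
    rw [Real.norm_eq_abs, abs_div, abs_pow, Nat.abs_cast, div_mul_div_comm, ← pow_add, add_comm I a]
    refine div_le_div_of_nonneg_left (by positivity) (by positivity) ?_
    have h2 := Nat.factorial_mul_factorial_dvd_factorial_add a I
    have h3 := Nat.le_of_dvd (Nat.factorial_pos _) h2
    rw [mul_comm] at h3
    exact_mod_cast h3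
  rw [← Real.norm_eq_abs]
  exact tsum_of_norm_bounded hs2.hasSum hle

/-- the joint binomial moment -/
noncomputable def Mo {α : Type} (F : Finset α) (A B : α → ℕ) (k l : ℕ) : ℝ :=
  (∑ f ∈ F, ((A f).choose k : ℝ) * ((B f).choose l : ℝ)) / F.card

theorem choose_fac (i a : ℕ) (lam : ℝ) :
    ((i + a).choose i : ℝ) * (lam ^ (i + a) / ((i + a).factorial : ℝ)) =
      lam ^ i / (i.factorial : ℝ) * (lam ^ a / (a.factorial : ℝ)) := by
  have h : ((i + a).choose i : ℝ) * ((i.factorial : ℝ) * (a.factorial : ℝ)) =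
      ((i + a).factorial : ℝ) := by
    have h1 := Nat.choose_mul_factorial_mul_factorial (Nat.le_add_right i a)
    rw [Nat.add_sub_cancel_left, mul_assoc] at h1
    exact_mod_cast h1
  have hi : (i.factorial : ℝ) ≠ 0 := by exact_mod_cast Nat.factorial_ne_zero i
  have ha : (a.factorial : ℝ) ≠ 0 := by exact_mod_cast Nat.factorial_ne_zero a
  have hia : ((i + a).factorial : ℝ) ≠ 0 := by exact_mod_cast Nat.factorial_ne_zero (i + a)
  rw [pow_add]
  field_simp
  linear_combination lam ^ i * lam ^ a * h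

/-- **From joint binomial moments to the joint law.** -/
theorem law (Lam ε : ℝ) (hLam : 0 ≤ Lam) (hε : 0 < ε) (i j : ℕ) :
    ∃ (J : ℕ) (δ : ℝ), 0 < δ ∧ ∀ (α : Type) (F : Finset α) (A B : α → ℕ) (lam : ℝ),
      F.Nonempty → 0 ≤ lam → lam ≤ Lam →
      (∀ k l : ℕ, k ≤ J → l ≤ J →
        |Mo F A B k l - lam ^ k / (k.factorial : ℝ) * (lam ^ l / (l.factorial : ℝ))| ≤ δ) →
      |((F.filter (fun f => A f = i ∧ B f = j)).card : ℝ) / F.card -
        Real.exp (-lam) * (lam ^ i / (i.factorial : ℝ)) *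
          (Real.exp (-lam) * (lam ^ j / (j.factorial : ℝ)))| ≤ ε := by
  obtain ⟨L, hL⟩ : ∃ L : ℝ, L = (max 1 Lam) ^ (i + j) := ⟨_, rfl⟩
  have hm1 : (1 : ℝ) ≤ max 1 Lam := le_max_left _ _
  have hL1 : 1 ≤ L := by rw [hL]; exact one_le_pow₀ hm1
  obtain ⟨E, hE⟩ : ∃ E : ℝ, E = Real.exp Lam := ⟨_, rfl⟩
  have hE1 : 1 ≤ E := by rw [hE]; exact Real.one_le_exp hLam
  obtain ⟨η, hη⟩ : ∃ η : ℝ, η = min 1 (ε / (2 * (L * (3 + E * (2 + E))))) := ⟨_, rfl⟩
  have hη0 : 0 < η := by rw [hη]; exact lt_min one_pos (by positivity)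
  have hη1 : η ≤ 1 := by rw [hη]; exact min_le_left _ _
  have hη2 : L * (3 + E * (2 + E)) * η ≤ ε / 2 := by
    have h1 : η ≤ ε / (2 * (L * (3 + E * (2 + E)))) := by rw [hη]; exact min_le_right _ _
    have h2 : 0 < L * (3 + E * (2 + E)) := by positivity
    calc L * (3 + E * (2 + E)) * η ≤ L * (3 + E * (2 + E)) * (ε / (2 * (L * (3 + E * (2 + E))))) :=
          mul_le_mul_of_nonneg_left h1 h2.le
      _ = ε / 2 := by field_simp
  have htend := FloorSemiring.tendsto_pow_div_factorial_atTop Lam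
  obtain ⟨I₀, hI₀⟩ := (Metric.tendsto_atTop.1 htend) η hη0
  obtain ⟨I, hII, hI1⟩ : ∃ I : ℕ, I₀ ≤ I ∧ 1 ≤ I := ⟨I₀ + 1, by omega, by omega⟩
  have htI : Lam ^ I / (I.factorial : ℝ) ≤ η := by
    have h1 := hI₀ I hII
    rw [Real.dist_eq, sub_zero, abs_of_nonneg (by positivity)] at h1
    exact h1.le
  obtain ⟨Cst, hCst⟩ : ∃ Cst : ℝ, Cst = (∑ a ∈ range I, ∑ b ∈ range I,
      ((i + a).choose i : ℝ) * ((j + b).choose j : ℝ)) + ((i + I).choose i : ℝ) +
        ((j + I).choose j : ℝ) + ((i + I).choose i : ℝ) * ((j + I).choose j : ℝ) := ⟨_, rfl⟩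
  have hCst1 : 0 < Cst := by
    rw [hCst]
    have h1 : (0 : ℝ) < ((i + I).choose i : ℝ) := by
      exact_mod_cast Nat.choose_pos (Nat.le_add_right i I)
    positivity
  refine ⟨i + j + I, ε / 2 / Cst, by positivity, fun α F A B lam hF hlam hlamL hM => ?_⟩
  have hFc : (0 : ℝ) < F.card := by exact_mod_cast hF.card_pos
  obtain ⟨δ, hδ⟩ : ∃ δ : ℝ, δ = ε / 2 / Cst := ⟨_, rfl⟩
  rw [← hδ] at hM
  have hδC : Cst * δ = ε / 2 := by rw [hδ]; field_simp
  -- notation
  obtain ⟨p, hp⟩ : ∃ p : ℕ → ℕ → ℝ, p = fun k l =>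
    lam ^ k / (k.factorial : ℝ) * (lam ^ l / (l.factorial : ℝ)) := ⟨_, rfl⟩
  have hM' : ∀ k l : ℕ, k ≤ i + j + I → l ≤ i + j + I → |Mo F A B k l - p k l| ≤ δ := by
    intro k l hk hl
    rw [hp]
    exact hM k l hk hl
  have hMle : ∀ k l : ℕ, k ≤ i + j + I → l ≤ i + j + I → Mo F A B k l ≤ p k l + δ := by
    intro k l hk hl
    have := (abs_le.1 (hM' k l hk hl)).2
    linarith
  -- step 1: the indicator against the truncations
  have s1 : |((F.filter (fun f => A f = i ∧ B f = j)).card : ℝ) / F.card -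
      (∑ f ∈ F, Tr i I (A f) * Tr j I (B f)) / F.card| ≤
      ((i + I).choose i : ℝ) * Mo F A B (i + I) 0 + ((j + I).choose j : ℝ) * Mo F A B 0 (j + I) +
        ((i + I).choose i : ℝ) * ((j + I).choose j : ℝ) * Mo F A B (i + I) (j + I) := by
    have h1 : ((F.filter (fun f => A f = i ∧ B f = j)).card : ℝ) =
        ∑ f ∈ F, (if A f = i ∧ B f = j then (1 : ℝ) else 0) := by
      rw [sum_boole]
    rw [h1, ← sub_div, ← sum_sub_distrib, abs_div, abs_of_pos hFc]
    have h2 : ((i + I).choose i : ℝ) * Mo F A B (i + I) 0 +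
        ((j + I).choose j : ℝ) * Mo F A B 0 (j + I) +
        ((i + I).choose i : ℝ) * ((j + I).choose j : ℝ) * Mo F A B (i + I) (j + I) =
        (∑ f ∈ F, (Er i I (A f) + Er j I (B f) + Er i I (A f) * Er j I (B f))) / F.card := by
      unfold Mo Er
      rw [← mul_div_assoc, ← mul_div_assoc, ← mul_div_assoc, ← add_div, ← add_div, mul_sum, mul_sum,
        mul_sum, ← sum_add_distrib, ← sum_add_distrib]
      congr 1
      refine sum_congr rfl fun f _ => ?_
      rw [Nat.choose_zero_right, Nat.choose_zero_right]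
      push_cast
      ring
    rw [h2]
    refine div_le_div_of_nonneg_right ?_ hFc.le
    exact (abs_sum_le_sum_abs _ _).trans (sum_le_sum fun f _ => tr2 i j I (A f) (B f) hI1)
  -- step 2: the truncations in terms of the moments
  have s2 : (∑ f ∈ F, Tr i I (A f) * Tr j I (B f)) / F.card =
      ∑ a ∈ range I, ∑ b ∈ range I, (-1 : ℝ) ^ a * (-1 : ℝ) ^ b *
        (((i + a).choose i : ℝ) * ((j + b).choose j : ℝ)) * Mo F A B (i + a) (j + b) := by
    have h1 : ∀ f ∈ F, Tr i I (A f) * Tr j I (B f) = ∑ a ∈ range I, ∑ b ∈ range I,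
        (-1 : ℝ) ^ a * (-1 : ℝ) ^ b * (((i + a).choose i : ℝ) * ((j + b).choose j : ℝ)) *
          (((A f).choose (i + a) : ℝ) * ((B f).choose (j + b) : ℝ)) := by
      intro f _
      unfold Tr
      rw [sum_mul_sum]
      exact sum_congr rfl fun a _ => sum_congr rfl fun b _ => by ring
    rw [sum_congr rfl h1, sum_comm, sum_div]
    refine sum_congr rfl fun a _ => ?_
    rw [sum_comm, sum_div]
    refine sum_congr rfl fun b _ => ?_
    unfold Mo
    rw [← mul_sum, mul_div_assoc]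
  -- step 3: replace the moments
  have s3 : |∑ a ∈ range I, ∑ b ∈ range I, (-1 : ℝ) ^ a * (-1 : ℝ) ^ b *
        (((i + a).choose i : ℝ) * ((j + b).choose j : ℝ)) * Mo F A B (i + a) (j + b) -
      ∑ a ∈ range I, ∑ b ∈ range I, (-1 : ℝ) ^ a * (-1 : ℝ) ^ b *
        (((i + a).choose i : ℝ) * ((j + b).choose j : ℝ)) * p (i + a) (j + b)| ≤
      (∑ a ∈ range I, ∑ b ∈ range I, ((i + a).choose i : ℝ) * ((j + b).choose j : ℝ)) * δ := by
    rw [← sum_sub_distrib, sum_mul]
    refine (abs_sum_le_sum_abs _ _).trans (sum_le_sum fun a ha => ?_)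
    rw [← sum_sub_distrib, sum_mul]
    refine (abs_sum_le_sum_abs _ _).trans (sum_le_sum fun b hb => ?_)
    rw [mem_range] at ha hb
    rw [← mul_sub, abs_mul, abs_mul, abs_mul, abs_pow, abs_pow, abs_neg, abs_one, one_pow, one_pow,
      one_mul, one_mul, abs_of_nonneg (by positivity)]
    exact mul_le_mul_of_nonneg_left (hM' _ _ (by omega) (by omega)) (by positivity)
  -- step 4: the main term
  obtain ⟨s, hs⟩ : ∃ s : ℝ, s = ∑ a ∈ range I, (-lam) ^ a / (a.factorial : ℝ) := ⟨_, rfl⟩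
  have s4 : ∑ a ∈ range I, ∑ b ∈ range I, (-1 : ℝ) ^ a * (-1 : ℝ) ^ b *
        (((i + a).choose i : ℝ) * ((j + b).choose j : ℝ)) * p (i + a) (j + b) =
      (lam ^ i / (i.factorial : ℝ) * s) * (lam ^ j / (j.factorial : ℝ) * s) := by
    rw [hs, mul_sum, mul_sum, sum_mul_sum]
    refine sum_congr rfl fun a _ => sum_congr rfl fun b _ => ?_
    rw [hp]
    dsimp only
    have e1 := choose_fac i a lam
    have e2 := choose_fac j b lam
    rw [neg_pow lam a, neg_pow lam b]
    calc (-1 : ℝ) ^ a * (-1 : ℝ) ^ b * (((i + a).choose i : ℝ) * ((j + b).choose j : ℝ)) *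
          (lam ^ (i + a) / ((i + a).factorial : ℝ) * (lam ^ (j + b) / ((j + b).factorial : ℝ)))
        = (-1 : ℝ) ^ a * (((i + a).choose i : ℝ) * (lam ^ (i + a) / ((i + a).factorial : ℝ))) *
          ((-1 : ℝ) ^ b * (((j + b).choose j : ℝ) *
            (lam ^ (j + b) / ((j + b).factorial : ℝ)))) := by ring
      _ = _ := by
          rw [e1, e2]
          ring
  have hlI : lam ^ I / (I.factorial : ℝ) ≤ η :=
    (div_le_div_of_nonneg_right (pow_le_pow_left₀ hlam hlamL I) (by positivity)).trans htI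
  have hli : ∀ r : ℕ, lam ^ r / (r.factorial : ℝ) ≤ (max 1 Lam) ^ r := by
    intro r
    have h1 : (1 : ℝ) ≤ (r.factorial : ℝ) := by exact_mod_cast Nat.one_le_iff_ne_zero.2 (Nat.factorial_ne_zero r)
    exact (div_le_self (by positivity) h1).trans
      (pow_le_pow_left₀ hlam (hlamL.trans (le_max_right _ _)) r)
  have hmi : (max 1 Lam) ^ i ≤ L := by
    rw [hL]
    exact pow_le_pow_right₀ hm1 (by omega)
  have hmj : (max 1 Lam) ^ j ≤ L := by
    rw [hL]
    exact pow_le_pow_right₀ hm1 (by omega)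
  have hi0 : 0 ≤ lam ^ i / (i.factorial : ℝ) := by positivity
  have hj0 : 0 ≤ lam ^ j / (j.factorial : ℝ) := by positivity
  have hij : lam ^ i / (i.factorial : ℝ) * (lam ^ j / (j.factorial : ℝ)) ≤ L := by
    rw [hL, pow_add]
    exact mul_le_mul (hli i) (hli j) hj0 (by positivity)
  have hp1 : ((i + I).choose i : ℝ) * p (i + I) 0 ≤ L * η := by
    rw [hp]
    dsimp only
    rw [← mul_assoc, choose_fac, pow_zero, Nat.factorial_zero, Nat.cast_one, div_one, mul_one]
    exact mul_le_mul ((hli i).trans hmi) hlI (by positivity) (by positivity)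
  have hp2 : ((j + I).choose j : ℝ) * p 0 (j + I) ≤ L * η := by
    rw [hp]
    dsimp only
    rw [pow_zero, Nat.factorial_zero, Nat.cast_one, div_one, one_mul, choose_fac]
    exact mul_le_mul ((hli j).trans hmj) hlI (by positivity) (by positivity)
  have hp3 : ((i + I).choose i : ℝ) * ((j + I).choose j : ℝ) * p (i + I) (j + I) ≤ L * η := by
    rw [hp]
    dsimp only
    have e1 := choose_fac i I lam
    have e2 := choose_fac j I lam
    calc ((i + I).choose i : ℝ) * ((j + I).choose j : ℝ) *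
          (lam ^ (i + I) / ((i + I).factorial : ℝ) * (lam ^ (j + I) / ((j + I).factorial : ℝ)))
        = (((i + I).choose i : ℝ) * (lam ^ (i + I) / ((i + I).factorial : ℝ))) *
          (((j + I).choose j : ℝ) * (lam ^ (j + I) / ((j + I).factorial : ℝ))) := by ring
      _ = (lam ^ i / (i.factorial : ℝ) * (lam ^ j / (j.factorial : ℝ))) *
          ((lam ^ I / (I.factorial : ℝ)) * (lam ^ I / (I.factorial : ℝ))) := by
          rw [e1, e2]
          ring
      _ ≤ L * (η * 1) := by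
          refine mul_le_mul hij ?_ (by positivity) (by positivity)
          exact mul_le_mul hlI (hlI.trans hη1) (by positivity) hη0.le
      _ = L * η := by ring
  -- step 5: the exponential
  have hx := exp_tail (-lam) I
  rw [abs_neg, abs_of_nonneg hlam, ← hs] at hx
  have hx1 : |Real.exp (-lam) - s| ≤ η * E := by
    refine hx.trans ?_
    refine mul_le_mul hlI ?_ (Real.exp_pos _).le hη0.le
    rw [hE]
    exact Real.exp_le_exp.2 hlamL
  have he1 : Real.exp (-lam) ≤ 1 := Real.exp_le_one_iff.2 (by linarith)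
  have he0 : 0 < Real.exp (-lam) := Real.exp_pos _
  have hs1 : |s| ≤ 1 + E := by
    have h1 : |s| ≤ |Real.exp (-lam)| + |Real.exp (-lam) - s| := by
      have := abs_sub_abs_le_abs_sub s (Real.exp (-lam))
      rw [abs_sub_comm s] at this
      linarith
    rw [abs_of_pos he0] at h1
    have h2 : η * E ≤ E := by nlinarith
    linarith
  have s5 : |(lam ^ i / (i.factorial : ℝ) * s) * (lam ^ j / (j.factorial : ℝ) * s) -
      Real.exp (-lam) * (lam ^ i / (i.factorial : ℝ)) *
          (Real.exp (-lam) * (lam ^ j / (j.factorial : ℝ)))| ≤ L * (E * (2 + E)) * η := by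
    have h1 : (lam ^ i / (i.factorial : ℝ) * s) * (lam ^ j / (j.factorial : ℝ) * s) -
      Real.exp (-lam) * (lam ^ i / (i.factorial : ℝ)) *
          (Real.exp (-lam) * (lam ^ j / (j.factorial : ℝ))) =
        (lam ^ i / (i.factorial : ℝ) * (lam ^ j / (j.factorial : ℝ))) *
          ((s + Real.exp (-lam)) * (s - Real.exp (-lam))) := by ring
    rw [h1, abs_mul, abs_of_nonneg (mul_nonneg hi0 hj0), abs_mul, abs_sub_comm s]
    have h2 : |s + Real.exp (-lam)| ≤ 2 + E := by
      refine (abs_add_le _ _).trans ?_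
      rw [abs_of_pos he0]
      linarith
    calc lam ^ i / (i.factorial : ℝ) * (lam ^ j / (j.factorial : ℝ)) *
          (|s + Real.exp (-lam)| * |Real.exp (-lam) - s|) ≤ L * ((2 + E) * (η * E)) := by
          gcongr
      _ = _ := by ring
  -- conclusion
  have hA1 := hMle (i + I) 0 (by omega) (by omega)
  have hA2 := hMle 0 (j + I) (by omega) (by omega)
  have hA3 := hMle (i + I) (j + I) (by omega) (by omega)
  have hc1 : (0 : ℝ) ≤ ((i + I).choose i : ℝ) := by positivity
  have hc2 : (0 : ℝ) ≤ ((j + I).choose j : ℝ) := by positivity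
  have t1 : ((i + I).choose i : ℝ) * Mo F A B (i + I) 0 ≤
      L * η + ((i + I).choose i : ℝ) * δ := by
    have := mul_le_mul_of_nonneg_left hA1 hc1
    rw [mul_add] at this
    linarith
  have t2 : ((j + I).choose j : ℝ) * Mo F A B 0 (j + I) ≤ L * η + ((j + I).choose j : ℝ) * δ := by
    have := mul_le_mul_of_nonneg_left hA2 hc2
    rw [mul_add] at this
    linarith
  have t3 : ((i + I).choose i : ℝ) * ((j + I).choose j : ℝ) * Mo F A B (i + I) (j + I) ≤
      L * η + ((i + I).choose i : ℝ) * ((j + I).choose j : ℝ) * δ := by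
    have := mul_le_mul_of_nonneg_left hA3 (mul_nonneg hc1 hc2)
    rw [mul_add] at this
    linarith
  rw [s2] at s1
  rw [← s4] at s5
  have hfin : L * η + L * η + L * η + L * (E * (2 + E)) * η ≤ ε / 2 := by
    calc L * η + L * η + L * η + L * (E * (2 + E)) * η = L * (3 + E * (2 + E)) * η := by ring
      _ ≤ ε / 2 := hη2
  have hCδ : (∑ a ∈ range I, ∑ b ∈ range I, ((i + a).choose i : ℝ) * ((j + b).choose j : ℝ)) * δ +
      ((i + I).choose i : ℝ) * δ + ((j + I).choose j : ℝ) * δ +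
        ((i + I).choose i : ℝ) * ((j + I).choose j : ℝ) * δ = ε / 2 := by
    rw [← hδC, hCst]
    ring
  rw [abs_le] at s1 s3 s5 ⊢
  constructor <;> linarith [s1.1, s1.2, s3.1, s3.2, s5.1, s5.2]

end Pool.Agent.H530.Po
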