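import Mathlib
import Pool.Agent.H985.US.Base
import Pool.Agent.H530.Consec

/-!
# Sifted tuples `f + s`, `s ∈ S`, over `F_q[X]`, `q` even: number, parities, density (helper530)
-/

set_option autoImplicit false

namespace Pool.Agent.H530.Po

open Polynomial Finset
open scoped Classical
open Pool.Agent.H524.Cw (lio)
open Pool.Agent.H985.Par (Sft)
open Pool.Agent.H694.Typ (Mn Irn mem_Mn mem_Irn card_Mn PU mem_PU)
open Pool.Agent.H985.US (Us om Vu Adm Ok mem_Us us_patt s_uss s_usv)
open Pool.Agent.H985.US.UsvH599 (Res mem_Res Res_card)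

variable {K : Type} [Field K] [Fintype K]

/-- the polynomials of degree less than `w` -/
noncomputable def Dg (K : Type) [Field K] [Fintype K] (w : ℕ) : Finset K[X] := Res (X ^ w : K[X])

theorem mem_Dg {w : ℕ} {u : K[X]} : u ∈ Dg K w ↔ u.degree < (w : WithBot ℕ) := by
  unfold Dg
  rw [mem_Res (monic_X_pow w), degree_X_pow]

theorem card_Dg (w : ℕ) : (Dg K w).card = Fintype.card K ^ w := by
  unfold Dg
  rw [Res_card, natDegree_X_pow]

/-- the number of the residue classes of the elements of `S` -/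
noncomputable def nuS (S : Finset K[X]) (P : K[X]) : ℕ := (S.image (fun s => s %ₘ P)).card

/-- the density of the `f` such that all `f + s` are sifted -/
noncomputable def VS (S : Finset K[X]) (m : ℕ) : ℝ :=
  ∏ P ∈ PU K m, (1 - (nuS S P : ℝ) / (Fintype.card K : ℝ) ^ P.natDegree)

theorem om_eq_nu {k : ℕ} (S : Finset K[X]) (h : Fin k → K[X]) (hmem : ∀ x, x ∈ S ↔ ∃ i, h i = x)
    {P : K[X]} (hP : P.Monic) : om (fun _ => (1 : K[X])) h P = nuS S P := by
  unfold Pool.Agent.H985.US.om nuS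
  have e : {r : K[X] | r.degree < P.degree ∧ ∃ i, P ∣ 1 * r + h i} =
      ((((S.image (fun s => s %ₘ P)).image (fun x => -x)) : Finset K[X]) : Set K[X]) := by
    ext r
    rw [Finset.mem_coe, Finset.mem_image]
    constructor
    · rintro ⟨h1, i, h2⟩
      refine ⟨h i %ₘ P, Finset.mem_image_of_mem _ ((hmem _).2 ⟨i, rfl⟩), ?_⟩
      have h3 : h i %ₘ P = (-r) %ₘ P := modByMonic_eq_of_dvd_sub hP (by
        have : h i - -r = 1 * r + h i := by ring
        rw [this]
        exact h2)
      rw [h3, (modByMonic_eq_self_iff hP).2 (by rw [degree_neg]; exact h1), neg_neg]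
    · rintro ⟨x, hx, rfl⟩
      rw [Finset.mem_image] at hx
      obtain ⟨s, hs, rfl⟩ := hx
      obtain ⟨i, rfl⟩ := (hmem s).1 hs
      refine ⟨by rw [degree_neg]; exact degree_modByMonic_lt _ hP, i, ?_⟩
      have := modByMonic_add_div (h i) P
      exact ⟨h i /ₘ P, by linear_combination -this⟩
  rw [e, Set.ncard_coe_finset, Finset.card_image_of_injective _ neg_injective]

theorem Vu_eq {k : ℕ} (S : Finset K[X]) (h : Fin k → K[X]) (hmem : ∀ x, x ∈ S ↔ ∃ i, h i = x)
    (m : ℕ) : Vu (fun _ => (1 : K[X])) h m = VS S m := by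
  unfold Pool.Agent.H985.US.Vu VS
  refine prod_congr rfl fun P hP => ?_
  rw [om_eq_nu S h hmem (mem_PU.1 hP).1]

/-- the `f` such that all `f + s` are sifted -/
noncomputable def Rs (S : Finset K[X]) (n m : ℕ) : Finset K[X] :=
  (Mn K n).filter (fun f => ∀ s ∈ S, Sft m (f + s))

/-- odd sifted -/
def Odd' (m : ℕ) (F : K[X]) : Prop := Sft m F ∧ lio F = -1

/-- even sifted -/
def Evn (m : ℕ) (F : K[X]) : Prop := Sft m F ∧ lio F = 1

/-- the `f` such that all `f + s`, `s ∈ S`, are odd sifted and all `f + t`, `t ∈ T`, even sifted -/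
noncomputable def Ps (S T : Finset K[X]) (n m : ℕ) : Finset K[X] :=
  (Mn K n).filter (fun f => (∀ s ∈ S, Odd' m (f + s)) ∧ ∀ t ∈ T, Evn m (f + t))

/-- an obstruction -/
theorem obs {S : Finset K[X]} {P : K[X]} (hP : P.Monic) (h : ∀ x : K[X], ∃ s ∈ S, P ∣ x + s) :
    nuS S P = Fintype.card K ^ P.natDegree ∧ P.natDegree ≤ S.card := by
  have h1 : S.image (fun s => s %ₘ P) = Res P := by
    ext r
    rw [Finset.mem_image, mem_Res hP]
    constructor
    · rintro ⟨s, -, rfl⟩
      exact degree_modByMonic_lt _ hP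
    · intro hr
      obtain ⟨s, hs, hd⟩ := h (-r)
      refine ⟨s, hs, ?_⟩
      have h3 : s %ₘ P = r %ₘ P := modByMonic_eq_of_dvd_sub hP (by
        have : s - r = -r + s := by ring
        rw [this]
        exact hd)
      rw [h3, (modByMonic_eq_self_iff hP).2 hr]
  have h2 : nuS S P = Fintype.card K ^ P.natDegree := by
    unfold nuS
    rw [h1, Res_card]
  refine ⟨h2, ?_⟩
  have h3 : nuS S P ≤ S.card := Finset.card_image_le
  rw [h2] at h3
  have h4 : 2 ^ P.natDegree ≤ Fintype.card K ^ P.natDegree :=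
    Nat.pow_le_pow_left Fintype.one_lt_card _
  exact (Nat.lt_two_pow_self.le.trans h4).trans h3

/-- **The number of the sifted tuples, and their parities.** -/
theorem asy (K : Type) [Field K] [Fintype K] [CharP K 2] (k : ℕ) (ε : ℝ) (hε : 0 < ε) :
    ∃ κ : ℝ, 0 < κ ∧ ∃ M N : ℕ, ∀ n m : ℕ, N ≤ n → M ≤ m → (m : ℝ) ≤ κ * n →
      ∀ S T : Finset K[X], Disjoint S T → (S ∪ T).card = k → (∀ s ∈ S ∪ T, s.natDegree < n) →
      |((Rs (S ∪ T) n m).card : ℝ) - VS (S ∪ T) m * (Fintype.card K : ℝ) ^ n| ≤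
        ε * (VS (S ∪ T) m * (Fintype.card K : ℝ) ^ n) ∧
      |((Ps S T n m).card : ℝ) - VS (S ∪ T) m * (Fintype.card K : ℝ) ^ n / 2 ^ k| ≤
        ε * (VS (S ∪ T) m * (Fintype.card K : ℝ) ^ n) := by
  obtain ⟨κ, hκ, n₀, H⟩ := us_patt s_uss s_usv K k ε hε
  refine ⟨κ, hκ, k + 1, n₀ + 1, fun n m hn hm hmκ S T hST hk hdeg => ?_⟩
  obtain ⟨h, hinj, hmem⟩ := Pool.Agent.H530.Consec.enum (S ∪ T) k hk
  have hi : ∀ i, h i ∈ S ∪ T := fun i => (hmem _).2 ⟨i, rfl⟩
  have hV := Vu_eq (S ∪ T) h hmem m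
  have hR : Us K (fun _ => (1 : K[X])) h n m = Rs (S ∪ T) n m := by
    ext f
    rw [mem_Us]
    unfold Rs
    rw [Finset.mem_filter, mem_Mn]
    refine and_congr_right fun _ => ⟨fun hf s hs => ?_, fun hf i => ?_⟩
    · obtain ⟨i, rfl⟩ := (hmem s).1 hs
      have := hf i
      rwa [one_mul] at this
    · rw [one_mul]
      exact hf _ (hi i)
  by_cases hadm : Adm (fun _ => (1 : K[X])) h
  · obtain ⟨-, h1, h2⟩ := H n (by omega) m (fun _ => 1) h (by omega) hmκ
      ⟨fun i => ⟨one_ne_zero, by rw [natDegree_one, Nat.cast_zero]; positivity,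
        by rw [natDegree_one, add_zero]; exact hdeg _ (hi i)⟩, fun i j hij he => by
        rw [one_mul, one_mul] at he
        exact hij (hinj he).symm⟩ hadm
    rw [hV, hR] at h1
    refine ⟨h1, ?_⟩
    have h3 := h2 (fun i => if h i ∈ S then -1 else 1) (fun i => by
      split_ifs
      · right; rfl
      · left; rfl)
    rw [hV] at h3
    have hP : (Us K (fun _ => (1 : K[X])) h n m).filter
        (fun f => ∀ i, lio (1 * f + h i) = if h i ∈ S then -1 else 1) = Ps S T n m := by
      ext f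
      rw [Finset.mem_filter, hR]
      unfold Rs Ps
      rw [Finset.mem_filter, Finset.mem_filter, and_assoc]
      refine and_congr_right fun _ => ⟨fun ⟨hf1, hf2⟩ => ⟨fun s hs => ?_, fun t ht => ?_⟩,
        fun ⟨hf1, hf2⟩ => ⟨fun s hs => ?_, fun i => ?_⟩⟩
      · have hs' : s ∈ S ∪ T := Finset.mem_union_left _ hs
        obtain ⟨i, rfl⟩ := (hmem s).1 hs'
        have := hf2 i
        rw [if_pos hs, one_mul] at this
        exact ⟨hf1 _ hs', this⟩
      · have ht' : t ∈ S ∪ T := Finset.mem_union_right _ ht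
        obtain ⟨i, rfl⟩ := (hmem t).1 ht'
        have := hf2 i
        rw [if_neg (fun hc => Finset.disjoint_left.1 hST hc ht), one_mul] at this
        exact ⟨hf1 _ ht', this⟩
      · rcases Finset.mem_union.1 hs with hs | hs
        · exact (hf1 s hs).1
        · exact (hf2 s hs).1
      · rw [one_mul]
        by_cases hc : h i ∈ S
        · rw [if_pos hc]
          exact (hf1 _ hc).2
        · rw [if_neg hc]
          have : h i ∈ T := (Finset.mem_union.1 (hi i)).resolve_left hc
          exact (hf2 _ this).2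
    rw [hP] at h3
    exact h3
  · -- everything is zero
    unfold Pool.Agent.H985.US.Adm at hadm
    push Not at hadm
    obtain ⟨P, hP, hPi, hx⟩ := hadm
    have hx' : ∀ x : K[X], ∃ s ∈ S ∪ T, P ∣ x + s := by
      intro x
      obtain ⟨i, hi'⟩ := hx x
      rw [one_mul] at hi'
      exact ⟨h i, hi i, hi'⟩
    obtain ⟨h1, h2⟩ := obs hP hx'
    rw [hk] at h2
    have hPm : P ∈ PU K m := mem_PU.2 ⟨hP, hPi, by omega⟩
    have hV0 : VS (S ∪ T) m = 0 := by
      unfold VS
      refine Finset.prod_eq_zero hPm ?_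
      rw [h1]
      have h2 : (0 : ℝ) < (Fintype.card K : ℝ) ^ P.natDegree := by
        have : (0 : ℝ) < Fintype.card K := by exact_mod_cast Fintype.card_pos
        positivity
      push_cast
      rw [div_self h2.ne', sub_self]
    have hU : Rs (S ∪ T) n m = ∅ := by
      rw [Finset.eq_empty_iff_forall_notMem]
      intro f hf
      unfold Rs at hf
      rw [Finset.mem_filter] at hf
      obtain ⟨s, hs, hs'⟩ := hx' f
      have h3 := hf.2 s hs P hP hPi hs'
      omega
    have hU2 : Ps S T n m = ∅ := by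
      rw [Finset.eq_empty_iff_forall_notMem]
      intro f hf
      unfold Ps at hf
      rw [Finset.mem_filter] at hf
      obtain ⟨s, hs, hs'⟩ := hx' f
      have h3 : Sft m (f + s) := by
        rcases Finset.mem_union.1 hs with hs | hs
        · exact (hf.2.1 s hs).1
        · exact (hf.2.2 s hs).1
      have h4 := h3 P hP hPi hs'
      omega
    rw [hV0, hU, hU2]
    simp

/-- elements of small degree stay distinct modulo `P` -/
theorem nu_large {w : ℕ} {S : Finset K[X]} (hS : S ⊆ Dg K w) {P : K[X]} (hP : P.Monic)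
    (hPw : w ≤ P.natDegree) : nuS S P = S.card := by
  unfold nuS
  refine Finset.card_image_of_injOn fun s hs t ht he => ?_
  have h1 : ∀ x ∈ S, x %ₘ P = x := fun x hx => by
    refine (modByMonic_eq_self_iff hP).2 ?_
    have h2 := mem_Dg.1 (hS hx)
    rw [degree_eq_natDegree hP.ne_zero]
    exact h2.trans_le (by exact_mod_cast hPw)
  have he' : s %ₘ P = t %ₘ P := he
  rw [h1 s hs, h1 t ht] at he'
  exact he'

theorem PU_mono {w m : ℕ} (h : w ≤ m) : PU K w ⊆ PU K m := by
  intro P hP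
  rw [mem_PU] at hP ⊢
  exact ⟨hP.1, hP.2.1, hP.2.2.trans h⟩

/-- the large primes -/
theorem VS_split {w m : ℕ} (hwm : w ≤ m) {S : Finset K[X]} (hS : S ⊆ Dg K w) :
    VS S m = VS S w * ∏ P ∈ PU K m \ PU K w,
      (1 - (S.card : ℝ) / (Fintype.card K : ℝ) ^ P.natDegree) := by
  have h1 : VS S m = (∏ P ∈ PU K m \ PU K w, (1 - (nuS S P : ℝ) / (Fintype.card K : ℝ) ^ P.natDegree))
      * VS S w := by
    unfold VS
    rw [Finset.prod_sdiff (PU_mono hwm)]
  rw [h1, mul_comm]
  congr 1
  refine prod_congr rfl fun P hP => ?_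
  rw [mem_sdiff, mem_PU, mem_PU] at hP
  obtain ⟨⟨h2, h3, h4⟩, h5⟩ := hP
  have h6 : w ≤ P.natDegree := by
    by_contra hc
    exact h5 ⟨h2, h3, by omega⟩
  rw [nu_large hS h2 h6]

end Pool.Agent.H530.Po
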