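import Mathlib
import Pool.Agent.H530.PoB

/-!
# The number of the elements of a window without small prime factors over `F_q[X]`: the second
moment and a pointwise bound (helper530)
-/

set_option autoImplicit false

namespace Pool.Agent.H530.Po

open Polynomial Finset
open scoped Classical
open Pool.Agent.H985.Par (Sft)
open Pool.Agent.H694.Typ (Mn Irn mem_Mn mem_Irn card_Mn PU mem_PU wt wt_nonneg wt_le_half q_ge
  geo_half_le sum_PU)
open Pool.Agent.H996.Par (irn_wt one_sub_ge prod_ge)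

variable {K : Type} [Field K] [Fintype K]

/-- the product of the `1 - 1 / |P|` over the monic irreducible `P` of degree at most `m` -/
noncomputable def V1 (K : Type) [Field K] [Fintype K] (m : ℕ) : ℝ :=
  ∏ P ∈ PU K m, (1 - 1 / (Fintype.card K : ℝ) ^ P.natDegree)

theorem norm_ge {m : ℕ} {P : K[X]} (hP : P ∈ PU K m) : (2 : ℝ) ≤ (Fintype.card K : ℝ) ^ P.natDegree := by
  have hq := q_ge (k := K)
  have h1 : 1 ≤ P.natDegree := (mem_PU.1 hP).2.1.natDegree_pos
  calc (2 : ℝ) ≤ (Fintype.card K : ℝ) ^ 1 := by rw [pow_one]; exact hq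
    _ ≤ _ := pow_le_pow_right₀ (by linarith) h1

theorem V1_fac {m : ℕ} {P : K[X]} (hP : P ∈ PU K m) :
    (1 : ℝ) / 2 ≤ 1 - 1 / (Fintype.card K : ℝ) ^ P.natDegree := by
  have h := norm_ge hP
  have : 1 / (Fintype.card K : ℝ) ^ P.natDegree ≤ 1 / 2 :=
    one_div_le_one_div_of_le (by norm_num) h
  linarith

theorem V1_pos (m : ℕ) : 0 < V1 K m := prod_pos fun P hP => by
  have := V1_fac hP
  linarith

theorem VS_single (u : K[X]) (m : ℕ) : VS {u} m = V1 K m := by
  unfold VS V1
  refine prod_congr rfl fun P _ => ?_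
  unfold nuS
  rw [Finset.image_singleton, Finset.card_singleton, Nat.cast_one]

theorem VS_empty (m : ℕ) : VS (∅ : Finset K[X]) m = 1 := by
  unfold VS
  refine prod_eq_one fun P _ => ?_
  unfold nuS
  rw [Finset.image_empty, Finset.card_empty, Nat.cast_zero, zero_div, sub_zero]

/-- multiples in a window -/
theorem count_mult (w : ℕ) {D u : K[X]} (hD : D.Monic) :
    (((Dg K w).filter (fun v => D ∣ u - v)).card : ℝ) ≤
      1 + (Fintype.card K : ℝ) ^ w / (Fintype.card K : ℝ) ^ D.natDegree := by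
  have hq : (0 : ℝ) < Fintype.card K := by exact_mod_cast Fintype.card_pos
  have h1 : ((Dg K w).filter (fun v => D ∣ u - v)).card ≤ (Dg K (w - D.natDegree)).card := by
    refine Finset.card_le_card_of_injOn (fun v => v /ₘ D) (fun v hv => ?_) (fun v hv v' hv' he => ?_)
    · rw [Finset.mem_coe, Finset.mem_filter, mem_Dg] at hv
      rw [Finset.mem_coe, mem_Dg]
      dsimp only
      by_cases hlt : v.degree < D.degree
      · rw [(divByMonic_eq_zero_iff hD).2 hlt, degree_zero]
        exact WithBot.bot_lt_coe _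
      · have hv0 : v ≠ 0 := by
          rintro rfl
          exact hlt (by rw [degree_zero]; exact bot_lt_iff_ne_bot.2 (mt degree_eq_bot.1 hD.ne_zero))
        have h2 : D.natDegree ≤ v.natDegree := natDegree_le_natDegree (not_lt.1 hlt)
        have h3 := hv.1
        rw [degree_eq_natDegree hv0] at h3
        have h3' : v.natDegree < w := by exact_mod_cast h3
        refine lt_of_le_of_lt degree_le_natDegree ?_
        rw [natDegree_divByMonic v hD]
        exact_mod_cast (by omega : v.natDegree - D.natDegree < w - D.natDegree)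
    · rw [Finset.mem_coe, Finset.mem_filter] at hv hv'
      have he' : v /ₘ D = v' /ₘ D := he
      have h2 : D ∣ v - v' := by
        have := dvd_sub hv'.2 hv.2
        have h3 : u - v' - (u - v) = v - v' := by ring
        rwa [h3] at this
      have h3 : v %ₘ D = v' %ₘ D := modByMonic_eq_of_dvd_sub hD h2
      rw [← modByMonic_add_div v D, ← modByMonic_add_div v' D, h3, he']
  rw [card_Dg] at h1
  have h2 : (((Dg K w).filter (fun v => D ∣ u - v)).card : ℝ) ≤
      (Fintype.card K : ℝ) ^ (w - D.natDegree) := by exact_mod_cast h1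
  refine h2.trans ?_
  by_cases h : D.natDegree ≤ w
  · obtain ⟨e, he⟩ := Nat.exists_eq_add_of_le h
    rw [he, Nat.add_sub_cancel_left, pow_add, mul_div_cancel_left₀ _ (pow_ne_zero _ hq.ne')]
    linarith
  · rw [Nat.sub_eq_zero_of_le (by omega), pow_zero]
    have : 0 ≤ (Fintype.card K : ℝ) ^ w / (Fintype.card K : ℝ) ^ D.natDegree := by positivity
    linarith

/-- the density of a pair, factorised -/
theorem pair_fac {w : ℕ} (u v : K[X]) {P : K[X]} (hP : P ∈ PU K w) :
    1 - (nuS {u, v} P : ℝ) / (Fintype.card K : ℝ) ^ P.natDegree =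
      (if P ∣ u - v then 1 / (Fintype.card K : ℝ) ^ P.natDegree else 0) +
        (1 - 2 / (Fintype.card K : ℝ) ^ P.natDegree) := by
  have hm := (mem_PU.1 hP).1
  unfold nuS
  rw [Finset.image_insert, Finset.image_singleton]
  by_cases h : P ∣ u - v
  · rw [if_pos h, modByMonic_eq_of_dvd_sub hm h, Finset.pair_eq_singleton, Finset.card_singleton]
    push_cast
    ring
  · rw [if_neg h, Finset.card_pair]
    · push_cast
      ring
    · intro he
      apply h
      have h1 := modByMonic_add_div u P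
      have h2 := modByMonic_add_div v P
      exact ⟨u /ₘ P - v /ₘ P, by linear_combination h2 - h1 + he⟩

/-- **The average density of pairs.** -/
theorem pair_sum (w : ℕ) :
    ∑ u ∈ Dg K w, ∑ v ∈ Dg K w, VS {u, v} w ≤
      ((Fintype.card K : ℝ) ^ w * V1 K w) ^ 2 + (Fintype.card K : ℝ) ^ w * V1 K w := by
  have hq : (0 : ℝ) < Fintype.card K := by exact_mod_cast Fintype.card_pos
  obtain ⟨g, hg⟩ : ∃ g : K[X] → ℝ, g = fun P => 1 - 2 / (Fintype.card K : ℝ) ^ P.natDegree := ⟨_, rfl⟩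
  obtain ⟨x, hx⟩ : ∃ x : K[X] → ℝ, x = fun P => 1 / (Fintype.card K : ℝ) ^ P.natDegree := ⟨_, rfl⟩
  have hx0 : ∀ P, 0 ≤ x P := fun P => by rw [hx]; dsimp only; positivity
  have hg0 : ∀ P ∈ PU K w, 0 ≤ g P := by
    intro P hP
    rw [hg]
    dsimp only
    have h1 := norm_ge hP
    have h2 : 2 / (Fintype.card K : ℝ) ^ P.natDegree ≤ 1 := by
      rw [div_le_one (by positivity)]
      exact h1
    linarith
  have h1 : ∀ u v : K[X], VS {u, v} w = ∑ T ∈ (PU K w).powerset,
      (if ∀ P ∈ T, P ∣ u - v then ∏ P ∈ T, x P else 0) * ∏ P ∈ PU K w \ T, g P := by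
    intro u v
    unfold VS
    rw [prod_congr rfl fun P hP => pair_fac u v hP, Finset.prod_add]
    refine sum_congr rfl fun T _ => ?_
    rw [Finset.prod_ite_zero, hx, hg]
  simp only [h1]
  have h2 : ∑ u ∈ Dg K w, ∑ v ∈ Dg K w, ∑ T ∈ (PU K w).powerset,
      (if ∀ P ∈ T, P ∣ u - v then ∏ P ∈ T, x P else 0) * ∏ P ∈ PU K w \ T, g P =
      ∑ T ∈ (PU K w).powerset, ((∏ P ∈ T, x P) * ∏ P ∈ PU K w \ T, g P) *
        ∑ u ∈ Dg K w, (((Dg K w).filter (fun v => ∀ P ∈ T, P ∣ u - v)).card : ℝ) := by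
    rw [sum_congr rfl fun u _ => sum_comm, sum_comm]
    refine sum_congr rfl fun T _ => ?_
    rw [mul_sum]
    refine sum_congr rfl fun u _ => ?_
    rw [← sum_mul, ← sum_filter, sum_const, nsmul_eq_mul]
    ring
  rw [h2]
  have h3 : ∀ T ∈ (PU K w).powerset,
      ∑ u ∈ Dg K w, (((Dg K w).filter (fun v => ∀ P ∈ T, P ∣ u - v)).card : ℝ) ≤
        (Fintype.card K : ℝ) ^ w * (1 + (Fintype.card K : ℝ) ^ w * ∏ P ∈ T, x P) := by
    intro T hT
    rw [mem_powerset] at hT
    have hmon : (∏ P ∈ T, P).Monic := monic_prod_of_monic _ _ fun P hP => (mem_PU.1 (hT hP)).1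
    have hnd : (Fintype.card K : ℝ) ^ w / (Fintype.card K : ℝ) ^ (∏ P ∈ T, P).natDegree =
        (Fintype.card K : ℝ) ^ w * ∏ P ∈ T, x P := by
      rw [natDegree_prod_of_monic _ _ fun P hP => (mem_PU.1 (hT hP)).1, ← Finset.prod_pow_eq_pow_sum,
        hx]
      dsimp only
      rw [Finset.prod_div_distrib, Finset.prod_const_one]
      ring
    have h4 : ∀ u ∈ Dg K w, (((Dg K w).filter (fun v => ∀ P ∈ T, P ∣ u - v)).card : ℝ) ≤
        1 + (Fintype.card K : ℝ) ^ w * ∏ P ∈ T, x P := by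
      intro u _
      rw [← hnd]
      refine le_trans ?_ (count_mult w hmon (u := u))
      have : (Dg K w).filter (fun v => ∀ P ∈ T, P ∣ u - v) ⊆
          (Dg K w).filter (fun v => ∏ P ∈ T, P ∣ u - v) := by
        intro v hv
        rw [mem_filter] at hv ⊢
        refine ⟨hv.1, ?_⟩
        refine Finset.prod_dvd_of_coprime (fun P hP Q hQ hne => ?_) hv.2
        have hPP := mem_PU.1 (hT hP)
        have hQQ := mem_PU.1 (hT hQ)
        rw [Function.onFun]
        refine (hPP.2.1.coprime_iff_not_dvd).2 fun h => hne ?_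
        exact eq_of_monic_of_associated hPP.1 hQQ.1 (hPP.2.1.associated_of_dvd hQQ.2.1 h)
      exact_mod_cast card_le_card this
    refine (sum_le_sum h4).trans (le_of_eq ?_)
    rw [sum_const, nsmul_eq_mul, card_Dg]
    push_cast
    ring
  have h5 : ∀ T ∈ (PU K w).powerset, 0 ≤ (∏ P ∈ T, x P) * ∏ P ∈ PU K w \ T, g P := by
    intro T _
    refine mul_nonneg (prod_nonneg fun P _ => hx0 P) (prod_nonneg fun P hP => hg0 P ?_)
    exact (mem_sdiff.1 hP).1
  refine (sum_le_sum fun T hT => mul_le_mul_of_nonneg_left (h3 T hT) (h5 T hT)).trans (le_of_eq ?_)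
  have h6 : ∑ T ∈ (PU K w).powerset, ((∏ P ∈ T, x P) * ∏ P ∈ PU K w \ T, g P) =
      V1 K w := by
    rw [← Finset.prod_add]
    unfold V1
    refine prod_congr rfl fun P _ => ?_
    rw [hx, hg]
    ring
  have h7 : ∑ T ∈ (PU K w).powerset, ((∏ P ∈ T, x P * x P) * ∏ P ∈ PU K w \ T, g P) =
      V1 K w ^ 2 := by
    rw [← Finset.prod_add]
    unfold V1
    rw [← Finset.prod_pow]
    refine prod_congr rfl fun P _ => ?_
    rw [hx, hg]
    ring
  have h8 : ∀ T ∈ (PU K w).powerset, (∏ P ∈ T, x P) * (∏ P ∈ PU K w \ T, g P) *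
      ((Fintype.card K : ℝ) ^ w * (1 + (Fintype.card K : ℝ) ^ w * ∏ P ∈ T, x P)) =
      (Fintype.card K : ℝ) ^ w * ((∏ P ∈ T, x P) * ∏ P ∈ PU K w \ T, g P) +
        ((Fintype.card K : ℝ) ^ w) ^ 2 * ((∏ P ∈ T, x P * x P) * ∏ P ∈ PU K w \ T, g P) := by
    intro T _
    rw [Finset.prod_mul_distrib]
    ring
  rw [sum_congr rfl h8, sum_add_distrib, ← mul_sum, ← mul_sum, h6, h7]
  ring

/-- the reciprocals of the norms of the primes in a range of degrees -/
theorem sum_sdiff (a b : ℕ) (f : K[X] → ℝ) (hf : ∀ P, 0 ≤ f P) :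
    ∑ P ∈ PU K b \ PU K a, f P ≤ ∑ j ∈ Icc (a + 1) b, ∑ P ∈ Irn (k := K) j, f P := by
  have h1 : PU K b \ PU K a ⊆ (Icc (a + 1) b).biUnion (fun j => Irn (k := K) j) := by
    intro P hP
    rw [mem_sdiff, mem_PU, mem_PU] at hP
    obtain ⟨⟨h1, h2, h3⟩, h4⟩ := hP
    rw [mem_biUnion]
    refine ⟨P.natDegree, ?_, mem_Irn.2 ⟨h1, rfl, h2⟩⟩
    rw [mem_Icc]
    refine ⟨?_, h3⟩
    by_contra hc
    exact h4 ⟨h1, h2, by omega⟩
  refine (sum_le_sum_of_subset_of_nonneg h1 fun P _ _ => hf P).trans ?_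
  rw [sum_biUnion]
  intro x _ y _ hxy
  rw [Function.onFun, Finset.disjoint_left]
  intro P hP hP'
  rw [mem_Irn] at hP hP'
  exact hxy (hP.2.1.symm.trans hP'.2.1)

theorem sum_wt_sdiff (a b : ℕ) :
    ∑ P ∈ PU K b \ PU K a, wt K P.natDegree ≤ (b : ℝ) / (a + 1) := by
  refine (sum_sdiff a b (fun P => wt K P.natDegree) fun P => wt_nonneg _).trans ?_
  have h : ∀ j ∈ Icc (a + 1) b, ∑ P ∈ Irn (k := K) j, wt K P.natDegree ≤ 1 / ((a : ℝ) + 1) := by
    intro j hj
    rw [mem_Icc] at hj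
    rw [sum_congr rfl (fun P hP => by rw [(mem_Irn.1 hP).2.1]), sum_const, nsmul_eq_mul]
    refine (irn_wt (K := K) j (by omega)).trans ?_
    refine one_div_le_one_div_of_le (by positivity) ?_
    exact_mod_cast hj.1
  refine (sum_le_sum h).trans ?_
  rw [sum_const, nsmul_eq_mul, Nat.card_Icc, mul_one_div]
  refine div_le_div_of_nonneg_right ?_ (by positivity)
  exact_mod_cast (by omega : b + 1 - (a + 1) ≤ b)

theorem sum_sq_sdiff (a b : ℕ) :
    ∑ P ∈ PU K b \ PU K a, wt K P.natDegree ^ 2 ≤ (1 / 2 : ℝ) ^ a := by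
  refine (sum_sdiff a b (fun P => wt K P.natDegree ^ 2) fun P => by positivity).trans ?_
  have h : ∀ j ∈ Icc (a + 1) b, ∑ P ∈ Irn (k := K) j, wt K P.natDegree ^ 2 ≤ (1 / 2 : ℝ) ^ j := by
    intro j hj
    rw [mem_Icc] at hj
    rw [sum_congr rfl (fun P hP => by rw [(mem_Irn.1 hP).2.1]), sum_const, nsmul_eq_mul]
    have h1 := irn_wt (K := K) j (by omega)
    have h2 := wt_le_half (k := K) j
    have h3 := wt_nonneg (k := K) j
    have h4 : (1 : ℝ) / j ≤ 1 := by
      rw [div_le_one (by exact_mod_cast (show 0 < j by omega))]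
      exact_mod_cast (show 1 ≤ j by omega)
    calc ((Irn K j).card : ℝ) * wt K j ^ 2 = (((Irn K j).card : ℝ) * wt K j) * wt K j := by ring
      _ ≤ 1 * wt K j := mul_le_mul_of_nonneg_right (h1.trans h4) h3
      _ ≤ _ := by rw [one_mul]; exact h2
  exact (sum_le_sum h).trans (geo_half_le a b)

theorem V1_split {a b : ℕ} (hab : a ≤ b) :
    V1 K b = V1 K a * ∏ P ∈ PU K b \ PU K a, (1 - 1 / (Fintype.card K : ℝ) ^ P.natDegree) := by
  unfold V1
  rw [mul_comm, Finset.prod_sdiff (PU_mono hab)]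

/-- comparison of `V1` at comparable levels -/
theorem V1_comp (A : ℕ) {w : ℕ} :
    V1 K (w / (A + 1)) ≤ Real.exp ((A : ℝ) + 11) * V1 K w := by
  obtain ⟨a, ha⟩ : ∃ a, a = w / (A + 1) := ⟨_, rfl⟩
  rw [← ha]
  have haw : a ≤ w := by rw [ha]; exact Nat.div_le_self _ _
  rw [V1_split haw]
  have h1 : Real.exp (-((A : ℝ) + 11)) ≤
      ∏ P ∈ PU K w \ PU K a, (1 - 1 / (Fintype.card K : ℝ) ^ P.natDegree) := by
    have h2 : ∀ P ∈ PU K w \ PU K a, Real.exp (-(wt K P.natDegree + 10 * wt K P.natDegree ^ 2)) ≤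
        1 - 1 / (Fintype.card K : ℝ) ^ P.natDegree := by
      intro P hP
      have h3 := one_sub_ge 1 1 ((Fintype.card K : ℝ) ^ P.natDegree) le_rfl (by
        have := norm_ge (mem_sdiff.1 hP).1
        push_cast
        linarith)
      refine le_trans (le_of_eq ?_) (h3.trans (le_of_eq ?_))
      · unfold Pool.Agent.H694.Typ.wt
        push_cast
        congr 1
        ring
      · push_cast
        ring
    refine le_trans ?_ (prod_le_prod (fun P _ => (Real.exp_pos _).le) h2)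
    rw [← Real.exp_sum, Real.exp_le_exp, sum_neg_distrib, neg_le_neg_iff, sum_add_distrib, ← mul_sum]
    have h3 := sum_wt_sdiff (K := K) a w
    have h4 := sum_sq_sdiff (K := K) a w
    have h5 : (1 / 2 : ℝ) ^ a ≤ 1 := pow_le_one₀ (by norm_num) (by norm_num)
    have h6 : (w : ℝ) / (a + 1) ≤ A + 1 := by
      rw [div_le_iff₀ (by positivity)]
      have h7 : w < (A + 1) * (a + 1) := by
        rw [ha]
        have := Nat.lt_mul_div_succ w (Nat.succ_pos A)
        exact this
      exact_mod_cast h7.le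
    linarith
  have hV : 0 < V1 K a := V1_pos a
  have h8 : 1 ≤ Real.exp ((A : ℝ) + 11) *
      ∏ P ∈ PU K w \ PU K a, (1 - 1 / (Fintype.card K : ℝ) ^ P.natDegree) := by
    calc (1 : ℝ) = Real.exp ((A : ℝ) + 11) * Real.exp (-((A : ℝ) + 11)) := by
          rw [← Real.exp_add, add_neg_cancel, Real.exp_zero]
      _ ≤ _ := mul_le_mul_of_nonneg_left h1 (Real.exp_pos _).le
  calc V1 K a = V1 K a * 1 := (mul_one _).symm
    _ ≤ V1 K a * (Real.exp ((A : ℝ) + 11) *
        ∏ P ∈ PU K w \ PU K a, (1 - 1 / (Fintype.card K : ℝ) ^ P.natDegree)) :=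
        mul_le_mul_of_nonneg_left h8 hV.le
    _ = _ := by ring

/-- the elements of the window without small prime factors -/
noncomputable def Xw (w : ℕ) (f : K[X]) : ℕ := ((Dg K w).filter (fun u => Sft w (f + u))).card

/-- **The pointwise bound.** -/
theorem pointwise (K : Type) [Field K] [Fintype K] :
    ∃ C : ℝ, 1 ≤ C ∧ ∃ w₀ : ℕ, ∀ w : ℕ, w₀ ≤ w → ∀ f : K[X],
      (Xw w f : ℝ) ≤ C * ((Fintype.card K : ℝ) ^ w * V1 K w) := by
  obtain ⟨A, hA⟩ := Pool.Agent.H985.Par.s_sw K 1 1 one_pos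
  refine ⟨2 * Real.exp ((A : ℝ) + 11), ?_, A + 1, fun w hw f => ?_⟩
  · have := Real.one_le_exp (by positivity : (0 : ℝ) ≤ (A : ℝ) + 11)
    linarith
  · obtain ⟨a, ha⟩ : ∃ a, a = w / (A + 1) := ⟨_, rfl⟩
    have ha1 : 1 ≤ a := by
      rw [ha]
      exact (Nat.one_le_div_iff (Nat.succ_pos A)).2 hw
    have haw : a ≤ w := by rw [ha]; exact Nat.div_le_self _ _
    have hAa : A * a ≤ w := by
      have h1 : (A + 1) * a ≤ w := by
        rw [ha]
        exact Nat.mul_div_le w (A + 1)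
      nlinarith
    have h := hA w a (PU K a) (fun P => {(-f) %ₘ P}) 1 0 ha1 hAa
      (fun P hP => ⟨(mem_PU.1 hP).1, (mem_PU.1 hP).2.1, (mem_PU.1 hP).2.2, isCoprime_one_left⟩)
      (fun P hP => ⟨by rw [Finset.card_singleton], by
        rw [Finset.card_singleton]
        have := norm_ge hP
        have h2 : (2 : ℕ) ≤ Fintype.card K ^ P.natDegree := by exact_mod_cast this
        omega, fun r hr => by
        rw [Finset.mem_singleton] at hr
        rw [hr]
        exact degree_modByMonic_lt _ (mem_PU.1 hP).1⟩)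
    dsimp only at h
    obtain ⟨-, h2, -⟩ := h
    have hfin : {u : K[X] | u.degree < (w : WithBot ℕ) ∧ ∀ P ∈ PU K a, ∀ r ∈ ({(-f) %ₘ P} : Finset K[X]),
        ¬ P ∣ 0 + 1 * u - r}.Finite := by
      refine Set.Finite.subset (Dg K w).finite_toSet fun u hu => ?_
      rw [Finset.mem_coe, mem_Dg]
      exact hu.1
    have h3 : (Xw w f : ℝ) ≤ ({u : K[X] | u.degree < (w : WithBot ℕ) ∧ ∀ P ∈ PU K a,
        ∀ r ∈ ({(-f) %ₘ P} : Finset K[X]), ¬ P ∣ 0 + 1 * u - r}.ncard : ℝ) := by
      unfold Xw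
      rw [← Set.ncard_coe_finset]
      refine Nat.cast_le.2 (Set.ncard_le_ncard ?_ hfin)
      intro u hu
      rw [Finset.mem_coe, Finset.mem_filter, mem_Dg] at hu
      refine ⟨hu.1, fun P hP r hr hdiv => ?_⟩
      rw [Finset.mem_singleton] at hr
      obtain ⟨hP1, hP2, hP3⟩ := mem_PU.1 hP
      have h4 : P ∣ f + u := by
        have h5 := modByMonic_add_div (-f) P
        have h6 : f + u = (0 + 1 * u - r) - P * ((-f) /ₘ P) := by
          rw [hr]
          linear_combination h5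
        rw [h6]
        exact dvd_sub hdiv (dvd_mul_right _ _)
      have h7 := hu.2 P hP1 hP2 h4
      omega
    have h4 : ∏ P ∈ PU K a, (1 - ((({(-f) %ₘ P} : Finset K[X])).card : ℝ) /
        (Fintype.card K : ℝ) ^ P.natDegree) = V1 K a := by
      unfold V1
      refine prod_congr rfl fun P _ => ?_
      rw [Finset.card_singleton, Nat.cast_one]
    rw [h4] at h2
    have h5 := V1_comp (K := K) A (w := w)
    rw [← ha] at h5
    have hq : (0 : ℝ) < (Fintype.card K : ℝ) ^ w := by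
      have : (0 : ℝ) < Fintype.card K := by exact_mod_cast Fintype.card_pos
      positivity
    calc (Xw w f : ℝ) ≤ (1 + 1) * V1 K a * (Fintype.card K : ℝ) ^ w := h3.trans h2
      _ ≤ (1 + 1) * (Real.exp ((A : ℝ) + 11) * V1 K w) * (Fintype.card K : ℝ) ^ w := by gcongr
      _ = _ := by ring

/-- the mean is large -/
theorem mean_large (K : Type) [Field K] [Fintype K] (B : ℝ) :
    ∃ w₀ : ℕ, ∀ w : ℕ, w₀ ≤ w → B ≤ (Fintype.card K : ℝ) ^ w * V1 K w := by
  have hq := q_ge (k := K)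
  have h1 : ∀ w : ℕ, 1 ≤ w → Real.exp (-11) / (w : ℝ) ≤ V1 K w := by
    intro w hw
    have h := prod_ge (K := K) 1 w hw (fun _ => 1) (fun P hP => ⟨le_rfl, by
      have := norm_ge hP
      have h2 : (2 : ℕ) ≤ Fintype.card K ^ P.natDegree := by exact_mod_cast this
      omega⟩)
    refine le_trans (le_of_eq ?_) (h.trans (le_of_eq ?_))
    · push_cast
      rw [pow_one]
      congr 2
      norm_num
    · unfold V1
      refine prod_congr rfl fun P _ => ?_
      push_cast
      ring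
  have h2 : Filter.Tendsto (fun w : ℕ => (w : ℝ) ^ 1 / 2 ^ w) Filter.atTop (nhds 0) :=
    tendsto_pow_const_div_const_pow_of_one_lt 1 (by norm_num)
  obtain ⟨w₀, h3⟩ := (Metric.tendsto_atTop.1 h2) (Real.exp (-11) / (|B| + 1)) (by positivity)
  refine ⟨w₀ + 1, fun w hw => ?_⟩
  have h4 := h3 w (by omega)
  rw [Real.dist_eq, sub_zero, pow_one, abs_of_nonneg (by positivity)] at h4
  have hw0 : (0 : ℝ) < w := by exact_mod_cast (by omega : 0 < w)
  have h5 : |B| + 1 ≤ 2 ^ w * (Real.exp (-11) / w) := by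
    rw [div_lt_div_iff₀ (by positivity) (by positivity)] at h4
    rw [← mul_div_assoc, le_div_iff₀ hw0]
    linarith
  calc B ≤ |B| + 1 := by linarith [le_abs_self B]
    _ ≤ 2 ^ w * (Real.exp (-11) / w) := h5
    _ ≤ (Fintype.card K : ℝ) ^ w * V1 K w := by
        refine mul_le_mul (pow_le_pow_left₀ (by norm_num) hq w) (h1 w (by omega)) (by positivity)
          (by positivity)

end Pool.Agent.H530.Po
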