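import Mathlib
import Pool.Agent.H530.PoC

/-!
# The average density of the tuples in a window over `F_q[X]`, `q` even (helper530)
-/

set_option autoImplicit false

namespace Pool.Agent.H530.Po

open Polynomial Finset
open scoped Classical
open Pool.Agent.H985.Par (Sft)
open Pool.Agent.H694.Typ (Mn Irn mem_Mn mem_Irn card_Mn PU mem_PU wt wt_nonneg wt_le_half q_ge)

/-- double counting -/
theorem dc {α β : Type} (F : Finset α) (D : Finset β) (p q : α → β → Prop) (k l : ℕ) :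
    ∑ f ∈ F, ((D.filter (p f)).card.choose k) * ((D.filter (q f)).card.choose l) =
      ∑ S ∈ D.powersetCard k, ∑ T ∈ D.powersetCard l,
        (F.filter (fun f => (∀ s ∈ S, p f s) ∧ ∀ t ∈ T, q f t)).card := by
  have h1 : ∀ (r : α → β → Prop) (f : α) (j : ℕ), (D.filter (r f)).card.choose j =
      ∑ S ∈ D.powersetCard j, if (∀ s ∈ S, r f s) then 1 else 0 := by
    intro r f j
    rw [← card_powersetCard, ← card_filter]
    congr 1
    ext S
    rw [mem_powersetCard, mem_filter, mem_powersetCard]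
    constructor
    · rintro ⟨h1, h2⟩
      exact ⟨⟨fun s hs => (mem_filter.1 (h1 hs)).1, h2⟩, fun s hs => (mem_filter.1 (h1 hs)).2⟩
    · rintro ⟨⟨h1, h2⟩, h3⟩
      exact ⟨fun s hs => mem_filter.2 ⟨h1 hs, h3 s hs⟩, h2⟩
  have h2 : ∀ f ∈ F, ((D.filter (p f)).card.choose k) * ((D.filter (q f)).card.choose l) =
      ∑ S ∈ D.powersetCard k, ∑ T ∈ D.powersetCard l,
        if ((∀ s ∈ S, p f s) ∧ ∀ t ∈ T, q f t) then 1 else 0 := by
    intro f _
    rw [h1 p f k, h1 q f l, sum_mul_sum]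
    refine sum_congr rfl fun S _ => sum_congr rfl fun T _ => ?_
    by_cases hS : ∀ s ∈ S, p f s
    · by_cases hT : ∀ t ∈ T, q f t
      · rw [if_pos hS, if_pos hT, if_pos ⟨hS, hT⟩, one_mul]
      · rw [if_pos hS, if_neg hT, mul_zero, if_neg (fun h => hT h.2)]
    · rw [if_neg hS, zero_mul, if_neg (fun h => hS h.1)]
  rw [sum_congr rfl h2, sum_comm]
  refine sum_congr rfl fun S _ => ?_
  rw [sum_comm]
  refine sum_congr rfl fun T _ => ?_
  rw [card_filter]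

variable {K : Type} [Field K] [Fintype K]

theorem deg_Dg {w n : ℕ} (hwn : w < n) {u : K[X]} (hu : u ∈ Dg K w) : u.natDegree < n := by
  rw [mem_Dg] at hu
  by_cases h : u = 0
  · rw [h, natDegree_zero]
    omega
  · rw [degree_eq_natDegree h] at hu
    have : u.natDegree < w := by exact_mod_cast hu
    omega

/-- first moment -/
theorem mom1 (w n : ℕ) :
    ∑ f ∈ Mn K n, (Xw w f : ℝ) = ∑ u ∈ Dg K w, ((Rs {u} n w).card : ℝ) := by
  have h1 : ∀ f ∈ Mn K n, (Xw w f : ℝ) = ∑ u ∈ Dg K w, if Sft w (f + u) then (1 : ℝ) else 0 := by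
    intro f _
    unfold Xw
    rw [sum_boole]
  rw [sum_congr rfl h1, sum_comm]
  refine sum_congr rfl fun u _ => ?_
  rw [sum_boole]
  unfold Rs
  simp only [Finset.mem_singleton, forall_eq]

/-- second moment -/
theorem mom2 (w n : ℕ) :
    ∑ f ∈ Mn K n, (Xw w f : ℝ) ^ 2 =
      ∑ u ∈ Dg K w, ∑ v ∈ Dg K w, ((Rs {u, v} n w).card : ℝ) := by
  have h1 : ∀ f ∈ Mn K n, (Xw w f : ℝ) ^ 2 = ∑ u ∈ Dg K w, ∑ v ∈ Dg K w,
      if Sft w (f + u) ∧ Sft w (f + v) then (1 : ℝ) else 0 := by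
    intro f _
    have h2 : (Xw w f : ℝ) = ∑ u ∈ Dg K w, if Sft w (f + u) then (1 : ℝ) else 0 := by
      unfold Xw
      rw [sum_boole]
    rw [sq, h2, sum_mul_sum]
    refine sum_congr rfl fun u _ => sum_congr rfl fun v _ => ?_
    by_cases hu : Sft w (f + u) <;> by_cases hv : Sft w (f + v) <;> simp [hu, hv]
  rw [sum_congr rfl h1, sum_comm]
  refine sum_congr rfl fun u _ => ?_
  rw [sum_comm]
  refine sum_congr rfl fun v _ => ?_
  rw [sum_boole]
  unfold Rs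
  congr 2
  ext f
  rw [mem_filter, mem_filter]
  refine and_congr_right fun _ => ⟨fun h s hs => ?_, fun h => ⟨h u (by simp), h v (by simp)⟩⟩
  rw [Finset.mem_insert, Finset.mem_singleton] at hs
  rcases hs with rfl | rfl
  · exact h.1
  · exact h.2

/-- binomial moments -/
theorem momk (w n k : ℕ) :
    ∑ f ∈ Mn K n, ((Xw w f).choose k : ℝ) =
      ∑ S ∈ (Dg K w).powersetCard k, ((Rs S n w).card : ℝ) := by
  have h := dc (Mn K n) (Dg K w) (fun f u => Sft w (f + u)) (fun _ _ => True) k 0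
  rw [Finset.powersetCard_zero] at h
  simp only [Nat.choose_zero_right, mul_one, sum_singleton, Finset.notMem_empty, IsEmpty.forall_iff,
    implies_true, and_true] at h
  have h2 : ∑ f ∈ Mn K n, (Xw w f).choose k = ∑ S ∈ (Dg K w).powersetCard k, (Rs S n w).card := h
  exact_mod_cast h2

/-- comparison of the binomial coefficient and the power -/
theorem choose_pow (k X : ℕ) (hk : 1 ≤ k) :
    |(k.factorial : ℝ) * (X.choose k : ℝ) - (X : ℝ) ^ k| ≤ (k : ℝ) ^ 2 * (X : ℝ) ^ (k - 1) := by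
  have h1 : (k.factorial : ℝ) * (X.choose k : ℝ) = (X.descFactorial k : ℝ) := by
    exact_mod_cast (Nat.descFactorial_eq_factorial_mul_choose X k).symm
  have h2 : (X.descFactorial k : ℝ) ≤ (X : ℝ) ^ k := by
    exact_mod_cast Nat.descFactorial_le_pow X k
  have h3 : ((X + 1 - k : ℕ) : ℝ) ^ k ≤ (X.descFactorial k : ℝ) := by
    exact_mod_cast Nat.pow_sub_le_descFactorial X k
  have h4 := abs_pow_sub_pow_le (X : ℝ) ((X + 1 - k : ℕ) : ℝ) k
  have h5 : ((X + 1 - k : ℕ) : ℝ) ≤ X := by exact_mod_cast (by omega : X + 1 - k ≤ X)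
  have h6 : |(X : ℝ) - ((X + 1 - k : ℕ) : ℝ)| ≤ k := by
    rw [abs_of_nonneg (by linarith)]
    have : X ≤ (X + 1 - k) + k := by omega
    have h7 : (X : ℝ) ≤ ((X + 1 - k : ℕ) : ℝ) + k := by exact_mod_cast this
    linarith
  have h7 : max |(X : ℝ)| |((X + 1 - k : ℕ) : ℝ)| = X := by
    rw [Nat.abs_cast, Nat.abs_cast]
    exact max_eq_left h5
  rw [h7] at h4
  have h8 : (X : ℝ) ^ k - ((X + 1 - k : ℕ) : ℝ) ^ k ≤ (k : ℝ) ^ 2 * (X : ℝ) ^ (k - 1) := by
    refine (le_abs_self _).trans (h4.trans ?_)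
    rw [sq]
    gcongr
  rw [h1, abs_le]
  constructor
  · linarith
  · have : 0 ≤ (k : ℝ) ^ 2 * (X : ℝ) ^ (k - 1) := by positivity
    linarith

/-- **The average density of the tuples in a window.** -/
theorem avg (K : Type) [Field K] [Fintype K] [CharP K 2] (k : ℕ) (ε : ℝ) (hε : 0 < ε) :
    ∃ w₀ : ℕ, ∀ w : ℕ, w₀ ≤ w →
      |∑ S ∈ (Dg K w).powersetCard k, VS S w -
        ((Fintype.card K : ℝ) ^ w * V1 K w) ^ k / (k.factorial : ℝ)| ≤
          ε * ((Fintype.card K : ℝ) ^ w * V1 K w) ^ k := by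
  rcases Nat.eq_zero_or_pos k with rfl | hk
  · refine ⟨0, fun w _ => ?_⟩
    rw [Finset.powersetCard_zero, sum_singleton, VS_empty, pow_zero, Nat.factorial_zero,
      Nat.cast_one, div_one, sub_self, abs_zero]
    linarith
  obtain ⟨C, hC1, w₁, hC⟩ := pointwise K
  obtain ⟨e, he⟩ : ∃ e : ℝ, e = min ε 1 := ⟨_, rfl⟩
  have he0 : 0 < e := by rw [he]; exact lt_min hε one_pos
  have he1 : e ≤ 1 := by rw [he]; exact min_le_right _ _
  have heε : e ≤ ε := by rw [he]; exact min_le_left _ _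
  have hk1 : (1 : ℝ) ≤ k := by exact_mod_cast hk
  obtain ⟨G, hG⟩ : ∃ G : ℝ, G = (k : ℝ) ^ 2 * C ^ (k - 1) := ⟨_, rfl⟩
  have hG1 : 0 < G := by rw [hG]; positivity
  obtain ⟨η, hη⟩ : ∃ η : ℝ, η = e / (4 * G) := ⟨_, rfl⟩
  have hη0 : 0 < η := by rw [hη]; positivity
  have hGη : G * η = e / 4 := by rw [hη]; field_simp
  obtain ⟨δ, hδ⟩ : ∃ δ : ℝ, δ = min (e / 8) (e * η / (12 * G)) := ⟨_, rfl⟩
  have hδ0 : 0 < δ := by rw [hδ]; exact lt_min (by positivity) (by positivity)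
  have hδ1 : δ ≤ e / 8 := by rw [hδ]; exact min_le_left _ _
  have hδ2 : G * (3 * δ / (2 * η)) ≤ e / 8 := by
    have h1 : δ ≤ e * η / (12 * G) := by rw [hδ]; exact min_le_right _ _
    calc G * (3 * δ / (2 * η)) ≤ G * (3 * (e * η / (12 * G)) / (2 * η)) := by gcongr
      _ = e / 8 := by field_simp; norm_num
  obtain ⟨κ₁, hκ₁, M₁, N₁, H₁⟩ := asy K 1 δ hδ0
  obtain ⟨κ₂, hκ₂, M₂, N₂, H₂⟩ := asy K 2 δ hδ0
  obtain ⟨κ₃, hκ₃, M₃, N₃, H₃⟩ := asy K k δ hδ0
  obtain ⟨w₂, hμ⟩ := mean_large K (1 + 8 * G / (η * e) + 8 * G / e)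
  refine ⟨M₁ + M₂ + M₃ + w₁ + w₂, fun w hw => ?_⟩
  obtain ⟨μ, hμdef⟩ : ∃ μ : ℝ, μ = (Fintype.card K : ℝ) ^ w * V1 K w := ⟨_, rfl⟩
  have hμB := hμ w (by omega)
  rw [← hμdef] at hμB ⊢
  have hb1 : 0 ≤ 8 * G / (η * e) := by positivity
  have hb2 : 0 ≤ 8 * G / e := by positivity
  have hμ1 : 1 ≤ μ := by linarith
  have hμ0 : 0 < μ := by linarith
  have hμ2 : G / (η * μ) ≤ e / 8 := by
    have h1 : 8 * G / (η * e) ≤ μ := by linarith
    rw [div_le_iff₀ (by positivity)] at h1 ⊢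
    nlinarith
  have hμ3 : G / μ ≤ e / 8 := by
    have h1 : 8 * G / e ≤ μ := by linarith
    rw [div_le_iff₀ (by positivity)] at h1 ⊢
    nlinarith
  obtain ⟨n, hn⟩ : ∃ n : ℕ, n = N₁ + N₂ + N₃ + w + 1 + ⌈(w : ℝ) / κ₁⌉₊ + ⌈(w : ℝ) / κ₂⌉₊ +
      ⌈(w : ℝ) / κ₃⌉₊ := ⟨_, rfl⟩
  have hκn : ∀ κ : ℝ, 0 < κ → ⌈(w : ℝ) / κ⌉₊ ≤ n → (w : ℝ) ≤ κ * n := by
    intro κ hκ h
    have h1 : (w : ℝ) / κ ≤ n := (Nat.le_ceil _).trans (by exact_mod_cast h)
    rw [div_le_iff₀ hκ] at h1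
    linarith
  have hwn : w < n := by omega
  have hdeg : ∀ S : Finset K[X], S ⊆ Dg K w → ∀ s ∈ S, s.natDegree < n := fun S hS s hs =>
    deg_Dg hwn (hS hs)
  obtain ⟨Z, hZ⟩ : ∃ Z : ℝ, Z = (Fintype.card K : ℝ) ^ n := ⟨_, rfl⟩
  have hZ0 : 0 < Z := by
    rw [hZ]
    have : (0 : ℝ) < Fintype.card K := by exact_mod_cast Fintype.card_pos
    positivity
  have hR : ∀ (j : ℕ) (κ : ℝ) (M N : ℕ), (∀ n m : ℕ, N ≤ n → M ≤ m → (m : ℝ) ≤ κ * n →
      ∀ S T : Finset K[X], Disjoint S T → (S ∪ T).card = j → (∀ s ∈ S ∪ T, s.natDegree < n) →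
      |((Rs (S ∪ T) n m).card : ℝ) - VS (S ∪ T) m * (Fintype.card K : ℝ) ^ n| ≤
        δ * (VS (S ∪ T) m * (Fintype.card K : ℝ) ^ n) ∧
      |((Ps S T n m).card : ℝ) - VS (S ∪ T) m * (Fintype.card K : ℝ) ^ n / 2 ^ j| ≤
        δ * (VS (S ∪ T) m * (Fintype.card K : ℝ) ^ n)) → N ≤ n → M ≤ w → (w : ℝ) ≤ κ * n →
      ∀ S : Finset K[X], S ⊆ Dg K w → S.card = j →
        |((Rs S n w).card : ℝ) - VS S w * Z| ≤ δ * (VS S w * Z) := by
    intro j κ M N H hN hM hκ S hS hSj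
    have h := (H n w hN hM hκ S ∅ (Finset.disjoint_empty_right S) (by rw [Finset.union_empty, hSj])
      (by rw [Finset.union_empty]; exact hdeg S hS)).1
    rw [Finset.union_empty, ← hZ] at h
    exact h
  have R1 := hR 1 κ₁ M₁ N₁ H₁ (by omega) (by omega) (hκn κ₁ hκ₁ (by omega))
  have R2 := hR 2 κ₂ M₂ N₂ H₂ (by omega) (by omega) (hκn κ₂ hκ₂ (by omega))
  have R3 := hR k κ₃ M₃ N₃ H₃ (by omega) (by omega) (hκn κ₃ hκ₃ (by omega))
  have hFc : ((Mn K n).card : ℝ) = Z := by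
    rw [card_Mn, hZ]
    push_cast
    rfl
  -- the first moment
  have m1 : (1 - δ) * (μ * Z) ≤ ∑ f ∈ Mn K n, (Xw w f : ℝ) := by
    rw [mom1]
    have h1 : ∀ u ∈ Dg K w, (1 - δ) * (V1 K w * Z) ≤ ((Rs {u} n w).card : ℝ) := by
      intro u hu
      have h := R1 {u} (Finset.singleton_subset_iff.2 hu) (Finset.card_singleton u)
      rw [VS_single, abs_le] at h
      linarith [h.1]
    refine le_trans (le_of_eq ?_) (sum_le_sum h1)
    rw [sum_const, nsmul_eq_mul, card_Dg, hμdef]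
    push_cast
    ring
  -- the second moment
  have m2 : ∑ f ∈ Mn K n, (Xw w f : ℝ) ^ 2 ≤ (1 + δ) * ((μ ^ 2 + μ) * Z) := by
    rw [mom2]
    have h1 : ∀ u ∈ Dg K w, ∀ v ∈ Dg K w,
        ((Rs {u, v} n w).card : ℝ) ≤ (1 + δ) * (VS {u, v} w * Z) := by
      intro u hu v hv
      by_cases huv : u = v
      · subst huv
        rw [Finset.pair_eq_singleton]
        have h := R1 {u} (Finset.singleton_subset_iff.2 hu) (Finset.card_singleton u)
        rw [abs_le] at h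
        linarith [h.2]
      · have h := R2 {u, v} (by
          intro x hx
          rw [Finset.mem_insert, Finset.mem_singleton] at hx
          rcases hx with rfl | rfl
          · exact hu
          · exact hv) (Finset.card_pair huv)
        rw [abs_le] at h
        linarith [h.2]
    refine (sum_le_sum fun u hu => sum_le_sum fun v hv => h1 u hu v hv).trans ?_
    have h2 : ∑ u ∈ Dg K w, ∑ v ∈ Dg K w, (1 + δ) * (VS {u, v} w * Z) =
        (1 + δ) * ((∑ u ∈ Dg K w, ∑ v ∈ Dg K w, VS {u, v} w) * Z) := by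
      rw [sum_mul, mul_sum]
      refine sum_congr rfl fun u _ => ?_
      rw [sum_mul, mul_sum]
    rw [h2]
    have h3 := pair_sum (K := K) w
    rw [← hμdef] at h3
    gcongr
  -- the variance
  have m3 : ∑ f ∈ Mn K n, ((Xw w f : ℝ) - μ) ^ 2 ≤ (3 * δ * μ ^ 2 + 2 * μ) * Z := by
    have h1 : ∑ f ∈ Mn K n, ((Xw w f : ℝ) - μ) ^ 2 = ∑ f ∈ Mn K n, (Xw w f : ℝ) ^ 2 -
        2 * μ * ∑ f ∈ Mn K n, (Xw w f : ℝ) + μ ^ 2 * Z := by
      rw [mul_sum, ← sum_sub_distrib, ← hFc, mul_comm (μ ^ 2), ← nsmul_eq_mul, ← sum_const,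
        ← sum_add_distrib]
      exact sum_congr rfl fun f _ => by ring
    rw [h1]
    have h2 : 2 * μ * ((1 - δ) * (μ * Z)) ≤ 2 * μ * ∑ f ∈ Mn K n, (Xw w f : ℝ) :=
      mul_le_mul_of_nonneg_left m1 (by positivity)
    have h3 : δ * (μ * Z) ≤ 1 * (μ * Z) :=
      mul_le_mul_of_nonneg_right (by linarith) (by positivity)
    nlinarith
  -- the mean deviation
  have m4 : ∑ f ∈ Mn K n, |(Xw w f : ℝ) - μ| ≤
      μ * Z * (3 * δ / (2 * η) + 1 / (η * μ) + η / 2) := by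
    have h1 : ∀ f ∈ Mn K n, |(Xw w f : ℝ) - μ| ≤
        1 / (2 * η * μ) * ((Xw w f : ℝ) - μ) ^ 2 + η * μ / 2 := by
      intro f _
      rw [← sq_abs]
      have h2 : 0 ≤ (|(Xw w f : ℝ) - μ| - η * μ) ^ 2 := sq_nonneg _
      have h3 : 1 / (2 * η * μ) * |(Xw w f : ℝ) - μ| ^ 2 + η * μ / 2 - |(Xw w f : ℝ) - μ| =
          1 / (2 * η * μ) * (|(Xw w f : ℝ) - μ| - η * μ) ^ 2 := by
        field_simp
        ring
      have h4 : 0 ≤ 1 / (2 * η * μ) * (|(Xw w f : ℝ) - μ| - η * μ) ^ 2 := by positivity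
      linarith
    refine (sum_le_sum h1).trans ?_
    rw [sum_add_distrib, ← mul_sum, sum_const, nsmul_eq_mul, hFc]
    have h2 : 1 / (2 * η * μ) * ∑ f ∈ Mn K n, ((Xw w f : ℝ) - μ) ^ 2 ≤
        1 / (2 * η * μ) * ((3 * δ * μ ^ 2 + 2 * μ) * Z) :=
      mul_le_mul_of_nonneg_left m3 (by positivity)
    refine (add_le_add_left h2 _).trans (le_of_eq ?_)
    field_simp
  -- the powers
  have hXC : ∀ f : K[X], (Xw w f : ℝ) ≤ C * μ := fun f => by
    rw [hμdef]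
    exact hC w (by omega) f
  have hμC : μ ≤ C * μ := by nlinarith
  have m5 : ∀ f ∈ Mn K n, |(k.factorial : ℝ) * ((Xw w f).choose k : ℝ) - μ ^ k| ≤
      G * μ ^ (k - 1) * |(Xw w f : ℝ) - μ| + G * μ ^ (k - 1) := by
    intro f _
    have h1 := choose_pow k (Xw w f) hk
    have h2 := abs_pow_sub_pow_le (Xw w f : ℝ) μ k
    have h3 : max |(Xw w f : ℝ)| |μ| ≤ C * μ := by
      rw [Nat.abs_cast, abs_of_pos hμ0]
      exact max_le (hXC f) hμC
    have h4 : (max |(Xw w f : ℝ)| |μ|) ^ (k - 1) ≤ C ^ (k - 1) * μ ^ (k - 1) := by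
      rw [← mul_pow]
      exact pow_le_pow_left₀ (le_max_of_le_left (abs_nonneg _)) h3 _
    have h5 : (Xw w f : ℝ) ^ (k - 1) ≤ C ^ (k - 1) * μ ^ (k - 1) := by
      rw [← mul_pow]
      exact pow_le_pow_left₀ (Nat.cast_nonneg _) (hXC f) _
    have h6 : |(Xw w f : ℝ) ^ k - μ ^ k| ≤ G * μ ^ (k - 1) * |(Xw w f : ℝ) - μ| := by
      refine h2.trans ?_
      have h7 : (k : ℝ) ≤ (k : ℝ) ^ 2 := by nlinarith
      calc |(Xw w f : ℝ) - μ| * k * (max |(Xw w f : ℝ)| |μ|) ^ (k - 1)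
          ≤ |(Xw w f : ℝ) - μ| * (k : ℝ) ^ 2 * (C ^ (k - 1) * μ ^ (k - 1)) := by gcongr
        _ = _ := by rw [hG]; ring
    have h7 : (k : ℝ) ^ 2 * (Xw w f : ℝ) ^ (k - 1) ≤ G * μ ^ (k - 1) := by
      rw [hG, mul_assoc]
      exact mul_le_mul_of_nonneg_left h5 (by positivity)
    have h8 : |(k.factorial : ℝ) * ((Xw w f).choose k : ℝ) - μ ^ k| ≤
        |(k.factorial : ℝ) * ((Xw w f).choose k : ℝ) - (Xw w f : ℝ) ^ k| +
          |(Xw w f : ℝ) ^ k - μ ^ k| := abs_sub_le _ _ _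
    linarith
  have hμk : μ ^ (k - 1) * μ = μ ^ k := by
    rw [← pow_succ]
    congr 1
    omega
  have m6 : |(k.factorial : ℝ) * ∑ f ∈ Mn K n, ((Xw w f).choose k : ℝ) - μ ^ k * Z| ≤
      e / 2 * (μ ^ k * Z) := by
    have h1 : (k.factorial : ℝ) * ∑ f ∈ Mn K n, ((Xw w f).choose k : ℝ) - μ ^ k * Z =
        ∑ f ∈ Mn K n, ((k.factorial : ℝ) * ((Xw w f).choose k : ℝ) - μ ^ k) := by
      rw [sum_sub_distrib, sum_const, nsmul_eq_mul, hFc, mul_sum, mul_comm (μ ^ k)]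
    rw [h1]
    refine (abs_sum_le_sum_abs _ _).trans ((sum_le_sum m5).trans ?_)
    rw [sum_add_distrib, ← mul_sum, sum_const, nsmul_eq_mul, hFc]
    have h2 : G * μ ^ (k - 1) * ∑ f ∈ Mn K n, |(Xw w f : ℝ) - μ| ≤
        G * μ ^ (k - 1) * (μ * Z * (3 * δ / (2 * η) + 1 / (η * μ) + η / 2)) :=
      mul_le_mul_of_nonneg_left m4 (by positivity)
    have h3 : G * μ ^ (k - 1) * (μ * Z * (3 * δ / (2 * η) + 1 / (η * μ) + η / 2)) =
        (G * (3 * δ / (2 * η)) + G / (η * μ) + G * η / 2) * (μ ^ k * Z) := by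
      rw [← hμk]
      field_simp
    have h4 : Z * (G * μ ^ (k - 1)) = G / μ * (μ ^ k * Z) := by
      rw [← hμk]
      field_simp
    rw [h3] at h2
    rw [h4]
    have h5 : (G * (3 * δ / (2 * η)) + G / (η * μ) + G * η / 2) + G / μ ≤ e / 2 := by
      rw [hGη]
      linarith
    have h6 := mul_le_mul_of_nonneg_right h5 (by positivity : 0 ≤ μ ^ k * Z)
    rw [add_mul] at h6
    linarith
  -- conclusion
  rw [momk] at m6
  obtain ⟨A, hA⟩ : ∃ A : ℝ, A = ∑ S ∈ (Dg K w).powersetCard k, VS S w := ⟨_, rfl⟩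
  obtain ⟨B, hB⟩ : ∃ B : ℝ, B = ∑ S ∈ (Dg K w).powersetCard k, ((Rs S n w).card : ℝ) := ⟨_, rfl⟩
  rw [← hA]
  rw [← hB] at m6
  have m7 : |B - A * Z| ≤ δ * (A * Z) := by
    rw [hA, hB, sum_mul, ← sum_sub_distrib, mul_sum]
    refine (abs_sum_le_sum_abs _ _).trans (sum_le_sum fun S hS => ?_)
    rw [mem_powersetCard] at hS
    exact R3 S hS.1 hS.2
  have hfac : (1 : ℝ) ≤ (k.factorial : ℝ) := by
    exact_mod_cast Nat.one_le_iff_ne_zero.2 (Nat.factorial_ne_zero k)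
  obtain ⟨Y, hY⟩ : ∃ Y : ℝ, Y = μ ^ k / (k.factorial : ℝ) := ⟨_, rfl⟩
  have hY0 : 0 < Y := by rw [hY]; positivity
  have hYk : (k.factorial : ℝ) * Y = μ ^ k := by rw [hY]; field_simp
  have hYle : Y ≤ μ ^ k := by rw [hY]; exact div_le_self (by positivity) hfac
  rw [← hY]
  have m8 : |B - Y * Z| ≤ e / 2 * (Y * Z) := by
    have h1 : (k.factorial : ℝ) * |B - Y * Z| ≤ (k.factorial : ℝ) * (e / 2 * (Y * Z)) := by
      have h2 : (k.factorial : ℝ) * |B - Y * Z| = |(k.factorial : ℝ) * B - μ ^ k * Z| := by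
        rw [← hYk, mul_assoc, ← mul_sub, abs_mul, abs_of_pos (by linarith : (0 : ℝ) < k.factorial)]
      rw [h2]
      refine m6.trans (le_of_eq ?_)
      rw [← hYk]
      ring
    exact le_of_mul_le_mul_left h1 (by linarith)
  rw [abs_le] at m7 m8
  have hAZ : A * Z ≤ 2 * (Y * Z) := by
    have h1 : (1 - δ) * (A * Z) ≤ (1 + e / 2) * (Y * Z) := by linarith [m7.1, m8.2]
    have hA0 : 0 ≤ A * Z := by
      by_contra hcon
      push Not at hcon
      have h2 : 0 < (1 + δ) * (A * Z) := by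
        have h3 : 0 < (1 - e / 2) * (Y * Z) := by
          have : 0 < Y * Z := by positivity
          have h4 : 0 < 1 - e / 2 := by linarith
          positivity
        linarith [m7.2, m8.1]
      nlinarith
    have h2 : (7 / 8 : ℝ) * (A * Z) ≤ (1 - δ) * (A * Z) :=
      mul_le_mul_of_nonneg_right (by linarith) hA0
    have h3 : (1 + e / 2) * (Y * Z) ≤ (3 / 2) * (Y * Z) :=
      mul_le_mul_of_nonneg_right (by linarith) (by positivity)
    have h4 : 0 ≤ Y * Z := by positivity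
    linarith
  have hAZ0 : 0 ≤ A * Z := by
    by_contra hcon
    push Not at hcon
    have h2 : 0 < (1 + δ) * (A * Z) := by
      have h3 : 0 < (1 - e / 2) * (Y * Z) := by
        have : 0 < Y * Z := by positivity
        have h4 : 0 < 1 - e / 2 := by linarith
        positivity
      linarith [m7.2, m8.1]
    nlinarith
  have m9 : |A * Z - Y * Z| ≤ e * (Y * Z) := by
    have h1 : δ * (A * Z) ≤ e / 8 * (2 * (Y * Z)) :=
      mul_le_mul hδ1 hAZ hAZ0 (by positivity)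
    rw [abs_le]
    have h4 : 0 ≤ e * (Y * Z) := by positivity
    constructor
    · linarith [m7.2, m8.1]
    · linarith [m7.1, m8.2]
  rw [← sub_mul, abs_mul, abs_of_pos hZ0, ← mul_assoc] at m9
  have m10 := le_of_mul_le_mul_right m9 hZ0
  exact m10.trans (mul_le_mul heε hYle hY0.le hε.le)

end Pool.Agent.H530.Po
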