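import Mathlib
import Pool.Agent.H530.PoA
import Pool.Agent.H530.PoD

/-!
# Joint Poisson law of the odd and of the even sifted polynomials in short windows over `F_q[X]`,
`q` even (helper530)
-/

set_option autoImplicit false

namespace Pool.Agent.H530.Po

open Polynomial Finset
open scoped Classical
open Pool.Agent.H985.Par (Sft)
open Pool.Agent.H694.Typ (Mn Irn mem_Mn mem_Irn card_Mn PU mem_PU wt wt_nonneg wt_le_half q_ge)

theorem prod_one_sub {ι : Type} (s : Finset ι) (a : ι → ℝ) (h0 : ∀ i ∈ s, 0 ≤ a i)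
    (h1 : ∀ i ∈ s, a i ≤ 1) : 1 - ∑ i ∈ s, a i ≤ ∏ i ∈ s, (1 - a i) := by
  induction s using Finset.induction_on with
  | empty => simp
  | insert x s hx ih =>
    rw [sum_insert hx, prod_insert hx]
    have i1 := ih (fun i hi => h0 i (mem_insert_of_mem hi)) (fun i hi => h1 i (mem_insert_of_mem hi))
    have i2 := h0 x (mem_insert_self x s)
    have i3 := h1 x (mem_insert_self x s)
    have i4 : ∏ i ∈ s, (1 - a i) ≤ 1 := prod_le_one
      (fun i hi => by linarith [h1 i (mem_insert_of_mem hi)])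
      (fun i hi => by linarith [h0 i (mem_insert_of_mem hi)])
    nlinarith

/-- pairs of disjoint sets -/
theorem sum_pairs {β : Type} [DecidableEq β] (D : Finset β) (k l : ℕ) (g : Finset β → ℝ) :
    ∑ S ∈ D.powersetCard k, ∑ T ∈ D.powersetCard l, (if Disjoint S T then g (S ∪ T) else 0) =
      ((k + l).choose k : ℝ) * ∑ R ∈ D.powersetCard (k + l), g R := by
  have h1 : ((k + l).choose k : ℝ) * ∑ R ∈ D.powersetCard (k + l), g R =
      ∑ R ∈ D.powersetCard (k + l), ∑ S ∈ R.powersetCard k, g R := by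
    rw [mul_sum]
    refine sum_congr rfl fun R hR => ?_
    rw [sum_const, card_powersetCard, (mem_powersetCard.1 hR).2, nsmul_eq_mul]
  rw [h1, ← sum_product', ← sum_filter, sum_sigma']
  refine sum_bij' (fun x _ => (⟨x.1 ∪ x.2, x.1⟩ : (_ : Finset β) × Finset β))
    (fun y _ => (y.2, y.1 \ y.2)) ?_ ?_ ?_ ?_ ?_
  · rintro ⟨S, T⟩ hx
    rw [mem_filter, mem_product, mem_powersetCard, mem_powersetCard] at hx
    obtain ⟨⟨⟨h2, h3⟩, h4, h5⟩, h6⟩ := hx
    rw [mem_sigma, mem_powersetCard, mem_powersetCard]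
    refine ⟨⟨union_subset h2 h4, ?_⟩, subset_union_left, h3⟩
    rw [card_union_of_disjoint h6, h3, h5]
  · rintro ⟨R, S⟩ hy
    rw [mem_sigma, mem_powersetCard, mem_powersetCard] at hy
    obtain ⟨⟨h2, h3⟩, h4, h5⟩ := hy
    dsimp only at h2 h3 h4 h5
    rw [mem_filter, mem_product, mem_powersetCard, mem_powersetCard]
    refine ⟨⟨⟨h4.trans h2, h5⟩, sdiff_subset.trans h2, ?_⟩, disjoint_sdiff⟩
    dsimp only
    rw [card_sdiff_of_subset h4, h3, h5]
    omega
  · rintro ⟨S, T⟩ hx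
    rw [mem_filter] at hx
    dsimp only
    rw [Prod.mk.injEq]
    exact ⟨rfl, union_sdiff_cancel_left hx.2⟩
  · rintro ⟨R, S⟩ hy
    rw [mem_sigma, mem_powersetCard, mem_powersetCard] at hy
    have h4 : S ⊆ R := hy.2.1
    dsimp only
    rw [union_sdiff_of_subset h4]
  · rintro ⟨S, T⟩ hx
    rfl

variable {K : Type} [Field K] [Fintype K]

/-- **The product over the large primes.** -/
theorem large_prod (K : Type) [Field K] [Fintype K] (k : ℕ) (ε : ℝ) (hε : 0 < ε) :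
    ∃ w₀ : ℕ, ∀ w m : ℕ, w₀ ≤ w →
      |∏ P ∈ PU K m \ PU K w, (1 - (k : ℝ) / (Fintype.card K : ℝ) ^ P.natDegree) -
        (∏ P ∈ PU K m \ PU K w, (1 - 1 / (Fintype.card K : ℝ) ^ P.natDegree)) ^ k| ≤
      ε * (∏ P ∈ PU K m \ PU K w, (1 - 1 / (Fintype.card K : ℝ) ^ P.natDegree)) ^ k := by
  have hlim : Filter.Tendsto (fun w : ℕ => (1 / 2 : ℝ) ^ w) Filter.atTop (nhds 0) :=
    tendsto_pow_atTop_nhds_zero_of_lt_one (by norm_num) (by norm_num)
  obtain ⟨w₀, hw₀⟩ := (Metric.tendsto_atTop.1 hlim) (min (ε / (2 * (k : ℝ) ^ 2 + 1))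
    (1 / (2 * (k : ℝ) + 1))) (lt_min (by positivity) (by positivity))
  refine ⟨w₀, fun w m hw => ?_⟩
  have h0 := hw₀ w hw
  rw [Real.dist_eq, sub_zero, abs_of_nonneg (by positivity), lt_min_iff] at h0
  obtain ⟨h0a, h0b⟩ := h0
  obtain ⟨x, hx⟩ : ∃ x : K[X] → ℝ, x = fun P => 1 / (Fintype.card K : ℝ) ^ P.natDegree := ⟨_, rfl⟩
  have hxw : ∀ P, x P = wt K P.natDegree := fun P => by
    rw [hx]
    unfold Pool.Agent.H694.Typ.wt
    exact one_div _
  have hx0 : ∀ P, 0 ≤ x P := fun P => by rw [hxw]; exact wt_nonneg _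
  have hxk : ∀ P ∈ PU K m \ PU K w, (k : ℝ) * x P ≤ 1 / 2 := by
    intro P hP
    rw [mem_sdiff, mem_PU, mem_PU] at hP
    obtain ⟨⟨h2, h3, h4⟩, h5⟩ := hP
    have h6 : w ≤ P.natDegree := by
      by_contra hc
      exact h5 ⟨h2, h3, by omega⟩
    have h7 : x P ≤ (1 / 2 : ℝ) ^ w := by
      rw [hxw]
      exact (wt_le_half _).trans (pow_le_pow_of_le_one (by norm_num) (by norm_num) h6)
    have h8 : x P ≤ 1 / (2 * (k : ℝ) + 1) := h7.trans h0b.le
    rw [le_div_iff₀ (by positivity)] at h8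
    have h9 := hx0 P
    nlinarith
  have hx1 : ∀ P ∈ PU K m \ PU K w, x P ≤ 1 / 2 := by
    intro P hP
    have h1 := V1_fac (mem_sdiff.1 hP).1
    rw [hx]
    dsimp only
    linarith
  have e1 : ∀ P ∈ PU K m \ PU K w, (1 - (k : ℝ) / (Fintype.card K : ℝ) ^ P.natDegree) =
      1 - (k : ℝ) * x P := by
    intro P _
    rw [hx]
    dsimp only
    rw [mul_one_div]
  have e2 : ∏ P ∈ PU K m \ PU K w, (1 - 1 / (Fintype.card K : ℝ) ^ P.natDegree) =
      ∏ P ∈ PU K m \ PU K w, (1 - x P) := by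
    rw [hx]
  rw [prod_congr rfl e1, e2, ← prod_pow]
  have up : ∏ P ∈ PU K m \ PU K w, (1 - (k : ℝ) * x P) ≤ ∏ P ∈ PU K m \ PU K w, (1 - x P) ^ k := by
    refine prod_le_prod (fun P hP => by linarith [hxk P hP]) (fun P hP => ?_)
    have h1 := one_add_mul_le_pow (a := -(x P)) (by linarith [hx1 P hP]) k
    have h2 : 1 + (k : ℝ) * -(x P) = 1 - (k : ℝ) * x P := by ring
    have h3 : 1 + -(x P) = 1 - x P := by ring
    rw [h2, h3] at h1
    exact h1
  have lo : (∏ P ∈ PU K m \ PU K w, (1 - x P) ^ k) * (1 - ε) ≤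
      ∏ P ∈ PU K m \ PU K w, (1 - (k : ℝ) * x P) := by
    have h1 : ∀ P ∈ PU K m \ PU K w, (1 - x P) ^ k * (1 - 2 * ((k : ℝ) * x P) ^ 2) ≤
        1 - (k : ℝ) * x P := by
      intro P hP
      have hy := hxk P hP
      have hy0 : 0 ≤ (k : ℝ) * x P := mul_nonneg (Nat.cast_nonneg k) (hx0 P)
      have h2 : (1 - x P) ^ k ≤ 1 / (1 + (k : ℝ) * x P) := by
        have h3 : 1 - x P ≤ Real.exp (-(x P)) := by
          have := Real.add_one_le_exp (-(x P))
          linarith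
        have h4 : (1 - x P) ^ k ≤ Real.exp (-((k : ℝ) * x P)) := by
          refine (pow_le_pow_left₀ (by linarith [hx1 P hP]) h3 k).trans (le_of_eq ?_)
          rw [← Real.exp_nat_mul]
          congr 1
          ring
        refine h4.trans ?_
        rw [Real.exp_neg, ← one_div]
        refine one_div_le_one_div_of_le (by linarith) ?_
        have := Real.add_one_le_exp ((k : ℝ) * x P)
        linarith
      obtain ⟨y, hyd⟩ : ∃ y, y = (k : ℝ) * x P := ⟨_, rfl⟩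
      rw [← hyd] at hy hy0 h2 ⊢
      have h5 : 0 ≤ 1 - 2 * y ^ 2 := by nlinarith
      calc (1 - x P) ^ k * (1 - 2 * y ^ 2) ≤ 1 / (1 + y) * (1 - 2 * y ^ 2) :=
            mul_le_mul_of_nonneg_right h2 h5
        _ ≤ 1 - y := by
            rw [one_div, inv_mul_le_iff₀ (by linarith)]
            nlinarith
    have h2 : ∀ P ∈ PU K m \ PU K w, 0 ≤ (1 - x P) ^ k * (1 - 2 * ((k : ℝ) * x P) ^ 2) := by
      intro P hP
      have hy := hxk P hP
      have hy0 : 0 ≤ (k : ℝ) * x P := mul_nonneg (Nat.cast_nonneg k) (hx0 P)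
      have h3 := hx1 P hP
      refine mul_nonneg (pow_nonneg (by linarith) k) ?_
      nlinarith
    refine le_trans ?_ (prod_le_prod h2 h1)
    rw [prod_mul_distrib]
    refine mul_le_mul_of_nonneg_left ?_ (prod_nonneg fun P hP =>
      pow_nonneg (by linarith [hx1 P hP]) k)
    refine le_trans ?_ (prod_one_sub (PU K m \ PU K w) (fun P => 2 * ((k : ℝ) * x P) ^ 2)
      (fun P _ => by positivity) (fun P hP => ?_))
    · have h3 : ∑ P ∈ PU K m \ PU K w, 2 * ((k : ℝ) * x P) ^ 2 ≤ ε := by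
        have h4 : ∑ P ∈ PU K m \ PU K w, 2 * ((k : ℝ) * x P) ^ 2 =
            2 * (k : ℝ) ^ 2 * ∑ P ∈ PU K m \ PU K w, wt K P.natDegree ^ 2 := by
          rw [mul_sum]
          refine sum_congr rfl fun P _ => ?_
          rw [hxw]
          ring
        rw [h4]
        have h5 := sum_sq_sdiff (K := K) w m
        have h6 : (1 / 2 : ℝ) ^ w ≤ ε / (2 * (k : ℝ) ^ 2 + 1) := h0a.le
        rw [le_div_iff₀ (by positivity)] at h6
        have h7 : 0 ≤ (1 / 2 : ℝ) ^ w := by positivity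
        calc 2 * (k : ℝ) ^ 2 * ∑ P ∈ PU K m \ PU K w, wt K P.natDegree ^ 2
            ≤ 2 * (k : ℝ) ^ 2 * (1 / 2 : ℝ) ^ w := by gcongr
          _ ≤ ε := by nlinarith
      linarith
    · have hy := hxk P hP
      have hy0 : 0 ≤ (k : ℝ) * x P := mul_nonneg (Nat.cast_nonneg k) (hx0 P)
      nlinarith
  have hW : 0 ≤ ∏ P ∈ PU K m \ PU K w, (1 - x P) ^ k := prod_nonneg fun P hP =>
    pow_nonneg (by linarith [hx1 P hP]) k
  rw [abs_le]
  constructor
  · linarith
  · have := mul_nonneg hε.le hW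
    linarith

/-- odd and even at the same time is impossible -/
theorem Ps_empty {S T : Finset K[X]} (n m : ℕ) (h : ¬ Disjoint S T) : Ps S T n m = ∅ := by
  rw [Finset.not_disjoint_iff] at h
  obtain ⟨s, hs, ht⟩ := h
  rw [Finset.eq_empty_iff_forall_notMem]
  intro f hf
  unfold Ps at hf
  rw [mem_filter] at hf
  have h1 := (hf.2.1 s hs).2
  have h2 := (hf.2.2 s ht).2
  rw [h1] at h2
  norm_num at h2

/-- the number of the odd sifted elements of the window -/
noncomputable def No (w m : ℕ) (f : K[X]) : ℕ := ((Dg K w).filter (fun u => Odd' m (f + u))).card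

/-- the number of the even sifted elements of the window -/
noncomputable def Ne' (w m : ℕ) (f : K[X]) : ℕ := ((Dg K w).filter (fun u => Evn m (f + u))).card

/-- the joint moment as a sum over disjoint pairs -/
theorem mo_eq (n w m k l : ℕ) :
    ∑ f ∈ Mn K n, ((No w m f).choose k : ℝ) * ((Ne' w m f).choose l : ℝ) =
      ∑ S ∈ (Dg K w).powersetCard k, ∑ T ∈ (Dg K w).powersetCard l,
        (if Disjoint S T then ((Ps S T n m).card : ℝ) else 0) := by
  have h := dc (Mn K n) (Dg K w) (fun f u => Odd' m (f + u)) (fun f u => Evn m (f + u)) k l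
  have h2 : ∑ f ∈ Mn K n, (No w m f).choose k * (Ne' w m f).choose l =
      ∑ S ∈ (Dg K w).powersetCard k, ∑ T ∈ (Dg K w).powersetCard l, (Ps S T n m).card := h
  have h3 : ∑ f ∈ Mn K n, ((No w m f).choose k : ℝ) * ((Ne' w m f).choose l : ℝ) =
      ∑ S ∈ (Dg K w).powersetCard k, ∑ T ∈ (Dg K w).powersetCard l, ((Ps S T n m).card : ℝ) := by
    exact_mod_cast h2
  rw [h3]
  refine sum_congr rfl fun S _ => sum_congr rfl fun T _ => ?_
  by_cases hd : Disjoint S T
  · rw [if_pos hd]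
  · rw [if_neg hd, Ps_empty n m hd, Finset.card_empty, Nat.cast_zero]

/-- for all large parameters -/
def Evt (Q : ℕ → ℕ → ℕ → Prop) : Prop :=
  ∃ κ : ℝ, 0 < κ ∧ ∃ M N : ℕ, ∀ n w m : ℕ, N ≤ n → M ≤ w → w ≤ m → (m : ℝ) ≤ κ * n → Q n w m

theorem Evt.and {Q Q' : ℕ → ℕ → ℕ → Prop} (h : Evt Q) (h' : Evt Q') :
    Evt (fun n w m => Q n w m ∧ Q' n w m) := by
  obtain ⟨κ, hκ, M, N, H⟩ := h
  obtain ⟨κ', hκ', M', N', H'⟩ := h'
  refine ⟨min κ κ', lt_min hκ hκ', max M M', max N N', fun n w m hn hw hwm hm => ⟨?_, ?_⟩⟩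
  · exact H n w m ((le_max_left _ _).trans hn) ((le_max_left _ _).trans hw) hwm
      (hm.trans (mul_le_mul_of_nonneg_right (min_le_left _ _) (Nat.cast_nonneg n)))
  · exact H' n w m ((le_max_right _ _).trans hn) ((le_max_right _ _).trans hw) hwm
      (hm.trans (mul_le_mul_of_nonneg_right (min_le_right _ _) (Nat.cast_nonneg n)))

theorem Evt.mono {Q Q' : ℕ → ℕ → ℕ → Prop} (h : Evt Q) (hQ : ∀ n w m, Q n w m → Q' n w m) :
    Evt Q' := by
  obtain ⟨κ, hκ, M, N, H⟩ := h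
  exact ⟨κ, hκ, M, N, fun n w m hn hw hwm hm => hQ _ _ _ (H n w m hn hw hwm hm)⟩

theorem Evt.all (J : ℕ) (Q : ℕ → ℕ → ℕ → ℕ → Prop) (h : ∀ k, Evt (Q k)) :
    Evt (fun n w m => ∀ k ≤ J, Q k n w m) := by
  induction J with
  | zero =>
    refine (h 0).mono fun n w m h1 k hk => ?_
    rw [Nat.le_zero] at hk
    rw [hk]
    exact h1
  | succ J ih =>
    refine (ih.and (h (J + 1))).mono fun n w m h1 k hk => ?_
    rcases Nat.le_succ_iff.1 hk with h2 | h2
    · exact h1.1 k h2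
    · rw [h2]
      exact h1.2

/-- the mean of the number of the odd sifted elements of the window -/
noncomputable def lam (K : Type) [Field K] [Fintype K] (w m : ℕ) : ℝ :=
  (Fintype.card K : ℝ) ^ w * V1 K m / 2

theorem lam_nonneg (w m : ℕ) : 0 ≤ lam K w m := by
  unfold lam
  have := V1_pos (K := K) m
  positivity

/-- **The joint moments.** -/
theorem moments (K : Type) [Field K] [Fintype K] [CharP K 2] (Lam δ : ℝ) (hδ : 0 < δ) (k l : ℕ) :
    Evt (fun n w m => lam K w m ≤ Lam →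
      |Mo (Mn K n) (No w m) (Ne' w m) k l - lam K w m ^ k / (k.factorial : ℝ) *
        (lam K w m ^ l / (l.factorial : ℝ))| ≤ δ) := by
  obtain ⟨r, hr⟩ : ∃ r, r = k + l := ⟨_, rfl⟩
  obtain ⟨B, hB⟩ : ∃ B : ℝ, B = ((r.choose k : ℕ) : ℝ) * (2 * |Lam|) ^ r := ⟨_, rfl⟩
  have hB0 : 0 ≤ B := by rw [hB]; positivity
  obtain ⟨ε, hε⟩ : ∃ ε : ℝ, ε = min 1 (δ / (7 * B + 1)) := ⟨_, rfl⟩
  have hε0 : 0 < ε := by rw [hε]; exact lt_min one_pos (by positivity)
  have hε1 : ε ≤ 1 := by rw [hε]; exact min_le_left _ _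
  have hεB : 7 * ε * B ≤ δ := by
    have h1 : ε ≤ δ / (7 * B + 1) := by rw [hε]; exact min_le_right _ _
    rw [le_div_iff₀ (by positivity)] at h1
    nlinarith
  obtain ⟨κ, hκ, M, N, H⟩ := asy K r ε hε0
  obtain ⟨w₁, h1⟩ := avg K r ε hε0
  obtain ⟨w₂, h2⟩ := large_prod K r ε hε0
  refine ⟨min κ (1 / 2), lt_min hκ (by norm_num), M + w₁ + w₂, N + 1,
    fun n w m hn hw hwm hm hlam => ?_⟩
  have hmκ : (m : ℝ) ≤ κ * n :=
    hm.trans (mul_le_mul_of_nonneg_right (min_le_left _ _) (Nat.cast_nonneg n))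
  have hm2 : (m : ℝ) ≤ 1 / 2 * n :=
    hm.trans (mul_le_mul_of_nonneg_right (min_le_right _ _) (Nat.cast_nonneg n))
  have hn0 : (0 : ℝ) < n := by exact_mod_cast (by omega : 0 < n)
  have hwn : w < n := by
    have h3 : (m : ℝ) < n := by linarith
    have h4 : m < n := by exact_mod_cast h3
    omega
  obtain ⟨Z, hZ⟩ : ∃ Z : ℝ, Z = (Fintype.card K : ℝ) ^ n := ⟨_, rfl⟩
  have hZ0 : 0 < Z := by
    rw [hZ]
    have : (0 : ℝ) < Fintype.card K := by exact_mod_cast Fintype.card_pos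
    positivity
  have hFc : ((Mn K n).card : ℝ) = Z := by
    rw [card_Mn, hZ]
    push_cast
    rfl
  -- the densities
  obtain ⟨E, hE⟩ : ∃ E : ℝ, E = ∏ P ∈ PU K m \ PU K w,
      (1 - (r : ℝ) / (Fintype.card K : ℝ) ^ P.natDegree) := ⟨_, rfl⟩
  obtain ⟨W, hW⟩ : ∃ W : ℝ, W = ∏ P ∈ PU K m \ PU K w,
      (1 - 1 / (Fintype.card K : ℝ) ^ P.natDegree) := ⟨_, rfl⟩
  have hW0 : 0 ≤ W := by
    rw [hW]
    exact prod_nonneg fun P hP => by linarith [V1_fac (mem_sdiff.1 hP).1]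
  have hVW : V1 K m = V1 K w * W := by rw [hW]; exact V1_split hwm
  obtain ⟨μ, hμ⟩ : ∃ μ : ℝ, μ = (Fintype.card K : ℝ) ^ w * V1 K w := ⟨_, rfl⟩
  have hμ0 : 0 ≤ μ := by
    rw [hμ]
    have := V1_pos (K := K) w
    positivity
  have hlamμ : 2 * lam K w m = μ * W := by
    unfold lam
    rw [hVW, hμ]
    ring
  have a1 := h1 w (by omega)
  have a2 := h2 w m (by omega)
  rw [← hμ] at a1
  rw [← hE, ← hW] at a2
  obtain ⟨A, hA⟩ : ∃ A : ℝ, A = ∑ R ∈ (Dg K w).powersetCard r, VS R w := ⟨_, rfl⟩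
  rw [← hA] at a1
  obtain ⟨Q, hQ⟩ : ∃ Q : ℝ, Q = ∑ R ∈ (Dg K w).powersetCard r, VS R m := ⟨_, rfl⟩
  have hQE : Q = A * E := by
    rw [hQ, hA, sum_mul]
    refine sum_congr rfl fun R hR => ?_
    rw [mem_powersetCard] at hR
    rw [VS_split hwm hR.1, hR.2, hE]
  have hfac : (1 : ℝ) ≤ (r.factorial : ℝ) := by
    exact_mod_cast Nat.one_le_iff_ne_zero.2 (Nat.factorial_ne_zero r)
  obtain ⟨U, hU⟩ : ∃ U : ℝ, U = (μ * W) ^ r := ⟨_, rfl⟩
  have hU0 : 0 ≤ U := by rw [hU]; positivity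
  have b1 : |Q - U / (r.factorial : ℝ)| ≤ 3 * ε * U := by
    have c1 : |A| ≤ 2 * μ ^ r := by
      have c2 : |A| ≤ |A - μ ^ r / (r.factorial : ℝ)| + |μ ^ r / (r.factorial : ℝ)| := by
        have := abs_add_le (A - μ ^ r / (r.factorial : ℝ)) (μ ^ r / (r.factorial : ℝ))
        rwa [sub_add_cancel] at this
      have c3 : |μ ^ r / (r.factorial : ℝ)| ≤ μ ^ r := by
        rw [abs_of_nonneg (by positivity)]
        exact div_le_self (by positivity) hfac
      have c4 : ε * μ ^ r ≤ 1 * μ ^ r := mul_le_mul_of_nonneg_right hε1 (by positivity)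
      linarith
    have c5 : Q - U / (r.factorial : ℝ) = A * (E - W ^ r) +
        (A - μ ^ r / (r.factorial : ℝ)) * W ^ r := by
      rw [hQE, hU, mul_pow]
      ring
    rw [c5]
    refine (abs_add_le _ _).trans ?_
    rw [abs_mul, abs_mul, abs_of_nonneg (pow_nonneg hW0 r)]
    calc |A| * |E - W ^ r| + |A - μ ^ r / (r.factorial : ℝ)| * W ^ r
        ≤ 2 * μ ^ r * (ε * W ^ r) + ε * μ ^ r * W ^ r := by gcongr
      _ = 3 * ε * U := by rw [hU, mul_pow]; ring
  have hQU : Q ≤ 4 * U := by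
    have c1 := (abs_le.1 b1).2
    have c2 : U / (r.factorial : ℝ) ≤ U := div_le_self hU0 hfac
    have c3 : 3 * ε * U ≤ 3 * 1 * U := by gcongr
    linarith
  -- the moment
  obtain ⟨c, hc⟩ : ∃ c : ℝ, c = ((r.choose k : ℕ) : ℝ) := ⟨_, rfl⟩
  have hc0 : 0 ≤ c := by rw [hc]; positivity
  have hsumQ : ∀ y : ℝ, ∑ S ∈ (Dg K w).powersetCard k, ∑ T ∈ (Dg K w).powersetCard l,
      (if Disjoint S T then VS (S ∪ T) m * y else 0) = c * Q * y := by
    intro y
    rw [sum_pairs (Dg K w) k l (fun R => VS R m * y), ← hr, ← hc, hQ, ← sum_mul]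
    ring
  have b2 : |∑ f ∈ Mn K n, ((No w m f).choose k : ℝ) * ((Ne' w m f).choose l : ℝ) -
      c * Q * (Z / 2 ^ r)| ≤ c * Q * (ε * Z) := by
    rw [mo_eq, ← hsumQ, ← hsumQ, ← sum_sub_distrib]
    refine (abs_sum_le_sum_abs _ _).trans (sum_le_sum fun S hS => ?_)
    rw [← sum_sub_distrib]
    refine (abs_sum_le_sum_abs _ _).trans (sum_le_sum fun T hT => ?_)
    rw [mem_powersetCard] at hS hT
    by_cases hd : Disjoint S T
    · rw [if_pos hd, if_pos hd, if_pos hd]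
      have h3 := (H n m (by omega) (by omega) hmκ S T hd (by
        rw [card_union_of_disjoint hd, hS.2, hT.2, hr]) (fun s hs => by
        rcases Finset.mem_union.1 hs with hs | hs
        · exact deg_Dg hwn (hS.1 hs)
        · exact deg_Dg hwn (hT.1 hs))).2
      rw [← hZ, mul_div_assoc] at h3
      refine h3.trans (le_of_eq ?_)
      ring
    · rw [if_neg hd, if_neg hd, if_neg hd, sub_zero, abs_zero]
  have b3 : |Mo (Mn K n) (No w m) (Ne' w m) k l - c * Q / 2 ^ r| ≤ ε * (c * Q) := by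
    unfold Mo
    rw [hFc]
    have h3 : (∑ f ∈ Mn K n, ((No w m f).choose k : ℝ) * ((Ne' w m f).choose l : ℝ)) / Z -
        c * Q / 2 ^ r = (∑ f ∈ Mn K n, ((No w m f).choose k : ℝ) * ((Ne' w m f).choose l : ℝ) -
          c * Q * (Z / 2 ^ r)) / Z := by
      field_simp
    rw [h3, abs_div, abs_of_pos hZ0, div_le_iff₀ hZ0]
    refine b2.trans (le_of_eq ?_)
    ring
  -- the main term
  have b4 : c * (U / (r.factorial : ℝ)) / 2 ^ r = lam K w m ^ k / (k.factorial : ℝ) *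
      (lam K w m ^ l / (l.factorial : ℝ)) := by
    have h3 : c * ((k.factorial : ℝ) * (l.factorial : ℝ)) = (r.factorial : ℝ) := by
      have h4 := Nat.choose_mul_factorial_mul_factorial (Nat.le_add_right k l)
      rw [Nat.add_sub_cancel_left, mul_assoc, ← hr] at h4
      rw [hc]
      exact_mod_cast h4
    have hk0 : (k.factorial : ℝ) ≠ 0 := by exact_mod_cast Nat.factorial_ne_zero k
    have hl0 : (l.factorial : ℝ) ≠ 0 := by exact_mod_cast Nat.factorial_ne_zero l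
    have hr0 : (r.factorial : ℝ) ≠ 0 := by exact_mod_cast Nat.factorial_ne_zero r
    have hU2 : U = 2 ^ r * (lam K w m ^ k * lam K w m ^ l) := by
      rw [hU, ← hlamμ, mul_pow, ← pow_add, hr]
    rw [hU2]
    field_simp
    linear_combination (lam K w m ^ k * lam K w m ^ l) * h3
  have hUB : c * U ≤ B := by
    rw [hB, ← hc, hU, ← hlamμ]
    have h3 : lam K w m ≤ |Lam| := hlam.trans (le_abs_self _)
    have h4 := lam_nonneg (K := K) w m
    gcongr
  have hQ0 : |c * Q| ≤ 4 * (c * U) := by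
    have h3 : |Q| ≤ 4 * U := by
      rw [abs_le]
      refine ⟨?_, hQU⟩
      have c1 := (abs_le.1 b1).1
      have c2 : 0 ≤ U / (r.factorial : ℝ) := by positivity
      have c3 : 3 * ε * U ≤ 3 * 1 * U := by gcongr
      linarith
    rw [abs_mul, abs_of_nonneg hc0]
    nlinarith
  have b5 : |c * Q / 2 ^ r - c * (U / (r.factorial : ℝ)) / 2 ^ r| ≤ 3 * ε * (c * U) := by
    have h3 : c * Q / 2 ^ r - c * (U / (r.factorial : ℝ)) / 2 ^ r =
        c * (Q - U / (r.factorial : ℝ)) / 2 ^ r := by ring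
    have h4 : (1 : ℝ) ≤ 2 ^ r := one_le_pow₀ (by norm_num)
    rw [h3, abs_div, abs_mul, abs_of_nonneg hc0, abs_of_pos (by positivity : (0 : ℝ) < 2 ^ r)]
    refine (div_le_self (by positivity) h4).trans ?_
    calc c * |Q - U / (r.factorial : ℝ)| ≤ c * (3 * ε * U) := mul_le_mul_of_nonneg_left b1 hc0
      _ = _ := by ring
  rw [← b4]
  have b6 := abs_sub_le (Mo (Mn K n) (No w m) (Ne' w m) k l) (c * Q / 2 ^ r)
    (c * (U / (r.factorial : ℝ)) / 2 ^ r)
  have b7 : ε * (c * Q) ≤ ε * (4 * (c * U)) :=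
    mul_le_mul_of_nonneg_left ((le_abs_self _).trans hQ0) hε0.le
  have b8 : 7 * ε * (c * U) ≤ 7 * ε * B := mul_le_mul_of_nonneg_left hUB (by positivity)
  linarith

/-- **The joint Poisson law.** -/
theorem poisson (K : Type) [Field K] [Fintype K] [CharP K 2] (Lam ε : ℝ) (hLam : 0 ≤ Lam)
    (hε : 0 < ε) (i j : ℕ) :
    Evt (fun n w m => lam K w m ≤ Lam →
      |(((Mn K n).filter (fun f => No w m f = i ∧ Ne' w m f = j)).card : ℝ) /
          (Fintype.card K : ℝ) ^ n -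
        Real.exp (-lam K w m) * (lam K w m ^ i / (i.factorial : ℝ)) *
          (Real.exp (-lam K w m) * (lam K w m ^ j / (j.factorial : ℝ)))| ≤ ε) := by
  obtain ⟨J, δ, hδ, hlaw⟩ := law Lam ε hLam hε i j
  have h1 : Evt (fun n w m => ∀ k ≤ J, ∀ l ≤ J, lam K w m ≤ Lam →
      |Mo (Mn K n) (No w m) (Ne' w m) k l - lam K w m ^ k / (k.factorial : ℝ) *
        (lam K w m ^ l / (l.factorial : ℝ))| ≤ δ) := by
    refine Evt.all J (fun k n w m => ∀ l ≤ J, lam K w m ≤ Lam →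
      |Mo (Mn K n) (No w m) (Ne' w m) k l - lam K w m ^ k / (k.factorial : ℝ) *
        (lam K w m ^ l / (l.factorial : ℝ))| ≤ δ) fun k => ?_
    exact Evt.all J (fun l n w m => lam K w m ≤ Lam →
      |Mo (Mn K n) (No w m) (Ne' w m) k l - lam K w m ^ k / (k.factorial : ℝ) *
        (lam K w m ^ l / (l.factorial : ℝ))| ≤ δ) fun l => moments K Lam δ hδ k l
  refine h1.mono fun n w m h2 hlam => ?_
  have hne : (Mn K n).Nonempty := by
    rw [← Finset.card_pos, card_Mn]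
    exact Nat.pow_pos Fintype.card_pos
  have h3 := hlaw K[X] (Mn K n) (No w m) (Ne' w m) (lam K w m) hne (lam_nonneg w m) hlam
    (fun k l hk hl => h2 k hk l hl hlam)
  rw [card_Mn] at h3
  push_cast at h3
  exact h3

end Pool.Agent.H530.Po
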