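import Mathlib
import Pool.Agent.H530.PoE
import Pool.Agent.H985.CH.Base

/-!
# The windows around the irreducible polynomials: densities (helper530)
-/

set_option autoImplicit false

namespace Pool.Agent.H530.Pp

open Polynomial Finset
open scoped Classical
open Pool.Agent.H985.Par (Sft)
open Pool.Agent.H985.Chow (mob)
open Pool.Agent.H694.Typ (Mn Irn mem_Mn mem_Irn card_Mn PU mem_PU wt wt_nonneg wt_le_half q_ge)
open Pool.Agent.H530.Po
open Pool.Agent.H985.CH (vp Sif Shf s_chen s_cnt)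
open Pool.Agent.H225.Par (lf Om)

variable {K : Type} [Field K] [Fintype K]

/-- the average of the singular series over the subsets of a window -/
theorem sing (K : Type) [Field K] [Fintype K] [CharP K 2] (r : ℕ) (ε : ℝ) (hε0 : 0 < ε)
    (hε1 : ε ≤ 1) : ∃ w₀ : ℕ, ∀ w m : ℕ, w₀ ≤ w → w ≤ m →
      |∑ R ∈ (Dg K w).powersetCard r, VS R m -
        ((Fintype.card K : ℝ) ^ w * V1 K m) ^ r / (r.factorial : ℝ)| ≤
          3 * ε * ((Fintype.card K : ℝ) ^ w * V1 K m) ^ r := by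
  obtain ⟨w₁, h1⟩ := avg K r ε hε0
  obtain ⟨w₂, h2⟩ := large_prod K r ε hε0
  refine ⟨w₁ + w₂, fun w m hw hwm => ?_⟩
  obtain ⟨E, hE⟩ : ∃ E : ℝ, E = ∏ P ∈ PU K m \ PU K w,
      (1 - (r : ℝ) / (Fintype.card K : ℝ) ^ P.natDegree) := ⟨_, rfl⟩
  obtain ⟨W, hW⟩ : ∃ W : ℝ, W = ∏ P ∈ PU K m \ PU K w,
      (1 - 1 / (Fintype.card K : ℝ) ^ P.natDegree) := ⟨_, rfl⟩
  have hW0 : 0 ≤ W := by
    rw [hW]
    exact prod_nonneg fun P hP => by linarith [V1_fac (mem_sdiff.1 hP).1]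
  have hVW : V1 K m = V1 K w * W := by rw [hW]; exact V1_split hwm
  obtain ⟨μ, hμ⟩ : ∃ μ : ℝ, μ = (Fintype.card K : ℝ) ^ w * V1 K w := ⟨_, rfl⟩
  have hμ0 : 0 ≤ μ := by
    rw [hμ]
    have := V1_pos (K := K) w
    positivity
  have hlamμ : (Fintype.card K : ℝ) ^ w * V1 K m = μ * W := by
    rw [hVW, hμ]
    ring
  have a1 := h1 w (by omega)
  have a2 := h2 w m (by omega)
  rw [← hμ] at a1
  rw [← hE, ← hW] at a2
  obtain ⟨A, hA⟩ : ∃ A : ℝ, A = ∑ R ∈ (Dg K w).powersetCard r, VS R w := ⟨_, rfl⟩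
  rw [← hA] at a1
  obtain ⟨Q, hQ⟩ : ∃ Q : ℝ, Q = ∑ R ∈ (Dg K w).powersetCard r, VS R m := ⟨_, rfl⟩
  have hQE : Q = A * E := by
    rw [hQ, hA, sum_mul]
    refine sum_congr rfl fun R hR => ?_
    rw [mem_powersetCard] at hR
    rw [VS_split hwm hR.1, hR.2, hE]
  have hfac : (1 : ℝ) ≤ (r.factorial : ℝ) := by
    exact_mod_cast Nat.one_le_iff_ne_zero.2 (Nat.factorial_ne_zero r)
  obtain ⟨U, hU⟩ : ∃ U : ℝ, U = (μ * W) ^ r := ⟨_, rfl⟩
  have hU0 : 0 ≤ U := by rw [hU]; positivity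
  have b1 : |Q - U / (r.factorial : ℝ)| ≤ 3 * ε * U := by
    have c1 : |A| ≤ 2 * μ ^ r := by
      have c2 : |A| ≤ |A - μ ^ r / (r.factorial : ℝ)| + |μ ^ r / (r.factorial : ℝ)| := by
        have := abs_add_le (A - μ ^ r / (r.factorial : ℝ)) (μ ^ r / (r.factorial : ℝ))
        rwa [sub_add_cancel] at this
      have c3 : |μ ^ r / (r.factorial : ℝ)| ≤ μ ^ r := by
        rw [abs_of_nonneg (by positivity)]
        exact div_le_self (by positivity) hfac
      have c4 : ε * μ ^ r ≤ 1 * μ ^ r := mul_le_mul_of_nonneg_right hε1 (by positivity)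
      linarith
    have c5 : Q - U / (r.factorial : ℝ) = A * (E - W ^ r) +
        (A - μ ^ r / (r.factorial : ℝ)) * W ^ r := by
      rw [hQE, hU, mul_pow]
      ring
    rw [c5]
    refine (abs_add_le _ _).trans ?_
    rw [abs_mul, abs_mul, abs_of_nonneg (pow_nonneg hW0 r)]
    calc |A| * |E - W ^ r| + |A - μ ^ r / (r.factorial : ℝ)| * W ^ r
        ≤ 2 * μ ^ r * (ε * W ^ r) + ε * μ ^ r * W ^ r := by gcongr
      _ = 3 * ε * U := by rw [hU, mul_pow]; ring
  rw [hlamμ, ← hU, ← hQ]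
  exact b1

/-! ### translations -/

theorem Dg_add {w : ℕ} {a b : K[X]} (ha : a ∈ Dg K w) (hb : b ∈ Dg K w) : a + b ∈ Dg K w := by
  rw [mem_Dg] at ha hb ⊢
  exact (degree_add_le _ _).trans_lt (max_lt ha hb)

theorem Dg_sub {w : ℕ} {a b : K[X]} (ha : a ∈ Dg K w) (hb : b ∈ Dg K w) : a - b ∈ Dg K w := by
  rw [mem_Dg] at ha hb ⊢
  exact (degree_sub_le _ _).trans_lt (max_lt ha hb)

theorem zero_mem_Dg {w : ℕ} : (0 : K[X]) ∈ Dg K w := by
  rw [mem_Dg, degree_zero]
  exact WithBot.bot_lt_coe _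

theorem nuS_trans (S : Finset K[X]) (t P : K[X]) (hP : P.Monic) :
    nuS (S.image (fun s => s + t)) P = nuS S P := by
  unfold nuS
  have h1 : (S.image (fun s => s + t)).image (fun s => s %ₘ P) =
      (S.image (fun s => s %ₘ P)).image (fun x => (x + t) %ₘ P) := by
    rw [Finset.image_image, Finset.image_image]
    refine Finset.image_congr fun s _ => ?_
    dsimp only [Function.comp]
    refine modByMonic_eq_of_dvd_sub hP ?_
    have := modByMonic_add_div s P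
    exact ⟨s /ₘ P, by linear_combination -this⟩
  rw [h1]
  refine Finset.card_image_of_injOn fun x hx y hy he => ?_
  have hd : ∀ z ∈ (S.image (fun s => s %ₘ P) : Finset K[X]), z.degree < P.degree := by
    intro z hz
    obtain ⟨s, -, rfl⟩ := Finset.mem_image.1 hz
    exact degree_modByMonic_lt _ hP
  have he' : (x + t) %ₘ P = (y + t) %ₘ P := he
  have h2 : P ∣ x - y := by
    have hx1 := modByMonic_add_div (x + t) P
    have hy1 := modByMonic_add_div (y + t) P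
    rw [he'] at hx1
    exact ⟨(x + t) /ₘ P - (y + t) /ₘ P, by linear_combination hy1 - hx1⟩
  have h3 : x - y = 0 := by
    by_contra h0
    have h4 := degree_le_of_dvd h2 h0
    have h5 : (x - y).degree < P.degree :=
      (degree_sub_le _ _).trans_lt (max_lt (hd x hx) (hd y hy))
    exact absurd (h4.trans_lt h5) (lt_irrefl _)
  exact sub_eq_zero.1 h3

theorem VS_trans (S : Finset K[X]) (t : K[X]) (m : ℕ) :
    VS (S.image (fun s => s + t)) m = VS S m := by
  unfold VS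
  refine prod_congr rfl fun P hP => ?_
  rw [nuS_trans S t P (mem_PU.1 hP).1]

/-- the subsets of the window, rooted at one of their elements -/
theorem rooted (w m k : ℕ) :
    (Fintype.card K : ℝ) ^ w * ∑ S ∈ ((Dg K w).erase 0).powersetCard k, VS (insert 0 S) m =
      ((k : ℝ) + 1) * ∑ R ∈ (Dg K w).powersetCard (k + 1), VS R m := by
  have h1 : (Fintype.card K : ℝ) ^ w * ∑ S ∈ ((Dg K w).erase 0).powersetCard k, VS (insert 0 S) m =
      ∑ S ∈ ((Dg K w).erase 0).powersetCard k, ∑ _r ∈ Dg K w, VS (insert 0 S) m := by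
    rw [mul_sum]
    refine sum_congr rfl fun S _ => ?_
    rw [sum_const, card_Dg, nsmul_eq_mul]
    push_cast
    rfl
  have h2 : ((k : ℝ) + 1) * ∑ R ∈ (Dg K w).powersetCard (k + 1), VS R m =
      ∑ R ∈ (Dg K w).powersetCard (k + 1), ∑ _r ∈ R, VS R m := by
    rw [mul_sum]
    refine sum_congr rfl fun R hR => ?_
    rw [sum_const, (mem_powersetCard.1 hR).2, nsmul_eq_mul]
    push_cast
    rfl
  rw [h1, h2, sum_sigma', sum_sigma']
  refine sum_bij'
    (fun x _ => (⟨(insert 0 x.1).image (fun s => s + x.2), x.2⟩ : (_ : Finset K[X]) × K[X]))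
    (fun y _ => (⟨(y.1.image (fun s => s - y.2)).erase 0, y.2⟩ : (_ : Finset K[X]) × K[X]))
    ?_ ?_ ?_ ?_ ?_
  · rintro ⟨S, r⟩ hx
    rw [mem_sigma, mem_powersetCard] at hx
    obtain ⟨⟨h3, h4⟩, h5⟩ := hx
    dsimp only at h3 h4 h5
    have h0 : (0 : K[X]) ∉ S := fun h => (mem_erase.1 (h3 h)).1 rfl
    rw [mem_sigma, mem_powersetCard]
    dsimp only
    refine ⟨⟨?_, ?_⟩, ?_⟩
    · intro z hz
      obtain ⟨s, hs, rfl⟩ := Finset.mem_image.1 hz
      refine Dg_add ?_ h5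
      rcases Finset.mem_insert.1 hs with rfl | hs
      · exact zero_mem_Dg
      · exact (mem_erase.1 (h3 hs)).2
    · rw [Finset.card_image_of_injective _ (add_left_injective r), Finset.card_insert_of_notMem h0,
        h4]
    · exact Finset.mem_image.2 ⟨0, Finset.mem_insert_self _ _, zero_add r⟩
  · rintro ⟨R, r⟩ hy
    rw [mem_sigma, mem_powersetCard] at hy
    obtain ⟨⟨h3, h4⟩, h5⟩ := hy
    dsimp only at h3 h4 h5
    have h0 : (0 : K[X]) ∈ R.image (fun s => s - r) :=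
      Finset.mem_image.2 ⟨r, h5, sub_self r⟩
    rw [mem_sigma, mem_powersetCard]
    dsimp only
    refine ⟨⟨?_, ?_⟩, h3 h5⟩
    · intro z hz
      rw [mem_erase] at hz
      obtain ⟨s, hs, rfl⟩ := Finset.mem_image.1 hz.2
      exact mem_erase.2 ⟨hz.1, Dg_sub (h3 hs) (h3 h5)⟩
    · rw [Finset.card_erase_of_mem h0, Finset.card_image_of_injective _ (sub_left_injective), h4]
      omega
  · rintro ⟨S, r⟩ hx
    rw [mem_sigma, mem_powersetCard] at hx
    have h3 : S ⊆ (Dg K w).erase 0 := hx.1.1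
    have h0 : (0 : K[X]) ∉ S := fun h => (mem_erase.1 (h3 h)).1 rfl
    have h6 : ((insert 0 S).image (fun s => s + r)).image (fun s => s - r) = insert 0 S := by
      rw [Finset.image_image]
      have : ((fun s : K[X] => s - r) ∘ fun s => s + r) = id := by
        funext s
        simp
      rw [this, Finset.image_id]
    dsimp only
    rw [h6, Finset.erase_insert h0]
  · rintro ⟨R, r⟩ hy
    rw [mem_sigma, mem_powersetCard] at hy
    have h5 : r ∈ R := hy.2
    have h0 : (0 : K[X]) ∈ R.image (fun s => s - r) :=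
      Finset.mem_image.2 ⟨r, h5, sub_self r⟩
    have h6 : (R.image (fun s => s - r)).image (fun s => s + r) = R := by
      rw [Finset.image_image]
      have : ((fun s : K[X] => s + r) ∘ fun s => s - r) = id := by
        funext s
        simp
      rw [this, Finset.image_id]
    dsimp only
    rw [Finset.insert_erase h0, h6]
  · rintro ⟨S, r⟩ hx
    dsimp only
    rw [VS_trans]

/-- the density among the irreducible polynomials -/
noncomputable def WS (S : Finset K[X]) (m : ℕ) : ℝ := VS (insert 0 S) m / V1 K m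

theorem VS_nonneg (S : Finset K[X]) (m : ℕ) : 0 ≤ VS S m := by
  unfold VS
  refine prod_nonneg fun P hP => ?_
  rw [sub_nonneg]
  have hq : (0 : ℝ) < (Fintype.card K : ℝ) ^ P.natDegree := by
    have : (0 : ℝ) < Fintype.card K := by exact_mod_cast Fintype.card_pos
    positivity
  rw [div_le_one hq]
  have h1 : nuS S P ≤ Fintype.card K ^ P.natDegree := by
    unfold nuS
    rw [← Pool.Agent.H985.US.UsvH599.Res_card]
    refine Finset.card_le_card fun z hz => ?_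
    obtain ⟨s, -, rfl⟩ := Finset.mem_image.1 hz
    rw [Pool.Agent.H985.US.UsvH599.mem_Res (mem_PU.1 hP).1]
    exact degree_modByMonic_lt _ (mem_PU.1 hP).1
  exact_mod_cast h1

theorem WS_nonneg (S : Finset K[X]) (m : ℕ) : 0 ≤ WS S m :=
  div_nonneg (VS_nonneg _ _) (V1_pos m).le

theorem vp_eq {k : ℕ} (S : Finset K[X]) (h : Fin k → K[X]) (hmem : ∀ x, x ∈ S ↔ ∃ i, h i = x)
    (m : ℕ) : vp m h = WS S m := by
  unfold Pool.Agent.H985.CH.vp WS VS V1
  rw [← Finset.prod_div_distrib]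
  refine prod_congr rfl fun P hP => ?_
  have h1 : (Om (Fin.cons 0 h : Fin (k + 1) → K[X]) P) = (insert 0 S).image (fun s => s %ₘ P) := by
    unfold Pool.Agent.H225.Par.Om
    ext z
    rw [Finset.mem_image, Finset.mem_image]
    constructor
    · rintro ⟨i, -, rfl⟩
      refine ⟨_, ?_, rfl⟩
      refine Fin.cases ?_ (fun j => ?_) i
      · rw [Fin.cons_zero]
        exact Finset.mem_insert_self _ _
      · rw [Fin.cons_succ]
        exact Finset.mem_insert_of_mem ((hmem _).2 ⟨j, rfl⟩)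
    · rintro ⟨s, hs, rfl⟩
      rcases Finset.mem_insert.1 hs with rfl | hs
      · exact ⟨0, Finset.mem_univ _, by rw [Fin.cons_zero]⟩
      · obtain ⟨j, rfl⟩ := (hmem s).1 hs
        exact ⟨j.succ, Finset.mem_univ _, by rw [Fin.cons_succ]⟩
  unfold Pool.Agent.H225.Par.lf nuS
  rw [h1]

/-- **The irreducible polynomials next to sifted ones, and one Moebius factor.** -/
theorem asyP (K : Type) [Field K] [Fintype K] [CharP K 2] (k : ℕ) (ε : ℝ) (hε : 0 < ε) :
    ∃ κ : ℝ, 0 < κ ∧ ∃ N : ℕ, ∀ n m : ℕ, N ≤ n → 1 ≤ m → (m : ℝ) ≤ κ * n →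
      ∀ S : Finset K[X], S.card = k → (∀ s ∈ S, s ≠ 0 ∧ s.natDegree < n) →
      |(((Irn K n).filter (fun p => ∀ s ∈ S, Sft m (p + s))).card : ℝ) -
        WS S m * (Fintype.card K : ℝ) ^ n / n| ≤ ε * (WS S m * (Fintype.card K : ℝ) ^ n / n) ∧
      ∀ s₀ ∈ S, |∑ p ∈ (Irn K n).filter (fun p => ∀ s ∈ S, Sft m (p + s)), (mob (p + s₀) : ℝ)| ≤
        ε * (WS S m * (Fintype.card K : ℝ) ^ n / n) := by
  obtain ⟨κ, hκ, N, H⟩ := s_cnt K k ε hε
  obtain ⟨κ', hκ', N', H'⟩ := s_chen K k ε hε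
  refine ⟨min κ κ', lt_min hκ hκ', max N N', fun n m hn hm hmκ S hS hdeg => ?_⟩
  obtain ⟨h, hinj, hmem⟩ := Pool.Agent.H530.Consec.enum S k hS
  have hF : ∀ p : K[X], Sif h m p ↔ ∀ s ∈ S, Sft m (p + s) := by
    intro p
    constructor
    · intro hp s hs
      obtain ⟨i, rfl⟩ := (hmem s).1 hs
      exact hp i
    · intro hp i
      exact hp _ ((hmem _).2 ⟨i, rfl⟩)
  have hF2 : (Irn K n).filter (Sif h m) = (Irn K n).filter (fun p => ∀ s ∈ S, Sft m (p + s)) :=
    Finset.filter_congr fun p _ => hF p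
  have hV := vp_eq S h hmem m
  refine ⟨?_, fun s₀ hs₀ => ?_⟩
  · have h1 := H n ((le_max_left _ _).trans hn) m h hm
      (hmκ.trans (mul_le_mul_of_nonneg_right (min_le_left _ _) (Nat.cast_nonneg n)))
    rw [hV, hF2] at h1
    exact h1
  · obtain ⟨i₀, rfl⟩ := (hmem s₀).1 hs₀
    have h1 := H' n ((le_max_right _ _).trans hn) m h i₀ hm
      (hmκ.trans (mul_le_mul_of_nonneg_right (min_le_right _ _) (Nat.cast_nonneg n)))
      (fun i => hdeg _ ((hmem _).2 ⟨i, rfl⟩))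
    rw [hV, hF2] at h1
    exact h1

/-- the average of the density over the subsets of the pierced window -/
theorem singP (K : Type) [Field K] [Fintype K] [CharP K 2] (k : ℕ) (ε : ℝ) (hε : 0 < ε) :
    ∃ w₀ : ℕ, ∀ w m : ℕ, w₀ ≤ w → w ≤ m →
      |∑ S ∈ ((Dg K w).erase 0).powersetCard k, WS S m -
        ((Fintype.card K : ℝ) ^ w * V1 K m) ^ k / (k.factorial : ℝ)| ≤
          ε * ((Fintype.card K : ℝ) ^ w * V1 K m) ^ k := by
  obtain ⟨δ, hδ⟩ : ∃ δ : ℝ, δ = min 1 (ε / (3 * ((k : ℝ) + 1))) := ⟨_, rfl⟩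
  have hδ0 : 0 < δ := by rw [hδ]; exact lt_min one_pos (by positivity)
  have hδ1 : δ ≤ 1 := by rw [hδ]; exact min_le_left _ _
  have hδε : 3 * ((k : ℝ) + 1) * δ ≤ ε := by
    have h1 : δ ≤ ε / (3 * ((k : ℝ) + 1)) := by rw [hδ]; exact min_le_right _ _
    rw [le_div_iff₀ (by positivity)] at h1
    linarith
  obtain ⟨w₀, H⟩ := sing K (k + 1) δ hδ0 hδ1
  refine ⟨w₀, fun w m hw hwm => ?_⟩
  have h1 := H w m hw hwm
  have h2 := rooted (K := K) w m k
  obtain ⟨qw, hqw⟩ : ∃ qw : ℝ, qw = (Fintype.card K : ℝ) ^ w := ⟨_, rfl⟩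
  obtain ⟨V, hV⟩ : ∃ V : ℝ, V = V1 K m := ⟨_, rfl⟩
  have hV0 : 0 < V := by rw [hV]; exact V1_pos m
  have hqw0 : 0 < qw := by
    rw [hqw]
    have : (0 : ℝ) < Fintype.card K := by exact_mod_cast Fintype.card_pos
    positivity
  have hμ0 : 0 < qw * V := mul_pos hqw0 hV0
  have h3 : ∑ S ∈ ((Dg K w).erase 0).powersetCard k, WS S m =
      (∑ S ∈ ((Dg K w).erase 0).powersetCard k, VS (insert 0 S) m) / V := by
    rw [sum_div, hV]
    rfl
  rw [← hqw] at h1 h2
  rw [← hV] at h1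
  rw [h3, ← hqw, ← hV]
  obtain ⟨A, hA⟩ : ∃ A : ℝ, A = ∑ S ∈ ((Dg K w).erase 0).powersetCard k, VS (insert 0 S) m := ⟨_, rfl⟩
  obtain ⟨Q, hQ⟩ : ∃ Q : ℝ, Q = ∑ R ∈ (Dg K w).powersetCard (k + 1), VS R m := ⟨_, rfl⟩
  rw [← hA, ← hQ] at h2
  rw [← hQ] at h1
  rw [← hA]
  have h4 : A / V = ((k : ℝ) + 1) * Q / (qw * V) := by
    field_simp
    linarith
  have hfac : ((k + 1).factorial : ℝ) = ((k : ℝ) + 1) * (k.factorial : ℝ) := by
    rw [Nat.factorial_succ]
    push_cast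
    ring
  have hk0 : (k.factorial : ℝ) ≠ 0 := by exact_mod_cast Nat.factorial_ne_zero k
  have h5 : A / V - (qw * V) ^ k / (k.factorial : ℝ) = ((k : ℝ) + 1) / (qw * V) *
      (Q - (qw * V) ^ (k + 1) / ((k + 1).factorial : ℝ)) := by
    rw [h4, hfac, pow_succ]
    field_simp
  rw [h5, abs_mul, abs_of_pos (by positivity : 0 < ((k : ℝ) + 1) / (qw * V))]
  calc ((k : ℝ) + 1) / (qw * V) * |Q - (qw * V) ^ (k + 1) / ((k + 1).factorial : ℝ)|
      ≤ ((k : ℝ) + 1) / (qw * V) * (3 * δ * (qw * V) ^ (k + 1)) :=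
        mul_le_mul_of_nonneg_left h1 (by positivity)
    _ = 3 * ((k : ℝ) + 1) * δ * (qw * V) ^ k := by
        rw [pow_succ]
        field_simp
    _ ≤ ε * (qw * V) ^ k := mul_le_mul_of_nonneg_right hδε (by positivity)

end Pool.Agent.H530.Pp
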