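import Mathlib
import Pool.Agent.H530.PoA

/-!
# From binomial moments to the Poisson law, with a bounded weight (helper530)
-/

set_option autoImplicit false

namespace Pool.Agent.H530.Pp

open Finset
open Pool.Agent.H530.Po (Tr Er Er_nonneg tr_bound exp_tail choose_fac)

/-- the binomial moment -/
noncomputable def M1 {α : Type} (F : Finset α) (A : α → ℕ) (k : ℕ) : ℝ :=
  (∑ f ∈ F, ((A f).choose k : ℝ)) / F.card

theorem M1_nonneg {α : Type} (F : Finset α) (A : α → ℕ) (k : ℕ) : 0 ≤ M1 F A k := by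
  unfold M1
  positivity

/-- **From binomial moments to the law.** -/
theorem law1 (Lam ε : ℝ) (hLam : 0 ≤ Lam) (hε : 0 < ε) (i : ℕ) :
    ∃ (J : ℕ) (δ : ℝ), 0 < δ ∧ ∀ (α : Type) (F : Finset α) (A : α → ℕ) (lam : ℝ),
      F.Nonempty → 0 ≤ lam → lam ≤ Lam →
      (∀ k : ℕ, k ≤ J → |M1 F A k - lam ^ k / (k.factorial : ℝ)| ≤ δ) →
      |((F.filter (fun f => A f = i)).card : ℝ) / F.card -
        Real.exp (-lam) * (lam ^ i / (i.factorial : ℝ))| ≤ ε := by
  obtain ⟨L, hL⟩ : ∃ L : ℝ, L = (max 1 Lam) ^ i := ⟨_, rfl⟩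
  have hm1 : (1 : ℝ) ≤ max 1 Lam := le_max_left _ _
  have hL1 : 1 ≤ L := by rw [hL]; exact one_le_pow₀ hm1
  obtain ⟨E, hE⟩ : ∃ E : ℝ, E = Real.exp Lam := ⟨_, rfl⟩
  have hE1 : 1 ≤ E := by rw [hE]; exact Real.one_le_exp hLam
  obtain ⟨η, hη⟩ : ∃ η : ℝ, η = ε / (2 * (L * (1 + E))) := ⟨_, rfl⟩
  have hη0 : 0 < η := by rw [hη]; positivity
  have hη2 : L * (1 + E) * η = ε / 2 := by
    rw [hη]
    have h2 : 0 < L * (1 + E) := by positivity
    field_simp
  have htend := FloorSemiring.tendsto_pow_div_factorial_atTop Lam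
  obtain ⟨I₀, hI₀⟩ := (Metric.tendsto_atTop.1 htend) η hη0
  obtain ⟨I, hII, hI1⟩ : ∃ I : ℕ, I₀ ≤ I ∧ 1 ≤ I := ⟨I₀ + 1, by omega, by omega⟩
  have htI : Lam ^ I / (I.factorial : ℝ) ≤ η := by
    have h1 := hI₀ I hII
    rw [Real.dist_eq, sub_zero, abs_of_nonneg (by positivity)] at h1
    exact h1.le
  obtain ⟨Cst, hCst⟩ : ∃ Cst : ℝ, Cst = (∑ a ∈ range I, ((i + a).choose i : ℝ)) +
      ((i + I).choose i : ℝ) := ⟨_, rfl⟩
  have hCst1 : 0 < Cst := by
    rw [hCst]
    have h1 : (0 : ℝ) < ((i + I).choose i : ℝ) := by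
      exact_mod_cast Nat.choose_pos (Nat.le_add_right i I)
    positivity
  refine ⟨i + I, ε / 2 / Cst, by positivity, fun α F A lam hF hlam hlamL hM => ?_⟩
  have hFc : (0 : ℝ) < F.card := by exact_mod_cast hF.card_pos
  obtain ⟨δ, hδ⟩ : ∃ δ : ℝ, δ = ε / 2 / Cst := ⟨_, rfl⟩
  rw [← hδ] at hM
  have hδC : Cst * δ = ε / 2 := by rw [hδ]; field_simp
  have hMle : ∀ k : ℕ, k ≤ i + I → M1 F A k ≤ lam ^ k / (k.factorial : ℝ) + δ := by
    intro k hk
    have := (abs_le.1 (hM k hk)).2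
    linarith
  have s1 : |((F.filter (fun f => A f = i)).card : ℝ) / F.card -
      (∑ f ∈ F, Tr i I (A f)) / F.card| ≤ ((i + I).choose i : ℝ) * M1 F A (i + I) := by
    have h1 : ((F.filter (fun f => A f = i)).card : ℝ) =
        ∑ f ∈ F, (if A f = i then (1 : ℝ) else 0) := by
      rw [sum_boole]
    rw [h1, ← sub_div, ← sum_sub_distrib, abs_div, abs_of_pos hFc]
    have h2 : ((i + I).choose i : ℝ) * M1 F A (i + I) = (∑ f ∈ F, Er i I (A f)) / F.card := by
      unfold M1 Er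
      rw [← mul_div_assoc, mul_sum]
    rw [h2]
    refine div_le_div_of_nonneg_right ?_ hFc.le
    exact (abs_sum_le_sum_abs _ _).trans (sum_le_sum fun f _ => tr_bound i I (A f) hI1)
  have s2 : (∑ f ∈ F, Tr i I (A f)) / F.card =
      ∑ a ∈ range I, (-1 : ℝ) ^ a * ((i + a).choose i : ℝ) * M1 F A (i + a) := by
    unfold Tr
    rw [sum_comm, sum_div]
    refine sum_congr rfl fun a _ => ?_
    unfold M1
    rw [← mul_div_assoc, mul_sum]
    congr 1
    exact sum_congr rfl fun f _ => by ring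
  have s3 : |∑ a ∈ range I, (-1 : ℝ) ^ a * ((i + a).choose i : ℝ) * M1 F A (i + a) -
      ∑ a ∈ range I, (-1 : ℝ) ^ a * ((i + a).choose i : ℝ) *
        (lam ^ (i + a) / ((i + a).factorial : ℝ))| ≤
      (∑ a ∈ range I, ((i + a).choose i : ℝ)) * δ := by
    rw [← sum_sub_distrib, sum_mul]
    refine (abs_sum_le_sum_abs _ _).trans (sum_le_sum fun a ha => ?_)
    rw [mem_range] at ha
    rw [← mul_sub, abs_mul, abs_mul, abs_pow, abs_neg, abs_one, one_pow, one_mul,
      abs_of_nonneg (by positivity)]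
    exact mul_le_mul_of_nonneg_left (hM _ (by omega)) (by positivity)
  obtain ⟨s, hs⟩ : ∃ s : ℝ, s = ∑ a ∈ range I, (-lam) ^ a / (a.factorial : ℝ) := ⟨_, rfl⟩
  have s4 : ∑ a ∈ range I, (-1 : ℝ) ^ a * ((i + a).choose i : ℝ) *
        (lam ^ (i + a) / ((i + a).factorial : ℝ)) = lam ^ i / (i.factorial : ℝ) * s := by
    rw [hs, mul_sum]
    refine sum_congr rfl fun a _ => ?_
    have e1 := choose_fac i a lam
    rw [neg_pow lam a, mul_assoc, e1]
    ring
  have hlI : lam ^ I / (I.factorial : ℝ) ≤ η :=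
    (div_le_div_of_nonneg_right (pow_le_pow_left₀ hlam hlamL I) (by positivity)).trans htI
  have hi0 : 0 ≤ lam ^ i / (i.factorial : ℝ) := by positivity
  have hi1 : lam ^ i / (i.factorial : ℝ) ≤ L := by
    have h1 : (1 : ℝ) ≤ (i.factorial : ℝ) := by
      exact_mod_cast Nat.one_le_iff_ne_zero.2 (Nat.factorial_ne_zero i)
    rw [hL]
    exact (div_le_self (by positivity) h1).trans
      (pow_le_pow_left₀ hlam (hlamL.trans (le_max_right _ _)) i)
  have hp1 : ((i + I).choose i : ℝ) * (lam ^ (i + I) / ((i + I).factorial : ℝ)) ≤ L * η := by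
    rw [choose_fac]
    exact mul_le_mul hi1 hlI (by positivity) (by positivity)
  have hx := exp_tail (-lam) I
  rw [abs_neg, abs_of_nonneg hlam, ← hs] at hx
  have hx1 : |Real.exp (-lam) - s| ≤ η * E := by
    refine hx.trans ?_
    refine mul_le_mul hlI ?_ (Real.exp_pos _).le hη0.le
    rw [hE]
    exact Real.exp_le_exp.2 hlamL
  have s5 : |lam ^ i / (i.factorial : ℝ) * s - Real.exp (-lam) * (lam ^ i / (i.factorial : ℝ))| ≤
      L * E * η := by
    have h1 : lam ^ i / (i.factorial : ℝ) * s - Real.exp (-lam) * (lam ^ i / (i.factorial : ℝ)) =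
        lam ^ i / (i.factorial : ℝ) * (s - Real.exp (-lam)) := by ring
    rw [h1, abs_mul, abs_of_nonneg hi0, abs_sub_comm s]
    calc lam ^ i / (i.factorial : ℝ) * |Real.exp (-lam) - s| ≤ L * (η * E) := by gcongr
      _ = _ := by ring
  have hc1 : (0 : ℝ) ≤ ((i + I).choose i : ℝ) := by positivity
  have t1 : ((i + I).choose i : ℝ) * M1 F A (i + I) ≤ L * η + ((i + I).choose i : ℝ) * δ := by
    have := mul_le_mul_of_nonneg_left (hMle (i + I) le_rfl) hc1
    rw [mul_add] at this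
    linarith
  rw [s2] at s1
  rw [← s4] at s5
  have hfin : L * η + L * E * η = ε / 2 := by
    rw [← hη2]
    ring
  have hCδ : (∑ a ∈ range I, ((i + a).choose i : ℝ)) * δ + ((i + I).choose i : ℝ) * δ = ε / 2 := by
    rw [← hδC, hCst]
    ring
  rw [abs_le] at s1 s3 s5 ⊢
  constructor <;> linarith [s1.1, s1.2, s3.1, s3.2, s5.1, s5.2]

/-- **A weight with small binomial moments is small on the level sets.** -/
theorem law2 (Lam ε : ℝ) (hLam : 0 ≤ Lam) (hε : 0 < ε) (i : ℕ) :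
    ∃ (J : ℕ) (δ : ℝ), 0 < δ ∧ ∀ (α : Type) (F : Finset α) (A : α → ℕ) (T : α → ℝ) (lam : ℝ),
      F.Nonempty → 0 ≤ lam → lam ≤ Lam → (∀ f ∈ F, |T f| ≤ A f) →
      (∀ k : ℕ, k ≤ J → |M1 F A k - lam ^ k / (k.factorial : ℝ)| ≤ δ) →
      (∀ k : ℕ, k ≤ J → |(∑ f ∈ F, ((A f - 1).choose k : ℝ) * T f) / F.card| ≤ δ) →
      |(∑ f ∈ F.filter (fun f => A f = i), T f) / F.card| ≤ ε := by
  rcases Nat.eq_zero_or_pos i with rfl | hi
  · refine ⟨0, 1, one_pos, fun α F A T lam _ _ _ hT _ _ => ?_⟩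
    have h1 : ∑ f ∈ F.filter (fun f => A f = 0), T f = 0 := by
      refine sum_eq_zero fun f hf => ?_
      rw [mem_filter] at hf
      have := hT f hf.1
      rw [hf.2, Nat.cast_zero] at this
      exact abs_eq_zero.1 (le_antisymm this (abs_nonneg _))
    rw [h1, zero_div, abs_zero]
    exact hε.le
  obtain ⟨i, rfl⟩ : ∃ i', i = i' + 1 := ⟨i - 1, by omega⟩
  obtain ⟨L, hL⟩ : ∃ L : ℝ, L = (max 1 Lam) ^ (i + 1) := ⟨_, rfl⟩
  have hm1 : (1 : ℝ) ≤ max 1 Lam := le_max_left _ _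
  have hL1 : 1 ≤ L := by rw [hL]; exact one_le_pow₀ hm1
  obtain ⟨η, hη⟩ : ∃ η : ℝ, η = ε / (2 * L) := ⟨_, rfl⟩
  have hη0 : 0 < η := by rw [hη]; positivity
  have hη2 : L * η = ε / 2 := by
    rw [hη]
    field_simp
  have htend := FloorSemiring.tendsto_pow_div_factorial_atTop Lam
  obtain ⟨I₀, hI₀⟩ := (Metric.tendsto_atTop.1 htend) η hη0
  obtain ⟨I, hII, hI1⟩ : ∃ I : ℕ, I₀ ≤ I ∧ 1 ≤ I := ⟨I₀ + 1, by omega, by omega⟩
  have htI : Lam ^ I / (I.factorial : ℝ) ≤ η := by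
    have h1 := hI₀ I hII
    rw [Real.dist_eq, sub_zero, abs_of_nonneg (by positivity)] at h1
    exact h1.le
  obtain ⟨c, hc⟩ : ∃ c : ℝ, c = ((i + I).choose i : ℝ) * ((i + I : ℕ) + 1 : ℝ) := ⟨_, rfl⟩
  have hc0 : 0 ≤ c := by rw [hc]; positivity
  obtain ⟨Cst, hCst⟩ : ∃ Cst : ℝ, Cst = (∑ a ∈ range I, ((i + a).choose i : ℝ)) + c + 1 := ⟨_, rfl⟩
  have hCst1 : 0 < Cst := by
    rw [hCst]
    positivity
  refine ⟨i + I + 1, ε / 2 / Cst, by positivity, fun α F A T lam hF hlam hlamL hT hM hW => ?_⟩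
  have hFc : (0 : ℝ) < F.card := by exact_mod_cast hF.card_pos
  obtain ⟨δ, hδ⟩ : ∃ δ : ℝ, δ = ε / 2 / Cst := ⟨_, rfl⟩
  have hδ0 : 0 < δ := by rw [hδ]; positivity
  rw [← hδ] at hM hW
  have hδC : Cst * δ = ε / 2 := by rw [hδ]; field_simp
  have hMle : M1 F A (i + I + 1) ≤ lam ^ (i + I + 1) / ((i + I + 1).factorial : ℝ) + δ := by
    have := (abs_le.1 (hM (i + I + 1) le_rfl)).2
    linarith
  -- the first omitted term
  have hpt : ∀ f ∈ F, |(if A f = i + 1 then T f else 0) - Tr i I (A f - 1) * T f| ≤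
      c * ((A f).choose (i + I + 1) : ℝ) := by
    intro f hf
    rcases Nat.eq_zero_or_pos (A f) with h0 | h0
    · have h1 := hT f hf
      rw [h0, Nat.cast_zero] at h1
      have h2 : T f = 0 := abs_eq_zero.1 (le_antisymm h1 (abs_nonneg _))
      rw [if_neg (by omega), h2, mul_zero, sub_zero, abs_zero]
      positivity
    · obtain ⟨N, hN⟩ : ∃ N, A f = N + 1 := ⟨A f - 1, by omega⟩
      have h1 := tr_bound i I N hI1
      have h2 : (if A f = i + 1 then T f else 0) - Tr i I (A f - 1) * T f =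
          ((if N = i then (1 : ℝ) else 0) - Tr i I N) * T f := by
        rw [hN, Nat.add_sub_cancel]
        by_cases h3 : N = i
        · rw [if_pos (by omega), if_pos h3]
          ring
        · rw [if_neg (by omega), if_neg h3]
          ring
      rw [h2, abs_mul]
      have h3 : |T f| ≤ ((N : ℝ) + 1) := by
        have := hT f hf
        rw [hN] at this
        push_cast at this
        exact this
      refine (mul_le_mul h1 h3 (abs_nonneg _) (Er_nonneg _ _ _)).trans (le_of_eq ?_)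
      unfold Er
      rw [hc, hN]
      have h4 : ((N : ℝ) + 1) * (N.choose (i + I) : ℝ) =
          ((N + 1).choose (i + I + 1) : ℝ) * ((i + I : ℕ) + 1 : ℝ) := by
        exact_mod_cast Nat.add_one_mul_choose_eq N (i + I)
      calc ((i + I).choose i : ℝ) * (N.choose (i + I) : ℝ) * ((N : ℝ) + 1)
          = ((i + I).choose i : ℝ) * (((N : ℝ) + 1) * (N.choose (i + I) : ℝ)) := by ring
        _ = _ := by rw [h4]; ring
  have s1 : |(∑ f ∈ F.filter (fun f => A f = i + 1), T f) / F.card -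
      (∑ f ∈ F, Tr i I (A f - 1) * T f) / F.card| ≤ c * M1 F A (i + I + 1) := by
    rw [sum_filter, ← sub_div, ← sum_sub_distrib, abs_div, abs_of_pos hFc]
    have h2 : c * M1 F A (i + I + 1) = (∑ f ∈ F, c * ((A f).choose (i + I + 1) : ℝ)) / F.card := by
      unfold M1
      rw [← mul_div_assoc, mul_sum]
    rw [h2]
    refine div_le_div_of_nonneg_right ?_ hFc.le
    exact (abs_sum_le_sum_abs _ _).trans (sum_le_sum hpt)
  have s2 : (∑ f ∈ F, Tr i I (A f - 1) * T f) / F.card =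
      ∑ a ∈ range I, (-1 : ℝ) ^ a * ((i + a).choose i : ℝ) *
        ((∑ f ∈ F, ((A f - 1).choose (i + a) : ℝ) * T f) / F.card) := by
    unfold Tr
    have h1 : ∀ f ∈ F, (∑ a ∈ range I, (-1 : ℝ) ^ a * (((i + a).choose i : ℝ) *
        ((A f - 1).choose (i + a) : ℝ))) * T f = ∑ a ∈ range I, (-1 : ℝ) ^ a *
          ((i + a).choose i : ℝ) * (((A f - 1).choose (i + a) : ℝ) * T f) := by
      intro f _
      rw [sum_mul]
      exact sum_congr rfl fun a _ => by ring
    rw [sum_congr rfl h1, sum_comm, sum_div]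
    refine sum_congr rfl fun a _ => ?_
    rw [← mul_sum, mul_div_assoc]
  have s3 : |∑ a ∈ range I, (-1 : ℝ) ^ a * ((i + a).choose i : ℝ) *
        ((∑ f ∈ F, ((A f - 1).choose (i + a) : ℝ) * T f) / F.card)| ≤
      (∑ a ∈ range I, ((i + a).choose i : ℝ)) * δ := by
    rw [sum_mul]
    refine (abs_sum_le_sum_abs _ _).trans (sum_le_sum fun a ha => ?_)
    rw [mem_range] at ha
    rw [abs_mul, abs_mul, abs_pow, abs_neg, abs_one, one_pow, one_mul,
      abs_of_nonneg (by positivity : (0 : ℝ) ≤ ((i + a).choose i : ℝ))]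
    exact mul_le_mul_of_nonneg_left (hW _ (by omega)) (by positivity)
  -- the tail
  have s4 : c * (lam ^ (i + I + 1) / ((i + I + 1).factorial : ℝ)) ≤ L * η := by
    have h1 : c * (lam ^ (i + I + 1) / ((i + I + 1).factorial : ℝ)) =
        lam * (((i + I).choose i : ℝ) * (lam ^ (i + I) / ((i + I).factorial : ℝ))) := by
      rw [hc, Nat.factorial_succ, pow_succ]
      have h2 : ((i + I).factorial : ℝ) ≠ 0 := by exact_mod_cast Nat.factorial_ne_zero _
      push_cast
      have h3 : ((i : ℝ) + I + 1) ≠ 0 := by positivity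
      field_simp
    rw [h1, choose_fac]
    have h4 : lam ^ I / (I.factorial : ℝ) ≤ η :=
      (div_le_div_of_nonneg_right (pow_le_pow_left₀ hlam hlamL I) (by positivity)).trans htI
    have h5 : lam * (lam ^ i / (i.factorial : ℝ)) ≤ L := by
      have h6 : (1 : ℝ) ≤ (i.factorial : ℝ) := by
        exact_mod_cast Nat.one_le_iff_ne_zero.2 (Nat.factorial_ne_zero i)
      calc lam * (lam ^ i / (i.factorial : ℝ)) ≤ lam * lam ^ i :=
            mul_le_mul_of_nonneg_left (div_le_self (by positivity) h6) hlam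
        _ = lam ^ (i + 1) := by ring
        _ ≤ L := by
            rw [hL]
            exact pow_le_pow_left₀ hlam (hlamL.trans (le_max_right _ _)) _
    calc lam * (lam ^ i / (i.factorial : ℝ) * (lam ^ I / (I.factorial : ℝ)))
        = lam * (lam ^ i / (i.factorial : ℝ)) * (lam ^ I / (I.factorial : ℝ)) := by ring
      _ ≤ L * η := mul_le_mul h5 h4 (by positivity) (by positivity)
  have t1 : c * M1 F A (i + I + 1) ≤ L * η + c * δ := by
    have := mul_le_mul_of_nonneg_left hMle hc0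
    rw [mul_add] at this
    linarith
  rw [s2] at s1
  have hCδ : (∑ a ∈ range I, ((i + a).choose i : ℝ)) * δ + c * δ ≤ ε / 2 := by
    rw [← hδC, hCst]
    nlinarith
  rw [abs_le] at s1 s3 ⊢
  constructor <;> linarith [s1.1, s1.2, s3.1, s3.2]

end Pool.Agent.H530.Pp
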