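import Mathlib
import Pool.Agent.H530.PpA
import Pool.Agent.H530.PpB
import Pool.Agent.H251.SP.Asm1

/-!
# The windows around the irreducible polynomials: moments and laws (helper530)
-/

set_option autoImplicit false

namespace Pool.Agent.H530.Pp

open Polynomial Finset
open scoped Classical
open Pool.Agent.H985.Par (Sft)
open Pool.Agent.H985.Chow (mob)
open Pool.Agent.H694.Typ (Mn Irn mem_Mn mem_Irn card_Mn PU mem_PU wt wt_nonneg wt_le_half q_ge)
open Pool.Agent.H530.Po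

theorem marked {β : Type} (W : Finset β) (k : ℕ) (a : β → ℝ) :
    ∑ S ∈ W.powersetCard (k + 1), ∑ s ∈ S, a s = ((W.card - 1).choose k : ℝ) * ∑ s ∈ W, a s := by
  have h1 : ∑ S ∈ W.powersetCard (k + 1), ∑ s ∈ S, a s =
      ∑ S ∈ W.powersetCard (k + 1), ∑ s ∈ W, if s ∈ S then a s else 0 := by
    refine sum_congr rfl fun S hS => ?_
    rw [← sum_filter]
    congr 1
    ext s
    rw [mem_filter]
    exact ⟨fun h => ⟨(mem_powersetCard.1 hS).1 h, h⟩, fun h => h.2⟩
  rw [h1, sum_comm, mul_sum]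
  refine sum_congr rfl fun s hs => ?_
  rw [← sum_filter, sum_const, nsmul_eq_mul]
  congr 1
  have h2 : ((W.powersetCard (k + 1)).filter (fun S => s ∈ S)).card = (W.card - 1).choose k := by
    rw [← Finset.card_erase_of_mem hs, ← card_powersetCard]
    refine card_bij' (fun S _ => S.erase s) (fun S _ => insert s S) ?_ ?_ ?_ ?_
    · intro S hS
      rw [mem_filter, mem_powersetCard] at hS
      rw [mem_powersetCard]
      exact ⟨erase_subset_erase _ hS.1.1, by rw [card_erase_of_mem hS.2, hS.1.2]; rfl⟩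
    · intro S hS
      rw [mem_powersetCard] at hS
      have h0 : s ∉ S := fun h => (mem_erase.1 (hS.1 h)).1 rfl
      rw [mem_filter, mem_powersetCard]
      refine ⟨⟨insert_subset hs (hS.1.trans (erase_subset _ _)), ?_⟩, mem_insert_self _ _⟩
      rw [card_insert_of_notMem h0, hS.2]
    · intro S hS
      rw [mem_filter] at hS
      exact insert_erase hS.2
    · intro S hS
      rw [mem_powersetCard] at hS
      have h0 : s ∉ S := fun h => (mem_erase.1 (hS.1 h)).1 rfl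
      exact erase_insert h0
  rw [h2]

variable {K : Type} [Field K] [Fintype K]

/-- the window without its centre -/
noncomputable def Dz (K : Type) [Field K] [Fintype K] (w : ℕ) : Finset K[X] := (Dg K w).erase 0

/-- the sifted elements around `p` -/
noncomputable def Nb (w m : ℕ) (p : K[X]) : Finset K[X] :=
  (Dz K w).filter (fun u => Sft m (p + u))

/-- their number -/
noncomputable def NN (w m : ℕ) (p : K[X]) : ℕ := (Nb w m p).card

/-- the sum of the Moebius function over them -/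
noncomputable def TT (w m : ℕ) (p : K[X]) : ℝ := ∑ u ∈ Nb w m p, (mob (p + u) : ℝ)

theorem TT_le (w m : ℕ) (p : K[X]) : |TT w m p| ≤ (NN w m p : ℝ) := by
  unfold TT NN
  refine (abs_sum_le_sum_abs _ _).trans ?_
  calc ∑ u ∈ Nb w m p, |(mob (p + u) : ℝ)| ≤ ∑ _u ∈ Nb w m p, (1 : ℝ) :=
        sum_le_sum fun u _ => Pool.Agent.H251.SP.Asm.mob_abs _
    _ = _ := by rw [sum_const, nsmul_eq_mul, mul_one]

theorem momN (n w m k : ℕ) : ∑ p ∈ Irn K n, ((NN w m p).choose k : ℝ) =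
    ∑ S ∈ (Dz K w).powersetCard k,
      (((Irn K n).filter (fun p => ∀ s ∈ S, Sft m (p + s))).card : ℝ) := by
  have h := dc (Irn K n) (Dz K w) (fun p u => Sft m (p + u)) (fun _ _ => True) k 0
  have h2 : ∑ p ∈ Irn K n, (NN w m p).choose k * 1 =
      ∑ S ∈ (Dz K w).powersetCard k, (((Irn K n).filter (fun p => ∀ s ∈ S, Sft m (p + s))).card) := by
    refine Eq.trans (sum_congr rfl fun p _ => ?_) (h.trans (sum_congr rfl fun S _ => ?_))
    · rw [Nat.choose_zero_right]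
      rfl
    · rw [powersetCard_zero, sum_singleton]
      congr 1
      refine filter_congr fun p _ => ?_
      exact ⟨fun h => h.1, fun h => ⟨h, fun t ht => absurd ht (Finset.notMem_empty t)⟩⟩
  have h3 : ((∑ p ∈ Irn K n, (NN w m p).choose k * 1 : ℕ) : ℝ) =
      ((∑ S ∈ (Dz K w).powersetCard k,
        (((Irn K n).filter (fun p => ∀ s ∈ S, Sft m (p + s))).card) : ℕ) : ℝ) := by rw [h2]
  push_cast at h3
  rw [← h3]
  exact sum_congr rfl fun p _ => (mul_one _).symm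

theorem momT (n w m k : ℕ) : ∑ p ∈ Irn K n, ((NN w m p - 1).choose k : ℝ) * TT w m p =
    ∑ S ∈ (Dz K w).powersetCard (k + 1), ∑ s₀ ∈ S,
      ∑ p ∈ (Irn K n).filter (fun p => ∀ s ∈ S, Sft m (p + s)), (mob (p + s₀) : ℝ) := by
  have h1 : ∀ p ∈ Irn K n, ((NN w m p - 1).choose k : ℝ) * TT w m p =
      ∑ S ∈ (Dz K w).powersetCard (k + 1), ∑ s₀ ∈ S,
        (if ∀ s ∈ S, Sft m (p + s) then (mob (p + s₀) : ℝ) else 0) := by
    intro p _
    unfold NN TT
    rw [← marked]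
    have h2 : (Nb w m p).powersetCard (k + 1) =
        ((Dz K w).powersetCard (k + 1)).filter (fun S => ∀ s ∈ S, Sft m (p + s)) := by
      ext S
      rw [mem_powersetCard, mem_filter, mem_powersetCard]
      unfold Nb
      constructor
      · rintro ⟨h3, h4⟩
        exact ⟨⟨fun s hs => (mem_filter.1 (h3 hs)).1, h4⟩, fun s hs => (mem_filter.1 (h3 hs)).2⟩
      · rintro ⟨⟨h3, h4⟩, h5⟩
        exact ⟨fun s hs => mem_filter.2 ⟨h3 hs, h5 s hs⟩, h4⟩
    rw [h2, sum_filter]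
    refine sum_congr rfl fun S _ => ?_
    by_cases hS : ∀ s ∈ S, Sft m (p + s)
    · rw [if_pos hS]
      exact sum_congr rfl fun s _ => by rw [if_pos hS]
    · rw [if_neg hS]
      exact (sum_eq_zero fun s _ => by rw [if_neg hS]).symm
  rw [sum_congr rfl h1, sum_comm]
  refine sum_congr rfl fun S _ => ?_
  rw [sum_comm]
  exact sum_congr rfl fun s _ => by rw [sum_filter]

/-- the mean number -/
noncomputable def mn (K : Type) [Field K] [Fintype K] (w m : ℕ) : ℝ :=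
  (Fintype.card K : ℝ) ^ w * V1 K m

theorem mn_nonneg (w m : ℕ) : 0 ≤ mn K w m := by
  unfold mn
  have := V1_pos (K := K) m
  positivity

/-- the number of the irreducible polynomials -/
theorem cnt0 (K : Type) [Field K] [Fintype K] [CharP K 2] (ε : ℝ) (hε : 0 < ε) :
    ∃ N : ℕ, ∀ n : ℕ, N ≤ n → |((Irn K n).card : ℝ) - (Fintype.card K : ℝ) ^ n / n| ≤
      ε * ((Fintype.card K : ℝ) ^ n / n) := by
  obtain ⟨κ, hκ, N, H⟩ := asyP K 0 ε hε
  obtain ⟨N', hN'⟩ := exists_nat_gt (1 / κ)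
  refine ⟨max N N', fun n hn => ?_⟩
  have h1 := (H n 1 ((le_max_left _ _).trans hn) le_rfl (by
    have h2 : (N' : ℝ) ≤ n := by exact_mod_cast (le_max_right _ _).trans hn
    rw [Nat.cast_one, ← div_le_iff₀' hκ]
    linarith) ∅ Finset.card_empty (fun s hs => absurd hs (Finset.notMem_empty s))).1
  have h3 : WS (∅ : Finset K[X]) 1 = 1 := by
    unfold WS
    have h4 : (insert 0 (∅ : Finset K[X])) = {0} := rfl
    rw [h4, VS_single, div_self (V1_pos 1).ne']
  have h5 : (Irn K n).filter (fun p => ∀ s ∈ (∅ : Finset K[X]), Sft 1 (p + s)) = Irn K n :=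
    Finset.filter_true_of_mem fun p _ s hs => absurd hs (Finset.notMem_empty s)
  rw [h3, h5, one_mul] at h1
  exact h1

/-- **The moments around the irreducible polynomials.** -/
theorem momentsP (K : Type) [Field K] [Fintype K] [CharP K 2] (Lam δ : ℝ) (hδ : 0 < δ) (k : ℕ) :
    Evt (fun n w m => mn K w m ≤ Lam →
      |M1 (Irn K n) (NN w m) k - mn K w m ^ k / (k.factorial : ℝ)| ≤ δ ∧
      |(∑ p ∈ Irn K n, ((NN w m p - 1).choose k : ℝ) * TT w m p) / (Irn K n).card| ≤ δ) := by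
  obtain ⟨B, hB⟩ : ∃ B : ℝ, B = (max 1 Lam) ^ (k + 1) := ⟨_, rfl⟩
  have hm1 : (1 : ℝ) ≤ max 1 Lam := le_max_left _ _
  have hB1 : 1 ≤ B := by rw [hB]; exact one_le_pow₀ hm1
  obtain ⟨ε, hε⟩ : ∃ ε : ℝ, ε = min (1 / 2) (δ / (8 * ((k : ℝ) + 1) * B)) := ⟨_, rfl⟩
  have hε0 : 0 < ε := by rw [hε]; exact lt_min (by norm_num) (by positivity)
  have hε1 : ε ≤ 1 / 2 := by rw [hε]; exact min_le_left _ _
  have hεB : 8 * ((k : ℝ) + 1) * B * ε ≤ δ := by
    have h1 : ε ≤ δ / (8 * ((k : ℝ) + 1) * B) := by rw [hε]; exact min_le_right _ _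
    rw [le_div_iff₀ (by positivity)] at h1
    linarith
  obtain ⟨κ₁, hκ₁, N₁, H₁⟩ := asyP K k ε hε0
  obtain ⟨κ₂, hκ₂, N₂, H₂⟩ := asyP K (k + 1) ε hε0
  obtain ⟨w₁, G₁⟩ := singP K k ε hε0
  obtain ⟨w₂, G₂⟩ := singP K (k + 1) ε hε0
  obtain ⟨N₃, H₃⟩ := cnt0 K ε hε0
  refine ⟨min (min κ₁ κ₂) (1 / 2), lt_min (lt_min hκ₁ hκ₂) (by norm_num), 1 + w₁ + w₂,
    1 + N₁ + N₂ + N₃, fun n w m hn hw hwm hm hlam => ?_⟩
  have hn0' : (0 : ℝ) ≤ n := Nat.cast_nonneg n
  have hm₁ : (m : ℝ) ≤ κ₁ * n := hm.trans (mul_le_mul_of_nonneg_right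
    ((min_le_left _ _).trans (min_le_left _ _)) hn0')
  have hm₂ : (m : ℝ) ≤ κ₂ * n := hm.trans (mul_le_mul_of_nonneg_right
    ((min_le_left _ _).trans (min_le_right _ _)) hn0')
  have hm₃ : (m : ℝ) ≤ 1 / 2 * n := hm.trans (mul_le_mul_of_nonneg_right (min_le_right _ _) hn0')
  have hn0 : (0 : ℝ) < n := by exact_mod_cast (by omega : 0 < n)
  have hwn : w < n := by
    have h3 : (m : ℝ) < n := by linarith
    have h4 : m < n := by exact_mod_cast h3
    omega
  obtain ⟨lam, hlamd⟩ : ∃ lam : ℝ, lam = mn K w m := ⟨_, rfl⟩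
  have hlam0 : 0 ≤ lam := by rw [hlamd]; exact mn_nonneg w m
  rw [← hlamd] at hlam ⊢
  obtain ⟨X, hX⟩ : ∃ X : ℝ, X = (Fintype.card K : ℝ) ^ n / n := ⟨_, rfl⟩
  have hX0 : 0 < X := by
    rw [hX]
    have : (0 : ℝ) < Fintype.card K := by exact_mod_cast Fintype.card_pos
    positivity
  have hI := H₃ n (by omega)
  rw [← hX] at hI
  obtain ⟨I, hId⟩ : ∃ I : ℝ, I = ((Irn K n).card : ℝ) := ⟨_, rfl⟩
  rw [← hId] at hI ⊢
  have hIlo : X / 2 ≤ I := by
    have := (abs_le.1 hI).1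
    nlinarith
  have hI0 : 0 < I := by linarith
  have hdeg : ∀ r : ℕ, ∀ S ∈ (Dz K w).powersetCard r, ∀ s ∈ S, s ≠ 0 ∧ s.natDegree < n := by
    intro r S hS s hs
    have h4 := (mem_powersetCard.1 hS).1 hs
    unfold Dz at h4
    rw [mem_erase] at h4
    exact ⟨h4.1, deg_Dg hwn h4.2⟩
  have hpow : ∀ r : ℕ, r ≤ k + 1 → lam ^ r ≤ B := by
    intro r hr
    rw [hB]
    exact (pow_le_pow_left₀ hlam0 (hlam.trans (le_max_right _ _)) r).trans
      (pow_le_pow_right₀ hm1 hr)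
  have hfac : ∀ r : ℕ, (1 : ℝ) ≤ (r.factorial : ℝ) := fun r => by
    exact_mod_cast Nat.one_le_iff_ne_zero.2 (Nat.factorial_ne_zero r)
  have hlamW : (Fintype.card K : ℝ) ^ w * V1 K m = lam := by rw [hlamd]; rfl
  constructor
  · obtain ⟨Q, hQ⟩ : ∃ Q : ℝ, Q = ∑ S ∈ (Dz K w).powersetCard k, WS S m := ⟨_, rfl⟩
    have hQ0 : 0 ≤ Q := by rw [hQ]; exact sum_nonneg fun S _ => WS_nonneg S m
    have g1 : |Q - lam ^ k / (k.factorial : ℝ)| ≤ ε * lam ^ k := by
      have := G₁ w m (by omega) hwm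
      rw [hlamW] at this
      rw [hQ]
      exact this
    have hlk := hpow k (by omega)
    have hlk0 : 0 ≤ lam ^ k := by positivity
    have ht : lam ^ k / (k.factorial : ℝ) ≤ lam ^ k := div_le_self hlk0 (hfac k)
    have ht0 : 0 ≤ lam ^ k / (k.factorial : ℝ) := by positivity
    have hQB : Q ≤ 2 * B := by
      have := (abs_le.1 g1).2
      nlinarith
    obtain ⟨A, hA⟩ : ∃ A : ℝ, A = ∑ p ∈ Irn K n, ((NN w m p).choose k : ℝ) := ⟨_, rfl⟩
    have a1 : |A - Q * X| ≤ ε * (Q * X) := by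
      rw [hA, momN, hQ, sum_mul, ← sum_sub_distrib, mul_sum]
      refine (abs_sum_le_sum_abs _ _).trans (sum_le_sum fun S hS => ?_)
      have h3 := (H₁ n m (by omega) (by omega) hm₁ S (mem_powersetCard.1 hS).2 (hdeg k S hS)).1
      rw [mul_div_assoc, ← hX] at h3
      exact h3
    have a2 : M1 (Irn K n) (NN w m) k = A / I := by
      unfold M1
      rw [hA, hId]
    rw [a2]
    obtain ⟨t, htd⟩ : ∃ t : ℝ, t = lam ^ k / (k.factorial : ℝ) := ⟨_, rfl⟩
    rw [← htd] at g1 ht ht0 ⊢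
    have a3 : A / I - t = ((A - Q * X) + (Q - t) * X + t * (X - I)) / I := by
      field_simp
      ring
    rw [a3, abs_div, abs_of_pos hI0, div_le_iff₀ hI0]
    have a4 : |(A - Q * X) + (Q - t) * X + t * (X - I)| ≤
        ε * (Q * X) + ε * lam ^ k * X + t * (ε * X) := by
      refine (abs_add_le _ _).trans (add_le_add ((abs_add_le _ _).trans (add_le_add a1 ?_)) ?_)
      · rw [abs_mul, abs_of_pos hX0]
        exact mul_le_mul_of_nonneg_right g1 hX0.le
      · rw [abs_mul, abs_of_nonneg ht0, abs_sub_comm]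
        exact mul_le_mul_of_nonneg_left hI ht0
    refine a4.trans ?_
    have a5 : ε * (Q * X) + ε * lam ^ k * X + t * (ε * X) ≤ 4 * B * ε * X := by
      have e1 : ε * (Q * X) ≤ ε * (2 * B * X) := by gcongr
      have e2 : ε * lam ^ k * X ≤ ε * B * X := by gcongr
      have e3 : t * (ε * X) ≤ B * (ε * X) := by
        have : t ≤ B := ht.trans hlk
        gcongr
      linarith
    refine a5.trans ?_
    have a6 : 8 * B * ε ≤ δ := by
      refine le_trans ?_ hεB
      have : (1 : ℝ) ≤ (k : ℝ) + 1 := by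
        have : (0 : ℝ) ≤ k := Nat.cast_nonneg k
        linarith
      have hBε : 0 ≤ 8 * B * ε := by positivity
      nlinarith
    calc 4 * B * ε * X = 8 * B * ε * (X / 2) := by ring
      _ ≤ δ * (X / 2) := mul_le_mul_of_nonneg_right a6 (by positivity)
      _ ≤ δ * I := mul_le_mul_of_nonneg_left hIlo hδ.le
  · obtain ⟨Q, hQ⟩ : ∃ Q : ℝ, Q = ∑ S ∈ (Dz K w).powersetCard (k + 1), WS S m := ⟨_, rfl⟩
    have hQ0 : 0 ≤ Q := by rw [hQ]; exact sum_nonneg fun S _ => WS_nonneg S m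
    have g1 : |Q - lam ^ (k + 1) / ((k + 1).factorial : ℝ)| ≤ ε * lam ^ (k + 1) := by
      have := G₂ w m (by omega) hwm
      rw [hlamW] at this
      rw [hQ]
      exact this
    have hlk := hpow (k + 1) le_rfl
    have hlk0 : 0 ≤ lam ^ (k + 1) := by positivity
    have ht : lam ^ (k + 1) / ((k + 1).factorial : ℝ) ≤ lam ^ (k + 1) :=
      div_le_self hlk0 (hfac (k + 1))
    have hQB : Q ≤ 2 * B := by
      have := (abs_le.1 g1).2
      nlinarith
    rw [momT, abs_div, abs_of_pos hI0, div_le_iff₀ hI0]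
    have a1 : |∑ S ∈ (Dz K w).powersetCard (k + 1), ∑ s₀ ∈ S,
        ∑ p ∈ (Irn K n).filter (fun p => ∀ s ∈ S, Sft m (p + s)), (mob (p + s₀) : ℝ)| ≤
        ((k : ℝ) + 1) * (ε * (Q * X)) := by
      have h5 : ((k : ℝ) + 1) * (ε * (Q * X)) = ∑ S ∈ (Dz K w).powersetCard (k + 1),
          ((k : ℝ) + 1) * (ε * (WS S m * X)) := by
        rw [hQ, sum_mul, mul_sum, mul_sum]
      rw [h5]
      refine (abs_sum_le_sum_abs _ _).trans (sum_le_sum fun S hS => ?_)
      refine (abs_sum_le_sum_abs _ _).trans ?_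
      calc ∑ s₀ ∈ S, |∑ p ∈ (Irn K n).filter (fun p => ∀ s ∈ S, Sft m (p + s)), (mob (p + s₀) : ℝ)|
          ≤ ∑ _s₀ ∈ S, ε * (WS S m * X) := by
            refine sum_le_sum fun s₀ hs₀ => ?_
            have h3 := (H₂ n m (by omega) (by omega) hm₂ S (mem_powersetCard.1 hS).2
              (hdeg (k + 1) S hS)).2 s₀ hs₀
            rw [mul_div_assoc, ← hX] at h3
            exact h3
        _ = _ := by
            rw [sum_const, (mem_powersetCard.1 hS).2, nsmul_eq_mul]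
            push_cast
            ring
    refine a1.trans ?_
    calc ((k : ℝ) + 1) * (ε * (Q * X)) ≤ ((k : ℝ) + 1) * (ε * (2 * B * X)) := by gcongr
      _ = 4 * ((k : ℝ) + 1) * B * ε * (X / 2) := by ring
      _ ≤ 8 * ((k : ℝ) + 1) * B * ε * (X / 2) := by
          have : 0 ≤ 4 * ((k : ℝ) + 1) * B * ε * (X / 2) := by positivity
          nlinarith
      _ ≤ δ * (X / 2) := mul_le_mul_of_nonneg_right hεB (by positivity)
      _ ≤ δ * I := mul_le_mul_of_nonneg_left hIlo hδ.le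

/-- **The laws around the irreducible polynomials.** -/
theorem lawP (K : Type) [Field K] [Fintype K] [CharP K 2] (Lam ε : ℝ) (hLam : 0 ≤ Lam)
    (hε : 0 < ε) (i : ℕ) :
    Evt (fun n w m => mn K w m ≤ Lam →
      |(((Irn K n).filter (fun p => NN w m p = i)).card : ℝ) / (Irn K n).card -
        Real.exp (-mn K w m) * (mn K w m ^ i / (i.factorial : ℝ))| ≤ ε ∧
      |(∑ p ∈ (Irn K n).filter (fun p => NN w m p = i), TT w m p) / (Irn K n).card| ≤ ε) := by
  obtain ⟨J₁, δ₁, hδ₁, h₁⟩ := law1 Lam ε hLam hε i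
  obtain ⟨J₂, δ₂, hδ₂, h₂⟩ := law2 Lam ε hLam hε i
  obtain ⟨J, hJ⟩ : ∃ J, J = max J₁ J₂ := ⟨_, rfl⟩
  obtain ⟨δ, hδ⟩ : ∃ δ, δ = min δ₁ δ₂ := ⟨_, rfl⟩
  have hδ0 : 0 < δ := by rw [hδ]; exact lt_min hδ₁ hδ₂
  have hA := Evt.all J (fun k n w m => mn K w m ≤ Lam →
      |M1 (Irn K n) (NN w m) k - mn K w m ^ k / (k.factorial : ℝ)| ≤ δ ∧
      |(∑ p ∈ Irn K n, ((NN w m p - 1).choose k : ℝ) * TT w m p) / (Irn K n).card| ≤ δ)
    (fun k => momentsP K Lam δ hδ0 k)
  obtain ⟨N, hN⟩ := cnt0 K (1 / 2) (by norm_num)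
  have hne : Evt (fun n w m => (Irn K n).Nonempty) := by
    refine ⟨1, one_pos, 0, max 1 N, fun n w m hn _ _ _ => ?_⟩
    have h1 := hN n ((le_max_right _ _).trans hn)
    have hn0 : (0 : ℝ) < n := by exact_mod_cast ((le_max_left 1 N).trans hn)
    have h2 : (0 : ℝ) < (Fintype.card K : ℝ) ^ n / n := by
      have : (0 : ℝ) < Fintype.card K := by exact_mod_cast Fintype.card_pos
      positivity
    have h3 := (abs_le.1 h1).1
    have h4 : (0 : ℝ) < (Irn K n).card := by linarith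
    exact Finset.card_pos.1 (by exact_mod_cast h4)
  refine (hA.and hne).mono fun n w m h hlam => ?_
  obtain ⟨h3, h4⟩ := h
  refine ⟨h₁ K[X] (Irn K n) (NN w m) (mn K w m) h4 (mn_nonneg w m) hlam fun k hk => ?_,
    h₂ K[X] (Irn K n) (NN w m) (TT w m) (mn K w m) h4 (mn_nonneg w m) hlam
      (fun p _ => TT_le w m p) (fun k hk => ?_) (fun k hk => ?_)⟩
  · exact ((h3 k (by rw [hJ]; exact hk.trans (le_max_left _ _)) hlam).1).trans
      (by rw [hδ]; exact min_le_left _ _)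
  · exact ((h3 k (by rw [hJ]; exact hk.trans (le_max_right _ _)) hlam).1).trans
      (by rw [hδ]; exact min_le_right _ _)
  · exact ((h3 k (by rw [hJ]; exact hk.trans (le_max_right _ _)) hlam).2).trans
      (by rw [hδ]; exact min_le_right _ _)

end Pool.Agent.H530.Pp
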