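import Mathlib
import Pool.Agent.H530.PpC

/-!
# The windows around the irreducible polynomials: elements which are not squarefree (helper530)
-/

set_option autoImplicit false

namespace Pool.Agent.H530.Pp

open Polynomial Finset
open scoped Classical
open Pool.Agent.H985.Par (Sft)
open Pool.Agent.H694.Typ (Mn Irn mem_Mn mem_Irn card_Mn PU mem_PU wt wt_nonneg wt_le_half q_ge
  card_dvd_le card_dvd irn_one_le)
open Pool.Agent.H530.Po
open Pool.Agent.H341R2.Sharp (Mon mem_Mon)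
open Pool.Agent.H523.FF (Ir mem_Ir)
open Pool.Agent.H523.RH (Phi pnt)

variable {K : Type} [Field K] [Fintype K]

theorem monic_add {n : ℕ} {f u : K[X]} (hf : f ∈ Mn K n) (hu : u.degree < (n : WithBot ℕ)) :
    f + u ∈ Mn K n := by
  rw [mem_Mn] at hf ⊢
  have h1 : u.degree < f.degree := by
    rw [degree_eq_natDegree hf.1.ne_zero, hf.2]
    exact hu
  refine ⟨hf.1.add_of_left h1, ?_⟩
  rw [natDegree_add_eq_left_of_degree_lt h1, hf.2]

theorem triv {n d : ℕ} {P u : K[X]} (hP : P ∈ Irn K d) (hu : u.degree < (n : WithBot ℕ)) :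
    (((Irn K n).filter (fun p => P ^ 2 ∣ p + u)).card : ℝ) ≤
      (Fintype.card K : ℝ) ^ n * wt K (2 * d) := by
  rw [mem_Irn] at hP
  have h1 : ((Irn K n).filter (fun p => P ^ 2 ∣ p + u)).card ≤
      ((Mn K n).filter (fun f => P ^ 2 ∣ f)).card := by
    refine card_le_card_of_injOn (fun p => p + u) ?_ (fun a _ b _ h => add_right_cancel h)
    intro p hp
    rw [Finset.mem_coe, mem_filter, mem_Irn] at hp
    rw [Finset.mem_coe, mem_filter]
    exact ⟨monic_add (mem_Mn.2 ⟨hp.1.1, hp.1.2.1⟩) hu, hp.2⟩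
  have h2 := card_dvd_le (n := n) (A := P ^ 2) (hP.1.pow 2)
  rw [natDegree_pow, hP.2.1] at h2
  exact (by exact_mod_cast h1 : (((Irn K n).filter (fun p => P ^ 2 ∣ p + u)).card : ℝ) ≤
    (((Mn K n).filter (fun f => P ^ 2 ∣ f)).card : ℝ)).trans h2

theorem Phi_sq {d : ℕ} {P : K[X]} (hd : 1 ≤ d) (hP : P ∈ Irn K d) :
    (Fintype.card K : ℝ) ^ (2 * d) / 2 ≤ (Phi (P ^ 2) 0 : ℝ) := by
  rw [mem_Irn] at hP
  have h1 : Mn K (2 * d) \ (Mn K (2 * d)).filter (fun f => P ∣ f) ⊆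
      (Mon K ((P ^ 2).natDegree + 0)).filter (fun f => IsCoprime f (P ^ 2)) := by
    intro f hf
    rw [mem_sdiff, mem_filter, mem_Mn] at hf
    rw [mem_filter, mem_Mon, natDegree_pow, hP.2.1]
    refine ⟨⟨hf.1.1, by rw [hf.1.2, add_zero]⟩, ?_⟩
    have h2 : ¬ P ∣ f := fun h => hf.2 ⟨hf.1, h⟩
    exact (((hP.2.2.coprime_iff_not_dvd).2 h2).symm).pow_right
  have h3 : (Mn K (2 * d) \ (Mn K (2 * d)).filter (fun f => P ∣ f)).card ≤ Phi (P ^ 2) 0 := by
    unfold Pool.Agent.H523.RH.Phi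
    exact card_le_card h1
  have h4 : (Mn K (2 * d) \ (Mn K (2 * d)).filter (fun f => P ∣ f)).card =
      Fintype.card K ^ (2 * d) - Fintype.card K ^ d := by
    rw [card_sdiff_of_subset (filter_subset _ _), card_Mn, card_dvd hP.1 (by rw [hP.2.1]; omega), hP.2.1]
    congr 2
    omega
  rw [h4] at h3
  have hq := q_ge (k := K)
  have h5 : (2 : ℝ) ≤ (Fintype.card K : ℝ) ^ d := by
    calc (2 : ℝ) ≤ (Fintype.card K : ℝ) := hq
      _ = (Fintype.card K : ℝ) ^ 1 := (pow_one _).symm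
      _ ≤ (Fintype.card K : ℝ) ^ d := pow_le_pow_right₀ (by linarith) hd
  have h6 : Fintype.card K ^ (2 * d) ≤ Phi (P ^ 2) 0 + Fintype.card K ^ d := by omega
  have h7 : (Fintype.card K : ℝ) ^ (2 * d) ≤ (Phi (P ^ 2) 0 : ℝ) + (Fintype.card K : ℝ) ^ d := by
    exact_mod_cast h6
  have h8 : (Fintype.card K : ℝ) ^ (2 * d) = (Fintype.card K : ℝ) ^ d * (Fintype.card K : ℝ) ^ d := by
    rw [two_mul, pow_add]
  nlinarith

/-- the irreducible polynomials in a class modulo `P ^ 2` -/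
theorem cls {n d : ℕ} {P u : K[X]} (hd : 1 ≤ d) (hn : 2 * d < n) (hP : P ∈ Irn K d)
    (hu : u.degree < (n : WithBot ℕ)) :
    (n : ℝ) * (((Irn K n).filter (fun p => P ^ 2 ∣ p + u)).card : ℝ) ≤
      2 * ((Fintype.card K : ℝ) ^ n * wt K (2 * d)) +
        (4 * d + 4 : ℝ) * (√(Fintype.card K : ℝ)) ^ n := by
  have hPd := hP
  rw [mem_Irn] at hP
  have hq := q_ge (k := K)
  by_cases hPu : P ∣ u
  · have h1 : (Irn K n).filter (fun p => P ^ 2 ∣ p + u) = ∅ := by
      rw [Finset.eq_empty_iff_forall_notMem]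
      intro p hp
      rw [mem_filter, mem_Irn] at hp
      have h2 : P ∣ p := by
        have h3 : P ∣ p + u := (dvd_pow_self P (by norm_num)).trans hp.2
        exact (dvd_add_left hPu).1 h3
      have h4 : Associated P p := (hp.1.2.2.dvd_iff.1 h2).resolve_left hP.2.2.not_isUnit |>.symm
      have h5 : P = p := eq_of_monic_of_associated hP.1 hp.1.1 h4
      rw [← h5, hP.2.1] at hp
      omega
    rw [h1, Finset.card_empty, Nat.cast_zero, mul_zero]
    have := wt_nonneg (k := K) (2 * d)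
    positivity
  · obtain ⟨f₀, hf₀d⟩ : ∃ f₀ : K[X], f₀ = P ^ 2 * X ^ (n - 2 * d) - u := ⟨_, rfl⟩
    have hM : (P ^ 2).Monic := hP.1.pow 2
    have hf₀ : f₀ ∈ Mn K n := by
      rw [hf₀d, sub_eq_add_neg]
      refine monic_add ?_ (by rw [degree_neg]; exact hu)
      rw [mem_Mn]
      refine ⟨hM.mul (monic_X_pow _), ?_⟩
      rw [hM.natDegree_mul (monic_X_pow _), natDegree_pow, natDegree_X_pow, hP.2.1]
      omega
    have hc : IsCoprime f₀ (P ^ 2) := by
      refine IsCoprime.pow_right (((hP.2.2.coprime_iff_not_dvd).2 fun h => hPu ?_).symm)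
      have h2 : P ∣ P ^ 2 * X ^ (n - 2 * d) :=
        (dvd_pow_self P (by norm_num)).trans (dvd_mul_right _ _)
      rw [hf₀d] at h
      exact (dvd_sub_right h2).1 h
    have h1 := pnt (M := P ^ 2) hM 0 n (by omega) (by omega) (mem_Mon.2 (mem_Mn.1 hf₀)) hc
    have h2 : ((Irn K n).filter (fun p => P ^ 2 ∣ p + u)) ⊆ (Ir K n).filter
        (fun p => P ^ 2 ∣ p - f₀ ∧ (p - f₀).degree < ((n - 0 : ℕ) : WithBot ℕ)) := by
      intro p hp
      rw [mem_filter, mem_Irn] at hp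
      rw [mem_filter, mem_Ir]
      refine ⟨⟨hp.1.1, hp.1.2.2, hp.1.2.1⟩, ?_, ?_⟩
      · have h3 : p - f₀ = (p + u) - P ^ 2 * X ^ (n - 2 * d) := by rw [hf₀d]; ring
        rw [h3]
        exact dvd_sub hp.2 (dvd_mul_right _ _)
      · rw [Nat.sub_zero]
        have h4 : p.degree = f₀.degree := by
          rw [degree_eq_natDegree hp.1.1.ne_zero, degree_eq_natDegree (mem_Mn.1 hf₀).1.ne_zero,
            hp.1.2.1, (mem_Mn.1 hf₀).2]
        have h5 := degree_sub_lt h4 hp.1.1.ne_zero (by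
          rw [hp.1.1.leadingCoeff, (mem_Mn.1 hf₀).1.leadingCoeff])
        rwa [degree_eq_natDegree hp.1.1.ne_zero, hp.1.2.1] at h5
    have h3 : (((Irn K n).filter (fun p => P ^ 2 ∣ p + u)).card : ℝ) ≤ (((Ir K n).filter
        (fun p => P ^ 2 ∣ p - f₀ ∧ (p - f₀).degree < ((n - 0 : ℕ) : WithBot ℕ))).card : ℝ) := by
      exact_mod_cast card_le_card h2
    have h4 := (abs_le.1 h1).2
    have h5 := Phi_sq hd hPd
    have hq2 : (0 : ℝ) < (Fintype.card K : ℝ) ^ (2 * d) := by positivity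
    have h6 : (Fintype.card K : ℝ) ^ n / (Phi (P ^ 2) 0 : ℝ) ≤
        2 * ((Fintype.card K : ℝ) ^ n * wt K (2 * d)) := by
      unfold Pool.Agent.H694.Typ.wt
      have h7 : (Fintype.card K : ℝ) ^ n / (Phi (P ^ 2) 0 : ℝ) ≤
          (Fintype.card K : ℝ) ^ n / ((Fintype.card K : ℝ) ^ (2 * d) / 2) :=
        div_le_div_of_nonneg_left (by positivity) (by positivity) h5
      refine h7.trans (le_of_eq ?_)
      field_simp
    have h7 : (n : ℝ) * (((Irn K n).filter (fun p => P ^ 2 ∣ p + u)).card : ℝ) ≤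
        (n : ℝ) * (((Ir K n).filter
        (fun p => P ^ 2 ∣ p - f₀ ∧ (p - f₀).degree < ((n - 0 : ℕ) : WithBot ℕ))).card : ℝ) :=
      mul_le_mul_of_nonneg_left h3 (Nat.cast_nonneg n)
    have h8 : (2 * ((P ^ 2).natDegree : ℝ) + ((0 : ℕ) : ℝ) + 4) = (4 * d + 4 : ℝ) := by
      rw [natDegree_pow, hP.2.1]
      push_cast
      ring
    rw [h8] at h4
    linarith

/-- a polynomial which is not squarefree is divisible by the square of an irreducible one -/
theorem exists_sq {F : K[X]} (hF : F ≠ 0) (h : ¬ Squarefree F) :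
    ∃ P : K[X], P.Monic ∧ Irreducible P ∧ P ^ 2 ∣ F := by
  unfold Squarefree at h
  push Not at h
  obtain ⟨x, hx, hu⟩ := h
  have hx0 : x ≠ 0 := by
    rintro rfl
    rw [zero_mul, zero_dvd_iff] at hx
    exact hF hx
  obtain ⟨Q, hQ, hQx⟩ := WfDvdMonoid.exists_irreducible_factor hu hx0
  refine ⟨normalize Q, monic_normalize hQ.ne_zero, (normalize_associated Q).symm.irreducible hQ, ?_⟩
  have h1 : normalize Q ∣ x := (normalize_associated Q).dvd.trans hQx
  rw [pow_two]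
  exact (mul_dvd_mul h1 h1).trans hx

theorem cover {n m : ℕ} {u : K[X]} (hu : u.degree < (n : WithBot ℕ)) :
    (((Irn K n).filter (fun p => Sft m (p + u) ∧ ¬ Squarefree (p + u))).card : ℝ) ≤
      ∑ d ∈ Ioc m (n / 2), ∑ P ∈ Irn K d,
        (((Irn K n).filter (fun p => P ^ 2 ∣ p + u)).card : ℝ) := by
  have h1 : (Irn K n).filter (fun p => Sft m (p + u) ∧ ¬ Squarefree (p + u)) ⊆
      (Ioc m (n / 2)).biUnion fun d => (Irn K d).biUnion fun P =>
        (Irn K n).filter (fun p => P ^ 2 ∣ p + u) := by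
    intro p hp
    rw [mem_filter] at hp
    obtain ⟨hp1, hp2, hp3⟩ := hp
    have hp4 := mem_Irn.1 hp1
    have hF := monic_add (mem_Mn.2 ⟨hp4.1, hp4.2.1⟩) hu
    rw [mem_Mn] at hF
    obtain ⟨P, hP, hPi, hPd⟩ := exists_sq hF.1.ne_zero hp3
    have h2 : m < P.natDegree := hp2 P hP hPi ((dvd_pow_self P (by norm_num)).trans hPd)
    have h3 : 2 * P.natDegree ≤ n := by
      have := natDegree_le_of_dvd hPd hF.1.ne_zero
      rw [natDegree_pow, hF.2] at this
      exact this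
    rw [mem_biUnion]
    refine ⟨P.natDegree, mem_Ioc.2 ⟨h2, by omega⟩, ?_⟩
    rw [mem_biUnion]
    exact ⟨P, mem_Irn.2 ⟨hP, rfl, hPi⟩, mem_filter.2 ⟨hp1, hPd⟩⟩
  have h2 := (card_le_card h1).trans (card_biUnion_le.trans (sum_le_sum fun d _ => card_biUnion_le))
  exact_mod_cast h2

end Pool.Agent.H530.Pp
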