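import Mathlib
import Pool.Agent.H530.PpD

/-!
# The windows around the irreducible polynomials: conclusion (helper530)
-/

set_option autoImplicit false

namespace Pool.Agent.H530.Pp

open Polynomial Finset
open scoped Classical
open Pool.Agent.H985.Par (Sft)
open Pool.Agent.H985.Chow (mob)
open Pool.Agent.H694.Typ (Mn Irn mem_Mn mem_Irn card_Mn PU mem_PU wt wt_nonneg wt_le_half q_ge
  card_dvd_le card_dvd irn_one_le wt_add)
open Pool.Agent.H530.Po

variable {K : Type} [Field K] [Fintype K]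

theorem wt_succ (b : ℕ) : 2 * wt K (b + 1) ≤ wt K b := by
  have hq := q_ge (k := K)
  unfold Pool.Agent.H694.Typ.wt
  rw [pow_succ, mul_inv]
  have h1 : 0 < ((Fintype.card K : ℝ) ^ b)⁻¹ := by positivity
  have h2 : (Fintype.card K : ℝ)⁻¹ ≤ 1 / 2 := by
    rw [← one_div]
    exact one_div_le_one_div_of_le (by norm_num) hq
  nlinarith

theorem geo_wt (a b : ℕ) : ∑ d ∈ Ioc a b, wt K d ≤ wt K a := by
  rcases Nat.lt_or_ge b a with h | h
  · rw [Finset.Ioc_eq_empty (by omega), sum_empty]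
    exact wt_nonneg a
  · obtain ⟨c, rfl⟩ := Nat.exists_eq_add_of_le h
    have h1 : ∀ c : ℕ, ∑ d ∈ Ioc a (a + c), wt K d ≤ wt K a - wt K (a + c) := by
      intro c
      induction c with
      | zero => simp
      | succ c ih =>
        rw [← add_assoc, sum_Ioc_succ_top (by omega)]
        have := wt_succ (K := K) (a + c)
        linarith
    have := h1 c
    have := wt_nonneg (k := K) (a + c)
    linarith [h1 c]

/-- **The elements which are not squarefree are rare.** -/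
theorem nsf (K : Type) [Field K] [Fintype K] (ε : ℝ) (hε : 0 < ε) :
    ∃ M N : ℕ, ∀ n w m : ℕ, N ≤ n → M ≤ m → w ≤ m → (m : ℝ) ≤ 1 / 16 * n →
      ∑ u ∈ Dz K w, (((Irn K n).filter (fun p => Sft m (p + u) ∧ ¬ Squarefree (p + u))).card : ℝ) ≤
        ε * ((Fintype.card K : ℝ) ^ n / n) := by
  obtain ⟨q, hqd⟩ : ∃ q : ℝ, q = (Fintype.card K : ℝ) := ⟨_, rfl⟩
  have hq : 2 ≤ q := by rw [hqd]; exact q_ge
  obtain ⟨r, hr⟩ : ∃ r : ℝ, r = q ^ (1 / 16 : ℝ) := ⟨_, rfl⟩
  have hr16 : r ^ 16 = q := by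
    rw [hr, ← Real.rpow_natCast, ← Real.rpow_mul (by linarith)]
    norm_num
  have hr1 : 1 < r := by
    rw [hr]
    exact Real.one_lt_rpow (by linarith) (by norm_num)
  have hr0 : 0 < r := by linarith
  have hr8 : r ^ 8 = √q := by
    rw [eq_comm, Real.sqrt_eq_iff_mul_self_eq (by linarith) (by positivity), ← pow_add]
    exact hr16.symm
  have htend := tendsto_pow_const_div_const_pow_of_one_lt 2 hr1
  obtain ⟨N₀, hN₀⟩ := (Metric.tendsto_atTop.1 htend) (ε / 18) (by positivity)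
  obtain ⟨M₀, hM₀⟩ := exists_nat_gt (4 / ε)
  refine ⟨M₀ + 1, N₀ + 1, fun n w m hn hm hwm hmn => ?_⟩
  have hn0 : (0 : ℝ) < n := by exact_mod_cast (by omega : 0 < n)
  have hn1 : (1 : ℝ) ≤ n := by exact_mod_cast (by omega : 1 ≤ n)
  have h16 : 16 * m ≤ n := by
    have h1 : (16 : ℝ) * m ≤ n := by linarith
    exact_mod_cast h1
  obtain ⟨Y, hY⟩ : ∃ Y : ℝ, Y = r ^ n := ⟨_, rfl⟩
  have hY0 : 0 < Y := by rw [hY]; positivity
  have hY1 : 1 ≤ Y := by rw [hY]; exact one_le_pow₀ hr1.le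
  have hZ : q ^ n = Y ^ 16 := by
    rw [hY, ← hr16, ← pow_mul, ← pow_mul, mul_comm]
  have hsq : (√q) ^ n = Y ^ 8 := by
    rw [hY, ← hr8, ← pow_mul, ← pow_mul, mul_comm]
  have hYn : 9 * (n : ℝ) ^ 2 ≤ ε / 2 * Y := by
    have h1 := hN₀ n (by omega)
    rw [Real.dist_eq, sub_zero, abs_of_nonneg (by positivity), ← hY, div_lt_iff₀ hY0] at h1
    linarith
  have hm0 : (0 : ℝ) < m := by exact_mod_cast (by omega : 0 < m)
  have hmε : 2 / (m : ℝ) ≤ ε / 2 := by
    rw [div_le_iff₀ hm0]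
    have h1 : (M₀ : ℝ) ≤ m := by exact_mod_cast (by omega : M₀ ≤ m)
    have h2 : 4 / ε < m := by linarith
    rw [div_lt_iff₀ hε] at h2
    linarith
  -- the bound for one degree
  have hdeg : ∀ u ∈ Dz K w, u.degree < (n : WithBot ℕ) := by
    intro u hu
    unfold Dz at hu
    have h1 := mem_Dg.1 (mem_erase.1 hu).2
    exact h1.trans_le (by exact_mod_cast (by omega : w ≤ n))
  have hone : ∀ u ∈ Dz K w, ∀ d ∈ Ioc m (n / 2), (n : ℝ) * ∑ P ∈ Irn K d,
      (((Irn K n).filter (fun p => P ^ 2 ∣ p + u)).card : ℝ) ≤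
        2 * q ^ n * wt K d / m + (n + 8 : ℝ) * Y ^ 14 := by
    intro u hu d hd
    rw [mem_Ioc] at hd
    have hd1 : 1 ≤ d := by omega
    have hdn : 2 * d ≤ n := by omega
    have hI : ((Irn K d).card : ℝ) * d ≤ q ^ d := by
      rw [hqd, mul_comm]
      exact_mod_cast irn_one_le (k := K) (by omega : 0 < d)
    have hd0 : (0 : ℝ) < d := by exact_mod_cast (by omega : 0 < d)
    have hd1' : (1 : ℝ) ≤ d := by exact_mod_cast hd1
    have hI' : ((Irn K d).card : ℝ) ≤ q ^ d / d := by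
      rw [le_div_iff₀ hd0]
      exact hI
    have hwt : q ^ d * wt K (2 * d) = wt K d := by
      unfold Pool.Agent.H694.Typ.wt
      rw [← hqd, two_mul, pow_add]
      have : q ^ d ≠ 0 := by positivity
      field_simp
    have hwt0 := wt_nonneg (k := K) d
    have hwt0' := wt_nonneg (k := K) (2 * d)
    have hqn0 : 0 ≤ q ^ n := by positivity
    have hmd : (1 : ℝ) / d ≤ 1 / m := by
      refine one_div_le_one_div_of_le hm0 ?_
      exact_mod_cast hd.1.le
    rcases Nat.lt_or_ge n (8 * d) with h8 | h8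
    · -- large degree
      have h1 : ∑ P ∈ Irn K d, (((Irn K n).filter (fun p => P ^ 2 ∣ p + u)).card : ℝ) ≤
          q ^ n * wt K d := by
        calc ∑ P ∈ Irn K d, (((Irn K n).filter (fun p => P ^ 2 ∣ p + u)).card : ℝ)
            ≤ ∑ _P ∈ Irn K d, q ^ n * wt K (2 * d) := sum_le_sum fun P hP => by
              have := triv hP (hdeg u hu)
              rw [← hqd] at this
              exact this
          _ = ((Irn K d).card : ℝ) * (q ^ n * wt K (2 * d)) := by rw [sum_const, nsmul_eq_mul]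
          _ ≤ q ^ d * (q ^ n * wt K (2 * d)) := by
              refine mul_le_mul_of_nonneg_right ?_ (by positivity)
              exact hI'.trans (div_le_self (by positivity) hd1')
          _ = q ^ n * (q ^ d * wt K (2 * d)) := by ring
          _ = q ^ n * wt K d := by rw [hwt]
      have h2 : wt K d ≤ (Y ^ 2)⁻¹ := by
        unfold Pool.Agent.H694.Typ.wt
        rw [← hqd]
        refine inv_anti₀ (by positivity) ?_
        rw [hY, ← hr16, ← pow_mul, ← pow_mul]
        exact pow_le_pow_right₀ hr1.le (by omega)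
      have h3 : q ^ n * wt K d ≤ Y ^ 14 := by
        rw [hZ]
        calc Y ^ 16 * wt K d ≤ Y ^ 16 * (Y ^ 2)⁻¹ := mul_le_mul_of_nonneg_left h2 (by positivity)
          _ = Y ^ 14 := by
              have : Y ≠ 0 := hY0.ne'
              field_simp
      have h4 : (n : ℝ) * ∑ P ∈ Irn K d, (((Irn K n).filter (fun p => P ^ 2 ∣ p + u)).card : ℝ) ≤
          n * Y ^ 14 := mul_le_mul_of_nonneg_left (h1.trans h3) hn0.le
      have h5 : 0 ≤ 2 * q ^ n * wt K d / m := by positivity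
      have h6 : 0 ≤ 8 * Y ^ 14 := by positivity
      linarith
    · -- small degree
      have h1 : (n : ℝ) * ∑ P ∈ Irn K d, (((Irn K n).filter (fun p => P ^ 2 ∣ p + u)).card : ℝ) ≤
          (q ^ d / d) * (2 * (q ^ n * wt K (2 * d)) + (4 * d + 4 : ℝ) * Y ^ 8) := by
        rw [mul_sum]
        calc ∑ P ∈ Irn K d, (n : ℝ) * (((Irn K n).filter (fun p => P ^ 2 ∣ p + u)).card : ℝ)
            ≤ ∑ _P ∈ Irn K d, (2 * (q ^ n * wt K (2 * d)) + (4 * d + 4 : ℝ) * Y ^ 8) :=
              sum_le_sum fun P hP => by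
                have := cls hd1 (by omega) hP (hdeg u hu)
                rw [← hqd, hsq] at this
                exact this
          _ = ((Irn K d).card : ℝ) * (2 * (q ^ n * wt K (2 * d)) + (4 * d + 4 : ℝ) * Y ^ 8) := by
              rw [sum_const, nsmul_eq_mul]
          _ ≤ _ := mul_le_mul_of_nonneg_right hI' (by positivity)
      refine h1.trans ?_
      have h2 : q ^ d ≤ Y ^ 2 := by
        rw [hY, ← hr16, ← pow_mul, ← pow_mul]
        exact pow_le_pow_right₀ hr1.le (by omega)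
      have e1 : (q ^ d / d) * (2 * (q ^ n * wt K (2 * d)) + (4 * d + 4 : ℝ) * Y ^ 8) =
          2 * q ^ n * (q ^ d * wt K (2 * d)) * (1 / d) + (4 + 4 * (1 / d)) * (q ^ d * Y ^ 8) := by
        field_simp
      rw [e1, hwt]
      have e2 : 2 * q ^ n * wt K d * (1 / d) ≤ 2 * q ^ n * wt K d / m := by
        rw [← mul_one_div (2 * q ^ n * wt K d)]
        exact mul_le_mul_of_nonneg_left hmd (by positivity)
      have e3 : (1 : ℝ) / d ≤ 1 := by
        rw [div_le_one hd0]
        exact hd1'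
      have e4 : (4 + 4 * (1 / (d : ℝ))) * (q ^ d * Y ^ 8) ≤ 8 * Y ^ 14 := by
        calc (4 + 4 * (1 / (d : ℝ))) * (q ^ d * Y ^ 8) ≤ 8 * (Y ^ 2 * Y ^ 8) := by
              refine mul_le_mul (by linarith) (mul_le_mul_of_nonneg_right h2 (by positivity))
                (by positivity) (by norm_num)
          _ = 8 * Y ^ 10 := by ring
          _ ≤ 8 * Y ^ 14 := by
              have := pow_le_pow_right₀ hY1 (by norm_num : 10 ≤ 14)
              linarith
      have e5 : 0 ≤ n * Y ^ 14 := by positivity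
      linarith
  -- sum over the degrees
  have hsum : ∀ u ∈ Dz K w, (n : ℝ) *
      (((Irn K n).filter (fun p => Sft m (p + u) ∧ ¬ Squarefree (p + u))).card : ℝ) ≤
        2 * q ^ n * wt K m / m + n * ((n + 8 : ℝ) * Y ^ 14) := by
    intro u hu
    refine (mul_le_mul_of_nonneg_left (cover (m := m) (hdeg u hu)) hn0.le).trans ?_
    rw [mul_sum]
    refine (sum_le_sum (hone u hu)).trans ?_
    rw [sum_add_distrib, sum_const, nsmul_eq_mul, ← sum_div, ← mul_sum]
    have h1 : 2 * q ^ n * ∑ d ∈ Ioc m (n / 2), wt K d ≤ 2 * q ^ n * wt K m :=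
      mul_le_mul_of_nonneg_left (geo_wt m (n / 2)) (by positivity)
    have h2 : ((Ioc m (n / 2)).card : ℝ) ≤ n := by
      rw [Nat.card_Ioc]
      exact_mod_cast (by omega : n / 2 - m ≤ n)
    refine add_le_add (div_le_div_of_nonneg_right h1 hm0.le)
      (mul_le_mul_of_nonneg_right h2 (by positivity))
  -- sum over the window
  have hcard : ((Dz K w).card : ℝ) ≤ q ^ w := by
    have h1 : (Dz K w).card ≤ (Dg K w).card := card_le_card (erase_subset _ _)
    rw [card_Dg] at h1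
    rw [hqd]
    exact_mod_cast h1
  have hqw1 : q ^ w * wt K m ≤ 1 := by
    unfold Pool.Agent.H694.Typ.wt
    rw [← hqd, mul_inv_le_iff₀ (by positivity), one_mul]
    exact pow_le_pow_right₀ (by linarith) hwm
  have hqw2 : q ^ w ≤ Y := by
    rw [hY, ← hr16, ← pow_mul]
    exact pow_le_pow_right₀ hr1.le (by omega)
  have hwtm := wt_nonneg (k := K) m
  have hfin : (n : ℝ) * ∑ u ∈ Dz K w,
      (((Irn K n).filter (fun p => Sft m (p + u) ∧ ¬ Squarefree (p + u))).card : ℝ) ≤ ε * q ^ n := by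
    rw [mul_sum]
    calc ∑ u ∈ Dz K w, (n : ℝ) *
          (((Irn K n).filter (fun p => Sft m (p + u) ∧ ¬ Squarefree (p + u))).card : ℝ)
        ≤ ∑ _u ∈ Dz K w, (2 * q ^ n * wt K m / m + n * ((n + 8 : ℝ) * Y ^ 14)) := sum_le_sum hsum
      _ = ((Dz K w).card : ℝ) * (2 * q ^ n * wt K m / m + n * ((n + 8 : ℝ) * Y ^ 14)) := by
          rw [sum_const, nsmul_eq_mul]
      _ ≤ q ^ w * (2 * q ^ n * wt K m / m + n * ((n + 8 : ℝ) * Y ^ 14)) :=
          mul_le_mul_of_nonneg_right hcard (by positivity)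
      _ = (q ^ w * wt K m) * (2 / m) * q ^ n + q ^ w * (n * ((n + 8 : ℝ) * Y ^ 14)) := by ring
      _ ≤ 1 * (2 / m) * q ^ n + Y * (n * ((n + 8 : ℝ) * Y ^ 14)) := by gcongr
      _ = 2 / m * q ^ n + n * (n + 8) * Y ^ 15 := by ring
      _ ≤ ε / 2 * q ^ n + 9 * (n : ℝ) ^ 2 * Y ^ 15 := by
          have h1 : (n : ℝ) * (n + 8) ≤ 9 * (n : ℝ) ^ 2 := by nlinarith
          gcongr
      _ ≤ ε / 2 * q ^ n + ε / 2 * Y * Y ^ 15 := by gcongr
      _ = ε * q ^ n := by rw [hZ]; ring
  rw [← hqd, ← mul_div_assoc, le_div_iff₀ hn0, mul_comm]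
  exact hfin

end Pool.Agent.H530.Pp
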