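import Mathlib
import Pool.Agent.H530.PpE

/-!
# The windows around the irreducible polynomials: odd and even neighbours (helper530)
-/

set_option autoImplicit false

namespace Pool.Agent.H530.Pp

open Polynomial Finset
open scoped Classical
open Pool.Agent.H985.Par (Sft)
open Pool.Agent.H985.Chow (mob)
open Pool.Agent.H694.Typ (Mn Irn mem_Mn mem_Irn card_Mn PU mem_PU wt wt_nonneg wt_le_half q_ge)
open Pool.Agent.H530.Po

/-- the number of the irreducible factors -/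
noncomputable def Omg {K : Type} [Field K] (F : K[X]) : ℕ :=
  Multiset.card (UniqueFactorizationMonoid.factors F)

variable {K : Type} [Field K] [Fintype K]

/-- the number of the odd sifted neighbours -/
noncomputable def OO (w m : ℕ) (p : K[X]) : ℕ := ((Nb w m p).filter (fun u => Odd (Omg (p + u)))).card

/-- the number of the even sifted neighbours -/
noncomputable def EE (w m : ℕ) (p : K[X]) : ℕ := ((Nb w m p).filter (fun u => Even (Omg (p + u)))).card

/-- the number of the sifted neighbours which are not squarefree -/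
noncomputable def BB (w m : ℕ) (p : K[X]) : ℕ := ((Nb w m p).filter (fun u => ¬ Squarefree (p + u))).card

theorem OO_EE (w m : ℕ) (p : K[X]) : OO w m p + EE w m p = NN w m p := by
  unfold OO EE NN
  have h1 := Finset.card_filter_add_card_filter_not (s := Nb w m p) (fun u => Odd (Omg (p + u)))
  rw [← h1]
  congr 2
  exact Finset.filter_congr fun u _ => Nat.not_odd_iff_even.symm

theorem TT_EE (w m : ℕ) (p : K[X]) :
    |TT w m p - ((EE w m p : ℝ) - (OO w m p : ℝ))| ≤ (BB w m p : ℝ) := by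
  have h1 : ((EE w m p : ℝ) - (OO w m p : ℝ)) = ∑ u ∈ Nb w m p, (-1 : ℝ) ^ Omg (p + u) := by
    have h2 : ∀ u ∈ Nb w m p, (-1 : ℝ) ^ Omg (p + u) =
        (if Even (Omg (p + u)) then (1 : ℝ) else 0) - (if Odd (Omg (p + u)) then (1 : ℝ) else 0) := by
      intro u _
      rcases Nat.even_or_odd (Omg (p + u)) with h | h
      · rw [if_pos h, if_neg (Nat.not_odd_iff_even.2 h), h.neg_one_pow, sub_zero]
      · rw [if_neg (Nat.not_even_iff_odd.2 h), if_pos h, h.neg_one_pow, zero_sub]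
    rw [sum_congr rfl h2, sum_sub_distrib, sum_boole, sum_boole]
    rfl
  rw [h1]
  unfold TT BB
  rw [← sum_sub_distrib]
  refine (abs_sum_le_sum_abs _ _).trans ?_
  rw [Finset.card_filter]
  push_cast
  refine sum_le_sum fun u _ => ?_
  unfold Pool.Agent.H985.Chow.mob
  by_cases h : Squarefree (p + u)
  · rw [if_pos h, if_neg (not_not.2 h)]
    unfold Omg
    push_cast
    rw [sub_self, abs_zero]
  · rw [if_neg h, if_pos h]
    push_cast
    rw [zero_sub, abs_neg, abs_pow, abs_neg, abs_one, one_pow]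

theorem sum_BB (n w m : ℕ) : ∑ p ∈ Irn K n, (BB w m p : ℝ) = ∑ u ∈ Dz K w,
    (((Irn K n).filter (fun p => Sft m (p + u) ∧ ¬ Squarefree (p + u))).card : ℝ) := by
  have h1 : ∀ p ∈ Irn K n, (BB w m p : ℝ) = ∑ u ∈ Dz K w,
      (if Sft m (p + u) ∧ ¬ Squarefree (p + u) then (1 : ℝ) else 0) := by
    intro p _
    unfold BB Nb
    rw [Finset.filter_filter, sum_boole]
  rw [sum_congr rfl h1, sum_comm]
  exact sum_congr rfl fun u _ => by rw [sum_boole]

/-- the proportion of the irreducible polynomials with `i` sifted neighbours -/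
noncomputable def pr (n w m i : ℕ) (K : Type) [Field K] [Fintype K] : ℝ :=
  (((Irn K n).filter (fun p => NN w m p = i)).card : ℝ) / (Irn K n).card

/-- the Poisson distribution -/
noncomputable def ps (t : ℝ) (i : ℕ) : ℝ := Real.exp (-t) * (t ^ i / (i.factorial : ℝ))

theorem parP (K : Type) [Field K] [Fintype K] [CharP K 2] (Lam ε : ℝ) (hLam : 0 ≤ Lam)
    (hε : 0 < ε) (i : ℕ) :
    Evt (fun n w m => mn K w m ≤ Lam → 0 < (Irn K n).card ∧
      |pr n w m i K - ps (mn K w m) i| ≤ ε ∧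
      |(∑ p ∈ (Irn K n).filter (fun p => NN w m p = i), ((EE w m p : ℝ) - (OO w m p : ℝ))) /
        (Irn K n).card| ≤ ε) := by
  have h1 := lawP K Lam (ε / 2) hLam (by positivity) i
  obtain ⟨M, N, hM⟩ := nsf K (ε / 4) (by positivity)
  have h2 : Evt (fun n w m => ∑ p ∈ Irn K n, (BB w m p : ℝ) ≤
      ε / 4 * ((Fintype.card K : ℝ) ^ n / n)) :=
    ⟨1 / 16, by norm_num, M, N, fun n w m hn hw hwm hm => by
      dsimp only
      rw [sum_BB]
      exact hM n w m hn (hw.trans hwm) hwm hm⟩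
  obtain ⟨N', hN'⟩ := cnt0 K (1 / 2) (by norm_num)
  have h3 : Evt (fun n w m => 1 ≤ n ∧ |((Irn K n).card : ℝ) - (Fintype.card K : ℝ) ^ n / n| ≤
      1 / 2 * ((Fintype.card K : ℝ) ^ n / n)) :=
    ⟨1, one_pos, 0, max 1 N', fun n w m hn _ _ _ =>
      ⟨(le_max_left _ _).trans hn, hN' n ((le_max_right _ _).trans hn)⟩⟩
  refine ((h1.and h2).and h3).mono fun n w m h hlam => ?_
  obtain ⟨⟨h4, h5⟩, hn1, h6⟩ := h
  obtain ⟨h7, h8⟩ := h4 hlam
  obtain ⟨X, hX⟩ : ∃ X : ℝ, X = (Fintype.card K : ℝ) ^ n / n := ⟨_, rfl⟩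
  have hX0 : 0 < X := by
    rw [hX]
    have : (0 : ℝ) < Fintype.card K := by exact_mod_cast Fintype.card_pos
    have : (0 : ℝ) < n := by exact_mod_cast hn1
    positivity
  rw [← hX] at h5 h6
  obtain ⟨I, hI⟩ : ∃ I : ℝ, I = ((Irn K n).card : ℝ) := ⟨_, rfl⟩
  have hIlo : X / 2 ≤ I := by
    have := (abs_le.1 h6).1
    rw [← hI] at this
    linarith
  have hI0 : 0 < I := by linarith
  refine ⟨by rw [hI] at hI0; exact_mod_cast hI0, ?_, ?_⟩
  · unfold pr ps
    exact h7.trans (by linarith)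
  · rw [← hI] at h8 ⊢
    have h9 : |(∑ p ∈ (Irn K n).filter (fun p => NN w m p = i), TT w m p) -
        ∑ p ∈ (Irn K n).filter (fun p => NN w m p = i), ((EE w m p : ℝ) - (OO w m p : ℝ))| ≤
          ε / 4 * X := by
      rw [← sum_sub_distrib]
      refine (abs_sum_le_sum_abs _ _).trans ((sum_le_sum fun p _ => TT_EE w m p).trans ?_)
      refine le_trans (sum_le_sum_of_subset_of_nonneg (filter_subset _ _) fun p _ _ => ?_) h5
      exact Nat.cast_nonneg _
    rw [abs_div, abs_of_pos hI0, div_le_iff₀ hI0] at h8 ⊢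
    have h10 := abs_sub_abs_le_abs_sub
      (∑ p ∈ (Irn K n).filter (fun p => NN w m p = i), ((EE w m p : ℝ) - (OO w m p : ℝ)))
      (∑ p ∈ (Irn K n).filter (fun p => NN w m p = i), TT w m p)
    rw [abs_sub_comm] at h10
    nlinarith

/-- the mean number of the odd (or even) neighbours over the level sets -/
theorem halves (K : Type) [Field K] [Fintype K] [CharP K 2] (Lam ε : ℝ) (hLam : 0 ≤ Lam)
    (hε : 0 < ε) (i : ℕ) :
    Evt (fun n w m => mn K w m ≤ Lam → 0 < (Irn K n).card ∧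
      |pr n w m i K - ps (mn K w m) i| ≤ ε ∧
      |(∑ p ∈ (Irn K n).filter (fun p => NN w m p = i), (OO w m p : ℝ)) / (Irn K n).card -
        i / 2 * ps (mn K w m) i| ≤ ε ∧
      |(∑ p ∈ (Irn K n).filter (fun p => NN w m p = i), (EE w m p : ℝ)) / (Irn K n).card -
        i / 2 * ps (mn K w m) i| ≤ ε) := by
  obtain ⟨δ, hδ⟩ : ∃ δ : ℝ, δ = ε / ((i : ℝ) + 1) := ⟨_, rfl⟩
  have hδ0 : 0 < δ := by rw [hδ]; positivity
  have hδε : ((i : ℝ) + 1) * δ = ε := by rw [hδ]; field_simp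
  refine (parP K Lam δ hLam hδ0 i).mono fun n w m h hlam => ?_
  obtain ⟨h1, h2, h3⟩ := h hlam
  have hi0 : (0 : ℝ) ≤ i := Nat.cast_nonneg i
  have hδle : δ ≤ ε := by nlinarith
  refine ⟨h1, h2.trans hδle, ?_⟩
  obtain ⟨I, hI⟩ : ∃ I : ℝ, I = ((Irn K n).card : ℝ) := ⟨_, rfl⟩
  have hI0 : 0 < I := by rw [hI]; exact_mod_cast h1
  obtain ⟨D, hD⟩ : ∃ D : ℝ, D = (∑ p ∈ (Irn K n).filter (fun p => NN w m p = i),
    ((EE w m p : ℝ) - (OO w m p : ℝ))) / I := ⟨_, rfl⟩
  obtain ⟨SO, hSO⟩ : ∃ SO : ℝ, SO = (∑ p ∈ (Irn K n).filter (fun p => NN w m p = i),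
    (OO w m p : ℝ)) / I := ⟨_, rfl⟩
  obtain ⟨SE, hSE⟩ : ∃ SE : ℝ, SE = (∑ p ∈ (Irn K n).filter (fun p => NN w m p = i),
    (EE w m p : ℝ)) / I := ⟨_, rfl⟩
  rw [← hI] at h3 ⊢
  rw [← hD] at h3
  rw [← hSO, ← hSE]
  have e1 : SE - SO = D := by
    rw [hSE, hSO, hD, ← sub_div, ← sum_sub_distrib]
  have e2 : SE + SO = i * pr n w m i K := by
    rw [hSE, hSO, ← add_div, ← sum_add_distrib]
    unfold pr
    rw [← hI, ← mul_div_assoc]
    congr 1
    rw [← nsmul_eq_mul', ← sum_const]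
    refine sum_congr rfl fun p hp => ?_
    rw [mem_filter] at hp
    have := OO_EE w m p
    rw [hp.2] at this
    rw [add_comm]
    exact_mod_cast this
  have e3 : |(i : ℝ) * (pr n w m i K - ps (mn K w m) i)| ≤ i * δ := by
    rw [abs_mul, abs_of_nonneg hi0]
    exact mul_le_mul_of_nonneg_left h2 hi0
  rw [abs_le] at h3 e3 ⊢
  rw [abs_le]
  have e4 : (i : ℝ) * δ + δ = ε := by rw [← hδε]; ring
  refine ⟨⟨?_, ?_⟩, ⟨?_, ?_⟩⟩ <;> nlinarith [h3.1, h3.2, e3.1, e3.2]

/-- from the level sets to the existence of a neighbour -/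
theorem exists_ge {α : Type} (F : Finset α) (A C : α → ℕ) (hCA : ∀ f ∈ F, C f ≤ A f) (J : ℕ)
    (p : ℕ → ℝ) (δ : ℝ) (hF : 0 < F.card)
    (h : ∀ i ∈ Icc 1 J, |(∑ f ∈ F.filter (fun f => A f = i), (C f : ℝ)) / F.card - i / 2 * p i| ≤ δ) :
    (∑ i ∈ Icc 1 J, p i) / 2 - J * δ ≤ ((F.filter (fun f => 1 ≤ C f)).card : ℝ) / F.card := by
  have hF0 : (0 : ℝ) < F.card := by exact_mod_cast hF
  have h1 : (∑ i ∈ Icc 1 J, (((F.filter (fun f => A f = i ∧ 1 ≤ C f)).card : ℝ))) ≤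
      ((F.filter (fun f => 1 ≤ C f)).card : ℝ) := by
    have h2 : ((Icc 1 J).biUnion fun i => F.filter (fun f => A f = i ∧ 1 ≤ C f)).card =
        ∑ i ∈ Icc 1 J, (F.filter (fun f => A f = i ∧ 1 ≤ C f)).card := by
      refine card_biUnion fun i _ j _ hij => ?_
      rw [Function.onFun, Finset.disjoint_left]
      intro f hf hf'
      rw [mem_filter] at hf hf'
      exact hij (hf.2.1.symm.trans hf'.2.1)
    have h3 : ((Icc 1 J).biUnion fun i => F.filter (fun f => A f = i ∧ 1 ≤ C f)) ⊆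
        F.filter (fun f => 1 ≤ C f) := by
      intro f hf
      rw [mem_biUnion] at hf
      obtain ⟨i, -, hf⟩ := hf
      rw [mem_filter] at hf ⊢
      exact ⟨hf.1, hf.2.2⟩
    have h4 := card_le_card h3
    rw [h2] at h4
    exact_mod_cast h4
  have h5 : ∀ i ∈ Icc 1 J, p i / 2 - δ ≤
      ((F.filter (fun f => A f = i ∧ 1 ≤ C f)).card : ℝ) / F.card := by
    intro i hi
    have hi1 : 1 ≤ i := (mem_Icc.1 hi).1
    have hi0 : (0 : ℝ) < i := by exact_mod_cast hi1
    have hi1' : (1 : ℝ) ≤ i := by exact_mod_cast hi1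
    have h6 : ∑ f ∈ F.filter (fun f => A f = i), (C f : ℝ) ≤
        i * ((F.filter (fun f => A f = i ∧ 1 ≤ C f)).card : ℝ) := by
      have h7 : F.filter (fun f => A f = i ∧ 1 ≤ C f) =
          (F.filter (fun f => A f = i)).filter (fun f => 1 ≤ C f) := by
        rw [filter_filter]
      rw [h7, card_filter]
      push_cast
      rw [mul_sum]
      refine sum_le_sum fun f hf => ?_
      rw [mem_filter] at hf
      by_cases hc : 1 ≤ C f
      · rw [if_pos hc, mul_one]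
        have := hCA f hf.1
        rw [hf.2] at this
        exact_mod_cast this
      · rw [if_neg hc, mul_zero]
        have : C f = 0 := by omega
        rw [this, Nat.cast_zero]
    have h8 := (abs_le.1 (h i hi)).1
    have h9 : (∑ f ∈ F.filter (fun f => A f = i), (C f : ℝ)) / F.card ≤
        i * (((F.filter (fun f => A f = i ∧ 1 ≤ C f)).card : ℝ) / F.card) := by
      rw [← mul_div_assoc]
      exact div_le_div_of_nonneg_right h6 hF0.le
    obtain ⟨y, hy⟩ : ∃ y : ℝ, y = ((F.filter (fun f => A f = i ∧ 1 ≤ C f)).card : ℝ) / F.card :=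
      ⟨_, rfl⟩
    rw [← hy] at h9 ⊢
    have hδ0 : 0 ≤ δ := (abs_nonneg _).trans (h i hi)
    have h10 : (i : ℝ) * (p i / 2 - δ) ≤ i * y := by
      have : (i : ℝ) * (p i / 2 - δ) = i / 2 * p i - i * δ := by ring
      rw [this]
      nlinarith
    exact le_of_mul_le_mul_left h10 hi0
  calc (∑ i ∈ Icc 1 J, p i) / 2 - J * δ = ∑ i ∈ Icc 1 J, (p i / 2 - δ) := by
        rw [sum_sub_distrib, sum_const, Nat.card_Icc, nsmul_eq_mul, sum_div, Nat.add_sub_cancel]
    _ ≤ ∑ i ∈ Icc 1 J, ((F.filter (fun f => A f = i ∧ 1 ≤ C f)).card : ℝ) / F.card := sum_le_sum h5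
    _ = (∑ i ∈ Icc 1 J, (((F.filter (fun f => A f = i ∧ 1 ≤ C f)).card : ℝ))) / F.card := by
        rw [sum_div]
    _ ≤ _ := div_le_div_of_nonneg_right h1 hF0.le

/-- the tail of the Poisson distribution -/
theorem ps_tail (t : ℝ) (ht : 0 ≤ t) (J : ℕ) :
    1 - Real.exp (-t) - t ^ (J + 1) / ((J + 1).factorial : ℝ) ≤ ∑ i ∈ Icc 1 J, ps t i := by
  have h1 := Pool.Agent.H530.Po.exp_tail t (J + 1)
  rw [abs_of_nonneg ht] at h1
  have h2 := (abs_le.1 h1).2
  have h3 : ∑ a ∈ range (J + 1), t ^ a / (a.factorial : ℝ) =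
      1 + ∑ i ∈ Icc 1 J, t ^ i / (i.factorial : ℝ) := by
    rw [Finset.range_eq_Ico, Finset.sum_eq_sum_Ico_succ_bot (by omega), pow_zero, Nat.factorial_zero,
      Nat.cast_one, div_one]
    rfl
  rw [h3] at h2
  have h4 : ∑ i ∈ Icc 1 J, ps t i = Real.exp (-t) * ∑ i ∈ Icc 1 J, t ^ i / (i.factorial : ℝ) := by
    unfold ps
    rw [mul_sum]
  rw [h4]
  have he : Real.exp (-t) * Real.exp t = 1 := by rw [← Real.exp_add, neg_add_cancel, Real.exp_zero]
  have he0 := Real.exp_pos (-t)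
  have h5 := mul_le_mul_of_nonneg_left h2 he0.le
  obtain ⟨S, hS⟩ : ∃ S : ℝ, S = ∑ i ∈ Icc 1 J, t ^ i / (i.factorial : ℝ) := ⟨_, rfl⟩
  obtain ⟨T, hT⟩ : ∃ T : ℝ, T = t ^ (J + 1) / ((J + 1).factorial : ℝ) := ⟨_, rfl⟩
  rw [← hS, ← hT] at h5
  rw [← hS, ← hT]
  have h6 : Real.exp (-t) * (Real.exp t - (1 + S)) = 1 - Real.exp (-t) - Real.exp (-t) * S := by
    linear_combination he
  have h7 : Real.exp (-t) * (T * Real.exp t) = T := by linear_combination T * he
  rw [h6, h7] at h5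
  linarith

/-- **Odd and even neighbours of the irreducible polynomials.** -/
theorem neighbours (K : Type) [Field K] [Fintype K] [CharP K 2] (Lam ε : ℝ) (hLam : 0 ≤ Lam)
    (hε : 0 < ε) :
    Evt (fun n w m => mn K w m ≤ Lam →
      (1 - Real.exp (-mn K w m)) / 2 - ε ≤
        (((Irn K n).filter (fun p => 1 ≤ OO w m p)).card : ℝ) / (Irn K n).card ∧
      (1 - Real.exp (-mn K w m)) / 2 - ε ≤
        (((Irn K n).filter (fun p => 1 ≤ EE w m p)).card : ℝ) / (Irn K n).card) := by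
  have htend := FloorSemiring.tendsto_pow_div_factorial_atTop Lam
  obtain ⟨J₀, hJ₀⟩ := (Metric.tendsto_atTop.1 htend) ε hε
  obtain ⟨J, hJ⟩ : ∃ J : ℕ, J = J₀ + 1 := ⟨_, rfl⟩
  have htJ : Lam ^ (J + 1) / ((J + 1).factorial : ℝ) ≤ ε := by
    have h1 := hJ₀ (J + 1) (by omega)
    rw [Real.dist_eq, sub_zero, abs_of_nonneg (by positivity)] at h1
    exact h1.le
  obtain ⟨δ, hδ⟩ : ∃ δ : ℝ, δ = ε / (2 * J) := ⟨_, rfl⟩
  have hJ0 : (0 : ℝ) < J := by exact_mod_cast (by omega : 0 < J)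
  have hδ0 : 0 < δ := by rw [hδ]; positivity
  have hδJ : J * δ = ε / 2 := by rw [hδ]; field_simp
  refine (Evt.all J (fun i n w m => mn K w m ≤ Lam → 0 < (Irn K n).card ∧
      |pr n w m i K - ps (mn K w m) i| ≤ δ ∧
      |(∑ p ∈ (Irn K n).filter (fun p => NN w m p = i), (OO w m p : ℝ)) / (Irn K n).card -
        i / 2 * ps (mn K w m) i| ≤ δ ∧
      |(∑ p ∈ (Irn K n).filter (fun p => NN w m p = i), (EE w m p : ℝ)) / (Irn K n).card -
        i / 2 * ps (mn K w m) i| ≤ δ) fun i => halves K Lam δ hLam hδ0 i).mono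
    fun n w m h hlam => ?_
  have h0 := (h 0 (Nat.zero_le _) hlam).1
  obtain ⟨t, ht⟩ : ∃ t : ℝ, t = mn K w m := ⟨_, rfl⟩
  have ht0 : 0 ≤ t := by rw [ht]; exact mn_nonneg w m
  have h1 := ps_tail t ht0 J
  have h2 : t ^ (J + 1) / ((J + 1).factorial : ℝ) ≤ ε := by
    refine le_trans (div_le_div_of_nonneg_right (pow_le_pow_left₀ ht0 ?_ _) (by positivity)) htJ
    rw [ht]
    exact hlam
  rw [← ht]
  constructor
  · have h3 := exists_ge (Irn K n) (NN w m) (OO w m)
      (fun p _ => by have := OO_EE w m p; omega) J (ps t) δ h0 fun i hi => by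
        rw [ht]
        exact (h i (mem_Icc.1 hi).2 hlam).2.2.1
    linarith
  · have h3 := exists_ge (Irn K n) (NN w m) (EE w m)
      (fun p _ => by have := OO_EE w m p; omega) J (ps t) δ h0 fun i hi => by
        rw [ht]
        exact (h i (mem_Icc.1 hi).2 hlam).2.2.2
    linarith

end Pool.Agent.H530.Pp
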