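import Mathlib
import Pool.Graph.R_seed8.Y882.MG.Quad2

/-! Local densities of `D b ^ 2 + n ^ 2` (in `b`), uniformly in `n`. -/

set_option autoImplicit false

namespace Pool.Agent.H530.SqA

open Finset Polynomial Filter
open Pool.Agent.W23.DC
open Pool.Agent.Y882.PX
open Pool.Agent.Y882.KW
open Pool.Agent.Y882.SI
open Pool.Agent.Y882.MG

/-- the polynomial `D X ^ 2 + n ^ 2` -/
noncomputable def FF (D : ℤ) (n : ℕ) : ℤ[X] := C D * X ^ 2 + C ((n : ℤ) ^ 2)

theorem FF_eval (D : ℤ) (n : ℕ) (b : ℤ) : (FF D n).eval b = D * b ^ 2 + (n : ℤ) ^ 2 := by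
  unfold FF
  simp

theorem ro_FF_eq (D : ℤ) (n p : ℕ) : ro (FF D n) 0 p =
    ((range p).filter (fun b : ℕ => (p : ℤ) ∣ D * (b : ℤ) ^ 2 + (n : ℤ) ^ 2)).card := by
  rw [ro_eq]
  congr 1
  apply filter_congr
  intro b _
  rw [FF_eval, add_zero]

/-- odd primes not dividing `D` -/
theorem ro_odd (D : ℤ) (n p : ℕ) (hp : p.Prime) (h2 : p ≠ 2) (hD : ¬ (p : ℤ) ∣ D) :
    (ro (FF D n) 0 p : ℤ) = 1 + jacobiSym (-(D * (n : ℤ) ^ 2)) p := by
  have : Fact p.Prime := ⟨hp⟩
  rw [← jacobiSym.legendreSym.to_jacobiSym, add_comm, ← legendreSym.card_sqrts p h2 _]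
  rw [ro_FF_eq]
  have hDu : (D : ZMod p) ≠ 0 := by
    rw [Ne, ZMod.intCast_zmod_eq_zero_iff_dvd]
    exact hD
  congr 1
  apply card_bij' (i := fun (b : ℕ) _ => (D : ZMod p) * (b : ZMod p))
    (j := fun (x : ZMod p) _ => ((D : ZMod p)⁻¹ * x).val)
  · intro b hb
    rw [mem_filter, mem_range] at hb
    rw [Set.mem_toFinset, Set.mem_ofPred_eq]
    have h1 := (ZMod.intCast_zmod_eq_zero_iff_dvd (D * (b : ℤ) ^ 2 + (n : ℤ) ^ 2) p).2 hb.2
    push_cast at h1 ⊢
    linear_combination (D : ZMod p) * h1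
  · intro x hx
    rw [Set.mem_toFinset, Set.mem_ofPred_eq] at hx
    rw [mem_filter, mem_range]
    refine ⟨ZMod.val_lt _, ?_⟩
    rw [← ZMod.intCast_zmod_eq_zero_iff_dvd]
    push_cast at hx ⊢
    rw [ZMod.natCast_zmod_val, mul_pow, hx]
    field_simp
    ring
  · intro b hb
    rw [mem_filter, mem_range] at hb
    rw [inv_mul_cancel_left₀ hDu]
    exact ZMod.val_cast_of_lt hb.1
  · intro x _
    rw [ZMod.natCast_zmod_val, mul_inv_cancel_left₀ hDu]

/-- primes dividing `D` -/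
theorem ro_D (D : ℤ) (n p : ℕ) (hp : p.Prime) (hD : (p : ℤ) ∣ D) (hn : ¬ p ∣ n) :
    ro (FF D n) 0 p = 0 := by
  rw [ro_FF_eq, card_eq_zero, filter_eq_empty_iff]
  intro b _ hd
  have h1 : (p : ℤ) ∣ (n : ℤ) ^ 2 := by
    have := dvd_sub hd (hD.mul_right ((b : ℤ) ^ 2))
    rwa [add_sub_cancel_left] at this
  have h2 : p ∣ n ^ 2 := by exact_mod_cast h1
  exact hn (hp.dvd_of_dvd_pow h2)

/-- odd primes dividing `n` -/
theorem ro_n (D : ℤ) (n p : ℕ) (hp : p.Prime) (hD : ¬ (p : ℤ) ∣ D) (hn : p ∣ n) :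
    ro (FF D n) 0 p = 1 := by
  rw [ro_FF_eq]
  have : (range p).filter (fun b : ℕ => (p : ℤ) ∣ D * (b : ℤ) ^ 2 + (n : ℤ) ^ 2) = {0} := by
    ext b
    rw [mem_filter, mem_range, mem_singleton]
    have hn2 : (p : ℤ) ∣ (n : ℤ) ^ 2 := (Int.natCast_dvd_natCast.2 hn).trans (dvd_pow_self _ two_ne_zero)
    constructor
    · rintro ⟨h1, h2⟩
      have h3 : (p : ℤ) ∣ D * (b : ℤ) ^ 2 := by
        have := dvd_sub h2 hn2
        rwa [add_sub_cancel_right] at this
      have hpp := Nat.prime_iff_prime_int.1 hp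
      rcases hpp.dvd_or_dvd h3 with h4 | h4
      · exact absurd h4 hD
      · have h5 : p ∣ b := by
          have := hpp.dvd_of_dvd_pow h4
          exact_mod_cast this
        exact Nat.eq_zero_of_dvd_of_lt h5 h1
    · rintro rfl
      exact ⟨hp.pos, by simpa using hn2⟩
  rw [this, card_singleton]

theorem jac_sq (D : ℤ) (n p : ℕ) (hp : p.Prime) (hn : ¬ p ∣ n) :
    jacobiSym (-(D * (n : ℤ) ^ 2)) p = jacobiSym (-D) p := by
  have h1 : -(D * (n : ℤ) ^ 2) = -D * (n : ℤ) ^ 2 := by ring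
  rw [h1, jacobiSym.mul_left, jacobiSym.pow_left]
  have h2 : jacobiSym (n : ℤ) p = 1 ∨ jacobiSym (n : ℤ) p = -1 := by
    apply jacobiSym.eq_one_or_neg_one
    rw [Int.gcd_natCast_natCast]
    exact ((Nat.Prime.coprime_iff_not_dvd hp).2 hn).symm
  rcases h2 with h | h <;> rw [h] <;> norm_num

/-- odd primes dividing neither `D` nor `n` -/
theorem ro_same (D : ℤ) (n p : ℕ) (hp : p.Prime) (h2 : p ≠ 2) (hD : ¬ (p : ℤ) ∣ D) (hn : ¬ p ∣ n) :
    ro (FF D n) 0 p = ro (QF D) 0 p := by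
  have h3 := ro_odd D n p hp h2 hD
  rw [jac_sq D n p hp hn, ← ro_quad D p hp h2] at h3
  exact_mod_cast h3

theorem ro_le_two (D : ℤ) (n p : ℕ) (hp : p.Prime) (hco : IsCoprime (n : ℤ) D) :
    ro (FF D n) 0 p ≤ 2 := by
  by_cases h2 : p = 2
  · rw [h2]
    exact ro_le_self _ _ _
  by_cases hD : (p : ℤ) ∣ D
  · rw [ro_D D n p hp hD]
    · omega
    · intro hn
      have h3 := (Int.natCast_dvd_natCast.2 hn)
      have := hco.isUnit_of_dvd' h3 hD
      rw [Int.isUnit_iff] at this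
      have := hp.one_lt
      omega
  · by_cases hn : p ∣ n
    · rw [ro_n D n p hp hD hn]
      omega
    · rw [ro_same D n p hp h2 hD hn]
      exact ro_quad_le D p hp

/-- every prime: comparison of the local factors -/
theorem fac (D : ℤ) (n p : ℕ) (hp : p.Prime) (hco : IsCoprime (n : ℤ) D) :
    (1 - (ro (QF D) 0 p : ℝ) / p) * (if p ∣ n then 1 - 1 / (p : ℝ) else 1) ≤
      1 - (ro (FF D n) 0 p : ℝ) / p := by
  have hp1 : (1 : ℝ) < p := by exact_mod_cast hp.one_lt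
  have hp0 : (0 : ℝ) < p := by linarith
  have h0 : 0 ≤ (ro (QF D) 0 p : ℝ) / p := by positivity
  have h1 : (ro (QF D) 0 p : ℝ) / p ≤ 1 := by
    rw [div_le_one hp0]
    exact_mod_cast ro_le_self _ _ _
  have hnd : ¬ ((p : ℤ) ∣ D ∧ p ∣ n) := by
    rintro ⟨hD, hn⟩
    have := hco.isUnit_of_dvd' (Int.natCast_dvd_natCast.2 hn) hD
    rw [Int.isUnit_iff] at this
    have := hp.one_lt
    omega
  by_cases hD : (p : ℤ) ∣ D
  · have hn : ¬ p ∣ n := fun h => hnd ⟨hD, h⟩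
    rw [if_neg hn, ro_D D n p hp hD hn, mul_one, Nat.cast_zero, zero_div]
    linarith
  by_cases hn : p ∣ n
  · rw [if_pos hn, ro_n D n p hp hD hn]
    have h3 : 0 ≤ 1 - 1 / (p : ℝ) := by
      rw [sub_nonneg, div_le_one hp0]
      exact hp1.le
    calc _ ≤ 1 * (1 - 1 / (p : ℝ)) := mul_le_mul_of_nonneg_right (by linarith) h3
      _ = _ := by push_cast; ring
  rw [if_neg hn, mul_one]
  by_cases h2 : p = 2
  · subst h2
    have e1 : ro (FF D n) 0 2 ≤ ro (QF D) 0 2 := by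
      have hDo : D % 2 = 1 := by omega
      have hno : n % 2 = 1 := by omega
      rw [ro_FF_eq, ro_eq]
      apply card_le_card
      intro b hb
      rw [mem_filter] at hb ⊢
      refine ⟨hb.1, ?_⟩
      rw [QF_eval, add_zero]
      have h3 := hb.2
      push_cast at h3 ⊢
      have hb2 : (b : ℤ) = 0 ∨ (b : ℤ) = 1 := by
        have := mem_range.1 hb.1
        omega
      have hn2 : ((n : ℤ) ^ 2) % 2 = 1 := by
        have : (n : ℤ) % 2 = 1 := by omega
        rw [pow_two, Int.mul_emod, this]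
        norm_num
      rcases hb2 with h | h <;> rw [h] at h3 ⊢ <;> omega
    have e2 : (ro (FF D n) 0 2 : ℝ) ≤ ro (QF D) 0 2 := by exact_mod_cast e1
    have : (ro (FF D n) 0 2 : ℝ) / ((2 : ℕ) : ℝ) ≤ (ro (QF D) 0 2 : ℝ) / ((2 : ℕ) : ℝ) :=
      div_le_div_of_nonneg_right e2 hp0.le
    linarith
  · rw [ro_same D n p hp h2 hD hn]

/-- `φ(n) / n` as a product -/
theorem totient_prod (n : ℕ) (hn : 0 < n) :
    (Nat.totient n : ℝ) / n = ∏ p ∈ n.primeFactors, (1 - 1 / (p : ℝ)) := by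
  have h := Nat.totient_eq_mul_prod_factors n
  have h' : (Nat.totient n : ℝ) = n * ∏ p ∈ n.primeFactors, (1 - (p : ℝ)⁻¹) := by
    have := congrArg (fun q : ℚ => (q : ℝ)) h
    push_cast at this
    exact this
  have hn0 : (n : ℝ) ≠ 0 := by positivity
  rw [h', mul_div_cancel_left₀ _ hn0]
  apply prod_congr rfl
  intro p _
  rw [one_div]

/-- the product of the local factors -/
theorem lo_FF (D : ℤ) (n Z : ℕ) (hn : 0 < n) (hco : IsCoprime (n : ℤ) D) :
    lo (QF D) Z * ((Nat.totient n : ℝ) / n) ≤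
      ∏ p ∈ (Icc 1 Z).filter Nat.Prime, (1 - (ro (FF D n) 0 p : ℝ) / p) := by
  classical
  have hnn : ∀ p ∈ (Icc 1 Z).filter Nat.Prime, 0 ≤ 1 - (ro (QF D) 0 p : ℝ) / p := by
    intro p hp
    have hpp := (mem_filter.1 hp).2
    have hp0 : (0 : ℝ) < p := by exact_mod_cast hpp.pos
    rw [sub_nonneg, div_le_one hp0]
    exact_mod_cast ro_le_self _ _ _
  have hnn2 : ∀ p : ℕ, p.Prime → 0 ≤ 1 - 1 / (p : ℝ) := by
    intro p hp
    have hp0 : (0 : ℝ) < p := by exact_mod_cast hp.pos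
    rw [sub_nonneg, div_le_one hp0]
    exact_mod_cast hp.one_le
  calc lo (QF D) Z * ((Nat.totient n : ℝ) / n)
      ≤ lo (QF D) Z * ∏ p ∈ (Icc 1 Z).filter Nat.Prime, (if p ∣ n then 1 - 1 / (p : ℝ) else 1) := by
        apply mul_le_mul_of_nonneg_left _ (by unfold lo; exact prod_nonneg hnn)
        rw [totient_prod n hn, ← prod_filter]
        apply prod_le_prod_of_subset_of_le_one
        · intro p hp
          rw [mem_filter, mem_filter] at hp
          exact Nat.mem_primeFactors.2 ⟨hp.1.2, hp.2, hn.ne'⟩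
        · intro p hp
          exact hnn2 p (Nat.prime_of_mem_primeFactors hp)
        · intro p hp _
          have : (0 : ℝ) ≤ 1 / (p : ℝ) := by positivity
          linarith
    _ = ∏ p ∈ (Icc 1 Z).filter Nat.Prime, ((1 - (ro (QF D) 0 p : ℝ) / p) *
          (if p ∣ n then 1 - 1 / (p : ℝ) else 1)) := by
        unfold lo
        rw [prod_mul_distrib]
    _ ≤ _ := by
        apply Finset.prod_le_prod
        · intro p hp
          refine mul_nonneg (hnn p hp) ?_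
          split_ifs
          · exact hnn2 p (mem_filter.1 hp).2
          · norm_num
        · intro p hp
          exact fac D n p (mem_filter.1 hp).2 hco

end Pool.Agent.H530.SqA
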