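import Mathlib
import Pool.Agent.H530.SqA

/-! The remainder, the regularity of the densities and the squares for `D b ^ 2 + n ^ 2`. -/

set_option autoImplicit false

namespace Pool.Agent.H530.SqB

open Finset Polynomial Filter
open Pool.Agent.W23.DC
open Pool.Agent.Y882.PX
open Pool.Agent.Y882.KW
open Pool.Agent.Y882.SI
open Pool.Agent.Y882.MG
open Pool.Agent.Y882 (PZ)
open Pool.Agent.H530.SqA

/-- few large prime factors -/
theorem few_primes (n : ℕ) (hn : 0 < n) (Z : ℝ) (hZ : 1 < Z) (E : ℝ) (hE : Real.log n ≤ E * Real.log Z)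
    (U : Finset ℕ) (hU : ∀ p ∈ U, p.Prime ∧ p ∣ n ∧ Z ≤ p) : (U.card : ℝ) ≤ E := by
  have h1 : ∏ p ∈ U, p ∣ n := by
    apply Finset.prod_primes_dvd
    · intro p hp
      exact (hU p hp).1.prime
    · intro p hp
      exact (hU p hp).2.1
  have h2 : ((∏ p ∈ U, p : ℕ) : ℝ) ≤ n := by exact_mod_cast Nat.le_of_dvd hn h1
  have h3 : Z ^ U.card ≤ ((∏ p ∈ U, p : ℕ) : ℝ) := by
    push_cast
    rw [← Finset.prod_const]
    apply Finset.prod_le_prod
    · intro _ _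
      linarith
    · intro p hp
      exact (hU p hp).2.2
  have hZ0 : 0 < Real.log Z := Real.log_pos hZ
  have h4 : U.card * Real.log Z ≤ Real.log n := by
    rw [← Real.log_pow]
    exact Real.log_le_log (by positivity) (h3.trans h2)
  have h5 : (U.card : ℝ) * Real.log Z ≤ E * Real.log Z := h4.trans hE
  exact le_of_mul_le_mul_right h5 hZ0

theorem tt_le {Y p : ℕ} {u : ℝ} (hY : 2 ≤ Y) (hp : 0 < p) (h : u ≤ tt Y p) : (Y : ℝ) ^ u ≤ p := by
  have hY1 : (1 : ℝ) < Y := by exact_mod_cast hY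
  have hl : 0 < Real.log Y := Real.log_pos hY1
  unfold tt at h
  rw [le_div_iff₀ hl] at h
  have hp0 : (0 : ℝ) < p := by exact_mod_cast hp
  rw [← Real.log_le_log_iff (by positivity) hp0, Real.log_rpow (by linarith)]
  exact h

theorem tt_lt {Y p : ℕ} {u : ℝ} (hY : 2 ≤ Y) (hp : 0 < p) (h : tt Y p < u) : (p : ℝ) ≤ (Y : ℝ) ^ u := by
  have hY1 : (1 : ℝ) < Y := by exact_mod_cast hY
  have hl : 0 < Real.log Y := Real.log_pos hY1
  unfold tt at h
  rw [div_lt_iff₀ hl] at h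
  have hp0 : (0 : ℝ) < p := by exact_mod_cast hp
  rw [← Real.log_le_log_iff hp0 (by positivity), Real.log_rpow (by linarith)]
  exact h.le

/-- the densities are regular -/
theorem mer_FF (D : ℤ) (hsq : ¬ IsSquare (-D)) (ε₁ υ η : ℝ) (hε : 0 < ε₁) (hυ : υ ≤ 1) (hη : 0 < η) :
    ∃ Y0 : ℕ, ∀ Y : ℕ, Y0 ≤ Y → ∀ n : ℕ, 0 < n → (n : ℝ) ≤ (Y : ℝ) ^ (3 : ℝ) →
      Mer (pr Y ε₁ υ) (tt Y) (fun p => (ro (FF D n) 0 p : ℝ) / p) ε₁ υ η := by
  classical
  obtain ⟨Y1, h1⟩ := mer_quad D hsq ε₁ υ (η / 2) hε hυ (by linarith)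
  have ev1 : ∀ᶠ Y : ℕ in atTop, (6 / (ε₁ * η) + |(D : ℝ)| + 3 : ℝ) ≤ (Y : ℝ) ^ ε₁ :=
    ((tendsto_rpow_atTop hε).comp tendsto_natCast_atTop_atTop).eventually_ge_atTop _
  obtain ⟨Y2, h2⟩ := eventually_atTop.1 (ev1.and (eventually_ge_atTop 3))
  refine ⟨max Y1 Y2, fun Y hY n hn hnY => ?_⟩
  have hm := h1 Y ((le_max_left _ _).trans hY)
  obtain ⟨e1, e2⟩ := h2 Y ((le_max_right _ _).trans hY)
  have hYr : (3 : ℝ) ≤ Y := by exact_mod_cast e2
  have hY0 : (0 : ℝ) < Y := by linarith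
  have hlY : 0 < Real.log Y := Real.log_pos (by linarith)
  have hD0 : 0 ≤ |(D : ℝ)| := abs_nonneg _
  have h60 : 0 < 6 / (ε₁ * η) := by positivity
  set Z : ℝ := (Y : ℝ) ^ ε₁ with hZ
  have hZ1 : 1 < Z := by linarith
  intro a b ha hab hb
  have hm' := hm a b ha hab hb
  set P' := (pr Y ε₁ υ).filter (fun p => a ≤ tt Y p ∧ tt Y p < b) with hP'
  have hP : ∀ p ∈ P', p.Prime ∧ Z ≤ p := by
    intro p hp
    have h3 := (mem_filter.1 hp).1
    unfold pr at h3
    rw [mem_filter] at h3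
    exact ⟨h3.2.1, tt_le (by omega) h3.2.1.pos h3.2.2.1⟩
  have hdiff : |∑ p ∈ P', (ro (FF D n) 0 p : ℝ) / p - ∑ p ∈ P', (ro (QF D) 0 p : ℝ) / p| ≤ η / 2 := by
    rw [← sum_sub_distrib]
    calc |∑ p ∈ P', ((ro (FF D n) 0 p : ℝ) / p - (ro (QF D) 0 p : ℝ) / p)|
        ≤ ∑ p ∈ P', |(ro (FF D n) 0 p : ℝ) / p - (ro (QF D) 0 p : ℝ) / p| := abs_sum_le_sum_abs _ _
      _ ≤ ∑ p ∈ P', (if p ∣ n then 1 / Z else 0) := by
          apply sum_le_sum
          intro p hp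
          obtain ⟨hpp, hpZ⟩ := hP p hp
          have hp0 : (0 : ℝ) < p := by linarith
          have hp2 : p ≠ 2 := by
            rintro rfl
            push_cast at hpZ
            linarith
          have hpD : ¬ (p : ℤ) ∣ D := by
            intro hd
            have hD1 : D ≠ 0 := by
              rintro rfl
              exact hsq ⟨0, by simp⟩
            have h4 : (p : ℤ) ≤ |D| := by
              apply Int.le_of_dvd (abs_pos.2 hD1)
              rwa [dvd_abs]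
            have h5 : (p : ℝ) ≤ |(D : ℝ)| := by exact_mod_cast h4
            linarith
          split_ifs with hpn
          · rw [ro_n D n p hpp hpD hpn, ← sub_div, abs_div, abs_of_pos hp0]
            have h6 := ro_quad_le D p hpp
            have h7 : |((1 : ℕ) : ℝ) - (ro (QF D) 0 p : ℝ)| ≤ 1 := by
              rw [abs_le]
              have : (ro (QF D) 0 p : ℝ) ≤ 2 := by exact_mod_cast h6
              have h0 : (0 : ℝ) ≤ ro (QF D) 0 p := Nat.cast_nonneg _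
              constructor <;> push_cast <;> linarith
            apply div_le_div₀ (by norm_num) h7 (by linarith) hpZ
          · rw [ro_same D n p hpp hp2 hpD hpn, sub_self, abs_zero]
      _ = ((P'.filter (fun p => p ∣ n)).card : ℝ) * (1 / Z) := by
          rw [← sum_filter, sum_const, nsmul_eq_mul]
      _ ≤ (3 / ε₁) * (1 / Z) := by
          apply mul_le_mul_of_nonneg_right _ (by positivity)
          apply few_primes n hn Z hZ1
          · have hn0 : (0 : ℝ) < n := by exact_mod_cast hn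
            calc Real.log n ≤ Real.log ((Y : ℝ) ^ (3 : ℝ)) := Real.log_le_log hn0 hnY
              _ = 3 * Real.log Y := Real.log_rpow hY0 _
              _ = 3 / ε₁ * (ε₁ * Real.log Y) := by field_simp
              _ = 3 / ε₁ * Real.log Z := by rw [hZ, Real.log_rpow hY0]
          · intro p hp
            rw [mem_filter] at hp
            exact ⟨(hP p hp.1).1, hp.2, (hP p hp.1).2⟩
      _ ≤ η / 2 := by
          have hZb : 6 / (ε₁ * η) ≤ Z := by linarith
          rw [div_le_iff₀ (by positivity)] at hZb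
          rw [mul_one_div, div_div, div_le_iff₀ (by positivity)]
          nlinarith
  have htri : |∑ p ∈ P', (ro (FF D n) 0 p : ℝ) / p - Real.log (b / a)| ≤
      |∑ p ∈ P', (ro (FF D n) 0 p : ℝ) / p - ∑ p ∈ P', (ro (QF D) 0 p : ℝ) / p| +
      |∑ p ∈ P', (ro (QF D) 0 p : ℝ) / p - Real.log (b / a)| := by
    have := abs_add_le (∑ p ∈ P', (ro (FF D n) 0 p : ℝ) / p - ∑ p ∈ P', (ro (QF D) 0 p : ℝ) / p)
      (∑ p ∈ P', (ro (QF D) 0 p : ℝ) / p - Real.log (b / a))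
    rwa [sub_add_sub_cancel] at this
  exact htri.trans (by linarith)

/-- the number of sets of primes with a product at most `B` -/
theorem few_sets (P : Finset ℕ) (hP : ∀ p ∈ P, p.Prime) (B : ℝ) (hB : 0 ≤ B) :
    ((P.powerset.filter (fun T => ((∏ p ∈ T, p : ℕ) : ℝ) ≤ B)).card : ℝ) ≤ B := by
  classical
  have h1 : (P.powerset.filter (fun T => ((∏ p ∈ T, p : ℕ) : ℝ) ≤ B)).card ≤ (Icc 1 ⌊B⌋₊).card := by
    apply card_le_card_of_injOn (fun T => ∏ p ∈ T, p)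
    · intro T hT
      rw [mem_coe, mem_filter, mem_powerset] at hT
      rw [mem_coe, mem_Icc]
      refine ⟨?_, Nat.le_floor hT.2⟩
      exact Nat.one_le_iff_ne_zero.2 (prod_ne_zero_iff.2 fun p hp => (hP p (hT.1 hp)).ne_zero)
    · intro T hT T' hT' h
      rw [mem_coe, mem_filter, mem_powerset] at hT hT'
      have e1 := Nat.primeFactors_prod (s := T) (fun p hp => hP p (hT.1 hp))
      have e2 := Nat.primeFactors_prod (s := T') (fun p hp => hP p (hT'.1 hp))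
      have h' : ∏ p ∈ T, p = ∏ p ∈ T', p := h
      rw [← e1, ← e2, h']
  have h2 : ((P.powerset.filter (fun T => ((∏ p ∈ T, p : ℕ) : ℝ) ≤ B)).card : ℝ) ≤
      ((Icc 1 ⌊B⌋₊).card : ℝ) := by exact_mod_cast h1
  refine h2.trans ?_
  rw [Nat.card_Icc, Nat.add_sub_cancel]
  exact Nat.floor_le hB

/-- the remainder -/
theorem rem_FF (D : ℤ) : ∃ Y0 : ℕ, ∀ Y : ℕ, Y0 ≤ Y → ∀ n : ℕ, IsCoprime (n : ℤ) D →
    ∀ (υ : ℝ) (c : Finset ℕ → ℝ), (∀ T, |c T| ≤ 5 * Real.log Y) →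
      (∀ T ⊆ PZ Y υ, c T ≠ 0 → ((∏ p ∈ T, p : ℕ) : ℝ) ≤ (Y : ℝ) ^ (99 / 100 : ℝ)) →
      |∑ T ∈ (PZ Y υ).powerset, c T *
        ((((Icc 1 Y).filter (fun j : ℕ => ∏ p ∈ T, p ∣ (D * (j : ℤ) ^ 2 + (n : ℤ) ^ 2).natAbs)).card : ℝ) -
          (Icc 1 Y).card * ∏ p ∈ T, ((ro (FF D n) 0 p : ℝ) / p))| ≤
        (Icc 1 Y).card * (Y : ℝ) ^ (-(1 / 1000 : ℝ)) := by
  classical
  obtain ⟨C, hC1, hC⟩ := pow_card_le 2 (1 / 1000) (by norm_num)
  have ev1 : ∀ᶠ Y : ℕ in atTop, 10 * C * Real.log Y ≤ (Y : ℝ) ^ (1 / 1000 : ℝ) := by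
    have h1 := (isLittleO_log_rpow_atTop (show (0 : ℝ) < 1 / 1000 by norm_num)).bound
      (show (0 : ℝ) < 1 / (10 * C) by positivity)
    filter_upwards [tendsto_natCast_atTop_atTop.eventually h1, eventually_ge_atTop 1] with Y hY hY1
    have hY1r : (1 : ℝ) ≤ Y := by exact_mod_cast hY1
    rw [Real.norm_of_nonneg (Real.log_nonneg hY1r), Real.norm_of_nonneg (by positivity)] at hY
    rw [div_mul_eq_mul_div, le_div_iff₀ (by positivity)] at hY
    linarith
  obtain ⟨Y2, h2⟩ := eventually_atTop.1 (ev1.and (eventually_ge_atTop 3))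
  refine ⟨Y2, fun Y hY n hco υ c hc1 hc2 => ?_⟩
  obtain ⟨e1, e2⟩ := h2 Y hY
  have hYr : (3 : ℝ) ≤ Y := by exact_mod_cast e2
  have hY0 : (0 : ℝ) < Y := by linarith
  have hY1 : (1 : ℝ) ≤ Y := by linarith
  have hlY : 0 < Real.log Y := Real.log_pos (by linarith)
  have hPZ : ∀ p ∈ PZ Y υ, p.Prime := by
    intro p hp
    unfold PZ at hp
    rw [mem_filter] at hp
    exact hp.2.1
  have hcardY : (((Icc 1 Y).card : ℕ) : ℝ) = Y := by simp
  rw [hcardY]
  set B : ℝ := (Y : ℝ) ^ (99 / 100 : ℝ) with hB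
  have hterm : ∀ T ∈ (PZ Y υ).powerset, |c T *
        ((((Icc 1 Y).filter (fun j : ℕ => ∏ p ∈ T, p ∣ (D * (j : ℤ) ^ 2 + (n : ℤ) ^ 2).natAbs)).card : ℝ) -
          Y * ∏ p ∈ T, ((ro (FF D n) 0 p : ℝ) / p))| ≤
        (if ((∏ p ∈ T, p : ℕ) : ℝ) ≤ B then 5 * Real.log Y * (2 * (C * B ^ (1 / 1000 : ℝ))) else 0) := by
    intro T hT
    rw [mem_powerset] at hT
    have hTp : ∀ p ∈ T, p.Prime := fun p hp => hPZ p (hT hp)
    by_cases hcT : c T = 0
    · rw [hcT, zero_mul, abs_zero]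
      split_ifs
      · positivity
      · exact le_rfl
    have hle := hc2 T hT hcT
    rw [if_pos hle, abs_mul]
    apply mul_le_mul (hc1 T) _ (abs_nonneg _) (by positivity)
    set q : ℕ := ∏ p ∈ T, p with hq
    have hq0 : 0 < q := Nat.pos_of_ne_zero (prod_ne_zero_iff.2 fun p hp => (hTp p hp).ne_zero)
    have hcnt : ((Icc 1 Y).filter (fun j : ℕ => q ∣ (D * (j : ℤ) ^ 2 + (n : ℤ) ^ 2).natAbs)).card =
        cnt (FF D n) 0 q Y := by
      unfold cnt
      congr 1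
      apply filter_congr
      intro j _
      rw [FF_eval, add_zero]
      exact (Int.natCast_dvd).symm
    have hro : ∏ p ∈ T, ((ro (FF D n) 0 p : ℝ) / p) = (ro (FF D n) 0 q : ℝ) / q := by
      rw [prod_div_distrib, hq, ro_prod _ _ T hTp]
      push_cast
      rfl
    rw [hcnt, hro]
    have h5 := cnt_le (FF D n) 0 q Y hq0
    unfold rr at h5
    have h6 : (ro (FF D n) 0 q : ℝ) ≤ C * B ^ (1 / 1000 : ℝ) := by
      calc (ro (FF D n) 0 q : ℝ) = ∏ p ∈ T, (ro (FF D n) 0 p : ℝ) := by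
            rw [hq, ro_prod _ _ T hTp]
            push_cast
            rfl
        _ ≤ ∏ p ∈ T, (2 : ℝ) := by
            apply Finset.prod_le_prod
            · intro _ _
              positivity
            · intro p hp
              exact_mod_cast ro_le_two D n p (hTp p hp) hco
        _ = (2 : ℝ) ^ T.card := by rw [prod_const]
        _ ≤ C * ((q : ℕ) : ℝ) ^ (1 / 1000 : ℝ) := by
            have := hC T hTp
            push_cast at this ⊢
            rw [hq]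
            push_cast
            exact this
        _ ≤ C * B ^ (1 / 1000 : ℝ) := by
            apply mul_le_mul_of_nonneg_left _ (by linarith)
            exact Real.rpow_le_rpow (Nat.cast_nonneg _) hle (by norm_num)
    have h7 : (1 : ℝ) ≤ C * B ^ (1 / 1000 : ℝ) := by
      have : (1 : ℝ) ≤ B ^ (1 / 1000 : ℝ) :=
        Real.one_le_rpow (Real.one_le_rpow hY1 (by norm_num)) (by norm_num)
      nlinarith
    have h8 : (Y : ℝ) * ((ro (FF D n) 0 q : ℝ) / q) = (Y : ℝ) / q * ro (FF D n) 0 q := by ring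
    rw [h8]
    linarith
  calc |∑ T ∈ (PZ Y υ).powerset, c T *
        ((((Icc 1 Y).filter (fun j : ℕ => ∏ p ∈ T, p ∣ (D * (j : ℤ) ^ 2 + (n : ℤ) ^ 2).natAbs)).card : ℝ) -
          Y * ∏ p ∈ T, ((ro (FF D n) 0 p : ℝ) / p))|
      ≤ ∑ T ∈ (PZ Y υ).powerset, |c T *
        ((((Icc 1 Y).filter (fun j : ℕ => ∏ p ∈ T, p ∣ (D * (j : ℤ) ^ 2 + (n : ℤ) ^ 2).natAbs)).card : ℝ) -
          Y * ∏ p ∈ T, ((ro (FF D n) 0 p : ℝ) / p))| := abs_sum_le_sum_abs _ _
    _ ≤ ∑ T ∈ (PZ Y υ).powerset,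
        (if ((∏ p ∈ T, p : ℕ) : ℝ) ≤ B then 5 * Real.log Y * (2 * (C * B ^ (1 / 1000 : ℝ))) else 0) :=
        sum_le_sum hterm
    _ = (((PZ Y υ).powerset.filter (fun T => ((∏ p ∈ T, p : ℕ) : ℝ) ≤ B)).card : ℝ) *
        (5 * Real.log Y * (2 * (C * B ^ (1 / 1000 : ℝ)))) := by
        rw [← sum_filter, sum_const, nsmul_eq_mul]
    _ ≤ B * (5 * Real.log Y * (2 * (C * B ^ (1 / 1000 : ℝ)))) := by
        apply mul_le_mul_of_nonneg_right (few_sets _ hPZ B (by positivity)) (by positivity)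
    _ = (10 * C * Real.log Y) * (B * B ^ (1 / 1000 : ℝ)) := by ring
    _ ≤ (Y : ℝ) ^ (1 / 1000 : ℝ) * (B * B ^ (1 / 1000 : ℝ)) :=
        mul_le_mul_of_nonneg_right e1 (by positivity)
    _ ≤ Y * (Y : ℝ) ^ (-(1 / 1000 : ℝ)) := by
        rw [hB, ← Real.rpow_mul hY0.le, ← Real.rpow_add hY0, ← Real.rpow_add hY0]
        nth_rewrite 2 [← Real.rpow_one (Y : ℝ)]
        rw [← Real.rpow_add hY0]
        apply Real.rpow_le_rpow_of_exponent_le hY1
        norm_num

end Pool.Agent.H530.SqB
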