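import Mathlib
import Pool.Agent.H530.SqB

/-! Values `D b ^ 2 + n ^ 2` with at most five prime factors, uniformly in `n`. -/

set_option autoImplicit false

namespace Pool.Agent.H530.SqC

open Finset Polynomial Filter
open Pool.Agent.W23.DC
open Pool.Agent.Y882.PX
open Pool.Agent.Y882.KW
open Pool.Agent.Y882.SI
open Pool.Agent.Y882.MG
open Pool.Agent.Y882 (PZ)
open Pool.Agent.H530.SqA
open Pool.Agent.H530.SqB

theorem sq_classes (D : ℤ) (n q Y : ℕ) (hq : q.Prime) (h2 : q ≠ 2) (hD : ¬ (q : ℤ) ∣ D) (hn : ¬ q ∣ n) :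
    ((((Icc 1 Y).filter (fun j : ℕ => ((q ^ 2 : ℕ) : ℤ) ∣ D * (j : ℤ) ^ 2 + (n : ℤ) ^ 2)).card : ℕ) : ℝ) ≤
      2 * (Y * (1 / (q : ℝ) ^ 2) + 1) := by
  classical
  rcases ((Icc 1 Y).filter
    (fun j : ℕ => ((q ^ 2 : ℕ) : ℤ) ∣ D * (j : ℤ) ^ 2 + (n : ℤ) ^ 2)).eq_empty_or_nonempty with h | ⟨j0, hj0⟩
  · rw [h, card_empty]
    push_cast
    positivity
  · have hqp := Nat.prime_iff_prime_int.1 hq
    have hq2 : 0 < q ^ 2 := pow_pos hq.pos 2
    have h0 := (mem_filter.1 hj0).2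
    have hqj0 : ¬ (q : ℤ) ∣ j0 := by
      intro h
      have h3 : (q : ℤ) ∣ D * (j0 : ℤ) ^ 2 + (n : ℤ) ^ 2 :=
        (by push_cast; exact dvd_pow_self _ two_ne_zero : (q : ℤ) ∣ ((q ^ 2 : ℕ) : ℤ)).trans h0
      have h4 : (q : ℤ) ∣ (n : ℤ) ^ 2 := by
        have := dvd_sub h3 ((h.trans (dvd_pow_self _ two_ne_zero)).mul_left D)
        rwa [add_sub_cancel_left] at this
      exact hn (by exact_mod_cast hqp.dvd_of_dvd_pow h4)
    have hsub : (Icc 1 Y).filter (fun j : ℕ => ((q ^ 2 : ℕ) : ℤ) ∣ D * (j : ℤ) ^ 2 + (n : ℤ) ^ 2) ⊆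
        (Icc 1 Y).filter (fun j : ℕ => ((q ^ 2 : ℕ) : ℤ) ∣ (j : ℤ) - j0) ∪
        (Icc 1 Y).filter (fun j : ℕ => ((q ^ 2 : ℕ) : ℤ) ∣ (j : ℤ) - (-(j0 : ℤ))) := by
      intro j hj
      rw [mem_filter] at hj
      rw [mem_union, mem_filter, mem_filter]
      have h3 : ((q ^ 2 : ℕ) : ℤ) ∣ D * (((j : ℤ) - j0) * ((j : ℤ) + j0)) := by
        have := dvd_sub hj.2 h0
        have e : D * (j : ℤ) ^ 2 + (n : ℤ) ^ 2 - (D * (j0 : ℤ) ^ 2 + (n : ℤ) ^ 2) =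
          D * (((j : ℤ) - j0) * ((j : ℤ) + j0)) := by ring
        rwa [e] at this
      have hcD : IsCoprime ((q ^ 2 : ℕ) : ℤ) D := by
        push_cast
        exact IsCoprime.pow_left ((Prime.coprime_iff_not_dvd hqp).2 hD)
      have h4 := hcD.dvd_of_dvd_mul_left h3
      by_cases h5 : (q : ℤ) ∣ (j : ℤ) - j0
      · left
        refine ⟨hj.1, ?_⟩
        have h6 : ¬ (q : ℤ) ∣ (j : ℤ) + j0 := by
          intro h7
          have h8 : (q : ℤ) ∣ 2 * j0 := by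
            have := dvd_sub h7 h5
            have e : (j : ℤ) + j0 - (j - j0) = 2 * j0 := by ring
            rwa [e] at this
          rcases hqp.dvd_or_dvd h8 with h9 | h9
          · have h10 : q ∣ 2 := by exact_mod_cast h9
            exact h2 ((Nat.prime_dvd_prime_iff_eq hq Nat.prime_two).1 h10)
          · exact hqj0 h9
        have hc : IsCoprime ((q ^ 2 : ℕ) : ℤ) ((j : ℤ) + j0) := by
          push_cast
          exact IsCoprime.pow_left ((Prime.coprime_iff_not_dvd hqp).2 h6)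
        exact hc.dvd_of_dvd_mul_right h4
      · right
        refine ⟨hj.1, ?_⟩
        have hc : IsCoprime ((q ^ 2 : ℕ) : ℤ) ((j : ℤ) - j0) := by
          push_cast
          exact IsCoprime.pow_left ((Prime.coprime_iff_not_dvd hqp).2 h5)
        have := hc.dvd_of_dvd_mul_left h4
        rwa [sub_neg_eq_add]
    have h11 := (card_le_card hsub).trans (card_union_le _ _)
    have h12 := class_count (q ^ 2) hq2 Y (j0 : ℤ)
    have h13 := class_count (q ^ 2) hq2 Y (-(j0 : ℤ))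
    have h14 : ((((Icc 1 Y).filter
        (fun j : ℕ => ((q ^ 2 : ℕ) : ℤ) ∣ D * (j : ℤ) ^ 2 + (n : ℤ) ^ 2)).card : ℕ) : ℝ) ≤
        (((Icc 1 Y).filter (fun j : ℕ => ((q ^ 2 : ℕ) : ℤ) ∣ (j : ℤ) - j0)).card : ℝ) +
        (((Icc 1 Y).filter (fun j : ℕ => ((q ^ 2 : ℕ) : ℤ) ∣ (j : ℤ) - (-(j0 : ℤ)))).card : ℝ) := by
      exact_mod_cast h11
    push_cast at h12 h13 h14 ⊢
    have e : (Y : ℝ) * (1 / (q : ℝ) ^ 2) = Y / (q : ℝ) ^ 2 := by ring
    rw [e]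
    linarith

/-- the values divisible by the square of a medium prime -/
theorem bad_FF (D : ℤ) (ζ υ : ℝ) (hζ : 0 < ζ) (hζυ : ζ ≤ υ) (hυ : υ ≤ 1) :
    ∃ Y0 : ℕ, ∀ Y : ℕ, Y0 ≤ Y → ∀ n : ℕ, 0 < n → D ≠ 0 → (n : ℝ) ≤ (Y : ℝ) ^ (3 : ℝ) →
      ((((Icc 1 Y).filter (fun j : ℕ => ∃ q ∈ pr Y ζ υ,
        ((q ^ 2 : ℕ) : ℤ) ∣ D * (j : ℤ) ^ 2 + (n : ℤ) ^ 2)).card : ℕ) : ℝ) ≤
        (3 / ζ + 4) * (Y / (Y : ℝ) ^ ζ) + 2 * (Y : ℝ) ^ υ := by
  classical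
  have ev1 : ∀ᶠ Y : ℕ in atTop, (|(D : ℝ)| + 3 : ℝ) ≤ (Y : ℝ) ^ ζ :=
    ((tendsto_rpow_atTop hζ).comp tendsto_natCast_atTop_atTop).eventually_ge_atTop _
  obtain ⟨Y2, h2⟩ := eventually_atTop.1 (ev1.and (eventually_ge_atTop 3))
  refine ⟨Y2, fun Y hY n hn hD0 hnY => ?_⟩
  obtain ⟨e1, e2⟩ := h2 Y hY
  have hYr : (3 : ℝ) ≤ Y := by exact_mod_cast e2
  have hY0 : (0 : ℝ) < Y := by linarith
  have hlY : 0 < Real.log Y := Real.log_pos (by linarith)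
  have hDa : 0 ≤ |(D : ℝ)| := abs_nonneg _
  set Z : ℝ := (Y : ℝ) ^ ζ with hZ
  have hZ2 : 2 ≤ Z := by linarith
  have hZ1 : 1 < Z := by linarith
  have hP : ∀ q ∈ pr Y ζ υ, q.Prime ∧ Z ≤ q ∧ (q : ℝ) ≤ (Y : ℝ) ^ υ := by
    intro p h3
    unfold pr at h3
    rw [mem_filter] at h3
    exact ⟨h3.2.1, tt_le (by omega) h3.2.1.pos h3.2.2.1, tt_lt (by omega) h3.2.1.pos h3.2.2.2⟩
  have hPD : ∀ q ∈ pr Y ζ υ, q ≠ 2 ∧ ¬ (q : ℤ) ∣ D := by
    intro q hq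
    obtain ⟨h3, h4, -⟩ := hP q hq
    constructor
    · rintro rfl
      push_cast at h4
      linarith
    · intro hd
      have h5 : (q : ℤ) ≤ |D| := by
        apply Int.le_of_dvd (abs_pos.2 hD0)
        rwa [dvd_abs]
      have h6 : (q : ℝ) ≤ |(D : ℝ)| := by exact_mod_cast h5
      linarith
  have hsub : (Icc 1 Y).filter (fun j : ℕ => ∃ q ∈ pr Y ζ υ,
        ((q ^ 2 : ℕ) : ℤ) ∣ D * (j : ℤ) ^ 2 + (n : ℤ) ^ 2) ⊆
      ((pr Y ζ υ).filter (fun q => q ∣ n)).biUnion (fun q => (Icc 1 Y).filter (fun j => q ∣ j)) ∪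
      ((pr Y ζ υ).filter (fun q => ¬ q ∣ n)).biUnion (fun q => (Icc 1 Y).filter
        (fun j : ℕ => ((q ^ 2 : ℕ) : ℤ) ∣ D * (j : ℤ) ^ 2 + (n : ℤ) ^ 2)) := by
    intro j hj
    obtain ⟨hj1, q, hq, hj2⟩ := mem_filter.1 hj
    rw [mem_union, mem_biUnion, mem_biUnion]
    by_cases hqn : q ∣ n
    · left
      refine ⟨q, mem_filter.2 ⟨hq, hqn⟩, mem_filter.2 ⟨hj1, ?_⟩⟩
      have hqp := Nat.prime_iff_prime_int.1 (hP q hq).1
      have h3 : (q : ℤ) ∣ D * (j : ℤ) ^ 2 + (n : ℤ) ^ 2 :=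
        (by push_cast; exact dvd_pow_self _ two_ne_zero : (q : ℤ) ∣ ((q ^ 2 : ℕ) : ℤ)).trans hj2
      have h4 : (q : ℤ) ∣ D * (j : ℤ) ^ 2 := by
        have := dvd_sub h3 ((Int.natCast_dvd_natCast.2 hqn).trans (dvd_pow_self _ two_ne_zero))
        rwa [add_sub_cancel_right] at this
      rcases hqp.dvd_or_dvd h4 with h5 | h5
      · exact absurd h5 (hPD q hq).2
      · exact_mod_cast hqp.dvd_of_dvd_pow h5
    · right
      exact ⟨q, mem_filter.2 ⟨hq, hqn⟩, mem_filter.2 ⟨hj1, hj2⟩⟩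
  have hA : ((((pr Y ζ υ).filter (fun q => q ∣ n)).biUnion
      (fun q => (Icc 1 Y).filter (fun j => q ∣ j))).card : ℝ) ≤ 3 / ζ * (Y / Z) := by
    calc ((((pr Y ζ υ).filter (fun q => q ∣ n)).biUnion
        (fun q => (Icc 1 Y).filter (fun j => q ∣ j))).card : ℝ)
        ≤ ∑ q ∈ (pr Y ζ υ).filter (fun q => q ∣ n), (((Icc 1 Y).filter (fun j => q ∣ j)).card : ℝ) := by
          exact_mod_cast card_biUnion_le
      _ ≤ ∑ q ∈ (pr Y ζ υ).filter (fun q => q ∣ n), (Y / Z : ℝ) := by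
          apply sum_le_sum
          intro q hq
          obtain ⟨hq1, hq2⟩ := mem_filter.1 hq
          obtain ⟨h3, h4, -⟩ := hP q hq1
          have h5 : (Icc 1 Y).filter (fun j => q ∣ j) = (Ioc 0 Y).filter (fun j => q ∣ j) := by
            congr 1
          rw [h5, Nat.Ioc_filter_dvd_card_eq_div]
          calc (((Y / q : ℕ)) : ℝ) ≤ (Y : ℝ) / q := Nat.cast_div_le
            _ ≤ Y / Z := div_le_div_of_nonneg_left hY0.le (by linarith) h4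
      _ = (((pr Y ζ υ).filter (fun q => q ∣ n)).card : ℝ) * (Y / Z) := by
          rw [sum_const, nsmul_eq_mul]
      _ ≤ 3 / ζ * (Y / Z) := by
          apply mul_le_mul_of_nonneg_right _ (by positivity)
          apply few_primes n hn Z hZ1
          · have hn0 : (0 : ℝ) < n := by exact_mod_cast hn
            calc Real.log n ≤ Real.log ((Y : ℝ) ^ (3 : ℝ)) := Real.log_le_log hn0 hnY
              _ = 3 * Real.log Y := Real.log_rpow hY0 _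
              _ = 3 / ζ * (ζ * Real.log Y) := by field_simp
              _ = 3 / ζ * Real.log Z := by rw [hZ, Real.log_rpow hY0]
          · intro p hp
            rw [mem_filter] at hp
            exact ⟨(hP p hp.1).1, hp.2, (hP p hp.1).2.1⟩
  have hB : ((((pr Y ζ υ).filter (fun q => ¬ q ∣ n)).biUnion (fun q => (Icc 1 Y).filter
        (fun j : ℕ => ((q ^ 2 : ℕ) : ℤ) ∣ D * (j : ℤ) ^ 2 + (n : ℤ) ^ 2))).card : ℝ) ≤
        4 * (Y / Z) + 2 * (Y : ℝ) ^ υ := by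
    calc ((((pr Y ζ υ).filter (fun q => ¬ q ∣ n)).biUnion (fun q => (Icc 1 Y).filter
        (fun j : ℕ => ((q ^ 2 : ℕ) : ℤ) ∣ D * (j : ℤ) ^ 2 + (n : ℤ) ^ 2))).card : ℝ)
        ≤ ∑ q ∈ (pr Y ζ υ).filter (fun q => ¬ q ∣ n), ((((Icc 1 Y).filter
          (fun j : ℕ => ((q ^ 2 : ℕ) : ℤ) ∣ D * (j : ℤ) ^ 2 + (n : ℤ) ^ 2)).card : ℕ) : ℝ) := by
          exact_mod_cast card_biUnion_le
      _ ≤ ∑ q ∈ (pr Y ζ υ).filter (fun q => ¬ q ∣ n), (2 * (Y * (1 / (q : ℝ) ^ 2) + 1)) := by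
          apply sum_le_sum
          intro q hq
          obtain ⟨hq1, hq2⟩ := mem_filter.1 hq
          exact sq_classes D n q Y (hP q hq1).1 (hPD q hq1).1 (hPD q hq1).2 hq2
      _ ≤ ∑ q ∈ pr Y ζ υ, (2 * (Y * (1 / (q : ℝ) ^ 2) + 1)) := by
          apply sum_le_sum_of_subset_of_nonneg (filter_subset _ _)
          intro q _ _
          positivity
      _ = 2 * (Y * ∑ q ∈ pr Y ζ υ, 1 / (q : ℝ) ^ 2) + 2 * ((pr Y ζ υ).card : ℝ) := by
          rw [← mul_sum, sum_add_distrib, ← mul_sum, sum_const, nsmul_eq_mul]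
          ring
      _ ≤ 2 * (Y * (2 / Z)) + 2 * (Y : ℝ) ^ υ := by
          have h3 := tail_sq (pr Y ζ υ) Z hZ2 (fun q hq => (hP q hq).2.1)
          have h4 := card_lt (pr Y ζ υ) ((Y : ℝ) ^ υ) (by positivity)
            (fun q hq => ⟨(hP q hq).1.one_le, (hP q hq).2.2⟩)
          have h5 : (Y : ℝ) * ∑ q ∈ pr Y ζ υ, 1 / (q : ℝ) ^ 2 ≤ Y * (2 / Z) :=
            mul_le_mul_of_nonneg_left h3 hY0.le
          linarith
      _ = 4 * (Y / Z) + 2 * (Y : ℝ) ^ υ := by ring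
  have h20 := (card_le_card hsub).trans (card_union_le _ _)
  have h21 : ((((Icc 1 Y).filter (fun j : ℕ => ∃ q ∈ pr Y ζ υ,
        ((q ^ 2 : ℕ) : ℤ) ∣ D * (j : ℤ) ^ 2 + (n : ℤ) ^ 2)).card : ℕ) : ℝ) ≤
      ((((pr Y ζ υ).filter (fun q => q ∣ n)).biUnion
      (fun q => (Icc 1 Y).filter (fun j => q ∣ j))).card : ℝ) +
      ((((pr Y ζ υ).filter (fun q => ¬ q ∣ n)).biUnion (fun q => (Icc 1 Y).filter
        (fun j : ℕ => ((q ^ 2 : ℕ) : ℤ) ∣ D * (j : ℤ) ^ 2 + (n : ℤ) ^ 2))).card : ℝ) := by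
    exact_mod_cast h20
  linarith

/-- a lower bound for `φ(n) / n` -/
theorem phi_low : ∃ c : ℝ, 0 < c ∧ ∀ n : ℕ, 0 < n →
    c * ((n : ℝ) ^ (1 / 100 : ℝ))⁻¹ ≤ (Nat.totient n : ℝ) / n := by
  classical
  obtain ⟨C, hC1, hC⟩ := pow_card_le 2 (1 / 100) (by norm_num)
  refine ⟨1 / C, by positivity, fun n hn => ?_⟩
  rw [totient_prod n hn]
  have hn0 : (0 : ℝ) < n := by exact_mod_cast hn
  have hTp : ∀ p ∈ n.primeFactors, p.Prime := fun p hp => Nat.prime_of_mem_primeFactors hp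
  have h1 := hC n.primeFactors hTp
  have h2 : ((∏ p ∈ n.primeFactors, p : ℕ) : ℝ) ≤ n := by
    exact_mod_cast Nat.le_of_dvd hn (Nat.prod_primeFactors_dvd n)
  have h3 : (2 : ℝ) ^ n.primeFactors.card ≤ C * (n : ℝ) ^ (1 / 100 : ℝ) := by
    push_cast at h1 h2
    refine h1.trans (mul_le_mul_of_nonneg_left ?_ (by linarith))
    exact Real.rpow_le_rpow (prod_nonneg fun _ _ => Nat.cast_nonneg _) h2 (by norm_num)
  calc 1 / C * ((n : ℝ) ^ (1 / 100 : ℝ))⁻¹ = 1 / (C * (n : ℝ) ^ (1 / 100 : ℝ)) := by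
        field_simp
    _ ≤ 1 / (2 : ℝ) ^ n.primeFactors.card := by
        apply one_div_le_one_div_of_le (by positivity) h3
    _ = ∏ p ∈ n.primeFactors, (1 / 2 : ℝ) := by
        rw [prod_const, one_div_pow]
    _ ≤ ∏ p ∈ n.primeFactors, (1 - 1 / (p : ℝ)) := by
        apply Finset.prod_le_prod
        · intro _ _
          norm_num
        · intro p hp
          have h4 : (2 : ℝ) ≤ p := by exact_mod_cast (hTp p hp).two_le
          have h5 : 1 / (p : ℝ) ≤ 1 / 2 := one_div_le_one_div_of_le (by norm_num) h4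
          linarith

end Pool.Agent.H530.SqC
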