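import Mathlib
import Pool.Agent.H530.SqC

/-! Values `D b ^ 2 + n ^ 2` with at most five prime factors: assembly. -/

set_option autoImplicit false

namespace Pool.Agent.H530.SqD

open Finset Polynomial Filter
open Pool.Agent.W23.DC
open Pool.Agent.Y882.PX
open Pool.Agent.Y882.KW
open Pool.Agent.Y882.SI
open Pool.Agent.Y882.MG
open Pool.Agent.Y882 (PZ)
open Pool.Agent.H530.SqA
open Pool.Agent.H530.SqB
open Pool.Agent.H530.SqC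

theorem ne_zero (D : ℤ) (hsq : ¬ IsSquare (-D)) (n j : ℕ) (hj : 0 < j) :
    D * (j : ℤ) ^ 2 + (n : ℤ) ^ 2 ≠ 0 := by
  intro h
  have h1 : (j : ℤ) ^ 2 ∣ (n : ℤ) ^ 2 := ⟨-D, by linarith⟩
  have h2 : (j : ℤ) ∣ n := (Int.pow_dvd_pow_iff two_ne_zero).1 h1
  obtain ⟨m, hm⟩ := h2
  apply hsq
  refine ⟨m, ?_⟩
  rw [hm] at h
  have hj2 : (0 : ℤ) < (j : ℤ) ^ 2 := by positivity
  have h3 : (j : ℤ) ^ 2 * (D + m ^ 2) = 0 := by linarith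
  rcases mul_eq_zero.1 h3 with h4 | h4
  · exact absurd h4 hj2.ne'
  · linarith

open Classical in
/-- **Values with at most five prime factors**, uniformly in `n`. -/
theorem main (D : ℤ) (hsq : ¬ IsSquare (-D)) :
    ∃ c : ℝ, 0 < c ∧ ∃ Y0 : ℕ, ∀ Y : ℕ, Y0 ≤ Y → ∀ n : ℕ, 0 < n →
      (n : ℝ) ≤ (Y : ℝ) ^ (204 / 100 : ℝ) → IsCoprime (n : ℤ) D →
      c * (Y / Real.log Y) * ((Nat.totient n : ℝ) / n) ≤
        (((Icc 1 Y).filter (fun j : ℕ =>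
          ((n : ℤ) ^ 2 + D * (j : ℤ) ^ 2).natAbs.primeFactorsList.length ≤ 5 ∧
          ∀ p : ℕ, p.Prime → (p : ℤ) ∣ (n : ℤ) ^ 2 + D * (j : ℤ) ^ 2 →
            (Y : ℝ) ^ (49 / 200 : ℝ) ≤ p)).card : ℝ) := by
  have hD0 : D ≠ 0 := by
    rintro rfl
    exact hsq ⟨0, by simp⟩
  obtain ⟨τ, hτ⟩ : ∃ τ : ℝ, τ = 98 / 100 := ⟨_, rfl⟩
  obtain ⟨ζ, hζ⟩ : ∃ ζ : ℝ, ζ = τ / 4 := ⟨_, rfl⟩
  obtain ⟨υ, hυ⟩ : ∃ υ : ℝ, υ = 24 / 25 * τ := ⟨_, rfl⟩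
  have hJ : ∫ x in ζ..υ, ((8 / 9 : ℝ) - (8 / 9) / υ * x) / (τ - x) / x < Real.log (τ / ζ - 1) / τ := by
    rw [hζ, hυ]
    exact cond_A τ (8 / 9) (by rw [hτ]; norm_num) (by norm_num) (by norm_num)
  have hζ0 : 0 < ζ := by rw [hζ, hτ]; norm_num
  have hυ0 : 0 < υ := by rw [hυ, hτ]; norm_num
  obtain ⟨δ, ε₁, η, hδ, hε₁, hε₁ζ, -, hη, Y1, HC⟩ :=
    core4 2 τ ζ υ (8 / 9) ((8 / 9) / υ) (99 / 100) 1 (1 / 1000) hζ0
      (by rw [hζ, hτ]; norm_num) (by rw [hζ, hτ]; norm_num) (by rw [hτ]; norm_num)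
      (by rw [hζ, hυ, hτ]; norm_num) (by rw [hυ, hτ]; norm_num) (by norm_num) (by positivity)
      (by rw [div_mul_cancel₀ _ hυ0.ne']) hJ (by rw [hτ]; norm_num) one_pos (by norm_num)
  have hυ1 : υ ≤ 1 := by rw [hυ, hτ]; norm_num
  have hζυ : ζ ≤ υ := by rw [hζ, hυ, hτ]; norm_num
  obtain ⟨Y2, HM⟩ := mer_FF D hsq ε₁ υ η hε₁ hυ1 hη
  obtain ⟨Y3, HR⟩ := rem_FF D
  obtain ⟨Y4, HB⟩ := bad_FF D ζ υ hζ0 hζυ hυ1
  obtain ⟨c1, hc1, HL⟩ := lo_quad D hsq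
  obtain ⟨c2, hc2, HP⟩ := phi_low
  -- the squares are negligible
  have ev1 : ∀ᶠ Y : ℕ in atTop, (2 * (3 / ζ + 4) / (δ * c1 * c2) + 4 / (δ * c1 * c2)) *
      Real.log Y ≤ (Y : ℝ) ^ (1 / 100 : ℝ) := by
    have h1 := (isLittleO_log_rpow_atTop (show (0 : ℝ) < 1 / 100 by norm_num)).bound
      (show (0 : ℝ) < 1 / (2 * (3 / ζ + 4) / (δ * c1 * c2) + 4 / (δ * c1 * c2)) by positivity)
    filter_upwards [tendsto_natCast_atTop_atTop.eventually h1, eventually_ge_atTop 1] with Y hY hY1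
    have hY1r : (1 : ℝ) ≤ Y := by exact_mod_cast hY1
    rw [Real.norm_of_nonneg (Real.log_nonneg hY1r), Real.norm_of_nonneg (by positivity)] at hY
    rw [div_mul_eq_mul_div, le_div_iff₀ (by positivity)] at hY
    linarith
  have ev2 : ∀ᶠ Y : ℕ in atTop, (|(D : ℝ)| + 1 : ℝ) ≤ (Y : ℝ) ^ (2 / 100 : ℝ) :=
    ((tendsto_rpow_atTop (by norm_num)).comp tendsto_natCast_atTop_atTop).eventually_ge_atTop _
  obtain ⟨Y5, h5⟩ := eventually_atTop.1 (ev1.and (ev2.and (eventually_ge_atTop 3)))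
  refine ⟨δ * c1 / 2, by positivity, max (max Y1 Y2) (max (max Y3 Y4) Y5), ?_⟩
  intro Y hY n hn hnY hco
  have hYY1 : Y1 ≤ Y := ((le_max_left _ _).trans (le_max_left _ _)).trans hY
  have hYY2 : Y2 ≤ Y := ((le_max_right _ _).trans (le_max_left _ _)).trans hY
  have hYY3 : Y3 ≤ Y := (((le_max_left _ _).trans (le_max_left _ _)).trans (le_max_right _ _)).trans hY
  have hYY4 : Y4 ≤ Y := (((le_max_right _ _).trans (le_max_left _ _)).trans (le_max_right _ _)).trans hY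
  obtain ⟨e1, e2, e3⟩ := h5 Y (((le_max_right _ _).trans (le_max_right _ _)).trans hY)
  have hYr : (3 : ℝ) ≤ Y := by exact_mod_cast e3
  have hY0 : (0 : ℝ) < Y := by linarith
  have hY1 : (1 : ℝ) ≤ Y := by linarith
  have hlY : 0 < Real.log Y := Real.log_pos (by linarith)
  have hn0 : (0 : ℝ) < n := by exact_mod_cast hn
  have hnY3 : (n : ℝ) ≤ (Y : ℝ) ^ (3 : ℝ) :=
    hnY.trans (Real.rpow_le_rpow_of_exponent_le hY1 (by norm_num))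
  obtain ⟨c, hcL, hcD, hcM⟩ := HC Y hYY1
  have hcard : (((Icc 1 Y).card : ℕ) : ℝ) = Y := by simp
  have key := hcM (Icc 1 Y) (fun j => (D * (j : ℤ) ^ 2 + (n : ℤ) ^ 2).natAbs)
    (fun p => ro (FF D n) 0 p) Y (by rw [Real.rpow_one]) (fun p hp => ro_le_two D n p hp hco)
    (fun p _ => ro_le_self _ _ _) (HM Y hYY2 n hn hnY3) (HR Y hYY3 n hco υ c hcL hcD)
  rw [hcard] at key
  have hlo := lo_FF D n Y hn hco
  have hLY := HL Y e3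
  set φ : ℝ := (Nat.totient n : ℝ) / n with hφ
  have hφ0 : 0 ≤ φ := by positivity
  -- the main term
  have hmain : δ * c1 * (Y / Real.log Y) * φ ≤
      ((((Icc 1 Y).filter (fun j : ℕ => 0 < WW Y ζ υ (8 / 9) ((8 / 9) / υ)
        (D * (j : ℤ) ^ 2 + (n : ℤ) ^ 2).natAbs)).card : ℕ) : ℝ) := by
    refine le_trans ?_ key
    calc δ * c1 * (Y / Real.log Y) * φ = δ * Y * (c1 / Real.log Y * φ) := by ring
      _ ≤ δ * Y * (lo (QF D) Y * φ) := by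
          apply mul_le_mul_of_nonneg_left _ (by positivity)
          exact mul_le_mul_of_nonneg_right hLY hφ0
      _ ≤ _ := mul_le_mul_of_nonneg_left hlo (by positivity)
  have hbad := HB Y hYY4 n hn hD0 hnY3
  -- comparison
  have hphi := HP n hn
  have hcmp : (3 / ζ + 4) * (Y / (Y : ℝ) ^ ζ) + 2 * (Y : ℝ) ^ υ ≤
      δ * c1 / 2 * (Y / Real.log Y) * φ := by
    have h6 : (n : ℝ) ^ (1 / 100 : ℝ) ≤ (Y : ℝ) ^ (3 / 100 : ℝ) := by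
      calc (n : ℝ) ^ (1 / 100 : ℝ) ≤ ((Y : ℝ) ^ (3 : ℝ)) ^ (1 / 100 : ℝ) :=
            Real.rpow_le_rpow hn0.le hnY3 (by norm_num)
        _ = (Y : ℝ) ^ (3 / 100 : ℝ) := by
            rw [← Real.rpow_mul hY0.le]
            norm_num
    have h7 : c2 * ((Y : ℝ) ^ (3 / 100 : ℝ))⁻¹ ≤ φ := by
      refine le_trans ?_ hphi
      apply mul_le_mul_of_nonneg_left _ hc2.le
      exact inv_anti₀ (by positivity) h6
    have h8 : Y / (Y : ℝ) ^ ζ ≤ (Y : ℝ) ^ (96 / 100 : ℝ) := by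
      nth_rewrite 1 [← Real.rpow_one (Y : ℝ)]
      rw [← Real.rpow_sub hY0]
      apply Real.rpow_le_rpow_of_exponent_le hY1
      rw [hζ, hτ]
      norm_num
    have h9 : (Y : ℝ) ^ υ ≤ (Y : ℝ) ^ (96 / 100 : ℝ) := by
      apply Real.rpow_le_rpow_of_exponent_le hY1
      rw [hυ, hτ]
      norm_num
    have h10 : (3 / ζ + 4) * (Y / (Y : ℝ) ^ ζ) + 2 * (Y : ℝ) ^ υ ≤
        ((3 / ζ + 4) + 2) * (Y : ℝ) ^ (96 / 100 : ℝ) := by
      have h11 : (3 / ζ + 4) * (Y / (Y : ℝ) ^ ζ) ≤ (3 / ζ + 4) * (Y : ℝ) ^ (96 / 100 : ℝ) :=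
        mul_le_mul_of_nonneg_left h8 (by positivity)
      linarith
    refine h10.trans ?_
    have h12 : δ * c1 / 2 * (Y / Real.log Y) * (c2 * ((Y : ℝ) ^ (3 / 100 : ℝ))⁻¹) ≤
        δ * c1 / 2 * (Y / Real.log Y) * φ := mul_le_mul_of_nonneg_left h7 (by positivity)
    refine le_trans ?_ h12
    have e4 : (2 * (3 / ζ + 4) / (δ * c1 * c2) + 4 / (δ * c1 * c2)) * Real.log Y =
        ((3 / ζ + 4) + 2) * (2 * Real.log Y) / (δ * c1 * c2) := by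
      field_simp
      ring
    rw [e4, div_le_iff₀ (by positivity)] at e1
    have e5 : (Y : ℝ) = (Y : ℝ) ^ (96 / 100 : ℝ) * ((Y : ℝ) ^ (1 / 100 : ℝ) *
        (Y : ℝ) ^ (3 / 100 : ℝ)) := by
      rw [← Real.rpow_add hY0, ← Real.rpow_add hY0]
      norm_num
    have hA : 0 < (Y : ℝ) ^ (96 / 100 : ℝ) := by positivity
    have hB' : 0 < (Y : ℝ) ^ (3 / 100 : ℝ) := by positivity
    have e6 : δ * c1 / 2 * (Y / Real.log Y) * (c2 * ((Y : ℝ) ^ (3 / 100 : ℝ))⁻¹) =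
        (Y : ℝ) ^ (96 / 100 : ℝ) * ((Y : ℝ) ^ (1 / 100 : ℝ) * (δ * c1 * c2) / (2 * Real.log Y)) := by
      nth_rewrite 1 [e5]
      field_simp
    rw [e6, mul_comm]
    apply mul_le_mul_of_nonneg_left _ hA.le
    rw [le_div_iff₀ (by positivity)]
    exact e1
  -- subtract
  set G := (Icc 1 Y).filter (fun j : ℕ => 0 < WW Y ζ υ (8 / 9) ((8 / 9) / υ)
        (D * (j : ℤ) ^ 2 + (n : ℤ) ^ 2).natAbs) with hG
  set Bd := (Icc 1 Y).filter (fun j : ℕ => ∃ q ∈ pr Y ζ υ,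
        ((q ^ 2 : ℕ) : ℤ) ∣ D * (j : ℤ) ^ 2 + (n : ℤ) ^ 2) with hBd
  have hsub : G \ Bd ⊆ (Icc 1 Y).filter (fun j : ℕ =>
          ((n : ℤ) ^ 2 + D * (j : ℤ) ^ 2).natAbs.primeFactorsList.length ≤ 5 ∧
          ∀ p : ℕ, p.Prime → (p : ℤ) ∣ (n : ℤ) ^ 2 + D * (j : ℤ) ^ 2 →
            (Y : ℝ) ^ (49 / 200 : ℝ) ≤ p) := by
    intro j hj
    rw [Finset.mem_sdiff, hG, mem_filter] at hj
    obtain ⟨⟨hj1, hj2⟩, hj3⟩ := hj
    have hj3' : ∀ q ∈ pr Y ζ υ, ¬ ((q ^ 2 : ℕ) : ℤ) ∣ D * (j : ℤ) ^ 2 + (n : ℤ) ^ 2 := by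
      intro q hq hd
      exact hj3 (mem_filter.2 ⟨hj1, q, hq, hd⟩)
    rw [mem_Icc] at hj1
    have hcomm : (n : ℤ) ^ 2 + D * (j : ℤ) ^ 2 = D * (j : ℤ) ^ 2 + (n : ℤ) ^ 2 := add_comm _ _
    rw [mem_filter, mem_Icc, hcomm]
    have hne := ne_zero D hsq n j (by omega)
    have hsize : ((D * (j : ℤ) ^ 2 + (n : ℤ) ^ 2).natAbs : ℝ) ≤ (Y : ℝ) ^ (41 / 10 : ℝ) := by
      have u1 : ((D * (j : ℤ) ^ 2 + (n : ℤ) ^ 2).natAbs : ℝ) = |(D : ℝ) * (j : ℝ) ^ 2 + (n : ℝ) ^ 2| := by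
        rw [Nat.cast_natAbs]
        push_cast
        rfl
      have hjr : (j : ℝ) ≤ Y := by exact_mod_cast hj1.2
      have u2 : (j : ℝ) ^ 2 ≤ (Y : ℝ) ^ (2 : ℝ) := by
        rw [Real.rpow_two]
        exact pow_le_pow_left₀ (Nat.cast_nonneg _) hjr 2
      have u3 : (n : ℝ) ^ 2 ≤ (Y : ℝ) ^ (408 / 100 : ℝ) := by
        calc (n : ℝ) ^ 2 ≤ ((Y : ℝ) ^ (204 / 100 : ℝ)) ^ 2 := pow_le_pow_left₀ hn0.le hnY 2
          _ = (Y : ℝ) ^ (408 / 100 : ℝ) := by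
              rw [← Real.rpow_natCast, ← Real.rpow_mul hY0.le]
              norm_num
      have u4 : (Y : ℝ) ^ (2 : ℝ) ≤ (Y : ℝ) ^ (408 / 100 : ℝ) :=
        Real.rpow_le_rpow_of_exponent_le hY1 (by norm_num)
      rw [u1]
      calc |(D : ℝ) * (j : ℝ) ^ 2 + (n : ℝ) ^ 2| ≤ |(D : ℝ) * (j : ℝ) ^ 2| + |(n : ℝ) ^ 2| := abs_add_le _ _
        _ = |(D : ℝ)| * (j : ℝ) ^ 2 + (n : ℝ) ^ 2 := by
            rw [abs_mul, abs_of_nonneg (by positivity : (0 : ℝ) ≤ (j : ℝ) ^ 2),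
              abs_of_nonneg (by positivity : (0 : ℝ) ≤ (n : ℝ) ^ 2)]
        _ ≤ |(D : ℝ)| * (Y : ℝ) ^ (408 / 100 : ℝ) + (Y : ℝ) ^ (408 / 100 : ℝ) := by
            have := mul_le_mul_of_nonneg_left (u2.trans u4) (abs_nonneg (D : ℝ))
            linarith
        _ = (|(D : ℝ)| + 1) * (Y : ℝ) ^ (408 / 100 : ℝ) := by ring
        _ ≤ (Y : ℝ) ^ (2 / 100 : ℝ) * (Y : ℝ) ^ (408 / 100 : ℝ) :=
            mul_le_mul_of_nonneg_right e2 (by positivity)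
        _ = (Y : ℝ) ^ (41 / 10 : ℝ) := by
            rw [← Real.rpow_add hY0]
            norm_num
    have hres := almost Y (by omega) ζ υ (8 / 9) (41 / 10) 5 hζυ hυ0 hυ1 (by norm_num)
      (by rw [hυ, hτ]; norm_num) (D * (j : ℤ) ^ 2 + (n : ℤ) ^ 2).natAbs (Int.natAbs_ne_zero.2 hne)
      hsize hj2 (by
        intro q hq hqd
        exact hj3' q hq (Int.natCast_dvd.2 hqd))
    refine ⟨hj1, hres.1, fun p hp hpd => ?_⟩
    have h11 := hres.2 p hp (Int.natCast_dvd.1 hpd)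
    have e7 : ζ = 49 / 200 := by rw [hζ, hτ]; norm_num
    rwa [e7] at h11
  have h12 := card_le_card hsub
  have h13 : G.card ≤ (G \ Bd).card + Bd.card := by
    have := card_le_card_sdiff_add_card (s := G) (t := Bd)
    exact this
  have h14 : (G.card : ℝ) ≤ ((G \ Bd).card : ℝ) + (Bd.card : ℝ) := by exact_mod_cast h13
  have h15 : ((G \ Bd).card : ℝ) ≤ (((Icc 1 Y).filter (fun j : ℕ =>
          ((n : ℤ) ^ 2 + D * (j : ℤ) ^ 2).natAbs.primeFactorsList.length ≤ 5 ∧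
          ∀ p : ℕ, p.Prime → (p : ℤ) ∣ (n : ℤ) ^ 2 + D * (j : ℤ) ^ 2 →
            (Y : ℝ) ^ (49 / 200 : ℝ) ≤ p)).card : ℝ) := by exact_mod_cast h12
  have h16 : δ * c1 * (Y / Real.log Y) * φ = δ * c1 / 2 * (Y / Real.log Y) * φ +
    δ * c1 / 2 * (Y / Real.log Y) * φ := by ring
  linarith

end Pool.Agent.H530.SqD
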